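import Pool.Agent.Lib.GSX.Rec
import Pool.Agent.Lib.GSLE.Atoms
import Pool.Agent.Lib.GSLE.Thin
import Pool.Agent.Lib.TCW.XFin

/-!
# G4: atoms

The small sets of the isolated vertices and of the atoms, and the bit of the atoms: the law `n1` of
the node at a half prefix of conditional mass at least `c0` is not carried by the vertices `x` with
`xi2 * al x ≤ n0 x`.
-/

set_option autoImplicit false

namespace Pool.Agent.Lib.GSX

open Finset Classical
open Pool.Agent.Lib.GSLE (Lvl Low alp_pos)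
open Pool.Agent.Lib.TCW (ColG)

/-- The isolated vertices of a world. -/
theorem colG_iso {V : Type} (G : SimpleGraph V) (W : Finset V) :
    ColG G {v | v ∈ W ∧ ∀ y ∈ W, ¬ G.Adj v y} 1 :=
  ⟨fun _ => 0, fun _ _ => one_pos, fun _ hu v hv huv => absurd huv (hu.2 v hv.1)⟩

/-- The atoms of a measure. -/
theorem colG_atoms {V : Type} [Fintype V] (G : SimpleGraph V) {n : V → ℝ} (hn : ∀ x, 0 ≤ n x)
    {xi : ℝ} (hxi : 0 < xi) :
    ColG G {v | xi * ∑ z with G.Adj v z, n z < n v} ⌈1 / xi⌉₊ := by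
  obtain ⟨f, h1, h2⟩ := GSLE.atoms_col G n hn hxi Finset.univ
    (Finset.univ.filter fun v => xi * ∑ z with G.Adj v z, n z < n v) (Finset.subset_univ _)
    fun x hx => (Finset.mem_filter.1 hx).2
  exact ⟨f, fun v hv => h1 v (Finset.mem_filter.2 ⟨Finset.mem_univ _, hv⟩), fun u hu v hv =>
    h2 u (Finset.mem_filter.2 ⟨Finset.mem_univ _, hu⟩) v
      (Finset.mem_filter.2 ⟨Finset.mem_univ _, hv⟩)⟩

section

variable {V : Type} [Fintype V] {P : Cn} {G : SimpleGraph V} {I : Inp P V}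

/-- **G4.**  The first bit of a typical stage. -/
theorem at_rare {c0 K : ℝ} (hn0 : ∀ x, 0 ≤ I.n0 x) (hs0 : ∑ x, I.n0 x ≤ 1)
    (hn1 : ∀ x, 0 ≤ I.n1 x) (hs1 : ∑ x, I.n1 x = 1) (hc : 0 < c0)
    (hle : ∀ x, c0 * I.n1 x ≤ I.n0 x) (hK : 0 < K) (hW : ∀ x, I.n0 x ≠ 0 → x ∈ I.W)
    (hlv : ∀ y ∈ I.W, Lvl G I.n0 (al P G I) K y) (hx2 : 0 < P.xi2)
    (hat : ∀ x, I.n1 x ≠ 0 → I.n1 x ≤ P.xi1 * ∑ z with G.Adj x z, I.n1 z)
    (hx1 : 64 * K ^ 2 * P.xi1 < c0 ^ 2 * P.xi2 ^ 2) :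
    ∃ x, I.n1 x ≠ 0 ∧ I.n0 x < P.xi2 * al P G I x := by
  by_contra hcon
  push Not at hcon
  have ha : ∀ x, 0 < al P G I x := fun x => alp_pos _ _ _ _ x
  have hne : ∀ x, c0 * I.n1 x ≠ 0 → I.n1 x ≠ 0 := fun x h h0 => h (by rw [h0, mul_zero])
  have h1 := GSLE.atoms_le (n := I.n0) (n' := fun x => c0 * I.n1 x) (alp := al P G I) (c := c0)
    (C := 2 * K) (T := 1) (xi1 := P.xi1) (xi2 := P.xi2) G hn0 hs0
    (fun x => mul_nonneg hc.le (hn1 x)) hle hc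
    (by rw [← Finset.mul_sum, hs1, mul_one]) (by positivity) ha
    (fun x hx a ha' => (hlv x (hW x hx)).low hn0 ha a ha'.le) hx2 ?_
    (fun x hx => hcon x (hne x hx))
  · nlinarith
  · intro x hx
    have h2 := hat x (hne x hx)
    rw [← Finset.mul_sum]
    nlinarith [hc]

end

end Pool.Agent.Lib.GSX
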