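import Pool.Agent.Lib.GSX.Rec

/-!
# The data of one stage of the pool, in the form of `TCW/BX.lean`

`sg 0, sg 1, ...` are the stages of the pool, `j` is the index of the present stage `s = sg j`.
-/

set_option autoImplicit false

namespace Pool.Agent.Lib.GSX

open Finset Classical
open Pool.Agent.Lib.GSLE (hc win cells)

section

variable {V : Type} [Fintype V] (P : Cn) (G : SimpleGraph V) (S : Sta P V) (I : Inp P V)
  (T : Finset (Fin P.N)) (sg : ℕ → Fin P.N) (j : ℕ)

/-- The heights of the vertices. -/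
noncomputable def hB (c : ℕ) (x : V) : ℝ := if c = j then hs P G I x else ht P S (sg c) x

/-- The heights of the cells. -/
def HB (c : ℕ) (l : Ce P V) : ℤ := if c = j then -((l.1.2 : ℕ) : ℤ) else hc 1 l.2 (sg c)

/-- The hub of a cell. -/
def hub {P : Cn} {V : Type} (l : Ce P V) : V := l.1.1

/-- The scale of a cell. -/
def sca {P : Cn} {V : Type} (l : Ce P V) : ℕ := l.1.2

/-- The weight of a cell. -/
noncomputable def wB (l : Ce P V) : ℝ := rho P G S I T l / lv (sca l)

/-- The weight of a node. -/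
noncomputable def rB (x : V) : ℝ := I.n3 x / al P G I x

/-- The thickness of the cell `l` at the level `r` (a continuous function of the record). -/
noncomputable def TM (l0 : ℤ) (C : Finset ℕ) (r : ℕ) (l : Ce P V) : ℝ :=
  ∑ x, rB P G I x * (if G.Adj (hub l) x then 1 else 0) * win 1 (hs P G I x + r) *
    ∏ c ∈ C, rp (hB P G S I sg j c x - HB P sg j c l - l0 + 1)

/-- The stages of the game which belong to the indices in `S'`. -/
def img (S' : Finset ℕ) : Finset (Fin P.N) := S'.image sg

/-- The labels which are allowed (closed side): own mass at least `del`, not served, not thick. -/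
structure LabC (m : ℕ) (l0 : ℤ) (ε q : ℝ) (d : ℕ) (l : Ce P V) : Prop where
  hW : hub l ∈ I.W
  cel : l.2 ∈ cells P.N P.I0 T
  dD : P.del ≤ DD P G S I T l
  uns : ∀ S' ⊆ range j, S'.card = m → P.dl m ≤
    Rv P G S I T (img P sg S') l (I.q T (img P sg S') l) (I.mu T (img P sg S') l)
  thk : ∀ S' ⊆ range j, S'.card = m → ∀ r, r + d ≤ sca l →
    TM P G S I sg j l0 (insert j S') r l ≤ ε * q ^ (sca l - r)

/-- The labels which are allowed (open side). -/
structure LabO (m : ℕ) (l0 : ℤ) (ε q : ℝ) (d : ℕ) (l : Ce P V) : Prop where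
  hW : hub l ∈ I.W
  cel : l.2 ∈ cells P.N P.I0 T
  dD : P.del < DD P G S I T l
  uns : ∀ S' ⊆ range j, S'.card = m → P.dl m <
    Rv P G S I T (img P sg S') l (I.q T (img P sg S') l) (I.mu T (img P sg S') l)
  thk : ∀ S' ⊆ range j, S'.card = m → ∀ r, r + d ≤ sca l →
    TM P G S I sg j l0 (insert j S') r l < ε * q ^ (sca l - r)

theorem LabO.labC {m : ℕ} {l0 : ℤ} {ε q : ℝ} {d : ℕ} {l : Ce P V}
    (h : LabO P G S I T sg j m l0 ε q d l) : LabC P G S I T sg j m l0 ε q d l :=
  ⟨h.hW, h.cel, h.dD.le, fun S' h1 h2 => (h.uns S' h1 h2).le, fun S' h1 h2 r h3 =>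
    (h.thk S' h1 h2 r h3).le⟩

end

end Pool.Agent.Lib.GSX
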