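import Pool.Agent.Lib.GSX.Rec

/-!
# Signs of the functions of a record

Elementary facts about the definitions of `Rec.lean` which hold for every record: signs, values in
`[0, 1]`, the root equation of the scale, the total weights and the flux identities.
-/

set_option autoImplicit false

namespace Pool.Agent.Lib.GSX

open Finset Classical
open Pool.Agent.Lib.FGF (cm)
open Pool.Agent.Lib.GSLE (kp brw cl win stp Cel hc rhoC CC AC alp kp_nonneg kp_le_one kp_pos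
  win_nonneg win_le_one alp_eq alp_pos cl_nonneg brw_nonneg rhoC_nonneg CC_nonneg CC_le AC_nonneg)
open Pool.Agent.Lib.GSR (vioC vioC_nonneg vioC_le_one)

/-- Signs of the constants. -/
structure CPos (P : Cn) : Prop where
  e0 : 0 < P.e0
  eps1 : 0 < P.eps1
  del : 0 < P.del
  xi : 0 < P.xi
  cP : ∀ k, 0 < P.cP k
  cA : 0 < P.cA
  dl : ∀ k, 0 < P.dl k
  eta : ∀ k, 0 < P.eta k
  A : ∀ k, 0 ≤ P.A k
  A' : ∀ k, 0 ≤ P.A' k
  Z : ∀ k, 0 ≤ P.Z k
  Z' : ∀ k, 0 ≤ P.Z' k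
  Z'' : ∀ k, 0 ≤ P.Z'' k

/-- Signs of the state. -/
structure SPos {P : Cn} {V : Type} (S : Sta P V) : Prop where
  a : ∀ c x, 0 < S.a c x
  m : ∀ C x u, 0 ≤ S.m C x u
  F : ∀ x, 0 ≤ S.F x

/-- Signs of the input. -/
structure IPos {P : Cn} {V : Type} (I : Inp P V) : Prop where
  n0 : ∀ x, 0 ≤ I.n0 x
  n1 : ∀ x, 0 ≤ I.n1 x
  n2 : ∀ x, 0 ≤ I.n2 x
  n3 : ∀ x, 0 ≤ I.n3 x
  pi : ∀ l, 0 ≤ I.pi l
  q : ∀ T C l t, 0 ≤ I.q T C l t
  mu : ∀ T C l u, 0 ≤ I.mu T C l u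
  lp : ∀ C l u, 0 ≤ I.lp C l u
  la : ∀ T C l u, 0 ≤ I.la T C l u

namespace RecP_

theorem rp_nonneg (u : ℝ) : 0 ≤ rp u := le_max_left _ _

theorem rp_le_one (u : ℝ) : rp u ≤ 1 := max_le zero_le_one (min_le_left _ _)

theorem rp_eq_one {u : ℝ} (h : 1 ≤ u) : rp u = 1 := by
  unfold rp
  rw [min_eq_left h, max_eq_right zero_le_one]

theorem rp_eq_zero {u : ℝ} (h : u ≤ 0) : rp u = 0 := by
  unfold rp
  exact max_eq_left ((min_le_right _ _).trans h)

theorem pos_of_rp {u : ℝ} (h : rp u ≠ 0) : 0 < u := by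
  by_contra h1
  exact h (rp_eq_zero (not_lt.1 h1))

theorem lv_pos (i : ℕ) : 0 < lv i := by
  unfold lv
  positivity

/-- The charge of a nonnegative measure. -/
theorem cm_nonneg' {V : Type} [Fintype V] {G : SimpleGraph V} {r : V → ℝ} (h : ∀ u, 0 ≤ r u)
    (x : V) : 0 ≤ cm G r x :=
  Pool.Agent.Lib.GSR.Srv_.cm_nonneg h x

section

variable {V : Type} [Fintype V] {P : Cn} {G : SimpleGraph V} {s : Fin P.N} {S : Sta P V}
  {I : Inp P V}

omit [Fintype V] in
theorem inc_nonneg (W : Finset V) (x : V) (l : Ml P V) : 0 ≤ inc G W x l := by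
  unfold inc
  split_ifs <;> norm_num

omit [Fintype V] in
theorem inc_le_one (W : Finset V) (x : V) (l : Ml P V) : inc G W x l ≤ 1 := by
  unfold inc
  split_ifs <;> norm_num

omit [Fintype V] in
theorem inc_ne {W : Finset V} {x : V} {l : Ml P V} (h : inc G W x l ≠ 0) :
    G.Adj x l.1 ∧ l.1 ∈ W := by
  unfold inc at h
  by_contra h1
  exact h (if_neg h1)

/-! ### The scale -/

theorem al_pos (x : V) : 0 < al P G I x := alp_pos _ _ _ _ _

/-- The root equation. -/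
theorem al_eq (hP : 0 < P.e0) (hI : ∀ l, 0 ≤ I.pi l) (x : V) :
    P.e0 + ∑ l : Ml P V, inc G I.W x l * I.pi l * kp (al P G I x / lv l.2) = al P G I x :=
  alp_eq (fun _ => hP) (fun x l => inc_nonneg _ x l) hI x

theorem e0_le_al (hP : 0 < P.e0) (hI : ∀ l, 0 ≤ I.pi l) (x : V) : P.e0 ≤ al P G I x := by
  rw [← al_eq (G := G) hP hI x]
  refine le_add_of_nonneg_right (Finset.sum_nonneg fun l _ => ?_)
  exact mul_nonneg (mul_nonneg (inc_nonneg _ _ _) (hI l)) (kp_nonneg _)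

theorem kk_nonneg (g : ℝ) (x : V) (l : Ml P V) : 0 ≤ kk P G I g x l :=
  mul_nonneg (mul_nonneg (inc_nonneg _ _ _) (kp_nonneg _)) (win_nonneg _ _)

theorem kk_le (g : ℝ) (x : V) (l : Ml P V) :
    kk P G I g x l ≤ inc G I.W x l * kp (al P G I x / lv l.2) :=
  mul_le_of_le_one_right (mul_nonneg (inc_nonneg _ _ _) (kp_nonneg _)) (win_le_one _ _)

theorem kk_le_one (g : ℝ) (x : V) (l : Ml P V) : kk P G I g x l ≤ 1 :=
  (kk_le g x l).trans (mul_le_one₀ (inc_le_one _ _ _) (kp_nonneg _) (kp_le_one _))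

/-- Own pairs: the hub is an adjacent vertex of the world. -/
theorem kk_ne {g : ℝ} {x : V} {l : Ml P V} (h : kk P G I g x l ≠ 0) :
    G.Adj x l.1 ∧ l.1 ∈ I.W ∧ |hs P G I x + (l.2 : ℕ)| < g + 1 := by
  unfold kk at h
  have h1 := inc_ne (left_ne_zero_of_mul (left_ne_zero_of_mul h))
  exact ⟨h1.1, h1.2, GSLE.abs_lt_of_win (right_ne_zero_of_mul h)⟩

theorem sum_kk_le (hP : 0 < P.e0) (hI : ∀ l, 0 ≤ I.pi l) (g : ℝ) (x : V) :
    ∑ l : Ml P V, I.pi l * kk P G I g x l ≤ al P G I x - P.e0 := by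
  have h1 := al_eq (G := G) hP hI x
  have h2 : ∑ l : Ml P V, I.pi l * kk P G I g x l ≤
      ∑ l : Ml P V, inc G I.W x l * I.pi l * kp (al P G I x / lv l.2) := by
    refine Finset.sum_le_sum fun l _ => ?_
    calc I.pi l * kk P G I g x l ≤ I.pi l * (inc G I.W x l * kp (al P G I x / lv l.2)) :=
          mul_le_mul_of_nonneg_left (kk_le g x l) (hI l)
      _ = inc G I.W x l * I.pi l * kp (al P G I x / lv l.2) := by ring
  linarith

theorem out_nonneg (hI : ∀ l, 0 ≤ I.pi l) (x : V) : 0 ≤ out P G I x := by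
  unfold out
  refine Finset.sum_nonneg fun l _ => div_nonneg (mul_nonneg (mul_nonneg (mul_nonneg
    (inc_nonneg _ _ _) (hI l)) (kp_nonneg _)) ?_) (al_pos _).le
  linarith [win_le_one P.gU (hs P G I x + (l.2 : ℕ))]

/-! ### The cover -/

theorem Db_nonneg {n : V → ℝ} (hn : ∀ x, 0 ≤ n x) (i : Fin (P.I0 + 1)) (b : V) :
    0 ≤ Db P G I n i b :=
  Finset.sum_nonneg fun x _ => mul_nonneg (mul_nonneg (div_nonneg (hn x) (al_pos x).le)
    (win_nonneg _ _)) (cl_nonneg G x b)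

theorem fs_nonneg (b : V) : 0 ≤ fs P G I b :=
  le_min zero_le_one (Finset.sum_nonneg fun _ _ => le_max_left _ _)

theorem fs_le_one (b : V) : fs P G I b ≤ 1 := min_le_left _ _

theorem Fs_nonneg (hF : ∀ x, 0 ≤ S.F x) (b : V) : 0 ≤ Fs P G S I b :=
  add_nonneg (hF b) (fs_nonneg b)

theorem F_le_Fs (b : V) : S.F b ≤ Fs P G S I b := le_add_of_nonneg_right (fs_nonneg b)

/-! ### The labels of the hub mode -/

omit [Fintype V] in
theorem rich_nonneg (C : Finset (Fin P.N)) (x y : V) : 0 ≤ rich P S C x y :=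
  Finset.prod_nonneg fun _ _ => rp_nonneg _

omit [Fintype V] in
theorem rich_le_one (C : Finset (Fin P.N)) (x y : V) : rich P S C x y ≤ 1 :=
  Finset.prod_le_one (fun _ _ => rp_nonneg _) fun _ _ => rp_le_one _

omit [Fintype V] in
theorem rich_ne {C : Finset (Fin P.N)} {x y : V} (h : rich P S C x y ≠ 0) {c : Fin P.N}
    (hc : c ∈ C) : ht P S c x + P.lG < ht P S c y := by
  have := pos_of_rp (Finset.prod_ne_zero_iff.1 h c hc)
  linarith

theorem CP_nonneg (C : Finset (Fin P.N)) (x : V) (l : Ml P V) : 0 ≤ CP P G S I C x l :=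
  mul_nonneg (kk_nonneg _ _ _) (rich_nonneg _ _ _)

theorem CP_le (C : Finset (Fin P.N)) (x : V) (l : Ml P V) :
    CP P G S I C x l ≤ kk P G I P.g0 x l :=
  mul_le_of_le_one_right (kk_nonneg _ _ _) (rich_le_one _ _ _)

theorem PP_nonneg (hn : ∀ x, 0 ≤ I.n3 x) (C : Finset (Fin P.N)) (l : Ml P V) (x : V) :
    0 ≤ PP P G S I C l x :=
  div_nonneg (mul_nonneg (hn x) (CP_nonneg _ _ _)) (al_pos _).le

theorem wP_nonneg (hI : ∀ l, 0 ≤ I.pi l) (C : Finset (Fin P.N)) (l : Ml P V) (x : V) :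
    0 ≤ wP P G S I C l x :=
  div_nonneg (mul_nonneg (hI l) (CP_nonneg _ _ _)) (al_pos _).le

/-- The total weight of the hub mode. -/
theorem sum_wP_le (hP : 0 < P.e0) (hI : ∀ l, 0 ≤ I.pi l) (C : Finset (Fin P.N)) (x : V) :
    ∑ l, wP P G S I C l x ≤ 1 := by
  unfold wP
  rw [← Finset.sum_div, div_le_one (al_pos x)]
  have h1 := sum_kk_le (G := G) hP hI P.g0 x
  have h2 : ∑ l, I.pi l * CP P G S I C x l ≤ ∑ l : Ml P V, I.pi l * kk P G I P.g0 x l :=
    Finset.sum_le_sum fun l _ => mul_le_mul_of_nonneg_left (CP_le _ _ _) (hI l)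
  linarith

theorem wP_le_one (hP : 0 < P.e0) (hI : ∀ l, 0 ≤ I.pi l) (C : Finset (Fin P.N)) (l : Ml P V)
    (x : V) : wP P G S I C l x ≤ 1 :=
  (Finset.single_le_sum (f := fun l => wP P G S I C l x) (fun l _ => wP_nonneg hI C l x)
    (Finset.mem_univ l)).trans (sum_wP_le hP hI C x)

/-- The flux identity of the hub mode. -/
theorem n3_wP (C : Finset (Fin P.N)) (l : Ml P V) (x : V) :
    I.n3 x * wP P G S I C l x = I.pi l * PP P G S I C l x := by
  unfold wP PP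
  ring

/-! ### Cells -/

theorem rho_nonneg (hn : ∀ x, 0 ≤ I.n3 x) (hI : ∀ l, 0 ≤ I.pi l) (T : Finset (Fin P.N))
    (l : Ce P V) : 0 ≤ rho P G S I T l :=
  rhoC_nonneg hn (fun x => al_pos x) hI (fun x l => kk_nonneg _ x l) l

theorem AS_nonneg (hn : ∀ x, 0 ≤ I.n3 x) (hI : ∀ l, 0 ≤ I.pi l) (T : Finset (Fin P.N)) (x : V) :
    0 ≤ AS P G S I T x :=
  AC_nonneg hn (fun x => al_pos x) hI (fun x l => kk_nonneg _ x l) x

theorem gY_nonneg (T : Finset (Fin P.N)) (x : V) : 0 ≤ gY P G S I T x := rp_nonneg _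

theorem gY_le_one (T : Finset (Fin P.N)) (x : V) : gY P G S I T x ≤ 1 := rp_le_one _

/-- On the side `YES` of the item the soft sign is one. -/
theorem gY_eq_one (hP : 0 < P.eps1) {T : Finset (Fin P.N)} {x : V}
    (h : P.eps1 * al P G I x ≤ AS P G S I T x) : gY P G S I T x = 1 := by
  refine rp_eq_one ?_
  have h1 : 1 ≤ AS P G S I T x / (P.eps1 * al P G I x) :=
    (one_le_div (mul_pos hP (al_pos x))).2 h
  linarith

theorem half_lt_AS (hP : 0 < P.eps1) {T : Finset (Fin P.N)} {x : V} (h : gY P G S I T x ≠ 0) :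
    P.eps1 * al P G I x / 2 < AS P G S I T x := by
  have h1 := pos_of_rp h
  have h2 : 1 / 2 < AS P G S I T x / (P.eps1 * al P G I x) := by linarith
  rw [lt_div_iff₀ (mul_pos hP (al_pos x))] at h2
  linarith

theorem BS_pos (hP : 0 < P.eps1) (T : Finset (Fin P.N)) (x : V) : 0 < BS P G S I T x :=
  lt_of_lt_of_le (by have := mul_pos hP (al_pos (G := G) (I := I) x); linarith)
    (le_max_right _ _)

theorem AS_le_BS (T : Finset (Fin P.N)) (x : V) : AS P G S I T x ≤ BS P G S I T x :=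
  le_max_left _ _

theorem half_le_BS (T : Finset (Fin P.N)) (x : V) :
    P.eps1 * al P G I x / 2 ≤ BS P G S I T x := le_max_right _ _

theorem CS_nonneg (T : Finset (Fin P.N)) (x : V) (l : Ce P V) : 0 ≤ CS P G S I T x l :=
  mul_nonneg (CC_nonneg (fun x l => kk_nonneg _ x l) x l) (gY_nonneg _ _)

theorem CS_le_CC (T : Finset (Fin P.N)) (x : V) (l : Ce P V) :
    CS P G S I T x l ≤ CC 1 (ht P S) P.w0 T (kk P G I P.g0) x l :=
  mul_le_of_le_one_right (CC_nonneg (fun x l => kk_nonneg _ x l) x l) (gY_le_one _ _)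

theorem CS_le (T : Finset (Fin P.N)) (x : V) (l : Ce P V) :
    CS P G S I T x l ≤ kk P G I P.g0 x l.1 :=
  (CS_le_CC T x l).trans (CC_le (fun x l => kk_nonneg _ x l) x l)

/-- Own pairs of the cells. -/
theorem CS_ne {T : Finset (Fin P.N)} {x : V} {l : Ce P V} (h : CS P G S I T x l ≠ 0) :
    kk P G I P.g0 x l.1 ≠ 0 ∧ (∀ c ∈ T, |ht P S c x - hc 1 l.2 c| < P.w0 + 1) ∧
      gY P G S I T x ≠ 0 :=
  ⟨(GSLE.CC_ne (left_ne_zero_of_mul h)).1, (GSLE.CC_ne (left_ne_zero_of_mul h)).2,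
    right_ne_zero_of_mul h⟩

theorem PA_nonneg (hP : 0 < P.eps1) (hn : ∀ x, 0 ≤ I.n3 x) (T : Finset (Fin P.N)) (l : Ce P V)
    (x : V) : 0 ≤ PA P G S I T l x :=
  div_nonneg (mul_nonneg (hn x) (CS_nonneg _ _ _)) (BS_pos hP _ _).le

theorem DD_nonneg (hP : 0 < P.eps1) (hn : ∀ x, 0 ≤ I.n3 x) (T : Finset (Fin P.N)) (l : Ce P V) :
    0 ≤ DD P G S I T l :=
  Finset.sum_nonneg fun x _ => PA_nonneg hP hn T l x

theorem wA_nonneg (hP : 0 < P.eps1) (hn : ∀ x, 0 ≤ I.n3 x) (hI : ∀ l, 0 ≤ I.pi l)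
    (T : Finset (Fin P.N)) (l : Ce P V) (x : V) : 0 ≤ wA P G S I T l x :=
  div_nonneg (mul_nonneg (rho_nonneg hn hI T l) (CS_nonneg _ _ _)) (BS_pos hP _ _).le

/-- The total weight of the cells at `x`. -/
theorem sum_wA_eq (T : Finset (Fin P.N)) (x : V) :
    ∑ l, wA P G S I T l x = AS P G S I T x * gY P G S I T x / BS P G S I T x := by
  unfold wA
  rw [← Finset.sum_div]
  congr 1
  unfold AS AC
  rw [Finset.sum_mul]
  refine Finset.sum_congr rfl fun l _ => ?_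
  unfold rho CS
  ring

theorem sum_wA_le (hP : 0 < P.eps1) (T : Finset (Fin P.N)) (x : V) :
    ∑ l, wA P G S I T l x ≤ gY P G S I T x := by
  rw [sum_wA_eq, div_le_iff₀ (BS_pos hP T x), mul_comm]
  exact mul_le_mul_of_nonneg_left (AS_le_BS T x) (gY_nonneg T x)

theorem sum_wA_le_one (hP : 0 < P.eps1) (T : Finset (Fin P.N)) (x : V) :
    ∑ l, wA P G S I T l x ≤ 1 := (sum_wA_le hP T x).trans (gY_le_one T x)

/-- On the side `YES` of the item the total weight is one. -/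
theorem sum_wA_eq_one (hP : 0 < P.eps1) {T : Finset (Fin P.N)} {x : V}
    (h : P.eps1 * al P G I x ≤ AS P G S I T x) : ∑ l, wA P G S I T l x = 1 := by
  have h1 : BS P G S I T x = AS P G S I T x := by
    refine max_eq_left (le_trans ?_ h)
    have := mul_pos hP (al_pos (G := G) (I := I) x)
    linarith
  rw [sum_wA_eq, gY_eq_one hP h, mul_one, h1, div_self]
  rw [← h1]
  exact (BS_pos hP T x).ne'

/-- The flux identity of the cells. -/
theorem n3_wA (T : Finset (Fin P.N)) (l : Ce P V) (x : V) :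
    I.n3 x * wA P G S I T l x = rho P G S I T l * PA P G S I T l x := by
  unfold wA PA
  ring

/-- The flux of the cells. -/
theorem sum_n3_wA (T : Finset (Fin P.N)) (l : Ce P V) :
    ∑ x, I.n3 x * wA P G S I T l x = rho P G S I T l * DD P G S I T l := by
  unfold DD
  rw [Finset.mul_sum]
  exact Finset.sum_congr rfl fun x _ => n3_wA T l x

/-! ### Services -/

theorem hcost_nonneg (ha : ∀ c x, 0 < S.a c x) (C : Finset (Fin P.N)) (l : Ce P V) (t : V) :
    0 ≤ hcost P G S I C l t := by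
  unfold hcost
  refine add_nonneg (by split_ifs <;> norm_num) (Finset.sum_nonneg fun c _ => brw_nonneg _ ?_)
  exact div_nonneg (by positivity) (ha c t).le

theorem Mh_nonneg (hP : ∀ k, 0 ≤ P.A k) (hm : ∀ C x u, 0 ≤ S.m C x u) (C : Finset (Fin P.N))
    {q mu : V → ℝ} (hq : ∀ t, 0 ≤ q t) (hmu : ∀ u, 0 ≤ mu u) (u : V) :
    0 ≤ Mh P S C q mu u :=
  add_nonneg (mul_nonneg (hP _) (Finset.sum_nonneg fun t _ => mul_nonneg (hq t) (hm C t u)))
    (hmu u)

theorem Rv_nonneg (hP : CPos P) (hS : SPos S) (hI : IPos I) (T C : Finset (Fin P.N)) (l : Ce P V)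
    {q mu : V → ℝ} (hq : ∀ t, 0 ≤ q t) (hmu : ∀ u, 0 ≤ mu u) :
    0 ≤ Rv P G S I T C l q mu :=
  add_nonneg (add_nonneg vioC_nonneg (Finset.sum_nonneg fun x _ =>
    mul_nonneg (PA_nonneg hP.eps1 hI.n3 T l x)
      (cm_nonneg' (fun u => Mh_nonneg hP.A hS.m C hq hmu u) x)))
    (Finset.sum_nonneg fun t _ => mul_nonneg (hq t) (hcost_nonneg hS.a C l t))

theorem sv_nonneg (T C : Finset (Fin P.N)) (l : Ce P V) : 0 ≤ sv P G S I T C l :=
  mul_nonneg (rp_nonneg _) (rp_nonneg _)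

theorem sv_le_one (T C : Finset (Fin P.N)) (l : Ce P V) : sv P G S I T C l ≤ 1 :=
  mul_le_one₀ (rp_le_one _) (rp_nonneg _) (rp_le_one _)

/-- A label which is served has a small objective and a large own mass. -/
theorem sv_ne (hP : CPos P) {T C : Finset (Fin P.N)} {l : Ce P V} (h : sv P G S I T C l ≠ 0) :
    Rv P G S I T C l (I.q T C l) (I.mu T C l) < 2 * P.dl C.card ∧
      P.del / 2 < DD P G S I T l := by
  have h1 := pos_of_rp (left_ne_zero_of_mul h)
  have h2 := pos_of_rp (right_ne_zero_of_mul h)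
  constructor
  · have h3 : Rv P G S I T C l (I.q T C l) (I.mu T C l) / P.dl C.card < 2 := by linarith
    rwa [div_lt_iff₀ (hP.dl _)] at h3
  · have h3 : 1 / 2 < DD P G S I T l / P.del := by linarith
    rw [lt_div_iff₀ hP.del] at h3
    linarith

/-- A label with a small objective and a large own mass is completely served. -/
theorem sv_eq_one (hP : CPos P) {T C : Finset (Fin P.N)} {l : Ce P V}
    (h1 : Rv P G S I T C l (I.q T C l) (I.mu T C l) ≤ P.dl C.card)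
    (h2 : P.del ≤ DD P G S I T l) : sv P G S I T C l = 1 := by
  unfold sv
  have h3 : Rv P G S I T C l (I.q T C l) (I.mu T C l) / P.dl C.card ≤ 1 :=
    (div_le_one (hP.dl _)).2 h1
  have h4 : 1 ≤ DD P G S I T l / P.del := (one_le_div hP.del).2 h2
  rw [rp_eq_one (by linarith), rp_eq_one (by linarith), mul_one]

/-! ### Own steps -/

theorem RP_nonneg (hP : ∀ k, 0 < P.eta k) (hn : ∀ x, 0 ≤ I.n3 x) (C : Finset (Fin P.N))
    (l : Ml P V) {lam : V → ℝ} (hl : ∀ u, 0 ≤ lam u) (u : V) : 0 ≤ RP P G S I C l lam u :=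
  add_nonneg (add_nonneg (by split_ifs <;> norm_num) (hl u))
    (div_nonneg (PP_nonneg hn C l u) (hP _).le)

theorem MP_nonneg (hP : CPos P) (hS : SPos S) (hn : ∀ x, 0 ≤ I.n3 x) (C : Finset (Fin P.N))
    (l : Ml P V) {lam : V → ℝ} (hl : ∀ u, 0 ≤ lam u) (u : V) : 0 ≤ MP P G S I C l lam u :=
  add_nonneg (mul_nonneg (hP.A' _) (hS.m _ _ _)) (RP_nonneg hP.eta hn C l hl u)

theorem upsP_nonneg (C : Finset (Fin P.N)) (l : Ml P V) (lam : V → ℝ) (x : V) :
    0 ≤ upsP P G S I C l lam x := vioC_nonneg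

theorem upsP_le_one (hP : CPos P) (hS : SPos S) (hn : ∀ x, 0 ≤ I.n3 x) (C : Finset (Fin P.N))
    (l : Ml P V) {lam : V → ℝ} (hl : ∀ u, 0 ≤ lam u) (x : V) : upsP P G S I C l lam x ≤ 1 :=
  vioC_le_one fun u => add_nonneg (cm_nonneg' (fun u => MP_nonneg hP hS hn C l hl u) u)
    (mul_nonneg (hP.Z'' _) (Fs_nonneg hS.F u))

theorem objP_nonneg (hn : ∀ x, 0 ≤ I.n3 x) (C : Finset (Fin P.N)) (l : Ml P V) (lam : V → ℝ) :
    0 ≤ objP P G S I C l lam :=
  Finset.sum_nonneg fun x _ => mul_nonneg (PP_nonneg hn C l x) (upsP_nonneg C l lam x)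

theorem RA_nonneg (hP : CPos P) (hI : IPos I) (T C : Finset (Fin P.N)) (l : Ce P V)
    {lam : V → ℝ} (hl : ∀ u, 0 ≤ lam u) (u : V) : 0 ≤ RA P G S I T C l lam u :=
  add_nonneg (add_nonneg (add_nonneg (mul_nonneg (hP.A' _) (hI.mu _ _ _ _))
    (by split_ifs <;> norm_num)) (hl u))
    (div_nonneg (PA_nonneg hP.eps1 hI.n3 T l u) (hP.eta _).le)

theorem MA_nonneg (hP : CPos P) (hS : SPos S) (hI : IPos I) (T C : Finset (Fin P.N))
    (l : Ce P V) {lam : V → ℝ} (hl : ∀ u, 0 ≤ lam u) (u : V) : 0 ≤ MA P G S I T C l lam u :=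
  add_nonneg (mul_nonneg (hP.A' _) (mul_nonneg (hP.A _) (Finset.sum_nonneg fun t _ =>
    mul_nonneg (hI.q _ _ _ _) (hS.m _ _ _)))) (RA_nonneg hP hI T C l hl u)

theorem upsA_nonneg (T C : Finset (Fin P.N)) (l : Ce P V) (lam : V → ℝ) (x : V) :
    0 ≤ upsA P G S I T C l lam x := vioC_nonneg

theorem upsA_le_one (hP : CPos P) (hS : SPos S) (hI : IPos I) (T C : Finset (Fin P.N))
    (l : Ce P V) {lam : V → ℝ} (hl : ∀ u, 0 ≤ lam u) (x : V) :
    upsA P G S I T C l lam x ≤ 1 :=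
  vioC_le_one fun u => add_nonneg (cm_nonneg' (fun u => MA_nonneg hP hS hI T C l hl u) u)
    (mul_nonneg (hP.Z'' _) (Fs_nonneg hS.F u))

theorem objA_nonneg (hP : 0 < P.eps1) (hn : ∀ x, 0 ≤ I.n3 x) (T C : Finset (Fin P.N))
    (l : Ce P V) (lam : V → ℝ) : 0 ≤ objA P G S I T C l lam :=
  Finset.sum_nonneg fun x _ => mul_nonneg (PA_nonneg hP hn T l x) (upsA_nonneg T C l lam x)

/-! ### Scores, payment functions, masters -/

theorem ShP_nonneg (hP : CPos P) (hS : SPos S) (hI : IPos I) (C : Finset (Fin P.N)) (x : V) :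
    0 ≤ ShP P G S I C x :=
  Finset.sum_nonneg fun l _ => mul_nonneg (wP_nonneg hI.pi C l x)
    (sub_nonneg.2 (upsP_le_one hP hS hI.n3 C l (hI.lp C l) x))

theorem ShA_nonneg (hP : CPos P) (hS : SPos S) (hI : IPos I) (T C : Finset (Fin P.N)) (x : V) :
    0 ≤ ShA P G S I T C x :=
  Finset.sum_nonneg fun l _ => mul_nonneg (mul_nonneg (wA_nonneg hP.eps1 hI.n3 hI.pi T l x)
    (sv_nonneg _ _ _)) (sub_nonneg.2 (upsA_le_one hP hS hI T C l (hI.la T C l) x))

theorem kq_nonneg (i : ℕ) (u : V) : 0 ≤ kq P G I i u := Real.sqrt_nonneg _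

theorem kq_le_one (i : ℕ) (u : V) : kq P G I i u ≤ 1 :=
  Real.sqrt_le_one.2 (kp_le_one _)

theorem gpP_nonneg (hP : CPos P) (hI : IPos I) (C : Finset (Fin P.N)) (u : V) :
    0 ≤ gpP P G S I C u :=
  Finset.sum_nonneg fun l _ => mul_nonneg (hI.pi l) (mul_nonneg (kq_nonneg _ _)
    (div_nonneg (cm_nonneg' (fun u => RP_nonneg hP.eta hI.n3 C l (hI.lp C l) u) u)
      (al_pos _).le))

theorem gpA_nonneg (hP : CPos P) (hI : IPos I) (T C : Finset (Fin P.N)) (u : V) :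
    0 ≤ gpA P G S I T C u :=
  Finset.sum_nonneg fun l _ => mul_nonneg (rho_nonneg hI.n3 hI.pi T l)
    (mul_nonneg (kq_nonneg _ _) (div_nonneg (cm_nonneg'
      (fun u => RA_nonneg hP hI T C l (hI.la T C l) u) u) (al_pos _).le))

theorem cst_pos (hP : CPos P) (k : ℕ) : 0 < cst P k := lt_min (hP.cP k) hP.cA

theorem mst_nonneg (hP : CPos P) (hS : SPos S) (hI : IPos I) (C : Finset (Fin P.N)) (x u : V) :
    0 ≤ mst P G s S I C x u :=
  mul_nonneg (one_div_nonneg.2 (cst_pos hP _).le) (add_nonneg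
    (Finset.sum_nonneg fun l _ => mul_nonneg (wP_nonneg hI.pi C l x)
      (MP_nonneg hP hS hI.n3 C l (hI.lp C l) u))
    (Finset.sum_nonneg fun T _ => Finset.sum_nonneg fun l _ => mul_nonneg (mul_nonneg
      (wA_nonneg hP.eps1 hI.n3 hI.pi T l x) (sv_nonneg _ _ _))
      (MA_nonneg hP hS hI T C l (hI.la T C l) u)))

/-! ### The next state -/

theorem nxt_a_self (x : V) : (nxt P G s S I).a s x = al P G I x := if_pos rfl

theorem nxt_a_ne {c : Fin P.N} (h : c ≠ s) (x : V) : (nxt P G s S I).a c x = S.a c x := if_neg h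

theorem nxt_m_mem {C : Finset (Fin P.N)} (h : s ∈ C) (x u : V) :
    (nxt P G s S I).m C x u = mst P G s S I (C.erase s) x u := if_pos h

theorem nxt_m_not {C : Finset (Fin P.N)} (h : s ∉ C) (x u : V) :
    (nxt P G s S I).m C x u = S.m C x u := if_neg h

theorem nxt_F (b : V) : (nxt P G s S I).F b = Fs P G S I b := rfl

theorem nxt_spos (hP : CPos P) (hS : SPos S) (hI : IPos I) : SPos (nxt P G s S I) where
  a c x := by
    by_cases h : c = s
    · rw [h, nxt_a_self]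
      exact al_pos x
    · rw [nxt_a_ne h]
      exact hS.a c x
  m C x u := by
    by_cases h : s ∈ C
    · rw [nxt_m_mem h]
      exact mst_nonneg hP hS hI _ x u
    · rw [nxt_m_not h]
      exact hS.m C x u
  F b := Fs_nonneg hS.F b

end

end RecP_

end Pool.Agent.Lib.GSX
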