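import Pool.Agent.Lib.GSR.TypO
import Pool.Agent.Lib.GSX.RecP
import Pool.Agent.Lib.GSX.BDef

/-!
# Typical nodes have self-linked cells

`Lo` is any set of allowed cells of the item `T`.  Up to a set of small `n3`-mass, all the nodes
with a share at least `b` of allowed cells have an allowed self-linked cell.
-/

set_option autoImplicit false

namespace Pool.Agent.Lib.GSX

open Finset Classical
open Pool.Agent.Lib.GSR3 (Tree)
open Pool.Agent.Lib.FGF (Frac)
open Pool.Agent.Lib.GSLE (hc win cells)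
open RecP_

/-- The node `v` has an allowed self-linked cell. -/
def Lnk {V : Type} [Fintype V] (P : Cn) (G : SimpleGraph V) (S : Sta P V) (I : Inp P V)
    (T : Finset (Fin P.N)) (Lo : Ce P V → Prop) (ε : ℝ) (v : V) : Prop :=
  ∃ J : V → Ce P V → Prop, (∀ x l, J x l → Lo l ∧ 0 < CS P G S I T x l) ∧
    (∀ x l, J x l → ε ≤ TCH.kap Finset.univ Finset.univ J (rB P G I) (wB P G S I T) x l) ∧
    ∃ l, J v l

namespace B5_

section

variable {V : Type} [Fintype V] {P : Cn} {G : SimpleGraph V} {S : Sta P V} {I : Inp P V}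
  {T : Finset (Fin P.N)} {sg : ℕ → Fin P.N} {j : ℕ}

theorem rB_nonneg (hn : ∀ x, 0 ≤ I.n3 x) (x : V) : 0 ≤ rB P G I x :=
  div_nonneg (hn x) (al_pos x).le

theorem wB_nonneg (hn : ∀ x, 0 ≤ I.n3 x) (hI : ∀ l, 0 ≤ I.pi l) (l : Ce P V) :
    0 ≤ wB P G S I T l :=
  div_nonneg (rho_nonneg hn hI T l) (lv_pos _).le

omit [Fintype V] in
theorem zpow_HB (l : Ce P V) : (2 : ℝ) ^ (HB P sg j j l) = lv (sca l) := by
  unfold HB lv sca
  rw [if_pos rfl, zpow_neg, zpow_natCast, one_div, inv_pow]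

theorem rpow_hB (x : V) : (2 : ℝ) ^ (hB P G S I sg j j x) = al P G I x := by
  unfold hB hs
  rw [if_pos rfl]
  exact Real.rpow_logb (by norm_num) (by norm_num) (al_pos x)

theorem hB_sub_HB (x : V) (l : Ce P V) :
    hB P G S I sg j j x - (HB P sg j j l : ℤ) = hs P G I x + (sca l : ℕ) := by
  unfold hB HB sca
  rw [if_pos rfl, if_pos rfl]
  push_cast
  ring

/-- The flux of a pair. -/
theorem flux_le (hP : 0 < P.eps1) {C1 : ℝ} (hC : 2 / P.eps1 ≤ C1) (hn : ∀ x, 0 ≤ I.n3 x)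
    (hI : ∀ l, 0 ≤ I.pi l) (x : V) (l : Ce P V) :
    I.n3 x * wA P G S I T l x ≤
      C1 * ((2 : ℝ) ^ (HB P sg j j l) * rB P G I x * wB P G S I T l) := by
  rw [zpow_HB]
  have h1 : lv (sca l) * rB P G I x * wB P G S I T l = I.n3 x / al P G I x * rho P G S I T l := by
    unfold rB wB
    have := (lv_pos (sca l)).ne'
    field_simp
  rw [h1]
  have ha := al_pos (G := G) (I := I) x
  have hr := rho_nonneg (G := G) (S := S) hn hI T l
  have h2 : CS P G S I T x l / BS P G S I T x ≤ C1 * (1 / al P G I x) := by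
    have h3 : CS P G S I T x l ≤ 1 := (CS_le T x l).trans (kk_le_one _ _ _)
    have h4 := half_le_BS (G := G) (S := S) (I := I) T x
    have h5 : 0 < P.eps1 * al P G I x / 2 := by positivity
    calc CS P G S I T x l / BS P G S I T x ≤ 1 / (P.eps1 * al P G I x / 2) :=
          div_le_div₀ zero_le_one h3 h5 h4
      _ = 2 / P.eps1 * (1 / al P G I x) := by
          field_simp
      _ ≤ C1 * (1 / al P G I x) := mul_le_mul_of_nonneg_right hC (by positivity)
  calc I.n3 x * wA P G S I T l x =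
        I.n3 x * rho P G S I T l * (CS P G S I T x l / BS P G S I T x) := by
          unfold wA
          ring
    _ ≤ I.n3 x * rho P G S I T l * (C1 * (1 / al P G I x)) :=
        mul_le_mul_of_nonneg_left h2 (mul_nonneg (hn x) hr)
    _ = C1 * (I.n3 x / al P G I x * rho P G S I T l) := by ring

end

end B5_

open B5_

/-- Typical nodes have self-linked cells. -/
theorem b5 (M ht' : ℕ) (F K C1 b c : ℝ) (g0 w0 d : ℕ) (hM : 1 ≤ M) (hF : 1 ≤ F) (hK : 1 ≤ K)
    (hC : 0 < C1) (hb : 0 < b) (hcc : 0 < c) : ∃ ε : ℝ, 0 < ε ∧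
    ∀ (P : Cn) (V : Type) [Fintype V] (G : SimpleGraph V) (S : Sta P V) (I : Inp P V)
      (T : Finset (Fin P.N)) (sg : ℕ → Fin P.N) (j : ℕ) (Lo : Ce P V → Prop),
      Frac G F → (∀ φ : List (Fin M) → V, ¬ Tree G ht' M φ) →
      0 < P.eps1 → 2 / P.eps1 ≤ C1 → P.g0 + 1 ≤ g0 → P.w0 + 1 ≤ w0 → P.N ≤ d →
      (∀ x, 0 ≤ I.n3 x) → (∀ l, 0 ≤ I.pi l) → ∑ x, I.n3 x ≤ 1 →
      (∀ c < j, sg c ∈ T) → (∀ l, Lo l → l.2 ∈ cells P.N P.I0 T) →
      (∀ x, ∑ l with Lo l ∧ G.Adj x (hub l) ∧ |hs P G I x + (sca l : ℕ)| ≤ (g0 + 2 : ℝ),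
        wB P G S I T l ≤ K) →
      (∀ l, Lo l → ∑ x with G.Adj x (hub l) ∧ |hs P G I x + (sca l : ℕ)| ≤ (g0 + 2 : ℝ),
        rB P G I x ≤ K) →
      (∑ l with Lo l, rho P G S I T l ≤ K) →
        ∑ x with b ≤ (∑ l with Lo l, wA P G S I T l x) ∧ ¬ Lnk P G S I T Lo ε x, I.n3 x ≤ c := by
  obtain ⟨ε, hε, hS⟩ := GSR.stTypO M ht' F K C1 b c g0 w0 d hM hF (by linarith) hC hb hcc
  refine ⟨ε, hε, ?_⟩
  intro P V _ G S I T sg j Lo hFr hT hP hC1 hg0 hw0 hN hn hI hn1 hsg hcel hnw hnr hmw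
  obtain ⟨he, hhe⟩ : ∃ he : ℕ → V → ℝ, he = fun e x =>
    if h : e < P.N then (if (⟨e, h⟩ : Fin P.N) ∈ T then ht P S ⟨e, h⟩ x else 0) else 0 :=
    ⟨_, rfl⟩
  obtain ⟨He, hHe⟩ : ∃ He : ℕ → Ce P V → ℤ, He = fun e l =>
    if h : e < P.N then (if (⟨e, h⟩ : Fin P.N) ∈ T then hc 1 l.2 ⟨e, h⟩ else 0) else 0 :=
    ⟨_, rfl⟩
  have a1 : ∀ x ∈ (Finset.univ : Finset V), ∀ l ∈ (Finset.univ.filter Lo : Finset (Ce P V)),
      0 < CS P G S I T x l → G.Adj x (hub l) ∧
        |hB P G S I sg j j x - (HB P sg j j l : ℤ)| ≤ (g0 : ℝ) ∧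
        (∀ c < j, |hB P G S I sg j c x - (HB P sg j c l : ℤ)| ≤ (w0 : ℝ)) ∧
        ∀ e < d, |he e x - (He e l : ℤ)| ≤ (w0 : ℝ) := by
    intro x _ l _ h3
    obtain ⟨h4, h5, -⟩ := CS_ne h3.ne'
    obtain ⟨h6, h7, h8⟩ := kk_ne h4
    refine ⟨h6, ?_, ?_, ?_⟩
    · rw [hB_sub_HB]
      exact (h8.le.trans hg0)
    · intro c hcj
      unfold hB HB
      rw [if_neg hcj.ne, if_neg hcj.ne]
      exact (h5 _ (hsg c hcj)).le.trans hw0
    · intro e _
      rw [hhe, hHe]
      simp only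
      by_cases h9 : e < P.N
      · rw [dif_pos h9, dif_pos h9]
        by_cases h10 : (⟨e, h9⟩ : Fin P.N) ∈ T
        · rw [if_pos h10, if_pos h10]
          exact (h5 _ h10).le.trans hw0
        · rw [if_neg h10, if_neg h10]
          simp
      · rw [dif_neg h9, dif_neg h9]
        simp
  have a2 : ∀ l ∈ (Finset.univ.filter Lo : Finset (Ce P V)),
      ∀ l' ∈ (Finset.univ.filter Lo : Finset (Ce P V)), hub l = hub l' →
        HB P sg j j l = HB P sg j j l' → (∀ e < d, He e l = He e l') → l = l' := by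
    intro l hl l' hl' h3 h4 h5
    have h6 := Fintype.mem_piFinset.1 (hcel l (Finset.mem_filter.1 hl).2)
    have h7 := Fintype.mem_piFinset.1 (hcel l' (Finset.mem_filter.1 hl').2)
    have h8 : l.2 = l'.2 := by
      funext e
      by_cases h9 : e ∈ T
      · have h10 := h5 e (lt_of_lt_of_le e.2 hN)
        rw [hHe] at h10
        simp only [Fin.is_lt, dif_pos, Fin.eta, if_pos h9] at h10
        unfold hc at h10
        exact Fin.ext (by omega)
      · have h10 := h6 e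
        have h11 := h7 e
        rw [if_neg h9, Finset.mem_singleton] at h10 h11
        rw [h10, h11]
    have h9 : l.1.2 = l'.1.2 := by
      unfold HB at h4
      rw [if_pos rfl, if_pos rfl] at h4
      exact Fin.ext (by omega)
    exact Prod.ext (Prod.ext h3 h9) h8
  have a3 : ∀ x ∈ (Finset.univ : Finset V), ∑ l ∈ Finset.univ.filter Lo with G.Adj x (hub l) ∧
      |hB P G S I sg j j x - (HB P sg j j l : ℤ)| ≤ ((g0 + 2 : ℕ) : ℝ), wB P G S I T l ≤ K := by
    intro x _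
    refine le_trans (le_of_eq ?_) (hnw x)
    rw [Finset.filter_filter]
    refine Finset.sum_congr (Finset.filter_congr fun l _ => ?_) fun _ _ => rfl
    rw [hB_sub_HB]
    push_cast
    rfl
  have a4 : ∀ l ∈ (Finset.univ.filter Lo : Finset (Ce P V)), ∑ x with G.Adj x (hub l) ∧
      |hB P G S I sg j j x - (HB P sg j j l : ℤ)| ≤ ((g0 + 2 : ℕ) : ℝ), rB P G I x ≤ K := by
    intro l hl
    refine le_trans (le_of_eq ?_) (hnr l (Finset.mem_filter.1 hl).2)
    refine Finset.sum_congr (Finset.filter_congr fun x _ => ?_) fun _ _ => rfl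
    rw [hB_sub_HB]
    push_cast
    rfl
  have a5 : ∑ x, (2 : ℝ) ^ (hB P G S I sg j j x) * rB P G I x ≤ K := by
    refine le_trans (le_of_eq ?_) (hn1.trans hK)
    refine Finset.sum_congr rfl fun x _ => ?_
    rw [rpow_hB]
    unfold rB
    have := (al_pos (G := G) (I := I) x).ne'
    field_simp
  have a6 : ∑ l ∈ Finset.univ.filter Lo, (2 : ℝ) ^ (HB P sg j j l) * wB P G S I T l ≤ K := by
    refine le_trans (le_of_eq ?_) hmw
    refine Finset.sum_congr rfl fun l _ => ?_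
    rw [zpow_HB]
    unfold wB
    have := (lv_pos (sca l)).ne'
    field_simp
  have a7 : ∀ x ∈ (Finset.univ : Finset V), ∀ l ∈ (Finset.univ.filter Lo : Finset (Ce P V)),
      0 < CS P G S I T x l → 0 ≤ wA P G S I T l x ∧ I.n3 x * wA P G S I T l x ≤
        C1 * ((2 : ℝ) ^ (HB P sg j j l) * rB P G I x * wB P G S I T l) :=
    fun x _ l _ _ => ⟨wA_nonneg hP hn hI T l x, flux_le hP hC1 hn hI x l⟩
  obtain ⟨-, h2⟩ := hS j V (Ce P V) G Finset.univ (Finset.univ.filter Lo) hub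
    (fun x l => 0 < CS P G S I T x l) (hB P G S I sg j) (HB P sg j) he He (rB P G I)
    (wB P G S I T) I.n3 (fun x l => wA P G S I T l x) hFr hT (rB_nonneg hn) (wB_nonneg hn hI) hn
    a1 a2 a3 a4 a5 a6 a7
  refine le_trans (Finset.sum_le_sum_of_subset_of_nonneg ?_ fun x _ _ => hn x) h2
  intro x hx
  rw [GSR.SL_.mf] at hx ⊢
  refine ⟨hx.1, ?_, ?_⟩
  · refine le_trans hx.2.1 (le_of_eq ?_)
    rw [Finset.sum_filter (s := Finset.univ.filter Lo)]
    refine Finset.sum_congr rfl fun l _ => ?_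
    by_cases h3 : 0 < CS P G S I T x l
    · rw [if_pos h3]
    · rw [if_neg h3]
      have h4 : CS P G S I T x l = 0 := le_antisymm (not_lt.1 h3) (CS_nonneg T x l)
      unfold wA
      rw [h4, mul_zero, zero_div]
  · rintro ⟨J, hJ⟩
    refine hx.2.2 ⟨J, ?_, ?_, hJ.ne⟩
    · intro x l h3
      obtain ⟨-, h4, h5⟩ := hJ.mem x l h3
      exact ⟨(Finset.mem_filter.1 h4).2, h5⟩
    · intro x l h3
      refine (hJ.kp x l h3).trans ?_
      exact GSR.SL_.kap_mono (rB_nonneg hn) (wB_nonneg hn hI) (Finset.subset_univ _)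
        (Finset.subset_univ _) (fun _ _ _ _ h4 => h4) x (Finset.mem_univ _) l
        (hJ.mem x l h3).2.1

end Pool.Agent.Lib.GSX
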