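import Pool.Agent.Lib.GSX.PoolB

/-!
# The final alternative: a popular pool of type NO or of type YES

`t5`: the typical pairs `Ty` have weight at least `1 / 2`; there is a class `X` of weight at least
`kpp h N` which has one pool, one rank `m`, and either all the items of the pool are NO, or there
is a pool `Q` of `r + q` stages with last stage `s`, whose items `(TP Q s r j, sgP Q s r j)` are
YES.  `pop` is the choice of a pair outside of finitely many sets of small weight.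
-/

set_option autoImplicit false

namespace Pool.Agent.Lib.GSX

open Finset Classical

/-- The weight of the popular class. -/
noncomputable def kpp (h N : ℕ) : ℝ := 1 / (4 * (h : ℝ) * 2 ^ N)

lemma kpp_pos {h : ℕ} (hh : 1 ≤ h) (N : ℕ) : 0 < kpp h N := by
  unfold kpp
  have h1 : (1 : ℝ) ≤ h := by exact_mod_cast hh
  positivity

/-- The stages of type NO for the pairs in `X`: the pool `Q`. -/
structure PoolU {N : ℕ} {Ω : Type} (r : ℕ) (T : Ω → Finset (Fin N))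
    (M : Ω → Finset (Fin N) → Prop) (P B I : Ω → Finset (Fin N) → Fin N → Prop) (m : ℕ)
    (Q : Finset (Fin N)) (X : Finset Ω) : Prop where
  sub : ∀ ω ∈ X, Q ⊆ T ω
  mst : ∀ ω ∈ X, ∀ C, C ⊆ Q → C.card = m → M ω C
  no : ∀ ω ∈ X, ∀ C, C ⊆ Q → C.card = m → ∀ s ∈ Q, (∀ c ∈ C, c < s) → ¬ P ω C s ∧ ¬ B ω C s
  pr : ∀ ω ∈ X, ∀ c ∈ Q, ∀ s ∈ Q, c < s → ¬ P ω {c} s
  NO : ∀ ω ∈ X, ∀ S, S ⊆ Q → S.card = r → ∀ s ∈ Q, (∀ c ∈ S, c < s) → ¬ I ω S s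

/-- The stages `st 0 < ... < st (q - 1)` of type YES with the item sets `SS j` for the pairs
in `X`. -/
structure PoolB {N : ℕ} {Ω : Type} (r q : ℕ) (T : Ω → Finset (Fin N))
    (M : Ω → Finset (Fin N) → Prop) (P B I : Ω → Finset (Fin N) → Fin N → Prop) (m : ℕ)
    (st : ℕ → Fin N) (SS : ℕ → Finset (Fin N)) (X : Finset Ω) : Prop where
  mono : ∀ i j, i < j → j < q → st i < st j
  card : ∀ j < q, (SS j).card = r
  lt : ∀ j < q, ∀ c ∈ SS j, c < st j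
  mem : ∀ j < q, ∀ i < j, st i ∈ SS j
  sT : ∀ ω ∈ X, ∀ j < q, st j ∈ T ω
  ST : ∀ ω ∈ X, ∀ j < q, SS j ⊆ T ω
  YES : ∀ ω ∈ X, ∀ j < q, I ω (SS j) (st j)
  mst : ∀ ω ∈ X, ∀ j < q, ∀ C, C ⊆ SS j → C.card = m → M ω C
  no : ∀ ω ∈ X, ∀ j < q, ∀ C, C ⊆ SS j → C.card = m → ¬ P ω C (st j) ∧ ¬ B ω C (st j)
  pr : ∀ ω ∈ X, ∀ j < q, ∀ c ∈ SS j, ¬ P ω {c} (st j)
  prS : ∀ ω ∈ X, ∀ j < q, ∀ c ∈ SS j, ∀ d ∈ SS j, c < d → ¬ P ω {c} d

/-- **The final alternative.** -/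
theorem t5 (h r q L0 R : ℕ) (h1 : 1 ≤ h) (hq1 : 1 ≤ q) (hq : q ≤ r + 1) : ∃ N0 : ℕ,
    ∀ (N : ℕ) (Ω : Type) (w : Ω → ℝ) (Ty : Finset Ω) (T : Ω → Finset (Fin N))
      (M : Ω → Finset (Fin N) → Prop) (P B I : Ω → Finset (Fin N) → Fin N → Prop),
      (∀ ω, 0 ≤ w ω) →
      (∀ ω ∈ Ty, N0 ≤ (T ω).card ∧ SgF h L0 (M ω) (P ω) (B ω) (T ω)) →
      1 / 2 ≤ ∑ ω ∈ Ty, w ω →
        ∃ (m : ℕ) (X : Finset Ω), 1 ≤ m ∧ m < h ∧ X ⊆ Ty ∧ kpp h N ≤ ∑ ω ∈ X, w ω ∧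
          ((∃ Q : Finset (Fin N), R ≤ Q.card ∧ PoolU r T M P B I m Q X) ∨
            ∃ (Q : Finset (Fin N)) (s : Fin N), Q.card = r + q ∧ s ∈ Q ∧ (∀ c ∈ Q, c ≤ s) ∧
              PoolB r q T M P B I m (sgP Q s r) (TP Q s r) X) := by
  obtain ⟨N0, hN0⟩ := topSelF h r (R + (r + q)) L0 h1
  refine ⟨N0, ?_⟩
  intro N Ω w Ty T M P B I hw hT hTy
  have hne : Ty.Nonempty := by
    by_contra hcon
    rw [Finset.not_nonempty_iff_eq_empty] at hcon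
    rw [hcon, Finset.sum_empty] at hTy
    norm_num at hTy
  obtain ⟨Q, m, X, hQc, hm1, hmh, hXT, hwX, hX, hI⟩ := hN0 N Ω w Ty T M P B I hw hT hne
  have hkp : kpp h N ≤ ∑ ω ∈ X, w ω := by
    have h2 : (1 : ℝ) ≤ h := by exact_mod_cast h1
    have h3 : (0 : ℝ) < 2 * h * 2 ^ N := by positivity
    have h4 : (1 / 2 : ℝ) ≤ 2 * h * 2 ^ N * ∑ ω ∈ X, w ω := hTy.trans hwX
    unfold kpp
    rw [div_le_iff₀ (by positivity)]
    linarith
  refine ⟨m, X, hm1, hmh, hXT, hkp, ?_⟩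
  rcases hI with hI | hI
  · right
    obtain ⟨Q1, hQ1, hQ1c⟩ := Finset.exists_subset_card_eq
      (show r + q ≤ Q.card by rw [hQc]; omega)
    have hne1 : Q1.Nonempty := by
      rw [← Finset.card_pos, hQ1c]
      omega
    obtain ⟨s, hs⟩ : ∃ s, s = Q1.max' hne1 := ⟨_, rfl⟩
    have hsm : s ∈ Q1 := hs ▸ Finset.max'_mem Q1 hne1
    have hsl : ∀ c ∈ Q1, c ≤ s := fun c hc => hs ▸ Finset.le_max' Q1 c hc
    have h2 : ∀ j < q, sgP Q1 s r j ∈ Q := fun j hj => hQ1 (sgP_mem hQ1c hj)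
    have h3 : ∀ j < q, TP Q1 s r j ⊆ Q := fun j hj => (TP_sub hQ1c hj.le).trans hQ1
    have h4 : ∀ j < q, ∀ c ∈ TP Q1 s r j, c < sgP Q1 s r j := fun j hj c hc => TP_lt hQ1c hj hc
    refine ⟨Q1, s, hQ1c, hsm, hsl, fun i j hij hj => sgP_lt hQ1c hij hj,
      fun j hj => TP_card hQ1c hj.le, h4, fun j hj i hi => sgP_mem_TP hi (by omega),
      fun ω hω j hj => (hX ω hω).sub (h2 j hj),
      fun ω hω j hj => (h3 j hj).trans (hX ω hω).sub, fun ω hω j hj =>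
        hI ω hω _ (h3 j hj) (TP_card hQ1c hj.le) _ (h2 j hj) (h4 j hj),
      fun ω hω j hj C hC hCm => (hX ω hω).mst C (hC.trans (h3 j hj)) hCm,
      fun ω hω j hj C hC hCm => (hX ω hω).no C (hC.trans (h3 j hj)) hCm _ (h2 j hj)
        fun c hc => h4 j hj c (hC hc),
      fun ω hω j hj c hc => (hX ω hω).pr c (h3 j hj hc) _ (h2 j hj) (h4 j hj c hc),
      fun ω hω j hj c hc d hd hcd => (hX ω hω).pr c (h3 j hj hc) d (h3 j hj hd) hcd⟩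
  · left
    exact ⟨Q, by omega, fun ω hω => (hX ω hω).sub, fun ω hω => (hX ω hω).mst,
      fun ω hω => (hX ω hω).no, fun ω hω => (hX ω hω).pr, hI⟩

/-- A pair outside of finitely many sets of small weight. -/
theorem pop {Ω J : Type} (w : Ω → ℝ) (hw : ∀ ω, 0 ≤ w ω) (X : Finset Ω) {κ : ℝ}
    (hX : κ ≤ ∑ ω ∈ X, w ω) (s : Finset J) (Bad : J → Ω → Prop) (e : J → ℝ)
    (hB : ∀ j ∈ s, ∑ ω ∈ X with Bad j ω, w ω ≤ e j) (he : ∑ j ∈ s, e j < κ) :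
    ∃ ω ∈ X, w ω ≠ 0 ∧ ∀ j ∈ s, ¬ Bad j ω := by
  by_contra hcon
  push Not at hcon
  have h1 : ∑ ω ∈ X, w ω ≤ ∑ j ∈ s, ∑ ω ∈ X with Bad j ω, w ω := by
    have h2 : ∀ j ∈ s, ∑ ω ∈ X with Bad j ω, w ω = ∑ ω ∈ X, if Bad j ω then w ω else 0 :=
      fun j _ => Finset.sum_filter _ _
    rw [Finset.sum_congr rfl h2, Finset.sum_comm]
    refine Finset.sum_le_sum fun ω hω => ?_
    by_cases h0 : w ω = 0
    · rw [h0]
      exact Finset.sum_nonneg fun j _ => by split_ifs <;> exact le_rfl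
    · obtain ⟨j, hj, hjB⟩ := hcon ω hω h0
      refine le_trans (le_of_eq (if_pos hjB).symm) (Finset.single_le_sum
        (f := fun j => if Bad j ω then w ω else 0) (fun j _ => ?_) hj)
      split_ifs
      · exact hw ω
      · exact le_rfl
  have h3 := Finset.sum_le_sum hB
  linarith

end Pool.Agent.Lib.GSX
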