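import Pool.Agent.Lib.GSX.XPl
import Pool.Agent.Lib.GSX.T5

/-!
# The pools of the selection theorem, as pools on `Fin q`
-/

set_option autoImplicit false

namespace Pool.Agent.Lib.GSX

open Finset

/-- The pool of the selection theorem can be replaced by the extension of its restriction to the
first `q` indices. -/
theorem PoolB.exq {N : ℕ} {Ω : Type} {r q : ℕ} {T : Ω → Finset (Fin N)}
    {M : Ω → Finset (Fin N) → Prop} {P B I : Ω → Finset (Fin N) → Fin N → Prop} {m : ℕ}
    {st : ℕ → Fin N} {SS : ℕ → Finset (Fin N)} {X : Finset Ω}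
    (h : PoolB r q T M P B I m st SS X) (s : Fin N) :
    PoolB r q T M P B I m (GSX.exq s fun j : Fin q => st j)
      (GSX.exq ∅ fun j : Fin q => SS j) X where
  mono i j hij hj := by
    rw [exq_fun hj, exq_fun (hij.trans hj)]
    exact h.mono i j hij hj
  card j hj := by
    rw [exq_fun hj]
    exact h.card j hj
  lt j hj := by
    rw [exq_fun hj, exq_fun hj]
    exact h.lt j hj
  mem j hj i hi := by
    rw [exq_fun hj, exq_fun (hi.trans hj)]
    exact h.mem j hj i hi
  sT ω hω j hj := by
    rw [exq_fun hj]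
    exact h.sT ω hω j hj
  ST ω hω j hj := by
    rw [exq_fun hj]
    exact h.ST ω hω j hj
  YES ω hω j hj := by
    rw [exq_fun hj, exq_fun hj]
    exact h.YES ω hω j hj
  mst ω hω j hj := by
    rw [exq_fun hj]
    exact h.mst ω hω j hj
  no ω hω j hj := by
    rw [exq_fun hj, exq_fun hj]
    exact h.no ω hω j hj
  pr ω hω j hj := by
    rw [exq_fun hj, exq_fun hj]
    exact h.pr ω hω j hj
  prS ω hω j hj := by
    rw [exq_fun hj]
    exact h.prS ω hω j hj

theorem PoolB.plOk {N : ℕ} {Ω : Type} {r q : ℕ} {T : Ω → Finset (Fin N)}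
    {M : Ω → Finset (Fin N) → Prop} {P B I : Ω → Finset (Fin N) → Fin N → Prop} {m : ℕ}
    {st : ℕ → Fin N} {SS : ℕ → Finset (Fin N)} {X : Finset Ω}
    (h : PoolB r q T M P B I m st SS X) :
    PlOk (st (q - 1)) (fun j : Fin q => st j) (fun j : Fin q => SS j) where
  mono i j hij := h.mono i j hij j.2
  le j := by
    have hj := j.2
    rcases Nat.lt_or_ge j.1 (q - 1) with h1 | h1
    · exact (h.mono j (q - 1) h1 (by omega)).le
    · exact le_of_eq (congrArg st (by omega))
  mem i j hij := h.mem j j.2 i hij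
  lt j := h.lt j j.2

end Pool.Agent.Lib.GSX
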