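import Pool.Agent.Lib.GSX.XBrec
import Pool.Agent.Lib.GSX.XPt

/-!
# The pools of type YES

A class of pairs of positive weight with a pool of type YES contains a pair whose node lies in the
small set of the pool, so the exact tests of the game exclude this case.
-/

set_option autoImplicit false

namespace Pool.Agent.Lib.GSX

open Finset Classical
open Pool.Agent.Lib.TCW (FRec NrB NrS Cst)

namespace B7_

theorem exq_idem {α : Type} {q : ℕ} (s : α) (f : Fin q → α) :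
    exq s (fun j : Fin q => exq s f j) = exq s f := by
  funext j
  by_cases h : j < q
  · rw [exq_lt h, exq_lt h]
  · unfold exq
    rw [dif_neg h, dif_neg h]

theorem exq_last {α : Type} {q : ℕ} (hq : 1 ≤ q) (s : α) (g : ℕ → α) :
    exq s (fun j : Fin q => g j) (q - 1) = g (q - 1) :=
  exq_fun (by omega)

end B7_

open B7_

section

variable {V Θ Ω : Type} [Fintype V] {P : Cn} {G : SimpleGraph V}

/-- **A typical class with a pool of type YES contains a pair with the node in the small set.**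
`S ω c θ`, `I ω c θ` are the records of the pair `ω` at the stage `c`, `x ω` is its node. -/
theorem b7_mem (w : Ω → ℝ) (hw : ∀ ω, 0 ≤ w ω) (X : Finset Ω) {κ e : ℝ}
    (hX : κ ≤ ∑ ω ∈ X, w ω) {q m v0 d : ℕ} {k : Cst} {ε ρ K0 ek ek' η : ℝ} {θ : Θ}
    (he : q * e < κ) (S : Ω → Fin P.N → Θ → Sta P V) (I : Ω → Fin P.N → Θ → Inp P V)
    (x : Ω → V) (st : ℕ → Fin P.N) (SS : ℕ → Finset (Fin P.N)) (hv0 : P.g0 + 1 ≤ v0)
    (hw0 : P.w0 + 1 ≤ k.w0)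
    (hfold : ∀ ω ∈ X, ∀ j < q, ∀ c < j, ∀ y,
      (S ω (st j) θ).a (st c) y = al P G (I ω (st c) θ) y)
    (hbad : ∀ j < q, ∑ ω ∈ X with ¬ Lnk P G (S ω (st j) θ) (I ω (st j) θ) (SS j)
      (LabO P G (S ω (st j) θ) (I ω (st j) θ) (SS j) st j m k.l0 ε ρ d) ek' (x ω), w ω ≤ e)
    (hst : ∀ ω ∈ X, w ω ≠ 0 → ∀ j < q, Lnk P G (S ω (st j) θ) (I ω (st j) θ) (SS j)
        (LabO P G (S ω (st j) θ) (I ω (st j) θ) (SS j) st j m k.l0 ε ρ d) ek' (x ω) →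
      StX P G (S ω (st j) θ) (I ω (st j) θ) (SS j) st j m k.l0 ε ρ d k K0 ek η (x ω)) :
    ∃ ω ∈ X, w ω ≠ 0 ∧
      x ω ∈ (BF P G (S ω) (I ω) SS st m k.l0 ε ρ d).XB G v0 k K0 ek η m q θ := by
  obtain ⟨ω, hω, hω0, hB⟩ := pop w hw X hX (range q)
    (fun j ω => ¬ Lnk P G (S ω (st j) θ) (I ω (st j) θ) (SS j)
      (LabO P G (S ω (st j) θ) (I ω (st j) θ) (SS j) st j m k.l0 ε ρ d) ek' (x ω))
    (fun _ => e) (fun j hj => by convert hbad j (Finset.mem_range.1 hj)) (by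
      rw [Finset.sum_const, Finset.card_range, nsmul_eq_mul]
      exact he)
  refine ⟨ω, hω, hω0, mem_BF hv0 hw0 (hfold ω hω) fun j hj => ?_⟩
  exact hst ω hω hω0 j hj (not_not.1 (hB j (Finset.mem_range.2 hj)))

/-- **The pools of type YES are impossible.** -/
theorem b7 (w : Ω → ℝ) (hw : ∀ ω, 0 ≤ w ω) (X : Finset Ω) {κ e : ℝ}
    (hX : κ ≤ ∑ ω ∈ X, w ω) {r q m v0 d : ℕ} {k : Cst} {ε ρ K0 ek ek' η : ℝ} {θ : Θ}
    (hq : 1 ≤ q) (he : q * e < κ) (S : Ω → Fin P.N → Θ → Sta P V)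
    (I : Ω → Fin P.N → Θ → Inp P V) (x : Ω → V) (hv0 : P.g0 + 1 ≤ v0)
    (hw0 : P.w0 + 1 ≤ k.w0)
    (hfold : ∀ ω ∈ X, ∀ s c : Fin P.N, c < s → ∀ y, (S ω s θ).a c y = al P G (I ω c θ) y)
    {T : Ω → Finset (Fin P.N)} {M : Ω → Finset (Fin P.N) → Prop}
    {Pb B It : Ω → Finset (Fin P.N) → Fin P.N → Prop}
    (hpool : ∃ (st : ℕ → Fin P.N) (SS : ℕ → Finset (Fin P.N)),
      PoolB r q T M Pb B It m st SS X)
    (hbad : ∀ (st : ℕ → Fin P.N) (SS : ℕ → Finset (Fin P.N)), PoolB r q T M Pb B It m st SS X →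
      ∀ j < q, ∑ ω ∈ X with ¬ Lnk P G (S ω (st j) θ) (I ω (st j) θ) (SS j)
        (LabO P G (S ω (st j) θ) (I ω (st j) θ) (SS j) st j m k.l0 ε ρ d) ek' (x ω), w ω ≤ e)
    (hst : ∀ (st : ℕ → Fin P.N) (SS : ℕ → Finset (Fin P.N)), PoolB r q T M Pb B It m st SS X →
      ∀ ω ∈ X, w ω ≠ 0 → ∀ j < q, Lnk P G (S ω (st j) θ) (I ω (st j) θ) (SS j)
        (LabO P G (S ω (st j) θ) (I ω (st j) θ) (SS j) st j m k.l0 ε ρ d) ek' (x ω) →
      StX P G (S ω (st j) θ) (I ω (st j) θ) (SS j) st j m k.l0 ε ρ d k K0 ek η (x ω))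
    (hQ4 : ∀ ω ∈ X, w ω ≠ 0 → ∀ (s : Fin P.N) (f : Fin q → Fin P.N)
      (F : Fin q → Finset (Fin P.N)), PlOk s f F →
        x ω ∉ XPl P G (S ω) (I ω) v0 k K0 ek η ε ρ d m s f F θ) : False := by
  obtain ⟨st0, SS0, hp0⟩ := hpool
  have hp := hp0.exq (st0 (q - 1))
  obtain ⟨st, hstd⟩ : ∃ st, st = exq (st0 (q - 1)) fun j : Fin q => st0 j := ⟨_, rfl⟩
  obtain ⟨SS, hSSd⟩ : ∃ SS, SS = exq ∅ fun j : Fin q => SS0 j := ⟨_, rfl⟩
  rw [← hstd, ← hSSd] at hp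
  have h1 : exq (st0 (q - 1)) (fun j : Fin q => st j) = st := by
    rw [hstd]
    exact exq_idem _ _
  have h2 : exq ∅ (fun j : Fin q => SS j) = SS := by
    rw [hSSd]
    exact exq_idem _ _
  have h3 : st (q - 1) = st0 (q - 1) := by
    rw [hstd]
    exact exq_last hq _ _
  obtain ⟨ω, hω, hω0, hmem⟩ := b7_mem w hw X hX he S I x st SS hv0 hw0
    (fun ω hω j hj c hc y => hfold ω hω _ _ (hp.mono c j hc hj) y) (hbad st SS hp)
    (hst st SS hp)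
  refine hQ4 ω hω hω0 (st (q - 1)) (fun j => st j) (fun j => SS j) hp.plOk ⟨hp.plOk, ?_⟩
  rw [h3, h1, h2]
  exact hmem

end

end Pool.Agent.Lib.GSX
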