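import Pool.Agent.Lib.GSX.Sides

/-!
# The bits of one step: four groups of names

`B1, B2, B3, B4` are the types of the names of the bits of the four groups (atoms, UP systems,
thin vertices, all the others).  `enc` numbers the names, group after group, `lev β` is the number of
bits before the group of `β`: the function of `β` is evaluated at the half prefix with `lev β` bits.
-/

set_option autoImplicit false

namespace Pool.Agent.Lib.GSX

open Finset Classical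
open Pool.Agent.Lib.GSR Pool.Agent.Lib.GSR.HZ Pool.Agent.Lib.GSR.HZB

section bits

/-- The names of the bits. -/
abbrev Bn (B1 B2 B3 B4 : Type) : Type := ((B1 ⊕ B2) ⊕ B3) ⊕ B4

variable (B1 B2 B3 B4 : Type) [Fintype B1] [Fintype B2] [Fintype B3] [Fintype B4]

/-- The end of the first group. -/
def gr1 : ℕ := Fintype.card B1

/-- The end of the second group. -/
def gr2 : ℕ := Fintype.card B1 + Fintype.card B2

/-- The end of the third group. -/
def gr3 : ℕ := Fintype.card B1 + Fintype.card B2 + Fintype.card B3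

/-- The number of the bits. -/
def gr4 : ℕ := Fintype.card B1 + Fintype.card B2 + Fintype.card B3 + Fintype.card B4

/-- The numbering of the names. -/
noncomputable def enc : Bn B1 B2 B3 B4 ≃ Fin (gr4 B1 B2 B3 B4) :=
  (Equiv.sumCongr ((Equiv.sumCongr ((Equiv.sumCongr (Fintype.equivFin B1)
    (Fintype.equivFin B2)).trans finSumFinEquiv) (Fintype.equivFin B3)).trans finSumFinEquiv)
      (Fintype.equivFin B4)).trans finSumFinEquiv

/-- The start of the group of a bit. -/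
def stB (j : Fin (gr4 B1 B2 B3 B4)) : ℕ :=
  if j.1 < gr1 B1 then 0 else if j.1 < gr2 B1 B2 then gr1 B1 else
    if j.1 < gr3 B1 B2 B3 then gr2 B1 B2 else gr3 B1 B2 B3

lemma gr1_le : gr1 B1 ≤ gr2 B1 B2 := Nat.le_add_right _ _

lemma gr2_le : gr2 B1 B2 ≤ gr3 B1 B2 B3 := Nat.le_add_right _ _

lemma gr3_le : gr3 B1 B2 B3 ≤ gr4 B1 B2 B3 B4 := Nat.le_add_right _ _

lemma stB_le (j : Fin (gr4 B1 B2 B3 B4)) : stB B1 B2 B3 B4 j ≤ j.1 := by
  have h1 := gr1_le B1 B2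
  have h2 := gr2_le B1 B2 B3
  unfold stB
  split_ifs <;> omega

variable {B1 B2 B3 B4}

/-- The number of bits before the group of the name. -/
def lev : Bn B1 B2 B3 B4 → ℕ
  | .inl (.inl (.inl _)) => 0
  | .inl (.inl (.inr _)) => gr1 B1
  | .inl (.inr _) => gr2 B1 B2
  | .inr _ => gr3 B1 B2 B3

/-- The number of bits up to the end of the group of the name. -/
def lev' : Bn B1 B2 B3 B4 → ℕ
  | .inl (.inl (.inl _)) => gr1 B1
  | .inl (.inl (.inr _)) => gr2 B1 B2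
  | .inl (.inr _) => gr3 B1 B2 B3
  | .inr _ => gr4 B1 B2 B3 B4

lemma enc_mem (β : Bn B1 B2 B3 B4) :
    lev β ≤ (enc B1 B2 B3 B4 β).1 ∧ (enc B1 B2 B3 B4 β).1 < lev' β := by
  rcases β with ((β | β) | β) | β
  · refine ⟨Nat.zero_le _, ?_⟩
    show ((Fintype.equivFin B1) β).1 < Fintype.card B1
    exact Fin.is_lt _
  · constructor
    · show Fintype.card B1 ≤ Fintype.card B1 + ((Fintype.equivFin B2) β).1
      exact Nat.le_add_right _ _
    · show Fintype.card B1 + ((Fintype.equivFin B2) β).1 < Fintype.card B1 + Fintype.card B2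
      exact Nat.add_lt_add_left (Fin.is_lt _) _
  · constructor
    · show Fintype.card B1 + Fintype.card B2 ≤
        Fintype.card B1 + Fintype.card B2 + ((Fintype.equivFin B3) β).1
      exact Nat.le_add_right _ _
    · show Fintype.card B1 + Fintype.card B2 + ((Fintype.equivFin B3) β).1 <
        Fintype.card B1 + Fintype.card B2 + Fintype.card B3
      exact Nat.add_lt_add_left (Fin.is_lt _) _
  · constructor
    · show Fintype.card B1 + Fintype.card B2 + Fintype.card B3 ≤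
        Fintype.card B1 + Fintype.card B2 + Fintype.card B3 + ((Fintype.equivFin B4) β).1
      exact Nat.le_add_right _ _
    · show Fintype.card B1 + Fintype.card B2 + Fintype.card B3 + ((Fintype.equivFin B4) β).1 <
        Fintype.card B1 + Fintype.card B2 + Fintype.card B3 + Fintype.card B4
      exact Nat.add_lt_add_left (Fin.is_lt _) _

lemma stB_enc (β : Bn B1 B2 B3 B4) : stB B1 B2 B3 B4 (enc B1 B2 B3 B4 β) = lev β := by
  have h1 := gr1_le B1 B2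
  have h2 := gr2_le B1 B2 B3
  have h3 := enc_mem β
  unfold stB
  rcases β with ((β | β) | β) | β <;> simp only [lev, lev'] at h3 ⊢ <;> split_ifs <;> omega

lemma lev_le (β : Bn B1 B2 B3 B4) : lev β ≤ gr4 B1 B2 B3 B4 := by
  rw [← stB_enc]
  exact (stB_le B1 B2 B3 B4 _).trans (Fin.is_lt _).le

lemma lev'_le (β : Bn B1 B2 B3 B4) : lev' β ≤ gr4 B1 B2 B3 B4 := by
  have h1 := gr1_le B1 B2
  have h2 := gr2_le B1 B2 B3
  have h3 := gr3_le B1 B2 B3 B4
  rcases β with ((β | β) | β) | β <;> simp only [lev'] <;> omega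

/-- The functions of the bits from the functions of the names. -/
noncomputable def gB {V Θ : Type} {N : ℕ}
    (G : ℕ → Bn B1 B2 B3 B4 → Hi V N (gr4 B1 B2 B3 B4) → V → Θ → ℝ) (s : ℕ)
    (j : Fin (gr4 B1 B2 B3 B4)) : Hi V N (gr4 B1 B2 B3 B4) → V → Θ → ℝ :=
  G s ((enc B1 B2 B3 B4).symm j)

lemma gB_enc {V Θ : Type} {N : ℕ}
    (G : ℕ → Bn B1 B2 B3 B4 → Hi V N (gr4 B1 B2 B3 B4) → V → Θ → ℝ) (s : ℕ)
    (β : Bn B1 B2 B3 B4) : gB G s (enc B1 B2 B3 B4 β) = G s β := by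
  unfold gB
  rw [Equiv.symm_apply_apply]

/-- The bit with the name `β`. -/
noncomputable def bb {V : Type} {N : ℕ} (c : Hi V N (gr4 B1 B2 B3 B4)) (s : ℕ)
    (β : Bn B1 B2 B3 B4) : Bool := bt c s (enc B1 B2 B3 B4 β)

end bits

/-! ### The sides with names -/

section sides

variable {B1 B2 B3 B4 : Type} [Fintype B1] [Fintype B2] [Fintype B3] [Fintype B4]
  {V : Type} [Fintype V] {N : ℕ} {ι : Type} {Y : ι → Type} {I : Type}
  {col : Finset V → ℕ → Prop} {b : ℕ → ℕ} {Nx : ℕ → Hi V N (gr4 B1 B2 B3 B4) → Finset V}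
  {sx : I → ℕ} {X : ℕ → I → Hi V N (gr4 B1 B2 B3 B4) → V → Th V N (gr4 B1 B2 B3 B4) Y → Prop}
  {G : ℕ → Bn B1 B2 B3 B4 → Hi V N (gr4 B1 B2 B3 B4) → V → Th V N (gr4 B1 B2 B3 B4) Y → ℝ}
  {Q : Hi V N (gr4 B1 B2 B3 B4) × V → ℝ} {θ : Th V N (gr4 B1 B2 B3 B4) Y}

/-- The tests with named sides. -/
noncomputable def mkTsB {V Θ I : Type} {N : ℕ} (b : ℕ → ℕ)
    (Nx : ℕ → Hi V N (gr4 B1 B2 B3 B4) → Finset V) (sx : I → ℕ)
    (X : ℕ → I → Hi V N (gr4 B1 B2 B3 B4) → V → Θ → Prop)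
    (G : ℕ → Bn B1 B2 B3 B4 → Hi V N (gr4 B1 B2 B3 B4) → V → Θ → ℝ) :
    Ts V N (gr4 B1 B2 B3 B4) I Θ :=
  mkTs b Nx sx X (stB B1 B2 B3 B4) (gB G)

/-- Bit `true`. -/
theorem sidB_pos (h : Eqm col (mkTsB b Nx sx X G) Q θ) {c : Hi V N (gr4 B1 B2 B3 B4)}
    (hc : qc Q c ≠ 0) {s : ℕ} (hs : s < N) {β : Bn B1 B2 B3 B4} (hb : bb c s β = true) {v : V}
    (hv : v ∈ wo c (s + 1)) : 0 ≤ G s β (hp s (lev β) c) v θ := by
  have h1 := side_pos h (stB_le B1 B2 B3 B4) hc hs hb hv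
  rwa [gB_enc, stB_enc] at h1

/-- Bit `false`. -/
theorem sidB_neg (h : Eqm col (mkTsB b Nx sx X G) Q θ) {c : Hi V N (gr4 B1 B2 B3 B4)}
    (hc : qc Q c ≠ 0) {s : ℕ} (hs : s < N) {β : Bn B1 B2 B3 B4} (hb : bb c s β = false) {v : V}
    (hv : v ∈ wo c (s + 1)) : G s β (hp s (lev β) c) v θ ≤ 0 := by
  have h1 := side_neg h (stB_le B1 B2 B3 B4) hc hs hb hv
  rwa [gB_enc, stB_enc] at h1

/-- The dichotomy. -/
theorem sidB_or (h : Eqm col (mkTsB b Nx sx X G) Q θ) {c : Hi V N (gr4 B1 B2 B3 B4)}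
    (hc : qc Q c ≠ 0) {s : ℕ} (hs : s < N) (β : Bn B1 B2 B3 B4) :
    (bb c s β = true ∧ ∀ v ∈ wo c (s + 1), 0 ≤ G s β (hp s (lev β) c) v θ) ∨
      (bb c s β = false ∧ ∀ v ∈ wo c (s + 1), G s β (hp s (lev β) c) v θ ≤ 0) := by
  cases hb : bb c s β
  · exact Or.inr ⟨rfl, fun v hv => sidB_neg h hc hs hb hv⟩
  · exact Or.inl ⟨rfl, fun v hv => sidB_pos h hc hs hb hv⟩

/-- The side of a bit at a node in the support of a law after the group of the bit. -/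
theorem supB_pos (h : Eqm col (mkTsB b Nx sx X G) Q θ) {c : Hi V N (gr4 B1 B2 B3 B4)}
    (hc : qc Q c ≠ 0) {s : ℕ} (hs : s < N) {β : Bn B1 B2 B3 B4} {k : ℕ} (hjk : lev' β ≤ k)
    (hk : k ≤ gr4 B1 B2 B3 B4) {x : V} (hx : nh θ s k (hp s k c) x ≠ 0)
    (hb : bb c s β = true) : 0 ≤ G s β (hp s (lev β) c) x θ := by
  have h1 := supp_pos h (stB_le B1 B2 B3 B4) hc hs ((enc_mem β).2.trans_le hjk) hk hx hb
  rwa [gB_enc, stB_enc] at h1

/-- The same for the other side. -/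
theorem supB_neg (h : Eqm col (mkTsB b Nx sx X G) Q θ) {c : Hi V N (gr4 B1 B2 B3 B4)}
    (hc : qc Q c ≠ 0) {s : ℕ} (hs : s < N) {β : Bn B1 B2 B3 B4} {k : ℕ} (hjk : lev' β ≤ k)
    (hk : k ≤ gr4 B1 B2 B3 B4) {x : V} (hx : nh θ s k (hp s k c) x ≠ 0)
    (hb : bb c s β = false) : G s β (hp s (lev β) c) x θ ≤ 0 := by
  have h1 := supp_neg h (stB_le B1 B2 B3 B4) hc hs ((enc_mem β).2.trans_le hjk) hk hx hb
  rwa [gB_enc, stB_enc] at h1

/-- **Rare sides.** -/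
theorem rarB_pos (h : Eqm col (mkTsB b Nx sx X G) Q θ) {c : Hi V N (gr4 B1 B2 B3 B4)}
    (hc : qc Q c ≠ 0) {c0 : ℝ} (hT : Typ Q c0 c) (hc0 : 0 ≤ c0) {s : ℕ} (hs : s < N)
    (β : Bn B1 B2 B3 B4)
    (hP : ∑ x ∈ Finset.univ.filter (fun x => 0 ≤ G s β (hp s (lev β) c) x θ),
      nh θ s (lev β) (hp s (lev β) c) x < c0) :
    bb c s β = false ∧ ∀ v ∈ wo c (s + 1), G s β (hp s (lev β) c) v θ ≤ 0 := by
  have h1 := rare_pos h (stB_le B1 B2 B3 B4) hc hT hc0 hs (enc B1 B2 B3 B4 β)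
    (k := lev β) (enc_mem β).1
  rw [gB_enc, stB_enc] at h1
  exact h1 hP

/-- The same for the other side. -/
theorem rarB_neg (h : Eqm col (mkTsB b Nx sx X G) Q θ) {c : Hi V N (gr4 B1 B2 B3 B4)}
    (hc : qc Q c ≠ 0) {c0 : ℝ} (hT : Typ Q c0 c) (hc0 : 0 ≤ c0) {s : ℕ} (hs : s < N)
    (β : Bn B1 B2 B3 B4)
    (hR : ∑ x ∈ Finset.univ.filter (fun x => G s β (hp s (lev β) c) x θ ≤ 0),
      nh θ s (lev β) (hp s (lev β) c) x < c0) :
    bb c s β = true ∧ ∀ v ∈ wo c (s + 1), 0 ≤ G s β (hp s (lev β) c) v θ := by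
  have h1 := rare_neg h (stB_le B1 B2 B3 B4) hc hT hc0 hs (enc B1 B2 B3 B4 β)
    (k := lev β) (enc_mem β).1
  rw [gB_enc, stB_enc] at h1
  exact h1 hR

/-- **Rare families of sides** of one group (or of several groups; `k` is any level). -/
theorem rarB_all (h : Eqm col (mkTsB b Nx sx X G) Q θ) {c : Hi V N (gr4 B1 B2 B3 B4)}
    (hc : qc Q c ≠ 0) {c0 : ℝ} (hT : Typ Q c0 c) (hc0 : 0 ≤ c0) {s : ℕ} (hs : s < N)
    {κ : Type} (J : Set κ) (β : κ → Bn B1 B2 B3 B4) {k : ℕ} (hk : k ≤ gr4 B1 B2 B3 B4)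
    (hP : ∑ x ∈ Finset.univ.filter
      (fun x => ∀ j ∈ J, 0 ≤ G s (β j) (hp s (lev (β j)) c) x θ), nh θ s k (hp s k c) x < c0) :
    ∃ j ∈ J, bb c s (β j) = false := by
  by_contra hcon
  push Not at hcon
  refine absurd hP (not_lt.2 (mass_from h hc hT hc0 hs hk le_rfl _ fun c' x hc' hx => ?_))
  rw [Finset.mem_filter]
  refine ⟨Finset.mem_univ _, fun j hj => ?_⟩
  rw [← hp_mono (Or.inr ⟨rfl, lev_le (β j)⟩) hc']
  have h1 : bt c s (enc B1 B2 B3 B4 (β j)) = true := Bool.eq_true_of_not_eq_false (hcon j hj)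
  exact sidB_pos h (h.qc_ne hx) hs ((bt_eq_of_hp hc' (Fin.is_lt _)).trans h1)
    (h.mem_wo hx (by omega))

/-- **Exact tests** on the next world. -/
theorem exaB (h : Eqm col (mkTsB b Nx sx X G) Q θ) (hsx : ∀ i, sx i ≤ gr4 B1 B2 B3 B4)
    {c : Hi V N (gr4 B1 B2 B3 B4)} (hc : qc Q c ≠ 0) {s : ℕ} (hs : s < N) (i : I) {v : V}
    (hv : v ∈ wo c (s + 1)) : ¬ X s i (hp s (sx i) c) v θ :=
  exact h hsx hc hs i hv

/-- Exact tests at a node in the support of a conditional law. -/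
theorem supB_exact (h : Eqm col (mkTsB b Nx sx X G) Q θ) (hsx : ∀ i, sx i ≤ gr4 B1 B2 B3 B4)
    {c : Hi V N (gr4 B1 B2 B3 B4)} (hc : qc Q c ≠ 0) {s : ℕ} (hs : s < N) {i : I} {k : ℕ}
    (hik : sx i ≤ k) (hk : k ≤ gr4 B1 B2 B3 B4) {x : V} (hx : nh θ s k (hp s k c) x ≠ 0) :
    ¬ X s i (hp s (sx i) c) x θ :=
  supp_exact h hsx hc hs hik hk hx

end sides

end Pool.Agent.Lib.GSX
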