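import Pool.Agent.Lib.GSX.Rec
import Pool.Agent.Lib.GSX.Bits
import Pool.Agent.Lib.GSR.Crd

/-!
# The coordinates of the game and the records along a history

`Ix` are the indices of the ordinary coordinates of the game, `Bn` the names of the bits of a step,
in four groups (`g1`, `g2`, `g3` are the places where the groups 2, 3, 4 begin).  `inpt θ s p` is
the input of the stage `s` and `stt θ p s` the state before the stage `s` for the history `p`.
-/

set_option autoImplicit false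

namespace Pool.Agent.Lib.GSX

open Finset Classical
open Pool.Agent.Lib.GSR Pool.Agent.Lib.GSR.HZ Pool.Agent.Lib.GSR.HZB

/-! ### The bits -/

/-- The bits of the UP systems: the scale, the score and the payments. -/
abbrev K2 (P : Cn) : Type := Fin 2 × Fin P.h × Fin 3

/-- The bits of the last group: `0` the share outside the absolute window, `1` the scores of the
hub mode, `2` the scores of the items, `3` the items, `4` the payments of the hub mode, `5` the
payments of the items. -/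
abbrev K4 (P : Cn) : Type := Fin 6 × Finset (Fin P.N) × Finset (Fin P.N)

/-- The names of the bits. -/
abbrev Bt (P : Cn) : Type := Bn (Fin 1) (K2 P) (Fin 1) (K4 P)

/-- The number of the bits. -/
noncomputable abbrev nb (P : Cn) : ℕ := gr4 (Fin 1) (K2 P) (Fin 1) (K4 P)

/-- The first place of the second group. -/
abbrev g1 : ℕ := gr1 (Fin 1)

/-- The place of the thin bit. -/
noncomputable abbrev g2 (P : Cn) : ℕ := gr2 (Fin 1) (K2 P)

/-- The first place of the last group. -/
noncomputable abbrev g3 (P : Cn) : ℕ := gr3 (Fin 1) (K2 P) (Fin 1)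

/-- The name of the bit of the atoms. -/
def bAtm (P : Cn) : Bt P := .inl (.inl (.inl 0))

/-- The names of the bits of the UP systems. -/
def bUp (P : Cn) (k : K2 P) : Bt P := .inl (.inl (.inr k))

/-- The name of the thin bit. -/
def bThin (P : Cn) : Bt P := .inl (.inr 0)

/-- The names of the bits of the last group. -/
def bK (P : Cn) (k : K4 P) : Bt P := .inr k

@[simp] lemma lev_bAtm (P : Cn) : lev (bAtm P) = 0 := rfl

@[simp] lemma lev_bUp (P : Cn) (k : K2 P) : lev (bUp P k) = g1 := rfl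

@[simp] lemma lev_bThin (P : Cn) : lev (bThin P) = g2 P := rfl

@[simp] lemma lev_bK (P : Cn) (k : K4 P) : lev (bK P k) = g3 P := rfl

@[simp] lemma lev'_bAtm (P : Cn) : lev' (bAtm P) = g1 := rfl

@[simp] lemma lev'_bUp (P : Cn) (k : K2 P) : lev' (bUp P k) = g2 P := rfl

@[simp] lemma lev'_bThin (P : Cn) : lev' (bThin P) = g3 P := rfl

@[simp] lemma lev'_bK (P : Cn) (k : K4 P) : lev' (bK P k) = nb P := rfl

lemma g1_le_g2 (P : Cn) : g1 ≤ g2 P := gr1_le _ _

lemma g2_lt_g3 (P : Cn) : g2 P < g3 P := by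
  show gr2 (Fin 1) (K2 P) < gr3 (Fin 1) (K2 P) (Fin 1)
  unfold gr2 gr3
  rw [Fintype.card_fin]
  omega

lemma g3_le_nb (P : Cn) : g3 P ≤ nb P := gr3_le _ _ _ _

/-! ### The indices of the coordinates -/

/-- Histories. -/
abbrev Hh (P : Cn) (V : Type) : Type := Hi V P.N (nb P)

/-- The indices of the ordinary coordinates. -/
inductive Ix (P : Cn) (V : Type) : Type
  | pi (s : Fin P.N) (p : Hh P V)
  | sg (s : Fin P.N) (p : Hh P V) (a : Fin 2) (j : Fin P.h)
  | su (s : Fin P.N) (p : Hh P V) (a : Fin 2) (j : Fin P.h) (l : Ml P V)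
  | sv (s : Fin P.N) (p : Hh P V) (T C : Finset (Fin P.N)) (l : Ce P V)
  | lp (s : Fin P.N) (p : Hh P V) (C : Finset (Fin P.N)) (l : Ml P V)
  | la (s : Fin P.N) (p : Hh P V) (T C : Finset (Fin P.N)) (l : Ce P V)

namespace Inst_

/-- The code of an index. -/
def code {P : Cn} {V : Type} : Ix P V →
    (Fin P.N × Hh P V) ⊕ (Fin P.N × Hh P V × Fin 2 × Fin P.h) ⊕
    (Fin P.N × Hh P V × Fin 2 × Fin P.h × Ml P V) ⊕
    (Fin P.N × Hh P V × Finset (Fin P.N) × Finset (Fin P.N) × Ce P V) ⊕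
    (Fin P.N × Hh P V × Finset (Fin P.N) × Ml P V) ⊕
    (Fin P.N × Hh P V × Finset (Fin P.N) × Finset (Fin P.N) × Ce P V)
  | .pi s p => .inl (s, p)
  | .sg s p a j => .inr (.inl (s, p, a, j))
  | .su s p a j l => .inr (.inr (.inl (s, p, a, j, l)))
  | .sv s p T C l => .inr (.inr (.inr (.inl (s, p, T, C, l))))
  | .lp s p C l => .inr (.inr (.inr (.inr (.inl (s, p, C, l)))))
  | .la s p T C l => .inr (.inr (.inr (.inr (.inr (s, p, T, C, l)))))

lemma code_injective {P : Cn} {V : Type} : Function.Injective (code (P := P) (V := V)) := by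
  intro x y h
  cases x <;> cases y <;> simp [code] at h ⊢ <;> assumption

end Inst_

noncomputable instance {P : Cn} {V : Type} [Fintype V] : Fintype (Ix P V) := by
  haveI i1 : Fintype (Fin P.N × Hh P V × Finset (Fin P.N) × Ml P V) := inferInstance
  haveI i2 : Fintype (Fin P.N × Hh P V × Finset (Fin P.N) × Finset (Fin P.N) × Ce P V) :=
    inferInstance
  haveI i3 : Fintype ((Fin P.N × Hh P V × Finset (Fin P.N) × Ml P V) ⊕
      (Fin P.N × Hh P V × Finset (Fin P.N) × Finset (Fin P.N) × Ce P V)) := inferInstance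
  haveI i4 : Fintype ((Fin P.N × Hh P V × Finset (Fin P.N) × Finset (Fin P.N) × Ce P V) ⊕
      (Fin P.N × Hh P V × Finset (Fin P.N) × Ml P V) ⊕
      (Fin P.N × Hh P V × Finset (Fin P.N) × Finset (Fin P.N) × Ce P V)) := inferInstance
  haveI i5 : Fintype (Fin P.N × Hh P V × Fin 2 × Fin P.h × Ml P V) := inferInstance
  haveI i6 : Fintype (Fin P.N × Hh P V × Fin 2 × Fin P.h) := inferInstance
  haveI i7 : Fintype (Fin P.N × Hh P V) := inferInstance
  exact Fintype.ofInjective Inst_.code Inst_.code_injective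

/-- The index sets of the coordinates. -/
def Yi (P : Cn) (V : Type) : Ix P V → Type
  | .pi _ _ => Ml P V
  | .sg _ _ _ _ => Ml P V
  | .su _ _ _ _ _ => V
  | .sv _ _ _ _ _ => V ⊕ V
  | .lp _ _ _ _ => V
  | .la _ _ _ _ _ => V

noncomputable instance {P : Cn} {V : Type} [Fintype V] : ∀ i : Ix P V, Fintype (Yi P V i)
  | .pi _ _ => inferInstanceAs (Fintype (Ml P V))
  | .sg _ _ _ _ => inferInstanceAs (Fintype (Ml P V))
  | .su _ _ _ _ _ => inferInstanceAs (Fintype V)
  | .sv _ _ _ _ _ => inferInstanceAs (Fintype (V ⊕ V))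
  | .lp _ _ _ _ => inferInstanceAs (Fintype V)
  | .la _ _ _ _ _ => inferInstanceAs (Fintype V)

/-- The parameters. -/
abbrev Tht (P : Cn) (V : Type) : Type := Th V P.N (nb P) (Yi P V)

section

variable {V : Type} [Fintype V]

/-- The world of the stage `s`, or everything. -/
noncomputable def wn (P : Cn) (s : Fin P.N) (p : Hh P V) : Finset V := nes (wo p s)

/-- The domains of the coordinates. -/
def Ki (P : Cn) : ∀ i : Ix P V, Set (Yi P V i → ℝ)
  | .pi s p => LawOn (Y := Ml P V) (wn P s p ×ˢ Finset.univ)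
  | .sg s p _ _ => LawOn (Y := Ml P V) (wn P s p ×ˢ Finset.univ)
  | .su s p a _ _ => Ms (P.Lu a) (wn P s p)
  | .sv s p _ C _ => QMs (wn P s p) (P.Lam C.card) (wn P s p)
  | .lp s p C _ => Ms (P.Lam' C.card) (wn P s p)
  | .la s p _ C _ => Ms (P.Lam' C.card) (wn P s p)

/-! ### The records along a history -/

/-- The input of the stage `s`. -/
noncomputable def inpt (P : Cn) (θ : Tht P V) (s : Fin P.N) (p : Hh P V) : Inp P V where
  W := wo p s
  n0 := nh θ s 0 (hp s 0 p)
  n1 := nh θ s g1 (hp s g1 p)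
  n2 := nh θ s (g2 P) (hp s (g2 P) p)
  n3 := nh θ s (g3 P) (hp s (g3 P) p)
  pi := θ.2 (.pi s (hp s 0 p))
  sg a j := if h : j < P.h then θ.2 (.sg s (hp s g1 p) a ⟨j, h⟩) else fun _ => 0
  su a j l := if h : j < P.h then θ.2 (.su s (hp s g1 p) a ⟨j, h⟩ l) else fun _ => 0
  lp C l := θ.2 (.lp s (hp s (g3 P) p) C l)
  q T C l := fun u => θ.2 (.sv s (hp s (g3 P) p) T C l) (.inl u)
  mu T C l := fun u => θ.2 (.sv s (hp s (g3 P) p) T C l) (.inr u)
  la T C l := θ.2 (.la s (hp s (g3 P) p) T C l)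

/-- The state before the stage `s`. -/
noncomputable def stt (P : Cn) (G : SimpleGraph V) (θ : Tht P V) (p : Hh P V) : ℕ → Sta P V
  | 0 => ⟨fun _ _ => 1, fun _ _ _ => 0, fun _ => 0⟩
  | s + 1 => if h : s < P.N then nxt P G ⟨s, h⟩ (stt P G θ p s) (inpt P θ ⟨s, h⟩ p)
      else stt P G θ p s

variable {P : Cn} {G : SimpleGraph V} {θ : Tht P V}

lemma stt_succ (p : Hh P V) {s : ℕ} (h : s < P.N) :
    stt P G θ p (s + 1) = nxt P G ⟨s, h⟩ (stt P G θ p s) (inpt P θ ⟨s, h⟩ p) := by
  rw [stt, dif_pos h]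

/-- The input at a half prefix. -/
lemma inpt_hp {s : Fin P.N} {t j : ℕ} (h : s.1 < t ∨ s.1 = t ∧ g3 P ≤ j) (p : Hh P V) :
    inpt P θ s (hp t j p) = inpt P θ s p := by
  have h1 := g1_le_g2 P
  have h2 := g2_lt_g3 P
  have h3 : ∀ i ≤ g3 P, hp s.1 i (hp t j p) = hp s.1 i p := by
    intro i hi
    refine hp_hp ?_ p
    rcases h with h | ⟨h, h'⟩
    · exact Or.inl h
    · exact Or.inr ⟨h, hi.trans h'⟩
  have h4 : wo (hp t j p) s.1 = wo p s.1 := wo_hp j (by omega) p
  unfold inpt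
  rw [h4, h3 0 (Nat.zero_le _), h3 g1 (by omega), h3 (g2 P) (by omega), h3 (g3 P) le_rfl]

/-- The parts of the input before the bits of the second group. -/
lemma inpt_n0 (s : Fin P.N) (j : ℕ) (p : Hh P V) :
    (inpt P θ s (hp s j p)).W = (inpt P θ s p).W ∧ (inpt P θ s (hp s j p)).n0 = (inpt P θ s p).n0 ∧
      (inpt P θ s (hp s j p)).pi = (inpt P θ s p).pi := by
  have h3 : hp s.1 0 (hp s.1 j p) = hp s.1 0 p := hp_hp (Or.inr ⟨rfl, Nat.zero_le _⟩) p
  refine ⟨wo_hp j le_rfl p, ?_, ?_⟩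
  · unfold inpt
    rw [h3]
  · unfold inpt
    rw [h3]

/-- The parts of the input of the second group. -/
lemma inpt_n1 {s : Fin P.N} {j : ℕ} (hj : g1 ≤ j) (p : Hh P V) :
    (inpt P θ s (hp s j p)).n1 = (inpt P θ s p).n1 ∧
      (inpt P θ s (hp s j p)).sg = (inpt P θ s p).sg ∧
      (inpt P θ s (hp s j p)).su = (inpt P θ s p).su := by
  have h3 : hp s.1 g1 (hp s.1 j p) = hp s.1 g1 p := hp_hp (Or.inr ⟨rfl, hj⟩) p
  refine ⟨?_, ?_, ?_⟩
  · unfold inpt
    rw [h3]
  · unfold inpt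
    rw [h3]
  · unfold inpt
    rw [h3]

/-- The law after the UP bits. -/
lemma inpt_n2 {s : Fin P.N} {j : ℕ} (hj : g2 P ≤ j) (p : Hh P V) :
    (inpt P θ s (hp s j p)).n2 = (inpt P θ s p).n2 := by
  have h3 : hp s.1 (g2 P) (hp s.1 j p) = hp s.1 (g2 P) p := hp_hp (Or.inr ⟨rfl, hj⟩) p
  unfold inpt
  rw [h3]

/-- The state at a half prefix. -/
lemma stt_hp {s t j : ℕ} (h : s ≤ t) (p : Hh P V) :
    stt P G θ (hp t j p) s = stt P G θ p s := by
  induction s with
  | zero => rfl
  | succ s ih =>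
    have ih := ih (by omega)
    unfold stt
    by_cases h1 : s < P.N
    · rw [dif_pos h1, dif_pos h1, ih, inpt_hp (Or.inl (by simp only; omega))]
    · rw [dif_neg h1, dif_neg h1, ih]

/-- The scale of the stage only depends on the prefix. -/
lemma al_hp (s : Fin P.N) (j : ℕ) (p : Hh P V) :
    al P G (inpt P θ s (hp s j p)) = al P G (inpt P θ s p) := by
  obtain ⟨h1, -, h2⟩ := inpt_n0 (P := P) (θ := θ) s j p
  funext x
  unfold al
  rw [h1, h2]

end

end Pool.Agent.Lib.GSX
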