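import Pool.Agent.Lib.GSX.RecP
import Pool.Agent.Lib.GSX.Inst

/-!
# The heights and the values of the fold

The scales of the earlier stages lie in `[e0, 2)`, so all heights lie in `[1 - I0, 1]`.  The state
`stt P G θ p t` before the stage `t` contains the scales of the stages `c < t`, the masters of the
sets `C` of stages before `t`, and the sum of the covers of the stages before `t`.
-/

set_option autoImplicit false

namespace Pool.Agent.Lib.GSX

open Finset Classical
open Pool.Agent.Lib.GSLE (kp cl win stp Cel hc rhoC CC AC alp cells)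
open Pool.Agent.Lib.GSR Pool.Agent.Lib.GSR.HZ Pool.Agent.Lib.GSR.HZB

/-- The scales of the earlier stages lie in `[e0, 2)`. -/
structure HtR (P : Cn) {V : Type} (S : Sta P V) : Prop where
  lo : ∀ c z, P.e0 ≤ S.a c z
  hi : ∀ c z, S.a c z < 2

namespace Hts_

/-! ### Ranges -/

theorem two_lv (J : ℕ) : 2 * lv J = (2 : ℝ) ^ (1 - (J : ℝ)) := by
  unfold lv
  rw [Real.rpow_sub two_pos, Real.rpow_one, Real.rpow_natCast, one_div, inv_pow]
  rfl

section rec

variable {V : Type} {P : Cn} {S : Sta P V}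

theorem pos (h : HtR P S) (he : 0 < P.e0) (c : Fin P.N) (z : V) : 0 < S.a c z :=
  he.trans_le (h.lo c z)

/-- The heights are at least `1 - I0`. -/
theorem ht_ge (h : HtR P S) (he : 0 < P.e0) (hI : 2 * lv P.I0 ≤ P.e0) (c : Fin P.N) (z : V) :
    1 - (P.I0 : ℝ) ≤ ht P S c z := by
  unfold ht
  rw [Real.le_logb_iff_rpow_le (by norm_num) (pos h he c z), ← two_lv]
  exact hI.trans (h.lo c z)

/-- The heights are less than `1`. -/
theorem ht_lt (h : HtR P S) (he : 0 < P.e0) (c : Fin P.N) (z : V) : ht P S c z < 1 := by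
  unfold ht
  rw [Real.logb_lt_iff_lt_rpow (by norm_num) (pos h he c z), Real.rpow_one]
  exact h.hi c z

/-- The lower bound in the form of the cells. -/
theorem ht_ge' (h : HtR P S) (he : 0 < P.e0) (hI : 2 * lv P.I0 ≤ P.e0) (c : Fin P.N) (z : V) :
    ((1 : ℤ) : ℝ) - (P.I0 : ℝ) ≤ ht P S c z := by
  push_cast
  exact ht_ge h he hI c z

/-- The upper bound in the form of the cells. -/
theorem ht_le' (h : HtR P S) (he : 0 < P.e0) (c : Fin P.N) (z : V) :
    ht P S c z ≤ ((1 : ℤ) : ℝ) := by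
  push_cast
  exact (ht_lt h he c z).le

/-- The first state. -/
theorem start (he1 : P.e0 ≤ 1) (m : Finset (Fin P.N) → V → V → ℝ) (F : V → ℝ) :
    HtR P (⟨fun _ _ => 1, m, F⟩ : Sta P V) :=
  ⟨fun _ _ => he1, fun _ _ => one_lt_two⟩

end rec

section rec2

variable {V : Type} [Fintype V] {P : Cn} {G : SimpleGraph V} {s : Fin P.N} {S : Sta P V}
  {I : Inp P V}

theorem al_le (he : 0 < P.e0) (hpi : ∀ l, 0 ≤ I.pi l) (hp1 : ∑ l, I.pi l ≤ 1) (x : V) :
    al P G I x ≤ P.e0 + 1 := by
  refine (GSLE.sc_le he fun l => mul_nonneg (RecP_.inc_nonneg I.W x l) (hpi l)).trans ?_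
  refine add_le_add le_rfl ((Finset.sum_le_sum fun l _ => ?_).trans hp1)
  exact mul_le_of_le_one_left (hpi l) (RecP_.inc_le_one _ _ _)

theorem al_lt_two (he : 0 < P.e0) (he1 : P.e0 < 1) (hpi : ∀ l, 0 ≤ I.pi l)
    (hp1 : ∑ l, I.pi l ≤ 1) (x : V) : al P G I x < 2 :=
  (al_le he hpi hp1 x).trans_lt (by linarith)

/-- The own height is at least `1 - I0`. -/
theorem hs_ge (he : 0 < P.e0) (hI : 2 * lv P.I0 ≤ P.e0) (hpi : ∀ l, 0 ≤ I.pi l) (x : V) :
    1 - (P.I0 : ℝ) ≤ hs P G I x := by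
  unfold hs
  rw [Real.le_logb_iff_rpow_le (by norm_num) (RecP_.al_pos x), ← two_lv]
  exact hI.trans (RecP_.e0_le_al he hpi x)

/-- The own height is less than `1`. -/
theorem hs_lt (he : 0 < P.e0) (he1 : P.e0 < 1) (hpi : ∀ l, 0 ≤ I.pi l) (hp1 : ∑ l, I.pi l ≤ 1)
    (x : V) : hs P G I x < 1 := by
  unfold hs
  rw [Real.logb_lt_iff_lt_rpow (by norm_num) (RecP_.al_pos x), Real.rpow_one]
  exact al_lt_two he he1 hpi hp1 x

/-- The next state. -/
theorem htR_nxt (h : HtR P S) (he : 0 < P.e0) (he1 : P.e0 < 1) (hpi : ∀ l, 0 ≤ I.pi l)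
    (hp1 : ∑ l, I.pi l ≤ 1) : HtR P (nxt P G s S I) := by
  constructor
  · intro c z
    simp only [nxt]
    split_ifs
    · exact RecP_.e0_le_al he hpi z
    · exact h.lo c z
  · intro c z
    simp only [nxt]
    split_ifs
    · exact al_lt_two he he1 hpi hp1 z
    · exact h.hi c z

end rec2

/-! ### The values of the fold -/

section fold

variable {V : Type} [Fintype V] {P : Cn} {G : SimpleGraph V} {θ : Tht P V}

/-- The ranges of the states of the fold. -/
theorem htR_stt (he : 0 < P.e0) (he1 : P.e0 < 1) (p : Hh P V)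
    (hpi : ∀ c l, 0 ≤ (inpt P θ c p).pi l) (hp1 : ∀ c, ∑ l, (inpt P θ c p).pi l ≤ 1) (t : ℕ) :
    HtR P (stt P G θ p t) := by
  induction t with
  | zero => exact start he1.le _ _
  | succ t ih =>
    unfold stt
    split_ifs with h
    · exact htR_nxt ih he he1 (hpi _) (hp1 _)
    · exact ih

/-- The main law of a stage. -/
theorem pi_mem (hθ : θ ∈ dom P.N (nb P) (Ki P)) (s : Fin P.N) (p : Hh P V) :
    (∀ l, 0 ≤ (inpt P θ s p).pi l) ∧ ∑ l, (inpt P θ s p).pi l = 1 ∧
      ∀ l, l.1 ∉ wn P s (hp s 0 p) → (inpt P θ s p).pi l = 0 := by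
  have h1 : (inpt P θ s p).pi ∈
      LawOn (Y := Ml P V) (wn P s (hp s 0 p) ×ˢ Finset.univ) :=
    hθ.2 (Ix.pi s (hp s 0 p)) (Set.mem_univ _)
  refine ⟨fun l => h1.1.1 l, h1.1.2, fun l hl => h1.2 l fun h2 => hl ?_⟩
  exact (Finset.mem_product.1 h2).1

theorem htR_dom (hθ : θ ∈ dom P.N (nb P) (Ki P)) (he : 0 < P.e0) (he1 : P.e0 < 1)
    (p : Hh P V) (t : ℕ) : HtR P (stt P G θ p t) :=
  htR_stt he he1 p (fun c => (pi_mem hθ c p).1) (fun c => (pi_mem hθ c p).2.1.le) t

theorem stt_stop (p : Hh P V) {t : ℕ} (h : ¬ t < P.N) :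
    stt P G θ p (t + 1) = stt P G θ p t := by
  rw [stt, dif_neg h]

/-- The scales of the earlier stages. -/
theorem stt_a (p : Hh P V) {t : ℕ} (c : Fin P.N) (h : c.1 < t) :
    (stt P G θ p t).a c = al P G (inpt P θ c p) := by
  induction t with
  | zero => omega
  | succ t ih =>
    by_cases h1 : t < P.N
    · rw [stt_succ p h1]
      funext x
      simp only [nxt]
      by_cases h2 : c = ⟨t, h1⟩
      · rw [if_pos h2, h2]
      · rw [if_neg h2, ih]
        have h3 : c.1 ≠ t := fun h4 => h2 (Fin.ext h4)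
        omega
    · rw [stt_stop p h1]
      exact ih (by have := c.2; omega)

/-- The later stages have the scale one. -/
theorem stt_a_ge (p : Hh P V) {t : ℕ} (c : Fin P.N) (h : t ≤ c.1) (x : V) :
    (stt P G θ p t).a c x = 1 := by
  induction t with
  | zero => rfl
  | succ t ih =>
    have h1 : t < P.N := by have := c.2; omega
    rw [stt_succ p h1]
    simp only [nxt]
    rw [if_neg, ih (by omega)]
    intro h2
    rw [h2] at h
    simp only at h
    omega

/-- The heights of the earlier stages. -/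
theorem ht_stt (p : Hh P V) {t : ℕ} (c : Fin P.N) (h : c.1 < t) (x : V) :
    ht P (stt P G θ p t) c x = hs P G (inpt P θ c p) x := by
  unfold ht hs
  rw [stt_a p c h]

/-- The cover of the earlier stages. -/
theorem stt_F (p : Hh P V) (t : ℕ) (b : V) :
    (stt P G θ p t).F b =
      ∑ c : Fin P.N with c.1 < t, fs P G (inpt P θ c p) b := by
  induction t with
  | zero =>
    rw [Finset.filter_eq_empty_iff.2 fun c _ => by omega, Finset.sum_empty]
    rfl
  | succ t ih =>
    by_cases h1 : t < P.N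
    · rw [stt_succ p h1]
      simp only [nxt, Fs]
      rw [ih]
      have h2 : (Finset.univ.filter fun c : Fin P.N => c.1 < t + 1) =
          insert (⟨t, h1⟩ : Fin P.N) (Finset.univ.filter fun c : Fin P.N => c.1 < t) := by
        ext c
        simp only [Finset.mem_filter, Finset.mem_univ, true_and, Finset.mem_insert, Fin.ext_iff]
        omega
      rw [h2, Finset.sum_insert (by simp), add_comm]
    · rw [stt_stop p h1, ih]
      refine Finset.sum_congr (Finset.filter_congr fun c _ => ?_) fun c _ => rfl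
      have := c.2
      omega

/-- The cover of the earlier stages vanishes where all their covers vanish. -/
theorem stt_F_zero (p : Hh P V) (t : ℕ) {b : V}
    (h : ∀ c : Fin P.N, c.1 < t → fs P G (inpt P θ c p) b = 0) : (stt P G θ p t).F b = 0 := by
  rw [stt_F]
  exact Finset.sum_eq_zero fun c hc => h c (Finset.mem_filter.1 hc).2

/-- The masters: `C` gets its value at the stage `max C`. -/
theorem stt_m (p : Hh P V) {t : ℕ} {C : Finset (Fin P.N)} {s : Fin P.N} (hs : s ∈ C)
    (hmax : ∀ c ∈ C, c ≤ s) (h : s.1 < t) :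
    (stt P G θ p t).m C = mst P G s (stt P G θ p s) (inpt P θ s p) (C.erase s) := by
  induction t with
  | zero => omega
  | succ t ih =>
    by_cases h1 : t < P.N
    · rw [stt_succ p h1]
      funext x u
      simp only [nxt]
      by_cases h2 : (⟨t, h1⟩ : Fin P.N) ∈ C
      · have h3 : (⟨t, h1⟩ : Fin P.N) = s := by
          have h4 := hmax _ h2
          rw [Fin.le_def] at h4
          simp only at h4
          exact Fin.ext (by simp only; omega)
        subst h3
        rw [if_pos h2]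
      · have h3 : s.1 ≠ t := fun h4 =>
          h2 (by rwa [show (⟨t, h1⟩ : Fin P.N) = s from Fin.ext h4.symm])
        rw [if_neg h2, ih (by omega)]
    · rw [stt_stop p h1]
      exact ih (by have := s.2; omega)

/-- The master of the empty set is zero. -/
theorem stt_m_empty (p : Hh P V) (t : ℕ) (x u : V) : (stt P G θ p t).m ∅ x u = 0 := by
  induction t with
  | zero => rfl
  | succ t ih =>
    by_cases h1 : t < P.N
    · rw [stt_succ p h1]
      simp only [nxt]
      rw [if_neg (Finset.notMem_empty _)]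
      exact ih
    · rw [stt_stop p h1]
      exact ih

/-- The masters do not change after the last stage of the set. -/
theorem stt_m_mono (p : Hh P V) {t t' : ℕ} {C : Finset (Fin P.N)} (hC : ∀ c ∈ C, c.1 < t)
    (h : t ≤ t') : (stt P G θ p t').m C = (stt P G θ p t).m C := by
  rcases C.eq_empty_or_nonempty with h1 | h1
  · subst h1
    funext x u
    rw [stt_m_empty, stt_m_empty]
  · have h2 := C.max'_mem h1
    have h3 : ∀ c ∈ C, c ≤ C.max' h1 := fun c hc => C.le_max' c hc
    rw [stt_m p h2 h3 (hC _ h2), stt_m p h2 h3 ((hC _ h2).trans_le h)]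

/-- The signs of the states of the fold. -/
theorem sPos_stt (p : Hh P V) (t : ℕ)
    (hn : ∀ c (S : Sta P V), SPos S → SPos (nxt P G c S (inpt P θ c p))) :
    SPos (stt P G θ p t) := by
  induction t with
  | zero => exact ⟨fun _ _ => one_pos, fun _ _ _ => le_rfl, fun _ => le_rfl⟩
  | succ t ih =>
    unfold stt
    split_ifs with h
    · exact hn _ _ ih
    · exact ih

end fold

/-! ### The cells of a record -/

section cell

variable {V : Type} [Fintype V] {P : Cn} {G : SimpleGraph V} {S : Sta P V} {I : Inp P V}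

/-- The cells of a main label. -/
theorem sum_rho_cells (h : HtR P S) (he : 0 < P.e0) (hI : 2 * lv P.I0 ≤ P.e0)
    (hn : ∀ x, 0 ≤ I.n3 x) (hpi : ∀ l, 0 ≤ I.pi l) (T : Finset (Fin P.N)) (l : Ml P V) :
    ∑ j : Cel P.N P.I0, rho P G S I T (l, j) ≤
      I.pi l * ∑ z, I.n3 z / al P G I z * kk P G I P.g0 z l :=
  GSLE.sum_cells_le (g := P.lG + P.w0 + 3) (y := Prod.fst) hn (fun x => RecP_.al_pos x) hpi
    (fun x l => RecP_.kk_nonneg P.g0 x l) (fun c _ z => ht_ge' h he hI c z)
    (fun c _ z => ht_le' h he c z) l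

/-- Every bound for the main law passes to the cells. -/
theorem sum_rho_le (h : HtR P S) (he : 0 < P.e0) (hI : 2 * lv P.I0 ≤ P.e0)
    (hn : ∀ x, 0 ≤ I.n3 x) (hpi : ∀ l, 0 ≤ I.pi l) (T : Finset (Fin P.N)) {Δ : ℝ} (hΔ : 0 ≤ Δ)
    (v : Ml P V → ℝ) (hv : ∀ l, 0 ≤ v l) (O : Finset (Ce P V))
    (hO : ∀ p ∈ O, ∑ z, I.n3 z / al P G I z * kk P G I P.g0 z p.1 ≤ Δ) (L : Finset (Ml P V))
    (hL : ∀ p ∈ O, p.1 ∈ L) :
    ∑ p ∈ O, v p.1 * rho P G S I T p ≤ Δ * ∑ l ∈ L, v l * I.pi l :=
  GSLE.sum_rhoC_le (g := P.lG + P.w0 + 3) (y := Prod.fst) hn (fun x => RecP_.al_pos x) hpi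
    (fun x l => RecP_.kk_nonneg P.g0 x l) (fun c _ z => ht_ge' h he hI c z)
    (fun c _ z => ht_le' h he c z) hΔ v hv O hO L hL

/-- The scale of an item is at most `Δ` times the scale. -/
theorem AS_le (h : HtR P S) (he : 0 < P.e0) (hI : 2 * lv P.I0 ≤ P.e0)
    (hn : ∀ x, 0 ≤ I.n3 x) (hpi : ∀ l, 0 ≤ I.pi l) (T : Finset (Fin P.N)) {Δ : ℝ} (hΔ : 0 ≤ Δ)
    (hD : ∀ l : Ml P V, ∑ z, I.n3 z / al P G I z * kk P G I P.g0 z l ≤ Δ) (x : V) :
    AS P G S I T x ≤ Δ * al P G I x := by
  refine (GSLE.AC_le (g := P.lG + P.w0 + 3) (w := P.w0) (y := Prod.fst) hn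
    (fun x => RecP_.al_pos x) hpi (fun x l => RecP_.kk_nonneg P.g0 x l)
    (fun c _ z => ht_ge' h he hI c z) (fun c _ z => ht_le' h he c z) hΔ hD x).trans ?_
  refine mul_le_mul_of_nonneg_left ?_ hΔ
  have h1 := RecP_.sum_kk_le (G := G) he hpi P.g0 x
  refine le_trans (le_of_eq ?_) (h1.trans (by linarith))
  exact Finset.sum_congr rfl fun l _ => mul_comm _ _

end cell

end Hts_

end Pool.Agent.Lib.GSX
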