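import Pool.Agent.Lib.GSR.TopSel

/-!
# The selection of the pool for stages in `Fin N`, and the signs from the numbers of a pair

`topSelF` is `TopSel.topSel` with the stages in `Fin N`.
`Num` collects the numbers of one typical pair: the weights `w s l` of the main labels, the
highness `r s c l` of their hubs, the violations `u s C l`; `sgF_of` derives the signs `SgF` which
`topSelF` needs.
-/

set_option autoImplicit false

namespace Pool.Agent.Lib.GSX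

open Finset Classical
open Pool.Agent.Lib.GSR (avg_prod)
open Pool.Agent.Lib.GSR.TopSel (Sg Pl topSel)

/-- The signs of a pair with the good stages `T`: `M C` (master for the set `C`), `P C s`, `B C s`
(the sides which give a master for `insert s C`). -/
structure SgF {N : ℕ} (h L0 : ℕ) (M : Finset (Fin N) → Prop) (P B : Finset (Fin N) → Fin N → Prop)
    (T : Finset (Fin N)) : Prop where
  M0 : M ∅
  P0 : ∀ s ∈ T, P ∅ s
  nxt : ∀ C s, C ⊆ T → s ∈ T → (∀ c ∈ C, c < s) → P C s ∨ B C s → M C → M (insert s C)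
  top : ∀ C, C ⊆ T → C.card = h → ¬ M C
  avg : ∀ S, S ⊆ T → S.card = L0 → ∀ s ∈ T, (∀ c ∈ S, c < s) → (∀ c ∈ S, P {c} s) →
    ∀ j, 2 ≤ j → j < h → (∀ C, C ⊆ S → C.card = j → M C) → ∃ C, C ⊆ S ∧ C.card = j ∧ P C s

/-- The pool `Q` with the rank `m` for the signs. -/
structure PlF {N : ℕ} (m q : ℕ) (M : Finset (Fin N) → Prop) (P B : Finset (Fin N) → Fin N → Prop)
    (T Q : Finset (Fin N)) : Prop where
  sub : Q ⊆ T
  card : Q.card = q
  mst : ∀ C, C ⊆ Q → C.card = m → M C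
  no : ∀ C, C ⊆ Q → C.card = m → ∀ s ∈ Q, (∀ c ∈ C, c < s) → ¬ P C s ∧ ¬ B C s
  pr : ∀ c ∈ Q, ∀ s ∈ Q, c < s → ¬ P {c} s

namespace TopF_

variable {N : ℕ}

/-- The part of a set of naturals in `Fin N`. -/
def dn (N : ℕ) (C : Finset ℕ) : Finset (Fin N) := Finset.univ.filter fun c => (c : ℕ) ∈ C

/-- The set of naturals of a set of stages. -/
def up (C : Finset (Fin N)) : Finset ℕ := C.map Fin.valEmbedding

lemma mem_dn {C : Finset ℕ} {c : Fin N} : c ∈ dn N C ↔ (c : ℕ) ∈ C := by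
  unfold dn
  rw [Finset.mem_filter]
  exact ⟨fun h => h.2, fun h => ⟨Finset.mem_univ _, h⟩⟩

lemma mem_up {C : Finset (Fin N)} {n : ℕ} : n ∈ up C ↔ ∃ c ∈ C, (c : ℕ) = n := by
  unfold up
  rw [Finset.mem_map]
  rfl

lemma val_mem_up {C : Finset (Fin N)} {c : Fin N} : (c : ℕ) ∈ up C ↔ c ∈ C := by
  rw [mem_up]
  constructor
  · rintro ⟨d, hd, hdc⟩
    rw [← Fin.ext hdc]
    exact hd
  · exact fun h => ⟨c, h, rfl⟩

lemma dn_up (C : Finset (Fin N)) : dn N (up C) = C := by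
  ext c
  rw [mem_dn, val_mem_up]

lemma up_dn {C : Finset ℕ} (hC : C ⊆ range N) : up (dn N C) = C := by
  ext n
  rw [mem_up]
  constructor
  · rintro ⟨c, hc, rfl⟩
    exact mem_dn.1 hc
  · intro hn
    exact ⟨⟨n, Finset.mem_range.1 (hC hn)⟩, mem_dn.2 hn, rfl⟩

lemma card_up (C : Finset (Fin N)) : (up C).card = C.card := Finset.card_map _

lemma card_dn {C : Finset ℕ} (hC : C ⊆ range N) : (dn N C).card = C.card := by
  rw [← card_up, up_dn hC]

lemma up_sub {C D : Finset (Fin N)} : up C ⊆ up D ↔ C ⊆ D := Finset.map_subset_map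

lemma up_range (C : Finset (Fin N)) : up C ⊆ range N := by
  intro n hn
  obtain ⟨c, -, rfl⟩ := mem_up.1 hn
  exact Finset.mem_range.2 c.2

lemma dn_sub {C : Finset ℕ} {D : Finset (Fin N)} (h : C ⊆ up D) : dn N C ⊆ D := by
  intro c hc
  exact val_mem_up.1 (h (mem_dn.1 hc))

lemma dn_empty : dn N ∅ = ∅ := by
  ext c
  rw [mem_dn]
  simp

lemma dn_insert {C : Finset ℕ} {s : ℕ} (hs : s < N) : dn N (insert s C) = insert ⟨s, hs⟩ (dn N C) := by
  ext c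
  rw [mem_dn, Finset.mem_insert, Finset.mem_insert, mem_dn, Fin.ext_iff]

lemma dn_single {c : ℕ} (hc : c < N) : dn N {c} = {⟨c, hc⟩} := by
  ext d
  rw [mem_dn, Finset.mem_singleton, Finset.mem_singleton, Fin.ext_iff]

lemma dn_lt {C : Finset ℕ} {s : ℕ} (hs : s < N) (h : ∀ c ∈ C, c < s) :
    ∀ c ∈ dn N C, c < (⟨s, hs⟩ : Fin N) := by
  intro c hc
  rw [Fin.lt_def]
  exact h _ (mem_dn.1 hc)

lemma up_lt {C : Finset (Fin N)} {s : Fin N} (h : ∀ c ∈ C, c < s) : ∀ c ∈ up C, c < (s : ℕ) := by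
  intro n hn
  obtain ⟨c, hc, rfl⟩ := mem_up.1 hn
  exact Fin.lt_def.1 (h c hc)

/-- The relation on naturals. -/
def rl (N : ℕ) (P : Finset (Fin N) → Fin N → Prop) (C : Finset ℕ) (s : ℕ) : Prop :=
  ∃ hs : s < N, P (dn N C) ⟨s, hs⟩

lemma rl_up {P : Finset (Fin N) → Fin N → Prop} {C : Finset (Fin N)} {s : Fin N} :
    rl N P (up C) s ↔ P C s := by
  unfold rl
  rw [dn_up]
  exact ⟨fun ⟨_, h⟩ => h, fun h => ⟨s.2, h⟩⟩

/-- The signs on naturals. -/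
theorem sg {h L0 : ℕ} {M : Finset (Fin N) → Prop} {P B : Finset (Fin N) → Fin N → Prop}
    {T : Finset (Fin N)} (hS : SgF h L0 M P B T) :
    Sg h L0 (fun C => M (dn N C)) (rl N P) (rl N B) (up T) where
  M0 := by
    rw [dn_empty]
    exact hS.M0
  P0 s hs := by
    obtain ⟨c, hc, rfl⟩ := mem_up.1 hs
    refine ⟨c.2, ?_⟩
    rw [dn_empty]
    exact hS.P0 c hc
  nxt C s hC hs hlt hPB hM := by
    obtain ⟨c, hc, rfl⟩ := mem_up.1 hs
    rw [dn_insert c.2]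
    refine hS.nxt _ _ (dn_sub hC) hc (dn_lt c.2 hlt) ?_ hM
    rcases hPB with ⟨_, h1⟩ | ⟨_, h1⟩
    · exact Or.inl h1
    · exact Or.inr h1
  top C hC hCc := by
    refine hS.top _ (dn_sub hC) ?_
    rw [card_dn (hC.trans (up_range T))]
    exact hCc
  avg S hST hSc s hs hlt hP j hj2 hjh hM := by
    obtain ⟨c, hc, rfl⟩ := mem_up.1 hs
    have hSr : S ⊆ range N := hST.trans (up_range T)
    obtain ⟨C, hCS, hCc, hPC⟩ := hS.avg (dn N S) (dn_sub hST) (by rw [card_dn hSr]; exact hSc) c hc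
      (dn_lt c.2 hlt) (by
        intro d hd
        obtain ⟨h1, h2⟩ := hP _ (mem_dn.1 hd)
        rw [dn_single d.2] at h2
        exact h2) j hj2 hjh (by
        intro C hC hCc
        have h1 := hM (up C) (by
          intro n hn
          obtain ⟨d, hd, rfl⟩ := mem_up.1 hn
          exact mem_dn.1 (hC hd)) (by rw [card_up]; exact hCc)
        rw [dn_up] at h1
        exact h1)
    refine ⟨up C, ?_, by rw [card_up]; exact hCc, rl_up.2 hPC⟩
    intro n hn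
    obtain ⟨d, hd, rfl⟩ := mem_up.1 hn
    exact mem_dn.1 (hCS hd)

/-- The pool in `Fin N`. -/
theorem pl {m q : ℕ} {M : Finset (Fin N) → Prop} {P B : Finset (Fin N) → Fin N → Prop}
    {T : Finset (Fin N)} {Q : Finset ℕ}
    (h : Pl m q (fun C => M (dn N C)) (rl N P) (rl N B) (up T) Q) : PlF m q M P B T (dn N Q) := by
  have hQr : Q ⊆ range N := h.sub.trans (up_range T)
  have hsub : ∀ {C : Finset (Fin N)}, C ⊆ dn N Q → up C ⊆ Q := by
    intro C hC n hn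
    obtain ⟨d, hd, rfl⟩ := mem_up.1 hn
    exact mem_dn.1 (hC hd)
  refine ⟨dn_sub h.sub, by rw [card_dn hQr]; exact h.card, ?_, ?_, ?_⟩
  · intro C hC hCc
    have h1 := h.mst (up C) (hsub hC) (by rw [card_up]; exact hCc)
    simp only [dn_up] at h1
    exact h1
  · intro C hC hCc s hs hlt
    have h1 := h.no (up C) (hsub hC) (by rw [card_up]; exact hCc) s (mem_dn.1 hs) (up_lt hlt)
    rw [rl_up, rl_up] at h1
    exact h1
  · intro c hc s hs hlt hP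
    refine h.pr c (mem_dn.1 hc) s (mem_dn.1 hs) (Fin.lt_def.1 hlt) ⟨s.2, ?_⟩
    rw [dn_single c.2]
    exact hP

end TopF_

open TopF_

/-- **One pool for many pairs**, with the stages in `Fin N`. -/
theorem topSelF (h r q L0 : ℕ) (h1 : 1 ≤ h) : ∃ N0 : ℕ, ∀ (N : ℕ) (Ω : Type) (w : Ω → ℝ)
    (Ty : Finset Ω) (T : Ω → Finset (Fin N)) (M : Ω → Finset (Fin N) → Prop)
    (P B I : Ω → Finset (Fin N) → Fin N → Prop), (∀ ω, 0 ≤ w ω) →
      (∀ ω ∈ Ty, N0 ≤ (T ω).card ∧ SgF h L0 (M ω) (P ω) (B ω) (T ω)) → Ty.Nonempty →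
      ∃ (Q : Finset (Fin N)) (m : ℕ) (X : Finset Ω), Q.card = q ∧ 1 ≤ m ∧ m < h ∧
        X ⊆ Ty ∧ ∑ ω ∈ Ty, w ω ≤ 2 * h * 2 ^ N * ∑ ω ∈ X, w ω ∧
        (∀ ω ∈ X, PlF m q (M ω) (P ω) (B ω) (T ω) Q) ∧
        ((∀ ω ∈ X, ∀ S, S ⊆ Q → S.card = r → ∀ s ∈ Q, (∀ c ∈ S, c < s) → I ω S s) ∨
          ∀ ω ∈ X, ∀ S, S ⊆ Q → S.card = r → ∀ s ∈ Q, (∀ c ∈ S, c < s) → ¬ I ω S s) := by
  obtain ⟨N0, hN0⟩ := topSel h r q L0 h1
  refine ⟨N0, ?_⟩
  intro N Ω w Ty T M P B I hw hT hne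
  obtain ⟨Q, m, X, hQr, hQc, hm1, hmh, hXT, hwX, hX, hI⟩ := hN0 N Ω w Ty (fun ω => up (T ω))
    (fun ω C => M ω (dn N C)) (fun ω => rl N (P ω)) (fun ω => rl N (B ω)) (fun ω => rl N (I ω)) hw
    (fun ω hω => ⟨up_range _, by rw [card_up]; exact (hT ω hω).1, sg (hT ω hω).2⟩) hne
  have hsub : ∀ {C : Finset (Fin N)}, C ⊆ dn N Q → up C ⊆ Q := by
    intro C hC n hn
    obtain ⟨d, hd, rfl⟩ := mem_up.1 hn
    exact mem_dn.1 (hC hd)
  refine ⟨dn N Q, m, X, by rw [card_dn hQr]; exact hQc, hm1, hmh, hXT, hwX,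
    fun ω hω => pl (hX ω hω), ?_⟩
  rcases hI with hI | hI
  · left
    intro ω hω S hS hSc s hs hlt
    exact rl_up.1 (hI ω hω (up S) (hsub hS) (by rw [card_up]; exact hSc) s (mem_dn.1 hs)
      (up_lt hlt))
  · right
    intro ω hω S hS hSc s hs hlt hcon
    exact hI ω hω (up S) (hsub hS) (by rw [card_up]; exact hSc) s (mem_dn.1 hs) (up_lt hlt)
      (rl_up.2 hcon)

/-- The thresholds of the scores of the hub mode. -/
noncomputable def cPs (e2 : ℝ) (L0 : ℕ) (j : ℕ) : ℝ :=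
  if j = 0 then 1 / 8 else if j = 1 then e2 else e2 / (4 * (L0 : ℝ) ^ j)

/-- The numbers of one typical pair: `T` = good stages, `w s l` = weights of the main labels,
`r s c l` = highness of the hub of `l` at the stage `c`, `u s C l` = violation at the node. -/
structure Num {N : ℕ} {Λ : Type} [Fintype Λ] (h : ℕ) (cP : ℕ → ℝ) (M : Finset (Fin N) → Prop)
    (P : Finset (Fin N) → Fin N → Prop) (T : Finset (Fin N)) (w : Fin N → Λ → ℝ)
    (r : Fin N → Fin N → Λ → ℝ) (u : Fin N → Finset (Fin N) → Λ → ℝ) : Prop where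
  w0 : ∀ s ∈ T, ∀ l, 0 ≤ w s l
  w1 : ∀ s ∈ T, ∑ l, w s l ≤ 1
  half : ∀ s ∈ T, 1 / 2 ≤ ∑ l, w s l
  r0 : ∀ s ∈ T, ∀ c l, 0 ≤ r s c l
  r1 : ∀ s ∈ T, ∀ c l, r s c l ≤ 1
  u0 : ∀ s ∈ T, ∀ C l, 0 ≤ u s C l
  pos : ∀ s ∈ T, ∀ C, C ⊆ T → (∀ c ∈ C, c < s) → C.card < h → P C s →
    cP C.card ≤ ∑ l, w s l * (∏ c ∈ C, r s c l) * (1 - u s C l)
  neg : ∀ s ∈ T, ∀ C, C ⊆ T → (∀ c ∈ C, c < s) → C.card < h → ¬ P C s →
    ∑ l, w s l * (∏ c ∈ C, r s c l) * (1 - u s C l) ≤ cP C.card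
  n1 : ∀ s ∈ T, ∀ C, C ⊆ T → (∀ c ∈ C, c < s) → M C → C.card + 2 ≤ h →
    ∑ l, w s l * (∏ c ∈ C, r s c l) * u s C l ≤ cP C.card / 4
  n2 : ∀ s ∈ T, ∀ C, C ⊆ T → (∀ c ∈ C, c < s) → M C → C.card + 1 = h →
    ∑ l, w s l * ∏ c ∈ C, r s c l ≤ cP C.card / 4

namespace Num

variable {N : ℕ} {Λ : Type} [Fintype Λ] {h : ℕ} {cP : ℕ → ℝ} {M : Finset (Fin N) → Prop}
  {P : Finset (Fin N) → Fin N → Prop} {T : Finset (Fin N)} {w : Fin N → Λ → ℝ}
  {r : Fin N → Fin N → Λ → ℝ} {u : Fin N → Finset (Fin N) → Λ → ℝ}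

/-- The estimate `(*)`. -/
theorem star (H : Num h cP M P T w r u) (hcP : ∀ j, 0 ≤ cP j) {s : Fin N} (hs : s ∈ T)
    {C : Finset (Fin N)} (hC : C ⊆ T) (hlt : ∀ c ∈ C, c < s) (hM : M C) (hP : ¬ P C s)
    (hh : C.card + 1 ≤ h) : ∑ l, w s l * ∏ c ∈ C, r s c l ≤ 5 / 4 * cP C.card := by
  have h0 := hcP C.card
  rcases Nat.lt_or_ge (C.card + 1) h with h1 | h1
  · have h2 := H.n1 s hs C hC hlt hM (by omega)
    have h3 := H.neg s hs C hC hlt (by omega) hP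
    have h4 : ∑ l, w s l * ∏ c ∈ C, r s c l =
        ∑ l, w s l * (∏ c ∈ C, r s c l) * (1 - u s C l) +
          ∑ l, w s l * (∏ c ∈ C, r s c l) * u s C l := by
      rw [← Finset.sum_add_distrib]
      exact Finset.sum_congr rfl fun l _ => by ring
    rw [h4]
    linarith
  · have h2 := H.n2 s hs C hC hlt hM (by omega)
    linarith

/-- The stages with the empty set. -/
theorem p0 (H : Num h cP M P T w r u) (hh : 2 ≤ h) (hM0 : M ∅) (h0 : cP 0 ≤ 1 / 8) {s : Fin N}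
    (hs : s ∈ T) : P ∅ s := by
  by_contra hcon
  have h1 := H.neg s hs ∅ (Finset.empty_subset _) (by simp) (by
    rw [Finset.card_empty]
    omega) hcon
  have h2 := H.n1 s hs ∅ (Finset.empty_subset _) (by simp) hM0 (by simpa using hh)
  have h3 := H.half s hs
  simp only [Finset.prod_empty, mul_one, Finset.card_empty] at h1 h2
  have h4 : ∑ l, w s l = ∑ l, w s l * (1 - u s ∅ l) + ∑ l, w s l * u s ∅ l := by
    rw [← Finset.sum_add_distrib]
    exact Finset.sum_congr rfl fun l _ => by ring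
  rw [h4] at h3
  linarith

/-- The averaging hypothesis. -/
theorem av (H : Num h cP M P T w r u) {e2 : ℝ} (he : 0 < e2) {L0 : ℕ} (hL : 4 * (h : ℝ) ≤ e2 * L0)
    (h1 : cP 1 = e2) (hj : ∀ j, 2 ≤ j → j < h → cP j ≤ e2 / (4 * (L0 : ℝ) ^ j))
    (hcP : ∀ j, 0 ≤ cP j) (hh : 2 ≤ h)
    (S : Finset (Fin N)) (hST : S ⊆ T) (hSc : S.card = L0) (s : Fin N) (hs : s ∈ T)
    (hlt : ∀ c ∈ S, c < s) (hP : ∀ c ∈ S, P {c} s) (j : ℕ) (hj2 : 2 ≤ j) (hjh : j < h)
    (hM : ∀ C, C ⊆ S → C.card = j → M C) : ∃ C, C ⊆ S ∧ C.card = j ∧ P C s := by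
  by_contra hcon
  push Not at hcon
  have hL0 : (0 : ℝ) < L0 := by
    have h3 : (2 : ℝ) ≤ h := by exact_mod_cast hh
    by_contra h2
    rw [not_lt] at h2
    nlinarith
  have hSne : S.Nonempty := by
    rw [← Finset.card_pos, hSc]
    exact_mod_cast hL0
  -- pass to naturals
  have hr : ∀ c ∈ up S, ∀ l, 0 ≤ (if hc : c < N then r s ⟨c, hc⟩ l else 0) := by
    intro c _ l
    split_ifs with hc
    · exact H.r0 s hs _ l
    · exact le_rfl
  have hr' : ∀ c ∈ up S, ∀ l, (if hc : c < N then r s ⟨c, hc⟩ l else 0) ≤ 1 := by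
    intro c _ l
    split_ifs with hc
    · exact H.r1 s hs _ l
    · exact zero_le_one
  have hval : ∀ (c : Fin N) (l : Λ), (if hc : (c : ℕ) < N then r s ⟨c, hc⟩ l else 0) = r s c l := by
    intro c l
    rw [dif_pos c.2]
  have hune : (up S).Nonempty := by
    obtain ⟨c, hc⟩ := hSne
    exact ⟨c, val_mem_up.2 hc⟩
  have hge : ∀ c ∈ up S, e2 ≤ ∑ l, w s l * (if hc : c < N then r s ⟨c, hc⟩ l else 0) := by
    intro n hn
    obtain ⟨c, hc, rfl⟩ := mem_up.1 hn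
    have h2 := H.pos s hs {c} (Finset.singleton_subset_iff.2 (hST hc)) (by
      intro d hd
      rw [Finset.mem_singleton.1 hd]
      exact hlt c hc) (by
      rw [Finset.card_singleton]
      omega) (hP c hc)
    rw [Finset.card_singleton, h1] at h2
    refine h2.trans (Finset.sum_le_sum fun l _ => ?_)
    rw [Finset.prod_singleton, hval]
    have h3 := mul_nonneg (H.w0 s hs l) (H.r0 s hs c l)
    nlinarith [H.u0 s hs {c} l]
  obtain ⟨C, hCS, hCc, hC⟩ := avg_prod (w s) (H.w0 s hs) (H.w1 s hs) (up S) hune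
    (fun c l => if hc : c < N then r s ⟨c, hc⟩ l else 0) hr hr' he hge j (by
      rw [card_up, hSc]
      have h3 : (j : ℝ) ≤ h := by exact_mod_cast hjh.le
      linarith)
  have hCr : C ⊆ range N := hCS.trans (up_range S)
  have hdS : dn N C ⊆ S := dn_sub hCS
  have hdc : (dn N C).card = j := by rw [card_dn hCr]; exact hCc
  have hpr : ∀ l, ∏ c ∈ C, (if hc : c < N then r s ⟨c, hc⟩ l else 0) =
      ∏ c ∈ dn N C, r s c l := by
    intro l
    conv_lhs => rw [← up_dn hCr]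
    unfold up
    rw [Finset.prod_map]
    exact Finset.prod_congr rfl fun c _ => hval c l
  simp only [hpr] at hC
  have h4 := H.star hcP hs (hdS.trans hST) (fun c hc => hlt c (hdS hc)) (hM _ hdS hdc)
    (hcon _ hdS hdc) (by rw [hdc]; omega)
  rw [hdc] at h4
  rw [card_up, hSc] at hC
  have h5 := hj j hj2 hjh
  have h6 : e2 / (2 * (L0 : ℝ) ^ j) = 2 * (e2 / (4 * (L0 : ℝ) ^ j)) := by
    field_simp
    ring
  have h7 : 0 < e2 / (4 * (L0 : ℝ) ^ j) := by positivity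
  rw [h6] at hC
  linarith

/-- **The signs of a typical pair.** -/
theorem sgF (H : Num h cP M P T w r u) {B : Finset (Fin N) → Fin N → Prop} {e2 : ℝ} (he : 0 < e2)
    {L0 : ℕ} (hL : 4 * (h : ℝ) ≤ e2 * L0) (c0 : cP 0 ≤ 1 / 8) (c1 : cP 1 = e2)
    (cj : ∀ j, 2 ≤ j → j < h → cP j ≤ e2 / (4 * (L0 : ℝ) ^ j)) (hcP : ∀ j, 0 ≤ cP j) (hh : 2 ≤ h)
    (hM0 : M ∅)
    (hnxt : ∀ C s, C ⊆ T → s ∈ T → (∀ c ∈ C, c < s) → P C s ∨ B C s → M C → M (insert s C))
    (htop : ∀ C, C ⊆ T → C.card = h → ¬ M C) : SgF h L0 M P B T :=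
  ⟨hM0, fun _ hs => H.p0 hh hM0 c0 hs, hnxt, htop,
    H.av he hL c1 cj hcP hh⟩

end Num

end Pool.Agent.Lib.GSX
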