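import Pool.Agent.Lib.GSX.BDef
import Pool.Agent.Lib.GSX.TopF
import Pool.Agent.Lib.GSR.Typ

/-!
# The stages and the items of a pool

`Q` is a pool of `r + q` stages, `q ≤ r + 1`.  The first `r` stages are fillers, the others are the
stages `sgP Q d r 0 < ... < sgP Q d r (q - 1)` of the small set, and the item of the stage
`sgP Q d r j` consists of the `r` elements of `Q` before it: the last `r - j` fillers and
`sgP Q d r c`, `c < j`.
-/

set_option autoImplicit false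

namespace Pool.Agent.Lib.GSX

open Finset

section pool

variable {N : ℕ} (Q : Finset (Fin N)) (d : Fin N)

/-- The `i`-th stage of the pool `Q` (and `d` if there are not so many stages). -/
def enm (i : ℕ) : Fin N := if h : i < Q.card then Q.orderEmbOfFin rfl ⟨i, h⟩ else d

/-- The stages of the pool after the `r` fillers. -/
def sgP (r j : ℕ) : Fin N := enm Q d (r + j)

/-- The item of the stage `sgP Q d r j`: the `r` stages of the pool before it. -/
def TP (r j : ℕ) : Finset (Fin N) := (range r).image fun a => enm Q d (j + a)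

variable {Q d}

theorem enm_mem {i : ℕ} (h : i < Q.card) : enm Q d i ∈ Q := by
  rw [enm, dif_pos h]
  exact Finset.orderEmbOfFin_mem Q rfl _

theorem enm_lt {i i' : ℕ} (h : i < i') (h' : i' < Q.card) : enm Q d i < enm Q d i' := by
  rw [enm, enm, dif_pos (h.trans h'), dif_pos h']
  exact (Q.orderEmbOfFin rfl).lt_iff_lt.2 h

theorem enm_inj {i i' : ℕ} (h : i < Q.card) (h' : i' < Q.card) (he : enm Q d i = enm Q d i') :
    i = i' := by
  rcases lt_trichotomy i i' with h1 | h1 | h1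
  · exact absurd he (enm_lt h1 h').ne
  · exact h1
  · exact absurd he (enm_lt h1 h).ne'

theorem exists_enm {c : Fin N} (hc : c ∈ Q) : ∃ i < Q.card, enm Q d i = c := by
  have h1 : c ∈ Set.range (Q.orderEmbOfFin rfl) := by
    rw [Finset.range_orderEmbOfFin]
    exact hc
  obtain ⟨⟨i, hi⟩, h2⟩ := h1
  refine ⟨i, hi, ?_⟩
  rw [enm, dif_pos hi]
  exact h2

variable {r q j : ℕ}

theorem sgP_mem (hQ : Q.card = r + q) (hj : j < q) : sgP Q d r j ∈ Q :=
  enm_mem (by omega)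

theorem sgP_lt (hQ : Q.card = r + q) {c : ℕ} (hc : c < j) (hj : j < q) :
    sgP Q d r c < sgP Q d r j :=
  enm_lt (by omega) (by omega)

theorem sgP_inj (hQ : Q.card = r + q) {c c' : ℕ} (hc : c < q) (hc' : c' < q)
    (he : sgP Q d r c = sgP Q d r c') : c = c' := by
  have := enm_inj (Q := Q) (d := d) (i := r + c) (i' := r + c') (by omega) (by omega) he
  omega

/-- All the stages of the pool are at most the last stage. -/
theorem le_sgP (hQ : Q.card = r + q) (hq : 0 < q) {c : Fin N} (hc : c ∈ Q) :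
    c ≤ sgP Q d r (q - 1) := by
  obtain ⟨i, hi, rfl⟩ := exists_enm (d := d) hc
  rcases Nat.lt_or_ge i (r + (q - 1)) with h1 | h1
  · exact (enm_lt h1 (by omega)).le
  · have h2 : i = r + (q - 1) := by omega
    rw [h2]
    exact le_rfl

/-- If `s` is the last stage of the pool, then it is the last stage `sgP`. -/
theorem sgP_last (hQ : Q.card = r + q) (hq : 0 < q) {s : Fin N} (hs : s ∈ Q)
    (hs' : ∀ c ∈ Q, c ≤ s) : sgP Q d r (q - 1) = s :=
  le_antisymm (hs' _ (sgP_mem hQ (by omega))) (le_sgP hQ hq hs)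

theorem TP_sub (hQ : Q.card = r + q) (hj : j ≤ q) : TP Q d r j ⊆ Q := by
  intro c hc
  rw [TP, Finset.mem_image] at hc
  obtain ⟨a, ha, rfl⟩ := hc
  rw [Finset.mem_range] at ha
  exact enm_mem (by omega)

theorem TP_card (hQ : Q.card = r + q) (hj : j ≤ q) : (TP Q d r j).card = r := by
  rw [TP, Finset.card_image_of_injOn, Finset.card_range]
  intro a ha a' ha' he
  rw [Finset.mem_coe, Finset.mem_range] at ha ha'
  have := enm_inj (Q := Q) (d := d) (i := j + a) (i' := j + a') (by omega) (by omega) he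
  omega

theorem TP_lt (hQ : Q.card = r + q) (hj : j < q) {c : Fin N} (hc : c ∈ TP Q d r j) :
    c < sgP Q d r j := by
  rw [TP, Finset.mem_image] at hc
  obtain ⟨a, ha, rfl⟩ := hc
  rw [Finset.mem_range] at ha
  exact enm_lt (by omega) (by omega)

theorem sgP_mem_TP {c : ℕ} (hc : c < j) (hj : j ≤ r) : sgP Q d r c ∈ TP Q d r j := by
  rw [TP, Finset.mem_image]
  refine ⟨r + c - j, Finset.mem_range.2 (by omega), ?_⟩
  rw [sgP]
  congr 1
  omega

/-- The image of a set of indices. -/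
theorem imgP_sub (hQ : Q.card = r + q) (hj : j ≤ q) {S' : Finset ℕ} (hS : S' ⊆ range j) :
    S'.image (sgP Q d r) ⊆ Q := by
  intro c hc
  obtain ⟨a, ha, rfl⟩ := Finset.mem_image.1 hc
  exact sgP_mem hQ (by have := Finset.mem_range.1 (hS ha); omega)

theorem imgP_card (hQ : Q.card = r + q) (hj : j ≤ q) {S' : Finset ℕ} (hS : S' ⊆ range j) :
    (S'.image (sgP Q d r)).card = S'.card := by
  refine Finset.card_image_of_injOn fun a ha a' ha' he => sgP_inj hQ ?_ ?_ he
  · have := Finset.mem_range.1 (hS ha)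
    omega
  · have := Finset.mem_range.1 (hS ha')
    omega

theorem imgP_lt (hQ : Q.card = r + q) (hj : j < q) {S' : Finset ℕ} (hS : S' ⊆ range j)
    {c : Fin N} (hc : c ∈ S'.image (sgP Q d r)) : c < sgP Q d r j := by
  obtain ⟨a, ha, rfl⟩ := Finset.mem_image.1 hc
  exact sgP_lt hQ (Finset.mem_range.1 (hS ha)) hj

theorem imgP_sub_TP (hj : j ≤ r) {S' : Finset ℕ} (hS : S' ⊆ range j) :
    S'.image (sgP Q d r) ⊆ TP Q d r j := by
  intro c hc
  obtain ⟨a, ha, rfl⟩ := Finset.mem_image.1 hc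
  exact sgP_mem_TP (Finset.mem_range.1 (hS ha)) hj

end pool

/-- The facts about the stages and the items of a pool `Q`, in one structure: `q` stages
`sg 0 < ... < sg (q - 1)` of the pool and their items. -/
structure PoolQ {N : ℕ} (r q : ℕ) (Q : Finset (Fin N)) (sg : ℕ → Fin N)
    (T : ℕ → Finset (Fin N)) : Prop where
  mem : ∀ j < q, sg j ∈ Q
  lt : ∀ c j, c < j → j < q → sg c < sg j
  last : ∀ c ∈ Q, c ≤ sg (q - 1)
  sub : ∀ j < q, T j ⊆ Q
  card : ∀ j < q, (T j).card = r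
  Tlt : ∀ j < q, ∀ c ∈ T j, c < sg j
  sgT : ∀ c j, c < j → j < q → sg c ∈ T j

theorem poolQ {N r q : ℕ} {Q : Finset (Fin N)} (d : Fin N) (hQ : Q.card = r + q) (hq : 0 < q)
    (hr : q ≤ r + 1) : PoolQ r q Q (sgP Q d r) (TP Q d r) where
  mem _ hj := sgP_mem hQ hj
  lt _ _ hc hj := sgP_lt hQ hc hj
  last _ hc := le_sgP hQ hq hc
  sub _ hj := TP_sub hQ hj.le
  card _ hj := TP_card hQ hj.le
  Tlt _ hj _ hc := TP_lt hQ hj hc
  sgT _ _ hc hj := sgP_mem_TP hc (by omega)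

namespace PoolQ

variable {N r q : ℕ} {Q : Finset (Fin N)} {sg : ℕ → Fin N} {T : ℕ → Finset (Fin N)}
  (H : PoolQ r q Q sg T)

include H

theorem inj {c c' : ℕ} (hc : c < q) (hc' : c' < q) (he : sg c = sg c') : c = c' := by
  rcases lt_trichotomy c c' with h1 | h1 | h1
  · exact absurd he (H.lt c c' h1 hc').ne
  · exact h1
  · exact absurd he (H.lt c' c h1 hc).ne'

/-- The last stage. -/
theorem le_last {j : ℕ} (hj : j < q) : sg j ≤ sg (q - 1) := H.last _ (H.mem j hj)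

section image

variable {j : ℕ} {S' : Finset ℕ}

theorem img_sub (hj : j < q) (hS : S' ⊆ range j) : S'.image sg ⊆ Q := by
  intro c hc
  obtain ⟨a, ha, rfl⟩ := Finset.mem_image.1 hc
  exact H.mem a ((Finset.mem_range.1 (hS ha)).trans hj)

theorem img_T (hj : j < q) (hS : S' ⊆ range j) : S'.image sg ⊆ T j := by
  intro c hc
  obtain ⟨a, ha, rfl⟩ := Finset.mem_image.1 hc
  exact H.sgT a j (Finset.mem_range.1 (hS ha)) hj

theorem img_lt (hj : j < q) (hS : S' ⊆ range j) {c : Fin N} (hc : c ∈ S'.image sg) :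
    c < sg j := by
  obtain ⟨a, ha, rfl⟩ := Finset.mem_image.1 hc
  exact H.lt a j (Finset.mem_range.1 (hS ha)) hj

theorem img_card (hj : j < q) (hS : S' ⊆ range j) : (S'.image sg).card = S'.card :=
  Finset.card_image_of_injOn fun _ ha _ ha' he =>
    H.inj ((Finset.mem_range.1 (hS ha)).trans hj) ((Finset.mem_range.1 (hS ha')).trans hj) he

end image

end PoolQ

/-- The item of the stage `sg j` is one of the items which are used at this stage. -/
theorem PoolQ.mem_its {P : Cn} {q : ℕ} {Q : Finset (Fin P.N)} {sg : ℕ → Fin P.N}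
    {T : ℕ → Finset (Fin P.N)} (H : PoolQ P.r0 q Q sg T) {j : ℕ} (hj : j < q)
    {C : Finset (Fin P.N)} (hC : C ⊆ T j) : T j ∈ its P (sg j) C := by
  classical
  rw [its, Finset.mem_filter, Finset.mem_powersetCard]
  refine ⟨⟨fun c hc => ?_, H.card j hj⟩, hC⟩
  rw [Finset.mem_filter]
  exact ⟨Finset.mem_univ _, H.Tlt j hj c hc⟩

/-! ### The pairs of the pool in the leaf case -/

/-- The signs of one pair (with good stages `Tg`) at the stages of the pool. -/
structure YesP {N : ℕ} (m q : ℕ) (M : Finset (Fin N) → Prop)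
    (P B I : Finset (Fin N) → Fin N → Prop) (Tg : Finset (Fin N)) (sg : ℕ → Fin N)
    (T : ℕ → Finset (Fin N)) : Prop where
  good : ∀ j < q, sg j ∈ Tg
  yes : ∀ j < q, I (T j) (sg j)
  mst : ∀ j < q, ∀ S' ⊆ range j, S'.card = m → M (S'.image sg)
  noP : ∀ j < q, ∀ S' ⊆ range j, S'.card = m → ¬ P (S'.image sg) (sg j)
  noB : ∀ j < q, ∀ S' ⊆ range j, S'.card = m → ¬ B (S'.image sg) (sg j)
  pr : ∀ c j, c < j → j < q → ¬ P {sg c} (sg j)

theorem yesP {N : ℕ} {m r q q' : ℕ} {M : Finset (Fin N) → Prop}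
    {P B I : Finset (Fin N) → Fin N → Prop} {Tg Q Q' : Finset (Fin N)} {sg : ℕ → Fin N}
    {T : ℕ → Finset (Fin N)} (H : PoolQ r q Q sg T) (hQ : Q ⊆ Q') (hP : PlF m q' M P B Tg Q')
    (hI : ∀ S, S ⊆ Q' → S.card = r → ∀ s ∈ Q', (∀ c ∈ S, c < s) → I S s) :
    YesP m q M P B I Tg sg T where
  good j hj := hP.sub (hQ (H.mem j hj))
  yes j hj := hI (T j) ((H.sub j hj).trans hQ) (H.card j hj) _ (hQ (H.mem j hj)) (H.Tlt j hj)
  mst _ hj _ h1 h2 := hP.mst _ ((H.img_sub hj h1).trans hQ) ((H.img_card hj h1).trans h2)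
  noP j hj _ h1 h2 := (hP.no _ ((H.img_sub hj h1).trans hQ) ((H.img_card hj h1).trans h2) _
    (hQ (H.mem j hj)) fun _ hc => H.img_lt hj h1 hc).1
  noB j hj _ h1 h2 := (hP.no _ ((H.img_sub hj h1).trans hQ) ((H.img_card hj h1).trans h2) _
    (hQ (H.mem j hj)) fun _ hc => H.img_lt hj h1 hc).2
  pr c j hc hj := hP.pr _ (hQ (H.mem c (hc.trans hj))) _ (hQ (H.mem j hj)) (H.lt c j hc hj)

/-- **The leaf case of the pool selection**: `X` is the set of the pairs with the pool `Q'` (output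
of `topSelF`, all the items are YES).  There is a pool `Q` of `r + q` stages such that some pair of
positive mass avoids all the sets `bad j` (nodes without a self-linked cell at the stage `sg j`) of
small mass. -/
theorem poolB {N : ℕ} {Ω : Type} {m r q q' : ℕ} (w : Ω → ℝ) (X : Finset Ω)
    (Tg : Ω → Finset (Fin N)) (M : Ω → Finset (Fin N) → Prop)
    (P B I : Ω → Finset (Fin N) → Fin N → Prop) (Q' : Finset (Fin N)) (hw : ∀ ω ∈ X, 0 ≤ w ω)
    (hq' : r + q ≤ q') (hq : 0 < q) (hr : q ≤ r + 1) (hc : Q'.card = q')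
    (hX : ∀ ω ∈ X, PlF m q' (M ω) (P ω) (B ω) (Tg ω) Q')
    (hI : ∀ ω ∈ X, ∀ S, S ⊆ Q' → S.card = r → ∀ s ∈ Q', (∀ c ∈ S, c < s) → I ω S s) :
    ∃ Q ⊆ Q', Q.card = r + q ∧ ∃ s ∈ Q, (∀ c ∈ Q, c ≤ s) ∧
      PoolQ r q Q (sgP Q s r) (TP Q s r) ∧ sgP Q s r (q - 1) = s ∧
      (∀ ω ∈ X, YesP m q (M ω) (P ω) (B ω) (I ω) (Tg ω) (sgP Q s r) (TP Q s r)) ∧
      ∀ (bad : ℕ → Ω → Prop) (κ c : ℝ), κ ≤ ∑ ω ∈ X, w ω → q * c < κ →
        (∀ j < q, ∀ B' : Finset Ω, B' ⊆ X → (∀ ω ∈ B', bad j ω) → ∑ ω ∈ B', w ω ≤ c) →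
          ∃ ω ∈ X, 0 < w ω ∧ ∀ j < q, ¬ bad j ω := by
  classical
  obtain ⟨Q, hQ1, hQ2⟩ := Finset.exists_subset_card_eq (hq'.trans hc.ge)
  have hne : Q.Nonempty := Finset.card_pos.1 (by omega)
  obtain ⟨s, hs, hs'⟩ : ∃ s ∈ Q, ∀ c ∈ Q, c ≤ s :=
    ⟨Q.max' hne, Q.max'_mem hne, fun c hc => Q.le_max' c hc⟩
  have H := poolQ (r := r) (q := q) s hQ2 hq hr
  refine ⟨Q, hQ1, hQ2, s, hs, hs', H, sgP_last hQ2 hq hs hs',
    fun ω hω => yesP H hQ1 (hX ω hω) (hI ω hω), fun bad κ c h1 h2 h3 => ?_⟩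
  obtain ⟨ω, h4, -, h5, h6⟩ := GSR.typ_stages X w (fun _ => True) q bad κ c
    (h1.trans (le_of_eq (Finset.sum_congr (Finset.ext fun x => ⟨fun h =>
      GSR.SL_.mf.2 ⟨h, trivial⟩, fun h => (GSR.SL_.mf.1 h).1⟩) fun _ _ => rfl)))
    (fun j hj => h3 j hj _ (Finset.filter_subset _ _) fun ω hω => (Finset.mem_filter.1 hω).2)
    hw h2
  exact ⟨ω, h4, h5, h6⟩

end Pool.Agent.Lib.GSX
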