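import Pool.Agent.Lib.GSX.XPl
import Pool.Agent.Lib.GSX.PoolB

/-!
# The small set of a pool only depends on the stages and items of the pool

Also the form `XPQ` with the pools `Q` of `GSX/PoolB.lean` as indices.
-/

set_option autoImplicit false

namespace Pool.Agent.Lib.GSX

open Finset Classical
open Pool.Agent.Lib.GSR (ClD OpD)
open Pool.Agent.Lib.TCW (FRec Cst ColG RecB IncB NrB NrS)

namespace XPc_

/-- The small set of a record of functions only depends on the stages `s < q` and the heights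
`c ≤ s`. -/
theorem xb_sub {P V Ω : Type} [Fintype V] [Fintype Ω] {A A' : FRec P V Ω} {G : SimpleGraph V}
    {v0 : ℕ} {k : Cst} {K0 ε η : ℝ} {m q : ℕ} (hhub : ∀ s < q, A.hub s = A'.hub s)
    (hH : ∀ s < q, ∀ c ≤ s, A.H s c = A'.H s c) (hr : ∀ s < q, A.r s = A'.r s)
    (hw : ∀ s < q, A.w s = A'.w s) (hh : ∀ s < q, A.h s = A'.h s)
    (hpo : ∀ s < q, A.po s = A'.po s) (hpk : ∀ s < q, A.pk s = A'.pk s)
    (hpl : ∀ s < q, A.pl s = A'.pl s) (θ : P) :
    A.XB G v0 k K0 ε η m q θ ⊆ A'.XB G v0 k K0 ε η m q θ := by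
  intro v hv s hs
  have hsq := Finset.mem_range.1 hs
  have hOo : ∀ x o, A.Oo G v0 k s x o θ ↔ A'.Oo G v0 k s x o θ := by
    intro x o
    unfold FRec.Oo
    rw [hpo s hsq, hhub s hsq, hh s hsq, hH s hsq s le_rfl]
    refine and_congr_right fun _ => and_congr_right fun _ => and_congr_right fun _ => ?_
    refine forall_congr' fun c => imp_congr_right fun hc => ?_
    have hc' := Finset.mem_range.1 hc
    rw [hh c (hc'.trans hsq), hH s hsq c hc'.le]
  have hOc : ∀ x o, A.Oc G v0 k s x o θ ↔ A'.Oc G v0 k s x o θ := by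
    intro x o
    unfold FRec.Oc
    rw [hpk s hsq, hhub s hsq, hh s hsq, hH s hsq s le_rfl]
    refine and_congr_right fun _ => and_congr_right fun _ => and_congr_right fun _ => ?_
    refine forall_congr' fun c => imp_congr_right fun hc => ?_
    have hc' := Finset.mem_range.1 hc
    rw [hh c (hc'.trans hsq), hH s hsq c hc'.le]
  obtain ⟨⟨I, hI⟩, hN⟩ := hv s hs
  refine ⟨⟨I, ?_, ?_, ?_, ?_, hI.ne⟩, ?_⟩
  · exact fun x o h => (hOo x o).1 (hI.mem x o h)
  · intro x o h
    refine lt_of_le_of_lt (le_of_eq ?_) (hI.wI x o h)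
    rw [hw s hsq]
    exact Finset.sum_congr (Finset.filter_congr fun o' _ => (hOc x o').symm) fun _ _ => rfl
  · intro x o h
    refine lt_of_le_of_lt (le_of_eq ?_) (hI.rI x o h)
    rw [hr s hsq]
    exact Finset.sum_congr (Finset.filter_congr fun x' _ => (hOc x' o).symm) fun _ _ => rfl
  · intro x o h
    rw [← hw s hsq, ← hr s hsq]
    exact hI.kp x o h
  · have hins : ∀ S' ∈ (range s).powersetCard m, ∀ c ∈ insert s S', c ≤ s := by
      intro S' hS' c hc
      rcases Finset.mem_insert.1 hc with rfl | hc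
      · exact le_rfl
      · exact (Finset.mem_range.1 ((Finset.mem_powersetCard.1 hS').1 hc)).le
    refine ⟨?_, ?_, ?_⟩
    · refine lt_of_le_of_lt (le_of_eq ?_) hN.nr1
      rw [hw s hsq, hpl s hsq, hhub s hsq, hh s hsq, hH s hsq s le_rfl]
    · intro S' hS' o0
      refine lt_of_le_of_lt (le_of_eq ?_) (hN.nr2 S' hS' o0)
      rw [hw s hsq, hpl s hsq, hhub s hsq, hH s hsq s le_rfl]
      refine Finset.sum_congr (Finset.filter_congr fun o _ => ?_) fun _ _ => rfl
      refine and_congr_right fun _ => and_congr_right fun _ => ?_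
      refine forall_congr' fun c => imp_congr_right fun hc => ?_
      rw [hH s hsq c (hins S' hS' c hc), hh c ((hins S' hS' c hc).trans_lt hsq)]
    · intro S' hS' F h1 h2
      obtain ⟨a, ha⟩ := hN.fan S' hS' F
        (fun a o ho o' ho' => by
          rw [hH s hsq s le_rfl]
          exact h1 a o ho o' ho')
        (fun a b hab o ho o' ho' c hc => by
          rw [hH s hsq c (hins S' hS' c hc)]
          exact h2 a b hab o ho o' ho' c hc)
      refine ⟨a, lt_of_le_of_lt (le_of_eq ?_) ha⟩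
      rw [hw s hsq, hpl s hsq, hhub s hsq]
      refine Finset.sum_congr (Finset.filter_congr fun o _ => ?_) fun _ _ => rfl
      refine and_congr_right fun _ => and_congr_right fun _ => ?_
      refine forall_congr' fun c => imp_congr_right fun hc => ?_
      rw [hH s hsq c (hins S' hS' c hc), hh c ((hins S' hS' c hc).trans_lt hsq)]

section rec

variable {V : Type} [Fintype V] {P : Cn} {G : SimpleGraph V} {S : Sta P V} {I : Inp P V}
  {T : Finset (Fin P.N)} {sg sg' : ℕ → Fin P.N} {j : ℕ}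

theorem img_congr (h : ∀ c < j, sg c = sg' c) {S' : Finset ℕ} (hS : S' ⊆ range j) :
    img P sg S' = img P sg' S' :=
  Finset.image_congr fun c hc => h c (Finset.mem_range.1 (hS hc))

theorem hB_congr (h : ∀ c < j, sg c = sg' c) {c : ℕ} (hc : c ≤ j) :
    hB P G S I sg j c = hB P G S I sg' j c := by
  funext x
  unfold hB
  by_cases h1 : c = j
  · rw [if_pos h1, if_pos h1]
  · rw [if_neg h1, if_neg h1, h c (by omega)]

theorem HB_congr (h : ∀ c < j, sg c = sg' c) {c : ℕ} (hc : c ≤ j) :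
    HB (V := V) P sg j c = HB P sg' j c := by
  funext l
  unfold HB
  by_cases h1 : c = j
  · rw [if_pos h1, if_pos h1]
  · rw [if_neg h1, if_neg h1, h c (by omega)]

theorem TM_congr (h : ∀ c < j, sg c = sg' c) {C : Finset ℕ} (hC : ∀ c ∈ C, c ≤ j) (l0 : ℤ)
    (r : ℕ) (l : Ce P V) : TM P G S I sg j l0 C r l = TM P G S I sg' j l0 C r l := by
  unfold TM
  refine Finset.sum_congr rfl fun x _ => ?_
  congr 1
  exact Finset.prod_congr rfl fun c hc => by rw [hB_congr h (hC c hc), HB_congr h (hC c hc)]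

theorem ins_le {S' : Finset ℕ} (hS : S' ⊆ range j) : ∀ c ∈ insert j S', c ≤ j := by
  intro c hc
  rcases Finset.mem_insert.1 hc with rfl | hc
  · exact le_rfl
  · exact (Finset.mem_range.1 (hS hc)).le

theorem labC_congr (h : ∀ c < j, sg c = sg' c) {m : ℕ} {l0 : ℤ} {ε q : ℝ} {d : ℕ} {l : Ce P V}
    (hl : LabC P G S I T sg j m l0 ε q d l) : LabC P G S I T sg' j m l0 ε q d l where
  hW := hl.hW
  cel := hl.cel
  dD := hl.dD
  uns S' h1 h2 := by
    rw [← img_congr h h1]
    exact hl.uns S' h1 h2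
  thk S' h1 h2 r hr := by
    rw [← TM_congr h (ins_le h1)]
    exact hl.thk S' h1 h2 r hr

theorem labO_congr (h : ∀ c < j, sg c = sg' c) {m : ℕ} {l0 : ℤ} {ε q : ℝ} {d : ℕ} {l : Ce P V}
    (hl : LabO P G S I T sg j m l0 ε q d l) : LabO P G S I T sg' j m l0 ε q d l where
  hW := hl.hW
  cel := hl.cel
  dD := hl.dD
  uns S' h1 h2 := by
    rw [← img_congr h h1]
    exact hl.uns S' h1 h2
  thk S' h1 h2 r hr := by
    rw [← TM_congr h (ins_le h1)]
    exact hl.thk S' h1 h2 r hr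

end rec

theorem bf_sub {V Θ : Type} [Fintype V] {P : Cn} {G : SimpleGraph V}
    {S : Fin P.N → Θ → Sta P V} {I : Fin P.N → Θ → Inp P V} {T T' : ℕ → Finset (Fin P.N)}
    {sg sg' : ℕ → Fin P.N} {q : ℕ} (hT : ∀ j < q, T j = T' j) (hsg : ∀ j < q, sg j = sg' j)
    {m' : ℕ} {l0 : ℤ} {et ρ : ℝ} {d : ℕ} {v0 : ℕ} {k : Cst} {K0 ε η : ℝ} {m : ℕ} (θ : Θ) :
    (BF P G S I T sg m' l0 et ρ d).XB G v0 k K0 ε η m q θ ⊆
      (BF P G S I T' sg' m' l0 et ρ d).XB G v0 k K0 ε η m q θ := by
  have hlt : ∀ j < q, ∀ c < j, sg c = sg' c := fun j hj c hc => hsg c (hc.trans hj)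
  have hlt' : ∀ j < q, ∀ c < j, sg' c = sg c := fun j hj c hc => (hsg c (hc.trans hj)).symm
  refine xb_sub (A := BF P G S I T sg m' l0 et ρ d) (A' := BF P G S I T' sg' m' l0 et ρ d)
    (fun s _ => rfl) (fun s hs c hc => HB_congr (hlt s hs) hc) ?_ ?_ ?_ ?_ ?_ ?_ θ
  · intro s hs
    funext x θ
    change rB P G (I (sg s) θ) x = rB P G (I (sg' s) θ) x
    rw [hsg s hs]
  · intro s hs
    funext l θ
    change wB P G (S (sg s) θ) (I (sg s) θ) (T s) l = wB P G (S (sg' s) θ) (I (sg' s) θ) (T' s) l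
    rw [hsg s hs, hT s hs]
  · intro s hs
    funext x θ
    change GSX.hs P G (I (sg s) θ) x = GSX.hs P G (I (sg' s) θ) x
    rw [hsg s hs]
  · intro s hs
    funext x l θ
    change (0 < CS P G (S (sg s) θ) (I (sg s) θ) (T s) x l ∧
        LabO P G (S (sg s) θ) (I (sg s) θ) (T s) sg s m' l0 et ρ d l) =
      (0 < CS P G (S (sg' s) θ) (I (sg' s) θ) (T' s) x l ∧
        LabO P G (S (sg' s) θ) (I (sg' s) θ) (T' s) sg' s m' l0 et ρ d l)
    rw [hsg s hs, hT s hs]
    exact propext (and_congr_right fun _ => ⟨labO_congr (hlt s hs), labO_congr (hlt' s hs)⟩)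
  · intro s hs
    funext x l θ
    change (OwC P G (S (sg s) θ) (I (sg s) θ) (T s) x l ∧
        LabC P G (S (sg s) θ) (I (sg s) θ) (T s) sg s m' l0 et ρ d l) =
      (OwC P G (S (sg' s) θ) (I (sg' s) θ) (T' s) x l ∧
        LabC P G (S (sg' s) θ) (I (sg' s) θ) (T' s) sg' s m' l0 et ρ d l)
    rw [hsg s hs, hT s hs]
    exact propext (and_congr_right fun _ => ⟨labC_congr (hlt s hs), labC_congr (hlt' s hs)⟩)
  · intro s hs
    funext l θ
    change LabC P G (S (sg s) θ) (I (sg s) θ) (T s) sg s m' l0 et ρ d l =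
      LabC P G (S (sg' s) θ) (I (sg' s) θ) (T' s) sg' s m' l0 et ρ d l
    rw [hsg s hs, hT s hs]
    exact propext ⟨labC_congr (hlt s hs), labC_congr (hlt' s hs)⟩

end XPc_

open XPc_

section

variable {V Θ : Type} [Fintype V] {P : Cn} {G : SimpleGraph V} {S : Fin P.N → Θ → Sta P V}
  {I : Fin P.N → Θ → Inp P V}

/-- **Membership in `XPl`** from membership in the small set of any pool with the same stages and
items. -/
theorem mem_xpl {v0 : ℕ} {k : Cst} {K0 ek η et ρ : ℝ} {d m q : ℕ} {s : Fin P.N}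
    {sg : ℕ → Fin P.N} {T : ℕ → Finset (Fin P.N)}
    (hp : PlOk s (fun j : Fin q => sg j) (fun j : Fin q => T j)) {θ : Θ} {v : V}
    (hv : v ∈ (BF P G S I T sg m k.l0 et ρ d).XB G v0 k K0 ek η m q θ) :
    v ∈ XPl P G S I v0 k K0 ek η et ρ d m s (fun j : Fin q => sg j) (fun j : Fin q => T j) θ :=
  ⟨hp, bf_sub (fun _ hj => (exq_fun hj).symm) (fun _ hj => (exq_fun hj).symm) θ hv⟩

/-- The pools of `PoolB.lean` are allowed. -/
theorem PoolQ.plOk {N r q : ℕ} {Q : Finset (Fin N)} {sg : ℕ → Fin N} {T : ℕ → Finset (Fin N)}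
    (H : PoolQ r q Q sg T) {s : Fin N} (hs : sg (q - 1) = s) :
    PlOk s (fun j : Fin q => sg j) (fun j : Fin q => T j) where
  mono i j hij := H.lt i j hij j.2
  le j := by
    rw [← hs]
    exact H.le_last j.2
  mem i j hij := H.sgT i j hij j.2
  lt j := H.Tlt j j.2

end

end Pool.Agent.Lib.GSX
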