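import Pool.Agent.Lib.GSX.XBrec
import Pool.Agent.Lib.GSX.XPc
import Pool.Agent.Lib.GSX.Hts

/-!
# The end of the leaf with the typed windows

If the facts `StX` hold at the node `v` for all the stages of a pool of the history `c`, then `v`
lies in the small set of the pool.
-/

set_option autoImplicit false

namespace Pool.Agent.Lib.GSX

open Finset Classical
open Pool.Agent.Lib.GSR Pool.Agent.Lib.GSR.HZ Pool.Agent.Lib.GSR.HZB
open Pool.Agent.Lib.TCW (Cst)

section

variable {V : Type} [Fintype V] {P : Cn} {G : SimpleGraph V}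

/-- The small set of a pool only depends on the half prefix. -/
theorem xpl_hp {v0 : ℕ} {k : Cst} {K0 ek η et ρ : ℝ} {d m q : ℕ} {s : Fin P.N}
    {f : Fin q → Fin P.N} {T : Fin q → Finset (Fin P.N)} (c : Hh P V) {j : ℕ} (hj : g3 P ≤ j) :
    XPl P G (fun b θ => stt P G θ (hp s j c) b) (fun b θ => inpt P θ b (hp s j c))
        v0 k K0 ek η et ρ d m s f T =
      XPl P G (fun b θ => stt P G θ c b) (fun b θ => inpt P θ b c)
        v0 k K0 ek η et ρ d m s f T := by
  refine xpl_congr (fun b hb => ?_) fun b hb => ?_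
  · funext θ
    exact stt_hp hb c
  · funext θ
    refine inpt_hp ?_ c
    rcases lt_or_eq_of_le hb with h1 | h1
    · exact Or.inl h1
    · exact Or.inr ⟨congrArg Fin.val h1, hj⟩

/-- **The facts of the stages of a pool put the node into the small set.** -/
theorem b_end {θ : Tht P V} {c : Hh P V} {v : V} {v0 q d m : ℕ} {k : Cst}
    {K0 ek η et ρ : ℝ} {s : Fin P.N} {sg : ℕ → Fin P.N} {T : ℕ → Finset (Fin P.N)}
    (hp : PlOk s (fun j : Fin q => sg j) (fun j : Fin q => T j)) (hv0 : P.g0 + 1 ≤ v0)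
    (hw0 : P.w0 + 1 ≤ k.w0)
    (h : ∀ j < q, StX P G (stt P G θ c (sg j)) (inpt P θ (sg j) c) (T j) sg j m k.l0 et ρ d k
      K0 ek η v) :
    v ∈ XPl P G (fun b θ => stt P G θ c b) (fun b θ => inpt P θ b c) v0 k K0 ek η et ρ d m s
      (fun j : Fin q => sg j) (fun j : Fin q => T j) θ := by
  refine mem_xpl hp (mem_BF hv0 hw0 (fun j hj b hb x => ?_) h)
  have h1 : sg b < sg j := hp.mono ⟨b, hb.trans hj⟩ ⟨j, hj⟩ hb
  have h2 := Hts_.stt_a (P := P) (G := G) (θ := θ) c (sg b) (t := (sg j).1) h1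
  rw [h2]

end

end Pool.Agent.Lib.GSX
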