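import Pool.Agent.Lib.GSX.BdK

/-!
# The bounds of the masters (static)

`(b)`: the charge of the master `m^C_v` at `u` is at most `B |C| * ∑ c ∈ C, brw (a_c u / a_c v)`.
`bd_step`: the bound passes from the masters of the rank `|C|` to the new master of the rank
`|C| + 1`, if the payment functions of the stage are at most `b` at `u`.  `bd_run`: the bound at all
the stages; the payment functions are needed only at `u` and only for the initial segments of `C`.
-/

set_option autoImplicit false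

namespace Pool.Agent.Lib.GSX.BdM_

open Finset Classical
open Pool.Agent.Lib.GSX.RecP_
open Pool.Agent.Lib.FGF (cm)
open Pool.Agent.Lib.GSLE (brw brw_nonneg)
open Pool.Agent.Lib.GSR.Srv_ (cm_cl)

section

variable {V : Type} [Fintype V] {P : Cn} {G : SimpleGraph V} {s : Fin P.N} {S : Sta P V}
  {I : Inp P V}

/-! ### The new master -/

theorem its_sub {C T : Finset (Fin P.N)} (h : T ∈ its P s C) : C ⊆ T := (Finset.mem_filter.1 h).2

theorem its_card_le (C : Finset (Fin P.N)) : ((its P s C).card : ℝ) ≤ 2 ^ P.N := by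
  have h1 : (its P s C).card ≤ (Finset.univ : Finset (Finset (Fin P.N))).card :=
    Finset.card_le_card (Finset.subset_univ _)
  rw [Finset.card_univ, Fintype.card_finset, Fintype.card_fin] at h1
  exact_mod_cast h1

/-- The charge of the new master. -/
theorem cm_mst (C : Finset (Fin P.N)) (x u : V) :
    cm G (mst P G s S I C x) u = 1 / cst P C.card *
      (∑ l, wP P G S I C l x * cm G (MP P G S I C l (I.lp C l)) u +
        ∑ T ∈ its P s C, ∑ l, wA P G S I T l x * sv P G S I T C l *
          cm G (MA P G S I T C l (I.la T C l)) u) := by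
  have h1 : mst P G s S I C x = fun u => 1 / cst P C.card *
      (∑ l, wP P G S I C l x * MP P G S I C l (I.lp C l) u +
        ∑ T ∈ its P s C, ∑ l, wA P G S I T l x * sv P G S I T C l *
          MA P G S I T C l (I.la T C l) u) := rfl
  rw [h1, cm_mul, cm_add, cm_sum]
  congr 2
  · exact Finset.sum_congr rfl fun l _ => cm_mul _ _ _
  · rw [cm_sum]
    refine Finset.sum_congr rfl fun T _ => ?_
    rw [cm_sum]
    exact Finset.sum_congr rfl fun l _ => cm_mul _ _ _

theorem cm_MP (C : Finset (Fin P.N)) (l : Ml P V) (lam : V → ℝ) (u : V) :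
    cm G (MP P G S I C l lam) u =
      P.A' C.card * cm G (S.m C l.1) u + cm G (RP P G S I C l lam) u := by
  have h1 : MP P G S I C l lam = fun u => P.A' C.card * S.m C l.1 u + RP P G S I C l lam u := rfl
  rw [h1, cm_add, cm_mul]

theorem cm_MA (T C : Finset (Fin P.N)) (l : Ce P V) (lam : V → ℝ) (u : V) :
    cm G (MA P G S I T C l lam) u =
      P.A' C.card * (P.A C.card * ∑ t, I.q T C l t * cm G (S.m C t) u) +
        cm G (RA P G S I T C l lam) u := by
  have h1 : MA P G S I T C l lam = fun u =>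
      P.A' C.card * (P.A C.card * ∑ t, I.q T C l t * S.m C t u) + RA P G S I T C l lam u := rfl
  rw [h1, cm_add, cm_mul, cm_mul, cm_sum]
  congr 3
  exact Finset.sum_congr rfl fun t _ => cm_mul _ _ _

/-- **The step.**  The bound of the new master at `u`. -/
theorem bd_step (hP : CPos P) (hS : SPos S) (hI : IPos I) (hl : 0 ≤ P.lG) {b : ℝ} (hBd : 0 ≤ b)
    {C : Finset (Fin P.N)} {u : V} {B : ℝ} (hB : 0 ≤ B)
    (hb : BdAt P G S.a (S.m C) C u B)
    (hg : gpP P G S I C u ≤ b) (hg' : ∀ T ∈ its P s C, gpA P G S I T C u ≤ b) (x : V) :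
    cm G (mst P G s S I C x) u ≤ Bst P b C.card B *
      (∑ c ∈ C, brw (1 / 4) (S.a c u / S.a c x) +
        brw (1 / 4) (al P G I u / al P G I x)) := by
  set sg : ℝ := ∑ c ∈ C, brw (1 / 4) (S.a c u / S.a c x) with hsg
  set β : ℝ := brw (1 / 4) (al P G I u / al P G I x) with hβ
  set w : ℝ := brw (1 / 4) ((2 : ℝ) ^ (P.w0 + 1)) with hw
  have hax := al_pos (G := G) (I := I) x
  have hau := al_pos (G := G) (I := I) u
  have hs0 : 0 ≤ sg := Finset.sum_nonneg fun c _ =>
    brw_nonneg _ (div_nonneg (hS.a c u).le (hS.a c x).le)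
  have hβ0 : 0 ≤ β := brw_nonneg _ (div_nonneg hau.le hax.le)
  have hw0 : 0 ≤ w := brw_nonneg _ (by positivity)
  have hA := hP.A C.card
  have hA' := hP.A' C.card
  have hdl := (hP.dl C.card).le
  have he := hP.eps1
  have hc0 : 0 ≤ 1 / cst P C.card := one_div_nonneg.2 (cst_pos hP _).le
  -- the hub mode
  have hPm : ∑ l, wP P G S I C l x * cm G (MP P G S I C l (I.lp C l)) u ≤
      P.A' C.card * B * sg + b * β := by
    have h1 : ∑ l, wP P G S I C l x * cm G (MP P G S I C l (I.lp C l)) u =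
        P.A' C.card * ∑ l, wP P G S I C l x * cm G (S.m C l.1) u +
          ∑ l, wP P G S I C l x * cm G (RP P G S I C l (I.lp C l)) u := by
      rw [Finset.mul_sum, ← Finset.sum_add_distrib]
      exact Finset.sum_congr rfl fun l _ => by rw [cm_MP]; ring
    rw [h1]
    refine add_le_add ?_ ?_
    · rw [mul_assoc]
      exact mul_le_mul_of_nonneg_left (partP_m hP hS hI hl hB hb x) hA'
    · refine (partP_r hP hI C x u).trans ?_
      rw [mul_comm b]
      exact mul_le_mul_of_nonneg_left hg hβ0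
  -- the cells
  have hAm : ∀ T ∈ its P s C, ∑ l, wA P G S I T l x * sv P G S I T C l *
      cm G (MA P G S I T C l (I.la T C l)) u ≤
      2 * P.A' C.card * P.A C.card * B * P.dl C.card * w * sg + 2 * b / P.eps1 * β := by
    intro T hT
    have h1 : ∑ l, wA P G S I T l x * sv P G S I T C l *
        cm G (MA P G S I T C l (I.la T C l)) u =
        P.A' C.card * P.A C.card * (∑ l, wA P G S I T l x * sv P G S I T C l *
          ∑ t, I.q T C l t * cm G (S.m C t) u) +
        ∑ l, wA P G S I T l x * sv P G S I T C l *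
          cm G (RA P G S I T C l (I.la T C l)) u := by
      rw [Finset.mul_sum, ← Finset.sum_add_distrib]
      exact Finset.sum_congr rfl fun l _ => by rw [cm_MA]; ring
    rw [h1]
    refine add_le_add ?_ ?_
    · refine (mul_le_mul_of_nonneg_left (partA_m hP hS hI (its_sub hT) hB hb x)
        (mul_nonneg hA' hA)).trans (le_of_eq ?_)
      ring
    · refine (partA_r hP hI T C x u).trans ?_
      calc 2 / P.eps1 * (β * gpA P G S I T C u) ≤ 2 / P.eps1 * (β * b) :=
            mul_le_mul_of_nonneg_left (mul_le_mul_of_nonneg_left (hg' T hT) hβ0)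
              (div_nonneg zero_le_two he.le)
        _ = _ := by ring
  have hX : 0 ≤ 2 * P.A' C.card * P.A C.card * B * P.dl C.card * w := by positivity
  have hY : 0 ≤ 2 * b / P.eps1 := by positivity
  have hsum : ∑ T ∈ its P s C, ∑ l, wA P G S I T l x * sv P G S I T C l *
      cm G (MA P G S I T C l (I.la T C l)) u ≤ 2 ^ P.N *
      (2 * P.A' C.card * P.A C.card * B * P.dl C.card * w * sg + 2 * b / P.eps1 * β) := by
    refine (Finset.sum_le_sum hAm).trans ?_
    rw [Finset.sum_const, nsmul_eq_mul]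
    exact mul_le_mul_of_nonneg_right (its_card_le C)
      (add_nonneg (mul_nonneg hX hs0) (mul_nonneg hY hβ0))
  have hfin : P.A' C.card * B * sg + b * β + 2 ^ P.N *
      (2 * P.A' C.card * P.A C.card * B * P.dl C.card * w * sg + 2 * b / P.eps1 * β) ≤
      (P.A' C.card * B + b + 2 ^ P.N *
        (2 * P.A' C.card * P.A C.card * B * P.dl C.card * w + 2 * b / P.eps1)) *
        (sg + β) := by
    have h1 : 0 ≤ P.A' C.card * B * β := mul_nonneg (mul_nonneg hA' hB) hβ0
    have h2 : 0 ≤ b * sg := mul_nonneg hBd hs0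
    have h3 : 0 ≤ (2 : ℝ) ^ P.N *
        (2 * P.A' C.card * P.A C.card * B * P.dl C.card * w * β) :=
      mul_nonneg (by positivity) (mul_nonneg hX hβ0)
    have h4 : 0 ≤ (2 : ℝ) ^ P.N * (2 * b / P.eps1 * sg) :=
      mul_nonneg (by positivity) (mul_nonneg hY hs0)
    nlinarith
  rw [cm_mst]
  unfold Bst
  rw [mul_assoc]
  exact mul_le_mul_of_nonneg_left ((add_le_add hPm hsum).trans hfin) hc0

/-! ### All the stages -/

/-- **The bound `(b)` at all the stages.**  The payment functions are needed only at `u` and only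
for the initial segments of `C`. -/
theorem bd_run (hP : CPos P) (hl : 0 ≤ P.lG) {Ss : ℕ → Sta P V} {Is : Fin P.N → Inp P V} {K : ℕ}
    (h0 : SPos (Ss 0)) (h0m : ∀ x u, (Ss 0).m ∅ x u = 0)
    (hI : ∀ s : Fin P.N, (s : ℕ) < K → IPos (Is s))
    (hn : ∀ s : Fin P.N, (s : ℕ) < K → Ss (s + 1) = nxt P G s (Ss s) (Is s))
    (hK : K ≤ P.N) {b : ℝ} (hb : 0 ≤ b) {B : ℕ → ℝ} {h' : ℕ} (hB0 : ∀ r, 0 ≤ B r)
    (hB : ∀ r, r < h' → Bst P b r (B r) ≤ B (r + 1)) {u : V} :
    ∀ k, k ≤ K → SPos (Ss k) ∧ ∀ C : Finset (Fin P.N), (∀ c ∈ C, (c : ℕ) < k) → C.card ≤ h' →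
      (∀ s ∈ C, gpP P G (Ss s) (Is s) (C.filter fun c => c < s) u ≤ b ∧
        ∀ T ∈ its P s (C.filter fun c => c < s),
          gpA P G (Ss s) (Is s) T (C.filter fun c => c < s) u ≤ b) →
      BdAt P G (Ss k).a ((Ss k).m C) C u (B C.card) := by
  intro k
  induction k with
  | zero =>
    refine fun _ => ⟨h0, fun C hC _ _ v => ?_⟩
    have h1 : C = ∅ := Finset.eq_empty_of_forall_notMem fun c hc =>
      absurd (hC c hc) (Nat.not_lt_zero _)
    subst h1
    have h2 : (Ss 0).m ∅ v = fun _ => 0 := funext fun u => h0m v u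
    rw [h2, cm_cl, Finset.sum_empty, mul_zero]
    exact le_of_eq (Finset.sum_eq_zero fun _ _ => zero_mul _)
  | succ k ih =>
    intro hk
    obtain ⟨ihS, ih⟩ := ih (Nat.le_of_succ_le hk)
    have hkN : k < P.N := lt_of_lt_of_le hk hK
    have hnk := hn ⟨k, hkN⟩ hk
    have hIk := hI ⟨k, hkN⟩ hk
    simp only at hnk
    refine ⟨by rw [hnk]; exact nxt_spos hP ihS hIk, fun C hC hc hg v => ?_⟩
    rw [hnk]
    by_cases hs : (⟨k, hkN⟩ : Fin P.N) ∈ C
    · -- the new master
      have hlt : ∀ c ∈ C.erase ⟨k, hkN⟩, (c : ℕ) < k := by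
        intro c hc'
        obtain ⟨h1, h2⟩ := Finset.mem_erase.1 hc'
        have h3 := hC c h2
        have h4 : (c : ℕ) ≠ k := fun h => h1 (Fin.ext h)
        omega
      have hfil : ∀ s ∈ C, (s : ℕ) ≤ k →
          (C.erase ⟨k, hkN⟩).filter (fun c => c < s) = C.filter fun c => c < s := by
        intro s _ hsk
        ext c
        simp only [Finset.mem_filter, Finset.mem_erase]
        constructor
        · rintro ⟨⟨-, h1⟩, h2⟩
          exact ⟨h1, h2⟩
        · rintro ⟨h1, h2⟩
          refine ⟨⟨fun h => ?_, h1⟩, h2⟩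
          subst h
          have h3 : k < (s : ℕ) := h2
          omega
      have hself : (C.erase ⟨k, hkN⟩).filter (fun c => c < (⟨k, hkN⟩ : Fin P.N)) =
          C.erase ⟨k, hkN⟩ :=
        Finset.filter_true_of_mem fun c hc' => hlt c hc'
      have hE : C.filter (fun c => c < (⟨k, hkN⟩ : Fin P.N)) = C.erase ⟨k, hkN⟩ := by
        rw [← hfil _ hs le_rfl, hself]
      have hcard : (C.erase ⟨k, hkN⟩).card + 1 = C.card := Finset.card_erase_add_one hs
      have h1 : BdAt P G (Ss k).a ((Ss k).m (C.erase ⟨k, hkN⟩)) (C.erase ⟨k, hkN⟩) u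
          (B (C.erase ⟨k, hkN⟩).card) := by
        refine ih _ hlt (by omega) fun s hs' => ?_
        have h2 := Finset.mem_of_mem_erase hs'
        rw [hfil s h2 (hlt s hs').le]
        exact hg s h2
      obtain ⟨h2, h3⟩ := hg _ hs
      rw [hE] at h2 h3
      have h4 := bd_step hP ihS hIk hl hb (hB0 _) h1 h2 h3 v
      have h5 : (nxt P G ⟨k, hkN⟩ (Ss k) (Is ⟨k, hkN⟩)).m C v =
          mst P G ⟨k, hkN⟩ (Ss k) (Is ⟨k, hkN⟩) (C.erase ⟨k, hkN⟩) v :=
        funext fun w => nxt_m_mem hs v w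
      rw [h5]
      refine h4.trans ?_
      have h6 : ∑ c ∈ C, brw (1 / 4) ((nxt P G ⟨k, hkN⟩ (Ss k) (Is ⟨k, hkN⟩)).a c u /
          (nxt P G ⟨k, hkN⟩ (Ss k) (Is ⟨k, hkN⟩)).a c v) =
          ∑ c ∈ C.erase ⟨k, hkN⟩, brw (1 / 4) ((Ss k).a c u / (Ss k).a c v) +
            brw (1 / 4) (al P G (Is ⟨k, hkN⟩) u / al P G (Is ⟨k, hkN⟩) v) := by
        rw [← Finset.sum_erase_add _ _ hs]
        congr 1
        · refine Finset.sum_congr rfl fun c hc' => ?_
          have h7 := Finset.ne_of_mem_erase hc'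
          rw [nxt_a_ne h7, nxt_a_ne h7]
        · rw [nxt_a_self, nxt_a_self]
      rw [h6, ← hcard]
      refine mul_le_mul_of_nonneg_right (hB _ (by omega)) (add_nonneg
        (Finset.sum_nonneg fun c _ => brw_nonneg _ (div_nonneg (ihS.a c u).le (ihS.a c v).le))
        (brw_nonneg _ (div_nonneg (al_pos _).le (al_pos _).le)))
    · -- an old master
      have hlt : ∀ c ∈ C, (c : ℕ) < k := by
        intro c hc'
        have h3 := hC c hc'
        have h4 : (c : ℕ) ≠ k := fun h => hs (by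
          have h5 : c = ⟨k, hkN⟩ := Fin.ext h
          rwa [h5] at hc')
        omega
      have h1 := ih C hlt hc hg v
      have h5 : (nxt P G ⟨k, hkN⟩ (Ss k) (Is ⟨k, hkN⟩)).m C v = (Ss k).m C v :=
        funext fun w => nxt_m_not hs v w
      rw [h5]
      refine h1.trans (le_of_eq ?_)
      congr 1
      refine Finset.sum_congr rfl fun c hc' => ?_
      have h7 : c ≠ ⟨k, hkN⟩ := fun h => hs (h ▸ hc')
      rw [nxt_a_ne h7, nxt_a_ne h7]

end

end Pool.Agent.Lib.GSX.BdM_
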