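import Pool.Agent.Lib.GSX.RecP
import Pool.Agent.Lib.GSR.Ends

/-!
# The ends of the ranks, for one record

`sv_zero_one`, `sv_zero_zero`: no cell is served if the rank of the hub is at most one.
`wP_mean_one`, `wP_typ_one`, `ShP_typ_one`: if the charges of the masters dominate the stars then
the labels of the hub mode have a small weight at most nodes.
-/

set_option autoImplicit false

namespace Pool.Agent.Lib.GSX

open Finset Classical
open Pool.Agent.Lib.FGF (cm)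
open Pool.Agent.Lib.FGF.Avg (wds mem_wds)
open Pool.Agent.Lib.GSLE (kp brw cl win stp Cel hc rhoC CC AC alp)
open Pool.Agent.Lib.GSR (vioC)

/-- The facts about a record which are used at the ends of the ranks: supports, atoms
(`n3 x ≤ b * al x`), the cover vanishes at the nodes, and colours of the neighbourhoods. -/
structure EndH (P : Cn) {V : Type} [Fintype V] (G : SimpleGraph V) (S : Sta P V) (I : Inp P V)
    (b : ℝ) (κ : ℕ) (f : V → V → Fin κ) : Prop where
  M1 : 1 ≤ P.M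
  b0 : 0 ≤ b
  pi1 : ∑ l, I.pi l ≤ 1
  sup : ∀ x, I.n3 x ≠ 0 → x ∈ I.W
  atm : ∀ x, I.n3 x ≤ b * al P G I x
  F0 : ∀ x, I.n3 x ≠ 0 → Fs P G S I x = 0
  col : ∀ v u w, G.Adj v u → G.Adj v w → G.Adj u w → f v u ≠ f v w

namespace EndI_

section

variable {V : Type} [Fintype V] {P : Cn} {G : SimpleGraph V} {s : Fin P.N} {S : Sta P V}
  {I : Inp P V} {b : ℝ} {κ : ℕ} {f : V → V → Fin κ}

theorem CP_le_one (C : Finset (Fin P.N)) (x : V) (l : Ml P V) : CP P G S I C x l ≤ 1 :=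
  (RecP_.CP_le C x l).trans (RecP_.kk_le_one _ _ _)

theorem CP_ne {C : Finset (Fin P.N)} {x : V} {l : Ml P V} (h : CP P G S I C x l ≠ 0) :
    G.Adj x l.1 ∧ l.1 ∈ I.W :=
  have h1 := RecP_.kk_ne (left_ne_zero_of_mul h)
  ⟨h1.1, h1.2.1⟩

theorem CS_le_one (T : Finset (Fin P.N)) (x : V) (l : Ce P V) : CS P G S I T x l ≤ 1 :=
  (RecP_.CS_le T x l).trans (RecP_.kk_le_one _ _ _)

theorem flux_sum (C : Finset (Fin P.N)) :
    ∑ x, I.n3 x * ∑ l, wP P G S I C l x = ∑ l, I.pi l * ∑ x, PP P G S I C l x := by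
  have h1 : ∀ x, I.n3 x * ∑ l, wP P G S I C l x = ∑ l, I.pi l * PP P G S I C l x := by
    intro x
    rw [Finset.mul_sum]
    exact Finset.sum_congr rfl fun l _ => RecP_.n3_wP C l x
  rw [Finset.sum_congr rfl fun x _ => h1 x, Finset.sum_comm]
  exact Finset.sum_congr rfl fun l _ => (Finset.mul_sum _ _ _).symm

theorem PP_le (hI : IPos I) (h : EndH P G S I b κ f) (C : Finset (Fin P.N)) (l : Ml P V)
    (x : V) : PP P G S I C l x ≤ b := by
  unfold PP
  rw [div_le_iff₀ (RecP_.al_pos x)]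
  exact (mul_le_of_le_one_right (hI.n3 x) (CP_le_one _ _ _)).trans (h.atm x)

theorem PP_ne (h : EndH P G S I b κ f) {C : Finset (Fin P.N)} {l : Ml P V} {x : V}
    (hx : PP P G S I C l x ≠ 0) : G.Adj l.1 x ∧ l.1 ∈ I.W ∧ x ∈ I.W ∧ I.n3 x ≠ 0 := by
  have h1 : I.n3 x * CP P G S I C x l ≠ 0 := by
    intro h2
    exact hx (by unfold PP; rw [h2, zero_div])
  have h2 := CP_ne (right_ne_zero_of_mul h1)
  have h3 := left_ne_zero_of_mul h1
  exact ⟨h2.1.symm, h2.2, h.sup x h3, h3⟩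

theorem PA_le (hP : CPos P) (hI : IPos I) (h : EndH P G S I b κ f) (T : Finset (Fin P.N))
    (l : Ce P V) (x : V) : PA P G S I T l x ≤ 2 * b / P.eps1 := by
  unfold PA
  rw [div_le_iff₀ (RecP_.BS_pos hP.eps1 T x)]
  have h3 : I.n3 x * CS P G S I T x l ≤ b * al P G I x :=
    (mul_le_of_le_one_right (hI.n3 x) (CS_le_one _ _ _)).trans (h.atm x)
  refine h3.trans ?_
  have h4 : b * al P G I x = 2 * b / P.eps1 * (P.eps1 * al P G I x / 2) := by
    have := hP.eps1
    field_simp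
  rw [h4]
  have h5 := h.b0
  have h6 := hP.eps1
  exact mul_le_mul_of_nonneg_left (RecP_.half_le_BS T x) (by positivity)

theorem PA_ne (h : EndH P G S I b κ f) {T : Finset (Fin P.N)} {l : Ce P V} {x : V}
    (hx : PA P G S I T l x ≠ 0) : G.Adj l.1.1 x ∧ l.1.1 ∈ I.W ∧ x ∈ I.W ∧ I.n3 x ≠ 0 := by
  have h1 : I.n3 x * CS P G S I T x l ≠ 0 := by
    intro h2
    exact hx (by unfold PA; rw [h2, zero_div])
  have h2 := left_ne_zero_of_mul h1
  have h3 := RecP_.kk_ne (RecP_.CS_ne (right_ne_zero_of_mul h1)).1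
  exact ⟨h3.1.symm, h3.2.1, h.sup x h2, h2⟩

/-- The parts of the objective. -/
theorem Rv_parts (hP : CPos P) (hS : SPos S) (hI : IPos I) {T C : Finset (Fin P.N)} {l : Ce P V}
    {q mu : V → ℝ} (hq : ∀ t, 0 ≤ q t) (hmu : ∀ u, 0 ≤ mu u) :
    vioC G P.M (P.h - C.card - 1) l.1.1
        (fun u => cm G (Mh P S C q mu) u + P.Z' C.card * Fs P G S I u) I.W ≤
      Rv P G S I T C l q mu ∧
    ∑ x, PA P G S I T l x * cm G (Mh P S C q mu) x ≤ Rv P G S I T C l q mu ∧
    ∑ t, q t * hcost P G S I C l t ≤ Rv P G S I T C l q mu := by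
  have h1 : 0 ≤ vioC G P.M (P.h - C.card - 1) l.1.1
      (fun u => cm G (Mh P S C q mu) u + P.Z' C.card * Fs P G S I u) I.W := GSR.vioC_nonneg
  have h2 : 0 ≤ ∑ x, PA P G S I T l x * cm G (Mh P S C q mu) x :=
    Finset.sum_nonneg fun x _ => mul_nonneg (RecP_.PA_nonneg hP.eps1 hI.n3 T l x)
      (GSR.Srv_.cm_nonneg (fun u => RecP_.Mh_nonneg hP.A hS.m C hq hmu u) x)
  have h3 : 0 ≤ ∑ t, q t * hcost P G S I C l t :=
    Finset.sum_nonneg fun t _ => mul_nonneg (hq t) (RecP_.hcost_nonneg hS.a C l t)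
  unfold Rv
  refine ⟨?_, ?_, ?_⟩ <;> linarith

omit [Fintype V] in
/-- The violation of depth zero is at least one. -/
theorem one_le_vioC_zero [Fintype V] (M : ℕ) (v : V) (g : V → ℝ) (L : Finset V) :
    1 ≤ vioC G M 0 v g L := by
  have h0 : wds M 0 = ∅ := by
    refine Finset.eq_empty_of_forall_notMem fun u hu => ?_
    obtain ⟨h4, h5⟩ := mem_wds.1 hu
    exact h5 (List.eq_nil_of_length_eq_zero (Nat.le_zero.1 h4))
  have h4 := GSR.le_vioC (L := L) (g := g) (Pool.Agent.Lib.FGF.Cnt.tree0 G M v) rfl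
    fun u hu => by
      rw [h0] at hu
      exact absurd hu (Finset.notMem_empty _)
  have h5 : GSR.bc M 0 g (fun _ => v) = 0 := by
    unfold GSR.bc
    rw [h0, Finset.sum_empty]
  rw [h5] at h4
  linarith

end

end EndI_

open EndI_

section

variable {V : Type} [Fintype V] {P : Cn} {G : SimpleGraph V} {s : Fin P.N} {S : Sta P V}
  {I : Inp P V} {b : ℝ} {κ : ℕ} {f : V → V → Fin κ}

/-- The mean weight of the labels of the hub mode whose hubs have rank one. -/
theorem wP_mean_one (hS : SPos S) (hI : IPos I) (h : EndH P G S I b κ f)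
    {C : Finset (Fin P.N)} {e : ℝ}
    (hv : ∀ v ∈ I.W, vioC G P.M 1 v (cm G (S.m C v)) I.W ≤ 1 / 2)
    (he : ∀ l x, PP P G S I C l x ≠ 0 → cm G (S.m C l.1) x ≤ e) (hMe : 8 * (P.M : ℝ) * e ≤ 1) :
    ∑ x, I.n3 x * ∑ l, wP P G S I C l x ≤ 2 * (κ * P.M * b) := by
  have hM0 : (0 : ℝ) < P.M := by exact_mod_cast h.M1
  have hb0 := h.b0
  rw [flux_sum]
  set O : Finset (Ml P V) := Finset.univ.filter fun l => l.1 ∈ I.W with hO
  have h0 : ∀ l, l ∉ O → ∀ x, PP P G S I C l x = 0 := by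
    intro l hl x
    by_contra hx
    exact hl (Finset.mem_filter.2 ⟨Finset.mem_univ _, (PP_ne h hx).2.1⟩)
  have hX : ∑ l, I.pi l * ∑ x, PP P G S I C l x = ∑ l ∈ O, I.pi l * ∑ x, PP P G S I C l x := by
    symm
    refine Finset.sum_subset (Finset.subset_univ _) fun l _ hl => ?_
    rw [Finset.sum_eq_zero fun x _ => h0 l hl x, mul_zero]
  rw [hX]
  have h1 := GSR.mass_labels (G := G) (κ := κ) (L := I.W) (a := 1 / 2) (c := 1 / (4 * P.M)) h.M1 O
    (y := fun l => l.1) (g := fun l => cm G (S.m C l.1)) (ρ := I.pi)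
    (P := fun l x => PP P G S I C l x) (b := b)
    (fun l u => GSR.Srv_.cm_nonneg (fun w => hS.m C l.1 w) u) f h.col
    (fun l hl => hv l.1 (Finset.mem_filter.1 hl).2)
    (by
      rw [mul_one_div, div_lt_iff₀ (by positivity)]
      nlinarith)
    (by positivity)
    (by
      rw [div_le_one (by positivity)]
      have : (1 : ℝ) ≤ P.M := by exact_mod_cast h.M1
      linarith)
    hI.pi (fun l x => RecP_.PP_nonneg hI.n3 C l x)
    (fun l _ x hx => ⟨(PP_ne h hx).1, (PP_ne h hx).2.2.1⟩) fun l _ x => PP_le hI h C l x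
  set X : ℝ := ∑ l ∈ O, I.pi l * ∑ x, PP P G S I C l x with hXdef
  have h2 : ∑ l ∈ O, I.pi l ≤ 1 :=
    (Finset.sum_le_sum_of_subset_of_nonneg (Finset.subset_univ _) fun l _ _ => hI.pi l).trans
      h.pi1
  have h3 : ∑ l ∈ O, I.pi l * ∑ x, PP P G S I C l x * min 1 (cm G (S.m C l.1) x) ≤ e * X := by
    rw [hXdef, Finset.mul_sum]
    refine Finset.sum_le_sum fun l _ => ?_
    rw [mul_left_comm]
    refine mul_le_mul_of_nonneg_left ?_ (hI.pi l)
    rw [Finset.mul_sum]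
    refine Finset.sum_le_sum fun x _ => ?_
    rcases eq_or_ne (PP P G S I C l x) 0 with h4 | h4
    · rw [h4, zero_mul, mul_zero]
    · rw [mul_comm]
      exact mul_le_mul_of_nonneg_right ((min_le_right _ _).trans (he l x h4))
        (RecP_.PP_nonneg hI.n3 C l x)
  have hX0 : 0 ≤ X := Finset.sum_nonneg fun l _ =>
    mul_nonneg (hI.pi l) (Finset.sum_nonneg fun x _ => RecP_.PP_nonneg hI.n3 C l x)
  have h4 : (1 / (4 * (P.M : ℝ)))⁻¹ = 4 * P.M := by
    rw [one_div, inv_inv]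
  rw [h4] at h1
  have h5 : κ * P.M * b * ∑ l ∈ O, I.pi l ≤ κ * P.M * b :=
    mul_le_of_le_one_right (by positivity) h2
  have h6 := mul_le_mul_of_nonneg_left h3 (by positivity : (0 : ℝ) ≤ 4 * P.M)
  nlinarith

/-- The weight of the labels of the hub mode is small at most nodes. -/
theorem wP_typ_one (hS : SPos S) (hI : IPos I) (h : EndH P G S I b κ f)
    {C : Finset (Fin P.N)} {e : ℝ}
    (hv : ∀ v ∈ I.W, vioC G P.M 1 v (cm G (S.m C v)) I.W ≤ 1 / 2)
    (he : ∀ l x, PP P G S I C l x ≠ 0 → cm G (S.m C l.1) x ≤ e) (hMe : 8 * (P.M : ℝ) * e ≤ 1)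
    {t : ℝ} (ht : 0 < t) :
    ∑ x with t ≤ ∑ l, wP P G S I C l x, I.n3 x ≤ 2 * (κ * P.M * b) / t := by
  rw [le_div_iff₀ ht]
  refine le_trans ?_ (wP_mean_one hS hI h hv he hMe)
  rw [Finset.sum_mul]
  refine (Finset.sum_le_sum (g := fun x => I.n3 x * ∑ l, wP P G S I C l x) fun x hx =>
    mul_le_mul_of_nonneg_left (Finset.mem_filter.1 hx).2 (hI.n3 x)).trans ?_
  exact Finset.sum_le_sum_of_subset_of_nonneg (Finset.subset_univ _) fun x _ _ =>
    mul_nonneg (hI.n3 x) (Finset.sum_nonneg fun l _ => RecP_.wP_nonneg hI.pi C l x)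

/-- The score of the hub mode is at most the weight of the labels. -/
theorem ShP_le_wP (hI : IPos I) (C : Finset (Fin P.N)) (x : V) :
    ShP P G S I C x ≤ ∑ l, wP P G S I C l x := by
  refine Finset.sum_le_sum fun l _ => mul_le_of_le_one_right (RecP_.wP_nonneg hI.pi C l x) ?_
  have h1 : 0 ≤ upsP P G S I C l (I.lp C l) x := GSR.vioC_nonneg
  linarith

/-- The score of the hub mode is small at most nodes. -/
theorem ShP_typ_one (hS : SPos S) (hI : IPos I) (h : EndH P G S I b κ f)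
    {C : Finset (Fin P.N)} {e : ℝ}
    (hv : ∀ v ∈ I.W, vioC G P.M 1 v (cm G (S.m C v)) I.W ≤ 1 / 2)
    (he : ∀ l x, PP P G S I C l x ≠ 0 → cm G (S.m C l.1) x ≤ e) (hMe : 8 * (P.M : ℝ) * e ≤ 1)
    {t : ℝ} (ht : 0 < t) :
    ∑ x with t ≤ ShP P G S I C x, I.n3 x ≤ 2 * (κ * P.M * b) / t := by
  refine le_trans ?_ (wP_typ_one hS hI h hv he hMe ht)
  refine Finset.sum_le_sum_of_subset_of_nonneg (fun x hx => ?_) fun x _ _ => hI.n3 x
  exact Finset.mem_filter.2
    ⟨Finset.mem_univ _, (Finset.mem_filter.1 hx).2.trans (ShP_le_wP hI C x)⟩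

/-- No cell is served if the trees at the hub are stars. -/
theorem sv_zero_one (hP : CPos P) (hS : SPos S) (hI : IPos I) (h : EndH P G S I b κ f)
    {T C : Finset (Fin P.N)} {l : Ce P V}
    (hr : P.h - C.card - 1 = 1) (hdl1 : P.dl C.card ≤ 1 / 4)
    (hc : κ * P.M * (2 * b / P.eps1) + 8 * P.M * P.dl C.card ≤ P.del / 2) :
    sv P G S I T C l = 0 := by
  by_contra hsv
  obtain ⟨h1, h2⟩ := RecP_.sv_ne hP hsv
  obtain ⟨h3, h4, -⟩ := Rv_parts (G := G) (T := T) (C := C) (l := l) hP hS hI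
    (hI.q T C l) (hI.mu T C l)
  rw [hr] at h3
  have hM0 : (0 : ℝ) < P.M := by exact_mod_cast h.M1
  have hM1 : (1 : ℝ) ≤ P.M := by exact_mod_cast h.M1
  have hdl := hP.dl C.card
  have hg0 : ∀ u, 0 ≤ cm G (Mh P S C (I.q T C l) (I.mu T C l)) u +
      P.Z' C.card * Fs P G S I u :=
    fun u => add_nonneg (GSR.Srv_.cm_nonneg (fun w => RecP_.Mh_nonneg hP.A hS.m C
      (hI.q T C l) (hI.mu T C l) w) u) (mul_nonneg (hP.Z' _) (RecP_.Fs_nonneg hS.F u))
  have h5 := GSR.mass_light (κ := κ) (c := 1 / (4 * P.M)) (a := 2 * P.dl C.card) h.M1 hg0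
    (f l.1.1) (h.col l.1.1) (h3.trans h1.le)
    (by
      rw [mul_one_div, div_lt_iff₀ (by positivity)]
      nlinarith)
    (by positivity)
    (by
      rw [div_le_one (by positivity)]
      linarith)
    (fun x => RecP_.PA_nonneg hP.eps1 hI.n3 T l x)
    (fun x hx => ⟨(PA_ne h hx).1, (PA_ne h hx).2.2.1⟩) fun x => PA_le hP hI h T l x
  have h6 : ∑ x, PA P G S I T l x * min 1 (cm G (Mh P S C (I.q T C l) (I.mu T C l)) x +
      P.Z' C.card * Fs P G S I x) ≤
      ∑ x, PA P G S I T l x * cm G (Mh P S C (I.q T C l) (I.mu T C l)) x := by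
    refine Finset.sum_le_sum fun x _ => ?_
    rcases eq_or_ne (PA P G S I T l x) 0 with h7 | h7
    · rw [h7, zero_mul, zero_mul]
    · refine mul_le_mul_of_nonneg_left ?_ (RecP_.PA_nonneg hP.eps1 hI.n3 T l x)
      rw [h.F0 x (PA_ne h h7).2.2.2, mul_zero, add_zero]
      exact min_le_right _ _
  have h7 : (1 / (4 * (P.M : ℝ)))⁻¹ = 4 * P.M := by
    rw [one_div, inv_inv]
  rw [h7] at h5
  have h8 : 4 * (P.M : ℝ) * ∑ x, PA P G S I T l x * min 1
      (cm G (Mh P S C (I.q T C l) (I.mu T C l)) x + P.Z' C.card * Fs P G S I x) ≤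
      4 * P.M * (2 * P.dl C.card) :=
    mul_le_mul_of_nonneg_left (h6.trans (h4.trans h1.le)) (by positivity)
  have h9 : DD P G S I T l = ∑ x, PA P G S I T l x := rfl
  rw [h9] at h2
  linarith

/-- No cell is served if the trees at the hub have depth zero. -/
theorem sv_zero_zero (hP : CPos P) (hS : SPos S) (hI : IPos I)
    {T C : Finset (Fin P.N)} {l : Ce P V}
    (hr : P.h - C.card - 1 = 0) (hdl1 : P.dl C.card ≤ 1 / 2) :
    sv P G S I T C l = 0 := by
  by_contra hsv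
  obtain ⟨h1, -⟩ := RecP_.sv_ne hP hsv
  obtain ⟨h3, -⟩ := Rv_parts (G := G) (T := T) (C := C) (l := l) hP hS hI
    (hI.q T C l) (hI.mu T C l)
  rw [hr] at h3
  have h4 := one_le_vioC_zero (G := G) P.M l.1.1
    (fun u => cm G (Mh P S C (I.q T C l) (I.mu T C l)) u + P.Z' C.card * Fs P G S I u) I.W
  linarith

/-- The score of the hub mode at the last rank. -/
theorem ShP_le_zero (hI : IPos I) {C : Finset (Fin P.N)}
    (hr : P.h - C.card - 1 = 0) (x : V) : ShP P G S I C x ≤ 0 := by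
  refine Finset.sum_nonpos fun l _ =>
    mul_nonpos_of_nonneg_of_nonpos (RecP_.wP_nonneg hI.pi C l x) ?_
  have h1 : 1 ≤ upsP P G S I C l (I.lp C l) x := by
    unfold upsP
    rw [hr]
    exact one_le_vioC_zero _ _ _ _
  linarith

/-- The score of an item without served cells. -/
theorem ShA_zero {T C : Finset (Fin P.N)} (hs : ∀ l, sv P G S I T C l = 0) (x : V) :
    ShA P G S I T C x = 0 :=
  Finset.sum_eq_zero fun l _ => by rw [hs l, mul_zero, zero_mul]

end

end Pool.Agent.Lib.GSX
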