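import Pool.Agent.Lib.GSX.Rec
import Pool.Agent.Lib.GSR.Mst

/-!
# The means of the payment functions

For one record: if the level-wise masses of the closed neighbourhoods are bounded on the world, the
payment functions `gpP C`, `gpA T C` have bounded means for the law of the node.
-/

set_option autoImplicit false

namespace Pool.Agent.Lib.GSX

open Finset Classical
open Pool.Agent.Lib.FGF (cm)
open Pool.Agent.Lib.GSLE (kp brw cl win stp Cel hc rhoC CC AC alp ds)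
open Pool.Agent.Lib.GSR (vioC)

namespace PayM_

theorem sqrt_pw {x : ℝ} (hx : 0 ≤ x) (m : ℕ) : √(x ^ m) = √x ^ m := by
  rw [Real.sqrt_eq_iff_mul_self_eq (by positivity) (by positivity), ← mul_pow,
    Real.mul_self_sqrt hx]

/-- The decay of the kernel of the payment functions. -/
noncomputable def q4 : ℝ := √√(1 / 2)

theorem q4_pos : 0 < q4 := Real.sqrt_pos.mpr (Real.sqrt_pos.mpr (by norm_num))

theorem q4_lt : q4 < 1 := by
  unfold q4
  rw [Real.sqrt_lt' one_pos, one_pow, Real.sqrt_lt' one_pos]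
  norm_num

theorem q4_pow (m : ℕ) : √√((1 / 2 : ℝ) ^ m) = q4 ^ m := by
  unfold q4
  rw [sqrt_pw (by norm_num), sqrt_pw (Real.sqrt_nonneg _)]

/-- The constant of the payment means. -/
noncomputable def Cq : ℝ := 2 * (2 / (1 - q4))

theorem Cq_pos : 0 < Cq := by
  have := q4_lt
  unfold Cq
  have h1 : 0 < 1 - q4 := by linarith
  positivity

theorem kp_le_sqrt (v : ℝ) : kp v ≤ √v := by
  rcases le_total v 1 with h | h
  · rw [GSLE.kp_of_le h]
  · exact (GSLE.kp_le_one v).trans (Real.one_le_sqrt.mpr h)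

theorem kp_le_sqrt_inv {v : ℝ} (hv : 0 < v) : kp v ≤ √(1 / v) := by
  rcases le_total v 1 with h | h
  · exact (GSLE.kp_le_one v).trans (Real.one_le_sqrt.mpr ((one_le_div hv).mpr h))
  · rw [GSLE.kp_of_ge h, Real.sqrt_div zero_le_one, Real.sqrt_one]

theorem kp_le_kq (v : ℝ) : kp v ≤ √(kp v) := by
  refine Real.le_sqrt_of_sq_le ?_
  have h0 := GSLE.kp_nonneg v
  have h1 := GSLE.kp_le_one v
  nlinarith

/-- The kernel at the distance of the levels. -/
theorem kq_le {a : ℝ} (ha : 0 < a) {i k : ℕ} (h : |Real.logb 2 a + k| ≤ 1) :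
    √(kp (a / lv i)) ≤ 2 * q4 ^ ds k i := by
  have h2 : (2 : ℝ) ^ Real.logb 2 a = a :=
    Real.rpow_logb two_pos (by norm_num) ha
  obtain ⟨h3, h4⟩ := abs_le.mp h
  -- the scale and the level
  have hpk : (2 : ℝ) ^ (-(k : ℝ)) = (1 / 2 : ℝ) ^ k := by
    rw [Real.rpow_neg two_pos.le, Real.rpow_natCast, one_div, inv_pow]
  have hup : a ≤ 2 * (1 / 2 : ℝ) ^ k := by
    rw [← h2, ← hpk]
    calc (2 : ℝ) ^ Real.logb 2 a ≤ (2 : ℝ) ^ (1 + -(k : ℝ)) :=
          Real.rpow_le_rpow_of_exponent_le (by norm_num) (by linarith)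
      _ = 2 * (2 : ℝ) ^ (-(k : ℝ)) := by rw [Real.rpow_add two_pos, Real.rpow_one]
  have hlo : (1 / 2 : ℝ) ^ k ≤ 2 * a := by
    rw [← h2, ← hpk]
    calc (2 : ℝ) ^ (-(k : ℝ)) ≤ (2 : ℝ) ^ (1 + Real.logb 2 a) :=
          Real.rpow_le_rpow_of_exponent_le (by norm_num) (by linarith)
      _ = 2 * (2 : ℝ) ^ Real.logb 2 a := by rw [Real.rpow_add two_pos, Real.rpow_one]
  have hfin : ∀ m : ℕ, √√(2 * (1 / 2 : ℝ) ^ m) ≤ 2 * q4 ^ m := by
    intro m
    rw [Real.sqrt_mul two_pos.le, Real.sqrt_mul (Real.sqrt_nonneg _), q4_pow]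
    refine mul_le_mul_of_nonneg_right ?_ (pow_nonneg q4_pos.le _)
    have h5 : √√2 ≤ √2 := by
      refine Real.sqrt_le_sqrt ?_
      rw [Real.sqrt_le_left (by norm_num)]
      norm_num
    have h6 : √2 ≤ 2 := by
      rw [Real.sqrt_le_left (by norm_num)]
      norm_num
    exact h5.trans h6
  have hli : 0 < lv i := by
    unfold lv
    positivity
  rcases le_total i k with hik | hki
  · obtain ⟨m, rfl⟩ := Nat.exists_eq_add_of_le hik
    have h5 : ds (i + m) i = m := by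
      unfold GSLE.ds
      omega
    rw [h5]
    refine le_trans ?_ (hfin m)
    refine Real.sqrt_le_sqrt ((kp_le_sqrt _).trans (Real.sqrt_le_sqrt ?_))
    rw [div_le_iff₀ hli]
    refine hup.trans (le_of_eq ?_)
    unfold lv
    rw [pow_add]
    ring
  · obtain ⟨m, rfl⟩ := Nat.exists_eq_add_of_le hki
    have h5 : ds k (k + m) = m := by
      unfold GSLE.ds
      omega
    rw [h5]
    refine le_trans ?_ (hfin m)
    refine Real.sqrt_le_sqrt ((kp_le_sqrt_inv (div_pos ha hli)).trans (Real.sqrt_le_sqrt ?_))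
    rw [one_div_div, div_le_iff₀ ha]
    unfold lv
    rw [pow_add]
    have h6 : (0 : ℝ) ≤ (1 / 2 : ℝ) ^ m := by positivity
    nlinarith

/-- Every scale in the range is close to a level. -/
theorem exists_lev {J : ℕ} {a : ℝ} (h1 : lv (J + 1) ≤ a) (h2 : a ≤ 2) :
    ∃ k : Fin (J + 1), |Real.logb 2 a + (k : ℕ)| ≤ 1 := by
  have hl : 0 < lv (J + 1) := by
    unfold lv
    positivity
  have ha : 0 < a := lt_of_lt_of_le hl h1
  have h3 : Real.logb 2 a ≤ 1 := by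
    rw [Real.logb_le_iff_le_rpow (by norm_num) ha, Real.rpow_one]
    exact h2
  have h4 : -((J : ℝ) + 1) ≤ Real.logb 2 a := by
    rw [Real.le_logb_iff_rpow_le (by norm_num) ha]
    refine le_of_eq_of_le ?_ h1
    unfold lv
    rw [Real.rpow_neg two_pos.le, one_div, inv_pow]
    congr 1
    rw [← Real.rpow_natCast]
    push_cast
    rfl
  rcases le_total 0 (Real.logb 2 a) with h5 | h5
  · refine ⟨0, ?_⟩
    rw [Fin.val_zero, Nat.cast_zero, add_zero, abs_of_nonneg h5]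
    exact h3
  · set b : ℝ := -Real.logb 2 a with hb
    have hb0 : 0 ≤ b := by linarith
    have h6 := Nat.floor_le hb0
    have h7 := Nat.lt_floor_add_one b
    by_cases h8 : ⌊b⌋₊ ≤ J
    · refine ⟨⟨⌊b⌋₊, by omega⟩, ?_⟩
      rw [abs_le]
      constructor
      · simp only
        linarith
      · simp only
        linarith
    · refine ⟨⟨J, by omega⟩, ?_⟩
      have h9 : ((J + 1 : ℕ) : ℝ) ≤ b := by
        refine le_trans ?_ h6
        exact_mod_cast (by omega : J + 1 ≤ ⌊b⌋₊)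
      push_cast at h9
      rw [abs_le]
      constructor
      · simp only
        linarith
      · simp only
        linarith

/-- The level-wise bounds give the bound for the kernel of the payment functions. -/
theorem sum_kq {V : Type} [Fintype V] {n a A : V → ℝ} (hn : ∀ x, 0 ≤ n x) (ha : ∀ x, 0 < a x)
    (hA : ∀ x, 0 ≤ A x) {J : ℕ} (hlev : ∀ x, n x ≠ 0 →
      ∃ k : Fin (J + 1), |Real.logb 2 (a x) + (k : ℕ)| ≤ 1) {K : ℝ}
    (hK : ∀ k : Fin (J + 1), ∑ x, n x / a x * win 1 (Real.logb 2 (a x) + (k : ℕ)) * A x ≤ K)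
    (hK0 : 0 ≤ K) (i : ℕ) :
    ∑ x, n x / a x * √(kp (a x / lv i)) * A x ≤ K * Cq := by
  have h1 : ∀ x, n x / a x * √(kp (a x / lv i)) * A x ≤
      ∑ k : Fin (J + 1), 2 * q4 ^ ds (k : ℕ) i *
        (n x / a x * win 1 (Real.logb 2 (a x) + (k : ℕ)) * A x) := by
    intro x
    have hnn : ∀ k : Fin (J + 1), 0 ≤ 2 * q4 ^ ds (k : ℕ) i *
        (n x / a x * win 1 (Real.logb 2 (a x) + (k : ℕ)) * A x) := by
      intro k
      have h2 := q4_pos
      exact mul_nonneg (by positivity) (mul_nonneg (mul_nonneg (div_nonneg (hn x) (ha x).le)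
        (GSLE.win_nonneg _ _)) (hA x))
    by_cases hx : n x = 0
    · rw [hx, zero_div, zero_mul, zero_mul]
      refine Finset.sum_nonneg fun k _ => ?_
      rw [zero_mul, zero_mul, mul_zero]
    · obtain ⟨k, hk⟩ := hlev x hx
      refine le_trans ?_ (Finset.single_le_sum (f := fun k : Fin (J + 1) =>
        2 * q4 ^ ds (k : ℕ) i * (n x / a x * win 1 (Real.logb 2 (a x) + (k : ℕ)) * A x))
        (fun k _ => hnn k) (Finset.mem_univ k))
      rw [GSLE.win_eq_one hk, mul_one]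
      have h3 := kq_le (ha x) (i := i) hk
      have h4 : 0 ≤ n x / a x * A x := mul_nonneg (div_nonneg (hn x) (ha x).le) (hA x)
      calc n x / a x * √(kp (a x / lv i)) * A x = √(kp (a x / lv i)) * (n x / a x * A x) := by ring
        _ ≤ 2 * q4 ^ ds (k : ℕ) i * (n x / a x * A x) := mul_le_mul_of_nonneg_right h3 h4
  refine (Finset.sum_le_sum fun x _ => h1 x).trans ?_
  rw [Finset.sum_comm]
  have h2 : ∀ k : Fin (J + 1), ∑ x, 2 * q4 ^ ds (k : ℕ) i *
      (n x / a x * win 1 (Real.logb 2 (a x) + (k : ℕ)) * A x) ≤ 2 * K * q4 ^ ds (k : ℕ) i := by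
    intro k
    rw [← Finset.mul_sum]
    have h3 := q4_pos
    have h4 : 0 ≤ 2 * q4 ^ ds (k : ℕ) i := by positivity
    calc 2 * q4 ^ ds (k : ℕ) i * ∑ x, n x / a x * win 1 (Real.logb 2 (a x) + (k : ℕ)) * A x
        ≤ 2 * q4 ^ ds (k : ℕ) i * K := mul_le_mul_of_nonneg_left (hK k) h4
      _ = 2 * K * q4 ^ ds (k : ℕ) i := by ring
  refine (Finset.sum_le_sum fun k _ => h2 k).trans ?_
  rw [← Finset.mul_sum]
  have h3 : ∑ k : Fin (J + 1), q4 ^ ds (k : ℕ) i = ∑ k ∈ range (J + 1), q4 ^ ds k i :=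
    Fin.sum_univ_eq_sum_range (fun k => q4 ^ ds k i) (J + 1)
  rw [h3]
  have h4 := GSLE.geo_ds q4_pos.le q4_lt (range (J + 1)) i
  calc 2 * K * ∑ k ∈ range (J + 1), q4 ^ ds k i ≤ 2 * K * (2 / (1 - q4)) :=
        mul_le_mul_of_nonneg_left h4 (by linarith)
    _ = K * Cq := by
        unfold Cq
        ring

/-- **Payment mean**, for arbitrary charges. -/
theorem pay_mean {V Λ : Type} [Fintype V] [Fintype Λ] (G : SimpleGraph V) {n a : V → ℝ}
    (hn : ∀ x, 0 ≤ n x) (ha : ∀ x, 0 < a x) {J : ℕ}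
    (hlev : ∀ x, n x ≠ 0 → ∃ k : Fin (J + 1), |Real.logb 2 (a x) + (k : ℕ)| ≤ 1)
    {ρ : Λ → ℝ} (i : Λ → ℕ) {R : Λ → V → ℝ} (hρ : ∀ l, 0 ≤ ρ l)
    (hR : ∀ l, ρ l ≠ 0 → ∀ b, 0 ≤ R l b) {K : ℝ} (hK0 : 0 ≤ K)
    (hK : ∀ l, ρ l ≠ 0 → ∀ b, R l b ≠ 0 → ∀ k : Fin (J + 1),
      ∑ x, n x / a x * win 1 (Real.logb 2 (a x) + (k : ℕ)) * cl G x b ≤ K) :
    ∑ u, n u * ∑ l, ρ l * (√(kp (a u / lv (i l))) * (cm G (R l) u / a u)) ≤
      K * Cq * ∑ l, ρ l * ∑ b, R l b := by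
  have e1 : ∑ u, n u * ∑ l, ρ l * (√(kp (a u / lv (i l))) * (cm G (R l) u / a u)) =
      ∑ l, ρ l * ∑ b, R l b * ∑ u, n u / a u * √(kp (a u / lv (i l))) * cl G u b := by
    simp_rw [GSR.Srv_.cm_cl, Finset.sum_div, Finset.mul_sum]
    rw [Finset.sum_comm]
    refine Finset.sum_congr rfl fun l _ => ?_
    rw [Finset.sum_comm]
    refine Finset.sum_congr rfl fun b _ => Finset.sum_congr rfl fun u _ => ?_
    ring
  rw [e1, Finset.mul_sum]
  refine Finset.sum_le_sum fun l _ => ?_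
  by_cases hl : ρ l = 0
  · rw [hl, zero_mul, zero_mul, mul_zero]
  · have e2 : K * Cq * (ρ l * ∑ b, R l b) = ρ l * ∑ b, R l b * (K * Cq) := by
      rw [← Finset.sum_mul]
      ring
    rw [e2]
    refine mul_le_mul_of_nonneg_left (Finset.sum_le_sum fun b _ => ?_) (hρ l)
    by_cases hb : R l b = 0
    · rw [hb, zero_mul, zero_mul]
    · exact mul_le_mul_of_nonneg_left (sum_kq hn ha (fun x => GSLE.cl_nonneg G x b) hlev
        (hK l hl b hb) hK0 (i l)) (hR l hl b)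

theorem rp_nonneg (u : ℝ) : 0 ≤ rp u := le_max_left _ _

theorem rp_le_one (u : ℝ) : rp u ≤ 1 := max_le zero_le_one (min_le_left _ _)

section rec

variable {V : Type} [Fintype V] {P : Cn} {G : SimpleGraph V} {S : Sta P V} {I : Inp P V}

theorem al_pos (x : V) : 0 < al P G I x := GSLE.alp_pos _ _ _ _ _

theorem inc_nonneg (x : V) (l : Ml P V) : 0 ≤ inc G I.W x l := by
  unfold inc
  split_ifs
  · exact zero_le_one
  · exact le_rfl

theorem inc_le_cl (x : V) (l : Ml P V) : inc G I.W x l ≤ cl G x l.1 := by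
  unfold inc cl
  split_ifs with h1 h2
  · exact le_rfl
  · exact absurd (Or.inr h1.1) h2
  · exact zero_le_one
  · exact le_rfl

theorem kk_nonneg (g : ℝ) (x : V) (l : Ml P V) : 0 ≤ kk P G I g x l :=
  mul_nonneg (mul_nonneg (inc_nonneg x l) (GSLE.kp_nonneg _)) (GSLE.win_nonneg _ _)

/-- The own kernel and the kernel of the payment functions. -/
theorem kk_le (g : ℝ) (x : V) (l : Ml P V) :
    kk P G I g x l ≤ √(kp (al P G I x / lv l.2)) * cl G x l.1 := by
  unfold kk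
  have h1 : inc G I.W x l * kp (al P G I x / lv l.2) ≤
      √(kp (al P G I x / lv l.2)) * cl G x l.1 := by
    rw [mul_comm]
    exact mul_le_mul (kp_le_kq _) (inc_le_cl x l) (inc_nonneg x l) (Real.sqrt_nonneg _)
  exact (mul_le_of_le_one_right (mul_nonneg (inc_nonneg x l) (GSLE.kp_nonneg _))
    (GSLE.win_le_one _ _)).trans h1

theorem kk_ne {g : ℝ} {x : V} {l : Ml P V} (h : kk P G I g x l ≠ 0) : G.Adj x l.1 ∧ l.1 ∈ I.W := by
  by_contra h1
  refine h ?_
  unfold kk inc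
  rw [if_neg h1, zero_mul, zero_mul]

theorem rich_nonneg (C : Finset (Fin P.N)) (x y : V) : 0 ≤ rich P S C x y :=
  Finset.prod_nonneg fun _ _ => rp_nonneg _

theorem rich_le_one (C : Finset (Fin P.N)) (x y : V) : rich P S C x y ≤ 1 :=
  Finset.prod_le_one (fun _ _ => rp_nonneg _) fun _ _ => rp_le_one _

theorem CP_nonneg (C : Finset (Fin P.N)) (x : V) (l : Ml P V) : 0 ≤ CP P G S I C x l :=
  mul_nonneg (kk_nonneg _ _ _) (rich_nonneg _ _ _)

theorem CP_le (C : Finset (Fin P.N)) (x : V) (l : Ml P V) :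
    CP P G S I C x l ≤ kk P G I P.g0 x l :=
  mul_le_of_le_one_right (kk_nonneg _ _ _) (rich_le_one _ _ _)

theorem gY_nonneg (T : Finset (Fin P.N)) (x : V) : 0 ≤ gY P G S I T x := rp_nonneg _

theorem gY_le_one (T : Finset (Fin P.N)) (x : V) : gY P G S I T x ≤ 1 := rp_le_one _

theorem CS_nonneg (T : Finset (Fin P.N)) (x : V) (l : Ce P V) : 0 ≤ CS P G S I T x l :=
  mul_nonneg (GSLE.CC_nonneg (fun _ _ => kk_nonneg _ _ _) _ _) (gY_nonneg _ _)

theorem CS_le (T : Finset (Fin P.N)) (x : V) (l : Ce P V) :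
    CS P G S I T x l ≤ kk P G I P.g0 x l.1 :=
  (mul_le_of_le_one_right (GSLE.CC_nonneg (fun _ _ => kk_nonneg _ _ _) _ _)
    (gY_le_one _ _)).trans (GSLE.CC_le (fun _ _ => kk_nonneg _ _ _) _ _)

/-- The standard hypotheses on a law `n` and the record: supports and level-wise bounds. -/
structure LvH (P : Cn) (G : SimpleGraph V) (I : Inp P V) (n : V → ℝ) (K : ℝ) : Prop where
  n0 : ∀ x, 0 ≤ n x
  nW : ∀ x, n x ≠ 0 → x ∈ I.W
  lev : ∀ x, n x ≠ 0 → ∃ k : Fin (P.I0 + 1), |hs P G I x + (k : ℕ)| ≤ 1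
  K0 : 0 ≤ K
  Db : ∀ b ∈ I.W, ∀ k, Db P G I n k b ≤ K

variable {K : ℝ} {n : V → ℝ}

/-- A smaller law. -/
theorem LvH.mono {n' : V → ℝ} (H : LvH P G I n K) (h0 : ∀ x, 0 ≤ n' x) {c : ℝ} (hc : 0 < c)
    (h1 : ∀ x, n' x ≤ n x / c) : LvH P G I n' (K / c) := by
  have hne : ∀ x, n' x ≠ 0 → n x ≠ 0 := by
    intro x hx h2
    refine hx (le_antisymm ?_ (h0 x))
    have := h1 x
    rwa [h2, zero_div] at this
  refine ⟨h0, fun x hx => H.nW x (hne x hx), fun x hx => H.lev x (hne x hx),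
    div_nonneg H.K0 hc.le, fun b hb k => ?_⟩
  refine le_trans ?_ (div_le_div_of_nonneg_right (H.Db b hb k) hc.le)
  unfold GSX.Db
  rw [Finset.sum_div]
  refine Finset.sum_le_sum fun x _ => ?_
  have h2 : n' x / al P G I x ≤ n x / c / al P G I x :=
    div_le_div_of_nonneg_right (h1 x) (al_pos x).le
  calc n' x / al P G I x * win 1 (hs P G I x + (k : ℕ)) * cl G x b
      ≤ n x / c / al P G I x * win 1 (hs P G I x + (k : ℕ)) * cl G x b :=
        mul_le_mul_of_nonneg_right (mul_le_mul_of_nonneg_right h2 (GSLE.win_nonneg _ _))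
          (GSLE.cl_nonneg _ _ _)
    _ = n x / al P G I x * win 1 (hs P G I x + (k : ℕ)) * cl G x b / c := by ring

theorem LvH.kq (H : LvH P G I n K) {b : V} (hb : b ∈ I.W) (i : ℕ) :
    ∑ x, n x / al P G I x * √(kp (al P G I x / lv i)) * cl G x b ≤ K * Cq :=
  sum_kq H.n0 (fun x => al_pos x) (fun x => GSLE.cl_nonneg G x b) H.lev (H.Db b hb) H.K0 i

/-- The own masses of the main labels, any window. -/
theorem LvH.kk (H : LvH P G I n K) (g : ℝ) (l : Ml P V) :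
    ∑ x, n x / al P G I x * kk P G I g x l ≤ K * Cq := by
  by_cases hl : l.1 ∈ I.W
  · refine (Finset.sum_le_sum fun x _ => ?_).trans (H.kq hl l.2)
    rw [mul_assoc]
    exact mul_le_mul_of_nonneg_left (kk_le g x l) (div_nonneg (H.n0 x) (al_pos x).le)
  · have h1 : ∀ x, GSX.kk P G I g x l = 0 := by
      intro x
      by_contra h2
      exact hl (kk_ne h2).2
    rw [Finset.sum_congr rfl fun x _ => by rw [h1 x, mul_zero], Finset.sum_const_zero]
    exact mul_nonneg H.K0 Cq_pos.le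

theorem PP_nonneg (hn : ∀ x, 0 ≤ I.n3 x) (C : Finset (Fin P.N)) (l : Ml P V) (x : V) :
    0 ≤ PP P G S I C l x :=
  div_nonneg (mul_nonneg (hn x) (CP_nonneg C x l)) (al_pos x).le

/-- The own masses of the labels of the hub mode. -/
theorem PP_mass (H : LvH P G I I.n3 K) (C : Finset (Fin P.N)) (l : Ml P V) :
    ∑ x, PP P G S I C l x ≤ K * Cq := by
  refine (Finset.sum_le_sum fun x _ => ?_).trans (H.kk P.g0 l)
  unfold PP
  rw [mul_div_right_comm]
  exact mul_le_mul_of_nonneg_left (CP_le C x l) (div_nonneg (H.n0 x) (al_pos x).le)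

theorem BS_pos (he : 0 < P.eps1) (T : Finset (Fin P.N)) (x : V) : 0 < BS P G S I T x :=
  lt_of_lt_of_le (div_pos (mul_pos he (al_pos x)) two_pos) (le_max_right _ _)

theorem PA_nonneg (hn : ∀ x, 0 ≤ I.n3 x) (he : 0 < P.eps1) (T : Finset (Fin P.N)) (l : Ce P V)
    (x : V) : 0 ≤ PA P G S I T l x :=
  div_nonneg (mul_nonneg (hn x) (CS_nonneg T x l)) (BS_pos he T x).le

/-- The own masses of the cells. -/
theorem PA_mass (H : LvH P G I I.n3 K) (he : 0 < P.eps1) (T : Finset (Fin P.N)) (l : Ce P V) :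
    ∑ x, PA P G S I T l x ≤ 2 / P.eps1 * (K * Cq) := by
  have h1 : 0 < 2 / P.eps1 := div_pos two_pos he
  refine le_trans ?_ (mul_le_mul_of_nonneg_left (H.kk P.g0 l.1) h1.le)
  rw [Finset.mul_sum]
  refine Finset.sum_le_sum fun x _ => ?_
  have hax := al_pos (P := P) (G := G) (I := I) x
  have h2 : 0 < P.eps1 * al P G I x / 2 := div_pos (mul_pos he hax) two_pos
  unfold PA
  calc I.n3 x * CS P G S I T x l / BS P G S I T x
      ≤ I.n3 x * GSX.kk P G I P.g0 x l.1 / (P.eps1 * al P G I x / 2) :=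
        div_le_div₀ (mul_nonneg (H.n0 x) (kk_nonneg _ _ _))
          (mul_le_mul_of_nonneg_left (CS_le T x l) (H.n0 x)) h2 (le_max_right _ _)
    _ = 2 / P.eps1 * (I.n3 x / al P G I x * GSX.kk P G I P.g0 x l.1) := by
        have := hax.ne'
        have := he.ne'
        field_simp

theorem rho_nonneg (hn : ∀ x, 0 ≤ I.n3 x) (hpi : ∀ l, 0 ≤ I.pi l) (T : Finset (Fin P.N))
    (l : Ce P V) : 0 ≤ rho P G S I T l :=
  GSLE.rhoC_nonneg hn (fun x => al_pos x) hpi (fun _ _ => kk_nonneg _ _ _) l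

/-- The hub of a cell of positive weight is in the world. -/
theorem rho_W {T : Finset (Fin P.N)} {l : Ce P V} (h : rho P G S I T l ≠ 0) : l.1.1 ∈ I.W := by
  by_contra h1
  refine h ?_
  unfold rho rhoC
  split_ifs
  · have h2 : ∑ z, I.n3 z / al P G I z * kk P G I P.g0 z l.1 * GSLE.chi 1 (ht P S) T l.2 z = 0 := by
      refine Finset.sum_eq_zero fun z _ => ?_
      have h3 : kk P G I P.g0 z l.1 = 0 := by
        by_contra h4
        exact h1 (kk_ne h4).2
      rw [h3, mul_zero, zero_mul]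
    rw [h2, mul_zero, mul_zero]
  · rfl

/-- The total weight of the cells. -/
theorem rho_mass (H : LvH P G I I.n3 K) (hpi : ∀ l, 0 ≤ I.pi l) (hp1 : ∑ l, I.pi l ≤ 1)
    (T : Finset (Fin P.N)) (h1 : ∀ c ∈ T, ∀ z, 1 - (P.I0 : ℝ) ≤ ht P S c z)
    (h2 : ∀ c ∈ T, ∀ z, ht P S c z ≤ 1) : ∑ l, rho P G S I T l ≤ K * Cq := by
  have h3 : 0 ≤ K * Cq := mul_nonneg H.K0 Cq_pos.le
  have h4 := GSLE.sum_rhoC_le (J := P.I0) (h0 := 1) (h := ht P S) (g := P.lG + P.w0 + 3) (S := T)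
    (n := I.n3) (a := al P G I) (π := I.pi) (k := GSX.kk P G I P.g0) (y := Prod.fst) H.n0
    (fun x => al_pos x) hpi (fun _ _ => kk_nonneg _ _ _)
    (fun c hc z => by
      have := h1 c hc z
      push_cast
      exact this)
    (fun c hc z => by
      have := h2 c hc z
      push_cast
      exact this) h3 (fun _ => 1) (fun _ => zero_le_one) Finset.univ
    (fun p _ => H.kk P.g0 p.1) Finset.univ fun p _ => Finset.mem_univ _
  simp only [one_mul] at h4
  exact h4.trans (mul_le_of_le_one_right h3 hp1)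

theorem sum_ite_self (y : V) : ∑ u, (if u = y then (1 : ℝ) else 0) = 1 := by
  rw [Finset.sum_ite_eq' Finset.univ y fun _ => (1 : ℝ), if_pos (Finset.mem_univ y)]

theorem ite_nn (u y : V) : (0 : ℝ) ≤ if u = y then 1 else 0 := by
  split_ifs
  · exact zero_le_one
  · exact le_rfl

end rec

end PayM_

open PayM_

section rec

variable {V : Type} [Fintype V] {P : Cn} {G : SimpleGraph V} {S : Sta P V} {I : Inp P V}
  {n : V → ℝ} {K D Λ : ℝ}

/-- **The mean of the payment function of the hub mode**, for any law `n`; `D` bounds the own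
masses of the labels, `Λ` the masses of the own steps. -/
theorem gpP_mean (H : LvH P G I n K) (C : Finset (Fin P.N)) (hn3 : ∀ x, 0 ≤ I.n3 x)
    (hn3W : ∀ x, I.n3 x ≠ 0 → x ∈ I.W) (hpi : ∀ l, 0 ≤ I.pi l)
    (hpW : ∀ l, I.pi l ≠ 0 → l.1 ∈ I.W) (hp1 : ∑ l, I.pi l ≤ 1)
    (hl0 : ∀ l u, 0 ≤ I.lp C l u) (hlW : ∀ l u, I.lp C l u ≠ 0 → u ∈ I.W)
    (hΛ0 : 0 ≤ Λ) (hΛ : ∀ l, ∑ u, I.lp C l u ≤ Λ) (hη : 0 < P.eta C.card)
    (hD0 : 0 ≤ D) (hD : ∀ l, ∑ x, PP P G S I C l x ≤ D) :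
    ∑ u, n u * gpP P G S I C u ≤ K * Cq * (1 + Λ + D / P.eta C.card) := by
  have hR0 : ∀ l b, 0 ≤ RP P G S I C l (I.lp C l) b := by
    intro l b
    unfold RP
    exact add_nonneg (add_nonneg (ite_nn _ _) (hl0 l b))
      (div_nonneg (PP_nonneg hn3 C l b) hη.le)
  have h1 := pay_mean G H.n0 (fun x => al_pos (P := P) (G := G) (I := I) x) H.lev
    (ρ := I.pi) (fun l => (l.2 : ℕ)) (R := fun l => RP P G S I C l (I.lp C l)) hpi
    (fun l _ b => hR0 l b) H.K0 (by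
      intro l hl b hb k
      refine H.Db b ?_ k
      unfold RP at hb
      by_cases h2 : b = l.1
      · rw [h2]
        exact hpW l hl
      · rw [if_neg h2, zero_add] at hb
        by_cases h3 : I.lp C l b = 0
        · rw [h3, zero_add] at hb
          refine hn3W b fun h4 => hb ?_
          unfold PP
          rw [h4, zero_mul, zero_div, zero_div]
        · exact hlW l b h3)
  refine le_trans (le_of_eq ?_) (h1.trans ?_)
  · unfold gpP kq
    rfl
  · have h2 : 0 ≤ K * Cq := mul_nonneg H.K0 Cq_pos.le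
    refine mul_le_mul_of_nonneg_left ?_ h2
    have h3 : ∀ l, ∑ b, RP P G S I C l (I.lp C l) b ≤ 1 + Λ + D / P.eta C.card := by
      intro l
      unfold RP
      rw [Finset.sum_add_distrib, Finset.sum_add_distrib, sum_ite_self, ← Finset.sum_div]
      have h4 := div_le_div_of_nonneg_right (hD l) hη.le
      linarith [hΛ l]
    have h5 : 0 ≤ 1 + Λ + D / P.eta C.card := by
      have h6 : 0 ≤ D / P.eta C.card := div_nonneg hD0 hη.le
      linarith
    calc ∑ l, I.pi l * ∑ b, RP P G S I C l (I.lp C l) b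
        ≤ ∑ l, I.pi l * (1 + Λ + D / P.eta C.card) :=
          Finset.sum_le_sum fun l _ => mul_le_mul_of_nonneg_left (h3 l) (hpi l)
      _ = (∑ l, I.pi l) * (1 + Λ + D / P.eta C.card) := (Finset.sum_mul _ _ _).symm
      _ ≤ 1 + Λ + D / P.eta C.card := mul_le_of_le_one_left h5 hp1

/-- **The mean of the payment function of the item `T`**, for any law `n`; `D` bounds the own
masses of the cells, `Λ`, `Λ'` the masses of the services and of the own steps, `D'` the total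
weight of the cells. -/
theorem gpA_mean (H : LvH P G I n K) (T C : Finset (Fin P.N)) (hn3 : ∀ x, 0 ≤ I.n3 x)
    (hn3W : ∀ x, I.n3 x ≠ 0 → x ∈ I.W) (hpi : ∀ l, 0 ≤ I.pi l) (he : 0 < P.eps1)
    (hl0 : ∀ l u, 0 ≤ I.la T C l u) (hlW : ∀ l u, I.la T C l u ≠ 0 → u ∈ I.W)
    (hm0 : ∀ l u, 0 ≤ I.mu T C l u) (hmW : ∀ l u, I.mu T C l u ≠ 0 → u ∈ I.W)
    (hA' : 0 ≤ P.A' C.card) {Λ' : ℝ} (hΛ0 : 0 ≤ Λ) (hΛ : ∀ l, ∑ u, I.mu T C l u ≤ Λ)
    (hΛ'0 : 0 ≤ Λ') (hΛ' : ∀ l, ∑ u, I.la T C l u ≤ Λ') (hη : 0 < P.eta C.card)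
    (hD0 : 0 ≤ D) (hD : ∀ l, ∑ x, PA P G S I T l x ≤ D) {D' : ℝ}
    (hD' : ∑ l, rho P G S I T l ≤ D') :
    ∑ u, n u * gpA P G S I T C u ≤
      K * Cq * (D' * (P.A' C.card * Λ + 1 + Λ' + D / P.eta C.card)) := by
  have hR0 : ∀ l b, 0 ≤ RA P G S I T C l (I.la T C l) b := by
    intro l b
    unfold RA
    exact add_nonneg (add_nonneg (add_nonneg (mul_nonneg hA' (hm0 l b)) (ite_nn _ _))
      (hl0 l b)) (div_nonneg (PA_nonneg hn3 he T l b) hη.le)
  have h1 := pay_mean G H.n0 (fun x => al_pos (P := P) (G := G) (I := I) x) H.lev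
    (ρ := rho P G S I T) (fun l => (l.1.2 : ℕ)) (R := fun l => RA P G S I T C l (I.la T C l))
    (fun l => rho_nonneg hn3 hpi T l)
    (fun l _ b => hR0 l b) H.K0 (by
      intro l hl b hb k
      refine H.Db b ?_ k
      unfold RA at hb
      by_cases h2 : b = l.1.1
      · rw [h2]
        exact rho_W hl
      · rw [if_neg h2, add_zero] at hb
        by_cases h3 : I.la T C l b = 0
        · rw [h3, add_zero] at hb
          by_cases h5 : I.mu T C l b = 0
          · rw [h5, mul_zero, zero_add] at hb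
            refine hn3W b fun h4 => hb ?_
            unfold PA
            rw [h4, zero_mul, zero_div, zero_div]
          · exact hmW l b h5
        · exact hlW l b h3)
  refine le_trans (le_of_eq ?_) (h1.trans ?_)
  · unfold gpA kq
    rfl
  · have h2 : 0 ≤ K * Cq := mul_nonneg H.K0 Cq_pos.le
    refine mul_le_mul_of_nonneg_left ?_ h2
    set Z : ℝ := P.A' C.card * Λ + 1 + Λ' + D / P.eta C.card with hZ
    have h3 : ∀ l, ∑ b, RA P G S I T C l (I.la T C l) b ≤ Z := by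
      intro l
      unfold RA
      rw [Finset.sum_add_distrib, Finset.sum_add_distrib, Finset.sum_add_distrib, sum_ite_self,
        ← Finset.sum_div, ← Finset.mul_sum]
      have h4 := div_le_div_of_nonneg_right (hD l) hη.le
      have h5 := mul_le_mul_of_nonneg_left (hΛ l) hA'
      linarith [hΛ' l]
    have h5 : 0 ≤ Z := by
      have h6 : 0 ≤ D / P.eta C.card := div_nonneg hD0 hη.le
      have h7 : 0 ≤ P.A' C.card * Λ := mul_nonneg hA' hΛ0
      linarith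
    calc ∑ l, rho P G S I T l * ∑ b, RA P G S I T C l (I.la T C l) b
        ≤ ∑ l, rho P G S I T l * Z :=
          Finset.sum_le_sum fun l _ => mul_le_mul_of_nonneg_left (h3 l) (rho_nonneg hn3 hpi T l)
      _ = (∑ l, rho P G S I T l) * Z := (Finset.sum_mul _ _ _).symm
      _ ≤ D' * Z := mul_le_mul_of_nonneg_right hD' h5

/-- The payment functions are nonnegative. -/
theorem PayM_.gpP_nonneg (C : Finset (Fin P.N)) (hn3 : ∀ x, 0 ≤ I.n3 x) (hpi : ∀ l, 0 ≤ I.pi l)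
    (hl0 : ∀ l u, 0 ≤ I.lp C l u) (hη : 0 < P.eta C.card) (u : V) : 0 ≤ gpP P G S I C u := by
  unfold gpP
  refine Finset.sum_nonneg fun l _ => mul_nonneg (hpi l) (mul_nonneg (Real.sqrt_nonneg _)
    (div_nonneg ?_ (al_pos u).le))
  rw [GSR.Srv_.cm_cl]
  refine Finset.sum_nonneg fun b _ => mul_nonneg ?_ (GSLE.cl_nonneg _ _ _)
  unfold RP
  exact add_nonneg (add_nonneg (ite_nn _ _) (hl0 l b))
    (div_nonneg (PP_nonneg hn3 C l b) hη.le)

theorem PayM_.gpA_nonneg (T C : Finset (Fin P.N)) (hn3 : ∀ x, 0 ≤ I.n3 x) (hpi : ∀ l, 0 ≤ I.pi l)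
    (he : 0 < P.eps1) (hl0 : ∀ l u, 0 ≤ I.la T C l u) (hm0 : ∀ l u, 0 ≤ I.mu T C l u)
    (hA' : 0 ≤ P.A' C.card) (hη : 0 < P.eta C.card) (u : V) : 0 ≤ gpA P G S I T C u := by
  unfold gpA
  refine Finset.sum_nonneg fun l _ => mul_nonneg (rho_nonneg hn3 hpi T l)
    (mul_nonneg (Real.sqrt_nonneg _) (div_nonneg ?_ (al_pos u).le))
  rw [GSR.Srv_.cm_cl]
  refine Finset.sum_nonneg fun b _ => mul_nonneg ?_ (GSLE.cl_nonneg _ _ _)
  unfold RA
  exact add_nonneg (add_nonneg (add_nonneg (mul_nonneg hA' (hm0 l b)) (ite_nn _ _))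
    (hl0 l b)) (div_nonneg (PA_nonneg hn3 he T l b) hη.le)

/-- The mean of the payment function of the hub mode for the law of the node. -/
theorem gpP_mean3 (H : LvH P G I I.n3 K) (C : Finset (Fin P.N)) (hpi : ∀ l, 0 ≤ I.pi l)
    (hpW : ∀ l, I.pi l ≠ 0 → l.1 ∈ I.W) (hp1 : ∑ l, I.pi l ≤ 1)
    (hl0 : ∀ l u, 0 ≤ I.lp C l u) (hlW : ∀ l u, I.lp C l u ≠ 0 → u ∈ I.W)
    (hΛ0 : 0 ≤ Λ) (hΛ : ∀ l, ∑ u, I.lp C l u ≤ Λ) (hη : 0 < P.eta C.card) :
    ∑ u, I.n3 u * gpP P G S I C u ≤ K * Cq * (1 + Λ + K * Cq / P.eta C.card) :=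
  gpP_mean H C H.n0 H.nW hpi hpW hp1 hl0 hlW hΛ0 hΛ hη (mul_nonneg H.K0 Cq_pos.le)
    fun l => PP_mass H C l

/-- The mean of the payment function of the item `T` for the law of the node. -/
theorem gpA_mean3 (H : LvH P G I I.n3 K) (T C : Finset (Fin P.N)) (hpi : ∀ l, 0 ≤ I.pi l)
    (hp1 : ∑ l, I.pi l ≤ 1) (he : 0 < P.eps1)
    (h1 : ∀ c ∈ T, ∀ z, 1 - (P.I0 : ℝ) ≤ ht P S c z) (h2 : ∀ c ∈ T, ∀ z, ht P S c z ≤ 1)
    (hl0 : ∀ l u, 0 ≤ I.la T C l u) (hlW : ∀ l u, I.la T C l u ≠ 0 → u ∈ I.W)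
    (hm0 : ∀ l u, 0 ≤ I.mu T C l u) (hmW : ∀ l u, I.mu T C l u ≠ 0 → u ∈ I.W)
    (hA' : 0 ≤ P.A' C.card) {Λ' : ℝ} (hΛ0 : 0 ≤ Λ) (hΛ : ∀ l, ∑ u, I.mu T C l u ≤ Λ)
    (hΛ'0 : 0 ≤ Λ') (hΛ' : ∀ l, ∑ u, I.la T C l u ≤ Λ') (hη : 0 < P.eta C.card) :
    ∑ u, I.n3 u * gpA P G S I T C u ≤ K * Cq * (K * Cq * (P.A' C.card * Λ + 1 + Λ' +
      2 / P.eps1 * (K * Cq) / P.eta C.card)) :=
  gpA_mean H T C H.n0 H.nW hpi he hl0 hlW hm0 hmW hA' hΛ0 hΛ hΛ'0 hΛ' hη
    (mul_nonneg (div_pos two_pos he).le (mul_nonneg H.K0 Cq_pos.le)) (fun l => PA_mass H he T l)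
    (rho_mass H hpi hp1 T h1 h2)

/-- Markov for closed sides. -/
theorem markov_side {g : V → ℝ} (hn : ∀ u, 0 ≤ n u) (hg : ∀ u, 0 ≤ g u) {E Bd : ℝ}
    (hB : 0 < Bd) (h : ∑ u, n u * g u ≤ E) : ∑ u with Bd ≤ g u, n u ≤ E / Bd := by
  rw [le_div_iff₀ hB, Finset.sum_mul]
  refine le_trans ?_ h
  refine (Finset.sum_le_sum fun u hu => ?_).trans
    (Finset.sum_le_sum_of_subset_of_nonneg (Finset.subset_univ _)
      fun u _ _ => mul_nonneg (hn u) (hg u))
  exact mul_le_mul_of_nonneg_left (Finset.mem_filter.mp hu).2 (hn u)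

end rec

end Pool.Agent.Lib.GSX
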