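import Pool.Agent.Lib.GSX.Best
import Pool.Agent.Lib.GSX.PayM
import Pool.Agent.Lib.GSLE.Thin

/-!
# Level bounds and the floor for one record

Consequences of the first order condition of the main law (`Best`): the scales are in `[e0, 2)`,
every hub `y` of the world has level-wise mass at most `4 c` for every law `n ≤ c * n0`, and the
nodes with a scale close to the floor `e0` have small mass.
-/

set_option autoImplicit false

namespace Pool.Agent.Lib.GSX

open Finset Classical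
open Pool.Agent.Lib.GSLE (kp cl win alp Lvl Low)

namespace LvG_

variable {V : Type} [Fintype V] {P : Cn} {G : SimpleGraph V} {s : Fin P.N} {S : Sta P V}
  {I : Inp P V}

/-! ### The range of the scales -/

theorem e0_le_al (he : 0 < P.e0) (hpi : ∀ l, 0 ≤ I.pi l) (x : V) : P.e0 ≤ al P G I x :=
  GSLE.le_sc he fun l => mul_nonneg (inc_nonneg G I.W x l) (hpi l)

omit [Fintype V] in
theorem inc_le_one (W : Finset V) (x : V) (l : Ml P V) : inc G W x l ≤ 1 := by
  unfold inc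
  split_ifs
  · exact le_rfl
  · exact zero_le_one

theorem al_le (he : 0 < P.e0) (hpi : ∀ l, 0 ≤ I.pi l) (hp1 : ∑ l, I.pi l ≤ 1) (x : V) :
    al P G I x ≤ P.e0 + 1 := by
  refine (GSLE.sc_le he fun l => mul_nonneg (inc_nonneg G I.W x l) (hpi l)).trans ?_
  refine add_le_add le_rfl ((Finset.sum_le_sum fun l _ => ?_).trans hp1)
  exact mul_le_of_le_one_left (hpi l) (inc_le_one _ _ _)

theorem al_lt_two (he : 0 < P.e0) (he1 : P.e0 < 1) (hpi : ∀ l, 0 ≤ I.pi l)
    (hp1 : ∑ l, I.pi l ≤ 1) (x : V) : al P G I x < 2 :=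
  (al_le he hpi hp1 x).trans_lt (by linarith)

/-- The heights are at most `1`. -/
theorem hs_lt_one (he : 0 < P.e0) (he1 : P.e0 < 1) (hpi : ∀ l, 0 ≤ I.pi l)
    (hp1 : ∑ l, I.pi l ≤ 1) (x : V) : hs P G I x < 1 := by
  unfold hs
  rw [Real.logb_lt_iff_lt_rpow (by norm_num) (al_pos' I x), Real.rpow_one]
  exact al_lt_two he he1 hpi hp1 x

/-- The heights are at least `-I0`. -/
theorem neg_le_hs (he : 0 < P.e0) (hI : lv P.I0 ≤ P.e0) (hpi : ∀ l, 0 ≤ I.pi l) (x : V) :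
    -(P.I0 : ℝ) ≤ hs P G I x := by
  unfold hs
  rw [Real.le_logb_iff_rpow_le (by norm_num) (al_pos' I x)]
  refine le_trans (le_of_eq ?_) (hI.trans (e0_le_al he hpi x))
  unfold lv
  rw [Real.rpow_neg two_pos.le, one_div, inv_pow, Real.rpow_natCast]

/-- Every vertex is close to a level. -/
theorem exists_lev (he : 0 < P.e0) (he1 : P.e0 < 1) (hI : lv P.I0 ≤ P.e0)
    (hpi : ∀ l, 0 ≤ I.pi l) (hp1 : ∑ l, I.pi l ≤ 1) (x : V) :
    ∃ k : Fin (P.I0 + 1), |hs P G I x + (k : ℕ)| ≤ 1 := by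
  refine PayM_.exists_lev (J := P.I0) ?_ (al_lt_two he he1 hpi hp1 x).le
  refine le_trans ?_ (hI.trans (e0_le_al he hpi x))
  unfold lv
  exact pow_le_pow_of_le_one (by norm_num) (by norm_num) (Nat.le_succ _)

/-! ### One label -/

/-- The window of radius one is below the kernel. -/
theorem win_le_kp {a : ℝ} (ha : 0 < a) (i : ℕ) :
    win 1 (Real.logb 2 a + i) ≤ 2 * kp (a / lv i) := by
  by_cases h0 : win 1 (Real.logb 2 a + i) = 0
  · rw [h0]
    exact mul_nonneg two_pos.le (GSLE.kp_nonneg _)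
  · have h1 := GSLE.abs_lt_of_win h0
    have hv : 0 < a / lv i := div_pos ha (lv_pos i)
    have h2 : Real.logb 2 (a / lv i) = Real.logb 2 a + i := by
      unfold lv
      rw [one_div, inv_pow, div_inv_eq_mul, Real.logb_mul ha.ne' (by positivity),
        Real.logb_pow, Real.logb_self_eq_one (by norm_num), mul_one]
    rw [← h2, abs_lt] at h1
    obtain ⟨h3, h4⟩ := h1
    rw [Real.lt_logb_iff_rpow_lt (by norm_num) hv] at h3
    rw [Real.logb_lt_iff_lt_rpow (by norm_num) hv] at h4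
    have h5 : (2 : ℝ) ^ (-((1 : ℝ) + 1)) = 1 / 4 := by
      rw [Real.rpow_neg two_pos.le, show ((1 : ℝ) + 1) = ((2 : ℕ) : ℝ) by norm_num,
        Real.rpow_natCast]
      norm_num
    have h6 : (2 : ℝ) ^ ((1 : ℝ) + 1) = 4 := by
      rw [show ((1 : ℝ) + 1) = ((2 : ℕ) : ℝ) by norm_num, Real.rpow_natCast]
      norm_num
    rw [h5] at h3
    rw [h6] at h4
    refine (GSLE.win_le_one _ _).trans ?_
    have h7 : 1 / 2 ≤ kp (a / lv i) := by
      rcases le_total (a / lv i) 1 with h | h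
      · rw [GSLE.kp_of_le h]
        refine Real.le_sqrt_of_sq_le ?_
        norm_num
        linarith
      · rw [GSLE.kp_of_ge h, one_div_le_one_div two_pos (Real.sqrt_pos.mpr hv),
          Real.sqrt_le_left two_pos.le]
        norm_num
        linarith
    linarith

variable {n : V → ℝ} {K : ℝ}

/-- The window of one label has mass at most twice the payoff. -/
theorem soft_le (hn : ∀ x, 0 ≤ n x) {y : V} (hy : y ∈ I.W) (i : Fin (P.I0 + 1)) :
    ∑ x, n x / al P G I x * win 1 (hs P G I x + (i : ℕ)) * (if G.Adj x y then 1 else 0) ≤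
      2 * Dm P G I n (y, i) := by
  rw [Dm_eq, Finset.mul_sum]
  refine Finset.sum_le_sum fun x _ => ?_
  have h1 : inc G I.W x ((y, i) : Ml P V) = if G.Adj x y then 1 else 0 := by
    unfold inc
    simp only [hy, and_true]
  rw [h1]
  have h2 : 0 ≤ n x / al P G I x * (if G.Adj x y then (1 : ℝ) else 0) := by
    refine mul_nonneg (div_nonneg (hn x) (al_pos' I x).le) ?_
    split_ifs
    · exact zero_le_one
    · exact le_rfl
  have h3 := win_le_kp (al_pos' (G := G) I x) (i : ℕ)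
  calc n x / al P G I x * win 1 (hs P G I x + (i : ℕ)) * (if G.Adj x y then 1 else 0)
      = n x / al P G I x * (if G.Adj x y then 1 else 0) * win 1 (hs P G I x + (i : ℕ)) := by ring
    _ ≤ n x / al P G I x * (if G.Adj x y then 1 else 0) *
        (2 * kp (al P G I x / lv (i : ℕ))) := mul_le_mul_of_nonneg_left h3 h2
    _ = 2 * (n x / al P G I x * ((if G.Adj x y then 1 else 0) *
        kp (al P G I x / lv (i : ℕ)))) := by ring

/-- The mass of one node which has a neighbour in the world. -/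
theorem atom_le (hn : ∀ x, 0 ≤ n x) (hK : ∀ l : Ml P V, l.1 ∈ I.W → Dm P G I n l ≤ K)
    {x z : V} (hz : z ∈ I.W) (hxz : G.Adj x z)
    (hl : ∃ k : Fin (P.I0 + 1), |hs P G I x + (k : ℕ)| ≤ 1) : n x / al P G I x ≤ 2 * K := by
  obtain ⟨k, hk⟩ := hl
  have h1 := (soft_le (P := P) (G := G) hn hz k).trans
    (mul_le_mul_of_nonneg_left (hK (z, k) hz) two_pos.le)
  refine le_trans ?_ h1
  have h2 : ∀ v, 0 ≤ n v / al P G I v * win 1 (hs P G I v + (k : ℕ)) *
      (if G.Adj v z then (1 : ℝ) else 0) := by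
    intro v
    refine mul_nonneg (mul_nonneg (div_nonneg (hn v) (al_pos' I v).le)
      (GSLE.win_nonneg _ _)) ?_
    split_ifs
    · exact zero_le_one
    · exact le_rfl
  refine le_trans (le_of_eq ?_) (Finset.single_le_sum (f := fun v => n v / al P G I v *
    win 1 (hs P G I v + (k : ℕ)) * (if G.Adj v z then (1 : ℝ) else 0)) (fun v _ => h2 v)
    (Finset.mem_univ x))
  rw [GSLE.win_eq_one hk, if_pos hxz, mul_one, mul_one]

/-- The level-wise mass of the closed neighbourhood of a vertex of the world. -/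
theorem Db_le (hn : ∀ x, 0 ≤ n x) (hK : ∀ l : Ml P V, l.1 ∈ I.W → Dm P G I n l ≤ K)
    (hlev : ∀ x, n x ≠ 0 → ∃ k : Fin (P.I0 + 1), |hs P G I x + (k : ℕ)| ≤ 1)
    (hiso : ∀ x, n x ≠ 0 → ∃ z ∈ I.W, G.Adj x z) {b : V} (hb : b ∈ I.W)
    (i : Fin (P.I0 + 1)) : Db P G I n i b ≤ 4 * K := by
  have h1 := (soft_le (P := P) (G := G) hn hb i).trans
    (mul_le_mul_of_nonneg_left (hK (b, i) hb) two_pos.le)
  have h2 : n b / al P G I b ≤ 2 * K := by
    by_cases h : n b = 0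
    · rw [h, zero_div]
      have := (Dm_nonneg (P := P) (G := G) (I := I) hn (b, i)).trans (hK (b, i) hb)
      linarith
    · obtain ⟨z, hz, hbz⟩ := hiso b h
      exact atom_le hn hK hz hbz (hlev b h)
  have h3 : Db P G I n i b ≤ ∑ x, (n x / al P G I x * win 1 (hs P G I x + (i : ℕ)) *
      (if G.Adj x b then (1 : ℝ) else 0) + if x = b then n x / al P G I x else 0) := by
    unfold Db
    refine Finset.sum_le_sum fun x _ => ?_
    have h4 : 0 ≤ n x / al P G I x := div_nonneg (hn x) (al_pos' I x).le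
    unfold cl
    by_cases h5 : x = b
    · rw [if_pos (Or.inl h5), if_pos h5, if_neg (by rw [h5]; exact G.irrefl), mul_one, mul_zero,
        zero_add]
      exact mul_le_of_le_one_right h4 (GSLE.win_le_one _ _)
    · rw [if_neg h5, add_zero]
      simp only [h5, false_or]
      exact le_rfl
  refine h3.trans ?_
  rw [Finset.sum_add_distrib, Finset.sum_ite_eq' Finset.univ b, if_pos (Finset.mem_univ b)]
  linarith

/-! ### Windows -/

/-- The sharp form of the level bound: dyadic windows of the scale. -/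
theorem lvl (he : 0 < P.e0) (he1 : P.e0 < 1) (hI : lv P.I0 ≤ P.e0)
    (hpi : ∀ l, 0 ≤ I.pi l) (hp1 : ∑ l, I.pi l ≤ 1) (hn : ∀ x, 0 ≤ n x) {y : V}
    (hy : y ∈ I.W) (hK : ∀ l : Ml P V, l.1 ∈ I.W → Dm P G I n l ≤ K) :
    Lvl G n (al P G I) (√2 * K) y := by
  have h := GSLE.lvl_of_DD (G := G) (n := n) (e := fun _ => P.e0) (c := inc G I.W) (π := I.pi)
    (b := fun l : Ml P V => lv l.2) hn (inc_nonneg G I.W) (z := y) (K := P.I0)
    (fun k => ((y, ⟨min k P.I0, by omega⟩) : Ml P V)) (by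
      intro k _ x hx
      unfold inc
      rw [if_pos ⟨hx.symm, hy⟩]) (by
      intro k hk
      unfold lv
      simp only [Nat.min_eq_left hk]) (Δ := K) (fun k _ => hK _ hy)
    (fun x => hI.trans (e0_le_al he hpi x)) (fun x => al_lt_two he he1 hpi hp1 x)
  exact h

theorem low (he : 0 < P.e0) (he1 : P.e0 < 1) (hI : lv P.I0 ≤ P.e0)
    (hpi : ∀ l, 0 ≤ I.pi l) (hp1 : ∑ l, I.pi l ≤ 1) (hn : ∀ x, 0 ≤ n x) {y : V}
    (hy : y ∈ I.W) (hK : ∀ l : Ml P V, l.1 ∈ I.W → Dm P G I n l ≤ K) :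
    Low G n (al P G I) (2 * (√2 * K)) y :=
  (lvl he he1 hI hpi hp1 hn hy hK).low hn (al_pos' I)

/-- A window of the heights of length `m`. -/
theorem height_mass (hn : ∀ x, 0 ≤ n x) {C : ℝ} {y : V} (h : Lvl G n (al P G I) C y) (u : ℝ)
    (m : ℕ) : ∑ x with G.Adj y x ∧ u ≤ hs P G I x ∧ hs P G I x < u + m,
      n x / al P G I x ≤ m * C := by
  have h0 : ∀ x, 0 ≤ n x / al P G I x := fun x => div_nonneg (hn x) (al_pos' I x).le
  induction m with
  | zero =>
    rw [Finset.filter_false_of_mem, Finset.sum_empty]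
    · simp
    · rintro x - ⟨-, h1, h2⟩
      rw [Nat.cast_zero, add_zero] at h2
      linarith
  | succ m ih =>
    have h1 : (univ.filter fun x => G.Adj y x ∧ u ≤ hs P G I x ∧
        hs P G I x < u + ((m + 1 : ℕ) : ℝ)) ⊆
        (univ.filter fun x => G.Adj y x ∧ u ≤ hs P G I x ∧ hs P G I x < u + m) ∪
          (univ.filter fun x => G.Adj y x ∧ (2 : ℝ) ^ (u + m) ≤ al P G I x ∧
            al P G I x ≤ 2 * (2 : ℝ) ^ (u + m)) := by
      intro x hx
      rw [Finset.mem_filter] at hx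
      obtain ⟨-, h2, h3, h4⟩ := hx
      rw [Finset.mem_union, Finset.mem_filter, Finset.mem_filter]
      rcases lt_or_ge (hs P G I x) (u + m) with h5 | h5
      · exact Or.inl ⟨Finset.mem_univ _, h2, h3, h5⟩
      · refine Or.inr ⟨Finset.mem_univ _, h2, ?_, ?_⟩
        · unfold hs at h5
          rwa [Real.le_logb_iff_rpow_le (by norm_num) (al_pos' I x)] at h5
        · unfold hs at h4
          rw [Real.logb_lt_iff_lt_rpow (by norm_num) (al_pos' I x)] at h4
          refine h4.le.trans (le_of_eq ?_)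
          push_cast
          rw [← add_assoc, Real.rpow_add two_pos, Real.rpow_one, mul_comm]
    refine (Finset.sum_le_sum_of_subset_of_nonneg h1 fun x _ _ => h0 x).trans ?_
    have h2 := Finset.sum_union_inter
      (s₁ := univ.filter fun x => G.Adj y x ∧ u ≤ hs P G I x ∧ hs P G I x < u + m)
      (s₂ := univ.filter fun x => G.Adj y x ∧ (2 : ℝ) ^ (u + m) ≤ al P G I x ∧
            al P G I x ≤ 2 * (2 : ℝ) ^ (u + m)) (f := fun x => n x / al P G I x)
    have h3 : 0 ≤ ∑ x ∈ (univ.filter fun x => G.Adj y x ∧ u ≤ hs P G I x ∧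
        hs P G I x < u + m) ∩ (univ.filter fun x => G.Adj y x ∧
        (2 : ℝ) ^ (u + m) ≤ al P G I x ∧ al P G I x ≤ 2 * (2 : ℝ) ^ (u + m)),
        n x / al P G I x := Finset.sum_nonneg fun x _ => h0 x
    have h4 := h ((2 : ℝ) ^ (u + m)) (by positivity)
    push_cast
    linarith

/-- The natural level of a vertex. -/
noncomputable def kx (P : Cn) (G : SimpleGraph V) (I : Inp P V) (x : V) : ℕ :=
  if h : ∃ k : ℕ, (1 / 2 : ℝ) ^ k ≤ al P G I x ∧ al P G I x < 2 * (1 / 2 : ℝ) ^ k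
    then h.choose else 0

theorem kx_spec (he : 0 < P.e0) (he1 : P.e0 < 1) (hpi : ∀ l, 0 ≤ I.pi l)
    (hp1 : ∑ l, I.pi l ≤ 1) (x : V) : (1 / 2 : ℝ) ^ kx P G I x ≤ al P G I x ∧
      al P G I x < 2 * (1 / 2 : ℝ) ^ kx P G I x := by
  have h := GSLE.exists_level (al_pos' (G := G) I x) (al_lt_two he he1 hpi hp1 x)
  unfold kx
  rw [dif_pos h]
  exact h.choose_spec

theorem kx_le (he : 0 < P.e0) (he1 : P.e0 < 1) (hI : lv P.I0 ≤ P.e0)
    (hpi : ∀ l, 0 ≤ I.pi l) (hp1 : ∑ l, I.pi l ≤ 1) (x : V) : kx P G I x ≤ P.I0 := by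
  obtain ⟨-, h2⟩ := kx_spec (G := G) he he1 hpi hp1 x
  by_contra h
  push Not at h
  have h3 : (1 / 2 : ℝ) ^ kx P G I x ≤ (1 / 2 : ℝ) ^ (P.I0 + 1) :=
    pow_le_pow_of_le_one (by norm_num) (by norm_num) h
  rw [pow_succ] at h3
  have h4 := hI.trans (e0_le_al (G := G) he hpi x)
  unfold lv at h4
  linarith

/-- The heights and the natural levels. -/
theorem kx_hs (he : 0 < P.e0) (he1 : P.e0 < 1) (hpi : ∀ l, 0 ≤ I.pi l)
    (hp1 : ∑ l, I.pi l ≤ 1) (x : V) : 0 ≤ hs P G I x + kx P G I x ∧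
      hs P G I x + kx P G I x < 1 := by
  obtain ⟨h1, h2⟩ := kx_spec (G := G) he he1 hpi hp1 x
  unfold hs
  have h3 : ∀ k : ℕ, (2 : ℝ) ^ (-(k : ℝ)) = (1 / 2 : ℝ) ^ k := by
    intro k
    rw [Real.rpow_neg two_pos.le, one_div, inv_pow, Real.rpow_natCast]
  constructor
  · rw [← h3, ← Real.le_logb_iff_rpow_le (by norm_num) (al_pos' I x)] at h1
    linarith
  · have h4 : (2 : ℝ) * (1 / 2 : ℝ) ^ kx P G I x = (2 : ℝ) ^ (1 - (kx P G I x : ℝ)) := by
      rw [sub_eq_add_neg, Real.rpow_add two_pos, Real.rpow_one, h3]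
    rw [h4, ← Real.logb_lt_iff_lt_rpow (by norm_num) (al_pos' I x)] at h2
    linarith

/-! ### The floor -/

/-- The nodes close to the floor have small mass. -/
theorem floor_le (hn : ∀ x, 0 ≤ n x) (hK0 : 0 ≤ K)
    (hK : ∀ l : Ml P V, l.1 ∈ I.W → Dm P G I n l ≤ K)
    (hlev : ∀ x, n x ≠ 0 → ∃ k : Fin (P.I0 + 1), |hs P G I x + (k : ℕ)| ≤ 1)
    (hiso : ∀ x, n x ≠ 0 → ∃ z ∈ I.W, G.Adj x z) {t : ℝ} (ht : 0 ≤ t) :
    ∑ x with al P G I x < t, n x ≤ Fintype.card V * (2 * K * t) := by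
  have h1 : ∀ x ∈ univ.filter (fun x => al P G I x < t), n x ≤ 2 * K * t := by
    intro x hx
    rw [Finset.mem_filter] at hx
    by_cases h : n x = 0
    · rw [h]
      positivity
    · obtain ⟨z, hz, hxz⟩ := hiso x h
      have h2 := atom_le hn hK hz hxz (hlev x h)
      rw [div_le_iff₀ (al_pos' I x)] at h2
      exact h2.trans (mul_le_mul_of_nonneg_left hx.2.le (by positivity))
  refine (Finset.sum_le_card_nsmul _ _ _ h1).trans ?_
  rw [nsmul_eq_mul]
  refine mul_le_mul_of_nonneg_right ?_ (by positivity)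
  exact_mod_cast Finset.card_le_univ _

end LvG_

open LvG_

section

variable {V : Type} [Fintype V] {P : Cn} {G : SimpleGraph V} {s : Fin P.N} {S : Sta P V}
  {I : Inp P V}

/-- **(G1)** The level bounds for a law `n ≤ c n0` on the nodes with a neighbour in the world. -/
theorem Best.lvH (hB : Best P G s S I) (he : 0 < P.e0) (he1 : P.e0 < 1) (hI : lv P.I0 ≤ P.e0)
    (hn0 : ∀ x, 0 ≤ I.n0 x) (hs0 : ∑ x, I.n0 x ≤ 1) {n : V → ℝ} (hn : ∀ x, 0 ≤ n x) {c : ℝ}
    (hc : 0 ≤ c) (hnc : ∀ x, n x ≤ c * I.n0 x) (hW : ∀ x, n x ≠ 0 → x ∈ I.W)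
    (hiso : ∀ x, n x ≠ 0 → ∃ z ∈ I.W, G.Adj x z) : PayM_.LvH P G I n (4 * c) := by
  have hK : ∀ l : Ml P V, l.1 ∈ I.W → Dm P G I n l ≤ c := fun l hl =>
    (hB.dm_le_of_le he hn0 hc hnc hl).trans (mul_le_of_le_one_right hc hs0)
  have hlev : ∀ x, ∃ k : Fin (P.I0 + 1), |hs P G I x + (k : ℕ)| ≤ 1 :=
    exists_lev he he1 hI hB.pi_nonneg hB.sum_pi.le
  exact ⟨hn, hW, fun x _ => hlev x, by positivity,
    fun b hb k => Db_le hn hK (fun x _ => hlev x) hiso hb k⟩

/-- **(G1)** The dyadic windows, for a law `n ≤ c n0`. -/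
theorem Best.lvl (hB : Best P G s S I) (he : 0 < P.e0) (he1 : P.e0 < 1) (hI : lv P.I0 ≤ P.e0)
    (hn0 : ∀ x, 0 ≤ I.n0 x) (hs0 : ∑ x, I.n0 x ≤ 1) {n : V → ℝ} (hn : ∀ x, 0 ≤ n x) {c : ℝ}
    (hc : 0 ≤ c) (hnc : ∀ x, n x ≤ c * I.n0 x) {y : V} (hy : y ∈ I.W) :
    Lvl G n (al P G I) (√2 * c) y :=
  LvG_.lvl he he1 hI hB.pi_nonneg hB.sum_pi.le hn hy fun _ hl =>
    (hB.dm_le_of_le he hn0 hc hnc hl).trans (mul_le_of_le_one_right hc hs0)

/-- The mass of a node, for a law `n ≤ c n0`. -/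
theorem Best.atom (hB : Best P G s S I) (he : 0 < P.e0) (he1 : P.e0 < 1) (hI : lv P.I0 ≤ P.e0)
    (hn0 : ∀ x, 0 ≤ I.n0 x) (hs0 : ∑ x, I.n0 x ≤ 1) {n : V → ℝ} (hn : ∀ x, 0 ≤ n x) {c : ℝ}
    (hc : 0 ≤ c) (hnc : ∀ x, n x ≤ c * I.n0 x)
    (hiso : ∀ x, n x ≠ 0 → ∃ z ∈ I.W, G.Adj x z) (x : V) : n x ≤ 2 * c * al P G I x := by
  by_cases h : n x = 0
  · rw [h]
    exact mul_nonneg (by positivity) (al_pos' I x).le
  · obtain ⟨z, hz, hxz⟩ := hiso x h
    rw [← div_le_iff₀ (al_pos' I x)]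
    exact atom_le hn (fun l hl => (hB.dm_le_of_le he hn0 hc hnc hl).trans
      (mul_le_of_le_one_right hc hs0)) hz hxz (exists_lev he he1 hI hB.pi_nonneg hB.sum_pi.le x)

/-- **(G2)** The floor, for a law `n ≤ c n0`. -/
theorem Best.floor (hB : Best P G s S I) (he : 0 < P.e0) (he1 : P.e0 < 1) (hI : lv P.I0 ≤ P.e0)
    (hn0 : ∀ x, 0 ≤ I.n0 x) (hs0 : ∑ x, I.n0 x ≤ 1) {n : V → ℝ} (hn : ∀ x, 0 ≤ n x) {c : ℝ}
    (hc : 0 ≤ c) (hnc : ∀ x, n x ≤ c * I.n0 x)
    (hiso : ∀ x, n x ≠ 0 → ∃ z ∈ I.W, G.Adj x z) {t : ℝ} (ht : 0 ≤ t) :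
    ∑ x with al P G I x < t, n x ≤ Fintype.card V * (2 * c * t) :=
  floor_le hn hc (fun _ hl => (hB.dm_le_of_le he hn0 hc hnc hl).trans
    (mul_le_of_le_one_right hc hs0)) (fun x _ => exists_lev he he1 hI hB.pi_nonneg
      hB.sum_pi.le x) hiso ht

/-- **(G2)** The value of the main law is close to one. -/
theorem Best.del_ge (hB : Best P G s S I) (he : 0 < P.e0) (he1 : P.e0 < 1)
    (hI : lv P.I0 ≤ P.e0) (hn0 : ∀ x, 0 ≤ I.n0 x) (hs0 : ∑ x, I.n0 x = 1)
    (hiso : ∀ x, I.n0 x ≠ 0 → ∃ z ∈ I.W, G.Adj x z) {R : ℝ} (hR : 1 ≤ R) :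
    1 - 1 / R - Fintype.card V * (2 * (R * P.e0)) ≤ Del P G I := by
  have hR0 : 0 < R := by linarith
  rw [hB.del_eq he]
  have h1 := hB.floor he he1 hI hn0 hs0.le hn0 zero_le_one (fun x => (one_mul _).ge) hiso
    (t := R * P.e0) (by positivity)
  rw [mul_one] at h1
  have h2 : ∀ x, I.n0 x * (1 - 1 / R) - (if al P G I x < R * P.e0 then I.n0 x else 0) ≤
      I.n0 x * (1 - P.e0 / al P G I x) := by
    intro x
    have ha := al_pos' (G := G) I x
    have h3 : P.e0 / al P G I x ≤ 1 := by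
      rw [div_le_one ha]
      exact e0_le_al he hB.pi_nonneg x
    split_ifs with h4
    · have h5 : 0 ≤ I.n0 x * (1 / R) := mul_nonneg (hn0 x) (by positivity)
      have h6 : 0 ≤ I.n0 x * (1 - P.e0 / al P G I x) := mul_nonneg (hn0 x) (by linarith)
      nlinarith
    · rw [sub_zero]
      refine mul_le_mul_of_nonneg_left (sub_le_sub_left ?_ _) (hn0 x)
      push Not at h4
      rw [div_le_div_iff₀ ha hR0]
      linarith
  refine le_trans ?_ (Finset.sum_le_sum fun x _ => h2 x)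
  rw [Finset.sum_sub_distrib, ← Finset.sum_mul, hs0, one_mul, ← Finset.sum_filter]
  linarith

end

end Pool.Agent.Lib.GSX
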