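import Pool.Agent.Lib.GSX.Stage
import Pool.Agent.Lib.GSX.BdM
import Pool.Agent.Lib.GSX.EndI
import Pool.Agent.Lib.GSX.LvG

/-!
# The facts of one stage pass to the next state

`inv_of_fct`: the facts `FctW` of the stages before `k` give `InvS` at `k`.
`maR_empty`, `maR_insert`, `maR_card`: the valid masters along a run.
-/

set_option autoImplicit false

namespace Pool.Agent.Lib.GSX

open Finset Classical
open Pool.Agent.Lib.FGF (cm)
open Pool.Agent.Lib.GSLE (brw kp)
open Pool.Agent.Lib.GSR3 (Tree)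
open Pool.Agent.Lib.GSR (vioC)

namespace StageL_

section

variable {V : Type} [Fintype V] {P : Cn} {G : SimpleGraph V} {St : ℕ → Sta P V}
  {In : Fin P.N → Inp P V} {Wd : ℕ → Finset V}

/-! ### The state along a run -/

theorem run_nx (hR : Run P G St In Wd) {k : ℕ} (hk : k < P.N) :
    St (k + 1) = nxt P G ⟨k, hk⟩ (St k) (In ⟨k, hk⟩) := hR.nx ⟨k, hk⟩

/-- The scales of the stages before `k`. -/
theorem run_a (hR : Run P G St In Wd) {k : ℕ} (hk : k ≤ P.N) {c : Fin P.N} (hc : (c : ℕ) < k)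
    (x : V) : (St k).a c x = al P G (In c) x := by
  induction k with
  | zero => exact absurd hc (Nat.not_lt_zero _)
  | succ k ih =>
    have hk' : k < P.N := hk
    rw [run_nx hR hk']
    by_cases h : c = ⟨k, hk'⟩
    · rw [h, RecP_.nxt_a_self]
    · rw [RecP_.nxt_a_ne h]
      refine ih hk'.le ?_
      have h1 : (c : ℕ) ≠ k := fun h1 => h (Fin.ext h1)
      omega

/-- The scales of the later stages. -/
theorem run_a_ge (hR : Run P G St In Wd) {k : ℕ} (hk : k ≤ P.N) {c : Fin P.N} (hc : k ≤ (c : ℕ))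
    (x : V) : (St k).a c x = 1 := by
  induction k with
  | zero => rw [hR.s0]
  | succ k ih =>
    have hk' : k < P.N := hk
    rw [run_nx hR hk', RecP_.nxt_a_ne (fun h => by rw [h] at hc; simp at hc)]
    exact ih hk'.le (Nat.le_of_succ_le hc)

/-- The masters do not change. -/
theorem run_m (hR : Run P G St In Wd) {j k : ℕ} (hjk : j ≤ k) (hk : k ≤ P.N)
    {C : Finset (Fin P.N)} (hC : Bef P j C) : (St k).m C = (St j).m C := by
  induction k, hjk using Nat.le_induction with
  | base => rfl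
  | succ k hjk ih =>
    have hk' : k < P.N := hk
    rw [← ih hk'.le, run_nx hR hk']
    funext x u
    refine RecP_.nxt_m_not (fun h => ?_) x u
    have h1 := hC _ h
    simp only at h1
    omega

/-- The scales do not change. -/
theorem run_a_eq (hR : Run P G St In Wd) {j k : ℕ} (hjk : j ≤ k) (hk : k ≤ P.N)
    {c : Fin P.N} (hc : (c : ℕ) < j) : (St k).a c = (St j).a c := by
  funext x
  rw [run_a hR hk (lt_of_lt_of_le hc hjk), run_a hR (hjk.trans hk) hc]

/-- The heights do not change. -/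
theorem run_ht (hR : Run P G St In Wd) {j k : ℕ} (hjk : j ≤ k) (hk : k ≤ P.N)
    {c : Fin P.N} (hc : (c : ℕ) < j) (x : V) : ht P (St k) c x = ht P (St j) c x := by
  unfold ht
  rw [run_a_eq hR hjk hk hc]

/-- The height of the stage `c` is the height of its own scale. -/
theorem run_ht_hs (hR : Run P G St In Wd) {k : ℕ} (hk : k ≤ P.N)
    {c : Fin P.N} (hc : (c : ℕ) < k) (x : V) : ht P (St k) c x = hs P G (In c) x := by
  unfold ht hs
  rw [run_a hR hk hc]

theorem run_m0 (hR : Run P G St In Wd) (C : Finset (Fin P.N)) (x u : V) :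
    (St 0).m C x u = 0 := by
  rw [hR.s0]

theorem run_F (hR : Run P G St In Wd) (s : Fin P.N) (u : V) :
    (St (s + 1)).F u = Fs P G (St s) (In s) u := by
  rw [hR.nx s]
  rfl

/-- The signs of the states. -/
theorem run_pos (hP : CPos P) (hR : Run P G St In Wd) {k : ℕ} (hk : k ≤ P.N)
    (hI : ∀ s : Fin P.N, (s : ℕ) < k → IPos (In s)) : SPos (St k) := by
  induction k with
  | zero =>
    rw [hR.s0]
    exact ⟨fun _ _ => one_pos, fun _ _ _ => le_rfl, fun _ => le_rfl⟩
  | succ k ih =>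
    have hk' : k < P.N := hk
    rw [run_nx hR hk']
    exact RecP_.nxt_spos hP (ih hk'.le fun s hs => hI s (Nat.lt_succ_of_lt hs))
      (hI ⟨k, hk'⟩ (Nat.lt_succ_self k))

/-- The worlds decrease. -/
theorem run_sub (hR : Run P G St In Wd) {j k : ℕ} (hjk : j ≤ k) (hk : k ≤ P.N)
    (hs : ∀ s : Fin P.N, (s : ℕ) < k → Wd (s + 1) ⊆ (In s).W) : Wd k ⊆ Wd j := by
  induction k, hjk using Nat.le_induction with
  | base => exact subset_rfl
  | succ k hjk ih =>
    have hk' : k < P.N := hk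
    have h1 := hs ⟨k, hk'⟩ (Nat.lt_succ_self k)
    rw [hR.w] at h1
    exact h1.trans (ih hk'.le fun s hs' => hs s (Nat.lt_succ_of_lt hs'))

/-- The range of all the scales. -/
theorem run_a_range (hP : CPos P) (he1 : P.e0 ≤ 1) (hR : Run P G St In Wd)
    (hI : ∀ s, IPos (In s)) (hpi : ∀ s, ∑ l, (In s).pi l ≤ 1) {k : ℕ} (hk : k ≤ P.N)
    (c : Fin P.N) (x : V) : P.e0 ≤ (St k).a c x ∧ (St k).a c x ≤ 2 := by
  rcases lt_or_ge (c : ℕ) k with h | h
  · rw [run_a hR hk h]
    have h1 := LvG_.al_le (G := G) hP.e0 (hI c).pi (hpi c) x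
    exact ⟨RecP_.e0_le_al hP.e0 (hI c).pi x, by linarith⟩
  · rw [run_a_ge hR hk h]
    exact ⟨he1, one_le_two⟩

/-- **The facts of the earlier stages give the state before the stage `k`.** -/
theorem inv_of_fct (hP : CPos P) (he1 : P.e0 ≤ 1) (hl : 0 ≤ P.lG) (hBd : 0 ≤ P.Bd)
    {B : ℕ → ℝ} (hB0 : ∀ r, 0 ≤ B r)
    (hB : ∀ r, r < P.h → BdM_.Bst P P.Bd r (B r) ≤ B (r + 1))
    (hR : Run P G St In Wd) (hI : ∀ s, IPos (In s)) (hpi : ∀ s, ∑ l, (In s).pi l ≤ 1)
    {k : ℕ} (hk : k ≤ P.N)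
    (hf : ∀ s : Fin P.N, (s : ℕ) < k → FctW P G s (St s) (In s) (Wd (s + 1))) :
    InvS P G B k (St k) (Wd k) where
  pos := run_pos hP hR hk fun s _ => hI s
  lo c _ x := (run_a_range hP he1 hR hI hpi hk c x).1
  hi c _ x := (run_a_range hP he1 hR hI hpi hk c x).2
  F0 := by
    induction k with
    | zero =>
      intro u _
      rw [hR.s0]
    | succ k ih =>
      have hk' : k < P.N := hk
      intro u hu
      have h1 := hf ⟨k, hk'⟩ (Nat.lt_succ_self k)
      have h2 : u ∈ Wd k := by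
        have h3 := h1.sub hu
        rwa [hR.w] at h3
      have h4 := ih hk'.le (fun s hs => hf s (Nat.lt_succ_of_lt hs)) u h2
      rw [run_nx hR hk']
      show (St k).F u + fs P G (In ⟨k, hk'⟩) u = 0
      rw [h4, h1.thin u hu, add_zero]
  b C hC hc v u hu := by
    have hsub : ∀ s : Fin P.N, (s : ℕ) < k → u ∈ Wd (s + 1) := fun s hs =>
      run_sub hR hs hk (fun s hs => (hf s hs).sub) hu
    refine ((BdM_.bd_run hP hl (Ss := St) (Is := In) (K := k)
      (run_pos hP hR (Nat.zero_le _) fun s _ => hI s)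
      (fun x u => run_m0 hR ∅ x u) (fun s _ => hI s) (fun s _ => hR.nx s) hk hBd hB0 hB
      k le_rfl).2 C hC hc fun s hs => ?_) v
    have hsk : (s : ℕ) < k := hC s hs
    have hB' : Bef P s (C.filter fun c => c < s) := fun c hc' => (Finset.mem_filter.1 hc').2
    have hcard : (C.filter fun c => c < s).card < P.h := by
      refine lt_of_lt_of_le (Finset.card_lt_card ?_) hc
      exact Finset.filter_ssubset.2 ⟨s, hs, lt_irrefl s⟩
    refine ⟨(hf s hsk).gp _ hB' hcard u (hsub s hsk), fun T hT => ?_⟩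
    obtain ⟨h1, h2⟩ := Finset.mem_filter.1 hT
    obtain ⟨h3, h4⟩ := Finset.mem_powersetCard.1 h1
    exact (hf s hsk).ga T _ (fun c hc' => (Finset.mem_filter.1 (h3 hc')).2) h4 h2 hcard u
      (hsub s hsk)

/-- The state after the last stage which is known. -/
theorem inv_next (hP : CPos P) (he1 : P.e0 ≤ 1) (hl : 0 ≤ P.lG) (hBd : 0 ≤ P.Bd)
    {B : ℕ → ℝ} (hB0 : ∀ r, 0 ≤ B r)
    (hB : ∀ r, r < P.h → BdM_.Bst P P.Bd r (B r) ≤ B (r + 1))
    (hR : Run P G St In Wd) (hI : ∀ s, IPos (In s)) (hpi : ∀ s, ∑ l, (In s).pi l ≤ 1)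
    (hs : ∀ s : Fin P.N, InvS P G B s (St s) (Wd s) →
      FctW P G s (St s) (In s) (Wd (s + 1))) :
    (∀ s ≤ P.N, InvS P G B s (St s) (Wd s)) ∧
      ∀ s : Fin P.N, FctW P G s (St s) (In s) (Wd (s + 1)) := by
  have h1 : ∀ k ≤ P.N, ∀ s : Fin P.N, (s : ℕ) < k → FctW P G s (St s) (In s) (Wd (s + 1)) := by
    intro k
    induction k with
    | zero => exact fun _ s hs => absurd hs (Nat.not_lt_zero _)
    | succ k ih =>
      intro hk s hsk
      rcases Nat.lt_succ_iff_lt_or_eq.1 hsk with h | h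
      · exact ih (Nat.le_of_succ_le hk) s h
      · refine hs s ?_
        rw [h]
        exact inv_of_fct hP he1 hl hBd hB0 hB hR hI hpi (Nat.le_of_succ_le hk)
          (ih (Nat.le_of_succ_le hk))
  have h2 : ∀ s : Fin P.N, FctW P G s (St s) (In s) (Wd (s + 1)) := fun s =>
    h1 P.N le_rfl s s.2
  exact ⟨fun s hs => inv_of_fct hP he1 hl hBd hB0 hB hR hI hpi hs fun s _ => h2 s, h2⟩

/-! ### Valid masters -/

/-- Rank `0`. -/
theorem maR_empty (h : ∀ φ : List (Fin P.M) → V, ¬ Tree G P.h P.M φ) :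
    MaR P G St Wd ∅ := fun _ _ _ => ValS_.val_empty h

/-- One of the scores is large on the new world. -/
theorem val_step (hP : CPos P) {s : Fin P.N} {S : Sta P V} {I : Inp P V} {W' : Finset V}
    (hS : SPos S) (hI : IPos I) (hW : W' ⊆ I.W) {C : Finset (Fin P.N)} (hC : Bef P s C)
    (hZ : (1 + (2 : ℝ) ^ P.N) / cst P C.card * P.Z'' C.card ≤ P.Z (C.card + 1))
    (h : sdP P G S I W' C ∨ sdB P G s S I W' C) :
    Val P G (nxt P G s S I) W' (insert s C) := by
  refine ValS_.val_new hP hS hI (fun h1 => absurd (hC s h1) (lt_irrefl _)) hW ?_ fun v hv => ?_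
  · refine le_trans (mul_le_mul_of_nonneg_right ?_ (hP.Z'' _)) hZ
    exact div_le_div_of_nonneg_right (by
      have := BdM_.its_card_le (P := P) (s := s) C
      linarith) (RecP_.cst_pos hP _).le
  · rcases h with h | ⟨T, hT, h⟩
    · exact Or.inl (h v hv)
    · exact Or.inr ⟨T, hT, h v hv⟩

/-- **The new masters are valid** at all the later stages. -/
theorem maR_insert (hP : CPos P) (hR : Run P G St In Wd) (hI : ∀ s, IPos (In s))
    (hsub : ∀ s : Fin P.N, Wd (s + 1) ⊆ (In s).W) {s : Fin P.N} {C : Finset (Fin P.N)}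
    (hC : Bef P s C)
    (hZ : (1 + (2 : ℝ) ^ P.N) / cst P C.card * P.Z'' C.card ≤ P.Z (C.card + 1))
    (h : sdP P G (St s) (In s) (Wd (s + 1)) C ∨ sdB P G s (St s) (In s) (Wd (s + 1)) C) :
    MaR P G St Wd (insert s C) := by
  have h1 : ∀ k, (s : ℕ) + 1 ≤ k → k ≤ P.N → Val P G (St k) (Wd k) (insert s C) := by
    intro k hk
    induction k, hk using Nat.le_induction with
    | base =>
      intro _
      rw [hR.nx s]
      exact val_step hP (run_pos hP hR s.2.le fun s _ => hI s) (hI s) (hsub s) hC hZ h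
    | succ k hk ih =>
      intro hkN
      have hk' : k < P.N := hkN
      have h2 := ih hk'.le
      rw [run_nx hR hk']
      refine ValS_.val_nxt hP (fun h3 => ?_) h2 ?_
      · rcases Finset.mem_insert.1 h3 with h4 | h4
        · have h5 : k = (s : ℕ) := by rw [← h4]
          omega
        · have h5 := hC _ h4
          simp only at h5
          omega
      · have h3 := hsub ⟨k, hk'⟩
        rwa [hR.w] at h3
  intro k hk hB
  exact h1 k (hB s (Finset.mem_insert_self _ _)) hk

/-- The masters stay valid. -/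
theorem val_later (hP : CPos P) (hR : Run P G St In Wd)
    (hsub : ∀ s : Fin P.N, Wd (s + 1) ⊆ (In s).W) {j k : ℕ} (hjk : j ≤ k) (hk : k ≤ P.N)
    {C : Finset (Fin P.N)} (hC : Bef P j C) (h : Val P G (St j) (Wd j) C) :
    Val P G (St k) (Wd k) C := by
  induction k, hjk using Nat.le_induction with
  | base => exact h
  | succ k hjk ih =>
    have hk' : k < P.N := hk
    rw [run_nx hR hk']
    refine ValS_.val_nxt hP (fun h3 => ?_) (ih hk'.le) ?_
    · have h5 := hC _ h3
      simp only at h5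
      omega
    · have h3 := hsub ⟨k, hk'⟩
      rwa [hR.w] at h3

/-- The masters of `C` are valid at one stage: they are valid at the later stages. -/
theorem val_card {S : Sta P V} {W : Finset V} (hW : W.Nonempty) {C : Finset (Fin P.N)}
    (h : Val P G S W C) : C.card < P.h := by
  by_contra h1
  obtain ⟨v, hv⟩ := hW
  have h2 := h v hv
  have h3 : P.h - C.card = 0 := Nat.sub_eq_zero_of_le (not_lt.1 h1)
  rw [h3] at h2
  have h4 := EndI_.one_le_vioC_zero (G := G) P.M v
    (fun u => cm G (S.m C v) u + P.Z C.card * S.F u) W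
  rw [h2] at h4
  exact absurd h4 (by norm_num)

/-- The rank of valid masters is at most `h - 1`. -/
theorem maR_card (hW : (Wd P.N).Nonempty) {C : Finset (Fin P.N)}
    (h : MaR P G St Wd C) : C.card < P.h :=
  val_card hW (h P.N le_rfl fun c _ => c.2)

/-! ### A typical history -/

variable {B : ℕ → ℝ}

theorem his_sub (h : HisW P G B St In Wd) {j k : ℕ} (hjk : j ≤ k) (hk : k ≤ P.N) :
    Wd k ⊆ Wd j := run_sub h.run hjk hk fun s _ => (h.fct s).sub

theorem his_ne (h : HisW P G B St In Wd) (h0 : (Wd 0).Nonempty) {k : ℕ} (hk : k ≤ P.N) :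
    (Wd k).Nonempty := by
  rcases Nat.eq_zero_or_pos k with h1 | h1
  · rw [h1]
    exact h0
  · obtain ⟨j, rfl⟩ : ∃ j, k = j + 1 := ⟨k - 1, by omega⟩
    exact (h.fct ⟨j, hk⟩).ne

/-- The cover of the stage vanishes on the next world. -/
theorem his_Fs (h : HisW P G B St In Wd) (s : Fin P.N) {u : V} (hu : u ∈ Wd (s + 1)) :
    Fs P G (St s) (In s) u = 0 := by
  rw [← run_F h.run s u]
  exact (h.inv (s + 1) s.2).F0 u hu

theorem his_pos (h : HisW P G B St In Wd) {k : ℕ} (hk : k ≤ P.N) : SPos (St k) :=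
  (h.inv k hk).pos

omit [Fintype V] in
/-- The heights are at most one. -/
theorem ht_le {S : Sta P V} {c : Fin P.N} {x : V} (h0 : 0 < S.a c x) (h : S.a c x ≤ 2) :
    ht P S c x ≤ 1 := by
  unfold ht
  calc Real.logb 2 (S.a c x) ≤ Real.logb 2 2 := Real.logb_le_logb_of_le one_lt_two h0 h
    _ = 1 := Real.logb_self_eq_one one_lt_two

omit [Fintype V] in
/-- The heights are at least `-I0`. -/
theorem neg_le_ht {S : Sta P V} {c : Fin P.N} {x : V} (hI : lv P.I0 ≤ P.e0)
    (h : P.e0 ≤ S.a c x) : -(P.I0 : ℝ) ≤ ht P S c x := by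
  unfold ht
  have h1 : lv P.I0 = (2 : ℝ) ^ (-(P.I0 : ℝ)) := by
    unfold lv
    rw [Real.rpow_neg zero_le_two, Real.rpow_natCast, one_div, inv_pow]
  have h2 : Real.logb 2 (lv P.I0) = -(P.I0 : ℝ) := by
    rw [h1, Real.logb_rpow two_pos (by norm_num)]
  rw [← h2]
  exact Real.logb_le_logb_of_le one_lt_two (RecP_.lv_pos _) (hI.trans h)

end

end StageL_

end Pool.Agent.Lib.GSX
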