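import Pool.Agent.Lib.GSX.TypQ
import Pool.Agent.Lib.GSX.Inst

/-!
# Typical records

The laws of the node in the record of a typical history, and the averages over the typical pairs
for sets which are functions of the records: the records of the stage `s` are functions of the half
prefix `hp s (g3 P) c`.
-/

set_option autoImplicit false

namespace Pool.Agent.Lib.GSX

open Finset Classical
open Pool.Agent.Lib.GSR Pool.Agent.Lib.GSR.HZ Pool.Agent.Lib.GSR.HZB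

variable {V : Type} [Fintype V] {P : Cn} {G : SimpleGraph V}

/-- The laws of the node in a record: probabilities on the world, comparable up to `c0`. -/
structure LawR (P : Cn) (I : Inp P V) (c0 : ℝ) : Prop where
  p0 : ∀ x, 0 ≤ I.n0 x
  p1 : ∀ x, 0 ≤ I.n1 x
  p2 : ∀ x, 0 ≤ I.n2 x
  p3 : ∀ x, 0 ≤ I.n3 x
  s0 : ∑ x, I.n0 x = 1
  s1 : ∑ x, I.n1 x = 1
  s2 : ∑ x, I.n2 x = 1
  s3 : ∑ x, I.n3 x = 1
  w0 : ∀ x, I.n0 x ≠ 0 → x ∈ I.W
  w1 : ∀ x, I.n1 x ≠ 0 → x ∈ I.W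
  w2 : ∀ x, I.n2 x ≠ 0 → x ∈ I.W
  w3 : ∀ x, I.n3 x ≠ 0 → x ∈ I.W
  c01 : ∀ x, c0 * I.n1 x ≤ I.n0 x
  c02 : ∀ x, c0 * I.n2 x ≤ I.n0 x
  c03 : ∀ x, c0 * I.n3 x ≤ I.n0 x
  c12 : ∀ x, c0 * I.n2 x ≤ I.n1 x
  c13 : ∀ x, c0 * I.n3 x ≤ I.n1 x
  c23 : ∀ x, c0 * I.n3 x ≤ I.n2 x

namespace TypI_

lemma div {c0 : ℝ} (hc0 : 0 < c0) {a b : ℝ} (h : c0 * a ≤ b) : a ≤ b / c0 := by
  rw [le_div_iff₀ hc0, mul_comm]
  exact h

omit [Fintype V] in
/-- A set which is small for `n` is small for `m`, if `c0 * m ≤ n`. -/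
lemma set_le {c0 : ℝ} (hc0 : 0 < c0) {m n : V → ℝ} (h : ∀ x, c0 * m x ≤ n x) (S : Finset V)
    {ε : ℝ} (hS : ∑ x ∈ S, n x ≤ ε) : ∑ x ∈ S, m x ≤ ε / c0 := by
  refine le_trans (Finset.sum_le_sum fun x _ => div hc0 (h x)) ?_
  rw [← Finset.sum_div]
  exact div_le_div_of_nonneg_right hS hc0.le

lemma int_le {c0 : ℝ} (hc0 : 0 < c0) {m n F : V → ℝ} (h : ∀ x, c0 * m x ≤ n x)
    (hF : ∀ x, 0 ≤ F x) {E : ℝ} (hE : ∑ x, n x * F x ≤ E) : ∑ x, m x * F x ≤ E / c0 := by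
  refine le_trans (Finset.sum_le_sum fun x _ =>
    mul_le_mul_of_nonneg_right (div hc0 (h x)) (hF x)) ?_
  rw [le_div_iff₀ hc0, Finset.sum_mul]
  refine le_trans (le_of_eq (Finset.sum_congr rfl fun x _ => ?_)) hE
  field_simp

end TypI_

section

variable {col : Finset V → ℕ → Prop} {J : Type} {T : Ts V P.N (nb P) J (Tht P V)}
  {Q : Hh P V × V → ℝ} {θ : Tht P V}

/-- **The laws of the records of a typical history.** -/
theorem lawR (h : Eqm col T Q θ) {c : Hh P V} (hc : qc Q c ≠ 0) {c0 : ℝ} (hc0 : 0 ≤ c0)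
    (hT : Typ Q c0 c) (s : Fin P.N) : LawR P (inpt P θ s c) c0 := by
  have h1 := g1_le_g2 P
  have h2 := (g2_lt_g3 P).le
  have h3 := g3_le_nb P
  have hw : ∀ k ≤ nb P, ∀ x, nh θ s.1 k (hp s.1 k c) x ≠ 0 → x ∈ wo c s.1 := fun k hk x hx =>
    (h.supp hc s.2 hk hx).1
  refine ⟨h.nh_nonneg _ _ _, h.nh_nonneg _ _ _, h.nh_nonneg _ _ _, h.nh_nonneg _ _ _,
    h.sum_nh _ _ _, h.sum_nh _ _ _, h.sum_nh _ _ _, h.sum_nh _ _ _, hw 0 (Nat.zero_le _),
    hw g1 (by omega), hw (g2 P) (by omega), hw (g3 P) h3, ?_, ?_, ?_, ?_, ?_, ?_⟩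
  · exact h.nh_le_bits hc hc0 hT s.2 (Nat.zero_le _) (by omega)
  · exact h.nh_le_bits hc hc0 hT s.2 (Nat.zero_le _) (by omega)
  · exact h.nh_le_bits hc hc0 hT s.2 (Nat.zero_le _) h3
  · exact h.nh_le_bits hc hc0 hT s.2 h1 (by omega)
  · exact h.nh_le_bits hc hc0 hT s.2 (by omega) h3
  · exact h.nh_le_bits hc hc0 hT s.2 h2 h3

/-- The node of a pair of positive mass. -/
theorem node_mem (h : Eqm col T Q θ) {c : Hh P V} {x : V} (hx : Q (c, x) ≠ 0) (s : Fin P.N) :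
    x ∈ (inpt P θ s c).W ∧ x ∈ wo c (s.1 + 1) ∧ 0 < (inpt P θ s c).n0 x ∧
      0 < (inpt P θ s c).n1 x ∧ 0 < (inpt P θ s c).n2 x ∧ 0 < (inpt P θ s c).n3 x := by
  have h1 := g1_le_g2 P
  have h2 := (g2_lt_g3 P).le
  have h3 := g3_le_nb P
  exact ⟨h.mem_wo hx s.2.le, h.mem_wo hx s.2, h.nh_pos hx s.2.le (Nat.zero_le _),
    h.nh_pos hx s.2.le (by omega), h.nh_pos hx s.2.le (by omega), h.nh_pos hx s.2.le h3⟩

/-! ### Averages over the pairs, record form -/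

/-- **Record form of (Q1).** -/
theorem pm_rec_le (h : Eqm col T Q θ) (s : Fin P.N) (S : Hh P V → Prop)
    (Bad : Sta P V → Inp P V → V → Prop) {ε : ℝ} (hε : 0 ≤ ε)
    (hB : ∀ c, qc Q c ≠ 0 → S c →
      ∑ x ∈ Finset.univ.filter (Bad (stt P G θ c s) (inpt P θ s c)), (inpt P θ s c).n3 x ≤ ε) :
    pm Q (fun p => S p.1 ∧ Bad (stt P G θ p.1 s) (inpt P θ s p.1) p.2) ≤ ε := by
  have h1 : ∀ c : Hh P V, stt P G θ (hp s.1 (g3 P) c) s = stt P G θ c s := fun c =>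
    stt_hp le_rfl c
  have h2 : ∀ c : Hh P V, inpt P θ s (hp s.1 (g3 P) c) = inpt P θ s c := fun c =>
    inpt_hp (Or.inr ⟨rfl, le_rfl⟩) c
  have h3 := h.pm_on_le (s := s.1) s.2.le (g3_le_nb P) S
    (Bad := fun p => Bad (stt P G θ p s) (inpt P θ s p)) hε (by
      intro c hc hS
      simp only [h1, h2]
      exact hB c hc hS)
  simp only [h1, h2] at h3
  exact h3

/-- The Markov form. -/
theorem pm_rec_markov (h : Eqm col T Q θ) (s : Fin P.N) (S : Hh P V → Prop)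
    (F : Sta P V → Inp P V → V → ℝ) (hF : ∀ A I x, 0 ≤ F A I x) {t E : ℝ} (ht : 0 < t)
    (hE : 0 ≤ E)
    (hB : ∀ c, qc Q c ≠ 0 → S c →
      ∑ x, (inpt P θ s c).n3 x * F (stt P G θ c s) (inpt P θ s c) x ≤ E) :
    pm Q (fun p => S p.1 ∧ t ≤ F (stt P G θ p.1 s) (inpt P θ s p.1) p.2) ≤ E / t :=
  pm_rec_le h s S (fun A I x => t ≤ F A I x) (div_nonneg hE ht.le) fun c hc hS =>
    markov_nh (h.nh_nonneg _ _ _) (hF _ _) ht (hB c hc hS)

/-- The form with the law `n0`. -/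
theorem pm_rec_le_n0 (h : Eqm col T Q θ) {c0 : ℝ} (hc0 : 0 < c0) (s : Fin P.N)
    (Bad : Sta P V → Inp P V → V → Prop) {ε : ℝ} (hε : 0 ≤ ε)
    (hB : ∀ c, qc Q c ≠ 0 → Typ Q c0 c →
      ∑ x ∈ Finset.univ.filter (Bad (stt P G θ c s) (inpt P θ s c)), (inpt P θ s c).n0 x ≤ ε) :
    pm Q (fun p => Typ Q c0 p.1 ∧ Bad (stt P G θ p.1 s) (inpt P θ s p.1) p.2) ≤ ε / c0 :=
  pm_rec_le h s (Typ Q c0) Bad (div_nonneg hε hc0.le) fun c hc hT =>
    TypI_.set_le hc0 (lawR h hc hc0.le hT s).c03 _ (hB c hc hT)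

/-- The form with the law `n1`. -/
theorem pm_rec_le_n1 (h : Eqm col T Q θ) {c0 : ℝ} (hc0 : 0 < c0) (s : Fin P.N)
    (Bad : Sta P V → Inp P V → V → Prop) {ε : ℝ} (hε : 0 ≤ ε)
    (hB : ∀ c, qc Q c ≠ 0 → Typ Q c0 c →
      ∑ x ∈ Finset.univ.filter (Bad (stt P G θ c s) (inpt P θ s c)), (inpt P θ s c).n1 x ≤ ε) :
    pm Q (fun p => Typ Q c0 p.1 ∧ Bad (stt P G θ p.1 s) (inpt P θ s p.1) p.2) ≤ ε / c0 :=
  pm_rec_le h s (Typ Q c0) Bad (div_nonneg hε hc0.le) fun c hc hT =>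
    TypI_.set_le hc0 (lawR h hc hc0.le hT s).c13 _ (hB c hc hT)

/-- The form with the law `n2`. -/
theorem pm_rec_le_n2 (h : Eqm col T Q θ) {c0 : ℝ} (hc0 : 0 < c0) (s : Fin P.N)
    (Bad : Sta P V → Inp P V → V → Prop) {ε : ℝ} (hε : 0 ≤ ε)
    (hB : ∀ c, qc Q c ≠ 0 → Typ Q c0 c →
      ∑ x ∈ Finset.univ.filter (Bad (stt P G θ c s) (inpt P θ s c)), (inpt P θ s c).n2 x ≤ ε) :
    pm Q (fun p => Typ Q c0 p.1 ∧ Bad (stt P G θ p.1 s) (inpt P θ s p.1) p.2) ≤ ε / c0 :=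
  pm_rec_le h s (Typ Q c0) Bad (div_nonneg hε hc0.le) fun c hc hT =>
    TypI_.set_le hc0 (lawR h hc hc0.le hT s).c23 _ (hB c hc hT)

/-- **The good pairs.**  `Bad k s` are finitely many kinds of exceptional sets of the records. -/
theorem pm_rec_good (h : Eqm col T Q θ) {c0 : ℝ} (hc0 : 0 ≤ c0) {κ : Type} [Fintype κ]
    (Bad : κ → Fin P.N → Sta P V → Inp P V → V → Prop) (ε : κ → ℝ) (hε : ∀ k, 0 ≤ ε k)
    (hB : ∀ c, qc Q c ≠ 0 → Typ Q c0 c → ∀ (s : Fin P.N) k,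
      ∑ x ∈ Finset.univ.filter (Bad k s (stt P G θ c s) (inpt P θ s c)),
        (inpt P θ s c).n3 x ≤ ε k) :
    1 - P.N * (2 ^ nb P * c0) - P.N * ∑ k, ε k ≤
      pm Q (fun p => Typ Q c0 p.1 ∧
        ∀ (s : Fin P.N) k, ¬ Bad k s (stt P G θ p.1 s) (inpt P θ s p.1) p.2) := by
  have h1 : pm Q (fun p => ¬ (Typ Q c0 p.1 ∧
      ∀ (s : Fin P.N) k, ¬ Bad k s (stt P G θ p.1 s) (inpt P θ s p.1) p.2)) ≤
      P.N * (2 ^ nb P * c0) + P.N * ∑ k, ε k := by
    have h2 : pm Q (fun p => ¬ (Typ Q c0 p.1 ∧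
        ∀ (s : Fin P.N) k, ¬ Bad k s (stt P G θ p.1 s) (inpt P θ s p.1) p.2)) ≤
        pm Q (fun p => ¬ Typ Q c0 p.1 ∨ ∃ s ∈ (Finset.univ : Finset (Fin P.N)),
          ∃ k ∈ (Finset.univ : Finset κ),
          Typ Q c0 p.1 ∧ Bad k s (stt P G θ p.1 s) (inpt P θ s p.1) p.2) := by
      refine pm_mono h.Q0 fun p _ hp' => ?_
      by_cases h2 : Typ Q c0 p.1
      · right
        by_contra hcon
        push Not at hcon
        exact hp' ⟨h2, fun s k => hcon s (Finset.mem_univ s) k (Finset.mem_univ k) h2⟩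
      · exact Or.inl h2
    refine h2.trans ((pm_or h.Q0 _ _).trans (add_le_add (h.pm_not_typ hc0) ?_))
    refine (pm_exists h.Q0 _ _).trans ?_
    refine le_trans (Finset.sum_le_sum fun s _ => (pm_exists h.Q0 _ _).trans
      (Finset.sum_le_sum fun k _ => pm_rec_le h s (Typ Q c0) (Bad k s) (hε k)
        fun c hc hT => hB c hc hT s k)) ?_
    rw [Finset.sum_const, Finset.card_univ, Fintype.card_fin, nsmul_eq_mul]
  have h2 := pm_add_not h.Q1 (fun p : Hh P V × V => Typ Q c0 p.1 ∧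
    ∀ (s : Fin P.N) k, ¬ Bad k s (stt P G θ p.1 s) (inpt P θ s p.1) p.2)
  linarith

/-! ### The share outside the absolute window -/

/-- The share outside the absolute window only depends on the prefix. -/
lemma out_hp (s : Fin P.N) (j : ℕ) (c : Hh P V) :
    out P G (inpt P θ s (hp s j c)) = out P G (inpt P θ s c) := by
  obtain ⟨h1, -, h2⟩ := inpt_n0 (P := P) (θ := θ) s j c
  have h3 := al_hp (P := P) (G := G) (θ := θ) s j c
  funext x
  unfold out hs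
  rw [h1, h2, h3]

/-- **Most stages are good**: there is no factor `1 / c0` here. -/
theorem pm_out (h : Eqm col T Q θ) (hN : 0 < P.N) {t E : ℝ} (ht : 0 < t) (hE : 0 ≤ E)
    (ho : ∀ c, qc Q c ≠ 0 → ∀ s x, 0 ≤ out P G (inpt P θ s c) x)
    (hB : ∀ c, qc Q c ≠ 0 → ∀ s,
      ∑ x, (inpt P θ s c).n0 x * out P G (inpt P θ s c) x ≤ E) :
    1 - 2 * (E / t) ≤ pm Q (fun p => (P.N : ℝ) / 2 <
      (((Finset.univ : Finset (Fin P.N)).filter fun s =>
        out P G (inpt P θ s p.1) p.2 < t).card : ℝ)) := by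
  have h1 : ∀ s : Fin P.N, pm Q (fun p => t ≤ out P G (inpt P θ s p.1) p.2) ≤ E / t := by
    intro s
    have h3 := h.pm_on_le (s := s.1) s.2.le (Nat.zero_le (nb P)) (fun _ => True)
      (Bad := fun p x => t ≤ out P G (inpt P θ s p) x) (div_nonneg hE ht.le) (by
        intro c hc _
        simp only [out_hp]
        refine markov_nh (h.nh_nonneg _ _ _) ?_ ht (hB c hc s)
        exact ho c hc s)
    simp only [out_hp, true_and] at h3
    exact h3
  have hN' : (0 : ℝ) < P.N := Nat.cast_pos.2 hN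
  -- the mean number of bad stages
  have h2 : ∑ p : Hh P V × V, Q p * (((Finset.univ : Finset (Fin P.N)).filter fun s =>
      t ≤ out P G (inpt P θ s p.1) p.2).card : ℝ) ≤ P.N * (E / t) := by
    have h4 : ∀ p : Hh P V × V, Q p * (((Finset.univ : Finset (Fin P.N)).filter fun s =>
        t ≤ out P G (inpt P θ s p.1) p.2).card : ℝ) =
        ∑ s : Fin P.N, if t ≤ out P G (inpt P θ s p.1) p.2 then Q p else 0 := by
      intro p
      rw [← Finset.sum_filter, Finset.sum_const, nsmul_eq_mul, mul_comm]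
    rw [Finset.sum_congr rfl fun p _ => h4 p, Finset.sum_comm]
    refine le_trans (Finset.sum_le_sum fun s _ => h1 s) ?_
    rw [Finset.sum_const, Finset.card_univ, Fintype.card_fin, nsmul_eq_mul]
  have h5 : pm Q (fun p => (P.N : ℝ) / 2 ≤ (((Finset.univ : Finset (Fin P.N)).filter fun s =>
      t ≤ out P G (inpt P θ s p.1) p.2).card : ℝ)) ≤ 2 * (E / t) := by
    have h6 : pm Q (fun p => (P.N : ℝ) / 2 ≤ (((Finset.univ : Finset (Fin P.N)).filter fun s =>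
        t ≤ out P G (inpt P θ s p.1) p.2).card : ℝ)) * ((P.N : ℝ) / 2) ≤
        P.N * (E / t) := by
      refine le_trans ?_ h2
      unfold pm
      rw [Finset.sum_mul]
      refine Finset.sum_le_sum fun p _ => ?_
      by_cases h3 : (P.N : ℝ) / 2 ≤ (((Finset.univ : Finset (Fin P.N)).filter fun s =>
        t ≤ out P G (inpt P θ s p.1) p.2).card : ℝ)
      · rw [if_pos h3]
        exact mul_le_mul_of_nonneg_left h3 (h.Q0 p)
      · rw [if_neg h3, zero_mul]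
        exact mul_nonneg (h.Q0 p) (Nat.cast_nonneg _)
    have h7 : pm Q (fun p => (P.N : ℝ) / 2 ≤ (((Finset.univ : Finset (Fin P.N)).filter fun s =>
        t ≤ out P G (inpt P θ s p.1) p.2).card : ℝ)) ≤ P.N * (E / t) / ((P.N : ℝ) / 2) := by
      rw [le_div_iff₀ (by positivity)]
      exact h6
    refine h7.trans (le_of_eq ?_)
    field_simp
  have h8 := pm_add_not h.Q1 (fun p : Hh P V × V => (P.N : ℝ) / 2 ≤
    (((Finset.univ : Finset (Fin P.N)).filter fun s =>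
      t ≤ out P G (inpt P θ s p.1) p.2).card : ℝ))
  have h9 : pm Q (fun p : Hh P V × V => ¬ (P.N : ℝ) / 2 ≤
      (((Finset.univ : Finset (Fin P.N)).filter fun s =>
        t ≤ out P G (inpt P θ s p.1) p.2).card : ℝ)) ≤
      pm Q (fun p => (P.N : ℝ) / 2 < (((Finset.univ : Finset (Fin P.N)).filter fun s =>
        out P G (inpt P θ s p.1) p.2 < t).card : ℝ)) := by
    refine pm_mono h.Q0 fun p _ hp' => ?_
    have h10 := Finset.card_filter_add_card_filter_not (s := (Finset.univ : Finset (Fin P.N)))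
      (fun s => t ≤ out P G (inpt P θ s p.1) p.2)
    rw [Finset.card_univ, Fintype.card_fin] at h10
    have h11 : (((Finset.univ : Finset (Fin P.N)).filter fun s =>
        t ≤ out P G (inpt P θ s p.1) p.2).card : ℝ) +
        (((Finset.univ : Finset (Fin P.N)).filter fun s =>
        ¬ t ≤ out P G (inpt P θ s p.1) p.2).card : ℝ) = P.N := by
      exact_mod_cast h10
    simp only [not_le] at h11 hp'
    linarith
  linarith

end

end Pool.Agent.Lib.GSX
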