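import Pool.Agent.Lib.GSX.B7
import Pool.Agent.Lib.GSX.BEnd
import Pool.Agent.Lib.GSX.StageL
import Pool.Agent.Lib.GSX.TypI

/-!
# The leaf of the pools of type YES

`BOut` is the result of the estimates of one stage of a pool; `bleaf`: a class of typical pairs with
a pool of type YES has small mass.
-/

set_option autoImplicit false

namespace Pool.Agent.Lib.GSX

open Finset Classical
open Pool.Agent.Lib.GSR Pool.Agent.Lib.GSR.HZ Pool.Agent.Lib.GSR.HZB
open Pool.Agent.Lib.TCW (FRec NrB NrS Cst)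

/-- The result of the estimates of the stage `sg j` of a pool with the item `T`: the nodes on the
side `YES` with small served shares have a linked label, up to a set of small mass, and a linked
vertex of the next world satisfies the conditions of the small set. -/
structure BOut {V : Type} [Fintype V] (P : Cn) (G : SimpleGraph V) (S : Sta P V) (I : Inp P V)
    (T : Finset (Fin P.N)) (sg : ℕ → Fin P.N) (j m : ℕ) (k : Cst) (ε q : ℝ) (d : ℕ)
    (K0 ek ek' η tau : ℝ) (W' : Finset V) : Prop where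
  lnk : ∑ x with P.eps1 * al P G I x ≤ AS P G S I T x ∧ (∀ S' ⊆ range j, S'.card = m →
      ∑ l, wA P G S I T l x * sv P G S I T (img P sg S') l ≤ 2 * P.cA) ∧
      ¬ Lnk P G S I T (LabO P G S I T sg j m k.l0 ε q d) ek' x, I.n3 x ≤ tau
  stx : ∀ v ∈ W', Lnk P G S I T (LabO P G S I T sg j m k.l0 ε q d) ek' v →
    StX P G S I T sg j m k.l0 ε q d k K0 ek η v

namespace BLeaf_

section

variable {V : Type} [Fintype V] {P : Cn} {G : SimpleGraph V} {s : Fin P.N} {S : Sta P V}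
  {I : Inp P V} {W' : Finset V} {T C : Finset (Fin P.N)} {x : V} {t : ℝ}

theorem ShA_eq : ShA P G S I T C x = ∑ l, wA P G S I T l x * sv P G S I T C l -
    ∑ l, wA P G S I T l x * sv P G S I T C l * upsA P G S I T C l (I.la T C l) x := by
  unfold ShA
  rw [← Finset.sum_sub_distrib]
  exact Finset.sum_congr rfl fun l _ => by ring

/-- The served share is small if there is no score. -/
theorem served_le (hsd : SidesW P G s S I W') (hx : x ∈ W') (hT : Bef P s T)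
    (hr : T.card = P.r0) (hC : C ⊆ T) (hno : ¬ sdA P G S I W' T C)
    (hF : FctX P G s S I t x) (hV : Val P G S I.W C) (ht : t ≤ P.cA) :
    ∑ l, wA P G S I T l x * sv P G S I T C l ≤ 2 * P.cA := by
  have h1 : ShA P G S I T C x ≤ P.cA := by
    rcases hsd.a T C hT hr hC with h1 | h1
    · exact absurd h1 hno
    · exact h1 x hx
  have h2 := hF.n3 T C hT hr hC hV
  rw [ShA_eq] at h1
  linarith

end

/-- The mass of a set of pairs. -/
theorem pm_eq {V : Type} [Fintype V] {N nb : ℕ} (Q : Hi V N nb × V → ℝ)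
    (B : Hi V N nb × V → Prop) : pm Q B = ∑ ω ∈ Finset.univ.filter B, Q ω := by
  unfold pm
  rw [Finset.sum_filter]

end BLeaf_

open BLeaf_

section

variable {V : Type} [Fintype V] {P : Cn} {G : SimpleGraph V} {col : Finset V → ℕ → Prop}
  {J : Type} {Tt : Ts V P.N (nb P) J (Tht P V)} {Q : Hh P V × V → ℝ} {θ : Tht P V}

/-- **A class of typical pairs with a pool of type YES contains a pair with the node in the small
set.** -/
theorem bleaf_mem (h : Eqm col Tt Q θ) {B : ℕ → ℝ} {t κ tau : ℝ} {q m v0 d : ℕ} {k : Cst}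
    {ε ρ K0 ek ek' η : ℝ} (X : Finset (Hh P V × V)) (Tg : Hh P V × V → Finset (Fin P.N))
    (hXQ : ∀ ω ∈ X, Q ω ≠ 0)
    (hhis : ∀ ω ∈ X, HisW P G B (stt P G θ ω.1) (fun s => inpt P θ s ω.1) (wo ω.1))
    (hfx : ∀ ω ∈ X, ∀ s ∈ Tg ω, FctX P G s (stt P G θ ω.1 s) (inpt P θ s ω.1) t ω.2)
    (ht : t ≤ P.cA) (hκ : κ ≤ ∑ ω ∈ X, Q ω) (htau : 0 ≤ tau) (hqt : q * tau < κ)
    (hv0 : P.g0 + 1 ≤ v0) (hw0 : P.w0 + 1 ≤ k.w0) {st : ℕ → Fin P.N}
    {SS : ℕ → Finset (Fin P.N)}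
    (hp : PoolB P.r0 q Tg (fun ω C => MaR P G (stt P G θ ω.1) (wo ω.1) C)
      (fun ω C s => sdP P G (stt P G θ ω.1 s) (inpt P θ s ω.1) (wo ω.1 (s + 1)) C)
      (fun ω C s => sdB P G s (stt P G θ ω.1 s) (inpt P θ s ω.1) (wo ω.1 (s + 1)) C)
      (fun ω S s => sdY P G (stt P G θ ω.1 s) (inpt P θ s ω.1) (wo ω.1 (s + 1)) S) m st SS X)
    (hB : ∀ ω ∈ X, ∀ j < q, BOut P G (stt P G θ ω.1 (st j)) (inpt P θ (st j) ω.1) (SS j) st j m k
        ε ρ d K0 ek ek' η tau (wo ω.1 (st j + 1))) :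
    ∃ ω ∈ X, Q ω ≠ 0 ∧ ω.2 ∈ (BF P G (fun (b : Fin P.N) θ => stt P G θ ω.1 b)
      (fun b θ => inpt P θ b ω.1) SS st m k.l0 ε ρ d).XB G v0 k K0 ek η m q θ := by
  refine b7_mem Q h.Q0 X hκ (e := tau) (ek' := ek') (θ := θ) (m := m)
    (d := d) (k := k) (ε := ε) (ρ := ρ) (K0 := K0) (ek := ek) (η := η) hqt
    (fun ω (b : Fin P.N) θ => stt P G θ ω.1 b) (fun ω b θ => inpt P θ b ω.1) (fun ω => ω.2)
    st SS hv0 hw0 (fun ω _ j hj c hc y => ?_) (fun j hj => ?_) (fun ω hω _ j hj hl => ?_)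
  · have h1 : ((st c : Fin P.N) : ℕ) < (st j : Fin P.N) := hp.mono c j hc hj
    rw [Hts_.stt_a ω.1 (st c) h1]
  · -- the mass of the pairs without a linked label
    obtain ⟨Bd, hBd⟩ : ∃ Bd : Sta P V → Inp P V → V → Prop, ∀ S I x, Bd S I x ↔
        (P.eps1 * al P G I x ≤ AS P G S I (SS j) x ∧ (∀ S' ⊆ range j, S'.card = m →
          ∑ l, wA P G S I (SS j) l x * sv P G S I (SS j) (img P st S') l ≤ 2 * P.cA) ∧
          ¬ Lnk P G S I (SS j) (LabO P G S I (SS j) st j m k.l0 ε ρ d) ek' x) :=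
      ⟨_, fun _ _ _ => Iff.rfl⟩
    have h1 := pm_rec_le (P := P) (G := G) h (st j) (fun c => ∃ x, (c, x) ∈ X) Bd htau (by
        rintro c - ⟨x, hx⟩
        refine le_trans (le_of_eq ?_) (hB (c, x) hx j hj).lnk
        refine Finset.sum_congr ?_ fun _ _ => rfl
        ext y
        simp only [Finset.mem_filter, hBd])
    refine le_trans ?_ h1
    rw [BLeaf_.pm_eq]
    refine Finset.sum_le_sum_of_subset_of_nonneg ?_ fun p _ _ => h.Q0 p
    intro ω hω
    simp only [Finset.mem_filter, hBd] at hω ⊢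
    obtain ⟨hωX, hnl⟩ := hω
    have hxw : ω.2 ∈ wo ω.1 ((st j : ℕ) + 1) := (node_mem h (hXQ ω hωX) (st j)).2.1
    refine ⟨Finset.mem_univ _, ⟨ω.2, hωX⟩, hp.YES ω hωX j hj ω.2 hxw, ?_, hnl⟩
    intro S' hS' hSm
    have hsub : img P st S' ⊆ SS j := by
      intro c hc
      obtain ⟨i, hi, rfl⟩ := Finset.mem_image.1 hc
      exact hp.mem j hj i (Finset.mem_range.1 (hS' hi))
    have hcard : (img P st S').card = m := by
      rw [← hSm]
      unfold img
      refine Finset.card_image_of_injOn fun a ha b hb hab => ?_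
      have ha' := Finset.mem_range.1 (hS' ha)
      have hb' := Finset.mem_range.1 (hS' hb)
      rcases Nat.lt_trichotomy a b with h2 | h2 | h2
      · exact absurd hab (hp.mono a b h2 (hb'.trans hj)).ne
      · exact h2
      · exact absurd hab (hp.mono b a h2 (ha'.trans hj)).ne'
    have hbef : Bef P (st j) (SS j) := fun c hc => Fin.lt_def.1 (hp.lt j hj c hc)
    have hH := hhis ω hωX
    refine served_le (hH.fct (st j)).sides hxw hbef (hp.card j hj) hsub (fun hA => ?_)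
      (hfx ω hωX (st j) (hp.sT ω hωX j hj)) ?_ ht
    · refine (hp.no ω hωX j hj _ hsub hcard).2 ⟨SS j, ?_, hA⟩
      unfold its
      rw [Finset.mem_filter, Finset.mem_powersetCard]
      refine ⟨⟨fun c hc => Finset.mem_filter.2 ⟨Finset.mem_univ _, hp.lt j hj c hc⟩,
        hp.card j hj⟩, hsub⟩
    · exact hp.mst ω hωX j hj _ hsub hcard (st j) (st j).2.le fun c hc => hbef c (hsub hc)
  · exact (hB ω hω j hj).stx ω.2 (node_mem h (hXQ ω hω) (st j)).2.1 hl

/-- **The leaf of the pools of type YES.** -/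
theorem bleaf (h : Eqm col Tt Q θ) {B : ℕ → ℝ} {t κ tau : ℝ} {q m v0 d : ℕ} {k : Cst}
    {ε ρ K0 ek ek' η : ℝ} (X : Finset (Hh P V × V)) (Tg : Hh P V × V → Finset (Fin P.N))
    (hXQ : ∀ ω ∈ X, Q ω ≠ 0)
    (hhis : ∀ ω ∈ X, HisW P G B (stt P G θ ω.1) (fun s => inpt P θ s ω.1) (wo ω.1))
    (hfx : ∀ ω ∈ X, ∀ s ∈ Tg ω, FctX P G s (stt P G θ ω.1 s) (inpt P θ s ω.1) t ω.2)
    (ht : t ≤ P.cA) (hκ : κ ≤ ∑ ω ∈ X, Q ω) (htau : 0 ≤ tau) (hqt : q * tau < κ)
    (hv0 : P.g0 + 1 ≤ v0) (hw0 : P.w0 + 1 ≤ k.w0) {st : ℕ → Fin P.N}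
    {SS : ℕ → Finset (Fin P.N)}
    (hp : PoolB P.r0 q Tg (fun ω C => MaR P G (stt P G θ ω.1) (wo ω.1) C)
      (fun ω C s => sdP P G (stt P G θ ω.1 s) (inpt P θ s ω.1) (wo ω.1 (s + 1)) C)
      (fun ω C s => sdB P G s (stt P G θ ω.1 s) (inpt P θ s ω.1) (wo ω.1 (s + 1)) C)
      (fun ω S s => sdY P G (stt P G θ ω.1 s) (inpt P θ s ω.1) (wo ω.1 (s + 1)) S) m st SS X)
    (hB : ∀ ω ∈ X, ∀ j < q, BOut P G (stt P G θ ω.1 (st j)) (inpt P θ (st j) ω.1) (SS j) st j m k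
        ε ρ d K0 ek ek' η tau (wo ω.1 (st j + 1)))
    {s : Fin P.N} (hs : ∀ j < q, st j ≤ s)
    (hQ4 : ∀ ω ∈ X, ω.2 ∉ XPl P G (fun (b : Fin P.N) θ => stt P G θ ω.1 b)
      (fun b θ => inpt P θ b ω.1) v0 k K0 ek η ε ρ d m s (fun j : Fin q => st j)
        (fun j : Fin q => SS j) θ) : False := by
  have hpl : PlOk s (fun j : Fin q => st j) (fun j : Fin q => SS j) :=
    ⟨fun i j hij => hp.mono i j hij j.2, fun j => hs j j.2,
      fun i j hij => hp.mem j j.2 i hij, fun j => hp.lt j j.2⟩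
  obtain ⟨ω, hω, -, hmem⟩ := bleaf_mem h X Tg hXQ hhis hfx ht hκ htau hqt hv0 hw0 hp hB
  exact hQ4 ω hω (mem_xpl hpl hmem)

end

end Pool.Agent.Lib.GSX
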