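import Pool.Agent.Lib.GSX.Gst
import Pool.Agent.Lib.GSX.LvG

/-!
# Level bounds and the floor for one stage of a typical history (G1, G2 from `Gst`)
-/

set_option autoImplicit false

namespace Pool.Agent.Lib.GSX

open Finset Classical

section

variable {V : Type} [Fintype V] {P : Cn} {G : SimpleGraph V} {c0 : ℝ} {XQ : Set V} {s : Fin P.N}
  {S : Sta P V} {I : Inp P V} {n4 : V → ℝ} {U : ℕ → V → Prop} {W' : Finset V}

/-- The nodes of the laws have a neighbour in the world. -/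
theorem Gst.iso_ni (h : Gst P G c0 XQ s S I n4 U W') (i : ℕ) (x : V) (hx : ni I n4 i x ≠ 0) :
    ∃ z ∈ I.W, G.Adj x z := h.iso x (h.an 0 i (Nat.zero_le i) x (h.su i x hx))

/-- **(G1)** The level bounds of all the laws. -/
theorem Gst.lvH (h : Gst P G c0 XQ s S I n4 U W') (he : 0 < P.e0) (he1 : P.e0 < 1)
    (hI : lv P.I0 ≤ P.e0) (i : ℕ) : PayM_.LvH P G I (ni I n4 i) (4 * (1 / c0)) :=
  h.best.lvH he he1 hI (h.nn 0) (h.sm 0).le (h.nn i) (one_div_nonneg.2 h.c0p.le)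
    (h.le_div (Nat.zero_le i)) (fun _ hx => h.ne_W i hx) (h.iso_ni i)

/-- **(G1)** The mass of a node. -/
theorem Gst.atom_ni (h : Gst P G c0 XQ s S I n4 U W') (he : 0 < P.e0) (he1 : P.e0 < 1)
    (hI : lv P.I0 ≤ P.e0) (i : ℕ) (x : V) : ni I n4 i x ≤ 2 * (1 / c0) * al P G I x :=
  h.best.atom he he1 hI (h.nn 0) (h.sm 0).le (h.nn i) (one_div_nonneg.2 h.c0p.le)
    (h.le_div (Nat.zero_le i)) (h.iso_ni i) x

/-- **(G2)** The nodes close to the floor have small mass for all the laws. -/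
theorem Gst.floor_ni (h : Gst P G c0 XQ s S I n4 U W') (he : 0 < P.e0) (he1 : P.e0 < 1)
    (hI : lv P.I0 ≤ P.e0) (i : ℕ) {t : ℝ} (ht : 0 ≤ t) :
    ∑ x with al P G I x < t, ni I n4 i x ≤ Fintype.card V * (2 * (1 / c0) * t) :=
  h.best.floor he he1 hI (h.nn 0) (h.sm 0).le (h.nn i) (one_div_nonneg.2 h.c0p.le)
    (h.le_div (Nat.zero_le i)) (h.iso_ni i) ht

/-- **(G2)** The value of the main law is close to one. -/
theorem Gst.del_ge (h : Gst P G c0 XQ s S I n4 U W') (he : 0 < P.e0) (he1 : P.e0 < 1)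
    (hI : lv P.I0 ≤ P.e0) {R : ℝ} (hR : 1 ≤ R) :
    1 - 1 / R - Fintype.card V * (2 * (R * P.e0)) ≤ Del P G I :=
  h.best.del_ge he he1 hI (h.nn 0) (h.sm 0) (h.iso_ni 0) hR

/-- The pays of the laws: for `l` in the world the payoff of the main law is at most `1 / c0`. -/
theorem Gst.dm_ni (h : Gst P G c0 XQ s S I n4 U W') (he : 0 < P.e0) (i : ℕ) {l : Ml P V}
    (hl : l.1 ∈ I.W) : Dm P G I (ni I n4 i) l ≤ 1 / c0 :=
  (h.best.dm_le_of_le he (h.nn 0) (one_div_nonneg.2 h.c0p.le) (h.le_div (Nat.zero_le i))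
    hl).trans (mul_le_of_le_one_right (one_div_nonneg.2 h.c0p.le) (h.sm 0).le)

end

end Pool.Agent.Lib.GSX
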