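import Pool.Agent.Lib.GSX.BOut
import Pool.Agent.Lib.GSX.BLeaf
import Pool.Agent.Lib.GSX.GstLv

/-!
# The facts of the stages of a pool along a typical history

`rfct_of_gst`, `tfct_of_inv`: the structures `RFct`, `TFct` from `Gst` and `InvS`;
`bout_of_fct`: the structure `BOut` of the leaf.
-/

set_option autoImplicit false

namespace Pool.Agent.Lib.GSX

open Finset Classical
open Pool.Agent.Lib.GSR3 (Tree)
open Pool.Agent.Lib.FGF (Frac cm)
open Pool.Agent.Lib.GSLE (brw)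
open Pool.Agent.Lib.TCW (Cst)

namespace BFac_

/-- Heights of scales above the floor. -/
theorem ht_ge {P : Cn} {V : Type} {S : Sta P V} {c : Fin P.N} {z : V}
    (hI : 2 * lv P.I0 ≤ P.e0) (h : P.e0 ≤ S.a c z) : 1 - (P.I0 : ℝ) ≤ ht P S c z := by
  have h1 : (2 : ℝ) ^ (1 - (P.I0 : ℝ)) = 2 * lv P.I0 := by
    rw [Real.rpow_sub two_pos, Real.rpow_one, Real.rpow_natCast]
    unfold lv
    rw [one_div, inv_pow, div_eq_mul_inv]
  have h2 : (2 : ℝ) ^ (1 - (P.I0 : ℝ)) ≤ S.a c z := by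
    rw [h1]
    exact hI.trans h
  have h3 : 0 < S.a c z := lt_of_lt_of_le (Real.rpow_pos_of_pos two_pos _) h2
  unfold ht
  exact (Real.le_logb_iff_rpow_le (by norm_num) h3).2 h2

theorem ht_le {P : Cn} {V : Type} {S : Sta P V} {c : Fin P.N} {z : V}
    (h0 : 0 < S.a c z) (h : S.a c z ≤ 2) : ht P S c z ≤ 1 := by
  unfold ht
  rw [Real.logb_le_iff_le_rpow (by norm_num) h0, Real.rpow_one]
  exact h

end BFac_

section

variable {V : Type} [Fintype V] {P : Cn} {G : SimpleGraph V} {s : Fin P.N} {S : Sta P V}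
  {I : Inp P V} {T : Finset (Fin P.N)}

/-- **The facts of the record**, from the data of one stage of a typical history. -/
theorem rfct_of_gst {c0 : ℝ} {XQ : Set V} {n4 : V → ℝ} {U : ℕ → V → Prop} {W' : Finset V}
    (h : Gst P G c0 XQ s S I n4 U W') {B : ℕ → ℝ} {W : Finset V} (hi : InvS P G B s S W)
    (hP : CPos P) (he1 : P.e0 < 1) (hI : 2 * lv P.I0 ≤ P.e0) (hT : Bef P s T)
    (ht : ∀ x, U 3 x → fs P G I x < 1) : RFct P G s S I T (4 * (1 / c0)) where
  cp := hP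
  sp := hi.pos
  ip := h.ipos
  best := h.best
  lvh := h.lvH hP.e0 he1 (by
    have h1 : 0 < lv P.I0 := RecP_.lv_pos _
    linarith) 3
  e01 := he1
  eI := by
    have h1 : 0 < lv P.I0 := RecP_.lv_pos _
    linarith
  hl := fun c hc z => BFac_.ht_ge hI (hi.lo c (hT c hc) z)
  hu := fun c hc z => BFac_.ht_le (hi.pos.a c z) (hi.hi c (hT c hc) z)
  thin := fun x hx => ht x (h.su 3 x hx)

variable {sg : ℕ → Fin P.N} {j m : ℕ}

/-- **The facts of the masters**, from the invariants of the stage. -/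
theorem tfct_of_inv {B : ℕ → ℝ} (hi : InvS P G B s S I.W)
    (hinj : ∀ c < j, ∀ c' < j, sg c = sg c' → c = c') (hlt : ∀ c < j, sg c < s)
    (hm : m ≤ P.h)
    (hv : ∀ S' ⊆ range j, S'.card = m → Val P G S I.W (img P sg S')) :
    TFct P G S I sg j m (B m) where
  F0 := hi.F0
  val := hv
  bd := fun S' hS' hSm t _ u hu => by
    have h1 : (img P sg S').card = m := (card_img P sg j hinj hS').trans hSm
    have h2 := hi.b (img P sg S') (fun c hc => by
      obtain ⟨a, ha, rfl⟩ := Finset.mem_image.1 hc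
      exact Fin.lt_def.1 (hlt a (Finset.mem_range.1 (hS' ha)))) (by rw [h1]; exact hm) t u hu
    rw [h1] at h2
    exact h2

variable {Kl Bm : ℝ} {g₀ : ℕ} {Pm q ε η : ℝ} {d : ℕ} {k : Cst} {K1 : ℝ} {nq : ℕ}
  {F K C1 tau ek ex : ℝ} {v0 wn N : ℕ} {X KX : ℝ} {W' : Finset V}

/-- **The output of one stage of the pool.** -/
theorem bout_of_fct (h : RFct P G s S I T Kl) (ht : TFct P G S I sg j m Bm)
    (hk : NrK P g₀ m Kl Pm Bm q ε d η ⟨k.w0, k.l0, k.l1, k.u, K1, k.R1⟩) (hK1 : K1 < k.K)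
    (hty : TyK P nq m Kl Pm q ε d K1 F K C1 tau ek ex v0 wn N X KX) (hj : j < nq)
    (hmh : m < P.h)
    (hinj : ∀ c < j, ∀ c' < j, sg c = sg c' → c = c') (hsg : ∀ c < j, sg c ∈ T)
    (h1 : ∑ x, I.n3 x ≤ 1) (hFr : Frac G F) (hT : ∀ φ : List (Fin P.M) → V, ¬ Tree G P.h P.M φ)
    (col : ∀ t, ∃ f : V → Fin P.kap, ∀ u w, G.Adj t u → G.Adj t w → G.Adj u w → f u ≠ f w)
    (hW : W' ⊆ I.W) (hf : ∀ v ∈ W', fs P G I v = 0) :
    BOut P G S I T sg j m k ε q d KX ex ek η tau W' where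
  lnk := by
    have h2 := h.bad ht hk hty hj hmh hinj hsg h1 hFr hT col
      (Finset.univ.filter fun x => P.eps1 * al P G I x ≤ AS P G S I T x ∧
        ∀ S' ⊆ range j, S'.card = m →
          ∑ l, wA P G S I T l x * sv P G S I T (img P sg S') l ≤ 2 * P.cA)
      fun x hx _ => (Finset.mem_filter.1 hx).2
    refine le_trans (le_of_eq (Finset.sum_congr ?_ fun _ _ => rfl)) h2
    ext x
    simp only [Finset.mem_filter, Finset.mem_univ, true_and, and_assoc]
  stx := fun v hv hl => h.stX ht hk hK1 hty hmh hinj hsg h1 (hW hv) (by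
    rw [hf v hv]
    exact one_pos) (col v) hl

end

end Pool.Agent.Lib.GSX
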