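import Pool.Agent.Lib.GSX.Rec
import Pool.Agent.Lib.GSR.NSrv

/-!
# Optimal services of a record

If the service `(I.q T C l, I.mu T C l)` of the cell `l` is optimal and its objective is more than
`d` then the cell is not served at any vertex `t` of the world which is adjacent to the hub and high
over the cell at the stages of `C`.
-/

set_option autoImplicit false

namespace Pool.Agent.Lib.GSX

open Finset Classical
open Pool.Agent.Lib.FGF (cm)
open Pool.Agent.Lib.GSLE (kp brw brw_mono brw_nonneg hc)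
open Pool.Agent.Lib.GSR (vioC Served srvR not_served_of_opt')

section

variable {V : Type} [Fintype V] (P : Cn) (G : SimpleGraph V) (S : Sta P V) (I : Inp P V)

/-- The objective of the record. -/
theorem Rv_eq (T C : Finset (Fin P.N)) (l : Ce P V) (q mu : V → ℝ) :
    Rv P G S I T C l q mu = srvR G P.M (P.h - C.card - 1) (P.A C.card) (P.Z' C.card) l.1.1 I.W
      (PA P G S I T l) (S.m C) (Fs P G S I) (hcost P G S I C l) q mu := rfl

/-- The height cost of a vertex which is high over the cell. -/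
theorem hcost_le {C : Finset (Fin P.N)} {l : Ce P V} {t : V} {l0 : ℝ} (ht : t ∈ I.W)
    (hadj : G.Adj t l.1.1) (ha : ∀ c ∈ C, 0 < S.a c t)
    (hh : ∀ c ∈ C, ((hc 1 l.2 c : ℤ) : ℝ) + l0 ≤ GSX.ht P S c t) :
    hcost P G S I C l t ≤ C.card * brw (1 / 4) ((2 : ℝ) ^ (-l0)) := by
  unfold hcost
  rw [if_pos ⟨hadj, ht⟩, zero_add]
  refine GSR.cost_high C _ le_rfl (brw_nonneg _ (by positivity)) fun c hcC => ?_
  have h1 := ha c hcC
  have h2 := hh c hcC
  unfold GSX.ht at h2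
  refine brw_mono (by norm_num) (by norm_num) (by positivity) ?_
  rw [div_le_iff₀ h1]
  have h3 : (2 : ℝ) ^ (((hc 1 l.2 c : ℤ) : ℝ) + l0) ≤ S.a c t := by
    rw [← Real.le_logb_iff_rpow_le (by norm_num) h1]
    exact h2
  rw [Real.rpow_add (by norm_num), Real.rpow_intCast] at h3
  have h4 : (0 : ℝ) < (2 : ℝ) ^ (-l0) := by positivity
  have h5 : (2 : ℝ) ^ (-l0) * ((2 : ℝ) ^ (hc 1 l.2 c) * (2 : ℝ) ^ l0) =
      (2 : ℝ) ^ (hc 1 l.2 c) := by
    rw [mul_comm, mul_assoc, ← Real.rpow_add (by norm_num), add_neg_cancel, Real.rpow_zero,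
      mul_one]
  rw [← h5]
  exact mul_le_mul_of_nonneg_left h3 h4.le

/-- **Cells with a bad optimal service are not served.** -/
theorem not_served_rec {T C : Finset (Fin P.N)} {l : Ce P V} {d Pm l0 : ℝ} {t : V}
    (hA : 0 ≤ P.A C.card) (hPm : 1 ≤ Pm) (hm : ∀ t u, 0 ≤ S.m C t u)
    (hF : ∀ u, 0 ≤ P.Z' C.card * Fs P G S I u)
    (hopt : ∀ q mu : V → ℝ, (∀ t, 0 ≤ q t) → ∑ t, q t = 1 → (∀ t, q t ≠ 0 → t ∈ I.W) →
      (∀ u, 0 ≤ mu u) → (∀ u, mu u ≠ 0 → u ∈ I.W) → ∑ u, mu u ≤ P.Lam C.card →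
        Rv P G S I T C l (I.q T C l) (I.mu T C l) ≤ Rv P G S I T C l q mu)
    (hd : d < Rv P G S I T C l (I.q T C l) (I.mu T C l)) (ht : t ∈ I.W) (hadj : G.Adj t l.1.1)
    (ha : ∀ c ∈ C, 0 < S.a c t)
    (hh : ∀ c ∈ C, ((hc 1 l.2 c : ℤ) : ℝ) + l0 ≤ GSX.ht P S c t)
    (hl0 : C.card * brw (1 / 4) ((2 : ℝ) ^ (-l0)) ≤ d / 2) :
    ¬ Served G P.M (P.h - C.card - 1) (P.A C.card) (P.Lam C.card) (d / (2 * Pm))
      (fun l : Ce P V => l.1.1) (fun l x => PA P G S I T l x / Pm) (cm G (S.m C t))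
      (I.W.filter fun u => P.Z' C.card * Fs P G S I u < 1) I.W l :=
  not_served_of_opt' (y := fun l : Ce P V => l.1.1) (PP := fun l => PA P G S I T l)
    (ropt := Rv P G S I T C l (I.q T C l) (I.mu T C l)) hA hPm hm hF
    (fun q mu h1 h2 h3 h4 h5 h6 => by
      rw [← Rv_eq]
      exact hopt q mu h1 h2 h3 h4 h5 h6) hd ht
    ((hcost_le P G S I ht hadj ha hh).trans hl0)

end

end Pool.Agent.Lib.GSX
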