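import Pool.Agent.Lib.GSX.Best
import Pool.Agent.Lib.GSX.NSrvI

/-!
# Best replies: the forms used by the service lemma and by the own steps
-/

set_option autoImplicit false

namespace Pool.Agent.Lib.GSX

open Finset Classical
open Pool.Agent.Lib.FGF (cm)
open Pool.Agent.Lib.GSLE (kp brw hc)
open Pool.Agent.Lib.GSR (vioC Served LawOn OwnK)

section

variable {V : Type} [Fintype V] {P : Cn} {G : SimpleGraph V} {s : Fin P.N} {S : Sta P V}
  {I : Inp P V}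

/-- The services are optimal (raw form). -/
theorem Best.sv_opt (h : Best P G s S I) (T C : Finset (Fin P.N)) (l : Ce P V) (q mu : V → ℝ)
    (h1 : ∀ t, 0 ≤ q t) (h2 : ∑ t, q t = 1) (h3 : ∀ t, q t ≠ 0 → t ∈ I.W)
    (h4 : ∀ u, 0 ≤ mu u) (h5 : ∀ u, mu u ≠ 0 → u ∈ I.W) (h6 : ∑ u, mu u ≤ P.Lam C.card) :
    Rv P G S I T C l (I.q T C l) (I.mu T C l) ≤ Rv P G S I T C l q mu :=
  h.sv_min T C l q ⟨⟨h1, h2⟩, fun t ht => by
    by_contra hq
    exact ht (h3 t hq)⟩ mu ⟨h4, h5, h6⟩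

/-- The own steps of the main labels are optimal (raw form). -/
theorem Best.lp_opt (h : Best P G s S I) (C : Finset (Fin P.N)) (l : Ml P V) (lam : V → ℝ)
    (h4 : ∀ u, 0 ≤ lam u) (h5 : ∀ u, lam u ≠ 0 → u ∈ I.W) (h6 : ∑ u, lam u ≤ P.Lam' C.card) :
    objP P G S I C l (I.lp C l) ≤ objP P G S I C l lam := h.lp_min C l lam ⟨h4, h5, h6⟩

/-- The own steps of the cells are optimal (raw form). -/
theorem Best.la_opt (h : Best P G s S I) (T C : Finset (Fin P.N)) (l : Ce P V) (lam : V → ℝ)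
    (h4 : ∀ u, 0 ≤ lam u) (h5 : ∀ u, lam u ≠ 0 → u ∈ I.W) (h6 : ∑ u, lam u ≤ P.Lam' C.card) :
    objA P G S I T C l (I.la T C l) ≤ objA P G S I T C l lam := h.la_min T C l lam ⟨h4, h5, h6⟩

/-- **Cells with a bad optimal service are not served.** -/
theorem Best.not_served (h : Best P G s S I) {T C : Finset (Fin P.N)} {l : Ce P V}
    {d Pm l0 : ℝ} {t : V} (hA : 0 ≤ P.A C.card) (hPm : 1 ≤ Pm) (hm : ∀ t u, 0 ≤ S.m C t u)
    (hF : ∀ u, 0 ≤ P.Z' C.card * Fs P G S I u)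
    (hd : d < Rv P G S I T C l (I.q T C l) (I.mu T C l)) (ht : t ∈ I.W) (hadj : G.Adj t l.1.1)
    (ha : ∀ c ∈ C, 0 < S.a c t)
    (hh : ∀ c ∈ C, ((hc 1 l.2 c : ℤ) : ℝ) + l0 ≤ GSX.ht P S c t)
    (hl0 : C.card * brw (1 / 4) ((2 : ℝ) ^ (-l0)) ≤ d / 2) :
    ¬ Served G P.M (P.h - C.card - 1) (P.A C.card) (P.Lam C.card) (d / (2 * Pm))
      (fun l : Ce P V => l.1.1) (fun l x => PA P G S I T l x / Pm) (cm G (S.m C t))
      (I.W.filter fun u => P.Z' C.card * Fs P G S I u < 1) I.W l :=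
  not_served_rec P G S I hA hPm hm hF (h.sv_opt T C l) hd ht hadj ha hh hl0

end

end Pool.Agent.Lib.GSX
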