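import Pool.Agent.Lib.GSX.RecP
import Pool.Agent.Lib.GSR.Score

/-!
# Validity of the masters

`Val P G S W C`: the masters of `C` are valid in the world `W`: at each vertex `v` of `W` the charge
of the measure `S.m C v` together with the cover dominates all the copies of the `M`-ary tree of
depth `h - |C|` with the root `v` and the body in `W`.  A stage with large scores makes the masters
of `insert s C` valid, and validity passes to the later states and to the smaller worlds.
-/

set_option autoImplicit false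

namespace Pool.Agent.Lib.GSX

open Finset Classical
open Pool.Agent.Lib.FGF (cm)
open Pool.Agent.Lib.GSR3 (Tree)
open Pool.Agent.Lib.GSR (vioC vioC_nonneg vioC_le vioC_anti' score_dom)

/-- The masters of `C` are valid in the world `W`. -/
def Val (P : Cn) {V : Type} [Fintype V] (G : SimpleGraph V) (S : Sta P V) (W : Finset V)
    (C : Finset (Fin P.N)) : Prop :=
  ∀ v ∈ W, vioC G P.M (P.h - C.card) v
    (fun u => cm G (S.m C v) u + P.Z C.card * S.F u) W = 0

namespace ValS_

section

variable {V : Type} [Fintype V] {P : Cn} {G : SimpleGraph V} {s : Fin P.N} {S : Sta P V}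
  {I : Inp P V} {W W' : Finset V} {C : Finset (Fin P.N)}

/-- Rank `0`: there is no copy of the tree. -/
theorem val_empty (h : ∀ φ : List (Fin P.M) → V, ¬ Tree G P.h P.M φ) :
    Val P G S W ∅ := by
  intro v _
  refine le_antisymm (vioC_le le_rfl fun φ h1 _ _ => ?_) vioC_nonneg
  rw [Finset.card_empty, Nat.sub_zero] at h1
  exact absurd h1 (h φ)

/-- Validity passes to the smaller worlds. -/
theorem Val_anti (h : Val P G S W C) (hW : W' ⊆ W) : Val P G S W' C := fun v hv =>
  le_antisymm ((vioC_anti' (fun _ _ => le_rfl) hW).trans (h v (hW hv)).le) vioC_nonneg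

/-- Validity of a state with the same masters of `C` and a larger cover. -/
theorem val_mono (hP : CPos P) {S' : Sta P V} (h : Val P G S W C) (hW : W' ⊆ W)
    (hm : ∀ v ∈ W', ∀ u, S'.m C v u = S.m C v u) (hF : ∀ u ∈ W', S.F u ≤ S'.F u) :
    Val P G S' W' C := by
  intro v hv
  refine le_antisymm ((vioC_anti' (fun u hu => ?_) hW).trans (h v (hW hv)).le) vioC_nonneg
  have h1 : S'.m C v = S.m C v := funext fun u => hm v hv u
  rw [h1]
  exact add_le_add le_rfl (mul_le_mul_of_nonneg_left (hF u hu) (hP.Z _))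

/-- Validity passes to the next state. -/
theorem val_nxt (hP : CPos P) (hC : s ∉ C) (h : Val P G S W C) (hW : W' ⊆ W) :
    Val P G (nxt P G s S I) W' C :=
  val_mono hP h hW (fun v _ u => RecP_.nxt_m_not hC v u) fun u _ => RecP_.F_le_Fs u

/-- **The validity of the new masters**: at each vertex of the new world one of the scores is
large. -/
theorem val_new (hP : CPos P) (hS : SPos S) (hI : IPos I) (hC : s ∉ C) (hW : W' ⊆ I.W)
    (hZ : (1 + ((its P s C).card : ℝ)) / cst P C.card * P.Z'' C.card ≤ P.Z (C.card + 1))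
    (h : ∀ v ∈ W', P.cP C.card ≤ ShP P G S I C v ∨ ∃ T ∈ its P s C, P.cA ≤ ShA P G S I T C v) :
    Val P G (nxt P G s S I) W' (insert s C) := by
  intro v hv
  have hcard : (insert s C).card = C.card + 1 := Finset.card_insert_of_notMem hC
  have hrank : P.h - (insert s C).card = P.h - C.card - 1 := by rw [hcard]; omega
  have hm : (nxt P G s S I).m (insert s C) v = mst P G s S I C v := by
    funext u
    rw [RecP_.nxt_m_mem (Finset.mem_insert_self s C), Finset.erase_insert hC]
  -- the labels
  obtain ⟨O, hO⟩ : ∃ O : Finset (Ml P V ⊕ (Finset (Fin P.N) × Ce P V)),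
      O = (Finset.univ : Finset (Ml P V)).disjSum ((its P s C) ×ˢ Finset.univ) := ⟨_, rfl⟩
  obtain ⟨w, hw⟩ : ∃ w : Ml P V ⊕ (Finset (Fin P.N) × Ce P V) → ℝ,
      w = Sum.elim (fun l => wP P G S I C l v)
        (fun p => wA P G S I p.1 p.2 v * sv P G S I p.1 C p.2) := ⟨_, rfl⟩
  obtain ⟨R, hR⟩ : ∃ R : Ml P V ⊕ (Finset (Fin P.N) × Ce P V) → V → ℝ,
      R = Sum.elim (fun l => MP P G S I C l (I.lp C l))
        (fun p => MA P G S I p.1 C p.2 (I.la p.1 C p.2)) := ⟨_, rfl⟩
  have hsum : ∀ f : Ml P V ⊕ (Finset (Fin P.N) × Ce P V) → ℝ, ∑ l ∈ O, f l =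
      ∑ l, f (Sum.inl l) + ∑ T ∈ its P s C, ∑ l, f (Sum.inr (T, l)) := by
    intro f
    rw [hO, Finset.sum_disjSum, Finset.sum_product]
  have hA0 : ∀ T l, 0 ≤ wA P G S I T l v * sv P G S I T C l := fun T l =>
    mul_nonneg (RecP_.wA_nonneg hP.eps1 hI.n3 hI.pi T l v) (RecP_.sv_nonneg _ _ _)
  have key := score_dom G (M := P.M) (j := P.h - C.card - 1) (c := cst P C.card)
    (Z := P.Z'' C.card) (Z' := P.Z (C.card + 1)) (H := 1 + ((its P s C).card : ℝ))
    (RecP_.cst_pos hP _) (hP.Z'' _) hZ O (w := w) (R := R) (f := Fs P G S I)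
    (RecP_.Fs_nonneg hS.F) ?_ ?_ (x := v) (L := I.W) ?_
  · have h1 : (fun u => cm G (mst P G s S I C v) u + P.Z (C.card + 1) * Fs P G S I u) =
        fun u => cm G (fun v => 1 / cst P C.card * ∑ l ∈ O, w l * R l v) u +
          P.Z (C.card + 1) * Fs P G S I u := by
      have h2 : mst P G s S I C v = fun u => 1 / cst P C.card * ∑ l ∈ O, w l * R l u := by
        funext u
        rw [hsum, hw, hR]
        rfl
      rw [h2]
    rw [hrank, hm, hcard]
    show vioC G P.M (P.h - C.card - 1) v
      (fun u => cm G (mst P G s S I C v) u + P.Z (C.card + 1) * Fs P G S I u) W' = 0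
    rw [h1]
    exact le_antisymm ((vioC_anti' (fun _ _ => le_rfl) hW).trans key.le) vioC_nonneg
  · intro l _
    rw [hw]
    rcases l with l | ⟨T, l⟩
    · exact RecP_.wP_nonneg hI.pi C l v
    · exact hA0 T l
  · rw [hsum, hw]
    refine add_le_add (RecP_.sum_wP_le (G := G) (S := S) hP.e0 hI.pi C v) ?_
    rw [← nsmul_one, ← Finset.sum_const]
    refine Finset.sum_le_sum fun T _ => ?_
    refine le_trans (Finset.sum_le_sum fun l _ => ?_)
      (RecP_.sum_wA_le_one (G := G) (S := S) (I := I) hP.eps1 T v)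
    exact mul_le_of_le_one_right (RecP_.wA_nonneg hP.eps1 hI.n3 hI.pi T l v)
      (RecP_.sv_le_one _ _ _)
  · rw [hsum, hw, hR]
    show cst P C.card ≤ ShP P G S I C v + ∑ T ∈ its P s C, ShA P G S I T C v
    have h0 : ∀ T ∈ its P s C, 0 ≤ ShA P G S I T C v := fun T _ =>
      RecP_.ShA_nonneg hP hS hI T C v
    rcases h v hv with h1 | ⟨T, hT, h1⟩
    · have h2 : cst P C.card ≤ P.cP C.card := min_le_left _ _
      have h3 := Finset.sum_nonneg h0
      linarith
    · have h2 : cst P C.card ≤ P.cA := min_le_right _ _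
      have h3 := Finset.single_le_sum h0 hT
      have h4 := RecP_.ShP_nonneg (G := G) hP hS hI C v
      linarith

end

end ValS_

end Pool.Agent.Lib.GSX
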