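import Pool.Agent.Lib.GSX.NrTwo
import Pool.Agent.Lib.GSX.BestN
import Pool.Agent.Lib.GSX.LvG
import Pool.Agent.Lib.GSX.ValS
import Pool.Agent.Lib.GSR.LabB

/-!
# The stage of a pool: the facts used by the small sets

`RFct` collects the facts about the record of one stage of the pool, `TFct` the facts about a
vertex of the world.  They give the structures `CellL`, `OwnL`, `StB` and `TgB`.
-/

set_option autoImplicit false

namespace Pool.Agent.Lib.GSX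

open Finset Classical
open Pool.Agent.Lib.FGF (cm)
open Pool.Agent.Lib.GSLE (kp brw brw_mono brw_nonneg hc cl cl_nonneg win win_eq_one win_nonneg ds
  Cf rhoC_ne cells)
open Pool.Agent.Lib.GSR (vioC vioC_anti' Served SrvC OwnL TgtL HM CellL)
open Pool.Agent.Lib.TCW (Cst NrB)

section

variable {V : Type} [Fintype V]

/-- The facts about the record of the stage `s = sg j` with the item `T`; `K1` bounds the level
masses. -/
structure RFct (P : Cn) (G : SimpleGraph V) (s : Fin P.N) (S : Sta P V) (I : Inp P V)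
    (T : Finset (Fin P.N)) (K1 : ℝ) : Prop where
  cp : CPos P
  sp : SPos S
  ip : IPos I
  best : Best P G s S I
  lvh : PayM_.LvH P G I I.n3 K1
  e01 : P.e0 < 1
  eI : lv P.I0 ≤ P.e0
  hl : ∀ c ∈ T, ∀ z, 1 - (P.I0 : ℝ) ≤ ht P S c z
  hu : ∀ c ∈ T, ∀ z, ht P S c z ≤ 1
  thin : ∀ x, I.n3 x ≠ 0 → fs P G I x < 1

/-- The facts about the masters of the sets of `m` stages and the cover. -/
structure TFct (P : Cn) (G : SimpleGraph V) (S : Sta P V) (I : Inp P V) (sg : ℕ → Fin P.N)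
    (j m : ℕ) (Bm : ℝ) : Prop where
  F0 : ∀ u ∈ I.W, S.F u = 0
  val : ∀ S' ⊆ range j, S'.card = m → Val P G S I.W (img P sg S')
  bd : ∀ S' ⊆ range j, S'.card = m → ∀ t ∈ I.W, ∀ u ∈ I.W, cm G (S.m (img P sg S') t) u ≤
    Bm * ∑ c ∈ img P sg S', brw (1 / 4) (S.a c u / S.a c t)

variable {P : Cn} {G : SimpleGraph V} {s : Fin P.N} {S : Sta P V} {I : Inp P V}
  {T : Finset (Fin P.N)} {K1 : ℝ} {sg : ℕ → Fin P.N} {j m : ℕ} {Bm : ℝ}

namespace RFct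

theorem e0 (h : RFct P G s S I T K1) : 0 < P.e0 := h.cp.e0

/-- The structure of the cells. -/
theorem cellL (h : RFct P G s S I T K1) {g₀ : ℕ} (hg : P.g0 + 1 ≤ g₀) (O : Finset (Ce P V)) :
    CellL (N := P.N) (J := P.I0) G 1 (ht P S) P.w0 T I.n3 (al P G I) (LvG_.kx P G I) I.pi Prod.fst
      (fun l => (l.2 : ℕ)) (kk P G I P.g0) g₀ (P.eps1 / 2) (K1 * PayM_.Cq) (CS P G S I T)
      (BS P G S I T) O where
  n0 := h.ip.n3
  a0 := fun x => RecP_.al_pos x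
  ka := fun x => (LvG_.kx_spec h.e0 h.e01 h.best.pi_nonneg h.best.sum_pi.le x).1
  ak := fun x => (LvG_.kx_spec h.e0 h.e01 h.best.pi_nonneg h.best.sum_pi.le x).2
  π0 := h.best.pi_nonneg
  k0 := fun x l => RecP_.kk_nonneg _ x l
  k1 := fun x l => (RecP_.kk_le _ x l).trans
    (mul_le_of_le_one_left (GSLE.kp_nonneg _) (RecP_.inc_le_one _ x l))
  adj := fun x l hl => (RecP_.kk_ne hl).1
  win := fun x l hl => (RecP_.kk_ne hl).2.2.le.trans hg
  root := fun x => by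
    have h1 := al_eq' (G := G) h.e0 h.best.pi_nonneg x
    have h2 : ∑ l with G.Adj x l.1, I.pi l * kp (al P G I x / (1 / 2 : ℝ) ^ ((l.2 : ℕ))) ≤
        ∑ l, inc G I.W x l * I.pi l * kp (al P G I x / lv l.2) := by
      rw [Finset.sum_filter]
      refine Finset.sum_le_sum fun l _ => ?_
      by_cases h3 : I.pi l = 0
      · simp [h3]
      · have h4 := h.best.pi_supp h3
        unfold inc lv
        by_cases h5 : G.Adj x l.1
        · rw [if_pos h5, if_pos ⟨h5, h4⟩, one_mul]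
        · rw [if_neg h5, if_neg fun h6 => h5 h6.1, zero_mul, zero_mul]
    have h3 := h.e0
    linarith
  hl := fun c hc z => by
    have h1 := h.hl c hc z
    push_cast
    exact h1
  hu := fun c hc z => by
    have h1 := h.hu c hc z
    push_cast
    exact h1
  θ0 := by
    have h1 := h.cp.eps1
    linarith
  Δ0 := mul_nonneg h.lvh.K0 PayM_.Cq_pos.le
  own := fun p _ => h.lvh.kk P.g0 p.1
  aA := fun x _ => by
    refine le_trans (le_of_eq ?_) (RecP_.half_le_BS T x)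
    ring
  c0 := fun x p => RecP_.CS_nonneg T x p
  cC := fun x p => RecP_.CS_le_CC T x p

/-- The level masses of a thin vertex. -/
theorem thinL (h : RFct P G s S I T K1) {b : V} (hb : fs P G I b < 1) (r : ℕ) :
    ∑ x with LvG_.kx P G I x = r, I.n3 x / al P G I x * cl G x b ≤ 2 * P.xi :=
  thin_lvl P G I
    (fun x => (LvG_.kx_spec h.e0 h.e01 h.best.pi_nonneg h.best.sum_pi.le x).1)
    (fun x => (LvG_.kx_spec h.e0 h.e01 h.best.pi_nonneg h.best.sum_pi.le x).2)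
    (LvG_.kx_le h.e0 h.e01 h.eI h.best.pi_nonneg h.best.sum_pi.le) h.ip.n3 h.cp.xi hb r

/-- The nodes are not hubs of cells with a large own mass. -/
theorem hub_ne (h : RFct P G s S I T K1) {g₀ : ℕ} (hg : P.g0 + 1 ≤ g₀)
    (hδ : (2 * g₀ + 1) * (2 * P.xi) / (P.eps1 / 2) < P.del) {l : Ce P V}
    (hd : P.del ≤ DD P G S I T l) {x : V} (hx : I.n3 x ≠ 0) : x ≠ hub l :=
  (h.cellL hg {l}).not_hub (p := l) (fun r => h.thinL (h.thin x hx) r) (hδ.trans_le hd) le_rfl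

/-- The conditions of `GSR/Uns.lean`. -/
theorem ownL (h : RFct P G s S I T K1) {g₀ : ℕ} (hg : P.g0 + 1 ≤ g₀)
    (hδ : (2 * g₀ + 1) * (2 * P.xi) / (P.eps1 / 2) < P.del) {q Pm : ℝ} (hq : 0 < q)
    (hq2 : q * q = 1 / 2) (hPm : 0 < Pm) (hΔP : K1 * PayM_.Cq / (P.eps1 / 2) ≤ Pm)
    {O : Finset (Ce P V)} (hO : ∀ l ∈ O, P.del ≤ DD P G S I T l) :
    OwnL G I.n3 (al P G I) (BS P G S I T) (LvG_.kx P G I) (CS P G S I T) (rho P G S I T)
      (fun l x => PA P G S I T l x / Pm) hub sca g₀ (K1 * PayM_.Cq) (P.eps1 / 2) (1 / Pm) q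
      (2 * (K1 * PayM_.Cq) / q) O :=
  (h.cellL hg O).ownL (g := P.lG + P.w0 + 3) hq hq2 hPm hΔP fun _ hx l hl =>
    h.hub_ne hg hδ (hO l hl) hx

theorem wgt (l : Ce P V) : wB P G S I T l * (1 / 2 : ℝ) ^ sca l = rho P G S I T l := by
  unfold wB lv
  rw [div_mul_cancel₀]
  positivity

/-- The structure `StB`. -/
theorem stB (h : RFct P G s S I T K1) {g₀ : ℕ} (hg : P.g0 + 1 ≤ g₀)
    (hδ : (2 * g₀ + 1) * (2 * P.xi) / (P.eps1 / 2) < P.del) {q Pm : ℝ} (hq : 0 < q)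
    (hq2 : q * q = 1 / 2) (hPm : 1 ≤ Pm) (hΔP : K1 * PayM_.Cq / (P.eps1 / 2) ≤ Pm)
    (hBm : 0 ≤ Bm) (hinj : ∀ c < j, ∀ c' < j, sg c = sg c' → c = c')
    (hsg : ∀ c < j, sg c ∈ T) {l0 : ℤ} {ε : ℝ} {d : ℕ} {O : Finset (Ce P V)}
    (hO : ∀ l ∈ O, LabC P G S I T sg j m l0 ε q d l ∧ rho P G S I T l ≠ 0) :
    StB P G S I T sg j O (LvG_.kx P G I) g₀ m l0 (K1 * PayM_.Cq) (1 / Pm) q
      (2 * (K1 * PayM_.Cq) / q) Pm Bm ε d where
  cp := h.cp
  sp := h.sp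
  ip := h.ip
  lv1 := fun x => (LvG_.kx_spec h.e0 h.e01 h.best.pi_nonneg h.best.sum_pi.le x).1
  lv2 := fun x => (LvG_.kx_spec h.e0 h.e01 h.best.pi_nonneg h.best.sum_pi.le x).2
  lvI := LvG_.kx_le h.e0 h.e01 h.eI h.best.pi_nonneg h.best.sum_pi.le
  nW := h.lvh.nW
  inj := hinj
  sgT := hsg
  q0 := hq
  q1 := by nlinarith
  qq := hq2
  Bd0 := div_nonneg (mul_nonneg zero_le_two (mul_nonneg h.lvh.K0 PayM_.Cq_pos.le)) hq.le
  Pm1 := hPm
  Bm0 := hBm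
  own := h.ownL hg hδ hq hq2 (by linarith) hΔP fun l hl => (hO l hl).1.dD
  lab := hO
  wgt := fun l _ => wgt l

end RFct

/-- The structure `TgB` at the thin vertices. -/
theorem TFct.tgB (h : TFct P G S I sg j m Bm)
    (hinj : ∀ c < j, ∀ c' < j, sg c = sg c' → c = c') {S' : Finset ℕ} (hS' : S' ⊆ range j)
    (hSm : S'.card = m) {t : V} (ht : t ∈ I.W) (hth : fs P G I t < 1) :
    TgB P G S I sg m Bm S' t where
  tW := ht
  thin := hth
  val := by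
    have h1 := h.val S' hS' hSm t ht
    rw [card_img P sg j hinj hS', hSm] at h1
    have h2 : vioC G P.M (P.h - m) t (cm G (S.m (img P sg S') t)) I.W ≤
        vioC G P.M (P.h - m) t
          (fun u => cm G (S.m (img P sg S') t) u + P.Z m * S.F u) I.W := by
      refine vioC_anti' (fun u hu => ?_) (Finset.Subset.refl _)
      rw [h.F0 u hu, mul_zero, add_zero]
    linarith
  bd := h.bd S' hS' hSm t ht

/-- The inequalities between the constants for the targets of rank at least two. -/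
structure NrK2 (P : Cn) (g₀ m : ℕ) (K1 Pm Bm q ε : ℝ) (d : ℕ) (η : ℝ) (k : Cst) (e : ℝ) :
    Prop where
  srv : SrvC P.M (P.h - m - 1) P.kap (P.dl m / (4 * Pm)) (P.A m) (P.Lam m) e
  Z1 : 1 ≤ P.Z' m
  R1 : 0 < k.R1
  e1 : Cf g₀ (K1 * PayM_.Cq) (P.eps1 / 2) k.K (1 / Pm) * (2 * P.xi) ≤ e
  e2 : 2 * (K1 * PayM_.Cq) / q * (2 ^ g₀ / q ^ g₀) / k.K ≤ e
  e3 : Cf g₀ (K1 * PayM_.Cq) (P.eps1 / 2) η (1 / Pm) * (2 * P.xi) ≤ e
  e4 : (1 + (2 * (K1 * PayM_.Cq) / q / η + Cf g₀ (K1 * PayM_.Cq) (P.eps1 / 2) η (1 / Pm) * ε) *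
    (q ^ d / (1 - q))) / k.R1 ≤ e
  e5 : ∀ l : ℤ, k.l0 - 1 ≤ l → Bm * (m * brw (1 / 4) ((2 : ℝ) ^ (P.w0 + 1 - l))) ≤ e
  e6 : ∀ l : ℤ, k.l0 - 1 ≤ l → Bm * (m * brw (1 / 4) ((2 : ℝ) ^ (P.lG + P.w0 + 4 - l))) ≤ e
  e7 : ∀ l : ℤ, k.l0 - 1 ≤ l → m * brw (1 / 4) ((2 : ℝ) ^ (-(l : ℝ))) ≤ P.dl m / 4

/-- The inequalities between the constants for the targets of rank one. -/
structure NrK1 (P : Cn) (g₀ m : ℕ) (K1 Pm Bm q ε : ℝ) (k : Cst) : Prop where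
  M1 : 1 ≤ P.M
  R1κ : P.kap * (P.M - 1) < k.R1
  e2' : P.kap * P.M * (2 * (K1 * PayM_.Cq) / q * (2 ^ g₀ / q ^ g₀)) ≤ k.K
  e4' : 1 / Pm / (P.eps1 / 2) * ((2 * g₀ + 1) * ε) < P.del / Pm
  e6' : ∀ l : ℤ, k.l0 - 1 ≤ l →
    Bm * (m * brw (1 / 4) ((2 : ℝ) ^ (P.lG + P.w0 + 4 - l))) < 1 / 2 / P.M

/-- The inequalities between the constants which give `NrB`; `K1` bounds the level masses. -/
structure NrK (P : Cn) (g₀ m : ℕ) (K1 Pm Bm q ε : ℝ) (d : ℕ) (η : ℝ) (k : Cst) : Prop where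
  g : P.g0 + 1 ≤ g₀
  q0 : 0 < q
  qq : q * q = 1 / 2
  Pm1 : 1 ≤ Pm
  PmD : K1 * PayM_.Cq / (P.eps1 / 2) ≤ Pm
  xiD : (2 * g₀ + 1) * (2 * P.xi) / (P.eps1 / 2) < P.del
  Bm0 : 0 ≤ Bm
  ε0 : 0 < ε
  d2 : 2 ≤ d
  η0 : 0 < η
  kK : 0 < k.K
  near : ∃ u : ℕ, k.u ≤ u ∧ K1 * PayM_.Cq * 4 ^ u ≤ k.K
  l1 : (k.l0 : ℝ) + (max P.g0 P.w0 + 1) ≤ k.l1
  l2 : (g₀ : ℤ) + d ≤ k.l1
  two : m + 1 < P.h → ∃ e : ℝ, NrK2 P g₀ m K1 Pm Bm q ε d η k e
  one : m + 1 = P.h → NrK1 P g₀ m K1 Pm Bm q ε k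

/-- **`NrB` at the thin vertices of the world**, for all the allowed labels. -/
theorem RFct.nrB (h : RFct P G s S I T K1) (ht : TFct P G S I sg j m Bm) {g₀ : ℕ}
    {Pm q ε η : ℝ} {d : ℕ} {k : Cst} (hk : NrK P g₀ m K1 Pm Bm q ε d η k) (hmh : m < P.h)
    (hinj : ∀ c < j, ∀ c' < j, sg c = sg c' → c = c') (hsg : ∀ c < j, sg c ∈ T) {t : V}
    (htW : t ∈ I.W) (hth : fs P G I t < 1)
    (col : ∃ f : V → Fin P.kap, ∀ u w, G.Adj t u → G.Adj t w → G.Adj u w → f u ≠ f w) :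
    NrB G m j η k (Finset.univ.filter fun l => LabC P G S I T sg j m k.l0 ε q d l) hub
      (wB P G S I T) (hB P G S I sg j) (HB P sg j) t := by
  obtain ⟨f, hf⟩ := col
  obtain ⟨O, hO⟩ : ∃ O : Finset (Ce P V), O = Finset.univ.filter fun l =>
    LabC P G S I T sg j m k.l0 ε q d l ∧ rho P G S I T l ≠ 0 := ⟨_, rfl⟩
  have hO1 : ∀ l ∈ O, LabC P G S I T sg j m k.l0 ε q d l ∧ rho P G S I T l ≠ 0 := by
    intro l hl
    rw [hO] at hl
    exact (Finset.mem_filter.1 hl).2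
  have hst := h.stB (Bm := Bm) hk.g hk.xiD hk.q0 hk.qq hk.Pm1 hk.PmD hk.Bm0 hinj hsg hO1
  refine nrB_ext (O' := O) ?_ ?_ ?_
  · intro l hl
    exact Finset.mem_filter.2 ⟨Finset.mem_univ _, (hO1 l hl).1⟩
  · intro l hl hl'
    have h1 : rho P G S I T l = 0 := by
      by_contra h2
      exact hl' (by
        rw [hO]
        exact Finset.mem_filter.2 ⟨Finset.mem_univ _, (Finset.mem_filter.1 hl).2, h2⟩)
    unfold wB
    rw [h1, zero_div]
  · have nr1 : ∑ o ∈ O with G.Adj (hub o) t ∧ hB P G S I sg j j t ≤ HB P sg j j o + k.u,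
        wB P G S I T o ≤ k.K := by
      obtain ⟨u, hu, hK⟩ := hk.near
      exact (h.cellL hk.g O).nr1 (g := P.lG + P.w0 + 3) (s := j) (hV := hB P G S I sg j)
        (HH := HB P sg j) (fun x => by
          unfold hB
          rw [if_pos rfl]
          rfl) (fun l => HB_self l) hu hK t
    have htg : ∀ S' ⊆ range j, S'.card = m → TgB P G S I sg m Bm S' t :=
      fun S' h1 h2 => ht.tgB hinj h1 h2 htW hth
    rcases Nat.lt_or_eq_of_le (Nat.succ_le_of_lt hmh) with h1 | h1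
    · obtain ⟨e, H⟩ := hk.two h1
      have hl : k.l0 - 1 ≤ k.l0 := by omega
      have hd : 1 ≤ d := le_trans (by norm_num) hk.d2
      refine hst.nrB_A h1 hf htg ?_ H.srv H.Z1 hk.kK hk.η0 hd hk.ε0.le H.R1 H.e1 H.e2 H.e3 H.e4
        (H.e5 _ hl) (H.e6 _ hl) (H.e7 _ hl) hk.l1 hk.l2 nr1
      intro S' hS' hSm l hl q' mu a1 a2 a3 a4 a5 a6
      have h2 : (img P sg S').card = m := (card_img P sg j hinj hS').trans hSm
      exact h.best.sv_opt T (img P sg S') l q' mu a1 a2 a3 a4 a5 (by rw [h2]; exact a6)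
    · have H := hk.one h1
      exact hst.nrB_1 h1 hf H.M1 htg hk.kK.le hk.η0 hk.ε0.le H.R1κ H.e2' H.e4'
        (H.e6' _ (by omega)) hk.l1 hk.l2 nr1

end

end Pool.Agent.Lib.GSX
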