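import Pool.Agent.Lib.GSX.RecP
import Pool.Agent.Lib.GSX.BDef
import Pool.Agent.Lib.TCW.BX

/-!
# The record of one stage of the pool is a record `RecB`

The weights of the cells near a vertex `x` in a window of the scale are bounded by the root
equation, the weights of the nodes near a hub in a window are bounded by the level masses.
-/

set_option autoImplicit false

namespace Pool.Agent.Lib.GSX

open Finset Classical
open RecP_
open Pool.Agent.Lib.GSLE (kp cl hc win cells kp_nonneg kp_of_le kp_of_ge win_nonneg win_eq_one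
  cl_nonneg)
open Pool.Agent.Lib.TCW (RecB Cst)

namespace BRec_

theorem div_lv {a : ℝ} (ha : 0 < a) (i : ℕ) : a / lv i = (2 : ℝ) ^ (Real.logb 2 a + i) := by
  rw [Real.rpow_add two_pos, Real.rpow_logb two_pos (by norm_num) ha, Real.rpow_natCast]
  unfold lv
  rw [one_div, inv_pow, div_inv_eq_mul]

theorem kp_ge {a : ℝ} (ha : 0 < a) {i : ℕ} {g : ℝ} (h : |Real.logb 2 a + i| ≤ g) :
    (2 : ℝ) ^ (-(g / 2)) ≤ kp (a / lv i) := by
  rw [div_lv ha]
  obtain ⟨u, hu⟩ : ∃ u, u = Real.logb 2 a + (i : ℝ) := ⟨_, rfl⟩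
  rw [← hu] at h ⊢
  obtain ⟨h1, h2⟩ := abs_le.1 h
  rcases le_total u 0 with h3 | h3
  · rw [kp_of_le (Real.rpow_le_one_of_one_le_of_nonpos (by norm_num) h3), Real.sqrt_eq_rpow,
      ← Real.rpow_mul (by norm_num)]
    exact Real.rpow_le_rpow_of_exponent_le (by norm_num) (by linarith)
  · rw [kp_of_ge (Real.one_le_rpow (by norm_num) h3), Real.sqrt_eq_rpow,
      ← Real.rpow_mul (by norm_num), one_div, ← Real.rpow_neg (by norm_num)]
    exact Real.rpow_le_rpow_of_exponent_le (by norm_num) (by linarith)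

theorem inv_lv_le {a : ℝ} (ha : 0 < a) {i : ℕ} {g : ℝ} (h : |Real.logb 2 a + i| ≤ g) :
    1 / lv i ≤ (2 : ℝ) ^ g / a := by
  have h1 := div_lv ha i
  have h2 : a / lv i ≤ (2 : ℝ) ^ g := by
    rw [h1]
    exact Real.rpow_le_rpow_of_exponent_le (by norm_num) (abs_le.1 h).2
  rw [le_div_iff₀ ha, one_div, inv_mul_eq_div]
  exact h2

section

variable {V : Type} [Fintype V] {P : Cn} {G : SimpleGraph V} {S : Sta P V} {I : Inp P V}
  {T : Finset (Fin P.N)} {sg : ℕ → Fin P.N} {j : ℕ}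

/-- The main labels near `x` in a window. -/
theorem near_main (he : 0 < P.e0) (hpi : ∀ l, 0 ≤ I.pi l) (x : V) (g : ℝ) :
    ∑ l : Ml P V with G.Adj x l.1 ∧ l.1 ∈ I.W ∧ |hs P G I x + (l.2 : ℕ)| ≤ g,
      1 / lv l.2 * I.pi l ≤ (2 : ℝ) ^ (3 * g / 2) := by
  have ha := al_pos (P := P) (G := G) (I := I) x
  have hc0 : 0 ≤ (2 : ℝ) ^ (3 * g / 2) / al P G I x := by positivity
  have h1 : ∀ l : Ml P V, G.Adj x l.1 ∧ l.1 ∈ I.W ∧ |hs P G I x + (l.2 : ℕ)| ≤ g →
      1 / lv l.2 * I.pi l ≤ (2 : ℝ) ^ (3 * g / 2) / al P G I x *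
        (inc G I.W x l * I.pi l * kp (al P G I x / lv l.2)) := by
    rintro l ⟨h1, h2, h3⟩
    have h4 : inc G I.W x l = 1 := if_pos ⟨h1, h2⟩
    have h5 := kp_ge ha (i := (l.2 : ℕ)) h3
    have h6 := inv_lv_le ha (i := (l.2 : ℕ)) h3
    have h7 : (1 : ℝ) ≤ (2 : ℝ) ^ (g / 2) * kp (al P G I x / lv l.2) := by
      calc (1 : ℝ) = (2 : ℝ) ^ (g / 2) * (2 : ℝ) ^ (-(g / 2)) := by
            rw [← Real.rpow_add two_pos, add_neg_cancel, Real.rpow_zero]
        _ ≤ _ := mul_le_mul_of_nonneg_left h5 (by positivity)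
    rw [h4, one_mul]
    calc 1 / lv l.2 * I.pi l ≤ (2 : ℝ) ^ g / al P G I x * I.pi l :=
          mul_le_mul_of_nonneg_right h6 (hpi l)
      _ ≤ (2 : ℝ) ^ g / al P G I x * I.pi l *
          ((2 : ℝ) ^ (g / 2) * kp (al P G I x / lv l.2)) :=
          le_mul_of_one_le_right (mul_nonneg (by positivity) (hpi l)) h7
      _ = (2 : ℝ) ^ (3 * g / 2) / al P G I x * (I.pi l * kp (al P G I x / lv l.2)) := by
          have h8 : (2 : ℝ) ^ (3 * g / 2) = (2 : ℝ) ^ g * (2 : ℝ) ^ (g / 2) := by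
            rw [← Real.rpow_add two_pos]
            congr 1
            ring
          rw [h8]
          ring
  calc ∑ l : Ml P V with G.Adj x l.1 ∧ l.1 ∈ I.W ∧ |hs P G I x + (l.2 : ℕ)| ≤ g,
        1 / lv l.2 * I.pi l
      ≤ ∑ l : Ml P V with G.Adj x l.1 ∧ l.1 ∈ I.W ∧ |hs P G I x + (l.2 : ℕ)| ≤ g,
        (2 : ℝ) ^ (3 * g / 2) / al P G I x *
          (inc G I.W x l * I.pi l * kp (al P G I x / lv l.2)) :=
        Finset.sum_le_sum fun l hl => h1 l (Finset.mem_filter.1 hl).2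
    _ ≤ ∑ l : Ml P V, (2 : ℝ) ^ (3 * g / 2) / al P G I x *
          (inc G I.W x l * I.pi l * kp (al P G I x / lv l.2)) :=
        Finset.sum_le_sum_of_subset_of_nonneg (Finset.filter_subset _ _) fun l _ _ =>
          mul_nonneg hc0 (mul_nonneg (mul_nonneg (inc_nonneg _ _ _) (hpi l)) (kp_nonneg _))
    _ = (2 : ℝ) ^ (3 * g / 2) / al P G I x * (al P G I x - P.e0) := by
        rw [← Finset.mul_sum]
        have h2 := al_eq (G := G) he hpi x
        congr 1
        linarith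
    _ ≤ (2 : ℝ) ^ (3 * g / 2) / al P G I x * al P G I x :=
        mul_le_mul_of_nonneg_left (by linarith) hc0
    _ = (2 : ℝ) ^ (3 * g / 2) := div_mul_cancel₀ _ ha.ne'

/-- The hypotheses on the record: bounded main own masses and level masses. -/
structure Bdd (P : Cn) (G : SimpleGraph V) (S : Sta P V) (I : Inp P V) (T : Finset (Fin P.N))
    (K Dm : ℝ) : Prop where
  e0 : 0 < P.e0
  n3 : ∀ x, 0 ≤ I.n3 x
  pi : ∀ l, 0 ≤ I.pi l
  pi1 : ∑ l, I.pi l ≤ 1
  hlo : ∀ c ∈ T, ∀ z, 1 - (P.I0 : ℝ) ≤ ht P S c z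
  hhi : ∀ c ∈ T, ∀ z, ht P S c z ≤ 1
  lev : ∀ x, I.n3 x ≠ 0 → ∃ k : Fin (P.I0 + 1), |hs P G I x + (k : ℕ)| ≤ 1
  K0 : 0 ≤ K
  Db : ∀ b ∈ I.W, ∀ k, Db P G I I.n3 k b ≤ K
  Dm0 : 0 ≤ Dm
  Dm : ∀ l, ∑ z, I.n3 z / al P G I z * kk P G I P.g0 z l ≤ Dm

variable {K Dm : ℝ}

theorem wB_nonneg (B : Bdd P G S I T K Dm) (l : Ce P V) : 0 ≤ wB P G S I T l :=
  div_nonneg (rho_nonneg B.n3 B.pi T l) (lv_pos _).le

theorem rB_nonneg (B : Bdd P G S I T K Dm) (x : V) : 0 ≤ rB P G I x :=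
  div_nonneg (B.n3 x) (al_pos x).le

/-- The cells near `x` in a window of the scale. -/
theorem near_w (B : Bdd P G S I T K Dm) (x : V) (g : ℝ) (p : Ce P V → Prop)
    (hp : ∀ l, p l → G.Adj x (hub l) ∧ hub l ∈ I.W ∧ |hs P G I x + (sca l : ℕ)| ≤ g) :
    ∑ l : Ce P V with p l, wB P G S I T l ≤ Dm * (2 : ℝ) ^ (3 * g / 2) := by
  have h1 := GSLE.sum_rhoC_le (J := P.I0) (h0 := 1) (h := ht P S) (g := P.lG + P.w0 + 3) (S := T)
    (n := I.n3) (a := al P G I) (π := I.pi) (k := kk P G I P.g0) (y := Prod.fst) B.n3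
    (fun x => al_pos x) B.pi (fun _ _ => kk_nonneg _ _ _)
    (fun c hc z => by
      have := B.hlo c hc z
      push_cast
      exact this)
    (fun c hc z => by
      have := B.hhi c hc z
      push_cast
      exact this) B.Dm0 (fun l : Ml P V => 1 / lv l.2)
    (fun l => div_nonneg zero_le_one (lv_pos _).le)
    (Finset.univ.filter p) (fun l _ => B.Dm l.1)
    (Finset.univ.filter fun l : Ml P V => G.Adj x l.1 ∧ l.1 ∈ I.W ∧
      |hs P G I x + (l.2 : ℕ)| ≤ g)
    (fun l hl => Finset.mem_filter.2 ⟨Finset.mem_univ _, hp l (Finset.mem_filter.1 hl).2⟩)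
  refine le_trans (le_of_eq (Finset.sum_congr rfl fun l _ => ?_))
    (h1.trans (mul_le_mul_of_nonneg_left (near_main B.e0 B.pi x g) B.Dm0))
  unfold wB rho sca
  rw [one_div, inv_mul_eq_div]

/-- The nodes near a vertex `y` of the world in a window of the scale. -/
theorem near_r (B : Bdd P G S I T K Dm) {y : V} (hy : y ∈ I.W) (i g : ℕ) (p : V → Prop)
    (hp : ∀ x, p x → G.Adj x y ∧ |hs P G I x + (i : ℕ)| ≤ g) :
    ∑ x with p x, rB P G I x ≤ (2 * g + 3) * K := by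
  -- the levels
  obtain ⟨L, hL⟩ : ∃ L : Finset (Fin (P.I0 + 1)),
      L = Finset.univ.filter fun k : Fin (P.I0 + 1) =>
        (k : ℕ) ≤ i + g + 1 ∧ i ≤ (k : ℕ) + g + 1 := ⟨_, rfl⟩
  have hcard : (L.card : ℝ) ≤ 2 * g + 3 := by
    have h1 : L.card ≤ (Finset.Icc (i - (g + 1)) (i + (g + 1))).card := by
      refine Finset.card_le_card_of_injOn (fun k => (k : ℕ)) (fun k hk => ?_) fun a _ b _ hab =>
        Fin.ext hab
      rw [hL] at hk
      have hk' := (Finset.mem_filter.1 hk).2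
      simp only [Finset.coe_Icc, Set.mem_Icc]
      omega
    rw [Nat.card_Icc] at h1
    have h2 : L.card ≤ 2 * g + 3 := by omega
    exact_mod_cast h2
  have h0 : ∀ k x, 0 ≤ I.n3 x / al P G I x * win 1 (hs P G I x + ((k : Fin (P.I0 + 1)) : ℕ)) *
      cl G x y := fun k x =>
    mul_nonneg (mul_nonneg (rB_nonneg B x) (win_nonneg _ _)) (cl_nonneg _ _ _)
  calc ∑ x with p x, rB P G I x
      ≤ ∑ x with p x, ∑ k ∈ L, I.n3 x / al P G I x *
          win 1 (hs P G I x + ((k : Fin (P.I0 + 1)) : ℕ)) * cl G x y := by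
        refine Finset.sum_le_sum fun x hx => ?_
        by_cases hn : I.n3 x = 0
        · unfold rB
          rw [hn, zero_div]
          exact Finset.sum_nonneg fun k _ => by rw [zero_mul, zero_mul]
        obtain ⟨k, hk⟩ := B.lev x hn
        obtain ⟨h1, h2⟩ := hp x (Finset.mem_filter.1 hx).2
        have hkL : k ∈ L := by
          rw [hL, Finset.mem_filter]
          rw [abs_le] at hk h2
          have h3 : ((k : ℕ) : ℝ) ≤ ((i + g + 1 : ℕ) : ℝ) := by
            push_cast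
            linarith [hk.2, h2.1]
          have h4 : (i : ℝ) ≤ (((k : ℕ) + g + 1 : ℕ) : ℝ) := by
            push_cast
            linarith [hk.1, h2.2]
          exact ⟨Finset.mem_univ _, by exact_mod_cast h3, by exact_mod_cast h4⟩
        refine le_trans (le_of_eq ?_) (Finset.single_le_sum (f := fun k : Fin (P.I0 + 1) =>
          I.n3 x / al P G I x * win 1 (hs P G I x + ((k : Fin (P.I0 + 1)) : ℕ)) * cl G x y)
          (fun k _ => h0 k x) hkL)
        rw [win_eq_one hk]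
        unfold cl rB
        rw [if_pos (Or.inr h1), mul_one, mul_one]
    _ ≤ ∑ x, ∑ k ∈ L, I.n3 x / al P G I x *
          win 1 (hs P G I x + ((k : Fin (P.I0 + 1)) : ℕ)) * cl G x y :=
        Finset.sum_le_sum_of_subset_of_nonneg (Finset.filter_subset _ _) fun x _ _ =>
          Finset.sum_nonneg fun k _ => h0 k x
    _ = ∑ k ∈ L, GSX.Db P G I I.n3 k y := by
        rw [Finset.sum_comm]
        rfl
    _ ≤ ∑ _k ∈ L, K := Finset.sum_le_sum fun k _ => B.Db y hy k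
    _ = L.card * K := by rw [Finset.sum_const, nsmul_eq_mul]
    _ ≤ (2 * g + 3) * K := mul_le_mul_of_nonneg_right hcard B.K0

/-- The total weight of the nodes. -/
theorem total_r (B : Bdd P G S I T K Dm) (As : Finset V) :
    ∑ x ∈ As, (2 : ℝ) ^ (hB P G S I sg j j x) * rB P G I x ≤ ∑ x, I.n3 x := by
  refine le_trans (le_of_eq (Finset.sum_congr rfl fun x _ => ?_))
    (Finset.sum_le_sum_of_subset_of_nonneg (Finset.subset_univ As) fun x _ _ => B.n3 x)
  have ha := al_pos (P := P) (G := G) (I := I) x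
  unfold hB rB hs
  rw [if_pos rfl, Real.rpow_logb two_pos (by norm_num) ha, mul_div_cancel₀ _ ha.ne']

theorem zpow_wB (l : Ce P V) : (2 : ℝ) ^ (HB P sg j j l) * wB P G S I T l = rho P G S I T l := by
  unfold HB wB sca lv
  rw [if_pos rfl, zpow_neg, zpow_natCast, one_div, inv_pow, div_inv_eq_mul]
  have h : (2 : ℝ) ^ ((l.1.2 : Fin (P.I0 + 1)) : ℕ) ≠ 0 := by positivity
  field_simp

/-- The total weight of the cells. -/
theorem total_w (B : Bdd P G S I T K Dm) (O : Finset (Ce P V)) :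
    ∑ l ∈ O, (2 : ℝ) ^ (HB P sg j j l) * wB P G S I T l ≤ Dm := by
  have h1 := GSLE.sum_rhoC_le (J := P.I0) (h0 := 1) (h := ht P S) (g := P.lG + P.w0 + 3) (S := T)
    (n := I.n3) (a := al P G I) (π := I.pi) (k := kk P G I P.g0) (y := Prod.fst) B.n3
    (fun x => al_pos x) B.pi (fun _ _ => kk_nonneg _ _ _)
    (fun c hc z => by
      have := B.hlo c hc z
      push_cast
      exact this)
    (fun c hc z => by
      have := B.hhi c hc z
      push_cast
      exact this) B.Dm0 (fun _ : Ml P V => 1)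
    (fun _ => zero_le_one) O (fun l _ => B.Dm l.1) Finset.univ (fun l _ => Finset.mem_univ _)
  refine le_trans (le_of_eq (Finset.sum_congr rfl fun l _ => ?_))
    (h1.trans ((mul_le_mul_of_nonneg_left (le_trans (le_of_eq ?_) B.pi1) B.Dm0).trans
      (mul_one Dm).le))
  · rw [zpow_wB]
    unfold rho
    rw [one_mul]
  · exact Finset.sum_congr rfl fun l _ => one_mul _

/-- The window of the own scale in terms of the heights `hB`, `HB`. -/
theorem abs_hB (x : V) (l : Ce P V) :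
    |hB P G S I sg j j x - HB P sg j j l| = |hs P G I x + (sca l : ℕ)| := by
  unfold hB HB sca
  rw [if_pos rfl, if_pos rfl]
  push_cast
  rw [sub_neg_eq_add]

/-- The sums over the labels near `x`, in the notation of the records. -/
theorem sum_w (B : Bdd P G S I T K Dm) (x : V) (v : ℕ) (p : Ce P V → Prop)
    (hp : ∀ l, p l → G.Adj x (hub l) ∧ hub l ∈ I.W ∧
      |hB P G S I sg j j x - HB P sg j j l| ≤ v) :
    ∑ l : Ce P V with p l, wB P G S I T l ≤ Dm * (2 : ℝ) ^ (3 * (v : ℝ) / 2) := by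
  refine near_w B x v p fun l hl => ?_
  obtain ⟨h1, h2, h3⟩ := hp l hl
  rw [abs_hB] at h3
  exact ⟨h1, h2, h3⟩

/-- The sums over the nodes near the hub of `l`, in the notation of the records. -/
theorem sum_r (B : Bdd P G S I T K Dm) {l : Ce P V} (hl : hub l ∈ I.W) (v : ℕ) (p : V → Prop)
    (hp : ∀ x, p x → G.Adj x (hub l) ∧ |hB P G S I sg j j x - HB P sg j j l| ≤ v) :
    ∑ x with p x, rB P G I x ≤ (2 * v + 3) * K := by
  refine near_r B hl (sca l) v p fun x hx => ?_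
  obtain ⟨h1, h2⟩ := hp x hx
  rw [abs_hB] at h2
  exact ⟨h1, h2⟩

/-- The near sum of the labels, in the form of `stTypO`. -/
theorem near_wO (B : Bdd P G S I T K Dm) (O : Finset (Ce P V)) (hO : ∀ l ∈ O, hub l ∈ I.W)
    (x : V) (v : ℕ) :
    ∑ l ∈ O with G.Adj x (hub l) ∧ |hB P G S I sg j j x - HB P sg j j l| ≤ (v : ℝ),
      wB P G S I T l ≤ Dm * (2 : ℝ) ^ (3 * (v : ℝ) / 2) := by
  refine le_trans (le_of_eq ?_) (sum_w (sg := sg) (j := j) B x v
    (fun l => l ∈ O ∧ G.Adj x (hub l) ∧ |hB P G S I sg j j x - HB P sg j j l| ≤ (v : ℝ))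
    fun l hl => ⟨hl.2.1, hO l hl.1, hl.2.2⟩)
  congr 1
  ext l
  simp only [Finset.mem_filter, Finset.mem_univ, true_and]

/-- The near sum of the nodes, in the form of `stTypO`. -/
theorem near_rO (B : Bdd P G S I T K Dm) (As : Finset V) {l : Ce P V} (hl : hub l ∈ I.W)
    (v : ℕ) :
    ∑ x ∈ As with G.Adj x (hub l) ∧ |hB P G S I sg j j x - HB P sg j j l| ≤ (v : ℝ),
      rB P G I x ≤ (2 * v + 3) * K := by
  refine le_trans (le_of_eq ?_) (sum_r (sg := sg) (j := j) B hl v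
    (fun x => x ∈ As ∧ G.Adj x (hub l) ∧ |hB P G S I sg j j x - HB P sg j j l| ≤ (v : ℝ))
    fun x hx => ⟨hx.2.1, hx.2.2⟩)
  congr 1
  ext x
  simp only [Finset.mem_filter, Finset.mem_univ, true_and]

/-- The own pairs of the cells lie in the windows. -/
theorem own_win {x : V} {l : Ce P V} (h : CS P G S I T x l ≠ 0) (hj : ∀ c < j, sg c ∈ T) :
    G.Adj x (hub l) ∧ hub l ∈ I.W ∧ |hB P G S I sg j j x - HB P sg j j l| < P.g0 + 1 ∧
      ∀ c < j, |hB P G S I sg j c x - HB P sg j c l| < P.w0 + 1 := by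
  obtain ⟨h1, h2, -⟩ := CS_ne h
  obtain ⟨h3, h4, h5⟩ := kk_ne h1
  refine ⟨h3, h4, ?_, fun c hc => ?_⟩
  · rw [abs_hB]
    exact h5
  · unfold hB HB
    rw [if_neg hc.ne, if_neg hc.ne]
    exact h2 (sg c) (hj c hc)

end

end BRec_

open BRec_

variable {V : Type} [Fintype V] {P : Cn} {G : SimpleGraph V} {S : Sta P V} {I : Inp P V}
  {T : Finset (Fin P.N)} {sg : ℕ → Fin P.N} {j : ℕ} {K Dm : ℝ}

/-- The record of one stage of the pool is a record `RecB`, for every own incidence in the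
windows. -/
theorem recB_rec (B : Bdd P G S I T K Dm) {v0 : ℕ} {k : Cst} {K0 : ℝ}
    (hK1 : Dm * (2 : ℝ) ^ (3 * (v0 : ℝ) / 2) ≤ K0) (hK2 : (2 * v0 + 3) * K ≤ K0)
    (As : Finset V) (O : Finset (Ce P V)) (hO : ∀ l ∈ O, hub l ∈ I.W) (E : V → Ce P V → Prop)
    (hE : ∀ x ∈ As, ∀ l ∈ O, E x l → G.Adj x (hub l) ∧
      |hB P G S I sg j j x - HB P sg j j l| ≤ v0 ∧
      ∀ c < j, |hB P G S I sg j c x - HB P sg j c l| ≤ k.w0) :
    RecB G j v0 K0 k As O hub E (rB P G I) (wB P G S I T) (hB P G S I sg j) (HB P sg j) where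
  r0 := rB_nonneg B
  w0 := wB_nonneg B
  wE x hx := by
    refine le_trans (le_trans (le_of_eq ?_) (sum_w (sg := sg) (j := j) B x v0
      (fun l => l ∈ O ∧ E x l) fun l hl => ?_)) hK1
    · congr 1
      ext l
      simp only [Finset.mem_filter, Finset.mem_univ, true_and]
    · have h1 := hE x hx l hl.1 hl.2
      exact ⟨h1.1, hO l hl.1, h1.2.1⟩
  rE l hl := by
    refine le_trans (le_trans (le_of_eq ?_) (sum_r (sg := sg) (j := j) B (hO l hl) v0
      (fun x => x ∈ As ∧ E x l) fun x hx => ?_)) hK2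
    · congr 1
      ext x
      simp only [Finset.mem_filter, Finset.mem_univ, true_and]
    · have h1 := hE x hx.1 l hl hx.2
      exact ⟨h1.1, h1.2.1⟩
  adj x hx l hl h := (hE x hx l hl h).1
  own x hx l hl h := (hE x hx l hl h).2.1
  low x hx l hl h := (hE x hx l hl h).2.2

/-- The record of one stage with the own pairs of the cells. -/
theorem recB_own (B : Bdd P G S I T K Dm) {v0 : ℕ} {k : Cst} {K0 : ℝ}
    (hK1 : Dm * (2 : ℝ) ^ (3 * (v0 : ℝ) / 2) ≤ K0) (hK2 : (2 * v0 + 3) * K ≤ K0)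
    (hg : P.g0 + 1 ≤ v0) (hw : P.w0 + 1 ≤ k.w0) (hj : ∀ c < j, sg c ∈ T)
    (As : Finset V) (O : Finset (Ce P V)) (hO : ∀ l ∈ O, hub l ∈ I.W) (E : V → Ce P V → Prop)
    (hE : ∀ x ∈ As, ∀ l ∈ O, E x l → CS P G S I T x l ≠ 0) :
    RecB G j v0 K0 k As O hub E (rB P G I) (wB P G S I T) (hB P G S I sg j) (HB P sg j) := by
  refine recB_rec B hK1 hK2 As O hO E fun x hx l hl h => ?_
  obtain ⟨h1, -, h3, h4⟩ := own_win (hE x hx l hl h) hj
  exact ⟨h1, (h3.le.trans hg), fun c hc => ((h4 c hc).le.trans hw)⟩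

end Pool.Agent.Lib.GSX
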