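import Pool.Agent.Lib.GSX.BTyp
import Pool.Agent.Lib.GSX.B5

/-!
# Typical nodes have allowed self-linked cells
-/

set_option autoImplicit false

namespace Pool.Agent.Lib.GSX

open Finset Classical
open Pool.Agent.Lib.GSR3 (Tree)
open Pool.Agent.Lib.FGF (Frac)
open Pool.Agent.Lib.GSLE (hc cells)
open RecP_

/-- **Typical nodes have allowed self-linked cells.**  `Y` is a set of vertices on the side `YES` of
the item `T` at which the served shares are small. -/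
theorem btyp (M ht' : ℕ) (F K C1 tau : ℝ) (g0 w0 N : ℕ) (hM : 1 ≤ M) (hF : 1 ≤ F) (hK : 1 ≤ K)
    (hC : 0 < C1) (htau : 0 < tau) : ∃ ek : ℝ, 0 < ek ∧
    ∀ (P : Cn) (V : Type) [Fintype V] (G : SimpleGraph V) (S : Sta P V) (I : Inp P V)
      (T : Finset (Fin P.N)) (sg : ℕ → Fin P.N) (j m : ℕ) (l0 : ℤ) (ε q : ℝ) (d : ℕ)
      (Pm th : ℝ) (Y : Finset V),
      Frac G F → (∀ φ : List (Fin M) → V, ¬ Tree G ht' M φ) →
      CPos P → (∀ x, 0 ≤ I.n3 x) → (∀ l, 0 ≤ I.pi l) → ∑ x, I.n3 x ≤ 1 →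
      2 / P.eps1 ≤ C1 → P.g0 + 1 ≤ g0 → P.w0 + 1 ≤ w0 → P.N ≤ N →
      (2 : ℝ) ^ j * (2 * P.cA) ≤ 1 / 4 →
      8 * (P.del * K) + 8 * (Pm * th) ≤ tau / 2 → 0 ≤ Pm →
      (∀ c < j, ∀ c' < j, sg c = sg c' → c = c') → (∀ c < j, sg c ∈ T) →
      (∀ x, ∑ l with LabO P G S I T sg j m l0 ε q d l ∧ G.Adj x (hub l) ∧
        |hs P G I x + (sca l : ℕ)| ≤ (g0 + 2 : ℝ), wB P G S I T l ≤ K) →
      (∀ l, LabO P G S I T sg j m l0 ε q d l → ∑ x with G.Adj x (hub l) ∧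
        |hs P G I x + (sca l : ℕ)| ≤ (g0 + 2 : ℝ), rB P G I x ≤ K) →
      (∑ l, rho P G S I T l ≤ K) →
      (∀ l, hub l ∈ I.W → DD P G S I T l ≤ Pm) →
      (∑ l with LabT P G S I T sg j m l0 ε q d l, rho P G S I T l ≤ th) →
      (∀ x ∈ Y, I.n3 x ≠ 0 → P.eps1 * al P G I x ≤ AS P G S I T x ∧
        ∀ S' ⊆ range j, S'.card = m →
          ∑ l, wA P G S I T l x * sv P G S I T (img P sg S') l ≤ 2 * P.cA) →
        ∑ x ∈ Y with ¬ Lnk P G S I T (LabO P G S I T sg j m l0 ε q d) ek x, I.n3 x ≤ tau := by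
  obtain ⟨ek, hek, hb5⟩ := b5 M ht' F K C1 (1 / 2) (tau / 2) g0 w0 N hM hF hK hC (by norm_num)
    (by linarith)
  refine ⟨ek, hek, ?_⟩
  intro P V _ G S I T sg j m l0 ε q d Pm th Y hFr hT hP hn hI hn1 hC1 hg0 hw0 hN hcA hsm hPm0
    hinj hsg hnw hnr hR hPm hth hY
  have hmw : ∑ l with LabO P G S I T sg j m l0 ε q d l, rho P G S I T l ≤ K :=
    (Finset.sum_le_sum_of_subset_of_nonneg (Finset.filter_subset _ _) fun l _ _ =>
      rho_nonneg hn hI T l).trans hR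
  have h1 := hb5 P V G S I T sg j (LabO P G S I T sg j m l0 ε q d) hFr hT hP.eps1 hC1 hg0 hw0
    hN hn hI hn1 hsg (fun l hl => hl.cel) hnw hnr hmw
  have h2 := btyp_share (m := m) (l0 := l0) (ε := ε) (q := q) (d := d) hP hn hI hinj hcA hR hPm
    hPm0 hth Y hY
  have h3 : ∑ x ∈ Y with ¬ Lnk P G S I T (LabO P G S I T sg j m l0 ε q d) ek x, I.n3 x ≤
      ∑ x ∈ Y with ¬ 1 / 2 ≤ ∑ l with LabO P G S I T sg j m l0 ε q d l, wA P G S I T l x,
        I.n3 x +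
      ∑ x with 1 / 2 ≤ (∑ l with LabO P G S I T sg j m l0 ε q d l, wA P G S I T l x) ∧
        ¬ Lnk P G S I T (LabO P G S I T sg j m l0 ε q d) ek x, I.n3 x := by
    rw [← Finset.sum_union_inter]
    refine le_trans (Finset.sum_le_sum_of_subset_of_nonneg ?_ fun x _ _ => hn x)
      (le_add_of_nonneg_right (Finset.sum_nonneg fun x _ => hn x))
    intro x hx
    rw [Finset.mem_filter] at hx
    rw [Finset.mem_union, Finset.mem_filter, Finset.mem_filter]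
    by_cases h4 : 1 / 2 ≤ ∑ l with LabO P G S I T sg j m l0 ε q d l, wA P G S I T l x
    · exact Or.inr ⟨Finset.mem_univ _, h4, hx.2⟩
    · exact Or.inl ⟨hx.1, h4⟩
  linarith

end Pool.Agent.Lib.GSX
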