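import Pool.Agent.Lib.GSX.KTools
import Pool.Agent.Lib.GSX.BTypL
import Pool.Agent.Lib.GSLE.FanE
import Pool.Agent.Lib.GSLE.BrkE

/-!
# The constants of the labels of the pool stages (block B)

Order: `K0 C1` (own masses, given) | `ek`, `ex` (self-linked incidences) | `eta` (windows) | `k.w0` |
`k.l0`, `k.u` | `K1`, `k.K` | `eth` | `d` | `k.R1`, `k.l1` | `xi`.  The inequalities are those of
`BTypL.lean`, `NrMain.lean`, `XBin.lean`.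
-/

set_option autoImplicit false

namespace Pool.Agent.Lib.GSX

open Filter Topology Finset Classical
open Pool.Agent.Lib.GSR3 (Tree)
open Pool.Agent.Lib.FGF (Frac)
open Pool.Agent.Lib.TCW (Cst)
open Pool.Agent.Lib.GSLE (Cf brw brw_zero brw_continuous brw_mono brw_nonneg cells)

/-! ### The charges -/

theorem tendsto_two_sub (w : ℝ) : Tendsto (fun n : ℕ => (2 : ℝ) ^ (w - n)) atTop (𝓝 0) := by
  have h1 : Tendsto (fun n : ℕ => w - (n : ℝ)) atTop atBot :=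
    tendsto_atBot_add_const_left _ w (tendsto_neg_atTop_atBot.comp tendsto_natCast_atTop_atTop)
  exact (tendsto_rpow_atBot_of_base_gt_one 2 one_lt_two).comp h1

theorem tendsto_brw (w : ℝ) :
    Tendsto (fun n : ℕ => brw (1 / 4) ((2 : ℝ) ^ (w - n))) atTop (𝓝 0) := by
  have h1 := ((brw_continuous (e := 1 / 4) (by norm_num) (by norm_num)).tendsto 0).comp
    (tendsto_two_sub w)
  rwa [brw_zero (by norm_num)] at h1

/-- The charge of the vertices which are lower by `n` is small. -/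
theorem nt_brw (b w : ℝ) {a : ℝ} (ha : 0 < a) :
    ∀ᶠ n : ℕ in atTop, b * brw (1 / 4) ((2 : ℝ) ^ (w - n)) ≤ a := by
  refine nt_tendsto (f := fun n => b * brw (1 / 4) ((2 : ℝ) ^ (w - n))) ?_ ha
  simpa using (tendsto_brw w).const_mul b

/-- The same for a large real gap. -/
theorem lg_brw (b w : ℝ) {a : ℝ} (ha : 0 < a) :
    ∀ᶠ g : ℝ in atTop, b * brw (1 / 4) ((2 : ℝ) ^ (w - g)) ≤ a := by
  have h1 : Tendsto (fun g : ℝ => w - g) atTop atBot :=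
    tendsto_atBot_add_const_left _ w tendsto_neg_atTop_atBot
  have h2 := ((brw_continuous (e := 1 / 4) (by norm_num) (by norm_num)).tendsto 0).comp
    ((tendsto_rpow_atBot_of_base_gt_one 2 one_lt_two).comp h1)
  rw [brw_zero (by norm_num)] at h2
  refine lg_tendsto (f := fun g => b * brw (1 / 4) ((2 : ℝ) ^ (w - g))) ?_ ha
  simpa using h2.const_mul b

/-- The charges decrease with the gap. -/
theorem brw_gap {b w : ℝ} (hb : 0 ≤ b) {l l' : ℝ} (h : l ≤ l') :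
    b * brw (1 / 4) ((2 : ℝ) ^ (w - l')) ≤ b * brw (1 / 4) ((2 : ℝ) ^ (w - l)) := by
  refine mul_le_mul_of_nonneg_left (brw_mono (by norm_num) (by norm_num) (by positivity) ?_) hb
  exact Real.rpow_le_rpow_of_exponent_le (by norm_num) (by linarith)

/-! ### Self-linked cells with fixed constants -/

/-- The conclusion of `btyp` with the constant `ek`. -/
def BtypC (M ht' : ℕ) (F K C1 tau : ℝ) (g0 w0 N : ℕ) (ek : ℝ) : Prop :=
    ∀ (P : Cn) (V : Type) [Fintype V] (G : SimpleGraph V) (S : Sta P V) (I : Inp P V)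
      (T : Finset (Fin P.N)) (sg : ℕ → Fin P.N) (j m : ℕ) (l0 : ℤ) (ε q : ℝ) (d : ℕ)
      (Pm th : ℝ) (Y : Finset V),
      Frac G F → (∀ φ : List (Fin M) → V, ¬ Tree G ht' M φ) →
      CPos P → (∀ x, 0 ≤ I.n3 x) → (∀ l, 0 ≤ I.pi l) → ∑ x, I.n3 x ≤ 1 →
      2 / P.eps1 ≤ C1 → P.g0 + 1 ≤ g0 → P.w0 + 1 ≤ w0 → P.N ≤ N →
      (2 : ℝ) ^ j * (2 * P.cA) ≤ 1 / 4 →
      8 * (P.del * K) + 8 * (Pm * th) ≤ tau / 2 → 0 ≤ Pm →
      (∀ c < j, ∀ c' < j, sg c = sg c' → c = c') → (∀ c < j, sg c ∈ T) →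
      (∀ x, ∑ l with LabO P G S I T sg j m l0 ε q d l ∧ G.Adj x (hub l) ∧
        |hs P G I x + (sca l : ℕ)| ≤ (g0 + 2 : ℝ), wB P G S I T l ≤ K) →
      (∀ l, LabO P G S I T sg j m l0 ε q d l → ∑ x with G.Adj x (hub l) ∧
        |hs P G I x + (sca l : ℕ)| ≤ (g0 + 2 : ℝ), rB P G I x ≤ K) →
      (∑ l, rho P G S I T l ≤ K) →
      (∀ l, hub l ∈ I.W → DD P G S I T l ≤ Pm) →
      (∑ l with LabT P G S I T sg j m l0 ε q d l, rho P G S I T l ≤ th) →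
      (∀ x ∈ Y, I.n3 x ≠ 0 → P.eps1 * al P G I x ≤ AS P G S I T x ∧
        ∀ S' ⊆ range j, S'.card = m →
          ∑ l, wA P G S I T l x * sv P G S I T (img P sg S') l ≤ 2 * P.cA) →
        ∑ x ∈ Y with ¬ Lnk P G S I T (LabO P G S I T sg j m l0 ε q d) ek x, I.n3 x ≤ tau

theorem exists_btypC (M ht' : ℕ) (F K C1 tau : ℝ) (g0 w0 N : ℕ) (hM : 1 ≤ M) (hF : 1 ≤ F)
    (hK : 1 ≤ K) (hC : 0 < C1) (htau : 0 < tau) :
    ∃ ek : ℝ, 0 < ek ∧ BtypC M ht' F K C1 tau g0 w0 N ek :=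
  btyp M ht' F K C1 tau g0 w0 N hM hF hK hC htau

/-! ### Block B -/

/-- The older constants which enter the block B. -/
structure KBIn where
  /-- depth, arity, colours of the neighbourhoods, number of the stages of the game -/
  h : ℕ
  M : ℕ
  κ : ℕ
  N : ℕ
  /-- the windows `P.g0`, `P.w0`, the gap of the low hubs `P.lG` -/
  g0 : ℝ
  w0 : ℝ
  lG : ℝ
  /-- the naturals above `g0 + 1`, `w0 + 1`, the window of the levels -/
  v0 : ℕ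
  wn : ℕ
  gw : ℕ
  /-- Lemma L: fractional colours, near sums, flux, exceptional mass; `KX` is the bound for the
  near sums in the small set (`K0 < KX`) -/
  F : ℝ
  K0 : ℝ
  KX : ℝ
  C1 : ℝ
  tau : ℝ
  /-- `OwnL`: own sums, `eps1 / 2`, factor of the own laws, near sums -/
  H : ℝ
  θ : ℝ
  B : ℝ
  Bd : ℝ
  /-- own masses of the labels: lower and upper bound -/
  del : ℝ
  Pm : ℝ
  /-- the thick labels: the factor of their weight -/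
  X : ℝ
  /-- the thinness in `UCst`: `ξ` and `d`, the absolute window -/
  xiU : ℝ
  delU : ℝ
  gU : ℝ
  /-- the accuracy of the services, their threshold, the bounds (b) -/
  es : ℕ → ℝ
  dl : ℕ → ℝ
  Bb : ℕ → ℝ
  /-- the windows: `eB m KX ex` -/
  eB : ℕ → ℝ → ℝ → ℝ

/-- The decay rate of the levels. -/
noncomputable def qq : ℝ := √(1 / 2)

theorem qq_pos : 0 < qq := Real.sqrt_pos.2 (by norm_num)

theorem qq_mul : qq * qq = 1 / 2 := Real.mul_self_sqrt (by norm_num)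

theorem qq_lt : qq < 1 := by
  have h1 : qq < √1 := Real.sqrt_lt_sqrt (by norm_num) (by norm_num)
  rwa [Real.sqrt_one] at h1

/-- The hypotheses on the older constants. -/
structure KBIn.Pos (c : KBIn) : Prop where
  M1 : 1 ≤ c.M
  F1 : 1 ≤ c.F
  K0 : 1 ≤ c.K0
  C1 : 0 < c.C1
  tau : 0 < c.tau
  del : 0 < c.del
  Pm : 0 < c.Pm
  xiU : 0 < c.xiU
  delU : 0 < c.delU
  es : ∀ m < c.h, 0 < c.es m
  dl : ∀ m < c.h, 0 < c.dl m
  Bb : ∀ m < c.h, 0 ≤ c.Bb m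
  eB : ∀ m, ∀ K ε : ℝ, 0 < c.eB m K ε

/-- The constants of the block B: `ek` for the self-linked cells, `ex < ek` for the windows, `eta`
the fans, `k` the constants of the windows, `K1 < k.K` the bound for the labels near a target,
`eth` and `d` for the thick labels, `xi` the thinness. -/
structure OkB (c : KBIn) (LK : ℤ → ℝ) (ek ex eta : ℝ) (k : Cst) (K1 eth : ℝ) (d : ℕ) (xi : ℝ) :
    Prop where
  ek0 : 0 < ek
  typ : BtypC c.M c.h c.F c.K0 c.C1 c.tau c.v0 c.wn c.N ek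
  ex0 : 0 < ex
  exk : ex < ek
  eta0 : 0 < eta
  etaB : ∀ m < c.h, eta ≤ c.eB m c.KX ex
  /-- windows -/
  vw : c.v0 ≤ k.w0
  ww : c.wn ≤ k.w0
  wv2 : c.v0 + 2 ≤ k.w0
  l02 : 2 ≤ k.l0
  uw : k.l0 + 6 * k.w0 + 1 ≤ k.u
  /-- `e5`, `e6`, `e7` of `nrB_A`, also for `k.l0 - 1` -/
  e5 : ∀ m < c.h, ∀ l : ℤ, k.l0 - 1 ≤ l →
    c.Bb m * (m * brw (1 / 4) ((2 : ℝ) ^ (c.w0 + 1 - l))) ≤ c.es m
  e6 : ∀ m < c.h, ∀ l : ℤ, k.l0 - 1 ≤ l →
    c.Bb m * (m * brw (1 / 4) ((2 : ℝ) ^ (c.lG + c.w0 + 4 - l))) ≤ c.es m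
  e7 : ∀ m < c.h, ∀ l : ℤ, k.l0 - 1 ≤ l →
    m * brw (1 / 4) ((2 : ℝ) ^ (-(l : ℝ))) ≤ c.dl m / 4
  /-- `e6` of `nrB_1` -/
  e6' : ∀ m < c.h, ∀ l : ℤ, k.l0 - 1 ≤ l →
    c.Bb m * (m * brw (1 / 4) ((2 : ℝ) ^ (c.lG + c.w0 + 4 - l))) < 1 / 2 / c.M
  /-- one scale -/
  K11 : 1 ≤ K1
  K1K : K1 < k.K
  e2 : ∀ m < c.h, c.Bd * (2 ^ c.gw / qq ^ c.gw) / K1 ≤ c.es m
  e2' : c.κ * c.M * (c.Bd * (2 ^ c.gw / qq ^ c.gw)) ≤ K1
  nr1 : LK k.u ≤ K1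
  /-- thick labels -/
  eth0 : 0 < eth
  e4' : c.B / c.θ * ((2 * c.gw + 1) * eth) < c.del / c.Pm
  d4 : 4 ≤ d
  thk : 8 * (c.Pm * (c.X * (K1 / (eth / 8) * (qq ^ (d - 2) / (1 - qq))))) ≤ c.tau / 4
  /-- fans -/
  R1 : 0 < k.R1
  R1κ : c.κ * (c.M - 1) < k.R1
  e4 : ∀ m < c.h, (1 + (c.Bd / eta + Cf c.gw c.H c.θ eta c.B * eth) * (qq ^ d / (1 - qq))) /
    k.R1 ≤ c.es m
  e8 : (k.l0 : ℝ) + (max c.g0 c.w0 + 1) ≤ k.l1
  e9 : (c.gw : ℤ) + d ≤ k.l1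
  /-- thinness -/
  xi0 : 0 < xi
  e1 : ∀ m < c.h, Cf c.gw c.H c.θ K1 c.B * (2 * xi) ≤ c.es m
  e3 : ∀ m < c.h, Cf c.gw c.H c.θ eta c.B * (2 * xi) ≤ c.es m
  xiU : 8 * xi ≤ c.xiU
  xid : (2 * c.gU + 5) * xi < c.delU
  xih : (2 * c.gw + 1) * (2 * xi) / c.θ < c.del

/-- **The constants of the block B exist.**  `LK u` is a lower bound for `K1`, `LR` a lower bound
for `k.R1`, `UX` an upper bound for `xi`. -/
theorem exists_okB (c : KBIn) (hc : c.Pos) (LK : ℤ → ℝ)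
    (UX : ℝ → ℝ → ℝ → Cst → ℝ → ℝ → ℕ → ℝ)
    (hUX : ∀ ek ex eta k K1 eth d, 0 < UX ek ex eta k K1 eth d) :
    ∃ (ek ex eta : ℝ) (k : Cst) (K1 eth : ℝ) (d : ℕ) (xi : ℝ),
      OkB c LK ek ex eta k K1 eth d xi ∧ xi ≤ UX ek ex eta k K1 eth d := by
  obtain ⟨ek, hek, htyp⟩ := exists_btypC c.M c.h c.F c.K0 c.C1 c.tau c.v0 c.wn c.N hc.M1 hc.F1
    hc.K0 hc.C1 hc.tau
  obtain ⟨ex, hex, hexk⟩ : ∃ ex : ℝ, 0 < ex ∧ ex < ek := ⟨ek / 2, by linarith, by linarith⟩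
  -- the windows
  obtain ⟨eta, heta⟩ := (sm_pos.and (ev_lt c.h fun m _ => sm_le (hc.eB m c.KX ex))).exists
  obtain ⟨kw, hkw⟩ : ∃ kw : ℕ, kw = max (c.v0 + 2) c.wn := ⟨_, rfl⟩
  -- the gap
  have hM : (0 : ℝ) < 1 / 4 / c.M := by
    have h1 : (0 : ℝ) < c.M := by exact_mod_cast hc.M1
    positivity
  have hMM : (1 : ℝ) / 4 / c.M < 1 / 2 / c.M := by
    have h1 : (0 : ℝ) < c.M := by exact_mod_cast hc.M1
    exact div_lt_div_of_pos_right (by norm_num) h1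
  obtain ⟨l0, hl2, hl1, hl3, hl4, hl5⟩ :
      ∃ l0 : ℕ, 2 ≤ l0 ∧
        (∀ m < c.h, c.Bb m * m * brw (1 / 4) ((2 : ℝ) ^ (c.w0 + 2 - l0)) ≤ c.es m) ∧
        (∀ m < c.h, c.Bb m * m * brw (1 / 4) ((2 : ℝ) ^ (c.lG + c.w0 + 5 - l0)) ≤ c.es m) ∧
        (∀ m < c.h, c.Bb m * m * brw (1 / 4) ((2 : ℝ) ^ (c.lG + c.w0 + 5 - l0)) ≤
          1 / 4 / c.M) ∧
        (∀ m < c.h, m * brw (1 / 4) ((2 : ℝ) ^ ((1 : ℝ) - l0)) ≤ c.dl m / 4) := by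
    have h1 := ev_lt (l := (atTop : Filter ℕ)) c.h fun m hm =>
      nt_brw (c.Bb m * m) (c.w0 + 2) (hc.es m hm)
    have h2 := ev_lt (l := (atTop : Filter ℕ)) c.h fun m hm =>
      nt_brw (c.Bb m * m) (c.lG + c.w0 + 5) (hc.es m hm)
    have h3 := ev_lt (l := (atTop : Filter ℕ)) c.h fun m _ =>
      nt_brw (c.Bb m * m) (c.lG + c.w0 + 5) hM
    have h4 := ev_lt (l := (atTop : Filter ℕ)) c.h fun m hm =>
      nt_brw m 1 (show (0 : ℝ) < c.dl m / 4 by linarith [hc.dl m hm])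
    exact ((nt_ge 2).and (h1.and (h2.and (h3.and h4)))).exists
  -- one scale
  obtain ⟨K, hK1, hKe, hKo, hKn⟩ : ∃ K : ℝ, 1 ≤ K ∧
      (∀ m < c.h, c.Bd * (2 ^ c.gw / qq ^ c.gw) / K ≤ c.es m) ∧
      c.κ * c.M * (c.Bd * (2 ^ c.gw / qq ^ c.gw)) ≤ K ∧
      LK ((l0 + 6 * kw + 1 : ℕ) : ℤ) ≤ K :=
    ((lg_ge 1).and ((ev_lt c.h fun m hm => lg_div _ (hc.es m hm)).and
      ((lg_ge _).and (lg_ge _)))).exists
  have hK0 : 0 < K := one_pos.trans_le hK1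
  -- thick labels
  obtain ⟨eth, heth, hethβ⟩ : ∃ eth : ℝ, 0 < eth ∧
      c.B / c.θ * ((2 * c.gw + 1) * eth) < c.del / c.Pm := by
    obtain ⟨x, h1, h2⟩ := (sm_pos.and (sm_mul_lt (c.B / c.θ * (2 * c.gw + 1))
      (div_pos hc.del hc.Pm))).exists
    exact ⟨x, h1, by rwa [← mul_assoc]⟩
  have hq1 : 0 < 1 - qq := by linarith [qq_lt]
  obtain ⟨d, hd4, hd⟩ : ∃ d : ℕ, 4 ≤ d ∧
      8 * (c.Pm * (c.X * (K / (eth / 8) * (qq ^ (d - 2) / (1 - qq))))) ≤ c.tau / 4 := by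
    obtain ⟨n, h1, h2⟩ := ((nt_ge 2).and
      (nt_geo (8 * (c.Pm * (c.X * (K / (eth / 8)) / (1 - qq)))) qq_pos.le qq_lt
        (show 0 < c.tau / 4 by linarith [hc.tau]))).exists
    refine ⟨n + 2, by omega, ?_⟩
    rw [Nat.add_sub_cancel]
    refine le_trans (le_of_eq ?_) h2
    ring
  -- fans
  obtain ⟨R1, hR0, hRκ, hRe⟩ : ∃ R1 : ℕ, 0 < R1 ∧ c.κ * (c.M - 1) < R1 ∧
      ∀ m < c.h, (1 + (c.Bd / eta + Cf c.gw c.H c.θ eta c.B * eth) * (qq ^ d / (1 - qq))) /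
        R1 ≤ c.es m := by
    obtain ⟨n, h1, h2⟩ := ((nt_ge (c.κ * (c.M - 1) + 1)).and
      (ev_lt c.h fun m hm => nt_div
        (1 + (c.Bd / eta + Cf c.gw c.H c.θ eta c.B * eth) * (qq ^ d / (1 - qq)))
        (hc.es m hm))).exists
    exact ⟨n, by omega, by omega, h2⟩
  obtain ⟨wc, hwc⟩ : ∃ n : ℕ, max c.g0 c.w0 + 1 ≤ (n : ℝ) := exists_nat_ge _
  obtain ⟨k, hk⟩ : ∃ k : Cst, k = ⟨kw, l0, ((l0 + wc + c.gw + d : ℕ) : ℤ),
      ((l0 + 6 * kw + 1 : ℕ) : ℤ), K + 1, R1⟩ := ⟨_, rfl⟩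
  -- thinness
  obtain ⟨xi, hxi0, hxiU, hxiK, hxie, hx1, hx2, hx3⟩ : ∃ xi : ℝ, 0 < xi ∧
      xi ≤ UX ek ex eta k K eth d ∧
      (∀ m < c.h, Cf c.gw c.H c.θ K c.B * 2 * xi ≤ c.es m) ∧
      (∀ m < c.h, Cf c.gw c.H c.θ eta c.B * 2 * xi ≤ c.es m) ∧
      8 * xi ≤ c.xiU ∧ (2 * c.gU + 5) * xi < c.delU ∧
      (2 * c.gw + 1) * 2 / c.θ * xi < c.del :=
    (sm_pos.and ((sm_le (hUX ek ex eta k K eth d)).and
      ((ev_lt c.h fun m hm => sm_mul _ (hc.es m hm)).and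
        ((ev_lt c.h fun m hm => sm_mul _ (hc.es m hm)).and
          ((sm_mul _ hc.xiU).and ((sm_mul_lt _ hc.delU).and (sm_mul_lt _ hc.del))))))).exists
  have hg : ∀ l : ℤ, (l0 : ℤ) - 1 ≤ l → (l0 : ℝ) ≤ l + 1 := by
    intro l hl
    have h1 : (l0 : ℤ) ≤ l + 1 := by omega
    exact_mod_cast h1
  subst hk
  refine ⟨ek, ex, eta, _, K, eth, d, xi, ?_, hxiU⟩
  constructor
  · exact hek
  · exact htyp
  · exact hex
  · exact hexk
  · exact heta.1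
  · exact heta.2
  · show c.v0 ≤ kw
    rw [hkw]
    exact (Nat.le_add_right _ 2).trans (le_max_left _ _)
  · show c.wn ≤ kw
    rw [hkw]
    exact le_max_right _ _
  · show c.v0 + 2 ≤ kw
    rw [hkw]
    exact le_max_left _ _
  · show (2 : ℤ) ≤ (l0 : ℤ)
    exact_mod_cast hl2
  · show (l0 : ℤ) + 6 * (kw : ℤ) + 1 ≤ ((l0 + 6 * kw + 1 : ℕ) : ℤ)
    push_cast
    exact le_rfl
  · intro m hm l hl
    rw [← mul_assoc]
    have h1 := brw_gap (w := c.w0 + 2) (mul_nonneg (hc.Bb m hm) (Nat.cast_nonneg m)) (hg l hl)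
    rw [show c.w0 + 2 - ((l : ℝ) + 1) = c.w0 + 1 - l by ring] at h1
    exact h1.trans (hl1 m hm)
  · intro m hm l hl
    rw [← mul_assoc]
    have h1 := brw_gap (w := c.lG + c.w0 + 5) (mul_nonneg (hc.Bb m hm) (Nat.cast_nonneg m))
      (hg l hl)
    rw [show c.lG + c.w0 + 5 - ((l : ℝ) + 1) = c.lG + c.w0 + 4 - l by ring] at h1
    exact h1.trans (hl3 m hm)
  · intro m hm l hl
    have h1 := brw_gap (w := 1) (Nat.cast_nonneg m) (hg l hl)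
    rw [show (1 : ℝ) - ((l : ℝ) + 1) = -(l : ℝ) by ring] at h1
    exact h1.trans (hl5 m hm)
  · intro m hm l hl
    rw [← mul_assoc]
    have h1 := brw_gap (w := c.lG + c.w0 + 5) (mul_nonneg (hc.Bb m hm) (Nat.cast_nonneg m))
      (hg l hl)
    rw [show c.lG + c.w0 + 5 - ((l : ℝ) + 1) = c.lG + c.w0 + 4 - l by ring] at h1
    exact (h1.trans (hl4 m hm)).trans_lt hMM
  · exact hK1
  · show K < K + 1
    linarith
  · exact hKe
  · exact hKo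
  · exact hKn
  · exact heth
  · exact hethβ
  · exact hd4
  · exact hd
  · exact hR0
  · exact hRκ
  · exact hRe
  · show (((l0 : ℕ) : ℤ) : ℝ) + (max c.g0 c.w0 + 1) ≤
      (((l0 + wc + c.gw + d : ℕ) : ℤ) : ℝ)
    push_cast
    have h1 : (0 : ℝ) ≤ (c.gw : ℝ) := Nat.cast_nonneg _
    have h2 : (0 : ℝ) ≤ (d : ℝ) := Nat.cast_nonneg _
    linarith
  · show (c.gw : ℤ) + (d : ℤ) ≤ ((l0 + wc + c.gw + d : ℕ) : ℤ)
    push_cast
    omega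
  · exact hxi0
  · intro m hm
    rw [← mul_assoc]
    exact hxiK m hm
  · intro m hm
    rw [← mul_assoc]
    exact hxie m hm
  · exact hx1
  · exact hx2
  · refine lt_of_eq_of_lt ?_ hx3
    ring

end Pool.Agent.Lib.GSX
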