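import Pool.Agent.Lib.GSR.ThkB
import Pool.Agent.Lib.GSX.BDef

/-!
# Thick labels of the record

`TM` is the continuous thickness of `BDef.lean`, `HM` the mass of the level `r` of `UnsH.lean` with
the levels `lev x = ⌈-log (al x)⌉`.  The labels of a family `O` with few labels in one scale near
the nodes which are thick have small weight.
-/

set_option autoImplicit false

namespace Pool.Agent.Lib.GSX

open Finset Classical
open Pool.Agent.Lib.GSLE (hc win cells ds)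
open Pool.Agent.Lib.GSR (HM)

/-- The level of a vertex. -/
noncomputable def ThkR_.lev {V : Type} [Fintype V] (P : Cn) (G : SimpleGraph V) (I : Inp P V) (x : V) :
    ℕ := ⌈-hs P G I x⌉₊

section

open ThkR_

variable {V : Type} [Fintype V] {P : Cn} {G : SimpleGraph V} {S : Sta P V} {I : Inp P V}
  {T : Finset (Fin P.N)} {sg : ℕ → Fin P.N} {j : ℕ}

namespace ThkR_

theorem rpNonneg (u : ℝ) : 0 ≤ rp u := le_max_left _ _

theorem rpLeOne (u : ℝ) : rp u ≤ 1 := max_le zero_le_one (min_le_left _ _)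

theorem rpEqOne {u : ℝ} (h : 1 ≤ u) : rp u = 1 := by
  unfold rp
  rw [min_eq_left h, max_eq_right zero_le_one]

theorem posOfRp {u : ℝ} (h : rp u ≠ 0) : 0 < u := by
  by_contra h1
  exact h (max_eq_left ((min_le_right _ _).trans (not_lt.1 h1)))

theorem alPos (x : V) : 0 < al P G I x := GSLE.alp_pos _ _ _ _ _

/-- The level of the vertex `x`: from below. -/
theorem lev_le (x : V) : (1 / 2 : ℝ) ^ lev P G I x ≤ al P G I x := GSR.ThkB_.lev_le (alPos x)

/-- The level of the vertex `x`: from above. -/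
theorem lt_lev {x : V} (h : al P G I x < 2) : al P G I x < 2 * (1 / 2 : ℝ) ^ lev P G I x := by
  have h0 : 0 < al P G I x := alPos x
  have h1 : (lev P G I x : ℝ) < -hs P G I x + 1 := by
    by_cases h2 : 0 ≤ -hs P G I x
    · exact Nat.ceil_lt_add_one h2
    · have h3 : lev P G I x = 0 := by
        unfold lev
        exact Nat.ceil_eq_zero.2 (not_le.1 h2).le
      rw [h3, Nat.cast_zero]
      have h4 : hs P G I x < 1 := by
        unfold hs
        rw [Real.logb_lt_iff_lt_rpow (by norm_num) h0]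
        rw [Real.rpow_one]
        exact h
      linarith
  have h2 : (2 : ℝ) * (1 / 2 : ℝ) ^ lev P G I x = (2 : ℝ) ^ (1 - (lev P G I x : ℝ)) := by
    rw [Real.rpow_sub (by norm_num), Real.rpow_one, Real.rpow_natCast, one_div, inv_pow,
      div_eq_mul_inv]
  rw [h2]
  calc al P G I x = (2 : ℝ) ^ hs P G I x :=
        (Real.rpow_logb (by norm_num) (by norm_num) h0).symm
    _ < (2 : ℝ) ^ (1 - (lev P G I x : ℝ)) :=
        Real.rpow_lt_rpow_of_exponent_lt (by norm_num) (by linarith)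

/-- The window of the level. -/
theorem win_lev {x : V} (h : al P G I x < 2) : win 1 (hs P G I x + (lev P G I x : ℕ)) = 1 := by
  refine GSLE.win_eq_one ?_
  have h0 : 0 < al P G I x := alPos x
  have h1 : -hs P G I x ≤ lev P G I x := Nat.le_ceil _
  have h2 : hs P G I x < 1 - (lev P G I x : ℝ) := by
    unfold hs
    rw [Real.logb_lt_iff_lt_rpow (by norm_num) h0]
    have h3 : (2 : ℝ) ^ (1 - (lev P G I x : ℝ)) = 2 * (1 / 2 : ℝ) ^ lev P G I x := by
      rw [Real.rpow_sub (by norm_num), Real.rpow_one, Real.rpow_natCast, one_div, inv_pow,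
        div_eq_mul_inv]
    rw [h3]
    exact lt_lev h
  rw [abs_le]
  constructor
  · linarith
  · linarith

end ThkR_

open ThkR_

/-- The mass of the level `r` is at most the continuous thickness. -/
theorem ThkR_.HM_le_TM (hn : ∀ x, 0 ≤ I.n3 x) (hal : ∀ x, I.n3 x ≠ 0 → al P G I x < 2) (l0 : ℤ)
    (C : Finset ℕ) (r : ℕ) (l : Ce P V) :
    HM G I.n3 (al P G I) (lev P G I) hub (hB P G S I sg j) (HB P sg j) l0 C r l ≤
      TM P G S I sg j l0 C r l := by
  unfold HM TM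
  rw [Finset.sum_filter]
  refine Finset.sum_le_sum fun x _ => ?_
  have hr0 : 0 ≤ rB P G I x := div_nonneg (hn x) (alPos x).le
  have hterm : 0 ≤ rB P G I x * (if G.Adj (hub l) x then 1 else 0) * win 1 (hs P G I x + r) *
      ∏ c ∈ C, rp (hB P G S I sg j c x - HB P sg j c l - l0 + 1) := by
    refine mul_nonneg (mul_nonneg (mul_nonneg hr0 ?_) (GSLE.win_nonneg _ _))
      (Finset.prod_nonneg fun _ _ => rpNonneg _)
    split_ifs <;> norm_num
  by_cases h : lev P G I x = r ∧ G.Adj (hub l) x ∧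
      ∀ c ∈ C, (HB P sg j c l : ℝ) + l0 ≤ hB P G S I sg j c x
  · rw [if_pos h]
    by_cases hx : I.n3 x = 0
    · rw [hx, zero_div]
      exact hterm
    · have h1 : win 1 (hs P G I x + (r : ℕ)) = 1 := by
        have h2 := win_lev (hal x hx)
        rw [h.1] at h2
        exact h2
      have h3 : ∏ c ∈ C, rp (hB P G S I sg j c x - HB P sg j c l - l0 + 1) = 1 := by
        refine Finset.prod_eq_one fun c hc => rpEqOne ?_
        have h4 := h.2.2 c hc
        linarith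
      rw [h1, h3, if_pos h.2.1, mul_one, mul_one, mul_one]
      exact le_rfl
  · rw [if_neg h]
    exact hterm

/-- The continuous thickness is at most the mass of the levels `r - 1, ..., r + 2` with the gap
`l0 - 1`. -/
theorem ThkR_.TM_le_HM (hn : ∀ x, 0 ≤ I.n3 x) (l0 : ℤ) (C : Finset ℕ) (r : ℕ) (l : Ce P V) :
    TM P G S I sg j l0 C r l ≤ ∑ r' ∈ Icc (r - 1) (r + 2),
      HM G I.n3 (al P G I) (lev P G I) hub (hB P G S I sg j) (HB P sg j) (l0 - 1) C r' l := by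
  have h1 : TM P G S I sg j l0 C r l = ∑ x, I.n3 x / al P G I x *
      ((if G.Adj (hub l) x then 1 else 0) * win 1 (hs P G I x + r) *
        ∏ c ∈ C, rp (hB P G S I sg j c x - HB P sg j c l - l0 + 1)) := by
    unfold TM rB
    refine Finset.sum_congr rfl fun x _ => ?_
    ring
  rw [h1]
  refine GSR.ThkB_.le_HM hn (fun x => alPos x) (fun x => ?_) fun x hx => ?_
  · refine mul_le_one₀ (mul_le_one₀ ?_ (GSLE.win_nonneg _ _) (GSLE.win_le_one _ _))
      (Finset.prod_nonneg fun _ _ => rpNonneg _) (Finset.prod_le_one (fun _ _ => rpNonneg _)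
        fun _ _ => rpLeOne _)
    split_ifs <;> norm_num
  · have h2 := left_ne_zero_of_mul (left_ne_zero_of_mul hx)
    have h3 := right_ne_zero_of_mul (left_ne_zero_of_mul hx)
    have h4 := right_ne_zero_of_mul hx
    refine ⟨?_, ?_, fun c hc => ?_⟩
    · have h5 := GSLE.abs_lt_of_win h3
      exact GSR.ThkB_.lev_mem (by norm_num at h5; exact h5)
    · by_contra h5
      exact h2 (if_neg h5)
    · have h5 := posOfRp (Finset.prod_ne_zero_iff.1 h4 c hc)
      push_cast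
      linarith

/-- The label `l` is thick at the stage `j` of the pool: the negation of the field `thk` of `LabO`. -/
def Thick (P : Cn) (G : SimpleGraph V) (S : Sta P V) (I : Inp P V) (sg : ℕ → Fin P.N) (j m : ℕ)
    (l0 : ℤ) (ε q : ℝ) (d : ℕ) (l : Ce P V) : Prop :=
  ¬ ∀ S' ⊆ range j, S'.card = m → ∀ r, r + d ≤ sca l →
    TM P G S I sg j l0 (insert j S') r l < ε * q ^ (sca l - r)

/-- **The thick labels of the record are rare.** -/
theorem thick_rec (hn : ∀ x, 0 ≤ I.n3 x) {O : Finset (Ce P V)}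
    (hρ : ∀ l ∈ O, 0 ≤ rho P G S I T l) {q : ℝ} (hq0 : 0 < q) (hq1 : q < 1) (hq : q * q = 1 / 2)
    {m : ℕ} {l0 : ℤ} {K : ℝ} (hK : 0 ≤ K)
    (hnr : ∀ S' ⊆ range j, S'.card = m → ∀ x, I.n3 x ≠ 0 → ∀ r : ℤ,
      ∑ o ∈ O with G.Adj (hub o) x ∧ HB P sg j j o = r ∧ ∀ c ∈ insert j S',
        (HB P sg j c o : ℝ) + (l0 - 1 : ℤ) ≤ hB P G S I sg j c x, wB P G S I T o ≤ K)
    {ε : ℝ} (hε : 0 < ε) {d : ℕ} (hd : 2 ≤ d) {O₂ : Finset (Ce P V)} (hO₂ : O₂ ⊆ O)
    (hthk : ∀ l ∈ O₂, Thick P G S I sg j m l0 ε q d l) :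
    ∑ l ∈ O₂, rho P G S I T l ≤
      j.choose m * (K / (ε / 8) * (q ^ (d - 2) / (1 - q)) * ∑ x, I.n3 x) := by
  refine GSR.thickB_rare (k := lev P G I) (a := al P G I) (y := hub) (i := sca)
    (h := hB P G S I sg j) (Hh := HB P sg j) (w := wB P G S I T) (G := G) (l0 := l0 - 1)
    hn lev_le hρ hq0 hq1 hq (j := j) (m := m) ?_ ?_ hK hnr hε hd hO₂
    (fun C r l => TM P G S I sg j l0 C r l) (fun S' _ _ l _ r => TM_le_HM hn _ _ _ _) ?_
  · intro l _
    unfold wB lv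
    exact div_mul_cancel₀ _ (by positivity)
  · intro l _
    unfold HB sca
    rw [if_pos rfl]
  · intro l hl
    have h1 := hthk l hl
    unfold Thick at h1
    push Not at h1
    obtain ⟨S', h2, h3, r, h4, h5⟩ := h1
    exact ⟨S', h2, h3, r, h4, h5⟩

/-- The flux of a family of labels. -/
theorem flux_rec (O : Finset (Ce P V)) :
    ∑ x, I.n3 x * ∑ l ∈ O, wA P G S I T l x = ∑ l ∈ O, rho P G S I T l * DD P G S I T l := by
  simp_rw [Finset.mul_sum]
  rw [Finset.sum_comm]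
  refine Finset.sum_congr rfl fun l _ => ?_
  unfold DD PA wA
  rw [Finset.mul_sum]
  refine Finset.sum_congr rfl fun x _ => ?_
  ring

/-- **The flux of the thick labels.** -/
theorem thick_flux (hn : ∀ x, 0 ≤ I.n3 x) {O : Finset (Ce P V)}
    (hρ : ∀ l ∈ O, 0 ≤ rho P G S I T l) {q : ℝ} (hq0 : 0 < q) (hq1 : q < 1) (hq : q * q = 1 / 2)
    {m : ℕ} {l0 : ℤ} {K : ℝ} (hK : 0 ≤ K)
    (hnr : ∀ S' ⊆ range j, S'.card = m → ∀ x, I.n3 x ≠ 0 → ∀ r : ℤ,
      ∑ o ∈ O with G.Adj (hub o) x ∧ HB P sg j j o = r ∧ ∀ c ∈ insert j S',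
        (HB P sg j c o : ℝ) + (l0 - 1 : ℤ) ≤ hB P G S I sg j c x, wB P G S I T o ≤ K)
    {ε : ℝ} (hε : 0 < ε) {d : ℕ} (hd : 2 ≤ d) {O₂ : Finset (Ce P V)} (hO₂ : O₂ ⊆ O)
    (hthk : ∀ l ∈ O₂, Thick P G S I sg j m l0 ε q d l) {Pm : ℝ} (hPm : 0 ≤ Pm)
    (hD : ∀ l ∈ O₂, DD P G S I T l ≤ Pm) :
    ∑ x, I.n3 x * ∑ l ∈ O₂, wA P G S I T l x ≤
      Pm * (j.choose m * (K / (ε / 8) * (q ^ (d - 2) / (1 - q)) * ∑ x, I.n3 x)) := by
  rw [flux_rec]
  calc ∑ l ∈ O₂, rho P G S I T l * DD P G S I T l ≤ ∑ l ∈ O₂, Pm * rho P G S I T l := by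
        refine Finset.sum_le_sum fun l hl => ?_
        rw [mul_comm]
        exact mul_le_mul_of_nonneg_right (hD l hl) (hρ l (hO₂ hl))
    _ = Pm * ∑ l ∈ O₂, rho P G S I T l := by rw [Finset.mul_sum]
    _ ≤ _ := mul_le_mul_of_nonneg_left (thick_rec hn hρ hq0 hq1 hq hK hnr hε hd hO₂ hthk) hPm

/-- In the form of the constants (`X` at least `8` times the number of the sets). -/
theorem thick_le (hn : ∀ x, 0 ≤ I.n3 x) (hn1 : ∑ x, I.n3 x ≤ 1) {O : Finset (Ce P V)}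
    (hρ : ∀ l ∈ O, 0 ≤ rho P G S I T l) {q : ℝ} (hq0 : 0 < q) (hq1 : q < 1) (hq : q * q = 1 / 2)
    {m : ℕ} {l0 : ℤ} {K : ℝ} (hK : 0 ≤ K)
    (hnr : ∀ S' ⊆ range j, S'.card = m → ∀ x, I.n3 x ≠ 0 → ∀ r : ℤ,
      ∑ o ∈ O with G.Adj (hub o) x ∧ HB P sg j j o = r ∧ ∀ c ∈ insert j S',
        (HB P sg j c o : ℝ) + (l0 - 1 : ℤ) ≤ hB P G S I sg j c x, wB P G S I T o ≤ K)
    {ε : ℝ} (hε : 0 < ε) {d : ℕ} (hd : 2 ≤ d) {O₂ : Finset (Ce P V)} (hO₂ : O₂ ⊆ O)
    (hthk : ∀ l ∈ O₂, Thick P G S I sg j m l0 ε q d l) {X th : ℝ}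
    (hX : 8 * (j.choose m : ℝ) ≤ X) (hth : X * (K / ε) * (q ^ (d - 2) / (1 - q)) ≤ th) :
    ∑ l ∈ O₂, rho P G S I T l ≤ th := by
  have hq2 : 0 < 1 - q := by linarith
  have h1 : 0 ≤ K / ε * (q ^ (d - 2) / (1 - q)) := by positivity
  have hc : (0 : ℝ) ≤ j.choose m := Nat.cast_nonneg _
  refine (thick_rec hn hρ hq0 hq1 hq hK hnr hε hd hO₂ hthk).trans (le_trans ?_ hth)
  calc (j.choose m : ℝ) * (K / (ε / 8) * (q ^ (d - 2) / (1 - q)) * ∑ x, I.n3 x)
      = 8 * (j.choose m : ℝ) * (K / ε * (q ^ (d - 2) / (1 - q))) * ∑ x, I.n3 x := by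
        field_simp
    _ ≤ 8 * (j.choose m : ℝ) * (K / ε * (q ^ (d - 2) / (1 - q))) * 1 :=
        mul_le_mul_of_nonneg_left hn1 (by positivity)
    _ ≤ X * (K / ε * (q ^ (d - 2) / (1 - q))) := by
        rw [mul_one]
        exact mul_le_mul_of_nonneg_right hX h1
    _ = X * (K / ε) * (q ^ (d - 2) / (1 - q)) := by ring

end

end Pool.Agent.Lib.GSX
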