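import Pool.Agent.Lib.GSX.Rec

/-!
# The ramp
-/

set_option autoImplicit false

namespace Pool.Agent.Lib.GSX

theorem rp_nonneg (u : ℝ) : 0 ≤ rp u := le_max_left _ _

theorem rp_le_one (u : ℝ) : rp u ≤ 1 := max_le zero_le_one (min_le_left _ _)

theorem rp_eq_one {u : ℝ} (h : 1 ≤ u) : rp u = 1 := by
  unfold rp
  rw [min_eq_left h, max_eq_right zero_le_one]

theorem rp_eq_zero {u : ℝ} (h : u ≤ 0) : rp u = 0 :=
  max_eq_left ((min_le_right _ _).trans h)

theorem pos_of_rp {u : ℝ} (h : rp u ≠ 0) : 0 < u := by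
  by_contra h1
  exact h (rp_eq_zero (not_lt.1 h1))

theorem lt_one_of_rp {u : ℝ} (h : rp u ≠ 1) : u < 1 := by
  by_contra h1
  exact h (rp_eq_one (not_lt.1 h1))

theorem rp_mono {u v : ℝ} (h : u ≤ v) : rp u ≤ rp v :=
  max_le_max le_rfl (min_le_min le_rfl h)

theorem rp_eq_self {u : ℝ} (h0 : 0 ≤ u) (h1 : u ≤ 1) : rp u = u := by
  unfold rp
  rw [min_eq_right h1, max_eq_right h0]

theorem continuous_rp : Continuous rp := by
  unfold rp
  fun_prop

end Pool.Agent.Lib.GSX
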