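import Pool.Agent.Lib.GSX.BDef
import Pool.Agent.Lib.GSX.Rp
import Pool.Agent.Lib.TCW.XB

/-!
# The small set of a pool

`BF` is the record of functions of `TCW/XB.lean` for the stages `sg 0, sg 1, ...` of a pool with
the items `T 0, T 1, ...`; it is continuous (`BF_ok`).
-/

set_option autoImplicit false

namespace Pool.Agent.Lib.GSX

open Finset Classical
open Pool.Agent.Lib.GSLE (hc win cells CC CC_ne kp abs_lt_of_win continuous_win)
open Pool.Agent.Lib.GSR (ClD OpD)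
open Pool.Agent.Lib.TCW (FRec)

section

variable {V Θ : Type} [Fintype V] (P : Cn) (G : SimpleGraph V)

/-- The closed own incidence: adjacent, in the closed windows. -/
structure OwC (S : Sta P V) (I : Inp P V) (T : Finset (Fin P.N)) (x : V) (l : Ce P V) : Prop where
  adj : G.Adj x (hub l)
  hW : hub l ∈ I.W
  own : |hs P G I x + (sca l : ℕ)| ≤ P.g0 + 1
  hts : ∀ c ∈ T, |ht P S c x - (hc 1 l.2 c : ℤ)| ≤ P.w0 + 1

/-- Own nodes are in the windows. -/
theorem owC_of_CS {S : Sta P V} {I : Inp P V} {T : Finset (Fin P.N)} {x : V} {l : Ce P V}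
    (h : CS P G S I T x l ≠ 0) : OwC P G S I T x l := by
  unfold CS at h
  have h1 := left_ne_zero_of_mul h
  obtain ⟨h2, h3⟩ := CC_ne h1
  have h4 := abs_lt_of_win (right_ne_zero_of_mul h2)
  have h5 := left_ne_zero_of_mul (left_ne_zero_of_mul h2)
  have h6 : G.Adj x l.1.1 ∧ l.1.1 ∈ I.W := by
    by_contra h7
    exact h5 (if_neg h7)
  exact ⟨h6.1, h6.2, h4.le, fun c hc => (h3 c hc).le⟩

/-- The record of functions of a pool. -/
noncomputable def BF (S : Fin P.N → Θ → Sta P V) (I : Fin P.N → Θ → Inp P V)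
    (T : ℕ → Finset (Fin P.N)) (sg : ℕ → Fin P.N) (m : ℕ) (l0 : ℤ) (ε q : ℝ) (d : ℕ) :
    FRec Θ V (Ce P V) where
  hub _ l := hub l
  H j c l := HB P sg j c l
  r j x θ := rB P G (I (sg j) θ) x
  w j l θ := wB P G (S (sg j) θ) (I (sg j) θ) (T j) l
  h c x θ := hs P G (I (sg c) θ) x
  po j x l θ := 0 < CS P G (S (sg j) θ) (I (sg j) θ) (T j) x l ∧
    LabO P G (S (sg j) θ) (I (sg j) θ) (T j) sg j m l0 ε q d l
  pk j x l θ := OwC P G (S (sg j) θ) (I (sg j) θ) (T j) x l ∧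
    LabC P G (S (sg j) θ) (I (sg j) θ) (T j) sg j m l0 ε q d l
  pl j l θ := LabC P G (S (sg j) θ) (I (sg j) θ) (T j) sg j m l0 ε q d l

/-- What is needed of the record of one stage. -/
structure CtB [TopologicalSpace Θ] (D : Set Θ) (S : Θ → Sta P V) (I : Θ → Inp P V)
    (T : Finset (Fin P.N)) (W : Finset V) : Prop where
  W : ∀ θ ∈ D, (I θ).W = W
  n0 : ∀ θ ∈ D, ∀ x, 0 ≤ (I θ).n3 x
  al0 : ∀ θ ∈ D, ∀ x, 0 < al P G (I θ) x
  a0 : ∀ θ ∈ D, ∀ c ∈ T, ∀ x, 0 < (S θ).a c x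
  rho0 : ∀ θ ∈ D, ∀ l, 0 ≤ rho P G (S θ) (I θ) T l
  n : ∀ x, ContinuousOn (fun θ => (I θ).n3 x) D
  al : ∀ x, ContinuousOn (fun θ => al P G (I θ) x) D
  a : ∀ c ∈ T, ∀ x, ContinuousOn (fun θ => (S θ).a c x) D
  rho : ∀ l, ContinuousOn (fun θ => rho P G (S θ) (I θ) T l) D
  cs : ∀ x l, ContinuousOn (fun θ => CS P G (S θ) (I θ) T x l) D
  dd : ∀ l, ContinuousOn (fun θ => DD P G (S θ) (I θ) T l) D
  rv : ∀ C l, ContinuousOn (fun θ => Rv P G (S θ) (I θ) T C l ((I θ).q T C l) ((I θ).mu T C l)) D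

end

namespace RecF_

variable {V Θ : Type} [Fintype V] [TopologicalSpace Θ] {P : Cn} {G : SimpleGraph V} {D : Set Θ}
  {S : Θ → Sta P V} {I : Θ → Inp P V} {T : Finset (Fin P.N)} {W : Finset V}

theorem hs_cont (h : CtB P G D S I T W) (x : V) : ContinuousOn (fun θ => hs P G (I θ) x) D := by
  unfold hs Real.logb
  exact ((h.al x).log fun θ hθ => (h.al0 θ hθ x).ne').div_const _

theorem ht_cont (h : CtB P G D S I T W) {c : Fin P.N} (hcT : c ∈ T) (x : V) :
    ContinuousOn (fun θ => ht P (S θ) c x) D := by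
  unfold ht Real.logb
  exact ((h.a c hcT x).log fun θ hθ => (h.a0 θ hθ c hcT x).ne').div_const _

theorem rB_cont (h : CtB P G D S I T W) (x : V) : ContinuousOn (fun θ => rB P G (I θ) x) D :=
  (h.n x).div (h.al x) fun θ hθ => (h.al0 θ hθ x).ne'

theorem lv_pos (i : ℕ) : 0 < lv i := by
  unfold lv
  positivity

theorem wB_cont (h : CtB P G D S I T W) (l : Ce P V) :
    ContinuousOn (fun θ => wB P G (S θ) (I θ) T l) D :=
  (h.rho l).div_const _

theorem hB_cont (h : CtB P G D S I T W) {sg : ℕ → Fin P.N} {j : ℕ} (hT : ∀ c < j, sg c ∈ T)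
    {c : ℕ} (hc : c ≤ j) (x : V) : ContinuousOn (fun θ => hB P G (S θ) (I θ) sg j c x) D := by
  by_cases h1 : c = j
  · simp only [hB, if_pos h1]
    exact hs_cont h x
  · simp only [hB, if_neg h1]
    exact ht_cont h (hT c (by omega)) x

theorem TM_cont (h : CtB P G D S I T W) {sg : ℕ → Fin P.N} {j : ℕ} (hT : ∀ c < j, sg c ∈ T)
    {l0 : ℤ} {C : Finset ℕ} (hC : ∀ c ∈ C, c ≤ j) (r : ℕ) (l : Ce P V) :
    ContinuousOn (fun θ => TM P G (S θ) (I θ) sg j l0 C r l) D := by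
  unfold TM
  refine continuousOn_finsetSum _ fun x _ => ?_
  refine (((rB_cont h x).mul continuousOn_const).mul
    ((continuous_win 1).comp_continuousOn ((hs_cont h x).add continuousOn_const))).mul ?_
  refine continuousOn_finsetProd _ fun c hc => continuous_rp.comp_continuousOn ?_
  exact (((hB_cont h hT (hC c hc) x).sub continuousOn_const).sub continuousOn_const).add
    continuousOn_const

theorem labC_closed (hD : IsClosed D) (h : CtB P G D S I T W) {sg : ℕ → Fin P.N} {j : ℕ}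
    (hT : ∀ c < j, sg c ∈ T) {m : ℕ} {l0 : ℤ} {ε q : ℝ} {d : ℕ} (l : Ce P V) :
    ClD D fun θ => LabC P G (S θ) (I θ) T sg j m l0 ε q d l := by
  have h1 : ClD D fun θ => hub l ∈ W ∧ l.2 ∈ cells P.N P.I0 T ∧
      P.del ≤ DD P G (S θ) (I θ) T l ∧
      (∀ S' ∈ (range j).powersetCard m, P.dl m ≤ Rv P G (S θ) (I θ) T (img P sg S') l
        ((I θ).q T (img P sg S') l) ((I θ).mu T (img P sg S') l)) ∧
      ∀ S' ∈ (range j).powersetCard m, ∀ r ∈ (range (sca l + 1)).filter fun r => r + d ≤ sca l,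
        TM P G (S θ) (I θ) sg j l0 (insert j S') r l ≤ ε * q ^ (sca l - r) := by
    refine (ClD.const hD _).and ((ClD.const hD _).and ((ClD.le hD continuousOn_const
      (h.dd l)).and (ClD.and ?_ ?_)))
    · exact ClD.allF hD _ fun S' _ => ClD.le hD continuousOn_const (h.rv _ l)
    · refine ClD.allF hD _ fun S' hS' => ClD.allF hD _ fun r _ => ClD.le hD ?_ continuousOn_const
      refine TM_cont h hT (fun c hc => ?_) r l
      rcases Finset.mem_insert.1 hc with rfl | hc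
      · exact le_rfl
      · exact (Finset.mem_range.1 ((Finset.mem_powersetCard.1 hS').1 hc)).le
  refine h1.congr fun θ hθ => ⟨fun h2 => ⟨?_, h2.2.1, h2.2.2.1, ?_, ?_⟩, fun h2 => ⟨?_, h2.cel,
    h2.dD, ?_, ?_⟩⟩
  · rw [h.W θ hθ]
    exact h2.1
  · exact fun S' h3 h4 => h2.2.2.2.1 S' (Finset.mem_powersetCard.2 ⟨h3, h4⟩)
  · exact fun S' h3 h4 r hr => h2.2.2.2.2 S' (Finset.mem_powersetCard.2 ⟨h3, h4⟩) r
      (Finset.mem_filter.2 ⟨Finset.mem_range.2 (by omega), hr⟩)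
  · rw [← h.W θ hθ]
    exact h2.hW
  · exact fun S' h3 => h2.uns S' (Finset.mem_powersetCard.1 h3).1 (Finset.mem_powersetCard.1 h3).2
  · exact fun S' h3 r hr => h2.thk S' (Finset.mem_powersetCard.1 h3).1
      (Finset.mem_powersetCard.1 h3).2 r (Finset.mem_filter.1 hr).2

theorem labO_open (hD : IsClosed D) (h : CtB P G D S I T W) {sg : ℕ → Fin P.N} {j : ℕ}
    (hT : ∀ c < j, sg c ∈ T) {m : ℕ} {l0 : ℤ} {ε q : ℝ} {d : ℕ} (l : Ce P V) :
    OpD D fun θ => LabO P G (S θ) (I θ) T sg j m l0 ε q d l := by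
  have h1 : OpD D fun θ => hub l ∈ W ∧ l.2 ∈ cells P.N P.I0 T ∧
      P.del < DD P G (S θ) (I θ) T l ∧
      (∀ S' ∈ (range j).powersetCard m, P.dl m < Rv P G (S θ) (I θ) T (img P sg S') l
        ((I θ).q T (img P sg S') l) ((I θ).mu T (img P sg S') l)) ∧
      ∀ S' ∈ (range j).powersetCard m, ∀ r ∈ (range (sca l + 1)).filter fun r => r + d ≤ sca l,
        TM P G (S θ) (I θ) sg j l0 (insert j S') r l < ε * q ^ (sca l - r) := by
    refine (OpD.const hD _).and ((OpD.const hD _).and ((OpD.lt hD continuousOn_const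
      (h.dd l)).and (OpD.and ?_ ?_)))
    · exact OpD.allF _ fun S' _ => OpD.lt hD continuousOn_const (h.rv _ l)
    · refine OpD.allF _ fun S' hS' => OpD.allF _ fun r _ => OpD.lt hD ?_ continuousOn_const
      refine TM_cont h hT (fun c hc => ?_) r l
      rcases Finset.mem_insert.1 hc with rfl | hc
      · exact le_rfl
      · exact (Finset.mem_range.1 ((Finset.mem_powersetCard.1 hS').1 hc)).le
  refine h1.congr fun θ hθ => ⟨fun h2 => ⟨?_, h2.2.1, h2.2.2.1, ?_, ?_⟩, fun h2 => ⟨?_, h2.cel,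
    h2.dD, ?_, ?_⟩⟩
  · rw [h.W θ hθ]
    exact h2.1
  · exact fun S' h3 h4 => h2.2.2.2.1 S' (Finset.mem_powersetCard.2 ⟨h3, h4⟩)
  · exact fun S' h3 h4 r hr => h2.2.2.2.2 S' (Finset.mem_powersetCard.2 ⟨h3, h4⟩) r
      (Finset.mem_filter.2 ⟨Finset.mem_range.2 (by omega), hr⟩)
  · rw [← h.W θ hθ]
    exact h2.hW
  · exact fun S' h3 => h2.uns S' (Finset.mem_powersetCard.1 h3).1 (Finset.mem_powersetCard.1 h3).2
  · exact fun S' h3 r hr => h2.thk S' (Finset.mem_powersetCard.1 h3).1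
      (Finset.mem_powersetCard.1 h3).2 r (Finset.mem_filter.1 hr).2

theorem owC_closed (hD : IsClosed D) (h : CtB P G D S I T W) (x : V) (l : Ce P V) :
    ClD D fun θ => OwC P G (S θ) (I θ) T x l := by
  have h1 : ClD D fun θ => G.Adj x (hub l) ∧ hub l ∈ W ∧
      |hs P G (I θ) x + (sca l : ℕ)| ≤ P.g0 + 1 ∧
      ∀ c ∈ T, |ht P (S θ) c x - (hc 1 l.2 c : ℤ)| ≤ P.w0 + 1 := by
    refine (ClD.const hD _).and ((ClD.const hD _).and ((ClD.le hD
      ((hs_cont h x).add continuousOn_const).abs continuousOn_const).and ?_))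
    exact ClD.allF hD _ fun c hc => ClD.le hD ((ht_cont h hc x).sub continuousOn_const).abs
      continuousOn_const
  refine h1.congr fun θ hθ => ⟨fun h2 => ⟨h2.1, ?_, h2.2.2.1, h2.2.2.2⟩,
    fun h2 => ⟨h2.adj, ?_, h2.own, h2.hts⟩⟩
  · rw [h.W θ hθ]
    exact h2.2.1
  · rw [← h.W θ hθ]
    exact h2.hW

end RecF_

open RecF_

/-- The record of functions of a pool is continuous. -/
theorem BF_ok {V Θ : Type} [Fintype V] [TopologicalSpace Θ] {P : Cn} {G : SimpleGraph V}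
    {D : Set Θ} (hD : IsClosed D) {S : Fin P.N → Θ → Sta P V} {I : Fin P.N → Θ → Inp P V}
    {T : ℕ → Finset (Fin P.N)} {sg : ℕ → Fin P.N} {q : ℕ}
    (hT : ∀ j < q, ∀ c < j, sg c ∈ T j)
    (h : ∀ j < q, ∃ W, CtB P G D (S (sg j)) (I (sg j)) (T j) W)
    (m : ℕ) (l0 : ℤ) (ε ρ : ℝ) (d : ℕ) : (BF P G S I T sg m l0 ε ρ d).Ok D q where
  r0 j hj x θ hθ := by
    obtain ⟨W, hW⟩ := h j hj
    exact div_nonneg (hW.n0 θ hθ x) (hW.al0 θ hθ x).le
  w0 j hj l θ hθ := by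
    obtain ⟨W, hW⟩ := h j hj
    exact div_nonneg (hW.rho0 θ hθ l) (lv_pos _).le
  cr j hj x := by
    obtain ⟨W, hW⟩ := h j hj
    exact rB_cont hW x
  cw j hj l := by
    obtain ⟨W, hW⟩ := h j hj
    exact wB_cont hW l
  ch j hj x := by
    obtain ⟨W, hW⟩ := h j hj
    exact hs_cont hW x
  opo j hj x l := by
    obtain ⟨W, hW⟩ := h j hj
    exact (OpD.lt hD continuousOn_const (hW.cs x l)).and (labO_open hD hW (hT j hj) l)
  cpk j hj x l := by
    obtain ⟨W, hW⟩ := h j hj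
    exact (owC_closed hD hW x l).and (labC_closed hD hW (hT j hj) l)
  cpl j hj l := by
    obtain ⟨W, hW⟩ := h j hj
    exact labC_closed hD hW (hT j hj) l
  sub j hj x l θ hθ hp := by
    have h1 := LabO.labC P G _ _ _ _ _ hp.2
    exact ⟨⟨owC_of_CS P G hp.1.ne', h1⟩, h1⟩

end Pool.Agent.Lib.GSX
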