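import Pool.Agent.Lib.GSX.XBin
import Pool.Agent.Lib.GSX.RecF
import Pool.Agent.Lib.GSX.B5

/-!
# Membership in the small set of a pool

The instance of `mem_XB` for the record `BF` of a pool: the vertex `v` is in the small set if at
every stage of the pool it has a self-linked label (`Lnk`), the own sums are less than `K0` and the
conditions `NrB` hold for the allowed labels.
-/

set_option autoImplicit false

namespace Pool.Agent.Lib.GSX

open Finset Classical
open Pool.Agent.Lib.GSLE (hc win cells)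
open Pool.Agent.Lib.TCW (FRec NrB NrS Cst)

namespace XBrec_

/-- `NrB` depends only on the heights of `t` at the stages up to `s`. -/
theorem nrB_congr {V Ω : Type} {G : SimpleGraph V} {m s : ℕ} {η : ℝ} {k : Cst} {O : Finset Ω}
    {hub : Ω → V} {w : Ω → ℝ} {h h' : ℕ → V → ℝ} {H : ℕ → Ω → ℤ} {t : V}
    (hh : ∀ c ≤ s, h' c t = h c t) (hN : NrB G m s η k O hub w h H t) :
    NrB G m s η k O hub w h' H t := by
  have h1 : ∀ S' ⊆ range s, ∀ c ∈ insert s S', h' c t = h c t := by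
    intro S' hS' c hc
    rcases Finset.mem_insert.1 hc with rfl | hc
    · exact hh _ le_rfl
    · exact hh c (Finset.mem_range.1 (hS' hc)).le
  refine ⟨?_, fun S' hS' hm i => ?_, fun S' hS' hm F hF => ?_⟩
  · rw [hh s le_rfl]
    exact hN.nr1
  · refine le_trans (le_of_eq ?_) (hN.nr2 S' hS' hm i)
    refine Finset.sum_congr (Finset.filter_congr fun o _ => ?_) fun _ _ => rfl
    refine and_congr_right fun _ => and_congr_right fun _ => ?_
    exact forall₂_congr fun c hc => by rw [h1 S' hS' c hc]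
  · refine hN.fan S' hS' hm F fun a ha => ?_
    obtain ⟨h2, h3, h4, h5⟩ := hF a ha
    exact ⟨h2, h3, h4, fun o ho => ⟨(h5 o ho).1, fun c hc => by
      rw [← h1 S' hS' c hc]
      exact (h5 o ho).2 c hc⟩⟩

end XBrec_

open XBrec_

section

variable {V Θ : Type} [Fintype V] {P : Cn} {G : SimpleGraph V}

/-- The facts about the stage `sg j` of a pool which are used for the membership. -/
structure StX (P : Cn) (G : SimpleGraph V) (S : Sta P V) (I : Inp P V) (T : Finset (Fin P.N))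
    (sg : ℕ → Fin P.N) (j m : ℕ) (l0 : ℤ) (ε q : ℝ) (d : ℕ) (k : Cst) (K0 ek η : ℝ) (v : V) :
    Prop where
  n0 : ∀ x, 0 ≤ I.n3 x
  rho0 : ∀ l, 0 ≤ rho P G S I T l
  mem : ∀ c < j, sg c ∈ T
  lnk : ∃ ek', ek < ek' ∧ Lnk P G S I T (LabO P G S I T sg j m l0 ε q d) ek' v
  wI : ∀ x l, 0 < CS P G S I T x l → LabO P G S I T sg j m l0 ε q d l →
    ∑ l' with OwC P G S I T x l' ∧ LabC P G S I T sg j m l0 ε q d l', wB P G S I T l' < K0
  rI : ∀ x l, 0 < CS P G S I T x l → LabO P G S I T sg j m l0 ε q d l →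
    ∑ x' with OwC P G S I T x' l, rB P G I x' < K0
  nr : ∃ η1 K1, η1 ≤ η ∧ K1 < k.K ∧ NrB G m j η1 ⟨k.w0, k.l0, k.l1, k.u, K1, k.R1⟩
    (Finset.univ.filter fun l => LabC P G S I T sg j m l0 ε q d l) hub (wB P G S I T)
    (hB P G S I sg j) (HB P sg j) v

/-- **Membership in the small set of a pool.** -/
theorem mem_BF {S : Fin P.N → Θ → Sta P V} {I : Fin P.N → Θ → Inp P V}
    {T : ℕ → Finset (Fin P.N)} {sg : ℕ → Fin P.N} {q m v0 d : ℕ} {l0 : ℤ} {ε ρ K0 ek η : ℝ}
    {k : Cst} {θ : Θ} {v : V} (hv0 : P.g0 + 1 ≤ v0) (hw0 : P.w0 + 1 ≤ k.w0)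
    (hfold : ∀ j < q, ∀ c < j, ∀ x, (S (sg j) θ).a (sg c) x = al P G (I (sg c) θ) x)
    (h : ∀ j < q, StX P G (S (sg j) θ) (I (sg j) θ) (T j) sg j m l0 ε ρ d k K0 ek η v) :
    v ∈ (BF P G S I T sg m l0 ε ρ d).XB G v0 k K0 ek η m q θ := by
  intro j hj'
  have hj : j < q := Finset.mem_range.1 hj'
  have hX := h j hj
  obtain ⟨ek', hek, J, hJ1, hJ2, hJ3⟩ := hX.lnk
  obtain ⟨η1, K1, hη1, hK1, hN⟩ := hX.nr
  have hht : ∀ c < j, ∀ x, hs P G (I (sg c) θ) x = ht P (S (sg j) θ) (sg c) x := by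
    intro c hcj x
    unfold hs ht
    rw [hfold j hj c hcj x]
  have hhB : ∀ c ≤ j, ∀ x, hs P G (I (sg c) θ) x = hB P G (S (sg j) θ) (I (sg j) θ) sg j c x := by
    intro c hcj x
    unfold hB
    by_cases h1 : c = j
    · rw [if_pos h1, h1]
    · rw [if_neg h1]
      exact hht c (by omega) x
  refine ⟨⟨J, ?_, ?_, ?_, ?_, hJ3⟩, ?_⟩
  · intro x l hxl
    obtain ⟨h2, h1⟩ := hJ1 x l hxl
    obtain ⟨h4, h5⟩ := GSLE.CC_ne (left_ne_zero_of_mul h1.ne')
    have h6 := GSLE.abs_lt_of_win (right_ne_zero_of_mul h4)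
    have h7 := (owC_of_CS P G h1.ne').adj
    refine ⟨⟨h1, h2⟩, h7, ?_, ?_⟩
    · have h8 : |hs P G (I (sg j) θ) x - ((HB P sg j j l : ℤ) : ℝ)| < v0 := by
        have h9 : hs P G (I (sg j) θ) x - ((HB P sg j j l : ℤ) : ℝ) =
            hs P G (I (sg j) θ) x + ((l.1.2 : ℕ) : ℝ) := by
          unfold HB
          rw [if_pos rfl]
          push_cast
          ring
        rw [h9]
        exact lt_of_lt_of_le h6 hv0
      exact h8
    · intro c hcr
      have hcj := Finset.mem_range.1 hcr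
      have h8 : |hs P G (I (sg c) θ) x - ((HB P sg j c l : ℤ) : ℝ)| < k.w0 := by
        have h9 : HB P sg j c l = hc 1 l.2 (sg c) := by
          unfold HB
          rw [if_neg hcj.ne]
        rw [h9, hht c hcj x]
        exact lt_of_lt_of_le (h5 (sg c) (hX.mem c hcj)) hw0
      exact h8
  · intro x l hxl
    obtain ⟨h2, h1⟩ := hJ1 x l hxl
    refine lt_of_le_of_lt ?_ (hX.wI x l h1 h2)
    refine Finset.sum_le_sum_of_subset_of_nonneg (fun l' hl' => ?_) fun l' _ _ =>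
      div_nonneg (hX.rho0 l') (RecP_.lv_pos _).le
    exact Finset.mem_filter.2 ⟨Finset.mem_univ _, (Finset.mem_filter.1 hl').2.1⟩
  · intro x l hxl
    obtain ⟨h2, h1⟩ := hJ1 x l hxl
    refine lt_of_le_of_lt ?_ (hX.rI x l h1 h2)
    refine Finset.sum_le_sum_of_subset_of_nonneg (fun x' hx' => ?_) fun x' _ _ =>
      div_nonneg (hX.n0 x') (RecP_.al_pos x').le
    exact Finset.mem_filter.2 ⟨Finset.mem_univ _, (Finset.mem_filter.1 hx').2.1.1⟩
  · intro x l hxl
    exact lt_of_lt_of_le hek (hJ2 x l hxl)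
  · exact nrS_of (nrB_congr (fun c hcj => hhB c hcj v) hN) hK1 hη1

end

end Pool.Agent.Lib.GSX
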