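import Pool.Agent.Lib.GSX.BOne
import Pool.Agent.Lib.GSX.ThkR
import Pool.Agent.Lib.GSX.KB
import Pool.Agent.Lib.GSX.BRec
import Pool.Agent.Lib.GSX.XBrec

/-!
# The output of one stage of the pool

From the facts `RFct`, `TFct` about the stage `sg j` of a pool with the item `T`:

* `RFct.thick`: the thick labels have a small weight;
* `RFct.bad`: most of the typical nodes have a self-linked allowed cell;
* `RFct.stX`: a thin vertex of the world with a self-linked allowed cell satisfies `StX`.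
-/

set_option autoImplicit false

namespace Pool.Agent.Lib.GSX

open Finset Classical
open Pool.Agent.Lib.GSR3 (Tree)
open Pool.Agent.Lib.FGF (Frac cm)
open Pool.Agent.Lib.GSLE (kp brw hc cl win cells)
open Pool.Agent.Lib.TCW (Cst NrB)

section

variable {V : Type} [Fintype V] {P : Cn} {G : SimpleGraph V} {s : Fin P.N} {S : Sta P V}
  {I : Inp P V} {T : Finset (Fin P.N)} {Kl : ℝ} {sg : ℕ → Fin P.N} {j m : ℕ} {Bm : ℝ}

namespace RFct

/-- The hypotheses of `BRec.lean`. -/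
theorem bdd (h : RFct P G s S I T Kl) (h1 : ∑ x, I.n3 x ≤ 1) :
    BRec_.Bdd P G S I T Kl (Kl * PayM_.Cq) where
  e0 := h.e0
  n3 := h.ip.n3
  pi := h.best.pi_nonneg
  pi1 := h.best.sum_pi.le
  hlo := h.hl
  hhi := h.hu
  lev := h.lvh.lev
  K0 := h.lvh.K0
  Db := h.lvh.Db
  Dm0 := mul_nonneg h.lvh.K0 PayM_.Cq_pos.le
  Dm := fun l => h.lvh.kk P.g0 l

/-- The weight of one scale of the labels which are not served, at a node, one level lower. -/
theorem nodes (h : RFct P G s S I T Kl) (ht : TFct P G S I sg j m Bm) {g₀ : ℕ}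
    {Pm q ε η : ℝ} {d : ℕ} {k : Cst} (hk : NrK P g₀ m Kl Pm Bm q ε d η k) (hmh : m < P.h)
    (hinj : ∀ c < j, ∀ c' < j, sg c = sg c' → c = c') (hsg : ∀ c < j, sg c ∈ T)
    {O : Finset (Ce P V)}
    (hO : ∀ l ∈ O, LabC P G S I T sg j m (k.l0 - 1) ε q (P.I0 + 1) l ∧ rho P G S I T l ≠ 0)
    {S' : Finset ℕ} (hS' : S' ⊆ range j) (hSm : S'.card = m) {t : V} (htW : t ∈ I.W)
    (hth : fs P G I t < 1)
    (col : ∃ f : V → Fin P.kap, ∀ u w, G.Adj t u → G.Adj t w → G.Adj u w → f u ≠ f w) (r : ℤ) :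
    ∑ o ∈ O with G.Adj (hub o) t ∧ HB P sg j j o = r ∧ ∀ c ∈ insert j S',
      HB P sg j c o + (k.l0 - 1 : ℤ) ≤ hB P G S I sg j c t, wB P G S I T o ≤ k.K := by
  obtain ⟨f, hf⟩ := col
  have hst := h.stB (Bm := Bm) hk.g hk.xiD hk.q0 hk.qq hk.Pm1 hk.PmD hk.Bm0 hinj hsg hO
  have htg : TgB P G S I sg m Bm S' t := ht.tgB hinj hS' hSm htW hth
  rcases Nat.lt_or_eq_of_le (Nat.succ_le_of_lt hmh) with h1 | h1
  · obtain ⟨e, H⟩ := hk.two h1
    refine hst.nr2_A h1 hf hS' hSm htg ?_ H.srv H.Z1 hk.kK H.e1 H.e2 (H.e5 _ le_rfl)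
      (H.e6 _ le_rfl) (H.e7 _ le_rfl) r
    intro l hl q' mu a1 a2 a3 a4 a5 a6
    have h2 : (img P sg S').card = m := (card_img P sg j hinj hS').trans hSm
    exact h.best.sv_opt T (img P sg S') l q' mu a1 a2 a3 a4 a5 (by rw [h2]; exact a6)
  · have H := hk.one h1
    exact hst.nr2_1 h1 hf H.M1 hS' hSm htg hk.kK.le H.e2' (H.e6' _ le_rfl) r

/-- **The thick labels have a small weight.** -/
theorem thick (h : RFct P G s S I T Kl) (ht : TFct P G S I sg j m Bm) {g₀ : ℕ}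
    {Pm q ε η : ℝ} {d : ℕ} {k : Cst} (hk : NrK P g₀ m Kl Pm Bm q ε d η k) (hmh : m < P.h)
    (hinj : ∀ c < j, ∀ c' < j, sg c = sg c' → c = c') (hsg : ∀ c < j, sg c ∈ T)
    (h1 : ∑ x, I.n3 x ≤ 1)
    (col : ∀ t, ∃ f : V → Fin P.kap, ∀ u w, G.Adj t u → G.Adj t w → G.Adj u w → f u ≠ f w) :
    ∑ l with LabT P G S I T sg j m k.l0 ε q d l, rho P G S I T l ≤
      j.choose m * (k.K / (ε / 8) * (q ^ (d - 2) / (1 - q))) := by
  have hq1 : q < 1 := by
    have h2 := hk.qq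
    have h3 := hk.q0
    nlinarith
  obtain ⟨O, hO⟩ : ∃ O : Finset (Ce P V), O = Finset.univ.filter fun l =>
    LabT P G S I T sg j m k.l0 ε q d l ∧ rho P G S I T l ≠ 0 := ⟨_, rfl⟩
  have hO1 : ∀ l ∈ O, LabT P G S I T sg j m k.l0 ε q d l ∧ rho P G S I T l ≠ 0 := by
    intro l hl
    rw [hO] at hl
    exact (Finset.mem_filter.1 hl).2
  have h2 : ∑ l with LabT P G S I T sg j m k.l0 ε q d l, rho P G S I T l =
      ∑ l ∈ O, rho P G S I T l := by
    symm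
    refine Finset.sum_subset ?_ fun l hl hl' => ?_
    · intro l hl
      exact Finset.mem_filter.2 ⟨Finset.mem_univ _, (hO1 l hl).1⟩
    · by_contra h3
      exact hl' (by
        rw [hO]
        exact Finset.mem_filter.2 ⟨Finset.mem_univ _, (Finset.mem_filter.1 hl).2, h3⟩)
  have hρ : ∀ l ∈ O, 0 ≤ rho P G S I T l := fun l _ =>
    RecP_.rho_nonneg h.ip.n3 h.best.pi_nonneg T l
  have h3 := thick_rec (P := P) (G := G) (S := S) (I := I) (T := T) (sg := sg) (j := j) (m := m)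
    (l0 := k.l0) (ε := ε) (d := d) (O := O) (O₂ := O) h.ip.n3 hρ hk.q0 hq1 hk.qq hk.kK.le ?_ hk.ε0
    hk.d2 (Finset.Subset.refl O) ?_
  · rw [h2]
    refine h3.trans (mul_le_mul_of_nonneg_left ?_ (Nat.cast_nonneg _))
    refine mul_le_of_le_one_right ?_ h1
    have h4 := hk.kK
    have h5 := hk.ε0
    have h6 := hk.q0
    have h7 : 0 < 1 - q := by linarith
    positivity
  · intro S' hS' hSm x hx r
    refine h.nodes ht hk hmh hinj hsg ?_ hS' hSm (h.lvh.nW x hx) (h.thin x hx) (col x) r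
    intro l hl
    obtain ⟨a1, a2⟩ := hO1 l hl
    exact ⟨labC_void a1.hW a1.cel a1.dD.le fun S' b1 b2 => (a1.uns S' b1 b2).le, a2⟩
  · intro l hl hcon
    obtain ⟨S', a1, a2, r, a3, a4⟩ := (hO1 l hl).1.thk
    exact absurd (hcon S' a1 a2 r a3) (not_lt.2 a4)

end RFct

/-- The inequalities between the constants for the typical nodes and the near sums: `nq` is the
number of the stages of a pool, `K` bounds the near sums in the window `v0 + 2`. -/
structure TyK (P : Cn) (nq m : ℕ) (Kl Pm q ε : ℝ) (d : ℕ) (K1 F K C1 tau ek ex : ℝ)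
    (v0 wn N : ℕ) (X KX : ℝ) : Prop where
  typ : BtypC P.M P.h F K C1 tau v0 wn N ek
  exk : ex < ek
  fC1 : 2 / P.eps1 ≤ C1
  fv0 : P.g0 + 1 ≤ v0
  fwn : P.w0 + 1 ≤ wn
  fN : P.N ≤ N
  cA : 8 * (2 : ℝ) ^ nq * P.cA ≤ 1
  fX : ∀ j < nq, (j.choose m : ℝ) ≤ X
  sm : 8 * (P.del * K) + 8 * (Pm * (X * (K1 / (ε / 8) * (q ^ (d - 2) / (1 - q))))) ≤ tau / 2
  Kw : Kl * PayM_.Cq * (2 : ℝ) ^ (3 * ((v0 + 2 : ℕ) : ℝ) / 2) ≤ K
  Kr : (2 * ((v0 + 2 : ℕ) : ℝ) + 3) * Kl ≤ K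
  fKX : K < KX

section

variable {g₀ : ℕ} {Pm q ε η : ℝ} {d : ℕ} {k : Cst} {K1 : ℝ} {nq : ℕ} {F K C1 tau ek ex : ℝ}
  {v0 wn N : ℕ} {X KX : ℝ}

/-- **Most of the typical nodes have a self-linked allowed cell.** -/
theorem RFct.bad (h : RFct P G s S I T Kl) (ht : TFct P G S I sg j m Bm)
    (hk : NrK P g₀ m Kl Pm Bm q ε d η ⟨k.w0, k.l0, k.l1, k.u, K1, k.R1⟩)
    (hty : TyK P nq m Kl Pm q ε d K1 F K C1 tau ek ex v0 wn N X KX) (hj : j < nq)
    (hmh : m < P.h)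
    (hinj : ∀ c < j, ∀ c' < j, sg c = sg c' → c = c') (hsg : ∀ c < j, sg c ∈ T)
    (h1 : ∑ x, I.n3 x ≤ 1) (hFr : Frac G F) (hT : ∀ φ : List (Fin P.M) → V, ¬ Tree G P.h P.M φ)
    (col : ∀ t, ∃ f : V → Fin P.kap, ∀ u w, G.Adj t u → G.Adj t w → G.Adj u w → f u ≠ f w)
    (Y : Finset V) (hY : ∀ x ∈ Y, I.n3 x ≠ 0 → P.eps1 * al P G I x ≤ AS P G S I T x ∧
      ∀ S' ⊆ range j, S'.card = m →
        ∑ l, wA P G S I T l x * sv P G S I T (img P sg S') l ≤ 2 * P.cA) :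
    ∑ x ∈ Y with ¬ Lnk P G S I T (LabO P G S I T sg j m k.l0 ε q d) ek x, I.n3 x ≤ tau := by
  have B := h.bdd h1
  have hq1 : q < 1 := by
    have h2 := hk.qq
    have h3 := hk.q0
    nlinarith
  have hCq := PayM_.Cq_pos
  have hKl := h.lvh.K0
  have hD : 0 ≤ Kl * PayM_.Cq := mul_nonneg hKl hCq.le
  have hth := h.thick ht hk hmh hinj hsg h1 col
  have hpos : 0 ≤ K1 / (ε / 8) * (q ^ (d - 2) / (1 - q)) := by
    have h4 : 0 < K1 := hk.kK
    have h5 := hk.ε0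
    have h6 := hk.q0
    have h7 : 0 < 1 - q := by linarith
    positivity
  have hth' : ∑ l with LabT P G S I T sg j m k.l0 ε q d l, rho P G S I T l ≤
      X * (K1 / (ε / 8) * (q ^ (d - 2) / (1 - q))) :=
    hth.trans (mul_le_mul_of_nonneg_right (hty.fX j hj) hpos)
  have hPm : 0 ≤ Pm := le_trans zero_le_one hk.Pm1
  refine hty.typ P V G S I T sg j m k.l0 ε q d Pm
    (X * (K1 / (ε / 8) * (q ^ (d - 2) / (1 - q)))) Y hFr hT h.cp h.ip.n3 h.best.pi_nonneg h1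
    hty.fC1 hty.fv0 hty.fwn hty.fN ?_ hty.sm hPm hinj hsg ?_ ?_ ?_ ?_ hth' hY
  · have h2 : (2 : ℝ) ^ j ≤ 2 ^ nq := pow_le_pow_right₀ (by norm_num) hj.le
    have h3 := hty.cA
    have h4 := h.cp.cA
    nlinarith
  · intro x
    refine le_trans (le_of_eq ?_) ((BRec_.near_w B x ((v0 + 2 : ℕ) : ℝ)
      (fun l => LabO P G S I T sg j m k.l0 ε q d l ∧ G.Adj x (hub l) ∧
        |hs P G I x + (sca l : ℕ)| ≤ (v0 + 2 : ℝ)) fun l hl => ?_).trans hty.Kw)
    · exact Finset.sum_congr (by ext; simp only [Finset.mem_filter]) fun _ _ => rfl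
    · refine ⟨hl.2.1, hl.1.hW, ?_⟩
      push_cast
      exact hl.2.2
  · intro l hl
    refine le_trans (le_of_eq ?_) ((BRec_.near_r B hl.hW (sca l) (v0 + 2) (fun x =>
      G.Adj x (hub l) ∧ |hs P G I x + (sca l : ℕ)| ≤ (v0 + 2 : ℝ)) fun x hx => ?_).trans hty.Kr)
    · exact Finset.sum_congr (by ext; simp only [Finset.mem_filter]) fun _ _ => rfl
    · refine ⟨hx.1, ?_⟩
      push_cast
      exact hx.2
  · refine (PayM_.rho_mass h.lvh h.best.pi_nonneg h.best.sum_pi.le T h.hl h.hu).trans ?_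
    refine le_trans ?_ hty.Kw
    refine le_mul_of_one_le_right hD (Real.one_le_rpow (by norm_num) (by positivity))
  · intro l _
    refine (PayM_.PA_mass h.lvh h.cp.eps1 T l).trans (le_trans (le_of_eq ?_) hk.PmD)
    have h2 := h.cp.eps1.ne'
    field_simp

/-- **The thin vertices of the world with a self-linked allowed cell satisfy `StX`.** -/
theorem RFct.stX (h : RFct P G s S I T Kl) (ht : TFct P G S I sg j m Bm)
    (hk : NrK P g₀ m Kl Pm Bm q ε d η ⟨k.w0, k.l0, k.l1, k.u, K1, k.R1⟩) (hK1 : K1 < k.K)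
    (hty : TyK P nq m Kl Pm q ε d K1 F K C1 tau ek ex v0 wn N X KX)
    (hmh : m < P.h)
    (hinj : ∀ c < j, ∀ c' < j, sg c = sg c' → c = c') (hsg : ∀ c < j, sg c ∈ T)
    (h1 : ∑ x, I.n3 x ≤ 1) {v : V} (hv : v ∈ I.W) (hf : fs P G I v < 1)
    (col : ∃ f : V → Fin P.kap, ∀ u w, G.Adj v u → G.Adj v w → G.Adj u w → f u ≠ f w)
    (hl : Lnk P G S I T (LabO P G S I T sg j m k.l0 ε q d) ek v) :
    StX P G S I T sg j m k.l0 ε q d k KX ex η v := by
  have B := h.bdd h1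
  have hg : P.g0 + 1 ≤ ((v0 + 2 : ℕ) : ℝ) := by
    have h2 := hty.fv0
    push_cast
    linarith
  exact
  { n0 := h.ip.n3
    rho0 := fun l => RecP_.rho_nonneg h.ip.n3 h.best.pi_nonneg T l
    mem := hsg
    lnk := ⟨ek, hty.exk, hl⟩
    wI := by
      intro x l _ _
      refine lt_of_le_of_lt (le_trans (le_of_eq ?_) ((BRec_.near_w B x ((v0 + 2 : ℕ) : ℝ)
        (fun l' => OwC P G S I T x l' ∧ LabC P G S I T sg j m k.l0 ε q d l')
        fun l' hl' => ?_).trans hty.Kw)) hty.fKX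
      · exact Finset.sum_congr (by ext; simp only [Finset.mem_filter]) fun _ _ => rfl
      · exact ⟨hl'.1.adj, hl'.1.hW, hl'.1.own.trans hg⟩
    rI := by
      intro x l _ hlo
      refine lt_of_le_of_lt (le_trans (BRec_.near_r B hlo.hW (sca l) (v0 + 2)
        (fun x' => OwC P G S I T x' l) fun x' hx' => ?_) hty.Kr) hty.fKX
      exact ⟨hx'.adj, hx'.own.trans hg⟩
    nr := ⟨η, K1, le_rfl, hK1, h.nrB ht hk hmh hinj hsg hv hf col⟩ }

end

end

end Pool.Agent.Lib.GSX
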