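import Pool.Agent.Lib.GSX.BDef
import Pool.Agent.Lib.GSX.RecP

/-!
# The share of the allowed cells at the typical nodes

At a node of the side `YES` of the item `T` the cells carry the total weight one.  A cell which is
not allowed has a small own mass, or it is served, or it is thick.
-/

set_option autoImplicit false

namespace Pool.Agent.Lib.GSX

open Finset Classical
open Pool.Agent.Lib.GSLE (hc cells)
open RecP_

section

variable {V : Type} [Fintype V] (P : Cn) (G : SimpleGraph V) (S : Sta P V) (I : Inp P V)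
  (T : Finset (Fin P.N)) (sg : ℕ → Fin P.N) (j : ℕ)

/-- The thick labels: labels with own mass more than `del`, not served, but thick. -/
structure LabT (m : ℕ) (l0 : ℤ) (ε q : ℝ) (d : ℕ) (l : Ce P V) : Prop where
  hW : hub l ∈ I.W
  cel : l.2 ∈ cells P.N P.I0 T
  dD : P.del < DD P G S I T l
  uns : ∀ S' ⊆ range j, S'.card = m → P.dl m <
    Rv P G S I T (img P sg S') l (I.q T (img P sg S') l) (I.mu T (img P sg S') l)
  thk : ∃ S' ⊆ range j, S'.card = m ∧ ∃ r, r + d ≤ sca l ∧
    ε * q ^ (sca l - r) ≤ TM P G S I sg j l0 (insert j S') r l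

variable {P G S I T sg j}

namespace BTyp_

/-- Cells with a positive weight at `x`. -/
theorem wA_ne {x : V} {l : Ce P V} (h : wA P G S I T l x ≠ 0) :
    l.2 ∈ cells P.N P.I0 T ∧ hub l ∈ I.W ∧ CS P G S I T x l ≠ 0 := by
  unfold wA at h
  rw [div_ne_zero_iff] at h
  have h1 := right_ne_zero_of_mul h.1
  refine ⟨(GSLE.rhoC_ne (left_ne_zero_of_mul h.1)).1, ?_, h1⟩
  exact (kk_ne (CS_ne h1).1).2.1

/-- The cases of a cell which is not allowed. -/
theorem cases {m : ℕ} {l0 : ℤ} {ε q : ℝ} {d : ℕ} {l : Ce P V} (hW : hub l ∈ I.W)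
    (hcel : l.2 ∈ cells P.N P.I0 T) :
    LabO P G S I T sg j m l0 ε q d l ∨ DD P G S I T l ≤ P.del ∨
      LabT P G S I T sg j m l0 ε q d l ∨
      (P.del ≤ DD P G S I T l ∧ ∃ S' ∈ (range j).powersetCard m,
        Rv P G S I T (img P sg S') l (I.q T (img P sg S') l) (I.mu T (img P sg S') l) ≤
          P.dl m) := by
  by_cases h1 : DD P G S I T l ≤ P.del
  · exact Or.inr (Or.inl h1)
  rw [not_le] at h1
  by_cases h2 : ∀ S' ⊆ range j, S'.card = m → P.dl m <
      Rv P G S I T (img P sg S') l (I.q T (img P sg S') l) (I.mu T (img P sg S') l)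
  · by_cases h3 : ∀ S' ⊆ range j, S'.card = m → ∀ r, r + d ≤ sca l →
        TM P G S I sg j l0 (insert j S') r l < ε * q ^ (sca l - r)
    · exact Or.inl ⟨hW, hcel, h1, h2, h3⟩
    · push Not at h3
      obtain ⟨S', h4, h5, r, h6, h7⟩ := h3
      exact Or.inr (Or.inr (Or.inl ⟨hW, hcel, h1, h2, S', h4, h5, r, h6, h7⟩))
  · push Not at h2
    obtain ⟨S', h4, h5, h6⟩ := h2
    exact Or.inr (Or.inr (Or.inr ⟨h1.le, S', Finset.mem_powersetCard.2 ⟨h4, h5⟩, h6⟩))

/-- The total weight is the sum of the parts. -/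
theorem one_le (hP : CPos P) (hn : ∀ x, 0 ≤ I.n3 x) (hI : ∀ l, 0 ≤ I.pi l) {m : ℕ} {l0 : ℤ}
    {ε q : ℝ} {d : ℕ} (hinj : ∀ c < j, ∀ c' < j, sg c = sg c' → c = c') {x : V}
    (hx : P.eps1 * al P G I x ≤ AS P G S I T x) :
    1 ≤ ∑ l with LabO P G S I T sg j m l0 ε q d l, wA P G S I T l x +
      ∑ l with DD P G S I T l ≤ P.del, wA P G S I T l x +
      ∑ l with LabT P G S I T sg j m l0 ε q d l, wA P G S I T l x +
      ∑ S' ∈ (range j).powersetCard m, ∑ l, wA P G S I T l x * sv P G S I T (img P sg S') l := by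
  have hw : ∀ l, 0 ≤ wA P G S I T l x := fun l => wA_nonneg hP.eps1 hn hI T l x
  have hs : ∀ S' ∈ (range j).powersetCard m, ∀ l,
      0 ≤ wA P G S I T l x * sv P G S I T (img P sg S') l := fun S' _ l =>
    mul_nonneg (hw l) (sv_nonneg _ _ _)
  rw [← sum_wA_eq_one hP.eps1 hx, Finset.sum_comm (s := (range j).powersetCard m),
    Finset.sum_filter, Finset.sum_filter, Finset.sum_filter, ← Finset.sum_add_distrib,
    ← Finset.sum_add_distrib, ← Finset.sum_add_distrib]
  refine Finset.sum_le_sum fun l _ => ?_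
  have h1 : 0 ≤ (if LabO P G S I T sg j m l0 ε q d l then wA P G S I T l x else 0) := by
    split_ifs
    · exact hw l
    · exact le_rfl
  have h2 : 0 ≤ (if DD P G S I T l ≤ P.del then wA P G S I T l x else 0) := by
    split_ifs
    · exact hw l
    · exact le_rfl
  have h3 : 0 ≤ (if LabT P G S I T sg j m l0 ε q d l then wA P G S I T l x else 0) := by
    split_ifs
    · exact hw l
    · exact le_rfl
  have h4 : 0 ≤ ∑ S' ∈ (range j).powersetCard m,
      wA P G S I T l x * sv P G S I T (img P sg S') l :=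
    Finset.sum_nonneg fun S' hS' => hs S' hS' l
  by_cases h0 : wA P G S I T l x = 0
  · rw [h0] at h1 h2 h3 h4 ⊢
    linarith
  obtain ⟨h5, h6, -⟩ := wA_ne h0
  rcases cases (sg := sg) (j := j) (m := m) (l0 := l0) (ε := ε) (q := q) (d := d) h6 h5 with
    h | h | h | ⟨h, S', hS', h7⟩
  · rw [if_pos h]
    linarith
  · rw [if_pos h]
    linarith
  · rw [if_pos h]
    linarith
  · have h8 : (img P sg S').card = m := by
      obtain ⟨h9, h10⟩ := Finset.mem_powersetCard.1 hS'
      rw [← h10]
      unfold img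
      refine Finset.card_image_of_injOn fun a ha b hb hab => ?_
      exact hinj a (Finset.mem_range.1 (h9 ha)) b (Finset.mem_range.1 (h9 hb)) hab
    have h9 : sv P G S I T (img P sg S') l = 1 := sv_eq_one hP (by rw [h8]; exact h7) h
    have h10 := Finset.single_le_sum (fun S' hS' => hs S' hS' l) hS'
    simp only [h9, mul_one] at h10
    linarith

/-- Markov's inequality for the share of a set of labels. -/
theorem markov (hP : CPos P) (hn : ∀ x, 0 ≤ I.n3 x) (hI : ∀ l, 0 ≤ I.pi l)
    (L : Finset (Ce P V)) {t : ℝ} (ht : 0 < t) {B : ℝ}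
    (hB : ∑ l ∈ L, rho P G S I T l * DD P G S I T l ≤ B) :
    ∑ x with t ≤ ∑ l ∈ L, wA P G S I T l x, I.n3 x ≤ B / t := by
  rw [le_div_iff₀ ht, Finset.sum_mul]
  have h1 : ∑ x, I.n3 x * ∑ l ∈ L, wA P G S I T l x =
      ∑ l ∈ L, rho P G S I T l * DD P G S I T l := by
    simp_rw [Finset.mul_sum]
    rw [Finset.sum_comm]
    exact Finset.sum_congr rfl fun l _ => sum_n3_wA T l
  calc ∑ x with t ≤ ∑ l ∈ L, wA P G S I T l x, I.n3 x * t
      ≤ ∑ x with t ≤ ∑ l ∈ L, wA P G S I T l x, I.n3 x * ∑ l ∈ L, wA P G S I T l x :=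
        Finset.sum_le_sum fun x hx => mul_le_mul_of_nonneg_left (Finset.mem_filter.1 hx).2 (hn x)
    _ ≤ ∑ x, I.n3 x * ∑ l ∈ L, wA P G S I T l x :=
        Finset.sum_le_sum_of_subset_of_nonneg (Finset.filter_subset _ _) fun x _ _ =>
          mul_nonneg (hn x) (Finset.sum_nonneg fun l _ => wA_nonneg hP.eps1 hn hI T l x)
    _ ≤ B := h1.le.trans hB

end BTyp_

open BTyp_

/-- **The share of the allowed cells.**  `Y` is a set of vertices on the side `YES` of the item at
which the served shares are small.  Up to a set of small mass, the allowed cells have at least half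
of the share at the nodes of `Y`. -/
theorem btyp_share (hP : CPos P) (hn : ∀ x, 0 ≤ I.n3 x) (hI : ∀ l, 0 ≤ I.pi l) {m : ℕ} {l0 : ℤ}
    {ε q : ℝ} {d : ℕ} (hinj : ∀ c < j, ∀ c' < j, sg c = sg c' → c = c')
    (hcA : (2 : ℝ) ^ j * (2 * P.cA) ≤ 1 / 4) {R0 Pm th : ℝ} (hR : ∑ l, rho P G S I T l ≤ R0)
    (hPm : ∀ l, hub l ∈ I.W → DD P G S I T l ≤ Pm)
    (hPm0 : 0 ≤ Pm)
    (hth : ∑ l with LabT P G S I T sg j m l0 ε q d l, rho P G S I T l ≤ th) (Y : Finset V)
    (hY : ∀ x ∈ Y, I.n3 x ≠ 0 → P.eps1 * al P G I x ≤ AS P G S I T x ∧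
      ∀ S' ⊆ range j, S'.card = m →
        ∑ l, wA P G S I T l x * sv P G S I T (img P sg S') l ≤ 2 * P.cA) :
    ∑ x ∈ Y with ¬ 1 / 2 ≤ ∑ l with LabO P G S I T sg j m l0 ε q d l, wA P G S I T l x, I.n3 x ≤
      8 * (P.del * R0) + 8 * (Pm * th) := by
  have hrho : ∀ l, 0 ≤ rho P G S I T l := fun l => rho_nonneg hn hI T l
  -- the two bad sets
  have hB1 : ∑ l with DD P G S I T l ≤ P.del, rho P G S I T l * DD P G S I T l ≤ P.del * R0 := by
    calc ∑ l with DD P G S I T l ≤ P.del, rho P G S I T l * DD P G S I T l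
        ≤ ∑ l with DD P G S I T l ≤ P.del, rho P G S I T l * P.del :=
          Finset.sum_le_sum fun l hl =>
            mul_le_mul_of_nonneg_left (Finset.mem_filter.1 hl).2 (hrho l)
      _ ≤ ∑ l, rho P G S I T l * P.del :=
          Finset.sum_le_sum_of_subset_of_nonneg (Finset.filter_subset _ _) fun l _ _ =>
            mul_nonneg (hrho l) hP.del.le
      _ = P.del * ∑ l, rho P G S I T l := by rw [← Finset.sum_mul, mul_comm]
      _ ≤ P.del * R0 := mul_le_mul_of_nonneg_left hR hP.del.le
  have hB2 : ∑ l with LabT P G S I T sg j m l0 ε q d l, rho P G S I T l * DD P G S I T l ≤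
      Pm * th := by
    calc ∑ l with LabT P G S I T sg j m l0 ε q d l, rho P G S I T l * DD P G S I T l
        ≤ ∑ l with LabT P G S I T sg j m l0 ε q d l, rho P G S I T l * Pm :=
          Finset.sum_le_sum fun l hl =>
            mul_le_mul_of_nonneg_left (hPm l (Finset.mem_filter.1 hl).2.hW) (hrho l)
      _ = Pm * ∑ l with LabT P G S I T sg j m l0 ε q d l, rho P G S I T l := by
          rw [← Finset.sum_mul, mul_comm]
      _ ≤ Pm * th := mul_le_mul_of_nonneg_left hth hPm0
  have h8 : (0 : ℝ) < 1 / 8 := by norm_num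
  have hM1 := markov hP hn hI (Finset.univ.filter fun l => DD P G S I T l ≤ P.del) h8 hB1
  have hM2 := markov hP hn hI
    (Finset.univ.filter fun l => LabT P G S I T sg j m l0 ε q d l) h8 hB2
  have h9 : ∀ a : ℝ, a / (1 / 8) = 8 * a := fun a => by ring
  rw [h9] at hM1 hM2
  refine le_trans ?_ (add_le_add hM1 hM2)
  rw [← Finset.sum_filter_ne_zero (s := Y.filter _)]
  calc ∑ x ∈ (Y.filter fun x => ¬ 1 / 2 ≤
        ∑ l with LabO P G S I T sg j m l0 ε q d l, wA P G S I T l x).filter
          (fun x => I.n3 x ≠ 0), I.n3 x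
      ≤ ∑ x ∈ (Finset.univ.filter fun x => 1 / 8 ≤
          ∑ l with DD P G S I T l ≤ P.del, wA P G S I T l x) ∪
        (Finset.univ.filter fun x => 1 / 8 ≤
          ∑ l with LabT P G S I T sg j m l0 ε q d l, wA P G S I T l x), I.n3 x := by
        refine Finset.sum_le_sum_of_subset_of_nonneg ?_ fun x _ _ => hn x
        intro x hx
        rw [Finset.mem_filter, Finset.mem_filter] at hx
        obtain ⟨⟨hxY, hx1⟩, hx0⟩ := hx
        obtain ⟨h1, h2⟩ := hY x hxY hx0
        by_contra hcon
        rw [Finset.mem_union, Finset.mem_filter, Finset.mem_filter, not_or] at hcon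
        have h3 : ¬ 1 / 8 ≤ ∑ l with DD P G S I T l ≤ P.del, wA P G S I T l x := fun h =>
          hcon.1 ⟨Finset.mem_univ _, h⟩
        have h4 : ¬ 1 / 8 ≤ ∑ l with LabT P G S I T sg j m l0 ε q d l, wA P G S I T l x :=
          fun h => hcon.2 ⟨Finset.mem_univ _, h⟩
        rw [not_le] at h3 h4 hx1
        have h5 := one_le (m := m) (l0 := l0) (ε := ε) (q := q) (d := d) hP hn hI hinj h1
        have h6 : ∑ S' ∈ (range j).powersetCard m,
            ∑ l, wA P G S I T l x * sv P G S I T (img P sg S') l ≤ 1 / 4 := by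
          calc ∑ S' ∈ (range j).powersetCard m,
                ∑ l, wA P G S I T l x * sv P G S I T (img P sg S') l
              ≤ ∑ _S' ∈ (range j).powersetCard m, 2 * P.cA :=
                Finset.sum_le_sum fun S' hS' => by
                  obtain ⟨h9, h10⟩ := Finset.mem_powersetCard.1 hS'
                  exact h2 S' h9 h10
            _ = ((range j).powersetCard m).card * (2 * P.cA) := by
                rw [Finset.sum_const, nsmul_eq_mul]
            _ ≤ (2 : ℝ) ^ j * (2 * P.cA) := by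
                refine mul_le_mul_of_nonneg_right ?_ (by have := hP.cA; linarith)
                have h11 : ((range j).powersetCard m).card ≤ 2 ^ j := by
                  rw [Finset.card_powersetCard, Finset.card_range]
                  exact Nat.choose_le_two_pow j m
                exact_mod_cast h11
            _ ≤ 1 / 4 := hcA
        linarith
    _ ≤ _ := by
        refine le_trans (le_of_eq ?_) (le_add_of_nonneg_right
          (Finset.sum_nonneg (s := (Finset.univ.filter fun x => 1 / 8 ≤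
            ∑ l with DD P G S I T l ≤ P.del, wA P G S I T l x) ∩
            (Finset.univ.filter fun x => 1 / 8 ≤
              ∑ l with LabT P G S I T sg j m l0 ε q d l, wA P G S I T l x))
            fun x _ => hn x)) |>.trans (le_of_eq (Finset.sum_union_inter))
        rfl

end

end Pool.Agent.Lib.GSX
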