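import Pool.Agent.Lib.GSX.RecP

/-!
# The bounds of the masters: the four parts of the new master (static)

`(b)`: the charge of the master `m^C_v` at `u` is at most `B |C| * ∑ c ∈ C, brw (a_c u / a_c v)`.
Here: the bracket and the kernel, the linearity of the charge, the parts of the earlier masters and
of the payers in the two modes.
-/

set_option autoImplicit false

namespace Pool.Agent.Lib.GSX.BdM_

open Finset Classical
open Pool.Agent.Lib.GSX.RecP_
open Pool.Agent.Lib.FGF (cm)
open Pool.Agent.Lib.GSLE (kp brw cl win stp Cel hc kp_nonneg kp_le_one kp_pos kp_of_le kp_of_ge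
  kp_mul brw_nonneg brw_mono brw_mul_le brw_one brw_of_le brw_of_ge brw_avg brw_div_le)
open Pool.Agent.Lib.GSR (vioC_nonneg)
open Pool.Agent.Lib.GSR.Srv_ (cm_cl)

/-! ### The bracket and the kernel -/

theorem brw_quarter {v : ℝ} (hv : 0 < v) : brw (1 / 4) v = v / √(kp v) := by
  rw [eq_div_iff (Real.sqrt_pos.2 (kp_pos hv)).ne']
  rcases le_total v 1 with h | h
  · rw [kp_of_le h, brw_of_le h, Real.sqrt_eq_rpow, Real.sqrt_eq_rpow, ← Real.rpow_mul hv.le,
      ← Real.rpow_add hv]
    norm_num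
  · have h1 : 1 / v ^ (1 / 2 : ℝ) = v ^ (-(1 / 2) : ℝ) := by
      rw [Real.rpow_neg hv.le, one_div]
    rw [kp_of_ge h, brw_of_ge h, Real.sqrt_eq_rpow, Real.sqrt_eq_rpow, h1,
      ← Real.rpow_mul hv.le, ← Real.rpow_add hv]
    norm_num

theorem kp_le_sqrt (v : ℝ) : kp v ≤ √(kp v) := by
  have h0 := kp_nonneg v
  have h1 := kp_le_one v
  refine Real.le_sqrt_of_sq_le ?_
  nlinarith

/-- The kernels at two scales. -/
theorem kernel_le {a a' b : ℝ} (ha : 0 < a) (ha' : 0 < a') (hb : 0 < b) :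
    √(kp (a / b)) / a ≤ brw (1 / 4) (a' / a) * (√(kp (a' / b)) / a') := by
  have h1 : 0 < a / b := div_pos ha hb
  have h2 : 0 < a' / a := div_pos ha' ha
  have h3 : 0 < √(kp (a' / a)) := Real.sqrt_pos.2 (kp_pos h2)
  have h4 : √(kp (a / b)) * √(kp (a' / a)) ≤ √(kp (a' / b)) := by
    rw [← Real.sqrt_mul (kp_nonneg _)]
    refine Real.sqrt_le_sqrt ((kp_mul h1 h2).trans (le_of_eq ?_))
    congr 1
    field_simp
  rw [brw_quarter h2]
  calc √(kp (a / b)) / a ≤ √(kp (a' / b)) / √(kp (a' / a)) / a := by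
        refine div_le_div_of_nonneg_right ?_ ha.le
        rwa [le_div_iff₀ h3]
    _ = a' / a / √(kp (a' / a)) * (√(kp (a' / b)) / a') := by
        field_simp

/-! ### Linearity of the charge -/

section lin

variable {V : Type} [Fintype V] {G : SimpleGraph V}

theorem cm_add (f g : V → ℝ) (x : V) : cm G (fun u => f u + g u) x = cm G f x + cm G g x := by
  rw [cm_cl, cm_cl, cm_cl, ← Finset.sum_add_distrib]
  exact Finset.sum_congr rfl fun u _ => by ring

theorem cm_mul (c : ℝ) (f : V → ℝ) (x : V) : cm G (fun u => c * f u) x = c * cm G f x := by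
  rw [cm_cl, cm_cl, Finset.mul_sum]
  exact Finset.sum_congr rfl fun u _ => by ring

theorem cm_sum {ι : Type} (s : Finset ι) (f : ι → V → ℝ) (x : V) :
    cm G (fun u => ∑ i ∈ s, f i u) x = ∑ i ∈ s, cm G (f i) x := by
  rw [cm_cl]
  simp_rw [cm_cl, Finset.sum_mul]
  exact Finset.sum_comm

end lin

/-! ### The step -/

/-- The bound of the masters of the rank `k + 1`, if `B` is the bound of the rank `k` and `b` the
bound of the payment functions. -/
noncomputable def Bst (P : Cn) (b : ℝ) (k : ℕ) (B : ℝ) : ℝ :=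
  1 / cst P k * (P.A' k * B + b + 2 ^ P.N *
    (2 * P.A' k * P.A k * B * P.dl k * brw (1 / 4) ((2 : ℝ) ^ (P.w0 + 1)) + 2 * b / P.eps1))

theorem Bst_nonneg {P : Cn} (hP : CPos P) {b : ℝ} (hb : 0 ≤ b) (k : ℕ) {B : ℝ} (hB : 0 ≤ B) :
    0 ≤ Bst P b k B := by
  have h1 := hP.A k
  have h2 := hP.A' k
  have h3 := (hP.dl k).le
  have h4 := hP.eps1
  have h5 : 0 ≤ brw (1 / 4) ((2 : ℝ) ^ (P.w0 + 1)) := brw_nonneg _ (by positivity)
  have h6 := cst_pos hP k
  unfold Bst
  positivity

section

variable {V : Type} [Fintype V] {P : Cn} {G : SimpleGraph V} {s : Fin P.N} {S : Sta P V}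
  {I : Inp P V}

/-- The bound `(b)` of the masters of `C` at `u`, for all the roots `v`. -/
def BdAt (P : Cn) (G : SimpleGraph V) (a : Fin P.N → V → ℝ) (m : V → V → ℝ)
    (C : Finset (Fin P.N)) (u : V) (B : ℝ) : Prop :=
  ∀ v, cm G (m v) u ≤ B * ∑ c ∈ C, brw (1 / 4) (a c u / a c v)

omit [Fintype V] in
theorem rpow_ht (hS : SPos S) (c : Fin P.N) (x : V) : (2 : ℝ) ^ (ht P S c x) = S.a c x :=
  Real.rpow_logb two_pos (by norm_num) (hS.a c x)

omit [Fintype V] in
/-- High hubs have a large scale. -/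
theorem rich_a (hS : SPos S) {C : Finset (Fin P.N)} {x y : V} (hl : 0 ≤ P.lG)
    (h : rich P S C x y ≠ 0) {c : Fin P.N} (hc : c ∈ C) : S.a c x ≤ S.a c y := by
  rw [← rpow_ht hS c x, ← rpow_ht hS c y]
  have h1 := rich_ne h hc
  exact Real.rpow_le_rpow_of_exponent_le one_le_two (by linarith)

/-- Own nodes of a cell have a small scale with respect to the cell. -/
theorem own_a (hS : SPos S) {T : Finset (Fin P.N)} {x : V} {l : Ce P V}
    (h : CS P G S I T x l ≠ 0) {c : Fin P.N} (hc' : c ∈ T) :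
    S.a c x / (2 : ℝ) ^ (hc 1 l.2 c) ≤ (2 : ℝ) ^ (P.w0 + 1) := by
  have h1 := abs_lt.1 ((CS_ne h).2.1 c hc')
  rw [← rpow_ht hS c x, ← Real.rpow_intCast, ← Real.rpow_sub two_pos]
  exact Real.rpow_le_rpow_of_exponent_le one_le_two (by linarith)

/-- The mean cost of the heights of a service. -/
theorem mean_cost (hP : CPos P) (hS : SPos S) (hI : IPos I) {T C : Finset (Fin P.N)} {l : Ce P V}
    (h : sv P G S I T C l ≠ 0) {c : Fin P.N} (hc' : c ∈ C) :
    ∑ t, I.q T C l t * brw (1 / 4) ((2 : ℝ) ^ (hc 1 l.2 c) / S.a c t) ≤ 2 * P.dl C.card := by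
  have h1 := (sv_ne hP h).1
  unfold Rv at h1
  have h2 : (0 : ℝ) ≤ Pool.Agent.Lib.GSR.vioC G P.M (P.h - C.card - 1) l.1.1
      (fun u => cm G (Mh P S C (I.q T C l) (I.mu T C l)) u + P.Z' C.card * Fs P G S I u) I.W :=
    vioC_nonneg
  have h3 : 0 ≤ ∑ x, PA P G S I T l x * cm G (Mh P S C (I.q T C l) (I.mu T C l)) x :=
    Finset.sum_nonneg fun x _ => mul_nonneg (PA_nonneg hP.eps1 hI.n3 T l x)
      (cm_nonneg' (fun u => Mh_nonneg hP.A hS.m C (hI.q T C l) (hI.mu T C l) u) x)
  have h4 : ∑ t, I.q T C l t * brw (1 / 4) ((2 : ℝ) ^ (hc 1 l.2 c) / S.a c t) ≤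
      ∑ t, I.q T C l t * hcost P G S I C l t := by
    refine Finset.sum_le_sum fun t _ => mul_le_mul_of_nonneg_left ?_ (hI.q T C l t)
    unfold hcost
    have h5 : brw (1 / 4) ((2 : ℝ) ^ (hc 1 l.2 c) / S.a c t) ≤
        ∑ c ∈ C, brw (1 / 4) ((2 : ℝ) ^ (hc 1 l.2 c) / S.a c t) :=
      Finset.single_le_sum (f := fun c => brw (1 / 4) ((2 : ℝ) ^ (hc 1 l.2 c) / S.a c t))
        (fun c _ => brw_nonneg _ (div_nonneg (by positivity) (hS.a c t).le)) hc'
    have h6 : (0 : ℝ) ≤ (if G.Adj t l.1.1 ∧ t ∈ I.W then 0 else 1) := by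
      split_ifs <;> norm_num
    linarith
  linarith

/-! ### The hub mode -/

/-- The part of the earlier masters. -/
theorem partP_m (hP : CPos P) (hS : SPos S) (hI : IPos I) (hl : 0 ≤ P.lG)
    {C : Finset (Fin P.N)} {u : V} {B : ℝ} (hB : 0 ≤ B)
    (hb : BdAt P G S.a (S.m C) C u B) (x : V) :
    ∑ l, wP P G S I C l x * cm G (S.m C l.1) u ≤
      B * ∑ c ∈ C, brw (1 / 4) (S.a c u / S.a c x) := by
  have h0 : 0 ≤ B * ∑ c ∈ C, brw (1 / 4) (S.a c u / S.a c x) :=
    mul_nonneg hB (Finset.sum_nonneg fun c _ =>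
      brw_nonneg _ (div_nonneg (hS.a c u).le (hS.a c x).le))
  calc ∑ l, wP P G S I C l x * cm G (S.m C l.1) u
      ≤ ∑ l, wP P G S I C l x * (B * ∑ c ∈ C, brw (1 / 4) (S.a c u / S.a c x)) := by
        refine Finset.sum_le_sum fun l _ => ?_
        by_cases h1 : wP P G S I C l x = 0
        · rw [h1, zero_mul, zero_mul]
        have h2 : rich P S C x l.1 ≠ 0 := by
          intro h2
          refine h1 ?_
          unfold wP CP
          rw [h2, mul_zero, mul_zero, zero_div]
        refine mul_le_mul_of_nonneg_left ((hb l.1).trans ?_) (wP_nonneg hI.pi C l x)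
        refine mul_le_mul_of_nonneg_left (Finset.sum_le_sum fun c hc' => ?_) hB
        refine brw_mono (by norm_num) (by norm_num)
          (div_nonneg (hS.a c u).le (hS.a c l.1).le) ?_
        exact div_le_div_of_nonneg_left (hS.a c u).le (hS.a c x) (rich_a hS hl h2 hc')
    _ = (∑ l, wP P G S I C l x) * (B * ∑ c ∈ C, brw (1 / 4) (S.a c u / S.a c x)) :=
        (Finset.sum_mul _ _ _).symm
    _ ≤ 1 * (B * ∑ c ∈ C, brw (1 / 4) (S.a c u / S.a c x)) :=
        mul_le_mul_of_nonneg_right (sum_wP_le hP.e0 hI.pi C x) h0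
    _ = _ := one_mul _

/-- The part of the payers. -/
theorem partP_r (hP : CPos P) (hI : IPos I) (C : Finset (Fin P.N)) (x u : V) :
    ∑ l, wP P G S I C l x * cm G (RP P G S I C l (I.lp C l)) u ≤
      brw (1 / 4) (al P G I u / al P G I x) * gpP P G S I C u := by
  unfold gpP
  rw [Finset.mul_sum]
  refine Finset.sum_le_sum fun l _ => ?_
  have hax := al_pos (G := G) (I := I) x
  have hau := al_pos (G := G) (I := I) u
  have h1 : 0 ≤ cm G (RP P G S I C l (I.lp C l)) u :=
    cm_nonneg' (fun u => RP_nonneg hP.eta hI.n3 C l (hI.lp C l) u) u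
  have h2 : CP P G S I C x l / al P G I x ≤ √(kp (al P G I x / lv l.2)) / al P G I x := by
    refine div_le_div_of_nonneg_right ?_ hax.le
    refine (CP_le C x l).trans ((kk_le _ x l).trans ?_)
    refine (mul_le_of_le_one_left (kp_nonneg _) (inc_le_one _ _ _)).trans (kp_le_sqrt _)
  have h3 := h2.trans (kernel_le hax hau (lv_pos l.2))
  calc wP P G S I C l x * cm G (RP P G S I C l (I.lp C l)) u
      = I.pi l * cm G (RP P G S I C l (I.lp C l)) u * (CP P G S I C x l / al P G I x) := by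
        unfold wP; ring
    _ ≤ I.pi l * cm G (RP P G S I C l (I.lp C l)) u *
          (brw (1 / 4) (al P G I u / al P G I x) *
            (√(kp (al P G I u / lv l.2)) / al P G I u)) :=
        mul_le_mul_of_nonneg_left h3 (mul_nonneg (hI.pi l) h1)
    _ = _ := by unfold kq; ring

/-! ### The cells -/

/-- The part of the services. -/
theorem partA_m (hP : CPos P) (hS : SPos S) (hI : IPos I)
    {T C : Finset (Fin P.N)} (hCT : C ⊆ T) {u : V} {B : ℝ} (hB : 0 ≤ B)
    (hb : BdAt P G S.a (S.m C) C u B) (x : V) :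
    ∑ l, wA P G S I T l x * sv P G S I T C l * ∑ t, I.q T C l t * cm G (S.m C t) u ≤
      2 * B * P.dl C.card * brw (1 / 4) ((2 : ℝ) ^ (P.w0 + 1)) *
        ∑ c ∈ C, brw (1 / 4) (S.a c u / S.a c x) := by
  have hw : 0 ≤ brw (1 / 4) ((2 : ℝ) ^ (P.w0 + 1)) := brw_nonneg _ (by positivity)
  have hdl := (hP.dl C.card).le
  set R : ℝ := 2 * B * P.dl C.card * brw (1 / 4) ((2 : ℝ) ^ (P.w0 + 1)) *
        ∑ c ∈ C, brw (1 / 4) (S.a c u / S.a c x) with hR
  have h0 : 0 ≤ R :=
    mul_nonneg (mul_nonneg (mul_nonneg (mul_nonneg (by norm_num) hB) hdl) hw)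
      (Finset.sum_nonneg fun c _ => brw_nonneg _ (div_nonneg (hS.a c u).le (hS.a c x).le))
  have hwA := fun l => wA_nonneg (G := G) (S := S) hP.eps1 hI.n3 hI.pi T l x
  calc ∑ l, wA P G S I T l x * sv P G S I T C l * ∑ t, I.q T C l t * cm G (S.m C t) u
      ≤ ∑ l, wA P G S I T l x * R := by
        refine Finset.sum_le_sum fun l _ => ?_
        rw [mul_assoc]
        by_cases h1 : wA P G S I T l x = 0
        · rw [h1, zero_mul, zero_mul]
        refine mul_le_mul_of_nonneg_left ?_ (hwA l)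
        by_cases h2 : sv P G S I T C l = 0
        · rw [h2, zero_mul]
          exact h0
        have h3 : CS P G S I T x l ≠ 0 := by
          intro h3
          refine h1 ?_
          unfold wA
          rw [h3, mul_zero, zero_div]
        have hq0 : ∀ c : Fin P.N, (0 : ℝ) < (2 : ℝ) ^ (hc 1 l.2 c) := fun c => by positivity
        have h4 := brw_avg (e := 1 / 4) (by norm_num) Finset.univ C (I.q T C l) (hI.q T C l)
          (fun t => cm G (S.m C t) u) (fun c => S.a c u) (fun c => (hS.a c u).le)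
          (fun t c => S.a c t) (fun t _ c _ => hS.a c t)
          (fun c => (2 : ℝ) ^ (hc 1 l.2 c)) (fun c _ => hq0 c) hB
          (fun t _ _ => hb t) (fun c hc' => mean_cost hP hS hI h2 hc')
        have h5 : ∑ c ∈ C, brw (1 / 4) (S.a c u / (2 : ℝ) ^ (hc 1 l.2 c)) ≤
            brw (1 / 4) ((2 : ℝ) ^ (P.w0 + 1)) *
              ∑ c ∈ C, brw (1 / 4) (S.a c u / S.a c x) := by
          rw [Finset.mul_sum]
          refine Finset.sum_le_sum fun c hc' => ?_
          refine (brw_div_le (e := 1 / 4) (by norm_num) (hS.a c u).le (hS.a c x)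
            (hq0 c)).trans ?_
          rw [mul_comm]
          refine mul_le_mul_of_nonneg_right ?_
            (brw_nonneg _ (div_nonneg (hS.a c u).le (hS.a c x).le))
          exact brw_mono (by norm_num) (by norm_num)
            (div_nonneg (hS.a c x).le (hq0 c).le) (own_a hS h3 (hCT hc'))
        have h6 : ∑ t, I.q T C l t * cm G (S.m C t) u ≤ R := by
          refine h4.trans ?_
          have h7 := mul_le_mul_of_nonneg_left h5
            (mul_nonneg hB (mul_nonneg zero_le_two hdl))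
          refine h7.trans (le_of_eq ?_)
          rw [hR]
          ring
        have h8 : 0 ≤ ∑ t, I.q T C l t * cm G (S.m C t) u :=
          Finset.sum_nonneg fun t _ => mul_nonneg (hI.q T C l t) (cm_nonneg' (hS.m C t) u)
        exact (mul_le_of_le_one_left h8 (sv_le_one T C l)).trans h6
    _ = (∑ l, wA P G S I T l x) * R := (Finset.sum_mul _ _ _).symm
    _ ≤ 1 * R := mul_le_mul_of_nonneg_right (sum_wA_le_one hP.eps1 T x) h0
    _ = R := one_mul _

/-- The part of the payers. -/
theorem partA_r (hP : CPos P) (hI : IPos I) (T C : Finset (Fin P.N)) (x u : V) :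
    ∑ l, wA P G S I T l x * sv P G S I T C l * cm G (RA P G S I T C l (I.la T C l)) u ≤
      2 / P.eps1 * (brw (1 / 4) (al P G I u / al P G I x) * gpA P G S I T C u) := by
  unfold gpA
  rw [Finset.mul_sum, Finset.mul_sum]
  refine Finset.sum_le_sum fun l _ => ?_
  have hax := al_pos (G := G) (I := I) x
  have hau := al_pos (G := G) (I := I) u
  have he := hP.eps1
  have h1 : 0 ≤ cm G (RA P G S I T C l (I.la T C l)) u :=
    cm_nonneg' (fun u => RA_nonneg hP hI T C l (hI.la T C l) u) u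
  have hrho := rho_nonneg (G := G) (S := S) hI.n3 hI.pi T l
  have h2 : CS P G S I T x l / BS P G S I T x ≤
      2 / P.eps1 * (√(kp (al P G I x / lv l.1.2)) / al P G I x) := by
    have h3 : CS P G S I T x l ≤ √(kp (al P G I x / lv l.1.2)) := by
      refine (CS_le T x l).trans ((kk_le _ x l.1).trans ?_)
      exact (mul_le_of_le_one_left (kp_nonneg _) (inc_le_one _ _ _)).trans (kp_le_sqrt _)
    have h4 : 0 < P.eps1 * al P G I x / 2 := by have := mul_pos he hax; linarith
    calc CS P G S I T x l / BS P G S I T x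
        ≤ √(kp (al P G I x / lv l.1.2)) / (P.eps1 * al P G I x / 2) :=
          div_le_div₀ (Real.sqrt_nonneg _) h3 h4 (half_le_BS T x)
      _ = _ := by field_simp
  have h3 := h2.trans (mul_le_mul_of_nonneg_left (kernel_le hax hau (lv_pos l.1.2))
    (div_nonneg zero_le_two he.le))
  have h5 : wA P G S I T l x * sv P G S I T C l * cm G (RA P G S I T C l (I.la T C l)) u ≤
      wA P G S I T l x * cm G (RA P G S I T C l (I.la T C l)) u := by
    refine mul_le_mul_of_nonneg_right ?_ h1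
    exact mul_le_of_le_one_right (wA_nonneg hP.eps1 hI.n3 hI.pi T l x) (sv_le_one T C l)
  refine h5.trans ?_
  calc wA P G S I T l x * cm G (RA P G S I T C l (I.la T C l)) u
      = rho P G S I T l * cm G (RA P G S I T C l (I.la T C l)) u *
          (CS P G S I T x l / BS P G S I T x) := by
        unfold wA; ring
    _ ≤ rho P G S I T l * cm G (RA P G S I T C l (I.la T C l)) u *
          (2 / P.eps1 * (brw (1 / 4) (al P G I u / al P G I x) *
            (√(kp (al P G I u / lv l.1.2)) / al P G I u))) :=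
        mul_le_mul_of_nonneg_left h3 (mul_nonneg hrho h1)
    _ = _ := by unfold kq; ring

end

end Pool.Agent.Lib.GSX.BdM_
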