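import Mathlib

/-!
# Choice of constants by filters

Every requirement on one constant is written as `∀ᶠ x in sm, ..` (small positive reals),
`∀ᶠ x in atTop, ..` (large reals) or `∀ᶠ n : ℕ in atTop, ..` (large naturals).  The requirements
are combined with `Filter.Eventually.and` and the constant is obtained with
`Filter.Eventually.exists`.
-/

set_option autoImplicit false

namespace Pool.Agent.Lib.GSX

open Filter Topology

/-- Small positive reals. -/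
abbrev sm : Filter ℝ := 𝓝[>] (0 : ℝ)

/-! ### Small reals -/

theorem sm_pos : ∀ᶠ x in sm, 0 < x := eventually_mem_nhdsWithin

theorem sm_le {a : ℝ} (ha : 0 < a) : ∀ᶠ x in sm, x ≤ a :=
  (mem_nhdsWithin_of_mem_nhds (Iic_mem_nhds ha))

theorem sm_lt {a : ℝ} (ha : 0 < a) : ∀ᶠ x in sm, x < a :=
  (mem_nhdsWithin_of_mem_nhds (Iio_mem_nhds ha))

/-- A function which tends to `0` is small. -/
theorem sm_tendsto {f : ℝ → ℝ} (hf : Tendsto f sm (𝓝 0)) {a : ℝ} (ha : 0 < a) :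
    ∀ᶠ x in sm, f x ≤ a :=
  hf.eventually (Iic_mem_nhds ha)

theorem sm_tendsto_lt {f : ℝ → ℝ} (hf : Tendsto f sm (𝓝 0)) {a : ℝ} (ha : 0 < a) :
    ∀ᶠ x in sm, f x < a :=
  hf.eventually (Iio_mem_nhds ha)

/-- The continuous form: `f 0 < a`. -/
theorem sm_cont {f : ℝ → ℝ} (hf : ContinuousAt f 0) {a : ℝ} (ha : f 0 < a) :
    ∀ᶠ x in sm, f x < a :=
  mem_nhdsWithin_of_mem_nhds (hf (Iio_mem_nhds ha))

theorem sm_cont_le {f : ℝ → ℝ} (hf : ContinuousAt f 0) {a : ℝ} (ha : f 0 < a) :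
    ∀ᶠ x in sm, f x ≤ a :=
  (sm_cont hf ha).mono fun _ h => h.le

theorem sm_cont_gt {f : ℝ → ℝ} (hf : ContinuousAt f 0) {a : ℝ} (ha : a < f 0) :
    ∀ᶠ x in sm, a < f x :=
  mem_nhdsWithin_of_mem_nhds (hf (Ioi_mem_nhds ha))

theorem sm_cont_ge {f : ℝ → ℝ} (hf : ContinuousAt f 0) {a : ℝ} (ha : a < f 0) :
    ∀ᶠ x in sm, a ≤ f x :=
  (sm_cont_gt hf ha).mono fun _ h => h.le

theorem sm_mul (b : ℝ) {a : ℝ} (ha : 0 < a) : ∀ᶠ x in sm, b * x ≤ a :=
  sm_cont_le (f := fun x => b * x) (by fun_prop) (by simpa using ha)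

theorem sm_mul_lt (b : ℝ) {a : ℝ} (ha : 0 < a) : ∀ᶠ x in sm, b * x < a :=
  sm_cont (f := fun x => b * x) (by fun_prop) (by simpa using ha)

theorem sm_mul' (b : ℝ) {a : ℝ} (ha : 0 < a) : ∀ᶠ x in sm, x * b ≤ a :=
  (sm_mul b ha).mono fun x h => by rwa [mul_comm]

theorem sm_div (b : ℝ) {a : ℝ} (ha : 0 < a) : ∀ᶠ x in sm, x / b ≤ a :=
  (sm_mul b⁻¹ ha).mono fun x h => by rwa [div_eq_inv_mul]

theorem sm_mul_div (b c : ℝ) {a : ℝ} (ha : 0 < a) : ∀ᶠ x in sm, b * x / c ≤ a :=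
  (sm_mul (b / c) ha).mono fun x h => by rwa [mul_div_right_comm]

theorem sm_pow (b : ℝ) {n : ℕ} (hn : n ≠ 0) {a : ℝ} (ha : 0 < a) : ∀ᶠ x in sm, b * x ^ n ≤ a :=
  sm_cont_le (f := fun x => b * x ^ n) (by fun_prop) (by simpa [hn] using ha)

theorem sm_sqrt (b : ℝ) {a : ℝ} (ha : 0 < a) : ∀ᶠ x in sm, b * √x ≤ a :=
  sm_cont_le (f := fun x => b * √x) (by fun_prop) (by simpa using ha)

theorem sm_rpow (b : ℝ) {p : ℝ} (hp : 0 < p) {a : ℝ} (ha : 0 < a) :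
    ∀ᶠ x in sm, b * x ^ p ≤ a := by
  refine sm_cont_le (f := fun x => b * x ^ p) ?_ (by simpa [Real.zero_rpow hp.ne'] using ha)
  exact (Real.continuousAt_rpow_const _ _ (Or.inr hp.le)).const_mul b

/-- `b ≤ a / x` for small `x`. -/
theorem sm_inv (b : ℝ) {a : ℝ} (ha : 0 < a) : ∀ᶠ x in sm, b ≤ a / x := by
  filter_upwards [sm_mul b ha, sm_pos] with x h1 h2
  rwa [le_div_iff₀ h2]

theorem sm_inv_lt (b : ℝ) {a : ℝ} (ha : 0 < a) : ∀ᶠ x in sm, b < a / x := by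
  filter_upwards [sm_mul_lt b ha, sm_pos] with x h1 h2
  rwa [lt_div_iff₀ h2]

/-! ### Large reals -/

theorem lg_ge (b : ℝ) : ∀ᶠ x : ℝ in atTop, b ≤ x := eventually_ge_atTop b

theorem lg_gt (b : ℝ) : ∀ᶠ x : ℝ in atTop, b < x := eventually_gt_atTop b

theorem lg_tendsto {f : ℝ → ℝ} (hf : Tendsto f atTop (𝓝 0)) {a : ℝ} (ha : 0 < a) :
    ∀ᶠ x : ℝ in atTop, f x ≤ a :=
  hf.eventually (Iic_mem_nhds ha)

theorem lg_mul (b : ℝ) {a : ℝ} (ha : 0 < a) : ∀ᶠ x : ℝ in atTop, b ≤ a * x :=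
  (tendsto_id.const_mul_atTop ha).eventually_ge_atTop b

theorem lg_mul' (b : ℝ) {a : ℝ} (ha : 0 < a) : ∀ᶠ x : ℝ in atTop, b ≤ x * a :=
  (lg_mul b ha).mono fun x h => by rwa [mul_comm]

theorem lg_div (b : ℝ) {a : ℝ} (ha : 0 < a) : ∀ᶠ x : ℝ in atTop, b / x ≤ a :=
  lg_tendsto (f := fun x => b / x) (tendsto_const_nhds.div_atTop tendsto_id) ha

theorem lg_pow (b : ℝ) {n : ℕ} (hn : n ≠ 0) {a : ℝ} (ha : 0 < a) :
    ∀ᶠ x : ℝ in atTop, b / x ^ n ≤ a :=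
  lg_tendsto (f := fun x => b / x ^ n)
    (tendsto_const_nhds.div_atTop (tendsto_pow_atTop hn)) ha

theorem lg_sqrt (b : ℝ) {a : ℝ} (ha : 0 < a) : ∀ᶠ x : ℝ in atTop, b / √x ≤ a :=
  lg_tendsto (f := fun x => b / √x)
    (tendsto_const_nhds.div_atTop Real.tendsto_sqrt_atTop) ha

theorem lg_rpow (b : ℝ) {p : ℝ} (hp : 0 < p) {a : ℝ} (ha : 0 < a) :
    ∀ᶠ x : ℝ in atTop, b * x ^ (-p) ≤ a := by
  refine lg_tendsto (f := fun x => b * x ^ (-p)) ?_ ha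
  simpa using (tendsto_rpow_neg_atTop hp).const_mul b

theorem lg_rpow_ge (b : ℝ) {p : ℝ} (hp : 0 < p) {a : ℝ} (ha : 0 < a) :
    ∀ᶠ x : ℝ in atTop, b ≤ a * x ^ p :=
  ((tendsto_rpow_atTop hp).const_mul_atTop ha).eventually_ge_atTop b

/-! ### Large naturals -/

theorem nt_ge (b : ℕ) : ∀ᶠ n : ℕ in atTop, b ≤ n := eventually_ge_atTop b

theorem nt_geR (b : ℝ) : ∀ᶠ n : ℕ in atTop, b ≤ n :=
  tendsto_natCast_atTop_atTop.eventually_ge_atTop b

theorem nt_gtR (b : ℝ) : ∀ᶠ n : ℕ in atTop, b < n :=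
  tendsto_natCast_atTop_atTop.eventually_gt_atTop b

theorem nt_of_lg {P : ℝ → Prop} (h : ∀ᶠ x : ℝ in atTop, P x) : ∀ᶠ n : ℕ in atTop, P n :=
  tendsto_natCast_atTop_atTop.eventually h

theorem nt_tendsto {f : ℕ → ℝ} (hf : Tendsto f atTop (𝓝 0)) {a : ℝ} (ha : 0 < a) :
    ∀ᶠ n : ℕ in atTop, f n ≤ a :=
  hf.eventually (Iic_mem_nhds ha)

theorem nt_div (b : ℝ) {a : ℝ} (ha : 0 < a) : ∀ᶠ n : ℕ in atTop, b / n ≤ a :=
  nt_of_lg (lg_div b ha)

theorem nt_mul (b : ℝ) {a : ℝ} (ha : 0 < a) : ∀ᶠ n : ℕ in atTop, b ≤ a * n :=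
  nt_of_lg (lg_mul b ha)

theorem nt_geo (b : ℝ) {q : ℝ} (h0 : 0 ≤ q) (h1 : q < 1) {a : ℝ} (ha : 0 < a) :
    ∀ᶠ n : ℕ in atTop, b * q ^ n ≤ a := by
  refine nt_tendsto (f := fun n => b * q ^ n) ?_ ha
  simpa using (tendsto_pow_atTop_nhds_zero_of_lt_one h0 h1).const_mul b

theorem nt_geo_ge (b : ℝ) {q : ℝ} (h1 : 1 < q) {a : ℝ} (ha : 0 < a) :
    ∀ᶠ n : ℕ in atTop, b ≤ a * q ^ n :=
  ((tendsto_pow_atTop_atTop_of_one_lt h1).const_mul_atTop ha).eventually_ge_atTop b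

/-- `b n^k q^n ≤ a`. -/
theorem nt_geo_poly (b : ℝ) (k : ℕ) {q : ℝ} (h0 : 0 ≤ q) (h1 : q < 1) {a : ℝ} (ha : 0 < a) :
    ∀ᶠ n : ℕ in atTop, b * ((n : ℝ) ^ k * q ^ n) ≤ a := by
  refine nt_tendsto (f := fun n => b * ((n : ℝ) ^ k * q ^ n)) ?_ ha
  simpa using (tendsto_pow_const_mul_const_pow_of_lt_one k h0 h1).const_mul b

/-- `b 2^(-c n) ≤ a`. -/
theorem nt_two (b : ℝ) {c : ℝ} (hc : 0 < c) {a : ℝ} (ha : 0 < a) :
    ∀ᶠ n : ℕ in atTop, b * (2 : ℝ) ^ (-(c * n)) ≤ a := by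
  have h1 : (2 : ℝ) ^ (-c) < 1 := Real.rpow_lt_one_of_one_lt_of_neg one_lt_two (neg_lt_zero.2 hc)
  refine (nt_geo b (Real.rpow_nonneg two_pos.le (-c)) h1 ha).mono fun n h => ?_
  rwa [← neg_mul, Real.rpow_mul two_pos.le, Real.rpow_natCast]

/-- `b 2^(-n/2) ≤ a`. -/
theorem nt_two_half (b : ℝ) {a : ℝ} (ha : 0 < a) :
    ∀ᶠ n : ℕ in atTop, b * (2 : ℝ) ^ (-(n : ℝ) / 2) ≤ a := by
  refine (nt_two b (c := 1 / 2) (by norm_num) ha).mono fun n h => ?_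
  rwa [show -(n : ℝ) / 2 = -(1 / 2 * n) by ring]

/-- `b 2^(-n) ≤ a` with an integer exponent. -/
theorem nt_two_int (b : ℝ) {a : ℝ} (ha : 0 < a) :
    ∀ᶠ n : ℕ in atTop, b * (2 : ℝ) ^ (-(n : ℤ)) ≤ a := by
  refine (nt_geo b (q := 1 / 2) (by norm_num) (by norm_num) ha).mono fun n h => ?_
  rwa [zpow_neg, zpow_natCast, ← inv_pow, inv_eq_one_div]

/-! ### Finitely many requirements -/

theorem ev_lt {α : Type*} {l : Filter α} (k : ℕ) {P : ℕ → α → Prop}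
    (h : ∀ i < k, ∀ᶠ x in l, P i x) : ∀ᶠ x in l, ∀ i < k, P i x := by
  have h1 := (eventually_all_finset (l := l) (Finset.range k) (p := P)).2
    fun i hi => h i (Finset.mem_range.1 hi)
  exact h1.mono fun x hx i hi => hx i (Finset.mem_range.2 hi)

theorem ev_fin {α ι : Type*} [Finite ι] {l : Filter α} {P : ι → α → Prop}
    (h : ∀ i, ∀ᶠ x in l, P i x) : ∀ᶠ x in l, ∀ i, P i x := eventually_all.2 h

/-- A bound by finitely many numbers. -/
theorem exists_small {ι : Type*} [Finite ι] (f : ι → ℝ) (hf : ∀ i, 0 < f i) :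
    ∃ x, 0 < x ∧ ∀ i, x ≤ f i :=
  (sm_pos.and (ev_fin fun i => sm_le (hf i))).exists

/-! ### Recursion rank by rank -/

/-- Choice of a sequence when the requirement on the term `r` depends on the terms before `r`
only. -/
theorem rk_rec {D : Type*} [Nonempty D] (P : ℕ → (ℕ → D) → D → Prop)
    (hc : ∀ r f g, (∀ i < r, f i = g i) → ∀ y, P r f y → P r g y)
    (hP : ∀ r f, (∀ i < r, P i f (f i)) → ∃ y, P r f y) :
    ∃ f : ℕ → D, ∀ r, P r f (f r) := by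
  classical
  obtain ⟨d0⟩ := ‹Nonempty D›
  obtain ⟨nx, hnx⟩ : ∃ nx : ℕ → (ℕ → D) → D, ∀ r f, (∀ i < r, P i f (f i)) → P r f (nx r f) := by
    refine ⟨fun r f => if h : ∃ y, P r f y then h.choose else d0, fun r f h => ?_⟩
    have h1 := hP r f h
    simp only [h1, dite_true]
    exact h1.choose_spec
  obtain ⟨F, hF⟩ : ∃ F : ℕ → ℕ → D, F = fun n => Nat.rec (fun _ => d0)
      (fun r f => Function.update f r (nx r f)) n := ⟨_, rfl⟩
  have hs : ∀ r, F (r + 1) = Function.update (F r) r (nx r (F r)) := fun r => by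
    rw [hF]
  have hlt : ∀ n i, i < n → F n i = F (i + 1) i := by
    intro n
    induction n with
    | zero => intro i hi; exact absurd hi (Nat.not_lt_zero i)
    | succ n ih =>
      intro i hi
      rcases Nat.lt_succ_iff_lt_or_eq.1 hi with h | h
      · rw [hs n, Function.update_of_ne h.ne, ih i h]
      · subst h
        rfl
  have hG : ∀ n, ∀ i < n, P i (F n) (F n i) := by
    intro n
    induction n with
    | zero => intro i hi; exact absurd hi (Nat.not_lt_zero i)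
    | succ n ih =>
      intro i hi
      have he : ∀ j < n, F n j = F (n + 1) j := fun j hj => by
        rw [hs n, Function.update_of_ne hj.ne]
      rcases Nat.lt_succ_iff_lt_or_eq.1 hi with h | h
      · rw [← he i h]
        exact hc i _ _ (fun j hj => he j (hj.trans h)) _ (ih i h)
      · subst h
        have h1 := hc i _ _ he _ (hnx i (F i) ih)
        rw [hs i, Function.update_self]
        rwa [hs i] at h1
  refine ⟨fun r => F (r + 1) r, fun r => ?_⟩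
  refine hc r (F (r + 1)) _ (fun i hi => ?_) _ (hG (r + 1) r (Nat.lt_succ_self r))
  exact hlt (r + 1) i (hi.trans (Nat.lt_succ_self r))

/-- The same for `r < h` only. -/
theorem rk_rec_lt {D : Type*} [Nonempty D] (h : ℕ) (P : ℕ → (ℕ → D) → D → Prop)
    (hc : ∀ r f g, (∀ i < r, f i = g i) → ∀ y, P r f y → P r g y)
    (hP : ∀ r < h, ∀ f, (∀ i < r, P i f (f i)) → ∃ y, P r f y) :
    ∃ f : ℕ → D, ∀ r < h, P r f (f r) := by
  obtain ⟨f, hf⟩ := rk_rec (fun r f y => r < h → P r f y)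
    (fun r f g hfg y hy hr => hc r f g hfg y (hy hr))
    (fun r f hf => by
      by_cases hr : r < h
      · obtain ⟨y, hy⟩ := hP r hr f fun i hi => hf i hi (hi.trans hr)
        exact ⟨y, fun _ => hy⟩
      · exact ⟨Classical.arbitrary D, fun h1 => absurd h1 hr⟩)
  exact ⟨f, hf⟩

/-- Downward recursion: `b N` is given, `b s` is chosen from `b (s + 1)`. -/
theorem down_rec {D : Type*} (N : ℕ) (P : ℕ → D → D → Prop) (hP : ∀ s < N, ∀ y, ∃ x, P s x y)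
    (yN : D) : ∃ b : ℕ → D, b N = yN ∧ ∀ s < N, P s (b s) (b (s + 1)) := by
  induction N with
  | zero => exact ⟨fun _ => yN, rfl, fun s hs => absurd hs (Nat.not_lt_zero s)⟩
  | succ N ih =>
    obtain ⟨x, hx⟩ := hP N (Nat.lt_succ_self N) yN
    clear ih
    obtain ⟨c, hc⟩ : ∃ c : ℕ → D → D, ∀ s < N + 1, ∀ y, P s (c s y) y := by
      choose! c hc using hP
      exact ⟨fun s y => c s y, fun s hs y => hc s hs y⟩
    refine ⟨fun s => (Nat.rec yN (fun k y => c (N - k) y) (N + 1 - s) : D), ?_, ?_⟩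
    · simp
    · intro s hs
      have h1 : N + 1 - s = (N - s) + 1 := by omega
      have h2 : N + 1 - (s + 1) = N - s := by omega
      have h3 : N - (N - s) = s := by omega
      simp only [h1, h2, h3]
      exact hc s hs _

end Pool.Agent.Lib.GSX
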