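import Pool.Agent.Lib.GSX.Rk
import Pool.Agent.Lib.GSX.KTools
import Pool.Agent.Lib.GSLE.BrkE

/-!
# The constants of the services, of the own steps and of the masters (block S)

Older constants: `M h κ`, `D` (own masses of the labels of the hub mode), `D'` (own masses of the
cells), `HA` (total weight of the cells of an item), `Nit` (number of items), `Kq` (factor of the
payment means), `c r` (threshold of the scores), `c0` (typical), `et` (accuracy), `del`.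

New constants, in this order: `dO` (accuracy of the own steps), `A' Lam' eta`, `dl`, `A Lam es`,
`Z Z' Z''`, `Bd` (payments), `B r` (bounds of the masters), `lG` (gap of the high hubs).
-/

set_option autoImplicit false

namespace Pool.Agent.Lib.GSX

open Filter Topology
open Pool.Agent.Lib.GSLE (brw brw_nonneg brw_zero brw_continuous)
open Rk_

/-- The sequences of the ranks. -/
structure RkS where
  A : ℕ → ℝ
  A' : ℕ → ℝ
  Lam : ℕ → ℝ
  Lam' : ℕ → ℝ
  dl : ℕ → ℝ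
  eta : ℕ → ℝ
  es : ℕ → ℝ
  Z : ℕ → ℝ
  Z' : ℕ → ℝ
  Z'' : ℕ → ℝ

/-- The bracket of the gap. -/
noncomputable def bG (lG : ℝ) : ℝ := brw (1 / 4) ((2 : ℝ) ^ (-lG))

theorem bG_nonneg (lG : ℝ) : 0 ≤ bG lG := brw_nonneg _ (by positivity)

theorem bG_small (b : ℝ) {a : ℝ} (ha : 0 < a) : ∀ᶠ x : ℝ in atTop, b * bG x ≤ a := by
  refine lg_tendsto (f := fun x => b * bG x) ?_ ha
  have h1 : Tendsto (fun x : ℝ => (2 : ℝ) ^ (-x)) atTop (𝓝 0) := by
    have h2 : (fun x : ℝ => (2 : ℝ) ^ (-x)) = fun x : ℝ => ((2 : ℝ)⁻¹) ^ x := by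
      funext x
      rw [Real.rpow_neg two_pos.le, Real.inv_rpow two_pos.le]
    rw [h2]
    exact tendsto_rpow_atTop_of_base_lt_one _ (by norm_num) (by norm_num)
  have h3 : Tendsto (fun x : ℝ => bG x) atTop (𝓝 0) := by
    have h4 := ((brw_continuous (e := 1 / 4) (by norm_num) (by norm_num)).tendsto 0).comp h1
    rw [brw_zero (by norm_num)] at h4
    exact h4
  simpa using h3.const_mul b

/-- **The inequalities of block S.** -/
structure OkS (M h κ : ℕ) (D D' HA Kq c0 et del : ℝ) (Nit : ℕ) (c dO : ℕ → ℝ) (k : RkS)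
    (Bd : ℝ) (B : ℕ → ℝ) (lG : ℝ) : Prop where
  rk : RkOk M h κ D' dO k.A k.A' k.Lam k.Lam' k.dl k.eta k.es
  z : ZOk (1 + Nit) c k.A k.A' k.Z k.Z' k.Z''
  dO0 : ∀ r, 0 < dO r
  /-- rank ends and hub charges of the cells -/
  dl4 : ∀ r, k.dl r ≤ 1 / 4
  dlM : ∀ r, 8 * M * k.dl r ≤ del / 4
  dl1 : ∀ r, k.A' r * k.dl r ≤ 1
  /-- own steps -/
  ownP : ∀ r, r < h → dO r + k.A' r * (D * (B r * (r * bG lG))) ≤ et * c r
  ownA : ∀ r, Nit * (HA * (dO r + k.A' r * (2 * k.dl r))) ≤ et * c r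
  ownA' : ∀ r, HA * (dO r + k.A' r * (2 * k.dl r)) ≤ et * c r
  /-- both modes together -/
  own : ∀ r, r < h → (dO r + k.A' r * (D * (B r * (r * bG lG)))) +
    Nit * (HA * (dO r + k.A' r * (2 * k.dl r))) ≤ et * c r
  /-- payments -/
  Bd1 : 1 ≤ Bd
  payP : ∀ r, r < h → Kq * (1 + k.Lam' r + D / k.eta r) < c0 * Bd
  payA : ∀ r, r < h →
    Kq * (HA * (k.A' r * k.Lam r + 1 + k.Lam' r + D' / k.eta r)) < c0 * Bd
  /-- bounds of the masters -/
  B0 : B 0 = 0
  Bnn : ∀ r, 0 ≤ B r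
  Bmono : Monotone B
  /-- the gap -/
  lG1 : 1 ≤ lG
  gapM : ∀ r, r < h → 8 * M * (B r * (r * bG lG)) ≤ 1

/-- **The constants of block S exist.**  `tD` is any further bound for `dl`, `F` any recursive
lower bound for the bounds of the masters, `E` any further requirement on the gap which holds for
all large gaps. -/
theorem exists_okS {M h : ℕ} (κ : ℕ) (hM : 1 ≤ M) {D D' HA Kq c0 et del : ℝ} (hD : 0 < D)
    (hD' : 0 < D') (hHA : 0 < HA) (hc0 : 0 < c0) (het : 0 < et) (hdel : 0 < del)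
    (Nit : ℕ) {c : ℕ → ℝ} (hc : ∀ r, 0 < c r) {tO : ℕ → ℝ} (htO : ∀ r, 0 < tO r)
    {tD : ℕ → ℝ → ℝ → ℝ → ℝ} (htD : ∀ r a l e, 1 ≤ a → 0 ≤ l → 0 < e → 0 < tD r a l e)
    (tB : (ℕ → ℝ) → RkS → ℝ) (F : (ℕ → ℝ) → RkS → ℝ → ℕ → ℝ → ℝ)
    (E : (ℕ → ℝ) → RkS → ℝ → (ℕ → ℝ) → ℝ → Prop)
    (hE : ∀ dO k Bd B, ∀ᶠ x in atTop, E dO k Bd B x) :
    ∃ (dO : ℕ → ℝ) (k : RkS) (Bd : ℝ) (B : ℕ → ℝ) (lG : ℝ),
      OkS M h κ D D' HA Kq c0 et del Nit c dO k Bd B lG ∧ (∀ r, dO r ≤ tO r) ∧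
        (∀ r, k.dl r ≤ tD r (k.A' r) (k.Lam' r) (k.eta r)) ∧ tB dO k ≤ Bd ∧
        (∀ r, F dO k Bd r (B r) ≤ B (r + 1)) ∧ E dO k Bd B lG := by
  -- the accuracy of the own steps
  set e₀ : ℕ → ℝ := fun r => et * c r / 4 with he₀
  have he₀0 : ∀ r, 0 < e₀ r := fun r => div_pos (mul_pos het (hc r)) (by norm_num)
  have h1 : ∀ r, ∃ x : ℝ, 0 < x ∧ x ≤ tO r ∧ x ≤ e₀ r ∧ (Nit * HA) * x ≤ e₀ r ∧
      HA * x ≤ e₀ r := fun r =>
    (sm_pos.and ((sm_le (htO r)).and ((sm_le (he₀0 r)).and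
      ((sm_mul (Nit * HA) (he₀0 r)).and (sm_mul HA (he₀0 r)))))).exists
  choose dO hdO hdO1 hdO2 hdO3 hdO4 using h1
  -- the services
  have h2 : ∀ r a l e, ∃ x : ℝ, 1 ≤ a → 0 ≤ l → 0 < e → 0 < x ∧ x ≤ tD r a l e ∧ x ≤ 1 / 4 ∧
      8 * M * x ≤ del / 4 ∧ a * x ≤ 1 ∧ (Nit * HA * a * 2) * x ≤ e₀ r ∧
        (HA * a * 2) * x ≤ e₀ r := by
    intro r a l e
    by_cases h3 : 1 ≤ a ∧ 0 ≤ l ∧ 0 < e
    · obtain ⟨ha, hl, he⟩ := h3
      obtain ⟨x, hx⟩ := (sm_pos.and ((sm_le (htD r a l e ha hl he)).and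
        ((sm_le (a := 1 / 4) (by norm_num)).and
        ((sm_mul (8 * (M : ℝ)) (a := del / 4) (by positivity)).and ((sm_mul a one_pos).and
          ((sm_mul (Nit * HA * a * 2) (he₀0 r)).and (sm_mul (HA * a * 2) (he₀0 r)))))))).exists
      exact ⟨x, fun _ _ _ => hx⟩
    · exact ⟨1, fun ha hl he => absurd ⟨ha, hl, he⟩ h3⟩
  choose tD' htD' using h2
  obtain ⟨A, A', Lam, Lam', dl, eta, es, hrk, hdl⟩ := exists_rk M h κ hM hD' hdO
    (tD := tD') fun r a l e ha hl he => (htD' r a l e ha hl he).1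
  obtain ⟨Z, Z', Z'', hz⟩ := exists_z (1 + Nit) c A A'
  set k : RkS := ⟨A, A', Lam, Lam', dl, eta, es, Z, Z', Z''⟩ with hk
  have ht := fun r => htD' r (A' r) (Lam' r) (eta r) (hrk.A1' r) (hrk.Lam0' r) (hrk.eta0 r)
  have hdl0 := hrk.dl0
  -- the payments
  obtain ⟨m₁, hm₁, hm₁'⟩ := exists_max
    (fun r => Kq * (1 + Lam' r + D / eta r)) h
  obtain ⟨m₂, hm₂, hm₂'⟩ := exists_max
    (fun r => Kq * (HA * (A' r * Lam r + 1 + Lam' r + D' / eta r))) h
  obtain ⟨Bd, hBd1, hBd2, hBd3⟩ := ((lg_ge (1 : ℝ)).and ((lg_ge (tB dO k)).and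
    (lg_mul (m₁ + m₂ + 1) hc0))).exists
  -- the masters
  obtain ⟨B, hB0, hBn, hBm, hBF⟩ := exists_b0 (F dO k Bd)
  -- the gap
  obtain ⟨lG, hlG⟩ := ((lg_ge (1 : ℝ)).and ((hE dO k Bd B).and
    ((ev_lt h (P := fun r x => A' r * D * B r * r * bG x ≤ e₀ r) fun r _ =>
      bG_small (A' r * D * B r * r) (he₀0 r)).and
    (ev_lt h (P := fun r x => 8 * (M : ℝ) * B r * r * bG x ≤ 1) fun r _ =>
      bG_small (8 * (M : ℝ) * B r * r) one_pos)))).exists
  obtain ⟨hlG1, hlG2, hlG3, hlG4⟩ := hlG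
  have hA' := fun r => hrk.A1' r
  have e1 : ∀ r, Nit * (HA * (dO r + A' r * (2 * dl r))) ≤ et * c r / 2 := by
    intro r
    have h3 := hdO3 r
    have h4 : (Nit * HA * A' r * 2) * dl r ≤ e₀ r := by
      refine le_trans (mul_le_mul_of_nonneg_left (hdl r) ?_) (ht r).2.2.2.2.2.1
      have := hA' r
      positivity
    have h5 : e₀ r = et * c r / 4 := rfl
    nlinarith
  have e2 : ∀ r, HA * (dO r + A' r * (2 * dl r)) ≤ et * c r / 2 := by
    intro r
    have h3 := hdO4 r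
    have h4 : (HA * A' r * 2) * dl r ≤ e₀ r := by
      refine le_trans (mul_le_mul_of_nonneg_left (hdl r) ?_) (ht r).2.2.2.2.2.2
      have := hA' r
      positivity
    have h5 : e₀ r = et * c r / 4 := rfl
    nlinarith
  have e3 : ∀ r, r < h → dO r + A' r * (D * (B r * (r * bG lG))) ≤ et * c r / 2 := by
    intro r hr
    have h3 := hlG3 r hr
    have h4 := hdO2 r
    have h5 : e₀ r = et * c r / 4 := rfl
    have h6 : A' r * (D * (B r * (r * bG lG))) = A' r * D * B r * r * bG lG := by ring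
    rw [h6]
    linarith
  have e4 : ∀ r, 0 < et * c r := fun r => mul_pos het (hc r)
  refine ⟨dO, k, Bd, B, lG, ?_, hdO1, fun r => (hdl r).trans (ht r).2.1, hBd2, hBF, hlG2⟩
  refine
    { rk := hrk
      z := hz
      dO0 := hdO
      dl4 := fun r => (hdl r).trans (ht r).2.2.1
      dlM := fun r => ?_
      dl1 := fun r => ?_
      ownP := fun r hr => ?_
      ownA := fun r => ?_
      ownA' := fun r => ?_
      own := fun r hr => ?_
      Bd1 := hBd1
      payP := fun r hr => ?_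
      payA := fun r hr => ?_
      B0 := hB0
      Bnn := hBn
      Bmono := hBm
      lG1 := hlG1
      gapM := fun r hr => ?_ }
  · exact le_trans (mul_le_mul_of_nonneg_left (hdl r) (by positivity)) (ht r).2.2.2.1
  · exact le_trans (mul_le_mul_of_nonneg_left (hdl r) (by linarith [hA' r])) (ht r).2.2.2.2.1
  · have := e3 r hr
    have := e4 r
    show dO r + A' r * (D * (B r * (r * bG lG))) ≤ et * c r
    linarith
  · have := e1 r
    have := e4 r
    show Nit * (HA * (dO r + A' r * (2 * dl r))) ≤ et * c r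
    linarith
  · have := e2 r
    have := e4 r
    show HA * (dO r + A' r * (2 * dl r)) ≤ et * c r
    linarith
  · have := e3 r hr
    have := e1 r
    show dO r + A' r * (D * (B r * (r * bG lG))) +
      Nit * (HA * (dO r + A' r * (2 * dl r))) ≤ et * c r
    linarith
  · have h3 := hm₁' r hr
    show Kq * (1 + Lam' r + D / eta r) < c0 * Bd
    linarith
  · have h3 := hm₂' r hr
    show Kq * (HA * (A' r * Lam r + 1 + Lam' r + D' / eta r)) < c0 * Bd
    linarith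
  · have h3 := hlG4 r hr
    have h4 : 8 * (M : ℝ) * (B r * (r * bG lG)) = 8 * (M : ℝ) * B r * r * bG lG := by ring
    rw [h4]
    exact h3

end Pool.Agent.Lib.GSX
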