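import Pool.Agent.Lib.GSX.OwnI
import Pool.Agent.Lib.GSX.ValS
import Pool.Agent.Lib.GSX.KSv
import Pool.Agent.Lib.GSX.BdM

/-!
# The bound of the masters and the cost of the hub mode

`Bnd P G S B W C`: the charge of the masters of `C` at the vertices `u` of `W` is bounded by the
brackets of the scales of the stages of `C`.  `bnd_cost`: the own nodes of a label of the hub mode
are cheap.  `objP_le`: the objective of the own step of the hub mode.
-/

set_option autoImplicit false

namespace Pool.Agent.Lib.GSX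

open Finset Classical
open Pool.Agent.Lib.FGF (cm)
open Pool.Agent.Lib.GSLE (brw brw_mono brw_nonneg)
open Pool.Agent.Lib.GSR (vioC OwnK)

/-- The masters of `C` are bounded at the vertices of `W`. -/
def Bnd (P : Cn) {V : Type} [Fintype V] (G : SimpleGraph V) (S : Sta P V) (B : ℕ → ℝ)
    (W : Finset V) (C : Finset (Fin P.N)) : Prop :=
  ∀ v, ∀ u ∈ W, cm G (S.m C v) u ≤ B C.card * ∑ c ∈ C, brw (1 / 4) (S.a c u / S.a c v)

namespace BdP_

section

variable {V : Type} [Fintype V] {P : Cn} {G : SimpleGraph V} {s : Fin P.N} {S : Sta P V}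
  {I : Inp P V} {B : ℕ → ℝ} {W W' : Finset V} {C : Finset (Fin P.N)}

theorem bnd_anti (h : Bnd P G S B W C) (hW : W' ⊆ W) : Bnd P G S B W' C :=
  fun v u hu => h v u (hW hu)

/-- From the bound of `BdM.lean`. -/
theorem bnd_of_bdAt (h : ∀ u ∈ W, BdM_.BdAt P G S.a (S.m C) C u (B C.card)) :
    Bnd P G S B W C := fun v u hu => h u hu v

/-- The bound passes to the next state. -/
theorem bnd_nxt (hC : s ∉ C) (h : Bnd P G S B W C) (hW : W' ⊆ W) :
    Bnd P G (nxt P G s S I) B W' C := by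
  intro v u hu
  have h1 : (nxt P G s S I).m C v = S.m C v := funext fun u => RecP_.nxt_m_not hC v u
  rw [h1]
  refine (h v u (hW hu)).trans (le_of_eq ?_)
  congr 1
  refine Finset.sum_congr rfl fun c hc => ?_
  have h2 : c ≠ s := fun h0 => hC (h0 ▸ hc)
  rw [RecP_.nxt_a_ne h2, RecP_.nxt_a_ne h2]

/-- Hubs much higher than `x` at all the stages of `C` have small brackets. -/
theorem sum_brw_le (hS : SPos S) {x y : V} (h : rich P S C x y ≠ 0) :
    ∑ c ∈ C, brw (1 / 4) (S.a c x / S.a c y) ≤ C.card * bG P.lG := by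
  refine (Finset.sum_le_card_nsmul C _ (bG P.lG) fun c hc => ?_).trans (le_of_eq ?_)
  · have h1 := RecP_.rich_ne h hc
    unfold bG
    refine brw_mono (by norm_num) (by norm_num) (div_nonneg (hS.a c x).le (hS.a c y).le) ?_
    have hx := hS.a c x
    have hy := hS.a c y
    unfold ht at h1
    have h2 : S.a c x / S.a c y = (2 : ℝ) ^ (Real.logb 2 (S.a c x) - Real.logb 2 (S.a c y)) := by
      rw [Real.rpow_sub (by norm_num), Real.rpow_logb (by norm_num) (by norm_num) hx,
        Real.rpow_logb (by norm_num) (by norm_num) hy]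
    rw [h2]
    exact Real.rpow_le_rpow_of_exponent_le (by norm_num) (by linarith)
  · rw [nsmul_eq_mul]

/-- **The own nodes of the hub mode are cheap.** -/
theorem bnd_cost (hS : SPos S) (hB : 0 ≤ B C.card) (h : Bnd P G S B W C) {l : Ml P V} {x : V}
    (hx : PP P G S I C l x ≠ 0) (hxW : x ∈ W) :
    cm G (S.m C l.1) x ≤ B C.card * (C.card * bG P.lG) := by
  refine (h l.1 x hxW).trans (mul_le_mul_of_nonneg_left (sum_brw_le hS ?_) hB)
  intro h0
  apply hx
  unfold PP CP
  rw [h0, mul_zero, mul_zero, zero_div]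

/-- **The objective of the own step of the hub mode.** -/
theorem objP_le {κ : ℕ} {δ D : ℝ} (hP : CPos P) (hS : SPos S) (hn : ∀ x, 0 ≤ I.n3 x)
    (hnW : ∀ x, I.n3 x ≠ 0 → x ∈ I.W) (hnF : ∀ x, I.n3 x ≠ 0 → Fs P G S I x = 0)
    {l : Ml P V} (hlW : l.1 ∈ I.W) (hr : C.card + 2 ≤ P.h)
    (hR : RootC P.M (P.h - C.card - 1) κ δ (P.A' C.card) (P.Lam' C.card) (P.eta C.card))
    (hZ : P.A' C.card * P.Z C.card ≤ P.Z'' C.card) (f : V → Fin κ)
    (hf : ∀ u w, G.Adj l.1 u → G.Adj l.1 w → G.Adj u w → f u ≠ f w)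
    (hv : Val P G S I.W C) (hB : 0 ≤ B C.card) (hb : Bnd P G S B I.W C)
    (hmin : ∀ lam ∈ OwnK (P.Lam' C.card) I.W,
      objP P G S I C l (I.lp C l) ≤ objP P G S I C l lam)
    (hD : ∑ x, PP P G S I C l x ≤ D) :
    objP P G S I C l (I.lp C l) ≤
      δ + P.A' C.card * (D * (B C.card * (C.card * bG P.lG))) := by
  have hbG : 0 ≤ bG P.lG := brw_nonneg _ (by positivity)
  refine (own_P_le hP hS hn hnW hnF hr hR hZ f hf (vio_of_val hP (hv l.1 hlW)) hmin
    (e := B C.card * (C.card * bG P.lG)) (by positivity)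
    (fun x hx => bnd_cost hS hB hb hx (hnW x (PP_adj hx).1)) hD).trans (le_of_eq ?_)
  ring

end

end BdP_

end Pool.Agent.Lib.GSX
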