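import Pool.Agent.Lib.GSX.Rec
import Pool.Agent.Lib.GSR.Score
import Pool.Agent.Lib.GSR.Crd

/-!
# The best replies of one stage

`Best P G s S I`: the coordinates of the input `I` of the stage `s` which do not belong to the UP
systems are best replies: the main law for the linear payoff `Dm`, the services for `-Rv`, the own
steps for `-objP` and `-objA`.
-/

set_option autoImplicit false

namespace Pool.Agent.Lib.GSX

open Finset Classical
open Pool.Agent.Lib.FGF (cm)
open Pool.Agent.Lib.GSLE (kp brw cl win stp Cel hc rhoC CC AC alp)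
open Pool.Agent.Lib.GSR (vioC LawOn OwnK Ms single_mem_lawOn)

/-! ### Sets and linear payoffs -/

theorem Ms_eq_OwnK {V : Type} [Fintype V] (Λ : ℝ) (W : Finset V) : Ms Λ W = OwnK Λ W := by
  ext l
  constructor
  · rintro ⟨h1, h2, h3⟩
    exact ⟨h1, fun u hu => by
      by_contra h
      exact hu (h2 u h), h3⟩
  · rintro ⟨h1, h2, h3⟩
    exact ⟨h1, fun u hu => by
      by_contra h
      exact hu (h2 u h), h3⟩

section lin

variable {Y : Type} [Fintype Y] {S : Finset Y} {p g : Y → ℝ}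

theorem sum_single_mul (g : Y → ℝ) (y : Y) : ∑ z, (Pi.single y 1 : Y → ℝ) z * g z = g y := by
  rw [Finset.sum_eq_single y]
  · rw [Pi.single_eq_same, one_mul]
  · intro z _ hz
    rw [Pi.single_eq_of_ne hz, zero_mul]
  · exact fun h => absurd (Finset.mem_univ _) h

/-- A best reply for a linear payoff: no label is better. -/
theorem lin_le (hmax : ∀ q ∈ LawOn S, ∑ l, q l * g l ≤ ∑ l, p l * g l) {l : Y} (hl : l ∈ S) :
    g l ≤ ∑ l, p l * g l := by
  have h1 := hmax _ (single_mem_lawOn hl)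
  rwa [sum_single_mul] at h1

theorem supp_lawOn (hp : p ∈ LawOn S) {l : Y} (hl : p l ≠ 0) : l ∈ S := by
  by_contra h
  exact hl (hp.2 l h)

/-- A best reply for a linear payoff: the labels of the support are the best ones. -/
theorem lin_eq (hp : p ∈ LawOn S) (hmax : ∀ q ∈ LawOn S, ∑ l, q l * g l ≤ ∑ l, p l * g l)
    {l : Y} (hl : p l ≠ 0) : g l = ∑ l, p l * g l := by
  have hz : ∑ w, p w * (∑ l, p l * g l - g w) = 0 := by
    have h1 : ∑ w, p w * (∑ l, p l * g l - g w) =
        (∑ w, p w) * (∑ l, p l * g l) - ∑ w, p w * g w := by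
      rw [Finset.sum_mul, ← Finset.sum_sub_distrib]
      exact Finset.sum_congr rfl fun w _ => by ring
    rw [h1, hp.1.2, one_mul, sub_self]
  have hnn : ∀ w ∈ Finset.univ, 0 ≤ p w * (∑ l, p l * g l - g w) := by
    intro w _
    by_cases h : p w = 0
    · rw [h, zero_mul]
    · exact mul_nonneg (hp.1.1 w) (sub_nonneg.2 (lin_le hmax (supp_lawOn hp h)))
  have h1 := (Finset.sum_eq_zero_iff_of_nonneg hnn).1 hz l (Finset.mem_univ l)
  rcases mul_eq_zero.1 h1 with h2 | h2
  · exact absurd h2 hl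
  · linarith

/-- The linear payoff is concave. -/
theorem lin_concave (g : Y → ℝ) {B : Set (Y → ℝ)} (hB : Convex ℝ B) :
    ConcaveOn ℝ B fun p => ∑ l, p l * g l := by
  refine ⟨hB, fun p _ q _ a b _ _ _ => le_of_eq ?_⟩
  rw [smul_eq_mul, smul_eq_mul, Finset.mul_sum, Finset.mul_sum, ← Finset.sum_add_distrib]
  refine Finset.sum_congr rfl fun y _ => ?_
  rw [Pi.add_apply, Pi.smul_apply, Pi.smul_apply, smul_eq_mul, smul_eq_mul]
  ring

/-- The linear payoff is continuous. -/
theorem lin_continuousOn {T : Type*} [TopologicalSpace T] {A : Set T} {g : T → Y → ℝ}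
    (hg : ∀ l, ContinuousOn (fun t => g t l) A) (B : Set (Y → ℝ)) :
    ContinuousOn (fun q : T × (Y → ℝ) => ∑ l, q.2 l * g q.1 l) (A ×ˢ B) := by
  refine continuousOn_finsetSum _ fun l _ => ?_
  refine ContinuousOn.mul ?_ ((hg l).comp continuousOn_fst fun q hq => hq.1)
  exact ((continuous_apply l).comp continuous_snd).continuousOn

end lin

/-! ### The best replies -/

section

variable {V : Type} [Fintype V] (P : Cn) (G : SimpleGraph V)

/-- The main labels with the hub in `W`. -/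
def mlW (W : Finset V) : Finset (Ml P V) := W ×ˢ (Finset.univ : Finset (Fin (P.I0 + 1)))

/-- The payoff of the main label `l` for the law `n`. -/
noncomputable def Dm (I : Inp P V) (n : V → ℝ) (l : Ml P V) : ℝ :=
  GSLE.DD n (fun _ => P.e0) (inc G I.W) I.pi (fun l => lv l.2) l

/-- The value of the main law. -/
noncomputable def Del (I : Inp P V) : ℝ := ∑ l, I.pi l * Dm P G I I.n0 l

/-- The best replies of the stage `s`: the coordinates which do not belong to the UP systems. -/
structure Best (s : Fin P.N) (S : Sta P V) (I : Inp P V) : Prop where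
  /-- the main law -/
  pi_mem : I.pi ∈ LawOn (mlW P I.W)
  pi_max : ∀ q ∈ LawOn (mlW P I.W), ∑ l, q l * Dm P G I I.n0 l ≤ Del P G I
  /-- the services of the cells -/
  q_mem : ∀ T C l, I.q T C l ∈ LawOn I.W
  mu_mem : ∀ T C l, I.mu T C l ∈ OwnK (P.Lam C.card) I.W
  sv_min : ∀ T C l, ∀ q ∈ LawOn I.W, ∀ mu ∈ OwnK (P.Lam C.card) I.W,
    Rv P G S I T C l (I.q T C l) (I.mu T C l) ≤ Rv P G S I T C l q mu
  /-- the own steps of the main labels -/
  lp_mem : ∀ C l, I.lp C l ∈ OwnK (P.Lam' C.card) I.W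
  lp_min : ∀ C l, ∀ lam ∈ OwnK (P.Lam' C.card) I.W,
    objP P G S I C l (I.lp C l) ≤ objP P G S I C l lam
  /-- the own steps of the cells -/
  la_mem : ∀ T C l, I.la T C l ∈ OwnK (P.Lam' C.card) I.W
  la_min : ∀ T C l, ∀ lam ∈ OwnK (P.Lam' C.card) I.W,
    objA P G S I T C l (I.la T C l) ≤ objA P G S I T C l lam

variable {P G}

omit [Fintype V] in
theorem mem_mlW {W : Finset V} {l : Ml P V} : l ∈ mlW P W ↔ l.1 ∈ W := by
  unfold mlW
  rw [Finset.mem_product]
  exact ⟨fun h => h.1, fun h => ⟨h, Finset.mem_univ _⟩⟩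

omit [Fintype V] in
theorem mlW_nonempty {W : Finset V} (h : W.Nonempty) : (mlW P W).Nonempty := by
  obtain ⟨y, hy⟩ := h
  exact ⟨(y, 0), mem_mlW.2 hy⟩

/-- The payoff of a main label. -/
theorem Dm_eq (I : Inp P V) (n : V → ℝ) (l : Ml P V) :
    Dm P G I n l = ∑ x, n x / al P G I x * (inc G I.W x l * kp (al P G I x / lv l.2)) := rfl

variable {s : Fin P.N} {S : Sta P V} {I : Inp P V}

theorem lv_pos (i : ℕ) : 0 < lv i := by
  unfold lv
  positivity

omit [Fintype V] in
theorem inc_nonneg (G : SimpleGraph V) (W : Finset V) (x : V) (l : Ml P V) :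
    0 ≤ inc G W x l := by
  unfold inc
  split_ifs
  · exact zero_le_one
  · exact le_rfl

theorem al_pos' (I : Inp P V) (x : V) : 0 < al P G I x := GSLE.alp_pos _ _ _ _ _

/-- The root equation. -/
theorem al_eq' (he : 0 < P.e0) (hpi : ∀ l, 0 ≤ I.pi l) (x : V) :
    P.e0 + ∑ l, inc G I.W x l * I.pi l * kp (al P G I x / lv l.2) = al P G I x :=
  GSLE.alp_eq (fun _ => he) (inc_nonneg G I.W) hpi x

theorem Dm_nonneg {n : V → ℝ} (hn : ∀ x, 0 ≤ n x) (l : Ml P V) : 0 ≤ Dm P G I n l :=
  GSLE.DD_nonneg hn (inc_nonneg G I.W) l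

theorem Dm_mono {n n' : V → ℝ} (h : ∀ x, n x ≤ n' x) (l : Ml P V) :
    Dm P G I n l ≤ Dm P G I n' l := by
  rw [Dm_eq, Dm_eq]
  refine Finset.sum_le_sum fun x _ => mul_le_mul_of_nonneg_right
    (div_le_div_of_nonneg_right (h x) (al_pos' I x).le)
    (mul_nonneg (inc_nonneg G I.W x l) (GSLE.kp_nonneg _))

theorem Dm_smul (c : ℝ) (n : V → ℝ) (l : Ml P V) :
    Dm P G I (fun x => c * n x) l = c * Dm P G I n l := by
  rw [Dm_eq, Dm_eq, Finset.mul_sum]
  exact Finset.sum_congr rfl fun x _ => by ring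

namespace Best

theorem pi_nonneg (h : Best P G s S I) (l : Ml P V) : 0 ≤ I.pi l := h.pi_mem.1.1 l

theorem sum_pi (h : Best P G s S I) : ∑ l, I.pi l = 1 := h.pi_mem.1.2

theorem pi_supp (h : Best P G s S I) {l : Ml P V} (hl : I.pi l ≠ 0) : l.1 ∈ I.W :=
  mem_mlW.1 (supp_lawOn h.pi_mem hl)

/-- All the labels with the hub in the world have a payoff at most `Del`. -/
theorem dm_le (h : Best P G s S I) {l : Ml P V} (hl : l.1 ∈ I.W) :
    Dm P G I I.n0 l ≤ Del P G I := lin_le h.pi_max (mem_mlW.2 hl)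

/-- The labels of the main law have the payoff `Del`. -/
theorem dm_eq (h : Best P G s S I) {l : Ml P V} (hl : I.pi l ≠ 0) :
    Dm P G I I.n0 l = Del P G I := lin_eq h.pi_mem h.pi_max hl

theorem del_nonneg (h : Best P G s S I) (hn : ∀ x, 0 ≤ I.n0 x) : 0 ≤ Del P G I :=
  Finset.sum_nonneg fun l _ => mul_nonneg (h.pi_nonneg l) (Dm_nonneg hn l)

theorem del_eq (h : Best P G s S I) (he : 0 < P.e0) :
    Del P G I = ∑ x, I.n0 x * (1 - P.e0 / al P G I x) :=
  GSLE.total (fun _ => he) (inc_nonneg G I.W) h.pi_nonneg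

theorem del_le (h : Best P G s S I) (he : 0 < P.e0) (hn : ∀ x, 0 ≤ I.n0 x) :
    Del P G I ≤ ∑ x, I.n0 x :=
  GSLE.total_le hn (fun _ => he) (inc_nonneg G I.W) h.pi_nonneg

theorem dm_le_sum (h : Best P G s S I) (he : 0 < P.e0) (hn : ∀ x, 0 ≤ I.n0 x) {l : Ml P V}
    (hl : l.1 ∈ I.W) : Dm P G I I.n0 l ≤ ∑ x, I.n0 x := (h.dm_le hl).trans (h.del_le he hn)

/-- The payoff of a label for a law `n ≤ c n0`. -/
theorem dm_le_of_le (h : Best P G s S I) (he : 0 < P.e0) (hn : ∀ x, 0 ≤ I.n0 x) {c : ℝ}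
    (hc : 0 ≤ c) {n : V → ℝ} (hnc : ∀ x, n x ≤ c * I.n0 x) {l : Ml P V} (hl : l.1 ∈ I.W) :
    Dm P G I n l ≤ c * ∑ x, I.n0 x :=
  (Dm_mono hnc l).trans ((Dm_smul c I.n0 l).le.trans
    (mul_le_mul_of_nonneg_left (h.dm_le_sum he hn hl) hc))

/-! ### Services -/

theorem q_nonneg (h : Best P G s S I) (T C : Finset (Fin P.N)) (l : Ce P V) (t : V) :
    0 ≤ I.q T C l t := (h.q_mem T C l).1.1 t

theorem sum_q (h : Best P G s S I) (T C : Finset (Fin P.N)) (l : Ce P V) :
    ∑ t, I.q T C l t = 1 := (h.q_mem T C l).1.2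

theorem mu_nonneg (h : Best P G s S I) (T C : Finset (Fin P.N)) (l : Ce P V) (t : V) :
    0 ≤ I.mu T C l t := (h.mu_mem T C l).1 t

theorem lp_nonneg (h : Best P G s S I) (C : Finset (Fin P.N)) (l : Ml P V) (t : V) :
    0 ≤ I.lp C l t := (h.lp_mem C l).1 t

theorem la_nonneg (h : Best P G s S I) (T C : Finset (Fin P.N)) (l : Ce P V) (t : V) :
    0 ≤ I.la T C l t := (h.la_mem T C l).1 t

end Best

/-- The measure of the service with a point mass. -/
theorem Mh_single (C : Finset (Fin P.N)) (t : V) (mu : V → ℝ) :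
    Mh P S C (Pi.single t 1) mu = fun u => P.A C.card * S.m C t u + mu u := by
  funext u
  unfold Mh
  rw [sum_single_mul (fun t => S.m C t u) t]

/-- The objective of the service with a point mass. -/
theorem Rv_single (T C : Finset (Fin P.N)) (l : Ce P V) (t : V) (mu : V → ℝ) :
    Rv P G S I T C l (Pi.single t 1) mu =
      vioC G P.M (P.h - C.card - 1) l.1.1
        (fun u => cm G (fun v => P.A C.card * S.m C t v + mu v) u + P.Z' C.card * Fs P G S I u)
        I.W +
      ∑ x, PA P G S I T l x * cm G (fun v => P.A C.card * S.m C t v + mu v) x +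
      hcost P G S I C l t := by
  unfold Rv
  rw [Mh_single, sum_single_mul (fun t => hcost P G S I C l t) t]

/-- The service is at least as good as any service with a point mass. -/
theorem Best.rv_le_single (h : Best P G s S I) (T C : Finset (Fin P.N)) (l : Ce P V) {t : V}
    (ht : t ∈ I.W) {mu : V → ℝ} (hmu : mu ∈ OwnK (P.Lam C.card) I.W) :
    Rv P G S I T C l (I.q T C l) (I.mu T C l) ≤
      vioC G P.M (P.h - C.card - 1) l.1.1
        (fun u => cm G (fun v => P.A C.card * S.m C t v + mu v) u + P.Z' C.card * Fs P G S I u)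
        I.W +
      ∑ x, PA P G S I T l x * cm G (fun v => P.A C.card * S.m C t v + mu v) x +
      hcost P G S I C l t := by
  rw [← Rv_single]
  exact h.sv_min T C l _ (single_mem_lawOn ht) mu hmu

end

end Pool.Agent.Lib.GSX
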