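import Pool.Agent.Lib.GSX.UpD

/-!
# The UP system: signs and validity

All statements hold for every UP system with the signs `UpPos`.
-/

set_option autoImplicit false

namespace Pool.Agent.Lib.GSX

open Finset Classical
open Pool.Agent.Lib.GSR3 (Tree)
open Pool.Agent.Lib.FGF (cm)
open Pool.Agent.Lib.GSLE (kp kp_nonneg kp_le_one cl_nonneg)
open Pool.Agent.Lib.GSR (vioC vioC_nonneg vioC_le_one vioC_avg vioC_le)
open Pool.Agent.Lib.GSR.Srv_ (cm_cl)

/-- The signs of the data of an UP system. -/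
structure UpPos {V : Type} {I0 : ℕ} (U : UpI V I0) : Prop where
  e : 0 < U.e
  th : 0 < U.th
  Gam : 0 < U.Gam
  eta : 0 < U.eta
  Amp : 0 ≤ U.Amp
  n : ∀ x, 0 ≤ U.n x
  a : ∀ x, 0 < U.a x
  sg : ∀ j l, 0 ≤ U.sg j l
  su : ∀ j l u, 0 ≤ U.su j l u

/-- The signs of the weights and masters. -/
structure UpSP {V : Type} (X : UpS V) : Prop where
  f0 : ∀ z, 0 ≤ X.f z
  f1 : ∀ z, X.f z ≤ 1
  m : ∀ z u, 0 ≤ X.m z u

namespace UpV_

section

variable {V : Type} [Fintype V] {I0 : ℕ} {G : SimpleGraph V} {U : UpI V I0} {j : ℕ} {X : UpS V}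

omit [Fintype V] in
theorem upK_nonneg (x : V) (l : V × Fin (I0 + 1)) : 0 ≤ upK G U x l := by
  unfold upK
  refine mul_nonneg (mul_nonneg ?_ (kp_nonneg _)) (rp_nonneg _)
  split_ifs <;> norm_num

omit [Fintype V] in
theorem upK_le_one (x : V) (l : V × Fin (I0 + 1)) : upK G U x l ≤ 1 := by
  unfold upK
  have h1 : (if G.Adj x l.1 ∧ l.1 ∈ U.W then (1 : ℝ) else 0) ≤ 1 := by
    split_ifs <;> norm_num
  have h2 : 0 ≤ (if G.Adj x l.1 ∧ l.1 ∈ U.W then (1 : ℝ) else 0) := by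
    split_ifs <;> norm_num
  exact mul_le_one₀ (mul_le_one₀ h1 (kp_nonneg _) (kp_le_one _)) (rp_nonneg _) (rp_le_one _)

omit [Fintype V] in
theorem upK_ne {x : V} {l : V × Fin (I0 + 1)} (h : upK G U x l ≠ 0) :
    G.Adj x l.1 ∧ l.1 ∈ U.W ∧ 1 < U.a l.1 / (U.Gam * U.a x) := by
  unfold upK at h
  have h1 := left_ne_zero_of_mul (left_ne_zero_of_mul h)
  have h2 := pos_of_rp (right_ne_zero_of_mul h)
  have h3 : G.Adj x l.1 ∧ l.1 ∈ U.W := by
    by_contra hc
    exact h1 (if_neg hc)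
  exact ⟨h3.1, h3.2, by linarith⟩

theorem term_nonneg (hU : UpPos U) (hX : UpSP X) (x : V) (l : V × Fin (I0 + 1)) :
    0 ≤ U.sg j l * X.f l.1 * upK G U x l :=
  mul_nonneg (mul_nonneg (hU.sg j l) (hX.f0 _)) (upK_nonneg x l)

theorem e_le_upA (hU : UpPos U) (hX : UpSP X) (x : V) : U.e ≤ upA G U j X x := by
  unfold upA
  linarith [Finset.sum_nonneg fun l (_ : l ∈ Finset.univ) => term_nonneg (G := G) (j := j) hU hX x l]

theorem upA_pos (hU : UpPos U) (hX : UpSP X) (x : V) : 0 < upA G U j X x :=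
  hU.e.trans_le (e_le_upA hU hX x)

theorem upw_nonneg (hU : UpPos U) (hX : UpSP X) (x : V) (l : V × Fin (I0 + 1)) :
    0 ≤ upw G U j X x l :=
  div_nonneg (term_nonneg hU hX x l) (upA_pos hU hX x).le

theorem sum_upw (hU : UpPos U) (hX : UpSP X) (x : V) :
    ∑ l, upw G U j X x l = 1 - U.e / upA G U j X x := by
  have h1 := upA_pos (G := G) (j := j) hU hX x
  have h2 : ∑ l, upw G U j X x l = (∑ l, U.sg j l * X.f l.1 * upK G U x l) / upA G U j X x := by
    unfold upw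
    rw [Finset.sum_div]
  rw [h2, eq_sub_iff_add_eq, ← add_div, div_eq_one_iff_eq h1.ne']
  unfold upA
  ring

theorem sum_upw_le (hU : UpPos U) (hX : UpSP X) (x : V) : ∑ l, upw G U j X x l ≤ 1 := by
  rw [sum_upw hU hX]
  linarith [div_nonneg hU.e.le (upA_pos (G := G) (j := j) hU hX x).le]

theorem upw_ne {x : V} {l : V × Fin (I0 + 1)} (h : upw G U j X x l ≠ 0) :
    U.sg j l ≠ 0 ∧ X.f l.1 ≠ 0 ∧ upK G U x l ≠ 0 := by
  unfold upw at h
  have h1 := (div_ne_zero_iff.1 h).1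
  exact ⟨left_ne_zero_of_mul (left_ne_zero_of_mul h1), right_ne_zero_of_mul (left_ne_zero_of_mul h1),
    right_ne_zero_of_mul h1⟩

theorem upq_nonneg (hU : UpPos U) (hX : UpSP X) (l : V × Fin (I0 + 1)) (x : V) :
    0 ≤ upq G U j X l x :=
  div_nonneg (mul_nonneg (mul_nonneg (hU.n x) (hX.f0 _)) (upK_nonneg x l)) (upA_pos hU hX x).le

theorem upq_ne {x : V} {l : V × Fin (I0 + 1)} (h : upq G U j X l x ≠ 0) :
    U.n x ≠ 0 ∧ X.f l.1 ≠ 0 ∧ upK G U x l ≠ 0 := by
  unfold upq at h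
  have h1 := (div_ne_zero_iff.1 h).1
  exact ⟨left_ne_zero_of_mul (left_ne_zero_of_mul h1), right_ne_zero_of_mul (left_ne_zero_of_mul h1),
    right_ne_zero_of_mul h1⟩

/-- The flux identity. -/
theorem n_upw (x : V) (l : V × Fin (I0 + 1)) :
    U.n x * upw G U j X x l = U.sg j l * upq G U j X l x := by
  unfold upw upq
  ring

theorem upR_nonneg (hU : UpPos U) (hX : UpSP X) (l : V × Fin (I0 + 1)) {lam : V → ℝ}
    (hl : ∀ u, 0 ≤ lam u) (u : V) : 0 ≤ upR G U j X l lam u := by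
  unfold upR
  have h1 : (0 : ℝ) ≤ if u = l.1 then 1 else 0 := by split_ifs <;> norm_num
  have h2 := div_nonneg (upq_nonneg (G := G) (j := j) hU hX l u) hU.eta.le
  linarith [hl u]

theorem upM_nonneg (hU : UpPos U) (hX : UpSP X) (l : V × Fin (I0 + 1)) {lam : V → ℝ}
    (hl : ∀ u, 0 ≤ lam u) (u : V) : 0 ≤ upM G U j X l lam u :=
  add_nonneg (mul_nonneg hU.Amp (hX.m _ _)) (upR_nonneg hU hX l hl u)

theorem cm_nonneg' {r : V → ℝ} (h : ∀ u, 0 ≤ r u) (x : V) : 0 ≤ cm G r x := by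
  rw [cm_cl]
  exact Finset.sum_nonneg fun u _ => mul_nonneg (h u) (cl_nonneg G x u)

theorem upv_nonneg (l : V × Fin (I0 + 1)) (lam : V → ℝ) (x : V) : 0 ≤ upv G U j X l lam x :=
  vioC_nonneg

theorem upv_le_one (hU : UpPos U) (hX : UpSP X) (l : V × Fin (I0 + 1)) {lam : V → ℝ}
    (hl : ∀ u, 0 ≤ lam u) (x : V) : upv G U j X l lam x ≤ 1 :=
  vioC_le_one fun u => cm_nonneg' (upM_nonneg hU hX l hl) u

theorem upSh_nonneg (hU : UpPos U) (hX : UpSP X) (x : V) : 0 ≤ upSh G U j X x :=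
  Finset.sum_nonneg fun l _ => mul_nonneg (upw_nonneg hU hX x l)
    (by linarith [upv_le_one (G := G) (j := j) hU hX l (hU.su j l) x])

/-- The share which is lost. -/
theorem upSh_eq (hU : UpPos U) (hX : UpSP X) (x : V) : upSh G U j X x =
    1 - U.e / upA G U j X x - ∑ l, upw G U j X x l * upv G U j X l (U.su j l) x := by
  rw [← sum_upw hU hX x, ← Finset.sum_sub_distrib]
  unfold upSh
  exact Finset.sum_congr rfl fun l _ => by ring

theorem upN_sp (hU : UpPos U) (hX : UpSP X) : UpSP (upN G U j X) where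
  f0 z := mul_nonneg (mul_nonneg (hX.f0 z) (rp_nonneg _)) (rp_nonneg _)
  f1 z := mul_le_one₀ (mul_le_one₀ (hX.f1 z) (rp_nonneg _) (rp_le_one _)) (rp_nonneg _)
    (rp_le_one _)
  m z u := mul_nonneg (by norm_num) (Finset.sum_nonneg fun l _ =>
    mul_nonneg (upw_nonneg hU hX z l) (upM_nonneg hU hX l (hU.su j l) u))

theorem ups_sp (hU : UpPos U) : ∀ j, UpSP (ups G U j)
  | 0 => ⟨fun _ => zero_le_one, fun _ => le_rfl, fun _ _ => le_rfl⟩
  | j + 1 => upN_sp hU (ups_sp hU j)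

theorem f_succ (z : V) : (ups G U (j + 1)).f z = (ups G U j).f z *
    rp (upA G U j (ups G U j) z / (U.th * U.a z) - 1) *
    rp (8 * upSh G U j (ups G U j) z - 2) := rfl

theorem m_succ (x u : V) : (ups G U (j + 1)).m x u =
    4 * ∑ l, upw G U j (ups G U j) x l * upM G U j (ups G U j) l (U.su j l) u := rfl

/-- The weights decrease. -/
theorem f_anti (hU : UpPos U) (j : ℕ) (z : V) : (ups G U (j + 1)).f z ≤ (ups G U j).f z := by
  rw [f_succ]
  have h1 := (ups_sp (G := G) hU j).f0 z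
  have h2 : (ups G U j).f z * rp (upA G U j (ups G U j) z / (U.th * U.a z) - 1) ≤
      (ups G U j).f z := mul_le_of_le_one_right h1 (rp_le_one _)
  exact (mul_le_of_le_one_right (mul_nonneg h1 (rp_nonneg _)) (rp_le_one _)).trans h2

theorem f_anti' (hU : UpPos U) {i j : ℕ} (h : i ≤ j) (z : V) :
    (ups G U j).f z ≤ (ups G U i).f z := by
  induction h with
  | refl => exact le_rfl
  | step h ih => exact (f_anti hU _ z).trans ih

/-- What `f > 0` gives. -/
theorem of_f_pos {z : V} (h : (ups G U (j + 1)).f z ≠ 0) : (ups G U j).f z ≠ 0 ∧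
    1 < upA G U j (ups G U j) z / (U.th * U.a z) ∧ 1 / 4 < upSh G U j (ups G U j) z := by
  rw [f_succ] at h
  have h1 := pos_of_rp (right_ne_zero_of_mul h)
  have h2 := pos_of_rp (right_ne_zero_of_mul (left_ne_zero_of_mul h))
  exact ⟨left_ne_zero_of_mul (left_ne_zero_of_mul h), by linarith, by linarith⟩

/-- The weight is one at the vertices of large scale and score. -/
theorem f_eq_one (hU : UpPos U) {z : V} : ∀ j, (∀ i < j, 2 * (U.th * U.a z) ≤
    upA G U i (ups G U i) z ∧ 3 / 8 ≤ upSh G U i (ups G U i) z) → (ups G U j).f z = 1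
  | 0, _ => rfl
  | j + 1, h => by
    rw [f_succ, f_eq_one hU j fun i hi => h i (hi.trans (Nat.lt_succ_self j))]
    obtain ⟨h1, h2⟩ := h j (Nat.lt_succ_self j)
    have h3 : 0 < U.th * U.a z := mul_pos hU.th (hU.a z)
    rw [rp_eq_one, rp_eq_one]
    · norm_num
    · linarith
    · have : 2 ≤ upA G U j (ups G U j) z / (U.th * U.a z) := by
        rw [le_div_iff₀ h3]
        exact h1
      linarith

/-- The charge of the new master is the average of the charges of the labels. -/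
theorem cm_succ (x u : V) : cm G ((ups G U (j + 1)).m x) u =
    4 * ∑ l, upw G U j (ups G U j) x l * cm G (upM G U j (ups G U j) l (U.su j l)) u := by
  simp only [cm_cl, m_succ, Finset.mul_sum, Finset.sum_mul]
  rw [Finset.sum_comm]
  refine Finset.sum_congr rfl fun l _ => Finset.sum_congr rfl fun v _ => ?_
  ring

/-- **The masters are valid at all the hubs of positive weight.** -/
theorem valid (hU : UpPos U) (hT : ∀ φ : List (Fin U.M) → V, ¬ Tree G U.h U.M φ) :
    ∀ (j : ℕ) (z : V), (ups G U j).f z ≠ 0 →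
      vioC G U.M (U.h - j) z (cm G ((ups G U j).m z)) U.W = 0
  | 0, z, _ => le_antisymm (vioC_le le_rfl fun φ h1 _ _ => absurd h1 (hT φ)) vioC_nonneg
  | j + 1, z, hz => by
    obtain ⟨-, -, h3⟩ := of_f_pos hz
    have h4 := vioC_avg (G := G) (M := U.M) (j := U.h - j - 1) (v := z) (L := U.W) Finset.univ
      (fun l => upw G U j (ups G U j) z l)
      (fun l u => cm G (upM G U j (ups G U j) l (U.su j l)) u) (c := 1 / 4) (by norm_num)
      (fun l _ => upw_nonneg hU (ups_sp hU j) z l) h3.le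
    have h5 : (fun u => 1 / (1 / 4 : ℝ) * ∑ l, upw G U j (ups G U j) z l *
        cm G (upM G U j (ups G U j) l (U.su j l)) u) = cm G ((ups G U (j + 1)).m z) := by
      funext u
      rw [cm_succ]
      norm_num
    rw [h5] at h4
    rw [show U.h - (j + 1) = U.h - j - 1 from by omega]
    exact h4

end

end UpV_

end Pool.Agent.Lib.GSX
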