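import Pool.Agent.Lib.GSX.Best
import Pool.Agent.Lib.GSX.UpV

/-!
# The best replies of the UP systems of one stage

`BestU P G I`: the laws `I.sg b j` and the services `I.su b j l` are best replies: the laws for the
logarithmic payoff `upLog`, the services for `-upObj`.
-/

set_option autoImplicit false

namespace Pool.Agent.Lib.GSX

open Finset Classical
open Pool.Agent.Lib.GSR (vioC LawOn OwnK)

section

variable {V : Type} [Fintype V] (P : Cn) (G : SimpleGraph V)

/-- The weights and masters of the UP system `b` before the step `j`. -/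
noncomputable def upx (I : Inp P V) (b : Fin 2) (j : ℕ) : UpS V := ups G (upi P G I b) j

/-- The best replies of the UP systems. -/
structure BestU (I : Inp P V) : Prop where
  sg_mem : ∀ b j, j < P.h → I.sg b j ∈ LawOn (mlW P I.W)
  sg_max : ∀ b j, j < P.h → ∀ q ∈ LawOn (mlW P I.W),
    upLog G (upi P G I b) (upx P G I b j) q ≤ upLog G (upi P G I b) (upx P G I b j) (I.sg b j)
  su_mem : ∀ b j, j < P.h → ∀ l, I.su b j l ∈ OwnK (P.Lu b) I.W
  su_min : ∀ b j, j < P.h → ∀ l, ∀ lam ∈ OwnK (P.Lu b) I.W,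
    upObj G (upi P G I b) j (upx P G I b j) l (I.su b j l) ≤
      upObj G (upi P G I b) j (upx P G I b j) l lam

end

namespace BestU_

/-! ### First order conditions for one UP system -/

section

variable {V : Type} [Fintype V] {I0 : ℕ} {G : SimpleGraph V} {U : UpI V I0} {j : ℕ} {X : UpS V}

theorem upLog_eq (σ : V × Fin (I0 + 1) → ℝ) :
    upLog G U X σ = GSR.lg U.e U.n (fun x l => X.f l.1 * upK G U x l) σ := by
  unfold upLog GSR.lg GSR.sc
  refine Finset.sum_congr rfl fun x _ => ?_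
  congr 3
  exact Finset.sum_congr rfl fun l _ => by ring

theorem upA_eq (x : V) :
    GSR.sc U.e (fun x l => X.f l.1 * upK G U x l) (U.sg j) x = upA G U j X x := by
  unfold upA GSR.sc
  congr 1
  exact Finset.sum_congr rfl fun l _ => by ring

theorem sum_upq_eq (l : V × Fin (I0 + 1)) :
    GSR.dm U.e U.n (fun x l => X.f l.1 * upK G U x l) (U.sg j) l = ∑ x, upq G U j X l x := by
  unfold GSR.dm upq
  refine Finset.sum_congr rfl fun x _ => ?_
  rw [upA_eq]
  ring

variable {S : Finset (V × Fin (I0 + 1))}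

/-- The payoff of all the labels of `S`. -/
theorem foc_le (he : 0 < U.e) (hn : ∀ x, 0 ≤ U.n x) (hX : UpSP X) (hp : U.sg j ∈ LawOn S)
    (hmax : ∀ q ∈ LawOn S, upLog G U X q ≤ upLog G U X (U.sg j)) {l : V × Fin (I0 + 1)}
    (hl : l ∈ S) :
    ∑ x, upq G U j X l x ≤ ∑ x, U.n x * (1 - U.e / upA G U j X x) := by
  have h1 := GSR.foc_le (M := fun x l => X.f l.1 * upK G U x l) he hn
    (fun x l => mul_nonneg (hX.f0 _) (UpV_.upK_nonneg x l)) hp
    (fun q hq => by
      rw [← upLog_eq, ← upLog_eq]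
      exact hmax q hq) hl
  rw [sum_upq_eq] at h1
  refine h1.trans (le_of_eq (Finset.sum_congr rfl fun x _ => ?_))
  rw [upA_eq]

/-- The payoff of the labels of the law. -/
theorem foc_eq (he : 0 < U.e) (hn : ∀ x, 0 ≤ U.n x) (hX : UpSP X) (hp : U.sg j ∈ LawOn S)
    (hmax : ∀ q ∈ LawOn S, upLog G U X q ≤ upLog G U X (U.sg j)) {l : V × Fin (I0 + 1)}
    (hl : U.sg j l ≠ 0) :
    ∑ x, upq G U j X l x = ∑ x, U.n x * (1 - U.e / upA G U j X x) := by
  have h1 := GSR.foc_eq (M := fun x l => X.f l.1 * upK G U x l) he hn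
    (fun x l => mul_nonneg (hX.f0 _) (UpV_.upK_nonneg x l)) hp
    (fun q hq => by
      rw [← upLog_eq, ← upLog_eq]
      exact hmax q hq) hl
  rw [sum_upq_eq] at h1
  refine h1.trans (Finset.sum_congr rfl fun x _ => ?_)
  rw [upA_eq]

/-- The value is at most the mass. -/
theorem val_le (hU : UpPos U) (hX : UpSP X) :
    ∑ x, U.n x * (1 - U.e / upA G U j X x) ≤ ∑ x, U.n x := by
  refine Finset.sum_le_sum fun x _ => mul_le_of_le_one_right (hU.n x) ?_
  have h1 : 0 ≤ U.e / upA G U j X x := div_nonneg hU.e.le (UpV_.upA_pos hU hX x).le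
  linarith

theorem foc_le_mass (hU : UpPos U) (hX : UpSP X) (hp : U.sg j ∈ LawOn S)
    (hmax : ∀ q ∈ LawOn S, upLog G U X q ≤ upLog G U X (U.sg j)) {l : V × Fin (I0 + 1)}
    (hl : l ∈ S) : ∑ x, upq G U j X l x ≤ ∑ x, U.n x :=
  (foc_le hU.e hU.n hX hp hmax hl).trans (val_le hU hX)

end

end BestU_

section

variable {V : Type} [Fintype V] {P : Cn} {G : SimpleGraph V} {I : Inp P V}

namespace BestU

theorem sg_nonneg (h : BestU P G I) {b : Fin 2} {j : ℕ} (hj : j < P.h) (l : Ml P V) :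
    0 ≤ I.sg b j l := (h.sg_mem b j hj).1.1 l

theorem sum_sg (h : BestU P G I) {b : Fin 2} {j : ℕ} (hj : j < P.h) : ∑ l, I.sg b j l = 1 :=
  (h.sg_mem b j hj).1.2

theorem sg_supp (h : BestU P G I) {b : Fin 2} {j : ℕ} (hj : j < P.h) {l : Ml P V}
    (hl : I.sg b j l ≠ 0) : l.1 ∈ I.W := mem_mlW.1 (supp_lawOn (h.sg_mem b j hj) hl)

theorem su_nonneg (h : BestU P G I) {b : Fin 2} {j : ℕ} (hj : j < P.h) (l : Ml P V) (u : V) :
    0 ≤ I.su b j l u := (h.su_mem b j hj l).1 u

/-- The first order condition: all the labels with the hub in the world. -/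
theorem foc_le (h : BestU P G I) {b : Fin 2} {j : ℕ} (hj : j < P.h)
    (hU : UpPos (upi P G I b)) (hX : UpSP (upx P G I b j)) {l : Ml P V} (hl : l.1 ∈ I.W) :
    ∑ x, upq G (upi P G I b) j (upx P G I b j) l x ≤
      ∑ x, I.n1 x * (1 - (upi P G I b).e / upA G (upi P G I b) j (upx P G I b j) x) :=
  BestU_.foc_le (U := upi P G I b) hU.e hU.n hX (h.sg_mem b j hj) (h.sg_max b j hj) (mem_mlW.2 hl)

theorem foc_eq (h : BestU P G I) {b : Fin 2} {j : ℕ} (hj : j < P.h)
    (hU : UpPos (upi P G I b)) (hX : UpSP (upx P G I b j)) {l : Ml P V}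
    (hl : I.sg b j l ≠ 0) :
    ∑ x, upq G (upi P G I b) j (upx P G I b j) l x =
      ∑ x, I.n1 x * (1 - (upi P G I b).e / upA G (upi P G I b) j (upx P G I b j) x) :=
  BestU_.foc_eq (U := upi P G I b) hU.e hU.n hX (h.sg_mem b j hj) (h.sg_max b j hj) hl

theorem foc_le_mass (h : BestU P G I) {b : Fin 2} {j : ℕ} (hj : j < P.h)
    (hU : UpPos (upi P G I b)) (hX : UpSP (upx P G I b j)) {l : Ml P V} (hl : l.1 ∈ I.W) :
    ∑ x, upq G (upi P G I b) j (upx P G I b j) l x ≤ ∑ x, I.n1 x :=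
  BestU_.foc_le_mass (U := upi P G I b) hU hX (h.sg_mem b j hj) (h.sg_max b j hj) (mem_mlW.2 hl)

/-- The services are optimal (raw form). -/
theorem su_opt (h : BestU P G I) {b : Fin 2} {j : ℕ} (hj : j < P.h) (l : Ml P V) (lam : V → ℝ)
    (h4 : ∀ u, 0 ≤ lam u) (h5 : ∀ u, lam u ≠ 0 → u ∈ I.W) (h6 : ∑ u, lam u ≤ P.Lu b) :
    upObj G (upi P G I b) j (upx P G I b j) l (I.su b j l) ≤
      upObj G (upi P G I b) j (upx P G I b j) l lam := h.su_min b j hj l lam ⟨h4, h5, h6⟩

end BestU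

end

end Pool.Agent.Lib.GSX
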