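import Pool.Agent.Lib.GSX.Inst
import Pool.Agent.Lib.GSX.BestN
import Pool.Agent.Lib.GSX.BestU

/-!
# The best replies along a history

If all the ordinary coordinates of `θ` are best replies for the payoffs of the game then the records
of every history satisfy `Best` and `BestU` at every stage with a nonempty world.
-/

set_option autoImplicit false

namespace Pool.Agent.Lib.GSX

open Finset Classical
open Pool.Agent.Lib.GSR Pool.Agent.Lib.GSR.HZ Pool.Agent.Lib.GSR.HZB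

section

variable {V : Type} [Fintype V]

/-- The payoffs of the game. -/
noncomputable def ffx (P : Cn) (G : SimpleGraph V) :
    ∀ i : Ix P V, Tht P V → (Yi P V i → ℝ) → ℝ
  | .pi s p => fun θ y => ∑ l : Ml P V, y l * Dm P G (inpt P θ s p) (inpt P θ s p).n0 l
  | .sg s p b j => fun θ y =>
      upLog G (upi P G (inpt P θ s p) b) (upx P G (inpt P θ s p) b j.1) y
  | .su s p b j l => fun θ y =>
      -upObj G (upi P G (inpt P θ s p) b) j.1 (upx P G (inpt P θ s p) b j.1) l y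
  | .sv s p T C l => fun θ y => -Rv P G (stt P G θ p s.1) (inpt P θ s p) T C l
      (fun u => y (.inl u)) (fun u => y (.inr u))
  | .lp s p C l => fun θ y => -objP P G (stt P G θ p s.1) (inpt P θ s p) C l y
  | .la s p T C l => fun θ y => -objA P G (stt P G θ p s.1) (inpt P θ s p) T C l y

namespace BestI_

variable {P : Cn} {G : SimpleGraph V} {θ : Tht P V}

theorem wn_hp {s : Fin P.N} (j : ℕ) {p : Hh P V} (hne : (wo p s).Nonempty) :
    wn P s (hp s j p) = wo p s := by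
  unfold wn
  rw [wo_hp j le_rfl]
  exact nes_eq hne

theorem Dm_hp (s : Fin P.N) (j : ℕ) (p : Hh P V) (l : Ml P V) :
    Dm P G (inpt P θ s (hp s j p)) (inpt P θ s (hp s j p)).n0 l =
      Dm P G (inpt P θ s p) (inpt P θ s p).n0 l := by
  obtain ⟨h1, h2, h3⟩ := inpt_n0 (P := P) (θ := θ) s j p
  unfold Dm
  rw [h1, h2, h3]

theorem upi_hp (s : Fin P.N) (b : Fin 2) (p : Hh P V) {j : ℕ} (hj : g1 ≤ j) :
    upi P G (inpt P θ s (hp s j p)) b = upi P G (inpt P θ s p) b := by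
  obtain ⟨h1, -, -⟩ := inpt_n0 (P := P) (θ := θ) s j p
  obtain ⟨h4, h5, h6⟩ := inpt_n1 (P := P) (θ := θ) (s := s) hj p
  have h7 := al_hp (P := P) (G := G) (θ := θ) s j p
  unfold upi
  rw [h1, h4, h5, h6, h7]

theorem upx_hp (s : Fin P.N) (b : Fin 2) (p : Hh P V) {j : ℕ} (hj : g1 ≤ j) (i : ℕ) :
    upx P G (inpt P θ s (hp s j p)) b i = upx P G (inpt P θ s p) b i := by
  unfold upx
  rw [upi_hp s b p hj]

theorem inpt_g3 (s : Fin P.N) (p : Hh P V) :
    inpt P θ s (hp s (g3 P) p) = inpt P θ s p := inpt_hp (Or.inr ⟨rfl, le_rfl⟩) p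

/-- The coordinates are in their domains and are best replies. -/
structure Opt (P : Cn) (G : SimpleGraph V) (θ : Tht P V) : Prop where
  mem : ∀ i, θ.2 i ∈ Ki P i
  max : ∀ i, ∀ y ∈ Ki P i, ffx P G i θ y ≤ ffx P G i θ (θ.2 i)

variable (h : Opt P G θ) {s : Fin P.N} {p : Hh P V} (hne : (wo p s).Nonempty)

include h hne

/-- **The best replies of the stage `s`.** -/
theorem best : Best P G s (stt P G θ p s) (inpt P θ s p) := by
  have hQ : ∀ T C l, (inpt P θ s p).q T C l ∈ LawOn (wo p s) ∧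
      (inpt P θ s p).mu T C l ∈ OwnK (P.Lam C.card) (wo p s) := by
    intro T C l
    have h1 := h.mem (.sv s (hp s (g3 P) p) T C l)
    have h2 : θ.2 (.sv s (hp s (g3 P) p) T C l) ∈
        QMs (wn P s (hp s (g3 P) p)) (P.Lam C.card) (wn P s (hp s (g3 P) p)) := h1
    rw [wn_hp _ hne] at h2
    obtain ⟨h3, h4⟩ := h2
    rw [Ms_eq_OwnK] at h4
    exact ⟨h3, h4⟩
  have hlp : ∀ C l, (inpt P θ s p).lp C l ∈ OwnK (P.Lam' C.card) (wo p s) := by
    intro C l
    have h2 : θ.2 (.lp s (hp s (g3 P) p) C l) ∈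
        Ms (P.Lam' C.card) (wn P s (hp s (g3 P) p)) := h.mem (.lp s (hp s (g3 P) p) C l)
    rw [wn_hp _ hne, Ms_eq_OwnK] at h2
    exact h2
  have hla : ∀ T C l, (inpt P θ s p).la T C l ∈ OwnK (P.Lam' C.card) (wo p s) := by
    intro T C l
    have h2 : θ.2 (.la s (hp s (g3 P) p) T C l) ∈
        Ms (P.Lam' C.card) (wn P s (hp s (g3 P) p)) := h.mem (.la s (hp s (g3 P) p) T C l)
    rw [wn_hp _ hne, Ms_eq_OwnK] at h2
    exact h2
  refine ⟨?_, ?_, fun T C l => (hQ T C l).1, fun T C l => (hQ T C l).2, ?_, hlp, ?_, hla, ?_⟩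
  · have h2 : θ.2 (.pi s (hp s 0 p)) ∈
        LawOn (Y := Ml P V) (wn P s (hp s 0 p) ×ˢ Finset.univ) := h.mem (.pi s (hp s 0 p))
    rw [wn_hp _ hne] at h2
    exact h2
  · intro q hq
    have h2 := h.max (.pi s (hp s 0 p)) q (by
      show q ∈ LawOn (Y := Ml P V) (wn P s (hp s 0 p) ×ˢ Finset.univ)
      rw [wn_hp _ hne]
      exact hq)
    have h3 : ∀ y : Ml P V → ℝ, ffx P G (.pi s (hp s 0 p)) θ y =
        ∑ l : Ml P V, y l * Dm P G (inpt P θ s p) (inpt P θ s p).n0 l := by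
      intro y
      show ∑ l : Ml P V, y l * Dm P G (inpt P θ s (hp s 0 p)) (inpt P θ s (hp s 0 p)).n0 l = _
      exact Finset.sum_congr rfl fun l _ => by rw [Dm_hp]
    have h4 := (h3 q).symm.le.trans (h2.trans (h3 _).le)
    exact h4
  · intro T C l q hq mu hmu
    have h2 := h.max (.sv s (hp s (g3 P) p) T C l) (Sum.elim q mu) (by
      show Sum.elim q mu ∈ QMs (wn P s (hp s (g3 P) p)) (P.Lam C.card) (wn P s (hp s (g3 P) p))
      rw [wn_hp _ hne]
      refine mem_QMs hq ?_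
      rw [Ms_eq_OwnK]
      exact hmu)
    have h3 : ∀ y : V ⊕ V → ℝ, ffx P G (.sv s (hp s (g3 P) p) T C l) θ y =
        -Rv P G (stt P G θ p s.1) (inpt P θ s p) T C l (fun u => y (.inl u))
          (fun u => y (.inr u)) := by
      intro y
      show -Rv P G (stt P G θ (hp s (g3 P) p) s.1) (inpt P θ s (hp s (g3 P) p)) T C l _ _ = _
      rw [inpt_g3, stt_hp le_rfl]
    have h4 := (h3 _).symm.le.trans (h2.trans (h3 _).le)
    exact neg_le_neg_iff.1 h4
  · intro C l lam hlam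
    have h2 := h.max (.lp s (hp s (g3 P) p) C l) lam (by
      show lam ∈ Ms (P.Lam' C.card) (wn P s (hp s (g3 P) p))
      rw [wn_hp _ hne, Ms_eq_OwnK]
      exact hlam)
    have h3 : ∀ y : V → ℝ, ffx P G (.lp s (hp s (g3 P) p) C l) θ y =
        -objP P G (stt P G θ p s.1) (inpt P θ s p) C l y := by
      intro y
      show -objP P G (stt P G θ (hp s (g3 P) p) s.1) (inpt P θ s (hp s (g3 P) p)) C l _ = _
      rw [inpt_g3, stt_hp le_rfl]
    have h4 := (h3 _).symm.le.trans (h2.trans (h3 _).le)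
    exact neg_le_neg_iff.1 h4
  · intro T C l lam hlam
    have h2 := h.max (.la s (hp s (g3 P) p) T C l) lam (by
      show lam ∈ Ms (P.Lam' C.card) (wn P s (hp s (g3 P) p))
      rw [wn_hp _ hne, Ms_eq_OwnK]
      exact hlam)
    have h3 : ∀ y : V → ℝ, ffx P G (.la s (hp s (g3 P) p) T C l) θ y =
        -objA P G (stt P G θ p s.1) (inpt P θ s p) T C l y := by
      intro y
      show -objA P G (stt P G θ (hp s (g3 P) p) s.1) (inpt P θ s (hp s (g3 P) p)) T C l _ = _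
      rw [inpt_g3, stt_hp le_rfl]
    have h4 := (h3 _).symm.le.trans (h2.trans (h3 _).le)
    exact neg_le_neg_iff.1 h4

/-- **The best replies of the UP systems of the stage `s`.** -/
theorem bestU : BestU P G (inpt P θ s p) := by
  have hsg : ∀ (b : Fin 2) (j : ℕ) (hj : j < P.h),
      (inpt P θ s p).sg b j = θ.2 (.sg s (hp s g1 p) b ⟨j, hj⟩) := by
    intro b j hj
    show (if h : j < P.h then θ.2 (.sg s (hp s g1 p) b ⟨j, h⟩) else fun _ => 0) = _
    rw [dif_pos hj]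
  have hsu : ∀ (b : Fin 2) (j : ℕ) (hj : j < P.h) (l : Ml P V),
      (inpt P θ s p).su b j l = θ.2 (.su s (hp s g1 p) b ⟨j, hj⟩ l) := by
    intro b j hj l
    show (if h : j < P.h then θ.2 (.su s (hp s g1 p) b ⟨j, h⟩ l) else fun _ => 0) = _
    rw [dif_pos hj]
  refine ⟨?_, ?_, ?_, ?_⟩
  · intro b j hj
    rw [hsg b j hj]
    have h2 : θ.2 (.sg s (hp s g1 p) b ⟨j, hj⟩) ∈
        LawOn (Y := Ml P V) (wn P s (hp s g1 p) ×ˢ Finset.univ) := h.mem (.sg s (hp s g1 p) b ⟨j, hj⟩)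
    rw [wn_hp _ hne] at h2
    exact h2
  · intro b j hj q hq
    have h2 := h.max (.sg s (hp s g1 p) b ⟨j, hj⟩) q (by
      show q ∈ LawOn (Y := Ml P V) (wn P s (hp s g1 p) ×ˢ Finset.univ)
      rw [wn_hp _ hne]
      exact hq)
    have h3 : ∀ y : Ml P V → ℝ, ffx P G (.sg s (hp s g1 p) b ⟨j, hj⟩) θ y =
        upLog G (upi P G (inpt P θ s p) b) (upx P G (inpt P θ s p) b j) y := by
      intro y
      show upLog G (upi P G (inpt P θ s (hp s g1 p)) b) (upx P G (inpt P θ s (hp s g1 p)) b j) y = _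
      rw [upi_hp s b p le_rfl, upx_hp s b p le_rfl]
    have h4 := (h3 _).symm.le.trans (h2.trans (h3 _).le)
    rw [hsg b j hj]
    exact h4
  · intro b j hj l
    rw [hsu b j hj l]
    have h2 : θ.2 (.su s (hp s g1 p) b ⟨j, hj⟩ l) ∈ Ms (P.Lu b) (wn P s (hp s g1 p)) :=
      h.mem (.su s (hp s g1 p) b ⟨j, hj⟩ l)
    rw [wn_hp _ hne, Ms_eq_OwnK] at h2
    exact h2
  · intro b j hj l lam hlam
    have h2 := h.max (.su s (hp s g1 p) b ⟨j, hj⟩ l) lam (by
      show lam ∈ Ms (P.Lu b) (wn P s (hp s g1 p))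
      rw [wn_hp _ hne, Ms_eq_OwnK]
      exact hlam)
    have h3 : ∀ y : V → ℝ, ffx P G (.su s (hp s g1 p) b ⟨j, hj⟩ l) θ y =
        -upObj G (upi P G (inpt P θ s p) b) j (upx P G (inpt P θ s p) b j) l y := by
      intro y
      show -upObj G (upi P G (inpt P θ s (hp s g1 p)) b) j (upx P G (inpt P θ s (hp s g1 p)) b j)
        l y = _
      rw [upi_hp s b p le_rfl, upx_hp s b p le_rfl]
    have h4 := (h3 _).symm.le.trans (h2.trans (h3 _).le)
    rw [hsu b j hj l]
    exact neg_le_neg_iff.1 h4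

omit h hne

/-- The form of the output of the game. -/
theorem Opt.of (hθ : θ ∈ dom (V := V) P.N (nb P) (Ki P))
    (hmax : ∀ i, ∀ y ∈ Ki P i, ffx P G i θ y ≤ ffx P G i θ (θ.2 i)) : Opt P G θ :=
  ⟨fun i => hθ.2 i (Set.mem_univ i), hmax⟩

/-- The worlds of a history of positive mass are not empty. -/
theorem wo_nonempty {I : Type} {col : Finset V → ℕ → Prop} {T : Ts V P.N (nb P) I (Tht P V)}
    {Q : Hh P V × V → ℝ} (hE : Eqm col T Q θ) {c : Hh P V} (hc : qc Q c ≠ 0) {s : ℕ}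
    (hs : s ≤ P.N) : (wo c s).Nonempty := by
  unfold qc at hc
  obtain ⟨x, -, hx⟩ := Finset.exists_ne_zero_of_sum_ne_zero hc
  exact ⟨x, hE.mem_wo hx hs⟩

/-- The best replies of all the stages of a history of positive mass. -/
theorem best_of_eqm {I : Type} {col : Finset V → ℕ → Prop} {T : Ts V P.N (nb P) I (Tht P V)}
    {Q : Hh P V × V → ℝ} (hE : Eqm col T Q θ) (ho : Opt P G θ) {c : Hh P V} (hc : qc Q c ≠ 0)
    (s : Fin P.N) : Best P G s (stt P G θ c s) (inpt P θ s c) ∧ BestU P G (inpt P θ s c) :=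
  have h1 := wo_nonempty hE hc s.2.le
  ⟨best ho h1, bestU ho h1⟩

end BestI_

end

end Pool.Agent.Lib.GSX
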