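import Pool.Agent.Lib.GSX.ContD

/-!
# Continuity of the scale, the windows, the cover and the labels of the hub mode
-/

set_option autoImplicit false

namespace Pool.Agent.Lib.GSX

open Finset Classical RecP_
open Pool.Agent.Lib.GSLE (kp brw cl win stp Cel hc rhoC CC AC alp sc sc_pos sc_continuousOn
  kp_continuous kp_nonneg)

theorem C1_rp_cont : Continuous rp := by
  unfold rp
  fun_prop

theorem C1_win_cont (g : ℝ) : Continuous (win g) := by
  unfold win
  fun_prop

section

variable {V Θ : Type} [Fintype V] [TopologicalSpace Θ] {P : Cn} {G : SimpleGraph V}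
  {D : Set Θ} {S : Θ → Sta P V} {I : Θ → Inp P V} {W : Finset V}

/-- The scale is continuous. -/
theorem C1_al (he : 0 < P.e0) (hI : ContI I W D) (hp : ∀ θ ∈ D, ∀ l, 0 ≤ (I θ).pi l) (x : V) :
    ContinuousOn (fun θ => al P G (I θ) x) D := by
  unfold al alp
  refine sc_continuousOn continuousOn_const (fun l => ?_) (fun _ _ => he)
    (fun θ hθ l => mul_nonneg (inc_nonneg _ _ _) (hp θ hθ l)) fun l => lv_pos _
  have h1 : ContinuousOn (fun θ => inc G W x l * (I θ).pi l) D := continuousOn_const.mul (hI.pi l)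
  exact h1.congr fun θ hθ => by simp only [hI.hW θ hθ]

/-- The heights are continuous. -/
theorem C1_ht (hS : ContS S D) (ha : ∀ θ ∈ D, ∀ c x, 0 < (S θ).a c x) (c : Fin P.N) (x : V) :
    ContinuousOn (fun θ => ht P (S θ) c x) D := by
  unfold ht Real.logb
  exact ((hS.a c x).log fun θ hθ => (ha θ hθ c x).ne').div_const _

/-- The height of the stage is continuous. -/
theorem C1_hs (hal : ∀ x, ContinuousOn (fun θ => al P G (I θ) x) D) (x : V) :
    ContinuousOn (fun θ => hs P G (I θ) x) D := by
  unfold hs Real.logb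
  exact ((hal x).log fun θ _ => (RecP_.al_pos x).ne').div_const _

/-- The incidence is constant. -/
theorem C1_inc (hI : ContI I W D) (x : V) (l : Ml P V) :
    ContinuousOn (fun θ => inc G (I θ).W x l) D :=
  (continuousOn_const (c := inc G W x l)).congr fun θ hθ => by simp only [hI.hW θ hθ]

theorem C1_kp (hal : ∀ x, ContinuousOn (fun θ => al P G (I θ) x) D) (x : V) (i : ℕ) :
    ContinuousOn (fun θ => kp (al P G (I θ) x / lv i)) D :=
  kp_continuous.comp_continuousOn ((hal x).div_const _)

theorem C1_win (hal : ∀ x, ContinuousOn (fun θ => al P G (I θ) x) D) (g : ℝ) (x : V) (i : ℝ) :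
    ContinuousOn (fun θ => win g (hs P G (I θ) x + i)) D :=
  (C1_win_cont g).comp_continuousOn ((C1_hs hal x).add continuousOn_const)

theorem C1_kk (hI : ContI I W D) (hal : ∀ x, ContinuousOn (fun θ => al P G (I θ) x) D) (g : ℝ)
    (x : V) (l : Ml P V) : ContinuousOn (fun θ => kk P G (I θ) g x l) D := by
  unfold kk
  exact ((C1_inc hI x l).mul (C1_kp hal x _)).mul (C1_win hal g x _)

theorem C1_out (hI : ContI I W D) (hal : ∀ x, ContinuousOn (fun θ => al P G (I θ) x) D) (x : V) :
    ContinuousOn (fun θ => out P G (I θ) x) D := by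
  unfold out
  refine continuousOn_finsetSum _ fun l _ => ContinuousOn.div ?_ (hal x)
    fun θ _ => (RecP_.al_pos x).ne'
  exact (((C1_inc hI x l).mul (hI.pi l)).mul (C1_kp hal x _)).mul
    (continuousOn_const.sub (C1_win hal _ x _))

theorem C1_Db {n : Θ → V → ℝ} (hn : ∀ x, ContinuousOn (fun θ => n θ x) D)
    (hal : ∀ x, ContinuousOn (fun θ => al P G (I θ) x) D) (i : Fin (P.I0 + 1)) (b : V) :
    ContinuousOn (fun θ => Db P G (I θ) (n θ) i b) D := by
  unfold Db
  exact continuousOn_finsetSum _ fun x _ =>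
    (((hn x).div (hal x) fun θ _ => (RecP_.al_pos x).ne').mul (C1_win hal _ x _)).mul
      continuousOn_const

theorem C1_fs (hI : ContI I W D) (hal : ∀ x, ContinuousOn (fun θ => al P G (I θ) x) D) (b : V) :
    ContinuousOn (fun θ => fs P G (I θ) b) D := by
  unfold fs
  refine continuousOn_const.inf ?_
  exact continuousOn_finsetSum _ fun i _ => continuousOn_const.sup
    (((C1_Db hI.n3 hal i b).sub continuousOn_const).div_const _)

theorem C1_Fs (hI : ContI I W D) (hS : ContS S D)
    (hal : ∀ x, ContinuousOn (fun θ => al P G (I θ) x) D) (b : V) :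
    ContinuousOn (fun θ => Fs P G (S θ) (I θ) b) D := by
  unfold Fs
  exact (hS.F b).add (C1_fs hI hal b)

theorem C1_rich (hht : ∀ c x, ContinuousOn (fun θ => ht P (S θ) c x) D) (C : Finset (Fin P.N))
    (x y : V) : ContinuousOn (fun θ => rich P (S θ) C x y) D := by
  unfold rich
  exact continuousOn_finsetProd _ fun c _ => C1_rp_cont.comp_continuousOn
    (((hht c y).sub (hht c x)).sub continuousOn_const)

theorem C1_CP (hI : ContI I W D) (hal : ∀ x, ContinuousOn (fun θ => al P G (I θ) x) D)
    (hht : ∀ c x, ContinuousOn (fun θ => ht P (S θ) c x) D) (C : Finset (Fin P.N)) (x : V)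
    (l : Ml P V) : ContinuousOn (fun θ => CP P G (S θ) (I θ) C x l) D := by
  unfold CP
  exact (C1_kk hI hal _ x l).mul (C1_rich hht C x l.1)

theorem C1_PP (hI : ContI I W D) (hal : ∀ x, ContinuousOn (fun θ => al P G (I θ) x) D)
    (hht : ∀ c x, ContinuousOn (fun θ => ht P (S θ) c x) D) (C : Finset (Fin P.N)) (l : Ml P V)
    (x : V) : ContinuousOn (fun θ => PP P G (S θ) (I θ) C l x) D := by
  unfold PP
  exact ((hI.n3 x).mul (C1_CP hI hal hht C x l)).div (hal x) fun θ _ => (RecP_.al_pos x).ne'

theorem C1_wP (hI : ContI I W D) (hal : ∀ x, ContinuousOn (fun θ => al P G (I θ) x) D)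
    (hht : ∀ c x, ContinuousOn (fun θ => ht P (S θ) c x) D) (C : Finset (Fin P.N)) (l : Ml P V)
    (x : V) : ContinuousOn (fun θ => wP P G (S θ) (I θ) C l x) D := by
  unfold wP
  exact ((hI.pi l).mul (C1_CP hI hal hht C x l)).div (hal x) fun θ _ => (RecP_.al_pos x).ne'

end

end Pool.Agent.Lib.GSX
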