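import Pool.Agent.Lib.GSX.Rec

/-!
# Continuity of the own steps, scores, payment functions and masters

The record (`S θ`, `I θ`) depends on a parameter `θ` in the set `D`, the world is the constant `W`.
The continuity of the ingredients is a hypothesis of every theorem.
-/

set_option autoImplicit false

namespace Pool.Agent.Lib.GSX

open Finset Classical
open Pool.Agent.Lib.FGF (cm nm)
open Pool.Agent.Lib.GSLE (kp kp_continuous)
open Pool.Agent.Lib.GSR (vioC continuousOn_vioC)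

section

variable {V Θ : Type} [Fintype V] [TopologicalSpace Θ] {P : Cn} {G : SimpleGraph V}
  {s : Fin P.N} {D : Set Θ} {S : Θ → Sta P V} {I : Θ → Inp P V} {W : Finset V}

theorem CM_cm {f : Θ → V → ℝ} (hf : ∀ u, ContinuousOn (fun θ => f θ u) D) (x : V) :
    ContinuousOn (fun θ => cm G (f θ) x) D := by
  unfold cm nm
  exact (hf x).add (continuousOn_finsetSum _ fun u _ => hf u)

/-- The violation with a body set which is constant on `D`. -/
theorem CM_vio {M j : ℕ} {x : V} {f : Θ → V → ℝ} (hW : ∀ θ ∈ D, (I θ).W = W)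
    (hf : ∀ u, ContinuousOn (fun θ => f θ u) D) :
    ContinuousOn (fun θ => vioC G M j x (f θ) (I θ).W) D := by
  refine (continuousOn_vioC (G := G) (M := M) (j := j) (v := x) (L := W) hf).congr
    fun θ hθ => ?_
  simp only [hW θ hθ]

/-! ### Own steps of the hub mode -/

theorem CM_RP {C : Finset (Fin P.N)} {l : Ml P V} {lam : Θ → V → ℝ}
    (hPP : ∀ u, ContinuousOn (fun θ => PP P G (S θ) (I θ) C l u) D)
    (hlam : ∀ u, ContinuousOn (fun θ => lam θ u) D) (u : V) :
    ContinuousOn (fun θ => RP P G (S θ) (I θ) C l (lam θ) u) D := by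
  unfold RP
  exact (continuousOn_const.add (hlam u)).add ((hPP u).div_const _)

theorem CM_MP {C : Finset (Fin P.N)} {l : Ml P V} {lam : Θ → V → ℝ}
    (hm : ∀ u, ContinuousOn (fun θ => (S θ).m C l.1 u) D)
    (hPP : ∀ u, ContinuousOn (fun θ => PP P G (S θ) (I θ) C l u) D)
    (hlam : ∀ u, ContinuousOn (fun θ => lam θ u) D) (u : V) :
    ContinuousOn (fun θ => MP P G (S θ) (I θ) C l (lam θ) u) D := by
  unfold MP
  exact (continuousOn_const.mul (hm u)).add (CM_RP hPP hlam u)

theorem CM_upsP {C : Finset (Fin P.N)} {l : Ml P V} {lam : Θ → V → ℝ}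
    (hW : ∀ θ ∈ D, (I θ).W = W)
    (hm : ∀ u, ContinuousOn (fun θ => (S θ).m C l.1 u) D)
    (hPP : ∀ u, ContinuousOn (fun θ => PP P G (S θ) (I θ) C l u) D)
    (hFs : ∀ u, ContinuousOn (fun θ => Fs P G (S θ) (I θ) u) D)
    (hlam : ∀ u, ContinuousOn (fun θ => lam θ u) D) (x : V) :
    ContinuousOn (fun θ => upsP P G (S θ) (I θ) C l (lam θ) x) D := by
  unfold upsP
  exact CM_vio hW fun u => (CM_cm (CM_MP hm hPP hlam) u).add (continuousOn_const.mul (hFs u))

/-- The score of the hub mode. -/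
theorem CM_ShP {C : Finset (Fin P.N)} (hW : ∀ θ ∈ D, (I θ).W = W)
    (hm : ∀ v u, ContinuousOn (fun θ => (S θ).m C v u) D)
    (hPP : ∀ l u, ContinuousOn (fun θ => PP P G (S θ) (I θ) C l u) D)
    (hwP : ∀ l u, ContinuousOn (fun θ => wP P G (S θ) (I θ) C l u) D)
    (hFs : ∀ u, ContinuousOn (fun θ => Fs P G (S θ) (I θ) u) D)
    (hlp : ∀ l u, ContinuousOn (fun θ => (I θ).lp C l u) D) (x : V) :
    ContinuousOn (fun θ => ShP P G (S θ) (I θ) C x) D := by
  unfold ShP
  exact continuousOn_finsetSum _ fun l _ => (hwP l x).mul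
    (continuousOn_const.sub (CM_upsP hW (hm l.1) (hPP l) hFs (hlp l) x))

/-- The score of an item. -/
theorem CM_ShA {T C : Finset (Fin P.N)}
    (hwA : ∀ l u, ContinuousOn (fun θ => wA P G (S θ) (I θ) T l u) D)
    (hsv : ∀ l, ContinuousOn (fun θ => sv P G (S θ) (I θ) T C l) D)
    (hups : ∀ l x, ContinuousOn
      (fun θ => upsA P G (S θ) (I θ) T C l ((I θ).la T C l) x) D) (x : V) :
    ContinuousOn (fun θ => ShA P G (S θ) (I θ) T C x) D := by
  unfold ShA
  exact continuousOn_finsetSum _ fun l _ => ((hwA l x).mul (hsv l)).mul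
    (continuousOn_const.sub (hups l x))

/-! ### Payment functions -/

theorem CM_kq (hal : ∀ x, ContinuousOn (fun θ => al P G (I θ) x) D) (i : ℕ) (u : V) :
    ContinuousOn (fun θ => kq P G (I θ) i u) D := by
  unfold kq
  exact Real.continuous_sqrt.comp_continuousOn
    (kp_continuous.comp_continuousOn ((hal u).div_const _))

theorem CM_gpP {C : Finset (Fin P.N)} (hal : ∀ x, ContinuousOn (fun θ => al P G (I θ) x) D)
    (hal0 : ∀ θ ∈ D, ∀ x, 0 < al P G (I θ) x)
    (hpi : ∀ l, ContinuousOn (fun θ => (I θ).pi l) D)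
    (hPP : ∀ l u, ContinuousOn (fun θ => PP P G (S θ) (I θ) C l u) D)
    (hlp : ∀ l u, ContinuousOn (fun θ => (I θ).lp C l u) D) (u : V) :
    ContinuousOn (fun θ => gpP P G (S θ) (I θ) C u) D := by
  unfold gpP
  exact continuousOn_finsetSum _ fun l _ => (hpi l).mul ((CM_kq hal l.2 u).mul
    ((CM_cm (CM_RP (hPP l) (hlp l)) u).div (hal u) fun θ hθ => (hal0 θ hθ u).ne'))

theorem CM_gpA {T C : Finset (Fin P.N)}
    (hal : ∀ x, ContinuousOn (fun θ => al P G (I θ) x) D)
    (hal0 : ∀ θ ∈ D, ∀ x, 0 < al P G (I θ) x)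
    (hrho : ∀ l, ContinuousOn (fun θ => rho P G (S θ) (I θ) T l) D)
    (hRA : ∀ l u, ContinuousOn
      (fun θ => RA P G (S θ) (I θ) T C l ((I θ).la T C l) u) D) (u : V) :
    ContinuousOn (fun θ => gpA P G (S θ) (I θ) T C u) D := by
  unfold gpA
  exact continuousOn_finsetSum _ fun l _ => (hrho l).mul ((CM_kq hal l.1.2 u).mul
    ((CM_cm (hRA l) u).div (hal u) fun θ hθ => (hal0 θ hθ u).ne'))

/-! ### Masters and the next state -/

theorem CM_mst {C : Finset (Fin P.N)}
    (hm : ∀ v u, ContinuousOn (fun θ => (S θ).m C v u) D)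
    (hPP : ∀ l u, ContinuousOn (fun θ => PP P G (S θ) (I θ) C l u) D)
    (hwP : ∀ l u, ContinuousOn (fun θ => wP P G (S θ) (I θ) C l u) D)
    (hlp : ∀ l u, ContinuousOn (fun θ => (I θ).lp C l u) D)
    (hwA : ∀ T l u, ContinuousOn (fun θ => wA P G (S θ) (I θ) T l u) D)
    (hsv : ∀ T l, ContinuousOn (fun θ => sv P G (S θ) (I θ) T C l) D)
    (hMA : ∀ T l u, ContinuousOn
      (fun θ => MA P G (S θ) (I θ) T C l ((I θ).la T C l) u) D) (x u : V) :
    ContinuousOn (fun θ => mst P G s (S θ) (I θ) C x u) D := by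
  unfold mst
  refine continuousOn_const.mul (ContinuousOn.add ?_ ?_)
  · exact continuousOn_finsetSum _ fun l _ => (hwP l x).mul (CM_MP (hm l.1) (hPP l) (hlp l) u)
  · exact continuousOn_finsetSum _ fun T _ => continuousOn_finsetSum _ fun l _ =>
      ((hwA T l x).mul (hsv T l)).mul (hMA T l u)

theorem CM_nxt_a (ha : ∀ c x, ContinuousOn (fun θ => (S θ).a c x) D)
    (hal : ∀ x, ContinuousOn (fun θ => al P G (I θ) x) D) (c : Fin P.N) (x : V) :
    ContinuousOn (fun θ => (nxt P G s (S θ) (I θ)).a c x) D := by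
  simp only [nxt]
  split_ifs
  · exact hal x
  · exact ha c x

theorem CM_nxt_m {C : Finset (Fin P.N)}
    (hm : ∀ v u, ContinuousOn (fun θ => (S θ).m C v u) D)
    (hmst : s ∈ C → ∀ x u, ContinuousOn (fun θ => mst P G s (S θ) (I θ) (C.erase s) x u) D)
    (x u : V) : ContinuousOn (fun θ => (nxt P G s (S θ) (I θ)).m C x u) D := by
  simp only [nxt]
  split_ifs with h
  · exact hmst h x u
  · exact hm x u

theorem CM_nxt_F (hFs : ∀ u, ContinuousOn (fun θ => Fs P G (S θ) (I θ) u) D) (u : V) :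
    ContinuousOn (fun θ => (nxt P G s (S θ) (I θ)).F u) D := hFs u

end

end Pool.Agent.Lib.GSX
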