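import Pool.Agent.Lib.GSX.CMst

/-!
# Continuity of the services and of the steps of the cells

The record (`S θ`, `I θ`) depends on a parameter `θ` in the set `D`, the world is the constant `W`.
The coordinates `(q, mu)` of a service and `lam` of an own step are functions of the parameter, so
the statements contain the joint continuity of the objectives.
-/

set_option autoImplicit false

namespace Pool.Agent.Lib.GSX

open Finset Classical
open Pool.Agent.Lib.FGF (cm nm)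
open Pool.Agent.Lib.GSLE (brw hc brw_continuousOn)
open Pool.Agent.Lib.GSR (vioC continuousOn_vioC)

section

variable {V Θ : Type} [Fintype V] [TopologicalSpace Θ] {P : Cn} {G : SimpleGraph V}
  {s : Fin P.N} {D : Set Θ} {S : Θ → Sta P V} {I : Θ → Inp P V} {W : Finset V}

theorem CR_rp {f : Θ → ℝ} (hf : ContinuousOn f D) : ContinuousOn (fun θ => rp (f θ)) D :=
  continuousOn_const.sup (continuousOn_const.inf hf)

omit [Fintype V] in
/-- The cost of the height. -/
theorem CR_hcost {C : Finset (Fin P.N)} {l : Ce P V} {t : V} (hW : ∀ θ ∈ D, (I θ).W = W)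
    (ha : ∀ c ∈ C, ContinuousOn (fun θ => (S θ).a c t) D)
    (ha0 : ∀ θ ∈ D, ∀ c ∈ C, 0 < (S θ).a c t) :
    ContinuousOn (fun θ => hcost P G (S θ) (I θ) C l t) D := by
  have h1 : ContinuousOn (fun _ : Θ => (if G.Adj t l.1.1 ∧ t ∈ W then (0 : ℝ) else 1)) D :=
    continuousOn_const
  have h2 : ContinuousOn
      (fun θ => ∑ c ∈ C, brw (1 / 4) ((2 : ℝ) ^ (hc 1 l.2 c) / (S θ).a c t)) D :=
    continuousOn_finsetSum _ fun c hc => brw_continuousOn (by norm_num) (by norm_num)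
      (continuousOn_const.div (ha c hc) fun θ hθ => (ha0 θ hθ c hc).ne')
  refine (h1.add h2).congr fun θ hθ => ?_
  simp only [hcost, hW θ hθ, Pi.add_apply]

/-- The measure of a service. -/
theorem CR_Mh {C : Finset (Fin P.N)} {q mu : Θ → V → ℝ}
    (hm : ∀ v u, ContinuousOn (fun θ => (S θ).m C v u) D)
    (hq : ∀ t, ContinuousOn (fun θ => q θ t) D)
    (hmu : ∀ u, ContinuousOn (fun θ => mu θ u) D) (u : V) :
    ContinuousOn (fun θ => Mh P (S θ) C (q θ) (mu θ) u) D := by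
  unfold Mh
  exact (continuousOn_const.mul (continuousOn_finsetSum _ fun t _ => (hq t).mul (hm t u))).add
    (hmu u)

/-- The objective of a service, jointly with its coordinate. -/
theorem CR_Rv {T C : Finset (Fin P.N)} {l : Ce P V} {q mu : Θ → V → ℝ}
    (hW : ∀ θ ∈ D, (I θ).W = W)
    (ha : ∀ c t, ContinuousOn (fun θ => (S θ).a c t) D)
    (ha0 : ∀ θ ∈ D, ∀ c t, 0 < (S θ).a c t)
    (hm : ∀ v u, ContinuousOn (fun θ => (S θ).m C v u) D)
    (hFs : ∀ u, ContinuousOn (fun θ => Fs P G (S θ) (I θ) u) D)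
    (hPA : ∀ x, ContinuousOn (fun θ => PA P G (S θ) (I θ) T l x) D)
    (hq : ∀ t, ContinuousOn (fun θ => q θ t) D)
    (hmu : ∀ u, ContinuousOn (fun θ => mu θ u) D) :
    ContinuousOn (fun θ => Rv P G (S θ) (I θ) T C l (q θ) (mu θ)) D := by
  unfold Rv
  refine ContinuousOn.add (ContinuousOn.add ?_ ?_) ?_
  · exact CM_vio hW fun u => (CM_cm (CR_Mh hm hq hmu) u).add (continuousOn_const.mul (hFs u))
  · exact continuousOn_finsetSum _ fun x _ => (hPA x).mul (CM_cm (CR_Mh hm hq hmu) x)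
  · exact continuousOn_finsetSum _ fun t _ => (hq t).mul
      (CR_hcost hW (fun c _ => ha c t) fun θ hθ c _ => ha0 θ hθ c t)

/-- The own mass of a cell. -/
theorem CR_DD {T : Finset (Fin P.N)} {l : Ce P V}
    (hPA : ∀ x, ContinuousOn (fun θ => PA P G (S θ) (I θ) T l x) D) :
    ContinuousOn (fun θ => DD P G (S θ) (I θ) T l) D := by
  unfold DD
  exact continuousOn_finsetSum _ fun x _ => hPA x

/-- The weight of a service. -/
theorem CR_sv {T C : Finset (Fin P.N)} {l : Ce P V} (hW : ∀ θ ∈ D, (I θ).W = W)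
    (ha : ∀ c t, ContinuousOn (fun θ => (S θ).a c t) D)
    (ha0 : ∀ θ ∈ D, ∀ c t, 0 < (S θ).a c t)
    (hm : ∀ v u, ContinuousOn (fun θ => (S θ).m C v u) D)
    (hFs : ∀ u, ContinuousOn (fun θ => Fs P G (S θ) (I θ) u) D)
    (hPA : ∀ x, ContinuousOn (fun θ => PA P G (S θ) (I θ) T l x) D)
    (hq : ∀ t, ContinuousOn (fun θ => (I θ).q T C l t) D)
    (hmu : ∀ u, ContinuousOn (fun θ => (I θ).mu T C l u) D) :
    ContinuousOn (fun θ => sv P G (S θ) (I θ) T C l) D := by
  unfold sv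
  exact (CR_rp (continuousOn_const.sub
    ((CR_Rv (q := fun θ => (I θ).q T C l) (mu := fun θ => (I θ).mu T C l)
      hW ha ha0 hm hFs hPA hq hmu).div_const _))).mul
    (CR_rp ((continuousOn_const.mul ((CR_DD hPA).div_const _)).sub continuousOn_const))

/-! ### Own steps of the cells -/

theorem CR_RA {T C : Finset (Fin P.N)} {l : Ce P V} {lam : Θ → V → ℝ}
    (hPA : ∀ x, ContinuousOn (fun θ => PA P G (S θ) (I θ) T l x) D)
    (hmu : ∀ u, ContinuousOn (fun θ => (I θ).mu T C l u) D)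
    (hlam : ∀ u, ContinuousOn (fun θ => lam θ u) D) (u : V) :
    ContinuousOn (fun θ => RA P G (S θ) (I θ) T C l (lam θ) u) D := by
  unfold RA
  exact (((continuousOn_const.mul (hmu u)).add continuousOn_const).add (hlam u)).add
    ((hPA u).div_const _)

theorem CR_MA {T C : Finset (Fin P.N)} {l : Ce P V} {lam : Θ → V → ℝ}
    (hm : ∀ v u, ContinuousOn (fun θ => (S θ).m C v u) D)
    (hPA : ∀ x, ContinuousOn (fun θ => PA P G (S θ) (I θ) T l x) D)
    (hq : ∀ t, ContinuousOn (fun θ => (I θ).q T C l t) D)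
    (hmu : ∀ u, ContinuousOn (fun θ => (I θ).mu T C l u) D)
    (hlam : ∀ u, ContinuousOn (fun θ => lam θ u) D) (u : V) :
    ContinuousOn (fun θ => MA P G (S θ) (I θ) T C l (lam θ) u) D := by
  unfold MA
  exact (continuousOn_const.mul (continuousOn_const.mul
    (continuousOn_finsetSum _ fun t _ => (hq t).mul (hm t u)))).add (CR_RA hPA hmu hlam u)

theorem CR_upsA {T C : Finset (Fin P.N)} {l : Ce P V} {lam : Θ → V → ℝ}
    (hW : ∀ θ ∈ D, (I θ).W = W)
    (hm : ∀ v u, ContinuousOn (fun θ => (S θ).m C v u) D)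
    (hFs : ∀ u, ContinuousOn (fun θ => Fs P G (S θ) (I θ) u) D)
    (hPA : ∀ x, ContinuousOn (fun θ => PA P G (S θ) (I θ) T l x) D)
    (hq : ∀ t, ContinuousOn (fun θ => (I θ).q T C l t) D)
    (hmu : ∀ u, ContinuousOn (fun θ => (I θ).mu T C l u) D)
    (hlam : ∀ u, ContinuousOn (fun θ => lam θ u) D) (x : V) :
    ContinuousOn (fun θ => upsA P G (S θ) (I θ) T C l (lam θ) x) D := by
  unfold upsA
  exact CM_vio hW fun u => (CM_cm (CR_MA hm hPA hq hmu hlam) u).add
    (continuousOn_const.mul (hFs u))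

/-- The objective of the own step of a cell, jointly with its coordinate. -/
theorem CR_objA {T C : Finset (Fin P.N)} {l : Ce P V} {lam : Θ → V → ℝ}
    (hW : ∀ θ ∈ D, (I θ).W = W)
    (hm : ∀ v u, ContinuousOn (fun θ => (S θ).m C v u) D)
    (hFs : ∀ u, ContinuousOn (fun θ => Fs P G (S θ) (I θ) u) D)
    (hPA : ∀ x, ContinuousOn (fun θ => PA P G (S θ) (I θ) T l x) D)
    (hq : ∀ t, ContinuousOn (fun θ => (I θ).q T C l t) D)
    (hmu : ∀ u, ContinuousOn (fun θ => (I θ).mu T C l u) D)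
    (hlam : ∀ u, ContinuousOn (fun θ => lam θ u) D) :
    ContinuousOn (fun θ => objA P G (S θ) (I θ) T C l (lam θ)) D := by
  unfold objA
  exact continuousOn_finsetSum _ fun x _ => (hPA x).mul (CR_upsA hW hm hFs hPA hq hmu hlam x)

/-- The objective of the own step of a main label, jointly with its coordinate. -/
theorem CR_objP {C : Finset (Fin P.N)} {l : Ml P V} {lam : Θ → V → ℝ}
    (hW : ∀ θ ∈ D, (I θ).W = W)
    (hm : ∀ u, ContinuousOn (fun θ => (S θ).m C l.1 u) D)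
    (hFs : ∀ u, ContinuousOn (fun θ => Fs P G (S θ) (I θ) u) D)
    (hPP : ∀ u, ContinuousOn (fun θ => PP P G (S θ) (I θ) C l u) D)
    (hlam : ∀ u, ContinuousOn (fun θ => lam θ u) D) :
    ContinuousOn (fun θ => objP P G (S θ) (I θ) C l (lam θ)) D := by
  unfold objP
  exact continuousOn_finsetSum _ fun x _ => (hPP x).mul (CM_upsP hW hm hPP hFs hlam x)

/-! ### The sums over the cells with the coordinates of the record -/

theorem CR_ShA {T C : Finset (Fin P.N)} (hW : ∀ θ ∈ D, (I θ).W = W)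
    (ha : ∀ c t, ContinuousOn (fun θ => (S θ).a c t) D)
    (ha0 : ∀ θ ∈ D, ∀ c t, 0 < (S θ).a c t)
    (hm : ∀ v u, ContinuousOn (fun θ => (S θ).m C v u) D)
    (hFs : ∀ u, ContinuousOn (fun θ => Fs P G (S θ) (I θ) u) D)
    (hPA : ∀ l x, ContinuousOn (fun θ => PA P G (S θ) (I θ) T l x) D)
    (hwA : ∀ l x, ContinuousOn (fun θ => wA P G (S θ) (I θ) T l x) D)
    (hq : ∀ l t, ContinuousOn (fun θ => (I θ).q T C l t) D)
    (hmu : ∀ l u, ContinuousOn (fun θ => (I θ).mu T C l u) D)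
    (hla : ∀ l u, ContinuousOn (fun θ => (I θ).la T C l u) D) (x : V) :
    ContinuousOn (fun θ => ShA P G (S θ) (I θ) T C x) D :=
  CM_ShA hwA (fun l => CR_sv hW ha ha0 hm hFs (hPA l) (hq l) (hmu l))
    (fun l y => CR_upsA (lam := fun θ => (I θ).la T C l) hW hm hFs (hPA l) (hq l) (hmu l)
      (hla l) y) x

theorem CR_gpA {T C : Finset (Fin P.N)}
    (hal : ∀ x, ContinuousOn (fun θ => al P G (I θ) x) D)
    (hal0 : ∀ θ ∈ D, ∀ x, 0 < al P G (I θ) x)
    (hrho : ∀ l, ContinuousOn (fun θ => rho P G (S θ) (I θ) T l) D)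
    (hPA : ∀ l x, ContinuousOn (fun θ => PA P G (S θ) (I θ) T l x) D)
    (hmu : ∀ l u, ContinuousOn (fun θ => (I θ).mu T C l u) D)
    (hla : ∀ l u, ContinuousOn (fun θ => (I θ).la T C l u) D) (u : V) :
    ContinuousOn (fun θ => gpA P G (S θ) (I θ) T C u) D :=
  CM_gpA hal hal0 hrho
    (fun l u => CR_RA (lam := fun θ => (I θ).la T C l) (hPA l) (hmu l) (hla l) u) u

theorem CR_mst {C : Finset (Fin P.N)} (hW : ∀ θ ∈ D, (I θ).W = W)
    (ha : ∀ c t, ContinuousOn (fun θ => (S θ).a c t) D)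
    (ha0 : ∀ θ ∈ D, ∀ c t, 0 < (S θ).a c t)
    (hm : ∀ v u, ContinuousOn (fun θ => (S θ).m C v u) D)
    (hFs : ∀ u, ContinuousOn (fun θ => Fs P G (S θ) (I θ) u) D)
    (hPP : ∀ l u, ContinuousOn (fun θ => PP P G (S θ) (I θ) C l u) D)
    (hwP : ∀ l u, ContinuousOn (fun θ => wP P G (S θ) (I θ) C l u) D)
    (hPA : ∀ T l x, ContinuousOn (fun θ => PA P G (S θ) (I θ) T l x) D)
    (hwA : ∀ T l u, ContinuousOn (fun θ => wA P G (S θ) (I θ) T l u) D)
    (hlp : ∀ l u, ContinuousOn (fun θ => (I θ).lp C l u) D)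
    (hq : ∀ T l t, ContinuousOn (fun θ => (I θ).q T C l t) D)
    (hmu : ∀ T l u, ContinuousOn (fun θ => (I θ).mu T C l u) D)
    (hla : ∀ T l u, ContinuousOn (fun θ => (I θ).la T C l u) D) (x u : V) :
    ContinuousOn (fun θ => mst P G s (S θ) (I θ) C x u) D :=
  CM_mst hm hPP hwP hlp hwA
    (fun T l => CR_sv hW ha ha0 hm hFs (hPA T l) (hq T l) (hmu T l))
    (fun T l u => CR_MA (lam := fun θ => (I θ).la T C l) hm (hPA T l) (hq T l) (hmu T l)
      (hla T l) u) x u

end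

end Pool.Agent.Lib.GSX
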