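import Pool.Agent.Lib.GSX.C1
import Pool.Agent.Lib.GSX.CSrv

/-!
# Continuity of all the functions of a record along a family

`Fam P G S I W D`: the constants, the states `S θ` and the inputs `I θ` have the right signs, all
components are continuous on `D` and the world is `W`.  Every function of the record is continuous
on `D`, and the family of the next states is continuous again.
-/

set_option autoImplicit false

namespace Pool.Agent.Lib.GSX

open Finset Classical RecP_
open Pool.Agent.Lib.GSLE (kp brw cl win stp Cel hc rhoC CC AC alp continuous_rhoC continuous_CC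
  continuous_AC)

/-- A continuous family of records with the right signs. -/
structure Fam {V Θ : Type} [TopologicalSpace Θ] (P : Cn) (S : Θ → Sta P V) (I : Θ → Inp P V)
    (W : Finset V) (D : Set Θ) : Prop where
  hP : CPos P
  cI : ContI I W D
  cS : ContS S D
  pI : ∀ θ ∈ D, IPos (I θ)
  pS : ∀ θ ∈ D, SPos (S θ)

section

variable {V Θ : Type} [Fintype V] [TopologicalSpace Θ] {P : Cn} {G : SimpleGraph V}
  {s : Fin P.N} {D : Set Θ} {S : Θ → Sta P V} {I : Θ → Inp P V} {W : Finset V}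

namespace Fam

theorem al (h : Fam P S I W D) (x : V) : ContinuousOn (fun θ => al P G (I θ) x) D :=
  C1_al h.hP.e0 h.cI (fun θ hθ => (h.pI θ hθ).pi) x

theorem ht (h : Fam P S I W D) (c : Fin P.N) (x : V) :
    ContinuousOn (fun θ => ht P (S θ) c x) D :=
  C1_ht h.cS (fun θ hθ => (h.pS θ hθ).a) c x

theorem hs (h : Fam P S I W D) (x : V) : ContinuousOn (fun θ => hs P G (I θ) x) D :=
  C1_hs h.al x

theorem kk (h : Fam P S I W D) (g : ℝ) (x : V) (l : Ml P V) :
    ContinuousOn (fun θ => kk P G (I θ) g x l) D :=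
  C1_kk h.cI h.al g x l

theorem out (h : Fam P S I W D) (x : V) : ContinuousOn (fun θ => out P G (I θ) x) D :=
  C1_out h.cI h.al x

theorem fs (h : Fam P S I W D) (b : V) : ContinuousOn (fun θ => fs P G (I θ) b) D :=
  C1_fs h.cI h.al b

theorem Fs (h : Fam P S I W D) (b : V) : ContinuousOn (fun θ => Fs P G (S θ) (I θ) b) D :=
  C1_Fs h.cI h.cS h.al b

theorem rich (h : Fam P S I W D) (C : Finset (Fin P.N)) (x y : V) :
    ContinuousOn (fun θ => rich P (S θ) C x y) D :=
  C1_rich h.ht C x y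

theorem CP (h : Fam P S I W D) (C : Finset (Fin P.N)) (x : V) (l : Ml P V) :
    ContinuousOn (fun θ => CP P G (S θ) (I θ) C x l) D :=
  C1_CP h.cI h.al h.ht C x l

theorem PP (h : Fam P S I W D) (C : Finset (Fin P.N)) (l : Ml P V) (x : V) :
    ContinuousOn (fun θ => PP P G (S θ) (I θ) C l x) D :=
  C1_PP h.cI h.al h.ht C l x

theorem wP (h : Fam P S I W D) (C : Finset (Fin P.N)) (l : Ml P V) (x : V) :
    ContinuousOn (fun θ => wP P G (S θ) (I θ) C l x) D :=
  C1_wP h.cI h.al h.ht C l x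

/-! ### Cells -/

theorem rho (h : Fam P S I W D) (T : Finset (Fin P.N)) (l : Ce P V) :
    ContinuousOn (fun θ => rho P G (S θ) (I θ) T l) D := by
  rw [continuousOn_iff_continuous_restrict]
  exact continuous_rhoC (Θ := D) (ht := fun θ => GSX.ht P (S θ)) (nt := fun θ => (I θ).n3)
    (at' := fun θ => GSX.al P G (I θ)) (πt := fun θ => (I θ).pi)
    (kt := fun θ => GSX.kk P G (I θ) P.g0)
    (fun c x => continuousOn_iff_continuous_restrict.1 (h.ht c x))
    (fun x => continuousOn_iff_continuous_restrict.1 (h.cI.n3 x))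
    (fun x => continuousOn_iff_continuous_restrict.1 (h.al x)) (fun θ x => al_pos x)
    (fun l => continuousOn_iff_continuous_restrict.1 (h.cI.pi l))
    (fun x l => continuousOn_iff_continuous_restrict.1 (h.kk _ x l)) l

theorem AS (h : Fam P S I W D) (T : Finset (Fin P.N)) (x : V) :
    ContinuousOn (fun θ => AS P G (S θ) (I θ) T x) D := by
  rw [continuousOn_iff_continuous_restrict]
  exact continuous_AC (Θ := D) (ht := fun θ => GSX.ht P (S θ)) (nt := fun θ => (I θ).n3)
    (at' := fun θ => GSX.al P G (I θ)) (πt := fun θ => (I θ).pi)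
    (kt := fun θ => GSX.kk P G (I θ) P.g0)
    (fun c x => continuousOn_iff_continuous_restrict.1 (h.ht c x))
    (fun x => continuousOn_iff_continuous_restrict.1 (h.cI.n3 x))
    (fun x => continuousOn_iff_continuous_restrict.1 (h.al x)) (fun θ x => al_pos x)
    (fun l => continuousOn_iff_continuous_restrict.1 (h.cI.pi l))
    (fun x l => continuousOn_iff_continuous_restrict.1 (h.kk _ x l)) x

theorem CC (h : Fam P S I W D) (T : Finset (Fin P.N)) (x : V) (l : Ce P V) :
    ContinuousOn (fun θ => CC 1 (GSX.ht P (S θ)) P.w0 T (GSX.kk P G (I θ) P.g0) x l) D := by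
  rw [continuousOn_iff_continuous_restrict]
  exact continuous_CC (Θ := D) (ht := fun θ => GSX.ht P (S θ))
    (kt := fun θ => GSX.kk P G (I θ) P.g0)
    (fun c x => continuousOn_iff_continuous_restrict.1 (h.ht c x))
    (fun x l => continuousOn_iff_continuous_restrict.1 (h.kk _ x l)) x l

theorem gY (h : Fam P S I W D) (T : Finset (Fin P.N)) (x : V) :
    ContinuousOn (fun θ => gY P G (S θ) (I θ) T x) D := by
  unfold GSX.gY
  refine CR_rp ((continuousOn_const.mul ((h.AS T x).div (continuousOn_const.mul (h.al x))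
    fun θ _ => (mul_pos h.hP.eps1 (al_pos x)).ne')).sub continuousOn_const)

theorem BS (h : Fam P S I W D) (T : Finset (Fin P.N)) (x : V) :
    ContinuousOn (fun θ => BS P G (S θ) (I θ) T x) D := by
  unfold GSX.BS
  exact (h.AS T x).sup ((continuousOn_const.mul (h.al x)).div_const _)

theorem CS (h : Fam P S I W D) (T : Finset (Fin P.N)) (x : V) (l : Ce P V) :
    ContinuousOn (fun θ => CS P G (S θ) (I θ) T x l) D := by
  unfold GSX.CS
  exact (h.CC T x l).mul (h.gY T x)

theorem PA (h : Fam P S I W D) (T : Finset (Fin P.N)) (l : Ce P V) (x : V) :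
    ContinuousOn (fun θ => PA P G (S θ) (I θ) T l x) D := by
  unfold GSX.PA
  exact ((h.cI.n3 x).mul (h.CS T x l)).div (h.BS T x) fun θ _ => (BS_pos h.hP.eps1 T x).ne'

theorem DD (h : Fam P S I W D) (T : Finset (Fin P.N)) (l : Ce P V) :
    ContinuousOn (fun θ => DD P G (S θ) (I θ) T l) D :=
  CR_DD (h.PA T l)

theorem wA (h : Fam P S I W D) (T : Finset (Fin P.N)) (l : Ce P V) (x : V) :
    ContinuousOn (fun θ => wA P G (S θ) (I θ) T l x) D := by
  unfold GSX.wA
  exact ((h.rho T l).mul (h.CS T x l)).div (h.BS T x) fun θ _ => (BS_pos h.hP.eps1 T x).ne'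

/-! ### Services and own steps -/

theorem hcost (h : Fam P S I W D) (C : Finset (Fin P.N)) (l : Ce P V) (t : V) :
    ContinuousOn (fun θ => hcost P G (S θ) (I θ) C l t) D :=
  CR_hcost h.cI.hW (fun c _ => h.cS.a c t) fun θ hθ c _ => (h.pS θ hθ).a c t

/-- The objective of a service, jointly with its coordinate. -/
theorem Rv (h : Fam P S I W D) (T C : Finset (Fin P.N)) (l : Ce P V) {q mu : Θ → V → ℝ}
    (hq : ∀ t, ContinuousOn (fun θ => q θ t) D) (hmu : ∀ u, ContinuousOn (fun θ => mu θ u) D) :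
    ContinuousOn (fun θ => Rv P G (S θ) (I θ) T C l (q θ) (mu θ)) D :=
  CR_Rv h.cI.hW h.cS.a (fun θ hθ => (h.pS θ hθ).a) (h.cS.m C) h.Fs (h.PA T l) hq hmu

/-- The objective of the service of the record. -/
theorem Rv_own (h : Fam P S I W D) (T C : Finset (Fin P.N)) (l : Ce P V) :
    ContinuousOn (fun θ => GSX.Rv P G (S θ) (I θ) T C l ((I θ).q T C l) ((I θ).mu T C l)) D :=
  h.Rv T C l (q := fun θ => (I θ).q T C l) (mu := fun θ => (I θ).mu T C l) (h.cI.q T C l)
    (h.cI.mu T C l)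

theorem sv (h : Fam P S I W D) (T C : Finset (Fin P.N)) (l : Ce P V) :
    ContinuousOn (fun θ => sv P G (S θ) (I θ) T C l) D :=
  CR_sv h.cI.hW h.cS.a (fun θ hθ => (h.pS θ hθ).a) (h.cS.m C) h.Fs (h.PA T l) (h.cI.q T C l)
    (h.cI.mu T C l)

theorem upsP (h : Fam P S I W D) (C : Finset (Fin P.N)) (l : Ml P V) {lam : Θ → V → ℝ}
    (hlam : ∀ u, ContinuousOn (fun θ => lam θ u) D) (x : V) :
    ContinuousOn (fun θ => upsP P G (S θ) (I θ) C l (lam θ) x) D :=
  CM_upsP h.cI.hW (h.cS.m C l.1) (h.PP C l) h.Fs hlam x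

theorem upsA (h : Fam P S I W D) (T C : Finset (Fin P.N)) (l : Ce P V) {lam : Θ → V → ℝ}
    (hlam : ∀ u, ContinuousOn (fun θ => lam θ u) D) (x : V) :
    ContinuousOn (fun θ => upsA P G (S θ) (I θ) T C l (lam θ) x) D :=
  CR_upsA h.cI.hW (h.cS.m C) h.Fs (h.PA T l) (h.cI.q T C l) (h.cI.mu T C l) hlam x

/-- The objective of the own step of the hub mode, jointly with its coordinate. -/
theorem objP (h : Fam P S I W D) (C : Finset (Fin P.N)) (l : Ml P V) {lam : Θ → V → ℝ}
    (hlam : ∀ u, ContinuousOn (fun θ => lam θ u) D) :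
    ContinuousOn (fun θ => objP P G (S θ) (I θ) C l (lam θ)) D :=
  CR_objP h.cI.hW (h.cS.m C l.1) h.Fs (h.PP C l) hlam

/-- The objective of the own step of a cell, jointly with its coordinate. -/
theorem objA (h : Fam P S I W D) (T C : Finset (Fin P.N)) (l : Ce P V) {lam : Θ → V → ℝ}
    (hlam : ∀ u, ContinuousOn (fun θ => lam θ u) D) :
    ContinuousOn (fun θ => objA P G (S θ) (I θ) T C l (lam θ)) D :=
  CR_objA h.cI.hW (h.cS.m C) h.Fs (h.PA T l) (h.cI.q T C l) (h.cI.mu T C l) hlam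

/-! ### Scores, payment functions, masters -/

theorem ShP (h : Fam P S I W D) (C : Finset (Fin P.N)) (x : V) :
    ContinuousOn (fun θ => ShP P G (S θ) (I θ) C x) D :=
  CM_ShP h.cI.hW (h.cS.m C) (h.PP C) (h.wP C) h.Fs (h.cI.lp C) x

theorem ShA (h : Fam P S I W D) (T C : Finset (Fin P.N)) (x : V) :
    ContinuousOn (fun θ => ShA P G (S θ) (I θ) T C x) D :=
  CR_ShA h.cI.hW h.cS.a (fun θ hθ => (h.pS θ hθ).a) (h.cS.m C) h.Fs (h.PA T) (h.wA T)
    (h.cI.q T C) (h.cI.mu T C) (h.cI.la T C) x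

theorem kq (h : Fam P S I W D) (i : ℕ) (u : V) : ContinuousOn (fun θ => kq P G (I θ) i u) D :=
  CM_kq h.al i u

theorem gpP (h : Fam P S I W D) (C : Finset (Fin P.N)) (u : V) :
    ContinuousOn (fun θ => gpP P G (S θ) (I θ) C u) D :=
  CM_gpP h.al (fun _ _ => al_pos) h.cI.pi (h.PP C) (h.cI.lp C) u

theorem gpA (h : Fam P S I W D) (T C : Finset (Fin P.N)) (u : V) :
    ContinuousOn (fun θ => gpA P G (S θ) (I θ) T C u) D :=
  CR_gpA h.al (fun _ _ => al_pos) (h.rho T) (h.PA T) (h.cI.mu T C) (h.cI.la T C) u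

theorem mst (h : Fam P S I W D) (C : Finset (Fin P.N)) (x u : V) :
    ContinuousOn (fun θ => mst P G s (S θ) (I θ) C x u) D :=
  CR_mst h.cI.hW h.cS.a (fun θ hθ => (h.pS θ hθ).a) (h.cS.m C) h.Fs (h.PP C) (h.wP C) h.PA h.wA
    (h.cI.lp C) (fun T => h.cI.q T C) (fun T => h.cI.mu T C) (fun T => h.cI.la T C) x u

/-- **The family of the next states is continuous.** -/
theorem nxt (h : Fam P S I W D) : ContS (fun θ => nxt P G s (S θ) (I θ)) D where
  a c x := CM_nxt_a h.cS.a h.al c x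
  m C v u := CM_nxt_m (h.cS.m C) (fun _ x u => h.mst (C.erase s) x u) v u
  F u := CM_nxt_F h.Fs u

/-- The signs of the next states. -/
theorem nxt_pos (h : Fam P S I W D) : ∀ θ ∈ D, SPos (GSX.nxt P G s (S θ) (I θ)) :=
  fun θ hθ => nxt_spos h.hP (h.pS θ hθ) (h.pI θ hθ)

theorem mono (h : Fam P S I W D) {D' : Set Θ} (hD : D' ⊆ D) : Fam P S I W D' :=
  ⟨h.hP, h.cI.mono hD, h.cS.mono hD, fun θ hθ => h.pI θ (hD hθ), fun θ hθ => h.pS θ (hD hθ)⟩

end Fam

end

end Pool.Agent.Lib.GSX
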