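import Pool.Agent.Lib.GSX.Inst
import Pool.Agent.Lib.GSX.Fam

/-!
# Continuity of the records along a history

The inputs `inpt P θ s p` are coordinates of the parameter `θ`, so they are continuous; by induction
on the stage all the states `stt P G θ p s` are continuous on the domain of the game, and at every
stage one has a continuous family `Fam` of records with the right signs.
-/

set_option autoImplicit false

namespace Pool.Agent.Lib.GSX

open Finset Classical
open Pool.Agent.Lib.GSR Pool.Agent.Lib.GSR.HZ Pool.Agent.Lib.GSR.HZB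

section

variable {V : Type} [Fintype V] {P : Cn} {G : SimpleGraph V}

/-! ### The inputs -/

/-- The input is a continuous function of the parameter. -/
theorem contI_inpt (s : Fin P.N) (p : Hh P V) (D : Set (Tht P V)) :
    ContI (fun θ => inpt P θ s p) (wo p s) D where
  hW _ _ := rfl
  n0 x := (continuous_nh (Y := Yi P V) s 0 (hp s 0 p) x).continuousOn
  n1 x := (continuous_nh (Y := Yi P V) s g1 (hp s g1 p) x).continuousOn
  n2 x := (continuous_nh (Y := Yi P V) s (g2 P) (hp s (g2 P) p) x).continuousOn
  n3 x := (continuous_nh (Y := Yi P V) s (g3 P) (hp s (g3 P) p) x).continuousOn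
  pi l := by
    have h1 : Continuous fun θ : Tht P V => θ.2 (.pi s (hp s 0 p)) :=
      (continuous_apply (Ix.pi s (hp s 0 p))).comp continuous_snd
    exact ((continuous_apply l).comp h1).continuousOn
  sg a j l := by
    by_cases h : j < P.h
    · have h1 : Continuous fun θ : Tht P V => θ.2 (.sg s (hp s g1 p) a ⟨j, h⟩) :=
        (continuous_apply (Ix.sg s (hp s g1 p) a ⟨j, h⟩)).comp continuous_snd
      have h2 : (fun θ : Tht P V => (inpt P θ s p).sg a j l) =
          fun θ => θ.2 (.sg s (hp s g1 p) a ⟨j, h⟩) l := by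
        funext θ
        exact congrFun (dif_pos h) l
      rw [h2]
      exact ((continuous_apply l).comp h1).continuousOn
    · have h2 : (fun θ : Tht P V => (inpt P θ s p).sg a j l) = fun _ => 0 := by
        funext θ
        exact congrFun (dif_neg h) l
      rw [h2]
      exact continuousOn_const
  su a j l x := by
    by_cases h : j < P.h
    · have h1 : Continuous fun θ : Tht P V => θ.2 (.su s (hp s g1 p) a ⟨j, h⟩ l) :=
        (continuous_apply (Ix.su s (hp s g1 p) a ⟨j, h⟩ l)).comp continuous_snd
      have h2 : (fun θ : Tht P V => (inpt P θ s p).su a j l x) =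
          fun θ => θ.2 (.su s (hp s g1 p) a ⟨j, h⟩ l) x := by
        funext θ
        exact congrFun (dif_pos h) x
      rw [h2]
      exact ((continuous_apply x).comp h1).continuousOn
    · have h2 : (fun θ : Tht P V => (inpt P θ s p).su a j l x) = fun _ => 0 := by
        funext θ
        exact congrFun (dif_neg h) x
      rw [h2]
      exact continuousOn_const
  lp C l x := by
    have h1 : Continuous fun θ : Tht P V => θ.2 (.lp s (hp s (g3 P) p) C l) :=
      (continuous_apply (Ix.lp s (hp s (g3 P) p) C l)).comp continuous_snd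
    exact ((continuous_apply x).comp h1).continuousOn
  q T C l x := by
    have h1 : Continuous fun θ : Tht P V => θ.2 (.sv s (hp s (g3 P) p) T C l) :=
      (continuous_apply (Ix.sv s (hp s (g3 P) p) T C l)).comp continuous_snd
    exact ((continuous_apply (Sum.inl x)).comp h1).continuousOn
  mu T C l x := by
    have h1 : Continuous fun θ : Tht P V => θ.2 (.sv s (hp s (g3 P) p) T C l) :=
      (continuous_apply (Ix.sv s (hp s (g3 P) p) T C l)).comp continuous_snd
    exact ((continuous_apply (Sum.inr x)).comp h1).continuousOn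
  la T C l x := by
    have h1 : Continuous fun θ : Tht P V => θ.2 (.la s (hp s (g3 P) p) T C l) :=
      (continuous_apply (Ix.la s (hp s (g3 P) p) T C l)).comp continuous_snd
    exact ((continuous_apply x).comp h1).continuousOn

variable {θ : Tht P V}

/-- The coordinates of a parameter of the domain. -/
lemma mem_Ki (hθ : θ ∈ dom P.N (nb P) (Ki P)) (i : Ix P V) : θ.2 i ∈ Ki P i :=
  hθ.2 i (Set.mem_univ _)

/-- The signs of the input. -/
theorem ipos_inpt (hθ : θ ∈ dom P.N (nb P) (Ki P)) (s : Fin P.N) (p : Hh P V) :
    IPos (inpt P θ s p) where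
  n0 x := nh_nonneg hθ _ _ _ x
  n1 x := nh_nonneg hθ _ _ _ x
  n2 x := nh_nonneg hθ _ _ _ x
  n3 x := nh_nonneg hθ _ _ _ x
  pi l := (mem_Ki hθ (.pi s (hp s 0 p))).1.1 l
  q T C l t := (mem_Ki hθ (.sv s (hp s (g3 P) p) T C l)).1.1.1 t
  mu T C l u := (mem_Ki hθ (.sv s (hp s (g3 P) p) T C l)).2.1 u
  lp C l u := (mem_Ki hθ (.lp s (hp s (g3 P) p) C l)).1 u
  la T C l u := (mem_Ki hθ (.la s (hp s (g3 P) p) T C l)).1 u

/-! ### The states -/

/-- The signs of the states. -/
theorem spos_stt (hP : CPos P) (hθ : θ ∈ dom P.N (nb P) (Ki P)) (p : Hh P V) (s : ℕ) :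
    SPos (stt P G θ p s) := by
  induction s with
  | zero => exact ⟨fun _ _ => one_pos, fun _ _ _ => le_rfl, fun _ => le_rfl⟩
  | succ s ih =>
    by_cases h : s < P.N
    · rw [stt_succ p h]
      exact RecP_.nxt_spos hP ih (ipos_inpt hθ ⟨s, h⟩ p)
    · rw [stt, dif_neg h]
      exact ih

/-- The states are continuous. -/
theorem contS_stt (hP : CPos P) (p : Hh P V) (s : ℕ) :
    ContS (fun θ => stt P G θ p s) (dom P.N (nb P) (Ki P)) := by
  induction s with
  | zero =>
    exact ⟨fun _ _ => continuousOn_const, fun _ _ _ => continuousOn_const,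
      fun _ => continuousOn_const⟩
  | succ s ih =>
    by_cases h : s < P.N
    · have h1 : (fun θ : Tht P V => stt P G θ p (s + 1)) =
          fun θ => nxt P G ⟨s, h⟩ (stt P G θ p s) (inpt P θ ⟨s, h⟩ p) := by
        funext θ
        exact stt_succ p h
      rw [h1]
      exact Fam.nxt (W := wo p s) ⟨hP, contI_inpt ⟨s, h⟩ p _, ih,
        fun θ hθ => ipos_inpt hθ ⟨s, h⟩ p, fun θ hθ => spos_stt hP hθ p s⟩
    · have h1 : (fun θ : Tht P V => stt P G θ p (s + 1)) = fun θ => stt P G θ p s := by
        funext θ
        rw [stt, dif_neg h]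
      rw [h1]
      exact ih

/-- **The records along a history are a continuous family**, for the state before the stage `t` and
the input of the stage `s` (possibly at another history `p'`). -/
theorem fam_stt_inpt (hP : CPos P) (t : ℕ) (p : Hh P V) (s : Fin P.N) (p' : Hh P V) :
    Fam P (fun θ => stt P G θ p t) (fun θ => inpt P θ s p') (wo p' s)
      (dom P.N (nb P) (Ki P)) :=
  ⟨hP, contI_inpt s p' _, contS_stt hP p t, fun _ hθ => ipos_inpt hθ s p',
    fun _ hθ => spos_stt hP hθ p t⟩

/-- The records of the stage `s` along a history are a continuous family. -/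
theorem fam_stt (hP : CPos P) (s : Fin P.N) (p : Hh P V) :
    Fam P (fun θ => stt P G θ p s) (fun θ => inpt P θ s p) (wo p s)
      (dom P.N (nb P) (Ki P)) :=
  fam_stt_inpt hP s p s p

end

end Pool.Agent.Lib.GSX
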