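import Pool.Agent.Lib.GSX.RecP

/-!
# Families of records: continuity

`S θ`, `I θ` are families of states and inputs with a parameter `θ` in a topological space; `D` is
the set of the parameters which are allowed.  The world is constant on `D`.
-/

set_option autoImplicit false

namespace Pool.Agent.Lib.GSX

open Finset Classical

section

variable {V Θ : Type} [Fintype V] [TopologicalSpace Θ] {P : Cn}

/-- Every component of the input is continuous on `D`, the world is `W`. -/
structure ContI (I : Θ → Inp P V) (W : Finset V) (D : Set Θ) : Prop where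
  hW : ∀ θ ∈ D, (I θ).W = W
  n0 : ∀ x, ContinuousOn (fun θ => (I θ).n0 x) D
  n1 : ∀ x, ContinuousOn (fun θ => (I θ).n1 x) D
  n2 : ∀ x, ContinuousOn (fun θ => (I θ).n2 x) D
  n3 : ∀ x, ContinuousOn (fun θ => (I θ).n3 x) D
  pi : ∀ l, ContinuousOn (fun θ => (I θ).pi l) D
  sg : ∀ a j l, ContinuousOn (fun θ => (I θ).sg a j l) D
  su : ∀ a j l x, ContinuousOn (fun θ => (I θ).su a j l x) D
  lp : ∀ C l x, ContinuousOn (fun θ => (I θ).lp C l x) D
  q : ∀ T C l x, ContinuousOn (fun θ => (I θ).q T C l x) D
  mu : ∀ T C l x, ContinuousOn (fun θ => (I θ).mu T C l x) D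
  la : ∀ T C l x, ContinuousOn (fun θ => (I θ).la T C l x) D

/-- Every component of the state is continuous on `D`. -/
structure ContS (S : Θ → Sta P V) (D : Set Θ) : Prop where
  a : ∀ c x, ContinuousOn (fun θ => (S θ).a c x) D
  m : ∀ C v u, ContinuousOn (fun θ => (S θ).m C v u) D
  F : ∀ u, ContinuousOn (fun θ => (S θ).F u) D

omit [Fintype V] in
theorem ContI.mono {I : Θ → Inp P V} {W : Finset V} {D D' : Set Θ} (h : ContI I W D)
    (hD : D' ⊆ D) : ContI I W D' :=
  ⟨fun θ hθ => h.hW θ (hD hθ), fun x => (h.n0 x).mono hD, fun x => (h.n1 x).mono hD,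
    fun x => (h.n2 x).mono hD, fun x => (h.n3 x).mono hD, fun l => (h.pi l).mono hD,
    fun a j l => (h.sg a j l).mono hD, fun a j l x => (h.su a j l x).mono hD,
    fun C l x => (h.lp C l x).mono hD, fun T C l x => (h.q T C l x).mono hD,
    fun T C l x => (h.mu T C l x).mono hD, fun T C l x => (h.la T C l x).mono hD⟩

omit [Fintype V] in
theorem ContS.mono {S : Θ → Sta P V} {D D' : Set Θ} (h : ContS S D) (hD : D' ⊆ D) :
    ContS S D' :=
  ⟨fun c x => (h.a c x).mono hD, fun C v u => (h.m C v u).mono hD, fun u => (h.F u).mono hD⟩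

end

end Pool.Agent.Lib.GSX
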