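import Pool.Agent.Lib.GSX.RecF
import Pool.Agent.Lib.GSX.C1
import Pool.Agent.Lib.GSX.CSrv

/-!
# The continuity data of the small set of a pool

`CtB` (file `RecF.lean`) from the continuity of the input and of the state.
-/

set_option autoImplicit false

namespace Pool.Agent.Lib.GSX

open Finset Classical

/-- The data of `RecF.lean` from `ContI`, `ContS`; the continuity of the cells is a hypothesis. -/
theorem ctB_of {V Θ : Type} [Fintype V] [TopologicalSpace Θ] {P : Cn} {G : SimpleGraph V}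
    {D : Set Θ} {S : Θ → Sta P V} {I : Θ → Inp P V} {W : Finset V} (he : 0 < P.e0)
    (hI : ContI I W D) (hS : ContS S D) (pI : ∀ θ ∈ D, IPos (I θ)) (pS : ∀ θ ∈ D, SPos (S θ))
    {T : Finset (Fin P.N)}
    (hrho : ∀ l, ContinuousOn (fun θ => rho P G (S θ) (I θ) T l) D)
    (hCS : ∀ x l, ContinuousOn (fun θ => CS P G (S θ) (I θ) T x l) D)
    (hPA : ∀ l x, ContinuousOn (fun θ => PA P G (S θ) (I θ) T l x) D) :
    CtB P G D S I T W where
  W := hI.hW
  n0 θ hθ := (pI θ hθ).n3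
  al0 _ _ x := RecP_.al_pos x
  a0 θ hθ c _ x := (pS θ hθ).a c x
  rho0 θ hθ l := RecP_.rho_nonneg (pI θ hθ).n3 (pI θ hθ).pi T l
  n := hI.n3
  al := C1_al he hI fun θ hθ => (pI θ hθ).pi
  a c _ := hS.a c
  rho := hrho
  cs := hCS
  dd l := CR_DD (hPA l)
  rv C l := CR_Rv hI.hW hS.a (fun θ hθ => (pS θ hθ).a) (hS.m C)
    (C1_Fs hI hS (C1_al he hI fun θ hθ => (pI θ hθ).pi)) (hPA l) (hI.q T C l) (hI.mu T C l)

end Pool.Agent.Lib.GSX
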