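import Pool.Agent.Lib.GSX.Rec

/-!
# The pay-offs of the services: convexity and joint continuity

`Rv` (the objective of the service), `objP` and `objA` (the objectives of the own steps) are convex
in the own variable and jointly continuous in all the data.  In the continuity theorems `X` is any
topological space and the own variable is a function on `X`; so they cover the continuity along
the parameter as well as the joint continuity.
-/

set_option autoImplicit false
set_option linter.unusedSectionVars false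

namespace Pool.Agent.Lib.GSX

open Finset Classical
open Pool.Agent.Lib.FGF (cm)
open Pool.Agent.Lib.GSR (vioC vioC_convex continuousOn_vioC)

namespace CvxC_

section raw

variable {V : Type} [Fintype V] (G : SimpleGraph V) {M j : ℕ} {v : V} {L : Finset V}

/-! ### Raw convexity -/

/-- `cm` is linear in the measure. -/
theorem cm_add_smul (a b : ℝ) (m m' : V → ℝ) (x : V) :
    cm G (fun u => a * m u + b * m' u) x = a * cm G m x + b * cm G m' x := by
  have h := GSLE.cm_sum (G := G) (Finset.univ : Finset Bool)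
    (fun l => if l then a else b) (fun l => if l then m else m') x
  simpa using h

/-- The violation of an affine family of charges is convex. -/
theorem convexOn_vioC {E : Type*} [AddCommMonoid E] [Module ℝ E] {K : Set E}
    (hK : Convex ℝ K) (g : E → V → ℝ)
    (hg : ∀ a b : ℝ, 0 ≤ a → 0 ≤ b → a + b = 1 → ∀ y y' : E, ∀ u,
      g (a • y + b • y') u = a * g y u + b * g y' u) :
    ConvexOn ℝ K fun y => vioC G M j v (g y) L := by
  refine ⟨hK, fun y _ y' _ a b ha hb hab => ?_⟩
  have h1 : g (a • y + b • y') = fun u => a * g y u + b * g y' u :=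
    funext fun u => hg a b ha hb hab y y' u
  simp only [smul_eq_mul]
  rw [h1]
  exact vioC_convex ha hb hab

/-- An affine function is convex. -/
theorem convexOn_aff {E : Type*} [AddCommMonoid E] [Module ℝ E] {K : Set E}
    (hK : Convex ℝ K) (g : E → ℝ)
    (hg : ∀ a b : ℝ, 0 ≤ a → 0 ≤ b → a + b = 1 → ∀ y y' : E,
      g (a • y + b • y') = a * g y + b * g y') : ConvexOn ℝ K g :=
  ⟨hK, fun y _ y' _ a b ha hb hab => (hg a b ha hb hab y y').le⟩

/-- Weighted sums of convex functions are convex. -/
theorem convexOn_wsum {E ι : Type*} [AddCommMonoid E] [Module ℝ E] {K : Set E}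
    (hK : Convex ℝ K) (s : Finset ι) (P : ι → ℝ) (hP : ∀ i ∈ s, 0 ≤ P i) (f : ι → E → ℝ)
    (hf : ∀ i ∈ s, ConvexOn ℝ K (f i)) : ConvexOn ℝ K fun y => ∑ i ∈ s, P i * f i y := by
  refine ⟨hK, fun y hy y' hy' a b ha hb hab => ?_⟩
  simp only [smul_eq_mul]
  rw [Finset.mul_sum, Finset.mul_sum, ← Finset.sum_add_distrib]
  refine Finset.sum_le_sum fun i hi => ?_
  have h1 := (hf i hi).2 hy hy' ha hb hab
  simp only [smul_eq_mul] at h1
  have h2 := mul_le_mul_of_nonneg_left h1 (hP i hi)
  linarith

end raw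

section cont

variable {X : Type} [TopologicalSpace X] {D : Set X} {V : Type} [Fintype V]
  (G : SimpleGraph V)

/-- `cm` is continuous in the measure. -/
theorem continuousOn_cm {m : X → V → ℝ} (hm : ∀ u, ContinuousOn (fun x => m x u) D) (y : V) :
    ContinuousOn (fun x => cm G (m x) y) D := by
  unfold cm FGF.nm FracGS.wnb
  exact (hm y).add (continuousOn_finsetSum _ fun u _ => hm u)

end cont

/-! ### Convexity of the pay-offs of the records -/

section cvx

variable {V : Type} [Fintype V] (P : Cn) (G : SimpleGraph V) (s : Fin P.N) (S : Sta P V)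
  (I : Inp P V)

/-- The objective of the service is convex. -/
theorem Rv_convexOn (T C : Finset (Fin P.N)) (l : Ce P V) {E : Type*} [AddCommMonoid E]
    [Module ℝ E] {K : Set E} (hK : Convex ℝ K) (q mu : E → V → ℝ)
    (hq : ∀ a b : ℝ, 0 ≤ a → 0 ≤ b → a + b = 1 → ∀ y y' : E, ∀ u,
      q (a • y + b • y') u = a * q y u + b * q y' u)
    (hmu : ∀ a b : ℝ, 0 ≤ a → 0 ≤ b → a + b = 1 → ∀ y y' : E, ∀ u,
      mu (a • y + b • y') u = a * mu y u + b * mu y' u) :
    ConvexOn ℝ K fun y => Rv P G S I T C l (q y) (mu y) := by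
  have h0 : ∀ a b : ℝ, 0 ≤ a → 0 ≤ b → a + b = 1 → ∀ y y' : E, ∀ u,
      Mh P S C (q (a • y + b • y')) (mu (a • y + b • y')) u =
        a * Mh P S C (q y) (mu y) u + b * Mh P S C (q y') (mu y') u := by
    intro a b ha hb hab y y' u
    unfold Mh
    rw [hmu a b ha hb hab]
    have h1 : ∑ t, q (a • y + b • y') t * S.m C t u =
        a * ∑ t, q y t * S.m C t u + b * ∑ t, q y' t * S.m C t u := by
      rw [Finset.mul_sum, Finset.mul_sum, ← Finset.sum_add_distrib]
      refine Finset.sum_congr rfl fun t _ => ?_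
      rw [hq a b ha hb hab]
      ring
    rw [h1]
    ring
  have h1 : ∀ a b : ℝ, 0 ≤ a → 0 ≤ b → a + b = 1 → ∀ y y' : E, ∀ x,
      cm G (Mh P S C (q (a • y + b • y')) (mu (a • y + b • y'))) x =
        a * cm G (Mh P S C (q y) (mu y)) x + b * cm G (Mh P S C (q y') (mu y')) x := by
    intro a b ha hb hab y y' x
    rw [← cm_add_smul]
    congr 1
    exact funext fun u => h0 a b ha hb hab y y' u
  unfold Rv
  refine ((convexOn_vioC G hK _ ?_).add (convexOn_aff hK _ ?_)).add (convexOn_aff hK _ ?_)
  · intro a b ha hb hab y y' u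
    rw [h1 a b ha hb hab]
    have h2 : P.Z' C.card * Fs P G S I u =
        a * (P.Z' C.card * Fs P G S I u) + b * (P.Z' C.card * Fs P G S I u) := by
      rw [← add_mul, hab, one_mul]
    linear_combination h2
  · intro a b ha hb hab y y'
    rw [Finset.mul_sum, Finset.mul_sum, ← Finset.sum_add_distrib]
    refine Finset.sum_congr rfl fun x _ => ?_
    rw [h1 a b ha hb hab]
    ring
  · intro a b ha hb hab y y'
    rw [Finset.mul_sum, Finset.mul_sum, ← Finset.sum_add_distrib]
    refine Finset.sum_congr rfl fun t _ => ?_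
    rw [hq a b ha hb hab]
    ring

/-- The objective of the own step of the hub mode is convex. -/
theorem objP_convexOn (C : Finset (Fin P.N)) (l : Ml P V)
    (hPP : ∀ x, 0 ≤ PP P G S I C l x) {E : Type*} [AddCommMonoid E] [Module ℝ E] {K : Set E}
    (hK : Convex ℝ K) (lam : E → V → ℝ)
    (hlam : ∀ a b : ℝ, 0 ≤ a → 0 ≤ b → a + b = 1 → ∀ y y' : E, ∀ u,
      lam (a • y + b • y') u = a * lam y u + b * lam y' u) :
    ConvexOn ℝ K fun y => objP P G S I C l (lam y) := by
  have h1 : ∀ a b : ℝ, 0 ≤ a → 0 ≤ b → a + b = 1 → ∀ y y' : E, ∀ x,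
      cm G (MP P G S I C l (lam (a • y + b • y'))) x =
        a * cm G (MP P G S I C l (lam y)) x + b * cm G (MP P G S I C l (lam y')) x := by
    intro a b ha hb hab y y' x
    rw [← cm_add_smul]
    congr 1
    funext u
    unfold MP RP
    rw [hlam a b ha hb hab]
    have h2 : ∀ z : ℝ, z = a * z + b * z := fun z => by rw [← add_mul, hab, one_mul]
    linear_combination h2 (P.A' C.card * S.m C l.1 u + (if u = l.1 then (1 : ℝ) else 0) +
      PP P G S I C l u / P.eta C.card)
  unfold objP
  refine convexOn_wsum hK _ _ (fun x _ => hPP x) _ fun x _ => ?_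
  unfold upsP
  refine convexOn_vioC G hK _ ?_
  intro a b ha hb hab y y' u
  rw [h1 a b ha hb hab]
  have h2 : P.Z'' C.card * Fs P G S I u =
      a * (P.Z'' C.card * Fs P G S I u) + b * (P.Z'' C.card * Fs P G S I u) := by
    rw [← add_mul, hab, one_mul]
  linear_combination h2

/-- The objective of the own step of a cell is convex. -/
theorem objA_convexOn (T C : Finset (Fin P.N)) (l : Ce P V)
    (hPA : ∀ x, 0 ≤ PA P G S I T l x) {E : Type*} [AddCommMonoid E] [Module ℝ E] {K : Set E}
    (hK : Convex ℝ K) (lam : E → V → ℝ)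
    (hlam : ∀ a b : ℝ, 0 ≤ a → 0 ≤ b → a + b = 1 → ∀ y y' : E, ∀ u,
      lam (a • y + b • y') u = a * lam y u + b * lam y' u) :
    ConvexOn ℝ K fun y => objA P G S I T C l (lam y) := by
  have h1 : ∀ a b : ℝ, 0 ≤ a → 0 ≤ b → a + b = 1 → ∀ y y' : E, ∀ x,
      cm G (MA P G S I T C l (lam (a • y + b • y'))) x =
        a * cm G (MA P G S I T C l (lam y)) x + b * cm G (MA P G S I T C l (lam y')) x := by
    intro a b ha hb hab y y' x
    rw [← cm_add_smul]
    congr 1
    funext u
    unfold MA RA
    rw [hlam a b ha hb hab]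
    have h2 : ∀ z : ℝ, z = a * z + b * z := fun z => by rw [← add_mul, hab, one_mul]
    linear_combination h2 (P.A' C.card * (P.A C.card * ∑ t, I.q T C l t * S.m C t u) +
      P.A' C.card * I.mu T C l u + (if u = l.1.1 then (1 : ℝ) else 0) +
      PA P G S I T l u / P.eta C.card)
  unfold objA
  refine convexOn_wsum hK _ _ (fun x _ => hPA x) _ fun x _ => ?_
  unfold upsA
  refine convexOn_vioC G hK _ ?_
  intro a b ha hb hab y y' u
  rw [h1 a b ha hb hab]
  have h2 : P.Z'' C.card * Fs P G S I u =
      a * (P.Z'' C.card * Fs P G S I u) + b * (P.Z'' C.card * Fs P G S I u) := by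
    rw [← add_mul, hab, one_mul]
  linear_combination h2

end cvx

/-! ### Continuity -/

section cont

variable {X : Type} [TopologicalSpace X] {D : Set X} {V : Type} [Fintype V] (P : Cn)
  (G : SimpleGraph V) (S : X → Sta P V) (I : X → Inp P V) {W : Finset V}

/-- The measure of the service is continuous. -/
theorem Mh_cont {C : Finset (Fin P.N)} {q mu : X → V → ℝ}
    (hm : ∀ t u, ContinuousOn (fun x => (S x).m C t u) D)
    (hq : ∀ t, ContinuousOn (fun x => q x t) D) (hmu : ∀ t, ContinuousOn (fun x => mu x t) D)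
    (u : V) : ContinuousOn (fun x => Mh P (S x) C (q x) (mu x) u) D := by
  unfold Mh
  exact (continuousOn_const.mul (continuousOn_finsetSum _ fun t _ => (hq t).mul (hm t u))).add
    (hmu u)

/-- The cost of the heights is continuous. -/
theorem hcost_cont (hW : ∀ x ∈ D, (I x).W = W) {C : Finset (Fin P.N)}
    (ha : ∀ c t, ContinuousOn (fun x => (S x).a c t) D) (ha0 : ∀ c t, ∀ x ∈ D, 0 < (S x).a c t)
    (l : Ce P V) (t : V) : ContinuousOn (fun x => hcost P G (S x) (I x) C l t) D := by
  unfold hcost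
  refine ContinuousOn.add ?_ (continuousOn_finsetSum _ fun c _ => ?_)
  · refine (continuousOn_const (c := if G.Adj t l.1.1 ∧ t ∈ W then (0 : ℝ) else 1)).congr ?_
    intro x hx
    simp only [hW x hx]
  · exact GSLE.brw_continuousOn (by norm_num) (by norm_num)
      (continuousOn_const.div (ha c t) fun x hx => (ha0 c t x hx).ne')

/-- The objective of the service is continuous. -/
theorem Rv_cont (hW : ∀ x ∈ D, (I x).W = W) {T C : Finset (Fin P.N)} {l : Ce P V}
    {q mu : X → V → ℝ} (hm : ∀ t u, ContinuousOn (fun x => (S x).m C t u) D)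
    (hF : ∀ u, ContinuousOn (fun x => Fs P G (S x) (I x) u) D)
    (hPA : ∀ y, ContinuousOn (fun x => PA P G (S x) (I x) T l y) D)
    (hh : ∀ t, ContinuousOn (fun x => hcost P G (S x) (I x) C l t) D)
    (hq : ∀ t, ContinuousOn (fun x => q x t) D) (hmu : ∀ t, ContinuousOn (fun x => mu x t) D) :
    ContinuousOn (fun x => Rv P G (S x) (I x) T C l (q x) (mu x)) D := by
  have h1 := fun u => continuousOn_cm G (Mh_cont P S hm hq hmu) u
  unfold Rv
  refine ((ContinuousOn.congr (f := fun x => vioC G P.M (P.h - C.card - 1) l.1.1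
      (fun u => cm G (Mh P (S x) C (q x) (mu x)) u + P.Z' C.card * Fs P G (S x) (I x) u) W)
      ?_ ?_).add ?_).add ?_
  · exact continuousOn_vioC fun u => (h1 u).add (continuousOn_const.mul (hF u))
  · intro x hx
    simp only [hW x hx]
  · exact continuousOn_finsetSum _ fun y _ => (hPA y).mul (h1 y)
  · exact continuousOn_finsetSum _ fun t _ => (hq t).mul (hh t)

/-- The measure of a label of the hub mode is continuous. -/
theorem MP_cont {C : Finset (Fin P.N)} {l : Ml P V} {lam : X → V → ℝ}
    (hm : ∀ t u, ContinuousOn (fun x => (S x).m C t u) D)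
    (hPP : ∀ y, ContinuousOn (fun x => PP P G (S x) (I x) C l y) D)
    (hlam : ∀ t, ContinuousOn (fun x => lam x t) D) (u : V) :
    ContinuousOn (fun x => MP P G (S x) (I x) C l (lam x) u) D := by
  unfold MP RP
  exact (continuousOn_const.mul (hm l.1 u)).add ((continuousOn_const.add (hlam u)).add
    ((hPP u).div_const _))

theorem upsP_cont (hW : ∀ x ∈ D, (I x).W = W) {C : Finset (Fin P.N)} {l : Ml P V}
    {lam : X → V → ℝ} (hm : ∀ t u, ContinuousOn (fun x => (S x).m C t u) D)
    (hF : ∀ u, ContinuousOn (fun x => Fs P G (S x) (I x) u) D)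
    (hPP : ∀ y, ContinuousOn (fun x => PP P G (S x) (I x) C l y) D)
    (hlam : ∀ t, ContinuousOn (fun x => lam x t) D) (y : V) :
    ContinuousOn (fun x => upsP P G (S x) (I x) C l (lam x) y) D := by
  have h1 := fun u => continuousOn_cm G (MP_cont P G S I hm hPP hlam) u
  unfold upsP
  refine ContinuousOn.congr (f := fun x => vioC G P.M (P.h - C.card - 1) y
      (fun u => cm G (MP P G (S x) (I x) C l (lam x)) u +
        P.Z'' C.card * Fs P G (S x) (I x) u) W) ?_ ?_
  · exact continuousOn_vioC fun u => (h1 u).add (continuousOn_const.mul (hF u))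
  · intro x hx
    simp only [hW x hx]

/-- The objective of the own step of the hub mode is continuous. -/
theorem objP_cont (hW : ∀ x ∈ D, (I x).W = W) {C : Finset (Fin P.N)} {l : Ml P V}
    {lam : X → V → ℝ} (hm : ∀ t u, ContinuousOn (fun x => (S x).m C t u) D)
    (hF : ∀ u, ContinuousOn (fun x => Fs P G (S x) (I x) u) D)
    (hPP : ∀ y, ContinuousOn (fun x => PP P G (S x) (I x) C l y) D)
    (hlam : ∀ t, ContinuousOn (fun x => lam x t) D) :
    ContinuousOn (fun x => objP P G (S x) (I x) C l (lam x)) D := by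
  unfold objP
  exact continuousOn_finsetSum _ fun y _ => (hPP y).mul (upsP_cont P G S I hW hm hF hPP hlam y)

/-- The measure of a cell is continuous. -/
theorem MA_cont {T C : Finset (Fin P.N)} {l : Ce P V} {lam : X → V → ℝ}
    (hm : ∀ t u, ContinuousOn (fun x => (S x).m C t u) D)
    (hPA : ∀ y, ContinuousOn (fun x => PA P G (S x) (I x) T l y) D)
    (hq : ∀ t, ContinuousOn (fun x => (I x).q T C l t) D)
    (hmu : ∀ t, ContinuousOn (fun x => (I x).mu T C l t) D)
    (hlam : ∀ t, ContinuousOn (fun x => lam x t) D) (u : V) :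
    ContinuousOn (fun x => MA P G (S x) (I x) T C l (lam x) u) D := by
  unfold MA RA
  exact (continuousOn_const.mul (continuousOn_const.mul (continuousOn_finsetSum _
    fun t _ => (hq t).mul (hm t u)))).add ((((continuousOn_const.mul (hmu u)).add
      continuousOn_const).add (hlam u)).add ((hPA u).div_const _))

theorem upsA_cont (hW : ∀ x ∈ D, (I x).W = W) {T C : Finset (Fin P.N)} {l : Ce P V}
    {lam : X → V → ℝ} (hm : ∀ t u, ContinuousOn (fun x => (S x).m C t u) D)
    (hF : ∀ u, ContinuousOn (fun x => Fs P G (S x) (I x) u) D)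
    (hPA : ∀ y, ContinuousOn (fun x => PA P G (S x) (I x) T l y) D)
    (hq : ∀ t, ContinuousOn (fun x => (I x).q T C l t) D)
    (hmu : ∀ t, ContinuousOn (fun x => (I x).mu T C l t) D)
    (hlam : ∀ t, ContinuousOn (fun x => lam x t) D) (y : V) :
    ContinuousOn (fun x => upsA P G (S x) (I x) T C l (lam x) y) D := by
  have h1 := fun u => continuousOn_cm G (MA_cont P G S I hm hPA hq hmu hlam) u
  unfold upsA
  refine ContinuousOn.congr (f := fun x => vioC G P.M (P.h - C.card - 1) y
      (fun u => cm G (MA P G (S x) (I x) T C l (lam x)) u +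
        P.Z'' C.card * Fs P G (S x) (I x) u) W) ?_ ?_
  · exact continuousOn_vioC fun u => (h1 u).add (continuousOn_const.mul (hF u))
  · intro x hx
    simp only [hW x hx]

/-- The objective of the own step of a cell is continuous. -/
theorem objA_cont (hW : ∀ x ∈ D, (I x).W = W) {T C : Finset (Fin P.N)} {l : Ce P V}
    {lam : X → V → ℝ} (hm : ∀ t u, ContinuousOn (fun x => (S x).m C t u) D)
    (hF : ∀ u, ContinuousOn (fun x => Fs P G (S x) (I x) u) D)
    (hPA : ∀ y, ContinuousOn (fun x => PA P G (S x) (I x) T l y) D)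
    (hq : ∀ t, ContinuousOn (fun x => (I x).q T C l t) D)
    (hmu : ∀ t, ContinuousOn (fun x => (I x).mu T C l t) D)
    (hlam : ∀ t, ContinuousOn (fun x => lam x t) D) :
    ContinuousOn (fun x => objA P G (S x) (I x) T C l (lam x)) D := by
  unfold objA
  exact continuousOn_finsetSum _ fun y _ =>
    (hPA y).mul (upsA_cont P G S I hW hm hF hPA hq hmu hlam y)

end cont

end CvxC_

open CvxC_

/-! ### The pay-offs in the form of the game -/

section game

variable {Θ : Type} [TopologicalSpace Θ] {D : Set Θ} {V : Type} [Fintype V] (P : Cn)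
  (G : SimpleGraph V) (S : Θ → Sta P V) (I : Θ → Inp P V) {W : Finset V}

/-- A continuous function of the parameter on the product. -/
theorem CvxC_.cont_fst {E : Type*} [TopologicalSpace E] {K : Set E} {f : Θ → ℝ}
    (hf : ContinuousOn f D) : ContinuousOn (fun p : Θ × E => f p.1) (D ×ˢ K) :=
  hf.comp continuousOn_fst fun _ hp => hp.1

/-- The pay-off of the service is concave. -/
theorem pay_sv_concave (S : Sta P V) (I : Inp P V) (T C : Finset (Fin P.N)) (l : Ce P V)
    {K : Set (V ⊕ V → ℝ)} (hK : Convex ℝ K) :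
    ConcaveOn ℝ K fun y : V ⊕ V → ℝ =>
      -Rv P G S I T C l (fun u => y (.inl u)) (fun u => y (.inr u)) :=
  (Rv_convexOn P G S I T C l hK _ _ (fun a b _ _ _ y y' u => by simp)
    (fun a b _ _ _ y y' u => by simp)).neg

/-- The pay-off of the own step of the hub mode is concave. -/
theorem pay_lp_concave (S : Sta P V) (I : Inp P V) (C : Finset (Fin P.N)) (l : Ml P V)
    (hPP : ∀ x, 0 ≤ PP P G S I C l x) {K : Set (V → ℝ)} (hK : Convex ℝ K) :
    ConcaveOn ℝ K fun lam : V → ℝ => -objP P G S I C l lam :=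
  (objP_convexOn P G S I C l hPP hK _ (fun a b _ _ _ y y' u => by simp)).neg

/-- The pay-off of the own step of a cell is concave. -/
theorem pay_la_concave (S : Sta P V) (I : Inp P V) (T C : Finset (Fin P.N)) (l : Ce P V)
    (hPA : ∀ x, 0 ≤ PA P G S I T l x) {K : Set (V → ℝ)} (hK : Convex ℝ K) :
    ConcaveOn ℝ K fun lam : V → ℝ => -objA P G S I T C l lam :=
  (objA_convexOn P G S I T C l hPA hK _ (fun a b _ _ _ y y' u => by simp)).neg

/-- The pay-off of the service is jointly continuous. -/
theorem pay_sv_cont (hW : ∀ x ∈ D, (I x).W = W) {T C : Finset (Fin P.N)} {l : Ce P V}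
    (hm : ∀ t u, ContinuousOn (fun x => (S x).m C t u) D)
    (hF : ∀ u, ContinuousOn (fun x => Fs P G (S x) (I x) u) D)
    (hPA : ∀ y, ContinuousOn (fun x => PA P G (S x) (I x) T l y) D)
    (hh : ∀ t, ContinuousOn (fun x => hcost P G (S x) (I x) C l t) D) (K : Set (V ⊕ V → ℝ)) :
    ContinuousOn (fun p : Θ × (V ⊕ V → ℝ) => -Rv P G (S p.1) (I p.1) T C l
      (fun u => p.2 (.inl u)) (fun u => p.2 (.inr u))) (D ×ˢ K) :=
  (Rv_cont P G (fun p : Θ × (V ⊕ V → ℝ) => S p.1) (fun p => I p.1) (fun p hp => hW _ hp.1)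
    (fun t u => cont_fst (hm t u)) (fun u => cont_fst (hF u)) (fun y => cont_fst (hPA y))
    (fun t => cont_fst (hh t)) (fun t => by fun_prop) (fun t => by fun_prop)).neg

/-- The pay-off of the own step of the hub mode is jointly continuous. -/
theorem pay_lp_cont (hW : ∀ x ∈ D, (I x).W = W) {C : Finset (Fin P.N)} {l : Ml P V}
    (hm : ∀ t u, ContinuousOn (fun x => (S x).m C t u) D)
    (hF : ∀ u, ContinuousOn (fun x => Fs P G (S x) (I x) u) D)
    (hPP : ∀ y, ContinuousOn (fun x => PP P G (S x) (I x) C l y) D) (K : Set (V → ℝ)) :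
    ContinuousOn (fun p : Θ × (V → ℝ) => -objP P G (S p.1) (I p.1) C l p.2) (D ×ˢ K) :=
  (objP_cont P G (fun p : Θ × (V → ℝ) => S p.1) (fun p => I p.1) (fun p hp => hW _ hp.1)
    (fun t u => cont_fst (hm t u)) (fun u => cont_fst (hF u)) (fun y => cont_fst (hPP y))
    (fun t => by fun_prop)).neg

/-- The pay-off of the own step of a cell is jointly continuous. -/
theorem pay_la_cont (hW : ∀ x ∈ D, (I x).W = W) {T C : Finset (Fin P.N)} {l : Ce P V}
    (hm : ∀ t u, ContinuousOn (fun x => (S x).m C t u) D)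
    (hF : ∀ u, ContinuousOn (fun x => Fs P G (S x) (I x) u) D)
    (hPA : ∀ y, ContinuousOn (fun x => PA P G (S x) (I x) T l y) D)
    (hq : ∀ t, ContinuousOn (fun x => (I x).q T C l t) D)
    (hmu : ∀ t, ContinuousOn (fun x => (I x).mu T C l t) D) (K : Set (V → ℝ)) :
    ContinuousOn (fun p : Θ × (V → ℝ) => -objA P G (S p.1) (I p.1) T C l p.2) (D ×ˢ K) :=
  (objA_cont P G (fun p : Θ × (V → ℝ) => S p.1) (fun p => I p.1) (fun p hp => hW _ hp.1)
    (fun t u => cont_fst (hm t u)) (fun u => cont_fst (hF u)) (fun y => cont_fst (hPA y))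
    (fun t => cont_fst (hq t)) (fun t => cont_fst (hmu t)) (fun t => by fun_prop)).neg

end game

end Pool.Agent.Lib.GSX
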