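import Pool.Agent.Lib.GSX.EqI
import Pool.Agent.Lib.GSI.RedF

/-!
# The set `X_EQ` of a record is colourable
-/

set_option autoImplicit false

namespace Pool.Agent.Lib.GSX

open Finset Classical
open Pool.Agent.Lib.GSI (Wd Win)
open Pool.Agent.Lib.TCW (ColG)
open RecP_

/-- The set `X_EQ` of every record is colourable with the number of colours of the windows. -/
theorem xEqR_col {D : Wd} {m R : ℕ} {P : Cn} {V : Type} [Fintype V] {G : SimpleGraph V}
    (hW : Win D m R G) {K0 ε : ℝ} (hK0 : 0 < K0) (hε : 0 < ε) (K1 g L : ℝ) (I : Inp P V)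
    (hn : ∀ x, 0 ≤ I.n2 x) : ColG G (XEqR P G I K0 K1 ε (D.δE K0 ε) g L) (D.CE K0 ε K1) := by
  have hw : ∀ x, 0 ≤ I.n2 x / al P G I x := fun x => div_nonneg (hn x) (al_pos x).le
  refine (hW.e K0 ε K1 hK0 hε g L I.W (hs P G I) (fun y => I.n2 y / al P G I y)
    (fun y => I.n2 y / al P G I y) hw hw).mono ?_ le_rfl
  rintro v ⟨J, hJ⟩
  exact ⟨J, hJ.eqInc⟩

end Pool.Agent.Lib.GSX
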