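import Pool.Agent.Lib.TCW.EqT
import Pool.Agent.Lib.GSLE.Thin
import Pool.Agent.Lib.GSX.RecP

/-!
# Windows of equal heights: the instance for the record

`eq_static`: in the form of `GSLE.Thin` (`Lvl`, `EqM`), on raw data.
`eqI`: for the scale and the law `n2` of a record.
-/

set_option autoImplicit false

namespace Pool.Agent.Lib.GSX

open Finset Classical
open Pool.Agent.Lib.GSR3 (Tree)
open Pool.Agent.Lib.FGF (Frac)
open Pool.Agent.Lib.GSLE (Lvl EqM)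
open Pool.Agent.Lib.TCW (XEq)
open RecP_

namespace EqI_

theorem logb_near {a b Γ : ℝ} {g : ℕ} (ha : 0 < a) (hb : 0 < b) (hΓ : Γ ≤ 2 ^ g)
    (h1 : b ≤ Γ * a) (h2 : a ≤ Γ * b) : |Real.logb 2 b - Real.logb 2 a| ≤ g := by
  have h3 : b ≤ 2 ^ g * a := h1.trans (mul_le_mul_of_nonneg_right hΓ ha.le)
  have h4 : a ≤ 2 ^ g * b := h2.trans (mul_le_mul_of_nonneg_right hΓ hb.le)
  have h5 : ∀ u v : ℝ, 0 < u → 0 < v → u ≤ 2 ^ g * v → Real.logb 2 u ≤ g + Real.logb 2 v := by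
    intro u v hu hv huv
    have h6 := Real.logb_le_logb_of_le (b := 2) (by norm_num) hu huv
    rw [Real.logb_mul (by positivity) hv.ne', Real.logb_pow, Real.logb_self_eq_one (by norm_num),
      mul_one] at h6
    exact h6
  rw [abs_le]
  constructor
  · have := h5 a b ha hb h4
    linarith
  · have := h5 b a hb ha h3
    linarith

/-- The levels of the scale lie in windows of `Lvl`. -/
theorem level_window {a : ℝ} (ha : 0 < a) {j : ℤ} (h : ⌊Real.logb 2 a⌋ = j) :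
    (2 : ℝ) ^ j ≤ a ∧ a ≤ 2 * 2 ^ j := by
  rw [← h]
  exact ⟨TCW.EqF_.floor_pow_le ha, (TCW.EqF_.lt_floor_pow ha).le⟩

end EqI_

open EqI_

/-- The share in the window of equal heights, on raw data. -/
theorem eq_static (M d g : ℕ) (F C v τ : ℝ) (hM : 1 ≤ M) (hF : 1 ≤ F) (hC : 0 < C) (hv : 0 < v)
    (hτ : 0 < τ) : ∃ ε : ℝ, 0 < ε ∧
    ∀ (V : Type) [Fintype V] (G : SimpleGraph V) (W : Finset V) (n a : V → ℝ) (δ' L' Γ : ℝ),
      Frac G F → (∀ φ : List (Fin M) → V, ¬ Tree G d M φ) →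
      (∀ x, 0 ≤ n x) → (∀ x, 0 < a x) → ∑ x, n x ≤ 1 → 0 < δ' → 0 ≤ L' → Γ ≤ 2 ^ g →
      (∀ x, n x ≠ 0 → x ∈ W) → (∀ z ∈ W, Lvl G n a C z) →
      (∀ x, n x ≠ 0 → x ∉ XEq G ((2 * (g + 1) + 2) * C + 1)
        ((2 * (L' + 6 * (g + 1) + 1) + 2) * C + 1) ε ((6 * (g + 1) + 3) * δ') (g + 1)
        (L' + 3 * (g + 1) + 1) W (fun y => Real.logb 2 (a y)) (fun y => n y / a y)) →
      ∑ x with v ≤ EqM G n a Γ x, n x ≤ τ +
        ∑ x with ¬ (∀ j : ℤ, L' ≤ |(j : ℝ) - Real.logb 2 (a x)| →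
          ∑ y with G.Adj y x ∧ ⌊Real.logb 2 (a y)⌋ = j, n y / a y ≤ δ'), n x := by
  obtain ⟨ε, hε, hS⟩ := TCW.stEqThin M d g F C v τ hM hF hC hv hτ
  refine ⟨ε, hε, ?_⟩
  intro V _ G W n a δ' L' Γ hFr hT hn ha hn1 hδ' hL' hΓ hsupp hlev hX
  have hw0 : ∀ y, 0 ≤ n y / a y := fun y => div_nonneg (hn y) (ha y).le
  have h1 := hS V G W n a δ' L' hFr hT hn ha
    ((Finset.sum_le_sum_of_subset_of_nonneg (Finset.subset_univ W) fun x _ _ => hn x).trans hn1)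
    hδ' hL' (by
      intro x hx j
      refine le_trans (Finset.sum_le_sum_of_subset_of_nonneg ?_ fun y _ _ => hw0 y)
        (hlev x hx ((2 : ℝ) ^ j) (by positivity))
      intro y hy
      rw [Finset.mem_filter] at hy ⊢
      exact ⟨Finset.mem_univ y, hy.2.1.symm, level_window (ha y) hy.2.2⟩)
  set Far : V → Prop := fun x => ∀ j : ℤ, L' ≤ |(j : ℝ) - Real.logb 2 (a x)| →
    ∑ y with G.Adj y x ∧ ⌊Real.logb 2 (a y)⌋ = j, n y / a y ≤ δ' with hFar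
  have h2 : ∑ x with v ≤ EqM G n a Γ x, n x ≤
      ∑ x with v ≤ EqM G n a Γ x ∧ Far x, n x + ∑ x with ¬ Far x, n x := by
    have h3 : (Finset.univ.filter fun x => v ≤ EqM G n a Γ x) ⊆
        (Finset.univ.filter fun x => v ≤ EqM G n a Γ x ∧ Far x) ∪
          Finset.univ.filter fun x => ¬ Far x := by
      intro x hx
      rw [Finset.mem_filter] at hx
      rw [Finset.mem_union, Finset.mem_filter, Finset.mem_filter]
      by_cases h : Far x
      · exact Or.inl ⟨hx.1, hx.2, h⟩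
      · exact Or.inr ⟨hx.1, h⟩
    refine (Finset.sum_le_sum_of_subset_of_nonneg h3 fun x _ _ => hn x).trans ?_
    rw [← Finset.sum_union_inter]
    have : 0 ≤ ∑ x ∈ (Finset.univ.filter fun x => v ≤ EqM G n a Γ x ∧ Far x) ∩
        (Finset.univ.filter fun x => ¬ Far x), n x := Finset.sum_nonneg fun x _ => hn x
    linarith
  refine h2.trans (add_le_add_left (le_trans ?_ h1) _)
  -- the nodes of the law are in the world
  rw [← Finset.sum_filter_ne_zero (s := Finset.univ.filter fun x => v ≤ EqM G n a Γ x ∧ Far x)]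
  refine Finset.sum_le_sum_of_subset_of_nonneg ?_ fun x _ _ => hn x
  intro x hx
  rw [Finset.mem_filter, Finset.mem_filter] at hx
  obtain ⟨⟨-, hx1, hx2⟩, hx0⟩ := hx
  rw [Finset.mem_filter]
  refine ⟨hsupp x hx0, ?_, ?_, hX x hx0⟩
  · refine hx1.trans ?_
    unfold EqM
    rw [← Finset.sum_filter_ne_zero (s := Finset.univ.filter fun y =>
      G.Adj x y ∧ a x ≤ Γ * a y ∧ a y ≤ Γ * a x)]
    refine Finset.sum_le_sum_of_subset_of_nonneg ?_ fun y _ _ => hw0 y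
    intro y hy
    rw [Finset.mem_filter, Finset.mem_filter] at hy
    obtain ⟨⟨-, hy1, hy2, hy3⟩, hy0⟩ := hy
    rw [Finset.mem_filter]
    refine ⟨hsupp y (fun h => hy0 (by rw [h, zero_div])), hy1, ?_⟩
    exact logb_near (ha y) (ha x) hΓ hy2 hy3
  · intro j hj
    refine le_trans (Finset.sum_le_sum_of_subset_of_nonneg ?_ fun y _ _ => hw0 y) (hx2 j hj)
    intro y hy
    rw [Finset.mem_filter] at hy ⊢
    exact ⟨Finset.mem_univ y, hy.2⟩

/-- The set `X_EQ` of the record. -/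
def XEqR (P : Cn) {V : Type} [Fintype V] (G : SimpleGraph V) (I : Inp P V)
    (K0 K1 ε δ g L : ℝ) : Set V :=
  XEq G K0 K1 ε δ g L I.W (hs P G I) (fun y => I.n2 y / al P G I y)

/-- The share in the window of equal heights, for a record. -/
theorem eqI (M d g : ℕ) (F C v τ : ℝ) (hM : 1 ≤ M) (hF : 1 ≤ F) (hC : 0 < C) (hv : 0 < v)
    (hτ : 0 < τ) : ∃ ε : ℝ, 0 < ε ∧
    ∀ (P : Cn) (V : Type) [Fintype V] (G : SimpleGraph V) (I : Inp P V) (δ' L' Γ : ℝ),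
      Frac G F → (∀ φ : List (Fin M) → V, ¬ Tree G d M φ) →
      (∀ x, 0 ≤ I.n2 x) → ∑ x, I.n2 x ≤ 1 → 0 < δ' → 0 ≤ L' → Γ ≤ 2 ^ g →
      (∀ x, I.n2 x ≠ 0 → x ∈ I.W) → (∀ z ∈ I.W, Lvl G I.n2 (al P G I) C z) →
      (∀ x, I.n2 x ≠ 0 → x ∉ XEqR P G I ((2 * (g + 1) + 2) * C + 1)
        ((2 * (L' + 6 * (g + 1) + 1) + 2) * C + 1) ε ((6 * (g + 1) + 3) * δ') (g + 1)
        (L' + 3 * (g + 1) + 1)) →
      ∑ x with v ≤ EqM G I.n2 (al P G I) Γ x, I.n2 x ≤ τ +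
        ∑ x with ¬ (∀ j : ℤ, L' ≤ |(j : ℝ) - Real.logb 2 (al P G I x)| →
          ∑ y with G.Adj y x ∧ ⌊Real.logb 2 (al P G I y)⌋ = j, I.n2 y / al P G I y ≤ δ'),
          I.n2 x := by
  obtain ⟨ε, hε, hS⟩ := eq_static M d g F C v τ hM hF hC hv hτ
  refine ⟨ε, hε, ?_⟩
  intro P V _ G I δ' L' Γ hFr hT hn hn1 hδ' hL' hΓ hsupp hlev hX
  exact hS V G I.W I.n2 (al P G I) δ' L' Γ hFr hT hn (fun x => RecP_.al_pos x) hn1 hδ' hL' hΓ hsupp
    hlev hX

/-- Openness of `X_EQ` of a record which depends continuously on a parameter. -/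
theorem isOpen_xEqR {Θ : Type} [TopologicalSpace Θ] (P : Cn) {V : Type} [Fintype V]
    (G : SimpleGraph V) (W : Finset V) (I : Θ → Inp P V) (hW : ∀ θ, (I θ).W = W)
    (K0 K1 ε δ g L : ℝ)
    (hal : ∀ y, Continuous fun θ => al P G (I θ) y) (hn : ∀ y, Continuous fun θ => (I θ).n2 y)
    (hn0 : ∀ θ y, 0 ≤ (I θ).n2 y) (v : V) :
    IsOpen {θ | v ∈ XEqR P G (I θ) K0 K1 ε δ g L} := by
  have h1 := TCW.isOpen_xEq G K0 K1 ε δ g L W (fun θ => hs P G (I θ))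
    (fun θ y => (I θ).n2 y / al P G (I θ) y) (fun y => by
      unfold hs
      exact (hal y).logb (fun θ => (RecP_.al_pos y).ne'))
    (fun y _ => (hn y).div (hal y) fun θ => (RecP_.al_pos y).ne')
    (fun θ y _ => div_nonneg (hn0 θ y) (RecP_.al_pos y).le) v
  have h2 : {θ | v ∈ XEqR P G (I θ) K0 K1 ε δ g L} =
      {θ | v ∈ XEq G K0 K1 ε δ g L W (hs P G (I θ)) (fun y => (I θ).n2 y / al P G (I θ) y)} := by
    ext θ
    simp only [Set.mem_ofPred_eq]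
    unfold XEqR
    rw [hW θ]
  rw [h2]
  exact h1

end Pool.Agent.Lib.GSX
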