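import Pool.Agent.Lib.GSR.HZB

/-!
# Grouped sides, exact tests, and the supports of the conditional laws

The bits of a step are grouped: the bit `j` belongs to a function `g s j` which is evaluated at the
half prefix with the first `st j ≤ j` bits.  Bit `true` means `0 ≤ g` on the next world, bit
`false` means `g ≤ 0`.  A small set `X s i` is evaluated at the half prefix with the first `sx i`
bits.
-/

set_option autoImplicit false

namespace Pool.Agent.Lib.GSX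

open Finset Classical
open Pool.Agent.Lib.GSR Pool.Agent.Lib.GSR.HZ Pool.Agent.Lib.GSR.HZB

section defs

variable {V : Type} {N nb : ℕ} {Θ : Type}

/-- The side `0 ≤ g`. -/
def Sides_.sdP (st : Fin nb → ℕ) (g : ℕ → Fin nb → Hi V N nb → V → Θ → ℝ) (s : ℕ) (j : Fin nb)
    (p : Hi V N nb) (v : V) (θ : Θ) : Prop := 0 ≤ g s j (hp s (st j) p) v θ

/-- The side `g ≤ 0`. -/
def Sides_.sdR (st : Fin nb → ℕ) (g : ℕ → Fin nb → Hi V N nb → V → Θ → ℝ) (s : ℕ) (j : Fin nb)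
    (p : Hi V N nb) (v : V) (θ : Θ) : Prop := g s j (hp s (st j) p) v θ ≤ 0

/-- The tests with grouped sides. -/
def mkTs {I : Type} (b : ℕ → ℕ) (Nx : ℕ → Hi V N nb → Finset V) (sx : I → ℕ)
    (X : ℕ → I → Hi V N nb → V → Θ → Prop) (st : Fin nb → ℕ)
    (g : ℕ → Fin nb → Hi V N nb → V → Θ → ℝ) : Ts V N nb I Θ where
  b := b
  Nx := Nx
  X s i p v θ := X s i (hp s (sx i) p) v θ
  P := Sides_.sdP st g
  R := Sides_.sdR st g

lemma sd_cover (st : Fin nb → ℕ) (g : ℕ → Fin nb → Hi V N nb → V → Θ → ℝ) (s : ℕ) (j : Fin nb)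
    (p : Hi V N nb) (v : V) (θ : Θ) : Sides_.sdP st g s j p v θ ∨ Sides_.sdR st g s j p v θ :=
  le_total _ _

lemma isClosed_sdP [TopologicalSpace Θ] {D : Set Θ} (hD : IsClosed D) (st : Fin nb → ℕ)
    (g : ℕ → Fin nb → Hi V N nb → V → Θ → ℝ) (s : ℕ) (j : Fin nb) (p : Hi V N nb) (v : V)
    (hg : ContinuousOn (fun θ => g s j (hp s (st j) p) v θ) D) :
    IsClosed {θ | θ ∈ D ∧ Sides_.sdP st g s j p v θ} :=
  hg.preimage_isClosed_of_isClosed hD isClosed_Ici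

lemma isClosed_sdR [TopologicalSpace Θ] {D : Set Θ} (hD : IsClosed D) (st : Fin nb → ℕ)
    (g : ℕ → Fin nb → Hi V N nb → V → Θ → ℝ) (s : ℕ) (j : Fin nb) (p : Hi V N nb) (v : V)
    (hg : ContinuousOn (fun θ => g s j (hp s (st j) p) v θ) D) :
    IsClosed {θ | θ ∈ D ∧ Sides_.sdR st g s j p v θ} :=
  hg.preimage_isClosed_of_isClosed hD isClosed_Iic

/-- The sides on a history. -/
lemma mkTs_sd [Fintype V] {I : Type} {b : ℕ → ℕ} {Nx : ℕ → Hi V N nb → Finset V} {sx : I → ℕ}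
    {X : ℕ → I → Hi V N nb → V → Θ → Prop} {st : Fin nb → ℕ}
    {g : ℕ → Fin nb → Hi V N nb → V → Θ → ℝ} (hst : ∀ j, st j ≤ j.1) {θ : Θ} {s : ℕ}
    {c : Hi V N nb} (h : (mkTs b Nx sx X st g).Sd θ s c) {v : V} (hv : v ∈ wo c (s + 1))
    (j : Fin nb) :
    (bt c s j = true → 0 ≤ g s j (hp s (st j) c) v θ) ∧
      (bt c s j = false → g s j (hp s (st j) c) v θ ≤ 0) := by
  have h1 := h j v hv
  have h2 : hp s (st j) (hp s j.1 c) = hp s (st j) c := hp_hp (Or.inr ⟨rfl, hst j⟩) c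
  refine ⟨fun h3 => ?_, fun h3 => ?_⟩
  · have h4 : 0 ≤ g s j (hp s (st j) (hp s j.1 c)) v θ := h1.1 h3
    rwa [h2] at h4
  · have h4 : g s j (hp s (st j) (hp s j.1 c)) v θ ≤ 0 := h1.2 h3
    rwa [h2] at h4

end defs

/-! ### The mass of a half prefix -/

section mass

variable {V : Type} [Fintype V] {N nb : ℕ} {ι : Type} {Y : ι → Type} {I : Type}
  {col : Finset V → ℕ → Prop} {T : Ts V N nb I (Th V N nb Y)} {Q : Hi V N nb × V → ℝ}
  {θ : Th V N nb Y}

/-- If all the nodes of the histories through the half prefix `hp s k' c` lie in `S` then `S` has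
mass at least `c0` for the law of the node given the shorter half prefix `hp s k c`. -/
theorem mass_from (h : Eqm col T Q θ) {c : Hi V N nb} (hc : qc Q c ≠ 0) {c0 : ℝ}
    (hT : Typ Q c0 c) (hc0 : 0 ≤ c0) {s : ℕ} (hs : s < N) {k k' : ℕ} (hkk : k ≤ k')
    (hk : k' ≤ nb) (S : Finset V)
    (hS : ∀ c' x, hp s k' c' = hp s k' c → Q (c', x) ≠ 0 → x ∈ S) :
    c0 ≤ ∑ x ∈ S, nh θ s k (hp s k c) x := by
  have h1 : mh Q s k' (hp s k' c) ≤ mh Q s k (hp s k c) * ∑ x ∈ S, nh θ s k (hp s k c) x := by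
    rw [← sum_nn, Finset.mul_sum, ← Finset.sum_subset (Finset.subset_univ S)]
    · refine Finset.sum_le_sum fun x _ => ?_
      rw [h.nq s hs.le k (hkk.trans hk)]
      exact nn_anti h.Q0 (Or.inr ⟨rfl, hkk⟩) c x
    · intro x _ hx
      by_contra h2
      obtain ⟨c', hc', h3⟩ := nn_supp h2
      exact hx (hS c' x hc' h3)
  have h2 : c0 * mh Q s k (hp s k c) ≤ mh Q s k' (hp s k' c) :=
    calc c0 * mh Q s k (hp s k c) ≤ c0 * mh Q s 0 (hp s 0 c) :=
          mul_le_mul_of_nonneg_left (mh_anti h.Q0 (Or.inr ⟨rfl, Nat.zero_le _⟩) c) hc0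
      _ ≤ mh Q s nb (hp s nb c) := hT s hs
      _ ≤ _ := mh_anti h.Q0 (Or.inr ⟨rfl, hk⟩) c
  have h3 := h.mh_pos hc s k
  rw [mul_comm] at h2
  exact le_of_mul_le_mul_left (h2.trans h1) h3

/-- A node through the half prefix `hp s k' c` outside of a set of small mass. -/
theorem exists_node (h : Eqm col T Q θ) {c : Hi V N nb} (hc : qc Q c ≠ 0) {c0 : ℝ}
    (hT : Typ Q c0 c) (hc0 : 0 ≤ c0) {s : ℕ} (hs : s < N) {k k' : ℕ} (hkk : k ≤ k')
    (hk : k' ≤ nb) (S : Finset V) (hS : ∑ x ∈ S, nh θ s k (hp s k c) x < c0) :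
    ∃ c' x, hp s k' c' = hp s k' c ∧ Q (c', x) ≠ 0 ∧ x ∉ S := by
  by_contra hcon
  push Not at hcon
  exact absurd hS (not_lt.2 (mass_from h hc hT hc0 hs hkk hk S hcon))

/-- Comparison of the laws of the same step. -/
theorem nh_bits (h : Eqm col T Q θ) {c : Hi V N nb} (hc : qc Q c ≠ 0) {c0 : ℝ} (hc0 : 0 < c0)
    (hT : Typ Q c0 c) {s : ℕ} (hs : s < N) {j k : ℕ} (hjk : j ≤ k) (hk : k ≤ nb) (x : V) :
    nh θ s k (hp s k c) x ≤ nh θ s j (hp s j c) x / c0 := by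
  rw [le_div_iff₀ hc0, mul_comm]
  exact h.nh_le_bits hc hc0.le hT hs hjk hk x

/-- The nodes in the support of a conditional law: the history. -/
theorem supp_node (h : Eqm col T Q θ) {c : Hi V N nb} (hc : qc Q c ≠ 0) {s : ℕ} (hs : s < N)
    {k : ℕ} (hk : k ≤ nb) {x : V} (hx : nh θ s k (hp s k c) x ≠ 0) :
    ∃ c', hp s k c' = hp s k c ∧ Q (c', x) ≠ 0 ∧ qc Q c' ≠ 0 ∧ x ∈ wo c' (s + 1) := by
  obtain ⟨c', h1, h2⟩ := h.nh_supp hs.le hk (h.mh_pos hc s k).ne' hx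
  exact ⟨c', h1, h2, h.qc_ne h2, h.mem_wo h2 (by omega)⟩

/-- The nodes in the support lie in the world. -/
theorem supp_wo (h : Eqm col T Q θ) {c : Hi V N nb} (hc : qc Q c ≠ 0) {s : ℕ} (hs : s ≤ N)
    {k : ℕ} (hk : k ≤ nb) {x : V} (hx : nh θ s k (hp s k c) x ≠ 0) : x ∈ wo c s := by
  have h1 := h.nh_supp_wo hs hk (h.mh_pos hc s k).ne' hx
  rwa [wo_hp k le_rfl] at h1

/-- The nodes in the support lie in the set where the next world is taken. -/
theorem supp_nx (h : Eqm col T Q θ) {c : Hi V N nb} (hc : qc Q c ≠ 0) {s : ℕ} (hs : s < N)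
    {k : ℕ} (hk : k ≤ nb) {x : V} (hx : nh θ s k (hp s k c) x ≠ 0) :
    x ∈ T.Nx s (pf s c) := by
  obtain ⟨c', h1, -, h3, h4⟩ := supp_node h hc hs hk hx
  have h5 := (h.ok' h3 hs).1 h4
  have h6 : pf s c' = pf s c := by
    rw [← hp_zero, ← hp_zero]
    exact hp_mono (Or.inr ⟨rfl, Nat.zero_le _⟩) h1
  rwa [h6] at h5

/-- The world lies in the set where the next world is taken. -/
theorem wo_nx (h : Eqm col T Q θ) {c : Hi V N nb} (hc : qc Q c ≠ 0) {s : ℕ} (hs : s < N) :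
    wo c (s + 1) ⊆ T.Nx s (pf s c) := (h.ok' hc hs).1

end mass

/-! ### Sides and exact tests -/

section sides

variable {V : Type} [Fintype V] {N nb : ℕ} {ι : Type} {Y : ι → Type} {I : Type}
  {col : Finset V → ℕ → Prop} {b : ℕ → ℕ} {Nx : ℕ → Hi V N nb → Finset V} {sx : I → ℕ}
  {X : ℕ → I → Hi V N nb → V → Th V N nb Y → Prop} {st : Fin nb → ℕ}
  {g : ℕ → Fin nb → Hi V N nb → V → Th V N nb Y → ℝ} {Q : Hi V N nb × V → ℝ} {θ : Th V N nb Y}

/-- Bit `true`: the function is nonnegative on the next world. -/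
theorem side_pos (h : Eqm col (mkTs b Nx sx X st g) Q θ) (hst : ∀ j, st j ≤ j.1) {c : Hi V N nb}
    (hc : qc Q c ≠ 0) {s : ℕ} (hs : s < N) {j : Fin nb} (hb : bt c s j = true) {v : V}
    (hv : v ∈ wo c (s + 1)) : 0 ≤ g s j (hp s (st j) c) v θ :=
  (mkTs_sd hst (h.ok' hc hs).2.2.1 hv j).1 hb

/-- Bit `false`: the function is nonpositive on the next world. -/
theorem side_neg (h : Eqm col (mkTs b Nx sx X st g) Q θ) (hst : ∀ j, st j ≤ j.1) {c : Hi V N nb}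
    (hc : qc Q c ≠ 0) {s : ℕ} (hs : s < N) {j : Fin nb} (hb : bt c s j = false) {v : V}
    (hv : v ∈ wo c (s + 1)) : g s j (hp s (st j) c) v θ ≤ 0 :=
  (mkTs_sd hst (h.ok' hc hs).2.2.1 hv j).2 hb

/-- The dichotomy. -/
theorem side_or (h : Eqm col (mkTs b Nx sx X st g) Q θ) (hst : ∀ j, st j ≤ j.1) {c : Hi V N nb}
    (hc : qc Q c ≠ 0) {s : ℕ} (hs : s < N) (j : Fin nb) :
    (bt c s j = true ∧ ∀ v ∈ wo c (s + 1), 0 ≤ g s j (hp s (st j) c) v θ) ∨
      (bt c s j = false ∧ ∀ v ∈ wo c (s + 1), g s j (hp s (st j) c) v θ ≤ 0) := by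
  cases hb : bt c s j
  · exact Or.inr ⟨rfl, fun v hv => side_neg h hst hc hs hb hv⟩
  · exact Or.inl ⟨rfl, fun v hv => side_pos h hst hc hs hb hv⟩

/-- The side of a bit at a node in the support of the law given a half prefix which contains this
bit. -/
theorem supp_pos (h : Eqm col (mkTs b Nx sx X st g) Q θ) (hst : ∀ j, st j ≤ j.1) {c : Hi V N nb}
    (hc : qc Q c ≠ 0) {s : ℕ} (hs : s < N) {j : Fin nb} {k : ℕ} (hjk : j.1 < k) (hk : k ≤ nb)
    {x : V} (hx : nh θ s k (hp s k c) x ≠ 0) (hb : bt c s j = true) :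
    0 ≤ g s j (hp s (st j) c) x θ := by
  obtain ⟨c', h1, -, h3, h4⟩ := supp_node h hc hs hk hx
  have h5 := side_pos h hst h3 hs ((bt_eq_of_hp h1 hjk).trans hb) h4
  rwa [hp_mono (Or.inr ⟨rfl, (hst j).trans hjk.le⟩) h1] at h5

/-- The same for the other side. -/
theorem supp_neg (h : Eqm col (mkTs b Nx sx X st g) Q θ) (hst : ∀ j, st j ≤ j.1) {c : Hi V N nb}
    (hc : qc Q c ≠ 0) {s : ℕ} (hs : s < N) {j : Fin nb} {k : ℕ} (hjk : j.1 < k) (hk : k ≤ nb)
    {x : V} (hx : nh θ s k (hp s k c) x ≠ 0) (hb : bt c s j = false) :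
    g s j (hp s (st j) c) x θ ≤ 0 := by
  obtain ⟨c', h1, -, h3, h4⟩ := supp_node h hc hs hk hx
  have h5 := side_neg h hst h3 hs ((bt_eq_of_hp h1 hjk).trans hb) h4
  rwa [hp_mono (Or.inr ⟨rfl, (hst j).trans hjk.le⟩) h1] at h5

/-- **Rare sides**: if `{0 ≤ g}` has small mass for the law at the beginning of the group, the bit
is `false`. -/
theorem rare_pos (h : Eqm col (mkTs b Nx sx X st g) Q θ) (hst : ∀ j, st j ≤ j.1) {c : Hi V N nb}
    (hc : qc Q c ≠ 0) {c0 : ℝ} (hT : Typ Q c0 c) (hc0 : 0 ≤ c0) {s : ℕ} (hs : s < N) (j : Fin nb)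
    {k : ℕ} (hkj : k ≤ j.1)
    (hP : ∑ x ∈ Finset.univ.filter (fun x => 0 ≤ g s j (hp s (st j) c) x θ),
      nh θ s k (hp s k c) x < c0) :
    bt c s j = false ∧ ∀ v ∈ wo c (s + 1), g s j (hp s (st j) c) v θ ≤ 0 := by
  have h1 : bt c s j = false := by
    by_contra hcon
    rw [Bool.not_eq_false] at hcon
    refine absurd hP (not_lt.2 (mass_from h hc hT hc0 hs (k' := j.1 + 1) (by omega) j.2 _
      fun c' x hc' hx => ?_))
    rw [Finset.mem_filter, ← hp_mono (Or.inr ⟨rfl, (hst j).trans (Nat.le_succ _)⟩) hc']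
    exact ⟨Finset.mem_univ _, side_pos h hst (h.qc_ne hx) hs
      ((bt_eq_of_hp hc' (Nat.lt_succ_self _)).trans hcon) (h.mem_wo hx (by omega))⟩
  exact ⟨h1, fun v hv => side_neg h hst hc hs h1 hv⟩

/-- The same for the other side. -/
theorem rare_neg (h : Eqm col (mkTs b Nx sx X st g) Q θ) (hst : ∀ j, st j ≤ j.1) {c : Hi V N nb}
    (hc : qc Q c ≠ 0) {c0 : ℝ} (hT : Typ Q c0 c) (hc0 : 0 ≤ c0) {s : ℕ} (hs : s < N) (j : Fin nb)
    {k : ℕ} (hkj : k ≤ j.1)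
    (hR : ∑ x ∈ Finset.univ.filter (fun x => g s j (hp s (st j) c) x θ ≤ 0),
      nh θ s k (hp s k c) x < c0) :
    bt c s j = true ∧ ∀ v ∈ wo c (s + 1), 0 ≤ g s j (hp s (st j) c) v θ := by
  have h1 : bt c s j = true := by
    by_contra hcon
    rw [Bool.not_eq_true] at hcon
    refine absurd hR (not_lt.2 (mass_from h hc hT hc0 hs (k' := j.1 + 1) (by omega) j.2 _
      fun c' x hc' hx => ?_))
    rw [Finset.mem_filter, ← hp_mono (Or.inr ⟨rfl, (hst j).trans (Nat.le_succ _)⟩) hc']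
    exact ⟨Finset.mem_univ _, side_neg h hst (h.qc_ne hx) hs
      ((bt_eq_of_hp hc' (Nat.lt_succ_self _)).trans hcon) (h.mem_wo hx (by omega))⟩
  exact ⟨h1, fun v hv => side_pos h hst hc hs h1 hv⟩

/-- **Rare families of sides**: if the vertices with `0 ≤ g s j` for all `j ∈ J` have small mass
then some bit of `J` is `false`. -/
theorem rare_all (h : Eqm col (mkTs b Nx sx X st g) Q θ) (hst : ∀ j, st j ≤ j.1) {c : Hi V N nb}
    (hc : qc Q c ≠ 0) {c0 : ℝ} (hT : Typ Q c0 c) (hc0 : 0 ≤ c0) {s : ℕ} (hs : s < N)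
    (J : Finset (Fin nb)) {k : ℕ} (hk : k ≤ nb)
    (hP : ∑ x ∈ Finset.univ.filter (fun x => ∀ j ∈ J, 0 ≤ g s j (hp s (st j) c) x θ),
      nh θ s k (hp s k c) x < c0) :
    ∃ j ∈ J, bt c s j = false := by
  by_contra hcon
  push Not at hcon
  refine absurd hP (not_lt.2 (mass_from h hc hT hc0 hs hk le_rfl _ fun c' x hc' hx => ?_))
  rw [Finset.mem_filter]
  refine ⟨Finset.mem_univ _, fun j hj => ?_⟩
  rw [← hp_mono (Or.inr ⟨rfl, (hst j).trans j.2.le⟩) hc']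
  have h1 : bt c s j = true := Bool.eq_true_of_not_eq_false (hcon j hj)
  exact side_pos h hst (h.qc_ne hx) hs ((bt_eq_of_hp hc' j.2).trans h1) (h.mem_wo hx (by omega))

/-- **Exact tests** on the next world. -/
theorem exact (h : Eqm col (mkTs b Nx sx X st g) Q θ) (hsx : ∀ i, sx i ≤ nb) {c : Hi V N nb}
    (hc : qc Q c ≠ 0) {s : ℕ} (hs : s < N) (i : I) {v : V} (hv : v ∈ wo c (s + 1)) :
    ¬ X s i (hp s (sx i) c) v θ := by
  have h1 : ¬ X s i (hp s (sx i) (hp s nb c)) v θ := (h.ok' hc hs).2.2.2 i v hv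
  rwa [hp_hp (Or.inr ⟨rfl, hsx i⟩)] at h1

/-- Exact tests at a node in the support of a conditional law. -/
theorem supp_exact (h : Eqm col (mkTs b Nx sx X st g) Q θ) (hsx : ∀ i, sx i ≤ nb)
    {c : Hi V N nb} (hc : qc Q c ≠ 0) {s : ℕ} (hs : s < N) {i : I} {k : ℕ} (hik : sx i ≤ k)
    (hk : k ≤ nb) {x : V} (hx : nh θ s k (hp s k c) x ≠ 0) : ¬ X s i (hp s (sx i) c) x θ := by
  obtain ⟨c', h1, -, h3, h4⟩ := supp_node h hc hs hk hx
  have h5 := exact h hsx h3 hs i h4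
  rwa [hp_mono (Or.inr ⟨rfl, hik⟩) h1] at h5

/-- Exact tests at a node of `Q`. -/
theorem exact_node (h : Eqm col (mkTs b Nx sx X st g) Q θ) (hsx : ∀ i, sx i ≤ nb)
    {c : Hi V N nb} {x : V} (hx : Q (c, x) ≠ 0) {s : ℕ} (hs : s < N) (i : I) :
    ¬ X s i (hp s (sx i) c) x θ :=
  exact h hsx (h.qc_ne hx) hs i (h.mem_wo hx (by omega))

/-- Sides at a node of `Q`. -/
theorem side_node (h : Eqm col (mkTs b Nx sx X st g) Q θ) (hst : ∀ j, st j ≤ j.1)
    {c : Hi V N nb} {x : V} (hx : Q (c, x) ≠ 0) {s : ℕ} (hs : s < N) (j : Fin nb) :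
    (bt c s j = true → 0 ≤ g s j (hp s (st j) c) x θ) ∧
      (bt c s j = false → g s j (hp s (st j) c) x θ ≤ 0) :=
  ⟨fun hb => side_pos h hst (h.qc_ne hx) hs hb (h.mem_wo hx (by omega)),
    fun hb => side_neg h hst (h.qc_ne hx) hs hb (h.mem_wo hx (by omega))⟩

/-- The sides and the exact tests of the earlier steps at a vertex of a later world. -/
theorem wo_of_lt (h : Eqm col (mkTs b Nx sx X st g) Q θ) {c : Hi V N nb} (hc : qc Q c ≠ 0)
    {s t : ℕ} (hst : s < t) (ht : t ≤ N) {v : V} (hv : v ∈ wo c t) : v ∈ wo c (s + 1) :=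
  h.wo_anti hc hst ht hv

/-- The worlds are not colourable with few colours. -/
theorem not_col (h : Eqm col (mkTs b Nx sx X st g) Q θ) {c : Hi V N nb} (hc : qc Q c ≠ 0)
    {s : ℕ} (hs : s < N) : ¬ col (wo c (s + 1)) (b (s + 1)) := (h.ok' hc hs).2.1

end sides

/-! ### The sizes of the worlds -/

/-- The colourability of the worlds: `bsz` for `r` more steps, `e` at the end; `C k` is the number
of the colours of a small set when `k` more steps follow. -/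
def bsz (K : ℕ) (C : ℕ → ℕ) (e : ℕ) : ℕ → ℕ
  | 0 => e
  | r + 1 => 1 + K * (C r + bsz K C e r)

/-- The sizes: `b s = 1 + 2 ^ nb * (card I * C s + b (s + 1))`. -/
def bs (nb cI : ℕ) (C : ℕ → ℕ) (e N : ℕ) (s : ℕ) : ℕ :=
  bsz (2 ^ nb) (fun r => cI * C (N - 1 - r)) e (N - s)

lemma bs_succ (nb cI : ℕ) (C : ℕ → ℕ) (e : ℕ) {N s : ℕ} (hs : s < N) :
    bs nb cI C e N s = 1 + 2 ^ nb * (cI * C s + bs nb cI C e N (s + 1)) := by
  have h1 : N - s = (N - (s + 1)) + 1 := by omega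
  unfold bs
  rw [h1]
  show 1 + 2 ^ nb * (cI * C (N - 1 - (N - (s + 1))) + _) = _
  rw [show N - 1 - (N - (s + 1)) = s by omega]

lemma bs_end (nb cI : ℕ) (C : ℕ → ℕ) (e N : ℕ) : bs nb cI C e N N = e := by
  unfold bs
  rw [Nat.sub_self]
  rfl

/-- The sizes only depend on the values of `C` below `N`. -/
lemma bs_congr (nb cI : ℕ) {C C' : ℕ → ℕ} (e : ℕ) {N : ℕ} (hC : ∀ s < N, C s = C' s) :
    ∀ s ≤ N, bs nb cI C e N s = bs nb cI C' e N s := by
  intro s hs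
  obtain ⟨r, hr⟩ : ∃ r, r = N - s := ⟨_, rfl⟩
  induction r generalizing s with
  | zero =>
    have h1 : s = N := by omega
    rw [h1, bs_end, bs_end]
  | succ r ih =>
    have h1 : s < N := by omega
    rw [bs_succ _ _ _ _ h1, bs_succ _ _ _ _ h1, hC s h1, ih (s + 1) (by omega) (by omega)]

/-- The step condition of `HZB.exists_eq` when `Nx` removes a set which is colourable with one
colour. -/
lemma bs_step {V : Type} {col : Finset V → ℕ → Prop} (hcol : ColS col) {nb cI : ℕ} {C : ℕ → ℕ}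
    {e N s : ℕ} (hs : s < N) {W W' : Finset V} (hW : ¬ col W (bs nb cI C e N s))
    (h1 : col (W \ W') 1) : ¬ col W' (2 ^ nb * (cI * C s + bs nb cI C e N (s + 1))) := by
  intro h2
  refine hW ?_
  rw [bs_succ _ _ _ _ hs]
  refine hcol.mono _ _ _ _ ?_ le_rfl (hcol.union _ _ _ _ h1 h2)
  intro v hv
  rw [Finset.mem_union, Finset.mem_sdiff]
  by_cases h3 : v ∈ W'
  · exact Or.inr h3
  · exact Or.inl ⟨hv, h3⟩

end Pool.Agent.Lib.GSX
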