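import Pool.Agent.Lib.GSX.Inst
import Pool.Agent.Lib.GSX.Sides

/-!
# The equilibrium for the records

The domains of the coordinates are compact, convex and not empty; the equilibrium exists for all
payoffs and grouped sides which are continuous.
-/

set_option autoImplicit false

namespace Pool.Agent.Lib.GSX

open Finset Classical
open Pool.Agent.Lib.GSR Pool.Agent.Lib.GSR.HZ Pool.Agent.Lib.GSR.HZB

namespace Eqx_

variable {V : Type} [Fintype V] {P : Cn}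

theorem isCompact_Ki : ∀ i : Ix P V, IsCompact (Ki P i)
  | .pi _ _ => isCompact_lawOn _
  | .sg _ _ _ _ => isCompact_lawOn _
  | .su _ _ _ _ _ => isCompact_Ms _ _
  | .sv _ _ _ _ _ => isCompact_QMs _ _ _
  | .lp _ _ _ _ => isCompact_Ms _ _
  | .la _ _ _ _ _ => isCompact_Ms _ _

theorem convex_Ki : ∀ i : Ix P V, Convex ℝ (Ki P i)
  | .pi _ _ => convex_lawOn _
  | .sg _ _ _ _ => convex_lawOn _
  | .su _ _ _ _ _ => convex_Ms _ _
  | .sv _ _ _ _ _ => convex_QMs _ _ _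
  | .lp _ _ _ _ => convex_Ms _ _
  | .la _ _ _ _ _ => convex_Ms _ _

theorem wn_nonempty [Nonempty V] (s : Fin P.N) (p : Hh P V) : (wn P s p).Nonempty :=
  nes_nonempty _

theorem nonempty_Ki [Nonempty V] (hLu : ∀ a, 0 ≤ P.Lu a) (hL : ∀ k, 0 ≤ P.Lam k)
    (hL' : ∀ k, 0 ≤ P.Lam' k) : ∀ i : Ix P V, (Ki P i).Nonempty
  | .pi s p => nonempty_lawOn ((wn_nonempty s p).product Finset.univ_nonempty)
  | .sg s p _ _ => nonempty_lawOn ((wn_nonempty s p).product Finset.univ_nonempty)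
  | .su _ _ a _ _ => nonempty_Ms (hLu a) _
  | .sv s p _ C _ => nonempty_QMs (wn_nonempty s p) (hL C.card) _
  | .lp _ _ C _ => nonempty_Ms (hL' C.card) _
  | .la _ _ _ C _ => nonempty_Ms (hL' C.card) _

end Eqx_

open Eqx_

/-- The domain of the parameters. -/
abbrev DomT (P : Cn) (V : Type) [Fintype V] : Set (Tht P V) := dom P.N (nb P) (Ki P)

/-- The equilibrium exists for continuous and concave payoffs and continuous grouped sides. -/
theorem exists_eqm {V : Type} [Fintype V] [Nonempty V] {P : Cn} {I : Type} [Fintype I]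
    {col : Finset V → ℕ → Prop} (hcol : ColS col) (hLu : ∀ a, 0 ≤ P.Lu a)
    (hL : ∀ k, 0 ≤ P.Lam k) (hL' : ∀ k, 0 ≤ P.Lam' k)
    -- the payoffs
    (f : ∀ i : Ix P V, Tht P V → (Yi P V i → ℝ) → ℝ)
    (hf : ∀ i, ContinuousOn (fun p : Tht P V × (Yi P V i → ℝ) => f i p.1 p.2)
      (DomT P V ×ˢ Ki P i))
    (hcc : ∀ i, ∀ θ ∈ DomT P V, ConcaveOn ℝ (Ki P i) (f i θ))
    -- the tests
    (b : ℕ → ℕ) (Nx : ℕ → Hh P V → Finset V) (hNx : ∀ s p, Nx s p ⊆ wo p s) (C : ℕ → ℕ)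
    (sx : I → ℕ) (hsx : ∀ i, sx i ≤ nb P) (X : ℕ → I → Hh P V → V → Tht P V → Prop)
    (hX : ∀ s < P.N, ∀ i p v, IsClosed {θ | θ ∈ DomT P V ∧ ¬ X s i p v θ})
    (st : Fin (nb P) → ℕ) (g : ℕ → Fin (nb P) → Hh P V → V → Tht P V → ℝ)
    (hg : ∀ s < P.N, ∀ j p v, ContinuousOn (fun θ => g s j p v θ) (DomT P V))
    -- the sizes
    (hb0 : ¬ col Finset.univ (b 0))
    (hb : ∀ s < P.N, ∀ c : Hh P V, ¬ col (wo c s) (b s) →
      ¬ col (Nx s (pf s c)) (2 ^ nb P * (Fintype.card I * C s + b (s + 1))))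
    (hX2 : ∀ θ ∈ DomT P V, ∀ s < P.N, ∀ c : Hh P V,
      (∀ t < s, (mkTs b Nx sx X st g).Ok col θ t c) →
      wo c (s + 1) ⊆ Nx s (pf s c) → (mkTs b Nx sx X st g).Sd θ s c →
        ∀ i, col ((wo c (s + 1)).filter fun v => X s i (hp s (sx i) c) v θ) (C s)) :
    ∃ Q θ, θ ∈ DomT P V ∧ Eqm col (mkTs b Nx sx X st g) Q θ ∧
      ∀ i, ∀ y ∈ Ki P i, f i θ y ≤ f i θ (θ.2 i) := by
  have hD : IsClosed (DomT P V) := isClosed_dom isCompact_Ki
  refine exists_eq hcol (Ki P) isCompact_Ki convex_Ki (nonempty_Ki hLu hL hL') f hf hcc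
    (mkTs b Nx sx X st g) hNx C ?_ ?_ ?_ ?_ hb0 hb ?_
  · intro s hs i p v
    exact hX s hs i _ v
  · intro s hs j p v
    exact isClosed_sdP hD st g s j p v (hg s hs j _ v)
  · intro s hs j p v
    exact isClosed_sdR hD st g s j p v (hg s hs j _ v)
  · intro θ _ s _ j p v
    exact sd_cover st g s j p v θ
  · intro θ hθ s hs c h1 h2 h3 i
    have h4 := hX2 θ hθ s hs c h1 h2 h3 i
    have h5 : ∀ v, (mkTs b Nx sx X st g).X s i (hp s (nb P) c) v θ =
        X s i (hp s (sx i) c) v θ := by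
      intro v
      change X s i (hp s (sx i) (hp s (nb P) c)) v θ = _
      rw [hp_hp (Or.inr ⟨rfl, hsx i⟩)]
    simp only [h5]
    exact h4

end Pool.Agent.Lib.GSX
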