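import Pool.Agent.Lib.GSX.Fam
import Pool.Agent.Lib.GSX.CtBof

/-!
# Continuous families: the data of the small sets of the pools
-/

set_option autoImplicit false

namespace Pool.Agent.Lib.GSX

open Finset Classical

/-- The data of `RecF.lean`. -/
theorem Fam.ctB {V Θ : Type} [Fintype V] [TopologicalSpace Θ] {P : Cn} {G : SimpleGraph V}
    {D : Set Θ} {S : Θ → Sta P V} {I : Θ → Inp P V} {W : Finset V} (h : Fam P S I W D)
    (T : Finset (Fin P.N)) : CtB P G D S I T W :=
  ctB_of h.hP.e0 h.cI h.cS h.pI h.pS (h.rho T) (h.CS T) (h.PA T)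

end Pool.Agent.Lib.GSX
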