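import Pool.Agent.Lib.GSX.RecP
import Pool.Agent.Lib.GSX.TopF

/-!
# The signs of a typical pair from the records

`pw` = weight of a main label in the window, `rc` = highness of its hub at one stage.  `Sd` collects
what is known at one node `x` for one history with the states `S s` and the inputs `I s`; `Sd.num`
is the structure `Num` of `TopF`.
-/

set_option autoImplicit false

namespace Pool.Agent.Lib.GSX

open Finset Classical
open Pool.Agent.Lib.FGF (cm)
open Pool.Agent.Lib.GSR (vioC)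
open Pool.Agent.Lib.GSLE (kp win)

section

variable {V : Type} [Fintype V] (P : Cn) (G : SimpleGraph V)

/-- The weight of the main label `l` at `x` in the own window. -/
noncomputable def pw (I : Inp P V) (x : V) (l : Ml P V) : ℝ :=
  I.pi l * kk P G I P.g0 x l / al P G I x

/-- The highness of `y` over `x` at the stage `c`. -/
noncomputable def rc (S : Sta P V) (c : Fin P.N) (x y : V) : ℝ :=
  rp (ht P S c y - ht P S c x - P.lG)

/-- What is known at the node `x` of one history: `T` = the good stages, `Mb C` = master for `C`,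
`Pb C s` = the side of the score of the hub mode. -/
structure Sd (S : ℕ → Sta P V) (I : Fin P.N → Inp P V) (x : V) (T : Finset (Fin P.N))
    (Mb : Finset (Fin P.N) → Prop) (Pb : Finset (Fin P.N) → Fin P.N → Prop) : Prop where
  /-- signs -/
  pi : ∀ s ∈ T, ∀ l, 0 ≤ (I s).pi l
  /-- the good side of the absolute window -/
  half : ∀ s ∈ T, 1 / 2 ≤ ∑ l, pw P G (I s) x l
  /-- the sides of the scores -/
  pos : ∀ s ∈ T, ∀ C, C ⊆ T → (∀ c ∈ C, c < s) → C.card < P.h → Pb C s →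
    P.cP C.card ≤ ShP P G (S s) (I s) C x
  neg : ∀ s ∈ T, ∀ C, C ⊆ T → (∀ c ∈ C, c < s) → C.card < P.h → ¬ Pb C s →
    ShP P G (S s) (I s) C x ≤ P.cP C.card
  /-- typical node: own steps -/
  n1 : ∀ s ∈ T, ∀ C, C ⊆ T → (∀ c ∈ C, c < s) → Mb C → C.card + 2 ≤ P.h →
    ∑ l, wP P G (S s) (I s) C l x * upsP P G (S s) (I s) C l ((I s).lp C l) x ≤ P.cP C.card / 4
  /-- typical node: the last step -/
  n2 : ∀ s ∈ T, ∀ C, C ⊆ T → (∀ c ∈ C, c < s) → Mb C → C.card + 1 = P.h →
    ∑ l, wP P G (S s) (I s) C l x ≤ P.cP C.card / 4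

namespace T4_

variable {P G}

omit [Fintype V] in
theorem rich_eq (S : Sta P V) (C : Finset (Fin P.N)) (x y : V) :
    rich P S C x y = ∏ c ∈ C, rc P S c x y := rfl

theorem wP_eq (S : Sta P V) (I : Inp P V) (C : Finset (Fin P.N)) (l : Ml P V) (x : V) :
    wP P G S I C l x = pw P G I x l * ∏ c ∈ C, rc P S c x l.1 := by
  unfold wP CP pw
  rw [rich_eq]
  ring

theorem ShP_eq (S : Sta P V) (I : Inp P V) (C : Finset (Fin P.N)) (x : V) :
    ShP P G S I C x = ∑ l, pw P G I x l * (∏ c ∈ C, rc P S c x l.1) *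
      (1 - upsP P G S I C l (I.lp C l) x) := by
  unfold ShP
  exact Finset.sum_congr rfl fun l _ => by rw [wP_eq]

theorem pw_eq (S : Sta P V) (I : Inp P V) (l : Ml P V) (x : V) :
    pw P G I x l = wP P G S I ∅ l x := by
  rw [wP_eq, Finset.prod_empty, mul_one]

theorem pw_nonneg {I : Inp P V} (hI : ∀ l, 0 ≤ I.pi l) (x : V) (l : Ml P V) :
    0 ≤ pw P G I x l :=
  div_nonneg (mul_nonneg (hI l) (RecP_.kk_nonneg _ _ _)) (RecP_.al_pos _).le

theorem sum_pw_le {I : Inp P V} (hP : 0 < P.e0) (hI : ∀ l, 0 ≤ I.pi l) (x : V) :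
    ∑ l, pw P G I x l ≤ 1 := by
  unfold pw
  rw [← Finset.sum_div, div_le_one (RecP_.al_pos x)]
  have h1 := RecP_.sum_kk_le (G := G) hP hI P.g0 x
  linarith

/-- The share of the labels in the own window on the good side of the absolute window. -/
theorem half_of_out {I : Inp P V} (hP : 0 < P.e0) (hI : ∀ l, 0 ≤ I.pi l) (hg : P.gU ≤ P.g0)
    {x : V} (h0 : 4 * P.e0 ≤ al P G I x) (h : out P G I x ≤ 1 / 4) :
    1 / 2 ≤ ∑ l, pw P G I x l := by
  have ha := RecP_.al_pos (G := G) (I := I) x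
  have h1 := RecP_.al_eq (G := G) hP hI x
  have h2 : ∑ l : Ml P V, inc G I.W x l * I.pi l * kp (al P G I x / lv l.2) =
      out P G I x * al P G I x + ∑ l : Ml P V, inc G I.W x l * I.pi l *
        kp (al P G I x / lv l.2) * win P.gU (hs P G I x + (l.2 : ℕ)) := by
    unfold out
    rw [Finset.sum_mul, ← Finset.sum_add_distrib]
    refine Finset.sum_congr rfl fun l _ => ?_
    rw [div_mul_cancel₀ _ ha.ne']
    ring
  have h3 : ∑ l : Ml P V, inc G I.W x l * I.pi l * kp (al P G I x / lv l.2) *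
      win P.gU (hs P G I x + (l.2 : ℕ)) ≤ ∑ l, I.pi l * kk P G I P.g0 x l := by
    refine Finset.sum_le_sum fun l _ => ?_
    unfold kk
    have h4 : win P.gU (hs P G I x + (l.2 : ℕ)) ≤ win P.g0 (hs P G I x + (l.2 : ℕ)) := by
      unfold win
      exact max_le_max le_rfl (min_le_min le_rfl (by linarith))
    have h5 := mul_nonneg (mul_nonneg (RecP_.inc_nonneg (G := G) I.W x l) (hI l))
      (GSLE.kp_nonneg (al P G I x / lv l.2))
    calc inc G I.W x l * I.pi l * kp (al P G I x / lv l.2) *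
          win P.gU (hs P G I x + (l.2 : ℕ)) ≤ inc G I.W x l * I.pi l *
          kp (al P G I x / lv l.2) * win P.g0 (hs P G I x + (l.2 : ℕ)) :=
          mul_le_mul_of_nonneg_left h4 h5
      _ = I.pi l * (inc G I.W x l * kp (al P G I x / lv l.2) *
          win P.g0 (hs P G I x + (l.2 : ℕ))) := by ring
  have h6 : ∑ l, pw P G I x l = (∑ l, I.pi l * kk P G I P.g0 x l) / al P G I x := by
    unfold pw
    rw [Finset.sum_div]
  rw [h6, le_div_iff₀ ha]
  have h7 : out P G I x * al P G I x ≤ 1 / 4 * al P G I x := mul_le_mul_of_nonneg_right h ha.le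
  linarith

end T4_

open T4_

/-- The numbers of a typical pair. -/
theorem Sd.num {P : Cn} {G : SimpleGraph V} {S : ℕ → Sta P V} {I : Fin P.N → Inp P V} {x : V}
    {T : Finset (Fin P.N)} {Mb : Finset (Fin P.N) → Prop}
    {Pb : Finset (Fin P.N) → Fin P.N → Prop} (hP : 0 < P.e0) (H : Sd P G S I x T Mb Pb) :
    Num P.h P.cP Mb Pb T (fun s l => pw P G (I s) x l) (fun s c l => rc P (S s) c x l.1)
      (fun s C l => upsP P G (S s) (I s) C l ((I s).lp C l) x) where
  w0 s hs l := pw_nonneg (H.pi s hs) x l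
  w1 s hs := sum_pw_le hP (H.pi s hs) x
  half := H.half
  r0 _ _ _ _ := RecP_.rp_nonneg _
  r1 _ _ _ _ := RecP_.rp_le_one _
  u0 _ _ _ _ := RecP_.upsP_nonneg _ _ _ _
  pos s hs C hC hlt hh hb := by
    rw [← ShP_eq]
    exact H.pos s hs C hC hlt hh hb
  neg s hs C hC hlt hh hb := by
    rw [← ShP_eq]
    exact H.neg s hs C hC hlt hh hb
  n1 s hs C hC hlt hM hh := by
    have h1 := H.n1 s hs C hC hlt hM hh
    simp only [wP_eq] at h1
    exact h1
  n2 s hs C hC hlt hM hh := by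
    have h1 := H.n2 s hs C hC hlt hM hh
    simp only [wP_eq] at h1
    exact h1

/-- The constants of the group T. -/
structure OkT (P : Cn) (e2 : ℝ) (L0 : ℕ) : Prop where
  h : 2 ≤ P.h
  e : 0 < e2
  L : 4 * (P.h : ℝ) ≤ e2 * L0
  c0 : P.cP 0 ≤ 1 / 8
  c1 : P.cP 1 = e2
  cj : ∀ j, 2 ≤ j → j < P.h → P.cP j ≤ e2 / (4 * (L0 : ℝ) ^ j)
  cp : ∀ j, 0 ≤ P.cP j

/-- The signs of a typical pair for masters `Mb`. -/
theorem Sd.sgF {P : Cn} {G : SimpleGraph V} {S : ℕ → Sta P V} {I : Fin P.N → Inp P V} {x : V}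
    {T : Finset (Fin P.N)} {Mb : Finset (Fin P.N) → Prop}
    {Pb Bb : Finset (Fin P.N) → Fin P.N → Prop} (hP : 0 < P.e0) (H : Sd P G S I x T Mb Pb)
    {e2 : ℝ} {L0 : ℕ} (K : OkT P e2 L0) (hM0 : Mb ∅)
    (hnxt : ∀ C s, C ⊆ T → s ∈ T → (∀ c ∈ C, c < s) → Pb C s ∨ Bb C s → Mb C → Mb (insert s C))
    (htop : ∀ C, C ⊆ T → C.card = P.h → ¬ Mb C) : SgF P.h L0 Mb Pb Bb T :=
  (H.num hP).sgF K.e K.L K.c0 K.c1 K.cj K.cp K.h hM0 hnxt htop

end

end Pool.Agent.Lib.GSX
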