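import Pool.Agent.Lib.GSX.Win
import Pool.Agent.Lib.GSX.Best

/-!
# Windows at the best replies

The main law is a best reply, so the share of the labels outside the window is small for all but a
small mass of the vertices; on the good stages the labels in the window carry half of the flux.
-/

set_option autoImplicit false

namespace Pool.Agent.Lib.GSX

open Finset Classical

namespace Win

section

variable {V : Type} [Fintype V] {P : Cn} {G : SimpleGraph V} {s : Fin P.N} {S : Sta P V}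
  {I : Inp P V}

/-- The flux outside the windows. -/
theorem sum_outG_best (h : Best P G s S I) (he : 0 < P.e0) (he1 : P.e0 < 1)
    (hI : lv P.I0 ≤ P.e0) (hn : ∀ x, 0 ≤ I.n0 x) (hn1 : ∑ x, I.n0 x ≤ 1) {g : ℕ} {γ : ℝ}
    (hγ : (g : ℝ) + 1 ≤ γ) : ∑ x, I.n0 x * outG P G I γ x ≤ 14 * (1 / √2) ^ g := by
  have h1 := sum_outG_le (G := G) hn he he1 hI h.pi_nonneg (le_of_eq h.sum_pi) zero_le_one
    (fun y hy i => (h.dm_le_sum he hn (l := (y, i)) hy).trans hn1) hγ
  linarith

/-- A law `m ≤ C * n0`: the vertices with a large share outside the window are rare. -/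
theorem outG_rare_best (h : Best P G s S I) (he : 0 < P.e0) (he1 : P.e0 < 1)
    (hI : lv P.I0 ≤ P.e0) (hn : ∀ x, 0 ≤ I.n0 x) (hn1 : ∑ x, I.n0 x ≤ 1) {g : ℕ} {γ : ℝ}
    (hγ : (g : ℝ) + 1 ≤ γ) {m : V → ℝ} {C t ε : ℝ} (hC : 0 ≤ C) (hm : ∀ x, m x ≤ C * I.n0 x)
    (ht : 0 < t) (hε : C * (14 * (1 / √2) ^ g) ≤ ε * t) :
    ∑ x with t ≤ outG P G I γ x, m x ≤ ε := by
  refine outG_rare (n := I.n0) (Δ := 1) (g := g) hn he he1 hI h.pi_nonneg (le_of_eq h.sum_pi)
    zero_le_one (fun y hy i => (h.dm_le_sum he hn (l := (y, i)) hy).trans hn1) hγ hC hm ht ?_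
  rw [mul_one]
  exact hε

/-- The stages are good with a large probability. -/
theorem out_rare (h : Best P G s S I) (he : 0 < P.e0) (he1 : P.e0 < 1) (hI : lv P.I0 ≤ P.e0)
    (hn : ∀ x, 0 ≤ I.n0 x) (hn1 : ∑ x, I.n0 x ≤ 1) (hg : 40 ≤ P.gU) :
    ∑ x with 1 / 4 ≤ out P G I x, I.n0 x ≤ 1 / 64 := by
  have h1 := outG_rare_best (G := G) h he he1 hI hn hn1 (g := 38) (γ := P.gU)
    (by norm_num; linarith) (m := I.n0) (C := 1) (t := 1 / 4) (ε := 1 / 64) zero_le_one
    (fun x => by rw [one_mul]) (by norm_num) (by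
      have h2 : (1 / √2 : ℝ) ^ 38 = (1 / 2) ^ 19 := by
        rw [show (38 : ℕ) = 2 * 19 from rfl, pow_mul, div_pow, one_pow, Real.sq_sqrt zero_le_two]
      rw [h2]
      norm_num)
  exact h1

/-- On a good stage the labels in the window carry half of the flux. -/
theorem half_inG (he : 0 < P.e0) (hp : ∀ l, 0 ≤ I.pi l) (hg : P.gU ≤ P.g0) {x : V}
    (ho : out P G I x ≤ 1 / 4) (ht : 16 * P.e0 ≤ al P G I x) : 1 / 2 ≤ inG P G I P.g0 x := by
  have h1 : outG P G I P.g0 x ≤ 1 / 4 := by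
    refine (outG_anti hp hg x).trans ?_
    rw [← out_eq]
    exact ho
  have h2 := inG_ge (G := G) he hp h1 (r := 1 / 16) (by linarith)
  linarith

/-- On a good stage the weights of the hub mode for `C = ∅` have the sum at least one half. -/
theorem half_wP (he : 0 < P.e0) (hp : ∀ l, 0 ≤ I.pi l) (hg : P.gU ≤ P.g0) {x : V}
    (ho : out P G I x ≤ 1 / 4) (ht : 16 * P.e0 ≤ al P G I x) :
    1 / 2 ≤ ∑ l, wP P G S I ∅ l x := by
  have h1 : ∑ l, wP P G S I ∅ l x = inG P G I P.g0 x := by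
    unfold wP inG CP rich
    exact Finset.sum_congr rfl fun l _ => by rw [Finset.prod_empty, mul_one]
  rw [h1]
  exact half_inG he hp hg ho ht

end

end Win

end Pool.Agent.Lib.GSX
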