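import Pool.Agent.Lib.GSX.K0
import Pool.Agent.Lib.GSX.T4
import Pool.Agent.Lib.GSX.TypI
import Pool.Agent.Lib.GSX.WinI

/-!
# The constants of the first block in the game

`OkP0 P ..`: the fields of `P` satisfy the inequalities `OkK0` of the first block.  From this: the
hypotheses on the constants of the theorems on the signs of a typical pair (`t4`), on the popular
pool (`T5C`), of the U-case (`UC`, `UCst`), and the mass of the typical pairs.
-/

set_option autoImplicit false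

namespace Pool.Agent.Lib.GSX

open Finset Classical
open Pool.Agent.Lib.GSR Pool.Agent.Lib.GSR.HZ Pool.Agent.Lib.GSR.HZB

/-- The fields of `P` satisfy the inequalities of the first block. -/
def OkP0 (P : Cn) (F : ℝ) (R : ℕ) (fb ft : ℕ → ℕ → ℕ) (Ke Kd : ℕ → ℝ → ℝ) (qB : ℕ) (wU : ℝ)
    (RU : ℕ) (e3U e1U xiU : ℝ) (L0 N0 : ℕ) (kU c0 et delU : ℝ) : Prop :=
  OkK0 P.h P.M F R fb ft Ke Kd P.gU P.g0 P.r0 qB wU RU e3U e1U xiU P.w0 P.cP P.cA L0 N0 P.N kU c0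
    et P.eps1 P.del delU

section

variable {P : Cn} {F : ℝ} {R : ℕ} {fb ft : ℕ → ℕ → ℕ} {Ke Kd : ℕ → ℝ → ℝ} {qB : ℕ} {wU : ℝ}
  {RU : ℕ} {e3U e1U xiU : ℝ} {L0 N0 : ℕ} {kU c0 et delU : ℝ}

/-- The constants of the group T. -/
theorem OkP0.okT (k : OkP0 P F R fb ft Ke Kd qB wU RU e3U e1U xiU L0 N0 kU c0 et delU)
    (h2 : 2 ≤ P.h) : OkT P (P.cP 1) L0 where
  h := h2
  e := k.cPpos 1
  L := k.avg
  c0 := k.cP0.le
  c1 := rfl
  cj j hj _ := k.cPj j hj
  cp j := (k.cPpos j).le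

/-- The constants of the U-case. -/
theorem OkP0.ucst (k : OkP0 P F R fb ft Ke Kd qB wU RU e3U e1U xiU L0 N0 kU c0 et delU)
    (he0 : 0 < P.e0) (he1 : P.e0 < 1) (hI : (2 : ℝ) ^ (1 - (P.I0 : ℝ)) ≤ P.e0)
    (hx : 8 * P.xi ≤ xiU) (hd : (2 * P.gU + 5) * P.xi < delU) :
    UCst P P.r0 wU e3U e1U xiU delU (5 / 4 * P.cP 1) where
  e0 := he0
  e01 := he1
  I0 := hI
  gU := k.gU_nonneg
  g0 := k.gU_le
  w0 := by linarith [k.w0_ge]
  eps1 := k.epsU1
  xi := hx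
  xid := hd
  eps := k.e3r'

theorem OkP0.uc (k : OkP0 P F R fb ft Ke Kd qB wU RU e3U e1U xiU L0 N0 kU c0 et delU) :
    UC P.M P.h P.r0 F P.gU wU RU e3U kU e1U xiU := k.ule

theorem OkP0.t5c (k : OkP0 P F R fb ft Ke Kd qB wU RU e3U e1U xiU L0 N0 kU c0 et delU) :
    T5C P.h P.r0 qB L0 RU N0 := k.top

/-- The popular class is large enough for the U-case. -/
theorem OkP0.kU_le (k : OkP0 P F R fb ft Ke Kd qB wU RU e3U e1U xiU L0 N0 kU c0 et delU) :
    kU ≤ kpp P.h P.N := by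
  linarith [k.kU1, k.kU_pos]

/-- Half of the stages are enough. -/
theorem OkP0.N0_le (k : OkP0 P F R fb ft Ke Kd qB wU RU e3U e1U xiU L0 N0 kU c0 et delU) {n : ℕ}
    (hn : (P.N : ℝ) / 2 ≤ n) : N0 ≤ n := by
  have h1 : ((2 * N0 : ℕ) : ℝ) ≤ (P.N : ℝ) := by exact_mod_cast k.N_ge
  push_cast at h1
  have h2 : (N0 : ℝ) ≤ n := by linarith
  exact_mod_cast h2

/-- The pair of the windows and of the heights. -/
theorem OkP0.g0w (k : OkP0 P F R fb ft Ke Kd qB wU RU e3U e1U xiU L0 N0 kU c0 et delU) :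
    P.gU = 40 ∧ P.g0 = 41 := by
  refine ⟨k.gU_eq, ?_⟩
  rw [k.g0_eq, k.gU_eq]
  norm_num

end

/-! ### The mass of the typical pairs -/

/-- The flux outside of the absolute window. -/
theorem fluxU_le : (14 : ℝ) * (1 / √2) ^ 38 ≤ 1 / 256 := by
  have h2 : (1 / √2 : ℝ) ^ 38 = (1 / 2) ^ 19 := by
    rw [show (38 : ℕ) = 2 * 19 from rfl, pow_mul, div_pow, one_pow, Real.sq_sqrt zero_le_two]
  rw [h2]
  norm_num

section

variable {V : Type} [Fintype V] {P : Cn} {G : SimpleGraph V} {F : ℝ} {R : ℕ}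
  {fb ft : ℕ → ℕ → ℕ} {Ke Kd : ℕ → ℝ → ℝ} {qB : ℕ} {wU : ℝ}
  {RU : ℕ} {e3U e1U xiU : ℝ} {L0 N0 : ℕ} {kU c0 et delU : ℝ}
  {col : Finset V → ℕ → Prop} {J : Type} {T : Ts V P.N (nb P) J (Tht P V)}
  {Q : Hh P V × V → ℝ} {θ : Tht P V}

/-- Intersection of two sets of pairs of large mass. -/
theorem OkJT_.pm_and (hQ : ∀ p, 0 ≤ Q p) (hQ1 : ∑ p, Q p = 1) (A B : Hh P V × V → Prop) :
    pm Q A + pm Q B - 1 ≤ pm Q (fun p => A p ∧ B p) := by
  have h1 := pm_add_not hQ1 (fun p => A p ∧ B p)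
  have h2 := pm_add_not hQ1 A
  have h3 := pm_add_not hQ1 B
  have h4 : pm Q (fun p => ¬ (A p ∧ B p)) ≤ pm Q (fun p => ¬ A p ∨ ¬ B p) :=
    pm_mono hQ fun p _ hp => by
      by_cases h5 : A p
      · exact Or.inr fun h6 => hp ⟨h5, h6⟩
      · exact Or.inl h5
  have h5 := pm_or hQ (fun p => ¬ A p) (fun p => ¬ B p)
  linarith

/-- **Most of the stages are good**, except for a set of pairs of mass `1 / 32`. -/
theorem OkP0.good (k : OkP0 P F R fb ft Ke Kd qB wU RU e3U e1U xiU L0 N0 kU c0 et delU)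
    (h : Eqm col T Q θ) (he0 : 0 < P.e0) (he1 : P.e0 < 1) (hI : lv P.I0 ≤ P.e0)
    (hB : ∀ c, qc Q c ≠ 0 → ∀ s, Best P G s (stt P G θ c s) (inpt P θ s c)) :
    31 / 32 ≤ pm Q (fun p => (P.N : ℝ) / 2 < (((Finset.univ : Finset (Fin P.N)).filter fun s =>
      out P G (inpt P θ s p.1) p.2 < 1 / 4).card : ℝ)) := by
  have hE := fluxU_le
  have h1 := pm_out (G := G) h (by have := k.N1; omega) (t := 1 / 4)
    (E := 14 * (1 / √2) ^ 38) (by norm_num) (by positivity)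
    (fun c hc s x => by
      rw [Win.out_eq]
      exact Win.outG_nonneg (hB c hc s).pi_nonneg _ x)
    (fun c hc s => by
      have h3 := Win.sum_outG_best (hB c hc s) he0 he1 hI (h.nh_nonneg s.1 0 (hp s.1 0 c))
        (h.sum_nh s.1 0 (hp s.1 0 c)).le (g := 38) (γ := P.gU) (by
          rw [k.gU_eq]
          norm_num)
      exact h3)
  refine le_trans ?_ h1
  linarith

/-- **The mass of the typical pairs.**  `A`: the pairs outside of the exceptional sets of all the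
stages, of mass `S` per stage; `B`: many good stages. -/
theorem OkP0.mass (k : OkP0 P F R fb ft Ke Kd qB wU RU e3U e1U xiU L0 N0 kU c0 et delU)
    (h : Eqm col T Q θ) (hfb : nb P = fb P.N P.r0) {S : ℝ} {A B : Hh P V × V → Prop}
    (hS : P.N * S ≤ ft P.N P.r0 * et)
    (hA : 1 - P.N * (2 ^ nb P * c0) - P.N * S ≤ pm Q A) (hB : 31 / 32 ≤ pm Q B) :
    3 / 4 ≤ pm Q (fun p => A p ∧ B p) := by
  have h1 := OkJT_.pm_and h.Q0 h.Q1 A B
  have h2 := k.c0N
  have h3 := k.etk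
  have h4 := k.kU2
  rw [← hfb] at h2
  linarith

end

end Pool.Agent.Lib.GSX
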