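import Pool.Agent.Lib.GSX.OkF
import Pool.Agent.Lib.GSX.OkJT

/-!
# The masses of the exceptional pairs

The inequalities between the masses of the exceptional pairs of all stages and the mass of the
popular class.
-/

set_option autoImplicit false

namespace Pool.Agent.Lib.GSX

open Finset

namespace FinM_

/-- The mass of the nodes of one stage for which the facts `FctX` fail. -/
noncomputable def eX (N : ℕ) (et : ℝ) : ℝ :=
  et + 2 ^ N * (4 * et) + 2 ^ N * et + 2 ^ N * 2 ^ N * (4 * et)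

/-- The mass of the nodes outside of the window. -/
noncomputable def eO : ℝ := 4 * (14 * (1 / √2) ^ 38)

theorem eO_le : eO ≤ 1 / 64 := by
  have := fluxU_le
  unfold eO
  linarith

theorem eO_nonneg : 0 ≤ eO := by
  unfold eO
  positivity

theorem eX_nonneg {N : ℕ} {et : ℝ} (h : 0 ≤ et) : 0 ≤ eX N et := by
  unfold eX
  positivity

theorem two_pow_ge (N : ℕ) : (1 : ℝ) ≤ 2 ^ N := one_le_pow₀ (by norm_num)

theorem eX_le {N : ℕ} {et : ℝ} (h : 0 ≤ et) : eX N et ≤ 10 * (2 ^ N * 2 ^ N * et) := by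
  have h1 := two_pow_ge N
  have h2 : (1 : ℝ) ≤ 2 ^ N * 2 ^ N := by nlinarith
  have h3 : (2 : ℝ) ^ N ≤ 2 ^ N * 2 ^ N := by nlinarith
  have h4 : et ≤ 2 ^ N * 2 ^ N * et := by nlinarith
  have h5 : 2 ^ N * et ≤ 2 ^ N * 2 ^ N * et := mul_le_mul_of_nonneg_right h3 h
  unfold eX
  linarith

theorem et_le_eX {N : ℕ} {et : ℝ} (h : 0 ≤ et) : et ≤ eX N et := by
  have : (0 : ℝ) ≤ 2 ^ N := by positivity
  unfold eX
  have h1 : 0 ≤ 2 ^ N * (4 * et) + 2 ^ N * et + 2 ^ N * 2 ^ N * (4 * et) := by positivity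
  linarith

/-- The bound of `Gst.fctX_mass`. -/
theorem fct_le {N : ℕ} {et cA a b : ℝ} (hcA : 0 < cA) (ha : a ≤ et) (hb : b ≤ et) :
    a + 2 ^ N * (4 * et) + 2 ^ N * b + 2 ^ N * 2 ^ N * (et * cA / (cA / 4)) ≤ eX N et := by
  have h1 : et * cA / (cA / 4) = 4 * et := by
    field_simp
  have h2 : (2 : ℝ) ^ N * b ≤ 2 ^ N * et := mul_le_mul_of_nonneg_left hb (by positivity)
  rw [h1]
  unfold eX
  linarith

theorem ntN_eq (N r : ℕ) :
    (ntN N r : ℝ) = 1000 * ((N + 1) * (2 ^ N * 2 ^ N) * (r + 1)) := by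
  unfold ntN
  push_cast
  ring

section

variable {h M : ℕ} {F : ℝ} {R : ℕ} {k : Ka}

/-- At most `100` bounds per pair of sets at every stage. -/
theorem nt_le (hk : OkKa h M F R (fa h) k) {a : ℝ} (ha : a ≤ 100 * (2 ^ k.N * 2 ^ k.N * k.et)) :
    k.N * a ≤ k.kU / 64 := by
  have h1 : (ntN k.N k.r0 : ℝ) * k.et ≤ k.kU / 64 := hk.etk
  rw [ntN_eq] at h1
  refine le_trans ?_ h1
  have h2 : (0 : ℝ) ≤ k.N := Nat.cast_nonneg _
  have h3 : (0 : ℝ) ≤ k.r0 := Nat.cast_nonneg _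
  have h4 : 0 ≤ (2 : ℝ) ^ k.N * 2 ^ k.N * k.et := by
    have := hk.et_pos.le
    positivity
  have h5 : (k.N : ℝ) * a ≤ k.N * (100 * (2 ^ k.N * 2 ^ k.N * k.et)) :=
    mul_le_mul_of_nonneg_left ha h2
  refine h5.trans ?_
  have h6 : (k.N : ℝ) * 1 ≤ (k.N + 1) * (k.r0 + 1) := by nlinarith
  nlinarith [mul_nonneg (sub_nonneg.2 h6) h4]

/-- **The mass inequality of the typical pairs.** -/
theorem mass (hk : OkKa h M F R (fa h) k) :
    k.N * (2 ^ nbN h k.N * k.c0) + k.N * eX k.N k.et + 2 * eO ≤ 1 / 2 := by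
  have h1 : (k.N : ℝ) * (2 ^ nbN h k.N * k.c0) ≤ k.kU / 16 := hk.c0N
  have h2 : (k.N : ℝ) * eX k.N k.et ≤ k.kU / 64 := nt_le hk ((eX_le hk.et_pos.le).trans (by
    have : 0 ≤ (2 : ℝ) ^ k.N * 2 ^ k.N * k.et := by
      have := hk.et_pos.le
      positivity
    linarith))
  have h3 := hk.kU2
  have h4 := eO_le
  linarith

/-- The popular class without exceptional pairs. -/
theorem rem (hk : OkKa h M F R (fa h) k) {a : ℝ} (ha : a ≤ 100 * (2 ^ k.N * 2 ^ k.N * k.et)) :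
    k.kU ≤ kpp h k.N - k.N * a := by
  have h1 := nt_le hk ha
  have h2 := hk.kU1
  have h3 := hk.kU_pos
  linarith

end

end FinM_

end Pool.Agent.Lib.GSX
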