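import Pool.Agent.Lib.GSX.ThinI
import Pool.Agent.Lib.GSX.EqI

/-!
# The thin side of a stage

`thF` is the side function of the thin bit: it is nonpositive at the thin vertices.
`thin_stage`: at a stage with the UP, EQ and atom facts the vertices with `0 ≤ thF` are rare.
-/

set_option autoImplicit false

namespace Pool.Agent.Lib.GSX

open Finset Classical
open Pool.Agent.Lib.GSR3 (Tree)
open Pool.Agent.Lib.FGF (Frac)
open Pool.Agent.Lib.GSLE (Lvl UpL)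

section

variable {V : Type} [Fintype V]

/-- The side function of the thin bit. -/
noncomputable def thF (P : Cn) (G : SimpleGraph V) (I : Inp P V) (c0 : ℝ) (v : V) : ℝ :=
  Finset.univ.sup' ⟨0, Finset.mem_univ 0⟩ (fun i => Db P G I I.n2 i v) - c0 * P.xi

variable {P : Cn} {G : SimpleGraph V} {I : Inp P V} {c0 : ℝ} {v : V}

theorem thF_nonpos : thF P G I c0 v ≤ 0 ↔ ∀ i, Db P G I I.n2 i v ≤ c0 * P.xi := by
  unfold thF
  rw [sub_nonpos, Finset.sup'_le_iff]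
  exact ⟨fun h i => h i (Finset.mem_univ i), fun h i _ => h i⟩

theorem thF_nonneg : 0 ≤ thF P G I c0 v ↔ ∃ i, c0 * P.xi ≤ Db P G I I.n2 i v := by
  unfold thF
  rw [sub_nonneg, Finset.le_sup'_iff]
  exact ⟨fun ⟨i, _, h⟩ => ⟨i, h⟩, fun ⟨i, h⟩ => ⟨i, Finset.mem_univ i, h⟩⟩

/-- Continuity of the side function. -/
theorem thF_cont {T : Type*} [TopologicalSpace T] {D : Set T} {J : T → Inp P V}
    (h : ∀ i, ContinuousOn (fun θ => Db P G (J θ) (J θ).n2 i v) D) :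
    ContinuousOn (fun θ => thF P G (J θ) c0 v) D := by
  unfold thF
  refine ContinuousOn.sub ?_ continuousOn_const
  exact ContinuousOn.finset_sup'_apply _ fun i _ => h i

end

/-- **The thin side of a stage is not rare**: the vertices which are not thin are rare for the law
`n2` of a record with the level-wise bounds (`C`), the UP facts of the two systems (`Γ0`, `u0` and
`Γ1`, `δ'`), small atoms and no node in `X_EQ`. -/
theorem thin_stage (M d g : ℕ) (F C v τ : ℝ) (hM : 1 ≤ M) (hF : 1 ≤ F) (hC : 0 < C) (hv : 0 < v)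
    (hτ : 0 < τ) : ∃ ε : ℝ, 0 < ε ∧
    ∀ (P : Cn) (V : Type) [Fintype V] (G : SimpleGraph V) (I : Inp P V)
      (δ' L' Γ0 Γ1 u0 w0 at0 c0 : ℝ),
      Frac G F → (∀ φ : List (Fin M) → V, ¬ Tree G d M φ) →
      (∀ x, 0 ≤ I.n2 x) → ∑ x, I.n2 x ≤ 1 → 0 < δ' → 0 ≤ L' → 0 < Γ0 → Γ0 ≤ 2 ^ g →
      0 < Γ1 → Γ1 ≤ (2 : ℝ) ^ (L' - 1) → 0 < w0 →
      (∀ x, I.n2 x ≠ 0 → x ∈ I.W) → (∀ z ∈ I.W, Lvl G I.n2 (al P G I) C z) →
      (∀ x, I.n2 x ≠ 0 → UpL G I.n2 (al P G I) Γ0 u0 x) →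
      (∀ x, I.n2 x ≠ 0 → UpL G I.n2 (al P G I) Γ1 δ' x) →
      (∀ x, I.n2 x ≠ 0 → I.n2 x ≤ at0 * al P G I x) →
      (∀ x, I.n2 x ≠ 0 → x ∉ XEqR P G I ((2 * (g + 1) + 2) * C + 1)
        ((2 * (L' + 6 * (g + 1) + 1) + 2) * C + 1) ε ((6 * (g + 1) + 3) * δ') (g + 1)
        (L' + 3 * (g + 1) + 1)) →
      4 * (u0 + v + w0) + at0 < c0 * P.xi →
      ∑ x with 0 ≤ thF P G I c0 x, I.n2 x ≤ τ + 2 * C / (Γ0 * w0) + 2 * C / (Γ1 * δ') := by
  obtain ⟨ε, hε, hS⟩ := eqI M d g F C v τ hM hF hC hv hτ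
  refine ⟨ε, hε, ?_⟩
  intro P V _ G I δ' L' Γ0 Γ1 u0 w0 at0 c0 hFr hT hn hn1 hδ' hL' hΓ0 hΓ0g hΓ1 hΓ1L hw0 hsupp hlev
    hup0 hup1 hat hX hT4
  have h1 := hS P V G I δ' L' Γ0 hFr hT hn hn1 hδ' hL' hΓ0g hsupp hlev hX
  have ha : ∀ x, 0 < al P G I x := fun x => GSLE.alp_pos _ _ _ _ _
  have h2 := thin_rare (P := P) (G := G) (I := I) hn ha hΓ0 hw0 hΓ1 hδ'
    (fun x hx => hlev x (hsupp x hx)) hup0 hup1 hat hΓ1L h1 hT4
  have h3 : ∑ x with 0 ≤ thF P G I c0 x, I.n2 x =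
      ∑ x with (∃ i, c0 * P.xi ≤ Db P G I I.n2 i x), I.n2 x := by
    refine Finset.sum_congr (Finset.filter_congr fun x _ => ?_) fun _ _ => rfl
    exact thF_nonneg
  rw [h3]
  refine h2.trans ?_
  have h4 : 0 ≤ 2 * C / (Γ0 * w0) := by positivity
  have h5 : 0 ≤ 2 * C / (Γ1 * δ') := by positivity
  have h6 : 2 * C / (Γ0 * w0) * ∑ x, I.n2 x ≤ 2 * C / (Γ0 * w0) := mul_le_of_le_one_right h4 hn1
  have h7 : 2 * C / (Γ1 * δ') * ∑ x, I.n2 x ≤ 2 * C / (Γ1 * δ') := mul_le_of_le_one_right h5 hn1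
  linarith

end Pool.Agent.Lib.GSX
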