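import Pool.Agent.Lib.GSX.Rp

/-!
# The internal UP system of a stage

`U : UpI V I0` contains all the data: the world `W`, the node law `n`, the scale `a`, the laws
`sg j` and the services `su j` (`j < h`), the constants.  The step `j` uses the hub weights `f` and
the masters `m` of the steps before.
-/

set_option autoImplicit false

namespace Pool.Agent.Lib.GSX

open Finset Classical
open Pool.Agent.Lib.FGF (cm)
open Pool.Agent.Lib.GSLE (kp)
open Pool.Agent.Lib.GSR (vioC)

/-- The data of an UP system: `M`, `h` the tree, `e` the floor, `th` the threshold, `Gam` the gap,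
`eta` the root law constant, `Amp` the factor of the hub charge. -/
structure UpI (V : Type) (I0 : ℕ) where
  M : ℕ
  h : ℕ
  e : ℝ
  th : ℝ
  Gam : ℝ
  eta : ℝ
  Amp : ℝ
  W : Finset V
  n : V → ℝ
  a : V → ℝ
  sg : ℕ → V × Fin (I0 + 1) → ℝ
  su : ℕ → V × Fin (I0 + 1) → V → ℝ

/-- The hub weights and the masters. -/
structure UpS (V : Type) where
  f : V → ℝ
  m : V → V → ℝ

section

variable {V : Type} [Fintype V] {I0 : ℕ} (G : SimpleGraph V) (U : UpI V I0) (j : ℕ) (X : UpS V)

/-- The kernel: the hub is higher than `x` by the factor `Gam`. -/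
noncomputable def upK (x : V) (l : V × Fin (I0 + 1)) : ℝ :=
  (if G.Adj x l.1 ∧ l.1 ∈ U.W then 1 else 0) * kp (U.a x / lv l.2) *
    rp (U.a l.1 / (U.Gam * U.a x) - 1)

/-- The scale of the step. -/
noncomputable def upA (x : V) : ℝ := U.e + ∑ l, U.sg j l * X.f l.1 * upK G U x l

/-- The weight of the label `l` at `x`. -/
noncomputable def upw (x : V) (l : V × Fin (I0 + 1)) : ℝ :=
  U.sg j l * X.f l.1 * upK G U x l / upA G U j X x

/-- The own law of the label `l`. -/
noncomputable def upq (l : V × Fin (I0 + 1)) (x : V) : ℝ :=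
  U.n x * X.f l.1 * upK G U x l / upA G U j X x

/-- The payers of the label `l` for the service `lam`. -/
noncomputable def upR (l : V × Fin (I0 + 1)) (lam : V → ℝ) (u : V) : ℝ :=
  (if u = l.1 then 1 else 0) + lam u + upq G U j X l u / U.eta

/-- The measure of the label `l`. -/
noncomputable def upM (l : V × Fin (I0 + 1)) (lam : V → ℝ) (u : V) : ℝ :=
  U.Amp * X.m l.1 u + upR G U j X l lam u

/-- The violation at `x`. -/
noncomputable def upv (l : V × Fin (I0 + 1)) (lam : V → ℝ) (x : V) : ℝ :=
  vioC G U.M (U.h - j - 1) x (fun u => cm G (upM G U j X l lam) u) U.W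

/-- The objective of the service of the label `l`. -/
noncomputable def upObj (l : V × Fin (I0 + 1)) (lam : V → ℝ) : ℝ :=
  ∑ x, upq G U j X l x * upv G U j X l lam x

/-- The score. -/
noncomputable def upSh (x : V) : ℝ :=
  ∑ l, upw G U j X x l * (1 - upv G U j X l (U.su j l) x)

/-- The payment function. -/
noncomputable def upg (u : V) : ℝ :=
  ∑ l : V × Fin (I0 + 1), U.sg j l * X.f l.1 *
    (√(kp (U.a u / lv l.2)) * (cm G (upR G U j X l (U.su j l)) u / U.a u))

/-- The next weights and masters. -/
noncomputable def upN : UpS V where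
  f z := X.f z * rp (upA G U j X z / (U.th * U.a z) - 1) * rp (8 * upSh G U j X z - 2)
  m x u := 4 * ∑ l, upw G U j X x l * upM G U j X l (U.su j l) u

/-- The weights and masters before the step `j`. -/
noncomputable def ups : ℕ → UpS V
  | 0 => ⟨fun _ => 1, fun _ _ => 0⟩
  | j + 1 => upN G U j (ups j)

/-- The logarithmic pay-off of the law `sig` of the step. -/
noncomputable def upLog (sig : V × Fin (I0 + 1) → ℝ) : ℝ :=
  ∑ x, U.n x * Real.log (U.e + ∑ l, sig l * X.f l.1 * upK G U x l)

end

/-- The UP system `b` of a stage. -/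
noncomputable def upi (P : Cn) {V : Type} [Fintype V] (G : SimpleGraph V) (I : Inp P V)
    (b : Fin 2) : UpI V P.I0 where
  M := P.M
  h := P.h
  e := P.e0 * P.th b / 2
  th := P.th b
  Gam := P.Gu b
  eta := P.eu b
  Amp := P.Au b
  W := I.W
  n := I.n1
  a := al P G I
  sg := I.sg b
  su := I.su b

end Pool.Agent.Lib.GSX
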