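import Pool.Agent.Lib.GSX.Inst
import Pool.Agent.Lib.GSX.Best
import Pool.Agent.Lib.GSX.BestU
import Pool.Agent.Lib.GSX.UpD
import Pool.Agent.Lib.GSX.ThinS
import Pool.Agent.Lib.GSX.RecF
import Pool.Agent.Lib.GSX.PoolB
import Pool.Agent.Lib.GSX.Eqx

/-!
# The game

The payoffs `pay`, the functions of the bits `sde`, the small sets `Xst` and the tests `Tst` of the
game with the records.  `GEq` is the equilibrium.
-/

set_option autoImplicit false

namespace Pool.Agent.Lib.GSX

open Finset Classical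
open Pool.Agent.Lib.GSR Pool.Agent.Lib.GSR.HZ Pool.Agent.Lib.GSR.HZB
open Pool.Agent.Lib.TCW (ColG Cst)

/-- The constants of the tests. -/
structure Cx where
  /-- the mass of a typical step -/
  c0 : ℝ
  /-- the windows of equal heights -/
  K0E : ℝ
  K1E : ℝ
  eE : ℝ
  dE : ℝ
  gE : ℝ
  LE : ℝ
  /-- the pools: the number of stages, the own window, the masses, the self-links, the windows -/
  qB : ℕ
  v0 : ℕ
  K0 : ℝ
  ek : ℝ
  et : ℝ
  k : Cst
  /-- the thick labels -/
  l0 : ℤ
  eth : ℝ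
  d : ℕ

section

variable {V : Type} [Fintype V]

/-! ### The payoffs -/

/-- The payoffs. -/
noncomputable def pay (P : Cn) (G : SimpleGraph V) :
    ∀ i : Ix P V, Tht P V → (Yi P V i → ℝ) → ℝ
  | .pi s p => fun θ y => ∑ l : Ml P V, y l * Dm P G (inpt P θ s p) (inpt P θ s p).n0 l
  | .sg s p a j => fun θ y => upLog G (upi P G (inpt P θ s p) a) (upx P G (inpt P θ s p) a j) y
  | .su s p a j l => fun θ y =>
      - upObj G (upi P G (inpt P θ s p) a) j (upx P G (inpt P θ s p) a j) l y
  | .sv s p T C l => fun θ y => - Rv P G (stt P G θ p s) (inpt P θ s p) T C l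
      (fun u => y (.inl u)) (fun u => y (.inr u))
  | .lp s p C l => fun θ y => - objP P G (stt P G θ p s) (inpt P θ s p) C l y
  | .la s p T C l => fun θ y => - objA P G (stt P G θ p s) (inpt P θ s p) T C l y

/-! ### The functions of the bits -/

section

variable (P : Cn) (G : SimpleGraph V) (X : Cx) (S : Sta P V) (I : Inp P V)

/-- The functions of the bits of the UP systems. -/
noncomputable def sdU (k : K2 P) (v : V) : ℝ :=
  match k with
  | (a, j, 0) => upA G (upi P G I a) j (upx P G I a j) v - 2 * P.th a * al P G I v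
  | (a, j, 1) => upSh G (upi P G I a) j (upx P G I a j) v - 3 / 8
  | (a, j, 2) => upg G (upi P G I a) j (upx P G I a j) v - P.Bu a

/-- The functions of the bits of the last group. -/
noncomputable def sdK (k : K4 P) (v : V) : ℝ :=
  match k with
  | (0, _, _) => out P G I v - 1 / 4
  | (1, _, C) => ShP P G S I C v - P.cP C.card
  | (2, T, C) => ShA P G S I T C v - P.cA
  | (3, T, _) => AS P G S I T v - P.eps1 * al P G I v
  | (4, _, C) => gpP P G S I C v - P.Bd
  | (5, T, C) => gpA P G S I T C v - P.Bd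

/-- The functions of the bits. -/
noncomputable def sde : Bt P → V → ℝ
  | .inl (.inl (.inl _)) => fun v => I.n0 v - P.xi2 * al P G I v
  | .inl (.inl (.inr k)) => sdU P G I k
  | .inl (.inr _) => thF P G I X.c0
  | .inr k => sdK P G S I k

@[simp] lemma sde_atm (v : V) : sde P G X S I (bAtm P) v = I.n0 v - P.xi2 * al P G I v := rfl

@[simp] lemma sde_up (k : K2 P) (v : V) : sde P G X S I (bUp P k) v = sdU P G I k v := rfl

@[simp] lemma sde_thin (v : V) : sde P G X S I (bThin P) v = thF P G I X.c0 v := rfl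

@[simp] lemma sde_k (k : K4 P) (v : V) : sde P G X S I (bK P k) v = sdK P G S I k v := rfl

end

/-- The functions of the bits along a history. -/
noncomputable def Gs (P : Cn) (G : SimpleGraph V) (X : Cx) (s : ℕ) (β : Bt P) (p : Hh P V) (v : V)
    (θ : Tht P V) : ℝ :=
  if h : s < P.N then sde P G X (stt P G θ p s) (inpt P θ ⟨s, h⟩ p) β v else 0

/-! ### The small sets -/

/-- The names of the small sets: the atoms, the windows of equal heights, the pools. -/
abbrev Xi (P : Cn) : Type := Fin 2 ⊕ (Finset (Fin P.N) × Fin P.h)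

/-- The number of the bits which are read by a small set. -/
noncomputable def sxi (P : Cn) : Xi P → ℕ
  | .inl 0 => g1
  | .inl 1 => g2 P
  | .inr _ => g3 P

/-- The atoms. -/
def XAt (P : Cn) (G : SimpleGraph V) (I : Inp P V) : Set V :=
  {v | P.xi1 * ∑ z with G.Adj v z, I.n1 z < I.n1 v}

/-- The small set of the pool `Q` with the last stage `s`. -/
noncomputable def XPo (P : Cn) (G : SimpleGraph V) (X : Cx) (Q : Finset (Fin P.N)) (m : ℕ)
    (s : Fin P.N) (p : Hh P V) (θ : Tht P V) : Set V :=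
  (BF P G (fun c θ => stt P G θ p c) (fun c θ => inpt P θ c p) (TP Q s P.r0) (sgP Q s P.r0) m
    X.l0 X.eth (√(1 / 2)) X.d).XB G X.v0 X.k X.K0 X.ek X.et m X.qB θ

/-- The small sets. -/
def Xst (P : Cn) (G : SimpleGraph V) (X : Cx) (s : ℕ) (i : Xi P) (p : Hh P V) (v : V)
    (θ : Tht P V) : Prop :=
  ∃ h : s < P.N,
    match i with
    | .inl 0 => v ∈ XAt P G (inpt P θ ⟨s, h⟩ p)
    | .inl 1 => v ∈ XEqR P G (inpt P θ ⟨s, h⟩ p) X.K0E X.K1E X.eE X.dE X.gE X.LE
    | .inr (Q, m) => ((⟨s, h⟩ : Fin P.N) ∈ Q ∧ (∀ c ∈ Q, c ≤ ⟨s, h⟩) ∧ Q.card = P.r0 + X.qB) ∧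
        v ∈ XPo P G X Q m ⟨s, h⟩ p θ

/-! ### The tests and the equilibrium -/

/-- The vertices of the world which are not isolated. -/
noncomputable def nxw (P : Cn) (G : SimpleGraph V) (s : ℕ) (p : Hh P V) : Finset V :=
  (wo p s).filter fun v => ∃ y ∈ wo p s, G.Adj v y

/-- The colourability of a finite set. -/
def colF (G : SimpleGraph V) (W : Finset V) (n : ℕ) : Prop := ColG G (W : Set V) n

/-- The tests of the game. -/
noncomputable def Tst (P : Cn) (G : SimpleGraph V) (X : Cx) (b : ℕ → ℕ) :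
    Ts V P.N (nb P) (Xi P) (Tht P V) :=
  mkTsB b (nxw P G) (sxi P) (Xst P G X) (Gs P G X)

/-- The equilibrium of the game. -/
structure GEq (P : Cn) (G : SimpleGraph V) (X : Cx) (b : ℕ → ℕ) (Q : Hh P V × V → ℝ)
    (θ : Tht P V) : Prop where
  dom : θ ∈ DomT P V
  eqm : Eqm (colF G) (Tst P G X b) Q θ
  best : ∀ i, ∀ y ∈ Ki P i, pay P G i θ y ≤ pay P G i θ (θ.2 i)

end

end Pool.Agent.Lib.GSX
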