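import Pool.Agent.Lib.GSX.PayIx
import Pool.Agent.Lib.GSX.Gme

/-!
# The pay-offs `pay` of the game are continuous and concave
-/

set_option autoImplicit false

namespace Pool.Agent.Lib.GSX

open Finset Classical
open Pool.Agent.Lib.GSR Pool.Agent.Lib.GSR.HZ Pool.Agent.Lib.GSR.HZB

section

variable {V : Type} [Fintype V] {P : Cn} {G : SimpleGraph V}

theorem pay_eq_ffx : ∀ i : Ix P V, pay P G i = ffx P G i
  | .pi _ _ => rfl
  | .sg _ _ _ _ => rfl
  | .su _ _ _ _ _ => rfl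
  | .sv _ _ _ _ _ => rfl
  | .lp _ _ _ _ => rfl
  | .la _ _ _ _ _ => rfl

/-- **The pay-offs are jointly continuous.** -/
theorem pay_cont (hP : CPos P) (hth : ∀ b, 0 < P.th b) (hGu : ∀ b, 0 < P.Gu b) (i : Ix P V) :
    ContinuousOn (fun q : Tht P V × (Yi P V i → ℝ) => pay P G i q.1 q.2)
      (DomT P V ×ˢ Ki P i) := by
  rw [pay_eq_ffx]
  exact ffx_cont hP hth hGu i

/-- **The pay-offs are concave.** -/
theorem pay_concave (hP : CPos P) (hth : ∀ b, 0 < P.th b) (i : Ix P V) :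
    ∀ θ ∈ DomT P V, ConcaveOn ℝ (Ki P i) (pay P G i θ) := by
  rw [pay_eq_ffx]
  exact ffx_concave hP hth i

/-- The coordinates of an equilibrium are best replies. -/
theorem GEq.opt {X : Cx} {b : ℕ → ℕ} {Q : Hh P V × V → ℝ} {θ : Tht P V}
    (h : GEq P G X b Q θ) : BestI_.Opt P G θ :=
  BestI_.Opt.of h.dom fun i y hy => by
    rw [← pay_eq_ffx]
    exact h.best i y hy

end

end Pool.Agent.Lib.GSX
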