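import Pool.Agent.Lib.GSX.RecF

/-!
# The small sets of the pools

`XPl ... s f T θ` is the small set of the pool with the stages `f 0 < ... < f (q - 1)` (at most
`s`) and the items `T 0, ..., T (q - 1)`.  The condition `v ∈ XPl` is open and the set is colourable
for every parameter.
-/

set_option autoImplicit false

namespace Pool.Agent.Lib.TCW

open Finset Classical
open Pool.Agent.Lib.GSR (ClD OpD)

/-- The sets `XB` are colourable if the windows of the graph are. -/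
theorem xb_colW {V Ω P : Type} [Fintype V] [Fintype Ω] [TopologicalSpace P] {G : SimpleGraph V}
    {q v0 m : ℕ} {K0 ε η : ℝ} {k : Cst} {C : ℕ} (hK0 : 0 < K0)
    (hb : ∀ (As : ℕ → Finset V) (O : ℕ → Finset Ω) (hub : ℕ → Ω → V) (Ow : ℕ → V → Ω → Prop)
      (r : ℕ → V → ℝ) (w : ℕ → Ω → ℝ) (h : ℕ → V → ℝ) (H : ℕ → ℕ → Ω → ℤ),
      (∀ s < q, RecB G s v0 K0 k (As s) (O s) (hub s) (Ow s) (r s) (w s) h (H s)) →
        ColG G {v | ∀ s < q,
          (∃ I : V → Ω → Prop, IncB ε (As s) (O s) (Ow s) (r s) (w s) I v) ∧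
          NrB G m s η k (O s) (hub s) (w s) h (H s) v} C)
    {D : Set P} {A : FRec P V Ω} (hA : A.Ok D q) {θ : P} (hθ : θ ∈ D) :
    ColG G (A.XB G v0 k K0 ε η m q θ) C := by
  -- the own incidence
  obtain ⟨Ow, hOw⟩ : ∃ Ow : ℕ → V → Ω → Prop, Ow = fun s x o => A.Oo G v0 k s x o θ ∧
      ∑ o' with A.Oc G v0 k s x o' θ, A.w s o' θ < K0 ∧
      ∑ x' with A.Oc G v0 k s x' o θ, A.r s x' θ < K0 := ⟨_, rfl⟩
  have hoc : ∀ s < q, ∀ x o, A.Oo G v0 k s x o θ → A.Oc G v0 k s x o θ := by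
    intro s hs x o h
    exact ⟨(hA.sub s hs x o θ hθ h.1).1, h.2.1, h.2.2.1.le, fun c hc => (h.2.2.2 c hc).le⟩
  have hrec : ∀ s < q, RecB G s v0 K0 k Finset.univ (Finset.univ.filter fun o => A.pl s o θ)
      (A.hub s) (Ow s) (fun x => A.r s x θ) (fun o => A.w s o θ) (fun c x => A.h c x θ)
      (A.H s) := by
    intro s hs
    refine ⟨fun x => hA.r0 s hs x θ hθ, fun o => hA.w0 s hs o θ hθ, ?_, ?_, ?_, ?_, ?_⟩
    · intro x _
      by_cases h2 : ∃ o, Ow s x o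
      · obtain ⟨o, ho⟩ := h2
        rw [hOw] at ho
        refine le_trans (Finset.sum_le_sum_of_subset_of_nonneg ?_ fun o' _ _ =>
          hA.w0 s hs o' θ hθ) ho.2.1.le
        intro o' ho'
        rw [Finset.mem_filter] at ho' ⊢
        have h3 := ho'.2
        rw [hOw] at h3
        exact ⟨Finset.mem_univ _, hoc s hs x o' h3.1⟩
      · rw [Finset.sum_eq_zero]
        · exact hK0.le
        · intro o ho
          exact absurd ⟨o, (Finset.mem_filter.1 ho).2⟩ h2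
    · intro o _
      by_cases h2 : ∃ x, Ow s x o
      · obtain ⟨x, hx⟩ := h2
        rw [hOw] at hx
        refine le_trans (Finset.sum_le_sum_of_subset_of_nonneg ?_ fun x' _ _ =>
          hA.r0 s hs x' θ hθ) hx.2.2.le
        intro x' hx'
        rw [Finset.mem_filter] at hx' ⊢
        have h3 := hx'.2
        rw [hOw] at h3
        exact ⟨Finset.mem_univ _, hoc s hs x' o h3.1⟩
      · rw [Finset.sum_eq_zero]
        · exact hK0.le
        · intro x hx
          exact absurd ⟨x, (Finset.mem_filter.1 hx).2⟩ h2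
    · intro x _ o _ h
      rw [hOw] at h
      exact h.1.2.1
    · intro x _ o _ h
      rw [hOw] at h
      exact h.1.2.2.1.le
    · intro x _ o _ h c hc
      rw [hOw] at h
      exact (h.1.2.2.2 c (Finset.mem_range.2 hc)).le
  refine (hb (fun _ => Finset.univ) (fun s => Finset.univ.filter fun o => A.pl s o θ)
    A.hub Ow (fun s x => A.r s x θ) (fun s o => A.w s o θ) (fun c x => A.h c x θ) A.H
    hrec).mono ?_ le_rfl
  intro v hv s hs
  obtain ⟨⟨I, hI⟩, hN⟩ := hv s (Finset.mem_range.2 hs)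
  refine ⟨⟨I, ?_, ?_, hI.ne⟩, hN.nrB fun o => hA.w0 s hs o θ hθ⟩
  · intro x o hxo
    have h2 := hI.mem x o hxo
    refine ⟨Finset.mem_univ _, Finset.mem_filter.2 ⟨Finset.mem_univ _,
      (hA.sub s hs x o θ hθ h2.1).2⟩, ?_⟩
    rw [hOw]
    exact ⟨h2, hI.wI x o hxo, hI.rI x o hxo⟩
  · intro x o hxo
    refine le_trans (hI.kp x o hxo).le (le_of_eq ?_)
    unfold TCH.kap
    refine Finset.sum_congr rfl fun x' hx' => ?_
    congr 1
    refine Finset.sum_congr ?_ fun _ _ => rfl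
    ext o'
    rw [Finset.mem_filter, Finset.mem_filter, Finset.mem_filter]
    exact ⟨fun h => ⟨⟨Finset.mem_univ _, (hA.sub s hs x o' θ hθ (hI.mem x o' h.2.1).1).2⟩, h.2⟩,
      fun h => ⟨Finset.mem_univ _, h.2⟩⟩

end Pool.Agent.Lib.TCW

namespace Pool.Agent.Lib.GSX

open Finset Classical
open Pool.Agent.Lib.GSR (ClD OpD)
open Pool.Agent.Lib.TCW (FRec Cst ColG RecB IncB NrB xb_open xb_colW)

/-- The pools: the stages `f j` and the items `T j`. -/
structure PlOk {N q : ℕ} (s : Fin N) (f : Fin q → Fin N) (T : Fin q → Finset (Fin N)) : Prop where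
  mono : ∀ i j, i < j → f i < f j
  le : ∀ j, f j ≤ s
  mem : ∀ i j, i < j → f i ∈ T j
  lt : ∀ j, ∀ c ∈ T j, c < f j

/-- The extension of a function on `Fin q`. -/
def exq {α : Type} {q : ℕ} (d : α) (f : Fin q → α) (j : ℕ) : α := if h : j < q then f ⟨j, h⟩ else d

theorem exq_lt {α : Type} {q : ℕ} {d : α} {f : Fin q → α} {j : ℕ} (h : j < q) :
    exq d f j = f ⟨j, h⟩ := dif_pos h

theorem exq_fun {α : Type} {q : ℕ} {d : α} {g : ℕ → α} {j : ℕ} (h : j < q) :
    exq d (fun i : Fin q => g i) j = g j := dif_pos h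

section

variable {V Θ : Type} [Fintype V] (P : Cn) (G : SimpleGraph V) (S : Fin P.N → Θ → Sta P V)
  (I : Fin P.N → Θ → Inp P V)

/-- The small set of a pool: `v0`, `k`, `K0`, `ek`, `η` are the constants of the windows, `et`, `ρ`,
`d` the constants of the thick labels. -/
def XPl (v0 : ℕ) (k : Cst) (K0 ek η et ρ : ℝ) (d m : ℕ) {q : ℕ} (s : Fin P.N)
    (f : Fin q → Fin P.N) (T : Fin q → Finset (Fin P.N)) (θ : Θ) : Set V :=
  {v | PlOk s f T ∧
    v ∈ (BF P G S I (exq ∅ T) (exq s f) m k.l0 et ρ d).XB G v0 k K0 ek η m q θ}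

variable {P G S I}

theorem PlOk.exT {q : ℕ} {s : Fin P.N} {f : Fin q → Fin P.N} {T : Fin q → Finset (Fin P.N)}
    (h : PlOk s f T) : ∀ j < q, ∀ c < j, exq s f c ∈ exq ∅ T j := by
  intro j hj c hc
  rw [exq_lt hj, exq_lt (hc.trans hj)]
  exact h.mem _ _ hc

theorem BF_congr {S' : Fin P.N → Θ → Sta P V} {I' : Fin P.N → Θ → Inp P V}
    {T : ℕ → Finset (Fin P.N)} {sg : ℕ → Fin P.N} (hS : ∀ j, S (sg j) = S' (sg j))
    (hI : ∀ j, I (sg j) = I' (sg j)) (m : ℕ) (l0 : ℤ) (ε ρ : ℝ) (d : ℕ) :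
    BF P G S I T sg m l0 ε ρ d = BF P G S' I' T sg m l0 ε ρ d := by
  unfold BF
  simp only [hS, hI]

/-- The set `XPl` only depends on the records of the stages up to `s`. -/
theorem xpl_congr {S' : Fin P.N → Θ → Sta P V} {I' : Fin P.N → Θ → Inp P V} {v0 : ℕ} {k : Cst}
    {K0 ek η et ρ : ℝ} {d m q : ℕ} {s : Fin P.N} {f : Fin q → Fin P.N}
    {T : Fin q → Finset (Fin P.N)} (hS : ∀ c ≤ s, S c = S' c) (hI : ∀ c ≤ s, I c = I' c) :
    XPl P G S I v0 k K0 ek η et ρ d m s f T = XPl P G S' I' v0 k K0 ek η et ρ d m s f T := by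
  funext θ
  ext v
  unfold XPl
  simp only [Set.mem_setOf_eq]
  refine and_congr_right fun h => ?_
  have h1 : ∀ j, exq s f j ≤ s := by
    intro j
    by_cases hj : j < q
    · rw [exq_lt hj]
      exact h.le _
    · exact le_of_eq (dif_neg hj)
  rw [BF_congr (fun j => hS _ (h1 j)) (fun j => hI _ (h1 j))]

/-- The condition `v ∈ XPl` is open. -/
theorem xpl_open [TopologicalSpace Θ] {D : Set Θ} (hD : IsClosed D) {v0 : ℕ} {k : Cst}
    {K0 ek η et ρ : ℝ} {d m q : ℕ} {s : Fin P.N} {f : Fin q → Fin P.N}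
    {T : Fin q → Finset (Fin P.N)}
    (h : PlOk s f T → ∀ j, ∃ W, CtB P G D (S (f j)) (I (f j)) (T j) W) (v : V) :
    OpD D fun θ => v ∈ XPl P G S I v0 k K0 ek η et ρ d m s f T θ := by
  by_cases h1 : PlOk s f T
  · have h2 : (BF P G S I (exq ∅ T) (exq s f) m k.l0 et ρ d).Ok D q := by
      refine BF_ok hD h1.exT (fun j hj => ?_) _ _ _ _ _
      obtain ⟨W, hW⟩ := h h1 ⟨j, hj⟩
      rw [exq_lt hj, exq_lt hj]
      exact ⟨W, hW⟩
    exact (xb_open hD h2 G v0 k K0 ek η m v).congr fun θ _ => ⟨fun h3 => ⟨h1, h3⟩, fun h3 => h3.2⟩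
  · exact (OpD.const hD False).congr fun θ _ => ⟨fun h3 => h3.elim, fun h3 => h1 h3.1⟩

/-- The sets `XPl` are colourable. -/
theorem xpl_col [TopologicalSpace Θ] {D : Set Θ} (hD : IsClosed D) {v0 : ℕ} {k : Cst}
    {K0 ek η et ρ : ℝ} {d m q : ℕ} {s : Fin P.N} {f : Fin q → Fin P.N}
    {T : Fin q → Finset (Fin P.N)} {C : ℕ} (hK0 : 0 < K0)
    (h : PlOk s f T → ∀ j, ∃ W, CtB P G D (S (f j)) (I (f j)) (T j) W)
    (hb : ∀ (As : ℕ → Finset V) (O : ℕ → Finset (Ce P V)) (hub : ℕ → Ce P V → V)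
      (Ow : ℕ → V → Ce P V → Prop) (r : ℕ → V → ℝ) (w : ℕ → Ce P V → ℝ) (h : ℕ → V → ℝ)
      (H : ℕ → ℕ → Ce P V → ℤ),
      (∀ s < q, RecB G s v0 K0 k (As s) (O s) (hub s) (Ow s) (r s) (w s) h (H s)) →
        ColG G {v | ∀ s < q,
          (∃ I : V → Ce P V → Prop, IncB ek (As s) (O s) (Ow s) (r s) (w s) I v) ∧
          NrB G m s η k (O s) (hub s) (w s) h (H s) v} C)
    {θ : Θ} (hθ : θ ∈ D) : ColG G (XPl P G S I v0 k K0 ek η et ρ d m s f T θ) C := by
  by_cases h1 : PlOk s f T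
  · have h2 : (BF P G S I (exq ∅ T) (exq s f) m k.l0 et ρ d).Ok D q := by
      refine BF_ok hD h1.exT (fun j hj => ?_) _ _ _ _ _
      obtain ⟨W, hW⟩ := h h1 ⟨j, hj⟩
      rw [exq_lt hj, exq_lt hj]
      exact ⟨W, hW⟩
    exact (xb_colW hK0 hb h2 hθ).mono (fun v hv => hv.2) le_rfl
  · have h2 := xb_colW (D := (Set.univ : Set Unit)) (A := (⟨fun _ l => hub l,
      fun _ _ _ => 0, fun _ _ _ => 0, fun _ _ _ => 0, fun _ _ _ => 0, fun _ _ _ _ => False,
      fun _ _ _ _ => False, fun _ _ _ => False⟩ : FRec Unit V (Ce P V))) (k := k) (v0 := v0)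
      hK0 hb ⟨fun _ _ _ _ _ => le_rfl, fun _ _ _ _ _ => le_rfl, fun _ _ _ => continuousOn_const,
        fun _ _ _ => continuousOn_const, fun _ _ _ => continuousOn_const,
        fun _ _ _ _ => OpD.const isClosed_univ _, fun _ _ _ _ => ClD.const isClosed_univ _,
        fun _ _ _ => ClD.const isClosed_univ _, fun _ _ _ _ _ _ h => h.elim⟩
      (Set.mem_univ ())
    exact h2.mono (fun v hv => absurd hv.1 h1) le_rfl

end

end Pool.Agent.Lib.GSX
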