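import Pool.Agent.Lib.GSX.PayCI
import Pool.Agent.Lib.GSX.FamB
import Pool.Agent.Lib.GSX.ThinS
import Pool.Agent.Lib.GSX.XPl

/-!
# The sides and the small sets along a continuous family

All the side functions are continuous on `D` and the conditions of the small sets (isolated
vertices, atoms, `X_EQ`) are open in `D`.
-/

set_option autoImplicit false

namespace Pool.Agent.Lib.GSX

open Finset Classical
open Pool.Agent.Lib.GSR (ClD OpD)

section

variable {V Θ : Type} [Fintype V] [TopologicalSpace Θ] {P : Cn} {G : SimpleGraph V}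
  {D : Set Θ} {S : Θ → Sta P V} {I : Θ → Inp P V} {W : Finset V}

namespace Fam

/-! ### Sides -/

/-- The side of the atoms of the unconditional law. -/
theorem sd_atm (h : Fam P S I W D) (c : ℝ) (x : V) :
    ContinuousOn (fun θ => (I θ).n0 x - c * GSX.al P G (I θ) x) D :=
  (h.cI.n0 x).sub (continuousOn_const.mul (h.al x))

/-- The thickness of a vertex at a level. -/
theorem Db2 (h : Fam P S I W D) (i : Fin (P.I0 + 1)) (x : V) :
    ContinuousOn (fun θ => Db P G (I θ) (I θ).n2 i x) D :=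
  C1_Db h.cI.n2 h.al i x

theorem Db0 (h : Fam P S I W D) (i : Fin (P.I0 + 1)) (x : V) :
    ContinuousOn (fun θ => Db P G (I θ) (I θ).n0 i x) D :=
  C1_Db h.cI.n0 h.al i x

theorem Db1 (h : Fam P S I W D) (i : Fin (P.I0 + 1)) (x : V) :
    ContinuousOn (fun θ => Db P G (I θ) (I θ).n1 i x) D :=
  C1_Db h.cI.n1 h.al i x

theorem Db3 (h : Fam P S I W D) (i : Fin (P.I0 + 1)) (x : V) :
    ContinuousOn (fun θ => Db P G (I θ) (I θ).n3 i x) D :=
  C1_Db h.cI.n3 h.al i x

/-- The side of the thin bit. -/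
theorem sd_thin (h : Fam P S I W D) (c0 : ℝ) (x : V) :
    ContinuousOn (fun θ => thF P G (I θ) c0 x) D :=
  thF_cont fun i => h.Db2 i x

/-- The side of the scale of a UP system. -/
theorem sd_upA (h : Fam P S I W D) (hU : FamU P I D) (b : Fin 2) (j : ℕ) (x : V) :
    ContinuousOn (fun θ => upA G (upi P G (I θ) b) j (upx P G (I θ) b j) x -
      2 * P.th b * GSX.al P G (I θ) x) D :=
  UpSide_.sideA_cont (h.contU (G := G) hU b) j x

theorem upA (h : Fam P S I W D) (hU : FamU P I D) (b : Fin 2) (j : ℕ) (x : V) :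
    ContinuousOn (fun θ => upA G (upi P G (I θ) b) j (upx P G (I θ) b j) x) D := by
  have h1 := h.contU (G := G) hU b
  exact UpSide_.upA_cont h1 (UpSide_.ups_cont h1 j) j x

/-- The score of a step of a UP system. -/
theorem upSh (h : Fam P S I W D) (hU : FamU P I D) (b : Fin 2) (j : ℕ) (x : V) :
    ContinuousOn (fun θ => upSh G (upi P G (I θ) b) j (upx P G (I θ) b j) x) D :=
  UpSide_.sideSh_cont (h.contU (G := G) hU b) j x

/-- The payment function of a step of a UP system. -/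
theorem upg (h : Fam P S I W D) (hU : FamU P I D) (b : Fin 2) (j : ℕ) (x : V) :
    ContinuousOn (fun θ => upg G (upi P G (I θ) b) j (upx P G (I θ) b j) x) D :=
  UpSide_.sideg_cont (h.contU (G := G) hU b) j x

/-- The side of an item. -/
theorem sd_AS (h : Fam P S I W D) (T : Finset (Fin P.N)) (c : ℝ) (x : V) :
    ContinuousOn (fun θ => GSX.AS P G (S θ) (I θ) T x - c * GSX.al P G (I θ) x) D :=
  (h.AS T x).sub (continuousOn_const.mul (h.al x))

/-! ### Small sets -/

/-- Atoms: the condition is open. -/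
theorem atm_open (h : Fam P S I W D) (hD : IsClosed D) (c : ℝ) (x : V) :
    OpD D fun θ => c * (∑ z with G.Adj x z, (I θ).n1 z) < (I θ).n1 x :=
  OpD.lt hD (continuousOn_const.mul (continuousOn_finsetSum _ fun z _ => h.cI.n1 z))
    (h.cI.n1 x)

/-- `X_EQ`: the condition is open. -/
theorem xeq_open (h : Fam P S I W D) (hD : IsClosed D) (K0 K1 ε δ g L : ℝ) (x : V) :
    OpD D fun θ => x ∈ XEqR P G (I θ) K0 K1 ε δ g L := by
  have h1 : IsOpen {θ : D | x ∈ XEqR P G (I θ.1) K0 K1 ε δ g L} :=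
    isOpen_xEqR P G W (fun θ : D => I θ.1) (fun θ => h.cI.hW θ.1 θ.2) K0 K1 ε δ g L
      (fun y => continuousOn_iff_continuous_domRestrict.1 (h.al y))
      (fun y => continuousOn_iff_continuous_domRestrict.1 (h.cI.n2 y))
      (fun θ y => (h.pI θ.1 θ.2).n2 y) x
  have h2 : {θ | θ ∈ D ∧ ¬ x ∈ XEqR P G (I θ) K0 K1 ε δ g L} =
      Subtype.val '' {θ : D | x ∈ XEqR P G (I θ.1) K0 K1 ε δ g L}ᶜ := by
    ext θ
    constructor
    · rintro ⟨h3, h4⟩
      exact ⟨⟨θ, h3⟩, h4, rfl⟩
    · rintro ⟨θ', h3, rfl⟩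
      exact ⟨θ'.2, h3⟩
  show IsClosed {θ | θ ∈ D ∧ ¬ x ∈ XEqR P G (I θ) K0 K1 ε δ g L}
  rw [h2]
  exact hD.isClosedEmbedding_subtypeVal.isClosedMap _ h1.isClosed_compl

end Fam

/-- The small set of a pool: the condition is open, for all the pools with continuous families. -/
theorem xplF_open (hD : IsClosed D) {S' : Fin P.N → Θ → Sta P V} {I' : Fin P.N → Θ → Inp P V}
    (h : ∀ c, ∃ W, Fam P (S' c) (I' c) W D) (v0 : ℕ) (k : TCW.Cst) (K0 ek η et ρ : ℝ) (d m : ℕ)
    {q : ℕ} (s : Fin P.N) (f : Fin q → Fin P.N) (T : Fin q → Finset (Fin P.N)) (x : V) :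
    OpD D fun θ => x ∈ XPl P G S' I' v0 k K0 ek η et ρ d m s f T θ := by
  refine xpl_open hD (fun _ j => ?_) x
  obtain ⟨W, hW⟩ := h (f j)
  exact ⟨W, hW.ctB (T j)⟩

end

end Pool.Agent.Lib.GSX
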