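import Pool.Agent.Lib.GSX.Gme
import Pool.Agent.Lib.GSX.SideC
import Pool.Agent.Lib.GSX.ContAll
import Pool.Agent.Lib.GSX.PayG

/-!
# The sides of the game are continuous, the small sets are open

The hypotheses `hg` and `hX` of the existence theorem `exists_eqm` for the game of `Gme.lean`.
-/

set_option autoImplicit false

namespace Pool.Agent.Lib.GSX

open Finset Classical
open Pool.Agent.Lib.GSR Pool.Agent.Lib.GSR.HZ Pool.Agent.Lib.GSR.HZB

section

variable {V : Type} [Fintype V] {P : Cn} {G : SimpleGraph V}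

/-- The domain is closed. -/
theorem isClosed_domT : IsClosed (DomT P V) := isClosed_dom Eqx_.isCompact_Ki

/-! ### The sides -/

namespace GmeC_

section side

variable {Θ : Type} [TopologicalSpace Θ] {D : Set Θ} {S : Θ → Sta P V} {I : Θ → Inp P V}
  {W : Finset V}

theorem sdU_cont (h : Fam P S I W D) (hU : FamU P I D) (k : K2 P) (v : V) :
    ContinuousOn (fun θ => sdU P G (I θ) k v) D := by
  obtain ⟨a, j, i⟩ := k
  fin_cases i
  · exact h.sd_upA hU a j v
  · exact (h.upSh hU a j v).sub continuousOn_const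
  · exact (h.upg hU a j v).sub continuousOn_const

theorem sdK_cont (h : Fam P S I W D) (k : K4 P) (v : V) :
    ContinuousOn (fun θ => sdK P G (S θ) (I θ) k v) D := by
  obtain ⟨i, T, C⟩ := k
  fin_cases i
  · exact (h.out v).sub continuousOn_const
  · exact (h.ShP C v).sub continuousOn_const
  · exact (h.ShA T C v).sub continuousOn_const
  · exact h.sd_AS T _ v
  · exact (h.gpP C v).sub continuousOn_const
  · exact (h.gpA T C v).sub continuousOn_const

theorem sde_cont (h : Fam P S I W D) (hU : FamU P I D) (X : Cx) :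
    ∀ (β : Bt P) (v : V), ContinuousOn (fun θ => sde P G X (S θ) (I θ) β v) D
  | .inl (.inl (.inl _)), v => h.sd_atm P.xi2 v
  | .inl (.inl (.inr k)), v => sdU_cont h hU k v
  | .inl (.inr _), v => h.sd_thin X.c0 v
  | .inr k, v => sdK_cont h k v

end side

end GmeC_

open GmeC_

/-- **The functions of the bits are continuous.** -/
theorem Gs_cont (hP : CPos P) (hth : ∀ b, 0 < P.th b) (hGu : ∀ b, 0 < P.Gu b) (X : Cx) (s : ℕ)
    (β : Bt P) (p : Hh P V) (v : V) : ContinuousOn (fun θ => Gs P G X s β p v θ) (DomT P V) := by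
  by_cases h : s < P.N
  · have h1 : (fun θ => Gs P G X s β p v θ) =
        fun θ => sde P G X (stt P G θ p s) (inpt P θ ⟨s, h⟩ p) β v :=
      funext fun θ => dif_pos h
    rw [h1]
    exact sde_cont (fam_stt hP ⟨s, h⟩ p) (PayIx_.famU hth hGu ⟨s, h⟩ p) X β v
  · have h1 : (fun θ => Gs P G X s β p v θ) = fun _ => 0 := funext fun θ => dif_neg h
    rw [h1]
    exact continuousOn_const

/-- The hypothesis `hg` of `exists_eqm`. -/
theorem gB_cont (hP : CPos P) (hth : ∀ b, 0 < P.th b) (hGu : ∀ b, 0 < P.Gu b) (X : Cx) :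
    ∀ s < P.N, ∀ (j : Fin (nb P)) (p : Hh P V) (v : V),
      ContinuousOn (fun θ => gB (Gs P G X) s j p v θ) (DomT P V) :=
  fun s _ _ p v => Gs_cont hP hth hGu X s _ p v

/-! ### The small sets -/

/-- The atoms. -/
theorem XAt_open (hP : CPos P) (s : Fin P.N) (p : Hh P V) (v : V) :
    OpD (DomT P V) fun θ => v ∈ XAt P G (inpt P θ s p) :=
  (fam_stt (G := G) hP s p).atm_open isClosed_domT P.xi1 v

/-- The small set of a pool. -/
theorem XPo_open (hP : CPos P) (X : Cx) (hq : X.qB ≤ P.r0 + 1) (Q : Finset (Fin P.N)) (m : ℕ)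
    (s : Fin P.N) (p : Hh P V) (v : V) : OpD (DomT P V) fun θ => v ∈ XPo P G X Q m s p θ := by
  refine TCW.xb_open isClosed_domT (BF_ok isClosed_domT (fun j hj c hc => ?_) (fun j _ => ?_)
    _ _ _ _ _) G X.v0 X.k X.K0 X.ek X.et m v
  · exact sgP_mem_TP hc (by omega)
  · exact ⟨_, (fam_stt hP (sgP Q s P.r0 j) p).ctB _⟩

/-- **The small sets are open.** -/
theorem Xst_open (hP : CPos P) (X : Cx) (hq : X.qB ≤ P.r0 + 1) (s : ℕ) (i : Xi P) (p : Hh P V)
    (v : V) : OpD (DomT P V) fun θ => Xst P G X s i p v θ := by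
  by_cases h : s < P.N
  · match i with
    | .inl 0 => exact (XAt_open hP ⟨s, h⟩ p v).congr fun θ _ => ⟨fun h1 => ⟨h, h1⟩, fun h1 => h1.2⟩
    | .inl 1 =>
      exact ((fam_stt (G := G) hP ⟨s, h⟩ p).xeq_open isClosed_domT X.K0E X.K1E X.eE X.dE X.gE
        X.LE v).congr fun θ _ => ⟨fun h1 => ⟨h, h1⟩, fun h1 => h1.2⟩
    | .inr (Q, m) =>
      exact ((OpD.const isClosed_domT _).and (XPo_open hP X hq Q m ⟨s, h⟩ p v)).congr
        fun θ _ => ⟨fun h1 => ⟨h, h1⟩, fun h1 => h1.2⟩
  · exact (OpD.const isClosed_domT False).congr fun θ _ => ⟨fun h1 => h1.elim, fun h1 => h h1.1⟩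

/-- The hypothesis `hX` of `exists_eqm`. -/
theorem Xst_closed (hP : CPos P) (X : Cx) (hq : X.qB ≤ P.r0 + 1) :
    ∀ s < P.N, ∀ (i : Xi P) (p : Hh P V) (v : V),
      IsClosed {θ | θ ∈ DomT P V ∧ ¬ Xst P G X s i p v θ} :=
  fun s _ i p v => Xst_open hP X hq s i p v

end

end Pool.Agent.Lib.GSX
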