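import Pool.Agent.Lib.GSX.Gme
import Pool.Agent.Lib.GSX.ContAll
import Pool.Agent.Lib.GSX.FamB
import Pool.Agent.Lib.GSX.XPl
import Pool.Agent.Lib.GSX.XBrec
import Pool.Agent.Lib.GSX.Hts
import Pool.Agent.Lib.GSI.RedF

/-!
# The small sets of the pools in the game

`xpo_closed`: the condition `v ∈ XPo` is open; `xpo_col`: the set is colourable for every
parameter; `xpo_hp`: it only depends on the half prefix; `xpo_of_stX`: the facts `StX` of all the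
stages of the pool put the node into the set; `GEq.not_xpo`: the nodes of the equilibrium are not in
these sets.
-/

set_option autoImplicit false

namespace Pool.Agent.Lib.GSX

open Finset Classical
open Pool.Agent.Lib.GSR Pool.Agent.Lib.GSR.HZ Pool.Agent.Lib.GSR.HZB
open Pool.Agent.Lib.TCW (ColG Cst FRec NrS xb_open xb_colW)
open Pool.Agent.Lib.GSI (Wd Win)

namespace GmeX1_

theorem nrS_mono {V Ω : Type} [Fintype Ω] {G : SimpleGraph V} {m s : ℕ} {η η' : ℝ} {k : Cst}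
    {pl : Ω → Prop} {hub : Ω → V} {w : Ω → ℝ} {h : ℕ → V → ℝ} {H : ℕ → Ω → ℤ} {t : V}
    (hη : η ≤ η') (hN : NrS G m s η k pl hub w h H t) : NrS G m s η' k pl hub w h H t where
  nr1 := hN.nr1
  nr2 := hN.nr2
  fan S' hS' F h1 h2 := by
    obtain ⟨a, ha⟩ := hN.fan S' hS' F h1 h2
    exact ⟨a, ha.trans_le hη⟩

theorem xb_mono {P V Ω : Type} [Fintype V] [Fintype Ω] {A : FRec P V Ω} {G : SimpleGraph V}
    {v0 : ℕ} {k : Cst} {K0 ε η η' : ℝ} {m q : ℕ} {θ : P} (hη : η ≤ η') :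
    A.XB G v0 k K0 ε η m q θ ⊆ A.XB G v0 k K0 ε η' m q θ := fun _ hv s hs =>
  ⟨(hv s hs).1, nrS_mono hη (hv s hs).2⟩

theorem sgP_le {N : ℕ} {Q : Finset (Fin N)} {s : Fin N} (h : ∀ c ∈ Q, c ≤ s) (r j : ℕ) :
    sgP Q s r j ≤ s := by
  unfold sgP
  by_cases h1 : r + j < Q.card
  · exact h _ (enm_mem h1)
  · unfold enm
    rw [dif_neg h1]

end GmeX1_

open GmeX1_

section

variable {V : Type} [Fintype V] {P : Cn} {G : SimpleGraph V}

/-- The record of functions of a pool along a history is continuous. -/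
theorem bf_ok (hP : CPos P) {Q : Finset (Fin P.N)} {s : Fin P.N} {q : ℕ}
    (hQ : Q.card = P.r0 + q) (hq : q ≤ P.r0 + 1) (p : Hh P V) (m : ℕ) (l0 : ℤ) (ε ρ : ℝ)
    (d : ℕ) :
    (BF P G (fun c θ => stt P G θ p c) (fun c θ => inpt P θ c p) (TP Q s P.r0)
      (sgP Q s P.r0) m l0 ε ρ d).Ok (DomT P V) q := by
  have hD : IsClosed (DomT P V) := isClosed_dom Eqx_.isCompact_Ki
  refine BF_ok hD (fun j hj c hc => sgP_mem_TP hc (by omega)) (fun j _ => ?_) m l0 ε ρ d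
  exact ⟨_, (fam_stt (G := G) hP (sgP Q s P.r0 j) p).ctB (TP Q s P.r0 j)⟩

/-- The condition `v ∈ XPo` is open. -/
theorem xpo_closed (hP : CPos P) {X : Cx} {Q : Finset (Fin P.N)} {s : Fin P.N}
    (hQ : Q.card = P.r0 + X.qB) (hq : X.qB ≤ P.r0 + 1) (m : ℕ) (p : Hh P V) (v : V) :
    IsClosed {θ | θ ∈ DomT P V ∧ ¬ v ∈ XPo P G X Q m s p θ} := by
  have hD : IsClosed (DomT P V) := isClosed_dom Eqx_.isCompact_Ki
  exact xb_open hD (bf_ok (G := G) hP hQ hq p m X.l0 X.eth (√(1 / 2)) X.d) G X.v0 X.k X.K0 X.ek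
    X.et m v

/-- The sets `XPo` are colourable. -/
theorem xpo_col (hP : CPos P) {X : Cx} {Q : Finset (Fin P.N)} {s : Fin P.N}
    (hQ : Q.card = P.r0 + X.qB) (hq : X.qB ≤ P.r0 + 1) {D : Wd} {h R m : ℕ}
    (hW : Win D h R G) (hm : m ≤ h) (hK0 : 0 < X.K0) (hek : 0 < X.ek) (hR : R + 1 ≤ X.qB)
    (hv0 : X.v0 ≤ X.k.w0) (hu : X.k.l0 + 6 * X.k.w0 + 1 ≤ X.k.u)
    (het : X.et ≤ D.ηB m X.qB X.v0 X.K0 X.ek) (p : Hh P V) {θ : Tht P V}
    (hθ : θ ∈ DomT P V) :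
    ColG G (XPo P G X Q m s p θ) (D.CB m X.qB X.v0 X.K0 X.ek X.k) := by
  refine (xb_colW (η := D.ηB m X.qB X.v0 X.K0 X.ek) (m := m) hK0
    (hW.b m hm X.qB X.v0 X.K0 X.ek hK0 hek hR X.k hv0 hu (Ce P V))
    (bf_ok (G := G) hP (s := s) hQ hq p m X.l0 X.eth (√(1 / 2)) X.d) hθ).mono ?_ le_rfl
  exact xb_mono het

/-- The set `XPo` only depends on the half prefix. -/
theorem xpo_hp {X : Cx} {Q : Finset (Fin P.N)} {s : Fin P.N} (hs : ∀ c ∈ Q, c ≤ s) (m : ℕ)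
    (c : Hh P V) {j : ℕ} (hj : g3 P ≤ j) (θ : Tht P V) :
    XPo P G X Q m s (hp s j c) θ = XPo P G X Q m s c θ := by
  unfold XPo
  rw [BF_congr (S' := fun b θ => stt P G θ c b) (I' := fun b θ => inpt P θ b c)]
  · intro i
    funext θ
    exact stt_hp (sgP_le hs P.r0 i) c
  · intro i
    funext θ
    refine inpt_hp ?_ c
    rcases lt_or_eq_of_le (sgP_le hs P.r0 i) with h1 | h1
    · exact Or.inl h1
    · exact Or.inr ⟨congrArg Fin.val h1, hj⟩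

/-- **The facts of the stages of a pool put the node into the small set.** -/
theorem xpo_of_stX {X : Cx} {Q : Finset (Fin P.N)} {s : Fin P.N}
    (hQ : Q.card = P.r0 + X.qB) {θ : Tht P V} {c : Hh P V} {v : V} {m : ℕ}
    (hv0 : P.g0 + 1 ≤ X.v0) (hw0 : P.w0 + 1 ≤ X.k.w0)
    (h : ∀ j < X.qB, StX P G (stt P G θ c (sgP Q s P.r0 j)) (inpt P θ (sgP Q s P.r0 j) c)
      (TP Q s P.r0 j) (sgP Q s P.r0) j m X.l0 X.eth (√(1 / 2)) X.d X.k X.K0 X.ek X.et v) :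
    v ∈ XPo P G X Q m s c θ := by
  refine mem_BF hv0 hw0 (fun j hj b hb x => ?_) h
  have h1 : sgP Q s P.r0 b < sgP Q s P.r0 j := sgP_lt hQ hb hj
  have h2 := Hts_.stt_a (P := P) (G := G) (θ := θ) c (sgP Q s P.r0 b)
    (t := (sgP Q s P.r0 j).1) h1
  exact congrFun h2 x

/-- **The exact test** of the pools at the nodes of the next world. -/
theorem GEq.not_xpo {X : Cx} {b : ℕ → ℕ} {Qm : Hh P V × V → ℝ} {θ : Tht P V}
    (h : GEq P G X b Qm θ) {c : Hh P V} (hc : qc Qm c ≠ 0) {Q : Finset (Fin P.N)} {s : Fin P.N}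
    (hs : s ∈ Q) (hs' : ∀ c ∈ Q, c ≤ s) (hQ : Q.card = P.r0 + X.qB) (m : Fin P.h) {v : V}
    (hv : v ∈ wo c (s + 1)) : v ∉ XPo P G X Q m s c θ := by
  have h1 : ¬ Xst P G X s (.inr (Q, m)) (hp s (sxi P (.inr (Q, m))) c) v θ := by
    refine exaB h.eqm (fun i => ?_) hc s.2 _ hv
    rcases i with i | i
    · have h2 := g1_le_g2 P
      have h3 := g2_lt_g3 P
      have h4 := g3_le_nb P
      fin_cases i
      · change g1 ≤ nb P
        omega
      · change g2 P ≤ nb P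
        omega
    · exact g3_le_nb P
  intro h2
  refine h1 ⟨s.2, ⟨hs, hs', hQ⟩, ?_⟩
  rw [← xpo_hp hs' m c (le_refl (g3 P)) θ] at h2
  exact h2

/-- **A pair of positive mass whose node satisfies the facts of all the stages of a pool is
impossible.** -/
theorem GEq.not_stX {X : Cx} {b : ℕ → ℕ} {Qm : Hh P V × V → ℝ} {θ : Tht P V}
    (h : GEq P G X b Qm θ) {c : Hh P V} {v : V} (hcv : Qm (c, v) ≠ 0) {Q : Finset (Fin P.N)}
    {s : Fin P.N} (hs : s ∈ Q) (hs' : ∀ c ∈ Q, c ≤ s) (hQ : Q.card = P.r0 + X.qB)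
    (m : Fin P.h) (hv0 : P.g0 + 1 ≤ X.v0) (hw0 : P.w0 + 1 ≤ X.k.w0)
    (hX : ∀ j < X.qB, StX P G (stt P G θ c (sgP Q s P.r0 j)) (inpt P θ (sgP Q s P.r0 j) c)
      (TP Q s P.r0 j) (sgP Q s P.r0) j m X.l0 X.eth (√(1 / 2)) X.d X.k X.K0 X.ek X.et v) :
    False :=
  h.not_xpo (h.eqm.qc_ne hcv) hs hs' hQ m (h.eqm.mem_wo hcv (by omega))
    (xpo_of_stX hQ hv0 hw0 hX)

end

end Pool.Agent.Lib.GSX
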