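import Pool.Agent.Lib.GSX.Inst
import Pool.Agent.Lib.GSX.ContD

/-!
# The inputs and the states along a history: domains, signs, continuity

For a parameter `θ` of the domain the laws of the input are laws and the measures have their masses;
`inpt_ipos`, `stt_spos`: the signs; `inpt_cont`: the input is continuous in `θ`.
-/

set_option autoImplicit false

namespace Pool.Agent.Lib.GSX

open Finset Classical
open Pool.Agent.Lib.GSR Pool.Agent.Lib.GSR.HZ Pool.Agent.Lib.GSR.HZB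

namespace InpC_

section

variable {V : Type} [Fintype V] {P : Cn} {G : SimpleGraph V} {θ : Tht P V}

lemma wn_hp (s : Fin P.N) (j : ℕ) (p : Hh P V) : wn P s (hp s j p) = wn P s p := by
  unfold wn
  rw [wo_hp j le_rfl]

lemma wn_eq {s : Fin P.N} {p : Hh P V} (h : (wo p s).Nonempty) : wn P s p = wo p s := nes_eq h

lemma ki_mem (hθ : θ ∈ dom P.N (nb P) (Ki P (V := V))) (i : Ix P V) : θ.2 i ∈ Ki P i :=
  hθ.2 i (Set.mem_univ _)

lemma inpt_W (s : Fin P.N) (p : Hh P V) : (inpt P θ s p).W = wo p s := rfl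

/-! ### The laws of the node -/

lemma n0_mem (hθ : θ ∈ dom P.N (nb P) (Ki P (V := V))) (s : Fin P.N) (p : Hh P V) :
    (inpt P θ s p).n0 ∈ stdSimplex ℝ V := nh_mem hθ _ _ _

lemma n1_mem (hθ : θ ∈ dom P.N (nb P) (Ki P (V := V))) (s : Fin P.N) (p : Hh P V) :
    (inpt P θ s p).n1 ∈ stdSimplex ℝ V := nh_mem hθ _ _ _

lemma n2_mem (hθ : θ ∈ dom P.N (nb P) (Ki P (V := V))) (s : Fin P.N) (p : Hh P V) :
    (inpt P θ s p).n2 ∈ stdSimplex ℝ V := nh_mem hθ _ _ _

lemma n3_mem (hθ : θ ∈ dom P.N (nb P) (Ki P (V := V))) (s : Fin P.N) (p : Hh P V) :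
    (inpt P θ s p).n3 ∈ stdSimplex ℝ V := nh_mem hθ _ _ _

/-! ### The coordinates -/

lemma pi_mem (hθ : θ ∈ dom P.N (nb P) (Ki P (V := V))) (s : Fin P.N) (p : Hh P V) :
    (inpt P θ s p).pi ∈ LawOn (wn P s p ×ˢ Finset.univ) := by
  have h : (inpt P θ s p).pi ∈ LawOn (wn P s (hp s 0 p) ×ˢ Finset.univ) :=
    ki_mem hθ (.pi s (hp s 0 p))
  rwa [wn_hp] at h

lemma sg_mem (hθ : θ ∈ dom P.N (nb P) (Ki P (V := V))) (s : Fin P.N) (p : Hh P V) (a : Fin 2)
    {j : ℕ} (hj : j < P.h) :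
    (inpt P θ s p).sg a j ∈ LawOn (wn P s p ×ˢ Finset.univ) := by
  have h : θ.2 (.sg s (hp s g1 p) a ⟨j, hj⟩) ∈
      LawOn (Y := Ml P V) (wn P s (hp s g1 p) ×ˢ Finset.univ) :=
    ki_mem hθ (.sg s (hp s g1 p) a ⟨j, hj⟩)
  rw [wn_hp] at h
  have h1 : (inpt P θ s p).sg a j = θ.2 (.sg s (hp s g1 p) a ⟨j, hj⟩) := dif_pos hj
  rw [h1]
  exact h

lemma sg_zero (s : Fin P.N) (p : Hh P V) (a : Fin 2) {j : ℕ} (hj : ¬ j < P.h) :
    (inpt P θ s p).sg a j = fun _ => 0 := dif_neg hj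

lemma su_mem (hθ : θ ∈ dom P.N (nb P) (Ki P (V := V))) (s : Fin P.N) (p : Hh P V) (a : Fin 2)
    {j : ℕ} (hj : j < P.h) (l : Ml P V) :
    (inpt P θ s p).su a j l ∈ Ms (P.Lu a) (wn P s p) := by
  have h : θ.2 (.su s (hp s g1 p) a ⟨j, hj⟩ l) ∈ Ms (P.Lu a) (wn P s (hp s g1 p)) :=
    ki_mem hθ (.su s (hp s g1 p) a ⟨j, hj⟩ l)
  rw [wn_hp] at h
  have h1 : (inpt P θ s p).su a j l = θ.2 (.su s (hp s g1 p) a ⟨j, hj⟩ l) := dif_pos hj
  rw [h1]
  exact h

lemma su_zero (s : Fin P.N) (p : Hh P V) (a : Fin 2) {j : ℕ} (hj : ¬ j < P.h) (l : Ml P V) :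
    (inpt P θ s p).su a j l = fun _ => 0 := dif_neg hj

lemma lp_mem (hθ : θ ∈ dom P.N (nb P) (Ki P (V := V))) (s : Fin P.N) (p : Hh P V)
    (C : Finset (Fin P.N)) (l : Ml P V) :
    (inpt P θ s p).lp C l ∈ Ms (P.Lam' C.card) (wn P s p) := by
  have h : (inpt P θ s p).lp C l ∈ Ms (P.Lam' C.card) (wn P s (hp s (g3 P) p)) :=
    ki_mem hθ (.lp s (hp s (g3 P) p) C l)
  rwa [wn_hp] at h

lemma sv_mem (hθ : θ ∈ dom P.N (nb P) (Ki P (V := V))) (s : Fin P.N) (p : Hh P V)
    (T C : Finset (Fin P.N)) (l : Ce P V) :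
    (inpt P θ s p).q T C l ∈ LawOn (wn P s p) ∧
      (inpt P θ s p).mu T C l ∈ Ms (P.Lam C.card) (wn P s p) := by
  have h : (inpt P θ s p).q T C l ∈ LawOn (wn P s (hp s (g3 P) p)) ∧
      (inpt P θ s p).mu T C l ∈ Ms (P.Lam C.card) (wn P s (hp s (g3 P) p)) :=
    ki_mem hθ (.sv s (hp s (g3 P) p) T C l)
  rwa [wn_hp] at h

lemma la_mem (hθ : θ ∈ dom P.N (nb P) (Ki P (V := V))) (s : Fin P.N) (p : Hh P V)
    (T C : Finset (Fin P.N)) (l : Ce P V) :
    (inpt P θ s p).la T C l ∈ Ms (P.Lam' C.card) (wn P s p) := by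
  have h : (inpt P θ s p).la T C l ∈ Ms (P.Lam' C.card) (wn P s (hp s (g3 P) p)) :=
    ki_mem hθ (.la s (hp s (g3 P) p) T C l)
  rwa [wn_hp] at h

/-! ### Signs -/

/-- The signs of the UP parts of the input. -/
lemma sg_nonneg (hθ : θ ∈ dom P.N (nb P) (Ki P (V := V))) (s : Fin P.N) (p : Hh P V) (a : Fin 2)
    (j : ℕ) (l : Ml P V) : 0 ≤ (inpt P θ s p).sg a j l := by
  by_cases hj : j < P.h
  · exact (sg_mem hθ s p a hj).1.1 l
  · rw [sg_zero s p a hj]

lemma su_nonneg (hθ : θ ∈ dom P.N (nb P) (Ki P (V := V))) (s : Fin P.N) (p : Hh P V) (a : Fin 2)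
    (j : ℕ) (l : Ml P V) (u : V) : 0 ≤ (inpt P θ s p).su a j l u := by
  by_cases hj : j < P.h
  · exact (su_mem hθ s p a hj l).1 u
  · rw [su_zero s p a hj l]

/-- The signs of the input. -/
theorem inpt_ipos (hθ : θ ∈ dom P.N (nb P) (Ki P (V := V))) (s : Fin P.N) (p : Hh P V) :
    IPos (inpt P θ s p) where
  n0 := (n0_mem hθ s p).1
  n1 := (n1_mem hθ s p).1
  n2 := (n2_mem hθ s p).1
  n3 := (n3_mem hθ s p).1
  pi := (pi_mem hθ s p).1.1
  q T C l := (sv_mem hθ s p T C l).1.1.1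
  mu T C l := (sv_mem hθ s p T C l).2.1
  lp C l := (lp_mem hθ s p C l).1
  la T C l := (la_mem hθ s p T C l).1

/-- The signs of the states. -/
theorem stt_spos (hP : CPos P) (hθ : θ ∈ dom P.N (nb P) (Ki P (V := V))) (p : Hh P V) (s : ℕ) :
    SPos (stt P G θ p s) := by
  induction s with
  | zero => exact ⟨fun _ _ => one_pos, fun _ _ _ => le_rfl, fun _ => le_rfl⟩
  | succ s ih =>
    by_cases h : s < P.N
    · rw [stt_succ p h]
      exact RecP_.nxt_spos hP ih (inpt_ipos hθ _ p)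
    · rw [stt, dif_neg h]
      exact ih

/-! ### Continuity -/

omit [Fintype V] in
lemma cont_co [Fintype V] (i : Ix P V) (y : Yi P V i) :
    Continuous fun θ : Tht P V => θ.2 i y :=
  (continuous_apply y).comp ((continuous_apply i).comp continuous_snd)

/-- The input is continuous in the parameter. -/
theorem inpt_cont (s : Fin P.N) (p : Hh P V) (D : Set (Tht P V)) :
    ContI (fun θ : Tht P V => inpt P θ s p) (wo p s) D where
  hW _ _ := rfl
  n0 x := (continuous_nh _ _ _ x).continuousOn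
  n1 x := (continuous_nh _ _ _ x).continuousOn
  n2 x := (continuous_nh _ _ _ x).continuousOn
  n3 x := (continuous_nh _ _ _ x).continuousOn
  pi l := (cont_co (.pi s (hp s 0 p)) l).continuousOn
  sg a j l := by
    by_cases hj : j < P.h
    · have h1 : (fun θ : Tht P V => (inpt P θ s p).sg a j l) =
          fun θ : Tht P V => θ.2 (.sg s (hp s g1 p) a ⟨j, hj⟩) l := by
        funext θ
        exact congrFun (dif_pos hj) l
      rw [h1]
      exact (cont_co (.sg s (hp s g1 p) a ⟨j, hj⟩) l).continuousOn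
    · have h1 : (fun θ : Tht P V => (inpt P θ s p).sg a j l) = fun _ : Tht P V => 0 := by
        funext θ
        exact congrFun (dif_neg hj) l
      rw [h1]
      exact continuousOn_const
  su a j l x := by
    by_cases hj : j < P.h
    · have h1 : (fun θ : Tht P V => (inpt P θ s p).su a j l x) =
          fun θ : Tht P V => θ.2 (.su s (hp s g1 p) a ⟨j, hj⟩ l) x := by
        funext θ
        exact congrFun (dif_pos hj) x
      rw [h1]
      exact (cont_co (.su s (hp s g1 p) a ⟨j, hj⟩ l) x).continuousOn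
    · have h1 : (fun θ : Tht P V => (inpt P θ s p).su a j l x) = fun _ : Tht P V => 0 := by
        funext θ
        exact congrFun (dif_neg hj) x
      rw [h1]
      exact continuousOn_const
  lp C l x := (cont_co (.lp s (hp s (g3 P) p) C l) x).continuousOn
  q T C l x := (cont_co (.sv s (hp s (g3 P) p) T C l) (.inl x)).continuousOn
  mu T C l x := (cont_co (.sv s (hp s (g3 P) p) T C l) (.inr x)).continuousOn
  la T C l x := (cont_co (.la s (hp s (g3 P) p) T C l) x).continuousOn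

/-! ### The domains -/

/-- The coordinates have compact convex domains. -/
theorem isCompact_ki (i : Ix P V) : IsCompact (Ki P i) := by
  cases i with
  | pi s p => exact isCompact_lawOn _
  | sg s p a j => exact isCompact_lawOn _
  | su s p a j l => exact isCompact_Ms _ _
  | sv s p T C l => exact isCompact_QMs _ _ _
  | lp s p C l => exact isCompact_Ms _ _
  | la s p T C l => exact isCompact_Ms _ _

theorem convex_ki (i : Ix P V) : Convex ℝ (Ki P i) := by
  cases i with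
  | pi s p => exact convex_lawOn _
  | sg s p a j => exact convex_lawOn _
  | su s p a j l => exact convex_Ms _ _
  | sv s p T C l => exact convex_QMs _ _ _
  | lp s p C l => exact convex_Ms _ _
  | la s p T C l => exact convex_Ms _ _

theorem nonempty_ki [Nonempty V] (hLu : ∀ a, 0 ≤ P.Lu a) (hL : ∀ k, 0 ≤ P.Lam k)
    (hL' : ∀ k, 0 ≤ P.Lam' k) (i : Ix P V) : (Ki P i).Nonempty := by
  have h0 : ∀ (s : Fin P.N) (p : Hh P V),
      (wn P s p ×ˢ (Finset.univ : Finset (Fin (P.I0 + 1)))).Nonempty :=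
    fun s p => (nes_nonempty _).product Finset.univ_nonempty
  cases i with
  | pi s p => exact nonempty_lawOn (h0 s p)
  | sg s p a j => exact nonempty_lawOn (h0 s p)
  | su s p a j l => exact nonempty_Ms (hLu a) _
  | sv s p T C l => exact nonempty_QMs (nes_nonempty _) (hL _) _
  | lp s p C l => exact nonempty_Ms (hL' _) _
  | la s p T C l => exact nonempty_Ms (hL' _) _

end

end InpC_

end Pool.Agent.Lib.GSX
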