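import Pool.Agent.Lib.GSX.Gme
import Pool.Agent.Lib.GSX.InpC
import Pool.Agent.Lib.GSX.C1
import Pool.Agent.Lib.GSX.EqC

/-!
# The small sets of the game: the windows of equal heights

`xeq_closed`: for the names `.inl 1` the sets of parameters without the vertex are closed;
`xeq_col`: the sets are colourable.
-/

set_option autoImplicit false

namespace Pool.Agent.Lib.GSX

open Finset Classical
open Pool.Agent.Lib.GSR Pool.Agent.Lib.GSR.HZ Pool.Agent.Lib.GSR.HZB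
open Pool.Agent.Lib.GSI (Wd Win)
open Pool.Agent.Lib.TCW (ColG)

/-- A set which is open along a closed set has a closed complement there. -/
theorem isClosed_not_of_open {Θ : Type} [TopologicalSpace Θ] {D : Set Θ} (hD : IsClosed D)
    {q : Θ → Prop} (h : IsOpen {θ : D | q θ.1}) : IsClosed {θ | θ ∈ D ∧ ¬ q θ} := by
  have h1 : IsClosed {θ : D | ¬ q θ.1} := by
    have h2 : {θ : D | ¬ q θ.1} = {θ : D | q θ.1}ᶜ := by
      ext θ
      simp
    rw [h2]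
    exact h.isClosed_compl
  have h3 : {θ | θ ∈ D ∧ ¬ q θ} = Subtype.val '' {θ : D | ¬ q θ.1} := by
    ext θ
    constructor
    · rintro ⟨hθ, hq⟩
      exact ⟨⟨θ, hθ⟩, hq, rfl⟩
    · rintro ⟨θ', hq, rfl⟩
      exact ⟨θ'.2, hq⟩
  rw [h3]
  exact hD.isClosedEmbedding_subtypeVal.isClosedMap _ h1

section

variable {V : Type} [Fintype V] {P : Cn} {G : SimpleGraph V}

/-- The sets `X_EQ` along a history. -/
theorem xEqR_closed (he : 0 < P.e0) (s : Fin P.N) (p : Hh P V) (K0 K1 ε δ g L : ℝ) (v : V) :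
    IsClosed {θ | θ ∈ DomT P V ∧ ¬ v ∈ XEqR P G (inpt P θ s p) K0 K1 ε δ g L} := by
  refine isClosed_not_of_open (isClosed_dom Eqx_.isCompact_Ki)
    (q := fun θ => v ∈ XEqR P G (inpt P θ s p) K0 K1 ε δ g L) ?_
  refine isOpen_xEqR P G (wo p s) (fun θ : DomT P V => inpt P θ.1 s p) (fun _ => rfl)
    K0 K1 ε δ g L ?_ ?_ ?_ v
  · intro y
    have h1 : ContinuousOn (fun θ => al P G (inpt P θ s p) y) (DomT P V) :=
      C1_al he (InpC_.inpt_cont s p (DomT P V)) (fun θ hθ => (InpC_.inpt_ipos hθ s p).pi) y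
    exact continuousOn_iff_continuous_domRestrict.1 h1
  · intro y
    exact continuousOn_iff_continuous_domRestrict.1 ((InpC_.inpt_cont s p (DomT P V)).n2 y)
  · intro θ y
    exact (InpC_.inpt_ipos θ.2 s p).n2 y

/-- The names `.inl 1`: closedness. -/
theorem xeq_closed (he : 0 < P.e0) (X : Cx) {s : ℕ} (hs : s < P.N) (p : Hh P V) (v : V) :
    IsClosed {θ | θ ∈ DomT P V ∧ ¬ Xst P G X s (.inl 1) p v θ} := by
  have h1 : {θ | θ ∈ DomT P V ∧ ¬ Xst P G X s (.inl 1) p v θ} =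
      {θ | θ ∈ DomT P V ∧
        ¬ v ∈ XEqR P G (inpt P θ ⟨s, hs⟩ p) X.K0E X.K1E X.eE X.dE X.gE X.LE} := by
    ext θ
    have h2 : Xst P G X s (.inl 1) p v θ ↔
        v ∈ XEqR P G (inpt P θ ⟨s, hs⟩ p) X.K0E X.K1E X.eE X.dE X.gE X.LE :=
      ⟨fun ⟨_, h⟩ => h, fun h => ⟨hs, h⟩⟩
    simp only [Set.mem_ofPred_eq, h2]
  rw [h1]
  exact xEqR_closed he _ p _ _ _ _ _ _ v

/-- The sets `X_EQ` along a history are colourable. -/
theorem xEqR_colT {D : Wd} {m R : ℕ} (hW : Win D m R G) {K0 ε : ℝ} (hK0 : 0 < K0) (hε : 0 < ε)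
    (K1 g L : ℝ) {θ : Tht P V} (hθ : θ ∈ DomT P V) (s : Fin P.N) (p : Hh P V) :
    ColG G (XEqR P G (inpt P θ s p) K0 K1 ε (D.δE K0 ε) g L) (D.CE K0 ε K1) :=
  xEqR_col hW hK0 hε K1 g L _ (InpC_.inpt_ipos hθ s p).n2

/-- The names `.inl 1`: the colours. -/
theorem xeq_col {D : Wd} {m R : ℕ} (hW : Win D m R G) {X : Cx} (hK0 : 0 < X.K0E) (hε : 0 < X.eE)
    (hδ : X.dE = D.δE X.K0E X.eE) {θ : Tht P V} (hθ : θ ∈ DomT P V) (s : ℕ) (p : Hh P V) :
    ColG G {v | Xst P G X s (.inl 1) p v θ} (D.CE X.K0E X.eE X.K1E) := by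
  by_cases hs : s < P.N
  · refine (xEqR_colT hW hK0 hε X.K1E X.gE X.LE hθ ⟨s, hs⟩ p).mono ?_ le_rfl
    rintro v ⟨_, h⟩
    rw [← hδ]
    exact h
  · refine (ColG.empty G).mono ?_ (Nat.zero_le _)
    rintro v ⟨h, _⟩
    exact absurd h hs

/-- The names `.inl 1`: the colours, for the finite set of the worlds. -/
theorem xeq_colF {D : Wd} {m R : ℕ} (hW : Win D m R G) {X : Cx} (hK0 : 0 < X.K0E)
    (hε : 0 < X.eE) (hδ : X.dE = D.δE X.K0E X.eE) {θ : Tht P V} (hθ : θ ∈ DomT P V) (s : ℕ)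
    (p : Hh P V) (W : Finset V) {C : ℕ} (hC : D.CE X.K0E X.eE X.K1E ≤ C) :
    colF G (W.filter fun v => Xst P G X s (.inl 1) p v θ) C := by
  refine (xeq_col hW hK0 hε hδ hθ s p).mono ?_ hC
  intro v hv
  exact (Finset.mem_filter.1 hv).2

end

end Pool.Agent.Lib.GSX
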