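import Pool.Agent.Lib.GSX.GmeX
import Pool.Agent.Lib.GSX.GmeX2
import Pool.Agent.Lib.GSX.GmeC
import Pool.Agent.Lib.GSX.GmeX1

/-!
# The equilibrium of the game on a graph which is not colourable

`gEq_of_win`: if the windows of `G` are colourable and `G` is not colourable with `b 0` colours,
then the game has an equilibrium.
-/

set_option autoImplicit false

namespace Pool.Agent.Lib.GSX

open Finset Classical
open Pool.Agent.Lib.GSR Pool.Agent.Lib.GSR.HZ Pool.Agent.Lib.GSR.HZB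
open Pool.Agent.Lib.TCW (ColG Cst)
open Pool.Agent.Lib.GSI (Wd Win)

section

variable {V : Type} [Fintype V] {P : Cn} {G : SimpleGraph V} {X : Cx}

/-- The numbers of the tests of the pools. -/
structure XNum (D : Wd) (h R : ℕ) (P : Cn) (X : Cx) (Cs : ℕ) : Prop where
  hP : P.h ≤ h
  xi1 : 0 < P.xi1
  at1 : ⌈1 / P.xi1⌉₊ ≤ Cs
  K0E : 0 < X.K0E
  eE : 0 < X.eE
  dE : X.dE = D.δE X.K0E X.eE
  CE : D.CE X.K0E X.eE X.K1E ≤ Cs
  qR : R + 1 ≤ X.qB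
  qr : X.qB ≤ P.r0 + 1
  K0 : 0 < X.K0
  ek : 0 < X.ek
  w0 : X.v0 ≤ X.k.w0
  u : X.k.l0 + 6 * X.k.w0 + 1 ≤ X.k.u
  et : ∀ m < P.h, X.et ≤ D.ηB m X.qB X.v0 X.K0 X.ek
  CB : ∀ m < P.h, D.CB m X.qB X.v0 X.K0 X.ek X.k ≤ Cs

namespace FinV_

theorem sxi_le (P : Cn) (i : Xi P) : sxi P i ≤ nb P := by
  have h1 := g1_le_g2 P
  have h2 := (g2_lt_g3 P).le
  have h3 := g3_le_nb P
  match i with
  | .inl 0 => exact h1.trans (h2.trans h3)
  | .inl 1 => exact h2.trans h3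
  | .inr _ => exact h3

end FinV_

/-- **The equilibrium** of the game, for a graph which is not colourable with `b 0` colours and whose
windows are colourable. -/
theorem gEq_of_win [Nonempty V] {D : Wd} {h R Cs : ℕ} (hW : Win D h R G)
    (hX : XNum D h R P X Cs) (hP : CPos P) (hth : ∀ b, 0 < P.th b) (hGu : ∀ b, 0 < P.Gu b)
    (hLu : ∀ a, 0 ≤ P.Lu a) (hL : ∀ k, 0 ≤ P.Lam k) (hL' : ∀ k, 0 ≤ P.Lam' k) {b : ℕ → ℕ}
    (hb : ∀ s < P.N, 1 + 2 ^ nb P * (Fintype.card (Xi P) * Cs + b (s + 1)) ≤ b s)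
    (hG : ¬ ColG G Set.univ (b 0)) : ∃ Q θ, GEq P G X b Q θ := by
  obtain ⟨Q, θ, h1, h2, h3⟩ := exists_eqm (P := P) (GmeX_.colF_s G) hLu hL hL' (pay P G)
    (pay_cont hP hth hGu) (pay_concave hP hth) b (nxw P G) GmeX_.nxw_sub (fun _ => Cs) (sxi P)
    (FinV_.sxi_le P) (Xst P G X) (Xst_closed hP X hX.qr) (stB (Fin 1) (K2 P) (Fin 1) (K4 P))
    (gB (Gs P G X)) (gB_cont hP hth hGu X) (GmeX_.not_colF_univ hG)
    (GmeX_.hb_nxw (C := fun _ => Cs) hb) (fun θ hθ s _ c _ _ _ i =>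
      GmeX_.xst_col (fun s p => (GmeX_.xat_col hX.xi1 hθ s p).mono subset_rfl hX.at1)
        (fun s p => by
          rw [hX.dE]
          exact (xEqR_colT hW hX.K0E hX.eE X.K1E X.gE X.LE hθ s p).mono subset_rfl hX.CE)
        (fun Q m s p _ _ hQ => (xpo_col hP hQ hX.qr hW (m.2.le.trans hX.hP) hX.K0 hX.ek hX.qR
          hX.w0 hX.u (hX.et m m.2) p hθ).mono subset_rfl (hX.CB m m.2)) s i _ _)
  exact ⟨Q, θ, h1, h2, h3⟩

end

end Pool.Agent.Lib.GSX
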