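import Pool.Agent.Lib.GSX.HisG
import Pool.Agent.Lib.GSX.KTools

/-!
# The constants of the block G: the UP systems, the thin side, the atoms

Older constants: `M h κ F`, `c0` (typical histories), `xi` (thinness), `dlE` (data of the untyped
windows), `UX2` (a bound for the atoms).

New constants, in this order: `v w0 τ` and, for the first UP system, `th | δ Au Lu eu | e1 | Bu |
Gu`; `g | eE | dE δ'`; for the second UP system, `th | δ Au Lu eu | e1 | Bu | Gu`;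
`L' | xi2 | xi1`.
-/

set_option autoImplicit false

namespace Pool.Agent.Lib.GSX

open Finset Classical Filter Topology
open Pool.Agent.Lib.GSLE (brw brw_nonneg brw_zero brw_continuous)

/-- The bounds of the masters of an UP system (`UpB.upB`). -/
noncomputable def bU (A Bu th : ℝ) : ℕ → ℝ
  | 0 => 0
  | j + 1 => 4 * (A * bU A Bu th j + Bu / th)

/-- The inequalities of one UP system, without the atoms: `th` the threshold, `du A L eu` the
constants of the services, `e1` the charge of a hub, `Bu` the payments, `Gu` the gap. -/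
structure OkUp (M h κ : ℕ) (c0 th du A L eu e1 Bu Gu : ℝ) : Prop where
  th0 : 0 < th
  du0 : 0 < du
  A1 : 1 ≤ A
  L0 : 0 ≤ L
  eu0 : 0 < eu
  root : ∀ j, 1 ≤ j → j < h → RootC M j κ du A L eu
  e10 : 0 < e1
  e1M : M * e1 < 1
  Bu1 : 1 ≤ Bu
  pay : PayI_.cPay * (4 * c0⁻¹) * (1 + L + 1 / eu) < c0 * Bu
  score : du + A * (e1 + h * (PayI_.cPay * (4 * c0⁻¹) * (1 + L + 1 / eu) / Bu)) < c0 / 8
  Gu1 : 1 ≤ Gu
  gap : ∀ j, j < h → bU A Bu th j * brw (1 / 4) (1 / Gu) ≤ e1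

theorem lg_gap (b : ℝ) {a : ℝ} (ha : 0 < a) :
    ∀ᶠ x : ℝ in atTop, b * brw (1 / 4) (1 / x) ≤ a := by
  refine lg_tendsto (f := fun x => b * brw (1 / 4) (1 / x)) ?_ ha
  have h1 : Tendsto (fun x : ℝ => 1 / x) atTop (𝓝 0) :=
    tendsto_const_nhds.div_atTop tendsto_id
  have h2 := ((brw_continuous (e := 1 / 4) (by norm_num) (by norm_num)).tendsto 0).comp h1
  rw [brw_zero (by norm_num)] at h2
  simpa using h2.const_mul b

/-- **The constants of one UP system exist.**  `E` is any further requirement on the gap which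
holds for all large gaps. -/
theorem exists_okUp {M : ℕ} (h κ : ℕ) (hM : 1 ≤ M) {c0 th : ℝ} (hc0 : 0 < c0)
    (hth : 0 < th) (E : ℝ → Prop) (hE : ∀ᶠ x in atTop, E x) :
    ∃ du A L eu e1 Bu Gu : ℝ, OkUp M h κ c0 th du A L eu e1 Bu Gu ∧ E Gu := by
  obtain ⟨du, hdu0, hdu⟩ := (sm_pos.and (sm_le (a := c0 / 32) (by linarith))).exists
  obtain ⟨A, L, eu, hA, hL, heu, hroot⟩ := exists_rootC_lt M κ hM h hdu0
  have hA0 : 0 < A := one_pos.trans_le hA
  obtain ⟨e1, he10, he1A, he1M⟩ := (sm_pos.and ((sm_mul A (a := c0 / 32) (by linarith)).and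
    (sm_mul_lt (M : ℝ) one_pos))).exists
  set Kg : ℝ := PayI_.cPay * (4 * c0⁻¹) * (1 + L + 1 / eu) with hKg
  have hKg0 : 0 < Kg := by
    have := PayI_.cPay_pos
    positivity
  obtain ⟨Bu, hBu1, hBu2, hBu3⟩ := ((lg_ge 1).and ((lg_mul (Kg + 1) hc0).and
    (lg_div (A * h * Kg) (a := c0 / 32) (by linarith)))).exists
  obtain ⟨Gu, hG1, hG2, hG3⟩ := ((lg_ge 1).and (hE.and
    (ev_lt h (P := fun j x => bU A Bu th j * brw (1 / 4) (1 / x) ≤ e1) fun j _ =>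
      lg_gap (bU A Bu th j) he10))).exists
  refine ⟨du, A, L, eu, e1, Bu, Gu, ?_, hG2⟩
  refine
    { th0 := hth
      du0 := hdu0
      A1 := hA
      L0 := hL
      eu0 := heu
      root := hroot
      e10 := he10
      e1M := he1M
      Bu1 := hBu1
      pay := by
        rw [← hKg]
        linarith
      score := ?_
      Gu1 := hG1
      gap := hG3 }
  rw [← hKg]
  have h1 : A * (e1 + h * (Kg / Bu)) = A * e1 + A * h * Kg / Bu := by ring
  rw [h1]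
  linarith

/-- The structure `UpC` of a record of constants. -/
theorem OkUp.upC {M h κ : ℕ} {c0 th du A L eu e1 Bu Gu : ℝ}
    (H : OkUp M h κ c0 th du A L eu e1 Bu Gu) (hM : 1 ≤ M) (hh : 1 ≤ h) (hc0 : 0 < c0) {P : Cn}
    {b : Fin 2} (e1' : P.M = M) (e2 : P.h = h) (e3 : P.th b = th) (e4 : P.Au b = A)
    (e5 : P.Lu b = L) (e6 : P.eu b = eu) (e7 : P.Bu b = Bu) (e8 : P.Gu b = Gu)
    (h0 : 0 ≤ P.xi2) (h1 : P.xi2 / c0 * (κ * M) / th < c0) :
    UpC P b κ c0 du e1 (bU A Bu th) := by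
  subst e1' e2 e3 e4 e5 e6 e7 e8
  exact
    { c0pos := hc0
      h := hh
      M := hM
      th := H.th0
      Gu := H.Gu1
      eu := H.eu0
      Au := zero_le_one.trans H.A1
      Lu := H.L0
      Bu := one_pos.trans_le H.Bu1
      xi2 := h0
      d := H.du0.le
      e1n := H.e10.le
      root := H.root
      B0 := le_rfl
      Bs := fun _ => le_rfl
      Be := H.gap
      i1 := H.pay
      i2 := H.score
      i3 := H.e1M
      i4 := h1 }

/-- **The constants of the block G exist.**  `UX2` is a bound for `xi2`. -/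
theorem exists_okG (M h κ : ℕ) (F c0 xi UX2 : ℝ) (dlE : ℝ → ℝ → ℝ) (hM : 1 ≤ M) (hh : 1 ≤ h)
    (hF : 1 ≤ F) (hc0 : 0 < c0) (hxi : 0 < xi) (hUX : 0 < UX2) (hdlE : ∀ K e, 0 < dlE K e) :
    ∃ (th Gu Au Lu eu Bu : Fin 2 → ℝ) (xi2 xi1 K0E K1E eE dE gE LE : ℝ) (δ e1 : Fin 2 → ℝ)
      (Bb : Fin 2 → ℕ → ℝ) (g : ℕ) (δ' L' v w0 τ : ℝ),
      (∀ P : Cn, P.M = M → P.h = h → P.xi = xi → P.xi2 = xi2 → P.xi1 = xi1 → P.th = th →
        P.Gu = Gu → P.Au = Au → P.Lu = Lu → P.eu = eu → P.Bu = Bu →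
        OkGP P κ F c0 K0E K1E eE dE gE LE δ e1 Bb g δ' L' v w0 τ) ∧
      dE = dlE K0E eE ∧ 0 < K0E ∧ 0 < eE ∧ 0 < xi1 ∧ 0 < xi2 ∧ xi2 ≤ UX2 := by
  have hcx : 0 < c0 * xi := mul_pos hc0 hxi
  obtain ⟨C, hC⟩ : ∃ C : ℝ, C = √2 * (1 / c0) := ⟨_, rfl⟩
  have hC0 : 0 < C := by
    rw [hC]
    positivity
  -- the thin side
  obtain ⟨v, hv⟩ : ∃ v : ℝ, v = c0 * xi / 32 := ⟨_, rfl⟩
  have hv0 : 0 < v := by
    rw [hv]
    positivity
  obtain ⟨τ, hτ⟩ : ∃ τ : ℝ, τ = c0 / 4 := ⟨_, rfl⟩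
  have hτ0 : 0 < τ := by
    rw [hτ]
    positivity
  -- the first system
  obtain ⟨t0, ht0, ht02⟩ := (sm_pos.and
    (sm_mul (4 * (2 * √2 / c0)) (a := c0 * xi / 4) (by linarith))).exists
  obtain ⟨du0, A0, L0, eu0, e10, Bu0, Gu0, hU0, hG0⟩ := exists_okUp h κ hM hc0 ht0
    (fun x => 2 * C / (2 * x * v) ≤ c0 / 4) (by
      refine (lg_div (2 * C / (2 * v)) (a := c0 / 4) (by linarith)).mono fun x hx => ?_
      refine le_trans (le_of_eq ?_) hx
      rw [div_div]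
      congr 1
      ring)
  -- the windows of equal heights
  obtain ⟨g, hg⟩ := (nt_geo_ge (2 * Gu0) (q := 2) one_lt_two one_pos).exists
  rw [one_mul] at hg
  obtain ⟨eE, heE, hthin⟩ := exists_thinC M h g F c0 v τ hM hF hc0 hv0 hτ0
  have hg1 : (0 : ℝ) < 6 * ((g : ℝ) + 1) + 3 := by positivity
  obtain ⟨K0E, hK0E⟩ : ∃ K0E : ℝ, K0E = (2 * ((g : ℝ) + 1) + 2) * C + 1 := ⟨_, rfl⟩
  have hK0E0 : 0 < K0E := by
    rw [hK0E]
    positivity
  obtain ⟨δ', hδ'⟩ : ∃ δ' : ℝ, δ' = dlE K0E eE / (6 * ((g : ℝ) + 1) + 3) := ⟨_, rfl⟩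
  have hδ'0 : 0 < δ' := by
    rw [hδ']
    exact div_pos (hdlE _ _) hg1
  -- the second system
  obtain ⟨t1, ht1, ht12⟩ := (sm_pos.and (sm_mul (2 * √2 / c0) hδ'0)).exists
  obtain ⟨du1, A1, L1, eu1, e11, Bu1, Gu1, hU1, hG1⟩ := exists_okUp h κ hM hc0 ht1
    (fun x => 2 * C / (2 * x * δ') ≤ c0 / 4) (by
      refine (lg_div (2 * C / (2 * δ')) (a := c0 / 4) (by linarith)).mono fun x hx => ?_
      refine le_trans (le_of_eq ?_) hx
      rw [div_div]
      congr 1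
      ring)
  -- the far levels
  obtain ⟨n, hn⟩ := (nt_geo_ge (2 * Gu1) (q := 2) one_lt_two one_pos).exists
  rw [one_mul] at hn
  have hn0 : (0 : ℝ) ≤ n := Nat.cast_nonneg _
  -- the atoms
  obtain ⟨xi2, hx0, hx1, hx2, hx3, hx4⟩ := (sm_pos.and ((sm_le hUX).and
    ((sm_mul_lt (1 / c0) (a := c0 * xi / 2) (by linarith)).and
    ((sm_mul_lt (1 / c0 * (κ * M) / t0) hc0).and
    (sm_mul_lt (1 / c0 * (κ * M) / t1) hc0))))).exists
  obtain ⟨xi1, hy0, hy1⟩ := (sm_pos.and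
    (sm_mul_lt 128 (a := c0 ^ 2 * xi2 ^ 2) (by positivity))).exists
  refine ⟨![t0, t1], ![Gu0, Gu1], ![A0, A1], ![L0, L1], ![eu0, eu1], ![Bu0, Bu1], xi2, xi1, K0E,
    (2 * ((n : ℝ) + 1 + 6 * ((g : ℝ) + 1) + 1) + 2) * C + 1, eE, dlE K0E eE, (g : ℝ) + 1,
    (n : ℝ) + 1 + 3 * ((g : ℝ) + 1) + 1, ![du0, du1], ![e10, e11],
    ![bU A0 Bu0 t0, bU A1 Bu1 t1], g, δ', (n : ℝ) + 1, v, v, τ, ?_, rfl, hK0E0, heE, hy0, hx0,
    hx1⟩
  intro P p1 p2 p3 p4 p5 p6 p7 p8 p9 p10 p11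
  have q1 : P.xi2 / c0 * (κ * M) / t0 < c0 := by
    rw [p4, show xi2 / c0 * (κ * M) / t0 = 1 / c0 * (κ * M) / t0 * xi2 by ring]
    exact hx3
  have q2 : P.xi2 / c0 * (κ * M) / t1 < c0 := by
    rw [p4, show xi2 / c0 * (κ * M) / t1 = 1 / c0 * (κ * M) / t1 * xi2 by ring]
    exact hx4
  have q3 : 0 ≤ P.xi2 := by
    rw [p4]
    exact hx0.le
  refine
    { xi := by
        rw [p3]
        exact hxi
      xi2 := by
        rw [p4]
        exact hx0
      at1 := by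
        rw [p4, p5]
        exact hy1
      up := Fin.forall_fin_two.2 ⟨?_, ?_⟩
      dp := hδ'0
      L0 := by positivity
      G0 := by
        rw [p7]
        exact hg
      G1 := ?_
      wp := hv0
      u1 := ?_
      K0 := by
        rw [hK0E, hC]
      K1 := by
        rw [hC]
      dE := ?_
      gE := rfl
      LE := rfl
      thn := by
        rw [p1, p2]
        exact hthin
      i1 := ?_
      i2 := ?_ }
  · exact hU0.upC hM hh hc0 p1 p2 (by rw [p6]; rfl) (by rw [p8]; rfl) (by rw [p9]; rfl)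
      (by rw [p10]; rfl) (by rw [p11]; rfl) (by rw [p7]; rfl) q3 q1
  · exact hU1.upC hM hh hc0 p1 p2 (by rw [p6]; rfl) (by rw [p8]; rfl) (by rw [p9]; rfl)
      (by rw [p10]; rfl) (by rw [p11]; rfl) (by rw [p7]; rfl) q3 q2
  · rw [p7]
    show 2 * Gu1 ≤ (2 : ℝ) ^ ((n : ℝ) + 1 - 1)
    rw [add_sub_cancel_right, Real.rpow_natCast]
    exact hn
  · rw [p6]
    show 2 * √2 * t1 / c0 ≤ δ'
    rw [show 2 * √2 * t1 / c0 = 2 * √2 / c0 * t1 by ring]
    exact ht12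
  · rw [hδ']
    field_simp
  · rw [p6, p4, p3]
    show 4 * (2 * √2 * t0 / c0 + v + v) + xi2 / c0 < c0 * xi
    have h1 : 4 * (2 * √2 * t0 / c0 + v + v) = 4 * (2 * √2 / c0) * t0 + 8 * v := by ring
    have h2 : xi2 / c0 = 1 / c0 * xi2 := by ring
    rw [h1, h2, hv]
    linarith
  · rw [p7, ← hC]
    show τ + 2 * C / (2 * Gu0 * v) + 2 * C / (2 * Gu1 * δ') < c0
    rw [hτ]
    linarith

end Pool.Agent.Lib.GSX
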