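import Pool.Agent.Lib.GSX.KTools
import Pool.Agent.Lib.GSR.HZB
import Pool.Agent.Lib.TCW.XFin

/-!
# The last constants of the game: colours, sizes of the worlds, and the constants of one graph

`SizOk N nb ci C b`: `b s` is large enough for one step with `nb` bits and `ci` small sets which
are `C s`-colourable, after the isolated vertices of the world are removed.  `FinOk`: the floor `e0`
and the last level `I0` for a graph with `nV` vertices.
-/

set_option autoImplicit false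

namespace Pool.Agent.Lib.GSX

open Filter Topology Finset Classical
open Pool.Agent.Lib.GSR (ColS)
open Pool.Agent.Lib.GSR.HZ (pf)
open Pool.Agent.Lib.GSR.HZB (Hi wo wo_pf)
open Pool.Agent.Lib.TCW (ColG)

/-! ### Colourability in a finite graph -/

namespace KZ_

/-- Colourability as the abstract colourability of the game. -/
theorem colS {V : Type} (G : SimpleGraph V) :
    ColS fun (A : Finset V) (n : ℕ) => ColG G {v | v ∈ A} n where
  emp := (ColG.empty G).mono (fun v hv => absurd hv (Finset.notMem_empty v)) le_rfl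
  mono _ _ _ _ hAB hnm h := h.mono (fun _ hv => hAB hv) hnm
  union _ _ _ _ hA hB := (hA.union hB).mono (fun _ hv => Finset.mem_union.1 hv) le_rfl

/-- The vertices of `W` with a neighbour in `W`. -/
noncomputable def nix {V : Type} (G : SimpleGraph V) (W : Finset V) : Finset V :=
  W.filter fun v => ∃ y ∈ W, G.Adj v y

theorem nix_subset {V : Type} (G : SimpleGraph V) (W : Finset V) : nix G W ⊆ W :=
  Finset.filter_subset _ _

theorem mem_nix {V : Type} {G : SimpleGraph V} {W : Finset V} {v : V} :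
    v ∈ nix G W ↔ v ∈ W ∧ ∃ y ∈ W, G.Adj v y := by
  unfold nix
  rw [Finset.mem_filter]

/-- The isolated vertices cost one colour. -/
theorem col_of_nix {V : Type} {G : SimpleGraph V} {W : Finset V} {n : ℕ}
    (h : ColG G {v | v ∈ nix G W} n) : ColG G {v | v ∈ W} (1 + n) := by
  have h1 : ColG G {v | v ∈ W ∧ v ∉ nix G W} 1 := by
    refine ⟨fun _ => 0, fun _ _ => one_pos, fun u hu v hv huv => ?_⟩
    exact absurd (mem_nix.2 ⟨hu.1, v, hv.1, huv⟩) hu.2
  refine (h1.union h).mono ?_ le_rfl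
  intro v hv
  by_cases h2 : v ∈ nix G W
  · exact Or.inr h2
  · exact Or.inl ⟨hv, h2⟩

end KZ_

open KZ_

/-! ### Sizes -/

/-- The sizes of the worlds. -/
structure SizOk (N nb ci : ℕ) (C b : ℕ → ℕ) : Prop where
  step : ∀ s < N, 1 + 2 ^ nb * (ci * C s + b (s + 1)) ≤ b s
  anti : ∀ s < N, b (s + 1) ≤ b s
  last : 1 ≤ b N

theorem SizOk.pos {N nb ci : ℕ} {C b : ℕ → ℕ} (h : SizOk N nb ci C b) {s : ℕ} (hs : s ≤ N) :
    1 ≤ b s := by
  rcases Nat.lt_or_ge s N with h1 | h1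
  · have := h.step s h1
    omega
  · rw [Nat.le_antisymm hs h1]
    exact h.last

theorem SizOk.antitone {N nb ci : ℕ} {C b : ℕ → ℕ} (h : SizOk N nb ci C b) {s t : ℕ}
    (hst : s ≤ t) (ht : t ≤ N) : b t ≤ b s := by
  induction t, hst using Nat.le_induction with
  | base => exact le_rfl
  | succ t hst ih => exact (h.anti t (by omega)).trans (ih (by omega))

/-- Sizes exist; the size of the last world is arbitrary. -/
theorem exists_siz (N nb ci bN : ℕ) (C : ℕ → ℕ) :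
    ∃ b : ℕ → ℕ, SizOk N nb ci C b ∧ bN ≤ b N := by
  obtain ⟨b, hb, h1⟩ := down_rec N
    (fun s x y => 1 + 2 ^ nb * (ci * C s + y) ≤ x) (fun s _ y => ⟨_, le_rfl⟩) (max 1 bN)
  refine ⟨b, ⟨h1, fun s hs => ?_, ?_⟩, ?_⟩
  · have h2 := h1 s hs
    have h3 : b (s + 1) ≤ 2 ^ nb * (ci * C s + b (s + 1)) := by
      refine (Nat.le_add_left (b (s + 1)) (ci * C s)).trans ?_
      exact Nat.le_mul_of_pos_left _ (by positivity)
    omega
  · rw [hb]
    exact le_max_left _ _
  · rw [hb]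
    exact le_max_right _ _

/-- The hypothesis on the sizes in the theorem of the game. -/
theorem SizOk.hb {V : Type} [Fintype V] {G : SimpleGraph V} {N nb ci : ℕ} {C b : ℕ → ℕ}
    (h : SizOk N nb ci C b) (Nx : ℕ → Hi V N nb → Finset V)
    (hNx : ∀ s, ∀ p : Hi V N nb, Nx s p = nix G (wo p s)) (s : ℕ) (hs : s < N) (c : Hi V N nb)
    (hc : ¬ ColG G {v | v ∈ wo c s} (b s)) :
    ¬ ColG G {v | v ∈ Nx s (pf s c)} (2 ^ nb * (ci * C s + b (s + 1))) := by
  intro h1
  rw [hNx, wo_pf le_rfl] at h1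
  exact hc ((col_of_nix h1).mono subset_rfl (h.step s hs))

/-! ### Colours -/

/-- A common bound for finitely many numbers of colours. -/
theorem exists_col {ι : Type} [Finite ι] (c : ι → ℕ) : ∃ C : ℕ, ∀ i, c i ≤ C := by
  have := Fintype.ofFinite ι
  exact ⟨∑ i, c i, fun i => Finset.single_le_sum (f := c) (fun _ _ => Nat.zero_le _)
    (Finset.mem_univ i)⟩

/-- The colours of the small sets: the atoms, the untyped windows of the two systems, the typed
windows of all ranks below `h`. -/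
theorem exists_colours (h : ℕ) (xi1 : ℝ) (cE : Fin 2 → ℕ) (cB : ℕ → ℕ) :
    ∃ C : ℕ, 1 ≤ C ∧ ⌈1 / xi1⌉₊ ≤ C ∧ (∀ a, cE a ≤ C) ∧ ∀ m ≤ h, cB m ≤ C := by
  refine ⟨1 + ⌈1 / xi1⌉₊ + ∑ a, cE a + ∑ m ∈ Finset.range (h + 1), cB m, ?_, ?_, ?_, ?_⟩
  · omega
  · omega
  · intro a
    have := Finset.single_le_sum (f := cE) (fun _ _ => Nat.zero_le _) (Finset.mem_univ a)
    omega
  · intro m hm
    have := Finset.single_le_sum (f := cB) (fun _ _ => Nat.zero_le _)
      (show m ∈ Finset.range (h + 1) from Finset.mem_range.2 (by omega))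
    omega

/-! ### The constants of one graph -/

/-- The floor `e0` and the last level `I0` for a graph with `nV` vertices; `Kf` is the constant of
the floor. -/
structure FinOk (nV : ℕ) (Kf : ℝ) (e0 : ℝ) (I0 : ℕ) : Prop where
  pos : 0 < e0
  half : e0 ≤ 1 / 2
  fl : Kf * ((nV : ℝ) + 1) * e0 ≤ 1
  one : 1 ≤ I0
  lv : 2 * (1 / 2 : ℝ) ^ I0 ≤ e0

/-- The constants of one graph exist. -/
theorem exists_finOk (nV : ℕ) (Kf : ℝ) (I1 : ℕ) :
    ∃ (e0 : ℝ) (I0 : ℕ), FinOk nV Kf e0 I0 ∧ I1 ≤ I0 := by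
  obtain ⟨e0, h1, h2, h3⟩ := (sm_pos.and ((sm_le (show (0 : ℝ) < 1 / 2 by norm_num)).and
    (sm_mul (Kf * ((nV : ℝ) + 1)) one_pos))).exists
  obtain ⟨I0, h4, h5, h6⟩ := ((nt_geo 2 (show (0 : ℝ) ≤ 1 / 2 by norm_num) (by norm_num) h1).and
    ((nt_ge 1).and (nt_ge I1))).exists
  exact ⟨e0, I0, ⟨h1, h2, h3, h5, h4⟩, h6⟩

/-- The last level is below the floor. -/
theorem FinOk.lv_le {nV : ℕ} {Kf e0 : ℝ} {I0 : ℕ} (h : FinOk nV Kf e0 I0) :
    (1 / 2 : ℝ) ^ I0 ≤ e0 := by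
  have h1 := h.lv
  have h2 : (0 : ℝ) < (1 / 2 : ℝ) ^ I0 := by positivity
  linarith

/-- The logarithm of the floor. -/
theorem FinOk.log_ge {nV : ℕ} {Kf e0 : ℝ} {I0 : ℕ} (h : FinOk nV Kf e0 I0) :
    1 - (I0 : ℝ) ≤ Real.logb 2 e0 := by
  rw [Real.le_logb_iff_rpow_le one_lt_two h.pos, Real.rpow_sub two_pos, Real.rpow_one,
    Real.rpow_natCast]
  have h1 := h.lv
  rwa [one_div, inv_pow, ← div_eq_mul_inv] at h1

/-- The floor for a given share `et` and a given constant `K`. -/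
theorem FinOk.floor {nV : ℕ} {Kf e0 : ℝ} {I0 : ℕ} (h : FinOk nV Kf e0 I0) {K et : ℝ}
    (het : 0 < et) (hK : K / et ≤ Kf) : K * (nV : ℝ) * e0 ≤ et := by
  rcases le_total K 0 with h0 | h0
  · have : K * (nV : ℝ) * e0 ≤ 0 :=
      mul_nonpos_of_nonpos_of_nonneg (mul_nonpos_of_nonpos_of_nonneg h0 (Nat.cast_nonneg _))
        h.pos.le
    linarith
  · have h1 := h.fl
    have h2 : K ≤ Kf * et := by rwa [div_le_iff₀ het] at hK
    have h3 : (0 : ℝ) ≤ (nV : ℝ) * e0 := mul_nonneg (Nat.cast_nonneg _) h.pos.le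
    have h4 : 0 ≤ Kf * e0 := by
      have : 0 ≤ Kf * et := h0.trans h2
      have h5 : 0 ≤ Kf := by
        by_contra h6
        rw [not_le] at h6
        linarith [mul_neg_of_neg_of_pos h6 het]
      exact mul_nonneg h5 h.pos.le
    calc K * (nV : ℝ) * e0 = K * ((nV : ℝ) * e0) := by ring
      _ ≤ Kf * et * ((nV : ℝ) * e0) := mul_le_mul_of_nonneg_right h2 h3
      _ = et * (Kf * (nV : ℝ) * e0) := by ring
      _ ≤ et * 1 := by
          refine mul_le_mul_of_nonneg_left ?_ het.le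
          linarith [h4]
      _ = et := mul_one et

/-- The floor in the form of `Best.floor` with `t = 8 * e0` and laws `n ≤ n0 / c0 ^ 3`. -/
theorem FinOk.floor8 {nV : ℕ} {Kf e0 : ℝ} {I0 : ℕ} (h : FinOk nV Kf e0 I0) {c0 et : ℝ}
    (het : 0 < et) (hK : 16 / c0 ^ 3 / et ≤ Kf) :
    (nV : ℝ) * (2 * (1 / c0 ^ 3) * (8 * e0)) ≤ et := by
  refine le_of_eq_of_le ?_ (h.floor het hK)
  ring

/-- The floor with `t = 16 * e0` and laws `n ≤ n0 / c0`. -/
theorem FinOk.floor16 {nV : ℕ} {Kf e0 : ℝ} {I0 : ℕ} (h : FinOk nV Kf e0 I0) {c0 et : ℝ}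
    (het : 0 < et) (hK : 32 / c0 / et ≤ Kf) :
    (nV : ℝ) * (2 * (1 / c0) * (16 * e0)) ≤ et := by
  refine le_of_eq_of_le ?_ (h.floor het hK)
  ring

theorem FinOk.lt_one {nV : ℕ} {Kf e0 : ℝ} {I0 : ℕ} (h : FinOk nV Kf e0 I0) : e0 < 1 :=
  h.half.trans_lt (by norm_num)

end Pool.Agent.Lib.GSX
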