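import Pool.Agent.Lib.GSX.ValS
import Pool.Agent.Lib.GSX.Best

/-!
# The facts of one stage along a typical history

`InvS`: the state before the stage `s` on the world `W` (signs, range of the scales, cover zero,
payments of the masters).  `Sides`: the sides of the next world `W'`.  `FctW`: the facts about the
next world.  `FctX`: the facts about the node of a typical pair.
-/

set_option autoImplicit false

namespace Pool.Agent.Lib.GSX

open Finset Classical
open Pool.Agent.Lib.FGF (cm)
open Pool.Agent.Lib.GSLE (brw kp)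
open Pool.Agent.Lib.GSR (vioC)

section

variable {V : Type} [Fintype V] (P : Cn) (G : SimpleGraph V)

/-- The sets of stages before `s`. -/
def Bef (s : ℕ) (C : Finset (Fin P.N)) : Prop := ∀ c ∈ C, (c : ℕ) < s

/-- The state before the stage `s`: the world is `W`, `B r` are the constants of the payments. -/
structure InvS (B : ℕ → ℝ) (s : ℕ) (S : Sta P V) (W : Finset V) : Prop where
  pos : SPos S
  lo : ∀ c : Fin P.N, (c : ℕ) < s → ∀ x, P.e0 ≤ S.a c x
  hi : ∀ c : Fin P.N, (c : ℕ) < s → ∀ x, S.a c x ≤ 2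
  F0 : ∀ u ∈ W, S.F u = 0
  b : ∀ C, Bef P s C → C.card ≤ P.h → ∀ v, ∀ u ∈ W,
    cm G (S.m C v) u ≤ B C.card * ∑ c ∈ C, brw (1 / 4) (S.a c u / S.a c v)

variable (s : Fin P.N) (S : Sta P V) (I : Inp P V)

/-! ### The sides -/

/-- The stage is good. -/
def sdO (W' : Finset V) : Prop := ∀ v ∈ W', out P G I v ≤ 1 / 4

/-- The side of the hub mode. -/
def sdP (W' : Finset V) (C : Finset (Fin P.N)) : Prop := ∀ v ∈ W', P.cP C.card ≤ ShP P G S I C v

/-- The side of the item `T`. -/
def sdA (W' : Finset V) (T C : Finset (Fin P.N)) : Prop := ∀ v ∈ W', P.cA ≤ ShA P G S I T C v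

/-- Some item gives a master. -/
def sdB (W' : Finset V) (C : Finset (Fin P.N)) : Prop := ∃ T ∈ its P s C, sdA P G S I W' T C

/-- The item `T` is a YES. -/
def sdY (W' : Finset V) (T : Finset (Fin P.N)) : Prop :=
  ∀ v ∈ W', P.eps1 * al P G I v ≤ AS P G S I T v

/-- The sides of the world `W'` after the stage `s`. -/
structure SidesW (W' : Finset V) : Prop where
  o : sdO P G I W' ∨ ∀ v ∈ W', 1 / 4 ≤ out P G I v
  p : ∀ C, Bef P s C → sdP P G S I W' C ∨ ∀ v ∈ W', ShP P G S I C v ≤ P.cP C.card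
  a : ∀ T C, Bef P s T → T.card = P.r0 → C ⊆ T →
    sdA P G S I W' T C ∨ ∀ v ∈ W', ShA P G S I T C v ≤ P.cA
  y : ∀ T, Bef P s T → T.card = P.r0 →
    sdY P G S I W' T ∨ ∀ v ∈ W', AS P G S I T v ≤ P.eps1 * al P G I v

/-- The facts about the world `W'` after the stage `s` of a typical history. -/
structure FctW (W' : Finset V) : Prop where
  sub : W' ⊆ I.W
  ne : W'.Nonempty
  sides : SidesW P G s S I W'
  thin : ∀ v ∈ W', fs P G I v = 0
  gp : ∀ C, Bef P s C → C.card < P.h → ∀ v ∈ W', gpP P G S I C v ≤ P.Bd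
  ga : ∀ T C, Bef P s T → T.card = P.r0 → C ⊆ T → C.card < P.h →
    ∀ v ∈ W', gpA P G S I T C v ≤ P.Bd

/-- The facts about the node `x` of a typical pair at the stage `s`; `t` is the tolerance. -/
structure FctX (t : ℝ) (x : V) : Prop where
  /-- the floor -/
  tot : 16 * P.e0 ≤ al P G I x
  /-- the lost weight of the hub mode -/
  n1 : ∀ C, Bef P s C → Val P G S I.W C → C.card + 2 ≤ P.h →
    ∑ l, wP P G S I C l x * upsP P G S I C l (I.lp C l) x ≤ P.cP C.card / 4
  /-- the last step -/
  n2 : ∀ C, Bef P s C → Val P G S I.W C → C.card + 1 = P.h →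
    ∑ l, wP P G S I C l x ≤ P.cP C.card / 4
  /-- the lost weight of the items -/
  n3 : ∀ T C, Bef P s T → T.card = P.r0 → C ⊆ T → Val P G S I.W C →
    ∑ l, wA P G S I T l x * sv P G S I T C l * upsA P G S I T C l (I.la T C l) x ≤ t

end

/-! ### Runs -/

section

variable {V : Type} [Fintype V] (P : Cn) (G : SimpleGraph V)

/-- The records along a history: `St s` is the state before the stage `s`, `In s` the input of the
stage, `Wd s` the world before the stage. -/
structure Run (St : ℕ → Sta P V) (In : Fin P.N → Inp P V) (Wd : ℕ → Finset V) : Prop where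
  s0 : St 0 = ⟨fun _ _ => 1, fun _ _ _ => 0, fun _ => 0⟩
  nx : ∀ s : Fin P.N, St (s + 1) = nxt P G s (St s) (In s)
  w : ∀ s : Fin P.N, (In s).W = Wd s

/-- The masters of `C` are valid at all the later stages. -/
def MaR (St : ℕ → Sta P V) (Wd : ℕ → Finset V) (C : Finset (Fin P.N)) : Prop :=
  ∀ s ≤ P.N, Bef P s C → Val P G (St s) (Wd s) C

/-- The facts of a typical history. -/
structure HisW (B : ℕ → ℝ) (St : ℕ → Sta P V) (In : Fin P.N → Inp P V)
    (Wd : ℕ → Finset V) : Prop where
  run : Run P G St In Wd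
  pos : ∀ s, IPos (In s)
  best : ∀ s : Fin P.N, Best P G s (St s) (In s)
  inv : ∀ s ≤ P.N, InvS P G B s (St s) (Wd s)
  fct : ∀ s : Fin P.N, FctW P G s (St s) (In s) (Wd (s + 1))

end

end Pool.Agent.Lib.GSX
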