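import Pool.Agent.Lib.GSX.UInst
import Pool.Agent.Lib.GSX.Hts
import Pool.Agent.Lib.GSX.InpC
import Pool.Agent.Lib.GSX.Stage

/-!
# The U-case at the equilibrium

`uleaf`: if a set `X` of typical pairs of weight at least `κ` has a pool `A` of good stages whose
items are NO and whose pairs are not hub pairs, then the graph contains the tree.
-/

set_option autoImplicit false

namespace Pool.Agent.Lib.GSX

open Finset Classical
open Pool.Agent.Lib.GSR Pool.Agent.Lib.GSR.HZ Pool.Agent.Lib.GSR.HZB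
open Pool.Agent.Lib.GSR3 (Tree)
open Pool.Agent.Lib.FGF (Frac)

section

variable {V : Type} [Fintype V]

/-- The input of the stage, with the main law zero if the world is empty. -/
noncomputable def inU (P : Cn) (θ : Tht P V) (s : Fin P.N) (p : Hh P V) : Inp P V :=
  if (wo p s).Nonempty then inpt P θ s p else { inpt P θ s p with pi := fun _ => 0 }

namespace UHis_

variable {P : Cn} {G : SimpleGraph V} {θ : Tht P V}

lemma inU_pos {s : Fin P.N} {p : Hh P V} (h : (wo p s).Nonempty) :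
    inU P θ s p = inpt P θ s p := if_pos h

lemma inU_W (s : Fin P.N) (p : Hh P V) : (inU P θ s p).W = wo p s := by
  unfold inU
  split_ifs <;> rfl

lemma inU_n3 (s : Fin P.N) (p : Hh P V) : (inU P θ s p).n3 = (inpt P θ s p).n3 := by
  unfold inU
  split_ifs <;> rfl

lemma inU_pi (s : Fin P.N) (p : Hh P V) (l : Ml P V) :
    (inU P θ s p).pi l = if (wo p s).Nonempty then (inpt P θ s p).pi l else 0 := by
  unfold inU
  split_ifs <;> rfl

lemma al_inU (s : Fin P.N) (p : Hh P V) : al P G (inU P θ s p) = al P G (inpt P θ s p) := by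
  by_cases h : (wo p s).Nonempty
  · rw [inU_pos h]
  · funext x
    have h1 : wo p s = ∅ := Finset.not_nonempty_iff_eq_empty.1 h
    have h2 : ∀ l : Ml P V, inc G (∅ : Finset V) x l = 0 := by
      intro l
      unfold inc
      rw [if_neg]
      rintro ⟨-, h3⟩
      exact absurd h3 (Finset.notMem_empty _)
    have h3 : (inpt P θ s p).W = ∅ := h1
    have h4 : (inU P θ s p).W = ∅ := by rw [inU_W, h1]
    unfold al GSLE.alp
    rw [h3, h4]
    simp only [h2, zero_mul]

/-- The half prefixes: `MQ`. -/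
lemma MQ_eq (Q : Hh P V × V → ℝ) (s : Fin P.N) (p : Hh P V) :
    FGK.MQ (fun c : Hh P V => hp s.1 (g3 P) c) (fun c v => Q (c, v)) p =
      mh Q s.1 (g3 P) p := by
  unfold FGK.MQ mh th FGK.mH qc
  rw [Finset.sum_filter]
  refine Finset.sum_congr rfl fun c _ => ?_
  by_cases h1 : hp s.1 (g3 P) c = p
  · rw [if_pos h1, if_pos h1]
  · rw [if_neg h1, if_neg h1]

lemma nQ_eq (Q : Hh P V × V → ℝ) (s : Fin P.N) (p : Hh P V) (x : V) :
    FGK.nQ (fun c : Hh P V => hp s.1 (g3 P) c) (fun c v => Q (c, v)) p x =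
      nn Q s.1 (g3 P) p x := by
  unfold FGK.nQ nn th
  rw [Finset.sum_filter]
  refine Finset.sum_congr rfl fun c _ => ?_
  by_cases h1 : hp s.1 (g3 P) c = p
  · rw [if_pos h1, if_pos h1]
  · rw [if_neg h1, if_neg h1]

end UHis_

open UHis_ in
/-- **The U-leaf.** -/
theorem uleaf {ι : Type} {P : Cn} {G : SimpleGraph V} {col : Finset V → ℕ → Prop}
    {Te : Ts V P.N (nb P) ι (Tht P V)} {Q : Hh P V × V → ℝ} {θ : Tht P V}
    (hE : HZB.Eqm col Te Q θ) (hθ : θ ∈ dom P.N (nb P) (Ki P)) (hP : CPos P)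
    (hxi : 0 < P.xi) (hh : 2 ≤ P.h)
    {B : ℕ → ℝ} {Tc : Hh P V → Prop} (hTq : ∀ c, Tc c → qc Q c ≠ 0)
    (hTc : ∀ c, Tc c → HisW P G B (stt P G θ c) (fun s => inpt P θ s c) (wo c))
    {X : Finset (Hh P V × V)} (hXQ : ∀ z ∈ X, Q z ≠ 0) (hXT : ∀ z ∈ X, Tc z.1)
    {A : Finset (Fin P.N)} {t d : ℝ}
    (hfx : ∀ z ∈ X, ∀ s : Fin P.N,
      FctX P G s (stt P G θ z.1 s) (inpt P θ s z.1) t z.2)
    (hrem : ∀ z ∈ X, ∀ s ∈ A,
      shR P G (inpt P θ s z.1) P.gU (inpt P θ s z.1).n3 d z.2 ≤ 1 / 16)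
    (hO : ∀ z ∈ X, ∀ s ∈ A, sdO P G (inpt P θ s z.1) (wo z.1 (s + 1)))
    (hM : ∀ z ∈ X, ∀ c ∈ A, MaR P G (stt P G θ z.1) (wo z.1) {c})
    (hpr : ∀ z ∈ X, ∀ c ∈ A, ∀ s ∈ A, c < s →
      ¬ sdP P G (stt P G θ z.1 s) (inpt P θ s z.1) (wo z.1 (s + 1)) {c})
    (hno : ∀ z ∈ X, ∀ S, S ⊆ A → S.card = P.r0 → ∀ s ∈ A, (∀ c ∈ S, c < s) →
      ¬ sdY P G (stt P G θ z.1 s) (inpt P θ s z.1) (wo z.1 (s + 1)) S)
    {M h R : ℕ} {F w ε3 κ ε1 ξ : ℝ}
    (hcst : UCst P P.r0 w ε3 ε1 ξ d (5 / 4 * P.cP 1))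
    (hUC : UC M h P.r0 F P.gU w R ε3 κ ε1 ξ) (hFr : Frac G F) (hR : R ≤ A.card)
    (hκ : κ ≤ ∑ z ∈ X, Q z) : ∃ φ : List (Fin M) → V, Tree G h M φ := by
  have hN : ∀ s : Fin P.N, (s : ℕ) < P.N := fun s => s.2
  have hQ0 : ∀ z, 0 ≤ Q z := hE.Q0
  have hin : ∀ (s : Fin P.N) (c : Hh P V), inpt P θ s (hp s.1 (g3 P) c) = inpt P θ s c :=
    fun s c => inpt_hp (Or.inr ⟨rfl, le_rfl⟩) c
  have hst : ∀ (s : Fin P.N) (c : Hh P V), stt P G θ (hp s.1 (g3 P) c) s = stt P G θ c s :=
    fun s c => stt_hp le_rfl c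
  have hwo : ∀ (s : Fin P.N) (c : Hh P V), wo (hp s.1 (g3 P) c) s = wo c s :=
    fun s c => wo_hp (g3 P) le_rfl c
  -- the inputs of typical histories
  have hne : ∀ (s : Fin P.N) (c : Hh P V), (∃ z, z ∈ wo c (s + 1)) → qc Q c ≠ 0 →
      inU P θ s (hp s.1 (g3 P) c) = inpt P θ s c := by
    rintro s c ⟨z, hz⟩ hq
    have h1 : (wo (hp s.1 (g3 P) c) s).Nonempty := by
      rw [hwo]
      exact ⟨z, hE.wo_sub hq (hN s) hz⟩
    rw [inU_pos h1, hin]
  have hXw : ∀ z ∈ X, ∀ s : Fin P.N, z.2 ∈ wo z.1 (s + 1) := fun z hz s =>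
    hE.mem_wo (hXQ z hz) (hN s)
  have hXi : ∀ z ∈ X, ∀ s : Fin P.N, inU P θ s (hp s.1 (g3 P) z.1) = inpt P θ s z.1 :=
    fun z hz s => hne s z.1 ⟨_, hXw z hz s⟩ (hE.qc_ne (hXQ z hz))
  have hnb : g3 P ≤ nb P := g3_le_nb P
  have hcP : 0 ≤ P.cP 1 := (hP.cP 1).le
  refine hUC V (Hh P V) (Hh P V) P G (fun s c => hp s.1 (g3 P) c) (fun c v => Q (c, v)) X
    (fun s p => stt P G θ p s) (inU P θ) Tc (fun s c => wo c (s + 1)) A d (5 / 4 * P.cP 1) rfl
    hcst ?_ hFr hR hκ
  exact {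
    ref := fun c _ s _ hcs h1 h2 h3 => hp_mono (Or.inl hcs) h3
    Q0 := fun c v => hQ0 _
    Q1 := by
      rw [← hE.Q1, Fintype.sum_prod_type]
    XQ := fun z hz => lt_of_le_of_ne (hQ0 _) (hXQ z hz).symm
    XT := hXT
    XW := fun z hz s _ => hXw z hz s
    pi0 := fun s p l => by
      rw [inU_pi]
      split_ifs
      · exact (InpC_.inpt_ipos hθ s p).pi l
      · exact le_rfl
    pi1 := fun s p => by
      simp only [inU_pi]
      by_cases h1 : (wo p s).Nonempty
      · simp only [if_pos h1]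
        exact (Hts_.pi_mem hθ s p).2.1.le
      · simp only [if_neg h1, Finset.sum_const_zero]
        exact zero_le_one
    piW := fun s p l hl => by
      rw [inU_pi] at hl
      rw [inU_W]
      split_ifs at hl with h1
      · by_contra h2
        refine hl ((Hts_.pi_mem hθ s p).2.2 l ?_)
        unfold wn
        rw [wo_hp 0 le_rfl, nes_eq h1]
        exact h2
      · exact absurd rfl hl
    n30 := fun s p x => by
      rw [inU_n3]
      exact (InpC_.inpt_ipos hθ s p).n3 x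
    n3 := fun s _ p x => by
      rw [MQ_eq, nQ_eq, inU_n3]
      by_cases h1 : hp s.1 (g3 P) p = p
      · have h2 := hE.nq s.1 (hN s).le (g3 P) hnb p x
        have h3 : (inpt P θ s p).n3 x = nh θ s.1 (g3 P) (hp s.1 (g3 P) p) x := rfl
        rw [h3, h1]
        exact h2
      · have h2 : th s.1 (g3 P) p = ∅ := by
          rw [Finset.eq_empty_iff_forall_notMem]
          intro c hc
          rw [mem_th] at hc
          apply h1
          rw [← hc, hp_hp (Or.inr ⟨rfl, le_rfl⟩)]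
        unfold mh nn
        rw [h2, Finset.sum_empty, Finset.sum_empty, zero_mul]
    a0 := fun s p c x => (InpC_.stt_spos hP hθ p s).a c x
    ac := fun c _ s _ hcs h1 x => by
      rw [hst, Hts_.stt_a h1 c hcs, al_inU, hin]
    thn := fun s _ c hc z hz i => by
      rw [hne s c ⟨z, hz⟩ (hTq c hc)]
      exact UDl_.Db_le_of_fs hxi (((hTc c hc).fct s).thin z hz) i
    wo := fun c _ s _ hcs h1 hT => by
      rw [inU_W, hwo]
      exact hE.wo_anti (hTq h1 hT) hcs (hN s).le
    out := fun s hs z hz => by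
      rw [hXi z hz]
      exact hO z hz s hs _ (hXw z hz s)
    fl := fun s _ z hz => by
      rw [hXi z hz]
      have h1 := (hfx z hz s).tot
      have h2 := hcst.e0
      linarith
    rem := fun s hs z hz => by
      rw [hXi z hz]
      exact hrem z hz s hs
    pr := fun c hc s hs hcs z hz => by
      rw [hXi z hz, hst]
      have hB : Bef P s {c} := by
        intro c' hc'
        rw [Finset.mem_singleton] at hc'
        rw [hc']
        exact hcs
      have hV : Val P G (stt P G θ z.1 s) (inpt P θ s z.1).W {c} := hM z hz c hc s (hN s).le hB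
      have h1 := (((hTc z.1 (hXT z hz)).fct s).sides.p {c} hB).resolve_left (hpr z hz c hc s hs hcs)
        z.2 (hXw z hz s)
      rw [Finset.card_singleton] at h1
      rcases Nat.lt_or_ge 2 P.h with h2 | h2
      · have h3 := (hfx z hz s).n1 {c} hB hV (by rw [Finset.card_singleton]; omega)
        rw [Finset.card_singleton] at h3
        have h4 : ∑ l, wP P G (stt P G θ z.1 s) (inpt P θ s z.1) {c} l z.2 =
            ShP P G (stt P G θ z.1 s) (inpt P θ s z.1) {c} z.2 +
            ∑ l, wP P G (stt P G θ z.1 s) (inpt P θ s z.1) {c} l z.2 *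
              upsP P G (stt P G θ z.1 s) (inpt P θ s z.1) {c} l ((inpt P θ s z.1).lp {c} l) z.2 := by
          unfold ShP
          rw [← Finset.sum_add_distrib]
          exact Finset.sum_congr rfl fun l _ => by ring
        rw [h4]
        linarith
      · have h3 := (hfx z hz s).n2 {c} hB hV (by rw [Finset.card_singleton]; omega)
        rw [Finset.card_singleton] at h3
        linarith
    no := fun s hs S hS hSc hlt z hz => by
      rw [hXi z hz, hst]
      have hB : Bef P s S := fun c hc => hlt c hc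
      exact (((hTc z.1 (hXT z hz)).fct s).sides.y S hB hSc).resolve_left
        (hno z hz S hS hSc s hs hlt) z.2 (hXw z hz s) }

end

end Pool.Agent.Lib.GSX
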