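import Pool.Agent.Lib.GSX.TopZ
import Pool.Agent.Lib.GSX.UHis

/-!
# The pools of type NO are impossible

`leafU` is the case `hU` of `topZ`.
-/

set_option autoImplicit false

namespace Pool.Agent.Lib.GSX

open Finset Classical
open Pool.Agent.Lib.GSR Pool.Agent.Lib.GSR.HZ Pool.Agent.Lib.GSR.HZB
open Pool.Agent.Lib.GSR3 (Tree)
open TopZ_

/-- **The pools of type NO are impossible.** -/
theorem leafU {V ι : Type} [Fintype V] {P : Cn} {G : SimpleGraph V} {col : Finset V → ℕ → Prop}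
    {Te : Ts V P.N (nb P) ι (Tht P V)} {Q : Hh P V × V → ℝ} {θ : Tht P V}
    (hE : HZB.Eqm col Te Q θ) (hθ : θ ∈ dom P.N (nb P) (Ki P)) (hP : CPos P)
    (hxi : 0 < P.xi) (hh : 2 ≤ P.h) {B : ℕ → ℝ} {c0 t : ℝ} {N0 L0 : ℕ}
    (hH : ∀ c, qc Q c ≠ 0 → Typ Q c0 c → HisW P G B (stt P G θ c) (fun s => inpt P θ s c) (wo c))
    (hS : ∀ ω, TyP P G Q θ c0 t N0 ω →
      SgF P.h L0 (mM P G θ ω.1) (pP P G θ ω.1) (bB P G θ ω.1) (gd P G θ ω.1))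
    {F w ε3 ε1 ξ d kU : ℝ} {RU : ℕ}
    (hcst : UCst P P.r0 w ε3 ε1 ξ d (5 / 4 * P.cP 1))
    (hUC : UC P.M P.h P.r0 F P.gU w RU ε3 kU ε1 ξ) (hFr : FGF.Frac G F)
    (hNT : ∀ φ : List (Fin P.M) → V, ¬ Tree G P.h P.M φ) (hd : 0 ≤ d)
    (hk : kU + P.N * (16 * d) ≤ kpp P.h P.N) (m : ℕ) (X : Finset (Hh P V × V))
    (Pl : Finset (Fin P.N)) (hX : ∀ ω ∈ X, TyP P G Q θ c0 t N0 ω)
    (hκ : kpp P.h P.N ≤ ∑ ω ∈ X, Q ω) (hR : RU ≤ Pl.card) (hPl : PlU P G θ m Pl X) : False := by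
  obtain ⟨X', hX', hrem, hκ'⟩ := restr hE hX hκ
    (fun _ _ I x => 1 / 16 ≤ shR P G I P.gU I.n3 d x) (e := 16 * d) (by linarith) (by
      intro c _ _ s
      have h1 := UDl_.shR_markov (P := P) (G := G) (I := inpt P θ s c) (g := P.gU)
        (n := (inpt P θ s c).n3) (d := d) (InpC_.inpt_ipos hθ s c).n3
        (InpC_.inpt_ipos hθ s c).pi (Hts_.pi_mem hθ s c).2.1.le hd (t := 1 / 16) (by norm_num)
      refine le_trans (le_of_eq ?_) (h1.trans (le_of_eq (by ring)))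
      refine Finset.sum_congr ?_ fun x _ => rfl
      ext x
      simp only [Finset.mem_filter])
  have hT : ∀ ω ∈ X', TyP P G Q θ c0 t N0 ω := fun ω hω => hX ω (hX' hω)
  have hPl' := hPl
  unfold PlU at hPl'
  have e1 : ∀ ω ∈ X', ∀ s ∈ Pl, sdO P G (inpt P θ s ω.1) (wo ω.1 (s + 1)) := by
    intro ω hω s hs
    exact (T4_.mem_gds (In := fun s => inpt P θ s ω.1) (Wd := wo ω.1)).1 (hPl'.sub ω (hX' hω) hs)
  have e2 : ∀ ω ∈ X', ∀ c ∈ Pl, MaR P G (stt P G θ ω.1) (wo ω.1) {c} := by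
    intro ω hω c hc
    exact T4_.single (hS ω (hT ω hω)) (hPl'.sub ω (hX' hω) hc)
  have e3 : ∀ ω ∈ X', ∀ c ∈ Pl, ∀ s ∈ Pl, c < s →
      ¬ sdP P G (stt P G θ ω.1 s) (inpt P θ s ω.1) (wo ω.1 (s + 1)) {c} := by
    intro ω hω c hc s hs hcs
    exact hPl'.pr ω (hX' hω) c hc s hs hcs
  have e4 : ∀ ω ∈ X', ∀ S, S ⊆ Pl → S.card = P.r0 → ∀ s ∈ Pl, (∀ c ∈ S, c < s) →
      ¬ sdY P G (stt P G θ ω.1 s) (inpt P θ s ω.1) (wo ω.1 (s + 1)) S := by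
    intro ω hω S hSA hSc s hs hlt
    exact hPl'.NO ω (hX' hω) S hSA hSc s hs hlt
  obtain ⟨φ, hφ⟩ := uleaf (Tc := fun c => qc Q c ≠ 0 ∧ Typ Q c0 c) (X := X') (A := Pl)
    (M := P.M) (h := P.h) (R := RU) (F := F) (w := w) (ε3 := ε3) (κ := kU) (ε1 := ε1) (ξ := ξ)
    hE hθ hP hxi hh (fun c hc => hc.1) (fun c hc => hH c hc.1 hc.2) (fun ω hω => (hT ω hω).q)
    (fun ω hω => ⟨hE.qc_ne (x := ω.2) (hT ω hω).q, (hT ω hω).typ⟩)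
    (fun ω hω s => (hT ω hω).fct s) (fun ω hω s _ => (not_le.1 (hrem ω hω s)).le)
    e1 e2 e3 e4 hcst hUC hFr hR (by linarith)
  exact hNT φ hφ

end Pool.Agent.Lib.GSX
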