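import Pool.Agent.Lib.GSX.OkF
import Pool.Agent.Lib.GSX.BOut

/-!
# The constants of block B in the game

From `OkC` to the literal hypotheses of the B case, for the constants `cn h M κ k I0 e0`.
-/

set_option autoImplicit false

namespace Pool.Agent.Lib.GSX

open Pool.Agent.Lib.GSI (Wd)

section

variable {h M κ : ℕ} {F : ℝ} {R : ℕ} {D : Wd} {k : Kd}

/-- The windows. -/
theorem OkC.g42 (ok : OkC h M κ F R D k.toKc) (I0 : ℕ) (e0 : ℝ) :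
    (cn h M κ k I0 e0).g0 + 1 ≤ ((42 : ℕ) : ℝ) := by
  have h1 : ((41 : ℕ) : ℝ) = k.g0 := ok.a.g0n
  show k.g0 + 1 ≤ ((42 : ℕ) : ℝ)
  rw [← h1]
  norm_num

/-- **The inequalities of `RFct.nrB`.** -/
theorem OkC.nrK (ok : OkC h M κ F R D k.toKc) (hM : 1 ≤ M) (I0 : ℕ) (e0 : ℝ) {m : ℕ}
    (hm : m < h) :
    NrK (cn h M κ k I0 e0) 42 m (KL k.c0) (Pmc k.c0 k.eps1) (k.B m) qq k.eth k.d k.etB
      ⟨k.kc.w0, k.kc.l0, k.kc.l1, k.kc.u, k.K1, k.kc.R1⟩ where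
  g := ok.g42 I0 e0
  q0 := qq_pos
  qq := qq_mul
  Pm1 := one_le_Pmc
  PmD := Pmc_ge'
  xiD := ok.c.b.xih
  Bm0 := ok.b.s.Bnn m
  ε0 := ok.c.b.eth0
  d2 := le_trans (by norm_num) ok.c.b.d4
  η0 := ok.c.b.eta0
  kK := one_pos.trans_le ok.c.b.K11
  near := ⟨k.kc.u.toNat, Int.self_le_toNat _, ok.c.b.nr1⟩
  l1 := ok.c.b.e8
  l2 := ok.c.b.e9
  two hm1 := by
    have hm2 : m + 1 < h := hm1
    exact ⟨k.rk.es m,
      { srv := ok.b.s.rk.srv m (h - m - 1) (by omega) (by omega)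
        Z1 := ok.b.s.z.Z1' m
        R1 := ok.c.b.R1
        e1 := ok.c.b.e1 m hm
        e2 := ok.c.b.e2 m hm
        e3 := ok.c.b.e3 m hm
        e4 := ok.c.b.e4 m hm
        e5 := ok.c.b.e5 m hm
        e6 := ok.c.b.e6 m hm
        e7 := ok.c.b.e7 m hm }⟩
  one _ :=
    { M1 := hM
      R1κ := ok.c.b.R1κ
      e2' := ok.c.b.e2'
      e4' := ok.c.b.e4'
      e6' := ok.c.b.e6' m hm }

/-- **The inequalities of `RFct.bad` and `RFct.stX`.** -/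
theorem OkC.tyK (ok : OkC h M κ F R D k.toKc) (I0 : ℕ) (e0 : ℝ) (m : ℕ) :
    TyK (cn h M κ k I0 e0) k.qB m (KL k.c0) (Pmc k.c0 k.eps1) qq k.eth k.d k.K1 F (Knc k.c0)
      (2 / k.eps1) (32 * k.et) k.ek k.ex 42 (wN k.w0) k.N (8 * 2 ^ k.qB) (Knc k.c0 + 1) where
  typ := ok.c.b.typ
  exk := ok.c.b.exk
  fC1 := le_rfl
  fv0 := ok.g42 I0 e0
  fwn := wN_ge k.w0
  fN := le_rfl
  cA := ok.a.cA2
  fX j hj := by
    have h1 : (j.choose m : ℝ) ≤ 2 ^ j := by exact_mod_cast Nat.choose_le_two_pow j m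
    have h2 : (2 : ℝ) ^ j ≤ 2 ^ k.qB := pow_le_pow_right₀ one_le_two hj.le
    have h3 : (0 : ℝ) ≤ 2 ^ k.qB := by positivity
    linarith
  sm := by
    have h1 : 32 * Knc k.c0 * k.del ≤ k.et := ok.a.dele
    have h2 : 8 * (Pmc k.c0 k.eps1 * (8 * 2 ^ k.qB * (k.K1 / (k.eth / 8) *
        (qq ^ (k.d - 2) / (1 - qq))))) ≤ 32 * k.et / 4 := ok.c.b.thk
    have h3 : 0 < k.et := ok.a.et_pos
    show 8 * (k.del * Knc k.c0) + 8 * (Pmc k.c0 k.eps1 * (8 * 2 ^ k.qB * (k.K1 / (k.eth / 8) *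
        (qq ^ (k.d - 2) / (1 - qq))))) ≤ 32 * k.et / 2
    nlinarith
  Kw := by
    refine le_trans (le_of_eq ?_) Knc_ge_near
    have h1 : (3 : ℝ) * ((42 + 2 : ℕ) : ℝ) / 2 = 66 := by norm_num
    rw [h1]
    rfl
  Kr := by
    refine le_trans (le_of_eq ?_) Knc_ge_lvl
    have h1 : (2 : ℝ) * ((42 + 2 : ℕ) : ℝ) + 3 = 91 := by norm_num
    rw [h1]
  fKX := by linarith

theorem OkC.K1K (ok : OkC h M κ F R D k.toKc) : k.K1 < k.kc.K := ok.c.b.K1K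

/-- The fans. -/
theorem OkC.etaB (ok : OkC h M κ F R D k.toKc) {m : ℕ} (hm : m < h) :
    k.etB ≤ D.ηB m k.qB 42 (Knc k.c0 + 1) k.ex :=
  ok.c.b.etaB m hm

/-- The hypotheses of `Win.b` on the constants of the windows. -/
theorem OkC.win (ok : OkC h M κ F R D k.toKc) :
    0 < Knc k.c0 + 1 ∧ 0 < k.ex ∧ R + 1 ≤ k.qB ∧ 42 ≤ k.kc.w0 ∧
      k.kc.l0 + 6 * k.kc.w0 + 1 ≤ k.kc.u :=
  ⟨by linarith [one_le_Knc (c0 := k.c0)], ok.c.b.ex0, ok.a.qB_eq.ge, ok.c.b.vw, ok.c.b.uw⟩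

/-- The windows of the small sets. -/
theorem OkC.w0 (ok : OkC h M κ F R D k.toKc) (I0 : ℕ) (e0 : ℝ) :
    (cn h M κ k I0 e0).w0 + 1 ≤ k.kc.w0 := by
  have h1 : ((wN k.w0 : ℕ) : ℝ) ≤ k.kc.w0 := by exact_mod_cast ok.c.b.ww
  exact (wN_ge k.w0).trans h1

/-- The mass of the exceptional nodes of a pool. -/
theorem OkC.tau (ok : OkC h M κ F R D k.toKc) :
    k.qB * (32 * k.et) < kpp h k.N := by
  have h1 : ((ntN k.N k.r0 : ℕ) : ℝ) * k.et ≤ k.kU / 64 := ok.a.etk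
  have h2 : 16 * k.kU ≤ kpp h k.N := ok.a.kU1
  have h3 : 0 < k.kU := ok.a.kU_pos
  have h4 : k.qB ≤ k.r0 + 1 := ok.a.qBr
  have h5 : 0 < k.et := ok.a.et_pos
  have h6 : (32 * k.qB : ℕ) ≤ ntN k.N k.r0 := by
    unfold ntN
    have h7 : 1 ≤ (k.N + 1) * (2 ^ k.N * 2 ^ k.N) := Nat.one_le_iff_ne_zero.2 (by positivity)
    calc 32 * k.qB ≤ 1000 * (1 * (k.r0 + 1)) := by omega
      _ ≤ _ := Nat.mul_le_mul_left _ (Nat.mul_le_mul_right _ h7)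
  have h8 : (32 * k.qB : ℝ) ≤ (ntN k.N k.r0 : ℝ) := by exact_mod_cast h6
  have h9 : (32 * k.qB : ℝ) * k.et ≤ k.kU / 64 := (mul_le_mul_of_nonneg_right h8 h5.le).trans h1
  nlinarith

end

end Pool.Agent.Lib.GSX
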