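import Pool.Agent.Lib.GSX.PayM
import Pool.Agent.Lib.GSX.Inst

/-!
# The derived constants

The bounds which are used by several blocks of constants, as functions of `c0` (the mass of a
typical step) and `eps1` (the items).
-/

set_option autoImplicit false

namespace Pool.Agent.Lib.GSX

open Finset Classical
open Pool.Agent.Lib.GSR.HZB

/-- The bound of the level masses. -/
noncomputable def KL (c0 : ℝ) : ℝ := 4 * (1 / c0)

/-- The bound of the own masses of the main labels, of the weight of the cells, and the factor of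
the payments. -/
noncomputable def Dmc (c0 : ℝ) : ℝ := KL c0 * PayM_.Cq

/-- The bound of the own masses of the cells. -/
noncomputable def Pmc (c0 eps1 : ℝ) : ℝ := max 1 (2 / eps1 * Dmc c0)

/-- The bound of the near sums in the window `44`. -/
noncomputable def Knc (c0 : ℝ) : ℝ :=
  max (max (max (Dmc c0 * 4 ^ 44) (Dmc c0 * 2 ^ (66 : ℝ))) (91 * KL c0)) (max (Dmc c0) 1)

/-- The number of the bits of a stage. -/
noncomputable def nbN (h N : ℕ) : ℕ :=
  gr4 (Fin 1) (Fin 2 × Fin h × Fin 3) (Fin 1) (Fin 6 × Finset (Fin N) × Finset (Fin N))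

theorem nb_eq (P : Cn) : nb P = nbN P.h P.N := rfl

theorem nbN_eq (h N : ℕ) : nbN h N = 1 + 2 * (h * 3) + 1 + 6 * (2 ^ N * 2 ^ N) := by
  unfold nbN gr4
  simp only [Fintype.card_prod, Fintype.card_fin, Fintype.card_finset]

section

variable {c0 eps1 : ℝ}

theorem KL_pos (hc : 0 < c0) : 0 < KL c0 := by
  unfold KL
  positivity

theorem Dmc_pos (hc : 0 < c0) : 0 < Dmc c0 := mul_pos (KL_pos hc) PayM_.Cq_pos

theorem one_le_Pmc : 1 ≤ Pmc c0 eps1 := le_max_left _ _

theorem Pmc_pos : 0 < Pmc c0 eps1 := one_pos.trans_le one_le_Pmc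

theorem Pmc_ge : 2 / eps1 * Dmc c0 ≤ Pmc c0 eps1 := le_max_right _ _

theorem Pmc_ge' : Dmc c0 / (eps1 / 2) ≤ Pmc c0 eps1 := by
  refine le_trans (le_of_eq ?_) Pmc_ge
  rw [div_div_eq_mul_div]
  ring

theorem Knc_ge_near : Dmc c0 * 2 ^ (66 : ℝ) ≤ Knc c0 :=
  (le_max_right _ _).trans ((le_max_left _ _).trans (le_max_left _ _))

theorem Knc_ge_four : Dmc c0 * 4 ^ 44 ≤ Knc c0 :=
  (le_max_left _ _).trans ((le_max_left _ _).trans (le_max_left _ _))

theorem Knc_ge_lvl : 91 * KL c0 ≤ Knc c0 := (le_max_right _ _).trans (le_max_left _ _)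

theorem Knc_ge_Dmc : Dmc c0 ≤ Knc c0 := (le_max_left _ _).trans (le_max_right _ _)

theorem one_le_Knc : 1 ≤ Knc c0 := (le_max_right _ _).trans (le_max_right _ _)

theorem Knc_pos : 0 < Knc c0 := one_pos.trans_le one_le_Knc

/-- The law of a later half prefix is at most `KL c0 / 4` times the law of an earlier one. -/
theorem KL_eq : KL c0 = 4 * c0⁻¹ := by
  unfold KL
  rw [one_div]

end

end Pool.Agent.Lib.GSX
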