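import Mathlib

/-!
# Typical nodes have a good score (static)

One mode of a stage: the labels `l` have the weights `ρ l`, `c x l` is the own kernel divided by
the scale of `x`, so `ρ l * c x l` is the share of `l` at `x` and `n x * c x l` is the own weight
of `x` in the label `l`; `sv l` is the factor of the service of `l` and `u l x` is the violation
left at `x` by the charge of `l`.  The served share is `srv`, the score is `sc`.
-/

set_option autoImplicit false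

namespace Pool.Agent.Lib.GSX

open Finset Classical

/-- The served share of `x`. -/
noncomputable def srv {V Om : Type} [Fintype Om] (ρ sv : Om → ℝ) (c : V → Om → ℝ) (x : V) : ℝ :=
  ∑ l, ρ l * c x l * sv l

/-- The score of `x`. -/
noncomputable def sc {V Om : Type} [Fintype Om] (ρ sv : Om → ℝ) (c : V → Om → ℝ)
    (u : Om → V → ℝ) (x : V) : ℝ :=
  ∑ l, ρ l * c x l * sv l * (1 - u l x)

/-! ### Markov -/

/-- Markov. -/
theorem markov_ge {V : Type} [Fintype V] {n f : V → ℝ} {E c : ℝ} (hc : 0 < c)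
    (hn : ∀ x, 0 ≤ n x) (hf : ∀ x, n x ≠ 0 → 0 ≤ f x) (hE : ∑ x, n x * f x ≤ E)
    (X : Finset V) (hX : ∀ x ∈ X, n x ≠ 0 → c ≤ f x) : ∑ x ∈ X, n x ≤ E / c := by
  rw [le_div_iff₀ hc, Finset.sum_mul]
  refine le_trans ?_ hE
  refine (Finset.sum_le_sum (g := fun x => n x * f x) fun x hx => ?_).trans
    (Finset.sum_le_sum_of_subset_of_nonneg (Finset.subset_univ X) fun x _ _ => ?_)
  · by_cases h : n x = 0
    · simp only [h, zero_mul, le_refl]
    · exact mul_le_mul_of_nonneg_left (hX x hx h) (hn x)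
  · by_cases h : n x = 0
    · rw [h, zero_mul]
    · exact mul_nonneg (hn x) (hf x h)

section

variable {V Om : Type} [Fintype V] [Fintype Om]

omit [Fintype V] in
/-- The part of the served share which is lost. -/
theorem srv_sub_sc (ρ sv : Om → ℝ) (c : V → Om → ℝ) (u : Om → V → ℝ) (x : V) :
    srv ρ sv c x - sc ρ sv c u x = ∑ l, ρ l * c x l * sv l * u l x := by
  unfold srv sc
  rw [← Finset.sum_sub_distrib]
  exact Finset.sum_congr rfl fun l _ => by ring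

omit [Fintype V] in
theorem sc_le_srv {ρ sv : Om → ℝ} {c : V → Om → ℝ} {u : Om → V → ℝ} {x : V}
    (hρ : ∀ l, 0 ≤ ρ l) (hsv : ∀ l, 0 ≤ sv l) (hc : ∀ l, 0 ≤ c x l) (hu : ∀ l, 0 ≤ u l x) :
    sc ρ sv c u x ≤ srv ρ sv c x := by
  rw [← sub_nonneg, srv_sub_sc]
  exact Finset.sum_nonneg fun l _ =>
    mul_nonneg (mul_nonneg (mul_nonneg (hρ l) (hc l)) (hsv l)) (hu l)

/-- The mean of the lost share. -/
theorem mean_lost (n : V → ℝ) (ρ sv : Om → ℝ) (c : V → Om → ℝ) (u : Om → V → ℝ) :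
    ∑ x, n x * (srv ρ sv c x - sc ρ sv c u x) =
      ∑ l, ρ l * sv l * ∑ x, n x * c x l * u l x := by
  simp only [srv_sub_sc, Finset.mul_sum]
  rw [Finset.sum_comm]
  exact Finset.sum_congr rfl fun l _ => Finset.sum_congr rfl fun x _ => by ring

/-- The mean of the lost share is small. -/
theorem mean_lost_le {n : V → ℝ} {ρ sv : Om → ℝ} {c : V → Om → ℝ} {u : Om → V → ℝ} {e H : ℝ}
    (hρ : ∀ l, 0 ≤ ρ l) (hsv : ∀ l, 0 ≤ sv l) (hsv1 : ∀ l, sv l ≤ 1) (he : 0 ≤ e)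
    (hu : ∀ l, ρ l ≠ 0 → sv l ≠ 0 → ∑ x, n x * c x l * u l x ≤ e) (hH : ∑ l, ρ l ≤ H) :
    ∑ x, n x * (srv ρ sv c x - sc ρ sv c u x) ≤ H * e := by
  rw [mean_lost]
  refine (Finset.sum_le_sum (g := fun l => ρ l * e) fun l _ => ?_).trans ?_
  · by_cases h1 : ρ l = 0
    · rw [h1, zero_mul, zero_mul, zero_mul]
    by_cases h2 : sv l = 0
    · rw [h2, mul_zero, zero_mul]
      exact mul_nonneg (hρ l) he
    calc ρ l * sv l * ∑ x, n x * c x l * u l x ≤ ρ l * sv l * e :=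
          mul_le_mul_of_nonneg_left (hu l h1 h2) (mul_nonneg (hρ l) (hsv l))
      _ ≤ ρ l * 1 * e := mul_le_mul_of_nonneg_right
          (mul_le_mul_of_nonneg_left (hsv1 l) (hρ l)) he
      _ = ρ l * e := by rw [mul_one]
  · rw [← Finset.sum_mul]
    exact mul_le_mul_of_nonneg_right hH he

/-! ### The cost of one label -/

/-- The violation of one label, from the value of the own step and its cost.  `P` is the own law
of the label, `g` the charge of the hub. -/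
theorem label_lost {P u g : V → ℝ} {δ A e : ℝ} (hA : 0 ≤ A)
    (hval : ∑ x, P x * u x ≤ δ + A * ∑ x, P x * min 1 (g x))
    (hcost : ∑ x, P x * min 1 (g x) ≤ e) : ∑ x, P x * u x ≤ δ + A * e :=
  hval.trans (add_le_add le_rfl (mul_le_mul_of_nonneg_left hcost hA))

/-- The cost of a label whose hub charge is small at all the own nodes (P-mode). -/
theorem cost_pt {P g : V → ℝ} {D e : ℝ} (hP : ∀ x, 0 ≤ P x) (he : 0 ≤ e) (hD : ∑ x, P x ≤ D)
    (hg : ∀ x, P x ≠ 0 → g x ≤ e) : ∑ x, P x * min 1 (g x) ≤ D * e := by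
  refine (Finset.sum_le_sum (g := fun x => P x * e) fun x _ => ?_).trans ?_
  · by_cases h : P x = 0
    · rw [h, zero_mul, zero_mul]
    · exact mul_le_mul_of_nonneg_left ((min_le_right _ _).trans (hg x h)) (hP x)
  · rw [← Finset.sum_mul]
    exact mul_le_mul_of_nonneg_right hD he

/-- The cost of a label whose hub charge is small on average and whose cover is small at all the
own nodes (A-mode). -/
theorem cost_avg {P g f : V → ℝ} {D d e Z : ℝ} (hP : ∀ x, 0 ≤ P x) (hZ : 0 ≤ Z) (he : 0 ≤ e)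
    (hD : ∑ x, P x ≤ D) (hg : ∑ x, P x * g x ≤ d) (hf : ∀ x, P x ≠ 0 → f x ≤ e) :
    ∑ x, P x * min 1 (g x + Z * f x) ≤ d + D * (Z * e) := by
  calc ∑ x, P x * min 1 (g x + Z * f x) ≤ ∑ x, (P x * g x + P x * (Z * e)) := by
        refine Finset.sum_le_sum fun x _ => ?_
        by_cases h : P x = 0
        · rw [h]
          simp
        · rw [← mul_add]
          refine mul_le_mul_of_nonneg_left ((min_le_right _ _).trans
            (add_le_add le_rfl (mul_le_mul_of_nonneg_left (hf x h) hZ))) (hP x)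
    _ = ∑ x, P x * g x + (∑ x, P x) * (Z * e) := by
        rw [Finset.sum_add_distrib, Finset.sum_mul]
    _ ≤ d + D * (Z * e) :=
        add_le_add hg (mul_le_mul_of_nonneg_right hD (mul_nonneg hZ he))

end

/-! ### The typical score -/

/-- **Typical score**, one mode. -/
theorem score_one {V Om : Type} [Fintype V] [Fintype Om] {n : V → ℝ} {ρ sv : Om → ℝ}
    {c : V → Om → ℝ} {u : Om → V → ℝ} {e H t : ℝ} (ht : 0 < t)
    (hn : ∀ x, 0 ≤ n x) (hρ : ∀ l, 0 ≤ ρ l) (hsv : ∀ l, 0 ≤ sv l) (hsv1 : ∀ l, sv l ≤ 1)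
    (hc : ∀ x l, 0 ≤ c x l) (hu0 : ∀ l x, 0 ≤ u l x) (he : 0 ≤ e)
    (hu : ∀ l, ρ l ≠ 0 → sv l ≠ 0 → ∑ x, n x * c x l * u l x ≤ e) (hH : ∑ l, ρ l ≤ H)
    (X : Finset V) (hX : ∀ x ∈ X, n x ≠ 0 → sc ρ sv c u x + t ≤ srv ρ sv c x) :
    ∑ x ∈ X, n x ≤ H * e / t :=
  markov_ge ht hn (fun x _ => sub_nonneg.2 (sc_le_srv hρ hsv (hc x) fun l => hu0 l x))
    (mean_lost_le hρ hsv hsv1 he hu hH) X fun x hx h => by linarith [hX x hx h]

/-- **Typical score** (`C9`), the P-labels `Om` together with the labels `Om' S` of the items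
`S ∈ 𝒮`: the mass of the nodes with a served share at least `2 t` and a score at most `t` is
small. -/
theorem score_typ {V Om ι : Type} {Om' : ι → Type} [Fintype V] [Fintype Om]
    [∀ S, Fintype (Om' S)] {n : V → ℝ} {t : ℝ} (ht : 0 < t) (hn : ∀ x, 0 ≤ n x)
    -- the P-labels
    {ρ sv : Om → ℝ} {c : V → Om → ℝ} {u : Om → V → ℝ} {e H : ℝ}
    (hρ : ∀ l, 0 ≤ ρ l) (hsv : ∀ l, 0 ≤ sv l) (hsv1 : ∀ l, sv l ≤ 1)
    (hc : ∀ x l, 0 ≤ c x l) (hu0 : ∀ l x, 0 ≤ u l x) (he : 0 ≤ e)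
    (hu : ∀ l, ρ l ≠ 0 → sv l ≠ 0 → ∑ x, n x * c x l * u l x ≤ e) (hH : ∑ l, ρ l ≤ H)
    -- the labels of the items
    (𝒮 : Finset ι) {ρ' sv' : ∀ S, Om' S → ℝ} {c' : ∀ S, V → Om' S → ℝ}
    {u' : ∀ S, Om' S → V → ℝ} {e' H' : ℝ}
    (hρ' : ∀ S ∈ 𝒮, ∀ l, 0 ≤ ρ' S l) (hsv' : ∀ S ∈ 𝒮, ∀ l, 0 ≤ sv' S l)
    (hsv1' : ∀ S ∈ 𝒮, ∀ l, sv' S l ≤ 1) (hc' : ∀ S ∈ 𝒮, ∀ x l, 0 ≤ c' S x l)
    (hu0' : ∀ S ∈ 𝒮, ∀ l x, 0 ≤ u' S l x) (he' : 0 ≤ e')
    (hu' : ∀ S ∈ 𝒮, ∀ l, ρ' S l ≠ 0 → sv' S l ≠ 0 →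
      ∑ x, n x * c' S x l * u' S l x ≤ e') (hH' : ∀ S ∈ 𝒮, ∑ l, ρ' S l ≤ H')
    (X : Finset V) (hX : ∀ x ∈ X, n x ≠ 0 →
      sc ρ sv c u x + ∑ S ∈ 𝒮, sc (ρ' S) (sv' S) (c' S) (u' S) x ≤ t ∧
        2 * t ≤ srv ρ sv c x + ∑ S ∈ 𝒮, srv (ρ' S) (sv' S) (c' S) x) :
    ∑ x ∈ X, n x ≤ (H * e + 𝒮.card * (H' * e')) / t := by
  refine markov_ge (f := fun x => (srv ρ sv c x - sc ρ sv c u x) +
    ∑ S ∈ 𝒮, (srv (ρ' S) (sv' S) (c' S) x - sc (ρ' S) (sv' S) (c' S) (u' S) x)) ht hn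
    (fun x _ => ?_) ?_ X fun x hx h => ?_
  · refine add_nonneg (sub_nonneg.2 (sc_le_srv hρ hsv (hc x) fun l => hu0 l x))
      (Finset.sum_nonneg fun S hS => sub_nonneg.2
        (sc_le_srv (hρ' S hS) (hsv' S hS) (hc' S hS x) fun l => hu0' S hS l x))
  · simp only [mul_add, Finset.mul_sum]
    rw [Finset.sum_add_distrib]
    refine add_le_add (mean_lost_le hρ hsv hsv1 he hu hH) ?_
    rw [Finset.sum_comm, ← nsmul_eq_mul]
    exact Finset.sum_le_card_nsmul _ _ _ fun S hS =>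
      mean_lost_le (hρ' S hS) (hsv' S hS) (hsv1' S hS) he' (hu' S hS) (hH' S hS)
  · obtain ⟨h1, h2⟩ := hX x hx h
    rw [Finset.sum_sub_distrib]
    linarith

/-- The bound of one P-label: the own step value with a pointwise small charge. -/
theorem lost_P {V : Type} [Fintype V] {P u g : V → ℝ} {δ A D e : ℝ} (hA : 0 ≤ A)
    (hP : ∀ x, 0 ≤ P x) (he : 0 ≤ e) (hD : ∑ x, P x ≤ D) (hg : ∀ x, P x ≠ 0 → g x ≤ e)
    (hval : ∑ x, P x * u x ≤ δ + A * ∑ x, P x * min 1 (g x)) :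
    ∑ x, P x * u x ≤ δ + A * (D * e) :=
  label_lost hA hval (cost_pt hP he hD hg)

/-- The bound of one served label: the own step value with a charge which is small on average. -/
theorem lost_A {V : Type} [Fintype V] {P u g f : V → ℝ} {δ A D d e Z : ℝ} (hA : 0 ≤ A)
    (hP : ∀ x, 0 ≤ P x) (hZ : 0 ≤ Z) (he : 0 ≤ e) (hD : ∑ x, P x ≤ D)
    (hg : ∑ x, P x * g x ≤ d) (hf : ∀ x, P x ≠ 0 → f x ≤ e)
    (hval : ∑ x, P x * u x ≤ δ + A * ∑ x, P x * min 1 (g x + Z * f x)) :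
    ∑ x, P x * u x ≤ δ + A * (d + D * (Z * e)) :=
  label_lost hA hval (cost_avg hP hZ he hD hg hf)

end Pool.Agent.Lib.GSX
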