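import Pool.Agent.Lib.GSX.Rec
import Pool.Agent.Lib.GSX.ScoreT

/-!
# Typical nodes have a good score (the instance)

`score_P`, `score_A`: if the objectives of the own steps are at most `e` then the mass of the nodes
whose score is smaller than the served share by at least `t` is at most `e / t` (times the mass of
the labels).  `score_P2`, `score_A2`: the form with the thresholds.
-/

set_option autoImplicit false

namespace Pool.Agent.Lib.GSX

open Finset Classical
open Pool.Agent.Lib.FGF (cm)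
open Pool.Agent.Lib.GSR (vioC vioC_nonneg)

section

variable {V : Type} [Fintype V] (P : Cn) (G : SimpleGraph V) (s : Fin P.N) (S : Sta P V)
  (I : Inp P V)

namespace ScoreI_

theorem upsP_nonneg (C : Finset (Fin P.N)) (l : Ml P V) (lam : V → ℝ) (x : V) :
    0 ≤ upsP P G S I C l lam x := vioC_nonneg

theorem upsA_nonneg (T C : Finset (Fin P.N)) (l : Ce P V) (lam : V → ℝ) (x : V) :
    0 ≤ upsA P G S I T C l lam x := vioC_nonneg

theorem rp_nonneg (u : ℝ) : 0 ≤ rp u := le_max_left _ _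

theorem rp_le_one (u : ℝ) : rp u ≤ 1 := max_le zero_le_one (min_le_left _ _)

theorem sv_nonneg (T C : Finset (Fin P.N)) (l : Ce P V) : 0 ≤ sv P G S I T C l :=
  mul_nonneg (rp_nonneg _) (rp_nonneg _)

theorem sv_le_one (T C : Finset (Fin P.N)) (l : Ce P V) : sv P G S I T C l ≤ 1 :=
  mul_le_one₀ (rp_le_one _) (rp_nonneg _) (rp_le_one _)

theorem wP_srv (C : Finset (Fin P.N)) (x : V) : ∑ l, wP P G S I C l x =
    srv I.pi (fun _ => 1) (fun x l => CP P G S I C x l / al P G I x) x := by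
  unfold srv
  refine Finset.sum_congr rfl fun l _ => ?_
  unfold wP
  ring

theorem ShP_sc (C : Finset (Fin P.N)) (x : V) : ShP P G S I C x =
    sc I.pi (fun _ => 1) (fun x l => CP P G S I C x l / al P G I x)
      (fun l x => upsP P G S I C l (I.lp C l) x) x := by
  unfold ShP sc
  refine Finset.sum_congr rfl fun l _ => ?_
  unfold wP
  ring

theorem objP_eq (C : Finset (Fin P.N)) (l : Ml P V) : objP P G S I C l (I.lp C l) =
    ∑ x, I.n3 x * (CP P G S I C x l / al P G I x) * upsP P G S I C l (I.lp C l) x := by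
  unfold objP
  refine Finset.sum_congr rfl fun x _ => ?_
  unfold PP
  ring

theorem wA_srv (T C : Finset (Fin P.N)) (x : V) :
    ∑ l, wA P G S I T l x * sv P G S I T C l = srv (rho P G S I T) (sv P G S I T C)
      (fun x l => CS P G S I T x l / BS P G S I T x) x := by
  unfold srv
  refine Finset.sum_congr rfl fun l _ => ?_
  unfold wA
  ring

theorem ShA_sc (T C : Finset (Fin P.N)) (x : V) : ShA P G S I T C x =
    sc (rho P G S I T) (sv P G S I T C) (fun x l => CS P G S I T x l / BS P G S I T x)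
      (fun l x => upsA P G S I T C l (I.la T C l) x) x := by
  unfold ShA sc
  refine Finset.sum_congr rfl fun l _ => ?_
  unfold wA
  ring

theorem objA_eq (T C : Finset (Fin P.N)) (l : Ce P V) : objA P G S I T C l (I.la T C l) =
    ∑ x, I.n3 x * (CS P G S I T x l / BS P G S I T x) * upsA P G S I T C l (I.la T C l) x := by
  unfold objA
  refine Finset.sum_congr rfl fun x _ => ?_
  unfold PA
  ring

end ScoreI_

open ScoreI_

/-- **Typical score of the hub mode.** -/
theorem score_P {C : Finset (Fin P.N)} {e t : ℝ} (ht : 0 < t) (hn : ∀ x, 0 ≤ I.n3 x)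
    (hpi : ∀ l, 0 ≤ I.pi l) (hpi1 : ∑ l, I.pi l ≤ 1) (hC : ∀ x l, 0 ≤ CP P G S I C x l)
    (ha : ∀ x, 0 < al P G I x) (he : 0 ≤ e)
    (hobj : ∀ l, I.pi l ≠ 0 → objP P G S I C l (I.lp C l) ≤ e) (X : Finset V)
    (hX : ∀ x ∈ X, I.n3 x ≠ 0 → ShP P G S I C x + t ≤ ∑ l, wP P G S I C l x) :
    ∑ x ∈ X, I.n3 x ≤ e / t := by
  have h := score_one (ρ := I.pi) (sv := fun _ => 1)
    (c := fun x l => CP P G S I C x l / al P G I x)
    (u := fun l x => upsP P G S I C l (I.lp C l) x) ht hn hpi (fun _ => zero_le_one)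
    (fun _ => le_rfl) (fun x l => div_nonneg (hC x l) (ha x).le)
    (fun l x => upsP_nonneg P G S I C l _ x) he
    (fun l hl _ => by
      rw [← objP_eq]
      exact hobj l hl) hpi1 X (fun x hx h => by
      rw [← ShP_sc, ← wP_srv]
      exact hX x hx h)
  rwa [one_mul] at h

/-- **Typical score of the item `T`.** -/
theorem score_A {T C : Finset (Fin P.N)} {e H t : ℝ} (ht : 0 < t) (hn : ∀ x, 0 ≤ I.n3 x)
    (hρ : ∀ l, 0 ≤ rho P G S I T l) (hH : ∑ l, rho P G S I T l ≤ H)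
    (hC : ∀ x l, 0 ≤ CS P G S I T x l) (hB : ∀ x, 0 ≤ BS P G S I T x) (he : 0 ≤ e)
    (hobj : ∀ l, rho P G S I T l ≠ 0 → sv P G S I T C l ≠ 0 →
      objA P G S I T C l (I.la T C l) ≤ e) (X : Finset V)
    (hX : ∀ x ∈ X, I.n3 x ≠ 0 →
      ShA P G S I T C x + t ≤ ∑ l, wA P G S I T l x * sv P G S I T C l) :
    ∑ x ∈ X, I.n3 x ≤ H * e / t :=
  score_one (ρ := rho P G S I T) (sv := sv P G S I T C)
    (c := fun x l => CS P G S I T x l / BS P G S I T x)
    (u := fun l x => upsA P G S I T C l (I.la T C l) x) ht hn hρ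
    (fun l => sv_nonneg P G S I T C l) (fun l => sv_le_one P G S I T C l)
    (fun x l => div_nonneg (hC x l) (hB x)) (fun l x => upsA_nonneg P G S I T C l _ x) he
    (fun l h1 h2 => by
      rw [← objA_eq]
      exact hobj l h1 h2) hH X (fun x hx h => by
      rw [← ShA_sc, ← wA_srv]
      exact hX x hx h)

/-- The served share minus the score. -/
theorem share_sub_P (C : Finset (Fin P.N)) (x : V) :
    ∑ l, wP P G S I C l x * upsP P G S I C l (I.lp C l) x =
      ∑ l, wP P G S I C l x - ShP P G S I C x := by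
  unfold ShP
  rw [← Finset.sum_sub_distrib]
  exact Finset.sum_congr rfl fun l _ => by ring

/-- The served share minus the score. -/
theorem share_sub_A (T C : Finset (Fin P.N)) (x : V) :
    ∑ l, wA P G S I T l x * sv P G S I T C l * upsA P G S I T C l (I.la T C l) x =
      ∑ l, wA P G S I T l x * sv P G S I T C l - ShA P G S I T C x := by
  unfold ShA
  rw [← Finset.sum_sub_distrib]
  exact Finset.sum_congr rfl fun l _ => by ring

/-- The mass of the nodes which lose at least `t` in the hub mode. -/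
theorem lost_mass_P {C : Finset (Fin P.N)} {e t : ℝ} (ht : 0 < t) (hn : ∀ x, 0 ≤ I.n3 x)
    (hpi : ∀ l, 0 ≤ I.pi l) (hpi1 : ∑ l, I.pi l ≤ 1) (hC : ∀ x l, 0 ≤ CP P G S I C x l)
    (ha : ∀ x, 0 < al P G I x) (he : 0 ≤ e)
    (hobj : ∀ l, I.pi l ≠ 0 → objP P G S I C l (I.lp C l) ≤ e) (X : Finset V)
    (hX : ∀ x ∈ X, I.n3 x ≠ 0 →
      t ≤ ∑ l, wP P G S I C l x * upsP P G S I C l (I.lp C l) x) :
    ∑ x ∈ X, I.n3 x ≤ e / t :=
  score_P P G S I ht hn hpi hpi1 hC ha he hobj X fun x hx h => by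
    have h1 := hX x hx h
    rw [share_sub_P] at h1
    linarith

/-- The mass of the nodes which lose at least `t` in the item `T`. -/
theorem lost_mass_A {T C : Finset (Fin P.N)} {e H t : ℝ} (ht : 0 < t) (hn : ∀ x, 0 ≤ I.n3 x)
    (hρ : ∀ l, 0 ≤ rho P G S I T l) (hH : ∑ l, rho P G S I T l ≤ H)
    (hC : ∀ x l, 0 ≤ CS P G S I T x l) (hB : ∀ x, 0 ≤ BS P G S I T x) (he : 0 ≤ e)
    (hobj : ∀ l, rho P G S I T l ≠ 0 → sv P G S I T C l ≠ 0 →
      objA P G S I T C l (I.la T C l) ≤ e) (X : Finset V)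
    (hX : ∀ x ∈ X, I.n3 x ≠ 0 → t ≤ ∑ l, wA P G S I T l x * sv P G S I T C l *
      upsA P G S I T C l (I.la T C l) x) :
    ∑ x ∈ X, I.n3 x ≤ H * e / t :=
  score_A P G S I ht hn hρ hH hC hB he hobj X fun x hx h => by
    have h1 := hX x hx h
    rw [share_sub_A] at h1
    linarith

/-- The form with the threshold. -/
theorem score_P2 {C : Finset (Fin P.N)} {e t : ℝ} (ht : 0 < t) (hn : ∀ x, 0 ≤ I.n3 x)
    (hpi : ∀ l, 0 ≤ I.pi l) (hpi1 : ∑ l, I.pi l ≤ 1) (hC : ∀ x l, 0 ≤ CP P G S I C x l)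
    (ha : ∀ x, 0 < al P G I x) (he : 0 ≤ e)
    (hobj : ∀ l, I.pi l ≠ 0 → objP P G S I C l (I.lp C l) ≤ e) (X : Finset V)
    (hX : ∀ x ∈ X, I.n3 x ≠ 0 → ShP P G S I C x ≤ t ∧ 2 * t ≤ ∑ l, wP P G S I C l x) :
    ∑ x ∈ X, I.n3 x ≤ e / t :=
  score_P P G S I ht hn hpi hpi1 hC ha he hobj X fun x hx h => by
    obtain ⟨h1, h2⟩ := hX x hx h
    linarith

/-- The form with the threshold. -/
theorem score_A2 {T C : Finset (Fin P.N)} {e H t : ℝ} (ht : 0 < t) (hn : ∀ x, 0 ≤ I.n3 x)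
    (hρ : ∀ l, 0 ≤ rho P G S I T l) (hH : ∑ l, rho P G S I T l ≤ H)
    (hC : ∀ x l, 0 ≤ CS P G S I T x l) (hB : ∀ x, 0 ≤ BS P G S I T x) (he : 0 ≤ e)
    (hobj : ∀ l, rho P G S I T l ≠ 0 → sv P G S I T C l ≠ 0 →
      objA P G S I T C l (I.la T C l) ≤ e) (X : Finset V)
    (hX : ∀ x ∈ X, I.n3 x ≠ 0 → ShA P G S I T C x ≤ t ∧
      2 * t ≤ ∑ l, wA P G S I T l x * sv P G S I T C l) :
    ∑ x ∈ X, I.n3 x ≤ H * e / t :=
  score_A P G S I ht hn hρ hH hC hB he hobj X fun x hx h => by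
    obtain ⟨h1, h2⟩ := hX x hx h
    linarith

end

end Pool.Agent.Lib.GSX
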