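import Pool.Agent.Lib.GSX.Gst
import Pool.Agent.Lib.GSX.StageL
import Pool.Agent.Lib.GSX.BdP
import Pool.Agent.Lib.GSX.ScoreI
import Pool.Agent.Lib.GSX.Hts
import Pool.Agent.Lib.GSX.KDef

/-!
# Services, own steps and payments at one stage of a typical history

`OkPS`: the inequalities of the block S in the constants `P` (`OkPS.of_okS`).  `Gst.gp`, `Gst.ga`:
the payment functions are bounded on the next world.  `Gst.fctX_mass`: the nodes for which the
facts `FctX` fail have a small mass.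
-/

set_option autoImplicit false

namespace Pool.Agent.Lib.GSX

open Finset Classical
open Pool.Agent.Lib.FGF (cm)
open Pool.Agent.Lib.GSR (vioC vioC_anti' OwnK)




/-- The inequalities of the block S for the constants `P`. -/
structure OkPS (P : Cn) (κ : ℕ) (c0 et : ℝ) (dO B : ℕ → ℝ) : Prop where
  M1 : 1 ≤ P.M
  e01 : P.e0 < 1
  I0 : 2 * lv P.I0 ≤ P.e0
  root : ∀ r j, 1 ≤ j → j + r + 1 = P.h →
    RootC P.M j κ (dO r) (P.A' r) (P.Lam' r) (P.eta r)
  root' : ∀ r j, 1 ≤ j → j + r + 2 = P.h →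
    RootC P.M j κ (dO r) (P.A' r) (P.Lam' r) (P.eta r)
  AZ' : ∀ r, P.A' r * P.Z r ≤ P.Z'' r
  AZ'' : ∀ r, P.A' r * P.Z' r ≤ P.Z'' r
  Lam : ∀ r, 0 ≤ P.Lam r
  Lam' : ∀ r, 0 ≤ P.Lam' r
  dO0 : ∀ r, 0 ≤ dO r
  dl4 : ∀ r, P.dl r ≤ 1 / 4
  dlM : ∀ r, 8 * P.M * P.dl r ≤ P.del / 4
  atm : κ * P.M * (2 * (P.xi2 / c0) / P.eps1) ≤ P.del / 4
  xi2 : 0 ≤ P.xi2
  ownP : ∀ r, r < P.h → dO r + P.A' r * (Dmc c0 * (B r * (r * bG P.lG))) ≤ et * cst P r
  ownA : ∀ r, Dmc c0 * (dO r + P.A' r * (2 * P.dl r)) ≤ et * cst P r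
  Bd1 : 1 ≤ P.Bd
  payP : ∀ r, r < P.h → Dmc c0 * (1 + P.Lam' r + Dmc c0 / P.eta r) < c0 * P.Bd
  payA : ∀ r, r < P.h → Dmc c0 * (Dmc c0 * (P.A' r * P.Lam r + 1 + P.Lam' r +
    2 / P.eps1 * Dmc c0 / P.eta r)) < c0 * P.Bd
  Bnn : ∀ r, 0 ≤ B r
  gapM : ∀ r, r < P.h → 8 * P.M * (B r * (r * bG P.lG)) ≤ 1

/-- From the constants of `KSv.lean`. -/
theorem OkPS.of_okS {P : Cn} {κ Nit : ℕ} {D D' HA Kq c0 et : ℝ} {c dO es B : ℕ → ℝ}
    (h : OkS P.M P.h κ D D' HA Kq c0 et P.del Nit c dO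
      ⟨P.A, P.A', P.Lam, P.Lam', P.dl, P.eta, es, P.Z, P.Z', P.Z''⟩ P.Bd B P.lG)
    (hM : 1 ≤ P.M) (he1 : P.e0 < 1) (hI0 : 2 * lv P.I0 ≤ P.e0) (heps : 0 < P.eps1)
    (hatm : κ * P.M * (2 * (P.xi2 / c0) / P.eps1) ≤ P.del / 4) (hxi2 : 0 ≤ P.xi2)
    (hc0 : 0 < c0) (het : 0 ≤ et) (hD : Dmc c0 ≤ D) (hD' : 2 / P.eps1 * Dmc c0 ≤ D')
    (hHA : Dmc c0 ≤ HA) (hKq : Dmc c0 ≤ Kq) (hc : ∀ r, c r ≤ cst P r) : OkPS P κ c0 et dO B := by
  have hK := Dmc_pos hc0
  have hA' : ∀ r, 1 ≤ P.A' r := h.rk.A1'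
  have hA : ∀ r, 1 ≤ P.A r := h.rk.A1
  have hL : ∀ r, 0 ≤ P.Lam r := h.rk.Lam0
  have hL' : ∀ r, 0 ≤ P.Lam' r := h.rk.Lam0'
  have heta : ∀ r, 0 < P.eta r := h.rk.eta0
  have hdl : ∀ r, 0 < P.dl r := h.rk.dl0
  have hec : ∀ r, et * c r ≤ et * cst P r := fun r => mul_le_mul_of_nonneg_left (hc r) het
  refine ⟨hM, he1, hI0, h.rk.root, h.rk.root', h.z.AZ', h.z.AZ'', hL, hL', fun r => (h.dO0 r).le,
    h.dl4, h.dlM, hatm, hxi2, fun r hr => ?_, fun r => ?_, h.Bd1, fun r hr => ?_,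
    fun r hr => ?_, h.Bnn, h.gapM⟩
  · refine le_trans ?_ ((h.ownP r hr).trans (hec r))
    refine add_le_add le_rfl (mul_le_mul_of_nonneg_left ?_ (by linarith [hA' r]))
    exact mul_le_mul_of_nonneg_right hD (mul_nonneg (h.Bnn r)
      (mul_nonneg (Nat.cast_nonneg _) (bG_nonneg _)))
  · refine le_trans ?_ ((h.ownA' r).trans (hec r))
    refine mul_le_mul_of_nonneg_right hHA (add_nonneg (h.dO0 r).le ?_)
    exact mul_nonneg (by linarith [hA' r]) (mul_nonneg two_pos.le (hdl r).le)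
  · refine lt_of_le_of_lt ?_ (h.payP r hr)
    have h1 : Dmc c0 / P.eta r ≤ D / P.eta r := div_le_div_of_nonneg_right hD (heta r).le
    have h2 : 0 < Dmc c0 / P.eta r := div_pos hK (heta r)
    have h3 := hL' r
    exact mul_le_mul hKq (add_le_add le_rfl h1) (by linarith) (hK.le.trans hKq)
  · refine lt_of_le_of_lt ?_ (h.payA r hr)
    have h1 : 2 / P.eps1 * Dmc c0 / P.eta r ≤ D' / P.eta r :=
      div_le_div_of_nonneg_right hD' (heta r).le
    have h2 : 0 < 2 / P.eps1 * Dmc c0 / P.eta r := by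
      have := heta r
      positivity
    have h3 := hL' r
    have h4 : 0 ≤ P.A' r * P.Lam r := mul_nonneg (by linarith [hA' r]) (hL r)
    have h5 : 0 ≤ P.A' r * P.Lam r + 1 + P.Lam' r + 2 / P.eps1 * Dmc c0 / P.eta r := by linarith
    refine mul_le_mul hKq (mul_le_mul hHA (add_le_add le_rfl h1) h5 (hK.le.trans hHA))
      (mul_nonneg hK.le h5) (hK.le.trans hKq)

namespace StgS_

section

variable {V : Type} [Fintype V] {P : Cn} {G : SimpleGraph V} {s : Fin P.N} {S : Sta P V}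
  {I : Inp P V} {κ : ℕ} {c0 et b : ℝ} {dO B : ℕ → ℝ}

theorem lv_le (h : 2 * lv P.I0 ≤ P.e0) : lv P.I0 ≤ P.e0 := by
  have := RecP_.lv_pos P.I0
  linarith

/-! ### One record -/

/-- **The lost weight of the hub mode.** -/
theorem n1_mass (hP : CPos P) (hS : SPos S) (hI : IPos I) (hBe : Best P G s S I)
    (K : OkPS P κ c0 et dO B) (hc0 : 0 < c0)
    (H : PayM_.LvH P G I I.n3 (KL c0)) {f : V → V → Fin κ} (hE : EndH P G S I b κ f)
    {C : Finset (Fin P.N)} (hr : C.card + 2 ≤ P.h) (hv : Val P G S I.W C)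
    (hb : Bnd P G S B I.W C) :
    ∑ x with P.cP C.card / 4 < ∑ l, wP P G S I C l x * upsP P G S I C l (I.lp C l) x,
      I.n3 x ≤ 4 * et := by
  have hcP := hP.cP C.card
  have hK := Dmc_pos hc0
  have h1 : ∀ l, I.pi l ≠ 0 → objP P G S I C l (I.lp C l) ≤ dO C.card +
      P.A' C.card * (Dmc c0 * (B C.card * (C.card * bG P.lG))) := fun l hl =>
    BdP_.objP_le hP hS hI.n3 hE.sup hE.F0 (hBe.pi_supp hl) hr
      (K.root C.card (P.h - C.card - 1) (by omega) (by omega)) (K.AZ' _) (f l.1) (hE.col l.1)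
      hv (K.Bnn _) hb (hBe.lp_min C l) (PayM_.PP_mass H C l)
  have h2 := K.ownP C.card (by omega)
  have h3 : cst P C.card ≤ P.cP C.card := min_le_left _ _
  have h4 : 0 ≤ dO C.card + P.A' C.card * (Dmc c0 * (B C.card * (C.card * bG P.lG))) :=
    add_nonneg (K.dO0 _) (mul_nonneg (hP.A' _) (mul_nonneg hK.le (mul_nonneg (K.Bnn _)
      (mul_nonneg (Nat.cast_nonneg _) (bG_nonneg _)))))
  refine (lost_mass_P P G S I (t := P.cP C.card / 4) (by linarith) hI.n3 hI.pi hE.pi1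
    (fun x l => RecP_.CP_nonneg C x l) (fun x => RecP_.al_pos x) h4 h1 _
    fun x hx _ => (Finset.mem_filter.1 hx).2.le).trans ?_
  rw [div_le_iff₀ (by linarith)]
  have h5 : 0 ≤ et := by
    have h6 : 0 < cst P C.card := RecP_.cst_pos hP _
    by_contra h7
    push Not at h7
    have h8 : et * cst P C.card < 0 := mul_neg_of_neg_of_pos h7 h6
    linarith
  calc _ ≤ et * cst P C.card := h2
    _ ≤ et * P.cP C.card := mul_le_mul_of_nonneg_left h3 h5
    _ = 4 * et * (P.cP C.card / 4) := by ring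

/-- **The last step.** -/
theorem n2_mass (hP : CPos P) (hS : SPos S) (hI : IPos I) (K : OkPS P κ c0 et dO B)
    {f : V → V → Fin κ} (hE : EndH P G S I b κ f) (hF : ∀ u ∈ I.W, S.F u = 0)
    {C : Finset (Fin P.N)} (hr : C.card + 1 = P.h) (hv : Val P G S I.W C)
    (hb : Bnd P G S B I.W C) :
    ∑ x with P.cP C.card / 4 < ∑ l, wP P G S I C l x, I.n3 x ≤
      8 * (κ * P.M * b) / P.cP C.card := by
  have hcP := hP.cP C.card
  have h1 : P.h - C.card = 1 := by omega
  have h2 := wP_typ_one (C := C) hS hI hE (e := B C.card * (C.card * bG P.lG))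
    (t := P.cP C.card / 4) ?_ ?_ (K.gapM _ (by omega)) (by linarith)
  · refine (Finset.sum_le_sum_of_subset_of_nonneg (fun x hx => ?_) fun x _ _ => hI.n3 x).trans
      (h2.trans (le_of_eq ?_))
    · exact Finset.mem_filter.2 ⟨Finset.mem_univ _, (Finset.mem_filter.1 hx).2.le⟩
    · field_simp
      ring
  · intro v hvW
    have h3 := hv v hvW
    rw [h1] at h3
    refine (vioC_anti' (fun u hu => ?_) (Finset.Subset.refl _)).trans (h3.le.trans (by norm_num))
    rw [hF u hu, mul_zero, add_zero]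
  · intro l x hx
    exact BdP_.bnd_cost hS (K.Bnn _) hb hx (hE.sup x (PP_adj hx).1)

/-- **The lost weight of the items.** -/
theorem n3_mass (hP : CPos P) (hS : SPos S) (hI : IPos I) (hBe : Best P G s S I)
    (K : OkPS P κ c0 et dO B) (hc0 : 0 < c0) (H : PayM_.LvH P G I I.n3 (KL c0))
    {f : V → V → Fin κ} (hE : EndH P G S I (P.xi2 / c0) κ f) {T C : Finset (Fin P.N)}
    (hT1 : ∀ c ∈ T, ∀ z, 1 - (P.I0 : ℝ) ≤ ht P S c z) (hT2 : ∀ c ∈ T, ∀ z, ht P S c z ≤ 1)
    {t : ℝ} (ht : 0 < t) :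
    ∑ x with t < ∑ l, wA P G S I T l x * sv P G S I T C l *
      upsA P G S I T C l (I.la T C l) x, I.n3 x ≤ et * P.cA / t := by
  have hK := Dmc_pos hc0
  have hA'0 := hP.A' C.card
  have hdl := (hP.dl C.card).le
  have hd := K.dO0 C.card
  have h0 := K.ownA C.card
  have het : 0 ≤ et := by
    have h6 : 0 < cst P C.card := RecP_.cst_pos hP _
    by_contra h7
    push Not at h7
    have h8 : et * cst P C.card < 0 := mul_neg_of_neg_of_pos h7 h6
    have h9 : 0 ≤ Dmc c0 * (dO C.card + P.A' C.card * (2 * P.dl C.card)) := by positivity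
    linarith
  by_cases hr : C.card + 3 ≤ P.h
  · have h1 : ∀ l, rho P G S I T l ≠ 0 → sv P G S I T C l ≠ 0 →
        objA P G S I T C l (I.la T C l) ≤ dO C.card + P.A' C.card * (2 * P.dl C.card) := by
      intro l _ hl
      refine (own_A_sv hP hS hI hE.sup hE.F0 hr
        (K.root' C.card (P.h - C.card - 2) (by omega) (by omega)) (K.AZ'' _) (K.dl4 _) (f l.1.1)
        (hE.col l.1.1) (hBe.la_min T C l) hl).trans (le_of_eq (by ring))
    have h2 : ∑ l, rho P G S I T l ≤ Dmc c0 := PayM_.rho_mass H hI.pi hE.pi1 T hT1 hT2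
    have h3 : cst P C.card ≤ P.cA := min_le_right _ _
    refine (lost_mass_A P G S I ht hI.n3 (fun l => RecP_.rho_nonneg hI.n3 hI.pi T l) h2
      (fun x l => RecP_.CS_nonneg T x l) (fun x => (RecP_.BS_pos hP.eps1 T x).le)
      (by positivity) h1 _ fun x hx _ => (Finset.mem_filter.1 hx).2.le).trans ?_
    refine div_le_div_of_nonneg_right (h0.trans ?_) ht.le
    exact mul_le_mul_of_nonneg_left h3 het
  · have h1 : ∀ l, sv P G S I T C l = 0 := by
      intro l
      by_cases h2 : P.h - C.card - 1 = 0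
      · exact sv_zero_zero hP hS hI h2 ((K.dl4 _).trans (by norm_num))
      · refine sv_zero_one hP hS hI hE (by omega) (K.dl4 _) ?_
        have h3 := K.atm
        have h4 := K.dlM C.card
        linarith
    rw [Finset.filter_false_of_mem, Finset.sum_empty]
    · exact div_nonneg (mul_nonneg het hP.cA.le) ht.le
    · intro x _ hx
      have h2 : ∑ l, wA P G S I T l x * sv P G S I T C l *
          upsA P G S I T C l (I.la T C l) x = 0 :=
        Finset.sum_eq_zero fun l _ => by rw [h1 l, mul_zero, zero_mul]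
      linarith

end

end StgS_

open StgS_

section

variable {V : Type} [Fintype V] {P : Cn} {G : SimpleGraph V} {s : Fin P.N} {S : Sta P V}
  {I : Inp P V} {κ : ℕ} {c0 et : ℝ} {dO B : ℕ → ℝ} {XQ : Set V} {n4 : V → ℝ}
  {U : ℕ → V → Prop} {W' : Finset V}

namespace StgS_

/-- The level bounds of the law of the node. -/
theorem lvH (h : Gst P G c0 XQ s S I n4 U W') (hP : CPos P) (K : OkPS P κ c0 et dO B) :
    PayM_.LvH P G I I.n3 (KL c0) :=
  h.best.lvH hP.e0 K.e01 (lv_le K.I0) (h.nn 0) (h.sm 0).le (h.nn 3)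
    (by have := h.c0p; positivity) (fun x => h.le_div (Nat.zero_le 3) x)
    (fun x hx => h.ne_W 3 hx)
    fun x hx => h.iso x (h.an 0 3 (Nat.zero_le 3) x (h.su 3 x hx))

/-- The facts of the ends of the ranks. -/
theorem endH (h : Gst P G c0 XQ s S I n4 U W') (K : OkPS P κ c0 et dO B)
    {f : V → V → Fin κ} (hf : ∀ v u w, G.Adj v u → G.Adj v w → G.Adj u w → f v u ≠ f v w)
    (hF : ∀ u ∈ I.W, S.F u = 0) (hat : ∀ x, U 1 x → I.n0 x ≤ P.xi2 * al P G I x)
    (hth : ∀ x, U 3 x → fs P G I x = 0) : EndH P G S I (P.xi2 / c0) κ f where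
  M1 := K.M1
  b0 := div_nonneg K.xi2 h.c0p.le
  pi1 := h.best.sum_pi.le
  sup x hx := h.ne_W 3 hx
  atm x := by
    have hc := h.c0p
    by_cases h1 : I.n3 x = 0
    · rw [h1]
      exact mul_nonneg (div_nonneg K.xi2 hc.le) (RecP_.al_pos x).le
    · have h2 : U 1 x := h.an 1 3 (by norm_num) x (h.su 3 x h1)
      have h3 : I.n3 x ≤ 1 / c0 * I.n0 x := h.le_div (Nat.zero_le 3) x
      refine h3.trans ((mul_le_mul_of_nonneg_left (hat x h2) (by positivity)).trans
        (le_of_eq ?_))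
      ring
  F0 x hx := by
    unfold Fs
    rw [hF x (h.ne_W 3 hx), hth x (h.su 3 x hx), add_zero]
  col := hf

/-- The heights of the earlier stages. -/
theorem heights (K : OkPS P κ c0 et dO B) {W : Finset V}
    (hV : InvS P G B s S W) {T : Finset (Fin P.N)} (hT : Bef P s T) :
    (∀ c ∈ T, ∀ z, 1 - (P.I0 : ℝ) ≤ ht P S c z) ∧ ∀ c ∈ T, ∀ z, ht P S c z ≤ 1 := by
  refine ⟨fun c hc z => ?_, fun c hc z => ?_⟩
  · have h1 := hV.lo c (hT c hc) z
    unfold ht
    rw [Real.le_logb_iff_rpow_le (by norm_num) (hV.pos.a c z), ← Hts_.two_lv]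
    exact K.I0.trans h1
  · exact StageL_.ht_le (hV.pos.a c z) (hV.hi c (hT c hc) z)

theorem bnd (hV : InvS P G B s S I.W) {C : Finset (Fin P.N)} (hC : Bef P s C)
    (hr : C.card ≤ P.h) : Bnd P G S B I.W C := fun v u hu => hV.b C hC hr v u hu

end StgS_

/-! ### The payments -/

/-- **The payment functions of the hub mode on the next world.** -/
theorem Gst.gp (h : Gst P G c0 XQ s S I n4 U W') (hP : CPos P) (K : OkPS P κ c0 et dO B)
    {C : Finset (Fin P.N)} (hC : Bef P s C) (hr : C.card < P.h) :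
    ∀ x, U 4 x → gpP P G S I C x ≤ P.Bd := by
  have hB := h.best
  have hI := h.ipos
  have h1 : 0 < P.Bd := by linarith [K.Bd1]
  exact h.rare_mean 3 h1
    (PayM_.gpP_nonneg C hI.n3 hI.pi (fun l u => hI.lp C l u) (hP.eta _)) (h.sgp C hC)
    (gpP_mean3 (lvH h hP K) C hI.pi (fun l hl => hB.pi_supp hl) hB.sum_pi.le
      (fun l u => hI.lp C l u) (fun l u hu => (hB.lp_mem C l).2.1 u hu) (K.Lam' _)
      (fun l => (hB.lp_mem C l).2.2) (hP.eta _)) (K.payP _ hr)

/-- **The payment functions of the items on the next world.** -/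
theorem Gst.ga (h : Gst P G c0 XQ s S I n4 U W') (hP : CPos P) (K : OkPS P κ c0 et dO B)
    (hV : InvS P G B s S I.W) {T C : Finset (Fin P.N)} (hT : Bef P s T) (hTc : T.card = P.r0)
    (hCT : C ⊆ T) (hr : C.card < P.h) : ∀ x, U 4 x → gpA P G S I T C x ≤ P.Bd := by
  have hB := h.best
  have hI := h.ipos
  have h1 : 0 < P.Bd := by linarith [K.Bd1]
  obtain ⟨h2, h3⟩ := heights K hV hT
  exact h.rare_mean 3 h1
    (PayM_.gpA_nonneg T C hI.n3 hI.pi hP.eps1 (fun l u => hI.la T C l u)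
      (fun l u => hI.mu T C l u) (hP.A' _) (hP.eta _)) (h.sga T C hT hTc hCT)
    (gpA_mean3 (lvH h hP K) T C hI.pi hB.sum_pi.le hP.eps1 h2 h3
      (fun l u => hI.la T C l u) (fun l u hu => (hB.la_mem T C l).2.1 u hu)
      (fun l u => hI.mu T C l u) (fun l u hu => (hB.mu_mem T C l).2.1 u hu) (hP.A' _) (K.Lam _)
      (fun l => (hB.mu_mem T C l).2.2) (K.Lam' _) (fun l => (hB.la_mem T C l).2.2) (hP.eta _))
    (K.payA _ hr)

/-- **The facts about the next world.** -/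
theorem Gst.fctW (h : Gst P G c0 XQ s S I n4 U W') (hP : CPos P) (K : OkPS P κ c0 et dO B)
    (hV : InvS P G B s S I.W) (hth : ∀ x, U 3 x → fs P G I x = 0) : FctW P G s S I W' where
  sub := h.sub
  ne := h.ne
  sides := h.sidesW
  thin v hv := hth v (h.an 3 4 (by norm_num) v (h.wU v hv))
  gp C hC hr v hv := h.gp hP K hC hr v (h.wU v hv)
  ga T C hT hTc hCT hr v hv := h.ga hP K hV hT hTc hCT hr v (h.wU v hv)

/-! ### The node of a typical pair -/

namespace StgS_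

/-- The sum over a set which is covered by a family. -/
theorem sum_bad_le {α : Type} {n : V → ℝ} (hn : ∀ x, 0 ≤ n x) (A : Finset α)
    (Bad : α → V → Prop) {e : ℝ} (h : ∀ a ∈ A, ∑ x with Bad a x, n x ≤ e) :
    ∑ x with (∃ a ∈ A, Bad a x), n x ≤ A.card * e := by
  have h1 : ∀ a x, 0 ≤ if Bad a x then n x else 0 := fun a x => by
    split_ifs
    · exact hn x
    · exact le_rfl
  calc ∑ x with (∃ a ∈ A, Bad a x), n x
      = ∑ x, if (∃ a ∈ A, Bad a x) then n x else 0 := Finset.sum_filter _ _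
    _ ≤ ∑ x, ∑ a ∈ A, if Bad a x then n x else 0 := by
        refine Finset.sum_le_sum fun x _ => ?_
        split_ifs with hx
        · obtain ⟨a, ha, hb⟩ := hx
          refine le_trans (le_of_eq ?_) (Finset.single_le_sum
            (f := fun a => if Bad a x then n x else 0) (fun a _ => h1 a x) ha)
          rw [if_pos hb]
        · exact Finset.sum_nonneg fun a _ => h1 a x
    _ = ∑ a ∈ A, ∑ x with Bad a x, n x := by
        rw [Finset.sum_comm]
        exact Finset.sum_congr rfl fun a _ => (Finset.sum_filter _ _).symm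
    _ ≤ ∑ _a ∈ A, e := Finset.sum_le_sum h
    _ = A.card * e := by rw [Finset.sum_const, nsmul_eq_mul]

theorem sum_cov {n : V → ℝ} (hn : ∀ x, 0 ≤ n x) {p p1 p2 p3 p4 : V → Prop}
    [DecidablePred p] [DecidablePred p1] [DecidablePred p2] [DecidablePred p3]
    [DecidablePred p4] (h : ∀ x, p x → ((p1 x ∨ p2 x) ∨ p3 x) ∨ p4 x) :
    ∑ x with p x, n x ≤ ∑ x with p1 x, n x + ∑ x with p2 x, n x + ∑ x with p3 x, n x +
      ∑ x with p4 x, n x := by
  simp only [Finset.sum_filter, ← Finset.sum_add_distrib]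
  refine Finset.sum_le_sum fun x _ => ?_
  have h0 := hn x
  have h1 := h x
  by_cases hp : p x
  · rw [if_pos hp]
    rcases h1 hp with ((h2 | h2) | h2) | h2
    all_goals rw [if_pos h2]
    all_goals split_ifs <;> linarith
  · rw [if_neg hp]
    split_ifs <;> linarith

theorem card_set_le (A : Finset (Finset (Fin P.N))) : (A.card : ℝ) ≤ 2 ^ P.N := by
  have h1 := Finset.card_le_univ A
  rw [Fintype.card_finset, Fintype.card_fin] at h1
  exact_mod_cast h1

theorem card_pair_le (A : Finset (Finset (Fin P.N) × Finset (Fin P.N))) :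
    (A.card : ℝ) ≤ 2 ^ P.N * 2 ^ P.N := by
  have h1 := Finset.card_le_univ A
  rw [Fintype.card_prod, Fintype.card_finset, Fintype.card_fin] at h1
  exact_mod_cast h1

end StgS_

/-- **The facts about the node of a typical pair** hold outside of a small set. -/
theorem Gst.fctX_mass (h : Gst P G c0 XQ s S I n4 U W') (hP : CPos P)
    (K : OkPS P κ c0 et dO B) (hV : InvS P G B s S I.W)
    (hf : ∀ v, ∃ f : V → Fin κ, ∀ u w, G.Adj v u → G.Adj v w → G.Adj u w → f u ≠ f w)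
    (hat : ∀ x, U 1 x → I.n0 x ≤ P.xi2 * al P G I x) (hth : ∀ x, U 3 x → fs P G I x = 0)
    {t : ℝ} (ht : 0 < t) :
    ∑ x with ¬ FctX P G s S I t x, I.n3 x ≤
      Fintype.card V * (2 * (1 / c0) * (16 * P.e0)) + 2 ^ P.N * (4 * et) +
        2 ^ P.N * (8 * (κ * P.M * (P.xi2 / c0)) / P.cP (P.h - 1)) +
          2 ^ P.N * 2 ^ P.N * (et * P.cA / t) := by
  choose f hf using hf
  have hI := h.ipos
  have hS := hV.pos
  have hc0 := h.c0p
  have hB := h.best
  have hH := lvH h hP K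
  have hE := endH h K hf hV.F0 hat hth
  have het : 0 ≤ et := by
    have h0 := K.ownA 0
    have h6 : 0 < cst P 0 := RecP_.cst_pos hP _
    by_contra h7
    push Not at h7
    have h8 : et * cst P 0 < 0 := mul_neg_of_neg_of_pos h7 h6
    have h9 : 0 ≤ Dmc c0 * (dO 0 + P.A' 0 * (2 * P.dl 0)) := mul_nonneg (Dmc_pos hc0).le
      (add_nonneg (K.dO0 0) (mul_nonneg (hP.A' 0) (mul_nonneg two_pos.le (hP.dl 0).le)))
    linarith
  have hn := hI.n3
  -- the four kinds
  set A1 : Finset (Finset (Fin P.N)) := Finset.univ.filter fun C =>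
    Bef P s C ∧ Val P G S I.W C ∧ C.card + 2 ≤ P.h with hA1
  set A2 : Finset (Finset (Fin P.N)) := Finset.univ.filter fun C =>
    Bef P s C ∧ Val P G S I.W C ∧ C.card + 1 = P.h with hA2
  set A3 : Finset (Finset (Fin P.N) × Finset (Fin P.N)) := Finset.univ.filter fun p =>
    Bef P s p.1 with hA3
  have m0 : ∑ x with al P G I x < 16 * P.e0, I.n3 x ≤
      Fintype.card V * (2 * (1 / c0) * (16 * P.e0)) :=
    hB.floor hP.e0 K.e01 (lv_le K.I0) (h.nn 0) (h.sm 0).le (h.nn 3) (by positivity)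
      (fun x => h.le_div (Nat.zero_le 3) x)
      (fun x hx => h.iso x (h.an 0 3 (Nat.zero_le 3) x (h.su 3 x hx)))
      (mul_nonneg (by norm_num) hP.e0.le)
  have m1 := sum_bad_le hn A1 (fun C x => P.cP C.card / 4 <
      ∑ l, wP P G S I C l x * upsP P G S I C l (I.lp C l) x) (e := 4 * et) (fun C hC => by
    obtain ⟨-, h1, h2, h3⟩ := Finset.mem_filter.1 hC
    exact n1_mass hP hS hI hB K hc0 hH hE h3 h2 (bnd hV h1 (by omega)))
  have m2 := sum_bad_le hn A2 (fun C x => P.cP C.card / 4 < ∑ l, wP P G S I C l x)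
    (e := 8 * (κ * P.M * (P.xi2 / c0)) / P.cP (P.h - 1)) (fun C hC => by
    obtain ⟨-, h1, h2, h3⟩ := Finset.mem_filter.1 hC
    have h4 : P.h - 1 = C.card := by omega
    rw [h4]
    exact n2_mass hP hS hI K hE hV.F0 h3 h2 (bnd hV h1 (by omega)))
  have m3 := sum_bad_le hn A3 (fun p x => t < ∑ l, wA P G S I p.1 l x * sv P G S I p.1 p.2 l *
      upsA P G S I p.1 p.2 l (I.la p.1 p.2 l) x) (e := et * P.cA / t) (fun p hp => by
    obtain ⟨-, h1⟩ := Finset.mem_filter.1 hp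
    obtain ⟨h2, h3⟩ := heights K hV h1
    exact n3_mass hP hS hI hB K hc0 hH hE h2 h3 ht)
  -- a node outside of the four sets
  have key : ∀ x, ¬ FctX P G s S I t x → ((al P G I x < 16 * P.e0 ∨
      (∃ C ∈ A1, P.cP C.card / 4 <
        ∑ l, wP P G S I C l x * upsP P G S I C l (I.lp C l) x)) ∨
      (∃ C ∈ A2, P.cP C.card / 4 < ∑ l, wP P G S I C l x)) ∨
      ∃ p ∈ A3, t < ∑ l, wA P G S I p.1 l x * sv P G S I p.1 p.2 l *
        upsA P G S I p.1 p.2 l (I.la p.1 p.2 l) x := by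
    intro x hx
    by_contra hcon
    push Not at hcon
    obtain ⟨⟨⟨h1, h2⟩, h3⟩, h4⟩ := hcon
    exact hx ⟨h1, fun C hC hv hr => h2 C (Finset.mem_filter.2 ⟨Finset.mem_univ _, hC, hv, hr⟩),
      fun C hC hv hr => h3 C (Finset.mem_filter.2 ⟨Finset.mem_univ _, hC, hv, hr⟩),
      fun T C hT _ _ _ => h4 (T, C) (Finset.mem_filter.2 ⟨Finset.mem_univ _, hT⟩)⟩
  refine (sum_cov hn key).trans (add_le_add (add_le_add (add_le_add m0 (m1.trans ?_)) ?_) ?_)
  · exact mul_le_mul_of_nonneg_right (card_set_le A1) (by positivity)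
  · refine m2.trans (mul_le_mul_of_nonneg_right (card_set_le A2) ?_)
    have h1 := hP.cP (P.h - 1)
    have h2 := K.xi2
    positivity
  · refine m3.trans (mul_le_mul_of_nonneg_right (card_pair_le A3) ?_)
    exact div_nonneg (mul_nonneg het hP.cA.le) ht.le

end

end Pool.Agent.Lib.GSX
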