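import Pool.Agent.Lib.GSX.OkF
import Pool.Agent.Lib.GSX.StgS

/-!
# The constants of the services, of the own steps and of the masters in the game

For `P := cn h M κ k I0 e0`: the signs `CPos P`, the bundle `OkPS P` of the group S, the factors of
the cover (`OkC.nxtZ`) and the recursion of the bounds of the masters (`OkC.bst`).
-/

set_option autoImplicit false

namespace Pool.Agent.Lib.GSX

open Pool.Agent.Lib.GSI (Wd)
open Pool.Agent.Lib.GSLE (brw)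

section

variable {h M κ : ℕ} {F : ℝ} {R : ℕ} {D : Wd} {k : Kd} {I0 : ℕ} {e0 : ℝ}

/-- The signs of the constants. -/
theorem OkC.cpos (hk : OkC h M κ F R D k.toKc) (he0 : 0 < e0) : CPos (cn h M κ k I0 e0) where
  e0 := he0
  eps1 := hk.a.eps_pos
  del := hk.a.del_pos
  xi := hk.c.b.xi0
  cP := hk.a.cPpos
  cA := hk.a.cA_pos
  dl := hk.b.s.rk.dl0
  eta := hk.b.s.rk.eta0
  A r := zero_le_one.trans (hk.b.s.rk.A1 r)
  A' r := zero_le_one.trans (hk.b.s.rk.A1' r)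
  Z r := zero_le_one.trans (hk.b.s.z.Z1 r)
  Z' r := zero_le_one.trans (hk.b.s.z.Z1' r)
  Z'' r := zero_le_one.trans (hk.b.s.z.Z1'' r)

/-- **The constants of the group S.** -/
theorem OkC.okPS (hk : OkC h M κ F R D k.toKc) (hM : 1 ≤ M) (he1 : e0 < 1)
    (hI0 : 2 * lv I0 ≤ e0) (hatm : κ * M * (2 * (k.xi2 / k.c0) / k.eps1) ≤ k.del / 4)
    (hxi2 : 0 ≤ k.xi2) : OkPS (cn h M κ k I0 e0) κ k.c0 k.et k.dO k.B :=
  OkPS.of_okS (P := cn h M κ k I0 e0) hk.b.s hM he1 hI0 hk.a.eps_pos hatm hxi2 hk.a.c0_pos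
    hk.a.et_pos.le le_rfl Pmc_ge le_rfl le_rfl fun _ => le_rfl

/-- The factors of the cover. -/
theorem OkC.nxtZ (hk : OkC h M κ F R D k.toKc) (r : ℕ) :
    (1 + (2 : ℝ) ^ (cn h M κ k I0 e0).N) / cst (cn h M κ k I0 e0) r *
      (cn h M κ k I0 e0).Z'' r ≤ (cn h M κ k I0 e0).Z (r + 1) := by
  have h1 := hk.b.s.z.nxt r
  have h2 : (((fb.Nit k.toKa : ℕ)) : ℝ) = (2 : ℝ) ^ k.N := by
    show (((2 : ℕ) ^ k.N : ℕ) : ℝ) = _
    push_cast
    rfl
  rw [h2] at h1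
  exact h1

/-- The factors of the cover, in the form of `t4`. -/
theorem OkC.hZ (hk : OkC h M κ F R D k.toKc) (he0 : 0 < e0)
    (s : Fin (cn h M κ k I0 e0).N) (C : Finset (Fin (cn h M κ k I0 e0).N)) :
    (1 + ((its (cn h M κ k I0 e0) s C).card : ℝ)) / cst (cn h M κ k I0 e0) C.card *
      (cn h M κ k I0 e0).Z'' C.card ≤ (cn h M κ k I0 e0).Z (C.card + 1) := by
  have hP := hk.cpos (I0 := I0) he0
  refine le_trans (mul_le_mul_of_nonneg_right ?_ (hP.Z'' _)) (hk.nxtZ C.card)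
  exact div_le_div_of_nonneg_right
    (add_le_add le_rfl (BdM_.its_card_le (P := cn h M κ k I0 e0) (s := s) C))
    (RecP_.cst_pos hP _).le

/-- The bounds of the masters. -/
theorem OkC.bst (hk : OkC h M κ F R D k.toKc) (r : ℕ) :
    BdM_.Bst (cn h M κ k I0 e0) (cn h M κ k I0 e0).Bd r (k.B r) ≤ k.B (r + 1) := hk.b.Fm r

theorem OkC.lG0 (hk : OkC h M κ F R D k.toKc) : 0 ≤ (cn h M κ k I0 e0).lG :=
  zero_le_one.trans hk.b.s.lG1

theorem OkC.Bd0 (hk : OkC h M κ F R D k.toKc) : 0 ≤ (cn h M κ k I0 e0).Bd :=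
  zero_le_one.trans hk.b.s.Bd1

theorem OkC.B_nonneg (hk : OkC h M κ F R D k.toKc) (r : ℕ) : 0 ≤ k.B r := hk.b.s.Bnn r

end

end Pool.Agent.Lib.GSX
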