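import Pool.Agent.Lib.GSX.FinM

/-!
# The constants of the first block for the records `cn`

`okP0_cn`: the constants `cn h M κ k I0 e0` satisfy the inequalities `OkP0`; the removal of small
sets of pairs in the two cases of the final alternative.
-/

set_option autoImplicit false

namespace Pool.Agent.Lib.GSX

/-- The inequalities `OkP0` for the records of the constants `k`. -/
abbrev OkPc (h M κ : ℕ) (F : ℝ) (R : ℕ) (k : Kd) (I0 : ℕ) (e0 : ℝ) : Prop :=
  OkP0 (cn h M κ k I0 e0) F R (fa h).nb (fa h).nt (fa h).Ke (fa h).Kd k.qB k.wU k.RU k.e3U k.e1U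
    k.xiU k.L0 k.N0 k.kU k.c0 k.et k.delU

theorem okP0_cn {h M κ : ℕ} {F : ℝ} {R : ℕ} {k : Kd} (ha : OkKa h M F R (fa h) k.toKa) (I0 : ℕ)
    (e0 : ℝ) : OkPc h M κ F R k I0 e0 := ha

section

variable {h M : ℕ} {F : ℝ} {R : ℕ} {k : Ka}

/-- The removal for the U-case: `16 * delU` per stage. -/
theorem OkKa.remU (ha : OkKa h M F R (fa h) k) : k.kU ≤ kpp h k.N - k.N * (16 * k.delU) := by
  have h1 := FinM_.two_pow_ge k.N
  have h2 := ha.delUe64
  have h3 := ha.delU_pos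
  have h4 := ha.et_pos
  have h5 : (1 : ℝ) ≤ 2 ^ k.N * 2 ^ k.N := by nlinarith
  refine FinM_.rem ha ?_
  have h6 : k.et ≤ 2 ^ k.N * 2 ^ k.N * k.et := le_mul_of_one_le_left h4.le h5
  linarith

/-- The removal for the case of the items: `tau = 32 * et` for each of the `qB` stages of a window,
with room for the removal of `x * et` at every stage. -/
theorem OkKa.remB (ha : OkKa h M F R (fa h) k) {x : ℝ} (hx : x ≤ 900 * (2 ^ k.N * 2 ^ k.N)) :
    k.qB * (32 * k.et) < kpp h k.N - k.N * (x * k.et) := by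
  have h4 := ha.kU1
  have h5 := ha.kU_pos
  have hN : (0 : ℝ) ≤ k.N := Nat.cast_nonneg _
  have hr : (0 : ℝ) ≤ k.r0 := Nat.cast_nonneg _
  have hq : (k.qB : ℝ) = k.r0 := by rw [ha.qB_eq, ha.r0_eq]
  have h1 := FinM_.two_pow_ge k.N
  have h6 : (1 : ℝ) ≤ 2 ^ k.N * 2 ^ k.N := by nlinarith
  have h7 : (k.qB * 32 + k.N * x) * k.et ≤ k.kU / 64 := by
    have h7 : (ntN k.N k.r0 : ℝ) * k.et ≤ k.kU / 64 := ha.etk
    refine (mul_le_mul_of_nonneg_right ?_ ha.et_pos.le).trans h7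
    rw [FinM_.ntN_eq, hq]
    have h8 : (k.N : ℝ) * x ≤ k.N * (900 * (2 ^ k.N * 2 ^ k.N)) :=
      mul_le_mul_of_nonneg_left hx hN
    have h9 : (k.r0 : ℝ) * 32 ≤ (k.r0 * 32) * (2 ^ k.N * 2 ^ k.N) :=
      le_mul_of_one_le_right (by positivity) h6
    have h10 : 0 ≤ (k.N : ℝ) * k.r0 * (2 ^ k.N * 2 ^ k.N) := by positivity
    have h11 : 0 ≤ (k.N : ℝ) * (2 ^ k.N * 2 ^ k.N) := by positivity
    have h12 : 0 ≤ (k.r0 : ℝ) * (2 ^ k.N * 2 ^ k.N) := by positivity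
    nlinarith
  linarith

end

end Pool.Agent.Lib.GSX
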