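import Pool.Agent.Lib.GSR.HZB

/-!
# Typical histories and typical nodes

Consequences of the equilibrium of `HZB`: a set of nodes which is small for the law of the node
given the half prefix of every typical history is small for `Q` on the pairs (typical history,
node).  Union over the steps and over finitely many kinds of exceptional sets, number of bad steps,
comparison of the laws of one step, the node lies in the support of every law, popular patterns.
-/

set_option autoImplicit false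

namespace Pool.Agent.Lib.GSX

open Finset Classical
open Pool.Agent.Lib.GSR Pool.Agent.Lib.GSR.HZ Pool.Agent.Lib.GSR.HZB

variable {V : Type} [Fintype V] {N nb : ℕ} {ι : Type} {Y : ι → Type} {I : Type}
variable {col : Finset V → ℕ → Prop} {T : Ts V N nb I (Th V N nb Y)} {Q : Hi V N nb × V → ℝ}
  {θ : Th V N nb Y}

/-- The mass of a set of pairs. -/
noncomputable def pm (Q : Hi V N nb × V → ℝ) (B : Hi V N nb × V → Prop) : ℝ :=
  ∑ p, if B p then Q p else 0

/-! ### Masses of sets of pairs -/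

lemma pm_nonneg (hQ : ∀ p, 0 ≤ Q p) (B : Hi V N nb × V → Prop) : 0 ≤ pm Q B :=
  Finset.sum_nonneg fun p _ => by
    split_ifs
    · exact hQ p
    · exact le_rfl

lemma pm_mono (hQ : ∀ p, 0 ≤ Q p) {A B : Hi V N nb × V → Prop}
    (h : ∀ p, Q p ≠ 0 → A p → B p) : pm Q A ≤ pm Q B := by
  unfold pm
  refine Finset.sum_le_sum fun p _ => ?_
  by_cases h1 : A p
  · rw [if_pos h1]
    by_cases h2 : Q p = 0
    · rw [h2]
      split_ifs <;> exact le_rfl
    · rw [if_pos (h p h2 h1)]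
  · rw [if_neg h1]
    split_ifs
    · exact hQ p
    · exact le_rfl

lemma pm_congr {A B : Hi V N nb × V → Prop} (h : ∀ p, Q p ≠ 0 → (A p ↔ B p)) :
    pm Q A = pm Q B := by
  unfold pm
  refine Finset.sum_congr rfl fun p _ => ?_
  by_cases h2 : Q p = 0
  · rw [h2]
    split_ifs <;> rfl
  · by_cases h1 : A p
    · rw [if_pos h1, if_pos ((h p h2).1 h1)]
    · rw [if_neg h1, if_neg fun h3 => h1 ((h p h2).2 h3)]

lemma pm_true (hQ1 : ∑ p, Q p = 1) : pm Q (fun _ => True) = 1 := by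
  rw [← hQ1]
  exact Finset.sum_congr rfl fun p _ => if_pos trivial

lemma pm_le_one (hQ : ∀ p, 0 ≤ Q p) (hQ1 : ∑ p, Q p = 1) (B : Hi V N nb × V → Prop) :
    pm Q B ≤ 1 := by
  rw [← pm_true hQ1]
  exact pm_mono hQ fun _ _ _ => trivial

lemma pm_add_not (hQ1 : ∑ p, Q p = 1) (B : Hi V N nb × V → Prop) :
    pm Q B + pm Q (fun p => ¬ B p) = 1 := by
  rw [← hQ1]
  unfold pm
  rw [← Finset.sum_add_distrib]
  refine Finset.sum_congr rfl fun p _ => ?_
  by_cases h : B p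
  · rw [if_pos h, if_neg (not_not_intro h), add_zero]
  · rw [if_neg h, if_pos h, zero_add]

lemma pm_or (hQ : ∀ p, 0 ≤ Q p) (A B : Hi V N nb × V → Prop) :
    pm Q (fun p => A p ∨ B p) ≤ pm Q A + pm Q B := by
  unfold pm
  rw [← Finset.sum_add_distrib]
  refine Finset.sum_le_sum fun p _ => ?_
  have h := hQ p
  by_cases h1 : A p
  · rw [if_pos (Or.inl h1), if_pos h1]
    split_ifs <;> linarith
  · rw [if_neg h1, zero_add]
    by_cases h2 : B p
    · rw [if_pos (Or.inr h2), if_pos h2]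
    · rw [if_neg (not_or.2 ⟨h1, h2⟩), if_neg h2]

lemma pm_exists {κ : Type} (hQ : ∀ p, 0 ≤ Q p) (S : Finset κ) (B : κ → Hi V N nb × V → Prop) :
    pm Q (fun p => ∃ k ∈ S, B k p) ≤ ∑ k ∈ S, pm Q (B k) := by
  induction S using Finset.induction_on with
  | empty =>
    rw [Finset.sum_empty]
    refine le_of_eq (Finset.sum_eq_zero fun p _ => if_neg ?_)
    rintro ⟨k, hk, -⟩
    exact absurd hk (Finset.notMem_empty k)
  | insert a S ha ih =>
    rw [Finset.sum_insert ha]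
    refine le_trans (pm_mono hQ (B := fun p => B a p ∨ ∃ k ∈ S, B k p) ?_)
      ((pm_or hQ _ _).trans (add_le_add le_rfl ih))
    rintro p - ⟨k, hk, hp⟩
    rcases Finset.mem_insert.1 hk with rfl | hk
    · exact Or.inl hp
    · exact Or.inr ⟨k, hk, hp⟩

/-- A set of pairs of positive mass has an element. -/
lemma exists_of_pm {B : Hi V N nb × V → Prop} (h : 0 < pm Q B) :
    ∃ c x, Q (c, x) ≠ 0 ∧ B (c, x) := by
  obtain ⟨p, -, h1⟩ := Finset.exists_ne_zero_of_sum_ne_zero h.ne'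
  by_cases h2 : B p
  · rw [if_pos h2] at h1
    exact ⟨p.1, p.2, h1, h2⟩
  · rw [if_neg h2] at h1
    exact absurd rfl h1

/-- Popular values. -/
lemma pm_pattern {K : Type} [Fintype K] [Nonempty K] (B : Hi V N nb × V → Prop)
    (f : Hi V N nb × V → K) :
    ∃ k, pm Q B ≤ Fintype.card K * pm Q (fun p => B p ∧ f p = k) := by
  obtain ⟨k, -, hk⟩ := Finset.exists_max_image (Finset.univ : Finset K)
    (fun k => pm Q (fun p => B p ∧ f p = k)) Finset.univ_nonempty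
  refine ⟨k, ?_⟩
  have h1 : pm Q B = ∑ k, pm Q (fun p => B p ∧ f p = k) := by
    unfold pm
    rw [Finset.sum_comm]
    refine Finset.sum_congr rfl fun p _ => ?_
    by_cases h2 : B p
    · rw [if_pos h2, Finset.sum_eq_single (f p)]
      · rw [if_pos ⟨h2, rfl⟩]
      · exact fun k _ hk => if_neg fun h3 => hk h3.2.symm
      · exact fun h3 => absurd (Finset.mem_univ _) h3
    · rw [if_neg h2]
      exact (Finset.sum_eq_zero fun k _ => if_neg fun h3 => h2 h3.1).symm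
  rw [h1]
  refine (Finset.sum_le_card_nsmul _ _ _ fun k' hk' => hk k' hk').trans ?_
  rw [Finset.card_univ, nsmul_eq_mul]

/-- A set of histories. -/
lemma pm_fst (S : Hi V N nb → Prop) :
    pm Q (fun p => S p.1) = ∑ c ∈ Finset.univ.filter S, qc Q c := by
  unfold pm
  rw [Fintype.sum_prod_type, Finset.sum_filter]
  refine Finset.sum_congr rfl fun c _ => ?_
  by_cases h : S c
  · simp only [if_pos h]
    rfl
  · simp only [if_neg h, Finset.sum_const_zero]

end Pool.Agent.Lib.GSX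

namespace Pool.Agent.Lib.GSR.HZB

open Finset Classical
open Pool.Agent.Lib.GSR.HZ Pool.Agent.Lib.GSX

variable {V : Type} [Fintype V] {N nb : ℕ} {ι : Type} {Y : ι → Type} {I : Type}
variable {col : Finset V → ℕ → Prop} {T : Ts V N nb I (Th V N nb Y)} {Q : Hi V N nb × V → ℝ}
  {θ : Th V N nb Y}

/-! ### Averages over typical histories (Q1) -/

/-- **Average over the histories of `S`.** -/
theorem Eqm.sum_on_le (h : Eqm col T Q θ) {s j : ℕ} (hs : s ≤ N) (hj : j ≤ nb)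
    (S : Hi V N nb → Prop) {F : Hi V N nb → V → ℝ} (hF0 : ∀ p x, 0 ≤ F p x) {ε : ℝ}
    (hε : 0 ≤ ε)
    (hF : ∀ c, qc Q c ≠ 0 → S c → ∑ x, nh θ s j (hp s j c) x * F (hp s j c) x ≤ ε) :
    ∑ p ∈ Finset.univ.filter (fun p : Hi V N nb × V => S p.1), Q p * F (hp s j p.1) p.2 ≤ ε := by
  obtain ⟨F', hF'⟩ : ∃ F' : Hi V N nb → V → ℝ, F' = fun p x =>
      if ∃ c, qc Q c ≠ 0 ∧ S c ∧ hp s j c = p then F p x else 0 := ⟨_, rfl⟩
  have h1 : ∑ p : Hi V N nb × V, Q p * F' (hp s j p.1) p.2 ≤ ε := by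
    refine h.sum_le hs hj fun p _ => ?_
    by_cases h2 : ∃ c, qc Q c ≠ 0 ∧ S c ∧ hp s j c = p
    · obtain ⟨c, hc, hS, rfl⟩ := h2
      simp only [hF', if_pos (⟨c, hc, hS, rfl⟩ : ∃ c', qc Q c' ≠ 0 ∧ S c' ∧
        hp s j c' = hp s j c)]
      exact hF c hc hS
    · simp only [hF', if_neg h2, mul_zero, Finset.sum_const_zero]
      exact hε
  refine le_trans ?_ h1
  rw [Finset.sum_filter]
  refine Finset.sum_le_sum fun p _ => ?_
  by_cases hS : S p.1
  · rw [if_pos hS]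
    by_cases hQ : Q p = 0
    · rw [hQ, zero_mul, zero_mul]
    · have h3 : qc Q p.1 ≠ 0 := h.qc_ne (x := p.2) hQ
      simp only [hF', if_pos (⟨p.1, h3, hS, rfl⟩ : ∃ c', qc Q c' ≠ 0 ∧ S c' ∧
        hp s j c' = hp s j p.1)]
      exact le_rfl
  · rw [if_neg hS]
    refine mul_nonneg (h.Q0 p) ?_
    simp only [hF']
    split_ifs
    · exact hF0 _ _
    · exact le_rfl

/-- The set form. -/
theorem Eqm.pm_on_le (h : Eqm col T Q θ) {s j : ℕ} (hs : s ≤ N) (hj : j ≤ nb)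
    (S : Hi V N nb → Prop) {Bad : Hi V N nb → V → Prop} {ε : ℝ} (hε : 0 ≤ ε)
    (hB : ∀ c, qc Q c ≠ 0 → S c →
      ∑ x ∈ Finset.univ.filter (Bad (hp s j c)), nh θ s j (hp s j c) x ≤ ε) :
    pm Q (fun p => S p.1 ∧ Bad (hp s j p.1) p.2) ≤ ε := by
  have h1 := h.sum_on_le hs hj S (F := fun p x => if Bad p x then 1 else 0)
    (fun p x => by split_ifs <;> norm_num) hε (by
      intro c hc hS
      refine le_trans (le_of_eq ?_) (hB c hc hS)
      rw [Finset.sum_filter]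
      refine Finset.sum_congr rfl fun x _ => ?_
      split_ifs
      · rw [mul_one]
      · rw [mul_zero])
  refine le_trans (le_of_eq ?_) h1
  unfold pm
  rw [Finset.sum_filter]
  refine Finset.sum_congr rfl fun p _ => ?_
  by_cases h2 : S p.1
  · by_cases h3 : Bad (hp s j p.1) p.2
    · rw [if_pos ⟨h2, h3⟩, if_pos h2, if_pos h3, mul_one]
    · rw [if_neg fun h4 => h3 h4.2, if_pos h2, if_neg h3, mul_zero]
  · rw [if_neg fun h4 => h2 h4.1, if_neg h2]

/-- Markov. -/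
lemma markov_nh {n F : V → ℝ} (hn : ∀ x, 0 ≤ n x) (hF : ∀ x, 0 ≤ F x) {t E : ℝ} (ht : 0 < t)
    (hE : ∑ x, n x * F x ≤ E) : ∑ x ∈ Finset.univ.filter (fun x => t ≤ F x), n x ≤ E / t := by
  rw [le_div_iff₀ ht, Finset.sum_mul]
  refine le_trans (Finset.sum_le_sum fun x hx => mul_le_mul_of_nonneg_left
    (Finset.mem_filter.1 hx).2 (hn x)) (le_trans ?_ hE)
  exact Finset.sum_le_sum_of_subset_of_nonneg (Finset.subset_univ _) fun x _ _ =>
    mul_nonneg (hn x) (hF x)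

/-- The Markov form. -/
theorem Eqm.pm_markov (h : Eqm col T Q θ) {s j : ℕ} (hs : s ≤ N) (hj : j ≤ nb)
    (S : Hi V N nb → Prop) {F : Hi V N nb → V → ℝ} (hF0 : ∀ p x, 0 ≤ F p x) {t E : ℝ}
    (ht : 0 < t) (hE : 0 ≤ E)
    (hF : ∀ c, qc Q c ≠ 0 → S c → ∑ x, nh θ s j (hp s j c) x * F (hp s j c) x ≤ E) :
    pm Q (fun p => S p.1 ∧ t ≤ F (hp s j p.1) p.2) ≤ E / t :=
  h.pm_on_le hs hj S (Bad := fun p x => t ≤ F p x) (div_nonneg hE ht.le) fun c hc hS =>
    markov_nh (h.nh_nonneg s j _) (hF0 _) ht (hF c hc hS)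

/-- The mass of the pairs whose history is not typical. -/
theorem Eqm.pm_not_typ (h : Eqm col T Q θ) {c0 : ℝ} (hc0 : 0 ≤ c0) :
    pm Q (fun p => ¬ Typ Q c0 p.1) ≤ N * (2 ^ nb * c0) := by
  rw [pm_fst (fun c => ¬ Typ Q c0 c)]
  convert h.not_typ hc0

/-- **Union over the steps and the kinds of exceptional sets.** -/
theorem Eqm.pm_bad_le (h : Eqm col T Q θ) {c0 : ℝ} (hc0 : 0 ≤ c0) {κ : Type} [Fintype κ]
    (jj : κ → ℕ) (hjj : ∀ k, jj k ≤ nb) (Bad : ℕ → κ → Hi V N nb → V → Prop) (ε : κ → ℝ)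
    (hε : ∀ k, 0 ≤ ε k)
    (hB : ∀ c, qc Q c ≠ 0 → Typ Q c0 c → ∀ s < N, ∀ k,
      ∑ x ∈ Finset.univ.filter (Bad s k (hp s (jj k) c)), nh θ s (jj k) (hp s (jj k) c) x ≤
        ε k) :
    pm Q (fun p => ¬ (Typ Q c0 p.1 ∧ ∀ s < N, ∀ k, ¬ Bad s k (hp s (jj k) p.1) p.2)) ≤
      N * (2 ^ nb * c0) + N * ∑ k, ε k := by
  have h1 : pm Q (fun p => ¬ (Typ Q c0 p.1 ∧ ∀ s < N, ∀ k, ¬ Bad s k (hp s (jj k) p.1) p.2)) ≤
      pm Q (fun p => ¬ Typ Q c0 p.1 ∨ ∃ s ∈ Finset.range N, ∃ k ∈ Finset.univ,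
        Typ Q c0 p.1 ∧ Bad s k (hp s (jj k) p.1) p.2) := by
    refine pm_mono h.Q0 fun p _ hp' => ?_
    by_cases h2 : Typ Q c0 p.1
    · right
      by_contra hcon
      push Not at hcon
      exact hp' ⟨h2, fun s hs k => hcon s (Finset.mem_range.2 hs) k (Finset.mem_univ k) h2⟩
    · exact Or.inl h2
  refine h1.trans ((pm_or h.Q0 _ _).trans (add_le_add (h.pm_not_typ hc0) ?_))
  refine (pm_exists h.Q0 _ _).trans ?_
  refine le_trans (Finset.sum_le_sum fun s hs => (pm_exists h.Q0 _ _).trans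
    (Finset.sum_le_sum fun k _ => h.pm_on_le (Finset.mem_range.1 hs).le (hjj k) (Typ Q c0) (hε k)
      fun c hc hT => hB c hc hT s (Finset.mem_range.1 hs) k)) ?_
  rw [Finset.sum_const, Finset.card_range, nsmul_eq_mul]

/-- **Most pairs are typical.** -/
theorem Eqm.pm_good (h : Eqm col T Q θ) {c0 : ℝ} (hc0 : 0 ≤ c0) {κ : Type} [Fintype κ]
    (jj : κ → ℕ) (hjj : ∀ k, jj k ≤ nb) (Bad : ℕ → κ → Hi V N nb → V → Prop) (ε : κ → ℝ)
    (hε : ∀ k, 0 ≤ ε k)
    (hB : ∀ c, qc Q c ≠ 0 → Typ Q c0 c → ∀ s < N, ∀ k,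
      ∑ x ∈ Finset.univ.filter (Bad s k (hp s (jj k) c)), nh θ s (jj k) (hp s (jj k) c) x ≤
        ε k) :
    1 - N * (2 ^ nb * c0) - N * ∑ k, ε k ≤
      pm Q (fun p => Typ Q c0 p.1 ∧ ∀ s < N, ∀ k, ¬ Bad s k (hp s (jj k) p.1) p.2) := by
  have h1 := h.pm_bad_le hc0 jj hjj Bad ε hε hB
  have h2 := pm_add_not h.Q1 (fun p : Hi V N nb × V =>
    Typ Q c0 p.1 ∧ ∀ s < N, ∀ k, ¬ Bad s k (hp s (jj k) p.1) p.2)
  linarith

/-! ### The number of bad steps -/

/-- Markov for the number of the bad steps. -/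
lemma pm_card_le (hQ : ∀ p, 0 ≤ Q p) (B : ℕ → Hi V N nb × V → Prop) {e t : ℝ} (ht : 0 < t)
    (hB : ∀ s < N, pm Q (B s) ≤ e) :
    pm Q (fun p => t ≤ (((Finset.range N).filter fun s => B s p).card : ℝ)) ≤ N * e / t := by
  rw [le_div_iff₀ ht]
  have h1 : ∑ p, Q p * (((Finset.range N).filter fun s => B s p).card : ℝ) =
      ∑ s ∈ Finset.range N, pm Q (B s) := by
    have h2 : ∀ p, Q p * (((Finset.range N).filter fun s => B s p).card : ℝ) =
        ∑ s ∈ Finset.range N, if B s p then Q p else 0 := by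
      intro p
      rw [← Finset.sum_filter, Finset.sum_const, nsmul_eq_mul, mul_comm]
    rw [Finset.sum_congr rfl fun p _ => h2 p, Finset.sum_comm]
    rfl
  calc pm Q (fun p => t ≤ (((Finset.range N).filter fun s => B s p).card : ℝ)) * t
      ≤ ∑ p, Q p * (((Finset.range N).filter fun s => B s p).card : ℝ) := by
        unfold pm
        rw [Finset.sum_mul]
        refine Finset.sum_le_sum fun p _ => ?_
        by_cases h3 : t ≤ (((Finset.range N).filter fun s => B s p).card : ℝ)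
        · rw [if_pos h3]
          exact mul_le_mul_of_nonneg_left h3 (hQ p)
        · rw [if_neg h3, zero_mul]
          exact mul_nonneg (hQ p) (Nat.cast_nonneg _)
    _ = ∑ s ∈ Finset.range N, pm Q (B s) := h1
    _ ≤ N * e := by
        refine (Finset.sum_le_sum fun s hs => hB s (Finset.mem_range.1 hs)).trans ?_
        rw [Finset.sum_const, Finset.card_range, nsmul_eq_mul]

/-- At least half of the steps are good, except for a set of pairs of mass `2 * e`. -/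
theorem Eqm.pm_half (h : Eqm col T Q θ) (hN : 0 < N) (j : ℕ) (hj : j ≤ nb)
    (Bad : ℕ → Hi V N nb → V → Prop) {e : ℝ} (he : 0 ≤ e)
    (hB : ∀ s < N, ∀ c, qc Q c ≠ 0 →
      ∑ x ∈ Finset.univ.filter (Bad s (hp s j c)), nh θ s j (hp s j c) x ≤ e) :
    1 - 2 * e ≤ pm Q (fun p => (N : ℝ) / 2 <
      (((Finset.range N).filter fun s => ¬ Bad s (hp s j p.1) p.2).card : ℝ)) := by
  have hN' : (0 : ℝ) < N := Nat.cast_pos.2 hN
  have h1 := pm_card_le (N := N) h.Q0 (fun s (p : Hi V N nb × V) => Bad s (hp s j p.1) p.2)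
    (e := e) (t := (N : ℝ) / 2) (by positivity) fun s hs => by
      refine le_trans (pm_mono h.Q0 (B := fun p => True ∧ Bad s (hp s j p.1) p.2)
        fun p _ hp' => ⟨trivial, hp'⟩) ?_
      exact h.pm_on_le hs.le hj (fun _ => True) he fun c hc _ => hB s hs c hc
  have h2 : (N : ℝ) * e / ((N : ℝ) / 2) = 2 * e := by
    field_simp
  rw [h2] at h1
  have h3 := pm_add_not h.Q1 (fun p : Hi V N nb × V => (N : ℝ) / 2 ≤
    (((Finset.range N).filter fun s => Bad s (hp s j p.1) p.2).card : ℝ))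
  have h4 : pm Q (fun p : Hi V N nb × V => ¬ (N : ℝ) / 2 ≤
      (((Finset.range N).filter fun s => Bad s (hp s j p.1) p.2).card : ℝ)) ≤
      pm Q (fun p => (N : ℝ) / 2 <
      (((Finset.range N).filter fun s => ¬ Bad s (hp s j p.1) p.2).card : ℝ)) := by
    refine pm_mono h.Q0 fun p _ hp' => ?_
    have h5 := Finset.card_filter_add_card_filter_not (s := Finset.range N)
      (fun s => Bad s (hp s j p.1) p.2)
    rw [Finset.card_range] at h5
    have h6 : (((Finset.range N).filter fun s => Bad s (hp s j p.1) p.2).card : ℝ) +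
        (((Finset.range N).filter fun s => ¬ Bad s (hp s j p.1) p.2).card : ℝ) = N := by
      exact_mod_cast h5
    rw [not_le] at hp'
    linarith
  linarith

/-! ### The laws of one step (Q2) -/

lemma Eqm.nh_le_one (h : Eqm col T Q θ) (s j : ℕ) (p : Hi V N nb) (x : V) :
    nh θ s j p x ≤ 1 := by
  rw [← h.sum_nh s j p]
  exact Finset.single_le_sum (f := fun x => nh θ s j p x) (fun x _ => h.nh_nonneg s j p x)
    (Finset.mem_univ x)

/-- The node lies in the support of every law. -/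
lemma Eqm.nh_pos (h : Eqm col T Q θ) {c : Hi V N nb} {x : V} (hx : Q (c, x) ≠ 0) {s j : ℕ}
    (hs : s ≤ N) (hj : j ≤ nb) : 0 < nh θ s j (hp s j c) x := by
  have h1 : 0 < nn Q s j (hp s j c) x :=
    (lt_of_le_of_ne (h.Q0 _) (Ne.symm hx)).trans_le (Q_le_nn h.Q0 s j c x)
  rw [← h.nq s hs j hj] at h1
  by_contra hcon
  rw [not_lt] at hcon
  have h2 := le_antisymm hcon (h.nh_nonneg s j _ x)
  rw [h2, mul_zero] at h1
  exact lt_irrefl _ h1

lemma Eqm.nh_le_div (h : Eqm col T Q θ) {c : Hi V N nb} (hc : qc Q c ≠ 0) {c0 : ℝ}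
    (hc0 : 0 < c0) (hT : Typ Q c0 c) {s : ℕ} (hs : s < N) {j k : ℕ} (hjk : j ≤ k) (hk : k ≤ nb)
    (x : V) : nh θ s k (hp s k c) x ≤ nh θ s j (hp s j c) x / c0 := by
  rw [le_div_iff₀ hc0, mul_comm]
  exact h.nh_le_bits hc hc0.le hT hs hjk hk x

/-- Averages with respect to later laws of the same step. -/
lemma Eqm.sum_nh_le (h : Eqm col T Q θ) {c : Hi V N nb} (hc : qc Q c ≠ 0) {c0 : ℝ}
    (hc0 : 0 < c0) (hT : Typ Q c0 c) {s : ℕ} (hs : s < N) {j k : ℕ} (hjk : j ≤ k) (hk : k ≤ nb)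
    {F : V → ℝ} (hF : ∀ x, 0 ≤ F x) :
    ∑ x, nh θ s k (hp s k c) x * F x ≤ (∑ x, nh θ s j (hp s j c) x * F x) / c0 := by
  rw [Finset.sum_div]
  refine Finset.sum_le_sum fun x _ => ?_
  rw [mul_div_right_comm]
  exact mul_le_mul_of_nonneg_right (h.nh_le_div hc hc0 hT hs hjk hk x) (hF x)

lemma Eqm.set_nh_le (h : Eqm col T Q θ) {c : Hi V N nb} (hc : qc Q c ≠ 0) {c0 : ℝ}
    (hc0 : 0 < c0) (hT : Typ Q c0 c) {s : ℕ} (hs : s < N) {j k : ℕ} (hjk : j ≤ k) (hk : k ≤ nb)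
    (S : Finset V) :
    ∑ x ∈ S, nh θ s k (hp s k c) x ≤ (∑ x ∈ S, nh θ s j (hp s j c) x) / c0 := by
  rw [Finset.sum_div]
  exact Finset.sum_le_sum fun x _ => h.nh_le_div hc hc0 hT hs hjk hk x

/-- The support of the laws of a step: the world and the next world of a history with the same half
prefix. -/
lemma Eqm.supp (h : Eqm col T Q θ) {c : Hi V N nb} (hc : qc Q c ≠ 0) {s k : ℕ} (hs : s < N)
    (hk : k ≤ nb) {x : V} (hx : nh θ s k (hp s k c) x ≠ 0) :
    x ∈ wo c s ∧ ∃ c', hp s k c' = hp s k c ∧ Q (c', x) ≠ 0 ∧ qc Q c' ≠ 0 ∧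
      x ∈ wo c' (s + 1) := by
  obtain ⟨c', h1, h2⟩ := h.nh_supp hs.le hk (h.mh_pos hc s k).ne' hx
  refine ⟨?_, c', h1, h2, h.qc_ne h2, h.mem_wo h2 hs⟩
  have h3 := h.mem_wo h2 hs.le
  rwa [← wo_hp k le_rfl c', h1, wo_hp k le_rfl c] at h3

/-! ### Patterns of bits -/

/-- A pattern of all the bits on a set of pairs. -/
theorem pm_bits (B : Hi V N nb × V → Prop) :
    ∃ b : Fin N → Fin nb → Bool, pm Q B ≤
      2 ^ (nb * N) * pm Q (fun p => B p ∧ ∀ s : Fin N, bt p.1 s.1 = b s) := by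
  obtain ⟨b, hb⟩ := pm_pattern (Q := Q) B (fun p => fun s : Fin N => bt p.1 s.1)
  refine ⟨b, hb.trans (le_of_eq ?_)⟩
  have h3 : ((Fintype.card (Fin N → Fin nb → Bool) : ℕ) : ℝ) = 2 ^ (nb * N) := by
    rw [Fintype.card_fun, Fintype.card_fun, Fintype.card_bool, Fintype.card_fin,
      Fintype.card_fin, ← pow_mul]
    push_cast
    rfl
  rw [h3]
  congr 2
  funext p
  simp only [funext_iff (f := fun s : Fin N => bt p.1 s.1) (g := b)]

end Pool.Agent.Lib.GSR.HZB
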