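import Pool.Agent.Lib.GSX.Bits
import Pool.Agent.Lib.GSX.TypQ

/-!
# The possible nodes after a half prefix

`Us Q s k c x`: the node `x` lies in the next world `wo c' (s + 1)` of a history `c'` of positive
mass with the same half prefix `hp s k c`.  The law of the node given the half prefix lives on this
set, all the sides of the bits before `k` have one sign on the whole set, and all the small sets of
level at most `k` avoid it.
-/

set_option autoImplicit false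

namespace Pool.Agent.Lib.GSX

open Finset Classical
open Pool.Agent.Lib.GSR Pool.Agent.Lib.GSR.HZ Pool.Agent.Lib.GSR.HZB

section

variable {V : Type} [Fintype V] {N nb : ℕ} {ι : Type} {Y : ι → Type} {I : Type}
  {col : Finset V → ℕ → Prop} {T : Ts V N nb I (Th V N nb Y)} {Q : Hi V N nb × V → ℝ}
  {θ : Th V N nb Y}

/-- The possible nodes after the half prefix `hp s k c`. -/
def Us (Q : Hi V N nb × V → ℝ) (s k : ℕ) (c : Hi V N nb) (x : V) : Prop :=
  ∃ c', qc Q c' ≠ 0 ∧ hp s k c' = hp s k c ∧ x ∈ wo c' (s + 1)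

/-- The next world. -/
theorem us_of_wo {c : Hi V N nb} (hc : qc Q c ≠ 0) (s k : ℕ) {x : V} (hx : x ∈ wo c (s + 1)) :
    Us Q s k c x := ⟨c, hc, rfl, hx⟩

theorem us_anti {s j k : ℕ} (hjk : j ≤ k) {c : Hi V N nb} {x : V} (h : Us Q s k c x) :
    Us Q s j c x := by
  obtain ⟨c', h1, h2, h3⟩ := h
  exact ⟨c', h1, hp_mono (Or.inr ⟨rfl, hjk⟩) h2, h3⟩

theorem us_congr {s k : ℕ} {c c' : Hi V N nb} (h : hp s k c = hp s k c') (x : V) :
    Us Q s k c x ↔ Us Q s k c' x := by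
  unfold Us
  rw [h]

/-- The law given the half prefix lives on the possible nodes. -/
theorem us_supp (h : Eqm col T Q θ) {c : Hi V N nb} (hc : qc Q c ≠ 0) {s k : ℕ} (hs : s < N)
    (hk : k ≤ nb) {x : V} (hx : nh θ s k (hp s k c) x ≠ 0) : Us Q s k c x := by
  obtain ⟨-, c', h1, -, h3, h4⟩ := h.supp hc hs hk hx
  exact ⟨c', h3, h1, h4⟩

/-- The possible nodes lie in the world and in the set where the next world is taken. -/
theorem us_nx (h : Eqm col T Q θ) {c : Hi V N nb} {s k : ℕ} (hs : s < N) {x : V}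
    (hx : Us Q s k c x) : x ∈ T.Nx s (pf s c) ∧ x ∈ wo c s := by
  obtain ⟨c', h1, h2, h3⟩ := hx
  have h4 := (h.ok' h1 hs).1 h3
  have h5 : pf s c' = pf s c := by
    rw [← hp_zero, ← hp_zero]
    exact hp_mono (Or.inr ⟨rfl, Nat.zero_le _⟩) h2
  rw [h5] at h4
  refine ⟨h4, ?_⟩
  have h6 := h.nx s _ h4
  rwa [wo_pf le_rfl] at h6

/-- The node of a pair of positive mass. -/
theorem us_node (h : Eqm col T Q θ) {c : Hi V N nb} {x : V} (hx : Q (c, x) ≠ 0) {s : ℕ}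
    (hs : s < N) (k : ℕ) : Us Q s k c x :=
  us_of_wo (h.qc_ne hx) s k (h.mem_wo hx hs)

/-- The next world of a history of positive mass is not empty. -/
theorem wo_ne (h : Eqm col T Q θ) {c : Hi V N nb} (hc : qc Q c ≠ 0) {s : ℕ} (hs : s ≤ N) :
    (wo c s).Nonempty := by
  obtain ⟨x, -, hx⟩ := Finset.exists_ne_zero_of_sum_ne_zero hc
  exact ⟨x, h.mem_wo hx hs⟩

/-- **Large mass.**  If all the possible nodes after the half prefix `hp s k c` lie in `S` then `S`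
has mass at least `c0` for the law given any shorter half prefix of the step. -/
theorem us_mass (h : Eqm col T Q θ) {c : Hi V N nb} (hc : qc Q c ≠ 0) {c0 : ℝ} (hc0 : 0 ≤ c0)
    (hT : Typ Q c0 c) {s : ℕ} (hs : s < N) {j k : ℕ} (hjk : j ≤ k) (hk : k ≤ nb) (S : Finset V)
    (hS : ∀ x, Us Q s k c x → x ∈ S) : c0 ≤ ∑ x ∈ S, nh θ s j (hp s j c) x := by
  have h1 : ∑ x ∈ S, nh θ s k (hp s k c) x = 1 := by
    rw [← h.sum_nh s k (hp s k c)]
    refine Finset.sum_subset (Finset.subset_univ S) fun x _ hx => ?_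
    by_contra h2
    exact hx (hS x (us_supp h hc hs hk h2))
  calc c0 = ∑ x ∈ S, c0 * nh θ s k (hp s k c) x := by rw [← Finset.mul_sum, h1, mul_one]
    _ ≤ _ := Finset.sum_le_sum fun x _ => h.nh_le_bits hc hc0 hT hs hjk hk x

end

/-! ### Sides and exact tests on the possible nodes -/

section sides

variable {B1 B2 B3 B4 : Type} [Fintype B1] [Fintype B2] [Fintype B3] [Fintype B4]
  {V : Type} [Fintype V] {N : ℕ} {ι : Type} {Y : ι → Type} {I : Type}
  {col : Finset V → ℕ → Prop} {b : ℕ → ℕ} {Nx : ℕ → Hi V N (gr4 B1 B2 B3 B4) → Finset V}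
  {sx : I → ℕ} {X : ℕ → I → Hi V N (gr4 B1 B2 B3 B4) → V → Th V N (gr4 B1 B2 B3 B4) Y → Prop}
  {G : ℕ → Bn B1 B2 B3 B4 → Hi V N (gr4 B1 B2 B3 B4) → V → Th V N (gr4 B1 B2 B3 B4) Y → ℝ}
  {Q : Hi V N (gr4 B1 B2 B3 B4) × V → ℝ} {θ : Th V N (gr4 B1 B2 B3 B4) Y}

/-- A side on the possible nodes, with the bit. -/
theorem us_side_pos (h : Eqm col (mkTsB b Nx sx X G) Q θ) {c : Hi V N (gr4 B1 B2 B3 B4)} {s : ℕ}
    (hs : s < N) {β : Bn B1 B2 B3 B4} {k : ℕ} (hjk : lev' β ≤ k) (hb : bb c s β = true) {x : V}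
    (hx : Us Q s k c x) : 0 ≤ G s β (hp s (lev β) c) x θ := by
  obtain ⟨c', h1, h2, h3⟩ := hx
  have h4 : bb c' s β = true := (bt_eq_of_hp h2 ((enc_mem β).2.trans_le hjk)).trans hb
  have h5 := sidB_pos h h1 hs h4 h3
  rwa [hp_mono (Or.inr ⟨rfl, ((enc_mem β).1.trans (enc_mem β).2.le).trans hjk⟩) h2] at h5

theorem us_side_neg (h : Eqm col (mkTsB b Nx sx X G) Q θ) {c : Hi V N (gr4 B1 B2 B3 B4)} {s : ℕ}
    (hs : s < N) {β : Bn B1 B2 B3 B4} {k : ℕ} (hjk : lev' β ≤ k) (hb : bb c s β = false) {x : V}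
    (hx : Us Q s k c x) : G s β (hp s (lev β) c) x θ ≤ 0 := by
  obtain ⟨c', h1, h2, h3⟩ := hx
  have h4 : bb c' s β = false := (bt_eq_of_hp h2 ((enc_mem β).2.trans_le hjk)).trans hb
  have h5 := sidB_neg h h1 hs h4 h3
  rwa [hp_mono (Or.inr ⟨rfl, ((enc_mem β).1.trans (enc_mem β).2.le).trans hjk⟩) h2] at h5

/-- **The sides have one sign on all the possible nodes.** -/
theorem us_side (h : Eqm col (mkTsB b Nx sx X G) Q θ) (c : Hi V N (gr4 B1 B2 B3 B4)) {s : ℕ}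
    (hs : s < N) (β : Bn B1 B2 B3 B4) {k : ℕ} (hjk : lev' β ≤ k) :
    (bb c s β = true ∧ ∀ x, Us Q s k c x → 0 ≤ G s β (hp s (lev β) c) x θ) ∨
      (bb c s β = false ∧ ∀ x, Us Q s k c x → G s β (hp s (lev β) c) x θ ≤ 0) := by
  cases hb : bb c s β
  · exact Or.inr ⟨rfl, fun x hx => us_side_neg h hs hjk hb hx⟩
  · exact Or.inl ⟨rfl, fun x hx => us_side_pos h hs hjk hb hx⟩

/-- **The small sets avoid the possible nodes.** -/
theorem us_exact (h : Eqm col (mkTsB b Nx sx X G) Q θ) (hsx : ∀ i, sx i ≤ gr4 B1 B2 B3 B4)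
    {c : Hi V N (gr4 B1 B2 B3 B4)} {s : ℕ} (hs : s < N) {i : I} {k : ℕ} (hik : sx i ≤ k)
    {x : V} (hx : Us Q s k c x) : ¬ X s i (hp s (sx i) c) x θ := by
  obtain ⟨c', h1, h2, h3⟩ := hx
  have h4 := exaB h hsx h1 hs i h3
  rwa [hp_mono (Or.inr ⟨rfl, hik⟩) h2] at h4

/-- **Rare sides.**  If the nodes where the function is nonnegative have mass less than `c0` for
the law at some level `j ≤ k` then the function is nonpositive on all the possible nodes. -/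
theorem us_rare_pos (h : Eqm col (mkTsB b Nx sx X G) Q θ) {c : Hi V N (gr4 B1 B2 B3 B4)}
    (hc : qc Q c ≠ 0) {c0 : ℝ} (hc0 : 0 ≤ c0) (hT : Typ Q c0 c) {s : ℕ} (hs : s < N)
    (β : Bn B1 B2 B3 B4) {j k : ℕ} (hjk : j ≤ k) (hk : k ≤ gr4 B1 B2 B3 B4)
    (hβ : lev' β ≤ k)
    (hP : ∑ x ∈ Finset.univ.filter (fun x => 0 ≤ G s β (hp s (lev β) c) x θ),
      nh θ s j (hp s j c) x < c0) :
    bb c s β = false ∧ ∀ x, Us Q s k c x → G s β (hp s (lev β) c) x θ ≤ 0 := by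
  rcases us_side h c hs β hβ with ⟨-, h1⟩ | h1
  · exact absurd hP (not_lt.2 (us_mass h hc hc0 hT hs hjk hk _ fun x hx =>
      Finset.mem_filter.2 ⟨Finset.mem_univ x, h1 x hx⟩))
  · exact h1

theorem us_rare_neg (h : Eqm col (mkTsB b Nx sx X G) Q θ) {c : Hi V N (gr4 B1 B2 B3 B4)}
    (hc : qc Q c ≠ 0) {c0 : ℝ} (hc0 : 0 ≤ c0) (hT : Typ Q c0 c) {s : ℕ} (hs : s < N)
    (β : Bn B1 B2 B3 B4) {j k : ℕ} (hjk : j ≤ k) (hk : k ≤ gr4 B1 B2 B3 B4)
    (hβ : lev' β ≤ k)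
    (hP : ∑ x ∈ Finset.univ.filter (fun x => G s β (hp s (lev β) c) x θ ≤ 0),
      nh θ s j (hp s j c) x < c0) :
    bb c s β = true ∧ ∀ x, Us Q s k c x → 0 ≤ G s β (hp s (lev β) c) x θ := by
  rcases us_side h c hs β hβ with h1 | ⟨-, h1⟩
  · exact h1
  · exact absurd hP (not_lt.2 (us_mass h hc hc0 hT hs hjk hk _ fun x hx =>
      Finset.mem_filter.2 ⟨Finset.mem_univ x, h1 x hx⟩))

end sides

end Pool.Agent.Lib.GSX
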