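import Pool.Agent.Lib.GSX.Gst
import Pool.Agent.Lib.GSX.GstQ
import Pool.Agent.Lib.GSX.BestI
import Pool.Agent.Lib.GSX.InpC

/-!
# The stages of a typical history satisfy `Gst`

`lv5 P i` are the five places of the half prefixes of a stage, `U5 P Q s c i` the possible nodes
after the half prefix number `i`, `gsv` the side functions in terms of the record.  The theorem
`gst_of` holds for all tests with named sides whose functions are `gsv` on the history.
-/

set_option autoImplicit false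

namespace Pool.Agent.Lib.GSX

open Finset Classical
open Pool.Agent.Lib.GSR Pool.Agent.Lib.GSR.HZ Pool.Agent.Lib.GSR.HZB

/-- The places of the half prefixes of a stage. -/
noncomputable def lv5 (P : Cn) : ℕ → ℕ
  | 0 => 0
  | 1 => g1
  | 2 => g2 P
  | 3 => g3 P
  | _ + 4 => nb P

lemma lv5_mono (P : Cn) {i j : ℕ} (h : i ≤ j) : lv5 P i ≤ lv5 P j := by
  have h1 := g1_le_g2 P
  have h2 := (g2_lt_g3 P).le
  have h3 := g3_le_nb P
  match i, j with
  | 0, j => exact Nat.zero_le _
  | 1, 0 => exact absurd h (by omega)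
  | 1, 1 => exact le_rfl
  | 1, 2 => exact h1
  | 1, 3 => exact h1.trans h2
  | 1, _ + 4 => exact h1.trans (h2.trans h3)
  | 2, 0 => exact absurd h (by omega)
  | 2, 1 => exact absurd h (by omega)
  | 2, 2 => exact le_rfl
  | 2, 3 => exact h2
  | 2, _ + 4 => exact h2.trans h3
  | 3, 0 => exact absurd h (by omega)
  | 3, 1 => exact absurd h (by omega)
  | 3, 2 => exact absurd h (by omega)
  | 3, 3 => exact le_rfl
  | 3, _ + 4 => exact h3
  | _ + 4, 0 => exact absurd h (by omega)
  | _ + 4, 1 => exact absurd h (by omega)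
  | _ + 4, 2 => exact absurd h (by omega)
  | _ + 4, 3 => exact absurd h (by omega)
  | _ + 4, _ + 4 => exact le_rfl

lemma lv5_le (P : Cn) (i : ℕ) : lv5 P i ≤ nb P := by
  have h1 : lv5 P i ≤ lv5 P (i + 4) := lv5_mono P (by omega)
  exact h1

section

variable {V : Type} [Fintype V]

/-- The possible nodes after the half prefix number `i` of the stage `s`. -/
def U5 (P : Cn) (Q : Hh P V × V → ℝ) (s : ℕ) (c : Hh P V) (i : ℕ) (x : V) : Prop :=
  Us Q s (lv5 P i) c x

/-- The law at the end of the stage. -/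
noncomputable def n4t (P : Cn) (θ : Tht P V) (s : ℕ) (c : Hh P V) : V → ℝ :=
  nh θ s (nb P) (hp s (nb P) c)

lemma ni_eq (P : Cn) (θ : Tht P V) (s : Fin P.N) (c : Hh P V) (i : ℕ) :
    ni (inpt P θ s c) (n4t P θ s c) i = nh θ s (lv5 P i) (hp s (lv5 P i) c) := by
  match i with
  | 0 => rfl
  | 1 => rfl
  | 2 => rfl
  | 3 => rfl
  | _ + 4 => rfl

/-- The side functions of a stage, in terms of the record. -/
noncomputable def gsv (P : Cn) (G : SimpleGraph V) (c0 : ℝ) (s : Fin P.N) (S : Sta P V)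
    (I : Inp P V) : Bt P → V → ℝ
  | .inl (.inl (.inl _)) => fun x => I.n0 x - P.xi2 * al P G I x
  | .inl (.inl (.inr (b, j, 0))) => fun x =>
      upA G (upi P G I b) j (upx P G I b j) x - 2 * P.th b * al P G I x
  | .inl (.inl (.inr (b, j, 1))) => fun x => upSh G (upi P G I b) j (upx P G I b j) x - 3 / 8
  | .inl (.inl (.inr (b, j, 2))) => fun x => upg G (upi P G I b) j (upx P G I b j) x - P.Bu b
  | .inl (.inr _) => fun x => thF P G I c0 x
  | .inr (0, _, _) => fun x => out P G I x - 1 / 4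
  | .inr (1, _, C) => fun x => ShP P G S I C x - P.cP C.card
  | .inr (2, T, C) => fun x => ShA P G S I T C x - P.cA
  | .inr (3, T, _) => fun x => AS P G S I T x - P.eps1 * al P G I x
  | .inr (4, _, C) => fun x => gpP P G S I C x - P.Bd
  | .inr (5, T, C) => fun x => gpA P G S I T C x - P.Bd

variable {P : Cn} {G : SimpleGraph V} {col : Finset V → ℕ → Prop} {J : Type} {b : ℕ → ℕ}
  {Nx : ℕ → Hh P V → Finset V} {sx : J → ℕ} {X : ℕ → J → Hh P V → V → Tht P V → Prop}
  {Gf : ℕ → Bt P → Hh P V → V → Tht P V → ℝ} {Q : Hh P V × V → ℝ} {θ : Tht P V}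

/-- A comparison on the possible nodes from a side. -/
lemma dch_of (h : Eqm col (mkTsB b Nx sx X Gf) Q θ) (c : Hh P V) (s : Fin P.N) (β : Bt P) {i : ℕ}
    (hi : lev' β ≤ lv5 P i) {f g : V → ℝ}
    (hG : ∀ x, Gf s.1 β (hp s.1 (lev β) c) x θ = f x - g x) : Dch (U5 P Q s.1 c i) f g := by
  rcases us_side h c s.2 β hi with ⟨-, h1⟩ | ⟨-, h1⟩
  · right
    intro x hx
    have h2 := h1 x hx
    rw [hG x] at h2
    linarith
  · left
    intro x hx
    have h2 := h1 x hx
    rw [hG x] at h2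
    linarith

/-- **The stages of a typical history.** -/
theorem gst_of (h : Eqm col (mkTsB b Nx sx X Gf) Q θ)
    (hθ : θ ∈ dom P.N (nb P) (Ki P (V := V))) (ho : BestI_.Opt P G θ) {c : Hh P V}
    (hc : qc Q c ≠ 0) {c0 : ℝ} (hc0 : 0 < c0) (hT : Typ Q c0 c) (s : Fin P.N) {XQ : Set V}
    -- the isolated vertices
    (hNx : ∀ x ∈ Nx s.1 (pf s.1 c), ∃ z ∈ wo c s.1, G.Adj x z)
    -- the small sets
    (hat : ∀ x, Us Q s.1 g1 c x →
      (inpt P θ s c).n1 x ≤ P.xi1 * ∑ z with G.Adj x z, (inpt P θ s c).n1 z)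
    (hXQ : ∀ x, Us Q s.1 (g2 P) c x → x ∉ XQ)
    -- the sides
    (hG : ∀ β x, Gf s.1 β (hp s.1 (lev β) c) x θ =
      gsv P G c0 s (stt P G θ c s) (inpt P θ s c) β x) :
    Gst P G c0 XQ s (stt P G θ c s) (inpt P θ s c) (n4t P θ s c) (U5 P Q s.1 c)
      (wo c (s.1 + 1)) := by
  obtain ⟨hb, hbU⟩ := BestI_.best_of_eqm h ho hc s
  exact
    { c0p := hc0
      ipos := InpC_.inpt_ipos hθ s c
      best := hb
      bestU := hbU
      sg0 := fun b j l => InpC_.sg_nonneg hθ s c b j l
      su0 := fun b j l u => InpC_.su_nonneg hθ s c b j l u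
      nn := fun i x => by
        rw [ni_eq]
        exact h.nh_nonneg _ _ _ x
      sm := fun i => by
        rw [ni_eq]
        exact h.sum_nh _ _ _
      le := fun i j hij x => by
        rw [ni_eq, ni_eq]
        exact h.nh_le_bits hc hc0.le hT s.2 (lv5_mono P hij) (lv5_le P j) x
      su := fun i x hx => by
        rw [ni_eq] at hx
        exact us_supp h hc s.2 (lv5_le P i) hx
      an := fun i j hij x hx => us_anti (lv5_mono P hij) hx
      wW := fun x hx => (us_nx h s.2 hx).2
      iso := fun x hx => hNx x (us_nx h s.2 hx).1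
      wU := fun x hx => us_of_wo hc s.1 _ hx
      ne := wo_ne h hc s.2
      at1 := hat
      xq := hXQ
      sat := dch_of h c s (bAtm P) le_rfl (hG (bAtm P))
      suA := fun b j hj => dch_of h c s (bUp P (b, ⟨j, hj⟩, 0)) le_rfl (hG _)
      suS := fun b j hj => dch_of h c s (bUp P (b, ⟨j, hj⟩, 1)) le_rfl (hG _)
      sug := fun b j hj => dch_of h c s (bUp P (b, ⟨j, hj⟩, 2)) le_rfl (hG _)
      sth := dch_of h c s (bThin P) le_rfl fun x => by
        rw [sub_zero]
        exact hG (bThin P) x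
      so := dch_of h c s (bK P (0, ∅, ∅)) le_rfl (hG _)
      sp := fun C _ => dch_of h c s (bK P (1, ∅, C)) le_rfl (hG _)
      sa := fun T C _ _ _ => dch_of h c s (bK P (2, T, C)) le_rfl (hG _)
      sy := fun T _ _ => dch_of h c s (bK P (3, T, ∅)) le_rfl (hG _)
      sgp := fun C _ => dch_of h c s (bK P (4, ∅, C)) le_rfl (hG _)
      sga := fun T C _ _ _ => dch_of h c s (bK P (5, T, C)) le_rfl (hG _) }

end

end Pool.Agent.Lib.GSX
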