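import Pool.Agent.Lib.GSX.Gst
import Pool.Agent.Lib.GSX.At4
import Pool.Agent.Lib.GSX.LvG

/-!
# G4 for one stage of a typical history

After the first bit the law of the prefix has no atoms of the size `xi2 * al`.
-/

set_option autoImplicit false

namespace Pool.Agent.Lib.GSX

open Finset Classical

section

variable {V : Type} [Fintype V] {P : Cn} {G : SimpleGraph V} {c0 : ℝ} {XQ : Set V} {s : Fin P.N}
  {S : Sta P V} {I : Inp P V} {n4 : V → ℝ} {U : ℕ → V → Prop} {W' : Finset V}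

/-- **G4.**  After the first bit there are no atoms. -/
theorem Gst.atm (h : Gst P G c0 XQ s S I n4 U W') (he : 0 < P.e0) (he1 : P.e0 < 1)
    (hI : lv P.I0 ≤ P.e0) (hx2 : 0 < P.xi2) (hx1 : 128 * P.xi1 < c0 ^ 2 * P.xi2 ^ 2) :
    ∀ x, U 1 x → I.n0 x ≤ P.xi2 * al P G I x := by
  rcases h.sat with h1 | h1
  · exact h1
  · exfalso
    have hK : (0 : ℝ) < √2 * 1 := by positivity
    have hK2 : 64 * (√2 * 1) ^ 2 * P.xi1 < c0 ^ 2 * P.xi2 ^ 2 := by
      rw [mul_one, Real.sq_sqrt (by norm_num)]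
      linarith
    obtain ⟨x, hx, hx'⟩ := at_rare (P := P) (G := G) (I := I) (h.nn 0) (h.sm 0).le (h.nn 1)
      (h.sm 1) h.c0p (h.le 0 1 zero_le_one) hK (fun x hx => h.ne_W 0 hx)
      (fun y hy => h.best.lvl he he1 hI (h.nn 0) (h.sm 0).le (h.nn 0) zero_le_one
        (fun x => (one_mul _).ge) hy) hx2 (fun x hx => h.at1 x (h.su 1 x hx)) hK2
    exact absurd (h1 x (h.su 1 x hx)) (not_le.2 hx')

/-- The laws after the first bit have no atoms. -/
theorem Gst.atm_ni (h : Gst P G c0 XQ s S I n4 U W') (he : 0 < P.e0) (he1 : P.e0 < 1)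
    (hI : lv P.I0 ≤ P.e0) (hx2 : 0 < P.xi2) (hx1 : 128 * P.xi1 < c0 ^ 2 * P.xi2 ^ 2) {i : ℕ}
    (hi : 1 ≤ i) (x : V) : ni I n4 i x ≤ P.xi2 / c0 * al P G I x := by
  by_cases hx : ni I n4 i x = 0
  · rw [hx]
    exact mul_nonneg (div_nonneg hx2.le h.c0p.le) (GSLE.alp_pos _ _ _ _ x).le
  · have h1 := h.atm he he1 hI hx2 hx1 x (h.an 1 i hi x (h.su i x hx))
    have h2 := h.le_div (Nat.zero_le i) x
    have h3 : 1 / c0 * ni I n4 0 x ≤ 1 / c0 * (P.xi2 * al P G I x) :=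
      mul_le_mul_of_nonneg_left h1 (by have := h.c0p; positivity)
    calc ni I n4 i x ≤ 1 / c0 * ni I n4 0 x := h2
      _ ≤ 1 / c0 * (P.xi2 * al P G I x) := h3
      _ = P.xi2 / c0 * al P G I x := by ring

end

end Pool.Agent.Lib.GSX
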