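import Pool.Agent.Lib.GSX.Gst
import Pool.Agent.Lib.GSX.LvG
import Pool.Agent.Lib.GSX.GstAt

/-!
# Thin vertices at one stage of a typical history

`Gst.lvl_at`: the level-wise bounds (G1).
`thinG`: the vertices of the next worlds are thin and the cover vanishes there (G6, G7, G8).
-/

set_option autoImplicit false

namespace Pool.Agent.Lib.GSX

open Finset Classical
open Pool.Agent.Lib.GSR3 (Tree)
open Pool.Agent.Lib.FGF (Frac)
open Pool.Agent.Lib.GSLE (Lvl UpL)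

section

variable {V : Type} [Fintype V] {P : Cn} {G : SimpleGraph V} {c0 : ℝ} {XQ : Set V} {s : Fin P.N}
  {S : Sta P V} {I : Inp P V} {n4 : V → ℝ} {U : ℕ → V → Prop} {W' : Finset V}

/-- **(G1)** The level-wise bounds. -/
theorem Gst.lvl_at (h : Gst P G c0 XQ s S I n4 U W') (he : 0 < P.e0) (he1 : P.e0 < 1)
    (hI : lv P.I0 ≤ P.e0) (i : ℕ) {y : V} (hy : y ∈ I.W) :
    Lvl G (ni I n4 i) (al P G I) (√2 * (1 / c0)) y :=
  h.best.lvl he he1 hI (h.nn 0) (h.sm 0).le (h.nn i) (one_div_nonneg.2 h.c0p.le)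
    (h.le_div (Nat.zero_le i)) hy

/-- The atoms of the later laws. -/
theorem ThinG_.ni_le (h : Gst P G c0 XQ s S I n4 U W')
    (hat : ∀ x, U 1 x → I.n0 x ≤ P.xi2 * al P G I x) {i : ℕ} (hi : 1 ≤ i) (x : V) :
    ni I n4 i x ≤ P.xi2 / c0 * al P G I x ∨ ni I n4 i x = 0 := by
  by_cases hx : ni I n4 i x = 0
  · exact Or.inr hx
  · left
    have h1 := hat x (h.an 1 i hi x (h.su i x hx))
    have h2 := h.le 0 i (Nat.zero_le i) x
    have h3 := h.c0p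
    rw [div_mul_eq_mul_div, le_div_iff₀ h3]
    have h4 : c0 * ni I n4 i x ≤ I.n0 x := h2
    linarith

end

/-- **(G8)** The vertices of the next worlds are thin. -/
theorem thinG (M d g : ℕ) (F c0 v τ : ℝ) (hM : 1 ≤ M) (hF : 1 ≤ F) (hc0 : 0 < c0) (hv : 0 < v)
    (hτ : 0 < τ) : ∃ ε : ℝ, 0 < ε ∧
    ∀ (P : Cn) (V : Type) [Fintype V] (G : SimpleGraph V) (XQ : Set V) (s : Fin P.N)
      (S : Sta P V) (I : Inp P V) (n4 : V → ℝ) (U : ℕ → V → Prop) (W' : Finset V)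
      (δ' L' u0 w0 : ℝ),
      Gst P G c0 XQ s S I n4 U W' → Frac G F → (∀ φ : List (Fin M) → V, ¬ Tree G d M φ) →
      0 < P.e0 → P.e0 < 1 → lv P.I0 ≤ P.e0 → 0 < P.xi → 0 ≤ P.xi2 →
      0 < δ' → 0 ≤ L' → 0 < P.Gu 0 → 2 * P.Gu 0 ≤ 2 ^ g →
      0 < P.Gu 1 → 2 * P.Gu 1 ≤ (2 : ℝ) ^ (L' - 1) → 0 < w0 →
      (∀ x, U 1 x → I.n0 x ≤ P.xi2 * al P G I x) →
      (∀ x, U 2 x → UpL G I.n2 (al P G I) (2 * P.Gu 0) u0 x) →
      (∀ x, U 2 x → UpL G I.n2 (al P G I) (2 * P.Gu 1) δ' x) →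
      XEqR P G I ((2 * (g + 1) + 2) * (√2 * (1 / c0)) + 1)
        ((2 * (L' + 6 * (g + 1) + 1) + 2) * (√2 * (1 / c0)) + 1) ε ((6 * (g + 1) + 3) * δ')
        (g + 1) (L' + 3 * (g + 1) + 1) ⊆ XQ →
      4 * (u0 + v + w0) + P.xi2 / c0 < c0 * P.xi →
      τ + 2 * (√2 * (1 / c0)) / (2 * P.Gu 0 * w0) + 2 * (√2 * (1 / c0)) / (2 * P.Gu 1 * δ') < c0 →
      ∀ x, U 3 x → (∀ i, Db P G I I.n3 i x ≤ P.xi) ∧ fs P G I x = 0 := by
  obtain ⟨ε, hε, hS⟩ := thin_stage M d g F (√2 * (1 / c0)) v τ hM hF (by positivity) hv hτ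
  refine ⟨ε, hε, ?_⟩
  intro P V _ G XQ s S I n4 U W' δ' L' u0 w0 h hFr hT he he1 hI hxi hxi2 hδ' hL' hG0 hG0g hG1
    hG1L hw0 hat hup0 hup1 hXQ h4 hc
  have hne : ∀ x, I.n2 x ≠ 0 → U 2 x := fun x hx => h.su 2 x hx
  have h1 := hS P V G I δ' L' (2 * P.Gu 0) (2 * P.Gu 1) u0 w0 (P.xi2 / c0) c0 hFr hT (h.nn 2)
    (h.sm 2).le hδ' hL' (by linarith) hG0g (by linarith) hG1L hw0 (fun x hx => h.ne_W 2 hx)
    (fun z hz => h.lvl_at he he1 hI 2 hz) (fun x hx => hup0 x (hne x hx))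
    (fun x hx => hup1 x (hne x hx)) (fun x hx => by
      rcases ThinG_.ni_le h hat (i := 2) (by norm_num) x with h2 | h2
      · exact h2
      · exact absurd h2 hx)
    (fun x hx hX => h.xq x (hne x hx) (hXQ hX)) h4
  have h2 : ∀ x, U 3 x → thF P G I c0 x ≤ 0 := h.rare 2 h.sth (lt_of_le_of_lt h1 hc)
  intro x hx
  exact thin_fs (fun x => al_pos' I x) hxi h.c0p (h.le 2 3 (by norm_num))
    (thF_nonpos.1 (h2 x hx))

end Pool.Agent.Lib.GSX
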