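import Pool.Agent.Lib.GSX.Stage
import Pool.Agent.Lib.GSX.BestU
import Pool.Agent.Lib.GSX.ThinS

/-!
# One stage of a typical history, as static data

`ni I n4 i` are the laws of the node at the five half prefixes of the stage, `U i` is the union of
the next worlds of the histories through the half prefix number `i`; `W'` is the next world.  All
the statements about one stage at the equilibrium are consequences of `Gst`.
-/

set_option autoImplicit false

namespace Pool.Agent.Lib.GSX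

open Finset Classical

/-- The laws of the node at the half prefixes of the stage. -/
def ni {P : Cn} {V : Type} (I : Inp P V) (n4 : V → ℝ) : ℕ → V → ℝ
  | 0 => I.n0
  | 1 => I.n1
  | 2 => I.n2
  | 3 => I.n3
  | _ + 4 => n4

/-- The functions `g` and `h` are comparable on `U`. -/
def Dch {V : Type} (U : V → Prop) (g h : V → ℝ) : Prop :=
  (∀ x, U x → g x ≤ h x) ∨ ∀ x, U x → h x ≤ g x

section

variable {V : Type} [Fintype V]

/-- The game at the stage `s` of a typical history: `c0` is the constant of the typical histories,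
`XQ` the small set which is tested after the second group of bits. -/
structure Gst (P : Cn) (G : SimpleGraph V) (c0 : ℝ) (XQ : Set V) (s : Fin P.N) (S : Sta P V)
    (I : Inp P V) (n4 : V → ℝ) (U : ℕ → V → Prop) (W' : Finset V) : Prop where
  c0p : 0 < c0
  ipos : IPos I
  best : Best P G s S I
  bestU : BestU P G I
  sg0 : ∀ b j l, 0 ≤ I.sg b j l
  su0 : ∀ b j l u, 0 ≤ I.su b j l u
  /-- the laws -/
  nn : ∀ i x, 0 ≤ ni I n4 i x
  sm : ∀ i, ∑ x, ni I n4 i x = 1
  le : ∀ i j, i ≤ j → ∀ x, c0 * ni I n4 j x ≤ ni I n4 i x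
  su : ∀ i x, ni I n4 i x ≠ 0 → U i x
  /-- the worlds -/
  an : ∀ i j, i ≤ j → ∀ x, U j x → U i x
  wW : ∀ x, U 0 x → x ∈ I.W
  iso : ∀ x, U 0 x → ∃ z ∈ I.W, G.Adj x z
  wU : ∀ x ∈ W', U 4 x
  ne : W'.Nonempty
  /-- the exact tests -/
  at1 : ∀ x, U 1 x → I.n1 x ≤ P.xi1 * ∑ z with G.Adj x z, I.n1 z
  xq : ∀ x, U 2 x → x ∉ XQ
  /-- the sides -/
  sat : Dch (U 1) I.n0 (fun x => P.xi2 * al P G I x)
  suA : ∀ b j, j < P.h → Dch (U 2) (upA G (upi P G I b) j (upx P G I b j))
    (fun x => 2 * P.th b * al P G I x)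
  suS : ∀ b j, j < P.h → Dch (U 2) (upSh G (upi P G I b) j (upx P G I b j)) (fun _ => 3 / 8)
  sug : ∀ b j, j < P.h → Dch (U 2) (upg G (upi P G I b) j (upx P G I b j)) (fun _ => P.Bu b)
  sth : Dch (U 3) (thF P G I c0) (fun _ => 0)
  so : Dch (U 4) (out P G I) (fun _ => 1 / 4)
  sp : ∀ C, Bef P s C → Dch (U 4) (ShP P G S I C) (fun _ => P.cP C.card)
  sa : ∀ T C, Bef P s T → T.card = P.r0 → C ⊆ T → Dch (U 4) (ShA P G S I T C) (fun _ => P.cA)
  sy : ∀ T, Bef P s T → T.card = P.r0 →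
    Dch (U 4) (AS P G S I T) (fun x => P.eps1 * al P G I x)
  sgp : ∀ C, Bef P s C → Dch (U 4) (gpP P G S I C) (fun _ => P.Bd)
  sga : ∀ T C, Bef P s T → T.card = P.r0 → C ⊆ T → Dch (U 4) (gpA P G S I T C) (fun _ => P.Bd)

namespace Gst

variable {P : Cn} {G : SimpleGraph V} {c0 : ℝ} {XQ : Set V} {s : Fin P.N} {S : Sta P V}
  {I : Inp P V} {n4 : V → ℝ} {U : ℕ → V → Prop} {W' : Finset V}

theorem ne_W (h : Gst P G c0 XQ s S I n4 U W') (i : ℕ) {x : V} (hx : ni I n4 i x ≠ 0) :
    x ∈ I.W := h.wW x (h.an 0 i (Nat.zero_le i) x (h.su i x hx))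

theorem sub (h : Gst P G c0 XQ s S I n4 U W') : W' ⊆ I.W := fun x hx =>
  h.wW x (h.an 0 4 (by norm_num) x (h.wU x hx))

theorem c0_le_one (h : Gst P G c0 XQ s S I n4 U W') : c0 ≤ 1 := by
  have h1 : ∑ x, c0 * ni I n4 0 x ≤ ∑ x, ni I n4 0 x :=
    Finset.sum_le_sum fun x _ => h.le 0 0 le_rfl x
  rw [← Finset.mul_sum, h.sm 0, mul_one] at h1
  exact h1

/-- The comparison of the laws. -/
theorem le_div (h : Gst P G c0 XQ s S I n4 U W') {i j : ℕ} (hij : i ≤ j) (x : V) :
    ni I n4 j x ≤ 1 / c0 * ni I n4 i x := by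
  have h1 := h.le i j hij x
  have h2 := h.c0p
  rw [one_div, inv_mul_eq_div, le_div_iff₀ h2]
  linarith

/-- A property of all the vertices of `U (i + 1)` has mass at least `c0` for the law `i`. -/
theorem mass (h : Gst P G c0 XQ s S I n4 U W') (i : ℕ) {R : V → Prop} [DecidablePred R]
    (hR : ∀ x, U (i + 1) x → R x) : c0 ≤ ∑ x with R x, ni I n4 i x := by
  have h1 : c0 * ∑ x, ni I n4 (i + 1) x ≤ ∑ x with R x, ni I n4 i x := by
    rw [Finset.mul_sum, ← Finset.sum_subset (Finset.subset_univ (Finset.univ.filter R))]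
    · exact Finset.sum_le_sum fun x _ => h.le i (i + 1) (Nat.le_succ i) x
    · intro x _ hx
      by_contra hne
      refine hx (Finset.mem_filter.2 ⟨Finset.mem_univ _, hR x (h.su (i + 1) x ?_)⟩)
      intro h0
      rw [h0, mul_zero] at hne
      exact hne rfl
  rw [h.sm (i + 1), mul_one] at h1
  exact h1

/-- **Rare sides.** -/
theorem rare (h : Gst P G c0 XQ s S I n4 U W') (i : ℕ) {g g' : V → ℝ} (hD : Dch (U (i + 1)) g g')
    (hm : ∑ x with g' x ≤ g x, ni I n4 i x < c0) : ∀ x, U (i + 1) x → g x ≤ g' x := by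
  rcases hD with h1 | h1
  · exact h1
  · exact absurd hm (not_lt.2 (h.mass i h1))

/-- Rare sides, by the mean. -/
theorem rare_mean (h : Gst P G c0 XQ s S I n4 U W') (i : ℕ) {g : V → ℝ} {t K : ℝ} (ht : 0 < t)
    (hg : ∀ x, 0 ≤ g x) (hD : Dch (U (i + 1)) g (fun _ => t))
    (hm : ∑ x, ni I n4 i x * g x ≤ K) (hK : K < c0 * t) : ∀ x, U (i + 1) x → g x ≤ t := by
  refine h.rare i hD ?_
  by_contra hcon
  rw [not_lt] at hcon
  have h1 : c0 * t ≤ ∑ x, ni I n4 i x * g x := by
    calc c0 * t ≤ (∑ x with t ≤ g x, ni I n4 i x) * t := mul_le_mul_of_nonneg_right hcon ht.le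
      _ = ∑ x with t ≤ g x, ni I n4 i x * t := by rw [Finset.sum_mul]
      _ ≤ ∑ x with t ≤ g x, ni I n4 i x * g x := Finset.sum_le_sum fun x hx =>
          mul_le_mul_of_nonneg_left (Finset.mem_filter.1 hx).2 (h.nn i x)
      _ ≤ ∑ x, ni I n4 i x * g x := Finset.sum_le_sum_of_subset_of_nonneg
          (Finset.filter_subset _ _) fun x _ _ => mul_nonneg (h.nn i x) (hg x)
  linarith

/-- The sides of the next world. -/
theorem sidesW (h : Gst P G c0 XQ s S I n4 U W') : SidesW P G s S I W' where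
  o := by
    rcases h.so with h1 | h1
    · exact Or.inl fun v hv => h1 v (h.wU v hv)
    · exact Or.inr fun v hv => h1 v (h.wU v hv)
  p C hC := by
    rcases h.sp C hC with h1 | h1
    · exact Or.inr fun v hv => h1 v (h.wU v hv)
    · exact Or.inl fun v hv => h1 v (h.wU v hv)
  a T C hT hTc hC := by
    rcases h.sa T C hT hTc hC with h1 | h1
    · exact Or.inr fun v hv => h1 v (h.wU v hv)
    · exact Or.inl fun v hv => h1 v (h.wU v hv)
  y T hT hTc := by
    rcases h.sy T hT hTc with h1 | h1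
    · exact Or.inr fun v hv => h1 v (h.wU v hv)
    · exact Or.inl fun v hv => h1 v (h.wU v hv)

end Gst

end

end Pool.Agent.Lib.GSX
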