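import Pool.Agent.Lib.GSX.UpR
import Pool.Agent.Lib.GSX.Gst

/-!
# The UP bound for one stage of a typical history
-/

set_option autoImplicit false

open Finset Classical

namespace Pool.Agent.Lib.GSX

open Pool.Agent.Lib.GSR3 (Tree)
open Pool.Agent.Lib.GSLE (UpL)

section

variable {V : Type} [Fintype V] {P : Cn} {G : SimpleGraph V} {c0 : ℝ} {XQ : Set V} {s : Fin P.N}
  {S : Sta P V} {I : Inp P V} {n4 : V → ℝ} {U : ℕ → V → Prop} {W' : Finset V} {b : Fin 2}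

/-- **(G5)** The first thin step of the UP system `b`. -/
theorem Gst.stop (h : Gst P G c0 XQ s S I n4 U W') {κ : ℕ} {δ e1 : ℝ} {B : ℕ → ℝ}
    (hC : UpC P b κ c0 δ e1 B) (he : 0 < P.e0) (he1 : P.e0 < 1) (hI0 : lv P.I0 ≤ P.e0)
    (hT : ∀ φ : List (Fin P.M) → V, ¬ Tree G P.h P.M φ) (col : V → V → Fin κ)
    (hcol : ∀ v u w, G.Adj v u → G.Adj v w → G.Adj u w → col v u ≠ col v w)
    (hat : ∀ x, I.n1 x ≤ P.xi2 / c0 * al P G I x) :
    ∃ j < P.h, (∀ x, U 2 x → (upx P G I b j).f x = 1) ∧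
      ∀ x, U 2 x → upA G (upi P G I b) j (upx P G I b j) x ≤ 2 * P.th b * al P G I x :=
  stop_rec hC h.best h.bestU he he1 hI0 hT col hcol (h.sg0 b) (h.su0 b) (h.nn 0)
    (h.sm 0).le (h.nn 1) (h.sm 1).le (fun _ hx => h.ne_W 1 hx)
    (fun x hx => h.iso x (h.an 0 1 (Nat.zero_le _) x (h.su 1 x hx)))
    (h.le 0 1 (Nat.zero_le _)) (h.sm 2) (h.le 1 2 (by norm_num)) hat (Wp := U 2)
    (h.su 2) (fun x hx => h.wW x (h.an 0 2 (Nat.zero_le _) x hx)) (h.suA b) (h.suS b) (h.sug b)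

/-- **(G5)** The UP bound of the UP system `b`. -/
theorem Gst.up (h : Gst P G c0 XQ s S I n4 U W') {κ : ℕ} {δ e1 : ℝ} {B : ℕ → ℝ}
    (hC : UpC P b κ c0 δ e1 B) (he : 0 < P.e0) (he1 : P.e0 < 1) (hI0 : lv P.I0 ≤ P.e0)
    (hT : ∀ φ : List (Fin P.M) → V, ¬ Tree G P.h P.M φ) (col : V → V → Fin κ)
    (hcol : ∀ v u w, G.Adj v u → G.Adj v w → G.Adj u w → col v u ≠ col v w)
    (hat : ∀ x, I.n1 x ≤ P.xi2 / c0 * al P G I x) {z : V} (hz : U 2 z) :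
    UpL G I.n2 (al P G I) (2 * P.Gu b) (2 * √2 * P.th b / c0) z := by
  have h1 := upL_rec hC h.best h.bestU he he1 hI0 hT col hcol (h.sg0 b) (h.su0 b) (h.nn 0)
    (h.sm 0).le (h.nn 1) (h.sm 1).le (fun _ hx => h.ne_W 1 hx)
    (fun x hx => h.iso x (h.an 0 1 (Nat.zero_le _) x (h.su 1 x hx)))
    (h.le 0 1 (Nat.zero_le _)) (h.sm 2) (h.le 1 2 (by norm_num)) hat (Wp := U 2)
    (h.su 2) (fun x hx => h.wW x (h.an 0 2 (Nat.zero_le _) x hx)) (h.suA b) (h.suS b) (h.sug b)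
    z hz
  have h2 : c0⁻¹ * (2 * P.th b) * √2 = 2 * √2 * P.th b / c0 := by
    rw [div_eq_mul_inv]
    ring
  rwa [h2] at h1

end

end Pool.Agent.Lib.GSX
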