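import Pool.Agent.Lib.GSX.StageL
import Pool.Agent.Lib.GSX.ThinG
import Pool.Agent.Lib.GSX.UpT
import Pool.Agent.Lib.GSX.GstI

/-!
# The facts of the typical histories

`HisG_.thin` joins the levels, the atoms, the two UP systems and the windows of equal heights: the
possible nodes after the third group of bits are thin.  `hisW_of_gst` is the induction over the
stages.
-/

set_option autoImplicit false

namespace Pool.Agent.Lib.GSX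

open Finset Classical
open Pool.Agent.Lib.GSR3 (Tree)
open Pool.Agent.Lib.FGF (Frac)
open Pool.Agent.Lib.GSLE (UpL)
open Pool.Agent.Lib.GSR Pool.Agent.Lib.GSR.HZ Pool.Agent.Lib.GSR.HZB

/-- The conclusion of `thinG` for a chosen constant `ε`. -/
def ThinC (M d g : ℕ) (F c0 v τ ε : ℝ) : Prop :=
  ∀ (P : Cn) (V : Type) [Fintype V] (G : SimpleGraph V) (XQ : Set V) (s : Fin P.N)
    (S : Sta P V) (I : Inp P V) (n4 : V → ℝ) (U : ℕ → V → Prop) (W' : Finset V)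
    (δ' L' u0 w0 : ℝ),
    Gst P G c0 XQ s S I n4 U W' → Frac G F → (∀ φ : List (Fin M) → V, ¬ Tree G d M φ) →
    0 < P.e0 → P.e0 < 1 → lv P.I0 ≤ P.e0 → 0 < P.xi → 0 ≤ P.xi2 →
    0 < δ' → 0 ≤ L' → 0 < P.Gu 0 → 2 * P.Gu 0 ≤ 2 ^ g →
    0 < P.Gu 1 → 2 * P.Gu 1 ≤ (2 : ℝ) ^ (L' - 1) → 0 < w0 →
    (∀ x, U 1 x → I.n0 x ≤ P.xi2 * al P G I x) →
    (∀ x, U 2 x → UpL G I.n2 (al P G I) (2 * P.Gu 0) u0 x) →
    (∀ x, U 2 x → UpL G I.n2 (al P G I) (2 * P.Gu 1) δ' x) →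
    XEqR P G I ((2 * (g + 1) + 2) * (√2 * (1 / c0)) + 1)
      ((2 * (L' + 6 * (g + 1) + 1) + 2) * (√2 * (1 / c0)) + 1) ε ((6 * (g + 1) + 3) * δ')
      (g + 1) (L' + 3 * (g + 1) + 1) ⊆ XQ →
    4 * (u0 + v + w0) + P.xi2 / c0 < c0 * P.xi →
    τ + 2 * (√2 * (1 / c0)) / (2 * P.Gu 0 * w0) + 2 * (√2 * (1 / c0)) / (2 * P.Gu 1 * δ') < c0 →
    ∀ x, U 3 x → (∀ i, Db P G I I.n3 i x ≤ P.xi) ∧ fs P G I x = 0

theorem exists_thinC (M d g : ℕ) (F c0 v τ : ℝ) (hM : 1 ≤ M) (hF : 1 ≤ F) (hc0 : 0 < c0)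
    (hv : 0 < v) (hτ : 0 < τ) : ∃ ε : ℝ, 0 < ε ∧ ThinC M d g F c0 v τ ε :=
  thinG M d g F c0 v τ hM hF hc0 hv hτ

/-- The constants of the group `G`: the UP systems, the atoms, the windows of equal heights. -/
structure OkGP (P : Cn) (κ : ℕ) (F c0 K0E K1E eE dE gE LE : ℝ) (δ e1 : Fin 2 → ℝ)
    (Bb : Fin 2 → ℕ → ℝ) (g : ℕ) (δ' L' v w0 τ : ℝ) : Prop where
  xi : 0 < P.xi
  xi2 : 0 < P.xi2
  at1 : 128 * P.xi1 < c0 ^ 2 * P.xi2 ^ 2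
  up : ∀ b, UpC P b κ c0 (δ b) (e1 b) (Bb b)
  dp : 0 < δ'
  L0 : 0 ≤ L'
  G0 : 2 * P.Gu 0 ≤ 2 ^ g
  G1 : 2 * P.Gu 1 ≤ (2 : ℝ) ^ (L' - 1)
  wp : 0 < w0
  u1 : 2 * √2 * P.th 1 / c0 ≤ δ'
  K0 : K0E = (2 * (g + 1) + 2) * (√2 * (1 / c0)) + 1
  K1 : K1E = (2 * (L' + 6 * (g + 1) + 1) + 2) * (√2 * (1 / c0)) + 1
  dE : dE = (6 * (g + 1) + 3) * δ'
  gE : gE = g + 1
  LE : LE = L' + 3 * (g + 1) + 1
  thn : ThinC P.M P.h g F c0 v τ eE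
  i1 : 4 * (2 * √2 * P.th 0 / c0 + v + w0) + P.xi2 / c0 < c0 * P.xi
  i2 : τ + 2 * (√2 * (1 / c0)) / (2 * P.Gu 0 * w0) + 2 * (√2 * (1 / c0)) / (2 * P.Gu 1 * δ') < c0

namespace HisG_

theorem upL_mono {V : Type} [Fintype V] {G : SimpleGraph V} {n a : V → ℝ} {Γ ξ ξ' : ℝ} {z : V}
    (h : UpL G n a Γ ξ z) (hξ : ξ ≤ ξ') : UpL G n a Γ ξ' z := by
  intro A hA
  exact (h A hA).trans hξ

section

variable {V : Type} [Fintype V] {P : Cn} {G : SimpleGraph V}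

/-- **The possible nodes after the third group of bits are thin.** -/
theorem thin {κ : ℕ} {F c0 K0E K1E eE dE gE LE : ℝ} {δ e1 : Fin 2 → ℝ} {Bb : Fin 2 → ℕ → ℝ}
    {g : ℕ} {δ' L' v w0 τ : ℝ}
    (K : OkGP P κ F c0 K0E K1E eE dE gE LE δ e1 Bb g δ' L' v w0 τ)
    (he : 0 < P.e0) (he1 : P.e0 < 1) (hI0 : lv P.I0 ≤ P.e0) (hF : Frac G F)
    (hT : ∀ φ : List (Fin P.M) → V, ¬ Tree G P.h P.M φ) (col : V → V → Fin κ)
    (hcol : ∀ v u w, G.Adj v u → G.Adj v w → G.Adj u w → col v u ≠ col v w)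
    {XQ : Set V} {s : Fin P.N} {S : Sta P V} {I : Inp P V} {n4 : V → ℝ} {U : ℕ → V → Prop}
    {W' : Finset V} (h : Gst P G c0 XQ s S I n4 U W')
    (hXQ : XEqR P G I K0E K1E eE dE gE LE ⊆ XQ) :
    ∀ x, U 3 x → (∀ i, Db P G I I.n3 i x ≤ P.xi) ∧ fs P G I x = 0 := by
  have hat := h.atm he he1 hI0 K.xi2 K.at1
  have hat1 : ∀ x, I.n1 x ≤ P.xi2 / c0 * al P G I x :=
    h.atm_ni he he1 hI0 K.xi2 K.at1 (i := 1) le_rfl
  refine K.thn P V G XQ s S I n4 U W' δ' L' (2 * √2 * P.th 0 / c0) w0 h hF hT he he1 hI0 K.xi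
    K.xi2.le K.dp K.L0 (lt_of_lt_of_le one_pos (K.up 0).Gu) K.G0
    (lt_of_lt_of_le one_pos (K.up 1).Gu) K.G1 K.wp hat ?_ ?_ ?_ K.i1 K.i2
  · intro x hx
    exact h.up (K.up 0) he he1 hI0 hT col hcol hat1 hx
  · intro x hx
    exact upL_mono (h.up (K.up 1) he he1 hI0 hT col hcol hat1 hx) K.u1
  · have h1 := hXQ
    rw [K.K0, K.K1, K.dE, K.gE, K.LE] at h1
    exact h1

variable {St : ℕ → Sta P V} {In : Fin P.N → Inp P V} {Wd : ℕ → Finset V}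

/-- **The induction over the stages.** -/
theorem hisW_of_gst (hP : CPos P) (he1 : P.e0 ≤ 1) (hl : 0 ≤ P.lG) (hBd : 0 ≤ P.Bd)
    {B : ℕ → ℝ} (hB0 : ∀ r, 0 ≤ B r)
    (hB : ∀ r, r < P.h → BdM_.Bst P P.Bd r (B r) ≤ B (r + 1))
    (hR : Run P G St In Wd) {c0 : ℝ} {XQ : Fin P.N → Set V} {n4 : Fin P.N → V → ℝ}
    {U : Fin P.N → ℕ → V → Prop}
    (hg : ∀ s : Fin P.N, Gst P G c0 (XQ s) s (St s) (In s) (n4 s) (U s) (Wd (s + 1)))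
    (ht : ∀ s x, U s 3 x → fs P G (In s) x = 0)
    (hgp : ∀ s : Fin P.N, InvS P G B s (St s) (Wd s) → ∀ C, Bef P s C → C.card < P.h →
      ∀ x, U s 4 x → gpP P G (St s) (In s) C x ≤ P.Bd)
    (hga : ∀ s : Fin P.N, InvS P G B s (St s) (Wd s) → ∀ T C, Bef P s T → T.card = P.r0 →
      C ⊆ T → C.card < P.h → ∀ x, U s 4 x → gpA P G (St s) (In s) T C x ≤ P.Bd) :
    HisW P G B St In Wd := by
  have h1 := StageL_.inv_next hP he1 hl hBd hB0 hB hR (fun s => (hg s).ipos)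
    (fun s => (hg s).best.sum_pi.le) (fun s hI => ⟨(hg s).sub, (hg s).ne, (hg s).sidesW,
      fun v hv => ht s v ((hg s).an 3 4 (by norm_num) v ((hg s).wU v hv)),
      fun C hC hCh v hv => hgp s hI C hC hCh v ((hg s).wU v hv),
      fun T C hT hTc hC hCh v hv => hga s hI T C hT hTc hC hCh v ((hg s).wU v hv)⟩)
  exact ⟨hR, fun s => (hg s).ipos, fun s => (hg s).best, h1.1, h1.2⟩

/-- The records along a history. -/
theorem run_game (θ : Tht P V) (c : Hh P V) :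
    Run P G (stt P G θ c) (fun s => inpt P θ s c) (wo c) where
  s0 := rfl
  nx s := stt_succ c s.2
  w _ := rfl

end

end HisG_

end Pool.Agent.Lib.GSX
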