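import Pool.Agent.Lib.GSX.OkF
import Pool.Agent.Lib.GSX.HisG
import Pool.Agent.Lib.GSX.Gme
import Pool.Agent.Lib.GSX.KZ

/-!
# The constants of the game: existence

`Kon` are all the constants, `Ok` all the inequalities; the floor `e0` and the last level `I0` of
one graph come at the end (`FinOk`).
-/

set_option autoImplicit false

namespace Pool.Agent.Lib.GSX

open Filter Topology
open Pool.Agent.Lib.GSI (Wd)
open Pool.Agent.Lib.GSLE (brw)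

/-! ### Group G -/

/-- The constants of group `G` exist: `UX2` is an upper bound for `xi2`, `dlE` the accuracy of the
windows of equal heights. -/
def StOkG : Prop :=
  ∀ (M h κ : ℕ) (F c0 xi UX2 : ℝ) (dlE : ℝ → ℝ → ℝ), 1 ≤ M → 1 ≤ h → 1 ≤ F → 0 < c0 → 0 < xi →
    0 < UX2 → (∀ K e, 0 < dlE K e) →
    ∃ (th Gu Au Lu eu Bu : Fin 2 → ℝ) (xi2 xi1 K0E K1E eE dE gE LE : ℝ) (δ e1 : Fin 2 → ℝ)
      (Bb : Fin 2 → ℕ → ℝ) (g : ℕ) (δ' L' v w0 τ : ℝ),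
      (∀ P : Cn, P.M = M → P.h = h → P.xi = xi → P.xi2 = xi2 → P.xi1 = xi1 → P.th = th →
        P.Gu = Gu → P.Au = Au → P.Lu = Lu → P.eu = eu → P.Bu = Bu →
          OkGP P κ F c0 K0E K1E eE dE gE LE δ e1 Bb g δ' L' v w0 τ) ∧
      dE = dlE K0E eE ∧ 0 < K0E ∧ 0 < eE ∧ 0 < xi1 ∧ 0 < xi2 ∧ xi2 ≤ UX2

/-- The upper bound for `xi2`. -/
noncomputable def ux2 (h M κ : ℕ) (k : Kc) : ℝ :=
  min (k.c0 * k.eps1 * k.del / (16 * (κ * M + 1)))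
    (k.c0 * k.et * k.cP (h - 1) / (16 * (κ * M + 1)))

/-- The inequalities of the constants of group `G`. -/
structure OkKd (h M κ : ℕ) (F : ℝ) (D : Wd) (k : Kd) : Prop where
  g : ∀ P : Cn, P.M = M → P.h = h → P.xi = k.xi → P.xi2 = k.xi2 → P.xi1 = k.xi1 → P.th = k.th →
    P.Gu = k.Gu → P.Au = k.Au → P.Lu = k.Lu → P.eu = k.eu → P.Bu = k.Bu →
      OkGP P κ F k.c0 k.K0E k.K1E k.eE k.dE k.gE k.LE k.dG k.e1G k.BG k.gG k.dG' k.LG' k.vG k.wG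
        k.tG
  dE : k.dE = D.δE k.K0E k.eE
  K0E : 0 < k.K0E
  eE : 0 < k.eE
  xi1 : 0 < k.xi1
  xi2 : 0 < k.xi2
  ux2 : k.xi2 ≤ ux2 h M κ k.toKc

theorem ux2_pos {h M κ : ℕ} {F : ℝ} {R : ℕ} {f : Fa} {k : Kc} (ha : OkKa h M F R f k.toKa) :
    0 < ux2 h M κ k := by
  have h1 := ha.c0_pos
  have h2 := ha.eps_pos
  have h3 := ha.del_pos
  have h4 := ha.et_pos
  have h5 := ha.cPpos (h - 1)
  unfold ux2
  exact lt_min (by positivity) (by positivity)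

theorem exists_okKd (hG : StOkG) {h M κ : ℕ} {F : ℝ} {R : ℕ} {D : Wd} {k : Kc} (h1 : 1 ≤ h)
    (hM : 1 ≤ M) (hF : 1 ≤ F) (hk : OkC h M κ F R D k) :
    ∃ k' : Kd, k'.toKc = k ∧ OkKd h M κ F D k' := by
  obtain ⟨th, Gu, Au, Lu, eu, Bu, xi2, xi1, K0E, K1E, eE, dE, gE, LE, δ, e1, Bb, g, δ', L', v, w0,
    τ, h2, h3, h4, h5, h6, h7, h8⟩ := hG M h κ F k.c0 k.xi (ux2 h M κ k) D.δE hM h1 hF hk.a.c0_pos
      hk.c.b.xi0 (ux2_pos hk.a) D.δE0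
  exact ⟨⟨k, th, Gu, Au, Lu, eu, Bu, xi2, xi1, K0E, K1E, eE, dE, gE, LE, δ, e1, Bb, g, δ', L', v,
    w0, τ⟩, rfl, h2, h3, h4, h5, h6, h7, h8⟩

/-! ### The constants of the tests -/

/-- The constants of the tests. -/
noncomputable def cx (k : Kd) : Cx where
  c0 := k.c0
  K0E := k.K0E
  K1E := k.K1E
  eE := k.eE
  dE := k.dE
  gE := k.gE
  LE := k.LE
  qB := k.qB
  v0 := 42
  K0 := Knc k.c0 + 1
  ek := k.ex
  et := k.etB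
  k := k.kc
  l0 := k.kc.l0
  eth := k.eth
  d := k.d

/-! ### Everything -/

/-- All the constants which do not depend on the graph. -/
structure Kon extends Kd where
  C : ℕ
  b : ℕ → ℕ

/-- All the inequalities. -/
structure Ok (h M κ : ℕ) (F : ℝ) (R : ℕ) (D : Wd) (k : Kon) : Prop where
  c : OkC h M κ F R D k.toKc
  d : OkKd h M κ F D k.toKd
  C1 : 1 ≤ k.C
  Cat : ⌈1 / k.xi1⌉₊ ≤ k.C
  CE : D.CE k.K0E k.eE k.K1E ≤ k.C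
  CB : ∀ m ≤ h, D.CB m k.qB 42 (Knc k.c0 + 1) k.ex k.kc ≤ k.C
  siz : SizOk k.N (nbN h k.N) (2 + 2 ^ k.N * h) (fun _ => k.C) k.b

/-- **The constants exist.** -/
theorem exists_ok (hG : StOkG) (h M κ : ℕ) (F : ℝ) (R : ℕ) (D : Wd) (h1 : 1 ≤ h) (hM : 1 ≤ M)
    (hF : 1 ≤ F) : ∃ k : Kon, Ok h M κ F R D k := by
  obtain ⟨kc, hc⟩ := exists_okC h M κ F R D h1 hM hF
  obtain ⟨kd, rfl, hd⟩ := exists_okKd hG h1 hM hF hc
  obtain ⟨C, hC1, hC2, hC3, hC4⟩ := exists_colours h kd.xi1 (fun _ => D.CE kd.K0E kd.eE kd.K1E)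
    fun m => D.CB m kd.qB 42 (Knc kd.c0 + 1) kd.ex kd.kc
  obtain ⟨b, hb, -⟩ := exists_siz kd.N (nbN h kd.N) (2 + 2 ^ kd.N * h) 1 fun _ => C
  exact ⟨⟨kd, C, b⟩, hc, hd, hC1, hC2, hC3 0, hC4, hb⟩

end Pool.Agent.Lib.GSX
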