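import Pool.Agent.Lib.GSX.TyG
import Pool.Agent.Lib.GSX.FinV
import Pool.Agent.Lib.GSX.FinM
import Pool.Agent.Lib.GSX.OkJS
import Pool.Agent.Lib.GSX.KZ
import Pool.Agent.Lib.GSX.OkP
import Pool.Agent.Lib.GSX.KG
import Pool.Agent.Lib.GSX.LeafU
import Pool.Agent.Lib.GSX.BFac
import Pool.Agent.Lib.GSX.OkJB
import Pool.Agent.Lib.GSX.OkJTc

/-!
# The end of the proof

`fin_core`: the equilibrium of the game is impossible, from the two cases of the popular class.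
`fin_one`: the equilibrium is impossible for the constants of `exists_ok`.
`stFin` is the interface `StFin` for the game on finite graphs.
-/

set_option autoImplicit false

namespace Pool.Agent.Lib.GSX

open Finset Classical
open Pool.Agent.Lib.GSR3 (Tree)
open Pool.Agent.Lib.FGF (Frac)
open Pool.Agent.Lib.GSR Pool.Agent.Lib.GSR.HZ Pool.Agent.Lib.GSR.HZB
open Pool.Agent.Lib.TCW (ColG Cst)
open Pool.Agent.Lib.GSI (Wd Win FinK StFin)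

section

variable {V : Type} [Fintype V] {P : Cn} {G : SimpleGraph V} {X : Cx} {b : ℕ → ℕ}
  {Q : Hh P V × V → ℝ} {θ : Tht P V} {κ : ℕ} {F et : ℝ} {dO B : ℕ → ℝ} {δ e1 : Fin 2 → ℝ}
  {Bb : Fin 2 → ℕ → ℝ} {g : ℕ} {δ' L' v w0 τ : ℝ}

/-- **The final contradiction** from the two cases of the popular class. -/
theorem fin_core (h : GEq P G X b Q θ) (hP : CPos P)
    (KG : OkGP P κ F X.c0 X.K0E X.K1E X.eE X.dE X.gE X.LE δ e1 Bb g δ' L' v w0 τ)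
    (KS : OkPS P κ X.c0 et dO B) (hl : 0 ≤ P.lG)
    (hB : ∀ r, r < P.h → BdM_.Bst P P.Bd r (B r) ≤ B (r + 1)) (hc0 : 0 < X.c0) (hF : Frac G F)
    (hT : ∀ φ : List (Fin P.M) → V, ¬ Tree G P.h P.M φ) (col : V → V → Fin κ)
    (hcol : ∀ v u w, G.Adj v u → G.Adj v w → G.Adj u w → col v u ≠ col v w)
    {e2 : ℝ} {L0 N0 RU : ℕ} (KT : OkT P e2 L0) (hg : P.gU ≤ P.g0)
    (hZ : ∀ (s : Fin P.N) (C : Finset (Fin P.N)), Bef P s C →
      (1 + ((its P s C).card : ℝ)) / cst P C.card * P.Z'' C.card ≤ P.Z (C.card + 1))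
    {gN : ℕ} (hgU : (gN : ℝ) + 1 ≤ P.gU) (hN : 0 < P.N) (hN0 : 2 * N0 ≤ P.N) {t : ℝ} (ht : 0 < t)
    {eX : ℝ} (heX : eXS P κ (Fintype.card V) X.c0 et t ≤ eX)
    (hm : P.N * (2 ^ nb P * X.c0) + P.N * eX + 2 * (4 * (14 * (1 / √2) ^ gN)) ≤ 1 / 2)
    (h5 : T5C P.h P.r0 X.qB L0 RU N0)
    (hU : ∀ (m : ℕ) (Y : Finset (Hh P V × V)) (Pl : Finset (Fin P.N)), 1 ≤ m → m < P.h →
      (∀ ω ∈ Y, TyP P G Q θ X.c0 t N0 ω) → kpp P.h P.N ≤ ∑ ω ∈ Y, Q ω → RU ≤ Pl.card →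
      PlU P G θ m Pl Y → False)
    (hBl : ∀ (m : ℕ) (Y : Finset (Hh P V × V)) (Pl : Finset (Fin P.N)) (s : Fin P.N),
      1 ≤ m → m < P.h → (∀ ω ∈ Y, TyP P G Q θ X.c0 t N0 ω) → kpp P.h P.N ≤ ∑ ω ∈ Y, Q ω →
      Pl.card = P.r0 + X.qB → s ∈ Pl → (∀ c ∈ Pl, c ≤ s) →
      PlB P G θ X.qB m (sgP Pl s P.r0) (TP Pl s P.r0) Y → False) : False :=
  topZ h.eqm.Q0 h5
    (ty_half h hP KG KS hl hB hc0 hF hT col hcol hgU hN hN0 ht heX hm)
    (fun ω hω => ty_sgf h hP KG KS hl hB hc0 hF hT col hcol KT hg hZ ω hω) hU hBl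

end

/-- **The pools of type YES are impossible.** -/
theorem Fin_.leafY {V : Type} [Fintype V] {P : Cn} {G : SimpleGraph V} {X : Cx} {b : ℕ → ℕ}
    {Q : Hh P V × V → ℝ} {θ : Tht P V} (h : GEq P G X b Q θ) (hP : CPos P) (he1 : P.e0 < 1)
    (hI : 2 * lv P.I0 ≤ P.e0) {B : ℕ → ℝ} (hc0 : 0 < X.c0) {t : ℝ} (ht : t ≤ P.cA) {N0 : ℕ}
    (hH : ∀ c, qc Q c ≠ 0 → Typ Q X.c0 c →
      HisW P G B (stt P G θ c) (fun s => inpt P θ s c) (wo c))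
    (hth : ∀ c, qc Q c ≠ 0 → Typ Q X.c0 c → ∀ (s : Fin P.N) x, U5 P Q s.1 c 3 x →
      fs P G (inpt P θ s c) x = 0)
    {F : ℝ} (hFr : Frac G F) (hNT : ∀ φ : List (Fin P.M) → V, ¬ Tree G P.h P.M φ)
    (col : ∀ t, ∃ f : V → Fin P.kap, ∀ u w, G.Adj t u → G.Adj t w → G.Adj u w → f u ≠ f w)
    {g₀ : ℕ} {Pm K1 K C1 tau ek : ℝ} {wn Nn : ℕ} {Xx : ℝ}
    (hl0 : X.l0 = X.k.l0) (hv0 : P.g0 + 1 ≤ X.v0) (hw0 : P.w0 + 1 ≤ X.k.w0)
    (hK1 : K1 < X.k.K)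
    (hN : ∀ m < P.h, NrK P g₀ m (4 * (1 / X.c0)) Pm (B m) (√(1 / 2)) X.eth X.d X.et
      ⟨X.k.w0, X.k.l0, X.k.l1, X.k.u, K1, X.k.R1⟩)
    (hty : ∀ m < P.h, TyK P X.qB m (4 * (1 / X.c0)) Pm (√(1 / 2)) X.eth X.d K1 F K C1 tau ek X.ek
      X.v0 wn Nn Xx X.K0)
    (htau : 0 ≤ tau) (hq : X.qB * tau < kpp P.h P.N)
    (m : ℕ) (Y : Finset (Hh P V × V)) (Pl : Finset (Fin P.N)) (s : Fin P.N)
    (hmh : m < P.h) (hY : ∀ ω ∈ Y, TyP P G Q θ X.c0 t N0 ω)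
    (hκ : kpp P.h P.N ≤ ∑ ω ∈ Y, Q ω) (hc : Pl.card = P.r0 + X.qB) (hs : s ∈ Pl)
    (hs' : ∀ c ∈ Pl, c ≤ s) (hPl : PlB P G θ X.qB m (sgP Pl s P.r0) (TP Pl s P.r0) Y) :
    False := by
  have hqc : ∀ ω ∈ Y, qc Q ω.1 ≠ 0 := fun ω hω => h.eqm.qc_ne (x := ω.2) (hY ω hω).q
  have hHY : ∀ ω ∈ Y, HisW P G B (stt P G θ ω.1) (fun s => inpt P θ s ω.1) (wo ω.1) :=
    fun ω hω => hH ω.1 (hqc ω hω) (hY ω hω).typ
  have hst : ∀ j < X.qB, sgP Pl s P.r0 j ≤ s := fun j _ => GmeX1_.sgP_le hs' P.r0 j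
  have hinj : ∀ j < X.qB, ∀ c < j, ∀ c' < j, sgP Pl s P.r0 c = sgP Pl s P.r0 c' → c = c' := by
    intro j hj c hc c' hc' he
    rcases Nat.lt_trichotomy c c' with h1 | h1 | h1
    · exact absurd he (hPl.mono c c' h1 (hc'.trans hj)).ne
    · exact h1
    · exact absurd he (hPl.mono c' c h1 (hc.trans hj)).ne'
  refine bleaf h.eqm (B := B) (t := t) (κ := kpp P.h P.N) (tau := tau) (q := X.qB) (m := m)
    (v0 := X.v0) (d := X.d) (k := X.k) (ε := X.eth) (ρ := √(1 / 2)) (K0 := X.K0) (ek := X.ek)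
    (ek' := ek) (η := X.et) Y (fun ω => TopZ_.gd P G θ ω.1) (fun ω hω => (hY ω hω).q) hHY
    (fun ω hω s _ => (hY ω hω).fct s) ht hκ htau hq hv0 hw0 hPl ?_ hst ?_
  · intro ω hω j hj
    have hc1 := hqc ω hω
    have hty1 := (hY ω hω).typ
    have hHi := hHY ω hω
    have hg := gst_of_geq h hc1 hc0 hty1 (sgP Pl s P.r0 j)
    have hinv := hHi.inv (sgP Pl s P.r0 j) (sgP Pl s P.r0 j).2.le
    have hf := hHi.fct (sgP Pl s P.r0 j)
    have hbef : Bef P (sgP Pl s P.r0 j) (TP Pl s P.r0 j) :=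
      fun c hc => Fin.lt_def.1 (hPl.lt j hj c hc)
    have hR := rfct_of_gst (T := TP Pl s P.r0 j) hg hinv hP he1 hI hbef (fun x hx => by
      rw [hth ω.1 hc1 hty1 _ x hx]
      exact one_pos)
    have hsub : ∀ S' ⊆ range j, img P (sgP Pl s P.r0) S' ⊆ TP Pl s P.r0 j := by
      intro S' hS' c hc
      obtain ⟨i, hi, rfl⟩ := Finset.mem_image.1 hc
      exact hPl.mem j hj i (Finset.mem_range.1 (hS' hi))
    have hT := tfct_of_inv (sg := sgP Pl s P.r0) (j := j) (m := m) (I := inpt P θ (sgP Pl s P.r0 j)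
      ω.1) hinv (hinj j hj) (fun c hc => hPl.mono c j hc hj) hmh.le (fun S' hS' hSm => by
        have h1 := hPl.mst ω hω j hj (img P (sgP Pl s P.r0) S') (hsub S' hS')
          ((card_img P (sgP Pl s P.r0) j (hinj j hj) hS').trans hSm)
        exact h1 (sgP Pl s P.r0 j) (sgP Pl s P.r0 j).2.le fun c hc => hbef c (hsub S' hS' hc))
    exact bout_of_fct hR hT (hN m hmh) hK1 (hty m hmh) hj hmh (hinj j hj)
      (fun c hc => hPl.mem j hj c hc) (hg.sm 3).le hFr hNT col hf.sub hf.thin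
  · intro ω hω hmem
    have h1 : ω.2 ∈ XPo P G X Pl m s ω.1 θ := by
      unfold XPo
      rw [hl0]
      exact XPc_.bf_sub (fun _ hj => exq_fun hj) (fun _ hj => exq_fun hj) θ hmem.2
    exact h.not_xpo (hqc ω hω) hs hs' hc ⟨m, hmh⟩ (h.eqm.mem_wo (hY ω hω).q (by
      have := s.2
      omega)) h1

namespace Fin_

/-- The atoms are small for the own masses. -/
theorem atm_le {h M κ : ℕ} {F : ℝ} {R : ℕ} {f : Fa} {D : Wd} {k : Kd}
    (ha : OkKa h M F R f k.toKa) (hd : OkKd h M κ F D k) :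
    κ * M * (2 * (k.xi2 / k.c0) / k.eps1) ≤ k.del / 4 := by
  have h1 := ha.c0_pos
  have h2 := ha.eps_pos
  have h3 := ha.del_pos
  have hn : (0 : ℝ) ≤ κ * M := by positivity
  have h4 : k.xi2 ≤ k.c0 * k.eps1 * k.del / (16 * (κ * M + 1)) :=
    hd.ux2.trans (min_le_left _ _)
  have h5 : κ * M * (2 * (k.xi2 / k.c0) / k.eps1) ≤
      κ * M * (2 * (k.c0 * k.eps1 * k.del / (16 * (κ * M + 1)) / k.c0) / k.eps1) := by
    gcongr
  have h6 : κ * M * (2 * (k.c0 * k.eps1 * k.del / (16 * (κ * M + 1)) / k.c0) / k.eps1) =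
      κ * M / (κ * M + 1) * (k.del / 8) := by
    field_simp
    ring
  have h7 : (κ * M / (κ * M + 1) : ℝ) ≤ 1 := by
    rw [div_le_one (by linarith)]
    linarith
  rw [h6] at h5
  nlinarith

/-- The atoms are small for the last step. -/
theorem cov_le {h M κ : ℕ} {F : ℝ} {R : ℕ} {f : Fa} {D : Wd} {k : Kd}
    (ha : OkKa h M F R f k.toKa) (hd : OkKd h M κ F D k) :
    8 * (κ * M * (k.xi2 / k.c0)) / k.cP (h - 1) ≤ k.et := by
  have h1 := ha.c0_pos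
  have h2 := ha.cPpos (h - 1)
  have h3 := ha.et_pos
  have hn : (0 : ℝ) ≤ κ * M := by positivity
  have h4 : k.xi2 ≤ k.c0 * k.et * k.cP (h - 1) / (16 * (κ * M + 1)) :=
    hd.ux2.trans (min_le_right _ _)
  have h5 : 8 * (κ * M * (k.xi2 / k.c0)) / k.cP (h - 1) ≤
      8 * (κ * M * (k.c0 * k.et * k.cP (h - 1) / (16 * (κ * M + 1)) / k.c0)) / k.cP (h - 1) := by
    gcongr
  have h6 : 8 * (κ * M * (k.c0 * k.et * k.cP (h - 1) / (16 * (κ * M + 1)) / k.c0)) /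
      k.cP (h - 1) = κ * M / (κ * M + 1) * (k.et / 2) := by
    field_simp
    ring
  have h7 : (κ * M / (κ * M + 1) : ℝ) ≤ 1 := by
    rw [div_le_one (by linarith)]
    linarith
  rw [h6] at h5
  nlinarith

end Fin_

/-- One graph. -/
theorem fin_one {h M κ : ℕ} {F : ℝ} {R : ℕ} {D : Wd} {k : Kon} (hk : Ok h M κ F R D k)
    (h2 : 2 ≤ h) (hM : 1 ≤ M) {V : Type} [Fintype V] {G : SimpleGraph V}
    (hG : FinK G h M κ F) {I0 : ℕ} {e0 : ℝ}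
    (hf : FinOk (Fintype.card V) (32 / k.c0 / k.et) e0 I0) {Q : Hh (cn h M κ k.toKd I0 e0) V × V → ℝ}
    {θ : Tht (cn h M κ k.toKd I0 e0) V}
    (hE : GEq (cn h M κ k.toKd I0 e0) G (cx k.toKd) k.b Q θ) : False := by
  choose col hcol using hG.nbc
  have hc := hk.c
  have ha := hc.a
  have hd := hk.d
  have hb := hc.c.b
  have hP : CPos (cn h M κ k.toKd I0 e0) := hc.cpos hf.pos
  have he1 : e0 < 1 := hf.lt_one
  have hI0 : 2 * lv I0 ≤ e0 := hf.lv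
  have hKG := hd.g (cn h M κ k.toKd I0 e0) rfl rfl rfl rfl rfl rfl rfl rfl rfl rfl rfl
  have hatm := Fin_.atm_le ha hd
  have hcov := Fin_.cov_le ha hd
  have hfl : (Fintype.card V : ℝ) * (2 * (1 / k.c0) * (16 * e0)) ≤ k.et := by
    refine le_trans (le_of_eq ?_) (hf.floor ha.et_pos (K := 32 / k.c0) le_rfl)
    ring
  have hKS := hc.okPS (k := k.toKd) (I0 := I0) hM he1 hI0 hatm hd.xi2.le
  have hP0 := okP0_cn (κ := κ) (k := k.toKd) ha I0 e0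
  have hB : ∀ r, r < h → BdM_.Bst (cn h M κ k.toKd I0 e0) (cn h M κ k.toKd I0 e0).Bd r (k.B r) ≤
    k.B (r + 1) := fun r _ => hc.bst r
  have hFr : Frac G F := hG.frac
  have hNT : ∀ φ : List (Fin M) → V, ¬ Tree G h M φ := hG.nt
  have hH := fun c hc' hTy => his_of_geq hE hP hKG hKS hc.lG0 hB ha.c0_pos hFr hNT col hcol
    (c := c) hc' hTy
  have hT : OkT (cn h M κ k.toKd I0 e0) (k.cP 1) k.L0 := hP0.okT h2
  have hS := fun ω hω => ty_sgf hE hP hKG hKS hc.lG0 hB ha.c0_pos hFr hNT col hcol hT ha.gU_le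
    (fun s C _ => hc.hZ hf.pos s C) (N0 := k.N0) (t := k.cA / 4) ω hω
  refine fin_core hE hP hKG hKS hc.lG0 hB ha.c0_pos hFr hNT col hcol hT ha.gU_le
    (fun s C _ => hc.hZ hf.pos s C) (N0 := k.N0) (RU := k.RU) (gN := 38) (t := k.cA / 4)
    (eX := FinM_.eX k.N k.et) ?_ ?_ ha.N_ge ?_ ?_ ?_ hP0.t5c ?_ ?_
  · show ((38 : ℕ) : ℝ) + 1 ≤ k.gU
    rw [ha.gU_eq]
    norm_num
  · exact ha.N1
  · exact div_pos ha.cA_pos (by norm_num)
  · exact FinM_.fct_le ha.cA_pos hfl hcov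
  · exact FinM_.mass ha
  · intro m Y Pl _ _ hY hκ hR hPl
    refine leafU hE.eqm hE.dom hP hKG.xi h2 hH hS (hP0.ucst hf.pos he1 ?_ hb.xiU hb.xid) hP0.uc
      hFr hNT ha.delU_pos.le ?_ m Y Pl hY hκ hR hPl
    · rw [← Hts_.two_lv]
      exact hI0
    · have := OkKa.remU ha
      show k.kU + k.N * (16 * k.delU) ≤ kpp h k.N
      linarith
  · intro m Y Pl s _ hm hY hκ hPc hs hs' hPl
    exact Fin_.leafY hE hP he1 hI0 ha.c0_pos (t := k.cA / 4) (by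
        have := ha.cA_pos
        show k.cA / 4 ≤ k.cA
        linarith) hH
      (fun c hc' hTy s x hx => (thin_of_geq hE hP hKG hKS ha.c0_pos hFr hNT col hcol hc' hTy s x
        hx).2) hFr hNT (fun v => ⟨col v, hcol v⟩) rfl (hc.g42 I0 e0) (hc.w0 I0 e0) hc.K1K
      (fun m hm => hc.nrK (k := k.toKd) hM I0 e0 hm) (fun m _ => hc.tyK I0 e0 m)
      (mul_nonneg (by norm_num) ha.et_pos.le) hc.tau m Y Pl s hm hY hκ hPc hs hs' hPl


theorem xNum_ok {h M κ : ℕ} {F : ℝ} {R : ℕ} {D : Wd} {k : Kon} (hk : Ok h M κ F R D k) (I0 : ℕ)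
    (e0 : ℝ) : XNum D h R (cn h M κ k.toKd I0 e0) (cx k.toKd) k.C where
  hP := le_rfl
  xi1 := hk.d.xi1
  at1 := hk.Cat
  K0E := hk.d.K0E
  eE := hk.d.eE
  dE := hk.d.dE
  CE := hk.CE
  qR := hk.c.a.qB_eq.ge
  qr := hk.c.a.qBr
  K0 := by
    show 0 < Knc k.c0 + 1
    linarith [one_le_Knc (c0 := k.c0)]
  ek := hk.c.c.b.ex0
  w0 := hk.c.c.b.vw
  u := hk.c.c.b.uw
  et m hm := hk.c.c.b.etaB m hm
  CB m hm := hk.CB m hm.le

/-- **The interface for the game.** -/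
theorem stFin : StFin := by
  intro h M κ F h2 hM _ hF R D
  obtain ⟨k, hk⟩ := exists_ok exists_okG h M κ F R D (by omega) (by omega) hF
  refine ⟨k.b 0, fun V _ G hGr hW => ?_⟩
  by_contra hcol
  have hV : Nonempty V := GmeX_.nonempty_of hcol
  obtain ⟨e0, I0, hf, -⟩ := exists_finOk (Fintype.card V) (32 / k.c0 / k.et) 1
  have hup := fun b => (hk.d.g (cn h M κ k.toKd I0 e0) rfl rfl rfl rfl rfl rfl rfl rfl rfl rfl
    rfl).up b
  have hatm := Fin_.atm_le hk.c.a hk.d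
  have hKS := hk.c.okPS (k := k.toKd) (I0 := I0) (e0 := e0) (by omega) hf.lt_one hf.lv hatm
    hk.d.xi2.le
  obtain ⟨Q, θ, hE⟩ := gEq_of_win (b := k.b) hW (xNum_ok hk I0 e0) (hk.c.cpos hf.pos)
    (fun b => (hup b).th) (fun b => one_pos.trans_le (hup b).Gu) (fun b => (hup b).Lu)
    hKS.Lam hKS.Lam' (fun s hs => by
      rw [GmeX_.card_xi]
      exact hk.siz.step s hs) hcol
  exact fin_one hk h2 (by omega) hGr hf hE

end Pool.Agent.Lib.GSX
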