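import Pool.Agent.Lib.GSX.Gme
import Pool.Agent.Lib.GSX.At4
import Pool.Agent.Lib.GSX.InpC

/-!
# The small sets and the worlds of the game

The arguments of `exists_eqm` which belong to the colourability: the notion of smallness, the
worlds without the isolated vertices, the number of colours of the small sets.
-/

set_option autoImplicit false

namespace Pool.Agent.Lib.GSX

open Finset Classical
open Pool.Agent.Lib.GSR Pool.Agent.Lib.GSR.HZ Pool.Agent.Lib.GSR.HZB
open Pool.Agent.Lib.TCW (ColG Cst)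

namespace GmeX_

section

variable {V : Type}

theorem colF_iff {G : SimpleGraph V} {W : Finset V} {n : ℕ} :
    colF G W n ↔ ColG G {v | v ∈ W} n := Iff.rfl

theorem colF_s (G : SimpleGraph V) : ColS (colF G) where
  emp := by
    rw [colF_iff]
    exact (ColG.empty G).mono (fun v hv => by simp at hv) le_rfl
  mono A B n m hAB hnm h := by
    rw [colF_iff] at h ⊢
    exact h.mono (fun v hv => hAB hv) hnm
  union A B n m hA hB := by
    rw [colF_iff] at hA hB ⊢
    exact (ColG.union hA hB).mono (fun v hv => by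
      rcases Finset.mem_union.1 hv with h | h
      · exact Or.inl h
      · exact Or.inr h) le_rfl

theorem colF_filter {G : SimpleGraph V} (W : Finset V) {p : V → Prop} {d : DecidablePred p}
    {n m : ℕ} (h : ColG G {v | p v} n) (hnm : n ≤ m) : colF G (@Finset.filter V p d W) m := by
  rw [colF_iff]
  exact h.mono (fun _ hv => (Finset.mem_filter.1 hv).2) hnm

theorem not_colF_univ [Fintype V] {G : SimpleGraph V} {n : ℕ} (h : ¬ ColG G Set.univ n) :
    ¬ colF G Finset.univ n := fun h1 =>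
  h ((colF_iff.1 h1).mono (fun v _ => Finset.mem_univ v) le_rfl)

theorem nonempty_of {G : SimpleGraph V} {n : ℕ} (h : ¬ ColG G Set.univ n) : Nonempty V := by
  by_contra hcon
  rw [not_nonempty_iff] at hcon
  exact h ⟨fun _ => 0, fun v _ => (hcon.false v).elim, fun v _ => (hcon.false v).elim⟩

end

section

variable {V : Type} [Fintype V] {P : Cn} {G : SimpleGraph V} {X : Cx}

theorem nxw_sub (s : ℕ) (p : Hh P V) : nxw P G s p ⊆ wo p s := Finset.filter_subset _ _

theorem nxw_pf (s : ℕ) (p : Hh P V) : nxw P G s (pf s p) = nxw P G s p := by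
  unfold nxw
  rw [wo_pf le_rfl]

/-- The isolated vertices of a world are colourable with one colour. -/
theorem nxw_iso (s : ℕ) (p : Hh P V) : colF G (wo p s \ nxw P G s p) 1 := by
  rw [colF_iff]
  refine (colG_iso G (wo p s)).mono (fun v hv => ?_) le_rfl
  have h1 := Finset.mem_sdiff.1 hv
  refine ⟨h1.1, fun y hy hvy => h1.2 ?_⟩
  exact Finset.mem_filter.2 ⟨h1.1, y, hy, hvy⟩

/-- The step of the sizes. -/
theorem hb_nxw {b C : ℕ → ℕ} {K : ℕ}
    (hb : ∀ s < P.N, 1 + K * (Fintype.card (Xi P) * C s + b (s + 1)) ≤ b s) :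
    ∀ s < P.N, ∀ c : Hh P V, ¬ colF G (wo c s) (b s) →
      ¬ colF G (nxw P G s (pf s c)) (K * (Fintype.card (Xi P) * C s + b (s + 1))) := by
  intro s hs c hc h
  rw [nxw_pf] at h
  refine hc ((colF_s G).mono _ _ _ _ ?_ (hb s hs) ((colF_s G).union _ _ _ _ (nxw_iso s c) h))
  intro v hv
  rw [Finset.mem_union, Finset.mem_sdiff]
  by_cases h3 : v ∈ nxw P G s c
  · exact Or.inr h3
  · exact Or.inl ⟨hv, h3⟩

/-- The number of the colours of the atoms. -/
theorem xat_col (hx : 0 < P.xi1) {θ : Tht P V} (hθ : θ ∈ DomT P V) (s : Fin P.N) (p : Hh P V) :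
    ColG G (XAt P G (inpt P θ s p)) ⌈1 / P.xi1⌉₊ :=
  colG_atoms G (InpC_.inpt_ipos hθ s p).n1 hx

/-- The small sets are colourable with `Cs` colours. -/
theorem xst_col {Cs : ℕ} {θ : Tht P V}
    (h1 : ∀ s p, ColG G (XAt P G (inpt P θ s p)) Cs)
    (h2 : ∀ s p, ColG G (XEqR P G (inpt P θ s p) X.K0E X.K1E X.eE X.dE X.gE X.LE) Cs)
    (h3 : ∀ (Q : Finset (Fin P.N)) (m : Fin P.h) (s : Fin P.N) (p : Hh P V), s ∈ Q →
      (∀ c ∈ Q, c ≤ s) → Q.card = P.r0 + X.qB → ColG G (XPo P G X Q m s p θ) Cs)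
    (s : ℕ) (i : Xi P) (p : Hh P V) (A : Finset V) {d : DecidablePred fun v => Xst P G X s i p v θ} :
    colF G (@Finset.filter V (fun v => Xst P G X s i p v θ) d A) Cs := by
  refine colF_filter A ?_ le_rfl
  by_cases hs : s < P.N
  · match i with
    | .inl 0 => exact (h1 ⟨s, hs⟩ p).mono (fun v ⟨_, hv⟩ => hv) le_rfl
    | .inl 1 => exact (h2 ⟨s, hs⟩ p).mono (fun v ⟨_, hv⟩ => hv) le_rfl
    | .inr (Q, m) =>
      by_cases hQ : (⟨s, hs⟩ : Fin P.N) ∈ Q ∧ (∀ c ∈ Q, c ≤ ⟨s, hs⟩) ∧ Q.card = P.r0 + X.qB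
      · exact (h3 Q m ⟨s, hs⟩ p hQ.1 hQ.2.1 hQ.2.2).mono (fun v ⟨_, hv⟩ => hv.2) le_rfl
      · exact (ColG.empty G).mono (fun v ⟨_, hv⟩ => absurd hv.1 hQ) (Nat.zero_le _)
  · exact (ColG.empty G).mono (fun v ⟨h, _⟩ => absurd h hs) (Nat.zero_le _)

/-- The number of the small sets. -/
theorem card_xi (P : Cn) : Fintype.card (Xi P) = 2 + 2 ^ P.N * P.h := by
  rw [Fintype.card_sum, Fintype.card_prod, Fintype.card_finset, Fintype.card_fin,
    Fintype.card_fin, Fintype.card_fin]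

/-- The number of the bits. -/
theorem nb_eq (P : Cn) : nb P = 1 + 2 * (P.h * 3) + 1 + 6 * (2 ^ P.N * 2 ^ P.N) := by
  show gr4 (Fin 1) (K2 P) (Fin 1) (K4 P) = _
  unfold gr4
  simp only [Fintype.card_prod, Fintype.card_finset, Fintype.card_fin]

end

end GmeX_

end Pool.Agent.Lib.GSX
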