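import Pool.Agent.Lib.GSX.GstI
import Pool.Agent.Lib.GSX.Gme

/-!
# The stages of a typical history of the game

`gst_of_geq`: at the equilibrium of the game every stage of a typical history satisfies `Gst`.
-/

set_option autoImplicit false

namespace Pool.Agent.Lib.GSX

open Finset Classical
open Pool.Agent.Lib.GSR Pool.Agent.Lib.GSR.HZ Pool.Agent.Lib.GSR.HZB

variable {V : Type} [Fintype V] {P : Cn} {G : SimpleGraph V} {X : Cx} {b : ℕ → ℕ}
  {Q : Hh P V × V → ℝ} {θ : Tht P V}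

namespace GstG_

/-- The best replies. -/
theorem opt (h : GEq P G X b Q θ) : BestI_.Opt P G θ where
  mem i := h.dom.2 i (Set.mem_univ _)
  max i := by
    have h1 := h.best i
    cases i <;> exact h1

theorem nxw_pf {s : ℕ} {c : Hh P V} {x : V} (hx : x ∈ nxw P G s (pf s c)) :
    ∃ z ∈ wo c s, G.Adj x z := by
  unfold nxw at hx
  rw [Finset.mem_filter, wo_pf le_rfl] at hx
  exact hx.2

/-- The atoms at the half prefix. -/
theorem xat_hp (s : Fin P.N) (c : Hh P V) :
    XAt P G (inpt P θ s (hp s g1 c)) = XAt P G (inpt P θ s c) := by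
  unfold XAt
  rw [(inpt_n1 (P := P) (θ := θ) (s := s) le_rfl c).1]

theorem hs_hp (s : Fin P.N) (j : ℕ) (c : Hh P V) :
    hs P G (inpt P θ s (hp s j c)) = hs P G (inpt P θ s c) := by
  funext x
  unfold hs
  rw [al_hp]

/-- The windows of equal heights at the half prefix. -/
theorem xeq_hp (s : Fin P.N) (c : Hh P V) (K0 K1 e d g L : ℝ) :
    XEqR P G (inpt P θ s (hp s (g2 P) c)) K0 K1 e d g L =
      XEqR P G (inpt P θ s c) K0 K1 e d g L := by
  unfold XEqR
  rw [hs_hp, al_hp, (inpt_n0 (P := P) (θ := θ) s (g2 P) c).1, inpt_n2 le_rfl]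

theorem thF_hp (s : Fin P.N) (c : Hh P V) (c0 : ℝ) :
    thF P G (inpt P θ s (hp s (g2 P) c)) c0 = thF P G (inpt P θ s c) c0 := by
  have h1 : ∀ i v, Db P G (inpt P θ s (hp s (g2 P) c)) (inpt P θ s (hp s (g2 P) c)).n2 i v =
      Db P G (inpt P θ s c) (inpt P θ s c).n2 i v := by
    intro i v
    unfold Db
    rw [hs_hp, al_hp, inpt_n2 le_rfl]
  funext v
  unfold thF
  simp only [h1]

/-- The functions of the bits on a history. -/
theorem gs_eq (s : Fin P.N) (c : Hh P V) (β : Bt P) (x : V) :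
    Gs P G X s.1 β (hp s.1 (lev β) c) x θ =
      gsv P G X.c0 s (stt P G θ c s) (inpt P θ s c) β x := by
  have h0 : ∀ p : Hh P V, Gs P G X s.1 β p x θ =
      sde P G X (stt P G θ p s) (inpt P θ s p) β x := fun p => dif_pos s.2
  rw [h0]
  rcases β with ((β | ⟨a, j, i⟩) | β) | ⟨i, T, C⟩
  · obtain ⟨-, h1, -⟩ := inpt_n0 (P := P) (θ := θ) s 0 c
    have h2 := al_hp (P := P) (G := G) (θ := θ) s 0 c
    show (inpt P θ s (hp s.1 0 c)).n0 x - P.xi2 * al P G (inpt P θ s (hp s.1 0 c)) x = _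
    rw [h1, h2]
    rfl
  · have h1 := BestI_.upi_hp (P := P) (G := G) (θ := θ) s a c (le_refl g1)
    have h2 := BestI_.upx_hp (P := P) (G := G) (θ := θ) s a c (le_refl g1) j
    have h3 := al_hp (P := P) (G := G) (θ := θ) s g1 c
    fin_cases i
    · show upA G (upi P G (inpt P θ s (hp s.1 g1 c)) a) j
          (upx P G (inpt P θ s (hp s.1 g1 c)) a j) x -
            2 * P.th a * al P G (inpt P θ s (hp s.1 g1 c)) x = _
      rw [h1, h2, h3]
      rfl
    · show upSh G (upi P G (inpt P θ s (hp s.1 g1 c)) a) j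
          (upx P G (inpt P θ s (hp s.1 g1 c)) a j) x - 3 / 8 = _
      rw [h1, h2]
      rfl
    · show upg G (upi P G (inpt P θ s (hp s.1 g1 c)) a) j
          (upx P G (inpt P θ s (hp s.1 g1 c)) a j) x - P.Bu a = _
      rw [h1, h2]
      rfl
  · show thF P G (inpt P θ s (hp s.1 (g2 P) c)) X.c0 x = _
    rw [thF_hp]
    rfl
  · have h1 : inpt P θ s (hp s.1 (g3 P) c) = inpt P θ s c := BestI_.inpt_g3 s c
    have h2 : stt P G θ (hp s.1 (g3 P) c) s = stt P G θ c s := stt_hp le_rfl c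
    show sdK P G (stt P G θ (hp s.1 (g3 P) c) s) (inpt P θ s (hp s.1 (g3 P) c)) (i, T, C) x = _
    rw [h1, h2]
    fin_cases i <;> rfl

theorem sxi_le (i : Xi P) : sxi P i ≤ nb P := by
  have h1 := g1_le_g2 P
  have h2 := (g2_lt_g3 P).le
  have h3 := g3_le_nb P
  rcases i with i | i
  · fin_cases i
    · exact h1.trans (h2.trans h3)
    · exact h2.trans h3
  · exact h3

end GstG_

open GstG_

/-- **Every stage of a typical history of the game satisfies `Gst`.** -/
theorem gst_of_geq (h : GEq P G X b Q θ) {c : Hh P V} (hc : qc Q c ≠ 0) (hc0 : 0 < X.c0)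
    (hT : Typ Q X.c0 c) (s : Fin P.N) :
    Gst P G X.c0 (XEqR P G (inpt P θ s c) X.K0E X.K1E X.eE X.dE X.gE X.LE) s (stt P G θ c s)
      (inpt P θ s c) (n4t P θ s c) (U5 P Q s.1 c) (wo c (s.1 + 1)) := by
  have hE : Eqm (colF G) (mkTsB b (nxw P G) (sxi P) (Xst P G X) (Gs P G X)) Q θ := h.eqm
  refine gst_of hE h.dom (opt h) hc hc0 hT s (fun x hx => nxw_pf hx) ?_ ?_
    (fun β x => gs_eq s c β x)
  · intro x hx
    have h1 := us_exact hE sxi_le s.2 (i := (.inl 0 : Xi P)) (k := g1) le_rfl hx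
    by_contra h2
    rw [not_le] at h2
    refine h1 ⟨s.2, ?_⟩
    show x ∈ XAt P G (inpt P θ s (hp s.1 g1 c))
    rw [xat_hp]
    exact h2
  · intro x hx h2
    have h1 := us_exact hE sxi_le s.2 (i := (.inl 1 : Xi P)) (k := g2 P) le_rfl hx
    refine h1 ⟨s.2, ?_⟩
    show x ∈ XEqR P G (inpt P θ s (hp s.1 (g2 P) c)) X.K0E X.K1E X.eE X.dE X.gE X.LE
    rw [xeq_hp]
    exact h2

end Pool.Agent.Lib.GSX
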