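import Pool.Agent.Lib.GSX.UInst
import Pool.Agent.Lib.GSX.T5
import Pool.Agent.Lib.GSX.KTools

/-!
# The constants of the game, first block: unlinked stages, pools, ranks, typical histories

The constants of this block depend on `h M F R` only (and on the number `nb` of the bits of a stage
and the number `nt` of the tests, which are functions of the number `N` of the stages and of the
size `r0` of the items, and on the factors `Ke`, `Kd`).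

Order: `gU g0 r0 qB | wU RU e3U | w0 | cP 1 | L0 | cP j | cA | N0 N | kU | e1U xiU | c0 |
et | eps1 | del delU`.
-/

set_option autoImplicit false

namespace Pool.Agent.Lib.GSX

open Finset Classical
open Pool.Agent.Lib.GSR3 (Tree)
open Pool.Agent.Lib.FGF (Frac)

/-- The conclusion of `t5` for given constants. -/
def T5C (h r q L0 R N0 : ℕ) : Prop :=
  ∀ (N : ℕ) (Ω : Type) (w : Ω → ℝ) (Ty : Finset Ω) (T : Ω → Finset (Fin N))
    (M : Ω → Finset (Fin N) → Prop) (P B I : Ω → Finset (Fin N) → Fin N → Prop),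
    (∀ ω, 0 ≤ w ω) →
    (∀ ω ∈ Ty, N0 ≤ (T ω).card ∧ SgF h L0 (M ω) (P ω) (B ω) (T ω)) →
    1 / 2 ≤ ∑ ω ∈ Ty, w ω →
      ∃ (m : ℕ) (X : Finset Ω), 1 ≤ m ∧ m < h ∧ X ⊆ Ty ∧ kpp h N ≤ ∑ ω ∈ X, w ω ∧
        ((∃ Q : Finset (Fin N), R ≤ Q.card ∧ PoolU r T M P B I m Q X) ∨
          ∃ (Q : Finset (Fin N)) (s : Fin N), Q.card = r + q ∧ s ∈ Q ∧ (∀ c ∈ Q, c ≤ s) ∧
            PoolB r q T M P B I m (sgP Q s r) (TP Q s r) X)

theorem exists_t5C (h r q L0 R : ℕ) (h1 : 1 ≤ h) (hq1 : 1 ≤ q) (hq : q ≤ r + 1) :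
    ∃ N0 : ℕ, T5C h r q L0 R N0 :=
  t5 h r q L0 R h1 hq1 hq

/-- The inequalities of the block.  `gU`, `g0`: absolute window, own window;  `r0`, `qB`: size of the
items, number of the stages of a window;  `wU RU e3U e1U xiU`: the constants of `uinst` for the mass
`kU`;  `w0`: window of the heights;
`cP`, `cA`: thresholds of the scores;  `L0`: the sets of the averaging lemma;  `N0`, `N`: number of
the good stages, of all stages;  `c0`: typical histories;  `et`: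
exceptional masses;  `eps1`: items;  `del`, `delU`: own masses of the cells, of the main labels. -/
structure OkK0 (h M : ℕ) (F : ℝ) (R : ℕ) (nb nt : ℕ → ℕ → ℕ) (Ke Kd : ℕ → ℝ → ℝ)
    (gU g0 : ℝ) (r0 qB : ℕ) (wU : ℝ) (RU : ℕ) (e3U e1U xiU w0 : ℝ) (cP : ℕ → ℝ) (cA : ℝ)
    (L0 N0 N : ℕ) (kU c0 et eps1 del delU : ℝ) : Prop where
  gU_eq : gU = 40
  g0_eq : g0 = gU + 1
  gUe : 112 * (2 : ℝ) ^ (-gU / 2) ≤ 1 / 64
  gU_nonneg : 0 ≤ gU
  gU_le : gU ≤ g0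
  r0_eq : r0 = R + 1
  qB_eq : qB = R + 1
  w1 : 1 ≤ wU
  w0_ge : Real.logb 2 wU + 4 ≤ w0
  w0g : g0 + 4 ≤ w0
  g0n : ((41 : ℕ) : ℝ) = g0
  w0n : ∃ n : ℕ, (n : ℝ) = w0
  e3_pos : 0 < e3U
  /-- low hubs -/
  e3r : 2 * (r0 : ℝ) * cP 1 ≤ e3U
  e3r' : (r0 : ℝ) * (5 / 4 * cP 1) ≤ e3U
  cP0 : cP 0 = 1 / 8
  cPpos : ∀ j, 0 < cP j
  cPle : ∀ j, cP j ≤ 1 / 8
  cP1 : cP 1 ≤ 1 / 64
  cPle1 : ∀ j, 1 ≤ j → cP j ≤ cP 1
  /-- the averaging lemma -/
  avg : 4 * (h : ℝ) ≤ cP 1 * L0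
  cPj : ∀ j, 2 ≤ j → cP j ≤ cP 1 / (4 * (L0 : ℝ) ^ j)
  L0_pos : 1 ≤ L0
  cA_pos : 0 < cA
  cA1 : cA ≤ 1 / 8
  cAs : 32 * (r0 : ℝ) ^ h * cA ≤ 1
  cAr : ∀ m, m ≤ h → 32 * (r0.choose m : ℝ) * cA ≤ 1
  cA2 : 8 * (2 : ℝ) ^ qB * cA ≤ 1
  qB1 : 1 ≤ qB
  qBr : qB ≤ r0 + 1
  top : T5C h r0 qB L0 RU N0
  N_ge : 2 * N0 ≤ N
  N1 : 1 ≤ N
  kU_pos : 0 < kU
  kU1 : 16 * kU ≤ kpp h N
  kU2 : kU ≤ 1 / 16
  ule : UC M h r0 F gU wU RU e3U kU e1U xiU
  e1_pos : 0 < e1U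
  xi_pos : 0 < xiU
  c0_pos : 0 < c0
  c01 : c0 ≤ 1 / 16
  c0N : N * (2 ^ nb N r0 * c0) ≤ kU / 16
  et_pos : 0 < et
  et1 : et ≤ 1 / 64
  etc : 64 * et ≤ c0
  etk : (nt N r0 : ℝ) * et ≤ kU / 64
  etp : ∀ j, j ≤ h → 64 * et ≤ cP j
  eta : 64 * et ≤ cA
  eps_pos : 0 < eps1
  eps_le : eps1 ≤ 1 / 64
  epsU : Ke N c0 * eps1 ≤ e1U
  epsU1 : eps1 ≤ e1U
  del_pos : 0 < del
  del1 : del ≤ 1 / 64
  dele : Kd N c0 * del ≤ et
  dele64 : 64 * del ≤ et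
  delU_pos : 0 < delU
  delU1 : delU ≤ 1 / 64
  delUe : Kd N c0 * delU ≤ et
  delUe64 : 64 * delU ≤ et

theorem exists_okK0 (h M : ℕ) (F : ℝ) (R : ℕ) (h1 : 1 ≤ h) (hF : 1 ≤ F) (nb nt : ℕ → ℕ → ℕ)
    (Ke Kd : ℕ → ℝ → ℝ) : ∃ (gU g0 : ℝ) (r0 qB : ℕ) (wU : ℝ) (RU : ℕ)
    (e3U e1U xiU w0 : ℝ) (cP : ℕ → ℝ) (cA : ℝ) (L0 N0 N : ℕ) (kU c0 et eps1 del delU : ℝ),
    OkK0 h M F R nb nt Ke Kd gU g0 r0 qB wU RU e3U e1U xiU w0 cP cA L0 N0 N kU c0 et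
      eps1 del delU := by
  obtain ⟨w, RU, e3, hw, he3, hU⟩ := uinst M h (R + 1) F 40 hF (by norm_num)
  -- the thresholds
  obtain ⟨c1, hc1, hc2, hc3⟩ := (sm_pos.and ((sm_mul (2 * ((R + 1 : ℕ) : ℝ)) he3).and
    (sm_le (show (0 : ℝ) < 1 / 64 by norm_num)))).exists
  obtain ⟨L0, hL0, hL1⟩ := ((nt_mul (4 * (h : ℝ)) hc1).and (nt_ge 1)).exists
  have hL2 : (1 : ℝ) ≤ L0 := by exact_mod_cast hL1
  obtain ⟨cA, hcA, hcA1, hcA4, hcA2, hcA3⟩ := (sm_pos.and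
    ((sm_le (show (0 : ℝ) < 1 / 8 by norm_num)).and
    ((sm_mul (8 * (2 : ℝ) ^ (R + 1)) one_pos).and
    ((sm_mul (32 * ((R + 1 : ℕ) : ℝ) ^ h) one_pos).and
    (ev_lt (h + 1) (P := fun m x => 32 * ((R + 1).choose m : ℝ) * x ≤ 1)
      fun m _ => sm_mul _ one_pos))))).exists
  obtain ⟨N0, hN0⟩ := exists_t5C h (R + 1) (R + 1) L0 RU h1 (by omega) (by omega)
  obtain ⟨N, hN⟩ : ∃ N : ℕ, N = 2 * N0 + 1 := ⟨_, rfl⟩
  obtain ⟨kU, hk0, hk1, hk2⟩ := (sm_pos.and ((sm_mul 16 (kpp_pos h1 N)).and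
    (sm_le (show (0 : ℝ) < 1 / 16 by norm_num)))).exists
  obtain ⟨e1, xi, he1, hxi, hule⟩ := hU kU hk0
  obtain ⟨c0, hc01, hc02, hc03⟩ := (sm_pos.and ((sm_le (show (0 : ℝ) < 1 / 16 by norm_num)).and
    (sm_mul ((N : ℝ) * 2 ^ nb N (R + 1)) (show 0 < kU / 16 by positivity)))).exists
  obtain ⟨cP, hcP⟩ : ∃ cP : ℕ → ℝ, cP = cPs c1 L0 := ⟨_, rfl⟩
  have hcP0 : cP 0 = 1 / 8 := by rw [hcP]; rfl
  have hcP1 : cP 1 = c1 := by rw [hcP]; simp [cPs]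
  have hcP2 : ∀ j, 2 ≤ j → cP j = c1 / (4 * (L0 : ℝ) ^ j) := by
    intro j hj
    rw [hcP, cPs, if_neg (by omega), if_neg (by omega)]
  have hpos : ∀ j, 0 < cP j := by
    intro j
    rcases Nat.lt_or_ge j 2 with h2 | h2
    · interval_cases j
      · rw [hcP0]; norm_num
      · rw [hcP1]; exact hc1
    · rw [hcP2 j h2]
      positivity
  have hle1 : ∀ j, 1 ≤ j → cP j ≤ c1 := by
    intro j hj
    rcases Nat.lt_or_ge j 2 with h2 | h2
    · obtain rfl : j = 1 := by omega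
      exact hcP1.le
    · rw [hcP2 j h2]
      have h3 : (1 : ℝ) ≤ (L0 : ℝ) ^ j := one_le_pow₀ hL2
      rw [div_le_iff₀ (by positivity)]
      nlinarith
  obtain ⟨et, het0, het1, het2, het3, het4, het5⟩ := (sm_pos.and
    ((sm_le (show (0 : ℝ) < 1 / 64 by norm_num)).and
    ((sm_mul 64 hc01).and
    ((sm_mul (nt N (R + 1) : ℝ) (show 0 < kU / 64 by positivity)).and
    ((ev_lt (h + 1) (P := fun j x => 64 * x ≤ cP j) fun j _ => sm_mul _ (hpos j)).and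
    (sm_mul 64 hcA)))))).exists
  obtain ⟨eps, hep0, hep1, hep2, hep3⟩ := (sm_pos.and
    ((sm_le (show (0 : ℝ) < 1 / 64 by norm_num)).and
    ((sm_mul (Ke N c0) he1).and (sm_le he1)))).exists
  obtain ⟨del, hd0, hd1, hd2, hd3⟩ := (sm_pos.and
    ((sm_le (show (0 : ℝ) < 1 / 64 by norm_num)).and
    ((sm_mul (Kd N c0) het0).and (sm_mul 64 het0)))).exists
  obtain ⟨W, hW1, hW2⟩ := ((nt_geR (Real.logb 2 w + 4)).and (nt_geR ((40 : ℝ) + 1 + 4))).exists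
  refine ⟨40, 40 + 1, R + 1, R + 1, w, RU, e3, e1, xi,
    W, cP, cA, L0, N0, N, kU, c0, et, eps, del, del, ?_⟩
  refine
    { gU_eq := rfl
      g0_eq := rfl
      gUe := ?_
      gU_nonneg := by norm_num
      gU_le := by norm_num
      r0_eq := rfl
      qB_eq := rfl
      w1 := hw
      w0_ge := hW1
      w0g := hW2
      g0n := by norm_num
      w0n := ⟨W, rfl⟩
      e3_pos := he3
      e3r := by rw [hcP1]; exact hc2
      e3r' := ?_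
      cP0 := hcP0
      cPpos := hpos
      cPle := ?_
      cP1 := by rw [hcP1]; exact hc3
      cPle1 := fun j hj => by rw [hcP1]; exact hle1 j hj
      avg := by rw [hcP1]; exact hL0
      cPj := fun j hj => by rw [hcP1]; exact (hcP2 j hj).le
      L0_pos := hL1
      cA_pos := hcA
      cA1 := hcA1
      cAs := hcA2
      cAr := fun m hm => hcA3 m (by omega)
      cA2 := hcA4
      qB1 := by omega
      qBr := by omega
      top := hN0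
      N_ge := by omega
      N1 := by omega
      kU_pos := hk0
      kU1 := hk1
      kU2 := hk2
      ule := hule
      e1_pos := he1
      xi_pos := hxi
      c0_pos := hc01
      c01 := hc02
      c0N := by rw [← mul_assoc]; exact hc03
      et_pos := het0
      et1 := het1
      etc := het2
      etk := het3
      etp := fun j hj => het4 j (by omega)
      eta := het5
      eps_pos := hep0
      eps_le := hep1
      epsU := hep2
      epsU1 := hep3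
      del_pos := hd0
      del1 := hd1
      dele := hd2
      dele64 := hd3
      delU_pos := hd0
      delU1 := hd1
      delUe := hd2
      delUe64 := hd3 }
  · have h3 : (-40 / 2 : ℝ) = ((-20 : ℤ) : ℝ) := by norm_num
    rw [h3, Real.rpow_intCast]
    norm_num
  · rw [hcP1]
    have h3 : (0 : ℝ) ≤ ((R + 1 : ℕ) : ℝ) * c1 := by positivity
    linarith
  · intro j
    rcases Nat.eq_zero_or_pos j with rfl | hj
    · exact hcP0.le
    · exact (hle1 j hj).trans (hc3.trans (by norm_num))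

end Pool.Agent.Lib.GSX
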