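import Pool.Agent.Lib.GSX.BDef
import Pool.Agent.Lib.GSX.NSrvI

/-!
# The allowed cells of the pool are not served
-/

set_option autoImplicit false

namespace Pool.Agent.Lib.GSX

open Finset Classical
open Pool.Agent.Lib.FGF (cm)
open Pool.Agent.Lib.GSLE (kp brw brw_mono brw_nonneg hc)
open Pool.Agent.Lib.GSR (vioC Served srvR)

section

variable {V : Type} [Fintype V] (P : Cn) (G : SimpleGraph V) (S : Sta P V) (I : Inp P V)

/-- The form with a weak inequality for the objective. -/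
theorem not_served_rec4 {T C : Finset (Fin P.N)} {l : Ce P V} {d Pm l0 : ℝ} {t : V}
    (hA : 0 ≤ P.A C.card) (hPm : 1 ≤ Pm) (hm : ∀ t u, 0 ≤ S.m C t u)
    (hF : ∀ u, 0 ≤ P.Z' C.card * Fs P G S I u)
    (hopt : ∀ q mu : V → ℝ, (∀ t, 0 ≤ q t) → ∑ t, q t = 1 → (∀ t, q t ≠ 0 → t ∈ I.W) →
      (∀ u, 0 ≤ mu u) → (∀ u, mu u ≠ 0 → u ∈ I.W) → ∑ u, mu u ≤ P.Lam C.card →
        Rv P G S I T C l (I.q T C l) (I.mu T C l) ≤ Rv P G S I T C l q mu)
    (hd0 : 0 < d) (hd : d ≤ Rv P G S I T C l (I.q T C l) (I.mu T C l)) (ht : t ∈ I.W)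
    (hadj : G.Adj t l.1.1) (ha : ∀ c ∈ C, 0 < S.a c t)
    (hh : ∀ c ∈ C, ((hc 1 l.2 c : ℤ) : ℝ) + l0 ≤ GSX.ht P S c t)
    (hl0 : C.card * brw (1 / 4) ((2 : ℝ) ^ (-l0)) ≤ d / 4) :
    ¬ Served G P.M (P.h - C.card - 1) (P.A C.card) (P.Lam C.card) (d / (4 * Pm))
      (fun l : Ce P V => l.1.1) (fun l x => PA P G S I T l x / Pm) (cm G (S.m C t))
      (I.W.filter fun u => P.Z' C.card * Fs P G S I u < 1) I.W l := by
  have h1 := not_served_rec P G S I (T := T) (C := C) (l := l) (d := d / 2) (Pm := Pm)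
    (l0 := l0) (t := t) hA hPm hm hF hopt (by linarith) ht hadj ha hh (by linarith)
  have h2 : d / 2 / (2 * Pm) = d / (4 * Pm) := by
    rw [div_div]
    congr 1
    ring
  rwa [h2] at h1

variable (T : Finset (Fin P.N)) (sg : ℕ → Fin P.N) (j : ℕ)

theorem card_img {S' : Finset ℕ} (hinj : ∀ c < j, ∀ c' < j, sg c = sg c' → c = c')
    (hS : S' ⊆ range j) : (img P sg S').card = S'.card := by
  unfold img
  refine Finset.card_image_of_injOn fun a ha b hb hab => ?_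
  exact hinj a (Finset.mem_range.1 (hS ha)) b (Finset.mem_range.1 (hS hb)) hab

/-- **The allowed cells are not served** at the vertices `t` of the world which are high over them
at the stages of `S'`. -/
theorem LabC.not_served {m : ℕ} {l0 : ℤ} {ε q : ℝ} {d : ℕ} {l : Ce P V}
    (h : LabC P G S I T sg j m l0 ε q d l)
    (hinj : ∀ c < j, ∀ c' < j, sg c = sg c' → c = c') {S' : Finset ℕ} (hS : S' ⊆ range j)
    (hSm : S'.card = m) {Pm : ℝ} {t : V} (hA : 0 ≤ P.A m) (hPm : 1 ≤ Pm) (hdl : 0 < P.dl m)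
    (hm : ∀ t u, 0 ≤ S.m (img P sg S') t u) (hF : ∀ u, 0 ≤ P.Z' m * Fs P G S I u)
    (hopt : ∀ q mu : V → ℝ, (∀ t, 0 ≤ q t) → ∑ t, q t = 1 → (∀ t, q t ≠ 0 → t ∈ I.W) →
      (∀ u, 0 ≤ mu u) → (∀ u, mu u ≠ 0 → u ∈ I.W) → ∑ u, mu u ≤ P.Lam m →
        Rv P G S I T (img P sg S') l (I.q T (img P sg S') l) (I.mu T (img P sg S') l) ≤
          Rv P G S I T (img P sg S') l q mu)
    (ht : t ∈ I.W) (hadj : G.Adj t (hub l)) (ha : ∀ c ∈ S', 0 < S.a (sg c) t)
    (hh : ∀ c ∈ S', ((HB P sg j c l + l0 : ℤ) : ℝ) ≤ hB P G S I sg j c t)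
    (hl0 : m * brw (1 / 4) ((2 : ℝ) ^ (-(l0 : ℝ))) ≤ P.dl m / 4) :
    ¬ Served G P.M (P.h - m - 1) (P.A m) (P.Lam m) (P.dl m / (4 * Pm)) hub
      (fun l x => PA P G S I T l x / Pm) (cm G (S.m (img P sg S') t))
      (I.W.filter fun u => P.Z' m * Fs P G S I u < 1) I.W l := by
  have hcard : (img P sg S').card = m := (card_img P sg j hinj hS).trans hSm
  have hne : ∀ c ∈ S', c ≠ j := fun c hc =>
    ne_of_lt (Finset.mem_range.1 (hS hc))
  have h1 := not_served_rec4 P G S I (T := T) (C := img P sg S') (l := l) (d := P.dl m)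
    (Pm := Pm) (l0 := (l0 : ℝ)) (t := t) (by rw [hcard]; exact hA) hPm hm
    (by rw [hcard]; exact hF) (by rw [hcard]; exact hopt) hdl (h.uns S' hS hSm) ht hadj
    (by
      intro c hc
      obtain ⟨b, hb, rfl⟩ := Finset.mem_image.1 hc
      exact ha b hb)
    (by
      intro c hc
      obtain ⟨b, hb, rfl⟩ := Finset.mem_image.1 hc
      have h2 := hh b hb
      unfold HB hB at h2
      rw [if_neg (hne b hb), if_neg (hne b hb)] at h2
      push_cast at h2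
      exact h2) (by rw [hcard]; exact hl0)
  rw [hcard] at h1
  exact h1

end

end Pool.Agent.Lib.GSX
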