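import Pool.Agent.Lib.GSX.NrRec

/-!
# `NrB` at the thin valid vertices of the world
-/

set_option autoImplicit false

namespace Pool.Agent.Lib.GSX

open Finset Classical
open RecP_
open Pool.Agent.Lib.FGF (cm)
open Pool.Agent.Lib.GSLE (kp brw brw_mono brw_nonneg hc cl cl_nonneg win win_eq_one win_nonneg ds
  Cf rhoC_ne)
open Pool.Agent.Lib.GSR (vioC Served SrvC OwnL TgtL HM uns_nr2 uns_fan uns_nr2_one uns_fan_one)
open Pool.Agent.Lib.TCW (Cst NrB)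

/-- Labels of weight zero do not matter. -/
theorem nrB_ext {V Ω : Type} {G : SimpleGraph V} {m s : ℕ} {η : ℝ} {k : Cst} {O O' : Finset Ω}
    {hub : Ω → V} {w : Ω → ℝ} {h : ℕ → V → ℝ} {H : ℕ → Ω → ℤ} {t : V} (hO : O' ⊆ O)
    (hw : ∀ o ∈ O, o ∉ O' → w o = 0) (hN : NrB G m s η k O' hub w h H t) :
    NrB G m s η k O hub w h H t where
  nr1 := by
    refine le_trans (le_of_eq ?_) hN.nr1
    symm
    refine Finset.sum_subset (Finset.filter_subset_filter _ hO) fun o ho ho' => ?_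
    rw [Finset.mem_filter] at ho ho'
    exact hw o ho.1 fun h1 => ho' ⟨h1, ho.2⟩
  nr2 S' h1 h2 i := by
    refine le_trans (le_of_eq ?_) (hN.nr2 S' h1 h2 i)
    symm
    refine Finset.sum_subset (Finset.filter_subset_filter _ hO) fun o ho ho' => ?_
    rw [Finset.mem_filter] at ho ho'
    exact hw o ho.1 fun h1 => ho' ⟨h1, ho.2⟩
  fan S' h1 h2 F h3 h4 := by
    refine hN.fan S' h1 h2 (fun a => (F a).filter fun o => o ∈ O') (fun a ha => ?_)
      fun a b hab hb o ho o' ho' =>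
        h4 a b hab hb o (Finset.mem_filter.1 ho).1 o' (Finset.mem_filter.1 ho').1
    obtain ⟨h5, h6, h7, h8⟩ := h3 a ha
    refine ⟨fun o ho => (Finset.mem_filter.1 ho).2, ?_, fun o ho o' ho' =>
      h7 o (Finset.mem_filter.1 ho).1 o' (Finset.mem_filter.1 ho').1, fun o ho =>
      h8 o (Finset.mem_filter.1 ho).1⟩
    refine h6.trans (le_of_eq ?_)
    symm
    refine Finset.sum_subset (Finset.filter_subset _ _) fun o ho ho' => ?_
    refine hw o (h5 ho) fun h9 => ho' (Finset.mem_filter.2 ⟨ho, h9⟩)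

section

variable {V : Type} [Fintype V] {P : Cn} {G : SimpleGraph V} {S : Sta P V} {I : Inp P V}
  {T : Finset (Fin P.N)} {sg : ℕ → Fin P.N} {j : ℕ}
  {O : Finset (Ce P V)} {lvl : V → ℕ} {g₀ m : ℕ} {H B q Bd Pm Bm ε e η : ℝ} {d : ℕ}
  {t : V} {k : Cst} {f : V → Fin P.kap}

theorem HB_self (l : Ce P V) : HB P sg j j l = -(sca l : ℤ) := by
  unfold HB
  rw [if_pos rfl]
  rfl

/-- The target of the service lemma. -/
theorem StB.tgt {l0 : ℤ} (h : StB P G S I T sg j O lvl g₀ m l0 H B q Bd Pm Bm ε d)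
    (hmh : m < P.h) {S' : Finset ℕ} (ht : TgB P G S I sg m Bm S' t) (hZ : 1 ≤ P.Z' m)
    (hf : ∀ u w, G.Adj t u → G.Adj t w → G.Adj u w → f u ≠ f w) :
    TgtL G P.M (P.h - m - 1) P.kap I.n3 (al P G I) lvl (2 * P.xi) (cm G (S.m (img P sg S') t))
      (I.W.filter fun u => P.Z' m * Fs P G S I u < 1) I.W t f where
  g0 := fun u => RecP_.cm_nonneg' (fun v => h.sp.m _ _ _) u
  LL := Finset.filter_subset _ _
  tL := ht.tW
  col := hf
  mas := by
    have h1 : P.h - m - 1 + 1 = P.h - m := by omega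
    rw [h1]
    exact ht.val
  ξ0 := by
    have := h.cp.xi
    linarith
  thin := fun b hb r => by
    refine thin_lvl P G I h.lv1 h.lv2 h.lvI h.ip.n3 h.cp.xi ?_ r
    rcases hb with hb | rfl
    · have h1 := (Finset.mem_filter.1 hb).2
      have h2 : fs P G I b ≤ Fs P G S I b := by
        unfold Fs
        linarith [h.sp.F b]
      have h3 : 0 ≤ Fs P G S I b := Fs_nonneg h.sp.F b
      nlinarith
    · exact ht.thin

/-- **`NrB` at the targets of rank at least two.** -/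
theorem StB.nrB_A (h : StB P G S I T sg j O lvl g₀ m k.l0 H B q Bd Pm Bm ε d)
    (hmh : m + 1 < P.h) (hf : ∀ u w, G.Adj t u → G.Adj t w → G.Adj u w → f u ≠ f w)
    (ht : ∀ S' ⊆ range j, S'.card = m → TgB P G S I sg m Bm S' t)
    (hopt : ∀ S' ⊆ range j, S'.card = m → ∀ l ∈ O, ∀ q mu : V → ℝ, (∀ t, 0 ≤ q t) →
      ∑ t, q t = 1 → (∀ t, q t ≠ 0 → t ∈ I.W) → (∀ u, 0 ≤ mu u) → (∀ u, mu u ≠ 0 → u ∈ I.W) →
      ∑ u, mu u ≤ P.Lam m → Rv P G S I T (img P sg S') l (I.q T (img P sg S') l)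
        (I.mu T (img P sg S') l) ≤ Rv P G S I T (img P sg S') l q mu)
    (hSrv : SrvC P.M (P.h - m - 1) P.kap (P.dl m / (4 * Pm)) (P.A m) (P.Lam m) e)
    (hZ : 1 ≤ P.Z' m) (hK : 0 < k.K) (hη : 0 < η) (hd : 1 ≤ d) (hε : 0 ≤ ε) (hR : 0 < k.R1)
    (e1 : Cf g₀ H (P.eps1 / 2) k.K B * (2 * P.xi) ≤ e)
    (e2 : Bd * (2 ^ g₀ / q ^ g₀) / k.K ≤ e)
    (e3 : Cf g₀ H (P.eps1 / 2) η B * (2 * P.xi) ≤ e)
    (e4 : (1 + (Bd / η + Cf g₀ H (P.eps1 / 2) η B * ε) * (q ^ d / (1 - q))) / k.R1 ≤ e)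
    (e5 : Bm * (m * brw (1 / 4) ((2 : ℝ) ^ (P.w0 + 1 - k.l0))) ≤ e)
    (e6 : Bm * (m * brw (1 / 4) ((2 : ℝ) ^ (P.lG + P.w0 + 4 - k.l0))) ≤ e)
    (e7 : m * brw (1 / 4) ((2 : ℝ) ^ (-(k.l0 : ℝ))) ≤ P.dl m / 4)
    (e8 : (k.l0 : ℝ) + (max P.g0 P.w0 + 1) ≤ k.l1) (e9 : (g₀ : ℤ) + d ≤ k.l1)
    (nr1 : ∑ o ∈ O with G.Adj (hub o) t ∧ hB P G S I sg j j t ≤ HB P sg j j o + k.u,
      wB P G S I T o ≤ k.K) :
    NrB G m j η k O hub (wB P G S I T) (hB P G S I sg j) (HB P sg j) t := by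
  have hch : ∀ S' ⊆ range j, S'.card = m → ∀ l ∈ O, G.Adj (hub l) t →
      (∀ c ∈ insert j S', (HB P sg j c l : ℝ) + k.l0 ≤ hB P G S I sg j c t) →
      (∀ x, PA P G S I T l x / Pm ≠ 0 → cm G (S.m (img P sg S') t) x ≤ e) ∧
        cm G (S.m (img P sg S') t) (hub l) ≤ e ∧
        ¬ Served G P.M (P.h - m - 1) (P.A m) (P.Lam m) (P.dl m / (4 * Pm)) hub
          (fun l x => PA P G S I T l x / Pm) (cm G (S.m (img P sg S') t))
          (I.W.filter fun u => P.Z' m * Fs P G S I u < 1) I.W l := by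
    intro S' hS' hSm l hl hadj hhigh
    refine ⟨fun x hx => (h.ch1 (ht S' hS' hSm) hS' hSm hhigh hx).trans e5,
      (h.ch2 (ht S' hS' hSm) hS' hSm hl hhigh).trans e6, ?_⟩
    refine (h.lab l hl).1.not_served P G S I T sg j h.inj hS' hSm (h.cp.A m) h.Pm1 (h.cp.dl m)
      (fun t u => h.sp.m _ _ _) (fun u => mul_nonneg (h.cp.Z' m) (Fs_nonneg h.sp.F u))
      (hopt S' hS' hSm l hl) (ht S' hS' hSm).tW hadj.symm (fun c _ => h.sp.a _ _)
      (fun c hc => ?_) e7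
    have h1 := hhigh c (Finset.mem_insert_of_mem hc)
    push_cast
    exact h1
  refine ⟨nr1, fun S' hS' hSm r => ?_, fun S' hS' hSm F hF => ?_⟩
  · exact uns_nr2 (s := j) (C := insert j S') (l0 := k.l0) (h := hB P G S I sg j)
      (Hh := HB P sg j) hSrv h.own (h.tgt (by omega) (ht S' hS' hSm) hZ hf) h.q0 h.q1.le h.Bd0
      h.wgt (fun l _ => HB_self l) (fun l hl => (h.lab l hl).1.hW) (hch S' hS' hSm) hK e1 e2 r
  · exact uns_fan (s := j) (C := insert j S') (l0 := k.l0) (l1 := k.l1) (h := hB P G S I sg j)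
      (Hh := HB P sg j) hSrv h.own (h.tgt (by omega) (ht S' hS' hSm) hZ hf) h.q0 h.q1 h.qq h.Bd0
      (Finset.mem_insert_self j S') h.wgt (fun l _ => HB_self l)
      (fun l hl => (h.lab l hl).1.hW) (hch S' hS' hSm)
      (fun l _ x hx c hc => h.low hS' hx hc) hd hε
      (fun l hl r hr => (HM_le_TM P G S I sg j h.lv1 h.lv2 h.ip.n3 k.l0 _ r l).trans
        ((h.lab l hl).1.thk S' hS' hSm r hr)) e8 e9 hη e3 e4 hR F hF

/-- **`NrB` at the targets of rank one.** -/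
theorem StB.nrB_1 (h : StB P G S I T sg j O lvl g₀ m k.l0 H B q Bd Pm Bm ε d)
    (hmh : m + 1 = P.h) (hf : ∀ u w, G.Adj t u → G.Adj t w → G.Adj u w → f u ≠ f w)
    (hM : 1 ≤ P.M)
    (ht : ∀ S' ⊆ range j, S'.card = m → TgB P G S I sg m Bm S' t)
    (hK : 0 ≤ k.K) (hη : 0 < η) (hε : 0 ≤ ε)
    (hR : P.kap * (P.M - 1) < k.R1)
    (e2 : P.kap * P.M * (Bd * (2 ^ g₀ / q ^ g₀)) ≤ k.K)
    (e4 : B / (P.eps1 / 2) * ((2 * g₀ + 1) * ε) < P.del / Pm)
    (e6 : Bm * (m * brw (1 / 4) ((2 : ℝ) ^ (P.lG + P.w0 + 4 - k.l0))) < 1 / 2 / P.M)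
    (e8 : (k.l0 : ℝ) + (max P.g0 P.w0 + 1) ≤ k.l1) (e9 : (g₀ : ℤ) + d ≤ k.l1)
    (nr1 : ∑ o ∈ O with G.Adj (hub o) t ∧ hB P G S I sg j j t ≤ HB P sg j j o + k.u,
      wB P G S I T o ≤ k.K) :
    NrB G m j η k O hub (wB P G S I T) (hB P G S I sg j) (HB P sg j) t := by
  have hPm : 0 < Pm := lt_of_lt_of_le one_pos h.Pm1
  have hch : ∀ S' ⊆ range j, S'.card = m → ∀ l ∈ O, G.Adj (hub l) t →
      (∀ c ∈ insert j S', (HB P sg j c l : ℝ) + k.l0 ≤ hB P G S I sg j c t) →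
        cm G (S.m (img P sg S') t) (hub l) < 1 / 2 / P.M := by
    intro S' hS' hSm l hl hadj hhigh
    exact (h.ch2 (ht S' hS' hSm) hS' hSm hl hhigh).trans_lt e6
  have hval : ∀ S' ⊆ range j, S'.card = m →
      vioC G P.M 1 t (cm G (S.m (img P sg S') t)) I.W ≤ 1 / 2 := by
    intro S' hS' hSm
    have h1 := (ht S' hS' hSm).val
    have h2 : P.h - m = 1 := by omega
    rwa [h2] at h1
  have hβ : ∀ l ∈ O, P.del / Pm ≤ ∑ x, PA P G S I T l x / Pm := by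
    intro l hl
    rw [← Finset.sum_div]
    exact div_le_div_of_nonneg_right (h.lab l hl).1.dD hPm.le
  have hown : ∀ l ∈ O, ∃ x, PA P G S I T l x / Pm ≠ 0 := by
    intro l hl
    have h1 := hβ l hl
    have h2 : 0 < P.del / Pm := div_pos h.cp.del hPm
    obtain ⟨x, -, hx⟩ := Finset.exists_ne_zero_of_sum_ne_zero (s := Finset.univ)
      (f := fun x => PA P G S I T l x / Pm) (by linarith)
    exact ⟨x, hx⟩
  refine ⟨nr1, fun S' hS' hSm r => ?_, fun S' hS' hSm F hF => ?_⟩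
  · exact uns_nr2_one (s := j) (C := insert j S') (l0 := k.l0) (h := hB P G S I sg j)
      (Hh := HB P sg j) hM h.own hf (hval S' hS' hSm) h.q0 h.q1.le h.Bd0 h.wgt
      (fun l _ => HB_self l) (fun l hl => (h.lab l hl).1.hW) (hch S' hS' hSm) hown
      (fun l _ x hx => h.adj hx) hK e2 r
  · exact uns_fan_one (s := j) (C := insert j S') (l0 := k.l0) (l1 := k.l1)
      (h := hB P G S I sg j) (Hh := HB P sg j) hM h.own hf (hval S' hS' hSm) h.q0 h.q1.le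
      (Finset.mem_insert_self j S') (fun l _ => HB_self l) (fun l hl => (h.lab l hl).1.hW)
      (hch S' hS' hSm)
      (fun x l => (CS_le T x l).trans (kk_le_one _ _ _)) hβ (fun l _ x hx => h.adj hx)
      (fun l _ x hx c hc => h.low hS' hx hc) hε
      (fun l hl r hr => (HM_le_TM P G S I sg j h.lv1 h.lv2 h.ip.n3 k.l0 _ r l).trans
        ((h.lab l hl).1.thk S' hS' hSm r hr)) e8 e9 hη e4 hR F hF

end

end Pool.Agent.Lib.GSX
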