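import Pool.Agent.Lib.GSX.NSrvB
import Pool.Agent.Lib.GSX.RecP
import Pool.Agent.Lib.GSR.UnsOne
import Pool.Agent.Lib.TCW.BX

/-!
# The allowed cells near a thin valid vertex

The structure `NrB` of `TCW/BX.lean` for the record of a stage of the pool: the cells which are
neither served nor thick have small weight in each scale and no long increasing fans at the thin
valid vertices of the world.
-/

set_option autoImplicit false

namespace Pool.Agent.Lib.GSX

open Finset Classical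
open RecP_
open Pool.Agent.Lib.FGF (cm)
open Pool.Agent.Lib.GSLE (kp brw brw_mono brw_nonneg hc cl cl_nonneg win win_eq_one win_nonneg ds
  Cf rhoC_ne)
open Pool.Agent.Lib.GSR (vioC Served SrvC OwnL TgtL HM)

section

variable {V : Type} [Fintype V] (P : Cn) (G : SimpleGraph V) (S : Sta P V) (I : Inp P V)

/-! ### Levels -/

/-- The height of a vertex of the level `r`. -/
theorem hs_of_lvl {lvl : V → ℕ} (hl1 : ∀ x, lv (lvl x) ≤ al P G I x)
    (hl2 : ∀ x, al P G I x < 2 * lv (lvl x)) (x : V) :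
    -(lvl x : ℝ) ≤ hs P G I x ∧ hs P G I x < -(lvl x : ℝ) + 1 := by
  have h0 : 0 < al P G I x := al_pos x
  have h1 : lv (lvl x) = (2 : ℝ) ^ (-(lvl x : ℝ)) := by
    unfold lv
    rw [Real.rpow_neg (by norm_num), Real.rpow_natCast, one_div, inv_pow]
  unfold hs
  constructor
  · rw [Real.le_logb_iff_rpow_le (by norm_num) h0, ← h1]
    exact hl1 x
  · rw [Real.logb_lt_iff_lt_rpow (by norm_num) h0, Real.rpow_add (by norm_num), ← h1,
      Real.rpow_one, mul_comm]
    exact hl2 x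

/-- The level masses of a thin vertex. -/
theorem thin_lvl {lvl : V → ℕ} (hl1 : ∀ x, lv (lvl x) ≤ al P G I x)
    (hl2 : ∀ x, al P G I x < 2 * lv (lvl x)) (hlI : ∀ x, lvl x ≤ P.I0) (hn : ∀ x, 0 ≤ I.n3 x)
    (hxi : 0 < P.xi) {b : V} (hb : fs P G I b < 1) (r : ℕ) :
    ∑ x with lvl x = r, I.n3 x / al P G I x * cl G x b ≤ 2 * P.xi := by
  by_cases hr : r ≤ P.I0
  · set i : Fin (P.I0 + 1) := ⟨r, by omega⟩ with hi
    have h1 : Db P G I I.n3 i b ≤ 2 * P.xi := by
      by_contra hcon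
      push Not at hcon
      have h2 : 1 ≤ (Db P G I I.n3 i b - P.xi) / P.xi := by
        rw [le_div_iff₀ hxi]
        linarith
      have h3 : 1 ≤ ∑ i, max 0 ((Db P G I I.n3 i b - P.xi) / P.xi) :=
        h2.trans ((le_max_right _ _).trans
          (Finset.single_le_sum (f := fun i => max 0 ((Db P G I I.n3 i b - P.xi) / P.xi))
            (fun _ _ => le_max_left _ _) (Finset.mem_univ i)))
      have h4 : fs P G I b = 1 := by
        unfold fs
        exact min_eq_left h3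
      rw [h4] at hb
      exact lt_irrefl _ hb
    refine le_trans ?_ h1
    unfold Db
    rw [Finset.sum_filter]
    refine Finset.sum_le_sum fun x _ => ?_
    have hpos : 0 ≤ I.n3 x / al P G I x := div_nonneg (hn x) (al_pos x).le
    by_cases hx : lvl x = r
    · rw [if_pos hx]
      have h2 := hs_of_lvl P G I hl1 hl2 x
      rw [hx] at h2
      have h3 : win 1 (hs P G I x + ((i : ℕ) : ℝ)) = 1 := by
        refine win_eq_one ?_
        rw [abs_le]
        have h4 : ((i : ℕ) : ℝ) = (r : ℝ) := rfl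
        rw [h4]
        constructor <;> linarith [h2.1, h2.2]
      rw [h3, mul_one]
    · rw [if_neg hx]
      exact mul_nonneg (mul_nonneg hpos (win_nonneg _ _)) (cl_nonneg G x b)
  · rw [Finset.sum_eq_zero]
    · linarith
    · intro x hx
      have h1 := (Finset.mem_filter.1 hx).2
      have h2 := hlI x
      omega

variable (T : Finset (Fin P.N)) (sg : ℕ → Fin P.N) (j : ℕ)

/-- The thickness dominates the mass of the high nodes. -/
theorem HM_le_TM {lvl : V → ℕ} (hl1 : ∀ x, lv (lvl x) ≤ al P G I x)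
    (hl2 : ∀ x, al P G I x < 2 * lv (lvl x)) (hn : ∀ x, 0 ≤ I.n3 x) (l0 : ℤ) (C : Finset ℕ)
    (r : ℕ) (l : Ce P V) :
    HM G I.n3 (al P G I) lvl hub (hB P G S I sg j) (HB P sg j) l0 C r l ≤
      TM P G S I sg j l0 C r l := by
  unfold HM TM
  rw [Finset.sum_filter]
  refine Finset.sum_le_sum fun x _ => ?_
  have hpos : 0 ≤ rB P G I x := div_nonneg (hn x) (al_pos x).le
  by_cases hx : lvl x = r ∧ G.Adj (hub l) x ∧ ∀ c ∈ C, (HB P sg j c l : ℝ) + l0 ≤
      hB P G S I sg j c x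
  · rw [if_pos hx, if_pos hx.2.1, mul_one]
    have h2 := hs_of_lvl P G I hl1 hl2 x
    rw [hx.1] at h2
    have h3 : win 1 (hs P G I x + (r : ℝ)) = 1 := by
      refine win_eq_one ?_
      rw [abs_le]
      constructor <;> linarith [h2.1, h2.2]
    have h4 : ∏ c ∈ C, rp (hB P G S I sg j c x - HB P sg j c l - l0 + 1) = 1 :=
      Finset.prod_eq_one fun c hc => rp_eq_one (by linarith [hx.2.2 c hc])
    rw [h3, h4, mul_one, mul_one]
    exact le_rfl
  · rw [if_neg hx]
    exact mul_nonneg (mul_nonneg (mul_nonneg hpos (by split_ifs <;> norm_num)) (win_nonneg _ _))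
      (Finset.prod_nonneg fun _ _ => rp_nonneg _)

/-! ### Charges -/

/-- The bracket cost of a target which is high over a vertex. -/
theorem brw_high {a b x y D : ℝ} (ha : 0 < a) (hb : 0 < b) (hax : Real.logb 2 a ≤ x)
    (hby : y ≤ Real.logb 2 b) (h : x - y ≤ D) : brw (1 / 4) (a / b) ≤
      brw (1 / 4) ((2 : ℝ) ^ D) := by
  refine brw_mono (by norm_num) (by norm_num) (div_pos ha hb).le ?_
  have h1 : Real.logb 2 (a / b) ≤ D := by
    rw [Real.logb_div ha.ne' hb.ne']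
    linarith
  rwa [Real.logb_le_iff_le_rpow (by norm_num) (div_pos ha hb)] at h1

/-- The charge of a target which is high over the cell, at a vertex which is not higher than the
cell by more than `D`. -/
theorem charge_le {m : ℕ} {S' : Finset ℕ} (hinj : ∀ c < j, ∀ c' < j, sg c = sg c' → c = c')
    (hS' : S' ⊆ range j) (hSm : S'.card = m) (hSa : ∀ c x, 0 < S.a c x) {Bm : ℝ} (hBm : 0 ≤ Bm)
    {t x : V} {l0 : ℤ} {l : Ce P V} {D : ℝ}
    (hb : cm G (S.m (img P sg S') t) x ≤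
      Bm * ∑ c ∈ img P sg S', brw (1 / 4) (S.a c x / S.a c t))
    (hhigh : ∀ c ∈ S', (HB P sg j c l : ℝ) + l0 ≤ hB P G S I sg j c t)
    (hx : ∀ c ∈ S', ht P S (sg c) x ≤ hc 1 l.2 (sg c) + D) :
    cm G (S.m (img P sg S') t) x ≤ Bm * (m * brw (1 / 4) ((2 : ℝ) ^ (D - l0))) := by
  refine hb.trans (mul_le_mul_of_nonneg_left ?_ hBm)
  refine GSR.cost_high _ _ ((card_img P sg j hinj hS').trans hSm).le
    (brw_nonneg _ (by positivity)) fun c hcC => ?_
  obtain ⟨b, hb', rfl⟩ := Finset.mem_image.1 hcC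
  have hbj : b ≠ j := ne_of_lt (Finset.mem_range.1 (hS' hb'))
  have h1 := hhigh b hb'
  unfold HB hB at h1
  rw [if_neg hbj, if_neg hbj] at h1
  refine brw_high (x := hc 1 l.2 (sg b) + D) (y := hc 1 l.2 (sg b) + l0) (hSa _ _) (hSa _ _)
    (hx b hb') h1 (by linarith)

/-- The facts about the record of the stage `j` of the pool which are used near a target. -/
structure StB (O : Finset (Ce P V)) (lvl : V → ℕ) (g₀ m : ℕ) (l0 : ℤ) (H B q Bd Pm Bm ε : ℝ)
    (d : ℕ) : Prop where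
  cp : CPos P
  sp : SPos S
  ip : IPos I
  lv1 : ∀ x, lv (lvl x) ≤ al P G I x
  lv2 : ∀ x, al P G I x < 2 * lv (lvl x)
  lvI : ∀ x, lvl x ≤ P.I0
  nW : ∀ x, I.n3 x ≠ 0 → x ∈ I.W
  inj : ∀ c < j, ∀ c' < j, sg c = sg c' → c = c'
  sgT : ∀ c < j, sg c ∈ T
  q0 : 0 < q
  q1 : q < 1
  qq : q * q = 1 / 2
  Bd0 : 0 ≤ Bd
  Pm1 : 1 ≤ Pm
  Bm0 : 0 ≤ Bm
  own : OwnL G I.n3 (al P G I) (BS P G S I T) lvl (CS P G S I T) (rho P G S I T)
    (fun l x => PA P G S I T l x / Pm) hub sca g₀ H (P.eps1 / 2) B q Bd O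
  lab : ∀ l ∈ O, LabC P G S I T sg j m l0 ε q d l ∧ rho P G S I T l ≠ 0
  wgt : ∀ l ∈ O, wB P G S I T l * (1 / 2 : ℝ) ^ sca l = rho P G S I T l

/-- The facts about the target `t`, for the set `S'` of stages. -/
structure TgB (m : ℕ) (Bm : ℝ) (S' : Finset ℕ) (t : V) : Prop where
  tW : t ∈ I.W
  thin : fs P G I t < 1
  val : vioC G P.M (P.h - m) t (cm G (S.m (img P sg S') t)) I.W ≤ 1 / 2
  bd : ∀ u ∈ I.W, cm G (S.m (img P sg S') t) u ≤
    Bm * ∑ c ∈ img P sg S', brw (1 / 4) (S.a c u / S.a c t)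

variable {P G S I T sg j}

theorem PA_ne {l : Ce P V} {x : V} {Pm : ℝ} (h : PA P G S I T l x / Pm ≠ 0) :
    CS P G S I T x l ≠ 0 ∧ I.n3 x ≠ 0 := by
  have h1 : PA P G S I T l x ≠ 0 := fun h2 => h (by rw [h2, zero_div])
  unfold PA at h1
  have h2 : I.n3 x * CS P G S I T x l ≠ 0 := fun h3 => h1 (by rw [h3, zero_div])
  exact ⟨right_ne_zero_of_mul h2, left_ne_zero_of_mul h2⟩

section charges

variable {O : Finset (Ce P V)} {lvl : V → ℕ} {g₀ m : ℕ} {l0 : ℤ} {H B q Bd Pm Bm ε : ℝ} {d : ℕ}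
  {S' : Finset ℕ} {t : V}

/-- The charge on the own nodes. -/
theorem StB.ch1 (h : StB P G S I T sg j O lvl g₀ m l0 H B q Bd Pm Bm ε d)
    (ht : TgB P G S I sg m Bm S' t) (hS' : S' ⊆ range j) (hSm : S'.card = m) {l : Ce P V}
    (hhigh : ∀ c ∈ insert j S', (HB P sg j c l : ℝ) + l0 ≤ hB P G S I sg j c t) {x : V}
    (hx : PA P G S I T l x / Pm ≠ 0) :
    cm G (S.m (img P sg S') t) x ≤ Bm * (m * brw (1 / 4) ((2 : ℝ) ^ (P.w0 + 1 - l0))) := by
  obtain ⟨h1, h2⟩ := PA_ne hx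
  refine charge_le P G S I sg j h.inj hS' hSm h.sp.a h.Bm0 (ht.bd x (h.nW x h2))
    (fun c hc => hhigh c (Finset.mem_insert_of_mem hc)) fun c hc => ?_
  have h3 := (CS_ne h1).2.1 (sg c) (h.sgT c (Finset.mem_range.1 (hS' hc)))
  have h4 := (abs_lt.1 h3).2
  linarith

/-- The charge on the hub. -/
theorem StB.ch2 (h : StB P G S I T sg j O lvl g₀ m l0 H B q Bd Pm Bm ε d)
    (ht : TgB P G S I sg m Bm S' t) (hS' : S' ⊆ range j) (hSm : S'.card = m) {l : Ce P V}
    (hl : l ∈ O)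
    (hhigh : ∀ c ∈ insert j S', (HB P sg j c l : ℝ) + l0 ≤ hB P G S I sg j c t) :
    cm G (S.m (img P sg S') t) (hub l) ≤
      Bm * (m * brw (1 / 4) ((2 : ℝ) ^ (P.lG + P.w0 + 4 - l0))) := by
  refine charge_le P G S I sg j h.inj hS' hSm h.sp.a h.Bm0 (ht.bd _ (h.lab l hl).1.hW)
    (fun c hc => hhigh c (Finset.mem_insert_of_mem hc)) fun c hc => ?_
  have h3 := (rhoC_ne (h.lab l hl).2).2.2 (sg c) (h.sgT c (Finset.mem_range.1 (hS' hc)))
  unfold hub
  linarith

/-- The own nodes are adjacent to the hub. -/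
theorem StB.adj (_h : StB P G S I T sg j O lvl g₀ m l0 H B q Bd Pm Bm ε d) {l : Ce P V} {x : V}
    (hx : PA P G S I T l x / Pm ≠ 0) : G.Adj x (hub l) :=
  (kk_ne (CS_ne (PA_ne hx).1).1).1

/-- The heights of the own nodes. -/
theorem StB.low (h : StB P G S I T sg j O lvl g₀ m l0 H B q Bd Pm Bm ε d)
    (hS' : S' ⊆ range j) {l : Ce P V} {x : V} (hx : PA P G S I T l x / Pm ≠ 0) {c : ℕ}
    (hc : c ∈ insert j S') :
    (HB P sg j c l : ℝ) ≤ hB P G S I sg j c x + (max P.g0 P.w0 + 1) := by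
  have hCS := CS_ne (PA_ne hx).1
  rcases Finset.mem_insert.1 hc with rfl | hc'
  · have h1 := (kk_ne hCS.1).2.2
    unfold HB hB
    rw [if_pos rfl, if_pos rfl]
    have h2 := (abs_lt.1 h1).1
    have h3 := le_max_left P.g0 P.w0
    push_cast
    linarith
  · have hcj : c < j := Finset.mem_range.1 (hS' hc')
    have h1 := hCS.2.1 (sg c) (h.sgT c hcj)
    unfold HB hB
    rw [if_neg hcj.ne, if_neg hcj.ne]
    have h2 := (abs_lt.1 h1).1
    have h3 := le_max_right P.g0 P.w0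
    linarith

end charges

end

end Pool.Agent.Lib.GSX
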