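import Pool.Agent.Lib.GSX.NrMain

/-!
# The weight of one scale at a target

The part `nr2` of `NrMain.lean` alone.  With `d = P.I0 + 1` the condition that the labels are not
thick is void (`labC_void`), so these statements are about all the labels which are not served.
-/

set_option autoImplicit false

namespace Pool.Agent.Lib.GSX

open Finset Classical
open RecP_
open Pool.Agent.Lib.FGF (cm)
open Pool.Agent.Lib.GSLE (kp brw brw_mono brw_nonneg hc cl cl_nonneg win win_eq_one win_nonneg ds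
  Cf rhoC_ne cells)
open Pool.Agent.Lib.GSR (vioC Served SrvC OwnL TgtL HM uns_nr2 uns_fan uns_nr2_one uns_fan_one)

section

variable {V : Type} [Fintype V] {P : Cn} {G : SimpleGraph V} {S : Sta P V} {I : Inp P V}
  {T : Finset (Fin P.N)} {sg : ℕ → Fin P.N} {j : ℕ}
  {O : Finset (Ce P V)} {lvl : V → ℕ} {g₀ m : ℕ} {H B q Bd Pm Bm ε e : ℝ} {d : ℕ} {l0 : ℤ}
  {t : V} {f : V → Fin P.kap}

/-- Without the condition on the thickness. -/
theorem labC_void {l : Ce P V} (hW : hub l ∈ I.W) (cel : l.2 ∈ cells P.N P.I0 T)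
    (dD : P.del ≤ DD P G S I T l)
    (uns : ∀ S' ⊆ range j, S'.card = m → P.dl m ≤
      Rv P G S I T (img P sg S') l (I.q T (img P sg S') l) (I.mu T (img P sg S') l)) :
    LabC P G S I T sg j m l0 ε q (P.I0 + 1) l where
  hW := hW
  cel := cel
  dD := dD
  uns := uns
  thk := fun S' _ _ r hr => by
    have h1 : sca l < P.I0 + 1 := l.1.2.isLt
    omega

theorem LabC.void {l : Ce P V} (h : LabC P G S I T sg j m l0 ε q d l) (l0' : ℤ) (ε' q' : ℝ) :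
    LabC P G S I T sg j m l0' ε' q' (P.I0 + 1) l :=
  labC_void h.hW h.cel h.dD h.uns

/-- One scale, targets of rank at least two. -/
theorem StB.nr2_A (h : StB P G S I T sg j O lvl g₀ m l0 H B q Bd Pm Bm ε d)
    (hmh : m + 1 < P.h) (hf : ∀ u w, G.Adj t u → G.Adj t w → G.Adj u w → f u ≠ f w)
    {S' : Finset ℕ} (hS' : S' ⊆ range j) (hSm : S'.card = m) (ht : TgB P G S I sg m Bm S' t)
    (hopt : ∀ l ∈ O, ∀ q mu : V → ℝ, (∀ t, 0 ≤ q t) →
      ∑ t, q t = 1 → (∀ t, q t ≠ 0 → t ∈ I.W) → (∀ u, 0 ≤ mu u) → (∀ u, mu u ≠ 0 → u ∈ I.W) →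
      ∑ u, mu u ≤ P.Lam m → Rv P G S I T (img P sg S') l (I.q T (img P sg S') l)
        (I.mu T (img P sg S') l) ≤ Rv P G S I T (img P sg S') l q mu)
    (hSrv : SrvC P.M (P.h - m - 1) P.kap (P.dl m / (4 * Pm)) (P.A m) (P.Lam m) e)
    (hZ : 1 ≤ P.Z' m) {K : ℝ} (hK : 0 < K)
    (e1 : Cf g₀ H (P.eps1 / 2) K B * (2 * P.xi) ≤ e)
    (e2 : Bd * (2 ^ g₀ / q ^ g₀) / K ≤ e)
    (e5 : Bm * (m * brw (1 / 4) ((2 : ℝ) ^ (P.w0 + 1 - l0))) ≤ e)
    (e6 : Bm * (m * brw (1 / 4) ((2 : ℝ) ^ (P.lG + P.w0 + 4 - l0))) ≤ e)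
    (e7 : m * brw (1 / 4) ((2 : ℝ) ^ (-(l0 : ℝ))) ≤ P.dl m / 4) (r : ℤ) :
    ∑ o ∈ O with G.Adj (hub o) t ∧ HB P sg j j o = r ∧ ∀ c ∈ insert j S',
      HB P sg j c o + l0 ≤ hB P G S I sg j c t, wB P G S I T o ≤ K := by
  refine uns_nr2 (s := j) (C := insert j S') (l0 := l0) (h := hB P G S I sg j)
      (Hh := HB P sg j) hSrv h.own (h.tgt (by omega) ht hZ hf) h.q0 h.q1.le h.Bd0
      h.wgt (fun l _ => HB_self l) (fun l hl => (h.lab l hl).1.hW) ?_ hK e1 e2 r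
  intro l hl hadj hhigh
  refine ⟨fun x hx => (h.ch1 ht hS' hSm hhigh hx).trans e5,
    (h.ch2 ht hS' hSm hl hhigh).trans e6, ?_⟩
  refine (h.lab l hl).1.not_served P G S I T sg j h.inj hS' hSm (h.cp.A m) h.Pm1 (h.cp.dl m)
    (fun t u => h.sp.m _ _ _) (fun u => mul_nonneg (h.cp.Z' m) (Fs_nonneg h.sp.F u))
    (hopt l hl) ht.tW hadj.symm (fun c _ => h.sp.a _ _) (fun c hc => ?_) e7
  have h1 := hhigh c (Finset.mem_insert_of_mem hc)
  push_cast
  exact h1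

/-- One scale, targets of rank one. -/
theorem StB.nr2_1 (h : StB P G S I T sg j O lvl g₀ m l0 H B q Bd Pm Bm ε d)
    (hmh : m + 1 = P.h) (hf : ∀ u w, G.Adj t u → G.Adj t w → G.Adj u w → f u ≠ f w)
    (hM : 1 ≤ P.M) {S' : Finset ℕ} (hS' : S' ⊆ range j) (hSm : S'.card = m)
    (ht : TgB P G S I sg m Bm S' t) {K : ℝ} (hK : 0 ≤ K)
    (e2 : P.kap * P.M * (Bd * (2 ^ g₀ / q ^ g₀)) ≤ K)
    (e6 : Bm * (m * brw (1 / 4) ((2 : ℝ) ^ (P.lG + P.w0 + 4 - l0))) < 1 / 2 / P.M) (r : ℤ) :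
    ∑ o ∈ O with G.Adj (hub o) t ∧ HB P sg j j o = r ∧ ∀ c ∈ insert j S',
      HB P sg j c o + l0 ≤ hB P G S I sg j c t, wB P G S I T o ≤ K := by
  have hPm : 0 < Pm := lt_of_lt_of_le one_pos h.Pm1
  have hval : vioC G P.M 1 t (cm G (S.m (img P sg S') t)) I.W ≤ 1 / 2 := by
    have h1 := ht.val
    have h2 : P.h - m = 1 := by omega
    rwa [h2] at h1
  have hown : ∀ l ∈ O, ∃ x, PA P G S I T l x / Pm ≠ 0 := by
    intro l hl
    have h1 : P.del / Pm ≤ ∑ x, PA P G S I T l x / Pm := by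
      rw [← Finset.sum_div]
      exact div_le_div_of_nonneg_right (h.lab l hl).1.dD hPm.le
    have h2 : 0 < P.del / Pm := div_pos h.cp.del hPm
    obtain ⟨x, -, hx⟩ := Finset.exists_ne_zero_of_sum_ne_zero (s := Finset.univ)
      (f := fun x => PA P G S I T l x / Pm) (by linarith)
    exact ⟨x, hx⟩
  exact uns_nr2_one (s := j) (C := insert j S') (l0 := l0) (h := hB P G S I sg j)
      (Hh := HB P sg j) hM h.own hf hval h.q0 h.q1.le h.Bd0 h.wgt
      (fun l _ => HB_self l) (fun l hl => (h.lab l hl).1.hW)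
      (fun l hl hadj hhigh => (h.ch2 ht hS' hSm hl hhigh).trans_lt e6) hown
      (fun l _ x hx => h.adj hx) hK e2 r

end

end Pool.Agent.Lib.GSX
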