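import Pool.Agent.Lib.GSR.Srv
import Pool.Agent.Lib.GSLE.BrkE
import Pool.Agent.Lib.GSLE.LE
import Pool.Agent.Lib.GSLE.Cells

/-!
# The records of the game

All the functions of one stage are explicit functions of the constants `P : Cn`, the state `S : Sta`
given by the earlier stages (scales, masters, cover) and the input `I : Inp` of the stage (the world,
the laws of the node at the half prefixes, the main law and the coordinates of the services).
The main labels are the pairs (hub, scale), the cells are the pairs (main label, heights).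
-/

set_option autoImplicit false

namespace Pool.Agent.Lib.GSX

open Finset Classical
open Pool.Agent.Lib.FGF (cm)
open Pool.Agent.Lib.GSLE (kp brw cl win stp Cel hc rhoC CC AC alp)
open Pool.Agent.Lib.GSR (vioC)

/-- The constants of the game.  The functions of `ℕ` depend on the rank `|C|`. -/
structure Cn where
  /-- arity, depth, colours of the neighbourhoods, number of stages, the last level, size of the
  items -/
  M : ℕ
  h : ℕ
  kap : ℕ
  N : ℕ
  I0 : ℕ
  r0 : ℕ
  /-- the floor of the scales -/
  e0 : ℝ
  /-- windows: own scale, the absolute window, own heights; the gap of high hubs -/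
  g0 : ℝ
  gU : ℝ
  w0 : ℝ
  lG : ℝ
  /-- items, own masses of labels, scores, payments, thinness, atoms -/
  eps1 : ℝ
  del : ℝ
  cP : ℕ → ℝ
  cA : ℝ
  Bd : ℝ
  xi : ℝ
  xi2 : ℝ
  xi1 : ℝ
  /-- services and own steps -/
  A : ℕ → ℝ
  A' : ℕ → ℝ
  Lam : ℕ → ℝ
  Lam' : ℕ → ℝ
  dl : ℕ → ℝ
  eta : ℕ → ℝ
  /-- the factors of the cover -/
  Z : ℕ → ℝ
  Z' : ℕ → ℝ
  Z'' : ℕ → ℝ
  /-- the two UP systems: threshold, gap, factor, mass of the services, root law, payments -/
  th : Fin 2 → ℝ
  Gu : Fin 2 → ℝ
  Au : Fin 2 → ℝ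
  Lu : Fin 2 → ℝ
  eu : Fin 2 → ℝ
  Bu : Fin 2 → ℝ

/-- Main labels. -/
abbrev Ml (P : Cn) (V : Type) : Type := V × Fin (P.I0 + 1)

/-- Cells. -/
abbrev Ce (P : Cn) (V : Type) : Type := Ml P V × Cel P.N P.I0

/-- The state before a stage: the scales, the masters and the cover of the earlier stages. -/
structure Sta (P : Cn) (V : Type) where
  a : Fin P.N → V → ℝ
  m : Finset (Fin P.N) → V → V → ℝ
  F : V → ℝ

/-- The input of a stage: the world, the laws of the node at the prefix (`n0`), after the bit of the
atoms (`n1`), after the bits of the two UP systems (`n2`) and after the thin bit (`n3`), the main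
law `pi`, the laws `sg` and the services `su` of the UP systems, the services `q`, `mu` and the own
steps `lp`, `la`. -/
structure Inp (P : Cn) (V : Type) where
  W : Finset V
  n0 : V → ℝ
  n1 : V → ℝ
  n2 : V → ℝ
  n3 : V → ℝ
  pi : Ml P V → ℝ
  sg : Fin 2 → ℕ → Ml P V → ℝ
  su : Fin 2 → ℕ → Ml P V → V → ℝ
  lp : Finset (Fin P.N) → Ml P V → V → ℝ
  q : Finset (Fin P.N) → Finset (Fin P.N) → Ce P V → V → ℝ
  mu : Finset (Fin P.N) → Finset (Fin P.N) → Ce P V → V → ℝ
  la : Finset (Fin P.N) → Finset (Fin P.N) → Ce P V → V → ℝ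

/-- The ramp from `0` at `0` to `1` at `1`. -/
noncomputable def rp (u : ℝ) : ℝ := max 0 (min 1 u)

section

variable {V : Type} [Fintype V]

/-! ### The scale -/

/-- The incidence of the main labels. -/
noncomputable def inc {P : Cn} (G : SimpleGraph V) (W : Finset V) (x : V) (l : Ml P V) : ℝ :=
  if G.Adj x l.1 ∧ l.1 ∈ W then 1 else 0

/-- The scale of a level. -/
noncomputable def lv (i : ℕ) : ℝ := (1 / 2) ^ i

/-- The scale of the stage. -/
noncomputable def al (P : Cn) (G : SimpleGraph V) (I : Inp P V) (x : V) : ℝ :=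
  alp (fun _ => P.e0) (inc G I.W) I.pi (fun l => lv l.2) x

variable (P : Cn) (G : SimpleGraph V) (s : Fin P.N) (S : Sta P V) (I : Inp P V)

/-- The heights. -/
noncomputable def ht (c : Fin P.N) (x : V) : ℝ := Real.logb 2 (S.a c x)

/-- The height of the stage. -/
noncomputable def hs (x : V) : ℝ := Real.logb 2 (al P G I x)

/-- The own kernel of the main labels in the window `g`. -/
noncomputable def kk (g : ℝ) (x : V) (l : Ml P V) : ℝ :=
  inc G I.W x l * kp (al P G I x / lv l.2) * win g (hs P G I x + (l.2 : ℕ))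

/-- The share of the labels outside the absolute window. -/
noncomputable def out (x : V) : ℝ :=
  ∑ l : Ml P V, inc G I.W x l * I.pi l * kp (al P G I x / lv l.2) *
    (1 - win P.gU (hs P G I x + (l.2 : ℕ))) / al P G I x

/-! ### The cover -/

/-- The level-wise mass of the closed neighbourhood for the law `n`. -/
noncomputable def Db (n : V → ℝ) (i : Fin (P.I0 + 1)) (b : V) : ℝ :=
  ∑ x, n x / al P G I x * win 1 (hs P G I x + (i : ℕ)) * cl G x b

/-- The cover of the stage: zero at the thin vertices. -/
noncomputable def fs (b : V) : ℝ := min 1 (∑ i, max 0 ((Db P G I I.n3 i b - P.xi) / P.xi))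

/-- The cover of the stages up to `s`. -/
noncomputable def Fs (b : V) : ℝ := S.F b + fs P G I b

/-! ### The labels of the hub mode -/

/-- The hub `y` is higher than `x` at all the stages of `C`. -/
noncomputable def rich (C : Finset (Fin P.N)) (x y : V) : ℝ :=
  ∏ c ∈ C, rp (ht P S c y - ht P S c x - P.lG)

/-- The own kernel. -/
noncomputable def CP (C : Finset (Fin P.N)) (x : V) (l : Ml P V) : ℝ :=
  kk P G I P.g0 x l * rich P S C x l.1

/-- The own law of the label `l`. -/
noncomputable def PP (C : Finset (Fin P.N)) (l : Ml P V) (x : V) : ℝ :=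
  I.n3 x * CP P G S I C x l / al P G I x

/-- The weight of the label `l` at `x`. -/
noncomputable def wP (C : Finset (Fin P.N)) (l : Ml P V) (x : V) : ℝ :=
  I.pi l * CP P G S I C x l / al P G I x

/-! ### Cells -/

/-- The weight of a cell of the item `T`. -/
noncomputable def rho (T : Finset (Fin P.N)) (l : Ce P V) : ℝ :=
  rhoC 1 (ht P S) (P.lG + P.w0 + 3) T I.n3 (al P G I) I.pi (kk P G I P.g0) Prod.fst l

/-- The scale of the item. -/
noncomputable def AS (T : Finset (Fin P.N)) (x : V) : ℝ :=
  AC P.I0 1 (ht P S) P.w0 (P.lG + P.w0 + 3) T I.n3 (al P G I) I.pi (kk P G I P.g0) Prod.fst x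

/-- The soft sign of the item. -/
noncomputable def gY (T : Finset (Fin P.N)) (x : V) : ℝ :=
  rp (2 * (AS P G S I T x / (P.eps1 * al P G I x)) - 1)

/-- The denominator. -/
noncomputable def BS (T : Finset (Fin P.N)) (x : V) : ℝ :=
  max (AS P G S I T x) (P.eps1 * al P G I x / 2)

/-- The own kernel of the cells. -/
noncomputable def CS (T : Finset (Fin P.N)) (x : V) (l : Ce P V) : ℝ :=
  CC 1 (ht P S) P.w0 T (kk P G I P.g0) x l * gY P G S I T x

/-- The own law of a cell. -/
noncomputable def PA (T : Finset (Fin P.N)) (l : Ce P V) (x : V) : ℝ :=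
  I.n3 x * CS P G S I T x l / BS P G S I T x

/-- The own mass of a cell. -/
noncomputable def DD (T : Finset (Fin P.N)) (l : Ce P V) : ℝ := ∑ x, PA P G S I T l x

/-- The weight of the cell `l` at `x`. -/
noncomputable def wA (T : Finset (Fin P.N)) (l : Ce P V) (x : V) : ℝ :=
  rho P G S I T l * CS P G S I T x l / BS P G S I T x

/-! ### Services -/

/-- The cost of the height of `t`. -/
noncomputable def hcost (C : Finset (Fin P.N)) (l : Ce P V) (t : V) : ℝ :=
  (if G.Adj t l.1.1 ∧ t ∈ I.W then 0 else 1) +
    ∑ c ∈ C, brw (1 / 4) ((2 : ℝ) ^ (hc 1 l.2 c) / S.a c t)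

/-- The measure of the service `(q, mu)`. -/
noncomputable def Mh (C : Finset (Fin P.N)) (q mu : V → ℝ) (u : V) : ℝ :=
  P.A C.card * ∑ t, q t * S.m C t u + mu u

/-- The objective of the service `(q, mu)`. -/
noncomputable def Rv (T C : Finset (Fin P.N)) (l : Ce P V) (q mu : V → ℝ) : ℝ :=
  vioC G P.M (P.h - C.card - 1) l.1.1
      (fun u => cm G (Mh P S C q mu) u + P.Z' C.card * Fs P G S I u) I.W +
    ∑ x, PA P G S I T l x * cm G (Mh P S C q mu) x + ∑ t, q t * hcost P G S I C l t

/-- The weight of the service. -/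
noncomputable def sv (T C : Finset (Fin P.N)) (l : Ce P V) : ℝ :=
  rp (2 - Rv P G S I T C l (I.q T C l) (I.mu T C l) / P.dl C.card) *
    rp (2 * (DD P G S I T l / P.del) - 1)

/-! ### Own steps -/

/-- The payers of a label of the hub mode. -/
noncomputable def RP (C : Finset (Fin P.N)) (l : Ml P V) (lam : V → ℝ) (u : V) : ℝ :=
  (if u = l.1 then 1 else 0) + lam u + PP P G S I C l u / P.eta C.card

/-- The measure of a label of the hub mode. -/
noncomputable def MP (C : Finset (Fin P.N)) (l : Ml P V) (lam : V → ℝ) (u : V) : ℝ :=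
  P.A' C.card * S.m C l.1 u + RP P G S I C l lam u

/-- The violation at the own node `x`. -/
noncomputable def upsP (C : Finset (Fin P.N)) (l : Ml P V) (lam : V → ℝ) (x : V) : ℝ :=
  vioC G P.M (P.h - C.card - 1) x
    (fun u => cm G (MP P G S I C l lam) u + P.Z'' C.card * Fs P G S I u) I.W

/-- The objective of the own step of the hub mode. -/
noncomputable def objP (C : Finset (Fin P.N)) (l : Ml P V) (lam : V → ℝ) : ℝ :=
  ∑ x, PP P G S I C l x * upsP P G S I C l lam x

/-- The payers of a cell. -/
noncomputable def RA (T C : Finset (Fin P.N)) (l : Ce P V) (lam : V → ℝ) (u : V) : ℝ :=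
  P.A' C.card * I.mu T C l u + (if u = l.1.1 then 1 else 0) + lam u +
    PA P G S I T l u / P.eta C.card

/-- The measure of a cell. -/
noncomputable def MA (T C : Finset (Fin P.N)) (l : Ce P V) (lam : V → ℝ) (u : V) : ℝ :=
  P.A' C.card * (P.A C.card * ∑ t, I.q T C l t * S.m C t u) + RA P G S I T C l lam u

/-- The violation at the own node `x`. -/
noncomputable def upsA (T C : Finset (Fin P.N)) (l : Ce P V) (lam : V → ℝ) (x : V) : ℝ :=
  vioC G P.M (P.h - C.card - 1) x
    (fun u => cm G (MA P G S I T C l lam) u + P.Z'' C.card * Fs P G S I u) I.W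

/-- The objective of the own step of the cell. -/
noncomputable def objA (T C : Finset (Fin P.N)) (l : Ce P V) (lam : V → ℝ) : ℝ :=
  ∑ x, PA P G S I T l x * upsA P G S I T C l lam x

/-! ### Scores, payment functions, masters -/

/-- The score of the hub mode. -/
noncomputable def ShP (C : Finset (Fin P.N)) (x : V) : ℝ :=
  ∑ l, wP P G S I C l x * (1 - upsP P G S I C l (I.lp C l) x)

/-- The score of the item `T`. -/
noncomputable def ShA (T C : Finset (Fin P.N)) (x : V) : ℝ :=
  ∑ l, wA P G S I T l x * sv P G S I T C l * (1 - upsA P G S I T C l (I.la T C l) x)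

/-- The kernel of the payment functions. -/
noncomputable def kq (i : ℕ) (u : V) : ℝ := √(kp (al P G I u / lv i))

/-- The payment function of the hub mode. -/
noncomputable def gpP (C : Finset (Fin P.N)) (u : V) : ℝ :=
  ∑ l : Ml P V, I.pi l * (kq P G I l.2 u * (cm G (RP P G S I C l (I.lp C l)) u / al P G I u))

/-- The payment function of the item `T`. -/
noncomputable def gpA (T C : Finset (Fin P.N)) (u : V) : ℝ :=
  ∑ l : Ce P V, rho P G S I T l * (kq P G I l.1.2 u *
    (cm G (RA P G S I T C l (I.la T C l)) u / al P G I u))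

/-- The items which contain `C`. -/
noncomputable def its (C : Finset (Fin P.N)) : Finset (Finset (Fin P.N)) :=
  ((Finset.univ.filter fun c => c < s).powersetCard P.r0).filter fun T => C ⊆ T

/-- The smallest score. -/
noncomputable def cst (k : ℕ) : ℝ := min (P.cP k) P.cA

/-- The new master. -/
noncomputable def mst (C : Finset (Fin P.N)) (x u : V) : ℝ :=
  1 / cst P C.card * (∑ l, wP P G S I C l x * MP P G S I C l (I.lp C l) u +
    ∑ T ∈ its P s C, ∑ l, wA P G S I T l x * sv P G S I T C l * MA P G S I T C l (I.la T C l) u)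

/-- The next state. -/
noncomputable def nxt : Sta P V where
  a c x := if c = s then al P G I x else S.a c x
  m C x u := if s ∈ C then mst P G s S I (C.erase s) x u else S.m C x u
  F b := Fs P G S I b

end

end Pool.Agent.Lib.GSX
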