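import Pool.Agent.Lib.GSX.K0
import Pool.Agent.Lib.GSX.KSv
import Pool.Agent.Lib.GSX.KB
import Pool.Agent.Lib.GSX.Rec

/-!
# The constants of the game: the blocks together

The derived constants (bounds for masses, payments, ..) which one block gives to the next one are
arbitrary functions of the older constants (`Fa`, `Fb`, `Fc`, ..); only their signs are used.
-/

set_option autoImplicit false

namespace Pool.Agent.Lib.GSX

open Filter Topology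

/-! ### The first part: block 0 -/

/-- The constants of block 0. -/
structure Ka where
  gU : ℝ
  g0 : ℝ
  r0 : ℕ
  qB : ℕ
  wU : ℝ
  RU : ℕ
  e3U : ℝ
  e1U : ℝ
  xiU : ℝ
  w0 : ℝ
  cP : ℕ → ℝ
  cA : ℝ
  L0 : ℕ
  N0 : ℕ
  N : ℕ
  kU : ℝ
  c0 : ℝ
  et : ℝ
  eps1 : ℝ
  del : ℝ
  delU : ℝ

/-- The functions which are used for the first part: numbers of the bits and of the tests, factors
for the items and for the own masses. -/
structure Fa where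
  nb : ℕ → ℕ → ℕ
  nt : ℕ → ℕ → ℕ
  Ke : ℕ → ℝ → ℝ
  Kd : ℕ → ℝ → ℝ

/-- The inequalities of the first part. -/
def OkKa (h M : ℕ) (F : ℝ) (R : ℕ) (f : Fa) (k : Ka) : Prop :=
  OkK0 h M F R f.nb f.nt f.Ke f.Kd k.gU k.g0 k.r0 k.qB k.wU k.RU k.e3U k.e1U k.xiU k.w0
    k.cP k.cA k.L0 k.N0 k.N k.kU k.c0 k.et k.eps1 k.del k.delU

theorem exists_okKa {h M : ℕ} {F : ℝ} (R : ℕ) (h1 : 1 ≤ h) (hF : 1 ≤ F) (f : Fa) :
    ∃ k : Ka, OkKa h M F R f k := by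
  obtain ⟨gU, g0, r0, qB, wU, RU, e3U, e1U, xiU, w0, cP, cA, L0, N0, N, kU, c0, et,
    eps1, del, delU, hk⟩ := exists_okK0 h M F R h1 hF f.nb f.nt f.Ke f.Kd
  exact ⟨⟨gU, g0, r0, qB, wU, RU, e3U, e1U, xiU, w0, cP, cA, L0, N0, N, kU, c0, et,
    eps1, del, delU⟩, hk⟩

/-! ### The second part: services, own steps, payments, masters, the gap of the high hubs -/

/-- The constants up to the gap of the high hubs. -/
structure Kb extends Ka where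
  dO : ℕ → ℝ
  rk : RkS
  Bd : ℝ
  B : ℕ → ℝ
  lG : ℝ

/-- The functions which are used for the second part: own masses of the labels of the hub mode
and of the cells, weight of the cells, factor of the payments, number of the items, scores. -/
structure Fb where
  D : Ka → ℝ
  D' : Ka → ℝ
  HA : Ka → ℝ
  Kq : Ka → ℝ
  Nit : Ka → ℕ
  c : Ka → ℕ → ℝ
  tO : Ka → ℕ → ℝ
  tD : Ka → ℕ → ℝ → ℝ → ℝ → ℝ
  tB : Ka → (ℕ → ℝ) → RkS → ℝ
  Fm : Ka → (ℕ → ℝ) → RkS → ℝ → ℕ → ℝ → ℝ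
  E : Ka → (ℕ → ℝ) → RkS → ℝ → (ℕ → ℝ) → ℝ → Prop

/-- The signs. -/
structure Fb.Ex (f : Fb) (k : Ka) : Prop where
  D : 0 < f.D k
  D' : 0 < f.D' k
  HA : 0 < f.HA k
  c : ∀ r, 0 < f.c k r
  tO : ∀ r, 0 < f.tO k r
  tD : ∀ r a l e, 1 ≤ a → 0 ≤ l → 0 < e → 0 < f.tD k r a l e
  E : ∀ dO rk Bd B, ∀ᶠ x in atTop, f.E k dO rk Bd B x

/-- The inequalities of the second part. -/
structure OkKb (h M κ : ℕ) (f : Fb) (k : Kb) : Prop where
  s : OkS M h κ (f.D k.toKa) (f.D' k.toKa) (f.HA k.toKa) (f.Kq k.toKa) k.c0 k.et k.del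
    (f.Nit k.toKa) (f.c k.toKa) k.dO k.rk k.Bd k.B k.lG
  tO : ∀ r, k.dO r ≤ f.tO k.toKa r
  tD : ∀ r, k.rk.dl r ≤ f.tD k.toKa r (k.rk.A' r) (k.rk.Lam' r) (k.rk.eta r)
  tB : f.tB k.toKa k.dO k.rk ≤ k.Bd
  Fm : ∀ r, f.Fm k.toKa k.dO k.rk k.Bd r (k.B r) ≤ k.B (r + 1)
  E : f.E k.toKa k.dO k.rk k.Bd k.B k.lG

theorem exists_okKb {h M κ : ℕ} {F : ℝ} {R : ℕ} (hM : 1 ≤ M) {fa : Fa} {f : Fb} {k : Ka}
    (hk : OkKa h M F R fa k) (hf : f.Ex k) : ∃ k' : Kb, k'.toKa = k ∧ OkKb h M κ f k' := by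
  obtain ⟨dO, rk, Bd, B, lG, h1, h2, h3, h4, h5, h6⟩ := exists_okS (h := h) κ hM hf.D hf.D'
    hf.HA hk.c0_pos hk.et_pos hk.del_pos (f.Nit k) (Kq := f.Kq k) hf.c hf.tO hf.tD (f.tB k)
    (f.Fm k) (f.E k) hf.E
  exact ⟨⟨k, dO, rk, Bd, B, lG⟩, rfl, h1, h2, h3, h4, h5, h6⟩

/-! ### The third part: the labels of the pool stages -/

/-- The constants up to the thinness. -/
structure Kc extends Kb where
  ek : ℝ
  ex : ℝ
  etB : ℝ
  kc : TCW.Cst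
  K1 : ℝ
  eth : ℝ
  d : ℕ
  xi : ℝ

/-- The functions which are used for the third part. -/
structure Fc where
  inB : Kb → KBIn
  LK : Kb → ℤ → ℝ
  UX : Kb → ℝ → ℝ → ℝ → TCW.Cst → ℝ → ℝ → ℕ → ℝ

/-- The signs. -/
structure Fc.Ex (f : Fc) (k : Kb) : Prop where
  pos : (f.inB k).Pos
  UX : ∀ ek ex eta c K1 eth d, 0 < f.UX k ek ex eta c K1 eth d

/-- The inequalities of the third part. -/
structure OkKc (f : Fc) (k : Kc) : Prop where
  b : OkB (f.inB k.toKb) (f.LK k.toKb) k.ek k.ex k.etB k.kc k.K1 k.eth k.d k.xi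
  UX : k.xi ≤ f.UX k.toKb k.ek k.ex k.etB k.kc k.K1 k.eth k.d

theorem exists_okKc {f : Fc} {k : Kb} (hf : f.Ex k) : ∃ k' : Kc, k'.toKb = k ∧ OkKc f k' := by
  obtain ⟨ek, ex, eta, c, K1, eth, d, xi, h1, h2⟩ :=
    exists_okB (f.inB k) hf.pos (f.LK k) (f.UX k) hf.UX
  exact ⟨⟨k, ek, ex, eta, c, K1, eth, d, xi⟩, rfl, h1, h2⟩

end Pool.Agent.Lib.GSX
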