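import Pool.Agent.Lib.GSX.Ok
import Pool.Agent.Lib.GSX.KDef
import Pool.Agent.Lib.GSX.BdK
import Pool.Agent.Lib.GSI.RedF

/-!
# The constants of the game: the choice of the derived constants

The functions which are used for the blocks of `Ok.lean`, and the existence of the constants up to
the thinness `xi`.
-/

set_option autoImplicit false

namespace Pool.Agent.Lib.GSX

open Filter Topology
open Pool.Agent.Lib.GSI (Wd)
open Pool.Agent.Lib.GSLE (brw)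

/-! ### The first part -/

/-- A bound for the number of the tests. -/
def ntN (N r : ℕ) : ℕ := 1000 * ((N + 1) * (2 ^ N * 2 ^ N) * (r + 1))

/-- The functions of the first part. -/
noncomputable def fa (h : ℕ) : Fa where
  nb N _ := nbN h N
  nt := ntN
  Ke _ _ := 1
  Kd _ c0 := 32 * Knc c0

/-! ### The second part -/

/-- The functions of the second part. -/
noncomputable def fb : Fb where
  D k := Dmc k.c0
  D' k := Pmc k.c0 k.eps1
  HA k := Dmc k.c0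
  Kq k := Dmc k.c0
  Nit k := 2 ^ k.N
  c k r := min (k.cP r) k.cA
  tO _ _ := 1
  tD _ _ _ _ _ := 1
  tB _ _ _ := 1
  Fm k _ q Bd r x := 1 / min (k.cP r) k.cA * (q.A' r * x + Bd + 2 ^ k.N *
    (2 * q.A' r * q.A r * x * q.dl r * brw (1 / 4) ((2 : ℝ) ^ (k.w0 + 1)) + 2 * Bd / k.eps1))
  E _ _ _ _ _ _ := True

theorem fb_ex {h M : ℕ} {F : ℝ} {R : ℕ} {f : Fa} {k : Ka} (hk : OkKa h M F R f k) :
    fb.Ex k where
  D := Dmc_pos hk.c0_pos
  D' := Pmc_pos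
  HA := Dmc_pos hk.c0_pos
  c r := lt_min (hk.cPpos r) hk.cA_pos
  tO _ := one_pos
  tD _ _ _ _ _ _ _ := one_pos
  E _ _ _ _ := Filter.Eventually.of_forall fun _ => trivial

/-! ### The third part -/

/-- The natural above the window of the heights. -/
noncomputable def wN (w0 : ℝ) : ℕ := ⌈w0⌉₊ + 1

theorem wN_ge (w0 : ℝ) : w0 + 1 ≤ wN w0 := by
  unfold wN
  push_cast
  linarith [Nat.le_ceil w0]

/-- The older constants of block B. -/
noncomputable def inB (h M κ : ℕ) (F : ℝ) (D : Wd) (k : Kb) : KBIn where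
  h := h
  M := M
  κ := κ
  N := k.N
  g0 := k.g0
  w0 := k.w0
  lG := k.lG
  v0 := 42
  wn := wN k.w0
  gw := 42
  F := F
  K0 := Knc k.c0
  KX := Knc k.c0 + 1
  C1 := 2 / k.eps1
  tau := 32 * k.et
  H := Dmc k.c0
  θ := k.eps1 / 2
  B := 1 / Pmc k.c0 k.eps1
  Bd := 2 * Dmc k.c0 / qq
  del := k.del
  Pm := Pmc k.c0 k.eps1
  X := 8 * 2 ^ k.qB
  xiU := k.xiU
  delU := k.delU
  gU := k.gU
  es := k.rk.es
  dl := k.rk.dl
  Bb := k.B
  eB m K e := D.ηB m k.qB 42 K e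

theorem inB_pos {h M κ : ℕ} {F : ℝ} {R : ℕ} {f : Fa} {g : Fb} {k : Kb} (D : Wd) (hM : 1 ≤ M)
    (hF : 1 ≤ F) (ha : OkKa h M F R f k.toKa) (hb : OkKb h M κ g k) :
    (inB h M κ F D k).Pos where
  M1 := hM
  F1 := hF
  K0 := one_le_Knc
  C1 := div_pos two_pos ha.eps_pos
  tau := mul_pos (by norm_num) ha.et_pos
  del := ha.del_pos
  Pm := Pmc_pos
  xiU := ha.xi_pos
  delU := ha.delU_pos
  es m _ := hb.s.rk.es0 m
  dl m _ := hb.s.rk.dl0 m
  Bb m _ := hb.s.Bnn m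
  eB m K e := D.ηB0 m k.qB 42 K e

/-- The functions of the third part. -/
noncomputable def fc (h M κ : ℕ) (F : ℝ) (D : Wd) : Fc where
  inB := inB h M κ F D
  LK k u := Dmc k.c0 * 4 ^ u.toNat
  UX _ _ _ _ _ _ _ _ := 1

theorem fc_ex {h M κ : ℕ} {F : ℝ} {R : ℕ} {f : Fa} {g : Fb} {k : Kb} (D : Wd) (hM : 1 ≤ M)
    (hF : 1 ≤ F) (ha : OkKa h M F R f k.toKa) (hb : OkKb h M κ g k) :
    (fc h M κ F D).Ex k where
  pos := inB_pos D hM hF ha hb
  UX _ _ _ _ _ _ _ := one_pos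

/-! ### All parts -/

/-- All the inequalities up to the thinness. -/
structure OkC (h M κ : ℕ) (F : ℝ) (R : ℕ) (D : Wd) (k : Kc) : Prop where
  a : OkKa h M F R (fa h) k.toKa
  b : OkKb h M κ fb k.toKb
  c : OkKc (fc h M κ F D) k

theorem exists_okC (h M κ : ℕ) (F : ℝ) (R : ℕ) (D : Wd) (h1 : 1 ≤ h) (hM : 1 ≤ M) (hF : 1 ≤ F) :
    ∃ k : Kc, OkC h M κ F R D k := by
  obtain ⟨ka, ha⟩ := exists_okKa R h1 hF (fa h)
  obtain ⟨kb, rfl, hb⟩ := exists_okKb (κ := κ) hM ha (fb_ex ha)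
  obtain ⟨kc, rfl, hc⟩ := exists_okKc (fc_ex D hM hF ha hb)
  exact ⟨kc, ha, hb, hc⟩

/-! ### The constants of the records -/

/-- The constants up to the atoms: the two UP systems, the atoms, the windows of equal heights,
the constants of the group `G`. -/
structure Kd extends Kc where
  th : Fin 2 → ℝ
  Gu : Fin 2 → ℝ
  Au : Fin 2 → ℝ
  Lu : Fin 2 → ℝ
  eu : Fin 2 → ℝ
  Bu : Fin 2 → ℝ
  xi2 : ℝ
  xi1 : ℝ
  K0E : ℝ
  K1E : ℝ
  eE : ℝ
  dE : ℝ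
  gE : ℝ
  LE : ℝ
  dG : Fin 2 → ℝ
  e1G : Fin 2 → ℝ
  BG : Fin 2 → ℕ → ℝ
  gG : ℕ
  dG' : ℝ
  LG' : ℝ
  vG : ℝ
  wG : ℝ
  tG : ℝ

/-- The constants of the records. -/
def cn (h M κ : ℕ) (k : Kd) (I0 : ℕ) (e0 : ℝ) : Cn where
  M := M
  h := h
  kap := κ
  N := k.N
  I0 := I0
  r0 := k.r0
  e0 := e0
  g0 := k.g0
  gU := k.gU
  w0 := k.w0
  lG := k.lG
  eps1 := k.eps1
  del := k.del
  cP := k.cP
  cA := k.cA
  Bd := k.Bd
  xi := k.xi
  xi2 := k.xi2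
  xi1 := k.xi1
  A := k.rk.A
  A' := k.rk.A'
  Lam := k.rk.Lam
  Lam' := k.rk.Lam'
  dl := k.rk.dl
  eta := k.rk.eta
  Z := k.rk.Z
  Z' := k.rk.Z'
  Z'' := k.rk.Z''
  th := k.th
  Gu := k.Gu
  Au := k.Au
  Lu := k.Lu
  eu := k.eu
  Bu := k.Bu

theorem nb_cn (h M κ : ℕ) (k : Kd) (I0 : ℕ) (e0 : ℝ) :
    nb (cn h M κ k I0 e0) = (fa h).nb k.N k.r0 := rfl

end Pool.Agent.Lib.GSX
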