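import Pool.Agent.Lib.GSR.Uns

/-!
# The constants of the ranks

* `RootC`: the statement `StRoot` with fixed constants, and its monotonicity.
* `RkOk`: the constants of the services and of the own steps for every rank; `exists_rk`.
* `ZOk`: the factors of the cover; `exists_z`.
* `BOk`: a sequence with an arbitrary recursive lower bound; `exists_b`.
-/

set_option autoImplicit false

namespace Pool.Agent.Lib.GSX

open Finset Classical
open Pool.Agent.Lib.FGF (cm)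
open Pool.Agent.Lib.FGF.LemAAux (cm_mono)
open Pool.Agent.Lib.GSR (vioC vioC_anti SrvC exists_srvC stRoot)

/-- `StRoot` with fixed constants. -/
def RootC (M j κ : ℕ) (δ A Λ η : ℝ) : Prop :=
  ∀ (V : Type) [Fintype V] (G : SimpleGraph V) (g q : V → ℝ) (L L' : Finset V) (v : V)
    (f : V → Fin κ),
    (∀ u, 0 ≤ g u) → (∀ u, 0 ≤ q u) → L ⊆ L' →
    (∀ c, q c ≠ 0 → G.Adj v c ∧ c ∈ L') →
    (∀ u w, G.Adj v u → G.Adj v w → G.Adj u w → f u ≠ f w) →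
    vioC G M (j + 1) v g L' ≤ 1 / 2 →
      ∃ l : V → ℝ, (∀ u, 0 ≤ l u) ∧ (∀ u, l u ≠ 0 → u ∈ L) ∧ ∑ u, l u ≤ Λ ∧
        ∑ c, q c * vioC G M j c (fun x => A * g x +
            cm G (fun u => (if u = v then 1 else 0) + l u + q u / η) x) L ≤
          δ + A * ∑ c, q c * min 1 (g c)

theorem exists_rootC (M j κ : ℕ) (hM : 1 ≤ M) (hj : 1 ≤ j) {δ : ℝ} (hδ : 0 < δ) :
    ∃ A Λ η : ℝ, 1 ≤ A ∧ 0 ≤ Λ ∧ 0 < η ∧ RootC M j κ δ A Λ η :=
  stRoot M j κ hM hj δ hδ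

/-- Larger factors and measures, smaller root laws. -/
theorem RootC.mono {M j κ : ℕ} {δ δ' A A' Λ Λ' η η' : ℝ} (h : RootC M j κ δ A Λ η)
    (hδ : δ ≤ δ') (hA : A ≤ A') (hΛ : Λ ≤ Λ') (hη' : 0 < η') (hη : η' ≤ η) :
    RootC M j κ δ' A' Λ' η' := by
  intro V _ G g q L L' v f hg hq hL hqv hf hv
  obtain ⟨l, h1, h2, h3, h4⟩ := h V G g q L L' v f hg hq hL hqv hf hv
  refine ⟨l, h1, h2, h3.trans hΛ, ?_⟩
  have h5 : 0 ≤ ∑ c, q c * min 1 (g c) :=
    Finset.sum_nonneg fun c _ => mul_nonneg (hq c) (le_min zero_le_one (hg c))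
  calc ∑ c, q c * vioC G M j c (fun x => A' * g x +
        cm G (fun u => (if u = v then 1 else 0) + l u + q u / η') x) L
      ≤ ∑ c, q c * vioC G M j c (fun x => A * g x +
        cm G (fun u => (if u = v then 1 else 0) + l u + q u / η) x) L := by
        refine Finset.sum_le_sum fun c _ => mul_le_mul_of_nonneg_left ?_ (hq c)
        refine vioC_anti (fun x => ?_) (Finset.Subset.refl L)
        refine add_le_add (mul_le_mul_of_nonneg_right hA (hg x)) (cm_mono (fun u => ?_) x)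
        have h6 : q u / η ≤ q u / η' := div_le_div_of_nonneg_left (hq u) hη' hη
        linarith
    _ ≤ δ + A * ∑ c, q c * min 1 (g c) := h4
    _ ≤ δ' + A' * ∑ c, q c * min 1 (g c) := add_le_add hδ (mul_le_mul_of_nonneg_right hA h5)

/-- Common constants for two depths. -/
theorem exists_rootC2 (M κ : ℕ) (hM : 1 ≤ M) (j₁ j₂ : ℕ) {δ : ℝ} (hδ : 0 < δ) :
    ∃ A Λ η : ℝ, 1 ≤ A ∧ 0 ≤ Λ ∧ 0 < η ∧ (1 ≤ j₁ → RootC M j₁ κ δ A Λ η) ∧
      (1 ≤ j₂ → RootC M j₂ κ δ A Λ η) := by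
  have h : ∀ j : ℕ, ∃ A Λ η : ℝ, 1 ≤ A ∧ 0 ≤ Λ ∧ 0 < η ∧ (1 ≤ j → RootC M j κ δ A Λ η) := by
    intro j
    by_cases hj : 1 ≤ j
    · obtain ⟨A, Λ, η, h1, h2, h3, h4⟩ := exists_rootC M j κ hM hj hδ
      exact ⟨A, Λ, η, h1, h2, h3, fun _ => h4⟩
    · exact ⟨1, 0, 1, le_rfl, le_rfl, one_pos, fun h => absurd h hj⟩
  obtain ⟨A₁, Λ₁, η₁, ha1, hb1, hc1, hd1⟩ := h j₁
  obtain ⟨A₂, Λ₂, η₂, ha2, hb2, hc2, hd2⟩ := h j₂
  refine ⟨max A₁ A₂, max Λ₁ Λ₂, min η₁ η₂, ha1.trans (le_max_left _ _),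
    hb1.trans (le_max_left _ _), lt_min hc1 hc2, fun hj => ?_, fun hj => ?_⟩
  · exact (hd1 hj).mono le_rfl (le_max_left _ _) (le_max_left _ _) (lt_min hc1 hc2)
      (min_le_left _ _)
  · exact (hd2 hj).mono le_rfl (le_max_right _ _) (le_max_right _ _) (lt_min hc1 hc2)
      (min_le_right _ _)

/-- Common constants for all the depths below `h`. -/
theorem exists_rootC_lt (M κ : ℕ) (hM : 1 ≤ M) (h : ℕ) {δ : ℝ} (hδ : 0 < δ) :
    ∃ A Λ η : ℝ, 1 ≤ A ∧ 0 ≤ Λ ∧ 0 < η ∧ ∀ j, 1 ≤ j → j < h → RootC M j κ δ A Λ η := by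
  induction h with
  | zero => exact ⟨1, 0, 1, le_rfl, le_rfl, one_pos, fun j _ hj => absurd hj (Nat.not_lt_zero j)⟩
  | succ h ih =>
    obtain ⟨A₁, Λ₁, η₁, ha1, hb1, hc1, hd1⟩ := ih
    obtain ⟨A₂, Λ₂, η₂, ha2, hb2, hc2, hd2, -⟩ := exists_rootC2 M κ hM h h hδ
    refine ⟨max A₁ A₂, max Λ₁ Λ₂, min η₁ η₂, ha1.trans (le_max_left _ _),
      hb1.trans (le_max_left _ _), lt_min hc1 hc2, fun j hj1 hj2 => ?_⟩
    rcases Nat.lt_succ_iff_lt_or_eq.1 hj2 with h3 | h3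
    · exact (hd1 j hj1 h3).mono le_rfl (le_max_left _ _) (le_max_left _ _) (lt_min hc1 hc2)
        (min_le_left _ _)
    · subst h3
      exact (hd2 hj1).mono le_rfl (le_max_right _ _) (le_max_right _ _) (lt_min hc1 hc2)
        (min_le_right _ _)

/-- Larger measures. -/
theorem srvC_mono {M j κ : ℕ} {δ δ' A Λ Λ' e e' : ℝ} (h : SrvC M j κ δ A Λ e)
    (hδ : δ ≤ δ') (hΛ : Λ ≤ Λ') (he : e' ≤ e) : SrvC M j κ δ' A Λ' e' := by
  intro V Om _ _ G g L L' t f y p om hg hL htL hp hom hom1 hy hf hv h1 h2 h3 h4 h5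
  obtain ⟨l, hl, mu, hmu0, hmuL, hmuΛ, hle⟩ := h V Om G g L L' t f y p om hg hL htL hp hom hom1
    hy hf hv (fun b hb => (h1 b hb).trans he) (h2.trans he) (h3.trans he) (h4.trans he)
    (h5.trans he)
  exact ⟨l, hl, mu, hmu0, hmuL, hmuΛ.trans hΛ, hle.trans hδ⟩

/-- The constants of the services and of the own steps.  `r` is the rank of the item, `h - r` the
depth of the trees at the hub. `dO r` is the accuracy of the own steps, `dl r` the threshold of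
the services, `Pm` a bound for the own masses, `es r` the accuracy needed by the services. -/
structure RkOk (M h κ : ℕ) (Pm : ℝ) (dO A A' Lam Lam' dl eta es : ℕ → ℝ) : Prop where
  A1 : ∀ r, 1 ≤ A r
  A1' : ∀ r, 1 ≤ A' r
  Lam0 : ∀ r, 0 ≤ Lam r
  Lam0' : ∀ r, 0 ≤ Lam' r
  dl0 : ∀ r, 0 < dl r
  eta0 : ∀ r, 0 < eta r
  es0 : ∀ r, 0 < es r
  root : ∀ r j, 1 ≤ j → j + r + 1 = h → RootC M j κ (dO r) (A' r) (Lam' r) (eta r)
  root' : ∀ r j, 1 ≤ j → j + r + 2 = h → RootC M j κ (dO r) (A' r) (Lam' r) (eta r)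
  srv : ∀ r j, 1 ≤ j → j + r + 1 = h → SrvC M j κ (dl r / (4 * Pm)) (A r) (Lam r) (es r)

/-- **The constants of the ranks exist**: `tO` is the accuracy of the own steps, `tD` any positive
bound for `dl r` which depends on the constants of the own steps. -/
theorem exists_rk (M h κ : ℕ) (hM : 1 ≤ M) {Pm : ℝ} (hPm : 0 < Pm) {dO : ℕ → ℝ}
    (hdO : ∀ r, 0 < dO r) {tD : ℕ → ℝ → ℝ → ℝ → ℝ}
    (htD : ∀ r a l e, 1 ≤ a → 0 ≤ l → 0 < e → 0 < tD r a l e) :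
    ∃ A A' Lam Lam' dl eta es : ℕ → ℝ, RkOk M h κ Pm dO A A' Lam Lam' dl eta es ∧
      (∀ r, dl r ≤ tD r (A' r) (Lam' r) (eta r)) := by
  have h1 := fun r : ℕ => exists_rootC2 M κ hM (h - r - 1) (h - r - 2) (hdO r)
  choose A' Lam' eta hA' hLam' heta hr1 hr2 using h1
  set dl : ℕ → ℝ := fun r => tD r (A' r) (Lam' r) (eta r) with hdl
  have hdl0 : ∀ r, 0 < dl r := fun r => htD r _ _ _ (hA' r) (hLam' r) (heta r)
  have h2 : ∀ r : ℕ, ∃ A Λ e : ℝ, 1 ≤ A ∧ 0 ≤ Λ ∧ 0 < e ∧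
      (1 ≤ h - r - 1 → SrvC M (h - r - 1) κ (dl r / (4 * Pm)) A Λ e) := by
    intro r
    by_cases hj : 1 ≤ h - r - 1
    · obtain ⟨A, Λ, e, h3, h4, h5, h6⟩ := exists_srvC M (h - r - 1) κ hM hj
        (δ := dl r / (4 * Pm)) (div_pos (hdl0 r) (by linarith))
      exact ⟨A, Λ, e, h3, h4, h5, fun _ => h6⟩
    · exact ⟨1, 0, 1, le_rfl, le_rfl, one_pos, fun h => absurd h hj⟩
  choose A Lam es hA hLam hes hsrv using h2
  refine ⟨A, A', Lam, Lam', dl, eta, es, ⟨hA, hA', hLam, hLam', hdl0, heta, hes, ?_, ?_, ?_⟩,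
    fun r => le_rfl⟩
  · intro r j hj hjr
    have h3 : h - r - 1 = j := by omega
    have h4 := hr1 r
    rw [h3] at h4
    exact h4 hj
  · intro r j hj hjr
    have h3 : h - r - 2 = j := by omega
    have h4 := hr2 r
    rw [h3] at h4
    exact h4 hj
  · intro r j hj hjr
    have h3 : h - r - 1 = j := by omega
    have h4 := hsrv r
    rw [h3] at h4
    exact h4 hj

/-- The factors of the cover. `H` is a bound for the weights of the labels, `c r` the threshold of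
the scores. -/
structure ZOk (H : ℝ) (c A A' Z Z' Z'' : ℕ → ℝ) : Prop where
  Z1 : ∀ r, 1 ≤ Z r
  Z1' : ∀ r, 1 ≤ Z' r
  Z1'' : ∀ r, 1 ≤ Z'' r
  AZ : ∀ r, A r * Z r ≤ Z' r
  ZZ' : ∀ r, Z r ≤ Z' r
  AZ' : ∀ r, A' r * Z r ≤ Z'' r
  AZ'' : ∀ r, A' r * Z' r ≤ Z'' r
  ZZ'' : ∀ r, Z' r ≤ Z'' r
  nxt : ∀ r, H / c r * Z'' r ≤ Z (r + 1)
  mono : ∀ r, Z'' r ≤ Z (r + 1)

theorem exists_z (H : ℝ) (c A A' : ℕ → ℝ) :
    ∃ Z Z' Z'' : ℕ → ℝ, ZOk H c A A' Z Z' Z'' := by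
  set z' : ℕ → ℝ → ℝ := fun r z => max z (A r * z) with hz'
  set z'' : ℕ → ℝ → ℝ := fun r z => max (z' r z) (max (A' r * z) (A' r * z' r z)) with hz''
  set Z : ℕ → ℝ := fun r => Nat.rec (motive := fun _ => ℝ) 1
    (fun r z => max (z'' r z) (H / c r * z'' r z)) r with hZ
  have hs : ∀ r, Z (r + 1) = max (z'' r (Z r)) (H / c r * z'' r (Z r)) := fun r => rfl
  have h1 : ∀ r z, z ≤ z' r z := fun r z => le_max_left _ _
  have h2 : ∀ r z, z' r z ≤ z'' r z := fun r z => le_max_left _ _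
  have h3 : ∀ r, 1 ≤ Z r := by
    intro r
    induction r with
    | zero => exact le_rfl
    | succ r ih =>
      rw [hs]
      exact (ih.trans ((h1 r _).trans (h2 r _))).trans (le_max_left _ _)
  refine ⟨Z, fun r => z' r (Z r), fun r => z'' r (Z r), ⟨h3, fun r => (h3 r).trans (h1 r _),
    fun r => (h3 r).trans ((h1 r _).trans (h2 r _)), fun r => le_max_right _ _, fun r => h1 r _,
    fun r => (le_max_left _ _).trans (le_max_right _ _),
    fun r => (le_max_right _ _).trans (le_max_right _ _), fun r => h2 r _, fun r => ?_,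
    fun r => ?_⟩⟩
  · rw [hs]
    exact le_max_right _ _
  · rw [hs]
    exact le_max_left _ _

namespace Rk_

/-- A monotone sequence with a recursive lower bound. -/
theorem exists_b (F : ℕ → ℝ → ℝ) (b₀ : ℝ) :
    ∃ B : ℕ → ℝ, B 0 = b₀ ∧ (∀ r, B r ≤ B (r + 1)) ∧ ∀ r, F r (B r) ≤ B (r + 1) := by
  refine ⟨fun r => Nat.rec (motive := fun _ => ℝ) b₀ (fun r b => max b (F r b)) r, rfl,
    fun r => le_max_left _ _, fun r => le_max_right _ _⟩

/-- Nonnegative and monotone. -/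
theorem exists_b0 (F : ℕ → ℝ → ℝ) :
    ∃ B : ℕ → ℝ, B 0 = 0 ∧ (∀ r, 0 ≤ B r) ∧ Monotone B ∧ ∀ r, F r (B r) ≤ B (r + 1) := by
  obtain ⟨B, h1, h2, h3⟩ := exists_b F 0
  have hm : Monotone B := monotone_nat_of_le_succ h2
  refine ⟨B, h1, fun r => ?_, hm, h3⟩
  rw [← h1]
  exact hm (Nat.zero_le r)

/-- Maxima of a sequence below a bound. -/
theorem exists_max (f : ℕ → ℝ) (h : ℕ) : ∃ m : ℝ, 0 ≤ m ∧ ∀ r, r < h → f r ≤ m := by
  induction h with
  | zero => exact ⟨0, le_rfl, fun r hr => absurd hr (Nat.not_lt_zero r)⟩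
  | succ h ih =>
    obtain ⟨m, h0, h1⟩ := ih
    refine ⟨max m (f h), h0.trans (le_max_left _ _), fun r hr => ?_⟩
    rcases Nat.lt_succ_iff_lt_or_eq.1 hr with h3 | h3
    · exact (h1 r h3).trans (le_max_left _ _)
    · rw [h3]
      exact le_max_right _ _

/-- Minima of a positive sequence below a bound. -/
theorem exists_min (f : ℕ → ℝ) (hf : ∀ r, 0 < f r) (h : ℕ) :
    ∃ m : ℝ, 0 < m ∧ m ≤ 1 ∧ ∀ r, r < h → m ≤ f r := by
  induction h with
  | zero => exact ⟨1, one_pos, le_rfl, fun r hr => absurd hr (Nat.not_lt_zero r)⟩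
  | succ h ih =>
    obtain ⟨m, h0, h2, h1⟩ := ih
    refine ⟨min m (f h), lt_min h0 (hf h), (min_le_left _ _).trans h2, fun r hr => ?_⟩
    rcases Nat.lt_succ_iff_lt_or_eq.1 hr with h3 | h3
    · exact (min_le_left _ _).trans (h1 r h3)
    · rw [h3]
      exact min_le_right _ _

end Rk_

end Pool.Agent.Lib.GSX
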