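import Pool.Agent.Lib.GSX.RecP
import Pool.Agent.Lib.GSX.Rk
import Pool.Agent.Lib.GSR.Score
import Pool.Agent.Lib.GSR.Star

/-!
# The own steps of one record

`own_P`, `own_A`: if the coordinate of the own step is a best reply and the hub is dominated by its
charge up to `1 / 2` then the objective of the own step is at most the accuracy of `RootC` plus the
cost of the own nodes.  `own_A_sv`: the cells which are served.
-/

set_option autoImplicit false

namespace Pool.Agent.Lib.GSX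

open Finset Classical
open Pool.Agent.Lib.FGF (cm)
open Pool.Agent.Lib.GSLE (cl CC)
open Pool.Agent.Lib.GSR (vioC vioC_nonneg vioC_anti vioC_mono_rank OwnK)
open Pool.Agent.Lib.GSR.Srv_ (cm_cl)

namespace OwnI_

theorem cm_add {V : Type} [Fintype V] (G : SimpleGraph V) (r r' : V → ℝ) (x : V) :
    cm G (fun u => r u + r' u) x = cm G r x + cm G r' x := by
  simp only [cm_cl, add_mul, Finset.sum_add_distrib]

theorem cm_smul {V : Type} [Fintype V] (G : SimpleGraph V) (a : ℝ) (r : V → ℝ) (x : V) :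
    cm G (fun u => a * r u) x = a * cm G r x := by
  simp only [cm_cl, Finset.mul_sum, mul_assoc]

end OwnI_

open OwnI_ RecP_

section

variable {V : Type} [Fintype V] {P : Cn} {G : SimpleGraph V} {s : Fin P.N} {S : Sta P V}
  {I : Inp P V}

/-! ### Hub mode -/

theorem cm_MP (C : Finset (Fin P.N)) (l : Ml P V) (lam : V → ℝ) (x : V) :
    cm G (MP P G S I C l lam) x =
      P.A' C.card * cm G (S.m C l.1) x + cm G (RP P G S I C l lam) x := by
  rw [← cm_smul, ← cm_add]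
  rfl

theorem PP_adj {C : Finset (Fin P.N)} {l : Ml P V} {x : V} (h : PP P G S I C l x ≠ 0) :
    I.n3 x ≠ 0 ∧ G.Adj l.1 x := by
  unfold PP at h
  refine ⟨fun h0 => h (by rw [h0, zero_mul, zero_div]), ?_⟩
  have h1 : CP P G S I C x l ≠ 0 := fun h0 => h (by rw [h0, mul_zero, zero_div])
  exact (kk_ne (left_ne_zero_of_mul h1)).1.symm

/-- **The own step of the hub mode.** -/
theorem own_P {κ : ℕ} {δ : ℝ} (hP : CPos P) (hS : SPos S) (hn : ∀ x, 0 ≤ I.n3 x)
    (hnW : ∀ x, I.n3 x ≠ 0 → x ∈ I.W) {C : Finset (Fin P.N)} {l : Ml P V}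
    (hr : C.card + 2 ≤ P.h)
    (hR : RootC P.M (P.h - C.card - 1) κ δ (P.A' C.card) (P.Lam' C.card) (P.eta C.card))
    (hZ : P.A' C.card * P.Z C.card ≤ P.Z'' C.card) (f : V → Fin κ)
    (hf : ∀ u w, G.Adj l.1 u → G.Adj l.1 w → G.Adj u w → f u ≠ f w)
    (hv : vioC G P.M (P.h - C.card) l.1
      (fun u => cm G (S.m C l.1) u + P.Z C.card * Fs P G S I u) I.W ≤ 1 / 2)
    (hmin : ∀ lam ∈ OwnK (P.Lam' C.card) I.W,
      objP P G S I C l (I.lp C l) ≤ objP P G S I C l lam) :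
    objP P G S I C l (I.lp C l) ≤ δ + P.A' C.card *
      ∑ x, PP P G S I C l x *
        min 1 (cm G (S.m C l.1) x + P.Z C.card * Fs P G S I x) := by
  have hFs : ∀ u, 0 ≤ Fs P G S I u := Fs_nonneg hS.F
  have hj : P.h - C.card = P.h - C.card - 1 + 1 := by omega
  rw [hj] at hv
  obtain ⟨lam, h1, h2, h3, h4⟩ := hR V G
    (fun u => cm G (S.m C l.1) u + P.Z C.card * Fs P G S I u) (PP P G S I C l) I.W I.W l.1 f
    (fun u => add_nonneg (cm_nonneg' (fun w => hS.m C l.1 w) u) (mul_nonneg (hP.Z _) (hFs u)))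
    (fun x => PP_nonneg hn C l x) (Finset.Subset.refl _)
    (fun c hc => ⟨(PP_adj hc).2, hnW c (PP_adj hc).1⟩) hf hv
  refine ((hmin lam ⟨h1, h2, h3⟩).trans ?_).trans h4
  unfold objP
  refine Finset.sum_le_sum fun x _ => mul_le_mul_of_nonneg_left ?_ (PP_nonneg hn C l x)
  unfold upsP
  refine vioC_anti (fun u => ?_) (Finset.Subset.refl _)
  rw [cm_MP]
  have h5 : P.A' C.card * P.Z C.card * Fs P G S I u ≤ P.Z'' C.card * Fs P G S I u :=
    mul_le_mul_of_nonneg_right hZ (hFs u)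
  have h6 : cm G (fun u => (if u = l.1 then 1 else 0) + lam u +
      PP P G S I C l u / P.eta C.card) u = cm G (RP P G S I C l lam) u := rfl
  rw [h6]
  linarith

/-! ### Cells -/

theorem cm_MA (T C : Finset (Fin P.N)) (l : Ce P V) (lam : V → ℝ) (x : V) :
    cm G (MA P G S I T C l lam) x =
      P.A' C.card * cm G (Mh P S C (I.q T C l) (I.mu T C l)) x +
        cm G (fun u => (if u = l.1.1 then 1 else 0) + lam u +
          PA P G S I T l u / P.eta C.card) x := by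
  rw [← cm_smul, ← cm_add]
  congr 1
  funext u
  unfold MA RA Mh
  ring

theorem PA_adj {T : Finset (Fin P.N)} {l : Ce P V} {x : V} (h : PA P G S I T l x ≠ 0) :
    I.n3 x ≠ 0 ∧ G.Adj l.1.1 x := by
  unfold PA at h
  refine ⟨fun h0 => h (by rw [h0, zero_mul, zero_div]), ?_⟩
  have h1 : CS P G S I T x l ≠ 0 := fun h0 => h (by rw [h0, mul_zero, zero_div])
  unfold CS CC at h1
  exact (kk_ne (left_ne_zero_of_mul (left_ne_zero_of_mul h1))).1.symm

/-- **The own step of a cell.** -/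
theorem own_A {κ : ℕ} {δ : ℝ} (hP : CPos P) (hS : SPos S) (hI : IPos I)
    (hnW : ∀ x, I.n3 x ≠ 0 → x ∈ I.W) {T C : Finset (Fin P.N)} {l : Ce P V}
    (hr : C.card + 3 ≤ P.h)
    (hR : RootC P.M (P.h - C.card - 2) κ δ (P.A' C.card) (P.Lam' C.card) (P.eta C.card))
    (hZ : P.A' C.card * P.Z' C.card ≤ P.Z'' C.card) (f : V → Fin κ)
    (hf : ∀ u w, G.Adj l.1.1 u → G.Adj l.1.1 w → G.Adj u w → f u ≠ f w)
    (hv : vioC G P.M (P.h - C.card - 1) l.1.1
      (fun u => cm G (Mh P S C (I.q T C l) (I.mu T C l)) u + P.Z' C.card * Fs P G S I u)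
        I.W ≤ 1 / 2)
    (hmin : ∀ lam ∈ OwnK (P.Lam' C.card) I.W,
      objA P G S I T C l (I.la T C l) ≤ objA P G S I T C l lam) :
    objA P G S I T C l (I.la T C l) ≤ δ + P.A' C.card *
      ∑ x, PA P G S I T l x *
        min 1 (cm G (Mh P S C (I.q T C l) (I.mu T C l)) x + P.Z' C.card * Fs P G S I x) := by
  have hFs : ∀ u, 0 ≤ Fs P G S I u := Fs_nonneg hS.F
  have hj : P.h - C.card - 1 = P.h - C.card - 2 + 1 := by omega
  have hMh : ∀ u, 0 ≤ cm G (Mh P S C (I.q T C l) (I.mu T C l)) u := cm_nonneg' fun w =>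
    Mh_nonneg hP.A hS.m C (hI.q T C l) (hI.mu T C l) w
  have hPA : ∀ x, 0 ≤ PA P G S I T l x := fun x => PA_nonneg hP.eps1 hI.n3 T l x
  rw [hj] at hv
  obtain ⟨lam, h1, h2, h3, h4⟩ := hR V G
    (fun u => cm G (Mh P S C (I.q T C l) (I.mu T C l)) u + P.Z' C.card * Fs P G S I u)
    (PA P G S I T l) I.W I.W l.1.1 f
    (fun u => add_nonneg (hMh u) (mul_nonneg (hP.Z' _) (hFs u)))
    hPA (Finset.Subset.refl _)
    (fun c hc => ⟨(PA_adj hc).2, hnW c (PA_adj hc).1⟩) hf hv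
  refine ((hmin lam ⟨h1, h2, h3⟩).trans ?_).trans h4
  unfold objA
  refine Finset.sum_le_sum fun x _ => mul_le_mul_of_nonneg_left ?_ (hPA x)
  unfold upsA
  have hMA : ∀ u, cm G (MA P G S I T C l lam) u + P.Z'' C.card * Fs P G S I u ≥
      P.A' C.card * (cm G (Mh P S C (I.q T C l) (I.mu T C l)) u +
        P.Z' C.card * Fs P G S I u) + cm G (fun u => (if u = l.1.1 then 1 else 0) + lam u +
          PA P G S I T l u / P.eta C.card) u := by
    intro u
    rw [cm_MA]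
    have h5 : P.A' C.card * P.Z' C.card * Fs P G S I u ≤ P.Z'' C.card * Fs P G S I u :=
      mul_le_mul_of_nonneg_right hZ (hFs u)
    linarith
  refine (vioC_mono_rank (show P.h - C.card - 2 ≤ P.h - C.card - 1 by omega) (fun u _ => ?_)
    (Finset.Subset.refl _)).trans (vioC_anti hMA (Finset.Subset.refl _))
  exact add_nonneg (cm_nonneg' (fun w => MA_nonneg hP hS hI T C l h1 w) u)
    (mul_nonneg (hP.Z'' _) (hFs u))

/-- The violation at the hub and the cost of a served cell. -/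
theorem sv_facts (hP : CPos P) (hS : SPos S) (hI : IPos I) {T C : Finset (Fin P.N)} {l : Ce P V}
    (h : sv P G S I T C l ≠ 0) :
    vioC G P.M (P.h - C.card - 1) l.1.1
      (fun u => cm G (Mh P S C (I.q T C l) (I.mu T C l)) u + P.Z' C.card * Fs P G S I u)
        I.W ≤ 2 * P.dl C.card ∧
    ∑ x, PA P G S I T l x * cm G (Mh P S C (I.q T C l) (I.mu T C l)) x ≤ 2 * P.dl C.card ∧
    ∑ t, I.q T C l t * hcost P G S I C l t ≤ 2 * P.dl C.card := by
  have h1 := (sv_ne hP h).1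
  unfold Rv at h1
  have hMh : ∀ u, 0 ≤ cm G (Mh P S C (I.q T C l) (I.mu T C l)) u := cm_nonneg' fun w =>
    Mh_nonneg hP.A hS.m C (hI.q T C l) (hI.mu T C l) w
  have h2 : 0 ≤ ∑ x, PA P G S I T l x * cm G (Mh P S C (I.q T C l) (I.mu T C l)) x :=
    Finset.sum_nonneg fun x _ => mul_nonneg (PA_nonneg hP.eps1 hI.n3 T l x) (hMh x)
  have h3 : 0 ≤ ∑ t, I.q T C l t * hcost P G S I C l t :=
    Finset.sum_nonneg fun t _ => mul_nonneg (hI.q T C l t) (hcost_nonneg hS.a C l t)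
  have h4 : 0 ≤ vioC G P.M (P.h - C.card - 1) l.1.1
      (fun u => cm G (Mh P S C (I.q T C l) (I.mu T C l)) u + P.Z' C.card * Fs P G S I u)
        I.W := vioC_nonneg
  refine ⟨?_, ?_, ?_⟩ <;> linarith

/-- **The own step of a served cell.** -/
theorem own_A_sv {κ : ℕ} {δ : ℝ} (hP : CPos P) (hS : SPos S) (hI : IPos I)
    (hnW : ∀ x, I.n3 x ≠ 0 → x ∈ I.W) (hnF : ∀ x, I.n3 x ≠ 0 → Fs P G S I x = 0)
    {T C : Finset (Fin P.N)} {l : Ce P V} (hr : C.card + 3 ≤ P.h)
    (hR : RootC P.M (P.h - C.card - 2) κ δ (P.A' C.card) (P.Lam' C.card) (P.eta C.card))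
    (hZ : P.A' C.card * P.Z' C.card ≤ P.Z'' C.card) (hdl : P.dl C.card ≤ 1 / 4) (f : V → Fin κ)
    (hf : ∀ u w, G.Adj l.1.1 u → G.Adj l.1.1 w → G.Adj u w → f u ≠ f w)
    (hmin : ∀ lam ∈ OwnK (P.Lam' C.card) I.W,
      objA P G S I T C l (I.la T C l) ≤ objA P G S I T C l lam)
    (hsv : sv P G S I T C l ≠ 0) :
    objA P G S I T C l (I.la T C l) ≤ δ + 2 * P.A' C.card * P.dl C.card := by
  obtain ⟨h1, h2, -⟩ := sv_facts hP hS hI hsv
  refine (own_A hP hS hI hnW hr hR hZ f hf (h1.trans (by linarith)) hmin).trans ?_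
  have h3 : ∑ x, PA P G S I T l x *
      min 1 (cm G (Mh P S C (I.q T C l) (I.mu T C l)) x + P.Z' C.card * Fs P G S I x) ≤
      2 * P.dl C.card := by
    refine le_trans (Finset.sum_le_sum fun x _ => ?_) h2
    by_cases hx : PA P G S I T l x = 0
    · rw [hx, zero_mul, zero_mul]
    · rw [hnF x (PA_adj hx).1, mul_zero, add_zero]
      exact mul_le_mul_of_nonneg_left (min_le_right _ _) (PA_nonneg hP.eps1 hI.n3 T l x)
  have h4 := mul_le_mul_of_nonneg_left h3 (hP.A' C.card)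
  linarith

/-- The own step of the hub mode with cheap own nodes. -/
theorem own_P_le {κ : ℕ} {δ e D : ℝ} (hP : CPos P) (hS : SPos S) (hn : ∀ x, 0 ≤ I.n3 x)
    (hnW : ∀ x, I.n3 x ≠ 0 → x ∈ I.W) (hnF : ∀ x, I.n3 x ≠ 0 → Fs P G S I x = 0)
    {C : Finset (Fin P.N)} {l : Ml P V} (hr : C.card + 2 ≤ P.h)
    (hR : RootC P.M (P.h - C.card - 1) κ δ (P.A' C.card) (P.Lam' C.card) (P.eta C.card))
    (hZ : P.A' C.card * P.Z C.card ≤ P.Z'' C.card) (f : V → Fin κ)
    (hf : ∀ u w, G.Adj l.1 u → G.Adj l.1 w → G.Adj u w → f u ≠ f w)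
    (hv : vioC G P.M (P.h - C.card) l.1
      (fun u => cm G (S.m C l.1) u + P.Z C.card * Fs P G S I u) I.W ≤ 1 / 2)
    (hmin : ∀ lam ∈ OwnK (P.Lam' C.card) I.W,
      objP P G S I C l (I.lp C l) ≤ objP P G S I C l lam)
    (he : 0 ≤ e) (hc : ∀ x, PP P G S I C l x ≠ 0 → cm G (S.m C l.1) x ≤ e)
    (hD : ∑ x, PP P G S I C l x ≤ D) :
    objP P G S I C l (I.lp C l) ≤ δ + P.A' C.card * (e * D) := by
  refine (own_P hP hS hn hnW hr hR hZ f hf hv hmin).trans ?_
  have h3 : ∑ x, PP P G S I C l x *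
      min 1 (cm G (S.m C l.1) x + P.Z C.card * Fs P G S I x) ≤ e * D := by
    refine le_trans (Finset.sum_le_sum (g := fun x => e * PP P G S I C l x) fun x _ => ?_) ?_
    · by_cases hx : PP P G S I C l x = 0
      · rw [hx, zero_mul, mul_zero]
      · rw [hnF x (PP_adj hx).1, mul_zero, add_zero, mul_comm]
        exact mul_le_mul_of_nonneg_right ((min_le_right _ _).trans (hc x hx))
          (PP_nonneg hn C l x)
    · rw [← Finset.mul_sum]
      exact mul_le_mul_of_nonneg_left hD he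
  have h4 := mul_le_mul_of_nonneg_left h3 (hP.A' C.card)
  linarith

/-- The validity at the stage gives the violation at the hub. -/
theorem vio_of_val (hP : CPos P) {C : Finset (Fin P.N)} {y : V}
    (h : vioC G P.M (P.h - C.card) y (fun u => cm G (S.m C y) u + P.Z C.card * S.F u) I.W = 0) :
    vioC G P.M (P.h - C.card) y
      (fun u => cm G (S.m C y) u + P.Z C.card * Fs P G S I u) I.W ≤ 1 / 2 := by
  refine (vioC_anti (fun u => ?_) (Finset.Subset.refl _)).trans (h.le.trans (by norm_num))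
  have h1 := mul_le_mul_of_nonneg_left (F_le_Fs (P := P) (G := G) (S := S) (I := I) u)
    (hP.Z C.card)
  linarith

end

end Pool.Agent.Lib.GSX
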