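import Pool.Agent.Lib.GSX.UpD
import Pool.Agent.Lib.GSX.ContD

/-!
# Continuity of the internal UP system

`U θ` is a family of UP systems: the world, the arity, the depth and the constants do not depend on
the parameter `θ ∈ D`; the laws, the scale and the services are continuous on `D`.  Then the state
before every step and the side functions are continuous on `D`.
-/

set_option autoImplicit false

namespace Pool.Agent.Lib.GSX

open Finset Classical
open Pool.Agent.Lib.FGF (cm nm)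
open Pool.Agent.Lib.GSLE (kp kp_continuous kp_nonneg)
open Pool.Agent.Lib.GSR (vioC continuousOn_vioC)

namespace UpSide_

section

variable {V Θ : Type} [Fintype V] [TopologicalSpace Θ] {I0 : ℕ}

/-- A continuous family of UP systems with the same world and the same constants as `U0`. -/
structure ContU (U : Θ → UpI V I0) (U0 : UpI V I0) (D : Set Θ) : Prop where
  M : ∀ θ ∈ D, (U θ).M = U0.M
  h : ∀ θ ∈ D, (U θ).h = U0.h
  e : ∀ θ ∈ D, (U θ).e = U0.e
  th : ∀ θ ∈ D, (U θ).th = U0.th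
  Gam : ∀ θ ∈ D, (U θ).Gam = U0.Gam
  eta : ∀ θ ∈ D, (U θ).eta = U0.eta
  Amp : ∀ θ ∈ D, (U θ).Amp = U0.Amp
  W : ∀ θ ∈ D, (U θ).W = U0.W
  n : ∀ x, ContinuousOn (fun θ => (U θ).n x) D
  a : ∀ x, ContinuousOn (fun θ => (U θ).a x) D
  sg : ∀ j l, ContinuousOn (fun θ => (U θ).sg j l) D
  su : ∀ j l x, ContinuousOn (fun θ => (U θ).su j l x) D
  a0 : ∀ θ ∈ D, ∀ x, 0 < (U θ).a x
  sg0 : ∀ θ ∈ D, ∀ j l, 0 ≤ (U θ).sg j l
  e0 : 0 < U0.e
  th0 : U0.th ≠ 0
  Gam0 : U0.Gam ≠ 0

/-- A continuous family of weights and masters, the weights are nonnegative. -/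
structure ContX (X : Θ → UpS V) (D : Set Θ) : Prop where
  f : ∀ z, ContinuousOn (fun θ => (X θ).f z) D
  m : ∀ x u, ContinuousOn (fun θ => (X θ).m x u) D
  f0 : ∀ θ ∈ D, ∀ z, 0 ≤ (X θ).f z

variable {G : SimpleGraph V} {U : Θ → UpI V I0} {U0 : UpI V I0} {D : Set Θ} {X : Θ → UpS V}

theorem rp_cont : Continuous rp := by
  unfold rp
  fun_prop

theorem rp0 (u : ℝ) : 0 ≤ rp u := le_max_left _ _

theorem lv0 (i : ℕ) : 0 < lv i := by
  unfold lv
  positivity

theorem cm_cont {f : Θ → V → ℝ} (hf : ∀ u, ContinuousOn (fun θ => f θ u) D) (x : V) :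
    ContinuousOn (fun θ => cm G (f θ) x) D := by
  unfold cm nm
  exact (hf x).add (continuousOn_finsetSum _ fun u _ => hf u)

omit [Fintype V] in
theorem upK_nonneg (U : UpI V I0) (x : V) (l : V × Fin (I0 + 1)) :
    0 ≤ upK G U x l := by
  unfold upK
  refine mul_nonneg (mul_nonneg ?_ (kp_nonneg _)) (rp0 _)
  split_ifs <;> norm_num

theorem upA_pos (U : UpI V I0) (he : 0 < U.e) {j : ℕ}
    (hs : ∀ l, 0 ≤ U.sg j l) {X : UpS V} (hf : ∀ z, 0 ≤ X.f z) (x : V) : 0 < upA G U j X x :=
  add_pos_of_pos_of_nonneg he (Finset.sum_nonneg fun l _ =>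
    mul_nonneg (mul_nonneg (hs l) (hf _)) (upK_nonneg U x l))

theorem upN_f_nonneg (U : UpI V I0) (j : ℕ) {X : UpS V} (hf : ∀ z, 0 ≤ X.f z) (z : V) :
    0 ≤ (upN G U j X).f z :=
  mul_nonneg (mul_nonneg (hf z) (rp0 _)) (rp0 _)

theorem ups_f_nonneg (U : UpI V I0) (j : ℕ) (z : V) : 0 ≤ (ups G U j).f z := by
  induction j generalizing z with
  | zero => exact zero_le_one
  | succ j ih => exact upN_f_nonneg U j ih z

/-! ### One step -/

omit [Fintype V] in
theorem upK_cont (hU : ContU U U0 D) (x : V) (l : V × Fin (I0 + 1)) :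
    ContinuousOn (fun θ => upK G (U θ) x l) D := by
  have h1 : ContinuousOn (fun _ : Θ => if G.Adj x l.1 ∧ l.1 ∈ U0.W then (1 : ℝ) else 0) D :=
    continuousOn_const
  have h2 : ContinuousOn (fun θ => kp ((U θ).a x / lv l.2)) D :=
    kp_continuous.comp_continuousOn ((hU.a x).div_const _)
  have h3 : ContinuousOn (fun θ => rp ((U θ).a l.1 / (U0.Gam * (U θ).a x) - 1)) D :=
    rp_cont.comp_continuousOn (((hU.a l.1).div (continuousOn_const.mul (hU.a x))
      fun θ hθ => mul_ne_zero hU.Gam0 (hU.a0 θ hθ x).ne').sub continuousOn_const)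
  refine ((h1.mul h2).mul h3).congr fun θ hθ => ?_
  simp only [upK, hU.W θ hθ, hU.Gam θ hθ, Pi.mul_apply]

theorem upA_cont (hU : ContU U U0 D) (hX : ContX X D) (j : ℕ) (x : V) :
    ContinuousOn (fun θ => upA G (U θ) j (X θ) x) D := by
  have h1 : ContinuousOn (fun θ => U0.e + ∑ l, (U θ).sg j l * (X θ).f l.1 * upK G (U θ) x l) D :=
    continuousOn_const.add (continuousOn_finsetSum _ fun l _ =>
      ((hU.sg j l).mul (hX.f l.1)).mul (upK_cont hU x l))
  refine h1.congr fun θ hθ => ?_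
  simp only [upA, hU.e θ hθ]

theorem upA_ne (hU : ContU U U0 D) (hX : ContX X D) (j : ℕ) (x : V) :
    ∀ θ ∈ D, upA G (U θ) j (X θ) x ≠ 0 := fun θ hθ =>
  (upA_pos (U θ) (by rw [hU.e θ hθ]; exact hU.e0) (hU.sg0 θ hθ j)
    (hX.f0 θ hθ) x).ne'

theorem upw_cont (hU : ContU U U0 D) (hX : ContX X D) (j : ℕ) (x : V)
    (l : V × Fin (I0 + 1)) : ContinuousOn (fun θ => upw G (U θ) j (X θ) x l) D := by
  unfold upw
  exact (((hU.sg j l).mul (hX.f l.1)).mul (upK_cont hU x l)).div (upA_cont hU hX j x)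
    (upA_ne hU hX j x)

theorem upq_cont (hU : ContU U U0 D) (hX : ContX X D) (j : ℕ) (l : V × Fin (I0 + 1)) (x : V) :
    ContinuousOn (fun θ => upq G (U θ) j (X θ) l x) D := by
  unfold upq
  exact (((hU.n x).mul (hX.f l.1)).mul (upK_cont hU x l)).div (upA_cont hU hX j x)
    (upA_ne hU hX j x)

theorem upR_cont (hU : ContU U U0 D) (hX : ContX X D) (j : ℕ) (l : V × Fin (I0 + 1))
    {lam : Θ → V → ℝ} (hl : ∀ u, ContinuousOn (fun θ => lam θ u) D) (u : V) :
    ContinuousOn (fun θ => upR G (U θ) j (X θ) l (lam θ) u) D := by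
  have h1 : ContinuousOn (fun θ => (if u = l.1 then (1 : ℝ) else 0) + lam θ u +
      upq G (U θ) j (X θ) l u / U0.eta) D :=
    (continuousOn_const.add (hl u)).add ((upq_cont hU hX j l u).div_const _)
  refine h1.congr fun θ hθ => ?_
  simp only [upR, hU.eta θ hθ]

theorem upM_cont (hU : ContU U U0 D) (hX : ContX X D) (j : ℕ) (l : V × Fin (I0 + 1))
    {lam : Θ → V → ℝ} (hl : ∀ u, ContinuousOn (fun θ => lam θ u) D) (u : V) :
    ContinuousOn (fun θ => upM G (U θ) j (X θ) l (lam θ) u) D := by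
  have h1 : ContinuousOn (fun θ => U0.Amp * (X θ).m l.1 u +
      upR G (U θ) j (X θ) l (lam θ) u) D :=
    (continuousOn_const.mul (hX.m l.1 u)).add (upR_cont hU hX j l hl u)
  refine h1.congr fun θ hθ => ?_
  simp only [upM, hU.Amp θ hθ]

theorem upv_cont (hU : ContU U U0 D) (hX : ContX X D) (j : ℕ) (l : V × Fin (I0 + 1))
    {lam : Θ → V → ℝ} (hl : ∀ u, ContinuousOn (fun θ => lam θ u) D) (x : V) :
    ContinuousOn (fun θ => upv G (U θ) j (X θ) l (lam θ) x) D := by
  have h1 : ContinuousOn (fun θ => vioC G U0.M (U0.h - j - 1) x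
      (fun u => cm G (upM G (U θ) j (X θ) l (lam θ)) u) U0.W) D :=
    continuousOn_vioC fun u => cm_cont (upM_cont hU hX j l hl) u
  refine h1.congr fun θ hθ => ?_
  simp only [upv, hU.M θ hθ, hU.h θ hθ, hU.W θ hθ]

/-- The objective of a service, jointly with its coordinate. -/
theorem upObj_cont (hU : ContU U U0 D) (hX : ContX X D) (j : ℕ) (l : V × Fin (I0 + 1))
    {lam : Θ → V → ℝ} (hl : ∀ u, ContinuousOn (fun θ => lam θ u) D) :
    ContinuousOn (fun θ => upObj G (U θ) j (X θ) l (lam θ)) D := by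
  unfold upObj
  exact continuousOn_finsetSum _ fun x _ => (upq_cont hU hX j l x).mul
    (upv_cont hU hX j l hl x)

/-- The logarithmic pay-off, jointly with its coordinate. -/
theorem upLog_cont (hU : ContU U U0 D) (hX : ContX X D)
    {sig : Θ → V × Fin (I0 + 1) → ℝ} (hs : ∀ l, ContinuousOn (fun θ => sig θ l) D)
    (hs0 : ∀ θ ∈ D, ∀ l, 0 ≤ sig θ l) :
    ContinuousOn (fun θ => upLog G (U θ) (X θ) (sig θ)) D := by
  have h1 : ContinuousOn (fun θ => ∑ x, (U θ).n x *
      Real.log (U0.e + ∑ l, sig θ l * (X θ).f l.1 * upK G (U θ) x l)) D := by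
    refine continuousOn_finsetSum _ fun x _ => (hU.n x).mul (ContinuousOn.log
      (continuousOn_const.add (continuousOn_finsetSum _ fun l _ =>
        ((hs l).mul (hX.f l.1)).mul (upK_cont hU x l))) fun θ hθ => ?_)
    exact (add_pos_of_pos_of_nonneg hU.e0 (Finset.sum_nonneg fun l _ =>
      mul_nonneg (mul_nonneg (hs0 θ hθ l) (hX.f0 θ hθ _))
        (upK_nonneg (U θ) x l))).ne'
  refine h1.congr fun θ hθ => ?_
  simp only [upLog, hU.e θ hθ]

theorem upSh_cont (hU : ContU U U0 D) (hX : ContX X D) (j : ℕ) (x : V) :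
    ContinuousOn (fun θ => upSh G (U θ) j (X θ) x) D := by
  unfold upSh
  exact continuousOn_finsetSum _ fun l _ => (upw_cont hU hX j x l).mul
    (continuousOn_const.sub (upv_cont hU hX j l (lam := fun θ => (U θ).su j l)
      (hU.su j l) x))

theorem upg_cont (hU : ContU U U0 D) (hX : ContX X D) (j : ℕ) (u : V) :
    ContinuousOn (fun θ => upg G (U θ) j (X θ) u) D := by
  unfold upg
  refine continuousOn_finsetSum _ fun l _ => ((hU.sg j l).mul (hX.f l.1)).mul ?_
  exact (Real.continuous_sqrt.comp_continuousOn (kp_continuous.comp_continuousOn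
    ((hU.a u).div_const _))).mul ((cm_cont (G := G) (upR_cont hU hX j l
      (lam := fun θ => (U θ).su j l) (hU.su j l)) u).div (hU.a u)
        fun θ hθ => (hU.a0 θ hθ u).ne')

theorem upN_cont (hU : ContU U U0 D) (hX : ContX X D) (j : ℕ) :
    ContX (fun θ => upN G (U θ) j (X θ)) D where
  f z := by
    have h1 : ContinuousOn (fun θ => (X θ).f z *
        rp (upA G (U θ) j (X θ) z / (U0.th * (U θ).a z) - 1) *
        rp (8 * upSh G (U θ) j (X θ) z - 2)) D :=
      ((hX.f z).mul (rp_cont.comp_continuousOn (((upA_cont hU hX j z).div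
        (continuousOn_const.mul (hU.a z)) fun θ hθ =>
          mul_ne_zero hU.th0 (hU.a0 θ hθ z).ne').sub continuousOn_const))).mul
        (rp_cont.comp_continuousOn ((continuousOn_const.mul (upSh_cont hU hX j z)).sub
          continuousOn_const))
    refine h1.congr fun θ hθ => ?_
    simp only [upN, hU.th θ hθ]
  m x u := by
    simp only [upN]
    exact continuousOn_const.mul (continuousOn_finsetSum _ fun l _ =>
      (upw_cont hU hX j x l).mul (upM_cont hU hX j l (lam := fun θ => (U θ).su j l)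
        (hU.su j l) u))
  f0 θ hθ z := upN_f_nonneg (U θ) j (hX.f0 θ hθ) z

/-! ### All steps -/

/-- The state before every step is a continuous family. -/
theorem ups_cont (hU : ContU U U0 D) (j : ℕ) : ContX (fun θ => ups G (U θ) j) D := by
  induction j with
  | zero => exact ⟨fun _ => continuousOn_const, fun _ _ => continuousOn_const,
      fun _ _ _ => zero_le_one⟩
  | succ j ih => exact upN_cont hU ih j

/-- The side `A ≤ 2 th a`. -/
theorem sideA_cont (hU : ContU U U0 D) (j : ℕ) (x : V) :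
    ContinuousOn (fun θ => upA G (U θ) j (ups G (U θ) j) x - 2 * (U θ).th * (U θ).a x) D := by
  have h1 : ContinuousOn (fun θ => upA G (U θ) j (ups G (U θ) j) x -
      2 * U0.th * (U θ).a x) D :=
    (upA_cont hU (ups_cont hU j) j x).sub (continuousOn_const.mul (hU.a x))
  refine h1.congr fun θ hθ => ?_
  simp only [hU.th θ hθ]

/-- The score of the step. -/
theorem sideSh_cont (hU : ContU U U0 D) (j : ℕ) (x : V) :
    ContinuousOn (fun θ => upSh G (U θ) j (ups G (U θ) j) x) D :=
  upSh_cont hU (ups_cont hU j) j x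

/-- The combined side function. -/
theorem sideMin_cont (hU : ContU U U0 D) (j : ℕ) (x : V) :
    ContinuousOn (fun θ => min (upA G (U θ) j (ups G (U θ) j) x - 2 * (U θ).th * (U θ).a x)
      (3 / 8 - upSh G (U θ) j (ups G (U θ) j) x)) D :=
  (sideA_cont hU j x).inf (continuousOn_const.sub (sideSh_cont hU j x))

/-- The payment function of the step. -/
theorem sideg_cont (hU : ContU U U0 D) (j : ℕ) (x : V) :
    ContinuousOn (fun θ => upg G (U θ) j (ups G (U θ) j) x) D :=
  upg_cont hU (ups_cont hU j) j x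

end

/-! ### The two UP systems of a stage -/

section

variable {V Θ : Type} [Fintype V] [TopologicalSpace Θ] {P : Cn} {G : SimpleGraph V}
  {D : Set Θ} {I : Θ → Inp P V} {W : Finset V}

/-- The constants of the system `b` with the world `W`. -/
noncomputable def upi0 (P : Cn) {V : Type} (W : Finset V) (b : Fin 2) : UpI V P.I0 where
  M := P.M
  h := P.h
  e := P.e0 * P.th b / 2
  th := P.th b
  Gam := P.Gu b
  eta := P.eu b
  Amp := P.Au b
  W := W
  n := fun _ => 0
  a := fun _ => 0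
  sg := fun _ _ => 0
  su := fun _ _ _ => 0

/-- The UP systems of a continuous family of inputs. -/
theorem contU_upi (he : 0 < P.e0) (b : Fin 2) (hth : 0 < P.th b) (hG : 0 < P.Gu b)
    (hI : ContI I W D) (hal : ∀ x, ContinuousOn (fun θ => al P G (I θ) x) D)
    (hsg : ∀ θ ∈ D, ∀ j l, 0 ≤ (I θ).sg b j l) :
    ContU (fun θ => upi P G (I θ) b) (upi0 P W b) D where
  M _ _ := rfl
  h _ _ := rfl
  e _ _ := rfl
  th _ _ := rfl
  Gam _ _ := rfl
  eta _ _ := rfl
  Amp _ _ := rfl
  W θ hθ := hI.hW θ hθ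
  n := hI.n1
  a := hal
  sg := hI.sg b
  su := hI.su b
  a0 _ _ x := RecP_.al_pos x
  sg0 := hsg
  e0 := div_pos (mul_pos he hth) two_pos
  th0 := hth.ne'
  Gam0 := hG.ne'

end

end UpSide_

end Pool.Agent.Lib.GSX
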