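import Pool.Agent.Lib.GSX.Fam
import Pool.Agent.Lib.GSX.CvxC
import Pool.Agent.Lib.GSX.BestU
import Pool.Agent.Lib.GSX.UpSide

/-!
# The pay-offs of the ordinary coordinates: joint continuity and concavity

One theorem for every kind of coordinates: the pay-off is continuous in the parameter and the
coordinate (on `D ×ˢ K`) and concave in the coordinate (on `K`).
-/

set_option autoImplicit false

namespace Pool.Agent.Lib.GSX

open Finset Classical
open Pool.Agent.Lib.FGF (cm)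
open Pool.Agent.Lib.GSLE (kp)

namespace PayCI_

/-! ### Families on the product -/

section fst

variable {V Θ E : Type} [TopologicalSpace Θ] [TopologicalSpace E] {P : Cn} {D : Set Θ}
  {S : Θ → Sta P V} {I : Θ → Inp P V} {W : Finset V}

theorem cfst {f : Θ → ℝ} (hf : ContinuousOn f D) (K : Set E) :
    ContinuousOn (fun p : Θ × E => f p.1) (D ×ˢ K) :=
  hf.comp continuousOn_fst fun _ hp => hp.1

theorem contI_fst (h : ContI I W D) (K : Set E) :
    ContI (fun p : Θ × E => I p.1) W (D ×ˢ K) :=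
  ⟨fun p hp => h.hW p.1 hp.1, fun x => cfst (h.n0 x) K, fun x => cfst (h.n1 x) K,
    fun x => cfst (h.n2 x) K, fun x => cfst (h.n3 x) K, fun l => cfst (h.pi l) K,
    fun a j l => cfst (h.sg a j l) K, fun a j l x => cfst (h.su a j l x) K,
    fun C l x => cfst (h.lp C l x) K, fun T C l x => cfst (h.q T C l x) K,
    fun T C l x => cfst (h.mu T C l x) K, fun T C l x => cfst (h.la T C l x) K⟩

theorem contS_fst (h : ContS S D) (K : Set E) : ContS (fun p : Θ × E => S p.1) (D ×ˢ K) :=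
  ⟨fun c x => cfst (h.a c x) K, fun C v u => cfst (h.m C v u) K, fun u => cfst (h.F u) K⟩

theorem fam_fst (h : Fam P S I W D) (K : Set E) :
    Fam P (fun p : Θ × E => S p.1) (fun p => I p.1) W (D ×ˢ K) :=
  ⟨h.hP, contI_fst h.cI K, contS_fst h.cS K, fun p hp => h.pI p.1 hp.1,
    fun p hp => h.pS p.1 hp.1⟩

end fst

/-! ### The main law -/

section main

variable {V Θ : Type} [Fintype V] [TopologicalSpace Θ] {P : Cn} {G : SimpleGraph V}
  {D : Set Θ} {S : Θ → Sta P V} {I : Θ → Inp P V} {W : Finset V}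

/-- The pay-off of a main label is continuous. -/
theorem Dm_cont (h : Fam P S I W D) {n : Θ → V → ℝ}
    (hn : ∀ x, ContinuousOn (fun θ => n θ x) D) (l : Ml P V) :
    ContinuousOn (fun θ => Dm P G (I θ) (n θ) l) D := by
  have h1 : (fun θ => Dm P G (I θ) (n θ) l) = fun θ => ∑ x, n θ x / al P G (I θ) x *
      (inc G (I θ).W x l * kp (al P G (I θ) x / lv l.2)) := funext fun θ => Dm_eq _ _ _
  rw [h1]
  exact continuousOn_finsetSum _ fun x _ => ((hn x).div (h.al x) fun θ _ =>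
    (RecP_.al_pos x).ne').mul ((C1_inc h.cI x l).mul (C1_kp h.al x _))

end main

/-! ### The UP systems -/

section up

variable {V : Type} [Fintype V] {I0 : ℕ} {G : SimpleGraph V} {U : UpI V I0} {j : ℕ}
  {X : UpS V}

/-- The measure of the label is affine in the service. -/
theorem upM_aff (l : V × Fin (I0 + 1)) {a b : ℝ} (hab : a + b = 1) (y y' : V → ℝ) (u : V) :
    upM G U j X l (a • y + b • y') u = a * upM G U j X l y u + b * upM G U j X l y' u := by
  unfold upM upR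
  rw [Pi.add_apply, Pi.smul_apply, Pi.smul_apply, smul_eq_mul, smul_eq_mul]
  have h2 : ∀ z : ℝ, z = a * z + b * z := fun z => by rw [← add_mul, hab, one_mul]
  linear_combination h2 (U.Amp * X.m l.1 u + (if u = l.1 then (1 : ℝ) else 0) +
    upq G U j X l u / U.eta)

/-- The objective of the service is convex. -/
theorem upObj_convexOn (l : V × Fin (I0 + 1)) (hq : ∀ x, 0 ≤ upq G U j X l x)
    {K : Set (V → ℝ)} (hK : Convex ℝ K) :
    ConvexOn ℝ K fun lam : V → ℝ => upObj G U j X l lam := by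
  unfold upObj
  refine CvxC_.convexOn_wsum hK _ _ (fun x _ => hq x) _ fun x _ => ?_
  unfold upv
  refine CvxC_.convexOn_vioC G hK _ ?_
  intro a b _ _ hab y y' u
  rw [← CvxC_.cm_add_smul]
  congr 1
  exact funext fun v => upM_aff l hab y y' v

/-- The logarithmic pay-off is concave. -/
theorem upLog_concaveOn (he : 0 < U.e) (hn : ∀ x, 0 ≤ U.n x) (hX : ∀ z, 0 ≤ X.f z)
    {K : Set (V × Fin (I0 + 1) → ℝ)} (hK : Convex ℝ K) (hK0 : ∀ p ∈ K, ∀ l, 0 ≤ p l) :
    ConcaveOn ℝ K fun sig => upLog G U X sig := by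
  have h1 : (fun sig => upLog G U X sig) =
      GSR.lg U.e U.n (fun x l => X.f l.1 * upK G U x l) := funext fun sig => BestU_.upLog_eq sig
  rw [h1]
  exact GSR.concaveOn_lg he hn (fun x l => mul_nonneg (hX _) (UpSide_.upK_nonneg U x l)) hK hK0

end up

end PayCI_

open PayCI_

/-! ### The pay-offs in the form of the game -/

section game

variable {V Θ : Type} [Fintype V] [TopologicalSpace Θ] {P : Cn} {G : SimpleGraph V}
  {D : Set Θ} {S : Θ → Sta P V} {I : Θ → Inp P V} {W : Finset V}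

/-- The constants of the UP systems and the laws have the right signs. -/
structure FamU (P : Cn) (I : Θ → Inp P V) (D : Set Θ) : Prop where
  th : ∀ b, 0 < P.th b
  Gu : ∀ b, 0 < P.Gu b
  sg : ∀ θ ∈ D, ∀ b j l, 0 ≤ (I θ).sg b j l

/-- The UP system `b` of a continuous family is a continuous family. -/
theorem Fam.contU (h : Fam P S I W D) (hU : FamU P I D) (b : Fin 2) :
    UpSide_.ContU (fun θ => upi P G (I θ) b) (UpSide_.upi0 P W b) D :=
  UpSide_.contU_upi h.hP.e0 b (hU.th b) (hU.Gu b) h.cI h.al fun θ hθ => hU.sg θ hθ b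

omit [Fintype V] [TopologicalSpace Θ] in
theorem FamU.fst {E : Type} (h : FamU P I D) (K : Set E) :
    FamU P (fun p : Θ × E => I p.1) (D ×ˢ K) :=
  ⟨h.th, h.Gu, fun p hp => h.sg p.1 hp.1⟩

/-- The main law. -/
theorem Fam.pay_pi_cont (h : Fam P S I W D) (K : Set (Ml P V → ℝ)) :
    ContinuousOn (fun p : Θ × (Ml P V → ℝ) =>
      ∑ l, p.2 l * Dm P G (I p.1) (I p.1).n0 l) (D ×ˢ K) :=
  lin_continuousOn (g := fun θ l => Dm P G (I θ) (I θ).n0 l) (fun l => Dm_cont h h.cI.n0 l) K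

theorem pay_pi_concave (I : Inp P V) {K : Set (Ml P V → ℝ)} (hK : Convex ℝ K) :
    ConcaveOn ℝ K fun p : Ml P V → ℝ => ∑ l, p l * Dm P G I I.n0 l :=
  lin_concave _ hK

/-- The laws of the UP systems. -/
theorem Fam.pay_sg_cont (h : Fam P S I W D) (hU : FamU P I D) (b : Fin 2) (j : ℕ)
    {K : Set (Ml P V → ℝ)} (hK : ∀ p ∈ K, ∀ l, 0 ≤ p l) :
    ContinuousOn (fun p : Θ × (Ml P V → ℝ) =>
      upLog G (upi P G (I p.1) b) (upx P G (I p.1) b j) p.2) (D ×ˢ K) := by
  have h1 := (fam_fst h K).contU (G := G) (hU.fst K) b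
  exact UpSide_.upLog_cont (sig := fun p : Θ × (Ml P V → ℝ) => p.2) h1
    (UpSide_.ups_cont h1 j) (fun l => by fun_prop) fun p hp => hK p.2 hp.2

theorem pay_sg_concave {I : Inp P V} (he : 0 < P.e0) (b : Fin 2) (hth : 0 < P.th b)
    (hn : ∀ x, 0 ≤ I.n1 x) (j : ℕ) {K : Set (Ml P V → ℝ)} (hKc : Convex ℝ K)
    (hK : ∀ p ∈ K, ∀ l, 0 ≤ p l) :
    ConcaveOn ℝ K fun p : Ml P V → ℝ => upLog G (upi P G I b) (upx P G I b j) p :=
  upLog_concaveOn (U := upi P G I b) (div_pos (mul_pos he hth) two_pos) hn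
    (UpSide_.ups_f_nonneg _ j) hKc hK

/-- The services of the UP systems. -/
theorem Fam.pay_su_cont (h : Fam P S I W D) (hU : FamU P I D) (b : Fin 2) (j : ℕ)
    (l : Ml P V) (K : Set (V → ℝ)) :
    ContinuousOn (fun p : Θ × (V → ℝ) =>
      -upObj G (upi P G (I p.1) b) j (upx P G (I p.1) b j) l p.2) (D ×ˢ K) := by
  have h1 := (fam_fst h K).contU (G := G) (hU.fst K) b
  exact (UpSide_.upObj_cont (lam := fun p : Θ × (V → ℝ) => p.2) h1
    (UpSide_.ups_cont h1 j) j l (fun u => by fun_prop)).neg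

theorem pay_su_concave {I : Inp P V} (he : 0 < P.e0) (b : Fin 2) (hth : 0 < P.th b)
    (hn : ∀ x, 0 ≤ I.n1 x) (hsg : ∀ j l, 0 ≤ I.sg b j l) (j : ℕ) (l : Ml P V)
    {K : Set (V → ℝ)} (hK : Convex ℝ K) :
    ConcaveOn ℝ K fun lam : V → ℝ => -upObj G (upi P G I b) j (upx P G I b j) l lam := by
  have hf := UpSide_.ups_f_nonneg (G := G) (upi P G I b) j
  refine (upObj_convexOn l (fun x => ?_) hK).neg
  exact div_nonneg (mul_nonneg (mul_nonneg (hn x) (hf _)) (UpSide_.upK_nonneg _ x l))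
    (UpSide_.upA_pos (upi P G I b) (div_pos (mul_pos he hth) two_pos) (hsg j) hf x).le

/-- The services of the cells. -/
theorem Fam.pay_sv_cont (h : Fam P S I W D) (T C : Finset (Fin P.N)) (l : Ce P V)
    (K : Set (V ⊕ V → ℝ)) :
    ContinuousOn (fun p : Θ × (V ⊕ V → ℝ) => -GSX.Rv P G (S p.1) (I p.1) T C l
      (fun u => p.2 (.inl u)) (fun u => p.2 (.inr u))) (D ×ˢ K) :=
  GSX.pay_sv_cont P G S I h.cI.hW (h.cS.m C) h.Fs (h.PA T l) (h.hcost C l) K

/-- The own steps of the hub mode. -/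
theorem Fam.pay_lp_cont (h : Fam P S I W D) (C : Finset (Fin P.N)) (l : Ml P V)
    (K : Set (V → ℝ)) :
    ContinuousOn (fun p : Θ × (V → ℝ) => -GSX.objP P G (S p.1) (I p.1) C l p.2) (D ×ˢ K) :=
  GSX.pay_lp_cont P G S I h.cI.hW (h.cS.m C) h.Fs (h.PP C l) K

/-- The own steps of the cells. -/
theorem Fam.pay_la_cont (h : Fam P S I W D) (T C : Finset (Fin P.N)) (l : Ce P V)
    (K : Set (V → ℝ)) :
    ContinuousOn (fun p : Θ × (V → ℝ) => -GSX.objA P G (S p.1) (I p.1) T C l p.2) (D ×ˢ K) :=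
  GSX.pay_la_cont P G S I h.cI.hW (h.cS.m C) h.Fs (h.PA T l) (h.cI.q T C l) (h.cI.mu T C l) K

theorem pay_lp_concave' (S : Sta P V) {I : Inp P V} (hn : ∀ x, 0 ≤ I.n3 x)
    (C : Finset (Fin P.N)) (l : Ml P V) {K : Set (V → ℝ)} (hK : Convex ℝ K) :
    ConcaveOn ℝ K fun lam : V → ℝ => -objP P G S I C l lam :=
  pay_lp_concave P G S I C l (fun x => RecP_.PP_nonneg hn C l x) hK

theorem pay_la_concave' (he : 0 < P.eps1) (S : Sta P V) {I : Inp P V}
    (hn : ∀ x, 0 ≤ I.n3 x) (T C : Finset (Fin P.N)) (l : Ce P V) {K : Set (V → ℝ)}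
    (hK : Convex ℝ K) : ConcaveOn ℝ K fun lam : V → ℝ => -objA P G S I T C l lam :=
  pay_la_concave P G S I T C l (fun x => RecP_.PA_nonneg he hn T l x) hK

end game

end Pool.Agent.Lib.GSX
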