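import Pool.Agent.Lib.GSX.Rec
import Pool.Agent.Lib.GSLE.Pay

/-!
# The mean of the payment functions

Every vertex has a level `j ≤ I0` with `|hs x + j| ≤ 1`, and on the level `j` the kernel `kq i` is
at most `√2 * q4 ^ ds i j`.  So the mean of the payment functions `gpP`, `gpA` for a law `n` with
bounded level masses `Db` is bounded by the total mass of the payers.
-/

set_option autoImplicit false

namespace Pool.Agent.Lib.GSX

open Finset Classical
open Pool.Agent.Lib.FGF (cm)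
open Pool.Agent.Lib.GSLE (kp brw cl win stp Cel hc rhoC CC AC alp ds ds_comm geo_ds kp_of_le
  kp_of_ge kp_nonneg kp_le_one cl_nonneg win_nonneg win_eq_one win_eq_zero alp_pos alp_eq)
open Pool.Agent.Lib.GSR (vioC)

namespace PayI_

/-- The decay of the kernel of the payments in one level. -/
noncomputable def q4 : ℝ := √√(1 / 2)

/-- The absolute constant of the payment principle. -/
noncomputable def cPay : ℝ := √2 * (2 / (1 - q4))

lemma q4_pos : 0 < q4 := Real.sqrt_pos.2 (Real.sqrt_pos.2 (by norm_num))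

lemma q4_lt_one : q4 < 1 := by
  unfold q4
  rw [Real.sqrt_lt' one_pos, Real.sqrt_lt' (by norm_num)]
  norm_num

lemma cPay_pos : 0 < cPay := by
  unfold cPay
  have := q4_lt_one
  exact mul_pos (Real.sqrt_pos.2 (by norm_num)) (div_pos two_pos (by linarith))

lemma q4_pow (k : ℕ) : q4 ^ k = √√((1 / 2 : ℝ) ^ k) := by
  unfold q4
  induction k with
  | zero => simp
  | succ k ih =>
    rw [pow_succ, ih, pow_succ, Real.sqrt_mul (by positivity), Real.sqrt_mul (by positivity)]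

/-- The kernel in terms of the distance of the levels. -/
lemma sqrt_kp_le {u : ℝ} (hu : 0 < u) {k : ℕ} (h : (2 : ℝ) ^ k ≤ 4 * max u u⁻¹) :
    √(kp u) ≤ √2 * q4 ^ k := by
  have h2 : (√2 : ℝ) = √√4 := by
    rw [show (4 : ℝ) = 2 ^ 2 by norm_num, Real.sqrt_sq (by norm_num)]
  rw [q4_pow, h2, ← Real.sqrt_mul (by positivity), ← Real.sqrt_mul (by positivity)]
  refine Real.sqrt_le_sqrt ?_
  have h3 : (0 : ℝ) < 2 ^ k := by positivity
  have h4 : (4 : ℝ) * (1 / 2) ^ k = 4 / 2 ^ k := by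
    rw [one_div, inv_pow]
    rfl
  rw [h4]
  rcases le_total u 1 with h1 | h1
  · rw [kp_of_le h1]
    refine Real.sqrt_le_sqrt ?_
    rw [le_div_iff₀ h3]
    have h5 : max u u⁻¹ = u⁻¹ := max_eq_right (h1.trans ((one_le_inv₀ hu).2 h1))
    rw [h5] at h
    calc u * 2 ^ k ≤ u * (4 * u⁻¹) := mul_le_mul_of_nonneg_left h hu.le
      _ = 4 := by field_simp
  · rw [kp_of_ge h1, ← Real.sqrt_one, ← Real.sqrt_div (by norm_num)]
    refine Real.sqrt_le_sqrt ?_
    have h5 : max u u⁻¹ = u := max_eq_left (((inv_le_one₀ hu).2 h1).trans h1)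
    rw [h5] at h
    rw [div_le_div_iff₀ hu h3]
    linarith

section

variable {V : Type} [Fintype V] {P : Cn} {G : SimpleGraph V} {I : Inp P V}

lemma al_pos (x : V) : 0 < al P G I x := alp_pos _ _ _ _ _

omit [Fintype V] in
lemma inc_nonneg {W : Finset V} (x : V) (l : Ml P V) : 0 ≤ inc G W x l := by
  unfold inc
  split_ifs <;> norm_num

omit [Fintype V] in
lemma inc_le_one {W : Finset V} (x : V) (l : Ml P V) : inc G W x l ≤ 1 := by
  unfold inc
  split_ifs <;> norm_num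

lemma lv_pos (i : ℕ) : 0 < lv i := by
  unfold lv
  positivity

lemma lv_mul (i : ℕ) : lv i * 2 ^ i = 1 := by
  unfold lv
  rw [← mul_pow]
  norm_num

/-- The scale is at least the floor. -/
lemma le_al (he : 0 < P.e0) (hπ : ∀ l, 0 ≤ I.pi l) (x : V) : P.e0 ≤ al P G I x := by
  have h := alp_eq (b := fun l : Ml P V => lv l.2) (e := fun _ : V => P.e0)
    (fun _ => he) (inc_nonneg (G := G) (W := I.W)) hπ x
  have h1 : 0 ≤ ∑ l, inc G I.W x l * I.pi l *
      kp (alp (fun _ : V => P.e0) (inc G I.W) I.pi (fun l => lv l.2) x / lv l.2) :=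
    Finset.sum_nonneg fun l _ => mul_nonneg (mul_nonneg (inc_nonneg x l) (hπ l)) (kp_nonneg _)
  unfold al
  linarith

/-- The scale is at most two. -/
lemma al_le (he : 0 < P.e0) (he1 : P.e0 ≤ 1) (hπ : ∀ l, 0 ≤ I.pi l) (hπ1 : ∑ l, I.pi l ≤ 1)
    (x : V) : al P G I x ≤ 2 := by
  have h := alp_eq (b := fun l : Ml P V => lv l.2) (e := fun _ : V => P.e0)
    (fun _ => he) (inc_nonneg (G := G) (W := I.W)) hπ x
  have h1 : ∑ l, inc G I.W x l * I.pi l *
      kp (alp (fun _ : V => P.e0) (inc G I.W) I.pi (fun l => lv l.2) x / lv l.2) ≤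
      ∑ l, I.pi l := by
    refine Finset.sum_le_sum fun l _ => ?_
    calc inc G I.W x l * I.pi l *
          kp (alp (fun _ : V => P.e0) (inc G I.W) I.pi (fun l => lv l.2) x / lv l.2)
        ≤ inc G I.W x l * I.pi l * 1 :=
          mul_le_mul_of_nonneg_left (kp_le_one _) (mul_nonneg (inc_nonneg x l) (hπ l))
      _ ≤ 1 * I.pi l := by
          rw [mul_one]
          exact mul_le_mul_of_nonneg_right (inc_le_one x l) (hπ l)
      _ = I.pi l := one_mul _
  unfold al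
  linarith

/-- Every vertex has a level. -/
lemma exists_level {x : V} (h1 : lv P.I0 ≤ al P G I x) (h2 : al P G I x ≤ 2) :
    ∃ j : Fin (P.I0 + 1), win 1 (hs P G I x + (j : ℕ)) = 1 := by
  have ha := al_pos (P := P) (G := G) (I := I) x
  have h3 : -(P.I0 : ℝ) ≤ hs P G I x := by
    unfold hs
    rw [Real.le_logb_iff_rpow_le (by norm_num) ha, Real.rpow_neg (by norm_num),
      Real.rpow_natCast]
    refine le_trans (le_of_eq ?_) h1
    unfold lv
    rw [one_div, inv_pow]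
  have h4 : hs P G I x ≤ 1 := by
    unfold hs
    rw [Real.logb_le_iff_le_rpow (by norm_num) ha, Real.rpow_one]
    exact h2
  refine ⟨⟨⌊-hs P G I x⌋₊, ?_⟩, win_eq_one ?_⟩
  · have h5 : ⌊-hs P G I x⌋₊ ≤ P.I0 := by
      refine Nat.floor_le_of_le ?_
      linarith
    omega
  · simp only
    rcases le_total 0 (hs P G I x) with h | h
    · have h5 : ⌊-hs P G I x⌋₊ = 0 := Nat.floor_of_nonpos (by linarith)
      rw [h5, Nat.cast_zero, add_zero, abs_of_nonneg h]
      exact h4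
    · have h5 := Nat.floor_le (show 0 ≤ -hs P G I x by linarith)
      have h6 := Nat.lt_floor_add_one (-hs P G I x)
      rw [abs_le]
      constructor <;> linarith

/-- The kernel of the payments on a level. -/
lemma kq_le {x : V} {j : ℕ} (h : win 1 (hs P G I x + (j : ℕ)) ≠ 0) (i : ℕ) :
    kq P G I i x ≤ √2 * q4 ^ ds j i := by
  have ha := al_pos (P := P) (G := G) (I := I) x
  have hu : 0 < al P G I x / lv i := div_pos ha (lv_pos i)
  refine sqrt_kp_le hu ?_
  have h1 : |hs P G I x + (j : ℕ)| < 2 := by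
    by_contra h2
    rw [not_lt] at h2
    exact h (win_eq_zero (by linarith))
  -- the product of the scale and of `2 ^ j`
  have h2 : hs P G I x + (j : ℕ) = Real.logb 2 (al P G I x * 2 ^ j) := by
    unfold hs
    rw [Real.logb_mul ha.ne' (by positivity), Real.logb_pow,
      Real.logb_self_eq_one (by norm_num), mul_one]
  rw [h2, abs_lt] at h1
  have h3 : al P G I x * 2 ^ j < 4 := by
    have := (Real.logb_lt_iff_lt_rpow (b := 2) (by norm_num)
      (show 0 < al P G I x * 2 ^ j by positivity)).1 h1.2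
    norm_num at this
    exact this
  have h4 : 1 / 4 < al P G I x * 2 ^ j := by
    have := (Real.lt_logb_iff_rpow_lt (b := 2) (by norm_num)
      (show 0 < al P G I x * 2 ^ j by positivity)).1 h1.1
    norm_num [Real.rpow_neg] at this
    exact this
  have h5 : al P G I x / lv i = al P G I x * 2 ^ i := by
    rw [div_eq_iff (lv_pos i).ne', mul_assoc, mul_comm (2 ^ i), lv_mul, mul_one]
  rcases le_total j i with hji | hji
  · have h6 : ds j i = i - j := by unfold ds; omega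
    have h7 : (2 : ℝ) ^ i = 2 ^ j * 2 ^ (i - j) := by rw [← pow_add]; congr 1; omega
    rw [h6, h5]
    refine le_trans ?_ (mul_le_mul_of_nonneg_left (le_max_left _ _) (by norm_num))
    rw [h7, ← mul_assoc (al P G I x)]
    have h8 : (0 : ℝ) < 2 ^ (i - j) := by positivity
    nlinarith
  · have h6 : ds j i = j - i := by unfold ds; omega
    have h7 : (2 : ℝ) ^ j = 2 ^ i * 2 ^ (j - i) := by rw [← pow_add]; congr 1; omega
    rw [h6, h5]
    refine le_trans ?_ (mul_le_mul_of_nonneg_left (le_max_right _ _) (by norm_num))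
    rw [h7, ← mul_assoc (al P G I x)] at h3
    have h8 : (0 : ℝ) < al P G I x * 2 ^ i := by positivity
    rw [← div_eq_mul_inv, le_div_iff₀ h8, mul_comm]
    exact h3.le

/-- The sum of the kernel of the payments over the neighbours of a payer. -/
lemma sum_kq {n : V → ℝ} (hn : ∀ x, 0 ≤ n x) {K : ℝ} {b : V}
    (hD : ∀ j, Db P G I n j b ≤ K)
    (h1 : ∀ x, n x ≠ 0 → lv P.I0 ≤ al P G I x) (h2 : ∀ x, n x ≠ 0 → al P G I x ≤ 2) (i : ℕ) :
    ∑ x, n x / al P G I x * kq P G I i x * cl G x b ≤ cPay * K := by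
  have hq := q4_pos
  have h0 : ∀ x, 0 ≤ n x / al P G I x * kq P G I i x * cl G x b := fun x =>
    mul_nonneg (mul_nonneg (div_nonneg (hn x) (al_pos x).le) (Real.sqrt_nonneg _))
      (cl_nonneg G x b)
  have hK : 0 ≤ K := by
    refine le_trans ?_ (hD 0)
    exact Finset.sum_nonneg fun x _ => mul_nonneg (mul_nonneg (div_nonneg (hn x)
      (al_pos x).le) (win_nonneg _ _)) (cl_nonneg G x b)
  calc ∑ x, n x / al P G I x * kq P G I i x * cl G x b
      ≤ ∑ x, n x / al P G I x * kq P G I i x * cl G x b *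
          ∑ j : Fin (P.I0 + 1), win 1 (hs P G I x + (j : ℕ)) := by
        refine Finset.sum_le_sum fun x _ => ?_
        by_cases hx : n x = 0
        · simp [hx]
        obtain ⟨j, hj⟩ := exists_level (h1 x hx) (h2 x hx)
        refine le_mul_of_one_le_right (h0 x) ?_
        calc (1 : ℝ) = win 1 (hs P G I x + (j : ℕ)) := hj.symm
          _ ≤ ∑ j : Fin (P.I0 + 1), win 1 (hs P G I x + (j : ℕ)) :=
            Finset.single_le_sum (f := fun j : Fin (P.I0 + 1) =>
              win 1 (hs P G I x + ((j : ℕ) : ℝ))) (fun _ _ => win_nonneg _ _)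
              (Finset.mem_univ j)
    _ = ∑ j : Fin (P.I0 + 1), ∑ x, n x / al P G I x * win 1 (hs P G I x + (j : ℕ)) *
          cl G x b * kq P G I i x := by
        simp only [Finset.mul_sum]
        rw [Finset.sum_comm]
        exact Finset.sum_congr rfl fun j _ => Finset.sum_congr rfl fun x _ => by ring
    _ ≤ ∑ j : Fin (P.I0 + 1), √2 * q4 ^ ds (j : ℕ) i * Db P G I n j b := by
        refine Finset.sum_le_sum fun j _ => ?_
        unfold Db
        rw [Finset.mul_sum]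
        refine Finset.sum_le_sum fun x _ => ?_
        by_cases hx : win 1 (hs P G I x + (j : ℕ)) = 0
        · simp [hx]
        · rw [mul_comm]
          exact mul_le_mul_of_nonneg_right (kq_le hx i)
            (mul_nonneg (mul_nonneg (div_nonneg (hn x) (al_pos x).le) (win_nonneg _ _))
              (cl_nonneg G x b))
    _ ≤ ∑ j : Fin (P.I0 + 1), √2 * q4 ^ ds (j : ℕ) i * K :=
        Finset.sum_le_sum fun j _ => mul_le_mul_of_nonneg_left (hD j) (by positivity)
    _ = √2 * K * ∑ j : Fin (P.I0 + 1), q4 ^ ds (j : ℕ) i := by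
        rw [Finset.mul_sum]
        exact Finset.sum_congr rfl fun j _ => by ring
    _ ≤ √2 * K * (2 / (1 - q4)) := by
        refine mul_le_mul_of_nonneg_left ?_ (by positivity)
        have h3 := geo_ds hq.le q4_lt_one (Finset.range (P.I0 + 1)) i
        rw [Finset.sum_range] at h3
        exact h3
    _ = cPay * K := by
        unfold cPay
        ring

/-- **Payment principle**, mean bound for the functions of the records. -/
theorem mean_gen {n : V → ℝ} (hn : ∀ x, 0 ≤ n x) {K : ℝ} (hK : 0 ≤ K)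
    (h1 : ∀ x, n x ≠ 0 → lv P.I0 ≤ al P G I x) (h2 : ∀ x, n x ≠ 0 → al P G I x ≤ 2)
    {Lb : Type} [Fintype Lb] {ρ : Lb → ℝ} {i : Lb → ℕ} {R : Lb → V → ℝ} (hρ : ∀ l, 0 ≤ ρ l)
    (hR : ∀ l b, 0 ≤ R l b)
    (hD : ∀ l b, ρ l ≠ 0 → R l b ≠ 0 → ∀ j, Db P G I n j b ≤ K)
    {E : ℝ} (hE : ∀ l, ρ l ≠ 0 → ∑ b, R l b ≤ E) :
    ∑ u, n u * ∑ l, ρ l * (kq P G I (i l) u * (cm G (R l) u / al P G I u)) ≤
      cPay * K * (E * ∑ l, ρ l) := by
  have hc := cPay_pos
  have e1 : ∑ u, n u * ∑ l, ρ l * (kq P G I (i l) u * (cm G (R l) u / al P G I u)) =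
      ∑ l, ∑ b, ρ l * R l b * ∑ u, n u / al P G I u * kq P G I (i l) u * cl G u b := by
    simp_rw [Pool.Agent.Lib.GSR.Srv_.cm_cl, Finset.mul_sum, Finset.sum_div, Finset.mul_sum]
    rw [Finset.sum_comm]
    refine Finset.sum_congr rfl fun l _ => ?_
    rw [Finset.sum_comm]
    refine Finset.sum_congr rfl fun b _ => Finset.sum_congr rfl fun u _ => ?_
    ring
  rw [e1]
  calc ∑ l, ∑ b, ρ l * R l b * ∑ u, n u / al P G I u * kq P G I (i l) u * cl G u b
      ≤ ∑ l, ∑ b, ρ l * R l b * (cPay * K) := by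
        refine Finset.sum_le_sum fun l _ => Finset.sum_le_sum fun b _ => ?_
        by_cases hl : ρ l = 0
        · simp [hl]
        by_cases hb : R l b = 0
        · simp [hb]
        exact mul_le_mul_of_nonneg_left (sum_kq hn (hD l b hl hb) h1 h2 (i l))
          (mul_nonneg (hρ l) (hR l b))
    _ ≤ ∑ l, ρ l * E * (cPay * K) := by
        refine Finset.sum_le_sum fun l _ => ?_
        rw [← Finset.sum_mul, ← Finset.mul_sum]
        by_cases hl : ρ l = 0
        · simp [hl]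
        exact mul_le_mul_of_nonneg_right (mul_le_mul_of_nonneg_left (hE l hl) (hρ l))
          (mul_nonneg hc.le hK)
    _ = cPay * K * (E * ∑ l, ρ l) := by
        rw [Finset.mul_sum, Finset.mul_sum]
        exact Finset.sum_congr rfl fun l _ => by ring

variable {S : Sta P V}

lemma kk_nonneg (g : ℝ) (x : V) (l : Ml P V) : 0 ≤ kk P G I g x l :=
  mul_nonneg (mul_nonneg (inc_nonneg x l) (kp_nonneg _)) (win_nonneg _ _)

omit [Fintype V] in
lemma rp_nonneg (u : ℝ) : 0 ≤ rp u := le_max_left _ _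

omit [Fintype V] in
lemma rp_le_one (u : ℝ) : rp u ≤ 1 := max_le zero_le_one (min_le_left _ _)

omit [Fintype V] in
lemma rich_nonneg (C : Finset (Fin P.N)) (x y : V) : 0 ≤ rich P S C x y :=
  Finset.prod_nonneg fun _ _ => rp_nonneg _

omit [Fintype V] in
lemma rich_le_one (C : Finset (Fin P.N)) (x y : V) : rich P S C x y ≤ 1 :=
  Finset.prod_le_one (fun _ _ => rp_nonneg _) fun _ _ => rp_le_one _

lemma PP_nonneg (h3 : ∀ x, 0 ≤ I.n3 x) (C : Finset (Fin P.N)) (l : Ml P V) (x : V) :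
    0 ≤ PP P G S I C l x :=
  div_nonneg (mul_nonneg (h3 x) (mul_nonneg (kk_nonneg _ _ _) (rich_nonneg _ _ _)))
    (al_pos x).le

/-- The own mass of a label of the hub mode. -/
lemma sum_PP_le (h3 : ∀ x, 0 ≤ I.n3 x) {Dm : ℝ}
    (hDm : ∀ l, ∑ x, I.n3 x / al P G I x * kk P G I P.g0 x l ≤ Dm) (C : Finset (Fin P.N))
    (l : Ml P V) : ∑ x, PP P G S I C l x ≤ Dm := by
  refine le_trans (Finset.sum_le_sum fun x _ => ?_) (hDm l)
  unfold PP CP
  have h4 := kk_nonneg (P := P) (G := G) (I := I) P.g0 x l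
  calc I.n3 x * (kk P G I P.g0 x l * rich P S C x l.1) / al P G I x
      = I.n3 x / al P G I x * kk P G I P.g0 x l * rich P S C x l.1 := by ring
    _ ≤ I.n3 x / al P G I x * kk P G I P.g0 x l * 1 :=
        mul_le_mul_of_nonneg_left (rich_le_one _ _ _)
          (mul_nonneg (div_nonneg (h3 x) (al_pos x).le) h4)
    _ = I.n3 x / al P G I x * kk P G I P.g0 x l := mul_one _

lemma BS_pos (he : 0 < P.eps1) (T : Finset (Fin P.N)) (x : V) : 0 < BS P G S I T x :=
  lt_of_lt_of_le (half_pos (mul_pos he (al_pos x))) (le_max_right _ _)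

lemma CS_nonneg (T : Finset (Fin P.N)) (x : V) (l : Ce P V) : 0 ≤ CS P G S I T x l :=
  mul_nonneg (GSLE.CC_nonneg (fun x l => kk_nonneg P.g0 x l) x l) (rp_nonneg _)

lemma CS_le (T : Finset (Fin P.N)) (x : V) (l : Ce P V) :
    CS P G S I T x l ≤ kk P G I P.g0 x l.1 := by
  unfold CS
  refine (mul_le_of_le_one_right (GSLE.CC_nonneg (fun x l => kk_nonneg P.g0 x l) x l)
    (rp_le_one _)).trans ?_
  exact GSLE.CC_le (fun x l => kk_nonneg P.g0 x l) x l

lemma PA_nonneg (he : 0 < P.eps1) (h3 : ∀ x, 0 ≤ I.n3 x) (T : Finset (Fin P.N)) (l : Ce P V)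
    (x : V) : 0 ≤ PA P G S I T l x :=
  div_nonneg (mul_nonneg (h3 x) (CS_nonneg T x l)) (BS_pos he T x).le

/-- The own mass of a cell. -/
lemma DD_le (he : 0 < P.eps1) (h3 : ∀ x, 0 ≤ I.n3 x) {Dm : ℝ}
    (hDm : ∀ l, ∑ x, I.n3 x / al P G I x * kk P G I P.g0 x l ≤ Dm) (T : Finset (Fin P.N))
    (l : Ce P V) : DD P G S I T l ≤ 2 * Dm / P.eps1 := by
  have h4 : 2 * Dm / P.eps1 = 2 / P.eps1 * Dm := by ring
  rw [h4]
  refine le_trans ?_ (mul_le_mul_of_nonneg_left (hDm l.1) (by positivity))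
  unfold DD
  rw [Finset.mul_sum]
  refine Finset.sum_le_sum fun x _ => ?_
  have ha := al_pos (P := P) (G := G) (I := I) x
  have hk := kk_nonneg (P := P) (G := G) (I := I) P.g0 x l.1
  unfold PA
  calc I.n3 x * CS P G S I T x l / BS P G S I T x
      ≤ I.n3 x * kk P G I P.g0 x l.1 / (P.eps1 * al P G I x / 2) :=
        div_le_div₀ (mul_nonneg (h3 x) hk) (mul_le_mul_of_nonneg_left (CS_le T x l) (h3 x))
          (half_pos (mul_pos he ha)) (le_max_right _ _)
    _ = 2 / P.eps1 * (I.n3 x / al P G I x * kk P G I P.g0 x l.1) := by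
        field_simp

lemma rho_nonneg (h3 : ∀ x, 0 ≤ I.n3 x) (hπ : ∀ l, 0 ≤ I.pi l) (T : Finset (Fin P.N))
    (l : Ce P V) : 0 ≤ rho P G S I T l :=
  GSLE.rhoC_nonneg h3 al_pos hπ (fun x l => kk_nonneg P.g0 x l) l

/-- The total weight of the cells. -/
lemma sum_rho_le (h3 : ∀ x, 0 ≤ I.n3 x) (hπ : ∀ l, 0 ≤ I.pi l) (hπ1 : ∑ l, I.pi l ≤ 1)
    {Dm : ℝ} (hDm0 : 0 ≤ Dm)
    (hDm : ∀ l, ∑ x, I.n3 x / al P G I x * kk P G I P.g0 x l ≤ Dm) (T : Finset (Fin P.N))
    (hr1 : ∀ c ∈ T, ∀ z, (1 : ℝ) - P.I0 ≤ ht P S c z) (hr2 : ∀ c ∈ T, ∀ z, ht P S c z ≤ 1) :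
    ∑ l, rho P G S I T l ≤ Dm := by
  have h4 := GSLE.sum_rhoC_le (h0 := 1) (h := ht P S) (g := P.lG + P.w0 + 3) (S := T)
    (n := I.n3) (a := al P G I) (π := I.pi) (k := kk P G I P.g0) (y := Prod.fst) (J := P.I0)
    h3 al_pos hπ (fun x l => kk_nonneg P.g0 x l) (by exact_mod_cast hr1) (by exact_mod_cast hr2)
    hDm0 (fun _ => 1) (fun _ => zero_le_one) Finset.univ (fun p _ => hDm p.1) Finset.univ
    fun p _ => Finset.mem_univ _
  simp only [one_mul] at h4
  exact h4.trans (mul_le_of_le_one_right hDm0 hπ1)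

/-- **The mean of the payment function of the hub mode.** -/
theorem gpP_mean {n : V → ℝ} (hn : ∀ x, 0 ≤ n x) {K : ℝ} (hK : 0 ≤ K)
    (h1 : ∀ x, n x ≠ 0 → lv P.I0 ≤ al P G I x) (h2 : ∀ x, n x ≠ 0 → al P G I x ≤ 2)
    (hD : ∀ b ∈ I.W, ∀ j, Db P G I n j b ≤ K)
    (hπ : ∀ l, 0 ≤ I.pi l) (hπ1 : ∑ l, I.pi l ≤ 1) (hπW : ∀ l, I.pi l ≠ 0 → l.1 ∈ I.W)
    (h3 : ∀ x, 0 ≤ I.n3 x) (h3W : ∀ x, I.n3 x ≠ 0 → x ∈ I.W) {Dm : ℝ} (hDm0 : 0 ≤ Dm)
    (hDm : ∀ l, ∑ x, I.n3 x / al P G I x * kk P G I P.g0 x l ≤ Dm) (C : Finset (Fin P.N))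
    (heta : 0 < P.eta C.card) (hL' : 0 ≤ P.Lam' C.card) (hlp0 : ∀ l u, 0 ≤ I.lp C l u)
    (hlpW : ∀ l u, I.lp C l u ≠ 0 → u ∈ I.W) (hlp1 : ∀ l, ∑ u, I.lp C l u ≤ P.Lam' C.card) :
    ∑ u, n u * gpP P G S I C u ≤ cPay * K * (1 + P.Lam' C.card + Dm / P.eta C.card) := by
  have hc := cPay_pos
  have hE0 : 0 ≤ 1 + P.Lam' C.card + Dm / P.eta C.card := by positivity
  have h5 := mean_gen (Lb := Ml P V) (ρ := I.pi) (i := fun l => (l.2 : ℕ))
    (R := fun l => RP P G S I C l (I.lp C l)) (E := 1 + P.Lam' C.card + Dm / P.eta C.card)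
    hn hK h1 h2 hπ ?_ ?_ ?_
  · refine h5.trans (mul_le_mul_of_nonneg_left ?_ (mul_nonneg hc.le hK))
    exact mul_le_of_le_one_right hE0 hπ1
  · intro l b
    unfold RP
    have h6 := PP_nonneg (S := S) (G := G) h3 C l b
    have h7 := hlp0 l b
    split_ifs <;> positivity
  · intro l b hl hb j
    refine hD b ?_ j
    by_contra hbW
    apply hb
    unfold RP
    have h6 : b ≠ l.1 := fun h => hbW (h ▸ hπW l hl)
    have h7 : I.lp C l b = 0 := by
      by_contra h
      exact hbW (hlpW l b h)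
    have h8 : I.n3 b = 0 := by
      by_contra h
      exact hbW (h3W b h)
    have h9 : PP P G S I C l b = 0 := by
      unfold PP
      rw [h8, zero_mul, zero_div]
    rw [if_neg h6, h7, h9, zero_div, add_zero, add_zero]
  · intro l _
    unfold RP
    rw [Finset.sum_add_distrib, Finset.sum_add_distrib, ← Finset.sum_div,
      Finset.sum_ite_eq' Finset.univ l.1, if_pos (Finset.mem_univ _)]
    have h6 := div_le_div_of_nonneg_right (sum_PP_le (S := S) h3 hDm C l) heta.le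
    linarith [hlp1 l]

/-- **The mean of the payment function of an item.** -/
theorem gpA_mean {n : V → ℝ} (hn : ∀ x, 0 ≤ n x) {K : ℝ} (hK : 0 ≤ K)
    (h1 : ∀ x, n x ≠ 0 → lv P.I0 ≤ al P G I x) (h2 : ∀ x, n x ≠ 0 → al P G I x ≤ 2)
    (hD : ∀ b ∈ I.W, ∀ j, Db P G I n j b ≤ K) (he : 0 < P.eps1)
    (hπ : ∀ l, 0 ≤ I.pi l) (hπ1 : ∑ l, I.pi l ≤ 1) (hπW : ∀ l, I.pi l ≠ 0 → l.1 ∈ I.W)
    (h3 : ∀ x, 0 ≤ I.n3 x) (h3W : ∀ x, I.n3 x ≠ 0 → x ∈ I.W) {Dm : ℝ} (hDm0 : 0 ≤ Dm)
    (hDm : ∀ l, ∑ x, I.n3 x / al P G I x * kk P G I P.g0 x l ≤ Dm) (T C : Finset (Fin P.N))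
    (hr1 : ∀ c ∈ T, ∀ z, (1 : ℝ) - P.I0 ≤ ht P S c z) (hr2 : ∀ c ∈ T, ∀ z, ht P S c z ≤ 1)
    (hA' : 0 ≤ P.A' C.card) (heta : 0 < P.eta C.card) (hL : 0 ≤ P.Lam C.card)
    (hL' : 0 ≤ P.Lam' C.card) (hmu0 : ∀ l u, 0 ≤ I.mu T C l u)
    (hmuW : ∀ l u, I.mu T C l u ≠ 0 → u ∈ I.W) (hmu1 : ∀ l, ∑ u, I.mu T C l u ≤ P.Lam C.card)
    (hla0 : ∀ l u, 0 ≤ I.la T C l u)
    (hlaW : ∀ l u, I.la T C l u ≠ 0 → u ∈ I.W) (hla1 : ∀ l, ∑ u, I.la T C l u ≤ P.Lam' C.card) :
    ∑ u, n u * gpA P G S I T C u ≤ cPay * K * ((P.A' C.card * P.Lam C.card + 1 +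
      P.Lam' C.card + 2 * Dm / P.eps1 / P.eta C.card) * Dm) := by
  have hc := cPay_pos
  have hE0 : 0 ≤ P.A' C.card * P.Lam C.card + 1 + P.Lam' C.card +
      2 * Dm / P.eps1 / P.eta C.card := by positivity
  have h5 := mean_gen (Lb := Ce P V) (ρ := rho P G S I T) (i := fun l => (l.1.2 : ℕ))
    (R := fun l => RA P G S I T C l (I.la T C l)) (E := P.A' C.card * P.Lam C.card + 1 +
      P.Lam' C.card + 2 * Dm / P.eps1 / P.eta C.card)
    hn hK h1 h2 (rho_nonneg h3 hπ T) ?_ ?_ ?_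
  · refine h5.trans (mul_le_mul_of_nonneg_left ?_ (mul_nonneg hc.le hK))
    exact mul_le_mul_of_nonneg_left (sum_rho_le h3 hπ hπ1 hDm0 hDm T hr1 hr2) hE0
  · intro l b
    unfold RA
    have h6 := PA_nonneg (S := S) (G := G) he h3 T l b
    have h7 := hla0 l b
    have h8 := hmu0 l b
    split_ifs <;> positivity
  · intro l b hl hb j
    refine hD b ?_ j
    by_contra hbW
    apply hb
    unfold RA
    have hl1 : l.1.1 ∈ I.W := hπW l.1 (GSLE.rhoC_ne hl).2.1
    have h6 : b ≠ l.1.1 := fun h => hbW (h ▸ hl1)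
    have h7 : I.la T C l b = 0 := by
      by_contra h
      exact hbW (hlaW l b h)
    have h7' : I.mu T C l b = 0 := by
      by_contra h
      exact hbW (hmuW l b h)
    have h8 : I.n3 b = 0 := by
      by_contra h
      exact hbW (h3W b h)
    have h9 : PA P G S I T l b = 0 := by
      unfold PA
      rw [h8, zero_mul, zero_div]
    rw [if_neg h6, h7, h7', h9, zero_div, add_zero, add_zero, mul_zero, add_zero]
  · intro l _
    unfold RA
    rw [Finset.sum_add_distrib, Finset.sum_add_distrib, Finset.sum_add_distrib,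
      ← Finset.sum_div, ← Finset.mul_sum, Finset.sum_ite_eq' Finset.univ l.1.1,
      if_pos (Finset.mem_univ _)]
    have h6 := div_le_div_of_nonneg_right (DD_le (S := S) he h3 hDm T l) heta.le
    have h7 := mul_le_mul_of_nonneg_left (hmu1 l) hA'
    have h8 := hla1 l
    unfold DD at h6
    linarith

/-- Markov, in the form of the sides. -/
lemma side_le {n g : V → ℝ} (hn : ∀ u, 0 ≤ n u) (hg : ∀ u, 0 ≤ g u) {E Bd : ℝ} (hB : 0 < Bd)
    (h : ∑ u, n u * g u ≤ E) : ∑ u with 0 ≤ g u - Bd, n u ≤ E / Bd := by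
  rw [le_div_iff₀ hB, Finset.sum_mul]
  refine le_trans ?_ h
  refine (Finset.sum_le_sum fun u hu => ?_).trans
    (Finset.sum_le_sum_of_subset_of_nonneg (Finset.subset_univ _)
      fun u _ _ => mul_nonneg (hn u) (hg u))
  exact mul_le_mul_of_nonneg_left (by linarith [(Finset.mem_filter.mp hu).2]) (hn u)

end

end PayI_

end Pool.Agent.Lib.GSX
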