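import Pool.Agent.Lib.GSX.PayCI
import Pool.Agent.Lib.GSX.BestI
import Pool.Agent.Lib.GSX.InpC

/-!
# The pay-offs of the game are continuous and concave

The hypotheses `hf` and `hcc` of the existence theorem for the pay-offs `ffx`.
-/

set_option autoImplicit false

namespace Pool.Agent.Lib.GSX

open Finset Classical
open Pool.Agent.Lib.GSR Pool.Agent.Lib.GSR.HZ Pool.Agent.Lib.GSR.HZB

namespace PayIx_

section

variable {V : Type} [Fintype V] {P : Cn} {G : SimpleGraph V}

/-- The records along a history are a continuous family. -/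
theorem fam (hP : CPos P) (p : Hh P V) : ∀ s : ℕ,
    ContS (fun θ : Tht P V => stt P G θ p s) (dom P.N (nb P) (Ki P)) ∧
      ∀ h : s < P.N, Fam P (fun θ : Tht P V => stt P G θ p s) (fun θ => inpt P θ ⟨s, h⟩ p)
        (wo p s) (dom P.N (nb P) (Ki P)) := by
  have key : ∀ s : ℕ, ContS (fun θ : Tht P V => stt P G θ p s) (dom P.N (nb P) (Ki P)) →
      ∀ h : s < P.N, Fam P (fun θ : Tht P V => stt P G θ p s) (fun θ => inpt P θ ⟨s, h⟩ p)
        (wo p s) (dom P.N (nb P) (Ki P)) := fun s h1 h =>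
    ⟨hP, InpC_.inpt_cont ⟨s, h⟩ p _, h1, fun θ hθ => InpC_.inpt_ipos hθ ⟨s, h⟩ p,
      fun θ hθ => InpC_.stt_spos hP hθ p s⟩
  have h0 : ∀ s : ℕ, ContS (fun θ : Tht P V => stt P G θ p s) (dom P.N (nb P) (Ki P)) := by
    intro s
    induction s with
    | zero => exact ⟨fun _ _ => continuousOn_const, fun _ _ _ => continuousOn_const,
        fun _ => continuousOn_const⟩
    | succ s ih =>
      by_cases h : s < P.N
      · have h1 : (fun θ : Tht P V => stt P G θ p (s + 1)) =
            fun θ => nxt P G ⟨s, h⟩ (stt P G θ p s) (inpt P θ ⟨s, h⟩ p) :=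
          funext fun _ => stt_succ p h
        rw [h1]
        exact (key s ih h).nxt
      · have h1 : (fun θ : Tht P V => stt P G θ p (s + 1)) = fun θ => stt P G θ p s :=
          funext fun _ => by rw [stt, dif_neg h]
        rw [h1]
        exact ih
  exact fun s => ⟨h0 s, key s (h0 s)⟩

/-- The UP systems along a history. -/
theorem famU (hth : ∀ b, 0 < P.th b) (hGu : ∀ b, 0 < P.Gu b) (s : Fin P.N) (p : Hh P V) :
    FamU P (fun θ : Tht P V => inpt P θ s p) (dom P.N (nb P) (Ki P)) :=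
  ⟨hth, hGu, fun _ hθ b _ l => InpC_.sg_nonneg hθ s p b _ l⟩

theorem law_nonneg {Y : Type} [Fintype Y] {W : Finset Y} :
    ∀ y ∈ LawOn W, ∀ l : Y, 0 ≤ y l := fun _ hy l => hy.1.1 l

end

end PayIx_

open PayIx_

section

variable {V : Type} [Fintype V] {P : Cn} {G : SimpleGraph V}

/-- **The pay-offs are jointly continuous.** -/
theorem ffx_cont (hP : CPos P) (hth : ∀ b, 0 < P.th b) (hGu : ∀ b, 0 < P.Gu b) :
    ∀ i : Ix P V, ContinuousOn (fun q : Tht P V × (Yi P V i → ℝ) => ffx P G i q.1 q.2)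
      (dom P.N (nb P) (Ki P) ×ˢ Ki P i)
  | .pi s p => ((fam (G := G) hP p s.1).2 s.2).pay_pi_cont _
  | .sg s p b j => ((fam (G := G) hP p s.1).2 s.2).pay_sg_cont (famU hth hGu s p) b j.1
      law_nonneg
  | .su s p b j l => ((fam (G := G) hP p s.1).2 s.2).pay_su_cont (famU hth hGu s p) b j.1 l _
  | .sv s p T C l => ((fam (G := G) hP p s.1).2 s.2).pay_sv_cont T C l _
  | .lp s p C l => ((fam (G := G) hP p s.1).2 s.2).pay_lp_cont C l _
  | .la s p T C l => ((fam (G := G) hP p s.1).2 s.2).pay_la_cont T C l _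

/-- **The pay-offs are concave.** -/
theorem ffx_concave (hP : CPos P) (hth : ∀ b, 0 < P.th b) :
    ∀ i : Ix P V, ∀ θ ∈ dom P.N (nb P) (Ki P), ConcaveOn ℝ (Ki P i) (ffx P G i θ)
  | .pi s p => fun θ _ => pay_pi_concave (inpt P θ s p) (InpC_.convex_ki (.pi s p))
  | .sg s p b j => fun _ hθ => pay_sg_concave hP.e0 b (hth b) (InpC_.inpt_ipos hθ s p).n1 j.1
      (InpC_.convex_ki (.sg s p b j)) law_nonneg
  | .su s p b j l => fun _ hθ => pay_su_concave hP.e0 b (hth b) (InpC_.inpt_ipos hθ s p).n1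
      (fun _ l => InpC_.sg_nonneg hθ s p b _ l) j.1 l (InpC_.convex_ki (.su s p b j l))
  | .sv s p T C l => fun θ _ => pay_sv_concave P G (stt P G θ p s.1) (inpt P θ s p) T C l
      (InpC_.convex_ki (.sv s p T C l))
  | .lp s p C l => fun θ hθ => pay_lp_concave' (stt P G θ p s.1)
      (InpC_.inpt_ipos hθ s p).n3 C l (InpC_.convex_ki (.lp s p C l))
  | .la s p T C l => fun θ hθ => pay_la_concave' hP.eps1 (stt P G θ p s.1)
      (InpC_.inpt_ipos hθ s p).n3 T C l (InpC_.convex_ki (.la s p T C l))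

end

end Pool.Agent.Lib.GSX
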