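import Pool.Agent.Lib.GSX.T4
import Pool.Agent.Lib.GSX.Stage
import Pool.Agent.Lib.FGF.Cnt

/-!
# The signs of a typical pair along a history

The validity of the masters along a run (`mar_empty`, `mar_insert`, `mar_top`), and the signs
`SgF` of a pair with typical facts `FctX` at all the stages (`t4`).
-/

set_option autoImplicit false

namespace Pool.Agent.Lib.GSX

open Finset Classical
open Pool.Agent.Lib.FGF (cm)
open Pool.Agent.Lib.FGF.Avg (wds mem_wds)
open Pool.Agent.Lib.GSR3 (Tree)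
open Pool.Agent.Lib.GSR (vioC)

/-- The good stages. -/
noncomputable def gds (P : Cn) {V : Type} [Fintype V] (G : SimpleGraph V)
    (In : Fin P.N → Inp P V) (Wd : ℕ → Finset V) : Finset (Fin P.N) :=
  Finset.univ.filter fun s => sdO P G (In s) (Wd (s + 1))

namespace T4_

section

variable {V : Type} [Fintype V] {P : Cn} {G : SimpleGraph V} {B : ℕ → ℝ} {St : ℕ → Sta P V}
  {In : Fin P.N → Inp P V} {Wd : ℕ → Finset V}

theorem mem_gds {s : Fin P.N} :
    s ∈ gds P G In Wd ↔ sdO P G (In s) (Wd (s + 1)) := by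
  unfold gds
  rw [Finset.mem_filter]
  exact ⟨fun h => h.2, fun h => ⟨Finset.mem_univ _, h⟩⟩

omit [Fintype V] in
theorem bef_val {C : Finset (Fin P.N)} {s : Fin P.N} (h : ∀ c ∈ C, c < s) : Bef P s C :=
  fun c hc => Fin.lt_def.1 (h c hc)

theorem bef_N (C : Finset (Fin P.N)) : Bef P P.N C := fun c _ => c.2

theorem Wd_sub (H : HisW P G B St In Wd) (s : Fin P.N) : Wd (s + 1) ⊆ Wd s := by
  rw [← H.run.w s]
  exact (H.fct s).sub

/-- The worlds decrease. -/
theorem Wd_anti (H : HisW P G B St In Wd) {s t : ℕ} (hst : s ≤ t) (ht : t ≤ P.N) :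
    Wd t ⊆ Wd s := by
  induction t, hst using Nat.le_induction with
  | base => exact subset_rfl
  | succ t hst ih => exact (Wd_sub H ⟨t, by omega⟩).trans (ih (by omega))

/-- The master of the empty set. -/
theorem mar_empty (hT : ∀ φ : List (Fin P.M) → V, ¬ Tree G P.h P.M φ) :
    MaR P G St Wd ∅ := fun _ _ _ => ValS_.val_empty hT

theorem one_le_vioC0 (M : ℕ) (v : V) (g : V → ℝ) (L : Finset V) : 1 ≤ vioC G M 0 v g L := by
  have h0 : wds M 0 = ∅ := by
    refine Finset.eq_empty_of_forall_notMem fun u hu => ?_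
    obtain ⟨h4, h5⟩ := mem_wds.1 hu
    exact h5 (List.eq_nil_of_length_eq_zero (Nat.le_zero.1 h4))
  have h4 := GSR.le_vioC (L := L) (g := g) (Pool.Agent.Lib.FGF.Cnt.tree0 G M v) rfl
    fun u hu => by
      rw [h0] at hu
      exact absurd hu (Finset.notMem_empty _)
  have h5 : GSR.bc M 0 g (fun _ => v) = 0 := by
    unfold GSR.bc
    rw [h0, Finset.sum_empty]
  rw [h5] at h4
  linarith

/-- There is no master for `h` stages. -/
theorem mar_top {x : V} (hx : x ∈ Wd P.N) {C : Finset (Fin P.N)} (hC : P.h ≤ C.card) :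
    ¬ MaR P G St Wd C := by
  intro h
  have h1 := h P.N le_rfl (bef_N C) x hx
  rw [Nat.sub_eq_zero_of_le hC] at h1
  have h2 := one_le_vioC0 (G := G) P.M x
    (fun u => cm G ((St P.N).m C x) u + P.Z C.card * (St P.N).F u) (Wd P.N)
  linarith

/-- A stage with large scores gives masters. -/
theorem mar_insert (hP : CPos P) (H : HisW P G B St In Wd)
    (hZ : ∀ (s : Fin P.N) (C : Finset (Fin P.N)), Bef P s C →
      (1 + ((its P s C).card : ℝ)) / cst P C.card * P.Z'' C.card ≤ P.Z (C.card + 1))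
    {s : Fin P.N} {C : Finset (Fin P.N)} (hC : Bef P s C)
    (h : sdP P G (St s) (In s) (Wd (s + 1)) C ∨ sdB P G s (St s) (In s) (Wd (s + 1)) C) :
    MaR P G St Wd (insert s C) := by
  have hs : s ∉ C := fun hs => absurd (hC s hs) (lt_irrefl _)
  have key : ∀ t, (s : ℕ) + 1 ≤ t → t ≤ P.N → Val P G (St t) (Wd t) (insert s C) := by
    intro t ht
    induction t, ht using Nat.le_induction with
    | base =>
      intro _
      rw [H.run.nx s]
      refine ValS_.val_new hP (H.inv s s.2.le).pos (H.pos s) hs (H.fct s).sub (hZ s C hC) ?_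
      intro v hv
      rcases h with h | ⟨T, hT, h⟩
      · exact Or.inl (h v hv)
      · exact Or.inr ⟨T, hT, h v hv⟩
    | succ t ht ih =>
      intro ht1
      have h1 := H.run.nx ⟨t, by omega⟩
      have h2 : (((⟨t, by omega⟩ : Fin P.N) : ℕ)) = t := rfl
      rw [h2] at h1
      rw [h1]
      refine ValS_.val_nxt hP ?_ (ih (by omega)) (Wd_sub H ⟨t, by omega⟩)
      intro h3
      rcases Finset.mem_insert.1 h3 with h4 | h4
      · have h5 := congrArg Fin.val h4
        simp only at h5
        omega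
      · have h5 := hC _ h4
        simp only at h5
        omega
  intro t ht hB
  exact key t (hB s (Finset.mem_insert_self s C)) ht

end

end T4_

open T4_

/-- **The signs of a typical pair.** -/
theorem t4 {V : Type} [Fintype V] {P : Cn} {G : SimpleGraph V} {B : ℕ → ℝ} {St : ℕ → Sta P V}
    {In : Fin P.N → Inp P V} {Wd : ℕ → Finset V} {t e2 : ℝ} {L0 : ℕ} {x : V} (hP : CPos P)
    (K : OkT P e2 L0) (hg : P.gU ≤ P.g0)
    (hZ : ∀ (s : Fin P.N) (C : Finset (Fin P.N)), Bef P s C →
      (1 + ((its P s C).card : ℝ)) / cst P C.card * P.Z'' C.card ≤ P.Z (C.card + 1))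
    (hT : ∀ φ : List (Fin P.M) → V, ¬ Tree G P.h P.M φ) (H : HisW P G B St In Wd)
    (hF : ∀ s ∈ gds P G In Wd, FctX P G s (St s) (In s) t x) (hx : x ∈ Wd P.N) :
    SgF P.h L0 (MaR P G St Wd) (fun C s => sdP P G (St s) (In s) (Wd (s + 1)) C)
      (fun C s => sdB P G s (St s) (In s) (Wd (s + 1)) C) (gds P G In Wd) := by
  have hxs : ∀ s : Fin P.N, x ∈ Wd (s + 1) := fun s => Wd_anti H (by omega) le_rfl hx
  have hV : ∀ (s : Fin P.N) (C : Finset (Fin P.N)), (∀ c ∈ C, c < s) → MaR P G St Wd C →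
      Val P G (St s) (In s).W C := by
    intro s C hC hM
    rw [H.run.w s]
    exact hM s s.2.le (bef_val hC)
  have hS : Sd P G St In x (gds P G In Wd) (MaR P G St Wd)
      (fun C s => sdP P G (St s) (In s) (Wd (s + 1)) C) := by
    refine ⟨fun s _ => (H.pos s).pi, ?_, ?_, ?_, ?_, ?_⟩
    · intro s hs
      have h1 := (hF s hs).tot
      have h2 := hP.e0
      exact half_of_out hP.e0 (H.pos s).pi hg (by linarith) (mem_gds.1 hs x (hxs s))
    · intro s _ C _ _ _ h1
      exact h1 x (hxs s)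
    · intro s _ C _ hlt _ h1
      rcases (H.fct s).sides.p C (bef_val hlt) with h2 | h2
      · exact absurd h2 h1
      · exact h2 x (hxs s)
    · intro s hs C _ hlt hM hh
      exact (hF s hs).n1 C (bef_val hlt) (hV s C hlt hM) hh
    · intro s hs C _ hlt hM hh
      exact (hF s hs).n2 C (bef_val hlt) (hV s C hlt hM) hh
  refine hS.sgF hP.e0 K (mar_empty hT) ?_ ?_
  · intro C s _ _ hlt h1 _
    exact mar_insert hP H hZ (bef_val hlt) h1
  · intro C _ hC
    exact mar_top hx hC.ge

/-- The masters of the single good stages. -/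
theorem T4_.single {N h L0 : ℕ} {M : Finset (Fin N) → Prop}
    {P B : Finset (Fin N) → Fin N → Prop} {T : Finset (Fin N)} (H : SgF h L0 M P B T) {c : Fin N}
    (hc : c ∈ T) : M {c} := by
  have h1 := H.nxt ∅ c (Finset.empty_subset _) hc (by simp) (Or.inl (H.P0 c hc)) H.M0
  rwa [insert_empty_eq] at h1

end Pool.Agent.Lib.GSX
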