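import Pool.Agent.Lib.GSX.Rec
import Pool.Agent.Lib.GSLE.Thin

/-!
# Thin vertices: the instance for one stage

`db_le`: a level-wise bound and an atom bound give a bound for `Db`.  `far_of`: the far levels of a
vertex are small by UP and DOWN.  `thin_rare`: the vertices which are not thin are rare.
`fs_eq_zero`: the cover vanishes at the thin vertices.
-/

set_option autoImplicit false

namespace Pool.Agent.Lib.GSX

open Finset Classical
open Pool.Agent.Lib.GSLE (cl win Lvl Low UpL EqM DnM Lvl.low lvl_of_parts dn_rare)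

section static

variable {V : Type} [Fintype V] {G : SimpleGraph V} {n n' a : V → ℝ}

/-- A smaller law. -/
theorem lvl_of_le (ha : ∀ x, 0 < a x) {C B : ℝ} {z : V} (h : Lvl G n a C z) (hB : 0 ≤ B)
    (hle : ∀ x, n' x ≤ B * n x) : Lvl G n' a (B * C) z := by
  intro A hA
  calc ∑ x with G.Adj z x ∧ A ≤ a x ∧ a x ≤ 2 * A, n' x / a x
      ≤ ∑ x with G.Adj z x ∧ A ≤ a x ∧ a x ≤ 2 * A, B * (n x / a x) := by
        refine Finset.sum_le_sum fun x _ => ?_
        rw [← mul_div_assoc]
        exact div_le_div_of_nonneg_right (hle x) (ha x).le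
    _ ≤ B * C := by
        rw [← Finset.mul_sum]
        exact mul_le_mul_of_nonneg_left (h A hA) hB

/-- Long windows. -/
theorem lvl_pow (hn : ∀ x, 0 ≤ n x) (ha : ∀ x, 0 < a x) {C : ℝ} {z : V} (h : Lvl G n a C z)
    {A : ℝ} (hA : 0 < A) (m : ℕ) :
    ∑ x with G.Adj z x ∧ A ≤ a x ∧ a x ≤ 2 ^ (m + 1) * A, n x / a x ≤ (m + 1) * C := by
  have h0 : ∀ x, 0 ≤ n x / a x := fun x => div_nonneg (hn x) (ha x).le
  induction m with
  | zero =>
    have h1 := h A hA
    simpa using h1
  | succ m ih =>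
    have h1 := h (2 ^ (m + 1) * A) (by positivity)
    have h2 : (univ.filter fun x => G.Adj z x ∧ A ≤ a x ∧ a x ≤ 2 ^ (m + 1 + 1) * A) ⊆
        (univ.filter fun x => G.Adj z x ∧ A ≤ a x ∧ a x ≤ 2 ^ (m + 1) * A) ∪
        (univ.filter fun x => G.Adj z x ∧ 2 ^ (m + 1) * A ≤ a x ∧
          a x ≤ 2 * (2 ^ (m + 1) * A)) := by
      intro x hx
      rw [Finset.mem_filter] at hx
      rw [Finset.mem_union, Finset.mem_filter, Finset.mem_filter]
      rcases le_total (a x) (2 ^ (m + 1) * A) with h3 | h3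
      · exact Or.inl ⟨mem_univ _, hx.2.1, hx.2.2.1, h3⟩
      · refine Or.inr ⟨mem_univ _, hx.2.1, h3, hx.2.2.2.trans (le_of_eq ?_)⟩
        rw [pow_succ]
        ring
    refine (Finset.sum_le_sum_of_subset_of_nonneg h2 fun x _ _ => h0 x).trans ?_
    have h3 : ∀ S T : Finset V, ∑ x ∈ S ∪ T, n x / a x ≤
        ∑ x ∈ S, n x / a x + ∑ x ∈ T, n x / a x := by
      intro S T
      rw [← Finset.sum_union_inter]
      have : 0 ≤ ∑ x ∈ S ∩ T, n x / a x := Finset.sum_nonneg fun x _ => h0 x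
      linarith
    refine (h3 _ _).trans ((add_le_add ih h1).trans (le_of_eq ?_))
    push_cast
    ring

/-- The far levels of a vertex are small: the low levels by UP, the high levels by DOWN. -/
theorem far_of (hn : ∀ x, 0 ≤ n x) (ha : ∀ x, 0 < a x) {Γ u L : ℝ} {z : V}
    (hΓ : Γ ≤ (2 : ℝ) ^ (L - 1)) (hup : UpL G n a Γ u z) (hdn : DnM G n a Γ z ≤ u) (j : ℤ)
    (hj : L ≤ |(j : ℝ) - Real.logb 2 (a z)|) :
    ∑ y with G.Adj y z ∧ ⌊Real.logb 2 (a y)⌋ = j, n y / a y ≤ u := by
  have h0 : ∀ x, 0 ≤ n x / a x := fun x => div_nonneg (hn x) (ha x).le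
  have h2 : (0 : ℝ) < 2 := two_pos
  have haz : (2 : ℝ) ^ Real.logb 2 (a z) = a z :=
    Real.rpow_logb two_pos (by norm_num) (ha z)
  rcases le_abs.1 hj with h | h
  · -- high levels
    refine le_trans (Finset.sum_le_sum_of_subset_of_nonneg ?_ fun x _ _ => h0 x) hdn
    intro y hy
    rw [Finset.mem_filter] at hy ⊢
    refine ⟨hy.1, hy.2.1.symm, ?_⟩
    have h3 : (j : ℝ) ≤ Real.logb 2 (a y) := by
      rw [← hy.2.2]
      exact Int.floor_le _
    calc Γ * a z ≤ (2 : ℝ) ^ (L - 1) * a z := mul_le_mul_of_nonneg_right hΓ (ha z).le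
      _ = (2 : ℝ) ^ (L - 1 + Real.logb 2 (a z)) := by rw [Real.rpow_add h2, haz]
      _ ≤ (2 : ℝ) ^ Real.logb 2 (a y) :=
          Real.rpow_le_rpow_of_exponent_le one_le_two (by linarith)
      _ = a y := Real.rpow_logb two_pos (by norm_num) (ha y)
  · -- low levels
    refine le_trans (Finset.sum_le_sum_of_subset_of_nonneg ?_ fun x _ _ => h0 x)
      (hup ((2 : ℝ) ^ (j : ℝ)) (by positivity))
    intro y hy
    rw [Finset.mem_filter] at hy ⊢
    have h3 : (j : ℝ) ≤ Real.logb 2 (a y) := by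
      rw [← hy.2.2]
      exact Int.floor_le _
    have h4 : Real.logb 2 (a y) < j + 1 := by
      rw [← hy.2.2]
      exact Int.lt_floor_add_one _
    have hay : (2 : ℝ) ^ Real.logb 2 (a y) = a y :=
      Real.rpow_logb two_pos (by norm_num) (ha y)
    have h5 : (2 : ℝ) ^ (j : ℝ) ≤ a y := by
      rw [← hay]
      exact Real.rpow_le_rpow_of_exponent_le one_le_two h3
    have h6 : a y ≤ 2 * (2 : ℝ) ^ (j : ℝ) := by
      rw [← hay, mul_comm, ← Real.rpow_add_one (by norm_num)]
      exact Real.rpow_le_rpow_of_exponent_le one_le_two h4.le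
    refine ⟨hy.1, ⟨hy.2.1.symm, ?_⟩, h5, h6⟩
    calc Γ * a y ≤ (2 : ℝ) ^ (L - 1) * a y := mul_le_mul_of_nonneg_right hΓ (ha y).le
      _ = (2 : ℝ) ^ (L - 1 + Real.logb 2 (a y)) := by rw [Real.rpow_add h2, hay]
      _ ≤ (2 : ℝ) ^ Real.logb 2 (a z) :=
          Real.rpow_le_rpow_of_exponent_le one_le_two (by linarith)
      _ = a z := haz

end static

section

variable {V : Type} [Fintype V] {P : Cn} {G : SimpleGraph V} {I : Inp P V} {n : V → ℝ}

/-- A level-wise bound and an atom bound give a bound for `Db`. -/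
theorem db_le (hn : ∀ x, 0 ≤ n x) (ha : ∀ x, 0 < al P G I x) {C : ℝ} {z : V}
    (h : Lvl G n (al P G I) C z) (i : Fin (P.I0 + 1)) :
    Db P G I n i z ≤ 4 * C + n z / al P G I z := by
  have h0 : ∀ x, 0 ≤ n x / al P G I x := fun x => div_nonneg (hn x) (ha x).le
  obtain ⟨A, hA, hAdef⟩ : ∃ A : ℝ, 0 < A ∧ A = (2 : ℝ) ^ (-(2 : ℝ) - ((i : ℕ) : ℝ)) :=
    ⟨_, by positivity, rfl⟩
  have h1 := lvl_pow hn ha h hA 3
  have h2 : ∀ x, n x / al P G I x * win 1 (hs P G I x + (i : ℕ)) * cl G x z ≤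
      (if x = z then n x / al P G I x else 0) +
        (if G.Adj z x ∧ A ≤ al P G I x ∧ al P G I x ≤ 2 ^ (3 + 1) * A then n x / al P G I x
          else 0) := by
    intro x
    have h3 : 0 ≤ (if x = z then n x / al P G I x else 0) := by
      split_ifs
      · exact h0 x
      · exact le_rfl
    have h4 : 0 ≤ (if G.Adj z x ∧ A ≤ al P G I x ∧ al P G I x ≤ 2 ^ (3 + 1) * A then
        n x / al P G I x else 0) := by
      split_ifs
      · exact h0 x
      · exact le_rfl
    by_cases hw : win 1 (hs P G I x + (i : ℕ)) = 0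
    · rw [hw, mul_zero, zero_mul]
      exact add_nonneg h3 h4
    · have h5 := GSLE.abs_lt_of_win hw
      rw [abs_lt] at h5
      have h6 : n x / al P G I x * win 1 (hs P G I x + (i : ℕ)) ≤ n x / al P G I x :=
        mul_le_of_le_one_right (h0 x) (GSLE.win_le_one _ _)
      by_cases hxz : x = z
      · rw [if_pos hxz]
        have h7 : n x / al P G I x * win 1 (hs P G I x + (i : ℕ)) * cl G x z ≤
            n x / al P G I x :=
          (mul_le_of_le_one_right (mul_nonneg (h0 x) (GSLE.win_nonneg _ _))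
            (GSLE.cl_le_one G x z)).trans h6
        linarith
      · by_cases had : G.Adj z x
        · have hax : (2 : ℝ) ^ hs P G I x = al P G I x :=
            Real.rpow_logb two_pos (by norm_num) (ha x)
          have h8 : A ≤ al P G I x := by
            rw [hAdef, ← hax]
            exact Real.rpow_le_rpow_of_exponent_le one_le_two (by linarith)
          have h9 : al P G I x ≤ 2 ^ (3 + 1) * A := by
            have h10 : (2 : ℝ) ^ (3 + 1) = (2 : ℝ) ^ (4 : ℝ) := by
              rw [← Real.rpow_natCast]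
              norm_num
            rw [h10, hAdef, ← Real.rpow_add two_pos, ← hax]
            exact Real.rpow_le_rpow_of_exponent_le one_le_two (by linarith)
          rw [if_neg hxz, if_pos ⟨had, h8, h9⟩, zero_add]
          exact (mul_le_of_le_one_right (mul_nonneg (h0 x) (GSLE.win_nonneg _ _))
            (GSLE.cl_le_one G x z)).trans h6
        · have h11 : cl G x z = 0 := by
            unfold cl
            rw [if_neg]
            rintro (h12 | h12)
            · exact hxz h12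
            · exact had h12.symm
          rw [h11, mul_zero]
          exact add_nonneg h3 h4
  unfold Db
  refine (Finset.sum_le_sum fun x _ => h2 x).trans ?_
  rw [Finset.sum_add_distrib, Finset.sum_ite_eq' Finset.univ z, if_pos (Finset.mem_univ z),
    ← Finset.sum_filter]
  have h13 : ((3 : ℕ) + 1 : ℝ) * C = 4 * C := by
    push_cast
    ring
  rw [h13] at h1
  linarith

/-- `Db` is monotone in the law. -/
theorem db_mono {n' : V → ℝ} (ha : ∀ x, 0 < al P G I x) {B : ℝ} (hle : ∀ x, n' x ≤ B * n x)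
    (i : Fin (P.I0 + 1)) (b : V) : Db P G I n' i b ≤ B * Db P G I n i b := by
  unfold Db
  rw [Finset.mul_sum]
  refine Finset.sum_le_sum fun x _ => ?_
  have h1 : n' x / al P G I x ≤ B * n x / al P G I x :=
    div_le_div_of_nonneg_right (hle x) (ha x).le
  calc n' x / al P G I x * win 1 (hs P G I x + (i : ℕ)) * cl G x b
      ≤ B * n x / al P G I x * win 1 (hs P G I x + (i : ℕ)) * cl G x b :=
        mul_le_mul_of_nonneg_right (mul_le_mul_of_nonneg_right h1 (GSLE.win_nonneg _ _))
          (GSLE.cl_nonneg _ _ _)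
    _ = B * (n x / al P G I x * win 1 (hs P G I x + (i : ℕ)) * cl G x b) := by ring

/-- The vertices which are not thin are rare. -/
theorem thin_rare (hn : ∀ x, 0 ≤ n x) (ha : ∀ x, 0 < al P G I x) {K Γ0 Γ1 u0 u1 v w0 at0 T τ : ℝ}
    {L : ℝ} (hΓ0 : 0 < Γ0) (hw0 : 0 < w0) (hΓ1 : 0 < Γ1) (hu1 : 0 < u1)
    (hlev : ∀ x, n x ≠ 0 → Lvl G n (al P G I) K x)
    (hup0 : ∀ x, n x ≠ 0 → UpL G n (al P G I) Γ0 u0 x)
    (hup1 : ∀ x, n x ≠ 0 → UpL G n (al P G I) Γ1 u1 x)
    (hat : ∀ x, n x ≠ 0 → n x ≤ at0 * al P G I x)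
    (hL : Γ1 ≤ (2 : ℝ) ^ (L - 1))
    (heq : ∑ x with v ≤ EqM G n (al P G I) Γ0 x, n x ≤ τ +
      ∑ x with ¬ (∀ j : ℤ, L ≤ |(j : ℝ) - Real.logb 2 (al P G I x)| →
        ∑ y with G.Adj y x ∧ ⌊Real.logb 2 (al P G I y)⌋ = j, n y / al P G I y ≤ u1), n x)
    (hT : 4 * (u0 + v + w0) + at0 < T) :
    ∑ x with (∃ i, T ≤ Db P G I n i x), n x ≤
      τ + 2 * K / (Γ0 * w0) * ∑ x, n x + 2 * K / (Γ1 * u1) * ∑ x, n x := by
  have hlow : ∀ x, n x ≠ 0 → Low G n (al P G I) (2 * K) x := fun x hx => (hlev x hx).low hn ha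
  have hd0 := dn_rare hn ha hΓ0 hw0 hlow
  have hd1 := dn_rare hn ha hΓ1 hu1 hlow
  have hfar : ∑ x with ¬ (∀ j : ℤ, L ≤ |(j : ℝ) - Real.logb 2 (al P G I x)| →
        ∑ y with G.Adj y x ∧ ⌊Real.logb 2 (al P G I y)⌋ = j, n y / al P G I y ≤ u1), n x ≤
      ∑ x with u1 ≤ DnM G n (al P G I) Γ1 x, n x := by
    rw [Finset.sum_filter, Finset.sum_filter]
    refine Finset.sum_le_sum fun x _ => ?_
    by_cases hx : n x = 0
    · rw [hx, ite_self, ite_self]
    · by_cases hd : u1 ≤ DnM G n (al P G I) Γ1 x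
      · rw [if_pos hd]
        have e3 : ∀ (p : Prop) [Decidable p], (if p then n x else 0) ≤ n x := by
          intro p _
          by_cases hp : p
          · rw [if_pos hp]
          · rw [if_neg hp]
            exact hn x
        exact e3 _
      · rw [if_neg hd, if_neg]
        rw [not_not]
        intro j hj
        exact far_of hn ha hL (hup1 x hx) (not_le.1 hd).le j hj
  have hmain : ∑ x with (∃ i, T ≤ Db P G I n i x), n x ≤
      ∑ x with v ≤ EqM G n (al P G I) Γ0 x, n x + ∑ x with w0 ≤ DnM G n (al P G I) Γ0 x, n x := by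
    rw [Finset.sum_filter, Finset.sum_filter, Finset.sum_filter, ← Finset.sum_add_distrib]
    refine Finset.sum_le_sum fun x _ => ?_
    have e1 : 0 ≤ (if v ≤ EqM G n (al P G I) Γ0 x then n x else 0) := by
      split_ifs
      · exact hn x
      · exact le_rfl
    have e2 : 0 ≤ (if w0 ≤ DnM G n (al P G I) Γ0 x then n x else 0) := by
      split_ifs
      · exact hn x
      · exact le_rfl
    by_cases hx : n x = 0
    · have e3 : (if ∃ i, T ≤ Db P G I n i x then n x else 0) = 0 := by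
        rw [hx, ite_self]
      rw [e3]
      exact add_nonneg e1 e2
    · by_cases hv : v ≤ EqM G n (al P G I) Γ0 x
      · rw [if_pos hv]
        have e3 : (if ∃ i, T ≤ Db P G I n i x then n x else 0) ≤ n x := by
          split_ifs
          · exact le_rfl
          · exact hn x
        linarith
      · by_cases hd : w0 ≤ DnM G n (al P G I) Γ0 x
        · rw [if_pos hd]
          have e3 : (if ∃ i, T ≤ Db P G I n i x then n x else 0) ≤ n x := by
            split_ifs
            · exact le_rfl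
            · exact hn x
          linarith
        · rw [if_neg]
          · exact add_nonneg e1 e2
          · rintro ⟨i, hi⟩
            have h1 := db_le hn ha (lvl_of_parts hn ha (hup0 x hx) (not_le.1 hv).le
              (not_le.1 hd).le) i
            have h2 : n x / al P G I x ≤ at0 := by
              rw [div_le_iff₀ (ha x)]
              exact hat x hx
            linarith
  calc ∑ x with (∃ i, T ≤ Db P G I n i x), n x
      ≤ ∑ x with v ≤ EqM G n (al P G I) Γ0 x, n x +
        ∑ x with w0 ≤ DnM G n (al P G I) Γ0 x, n x := hmain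
    _ ≤ (τ + 2 * K / (Γ1 * u1) * ∑ x, n x) + 2 * K / (Γ0 * w0) * ∑ x, n x :=
        add_le_add (heq.trans (add_le_add le_rfl (hfar.trans hd1))) hd0
    _ = τ + 2 * K / (Γ0 * w0) * ∑ x, n x + 2 * K / (Γ1 * u1) * ∑ x, n x := by ring

/-- The cover vanishes at the thin vertices. -/
theorem fs_eq_zero (hxi : 0 < P.xi) {b : V} (h : ∀ i, Db P G I I.n3 i b ≤ P.xi) :
    fs P G I b = 0 := by
  unfold fs
  rw [Finset.sum_eq_zero fun i _ => ?_]
  · exact min_eq_right zero_le_one
  · refine max_eq_left (div_nonpos_of_nonpos_of_nonneg ?_ hxi.le)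
    linarith [h i]

/-- The thin side of the stage. -/
theorem thin_fs (ha : ∀ x, 0 < al P G I x) (hxi : 0 < P.xi) {c0 : ℝ} (hc0 : 0 < c0)
    (hle : ∀ x, c0 * I.n3 x ≤ I.n2 x) {b : V} (h : ∀ i, Db P G I I.n2 i b ≤ c0 * P.xi) :
    (∀ i, Db P G I I.n3 i b ≤ P.xi) ∧ fs P G I b = 0 := by
  have h1 : ∀ i, Db P G I I.n3 i b ≤ P.xi := by
    intro i
    have h2 := db_mono (n := I.n2) (n' := I.n3) (B := 1 / c0) ha (fun x => by
      rw [one_div, inv_mul_eq_div, le_div_iff₀ hc0, mul_comm]
      exact hle x) i b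
    refine h2.trans ?_
    rw [one_div, inv_mul_eq_div, div_le_iff₀ hc0]
    linarith [h i]
  exact ⟨h1, fs_eq_zero hxi h1⟩

/-- The cover is zero on the next world. -/
theorem nxt_F_zero {s : Fin P.N} {S : Sta P V} {b : V} (h1 : S.F b = 0)
    (h2 : fs P G I b = 0) : (nxt P G s S I).F b = 0 := by
  change S.F b + fs P G I b = 0
  rw [h1, h2, add_zero]

end

end Pool.Agent.Lib.GSX
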