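import Pool.Agent.Lib.GSX.TypI
import Pool.Agent.Lib.GSX.T4H
import Pool.Agent.Lib.GSX.T5

/-!
# The end of the proof: typical pairs and the final alternative

`TyP`: the typical pairs (history, node); their mass is at least `1 / 2` (`ty_mass`).
`topZ`: if all the typical pairs have the signs `SgF` then the class of the final alternative
`t5` gives a contradiction with the two cases.
-/

set_option autoImplicit false

namespace Pool.Agent.Lib.GSX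

open Finset Classical
open Pool.Agent.Lib.GSR Pool.Agent.Lib.GSR.HZ Pool.Agent.Lib.GSR.HZB

namespace TopZ_

section

variable {V : Type} [Fintype V]

/-- The good stages of a history. -/
noncomputable abbrev gd (P : Cn) (G : SimpleGraph V) (θ : Tht P V) (c : Hh P V) :
    Finset (Fin P.N) := gds P G (fun s => inpt P θ s c) (wo c)

/-- The signs of a history: the masters. -/
abbrev mM (P : Cn) (G : SimpleGraph V) (θ : Tht P V) (c : Hh P V) (C : Finset (Fin P.N)) :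
    Prop := MaR P G (stt P G θ c) (wo c) C

/-- The signs of a history: the hub mode. -/
abbrev pP (P : Cn) (G : SimpleGraph V) (θ : Tht P V) (c : Hh P V) (C : Finset (Fin P.N))
    (s : Fin P.N) : Prop :=
  sdP P G (stt P G θ c s) (inpt P θ s c) (wo c (s + 1)) C

/-- The signs of a history: the items give a master. -/
abbrev bB (P : Cn) (G : SimpleGraph V) (θ : Tht P V) (c : Hh P V) (C : Finset (Fin P.N))
    (s : Fin P.N) : Prop :=
  sdB P G s (stt P G θ c s) (inpt P θ s c) (wo c (s + 1)) C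

/-- The signs of a history: the items of type YES. -/
abbrev iI (P : Cn) (G : SimpleGraph V) (θ : Tht P V) (c : Hh P V) (T : Finset (Fin P.N))
    (s : Fin P.N) : Prop :=
  sdY P G (stt P G θ c s) (inpt P θ s c) (wo c (s + 1)) T

end

/-- The mass of a set of pairs. -/
lemma pm_eq {V : Type} [Fintype V] {N nb : ℕ} (Q : Hi V N nb × V → ℝ)
    (B : Hi V N nb × V → Prop) : pm Q B = ∑ ω ∈ Finset.univ.filter B, Q ω := by
  unfold pm
  rw [Finset.sum_filter]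

/-- The mass of an intersection. -/
lemma pm_and {V : Type} [Fintype V] {N nb : ℕ} {Q : Hi V N nb × V → ℝ} (hQ : ∀ p, 0 ≤ Q p)
    (hQ1 : ∑ p, Q p = 1) (A B : Hi V N nb × V → Prop) :
    pm Q A + pm Q B - 1 ≤ pm Q (fun p => A p ∧ B p) := by
  have h1 := pm_add_not hQ1 A
  have h2 := pm_add_not hQ1 B
  have h3 := pm_add_not hQ1 (fun p => A p ∧ B p)
  have h4 : pm Q (fun p => ¬ (A p ∧ B p)) ≤ pm Q (fun p => ¬ A p) + pm Q (fun p => ¬ B p) :=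
    (pm_mono hQ fun p _ h => by
      by_cases hA : A p
      · exact Or.inr fun hB => h ⟨hA, hB⟩
      · exact Or.inl hA).trans (pm_or hQ _ _)
  linarith

end TopZ_

open TopZ_

section

variable {V : Type} [Fintype V] {P : Cn} {G : SimpleGraph V}

/-- The typical pairs (history, node). -/
structure TyP (P : Cn) (G : SimpleGraph V) (Q : Hh P V × V → ℝ) (θ : Tht P V) (c0 t : ℝ) (N0 : ℕ)
    (ω : Hh P V × V) : Prop where
  q : Q ω ≠ 0
  typ : Typ Q c0 ω.1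
  fct : ∀ s : Fin P.N, FctX P G s (stt P G θ ω.1 s) (inpt P θ s ω.1) t ω.2
  mem : ω.2 ∈ wo ω.1 P.N
  num : N0 ≤ (gd P G θ ω.1).card

variable {I : Type} {col : Finset V → ℕ → Prop} {T : Ts V P.N (nb P) I (Tht P V)}
  {Q : Hh P V × V → ℝ} {θ : Tht P V}

/-- **The mass of the typical pairs.** -/
theorem ty_mass (h : Eqm col T Q θ) (hN : 0 < P.N) {c0 t eX eO : ℝ} (hc0 : 0 ≤ c0) (heX : 0 ≤ eX)
    (heO : 0 ≤ eO) {N0 : ℕ} (hN0 : 2 * N0 ≤ P.N)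
    (hX : ∀ c, qc Q c ≠ 0 → Typ Q c0 c → ∀ s : Fin P.N,
      ∑ x ∈ Finset.univ.filter (fun x => ¬ FctX P G s (stt P G θ c s) (inpt P θ s c) t x),
        (inpt P θ s c).n3 x ≤ eX)
    (hO : ∀ c, qc Q c ≠ 0 → ∀ s : Fin P.N,
      ∑ x ∈ Finset.univ.filter (fun x => 1 / 4 ≤ out P G (inpt P θ s c) x),
        (inpt P θ s c).n0 x ≤ eO)
    (hsd : ∀ c, qc Q c ≠ 0 → Typ Q c0 c → ∀ s : Fin P.N, sdO P G (inpt P θ s c) (wo c (s + 1)) ∨
      ∀ v ∈ wo c (s + 1), 1 / 4 ≤ out P G (inpt P θ s c) v)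
    (hm : P.N * (2 ^ nb P * c0) + P.N * eX + 2 * eO ≤ 1 / 2) :
    1 / 2 ≤ ∑ ω ∈ Finset.univ.filter (fun ω => TyP P G Q θ c0 t N0 ω), Q ω := by
  have hg3 : g3 P ≤ nb P := g3_le_nb P
  -- the failures of the node
  obtain ⟨B1, hB1⟩ : ∃ B1 : ℕ → Unit → Hh P V → V → Prop, B1 = fun s _ p x => ∃ hs : s < P.N,
      ¬ FctX P G ⟨s, hs⟩ (stt P G θ p s) (inpt P θ ⟨s, hs⟩ p) t x := ⟨_, rfl⟩
  have hB1c : ∀ (s : Fin P.N) (c : Hh P V) (x : V), B1 s () (hp s (g3 P) c) x ↔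
      ¬ FctX P G s (stt P G θ c s) (inpt P θ s c) t x := by
    intro s c x
    rw [hB1]
    simp only [stt_hp (P := P) (G := G) (θ := θ) (le_refl s.1),
      inpt_hp (P := P) (θ := θ) (s := s) (Or.inr ⟨rfl, le_rfl⟩)]
    exact ⟨fun ⟨_, h⟩ => h, fun h => ⟨s.2, h⟩⟩
  have h1 := h.pm_good hc0 (κ := Unit) (fun _ => g3 P) (fun _ => hg3) B1 (fun _ => eX)
    (fun _ => heX) (by
      intro c hc hT s hs k
      refine le_trans (le_of_eq ?_) (hX c hc hT ⟨s, hs⟩)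
      refine Finset.sum_congr ?_ fun x _ => rfl
      ext x
      rw [Finset.mem_filter, Finset.mem_filter, hB1c ⟨s, hs⟩ c x])
  -- the bad stages
  obtain ⟨B2, hB2⟩ : ∃ B2 : ℕ → Hh P V → V → Prop, B2 = fun s p x => ∃ hs : s < P.N,
      1 / 4 ≤ out P G (inpt P θ ⟨s, hs⟩ p) x := ⟨_, rfl⟩
  have hB2c : ∀ (s : Fin P.N) (c : Hh P V) (x : V), B2 s (hp s 0 c) x ↔
      1 / 4 ≤ out P G (inpt P θ s c) x := by
    intro s c x
    rw [hB2]
    simp only [out_hp (P := P) (G := G) (θ := θ) s 0 c]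
    exact ⟨fun ⟨_, h⟩ => h, fun h => ⟨s.2, h⟩⟩
  have h2 := h.pm_half hN 0 (Nat.zero_le _) B2 heO (by
    intro s hs c hc
    refine le_trans (le_of_eq ?_) (hO c hc ⟨s, hs⟩)
    refine Finset.sum_congr ?_ fun x _ => rfl
    ext x
    rw [Finset.mem_filter, Finset.mem_filter, hB2c ⟨s, hs⟩ c x])
  -- together
  have h3 : pm Q (fun p => (Typ Q c0 p.1 ∧ ∀ s < P.N, ∀ k, ¬ B1 s k (hp s (g3 P) p.1) p.2) ∧
      (P.N : ℝ) / 2 < (((Finset.range P.N).filter fun s => ¬ B2 s (hp s 0 p.1) p.2).card : ℝ)) ≤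
      pm Q (fun ω => TyP P G Q θ c0 t N0 ω) := by
    refine pm_mono h.Q0 fun ω hω hp' => ?_
    obtain ⟨⟨hT, hf⟩, hn⟩ := hp'
    have hc : qc Q ω.1 ≠ 0 := h.qc_ne (x := ω.2) hω
    refine ⟨hω, hT, fun s => ?_, (h.ok ω.1 ω.2 hω).2, ?_⟩
    · by_contra hcon
      exact hf s s.2 () ((hB1c s ω.1 ω.2).2 hcon)
    · have h4 : ((Finset.range P.N).filter fun s => ¬ B2 s (hp s 0 ω.1) ω.2).card ≤
          (gd P G θ ω.1).card := by
        refine Finset.card_le_card_of_surjOn (fun s : Fin P.N => (s : ℕ)) ?_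
        intro s hs
        rw [Finset.mem_coe, Finset.mem_filter, Finset.mem_range] at hs
        refine ⟨⟨s, hs.1⟩, ?_, rfl⟩
        rw [Finset.mem_coe]
        refine T4_.mem_gds.2 ?_
        rcases hsd ω.1 hc hT ⟨s, hs.1⟩ with h5 | h5
        · exact h5
        · exact absurd ((hB2c ⟨s, hs.1⟩ ω.1 ω.2).2
            (h5 ω.2 (h.mem_wo hω (by simp only; omega)))) hs.2
      have h5 : (2 * N0 : ℝ) ≤ P.N := by exact_mod_cast hN0
      have h6 : (N0 : ℝ) < ((gd P G θ ω.1).card : ℝ) := by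
        have h7 : ((((Finset.range P.N).filter fun s => ¬ B2 s (hp s 0 ω.1) ω.2).card : ℕ) : ℝ) ≤
            ((gd P G θ ω.1).card : ℝ) := by exact_mod_cast h4
        linarith
      exact_mod_cast h6.le
  have h4 := pm_and h.Q0 h.Q1 (fun p : Hh P V × V => Typ Q c0 p.1 ∧ ∀ s < P.N, ∀ k,
    ¬ B1 s k (hp s (g3 P) p.1) p.2) (fun p => (P.N : ℝ) / 2 <
      (((Finset.range P.N).filter fun s => ¬ B2 s (hp s 0 p.1) p.2).card : ℝ))
  rw [← pm_eq Q (fun ω => TyP P G Q θ c0 t N0 ω)]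
  simp only [Fintype.sum_unique] at h1
  linarith

/-- **The signs of the typical pairs.** -/
theorem ty_sg (h : Eqm col T Q θ) {c0 t e2 : ℝ} {N0 L0 : ℕ} {B : ℕ → ℝ} (hP : CPos P)
    (K : OkT P e2 L0) (hg : P.gU ≤ P.g0)
    (hZ : ∀ (s : Fin P.N) (C : Finset (Fin P.N)), Bef P s C →
      (1 + ((its P s C).card : ℝ)) / cst P C.card * P.Z'' C.card ≤ P.Z (C.card + 1))
    (hT : ∀ φ : List (Fin P.M) → V, ¬ GSR3.Tree G P.h P.M φ)
    (hH : ∀ c, qc Q c ≠ 0 → Typ Q c0 c → HisW P G B (stt P G θ c) (fun s => inpt P θ s c) (wo c))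
    (ω : Hh P V × V) (hω : TyP P G Q θ c0 t N0 ω) :
    SgF P.h L0 (mM P G θ ω.1) (pP P G θ ω.1) (bB P G θ ω.1) (gd P G θ ω.1) :=
  t4 hP K hg hZ hT (hH ω.1 (h.qc_ne (x := ω.2) hω.q) hω.typ) (fun s _ => hω.fct s) hω.mem

/-- Removing the pairs in exceptional sets. -/
theorem restr (h : Eqm col T Q θ) {c0 t : ℝ} {N0 : ℕ}
    {X : Finset (Hh P V × V)} (hX : ∀ ω ∈ X, TyP P G Q θ c0 t N0 ω) {κ : ℝ}
    (hκ : κ ≤ ∑ ω ∈ X, Q ω) (Bad : Fin P.N → Sta P V → Inp P V → V → Prop) {e : ℝ} (he : 0 ≤ e)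
    (hB : ∀ c, qc Q c ≠ 0 → Typ Q c0 c → ∀ s : Fin P.N,
      ∑ x ∈ Finset.univ.filter (Bad s (stt P G θ c s) (inpt P θ s c)), (inpt P θ s c).n3 x ≤ e) :
    ∃ X' ⊆ X, (∀ ω ∈ X', ∀ s, ¬ Bad s (stt P G θ ω.1 s) (inpt P θ s ω.1) ω.2) ∧
      κ - P.N * e ≤ ∑ ω ∈ X', Q ω := by
  refine ⟨X.filter fun ω => ∀ s, ¬ Bad s (stt P G θ ω.1 s) (inpt P θ s ω.1) ω.2,
    Finset.filter_subset _ _, fun ω hω => (Finset.mem_filter.1 hω).2, ?_⟩
  have h1 := Finset.sum_filter_add_sum_filter_not X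
    (fun ω => ∀ s, ¬ Bad s (stt P G θ ω.1 s) (inpt P θ s ω.1) ω.2) Q
  have h2 : ∑ ω ∈ X.filter (fun ω => ¬ ∀ s, ¬ Bad s (stt P G θ ω.1 s) (inpt P θ s ω.1) ω.2),
      Q ω ≤ P.N * e := by
    have h3 : ∑ ω ∈ X.filter (fun ω => ¬ ∀ s, ¬ Bad s (stt P G θ ω.1 s) (inpt P θ s ω.1) ω.2),
        Q ω ≤ pm Q (fun ω => ∃ s ∈ (Finset.univ : Finset (Fin P.N)), Typ Q c0 ω.1 ∧
          Bad s (stt P G θ ω.1 s) (inpt P θ s ω.1) ω.2) := by
      rw [pm_eq]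
      refine Finset.sum_le_sum_of_subset_of_nonneg ?_ fun ω _ _ => h.Q0 ω
      intro ω hω
      simp only [Finset.mem_filter] at hω ⊢
      obtain ⟨h3, h4⟩ := hω
      push Not at h4
      obtain ⟨s, hs⟩ := h4
      exact ⟨Finset.mem_univ _, s, Finset.mem_univ _, (hX ω h3).typ, hs⟩
    refine h3.trans ((pm_exists h.Q0 _ _).trans ?_)
    refine (Finset.sum_le_sum fun s _ => pm_rec_le h s (Typ Q c0) (Bad s) he
      fun c hc hT => hB c hc hT s).trans (le_of_eq ?_)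
    rw [Finset.sum_const, Finset.card_univ, Fintype.card_fin, nsmul_eq_mul]
  linarith

/-- The pool of type NO for the pairs of `X`. -/
def PlU (P : Cn) (G : SimpleGraph V) (θ : Tht P V) (m : ℕ) (Pl : Finset (Fin P.N))
    (X : Finset (Hh P V × V)) : Prop :=
  PoolU P.r0 (fun ω : Hh P V × V => gd P G θ ω.1) (fun ω => mM P G θ ω.1)
    (fun ω => pP P G θ ω.1) (fun ω => bB P G θ ω.1) (fun ω => iI P G θ ω.1) m Pl X

/-- The pool of type YES for the pairs of `X`. -/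
def PlB (P : Cn) (G : SimpleGraph V) (θ : Tht P V) (q m : ℕ) (st : ℕ → Fin P.N)
    (SS : ℕ → Finset (Fin P.N)) (X : Finset (Hh P V × V)) : Prop :=
  PoolB P.r0 q (fun ω : Hh P V × V => gd P G θ ω.1) (fun ω => mM P G θ ω.1)
    (fun ω => pP P G θ ω.1) (fun ω => bB P G θ ω.1) (fun ω => iI P G θ ω.1) m st SS X

/-- **The end**: the typical pairs have mass at least `1 / 2`, they have the signs, and both cases
of the final alternative are impossible. -/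
theorem topZ (hQ0 : ∀ ω, 0 ≤ Q ω) {c0 t : ℝ} {N0 qB L0 RU : ℕ}
    (h5 : ∀ (N : ℕ) (Ω : Type) (w : Ω → ℝ) (Ty : Finset Ω) (T : Ω → Finset (Fin N))
      (M : Ω → Finset (Fin N) → Prop) (P' B I : Ω → Finset (Fin N) → Fin N → Prop),
      (∀ ω, 0 ≤ w ω) →
      (∀ ω ∈ Ty, N0 ≤ (T ω).card ∧ SgF P.h L0 (M ω) (P' ω) (B ω) (T ω)) →
      1 / 2 ≤ ∑ ω ∈ Ty, w ω →
        ∃ (m : ℕ) (X : Finset Ω), 1 ≤ m ∧ m < P.h ∧ X ⊆ Ty ∧ kpp P.h N ≤ ∑ ω ∈ X, w ω ∧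
          ((∃ Q : Finset (Fin N), RU ≤ Q.card ∧ PoolU P.r0 T M P' B I m Q X) ∨
            ∃ (Q : Finset (Fin N)) (s : Fin N), Q.card = P.r0 + qB ∧ s ∈ Q ∧ (∀ c ∈ Q, c ≤ s) ∧
              PoolB P.r0 qB T M P' B I m (sgP Q s P.r0) (TP Q s P.r0) X))
    (hm : 1 / 2 ≤ ∑ ω ∈ Finset.univ.filter (fun ω => TyP P G Q θ c0 t N0 ω), Q ω)
    (hS : ∀ ω, TyP P G Q θ c0 t N0 ω →
      SgF P.h L0 (mM P G θ ω.1) (pP P G θ ω.1) (bB P G θ ω.1) (gd P G θ ω.1))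
    (hU : ∀ (m : ℕ) (X : Finset (Hh P V × V)) (Pl : Finset (Fin P.N)), 1 ≤ m → m < P.h →
      (∀ ω ∈ X, TyP P G Q θ c0 t N0 ω) → kpp P.h P.N ≤ ∑ ω ∈ X, Q ω → RU ≤ Pl.card →
      PlU P G θ m Pl X → False)
    (hB : ∀ (m : ℕ) (X : Finset (Hh P V × V)) (Pl : Finset (Fin P.N)) (s : Fin P.N),
      1 ≤ m → m < P.h → (∀ ω ∈ X, TyP P G Q θ c0 t N0 ω) → kpp P.h P.N ≤ ∑ ω ∈ X, Q ω →
      Pl.card = P.r0 + qB → s ∈ Pl → (∀ c ∈ Pl, c ≤ s) →
      PlB P G θ qB m (sgP Pl s P.r0) (TP Pl s P.r0) X → False) : False := by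
  obtain ⟨m, X, hm1, hmh, hXT, hk, hX⟩ := h5 P.N (Hh P V × V) Q
    (Finset.univ.filter (fun ω => TyP P G Q θ c0 t N0 ω)) (fun ω => gd P G θ ω.1)
    (fun ω => mM P G θ ω.1) (fun ω => pP P G θ ω.1) (fun ω => bB P G θ ω.1)
    (fun ω => iI P G θ ω.1) hQ0 (fun ω hω => ⟨(Finset.mem_filter.1 hω).2.num,
      hS ω (Finset.mem_filter.1 hω).2⟩) hm
  have hT : ∀ ω ∈ X, TyP P G Q θ c0 t N0 ω := fun ω hω => (Finset.mem_filter.1 (hXT hω)).2
  rcases hX with ⟨Pl, hR, hPl⟩ | ⟨Pl, s, hc, hs, hs', hPl⟩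
  · exact hU m X Pl hm1 hmh hT hk hR hPl
  · exact hB m X Pl s hm1 hmh hT hk hc hs hs' hPl

end

end Pool.Agent.Lib.GSX
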