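import Pool.Agent.Lib.GSX.HisG
import Pool.Agent.Lib.GSX.GstG
import Pool.Agent.Lib.GSX.StgS
import Pool.Agent.Lib.GSX.WinI
import Pool.Agent.Lib.GSX.TopZ

/-!
# Typical histories and typical pairs at the equilibrium of the game

`his_of_geq`: the records of a typical history satisfy `HisW`.
`ty_half`: the mass of the typical pairs is at least `1 / 2`.
`ty_sgf`: the typical pairs have the signs `SgF`.
-/

set_option autoImplicit false

namespace Pool.Agent.Lib.GSX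

open Finset Classical
open Pool.Agent.Lib.GSR3 (Tree)
open Pool.Agent.Lib.FGF (Frac)
open Pool.Agent.Lib.GSR Pool.Agent.Lib.GSR.HZ Pool.Agent.Lib.GSR.HZB

/-- The bound of the mass of the nodes for which `FctX` fails, at one stage. -/
noncomputable def eXS (P : Cn) (κ : ℕ) (n c0 et t : ℝ) : ℝ :=
  n * (2 * (1 / c0) * (16 * P.e0)) + 2 ^ P.N * (4 * et) +
    2 ^ P.N * (8 * (κ * P.M * (P.xi2 / c0)) / P.cP (P.h - 1)) +
      2 ^ P.N * 2 ^ P.N * (et * P.cA / t)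

section

variable {V : Type} [Fintype V] {P : Cn} {G : SimpleGraph V} {X : Cx} {b : ℕ → ℕ}
  {Q : Hh P V × V → ℝ} {θ : Tht P V} {κ : ℕ} {F et : ℝ} {dO B : ℕ → ℝ} {δ e1 : Fin 2 → ℝ}
  {Bb : Fin 2 → ℕ → ℝ} {g : ℕ} {δ' L' v w0 τ : ℝ}

/-- The nodes after the third group of bits are thin. -/
theorem thin_of_geq (h : GEq P G X b Q θ) (hP : CPos P)
    (KG : OkGP P κ F X.c0 X.K0E X.K1E X.eE X.dE X.gE X.LE δ e1 Bb g δ' L' v w0 τ)
    (KS : OkPS P κ X.c0 et dO B) (hc0 : 0 < X.c0) (hF : Frac G F)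
    (hT : ∀ φ : List (Fin P.M) → V, ¬ Tree G P.h P.M φ) (col : V → V → Fin κ)
    (hcol : ∀ v u w, G.Adj v u → G.Adj v w → G.Adj u w → col v u ≠ col v w)
    {c : Hh P V} (hc : qc Q c ≠ 0) (hTy : Typ Q X.c0 c) (s : Fin P.N) :
    ∀ x, U5 P Q s.1 c 3 x → (∀ i, Db P G (inpt P θ s c) (inpt P θ s c).n3 i x ≤ P.xi) ∧
      fs P G (inpt P θ s c) x = 0 :=
  HisG_.thin KG hP.e0 KS.e01 (StgS_.lv_le KS.I0) hF hT col hcol (gst_of_geq h hc hc0 hTy s)
    subset_rfl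

/-- **The records of a typical history.** -/
theorem his_of_geq (h : GEq P G X b Q θ) (hP : CPos P)
    (KG : OkGP P κ F X.c0 X.K0E X.K1E X.eE X.dE X.gE X.LE δ e1 Bb g δ' L' v w0 τ)
    (KS : OkPS P κ X.c0 et dO B) (hl : 0 ≤ P.lG)
    (hB : ∀ r, r < P.h → BdM_.Bst P P.Bd r (B r) ≤ B (r + 1)) (hc0 : 0 < X.c0) (hF : Frac G F)
    (hT : ∀ φ : List (Fin P.M) → V, ¬ Tree G P.h P.M φ) (col : V → V → Fin κ)
    (hcol : ∀ v u w, G.Adj v u → G.Adj v w → G.Adj u w → col v u ≠ col v w)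
    {c : Hh P V} (hc : qc Q c ≠ 0) (hTy : Typ Q X.c0 c) :
    HisW P G B (stt P G θ c) (fun s => inpt P θ s c) (wo c) := by
  have hg := fun s : Fin P.N => gst_of_geq h hc hc0 hTy s
  exact HisG_.hisW_of_gst hP KS.e01.le hl (zero_le_one.trans KS.Bd1) KS.Bnn hB
    (HisG_.run_game θ c) hg
    (fun s x hx => (thin_of_geq h hP KG KS hc0 hF hT col hcol hc hTy s x hx).2)
    (fun s _ C hC hr => (hg s).gp hP KS hC hr)
    (fun s hV T C hT' hTc hCT hr => (hg s).ga hP KS hV hT' hTc hCT hr)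

/-- **The mass of the typical pairs.** -/
theorem ty_half (h : GEq P G X b Q θ) (hP : CPos P)
    (KG : OkGP P κ F X.c0 X.K0E X.K1E X.eE X.dE X.gE X.LE δ e1 Bb g δ' L' v w0 τ)
    (KS : OkPS P κ X.c0 et dO B) (hl : 0 ≤ P.lG)
    (hB : ∀ r, r < P.h → BdM_.Bst P P.Bd r (B r) ≤ B (r + 1)) (hc0 : 0 < X.c0) (hF : Frac G F)
    (hT : ∀ φ : List (Fin P.M) → V, ¬ Tree G P.h P.M φ) (col : V → V → Fin κ)
    (hcol : ∀ v u w, G.Adj v u → G.Adj v w → G.Adj u w → col v u ≠ col v w)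
    {gN : ℕ} (hgU : (gN : ℝ) + 1 ≤ P.gU) (hN : 0 < P.N) {N0 : ℕ} (hN0 : 2 * N0 ≤ P.N) {t : ℝ}
    (ht : 0 < t) {eX : ℝ} (heX : eXS P κ (Fintype.card V) X.c0 et t ≤ eX)
    (hm : P.N * (2 ^ nb P * X.c0) + P.N * eX + 2 * (4 * (14 * (1 / √2) ^ gN)) ≤ 1 / 2) :
    1 / 2 ≤ ∑ ω ∈ Finset.univ.filter (fun ω => TyP P G Q θ X.c0 t N0 ω), Q ω := by
  have hxi2 := KG.xi2
  have hX : ∀ c, qc Q c ≠ 0 → Typ Q X.c0 c → ∀ s : Fin P.N,
      ∑ x ∈ Finset.univ.filter (fun x => ¬ FctX P G s (stt P G θ c s) (inpt P θ s c) t x),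
        (inpt P θ s c).n3 x ≤ max 0 (eXS P κ (Fintype.card V) X.c0 et t) := by
    intro c hc hTy s
    have hg := gst_of_geq h hc hc0 hTy s
    have hV := (his_of_geq h hP KG KS hl hB hc0 hF hT col hcol hc hTy).inv s s.2.le
    refine le_trans ?_ (le_max_right _ _)
    exact hg.fctX_mass hP KS hV (fun v => ⟨col v, hcol v⟩)
      (hg.atm hP.e0 KS.e01 (StgS_.lv_le KS.I0) hxi2 KG.at1)
      (fun x hx => (thin_of_geq h hP KG KS hc0 hF hT col hcol hc hTy s x hx).2) ht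
  have he : 0 ≤ eXS P κ (Fintype.card V) X.c0 et t := by
    have hcA := hP.cA
    have hcP := hP.cP (P.h - 1)
    have he0 := hP.e0
    have het : 0 ≤ et := by
      have h0 := KS.ownA 0
      have h6 : 0 < cst P 0 := RecP_.cst_pos hP _
      by_contra h7
      push Not at h7
      have h8 : et * cst P 0 < 0 := mul_neg_of_neg_of_pos h7 h6
      have h9 : 0 ≤ Dmc X.c0 * (dO 0 + P.A' 0 * (2 * P.dl 0)) := mul_nonneg (Dmc_pos hc0).le
        (add_nonneg (KS.dO0 0) (mul_nonneg (hP.A' 0) (mul_nonneg two_pos.le (hP.dl 0).le)))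
      linarith
    unfold eXS
    positivity
  refine ty_mass h.eqm hN (eX := eX) (eO := 4 * (14 * (1 / √2) ^ gN)) hc0.le (he.trans heX)
    (by positivity) hN0
    (fun c hc hTy s => ((hX c hc hTy s).trans (max_eq_right he).le).trans heX) ?_ ?_ hm
  · intro c hc s
    have hbst := BestI_.best_of_eqm h.eqm (GstG_.opt h) hc s
    exact Win.outG_rare_best (G := G) hbst.1 hP.e0 KS.e01 (StgS_.lv_le KS.I0)
      (InpC_.n0_mem h.dom s c).1 (InpC_.n0_mem h.dom s c).2.le (g := gN) (γ := P.gU) hgU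
      (m := (inpt P θ s c).n0) (C := 1) (t := 1 / 4) zero_le_one
      (fun x => by rw [one_mul]) (by norm_num) (le_of_eq (by ring))
  · intro c hc hTy s
    exact (gst_of_geq h hc hc0 hTy s).sidesW.o

/-- **The signs of the typical pairs.** -/
theorem ty_sgf (h : GEq P G X b Q θ) (hP : CPos P)
    (KG : OkGP P κ F X.c0 X.K0E X.K1E X.eE X.dE X.gE X.LE δ e1 Bb g δ' L' v w0 τ)
    (KS : OkPS P κ X.c0 et dO B) (hl : 0 ≤ P.lG)
    (hB : ∀ r, r < P.h → BdM_.Bst P P.Bd r (B r) ≤ B (r + 1)) (hc0 : 0 < X.c0) (hF : Frac G F)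
    (hT : ∀ φ : List (Fin P.M) → V, ¬ Tree G P.h P.M φ) (col : V → V → Fin κ)
    (hcol : ∀ v u w, G.Adj v u → G.Adj v w → G.Adj u w → col v u ≠ col v w)
    {e2 : ℝ} {L0 N0 : ℕ} (KT : OkT P e2 L0) (hg : P.gU ≤ P.g0)
    (hZ : ∀ (s : Fin P.N) (C : Finset (Fin P.N)), Bef P s C →
      (1 + ((its P s C).card : ℝ)) / cst P C.card * P.Z'' C.card ≤ P.Z (C.card + 1)) {t : ℝ}
    (ω : Hh P V × V) (hω : TyP P G Q θ X.c0 t N0 ω) :
    SgF P.h L0 (TopZ_.mM P G θ ω.1) (TopZ_.pP P G θ ω.1) (TopZ_.bB P G θ ω.1)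
      (TopZ_.gd P G θ ω.1) :=
  ty_sg h.eqm hP KT hg hZ hT
    (fun _ hc hTy => his_of_geq h hP KG KS hl hB hc0 hF hT col hcol hc hTy) ω hω

end

end Pool.Agent.Lib.GSX
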