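import Pool.Agent.Lib.GSX.Rec

/-!
# The labels which are kept for the unlinked case

`DM g n l` is the own mass of the main label `l` for the node law `n` in the window `g`, and
`piK g n d` the part of the main law on the labels with `d ≤ DM`.  The removed labels have a small
share at most nodes, and a thin vertex is not the hub of a kept label.
-/

set_option autoImplicit false

namespace Pool.Agent.Lib.GSX

open Finset Classical
open Pool.Agent.Lib.GSLE (kp cl win alp)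

variable {V : Type} [Fintype V] (P : Cn) (G : SimpleGraph V) (I : Inp P V)

/-- The own mass of the main label `l`. -/
noncomputable def DM (g : ℝ) (n : V → ℝ) (l : Ml P V) : ℝ :=
  ∑ x, n x * (kk P G I g x l / al P G I x)

/-- The kept part of the main law. -/
noncomputable def piK (g : ℝ) (n : V → ℝ) (d : ℝ) (l : Ml P V) : ℝ :=
  if d ≤ DM P G I g n l then I.pi l else 0

/-- The share of the labels in the window. -/
noncomputable def shW (g : ℝ) (x : V) : ℝ := ∑ l, I.pi l * (kk P G I g x l / al P G I x)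

/-- The share of the removed labels. -/
noncomputable def shR (g : ℝ) (n : V → ℝ) (d : ℝ) (x : V) : ℝ :=
  ∑ l ∈ univ.filter (fun l => ¬ d ≤ DM P G I g n l), I.pi l * (kk P G I g x l / al P G I x)

/-- The own relation in the window `g`. -/
def ownU (g : ℝ) (x : V) (l : Ml P V) : Prop :=
  G.Adj x l.1 ∧ l.1 ∈ I.W ∧ |hs P G I x + (l.2 : ℕ)| < g + 1

namespace UDl_

variable {P G I} {g : ℝ} {n : V → ℝ} {d : ℝ}

theorem al_pos (x : V) : 0 < al P G I x := GSLE.alp_pos _ _ _ _ _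

omit [Fintype V] in
theorem inc_nonneg (x : V) (l : Ml P V) : 0 ≤ inc G I.W x l := by
  unfold inc
  split_ifs
  · exact zero_le_one
  · exact le_rfl

omit [Fintype V] in
theorem inc_le_one (x : V) (l : Ml P V) : inc G I.W x l ≤ 1 := by
  unfold inc
  split_ifs
  · exact le_rfl
  · exact zero_le_one

theorem kk_nonneg (x : V) (l : Ml P V) : 0 ≤ kk P G I g x l :=
  mul_nonneg (mul_nonneg (inc_nonneg x l) (GSLE.kp_nonneg _)) (GSLE.win_nonneg _ _)

theorem kk_le_one (x : V) (l : Ml P V) : kk P G I g x l ≤ 1 := by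
  unfold kk
  refine mul_le_one₀ (mul_le_one₀ (inc_le_one x l) (GSLE.kp_nonneg _) (GSLE.kp_le_one _))
    (GSLE.win_nonneg _ _) (GSLE.win_le_one _ _)

/-- The kernel is positive on own pairs only. -/
theorem kk_own {x : V} {l : Ml P V} (h : kk P G I g x l ≠ 0) : ownU P G I g x l := by
  unfold kk at h
  have h1 := right_ne_zero_of_mul h
  have h2 := left_ne_zero_of_mul (left_ne_zero_of_mul h)
  unfold inc at h2
  split_ifs at h2 with h3
  · exact ⟨h3.1, h3.2, GSLE.abs_lt_of_win h1⟩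
  · exact absurd rfl h2

theorem sr_nonneg (x : V) (l : Ml P V) : 0 ≤ kk P G I g x l / al P G I x :=
  div_nonneg (kk_nonneg x l) (al_pos x).le

theorem DM_nonneg (hn : ∀ x, 0 ≤ n x) (l : Ml P V) : 0 ≤ DM P G I g n l :=
  Finset.sum_nonneg fun x _ => mul_nonneg (hn x) (sr_nonneg x l)

theorem piK_nonneg (hπ : ∀ l, 0 ≤ I.pi l) (l : Ml P V) : 0 ≤ piK P G I g n d l := by
  unfold piK
  split_ifs
  · exact hπ l
  · exact le_rfl

theorem piK_le (hπ : ∀ l, 0 ≤ I.pi l) (l : Ml P V) : piK P G I g n d l ≤ I.pi l := by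
  unfold piK
  split_ifs
  · exact le_rfl
  · exact hπ l

/-- The flux identity. -/
theorem flux (v : Ml P V → ℝ) (T : Finset (Ml P V)) :
    ∑ x, n x * ∑ l ∈ T, v l * (kk P G I g x l / al P G I x) =
      ∑ l ∈ T, v l * DM P G I g n l := by
  unfold DM
  simp_rw [Finset.mul_sum]
  rw [Finset.sum_comm]
  refine Finset.sum_congr rfl fun l _ => Finset.sum_congr rfl fun x _ => ?_
  ring

theorem shR_nonneg (hπ : ∀ l, 0 ≤ I.pi l) (x : V) : 0 ≤ shR P G I g n d x :=
  Finset.sum_nonneg fun l _ => mul_nonneg (hπ l) (sr_nonneg x l)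

/-- The mean of the removed share. -/
theorem shR_mean (hπ : ∀ l, 0 ≤ I.pi l) (hπ1 : ∑ l, I.pi l ≤ 1) (hd : 0 ≤ d) :
    ∑ x, n x * shR P G I g n d x ≤ d := by
  unfold shR
  rw [flux]
  calc ∑ l ∈ univ.filter (fun l => ¬ d ≤ DM P G I g n l), I.pi l * DM P G I g n l
      ≤ ∑ l ∈ univ.filter (fun l => ¬ d ≤ DM P G I g n l), I.pi l * d := by
        refine Finset.sum_le_sum fun l hl => mul_le_mul_of_nonneg_left ?_ (hπ l)
        exact (not_le.1 (Finset.mem_filter.1 hl).2).le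
    _ ≤ ∑ l, I.pi l * d := Finset.sum_le_sum_of_subset_of_nonneg (Finset.filter_subset _ _)
        fun l _ _ => mul_nonneg (hπ l) hd
    _ = (∑ l, I.pi l) * d := (Finset.sum_mul _ _ _).symm
    _ ≤ 1 * d := mul_le_mul_of_nonneg_right hπ1 hd
    _ = d := one_mul d

/-- Markov: the removed share is small at most nodes. -/
theorem shR_markov (hn : ∀ x, 0 ≤ n x) (hπ : ∀ l, 0 ≤ I.pi l) (hπ1 : ∑ l, I.pi l ≤ 1)
    (hd : 0 ≤ d) {t : ℝ} (ht : 0 < t) :
    ∑ x ∈ univ.filter (fun x => t ≤ shR P G I g n d x), n x ≤ d / t := by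
  rw [le_div_iff₀ ht, Finset.sum_mul]
  refine (Finset.sum_le_sum fun x hx => mul_le_mul_of_nonneg_left
    (Finset.mem_filter.1 hx).2 (hn x)).trans ?_
  refine (Finset.sum_le_sum_of_subset_of_nonneg (Finset.filter_subset _ _) fun x _ _ =>
    mul_nonneg (hn x) (shR_nonneg hπ x)).trans ?_
  exact shR_mean hπ hπ1 hd

/-- The kept share. -/
theorem kept_share (x : V) :
    ∑ l, piK P G I g n d l * (kk P G I g x l / al P G I x) =
      shW P G I g x - shR P G I g n d x := by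
  unfold shW shR
  rw [← Finset.sum_filter_add_sum_filter_not univ (fun l => d ≤ DM P G I g n l)
    (fun l => I.pi l * (kk P G I g x l / al P G I x)), add_sub_cancel_right,
    ← Finset.sum_filter_add_sum_filter_not univ (fun l => d ≤ DM P G I g n l)
    (fun l => piK P G I g n d l * (kk P G I g x l / al P G I x))]
  have h1 : ∑ l ∈ univ.filter (fun l => ¬ d ≤ DM P G I g n l),
      piK P G I g n d l * (kk P G I g x l / al P G I x) = 0 :=
    Finset.sum_eq_zero fun l hl => by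
      unfold piK
      rw [if_neg (Finset.mem_filter.1 hl).2, zero_mul]
  rw [h1, add_zero]
  refine Finset.sum_congr rfl fun l hl => ?_
  unfold piK
  rw [if_pos (Finset.mem_filter.1 hl).2]

/-- The weight of the kept own labels (the field `sha`). -/
theorem kept_own (hπ : ∀ l, 0 ≤ I.pi l) {c : ℝ} {x : V}
    (h : c ≤ shW P G I g x - shR P G I g n d x) :
    c * al P G I x ≤ ∑ l, if ownU P G I g x l then piK P G I g n d l else 0 := by
  have hax := al_pos (P := P) (G := G) (I := I) x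
  rw [← kept_share] at h
  calc c * al P G I x
      ≤ (∑ l, piK P G I g n d l * (kk P G I g x l / al P G I x)) * al P G I x :=
        mul_le_mul_of_nonneg_right h hax.le
    _ = ∑ l, piK P G I g n d l * kk P G I g x l := by
        rw [Finset.sum_mul]
        refine Finset.sum_congr rfl fun l _ => ?_
        rw [mul_assoc, div_mul_cancel₀ _ hax.ne']
    _ ≤ ∑ l, if ownU P G I g x l then piK P G I g n d l else 0 := by
        refine Finset.sum_le_sum fun l _ => ?_
        split_ifs with h1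
        · exact mul_le_of_le_one_right (piK_nonneg hπ l) (kk_le_one x l)
        · have h2 : kk P G I g x l = 0 := by
            by_contra h3
            exact h1 (kk_own h3)
          rw [h2, mul_zero]

/-! ### Levels -/

theorem al_le_two (hπ : ∀ l, 0 ≤ I.pi l) (hπ1 : ∑ l, I.pi l ≤ 1) (he : 0 < P.e0)
    (he1 : P.e0 ≤ 1) (x : V) : al P G I x ≤ 2 := by
  have h1 : al P G I x ≤ P.e0 + ∑ l, inc G I.W x l * I.pi l :=
    GSLE.sc_le he fun l => mul_nonneg (inc_nonneg x l) (hπ l)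
  have h2 : ∑ l, inc G I.W x l * I.pi l ≤ ∑ l, I.pi l :=
    Finset.sum_le_sum fun l _ => mul_le_of_le_one_left (hπ l) (inc_le_one x l)
  linarith

theorem le_al (hπ : ∀ l, 0 ≤ I.pi l) (he : 0 < P.e0) (x : V) : P.e0 ≤ al P G I x :=
  GSLE.le_sc he fun l => mul_nonneg (inc_nonneg x l) (hπ l)

/-- The range of the heights. -/
theorem hs_le (hπ : ∀ l, 0 ≤ I.pi l) (hπ1 : ∑ l, I.pi l ≤ 1) (he : 0 < P.e0) (he1 : P.e0 ≤ 1)
    (x : V) : hs P G I x ≤ 1 := by
  unfold hs
  rw [Real.logb_le_iff_le_rpow one_lt_two (al_pos x), Real.rpow_one]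
  exact al_le_two hπ hπ1 he he1 x

theorem le_hs (hπ : ∀ l, 0 ≤ I.pi l) (he : 0 < P.e0) (hI : (1 / 2 : ℝ) ^ P.I0 ≤ P.e0) (x : V) :
    -(P.I0 : ℝ) ≤ hs P G I x := by
  unfold hs
  rw [Real.le_logb_iff_rpow_le one_lt_two (al_pos x), Real.rpow_neg zero_le_two,
    Real.rpow_natCast, ← one_div, ← one_div_pow]
  exact hI.trans (le_al hπ he x)

/-- Every vertex has a level. -/
theorem exists_level (hπ : ∀ l, 0 ≤ I.pi l) (hπ1 : ∑ l, I.pi l ≤ 1) (he : 0 < P.e0)
    (he1 : P.e0 ≤ 1) (hI : (1 / 2 : ℝ) ^ P.I0 ≤ P.e0) (x : V) :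
    ∃ i : Fin (P.I0 + 1), |hs P G I x + (i : ℕ)| ≤ 1 := by
  have h1 := hs_le (G := G) hπ hπ1 he he1 x
  have h2 := le_hs (G := G) hπ he hI x
  rcases le_total 0 (hs P G I x) with h | h
  · refine ⟨0, ?_⟩
    simp only [Fin.val_zero, Nat.cast_zero, add_zero]
    rw [abs_of_nonneg h]
    exact h1
  · have h3 : 0 ≤ -hs P G I x := by linarith
    have h4 : (⌊-hs P G I x⌋₊ : ℝ) ≤ -hs P G I x := Nat.floor_le h3
    have h5 : -hs P G I x < ⌊-hs P G I x⌋₊ + 1 := Nat.lt_floor_add_one _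
    have h6 : ⌊-hs P G I x⌋₊ ≤ P.I0 := by
      have : (⌊-hs P G I x⌋₊ : ℝ) ≤ P.I0 := by linarith
      exact_mod_cast this
    refine ⟨⟨⌊-hs P G I x⌋₊, by omega⟩, ?_⟩
    simp only
    rw [abs_le]
    constructor <;> linarith

/-- The levels close to the level `i`. -/
theorem card_close (i : Fin (P.I0 + 1)) (hg : 0 ≤ g) :
    ((univ.filter fun j : Fin (P.I0 + 1) =>
      |((j : ℕ) : ℝ) - (i : ℕ)| ≤ g + 2).card : ℝ) ≤ 2 * g + 5 := by
  set m : ℕ := ⌊g + 2⌋₊ with hm
  have hm1 : (m : ℝ) ≤ g + 2 := Nat.floor_le (by linarith)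
  have h1 : (univ.filter fun j : Fin (P.I0 + 1) =>
      |((j : ℕ) : ℝ) - (i : ℕ)| ≤ g + 2).card ≤
      (Finset.Icc ((i : ℕ) - m) ((i : ℕ) + m)).card := by
    refine Finset.card_le_card_of_injOn (fun j => (j : ℕ)) ?_ (fun a _ b _ h => Fin.ext h)
    intro j hj
    have h2 := abs_le.1 (Finset.mem_filter.1 hj).2
    rw [Finset.mem_coe, Finset.mem_Icc]
    have h3 : ((j : ℕ) : ℝ) ≤ ((i : ℕ) : ℝ) + (g + 2) := by linarith
    have h4 : ((i : ℕ) : ℝ) ≤ ((j : ℕ) : ℝ) + (g + 2) := by linarith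
    have h5 : ((j : ℕ) : ℝ) - ((i : ℕ) : ℝ) < m + 1 := by
      have := Nat.lt_floor_add_one (g + 2)
      rw [← hm] at this
      linarith
    have h6 : ((i : ℕ) : ℝ) - ((j : ℕ) : ℝ) < m + 1 := by
      have := Nat.lt_floor_add_one (g + 2)
      rw [← hm] at this
      linarith
    have h7 : (j : ℕ) < (i : ℕ) + m + 1 := by
      have : ((j : ℕ) : ℝ) < (((i : ℕ) + m + 1 : ℕ) : ℝ) := by
        push_cast
        linarith
      exact_mod_cast this
    have h8 : (i : ℕ) < (j : ℕ) + m + 1 := by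
      have : ((i : ℕ) : ℝ) < (((j : ℕ) + m + 1 : ℕ) : ℝ) := by
        push_cast
        linarith
      exact_mod_cast this
    show (i : ℕ) - m ≤ (j : ℕ) ∧ (j : ℕ) ≤ (i : ℕ) + m
    constructor <;> omega
  have h2 : (Finset.Icc ((i : ℕ) - m) ((i : ℕ) + m)).card ≤ 2 * m + 1 := by
    rw [Nat.card_Icc]
    omega
  have h3 : ((univ.filter fun j : Fin (P.I0 + 1) =>
      |((j : ℕ) : ℝ) - (i : ℕ)| ≤ g + 2).card : ℝ) ≤ 2 * m + 1 := by
    exact_mod_cast h1.trans h2
  linarith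

/-- The own mass of a label is bounded by the level-wise masses of its hub. -/
theorem DM_le (hn : ∀ x, 0 ≤ n x) (hπ : ∀ l, 0 ≤ I.pi l) (hπ1 : ∑ l, I.pi l ≤ 1)
    (he : 0 < P.e0) (he1 : P.e0 ≤ 1) (hI : (1 / 2 : ℝ) ^ P.I0 ≤ P.e0) (hg : 0 ≤ g) {X : ℝ}
    (l : Ml P V) (hX : ∀ i, Db P G I n i l.1 ≤ X) : DM P G I g n l ≤ (2 * g + 5) * X := by
  set T := univ.filter
    (fun j : Fin (P.I0 + 1) => |((j : ℕ) : ℝ) - (l.2 : ℕ)| ≤ g + 2) with hT
  have hterm0 : ∀ (j : Fin (P.I0 + 1)) (x : V),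
      0 ≤ n x / al P G I x * win 1 (hs P G I x + (j : ℕ)) * cl G x l.1 := fun j x =>
    mul_nonneg (mul_nonneg (div_nonneg (hn x) (al_pos x).le) (GSLE.win_nonneg _ _))
      (GSLE.cl_nonneg _ _ _)
  have h1 : DM P G I g n l ≤ ∑ j ∈ T, Db P G I n j l.1 := by
    unfold DM Db
    rw [Finset.sum_comm]
    refine Finset.sum_le_sum fun x _ => ?_
    by_cases h0 : kk P G I g x l = 0
    · rw [h0, zero_div, mul_zero]
      exact Finset.sum_nonneg fun j _ => hterm0 j x
    obtain ⟨hadj, -, hlt⟩ := kk_own h0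
    obtain ⟨j, hj⟩ := exists_level (G := G) hπ hπ1 he he1 hI x
    have hjT : j ∈ T := by
      rw [hT, Finset.mem_filter]
      refine ⟨Finset.mem_univ _, ?_⟩
      have h2 := abs_le.1 hj
      have h3 := abs_lt.1 hlt
      rw [abs_le]
      constructor <;> linarith
    refine le_trans ?_ (Finset.single_le_sum
      (f := fun j : Fin (P.I0 + 1) => n x / al P G I x * win 1 (hs P G I x + (j : ℕ)) *
        cl G x l.1) (fun j _ => hterm0 j x) hjT)
    have h2 : win 1 (hs P G I x + (j : ℕ)) = 1 := GSLE.win_eq_one hj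
    have h3 : cl G x l.1 = 1 := by
      unfold GSLE.cl
      rw [if_pos (Or.inr hadj)]
    rw [h2, h3, mul_one, mul_one]
    calc n x * (kk P G I g x l / al P G I x) ≤ n x * (1 / al P G I x) := by
          refine mul_le_mul_of_nonneg_left ?_ (hn x)
          exact div_le_div_of_nonneg_right (kk_le_one x l) (al_pos x).le
      _ = n x / al P G I x := by rw [mul_one_div]
  refine h1.trans ?_
  have hX0 : 0 ≤ X := (Finset.sum_nonneg fun x _ => hterm0 l.2 x).trans (hX l.2)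
  refine (Finset.sum_le_card_nsmul T _ X fun j _ => hX j).trans ?_
  rw [nsmul_eq_mul]
  exact mul_le_mul_of_nonneg_right (card_close l.2 hg) hX0

/-- A thin vertex is not the hub of a kept label (the field `ne`). -/
theorem ne_of_thin (hn : ∀ x, 0 ≤ n x) (hπ : ∀ l, 0 ≤ I.pi l) (hπ1 : ∑ l, I.pi l ≤ 1)
    (he : 0 < P.e0) (he1 : P.e0 ≤ 1) (hI : (1 / 2 : ℝ) ^ P.I0 ≤ P.e0) (hg : 0 ≤ g) {X : ℝ}
    {z : V} (hX : ∀ i, Db P G I n i z ≤ X) (hd : (2 * g + 5) * X < d) {l : Ml P V}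
    (hl : piK P G I g n d l ≠ 0) : l.1 ≠ z := by
  intro hz
  apply hl
  unfold piK
  rw [if_neg]
  rw [not_le]
  exact lt_of_le_of_lt (DM_le hn hπ hπ1 he he1 hI hg l (by rw [hz]; exact hX)) hd

/-- The cover vanishes at thin vertices only. -/
theorem Db_le_of_fs (hxi : 0 < P.xi) {z : V} (h : fs P G I z = 0) (i : Fin (P.I0 + 1)) :
    Db P G I I.n3 i z ≤ P.xi := by
  by_contra hcon
  rw [not_le] at hcon
  unfold fs at h
  have h1 : 0 < (Db P G I I.n3 i z - P.xi) / P.xi := div_pos (by linarith) hxi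
  have h2 : (Db P G I I.n3 i z - P.xi) / P.xi ≤
      ∑ j, max 0 ((Db P G I I.n3 j z - P.xi) / P.xi) :=
    (le_max_right _ _).trans (Finset.single_le_sum
      (f := fun j => max 0 ((Db P G I I.n3 j z - P.xi) / P.xi))
      (fun j _ => le_max_left _ _) (Finset.mem_univ i))
  have h3 : 0 < min 1 (∑ j, max 0 ((Db P G I I.n3 j z - P.xi) / P.xi)) :=
    lt_min one_pos (by linarith)
  linarith

end UDl_

end Pool.Agent.Lib.GSX
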