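import Pool.Agent.Lib.GSX.Rec
import Pool.Agent.Lib.FGK.LDefs

/-!
# The NO side of an item

For the item `T` of a stage let `AS T x ≤ ε₁ α x`.  Then the scale of the mates `z` of equal heights
(up to `v`) whose hub is low with respect to the mate is at most `ε₁ α x`; and if the shares of
the high hubs are small then most hubs are low.  These are the fields of `FGK.NoI`.
-/

set_option autoImplicit false

namespace Pool.Agent.Lib.GSX

open Finset Classical
open Pool.Agent.Lib.GSLE (kp kp_nonneg win win_nonneg win_le_one alp_pos AM AM_le_AC)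

namespace UNo_

lemma rp_nonneg (u : ℝ) : 0 ≤ rp u := le_max_left _ _

lemma rp_le_one (u : ℝ) : rp u ≤ 1 := max_le zero_le_one (min_le_left _ _)

lemma rp_eq_one {u : ℝ} (h : 1 ≤ u) : rp u = 1 := by
  unfold rp
  rw [min_eq_left h, max_eq_right zero_le_one]

lemma lt_of_rp {u : ℝ} (h : 1 - rp u ≠ 0) : u < 1 := by
  by_contra h1
  exact h (by rw [rp_eq_one (not_lt.1 h1), sub_self])

lemma one_sub_prod {ι : Type} (T : Finset ι) (f : ι → ℝ) (h0 : ∀ c, 0 ≤ f c) (h1 : ∀ c, f c ≤ 1) :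
    1 - ∏ c ∈ T, (1 - f c) ≤ ∑ c ∈ T, f c := by
  induction T using Finset.induction_on with
  | empty => simp
  | insert a T ha ih =>
    rw [Finset.prod_insert ha, Finset.sum_insert ha]
    have h2 : 0 ≤ ∏ c ∈ T, (1 - f c) := Finset.prod_nonneg fun c _ => by linarith [h1 c]
    have h3 : ∏ c ∈ T, (1 - f c) ≤ 1 := Finset.prod_le_one (fun c _ => by linarith [h1 c])
      fun c _ => by linarith [h0 c]
    nlinarith [h0 a, h1 a]

end UNo_

open UNo_

section

variable {V : Type} [Fintype V] (P : Cn) (G : SimpleGraph V) (S : Sta P V) (I : Inp P V)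

omit [Fintype V] in
theorem UNo_inc_nonneg (W : Finset V) (x : V) (l : Ml P V) : 0 ≤ inc G W x l := by
  unfold inc
  split_ifs
  · exact zero_le_one
  · exact le_rfl

theorem UNo_al_pos (x : V) : 0 < al P G I x := alp_pos _ _ _ _ _

theorem UNo_kk_nonneg (g : ℝ) (x : V) (l : Ml P V) : 0 ≤ kk P G I g x l :=
  mul_nonneg (mul_nonneg (UNo_inc_nonneg P G I.W x l) (kp_nonneg _)) (win_nonneg _ _)

/-- The hub of `l` is low with respect to `x` at the stages of `T`. -/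
noncomputable def loU (T : Finset (Fin P.N)) (l : Ml P V) (x : V) : ℝ :=
  ∏ c ∈ T, (1 - rp (ht P S c l.1 - ht P S c x - P.lG))

/-- The heights of `x` and `z` are equal up to `v` at the stages of `T`. -/
noncomputable def eU (v : ℝ) (T : Finset (Fin P.N)) (x z : V) : ℝ :=
  if ∀ c ∈ T, |ht P S c x - ht P S c z| ≤ v then 1 else 0

omit [Fintype V] in
theorem loU_nonneg (T : Finset (Fin P.N)) (l : Ml P V) (x : V) : 0 ≤ loU P S T l x :=
  Finset.prod_nonneg fun c _ => by linarith [rp_le_one (ht P S c l.1 - ht P S c x - P.lG)]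

omit [Fintype V] in
theorem loU_le_one (T : Finset (Fin P.N)) (l : Ml P V) (x : V) : loU P S T l x ≤ 1 :=
  Finset.prod_le_one (fun c _ => by linarith [rp_le_one (ht P S c l.1 - ht P S c x - P.lG)])
    fun c _ => by linarith [rp_nonneg (ht P S c l.1 - ht P S c x - P.lG)]

omit [Fintype V] in
theorem eU_nonneg (v : ℝ) (T : Finset (Fin P.N)) (x z : V) : 0 ≤ eU P S v T x z := by
  unfold eU
  split_ifs
  · exact zero_le_one
  · exact le_rfl

omit [Fintype V] in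
theorem eU_le_one (v : ℝ) (T : Finset (Fin P.N)) (x z : V) : eU P S v T x z ≤ 1 := by
  unfold eU
  split_ifs
  · exact le_rfl
  · exact zero_le_one

omit [Fintype V] in
theorem loU_ne {T : Finset (Fin P.N)} {l : Ml P V} {x : V} (h : loU P S T l x ≠ 0) :
    ∀ c ∈ T, ht P S c l.1 ≤ ht P S c x + (P.lG + 1) := by
  intro c hc
  have h1 := lt_of_rp ((Finset.prod_ne_zero_iff.1 h) c hc)
  linarith

omit [Fintype V] in
theorem eU_ne {v : ℝ} {T : Finset (Fin P.N)} {x z : V} (h : eU P S v T x z ≠ 0) :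
    ∀ c ∈ T, |ht P S c x - ht P S c z| ≤ v := by
  unfold eU at h
  by_contra h1
  exact h (if_neg h1)

omit [Fintype V] in
/-- Comparable scales have equal heights up to `log₂ w`. -/
theorem eU_eq_one {v w : ℝ} {T : Finset (Fin P.N)} {x z : V} (hw : 0 < w)
    (hv : Real.logb 2 w ≤ v) (h0 : ∀ c ∈ T, ∀ x, 0 < S.a c x)
    (h : ∀ c ∈ T, S.a c x ≤ w * S.a c z ∧ S.a c z ≤ w * S.a c x) : eU P S v T x z = 1 := by
  unfold eU
  refine if_pos fun c hc => ?_
  have hx := h0 c hc x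
  have hz := h0 c hc z
  have h1 : ht P S c x ≤ Real.logb 2 w + ht P S c z := by
    unfold ht
    rw [← Real.logb_mul hw.ne' hz.ne']
    exact Real.logb_le_logb_of_le (by norm_num) hx (h c hc).1
  have h2 : ht P S c z ≤ Real.logb 2 w + ht P S c x := by
    unfold ht
    rw [← Real.logb_mul hw.ne' hx.ne']
    exact Real.logb_le_logb_of_le (by norm_num) hz (h c hc).2
  rw [abs_le]
  constructor <;> linarith

omit [Fintype V] in
theorem one_sub_loU_le (T : Finset (Fin P.N)) (l : Ml P V) (x : V) :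
    1 - loU P S T l x ≤ ∑ c ∈ T, rich P S {c} x l.1 := by
  refine (one_sub_prod T (fun c => rp (ht P S c l.1 - ht P S c x - P.lG)) (fun c => rp_nonneg _)
    fun c => rp_le_one _).trans (le_of_eq ?_)
  refine Finset.sum_congr rfl fun c _ => ?_
  unfold rich
  rw [Finset.prod_singleton]

/-- Most hubs are low: if the shares of the hubs which are higher at one stage of `T` are at most
`ε` then the share of the hubs which are not low is at most `|T| ε`. -/
theorem low_rec (hpi : ∀ l, 0 ≤ I.pi l) {T : Finset (Fin P.N)} {x : V} {ε : ℝ}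
    (h : ∀ c ∈ T, ∑ l, wP P G S I {c} l x ≤ ε) :
    ∑ l, I.pi l * kk P G I P.g0 x l * (1 - loU P S T l x) ≤ T.card * ε * al P G I x := by
  have ha := UNo_al_pos P G I x
  have h1 : ∑ l, I.pi l * kk P G I P.g0 x l * (1 - loU P S T l x) ≤
      ∑ c ∈ T, (∑ l, wP P G S I {c} l x) * al P G I x := by
    rw [Finset.sum_congr rfl fun c _ => Finset.sum_mul _ _ _, Finset.sum_comm]
    refine Finset.sum_le_sum fun l _ => ?_
    refine (mul_le_mul_of_nonneg_left (one_sub_loU_le P S T l x)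
      (mul_nonneg (hpi l) (UNo_kk_nonneg P G I P.g0 x l))).trans (le_of_eq ?_)
    rw [Finset.mul_sum]
    refine Finset.sum_congr rfl fun c _ => ?_
    unfold wP CP
    field_simp
  refine h1.trans ?_
  have h2 : ∑ c ∈ T, (∑ l, wP P G S I {c} l x) * al P G I x ≤ ∑ c ∈ T, ε * al P G I x :=
    Finset.sum_le_sum fun c hc => mul_le_mul_of_nonneg_right (h c hc) ha.le
  refine h2.trans (le_of_eq ?_)
  rw [Finset.sum_const, nsmul_eq_mul]
  ring

/-- The scale of the mates is at most the scale of the item. -/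
theorem AM_le_AS {T : Finset (Fin P.N)} {v : ℝ} (hv : v + 1 ≤ P.w0) (hw : 0 ≤ P.w0 + 1)
    (hn : ∀ x, 0 ≤ I.n3 x) (hpi : ∀ l, 0 ≤ I.pi l)
    (h1 : ∀ c ∈ T, ∀ z, 1 - (P.I0 : ℝ) ≤ ht P S c z) (h2 : ∀ c ∈ T, ∀ z, ht P S c z ≤ 1) (x : V) :
    AM I.n3 (al P G I) I.pi (kk P G I P.g0) (loU P S T) (eU P S v T) x ≤ AS P G S I T x := by
  refine AM_le_AC (J := P.I0) (N := P.N) (h0 := 1) (h := ht P S) (w := P.w0)
    (g := P.lG + P.w0 + 3) (S := T) (y := Prod.fst) (v := v) (b := P.lG + 1) hn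
    (fun x => UNo_al_pos P G I x) hpi (fun x l => UNo_kk_nonneg P G I P.g0 x l) ?_ ?_ hv (by linarith)
    (fun l z => loU_le_one P S T l z) (fun x z => eU_nonneg P S v T x z)
    (fun x z => eU_le_one P S v T x z) (fun l z h => loU_ne P S h) (fun x z h => eU_ne P S h) x
  · intro c hc z
    have := h1 c hc z
    push_cast
    exact this
  · intro c hc z
    have := h2 c hc z
    push_cast
    exact this

/-- The NO side of the item `T`. -/
theorem no_rec {T : Finset (Fin P.N)} {v : ℝ} (hv : v + 1 ≤ P.w0) (hw : 0 ≤ P.w0 + 1)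
    (hn : ∀ x, 0 ≤ I.n3 x) (hpi : ∀ l, 0 ≤ I.pi l)
    (h1 : ∀ c ∈ T, ∀ z, 1 - (P.I0 : ℝ) ≤ ht P S c z) (h2 : ∀ c ∈ T, ∀ z, ht P S c z ≤ 1) {x : V}
    (h : AS P G S I T x ≤ P.eps1 * al P G I x) :
    AM I.n3 (al P G I) I.pi (kk P G I P.g0) (loU P S T) (eU P S v T) x ≤
      P.eps1 * al P G I x :=
  (AM_le_AS P G S I hv hw hn hpi h1 h2 x).trans h

omit [Fintype V] in
/-- The heights lie in `[1 - I0, 1]`. -/
theorem UNo_ht_ge {c : Fin P.N} {z : V} (h : (2 : ℝ) ^ (1 - (P.I0 : ℝ)) ≤ S.a c z) :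
    1 - (P.I0 : ℝ) ≤ ht P S c z := by
  unfold ht
  have h0 : (0 : ℝ) < 2 ^ (1 - (P.I0 : ℝ)) := Real.rpow_pos_of_pos (by norm_num) _
  rw [Real.le_logb_iff_rpow_le (by norm_num) (h0.trans_le h)]
  exact h

omit [Fintype V] in
theorem UNo_ht_le {c : Fin P.N} {z : V} (h0 : 0 < S.a c z) (h : S.a c z ≤ 2) : ht P S c z ≤ 1 := by
  unfold ht
  rw [Real.logb_le_iff_le_rpow (by norm_num) h0, Real.rpow_one]
  exact h

end

/-- The structure `NoI` of the item `S` of the stage `s`: the classes `p` of the stage have the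
states `Sf p` and the inputs `If p`. -/
theorem noI_rec {V Hi ι : Type} [Fintype V] [Fintype Hi] (P : Cn) (G : SimpleGraph V)
    (Pf : ℕ → Hi → ι) (Q : Hi → V → ℝ) (W : Finset (Hi × V)) (a : ℕ → ι → V → ℝ)
    (π : ℕ → ι → Ml P V → ℝ) (own : ℕ → ι → V → Ml P V → Prop) (A S : Finset ℕ) (s : ℕ)
    (T : Finset (Fin P.N)) (Sf : ι → Sta P V) (If : ι → Inp P V) {T0 w v ε3 ε : ℝ}
    (hST : ∀ c ∈ T, (c : ℕ) ∈ S)
    (hw : 0 < w) (hv : Real.logb 2 w ≤ v) (hv0 : v + 1 ≤ P.w0) (hw0 : 0 ≤ P.w0 + 1)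
    (ha : ∀ p x, a s p x = al P G (If p) x) (hpi : ∀ p l, π s p l = (If p).pi l)
    (hac : ∀ h, ∀ c ∈ T, ∀ x, (Sf (Pf s h)).a c x = a c (Pf c h) x)
    (hpi0 : ∀ p l, 0 ≤ (If p).pi l)
    (ha0 : ∀ p, ∀ c ∈ T, ∀ x, 0 < (Sf p).a c x)
    (ha2 : ∀ z ∈ W, ∀ c ∈ T, ∀ x, (Sf (Pf s z.1)).a c x ≤ 2)
    (ha1 : ∀ z ∈ W, ∀ c ∈ T, ∀ x, (2 : ℝ) ^ (1 - (P.I0 : ℝ)) ≤ (Sf (Pf s z.1)).a c x)
    (hn0 : ∀ z ∈ W, ∀ x, 0 ≤ (If (Pf s z.1)).n3 x)
    (hn : ∀ z ∈ W, ∀ x, (If (Pf s z.1)).n3 x =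
      FGK.nQ (Pf s) Q (Pf s z.1) x / FGK.MQ (Pf s) Q (Pf s z.1))
    (hown : ∀ p x l, own s p x l → 1 ≤ T0 * kk P G (If p) P.g0 x l)
    (hε : ∀ z ∈ W, ∀ c ∈ T, ∑ l, wP P G (Sf (Pf s z.1)) (If (Pf s z.1)) {c} l z.2 ≤ ε)
    (hε3 : T.card * ε ≤ ε3)
    (hno : ∀ z ∈ W, AS P G (Sf (Pf s z.1)) (If (Pf s z.1)) T z.2 ≤
      P.eps1 * al P G (If (Pf s z.1)) z.2) :
    FGK.NoI Pf Q W a π own A S s (fun p => kk P G (If p) P.g0) (fun p => loU P (Sf p) T)
      (fun p => eU P (Sf p) v T) T0 w ε3 P.eps1 where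
  k0 p x l := UNo_kk_nonneg P G (If p) P.g0 x l
  kown := hown
  lo0 p l x := loU_nonneg P (Sf p) T l x
  lo1 p l x := loU_le_one P (Sf p) T l x
  e0 p x z := eU_nonneg P (Sf p) v T x z
  e1 p x z := eU_le_one P (Sf p) v T x z
  ew h h' x z hh hcc := by
    refine eU_eq_one P (Sf (Pf s h)) hw hv (ha0 _) fun c hc => ?_
    rw [hac h c hc x, hac h c hc z]
    exact hcc c (hST c hc)
  low z hz := by
    simp only [hpi, ha]
    refine (low_rec P G _ _ (hpi0 _) (hε z hz)).trans ?_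
    exact mul_le_mul_of_nonneg_right hε3 (UNo_al_pos P G _ _).le
  no z hz := by
    have h1 := no_rec P G (Sf (Pf s z.1)) (If (Pf s z.1)) (T := T) hv0 hw0 (hn0 z hz) (hpi0 _)
      (fun c hc y => UNo_ht_ge P _ (ha1 z hz c hc y))
      (fun c hc y => UNo_ht_le P _ (ha0 _ c hc y) (ha2 z hz c hc y)) (hno z hz)
    have h2 : (fun x => FGK.nQ (Pf s) Q (Pf s z.1) x / FGK.MQ (Pf s) Q (Pf s z.1)) =
        (If (Pf s z.1)).n3 := funext fun x => (hn z hz x).symm
    have h3 : a s (Pf s z.1) = al P G (If (Pf s z.1)) := funext fun x => ha _ x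
    have h4 : π s (Pf s z.1) = (If (Pf s z.1)).pi := funext fun l => hpi _ l
    rw [h2, h3, h4]
    exact h1

end Pool.Agent.Lib.GSX
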