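import Pool.Agent.Lib.GSX.Rec
import Pool.Agent.Lib.FGK.LDefs
import Pool.Agent.Lib.GSR.HZB

/-!
# Thin vertices in the form of the pools of unlinked stages

A level-wise bound for the mass of the closed neighbourhood of `z` (the cover of the stage is zero
at `z`) gives the bound of `FGK.US.thn`.  On the histories of the game the nodes and the hubs of
the later stages are thin, if the hub laws are restricted to the half prefixes of the typical
histories.
-/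

set_option autoImplicit false

namespace Pool.Agent.Lib.GSX.UThn_

open Finset Classical
open Pool.Agent.Lib
open Pool.Agent.Lib.GSLE (kp cl win)
open Pool.Agent.Lib.GSR.HZ (qc)
open Pool.Agent.Lib.GSR.HZB (Hi hp wo mh nn th Eqm Typ nh)

/-! ### Levels -/

lemma lv_pos (i : ℕ) : 0 < lv i := by
  unfold lv
  positivity

/-- The level of a scale. -/
lemma exists_lvl {a : ℝ} {I0 : ℕ} (h0 : lv I0 ≤ a) (h2 : a < 2) :
    ∃ i : Fin (I0 + 1), lv i ≤ a ∧ a < 2 * lv i ∧ |Real.logb 2 a + (i : ℕ)| ≤ 1 := by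
  have ha : 0 < a := (lv_pos I0).trans_le h0
  obtain ⟨k, hk1, hk2⟩ := GSLE.exists_level ha h2
  have hk : k ≤ I0 := by
    by_contra hcon
    push Not at hcon
    have h3 : (1 / 2 : ℝ) ^ k ≤ (1 / 2) ^ (I0 + 1) :=
      pow_le_pow_of_le_one (by norm_num) (by norm_num) hcon
    have h4 : (1 / 2 : ℝ) ^ (I0 + 1) = lv I0 / 2 := by
      unfold lv
      rw [pow_succ]
      ring
    linarith
  have h5 : Real.logb 2 ((1 / 2 : ℝ) ^ k) = -k := by
    rw [one_div, inv_pow, Real.logb_inv, Real.logb_pow, Real.logb_self_eq_one (by norm_num),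
      mul_one]
  refine ⟨⟨k, by omega⟩, hk1, hk2, ?_⟩
  have h6 : -(k : ℝ) ≤ Real.logb 2 a := by
    rw [← h5]
    exact Real.logb_le_logb_of_le (by norm_num) (by positivity) hk1
  have h7 : Real.logb 2 a ≤ 1 + -(k : ℝ) := by
    rw [← h5]
    have h8 : Real.logb 2 (2 * (1 / 2 : ℝ) ^ k) = 1 + Real.logb 2 ((1 / 2 : ℝ) ^ k) := by
      rw [Real.logb_mul (by norm_num) (by positivity), Real.logb_self_eq_one (by norm_num)]
    rw [← h8]
    exact Real.logb_le_logb_of_le (by norm_num) ha hk2.le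
  rw [abs_le]
  constructor <;> linarith

/-- The levels below `t`. -/
noncomputable def lvs (I0 : ℕ) (t : ℝ) : Finset (Fin (I0 + 1)) :=
  Finset.univ.filter fun i => lv (i : ℕ) ≤ t

lemma mem_lvs {I0 : ℕ} {t : ℝ} {i : Fin (I0 + 1)} : i ∈ lvs I0 t ↔ lv (i : ℕ) ≤ t := by
  unfold lvs
  rw [Finset.mem_filter]
  exact ⟨fun h => h.2, fun h => ⟨Finset.mem_univ _, h⟩⟩

lemma sum_lv_le (I0 : ℕ) {t : ℝ} (ht : 0 ≤ t) :
    ∑ i ∈ lvs I0 t, lv (i : ℕ) ≤ 2 * t := by
  by_cases hex : ∃ i : ℕ, lv i ≤ t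
  · obtain ⟨i0, hi0, hmin⟩ : ∃ i0, lv i0 ≤ t ∧ ∀ i, lv i ≤ t → i0 ≤ i :=
      ⟨Nat.find hex, Nat.find_spec hex, fun i hi => Nat.find_min' hex hi⟩
    have h1 : ∑ i ∈ lvs I0 t, lv (i : ℕ) ≤ ∑ i ∈ Finset.Ico i0 (I0 + 1), lv i := by
      rw [← Finset.sum_image (s := lvs I0 t)
        (g := fun i : Fin (I0 + 1) => (i : ℕ)) (f := fun i => lv i)
        (fun a _ b _ h => Fin.ext h)]
      refine Finset.sum_le_sum_of_subset_of_nonneg ?_ fun i _ _ => (lv_pos i).le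
      intro i hi
      obtain ⟨j, hj, rfl⟩ := Finset.mem_image.1 hi
      rw [Finset.mem_Ico]
      exact ⟨hmin _ (mem_lvs.1 hj), j.2⟩
    have h2 : ∑ i ∈ Finset.Ico i0 (I0 + 1), lv i ≤ (1 / 2) ^ i0 / (1 - 1 / 2) :=
      geom_sum_Ico_le_of_lt_one (by norm_num) (by norm_num)
    have h3 : ((1 : ℝ) / 2) ^ i0 / (1 - 1 / 2) = 2 * lv i0 := by
      unfold lv
      ring
    linarith
  · push Not at hex
    rw [Finset.sum_eq_zero]
    · positivity
    · intro i hi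
      exact absurd (mem_lvs.1 hi) (not_le.2 (hex i))

section static

variable {V : Type} [Fintype V] {n a : V → ℝ} {I0 : ℕ}

/-- Level-wise bounds give bounds for all the vertices of small scale. -/
theorem low_of_levels (hn : ∀ x, 0 ≤ n x) (ha : ∀ x, 0 < a x)
    (hr : ∀ x, n x ≠ 0 → lv I0 ≤ a x ∧ a x < 2) {c : V → ℝ} (hc : ∀ x, 0 ≤ c x) {ξ : ℝ}
    (h : ∀ i : Fin (I0 + 1), ∑ x, n x / a x * win 1 (Real.logb 2 (a x) + (i : ℕ)) * c x ≤ ξ)
    {t : ℝ} (ht : 0 ≤ t) : ∑ x with a x ≤ t, n x * c x ≤ 4 * ξ * t := by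
  have h0 : ∀ (i : Fin (I0 + 1)) x,
      0 ≤ n x / a x * win 1 (Real.logb 2 (a x) + (i : ℕ)) * c x := fun i x =>
    mul_nonneg (mul_nonneg (div_nonneg (hn x) (ha x).le) (GSLE.win_nonneg _ _)) (hc x)
  have hξ : 0 ≤ ξ := (Finset.sum_nonneg fun x _ => h0 0 x).trans (h 0)
  calc ∑ x with a x ≤ t, n x * c x
      ≤ ∑ x with a x ≤ t, ∑ i ∈ lvs I0 t,
          n x / a x * win 1 (Real.logb 2 (a x) + (i : ℕ)) * c x * (2 * lv i) := by
        refine Finset.sum_le_sum fun x hx => ?_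
        have hxt := (Finset.mem_filter.1 hx).2
        by_cases hnx : n x = 0
        · rw [hnx, zero_mul]
          refine Finset.sum_nonneg fun i _ => ?_
          rw [zero_div, zero_mul, zero_mul, zero_mul]
        · obtain ⟨i, hi1, hi2, hi3⟩ := exists_lvl (hr x hnx).1 (hr x hnx).2
          refine le_trans ?_ (Finset.single_le_sum
            (f := fun i : Fin (I0 + 1) =>
              n x / a x * win 1 (Real.logb 2 (a x) + (i : ℕ)) * c x * (2 * lv i))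
            (fun i _ => mul_nonneg (h0 i x) (by have := lv_pos (i : ℕ); positivity))
            (mem_lvs.2 (hi1.trans hxt)))
          rw [GSLE.win_eq_one hi3, mul_one]
          have h1 : n x * c x = n x / a x * c x * a x := by
            have := (ha x).ne'
            field_simp
          rw [h1]
          exact mul_le_mul_of_nonneg_left hi2.le
            (mul_nonneg (div_nonneg (hn x) (ha x).le) (hc x))
    _ ≤ ∑ x, ∑ i ∈ lvs I0 t,
          n x / a x * win 1 (Real.logb 2 (a x) + (i : ℕ)) * c x * (2 * lv i) :=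
        Finset.sum_le_sum_of_subset_of_nonneg (Finset.subset_univ _) fun x _ _ =>
          Finset.sum_nonneg fun i _ => mul_nonneg (h0 i x)
            (by have := lv_pos (i : ℕ); positivity)
    _ = ∑ i ∈ lvs I0 t,
          (∑ x, n x / a x * win 1 (Real.logb 2 (a x) + (i : ℕ)) * c x) * (2 * lv i) := by
        rw [Finset.sum_comm]
        exact Finset.sum_congr rfl fun i _ => by rw [Finset.sum_mul]
    _ ≤ ∑ i ∈ lvs I0 t, ξ * (2 * lv i) := by
        refine Finset.sum_le_sum fun i _ => mul_le_mul_of_nonneg_right (h i) ?_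
        have := lv_pos (i : ℕ)
        positivity
    _ = 2 * ξ * ∑ i ∈ lvs I0 t, lv i := by
        rw [Finset.mul_sum]
        exact Finset.sum_congr rfl fun i _ => by ring
    _ ≤ 2 * ξ * (2 * t) := mul_le_mul_of_nonneg_left (sum_lv_le I0 ht) (by positivity)
    _ = 4 * ξ * t := by ring

/-- The same for the closed neighbourhood of `z`. -/
theorem low_of_cl (G : SimpleGraph V) (hn : ∀ x, 0 ≤ n x) (ha : ∀ x, 0 < a x)
    (hr : ∀ x, n x ≠ 0 → lv I0 ≤ a x ∧ a x < 2) {z : V} {ξ : ℝ}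
    (h : ∀ i : Fin (I0 + 1),
      ∑ x, n x / a x * win 1 (Real.logb 2 (a x) + (i : ℕ)) * cl G x z ≤ ξ)
    {t : ℝ} (ht : 0 ≤ t) :
    ∑ x with (x = z ∨ G.Adj x z) ∧ a x ≤ t, n x ≤ 4 * ξ * t := by
  refine le_trans (le_of_eq ?_) (low_of_levels hn ha hr (fun x => GSLE.cl_nonneg G x z) h ht)
  rw [Finset.sum_filter, Finset.sum_filter]
  refine Finset.sum_congr rfl fun x _ => ?_
  unfold GSLE.cl
  by_cases h1 : x = z ∨ G.Adj x z
  · rw [if_pos h1, mul_one]
    by_cases h2 : a x ≤ t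
    · rw [if_pos ⟨h1, h2⟩, if_pos h2]
    · rw [if_neg (fun h => h2 h.2), if_neg h2]
  · rw [if_neg h1, mul_zero, ite_self, if_neg (fun h => h1 h.1)]

/-- The closed levels are bounded by the open ones and the atom. -/
theorem cl_le_open (G : SimpleGraph V) (hn : ∀ x, 0 ≤ n x) (ha : ∀ x, 0 < a x) (z : V)
    (i : ℕ) {ξ ξ2 : ℝ}
    (h : ∑ x with G.Adj z x, n x / a x * win 1 (Real.logb 2 (a x) + i) ≤ ξ)
    (h2 : n z ≤ ξ2 * a z) :
    ∑ x, n x / a x * win 1 (Real.logb 2 (a x) + i) * cl G x z ≤ ξ + ξ2 := by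
  have h0 : ∀ x, 0 ≤ n x / a x * win 1 (Real.logb 2 (a x) + i) := fun x =>
    mul_nonneg (div_nonneg (hn x) (ha x).le) (GSLE.win_nonneg _ _)
  have h3 : n z / a z * win 1 (Real.logb 2 (a z) + i) ≤ ξ2 := by
    have h4 : n z / a z ≤ ξ2 := by
      rw [div_le_iff₀ (ha z)]
      exact h2
    exact (mul_le_of_le_one_right (div_nonneg (hn z) (ha z).le) (GSLE.win_le_one _ _)).trans h4
  calc ∑ x, n x / a x * win 1 (Real.logb 2 (a x) + i) * cl G x z
      ≤ ∑ x, ((if G.Adj z x then n x / a x * win 1 (Real.logb 2 (a x) + i) else 0) +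
          if x = z then n x / a x * win 1 (Real.logb 2 (a x) + i) else 0) := by
        refine Finset.sum_le_sum fun x _ => ?_
        unfold GSLE.cl
        have h5 := h0 x
        by_cases h6 : x = z
        · rw [if_pos (Or.inl h6), mul_one, if_pos h6]
          split_ifs <;> linarith
        · by_cases h7 : G.Adj x z
          · rw [if_pos (Or.inr h7), mul_one, if_pos h7.symm, if_neg h6, add_zero]
          · rw [if_neg (not_or.2 ⟨h6, h7⟩), mul_zero, if_neg (fun h => h7 h.symm), if_neg h6,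
              add_zero]
    _ = ∑ x with G.Adj z x, n x / a x * win 1 (Real.logb 2 (a x) + i) +
          n z / a z * win 1 (Real.logb 2 (a z) + i) := by
        rw [Finset.sum_add_distrib, ← Finset.sum_filter]
        congr 1
        rw [Finset.sum_ite_eq' Finset.univ z, if_pos (Finset.mem_univ z)]
    _ ≤ ξ + ξ2 := add_le_add h h3

end static

/-! ### The records -/

section rec

variable {V : Type} [Fintype V] {P : Cn} {G : SimpleGraph V} {I : Inp P V}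

omit [Fintype V] in
lemma inc_nonneg' (W : Finset V) (x : V) (l : Ml P V) : 0 ≤ inc G W x l := by
  unfold inc
  split_ifs <;> norm_num

omit [Fintype V] in
lemma inc_le_one' (W : Finset V) (x : V) (l : Ml P V) : inc G W x l ≤ 1 := by
  unfold inc
  split_ifs <;> norm_num

/-- The range of the scale. -/
theorem al_range (he : 0 < P.e0) (he1 : P.e0 < 1) (hI0 : lv P.I0 ≤ P.e0)
    (hpi : ∀ l, 0 ≤ I.pi l) (hpi1 : ∑ l, I.pi l ≤ 1) (x : V) :
    0 < al P G I x ∧ lv P.I0 ≤ al P G I x ∧ al P G I x < 2 := by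
  have h1 := GSLE.alp_eq (e := fun _ : V => P.e0) (c := inc G I.W) (π := I.pi)
    (b := fun l : Ml P V => lv l.2) (fun _ => he) (fun x l => inc_nonneg' I.W x l) hpi x
  have h2 : 0 ≤ ∑ l, inc G I.W x l * I.pi l *
      kp (GSLE.alp (fun _ : V => P.e0) (inc G I.W) I.pi (fun l : Ml P V => lv l.2) x / lv l.2) :=
    Finset.sum_nonneg fun l _ => mul_nonneg (mul_nonneg (inc_nonneg' _ _ _) (hpi l))
      (GSLE.kp_nonneg _)
  have h3 : ∑ l, inc G I.W x l * I.pi l *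
      kp (GSLE.alp (fun _ : V => P.e0) (inc G I.W) I.pi (fun l : Ml P V => lv l.2) x / lv l.2) ≤
      ∑ l, I.pi l := by
    refine Finset.sum_le_sum fun l _ => ?_
    have h4 : inc G I.W x l * I.pi l ≤ I.pi l := mul_le_of_le_one_left (hpi l) (inc_le_one' _ _ _)
    exact (mul_le_of_le_one_right (mul_nonneg (inc_nonneg' _ _ _) (hpi l))
      (GSLE.kp_le_one _)).trans h4
  refine ⟨GSLE.alp_pos _ _ _ _ _, ?_, ?_⟩
  · unfold al
    linarith
  · unfold al
    linarith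

/-- The thin vertices of a stage. -/
def Zr (P : Cn) (G : SimpleGraph V) (I : Inp P V) (z : V) : Prop :=
  ∀ i, Db P G I I.n3 i z ≤ P.xi

/-- The cover is zero exactly at the thin vertices. -/
theorem fs_eq_zero_iff (hxi : 0 < P.xi) (z : V) : fs P G I z = 0 ↔ Zr P G I z := by
  have h0 : ∀ i, 0 ≤ max 0 ((Db P G I I.n3 i z - P.xi) / P.xi) := fun i => le_max_left _ _
  unfold fs Zr
  constructor
  · intro h i
    have h1 : ∑ i, max 0 ((Db P G I I.n3 i z - P.xi) / P.xi) = 0 := by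
      rcases min_choice 1 (∑ i, max 0 ((Db P G I I.n3 i z - P.xi) / P.xi)) with h2 | h2
      · rw [h2] at h
        norm_num at h
      · rwa [h2] at h
    have h3 := (Finset.sum_eq_zero_iff_of_nonneg fun i _ => h0 i).1 h1 i (Finset.mem_univ i)
    have h4 : (Db P G I I.n3 i z - P.xi) / P.xi ≤ 0 := by
      rw [← h3]
      exact le_max_right _ _
    rw [div_le_iff₀ hxi, zero_mul] at h4
    linarith
  · intro h
    have h1 : ∑ i, max 0 ((Db P G I I.n3 i z - P.xi) / P.xi) = 0 := by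
      refine Finset.sum_eq_zero fun i _ => max_eq_left ?_
      rw [div_le_iff₀ hxi, zero_mul]
      linarith [h i]
    rw [h1]
    exact min_eq_right zero_le_one

/-- Thin vertices have few neighbours of small scale. -/
theorem Zr.low (he : 0 < P.e0) (he1 : P.e0 < 1) (hI0 : lv P.I0 ≤ P.e0)
    (hpi : ∀ l, 0 ≤ I.pi l) (hpi1 : ∑ l, I.pi l ≤ 1) (hn : ∀ x, 0 ≤ I.n3 x) {z : V}
    (h : Zr P G I z) {t : ℝ} (ht : 0 ≤ t) :
    ∑ x with (x = z ∨ G.Adj x z) ∧ al P G I x ≤ t, I.n3 x ≤ 4 * P.xi * t :=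
  low_of_cl G hn (fun x => (al_range he he1 hI0 hpi hpi1 x).1)
    (fun x _ => (al_range he he1 hI0 hpi hpi1 x).2) h ht

/-- Thin vertices in the form of `FGK.US.thn`. -/
theorem Zr.thn {H ι : Type} [Fintype H] {p0 : H → ι} {Q : H → V → ℝ} {p : ι}
    (hM : 0 ≤ FGK.MQ p0 Q p) (hQ : ∀ v, FGK.nQ p0 Q p v = FGK.MQ p0 Q p * I.n3 v)
    (he : 0 < P.e0) (he1 : P.e0 < 1) (hI0 : lv P.I0 ≤ P.e0)
    (hpi : ∀ l, 0 ≤ I.pi l) (hpi1 : ∑ l, I.pi l ≤ 1) (hn : ∀ x, 0 ≤ I.n3 x) {z : V}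
    (h : Zr P G I z) {t : ℝ} (ht : 0 < t) :
    ∑ v ∈ Finset.univ.filter (fun v => (v = z ∨ G.Adj v z) ∧ al P G I v ≤ t),
      FGK.nQ p0 Q p v ≤ 4 * P.xi * t * FGK.MQ p0 Q p := by
  have h1 := h.low he he1 hI0 hpi hpi1 hn ht.le
  calc ∑ v ∈ Finset.univ.filter (fun v => (v = z ∨ G.Adj v z) ∧ al P G I v ≤ t),
        FGK.nQ p0 Q p v = FGK.MQ p0 Q p *
        ∑ v with (v = z ∨ G.Adj v z) ∧ al P G I v ≤ t, I.n3 v := by
        rw [Finset.mul_sum]
        exact Finset.sum_congr rfl fun v _ => hQ v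
    _ ≤ FGK.MQ p0 Q p * (4 * P.xi * t) := mul_le_mul_of_nonneg_left h1 hM
    _ = _ := by ring

/-- Thin vertices from open levels and atoms. -/
theorem Zr.of_open (he : 0 < P.e0) (he1 : P.e0 < 1) (hI0 : lv P.I0 ≤ P.e0)
    (hpi : ∀ l, 0 ≤ I.pi l) (hpi1 : ∑ l, I.pi l ≤ 1) (hn : ∀ x, 0 ≤ I.n3 x) {z : V} {ξ ξ2 : ℝ}
    (h : ∀ i : Fin (P.I0 + 1), ∑ x with G.Adj z x, I.n3 x / al P G I x *
      win 1 (hs P G I x + (i : ℕ)) ≤ ξ) (h2 : I.n3 z ≤ ξ2 * al P G I z) (hξ : ξ + ξ2 ≤ P.xi) :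
    Zr P G I z := fun i =>
  (cl_le_open G hn (fun x => (al_range he he1 hI0 hpi hpi1 x).1) z i (h i) h2).trans hξ

end rec

/-! ### The histories -/

section hist

variable {V : Type} [Fintype V] {N nb : ℕ} {ι : Type} {Y : ι → Type} {J : Type}
  {col : Finset V → ℕ → Prop} {T : GSR.HZB.Ts V N nb J (GSR.HZB.Th V N nb Y)}
  {Q : Hi V N nb × V → ℝ} {θ : GSR.HZB.Th V N nb Y}

/-- The law of the node in the form of `FGK`. -/
abbrev Qh (Q : Hi V N nb × V → ℝ) : Hi V N nb → V → ℝ := fun c x => Q (c, x)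

lemma mH_Qh (Q : Hi V N nb × V → ℝ) (c : Hi V N nb) : FGK.mH (Qh Q) c = qc Q c := rfl

lemma nQ_Qh (Q : Hi V N nb × V → ℝ) (s j : ℕ) (p : Hi V N nb) (x : V) :
    FGK.nQ (hp s j) (Qh Q) p x = nn Q s j p x := by
  unfold FGK.nQ nn GSR.HZB.th
  rw [Finset.sum_filter]
  refine Finset.sum_congr rfl fun c _ => ?_
  by_cases h : hp s j c = p
  · rw [if_pos h, if_pos h]
  · rw [if_neg h, if_neg h]

lemma MQ_Qh (Q : Hi V N nb × V → ℝ) (s j : ℕ) (p : Hi V N nb) :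
    FGK.MQ (hp s j) (Qh Q) p = mh Q s j p := by
  unfold FGK.MQ mh GSR.HZB.th
  rw [Finset.sum_filter]
  refine Finset.sum_congr rfl fun c _ => ?_
  by_cases h : hp s j c = p
  · rw [if_pos h, if_pos h]
    rfl
  · rw [if_neg h, if_neg h]

lemma nQ_eq (h : Eqm col T Q θ) {s j : ℕ} (hs : s ≤ N) (hj : j ≤ nb) (p : Hi V N nb) (x : V) :
    FGK.nQ (hp s j) (Qh Q) p x = FGK.MQ (hp s j) (Qh Q) p * nh θ s j p x := by
  rw [nQ_Qh, MQ_Qh, h.nq s hs j hj]

/-- The half prefix belongs to a typical history of positive mass. -/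
def Tp (Q : Hi V N nb × V → ℝ) (c0 : ℝ) (s j : ℕ) (p : Hi V N nb) : Prop :=
  ∃ c, qc Q c ≠ 0 ∧ Typ Q c0 c ∧ hp s j c = p

lemma Tp.of {c0 : ℝ} {c : Hi V N nb} (hc : qc Q c ≠ 0) (hT : Typ Q c0 c) (s j : ℕ) :
    Tp Q c0 s j (hp s j c) := ⟨c, hc, hT, rfl⟩

omit [Fintype V] in
/-- The field `ref` of `FGK.US`. -/
lemma ref_hp {c s j : ℕ} (h : c < s) (x y : Hi V N nb) (hxy : hp s j x = hp s j y) :
    hp c j x = hp c j y := GSR.HZB.hp_mono (Or.inl h) hxy

/-- The field `zW` of `FGK.US`: the nodes are thin. -/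
theorem zW_of (h : Eqm col T Q θ) {c0 : ℝ} {j : ℕ} {Zt : ℕ → Hi V N nb → V → Prop}
    (hthin : ∀ c, qc Q c ≠ 0 → Typ Q c0 c → ∀ s < N, ∀ z ∈ wo c (s + 1), Zt s (hp s j c) z)
    {c : Hi V N nb} {x : V} (hx : Q (c, x) ≠ 0) (hT : Typ Q c0 c) {s : ℕ} (hs : s < N) :
    Zt s (hp s j c) x :=
  hthin c (h.qc_ne hx) hT s hs x (h.mem_wo hx hs)

/-- The field `zO` of `FGK.US`: the hubs of the later stages are thin. -/
theorem zO_of (h : Eqm col T Q θ) {c0 : ℝ} {j : ℕ} {Zt : ℕ → Hi V N nb → V → Prop}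
    (hthin : ∀ c, qc Q c ≠ 0 → Typ Q c0 c → ∀ s < N, ∀ z ∈ wo c (s + 1), Zt s (hp s j c) z)
    {s t : ℕ} (hst : s < t) (ht : t < N) {c : Hi V N nb} (hc : Tp Q c0 t j (hp t j c)) {y : V}
    (hy : y ∈ wo c t) : Zt s (hp s j c) y := by
  obtain ⟨c', h1, h2, h3⟩ := hc
  have h4 : wo c' t = wo c t := by
    rw [← GSR.HZB.wo_hp j le_rfl c', h3, GSR.HZB.wo_hp j le_rfl]
  rw [← ref_hp hst c' c h3]
  exact hthin c' h1 h2 s (hst.trans ht) y (h.wo_anti h1 (by omega : s + 1 ≤ t) ht.le (h4 ▸ hy))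

end hist

end Pool.Agent.Lib.GSX.UThn_

namespace Pool.Agent.Lib.GSX

open Finset Classical

/-- **The field `thn` of `FGK.US`**, for every law `n`. -/
theorem thn_of_Db {V : Type} [Fintype V] {P : Cn} {G : SimpleGraph V} {I : Inp P V} {n : V → ℝ}
    (he : 0 < P.e0) (he1 : P.e0 < 1) (hI0 : lv P.I0 ≤ P.e0) (hpi : ∀ l, 0 ≤ I.pi l)
    (hpi1 : ∑ l, I.pi l ≤ 1) (hn : ∀ x, 0 ≤ n x) {z : V} {ξ : ℝ}
    (h : ∀ i, Db P G I n i z ≤ ξ) {t : ℝ} (ht : 0 < t) :
    ∑ v ∈ Finset.univ.filter (fun v => (v = z ∨ G.Adj v z) ∧ al P G I v ≤ t), n v ≤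
      8 * ξ * t := by
  have h0 : 0 ≤ ξ := (Finset.sum_nonneg fun x _ => mul_nonneg (mul_nonneg
    (div_nonneg (hn x) (UThn_.al_range he he1 hI0 hpi hpi1 x).1.le) (GSLE.win_nonneg _ _))
    (GSLE.cl_nonneg _ _ _)).trans (h 0)
  refine (UThn_.low_of_cl G hn (fun x => (UThn_.al_range he he1 hI0 hpi hpi1 x).1)
    (fun x _ => (UThn_.al_range he he1 hI0 hpi hpi1 x).2) h ht.le).trans ?_
  have h1 : 0 ≤ ξ * t := mul_nonneg h0 ht.le
  linarith

end Pool.Agent.Lib.GSX
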