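import Pool.Agent.Lib.GSX.UDl
import Pool.Agent.Lib.GSX.UNo
import Pool.Agent.Lib.GSX.UThn
import Pool.Agent.Lib.FGK.Sup

/-!
# The U-case for the records of the game

`UFacts` collects what the U-case uses of an equilibrium: `pf s h` is the half prefix of the
history `h` at the stage `s`, `St s p` and `In s p` are the state and the input of the stage at the
half prefix `p`, `Q` is the law of the pairs (history, node), `X` the set of the pairs, `T` the set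
of the typical histories, `Wn s h` the world after the stage `s` and `A` the pool.
-/

set_option autoImplicit false

namespace Pool.Agent.Lib.GSX

open Finset Classical
open Pool.Agent.Lib.GSR3 (Tree)
open Pool.Agent.Lib.FGF (Frac)
open Pool.Agent.Lib.GSLE (kp win alp)

/-- What the U-case uses. -/
structure UFacts {V Hi ι : Type} [Fintype V] [Fintype Hi] (P : Cn) (G : SimpleGraph V)
    (pf : Fin P.N → Hi → ι) (Q : Hi → V → ℝ) (X : Finset (Hi × V))
    (St : Fin P.N → ι → Sta P V) (In : Fin P.N → ι → Inp P V) (T : Hi → Prop)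
    (Wn : Fin P.N → Hi → Finset V) (A : Finset (Fin P.N)) (r : ℕ) (d ε : ℝ) : Prop where
  /-- the half prefixes -/
  ref : ∀ c ∈ A, ∀ s ∈ A, c < s → ∀ h h', pf s h = pf s h' → pf c h = pf c h'
  /-- the law of the pairs -/
  Q0 : ∀ h v, 0 ≤ Q h v
  Q1 : ∑ h, ∑ v, Q h v ≤ 1
  /-- the pairs are typical -/
  XQ : ∀ z ∈ X, 0 < Q z.1 z.2
  XT : ∀ z ∈ X, T z.1
  XW : ∀ z ∈ X, ∀ s ∈ A, z.2 ∈ Wn s z.1
  /-- the inputs -/
  pi0 : ∀ s p l, 0 ≤ (In s p).pi l
  pi1 : ∀ s p, ∑ l, (In s p).pi l ≤ 1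
  piW : ∀ s p l, (In s p).pi l ≠ 0 → l.1 ∈ (In s p).W
  n30 : ∀ s p x, 0 ≤ (In s p).n3 x
  n3 : ∀ s ∈ A, ∀ p x, FGK.MQ (pf s) Q p * (In s p).n3 x = FGK.nQ (pf s) Q p x
  /-- the states -/
  a0 : ∀ s p c x, 0 < (St s p).a c x
  ac : ∀ c ∈ A, ∀ s ∈ A, c < s → ∀ h x, (St s (pf s h)).a c x = al P G (In c (pf c h)) x
  /-- the next worlds are thin -/
  thn : ∀ s ∈ A, ∀ h, T h → ∀ z ∈ Wn s h, ∀ i,
    Db P G (In s (pf s h)) (In s (pf s h)).n3 i z ≤ P.xi
  wo : ∀ c ∈ A, ∀ s ∈ A, c < s → ∀ h, T h → (In s (pf s h)).W ⊆ Wn c h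
  /-- the shares at the pairs -/
  out : ∀ s ∈ A, ∀ z ∈ X, out P G (In s (pf s z.1)) z.2 ≤ 1 / 4
  fl : ∀ s ∈ A, ∀ z ∈ X, P.e0 ≤ al P G (In s (pf s z.1)) z.2 / 8
  rem : ∀ s ∈ A, ∀ z ∈ X,
    shR P G (In s (pf s z.1)) P.gU (In s (pf s z.1)).n3 d z.2 ≤ 1 / 16
  /-- the pairs of stages are not hub pairs -/
  pr : ∀ c ∈ A, ∀ s ∈ A, c < s → ∀ z ∈ X,
    ∑ l, wP P G (St s (pf s z.1)) (In s (pf s z.1)) {c} l z.2 ≤ ε
  /-- the items are NO -/
  no : ∀ s ∈ A, ∀ S, S ⊆ A → S.card = r → (∀ c ∈ S, c < s) → ∀ z ∈ X,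
    AS P G (St s (pf s z.1)) (In s (pf s z.1)) S z.2 ≤ P.eps1 * al P G (In s (pf s z.1)) z.2

/-- The inequalities between the constants which the U-case uses. -/
structure UCst (P : Cn) (r : ℕ) (w ε3 ε1 ξ d ε : ℝ) : Prop where
  e0 : 0 < P.e0
  e01 : P.e0 < 1
  I0 : (2 : ℝ) ^ (1 - (P.I0 : ℝ)) ≤ P.e0
  gU : 0 ≤ P.gU
  g0 : P.gU ≤ P.g0
  w0 : Real.logb 2 w + 1 ≤ P.w0
  eps1 : P.eps1 ≤ ε1
  xi : 8 * P.xi ≤ ξ
  xid : (2 * P.gU + 5) * P.xi < d
  eps : r * ε ≤ ε3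

namespace UInst_

/-- `NoI` for a larger constant. -/
theorem noI_mono {V Hi ι L : Type} [Fintype V] [Fintype Hi] [Fintype L] {P : ℕ → Hi → ι}
    {Q : Hi → V → ℝ} {W : Finset (Hi × V)} {a : ℕ → ι → V → ℝ} {π : ℕ → ι → L → ℝ}
    {own : ℕ → ι → V → L → Prop} {A S : Finset ℕ} {s : ℕ} {k : ι → V → L → ℝ}
    {lo : ι → L → V → ℝ} {e : ι → V → V → ℝ} {T0 w ε3 ε1 ε1' : ℝ}
    (h : FGK.NoI P Q W a π own A S s k lo e T0 w ε3 ε1) (hε : ε1 ≤ ε1')
    (ha : ∀ p x, 0 < a s p x) : FGK.NoI P Q W a π own A S s k lo e T0 w ε3 ε1' where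
  k0 := h.k0
  kown := h.kown
  lo0 := h.lo0
  lo1 := h.lo1
  e0 := h.e0
  e1 := h.e1
  ew := h.ew
  low := h.low
  no z hz := (h.no z hz).trans (mul_le_mul_of_nonneg_right hε (ha _ _).le)

variable {V : Type} [Fintype V] {P : Cn} {G : SimpleGraph V} {I : Inp P V}

theorem rec_hi (he : 0 < P.e0) (hπ : ∀ l, 0 ≤ I.pi l) (hW : ∀ l, I.pi l ≠ 0 → l.1 ∈ I.W)
    (x : V) (Γ : ℝ) (hΓ : 1 ≤ Γ) (S : Finset (Ml P V))
    (hS : ∀ l ∈ S, G.Adj x l.1 ∧ Γ * al P G I x ≤ lv l.2) :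
    ∑ l ∈ S, I.pi l / lv l.2 ≤ 1 / Real.sqrt Γ := by
  have h := GSLE.high_le (e := fun _ => P.e0) (c := inc G I.W) (π := I.pi)
    (b := fun l : Ml P V => lv l.2) (fun _ => he)
    (fun x l => UDl_.inc_nonneg (P := P) (G := G) (I := I) x l) hπ (fun l => by unfold lv; positivity) hΓ x S
    (fun l hl => (hS l hl).2)
  refine le_trans (le_of_eq ?_) h
  refine Finset.sum_congr rfl fun l hl => ?_
  by_cases h1 : I.pi l = 0
  · rw [h1, mul_zero]
  · have h2 : inc G I.W x l = 1 := if_pos ⟨(hS l hl).1, hW l h1⟩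
    rw [h2, one_mul]

theorem rec_nr (he : 0 < P.e0) (hπ : ∀ l, 0 ≤ I.pi l) (hW : ∀ l, I.pi l ≠ 0 → l.1 ∈ I.W)
    (x : V) (Υ : ℝ) (hΥ : 1 ≤ Υ) (S : Finset (Ml P V))
    (hS : ∀ l ∈ S, G.Adj x l.1 ∧ al P G I x ≤ Υ * lv l.2) :
    ∑ l ∈ S, I.pi l / lv l.2 ≤ Υ * Real.sqrt Υ := by
  have h := GSLE.near_le (e := fun _ => P.e0) (c := inc G I.W) (π := I.pi)
    (b := fun l : Ml P V => lv l.2) (fun _ => he)
    (fun x l => UDl_.inc_nonneg (P := P) (G := G) (I := I) x l) hπ (fun l => by unfold lv; positivity) hΥ x S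
    (fun l hl => (hS l hl).2)
  refine le_trans (le_of_eq ?_) h
  refine Finset.sum_congr rfl fun l hl => ?_
  by_cases h1 : I.pi l = 0
  · rw [h1, mul_zero]
  · have h2 : inc G I.W x l = 1 := if_pos ⟨(hS l hl).1, hW l h1⟩
    rw [h2, one_mul]

/-- The own kernel on the own labels of the absolute window. -/
theorem own_k (hg0 : P.gU ≤ P.g0) {x : V} {l : Ml P V}
    (h : ownU P G I (P.gU - 1 / 2) x l) : 1 ≤ (2 : ℝ) ^ (P.gU + 2) * kk P G I P.g0 x l := by
  obtain ⟨h1, h2, h3⟩ := h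
  have ha := UDl_.al_pos (P := P) (G := G) (I := I) x
  have hl : 0 < lv l.2 := by
    unfold lv
    positivity
  obtain ⟨u, hu⟩ : ∃ u : ℝ, u = hs P G I x + (l.2 : ℕ) := ⟨_, rfl⟩
  rw [← hu] at h3
  have h4 : al P G I x / lv l.2 = (2 : ℝ) ^ u := by
    have h5 : al P G I x = (2 : ℝ) ^ hs P G I x := by
      unfold hs
      rw [Real.rpow_logb (by norm_num) (by norm_num) ha]
    have h6 : lv l.2 = ((2 : ℝ) ^ ((l.2 : ℕ) : ℝ))⁻¹ := by
      unfold lv
      rw [Real.rpow_natCast, one_div, inv_pow]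
    rw [hu, Real.rpow_add two_pos, h6, div_inv_eq_mul, ← h5]
  have h5 : (2 : ℝ) ^ (-|u|) ≤ kp (al P G I x / lv l.2) := by
    rw [h4]
    rcases le_total u 0 with h6 | h6
    · rw [GSLE.kp_of_le (Real.rpow_le_one_of_one_le_of_nonpos (by norm_num) h6),
        Real.sqrt_eq_rpow, ← Real.rpow_mul two_pos.le, abs_of_nonpos h6]
      refine Real.rpow_le_rpow_of_exponent_le (by norm_num) ?_
      linarith
    · rw [GSLE.kp_of_ge (Real.one_le_rpow (by norm_num) h6), one_div, Real.sqrt_eq_rpow,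
        ← Real.rpow_mul two_pos.le, ← Real.rpow_neg two_pos.le, abs_of_nonneg h6]
      refine Real.rpow_le_rpow_of_exponent_le (by norm_num) ?_
      linarith
  have h6 : 1 / 2 ≤ win P.g0 u := by
    unfold win
    refine le_trans ?_ (le_max_right _ _)
    rw [le_min_iff]
    constructor <;> linarith
  have h7 : kk P G I P.g0 x l = kp (al P G I x / lv l.2) * win P.g0 u := by
    unfold kk
    have h8 : inc G I.W x l = 1 := if_pos ⟨h1, h2⟩
    rw [h8, one_mul, hu]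
  have h8 : (2 : ℝ) ^ (-(P.gU + 1)) ≤ (2 : ℝ) ^ (-|u|) :=
    Real.rpow_le_rpow_of_exponent_le (by norm_num) (by linarith)
  have h9 : (2 : ℝ) ^ (-(P.gU + 1)) * (1 / 2) ≤ kk P G I P.g0 x l := by
    rw [h7]
    exact mul_le_mul (h8.trans h5) h6 (by norm_num) (GSLE.kp_nonneg _)
  have h10 : (2 : ℝ) ^ (P.gU + 2) * ((2 : ℝ) ^ (-(P.gU + 1)) * (1 / 2)) = 1 := by
    rw [← mul_assoc, ← Real.rpow_add two_pos]
    have h11 : P.gU + 2 + -(P.gU + 1) = 1 := by ring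
    rw [h11, Real.rpow_one]
    norm_num
  rw [← h10]
  exact mul_le_mul_of_nonneg_left h9 (by positivity)

/-- The scales of the own labels. -/
theorem own_b {x : V} {l : Ml P V} (h : ownU P G I (P.gU - 1 / 2) x l) :
    lv l.2 ≤ (2 : ℝ) ^ (P.gU + 2) * al P G I x ∧ al P G I x ≤ (2 : ℝ) ^ (P.gU + 2) * lv l.2 := by
  obtain ⟨-, -, h3⟩ := h
  have ha := UDl_.al_pos (P := P) (G := G) (I := I) x
  have h5 : al P G I x = (2 : ℝ) ^ hs P G I x := by
    unfold hs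
    rw [Real.rpow_logb (by norm_num) (by norm_num) ha]
  have h6 : lv l.2 = (2 : ℝ) ^ (-((l.2 : ℕ) : ℝ)) := by
    unfold lv
    rw [Real.rpow_neg two_pos.le, Real.rpow_natCast, one_div, inv_pow]
  have h7 := abs_lt.1 h3
  constructor
  · rw [h6]
    calc (2 : ℝ) ^ (-((l.2 : ℕ) : ℝ)) ≤ (2 : ℝ) ^ (P.gU + 2 + hs P G I x) :=
          Real.rpow_le_rpow_of_exponent_le (by norm_num) (by linarith)
      _ = _ := by rw [Real.rpow_add two_pos, ← h5]
  · rw [h6, ← Real.rpow_add two_pos]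
    calc al P G I x = (2 : ℝ) ^ hs P G I x := h5
      _ ≤ _ := Real.rpow_le_rpow_of_exponent_le (by norm_num) (by linarith)

/-- The kept own labels carry a quarter of the scale. -/
theorem kept_quarter (he : 0 < P.e0) (hπ : ∀ l, 0 ≤ I.pi l) {n : V → ℝ} {d : ℝ} {x : V}
    (ho : out P G I x ≤ 1 / 4) (hf : P.e0 ≤ al P G I x / 8)
    (hr : shR P G I P.gU n d x ≤ 1 / 16) :
    1 / 4 * al P G I x ≤ ∑ l, if ownU P G I (P.gU - 1 / 2) x l then
      piK P G I P.gU n d l else 0 := by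
  have ha := UDl_.al_pos (P := P) (G := G) (I := I) x
  obtain ⟨f, hf'⟩ : ∃ f : Ml P V → ℝ, f = fun l =>
      inc G I.W x l * I.pi l * kp (al P G I x / lv l.2) := ⟨_, rfl⟩
  have hf0 : ∀ l, 0 ≤ f l := fun l => by
    rw [hf']
    exact mul_nonneg (mul_nonneg (UDl_.inc_nonneg (P := P) (I := I) x l) (hπ l)) (GSLE.kp_nonneg _)
  obtain ⟨v, hv⟩ : ∃ v : Ml P V → ℝ, v = fun l => win P.gU (hs P G I x + (l.2 : ℕ)) := ⟨_, rfl⟩
  have hroot : P.e0 + ∑ l, f l = al P G I x := by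
    rw [hf']
    exact GSLE.alp_eq (fun _ => he) (fun x l => UDl_.inc_nonneg (P := P) (I := I) x l) hπ x
  have hout : ∑ l, f l * (1 - v l) ≤ 1 / 4 * al P G I x := by
    have h1 : out P G I x * al P G I x = ∑ l, f l * (1 - v l) := by
      unfold out
      rw [Finset.sum_mul, hf', hv]
      refine Finset.sum_congr rfl fun l _ => ?_
      rw [div_mul_cancel₀ _ ha.ne']
    rw [← h1]
    exact mul_le_mul_of_nonneg_right ho ha.le
  have hrem : ∑ l ∈ univ.filter (fun l => ¬ d ≤ DM P G I P.gU n l), f l * v l ≤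
      1 / 16 * al P G I x := by
    have h1 : shR P G I P.gU n d x * al P G I x =
        ∑ l ∈ univ.filter (fun l => ¬ d ≤ DM P G I P.gU n l), f l * v l := by
      unfold shR
      rw [Finset.sum_mul, hf', hv]
      refine Finset.sum_congr rfl fun l _ => ?_
      rw [mul_assoc, div_mul_cancel₀ _ ha.ne']
      unfold kk
      ring
    rw [← h1]
    exact mul_le_mul_of_nonneg_right hr ha.le
  have hpt : ∀ l, f l ≤ (if ownU P G I (P.gU - 1 / 2) x l then piK P G I P.gU n d l else 0) +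
      2 * (f l * (1 - v l)) + 2 * (if ¬ d ≤ DM P G I P.gU n l then f l * v l else 0) := by
    intro l
    have hv0 : 0 ≤ v l := by
      rw [hv]
      exact GSLE.win_nonneg _ _
    have hv1 : v l ≤ 1 := by
      rw [hv]
      exact GSLE.win_le_one _ _
    have hfl := hf0 l
    have hA : 0 ≤ f l * (1 - v l) := mul_nonneg hfl (by linarith)
    have hB : 0 ≤ f l * v l := mul_nonneg hfl hv0
    have hC : 0 ≤ (if ¬ d ≤ DM P G I P.gU n l then f l * v l else 0) := by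
      split_ifs
      · exact le_rfl
      · exact hB
    by_cases h1 : ownU P G I (P.gU - 1 / 2) x l
    · rw [if_pos h1]
      by_cases h2 : d ≤ DM P G I P.gU n l
      · have h3 : piK P G I P.gU n d l = I.pi l := if_pos h2
        rw [h3]
        have h4 : f l ≤ I.pi l := by
          rw [hf']
          calc inc G I.W x l * I.pi l * kp (al P G I x / lv l.2) ≤ 1 * I.pi l * 1 :=
                mul_le_mul (mul_le_mul_of_nonneg_right (UDl_.inc_le_one (P := P) (I := I) x l)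
                  (hπ l)) (GSLE.kp_le_one _) (GSLE.kp_nonneg _) (mul_nonneg zero_le_one (hπ l))
            _ = I.pi l := by ring
        linarith
      · have h3 : 0 ≤ piK P G I P.gU n d l := UDl_.piK_nonneg hπ l
        have h4 : (if ¬ d ≤ DM P G I P.gU n l then f l * v l else 0) = f l * v l := if_pos h2
        rw [h4]
        nlinarith
    · rw [if_neg h1]
      by_cases h2 : f l = 0
      · rw [h2] at hA hB hC ⊢
        linarith
      · have h3 : G.Adj x l.1 ∧ l.1 ∈ I.W := by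
          by_contra h4
          apply h2
          rw [hf']
          have h5 : inc G I.W x l = 0 := if_neg h4
          simp only [h5, zero_mul]
        have h4 : P.gU + 1 / 2 ≤ |hs P G I x + (l.2 : ℕ)| := by
          by_contra h5
          exact h1 ⟨h3.1, h3.2, by linarith⟩
        have h5 : v l ≤ 1 / 2 := by
          rw [hv]
          unfold win
          refine max_le (by norm_num) ((min_le_right _ _).trans ?_)
          linarith
        nlinarith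
  have h1 := Finset.sum_le_sum fun l (_ : l ∈ (Finset.univ : Finset (Ml P V))) => hpt l
  rw [Finset.sum_add_distrib, Finset.sum_add_distrib, ← Finset.mul_sum, ← Finset.mul_sum] at h1
  rw [Finset.sum_filter] at hrem
  linarith

end UInst_

/-- The U-case for the records with given constants. -/
def UC (M h r : ℕ) (F gU w : ℝ) (R : ℕ) (ε3 κ ε1 ξ : ℝ) : Prop :=
  ∀ (V Hi ι : Type) [Fintype V] [Fintype Hi] (P : Cn) (G : SimpleGraph V)
    (pf : Fin P.N → Hi → ι) (Q : Hi → V → ℝ) (X : Finset (Hi × V))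
    (St : Fin P.N → ι → Sta P V) (In : Fin P.N → ι → Inp P V) (T : Hi → Prop)
    (Wn : Fin P.N → Hi → Finset V) (A : Finset (Fin P.N)) (d ε : ℝ),
    P.gU = gU → UCst P r w ε3 ε1 ξ d ε → UFacts P G pf Q X St In T Wn A r d ε →
    Frac G F → R ≤ A.card → κ ≤ ∑ z ∈ X, Q z.1 z.2 → ∃ φ : List (Fin M) → V, Tree G h M φ

open UInst_ in
/-- **The U-case for the records.** -/
theorem uinst (M h r : ℕ) (F gU : ℝ) (hF : 1 ≤ F) (hgU : 0 ≤ gU) :
    ∃ (w : ℝ) (R : ℕ) (ε3 : ℝ), 1 ≤ w ∧ 0 < ε3 ∧ ∀ κ : ℝ, 0 < κ → ∃ ε1 ξ : ℝ, 0 < ε1 ∧ 0 < ξ ∧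
      UC M h r F gU w R ε3 κ ε1 ξ := by
  obtain ⟨w, R, ε3, hw, hε3, hmain⟩ := FGK.stULE M h r F ((2 : ℝ) ^ (gU + 2)) (1 / 4) hF
    (Real.one_le_rpow (by norm_num) (by linarith)) (by norm_num) (by norm_num)
  refine ⟨w, max R 1, ε3, hw, hε3, fun κ hκ => ?_⟩
  obtain ⟨ε1, ξ, hε1, hξ, hm⟩ := hmain κ hκ
  refine ⟨ε1, ξ, hε1, hξ, ?_⟩
  intro V Hi ι _ _ P G pf Q X St In T Wn A d ε hgu hc hu hFr hRA hκX
  have hAne : A.Nonempty := by
    rw [← Finset.card_pos]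
    exact lt_of_lt_of_le one_pos ((le_max_right R 1).trans hRA)
  obtain ⟨c0, hc0⟩ := hAne
  -- the stages as natural numbers
  obtain ⟨q, hq⟩ : ∃ q : ℕ → Fin P.N, q = fun c => if h : c < P.N then ⟨c, h⟩ else c0 := ⟨_, rfl⟩
  have hqv : ∀ c : Fin P.N, q (c : ℕ) = c := by
    intro c
    rw [hq]
    exact dif_pos c.2
  obtain ⟨A', hA'⟩ : ∃ A' : Finset ℕ, A' = A.map Fin.valEmbedding := ⟨_, rfl⟩
  have hmem : ∀ c : ℕ, c ∈ A' → q c ∈ A ∧ ((q c : Fin P.N) : ℕ) = c := by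
    intro c hc1
    rw [hA', Finset.mem_map] at hc1
    obtain ⟨c1, hc2, rfl⟩ := hc1
    have h1 : (Fin.valEmbedding c1 : ℕ) = (c1 : ℕ) := rfl
    rw [h1, hqv]
    exact ⟨hc2, rfl⟩
  have hlt : ∀ c s : ℕ, c ∈ A' → s ∈ A' → c < s → q c < q s := by
    intro c s hc1 hs1 hcs
    rw [Fin.lt_def, (hmem c hc1).2, (hmem s hs1).2]
    exact hcs
  have hI0 : (1 / 2 : ℝ) ^ P.I0 ≤ P.e0 := by
    refine le_trans ?_ hc.I0
    rw [one_div, inv_pow, ← Real.rpow_natCast, ← Real.rpow_neg two_pos.le]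
    exact Real.rpow_le_rpow_of_exponent_le (by norm_num) (by linarith)
  have hT0 : ((2 : ℝ) ^ (gU + 2)) = (2 : ℝ) ^ (P.gU + 2) := by rw [hgu]
  rw [hT0] at hm
  -- the kept part of the main law
  obtain ⟨ρ, hρ⟩ : ∃ ρ : Fin P.N → ι → Ml P V → ℝ, ρ = fun s p l =>
      if ∃ h', T h' ∧ pf s h' = p then piK P G (In s p) P.gU (In s p).n3 d l else 0 := ⟨_, rfl⟩
  have hρ1 : ∀ s p l, (∃ h', T h' ∧ pf s h' = p) →
      ρ s p l = piK P G (In s p) P.gU (In s p).n3 d l := by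
    intro s p l h1
    rw [hρ]
    exact if_pos h1
  have hρ0 : ∀ s p l, 0 ≤ ρ s p l := by
    intro s p l
    rw [hρ]
    simp only
    split_ifs
    · exact UDl_.piK_nonneg (hu.pi0 s p) l
    · exact le_rfl
  have hρ2 : ∀ s p l, ρ s p l ≤ (In s p).pi l := by
    intro s p l
    rw [hρ]
    simp only
    split_ifs
    · exact UDl_.piK_le (hu.pi0 s p) l
    · exact hu.pi0 s p l
  have hρ3 : ∀ s p l, ρ s p l ≠ 0 → (∃ h', T h' ∧ pf s h' = p) ∧
      piK P G (In s p) P.gU (In s p).n3 d l ≠ 0 := by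
    intro s p l h1
    rw [hρ] at h1
    simp only at h1
    split_ifs at h1 with h2
    · exact ⟨h2, h1⟩
    · exact absurd rfl h1
  -- thin vertices
  obtain ⟨Zt, hZt⟩ : ∃ Zt : Fin P.N → ι → V → Prop, Zt = fun s p z =>
      ∀ i, Db P G (In s p) (In s p).n3 i z ≤ P.xi := ⟨_, rfl⟩
  have hMQ0 : ∀ s p, 0 ≤ FGK.MQ (pf s) Q p := by
    intro s p
    unfold FGK.MQ FGK.mH
    refine Finset.sum_nonneg fun h' _ => ?_
    split_ifs
    · exact Finset.sum_nonneg fun v _ => hu.Q0 h' v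
    · exact le_rfl
  have hMQ : ∀ s : Fin P.N, ∀ z ∈ X, 0 < FGK.MQ (pf s) Q (pf s z.1) := by
    intro s z hz
    have h1 : 0 < FGK.mH Q z.1 := lt_of_lt_of_le (hu.XQ z hz)
      (Finset.single_le_sum (f := fun v => Q z.1 v) (fun v _ => hu.Q0 z.1 v) (Finset.mem_univ _))
    refine lt_of_lt_of_le h1 ?_
    have h2 := Finset.single_le_sum
      (f := fun h' => if pf s h' = pf s z.1 then FGK.mH Q h' else 0) (fun h' _ => by
        split_ifs
        · exact Finset.sum_nonneg fun v _ => hu.Q0 h' v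
        · exact le_rfl) (Finset.mem_univ z.1)
    simp only [if_true] at h2
    exact h2
  have hn3 : ∀ s ∈ A, ∀ z ∈ X, ∀ x, (In s (pf s z.1)).n3 x =
      FGK.nQ (pf s) Q (pf s z.1) x / FGK.MQ (pf s) Q (pf s z.1) := by
    intro s hs z hz x
    rw [eq_div_iff (hMQ s z hz).ne', mul_comm]
    exact hu.n3 s hs _ x
  have hcard : A'.card = A.card := by
    rw [hA', Finset.card_map]
  have hUS : FGK.US G (fun l : Ml P V => l.1) (fun l => lv l.2) (fun c => pf (q c)) Q X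
      (fun c p => al P G (In (q c) p)) (fun c p => (In (q c) p).pi) (fun c => ρ (q c))
      (fun c p => ownU P G (In (q c) p) (P.gU - 1 / 2)) (fun c => Zt (q c)) A'
      ((2 : ℝ) ^ (P.gU + 2)) (1 / 4) ξ := {
    ref := fun c hc1 s hs1 hcs h1 h2 h3 =>
      hu.ref _ (hmem c hc1).1 _ (hmem s hs1).1 (hlt c s hc1 hs1 hcs) h1 h2 h3
    Q0 := hu.Q0
    Q1 := hu.Q1
    Wp := hu.XQ
    b0 := fun l => by
      unfold lv
      positivity
    a0 := fun c _ p x => UDl_.al_pos x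
    ρ0 := fun c _ p l => hρ0 _ p l
    ρπ := fun c _ p l => hρ2 _ p l
    π1 := fun c _ p => hu.pi1 _ p
    own1 := fun c _ p x l hl => ⟨hl.1, own_b hl⟩
    hi := fun c _ p x Γ hΓ S hS => rec_hi hc.e0 (hu.pi0 _ p) (hu.piW _ p) x Γ hΓ S hS
    nr := fun c _ p x Υ hΥ S hS => rec_nr hc.e0 (hu.pi0 _ p) (hu.piW _ p) x Υ hΥ S hS
    sha := fun c hc1 z hz => by
      have h1 := kept_quarter (G := G) (I := In (q c) (pf (q c) z.1)) hc.e0 (hu.pi0 _ _)
        (hu.out _ (hmem c hc1).1 z hz) (hu.fl _ (hmem c hc1).1 z hz)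
        (hu.rem _ (hmem c hc1).1 z hz)
      refine h1.trans (le_of_eq ?_)
      refine Finset.sum_congr rfl fun l _ => ?_
      rw [hρ1 _ _ l ⟨z.1, hu.XT z hz, rfl⟩]
    zW := fun c hc1 z hz => by
      rw [hZt]
      exact hu.thn _ (hmem c hc1).1 z.1 (hu.XT z hz) z.2 (hu.XW z hz _ (hmem c hc1).1)
    zO := fun c hc1 s hs1 hcs h1 l _ hl => by
      obtain ⟨⟨h', hT', hp'⟩, hl'⟩ := hρ3 _ _ _ hl
      have h2 : l.1 ∈ (In (q s) (pf (q s) h1)).W := by
        refine hu.piW _ _ l fun h3 => hl' ?_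
        unfold piK
        rw [h3, ite_self]
      rw [← hp'] at h2
      have h3 := hu.wo _ (hmem c hc1).1 _ (hmem s hs1).1 (hlt c s hc1 hs1 hcs) h' hT' h2
      have h4 := hu.thn _ (hmem c hc1).1 h' hT' l.1 h3
      rw [hu.ref _ (hmem c hc1).1 _ (hmem s hs1).1 (hlt c s hc1 hs1 hcs) h' h1 hp'] at h4
      rw [hZt]
      exact h4
    thn := fun c hc1 p z hz t ht => by
      rw [hZt] at hz
      have h1 := thn_of_Db (G := G) (I := In (q c) p) hc.e0 hc.e01 hI0 (hu.pi0 _ p) (hu.pi1 _ p)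
        (hu.n30 _ p) hz ht
      have h2 : ∑ v ∈ Finset.univ.filter (fun v => (v = z ∨ G.Adj v z) ∧
          al P G (In (q c) p) v ≤ t), FGK.nQ (pf (q c)) Q p v = FGK.MQ (pf (q c)) Q p *
          ∑ v ∈ Finset.univ.filter (fun v => (v = z ∨ G.Adj v z) ∧
            al P G (In (q c) p) v ≤ t), (In (q c) p).n3 v := by
        rw [Finset.mul_sum]
        exact Finset.sum_congr rfl fun v _ => (hu.n3 _ (hmem c hc1).1 p v).symm
      rw [h2]
      calc _ ≤ FGK.MQ (pf (q c)) Q p * (8 * P.xi * t) :=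
            mul_le_mul_of_nonneg_left h1 (hMQ0 _ p)
        _ ≤ FGK.MQ (pf (q c)) Q p * (ξ * t) :=
            mul_le_mul_of_nonneg_left (mul_le_mul_of_nonneg_right hc.xi ht.le) (hMQ0 _ p)
        _ = ξ * t * FGK.MQ (pf (q c)) Q p := mul_comm _ _
    ne := fun c hc1 p z hz l hl => by
      rw [hZt] at hz
      exact UDl_.ne_of_thin (hu.n30 _ p) (hu.pi0 _ p) (hu.pi1 _ p) hc.e0 hc.e01.le hI0 hc.gU hz
        hc.xid (hρ3 _ _ _ hl).2 }
  -- the items
  obtain ⟨dn, hdn⟩ : ∃ dn : Finset ℕ → Finset (Fin P.N), dn = fun S =>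
      Finset.univ.filter fun c : Fin P.N => (c : ℕ) ∈ S := ⟨_, rfl⟩
  have hdn1 : ∀ S c, c ∈ dn S ↔ (c : ℕ) ∈ S := by
    intro S c
    rw [hdn, Finset.mem_filter]
    exact ⟨fun h1 => h1.2, fun h1 => ⟨Finset.mem_univ _, h1⟩⟩
  refine hm V Hi ι (Ml P V) G (fun l => l.1) (fun l => lv l.2) (fun c => pf (q c)) Q X
    (fun c p => al P G (In (q c) p)) (fun c p => (In (q c) p).pi) (fun c => ρ (q c))
    (fun c p => ownU P G (In (q c) p) (P.gU - 1 / 2)) (fun c => Zt (q c)) A'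
    (fun _ s p => kk P G (In (q s) p) P.g0) (fun S s p => loU P (St (q s) p) (dn S))
    (fun S s p => eU P (St (q s) p) (Real.logb 2 w) (dn S)) hFr
    (by rw [hcard]; exact (le_max_left R 1).trans hRA) hUS hκX ?_
  intro s hs S hSA hSs hSr
  have hsub : dn S ⊆ A := by
    intro c hc1
    rw [hdn1] at hc1
    have h1 := (hmem _ (hSA hc1)).1
    rwa [hqv] at h1
  have hcd : (dn S).card = r := by
    have h1 : (dn S).map Fin.valEmbedding = S := by
      ext c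
      rw [Finset.mem_map]
      constructor
      · rintro ⟨c1, h2, rfl⟩
        exact (hdn1 S c1).1 h2
      · intro h2
        obtain ⟨-, h3⟩ := hmem c (hSA h2)
        refine ⟨q c, ?_, h3⟩
        rw [hdn1, h3]
        exact h2
    have h2 := Finset.card_map (s := dn S) (Fin.valEmbedding (n := P.N))
    rw [h1] at h2
    rw [← h2, hSr]
  have hls : ∀ c ∈ dn S, c < q s := by
    intro c hc1
    rw [hdn1] at hc1
    rw [Fin.lt_def, (hmem s hs).2]
    exact hSs _ hc1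
  refine noI_mono (noI_rec P G (fun c => pf (q c)) Q X (fun c p => al P G (In (q c) p))
    (fun c p => (In (q c) p).pi) (fun c p => ownU P G (In (q c) p) (P.gU - 1 / 2)) A' S s (dn S)
    (fun p => St (q s) p) (fun p => In (q s) p) (T0 := (2 : ℝ) ^ (P.gU + 2)) (w := w)
    (v := Real.logb 2 w) (ε3 := ε3) (ε := ε) (fun c hc1 => (hdn1 S c).1 hc1) (by linarith) le_rfl
    hc.w0 ?_ (fun p x => rfl) (fun p l => rfl) ?_ (hu.pi0 _) ?_ ?_ ?_ ?_ ?_ ?_ ?_ ?_ ?_) hc.eps1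
    (fun p x => UDl_.al_pos x)
  · have h1 : 0 ≤ Real.logb 2 w := Real.logb_nonneg (by norm_num) hw
    linarith [hc.w0]
  · intro h1 c hc1 x
    rw [hqv]
    exact hu.ac c (hsub hc1) _ (hmem s hs).1 (hls c hc1) h1 x
  · exact fun p c _ x => hu.a0 _ p c x
  · intro z hz c hc1 x
    rw [hu.ac c (hsub hc1) _ (hmem s hs).1 (hls c hc1) z.1 x]
    exact UDl_.al_le_two (hu.pi0 _ _) (hu.pi1 _ _) hc.e0 hc.e01.le x
  · intro z hz c hc1 x
    rw [hu.ac c (hsub hc1) _ (hmem s hs).1 (hls c hc1) z.1 x]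
    exact hc.I0.trans (UDl_.le_al (hu.pi0 _ _) hc.e0 x)
  · exact fun z _ x => hu.n30 _ _ x
  · exact fun z hz x => hn3 _ (hmem s hs).1 z hz x
  · exact fun p x l hl => own_k hc.g0 hl
  · exact fun z hz c hc1 => hu.pr c (hsub hc1) _ (hmem s hs).1 (hls c hc1) z hz
  · rw [hcd]
    exact hc.eps
  · exact fun z hz => hu.no _ (hmem s hs).1 _ hsub hcd hls z hz

end Pool.Agent.Lib.GSX
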