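import Pool.Agent.Lib.GSX.UpV

/-!
# The masters of the UP system: the bound for the charges

`upB`: if `z` has a positive weight at the step `j` and the payment functions of the steps before
are at most `Bu` at `u` then the master of `z` charges `u` at most `B j * brw (1/4) (a u / a z)`.
`upB_own`: the charge at an own node.
-/

set_option autoImplicit false

namespace Pool.Agent.Lib.GSX

open Finset Classical
open Pool.Agent.Lib.FGF (cm)
open Pool.Agent.Lib.GSLE (kp kp_nonneg kp_pos kp_le_one kp_of_le kp_of_ge kp_mul brw brw_mono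
  brw_of_le brw_of_ge brw_nonneg)
open UpV_

namespace UpB_

section

variable {V : Type} [Fintype V] {I0 : ℕ} {G : SimpleGraph V} {U : UpI V I0}

lemma cm_upM (j : ℕ) (X : UpS V) (l : V × Fin (I0 + 1)) (lam : V → ℝ) (x : V) :
    cm G (upM G U j X l lam) x = U.Amp * cm G (X.m l.1) x + cm G (upR G U j X l lam) x := by
  unfold upM cm FGF.nm FracGS.wnb
  simp only [Finset.sum_add_distrib, Finset.mul_sum, mul_add]
  ring

lemma lv_pos (i : ℕ) : 0 < lv i := by
  unfold lv
  positivity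

/-- The bracket. -/
lemma div_sqrt_kp {v : ℝ} (hv : 0 < v) : v / √(kp v) ≤ brw (1 / 4) v := by
  have hk : √v = v ^ (1 / 2 : ℝ) := Real.sqrt_eq_rpow v
  rcases le_total v 1 with h | h
  · rw [kp_of_le h, brw_of_le h, hk, Real.sqrt_eq_rpow, ← Real.rpow_mul hv.le]
    have h1 : v / v ^ ((1 / 2 : ℝ) * (1 / 2)) = v ^ (1 - (1 / 2 : ℝ) * (1 / 2)) := by
      rw [Real.rpow_sub hv, Real.rpow_one]
    rw [h1]
    apply le_of_eq
    norm_num
  · rw [kp_of_ge h, brw_of_ge h, hk]
    have h1 : √(1 / v ^ (1 / 2 : ℝ)) = v ^ (-(1 / 2 : ℝ) * (1 / 2)) := by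
      rw [Real.sqrt_eq_rpow, one_div, ← Real.rpow_neg hv.le, ← Real.rpow_mul hv.le]
    have h2 : v / v ^ (-(1 / 2 : ℝ) * (1 / 2)) = v ^ (1 - -(1 / 2 : ℝ) * (1 / 2)) := by
      rw [Real.rpow_sub hv, Real.rpow_one]
    rw [h1, h2]
    apply le_of_eq
    norm_num

/-- The kernel at `x` in terms of the kernel of the payments at `u`. -/
lemma kp_le_pay {a b c : ℝ} (ha : 0 < a) (hb : 0 < b) (hc : 0 < c) :
    kp (a / c) / a ≤ √(kp (b / c)) / b * brw (1 / 4) (b / a) := by
  have hv : 0 < b / a := div_pos hb ha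
  have hac : 0 < a / c := div_pos ha hc
  have hbc : 0 < b / c := div_pos hb hc
  have h1 : kp (a / c) * kp (b / a) ≤ kp (b / c) := by
    refine (kp_mul hac hv).trans (le_of_eq ?_)
    congr 1
    field_simp
  have hkv : 0 < √(kp (b / a)) := Real.sqrt_pos.2 (kp_pos hv)
  have h2 : kp (a / c) ≤ √(kp (a / c)) := by
    have h3 := kp_nonneg (a / c)
    refine Real.le_sqrt_of_sq_le ?_
    calc kp (a / c) ^ 2 = kp (a / c) * kp (a / c) := sq _
      _ ≤ kp (a / c) * 1 := mul_le_mul_of_nonneg_left (kp_le_one _) h3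
      _ = kp (a / c) := mul_one _
  have h3 : √(kp (a / c)) ≤ √(kp (b / c)) / √(kp (b / a)) := by
    rw [le_div_iff₀ hkv, ← Real.sqrt_mul (kp_nonneg _)]
    exact Real.sqrt_le_sqrt h1
  have h4 : √(kp (b / c)) / √(kp (b / a)) / a =
      √(kp (b / c)) / b * (b / a / √(kp (b / a))) := by
    field_simp
  calc kp (a / c) / a ≤ √(kp (b / c)) / √(kp (b / a)) / a :=
        div_le_div_of_nonneg_right (h2.trans h3) ha.le
    _ = √(kp (b / c)) / b * (b / a / √(kp (b / a))) := h4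
    _ ≤ √(kp (b / c)) / b * brw (1 / 4) (b / a) :=
        mul_le_mul_of_nonneg_left (div_sqrt_kp hv) (div_nonneg (Real.sqrt_nonneg _) hb.le)

omit [Fintype V] in
lemma upK_le (x : V) (l : V × Fin (I0 + 1)) :
    upK G U x l ≤ kp (U.a x / lv l.2) := by
  unfold upK
  have h1 : (if G.Adj x l.1 ∧ l.1 ∈ U.W then (1 : ℝ) else 0) ≤ 1 := by split_ifs <;> norm_num
  have hk := kp_nonneg (U.a x / lv l.2)
  calc (if G.Adj x l.1 ∧ l.1 ∈ U.W then (1 : ℝ) else 0) * kp (U.a x / lv l.2) *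
        rp (U.a l.1 / (U.Gam * U.a x) - 1)
      ≤ 1 * kp (U.a x / lv l.2) * 1 :=
        mul_le_mul (mul_le_mul_of_nonneg_right h1 hk) (rp_le_one _) (rp_nonneg _) (by linarith)
    _ = kp (U.a x / lv l.2) := by ring

omit [Fintype V] in
/-- The hubs of positive kernel are higher. -/
lemma high_of_upK (hU : UpPos U) {x : V} {l : V × Fin (I0 + 1)} (h : upK G U x l ≠ 0) :
    U.Gam * U.a x < U.a l.1 := by
  obtain ⟨-, -, h4⟩ := upK_ne h
  rwa [one_lt_div (mul_pos hU.Gam (hU.a x))] at h4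

/-- The charge of the payers. -/
lemma pay_le (hU : UpPos U) {j : ℕ} {X : UpS V} (hX : UpSP X) {z : V} (u : V)
    (h : U.th * U.a z ≤ upA G U j X z) :
    ∑ l, upw G U j X z l * cm G (upR G U j X l (U.su j l)) u ≤
      upg G U j X u / U.th * brw (1 / 4) (U.a u / U.a z) := by
  have hz := hU.a z
  have hu := hU.a u
  have hth := hU.th
  have hb : 0 ≤ brw (1 / 4) (U.a u / U.a z) := brw_nonneg _ (div_pos hu hz).le
  unfold upg
  rw [Finset.sum_div, Finset.sum_mul]
  refine Finset.sum_le_sum fun l _ => ?_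
  have hs : 0 ≤ U.sg j l * X.f l.1 := mul_nonneg (hU.sg j l) (hX.f0 _)
  have hR : 0 ≤ cm G (upR G U j X l (U.su j l)) u :=
    cm_nonneg' (upR_nonneg hU hX l (hU.su j l)) u
  have h1 : upw G U j X z l ≤ U.sg j l * X.f l.1 * (kp (U.a z / lv l.2) / U.a z) / U.th := by
    unfold upw
    have h2 : U.sg j l * X.f l.1 * upK G U z l / upA G U j X z ≤
        U.sg j l * X.f l.1 * upK G U z l / (U.th * U.a z) :=
      div_le_div_of_nonneg_left (mul_nonneg hs (upK_nonneg z l)) (mul_pos hth hz) h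
    refine h2.trans ?_
    have h3 : U.sg j l * X.f l.1 * (kp (U.a z / lv l.2) / U.a z) / U.th =
        U.sg j l * X.f l.1 * kp (U.a z / lv l.2) / (U.th * U.a z) := by
      field_simp
    rw [h3]
    exact div_le_div_of_nonneg_right (mul_le_mul_of_nonneg_left (upK_le z l) hs)
      (mul_pos hth hz).le
  have h4 := kp_le_pay hz hu (lv_pos (l.2 : ℕ))
  calc upw G U j X z l * cm G (upR G U j X l (U.su j l)) u
      ≤ U.sg j l * X.f l.1 * (kp (U.a z / lv l.2) / U.a z) / U.th *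
          cm G (upR G U j X l (U.su j l)) u := mul_le_mul_of_nonneg_right h1 hR
    _ ≤ U.sg j l * X.f l.1 * (√(kp (U.a u / lv l.2)) / U.a u *
          brw (1 / 4) (U.a u / U.a z)) / U.th * cm G (upR G U j X l (U.su j l)) u := by
        refine mul_le_mul_of_nonneg_right ?_ hR
        exact div_le_div_of_nonneg_right (mul_le_mul_of_nonneg_left h4 hs) hth.le
    _ = U.sg j l * X.f l.1 * (√(kp (U.a u / lv l.2)) *
          (cm G (upR G U j X l (U.su j l)) u / U.a u)) / U.th *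
          brw (1 / 4) (U.a u / U.a z) := by ring

omit [Fintype V] in
lemma B_nonneg (hU : UpPos U) {Bu : ℝ} (hBu : 0 ≤ Bu) {B : ℕ → ℝ} (hB0 : 0 ≤ B 0)
    (hB : ∀ j, 4 * (U.Amp * B j + Bu / U.th) ≤ B (j + 1)) (j : ℕ) : 0 ≤ B j := by
  induction j with
  | zero => exact hB0
  | succ j ih =>
    refine le_trans ?_ (hB j)
    have h1 := mul_nonneg hU.Amp ih
    have h2 := div_nonneg hBu hU.th.le
    linarith

end

end UpB_

open UpB_

section

variable {V : Type} [Fintype V] {I0 : ℕ} {G : SimpleGraph V} {U : UpI V I0}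

/-- **The bound (b) of the masters of the UP system.** -/
theorem upB (hU : UpPos U) (hG : 1 ≤ U.Gam) {Bu : ℝ} (hBu : 0 ≤ Bu) {B : ℕ → ℝ} (hB0 : 0 ≤ B 0)
    (hB : ∀ j, 4 * (U.Amp * B j + Bu / U.th) ≤ B (j + 1)) {j : ℕ} {z u : V}
    (hf : (ups G U j).f z ≠ 0) (hg : ∀ i < j, upg G U i (ups G U i) u ≤ Bu) :
    cm G ((ups G U j).m z) u ≤ B j * brw (1 / 4) (U.a u / U.a z) := by
  have hBn := B_nonneg hU hBu hB0 hB
  induction j generalizing z with
  | zero =>
    have h0 : cm G ((ups G U 0).m z) u = 0 := by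
      show cm G (fun _ => (0 : ℝ)) u = 0
      unfold cm FGF.nm FracGS.wnb
      simp
    rw [h0]
    exact mul_nonneg hB0 (brw_nonneg _ (div_pos (hU.a u) (hU.a z)).le)
  | succ j ih =>
    have hg' : ∀ i < j, upg G U i (ups G U i) u ≤ Bu := fun i hi => hg i (by omega)
    have hX := ups_sp (G := G) hU j
    obtain ⟨-, hA1, -⟩ := of_f_pos hf
    have hA : U.th * U.a z ≤ upA G U j (ups G U j) z := by
      rw [one_lt_div (mul_pos hU.th (hU.a z))] at hA1
      exact hA1.le
    have hbz : 0 ≤ brw (1 / 4) (U.a u / U.a z) := brw_nonneg _ (div_pos (hU.a u) (hU.a z)).le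
    rw [cm_succ]
    simp_rw [cm_upM]
    have h1 : ∀ l, upw G U j (ups G U j) z l * (U.Amp * cm G ((ups G U j).m l.1) u) ≤
        upw G U j (ups G U j) z l * (U.Amp * (B j * brw (1 / 4) (U.a u / U.a z))) := by
      intro l
      by_cases h0 : upw G U j (ups G U j) z l = 0
      · rw [h0, zero_mul, zero_mul]
      · obtain ⟨-, hfl, hKl⟩ := upw_ne h0
        have h2 := ih hfl hg'
        have h3 := high_of_upK hU hKl
        have h4 : U.a z ≤ U.a l.1 := by
          have h6 := hU.a z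
          nlinarith
        have h5 : U.a u / U.a l.1 ≤ U.a u / U.a z :=
          div_le_div_of_nonneg_left (hU.a u).le (hU.a z) h4
        have h6 : brw (1 / 4) (U.a u / U.a l.1) ≤ brw (1 / 4) (U.a u / U.a z) :=
          brw_mono (by norm_num) (by norm_num) (div_pos (hU.a u) (hU.a l.1)).le h5
        refine mul_le_mul_of_nonneg_left (mul_le_mul_of_nonneg_left ?_ hU.Amp)
          (upw_nonneg hU hX z l)
        exact h2.trans (mul_le_mul_of_nonneg_left h6 (hBn j))
    have h2 : ∑ l, upw G U j (ups G U j) z l * (U.Amp * cm G ((ups G U j).m l.1) u) ≤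
        U.Amp * (B j * brw (1 / 4) (U.a u / U.a z)) := by
      refine (Finset.sum_le_sum fun l _ => h1 l).trans ?_
      rw [← Finset.sum_mul]
      have h3 : 0 ≤ U.Amp * (B j * brw (1 / 4) (U.a u / U.a z)) :=
        mul_nonneg hU.Amp (mul_nonneg (hBn j) hbz)
      calc (∑ l, upw G U j (ups G U j) z l) * (U.Amp * (B j * brw (1 / 4) (U.a u / U.a z)))
          ≤ 1 * (U.Amp * (B j * brw (1 / 4) (U.a u / U.a z))) :=
            mul_le_mul_of_nonneg_right (sum_upw_le hU hX z) h3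
        _ = _ := one_mul _
    have h3 := pay_le (G := G) hU hX u hA
    have h4 : upg G U j (ups G U j) u / U.th * brw (1 / 4) (U.a u / U.a z) ≤
        Bu / U.th * brw (1 / 4) (U.a u / U.a z) :=
      mul_le_mul_of_nonneg_right (div_le_div_of_nonneg_right (hg j (by omega)) hU.th.le) hbz
    simp_rw [mul_add]
    rw [Finset.sum_add_distrib]
    calc _ ≤ 4 * (U.Amp * (B j * brw (1 / 4) (U.a u / U.a z)) +
          Bu / U.th * brw (1 / 4) (U.a u / U.a z)) := by linarith
      _ = 4 * (U.Amp * B j + Bu / U.th) * brw (1 / 4) (U.a u / U.a z) := by ring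
      _ ≤ B (j + 1) * brw (1 / 4) (U.a u / U.a z) := mul_le_mul_of_nonneg_right (hB j) hbz

/-- The charge of the master of a hub of `x` at the own node `x`. -/
theorem upB_own (hU : UpPos U) (hG : 1 ≤ U.Gam) {Bu : ℝ} (hBu : 0 ≤ Bu) {B : ℕ → ℝ}
    (hB0 : 0 ≤ B 0) (hB : ∀ j, 4 * (U.Amp * B j + Bu / U.th) ≤ B (j + 1)) {e1 : ℝ} {j : ℕ}
    (he : B j * brw (1 / 4) (1 / U.Gam) ≤ e1) {x : V} {l : V × Fin (I0 + 1)}
    (hg : ∀ i < j, upg G U i (ups G U i) x ≤ Bu) (hf : (ups G U j).f l.1 ≠ 0)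
    (hK : upK G U x l ≠ 0) : cm G ((ups G U j).m l.1) x ≤ e1 := by
  have hBn := B_nonneg hU hBu hB0 hB
  have h1 := upB (G := G) hU hG hBu hB0 hB hf hg
  have h2 := high_of_upK hU hK
  have h3 : U.a x / U.a l.1 ≤ 1 / U.Gam := by
    rw [div_le_div_iff₀ (hU.a _) hU.Gam]
    linarith
  exact (h1.trans (mul_le_mul_of_nonneg_left (brw_mono (by norm_num) (by norm_num)
    (div_pos (hU.a x) (hU.a l.1)).le h3) (hBn j))).trans he

/-- Constants for the bound (b). -/
theorem exists_upB_const (Amp c : ℝ) : ∃ B : ℕ → ℝ, B 0 = 0 ∧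
    ∀ j, 4 * (Amp * B j + c) ≤ B (j + 1) :=
  ⟨fun j => Nat.rec 0 (fun _ b => 4 * (Amp * b + c)) j, rfl, fun _ => le_rfl⟩

end

end Pool.Agent.Lib.GSX
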