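import Pool.Agent.Lib.GSLE.Thin
import Pool.Agent.Lib.GSR.Srv

/-!
# The UP system: the first thin step (static form of G5)

`n1` is the node measure, `n2` the conditional measure of the node after the bits of the system,
`U` a property of the vertices which carries `n2` (the worlds after the bits).  A property which
holds on all of `U` has `n1`-mass at least `c0` (`mass_of_all`).

* `pay_side`: the payment functions are at most `Bu` on `U`;
* `score_side`: if the scale `A` of a step is at least `2 th a` on `U` then the score is large on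
  `U`;
* `last_side`: the scale of the last step is not at least `2 th a` on `U` (few light neighbours, no
  atoms);
* `first_thin`: there is a step `j` with `f j = 1` and `A j ≤ 2 th a` on `U`;
* `upL_thin`: the level-wise bound for the lower neighbours of the vertices of `U`.
-/

set_option autoImplicit false

open Finset Classical

namespace Pool.Agent.Lib.GSX.UpG5

open Pool.Agent.Lib.FGF (cm)
open Pool.Agent.Lib.GSLE (UpL upL_of_foc few_users markov_ge kp)

variable {V Λ : Type} [Fintype V] [Fintype Λ]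

/-- A property which holds on all of `U` has mass at least `c0`. -/
theorem mass_of_all {n1 n2 : V → ℝ} {c0 : ℝ} {U : V → Prop}
    (hn2s : ∑ x, n2 x = 1) (hn21 : ∀ x, c0 * n2 x ≤ n1 x)
    (hU : ∀ x, n2 x ≠ 0 → U x) (Q : V → Prop) [DecidablePred Q] (hQ : ∀ x, U x → Q x) :
    c0 ≤ ∑ x with Q x, n1 x := by
  calc c0 = ∑ x, c0 * n2 x := by rw [← Finset.mul_sum, hn2s, mul_one]
    _ = ∑ x with Q x, c0 * n2 x := by
        refine (Finset.sum_filter_of_ne fun x _ hx => hQ x (hU x ?_)).symm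
        exact right_ne_zero_of_mul hx
    _ ≤ ∑ x with Q x, n1 x := Finset.sum_le_sum fun x _ => hn21 x

/-- The payment functions are small on `U`. -/
theorem pay_side {n1 n2 : V → ℝ} {c0 : ℝ} {U : V → Prop}
    (hn1 : ∀ x, 0 ≤ n1 x) (hn2s : ∑ x, n2 x = 1) (hn21 : ∀ x, c0 * n2 x ≤ n1 x)
    (hU : ∀ x, n2 x ≠ 0 → U x) {g : V → ℝ} {Kg Bu : ℝ} (hg : ∀ x, 0 ≤ g x)
    (hgm : ∑ x, n1 x * g x ≤ Kg) (hBu : 0 < Bu) (hK : Kg < c0 * Bu)
    (hs : (∀ x, U x → g x ≤ Bu) ∨ ∀ x, U x → Bu ≤ g x) : ∀ x, U x → g x ≤ Bu := by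
  rcases hs with h | h
  · exact h
  · exfalso
    have h1 := mass_of_all hn2s hn21 hU (fun x => Bu ≤ g x) h
    have h2 := h1.trans (markov_ge hn1 hg hBu)
    rw [le_div_iff₀ hBu] at h2
    linarith

/-- The cost of a random label: the charges are at most `e1` at the typical nodes. -/
theorem cost_mean {n1 : V → ℝ} (hn1 : ∀ x, 0 ≤ n1 x) (hn1s : ∑ x, n1 x ≤ 1)
    {w : Λ → V → ℝ} (hw : ∀ l x, 0 ≤ w l x) (hw1 : ∀ x, ∑ l, w l x ≤ 1)
    {cc : Λ → V → ℝ} (hcc : ∀ l x, cc l x ≤ 1) {e1 : ℝ} (he1 : 0 ≤ e1)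
    (j : ℕ) {g : ℕ → V → ℝ} (hg : ∀ i < j, ∀ x, 0 ≤ g i x) {Kg Bu : ℝ} (hBu : 0 < Bu)
    (hgm : ∀ i < j, ∑ x, n1 x * g i x ≤ Kg)
    (hb : ∀ x, n1 x ≠ 0 → (∀ i < j, g i x ≤ Bu) → ∀ l, w l x ≠ 0 → cc l x ≤ e1) :
    ∑ x, n1 x * ∑ l, w l x * cc l x ≤ e1 + j * (Kg / Bu) := by
  -- the two kinds of nodes
  have h1 : ∀ x, n1 x * ∑ l, w l x * cc l x ≤
      e1 * n1 x + ∑ i ∈ Finset.range j, (if Bu ≤ g i x then n1 x else 0) := by
    intro x
    have h0 : 0 ≤ ∑ i ∈ Finset.range j, (if Bu ≤ g i x then n1 x else 0) :=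
      Finset.sum_nonneg fun i _ => by split_ifs; exacts [hn1 x, le_rfl]
    rcases eq_or_ne (n1 x) 0 with hx0 | hx0
    · have h6 : 0 ≤ e1 * n1 x := mul_nonneg he1 (hn1 x)
      have h7 : n1 x * ∑ l, w l x * cc l x = 0 := by rw [hx0, zero_mul]
      linarith
    by_cases hx : ∀ i < j, g i x ≤ Bu
    · have h2 : ∑ l, w l x * cc l x ≤ e1 := by
        calc ∑ l, w l x * cc l x ≤ ∑ l, w l x * e1 := by
              refine Finset.sum_le_sum fun l _ => ?_
              rcases eq_or_ne (w l x) 0 with h3 | h3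
              · rw [h3, zero_mul, zero_mul]
              · exact mul_le_mul_of_nonneg_left (hb x hx0 hx l h3) (hw l x)
          _ = (∑ l, w l x) * e1 := by rw [Finset.sum_mul]
          _ ≤ 1 * e1 := mul_le_mul_of_nonneg_right (hw1 x) he1
          _ = e1 := one_mul _
      calc n1 x * ∑ l, w l x * cc l x ≤ n1 x * e1 := mul_le_mul_of_nonneg_left h2 (hn1 x)
        _ = e1 * n1 x := mul_comm _ _
        _ ≤ _ := le_add_of_nonneg_right h0
    · push Not at hx
      obtain ⟨i, hi, hix⟩ := hx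
      have h2 : ∑ l, w l x * cc l x ≤ 1 := by
        refine le_trans (Finset.sum_le_sum fun l _ => ?_) (hw1 x)
        exact mul_le_of_le_one_right (hw l x) (hcc l x)
      have h3 : n1 x ≤ ∑ i ∈ Finset.range j, (if Bu ≤ g i x then n1 x else 0) := by
        have h4 := Finset.single_le_sum (f := fun i => if Bu ≤ g i x then n1 x else 0)
          (fun i _ => by
            show (0 : ℝ) ≤ if Bu ≤ g i x then n1 x else 0
            split_ifs
            exacts [hn1 x, le_rfl]) (Finset.mem_range.2 hi)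
        rwa [if_pos hix.le] at h4
      have h5 : n1 x * ∑ l, w l x * cc l x ≤ n1 x := mul_le_of_le_one_right (hn1 x) h2
      have h6 : 0 ≤ e1 * n1 x := mul_nonneg he1 (hn1 x)
      linarith
  refine (Finset.sum_le_sum fun x _ => h1 x).trans ?_
  rw [Finset.sum_add_distrib, ← Finset.mul_sum, Finset.sum_comm]
  have h2 : ∀ i ∈ Finset.range j, ∑ x, (if Bu ≤ g i x then n1 x else 0) ≤ Kg / Bu := by
    intro i hi
    have hi' := Finset.mem_range.1 hi
    rw [← Finset.sum_filter]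
    exact (markov_ge hn1 (hg i hi') hBu).trans (div_le_div_of_nonneg_right (hgm i hi') hBu.le)
  have h3 := Finset.sum_le_sum h2
  rw [Finset.sum_const, Finset.card_range, nsmul_eq_mul] at h3
  have h4 : e1 * ∑ x, n1 x ≤ e1 := mul_le_of_le_one_right he1 hn1s
  linarith

/-- The mean of the violations of a step. -/
theorem vio_mean {n1 : V → ℝ} {w P vio : Λ → V → ℝ} {sg : Λ → ℝ}
    (hsg : ∀ l, 0 ≤ sg l) (hsg1 : ∑ l, sg l ≤ 1) (hP : ∀ l x, n1 x * w l x = sg l * P l x)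
    {cc : Λ → V → ℝ} {δ Amp : ℝ} (hδ : 0 ≤ δ)
    (hstep : ∀ l, sg l ≠ 0 → ∑ x, P l x * vio l x ≤ δ + Amp * ∑ x, P l x * cc l x) :
    ∑ x, n1 x * ∑ l, w l x * vio l x ≤ δ + Amp * ∑ x, n1 x * ∑ l, w l x * cc l x := by
  have hswap : ∀ F : Λ → V → ℝ, ∑ x, n1 x * ∑ l, w l x * F l x = ∑ l, sg l * ∑ x, P l x * F l x := by
    intro F
    simp_rw [Finset.mul_sum]
    rw [Finset.sum_comm]
    refine Finset.sum_congr rfl fun l _ => Finset.sum_congr rfl fun x _ => ?_
    rw [← mul_assoc, ← mul_assoc, hP]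
  rw [hswap, hswap]
  calc ∑ l, sg l * ∑ x, P l x * vio l x
      ≤ ∑ l, (sg l * δ + Amp * (sg l * ∑ x, P l x * cc l x)) := by
        refine Finset.sum_le_sum fun l _ => ?_
        rcases eq_or_ne (sg l) 0 with h | h
        · rw [h]
          simp
        · have h1 := mul_le_mul_of_nonneg_left (hstep l h) (hsg l)
          linarith
    _ = (∑ l, sg l) * δ + Amp * ∑ l, sg l * ∑ x, P l x * cc l x := by
        rw [Finset.sum_add_distrib, Finset.sum_mul, Finset.mul_sum]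
    _ ≤ δ + Amp * ∑ l, sg l * ∑ x, P l x * cc l x := by
        have := mul_le_of_le_one_left hδ hsg1
        linarith

/-- **The score of a thick step is large on `U`.** -/
theorem score_side {n1 n2 a : V → ℝ} {c0 : ℝ} {U : V → Prop}
    (hn1 : ∀ x, 0 ≤ n1 x) (hn2s : ∑ x, n2 x = 1) (hn21 : ∀ x, c0 * n2 x ≤ n1 x)
    (hU : ∀ x, n2 x ≠ 0 → U x) (ha : ∀ x, 0 < a x)
    {w vio : Λ → V → ℝ} (hw : ∀ l x, 0 ≤ w l x) (hvio : ∀ l x, 0 ≤ vio l x)
    {A Sh : V → ℝ} {e : V → ℝ} {th : ℝ} (hth : 0 < th) (he : ∀ x, e x ≤ th * a x)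
    (hws : ∀ x, ∑ l, w l x = 1 - e x / A x)
    (hSh : ∀ x, Sh x = ∑ l, w l x * (1 - vio l x))
    {E : ℝ} (hE : ∑ x, n1 x * ∑ l, w l x * vio l x ≤ E) (hEc : E < c0 / 8)
    (hA : ∀ x, U x → 2 * th * a x ≤ A x)
    (hs : (∀ x, U x → Sh x ≤ 3 / 8) ∨ ∀ x, U x → 3 / 8 ≤ Sh x) : ∀ x, U x → 3 / 8 ≤ Sh x := by
  rcases hs with h | h
  · exfalso
    have h1 := mass_of_all hn2s hn21 hU (fun x => 1 / 8 ≤ ∑ l, w l x * vio l x) ?_
    · have h2 := h1.trans (markov_ge (f := fun x => ∑ l, w l x * vio l x) hn1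
        (fun x => Finset.sum_nonneg fun l _ => mul_nonneg (hw l x) (hvio l x))
        (by norm_num : (0 : ℝ) < 1 / 8))
      rw [le_div_iff₀ (by norm_num : (0 : ℝ) < 1 / 8)] at h2
      linarith
    · intro x hx
      have h3 : 0 < th * a x := mul_pos hth (ha x)
      have h4 := hA x hx
      have h5 : e x / A x ≤ 1 / 2 := by
        rw [div_le_iff₀ (by linarith)]
        linarith [he x]
      have h6 : ∑ l, w l x * vio l x = ∑ l, w l x - Sh x := by
        rw [hSh, ← Finset.sum_sub_distrib]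
        exact Finset.sum_congr rfl fun l _ => by ring
      show 1 / 8 ≤ ∑ l, w l x * vio l x
      rw [h6, hws]
      linarith [h x hx]
  · exact h

/-- **The scale of the last step is not large on `U`.** -/
theorem last_side {n1 n2 a : V → ℝ} {c0 : ℝ} {U : V → Prop}
    (hn2s : ∑ x, n2 x = 1) (hn21 : ∀ x, c0 * n2 x ≤ n1 x)
    (hU : ∀ x, n2 x ≠ 0 → U x)
    {q : V → Λ → ℝ} {sg : Λ → ℝ} (hsg : ∀ l, 0 ≤ sg l) (hsg1 : ∑ l, sg l ≤ 1)
    (hq0 : ∀ x l, 0 ≤ q x l) (hq1 : ∀ x l, q x l ≤ sg l) {A : V → ℝ} {e : V → ℝ} {th ξ D : ℝ} (hth : 0 < th) (hξ : 0 ≤ ξ)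
    (hD0 : 0 ≤ D) (he : ∀ x, e x ≤ th * a x) (hAe : ∀ x, A x = e x + ∑ l, q x l)
    (hat : ∀ x, n1 x ≤ ξ * a x) {T : V → Prop} [DecidablePred T] (hUT : ∀ x, U x → T x)
    (hD : ∀ l, sg l ≠ 0 → ((univ.filter fun x => T x ∧ q x l ≠ 0).card : ℝ) ≤ D)
    (hc : ξ * D / th < c0) (hA : ∀ x, U x → 2 * th * a x ≤ A x) : False := by
  set Y : Finset V := univ.filter fun x => T x ∧ 2 * th * a x ≤ A x with hY
  have h1 : c0 ≤ ∑ x ∈ Y, n1 x :=
    mass_of_all hn2s hn21 hU (fun x => T x ∧ 2 * th * a x ≤ A x)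
      fun x hx => ⟨hUT x hx, hA x hx⟩
  have h2 := few_users (n := n1) (a := a) (q := q) (π := sg) (Y := Y) hsg hq1 hth hξ
    (fun x _ => hat x) (fun x => univ.filter fun l => q x l ≠ 0) (D := D)
    (fun x hx => ?_) (fun l => ?_)
  · have h3 : ξ * D / th * ∑ l, sg l ≤ ξ * D / th :=
      mul_le_of_le_one_right (by positivity) hsg1
    linarith
  · rw [Finset.sum_filter_ne_zero]
    have h3 := (Finset.mem_filter.1 hx).2.2
    have h4 := hAe x
    linarith [he x]
  · rcases eq_or_ne (sg l) 0 with h3 | h3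
    · rw [Finset.card_eq_zero.2, Nat.cast_zero]
      · exact hD0
      · refine Finset.filter_eq_empty_iff.2 fun x _ hx => ?_
        have h4 := (Finset.mem_filter.1 hx).2
        exact h4 (le_antisymm ((hq1 x l).trans h3.le) (hq0 x l))
    · refine le_trans ?_ (hD l h3)
      norm_cast
      refine Finset.card_le_card fun x hx => ?_
      obtain ⟨h4, h5⟩ := Finset.mem_filter.1 hx
      exact Finset.mem_filter.2 ⟨Finset.mem_univ _, (Finset.mem_filter.1 h4).2.1,
        (Finset.mem_filter.1 h5).2⟩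

/-- **The first thin step.** -/
theorem first_thin {f A Sh : ℕ → V → ℝ} {a : V → ℝ} {th : ℝ} {h : ℕ} {U : V → Prop}
    (hh : 1 ≤ h) (hf0 : ∀ x, f 0 x = 1)
    (hf : ∀ j x, f j x = 1 → 2 * th * a x ≤ A j x → 3 / 8 ≤ Sh j x → f (j + 1) x = 1)
    (hsA : ∀ j < h, (∀ x, U x → A j x ≤ 2 * th * a x) ∨ ∀ x, U x → 2 * th * a x ≤ A j x)
    (hstep : ∀ j, j + 1 < h → (∀ x, U x → 2 * th * a x ≤ A j x) → ∀ x, U x → 3 / 8 ≤ Sh j x)
    (hlast : ∀ j, j + 1 = h → ¬ ∀ x, U x → 2 * th * a x ≤ A j x) :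
    ∃ j < h, (∀ x, U x → f j x = 1) ∧ ∀ x, U x → A j x ≤ 2 * th * a x := by
  have hex : ∃ j, j < h ∧ ∀ x, U x → A j x ≤ 2 * th * a x := by
    refine ⟨h - 1, by omega, ?_⟩
    rcases hsA (h - 1) (by omega) with h1 | h1
    · exact h1
    · exact absurd h1 (hlast (h - 1) (by omega))
  have hmin : ∀ i < Nat.find hex, ∀ x, U x → 2 * th * a x ≤ A i x := by
    intro i hi
    have h1 := Nat.find_min hex hi
    have h2 : i < h := hi.trans (Nat.find_spec hex).1
    rcases hsA i h2 with h3 | h3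
    · exact absurd ⟨h2, h3⟩ h1
    · exact h3
  refine ⟨Nat.find hex, (Nat.find_spec hex).1, ?_, (Nat.find_spec hex).2⟩
  have key : ∀ i ≤ Nat.find hex, ∀ x, U x → f i x = 1 := by
    intro i
    induction i with
    | zero => exact fun _ x _ => hf0 x
    | succ i ih =>
      intro hi x hx
      have h1 := hmin i (by omega)
      have h2 : i + 1 < h := lt_of_le_of_lt hi (Nat.find_spec hex).1
      exact hf i x (ih (by omega) x hx) (h1 x hx) (hstep i h2 h1 x hx)
  exact key _ le_rfl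

end Pool.Agent.Lib.GSX.UpG5
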