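import Pool.Agent.Lib.GSX.BestU
import Pool.Agent.Lib.GSX.UpG5
import Pool.Agent.Lib.GSR.Ends

/-!
# The UP system: the first thin step (G5)

* `upL_step`: the level-wise bound for the lower neighbours of a vertex `z` with weight one;
* `last_step`: in the last step the scale is not large on all of `Wp`;
* `score_step`: the score of a thick step is large on `Wp`;
* `stop`: there is a step with weight one and scale at most `2 th a` on `Wp`, so `UpL` holds.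

`Wp` is a property of the vertices which carries the law `n2` of the node after the bits of the
system, and on which the sides of the system are homogeneous.
-/

set_option autoImplicit false

open Finset Classical

namespace Pool.Agent.Lib.GSX.UpI_

open Pool.Agent.Lib.GSR3 (Tree)
open Pool.Agent.Lib.FGF (cm)
open Pool.Agent.Lib.GSLE (UpL upL_of_foc kp kp_nonneg)
open Pool.Agent.Lib.GSR (vioC LawOn card_light)
open UpV_

variable {V : Type} [Fintype V] {I0 : ℕ} {G : SimpleGraph V} {U : UpI V I0} {j : ℕ} {X : UpS V}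

/-- **The UP bound**: `z` has the weight one, the measure `n2` lives where the scale of the step is
at most `2 th a`. -/
theorem upL_step (hU : UpPos U) (hX : UpSP X) (hn1 : ∑ x, U.n x ≤ 1)
    (ha1 : ∀ x, (1 / 2 : ℝ) ^ I0 ≤ U.a x) (ha2 : ∀ x, U.a x < 2)
    {S : Finset (V × Fin (I0 + 1))} (hsg : U.sg j ∈ LawOn S)
    (hmax : ∀ q ∈ LawOn S, upLog G U X q ≤ upLog G U X (U.sg j))
    {n2 : V → ℝ} {B : ℝ} (hB : 0 ≤ B) (hle : ∀ x, n2 x ≤ B * U.n x)
    (hstop : ∀ x, n2 x ≠ 0 → upA G U j X x ≤ 2 * U.th * U.a x)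
    {z : V} (hz : z ∈ U.W) (hzS : ∀ i, (z, i) ∈ S) (hfz : X.f z = 1) :
    UpL G n2 U.a (2 * U.Gam) (B * (2 * U.th) * √2) z := by
  have hGam := hU.Gam
  have ha := hU.a
  have h := upL_of_foc (G := G) (n := U.n) (a := U.a) (Λ := V × Fin (I0 + 1))
    (c := fun x l => (if G.Adj x l.1 ∧ l.1 ∈ U.W then 1 else 0) * X.f l.1 *
      rp (U.a l.1 / (U.Gam * U.a x) - 1))
    (b := fun l => lv l.2) (A' := upA G U j X) (n'' := n2) hU.n (upA_pos hU hX)
    (fun x l => ?_) ha (K := I0)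
    (fun k => (z, (⟨min k I0, by omega⟩ : Fin (I0 + 1)))) (Γ := 2 * U.Gam) (z := z)
    (fun k hk x hx hxz => ?_) (fun k hk => ?_) (Δ := 1) (B := B) (th := 2 * U.th)
    (fun k hk => ?_) hB (by linarith [hU.th]) hle hstop ha1 ha2
  · rwa [mul_one] at h
  · refine mul_nonneg (mul_nonneg ?_ (hX.f0 _)) (rp_nonneg _)
    split_ifs
    exacts [zero_le_one, le_rfl]
  · have h2 : 1 ≤ U.a z / (U.Gam * U.a x) - 1 := by
      rw [le_sub_iff_add_le, le_div_iff₀ (mul_pos hGam (ha x))]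
      linarith
    show 1 ≤ (if G.Adj x z ∧ z ∈ U.W then 1 else 0) * X.f z * rp (U.a z / (U.Gam * U.a x) - 1)
    rw [rp_eq_one h2, hfz, if_pos ⟨hx.symm, hz⟩]
    norm_num
  · show lv (min k I0) = (1 / 2 : ℝ) ^ k
    rw [min_eq_left hk]
    rfl
  · have h1 := (BestU_.foc_le_mass (j := j) hU hX hsg hmax
      (hzS (⟨min k I0, by omega⟩ : Fin (I0 + 1)))).trans hn1
    refine le_trans (le_of_eq (Finset.sum_congr rfl fun x _ => ?_)) h1
    unfold upq upK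
    simp only
    ring

/-- **The last step**: the scale is not large on all of `Wp`. -/
theorem last_step (hU : UpPos U) (hX : UpSP X) (hM : 1 ≤ U.M)
    (hsg1 : ∑ l, U.sg j l ≤ 1) {κ : ℕ} (col : V → V → Fin κ)
    (hcol : ∀ v u w, G.Adj v u → G.Adj v w → G.Adj u w → col v u ≠ col v w)
    (hval : ∀ y, X.f y ≠ 0 → vioC G U.M 1 y (cm G (X.m y)) U.W = 0)
    {T : V → Prop} [DecidablePred T] (hTW : ∀ x, T x → x ∈ U.W) {e1 : ℝ} (he1 : U.M * e1 < 1)
    (hb : ∀ x, T x → ∀ l, X.f l.1 ≠ 0 → upK G U x l ≠ 0 → cm G (X.m l.1) x ≤ e1)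
    {n2 : V → ℝ} {c0 : ℝ} {Wp : V → Prop} (hn2s : ∑ x, n2 x = 1)
    (hn21 : ∀ x, c0 * n2 x ≤ U.n x) (hWp : ∀ x, n2 x ≠ 0 → Wp x) (hWT : ∀ x, Wp x → T x)
    (hee : ∀ x, U.e ≤ U.th * U.a x) {ξ : ℝ} (hξ : 0 ≤ ξ) (hat : ∀ x, U.n x ≤ ξ * U.a x)
    (hc : ξ * (κ * U.M) / U.th < c0) :
    ¬ ∀ x, Wp x → 2 * U.th * U.a x ≤ upA G U j X x := by
  intro hA
  refine UpG5.last_side (n1 := U.n) (a := U.a) (q := fun x l => U.sg j l * X.f l.1 * upK G U x l)
    (sg := U.sg j) (e := fun _ => U.e) (A := upA G U j X) (D := κ * U.M) (T := T) hn2s hn21 hWp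
    (hU.sg j) hsg1 (fun x l => term_nonneg hU hX x l) (fun x l => ?_) hU.th hξ (by positivity) hee
    (fun x => rfl) hat hWT (fun l hl => ?_) hc hA
  · have h1 : U.sg j l * X.f l.1 ≤ U.sg j l := mul_le_of_le_one_right (hU.sg j l) (hX.f1 _)
    exact (mul_le_of_le_one_right (mul_nonneg (hU.sg j l) (hX.f0 _)) (upK_le_one x l)).trans h1
  · rcases eq_or_ne (X.f l.1) 0 with h0 | h0
    · rw [Finset.card_eq_zero.2, Nat.cast_zero]
      · positivity
      · refine Finset.filter_eq_empty_iff.2 fun x _ hx => ?_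
        exact hx.2 (by rw [h0, mul_zero, zero_mul])
    · have h1 := card_light (G := G) (L := U.W) (v := l.1) (g := cm G (X.m l.1)) (a := 0) (c := e1)
        hM (cm_nonneg' (hX.m l.1)) (col l.1) (hcol l.1) (hval _ h0).le (by linarith)
      refine le_trans ?_ (by exact_mod_cast h1 : (((U.W.filter fun x =>
        G.Adj l.1 x ∧ cm G (X.m l.1) x ≤ e1).card : ℕ) : ℝ) ≤ κ * U.M)
      norm_cast
      refine Finset.card_le_card fun x hx => ?_
      obtain ⟨-, h2, h3⟩ := Finset.mem_filter.1 hx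
      have h4 : upK G U x l ≠ 0 := right_ne_zero_of_mul h3
      exact Finset.mem_filter.2 ⟨hTW x h2, (upK_ne h4).1.symm, hb x h2 l h0 h4⟩

/-- **The score of a thick step.** -/
theorem score_step (hU : UpPos U) (hX : UpSP X) (hn1 : ∑ x, U.n x ≤ 1)
    (hsg1 : ∑ l, U.sg j l ≤ 1) {δ e1 : ℝ} (hδ : 0 ≤ δ) (he1 : 0 ≤ e1)
    (hstep : ∀ l, U.sg j l ≠ 0 → X.f l.1 ≠ 0 →
      ∑ x, upq G U j X l x * upv G U j X l (U.su j l) x ≤
        δ + U.Amp * ∑ x, upq G U j X l x * min 1 (cm G (X.m l.1) x))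
    {g : ℕ → V → ℝ} (hg : ∀ i < j, ∀ x, 0 ≤ g i x) {Kg Bu : ℝ} (hBu : 0 < Bu)
    (hgm : ∀ i < j, ∑ x, U.n x * g i x ≤ Kg)
    (hb : ∀ x, U.n x ≠ 0 → (∀ i < j, g i x ≤ Bu) → ∀ l, X.f l.1 ≠ 0 → upK G U x l ≠ 0 →
      cm G (X.m l.1) x ≤ e1)
    {n2 : V → ℝ} {c0 : ℝ} {Wp : V → Prop} (hn2s : ∑ x, n2 x = 1)
    (hn21 : ∀ x, c0 * n2 x ≤ U.n x) (hWp : ∀ x, n2 x ≠ 0 → Wp x)
    (hee : ∀ x, U.e ≤ U.th * U.a x) (hc : δ + U.Amp * (e1 + j * (Kg / Bu)) < c0 / 8)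
    (hs : (∀ x, Wp x → upSh G U j X x ≤ 3 / 8) ∨ ∀ x, Wp x → 3 / 8 ≤ upSh G U j X x)
    (hA : ∀ x, Wp x → 2 * U.th * U.a x ≤ upA G U j X x) :
    ∀ x, Wp x → 3 / 8 ≤ upSh G U j X x := by
  have h1 : ∑ x, U.n x * ∑ l, upw G U j X x l * min 1 (cm G (X.m l.1) x) ≤
      e1 + j * (Kg / Bu) := by
    refine UpG5.cost_mean (n1 := U.n) (w := fun l x => upw G U j X x l) hU.n hn1
      (fun l x => upw_nonneg hU hX x l) (fun x => sum_upw_le hU hX x)
      (cc := fun l x => min 1 (cm G (X.m l.1) x)) (fun l x => min_le_left _ _) he1 j hg hBu hgm ?_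
    intro x hx0 hx l hl
    obtain ⟨-, h2, h3⟩ := upw_ne hl
    exact (min_le_right _ _).trans (hb x hx0 hx l h2 h3)
  have h2 : ∑ x, U.n x * ∑ l, upw G U j X x l * upv G U j X l (U.su j l) x ≤
      δ + U.Amp * ∑ x, U.n x * ∑ l, upw G U j X x l * min 1 (cm G (X.m l.1) x) := by
    refine UpG5.vio_mean (n1 := U.n) (w := fun l x => upw G U j X x l)
      (P := fun l x => upq G U j X l x) (vio := fun l x => upv G U j X l (U.su j l) x)
      (cc := fun l x => min 1 (cm G (X.m l.1) x)) (hU.sg j) hsg1 (fun l x => n_upw x l) hδ ?_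
    intro l hl
    rcases eq_or_ne (X.f l.1) 0 with h0 | h0
    · have h3 : ∀ x, upq G U j X l x = 0 := by
        intro x
        by_contra h
        exact (upq_ne h).2.1 h0
      simp only [h3, zero_mul, Finset.sum_const_zero, mul_zero, add_zero]
      exact hδ
    · exact hstep l hl h0
  have h3 := h2.trans (add_le_add_right (mul_le_mul_of_nonneg_left h1 hU.Amp) δ)
  exact UpG5.score_side (n1 := U.n) (a := U.a) (w := fun l x => upw G U j X x l)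
    (vio := fun l x => upv G U j X l (U.su j l) x) (e := fun _ => U.e) hU.n hn2s hn21 hWp hU.a
    (fun l x => upw_nonneg hU hX x l) (fun l x => upv_nonneg l _ x) hU.th hee
    (fun x => sum_upw hU hX x) (fun x => rfl) h3 hc hA hs

/-- The payment functions are not negative. -/
theorem upg_nonneg (hU : UpPos U) (hX : UpSP X) (u : V) : 0 ≤ upg G U j X u := by
  refine Finset.sum_nonneg fun l _ => mul_nonneg (mul_nonneg (hU.sg j l) (hX.f0 _))
    (mul_nonneg (Real.sqrt_nonneg _) (div_nonneg ?_ (hU.a u).le))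
  exact cm_nonneg' (upR_nonneg hU hX l (hU.su j l)) u

/-- **The first thin step (G5)**: there is a step with weight one and scale at most `2 th a` on
`Wp`. -/
theorem stop (hU : UpPos U) (hh : 1 ≤ U.h) (hM : 1 ≤ U.M)
    (hT : ∀ φ : List (Fin U.M) → V, ¬ Tree G U.h U.M φ)
    (hn1 : ∑ x, U.n x ≤ 1) (hnW : ∀ x, U.n x ≠ 0 → x ∈ U.W)
    (hsg1 : ∀ j < U.h, ∑ l, U.sg j l ≤ 1)
    {κ : ℕ} (col : V → V → Fin κ)
    (hcol : ∀ v u w, G.Adj v u → G.Adj v w → G.Adj u w → col v u ≠ col v w)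
    {δ e1 Kg Bu ξ c0 : ℝ} (hδ : 0 ≤ δ) (he1 : 0 ≤ e1) (hBu : 0 < Bu) (hξ : 0 ≤ ξ)
    (hee : ∀ x, U.e ≤ U.th * U.a x) (hat : ∀ x, U.n x ≤ ξ * U.a x)
    -- the charges at the typical nodes, the steps and the payments
    (hb : ∀ j < U.h, ∀ x ∈ U.W, (∀ i < j, upg G U i (ups G U i) x ≤ Bu) →
      ∀ l, (ups G U j).f l.1 ≠ 0 → upK G U x l ≠ 0 → cm G ((ups G U j).m l.1) x ≤ e1)
    (hstep : ∀ j, j + 1 < U.h → ∀ l, U.sg j l ≠ 0 → (ups G U j).f l.1 ≠ 0 →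
      ∑ x, upq G U j (ups G U j) l x * upv G U j (ups G U j) l (U.su j l) x ≤
        δ + U.Amp * ∑ x, upq G U j (ups G U j) l x * min 1 (cm G ((ups G U j).m l.1) x))
    (hpay : ∀ j < U.h, ∑ x, U.n x * upg G U j (ups G U j) x ≤ Kg)
    -- the constants
    (hc1 : Kg < c0 * Bu) (hc2 : δ + U.Amp * (e1 + U.h * (Kg / Bu)) < c0 / 8)
    (hc3 : U.M * e1 < 1) (hc4 : ξ * (κ * U.M) / U.th < c0)
    -- the law after the bits, the sides
    {n2 : V → ℝ} {Wp : V → Prop} (hn2s : ∑ x, n2 x = 1)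
    (hn21 : ∀ x, c0 * n2 x ≤ U.n x) (hWp : ∀ x, n2 x ≠ 0 → Wp x) (hWW : ∀ x, Wp x → x ∈ U.W)
    (hsA : ∀ j < U.h, (∀ x, Wp x → upA G U j (ups G U j) x ≤ 2 * U.th * U.a x) ∨
      ∀ x, Wp x → 2 * U.th * U.a x ≤ upA G U j (ups G U j) x)
    (hsS : ∀ j < U.h, (∀ x, Wp x → upSh G U j (ups G U j) x ≤ 3 / 8) ∨
      ∀ x, Wp x → 3 / 8 ≤ upSh G U j (ups G U j) x)
    (hsg : ∀ j < U.h, (∀ x, Wp x → upg G U j (ups G U j) x ≤ Bu) ∨
      ∀ x, Wp x → Bu ≤ upg G U j (ups G U j) x) :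
    ∃ j < U.h, (∀ x, Wp x → (ups G U j).f x = 1) ∧
      ∀ x, Wp x → upA G U j (ups G U j) x ≤ 2 * U.th * U.a x := by
  have hK0 : 0 ≤ Kg := by
    refine le_trans ?_ (hpay 0 hh)
    exact Finset.sum_nonneg fun x _ => mul_nonneg (hU.n x) (upg_nonneg hU (ups_sp hU 0) x)
  have hg : ∀ j < U.h, ∀ x, Wp x → upg G U j (ups G U j) x ≤ Bu := fun j hj =>
    UpG5.pay_side hU.n hn2s hn21 hWp (fun x => upg_nonneg hU (ups_sp hU j) x) (hpay j hj) hBu hc1
      (hsg j hj)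
  have hrec : ∀ j x, (ups G U j).f x = 1 → 2 * U.th * U.a x ≤ upA G U j (ups G U j) x →
      3 / 8 ≤ upSh G U j (ups G U j) x → (ups G U (j + 1)).f x = 1 := by
    intro j x h1 h2 h3
    have h4 : 0 < U.th * U.a x := mul_pos hU.th (hU.a x)
    rw [f_succ, h1, rp_eq_one, rp_eq_one]
    · norm_num
    · linarith
    · have : 2 ≤ upA G U j (ups G U j) x / (U.th * U.a x) := by
        rw [le_div_iff₀ h4]
        linarith
      linarith
  refine UpG5.first_thin (f := fun j => (ups G U j).f) (A := fun j => upA G U j (ups G U j))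
    (Sh := fun j => upSh G U j (ups G U j)) (a := U.a) (th := U.th) hh (fun x => rfl) hrec hsA
    (fun j hj hA => ?_) (fun j hj => ?_)
  · refine score_step hU (ups_sp hU j) hn1 (hsg1 j (by omega)) hδ he1 (hstep j hj)
      (g := fun i => upg G U i (ups G U i)) (fun i _ x => upg_nonneg hU (ups_sp hU i) x) hBu
      (Kg := Kg) (fun i hi => hpay i (by omega))
      (fun x hx0 hx l h1 h2 => hb j (by omega) x (hnW x hx0) hx l h1 h2) hn2s hn21 hWp hee ?_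
      (hsS j (by omega)) hA
    refine lt_of_le_of_lt ?_ hc2
    have h1 : (j : ℝ) ≤ U.h := by exact_mod_cast (by omega : j ≤ U.h)
    have h2 : 0 ≤ Kg / Bu := div_nonneg hK0 hBu.le
    have h3 := mul_le_mul_of_nonneg_right h1 h2
    have h4 := mul_le_mul_of_nonneg_left (add_le_add_right h3 e1) hU.Amp
    linarith
  · refine last_step hU (ups_sp hU j) hM (hsg1 j (by omega)) col hcol (fun y hy => ?_)
      (T := fun x => x ∈ U.W ∧ ∀ i < j, upg G U i (ups G U i) x ≤ Bu) (fun x hx => hx.1) hc3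
      (fun x hx l h1 h2 => hb j (by omega) x hx.1 hx.2 l h1 h2) hn2s hn21 hWp
      (fun x hx => ⟨hWW x hx, fun i hi => hg i (by omega) x hx⟩) hee hξ hat hc4
    have h1 := valid hU hT j y hy
    rwa [show U.h - j = 1 by omega] at h1

/-- **The UP bound (G5)**. -/
theorem upL_of_stop (hU : UpPos U) (hn1 : ∑ x, U.n x ≤ 1)
    (ha1 : ∀ x, (1 / 2 : ℝ) ^ I0 ≤ U.a x) (ha2 : ∀ x, U.a x < 2)
    {S : Finset (V × Fin (I0 + 1))} (hS : ∀ z ∈ U.W, ∀ i, (z, i) ∈ S)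
    (hsg : ∀ j < U.h, U.sg j ∈ LawOn S)
    (hmax : ∀ j < U.h, ∀ q ∈ LawOn S,
      upLog G U (ups G U j) q ≤ upLog G U (ups G U j) (U.sg j))
    {n2 : V → ℝ} {Wp : V → Prop} {c0 : ℝ} (hc0 : 0 < c0)
    (hn21 : ∀ x, c0 * n2 x ≤ U.n x) (hWp : ∀ x, n2 x ≠ 0 → Wp x) (hWW : ∀ x, Wp x → x ∈ U.W)
    (h : ∃ j < U.h, (∀ x, Wp x → (ups G U j).f x = 1) ∧
      ∀ x, Wp x → upA G U j (ups G U j) x ≤ 2 * U.th * U.a x) :
    ∀ z, Wp z → UpL G n2 U.a (2 * U.Gam) (c0⁻¹ * (2 * U.th) * √2) z := by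
  obtain ⟨j, hj, h1, h2⟩ := h
  intro z hz
  refine upL_step hU (ups_sp hU j) hn1 ha1 ha2 (hsg j hj) (hmax j hj) (inv_nonneg.2 hc0.le)
    (fun x => ?_) (fun x hx => h2 x (hWp x hx)) (hWW z hz) (hS z (hWW z hz)) (h1 z hz)
  rw [← div_eq_inv_mul, le_div_iff₀ hc0, mul_comm]
  exact hn21 x

end Pool.Agent.Lib.GSX.UpI_
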