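import Pool.Agent.Lib.GSX.UpD
import Pool.Agent.Lib.GSX.PayI

/-!
# The mean of the payment function of the UP system

The payers of a label `l` of the law `sg j` are vertices of the world, their mass is at most
`1 + Lu + Q / eu`, where `Q` bounds the own mass of the labels.
-/

set_option autoImplicit false

namespace Pool.Agent.Lib.GSX

open Finset Classical
open Pool.Agent.Lib.FGF (cm)
open Pool.Agent.Lib.GSLE (kp kp_nonneg kp_le_one cl_nonneg)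
open Pool.Agent.Lib.GSR (vioC)

namespace UpP_

section

variable {V : Type} [Fintype V] {I0 : ℕ} {G : SimpleGraph V} {U : UpI V I0} {j : ℕ} {X : UpS V}

omit [Fintype V] in
lemma upK_nonneg (x : V) (l : V × Fin (I0 + 1)) : 0 ≤ upK G U x l := by
  unfold upK
  refine mul_nonneg (mul_nonneg ?_ (kp_nonneg _)) (PayI_.rp_nonneg _)
  split_ifs <;> norm_num

omit [Fintype V] in
lemma upK_le_one (x : V) (l : V × Fin (I0 + 1)) : upK G U x l ≤ 1 := by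
  unfold upK
  refine mul_le_one₀ (mul_le_one₀ ?_ (kp_nonneg _) (kp_le_one _)) (PayI_.rp_nonneg _)
    (PayI_.rp_le_one _)
  split_ifs <;> norm_num

omit [Fintype V] in
lemma upK_ne {x : V} {l : V × Fin (I0 + 1)} (h : upK G U x l ≠ 0) :
    G.Adj x l.1 ∧ l.1 ∈ U.W := by
  by_contra h1
  apply h
  unfold upK
  rw [if_neg h1, zero_mul, zero_mul]

lemma upA_pos (he : 0 < U.e) (hs : ∀ l, 0 ≤ U.sg j l) (hf : ∀ z, 0 ≤ X.f z) (x : V) :
    0 < upA G U j X x :=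
  add_pos_of_pos_of_nonneg he (Finset.sum_nonneg fun l _ =>
    mul_nonneg (mul_nonneg (hs l) (hf l.1)) (upK_nonneg x l))

lemma upq_nonneg (he : 0 < U.e) (hs : ∀ l, 0 ≤ U.sg j l) (hf : ∀ z, 0 ≤ X.f z)
    (hn : ∀ x, 0 ≤ U.n x) (l : V × Fin (I0 + 1)) (x : V) : 0 ≤ upq G U j X l x :=
  div_nonneg (mul_nonneg (mul_nonneg (hn x) (hf l.1)) (upK_nonneg x l)) (upA_pos he hs hf x).le

lemma upq_ne {l : V × Fin (I0 + 1)} {x : V} (h : upq G U j X l x ≠ 0) : U.n x ≠ 0 := by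
  intro h1
  apply h
  unfold upq
  rw [h1, zero_mul, zero_mul, zero_div]

lemma upR_nonneg (he : 0 < U.e) (hs : ∀ l, 0 ≤ U.sg j l) (hf : ∀ z, 0 ≤ X.f z)
    (hn : ∀ x, 0 ≤ U.n x) (heta : 0 < U.eta) {l : V × Fin (I0 + 1)} {lam : V → ℝ}
    (hl : ∀ u, 0 ≤ lam u) (u : V) : 0 ≤ upR G U j X l lam u := by
  unfold upR
  have h6 := upq_nonneg (G := G) (j := j) he hs hf hn l u
  have h7 := hl u
  split_ifs <;> positivity

/-- The mass of the payers. -/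
lemma sum_upR_le (heta : 0 < U.eta) {l : V × Fin (I0 + 1)} {lam : V → ℝ} {L Q : ℝ}
    (hl : ∑ u, lam u ≤ L) (hQ : ∑ x, upq G U j X l x ≤ Q) :
    ∑ u, upR G U j X l lam u ≤ 1 + L + Q / U.eta := by
  unfold upR
  rw [Finset.sum_add_distrib, Finset.sum_add_distrib, ← Finset.sum_div,
    Finset.sum_ite_eq' Finset.univ l.1, if_pos (Finset.mem_univ _)]
  have h6 := div_le_div_of_nonneg_right hQ heta.le
  linarith

/-- The payers are vertices of the world. -/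
lemma upR_ne {l : V × Fin (I0 + 1)} {lam : V → ℝ} {u : V} {W : Finset V} (h1 : l.1 ∈ W)
    (h2 : ∀ u, lam u ≠ 0 → u ∈ W) (h3 : ∀ u, U.n u ≠ 0 → u ∈ W)
    (h : upR G U j X l lam u ≠ 0) : u ∈ W := by
  by_contra hu
  apply h
  unfold upR
  have h6 : u ≠ l.1 := fun h => hu (h ▸ h1)
  have h7 : lam u = 0 := by
    by_contra h
    exact hu (h2 u h)
  have h8 : upq G U j X l u = 0 := by
    by_contra h
    exact hu (h3 u (upq_ne h))
  rw [if_neg h6, h7, h8, zero_div, add_zero, add_zero]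

/-- The hub weights are in `[0, 1]`. -/
lemma ups_f_nonneg : ∀ (j : ℕ) (z : V), 0 ≤ (ups G U j).f z
  | 0, _ => by simp [ups]
  | j + 1, z => by
    show 0 ≤ (ups G U j).f z * _ * _
    exact mul_nonneg (mul_nonneg (ups_f_nonneg j z) (PayI_.rp_nonneg _)) (PayI_.rp_nonneg _)

lemma ups_f_le_one : ∀ (j : ℕ) (z : V), (ups G U j).f z ≤ 1
  | 0, _ => by simp [ups]
  | j + 1, z => by
    show (ups G U j).f z * _ * _ ≤ 1
    exact mul_le_one₀ (mul_le_one₀ (ups_f_le_one j z) (PayI_.rp_nonneg _) (PayI_.rp_le_one _))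
      (PayI_.rp_nonneg _) (PayI_.rp_le_one _)

end

end UpP_

section

variable {V : Type} [Fintype V] {P : Cn} {G : SimpleGraph V} {I : Inp P V} {b : Fin 2} {j : ℕ}
  {X : UpS V}

/-- **The mean of the payment function of the UP system** (any law `n` with bounded level
masses). -/
theorem upg_mean {n : V → ℝ} (hn : ∀ x, 0 ≤ n x) {K : ℝ} (hK : 0 ≤ K)
    (h1 : ∀ x, n x ≠ 0 → lv P.I0 ≤ al P G I x) (h2 : ∀ x, n x ≠ 0 → al P G I x ≤ 2)
    (hD : ∀ v ∈ I.W, ∀ i, Db P G I n i v ≤ K) (he : 0 < P.e0) (hth : 0 < P.th b)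
    (hs0 : ∀ l, 0 ≤ I.sg b j l) (hs1 : ∑ l, I.sg b j l ≤ 1)
    (hsW : ∀ l, I.sg b j l ≠ 0 → l.1 ∈ I.W) (hf0 : ∀ z, 0 ≤ X.f z) (hf1 : ∀ z, X.f z ≤ 1)
    (hn1 : ∀ x, 0 ≤ I.n1 x) (hn1W : ∀ x, I.n1 x ≠ 0 → x ∈ I.W) (heta : 0 < P.eu b)
    (hL : 0 ≤ P.Lu b) (hsu0 : ∀ l u, 0 ≤ I.su b j l u)
    (hsuW : ∀ l u, I.su b j l u ≠ 0 → u ∈ I.W) (hsu1 : ∀ l, ∑ u, I.su b j l u ≤ P.Lu b)
    {Q : ℝ} (hQ0 : 0 ≤ Q)
    (hQ : ∀ l, I.sg b j l * X.f l.1 ≠ 0 → ∑ x, upq G (upi P G I b) j X l x ≤ Q) :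
    ∑ u, n u * upg G (upi P G I b) j X u ≤ PayI_.cPay * K * (1 + P.Lu b + Q / P.eu b) := by
  have hc := PayI_.cPay_pos
  have hE0 : 0 ≤ 1 + P.Lu b + Q / P.eu b := by positivity
  have he' : 0 < (upi P G I b).e := half_pos (mul_pos he hth)
  have h5 := PayI_.mean_gen (Lb := Ml P V) (ρ := fun l => I.sg b j l * X.f l.1)
    (i := fun l => (l.2 : ℕ)) (R := fun l => upR G (upi P G I b) j X l (I.su b j l))
    (E := 1 + P.Lu b + Q / P.eu b) hn hK h1 h2 (fun l => mul_nonneg (hs0 l) (hf0 l.1)) ?_ ?_ ?_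
  · refine h5.trans (mul_le_mul_of_nonneg_left ?_ (mul_nonneg hc.le hK))
    refine mul_le_of_le_one_right hE0 (le_trans (Finset.sum_le_sum fun l _ => ?_) hs1)
    exact mul_le_of_le_one_right (hs0 l) (hf1 l.1)
  · exact fun l u => UpP_.upR_nonneg he' hs0 hf0 hn1 heta (hsu0 l) u
  · intro l v hl hv i
    exact hD v (UpP_.upR_ne (hsW l fun h => hl (by rw [h, zero_mul])) (hsuW l) hn1W hv) i
  · exact fun l hl => UpP_.sum_upR_le heta (hsu1 l) (hQ l hl)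

end

end Pool.Agent.Lib.GSX
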