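import Pool.Agent.Lib.GSX.UpI
import Pool.Agent.Lib.GSX.UpP
import Pool.Agent.Lib.GSX.UpB
import Pool.Agent.Lib.GSX.LvG
import Pool.Agent.Lib.GSX.Rk

/-!
# The UP systems of one record (G5)

`UpC P b κ c0 δ e1 B` are the inequalities between the constants of the UP system `b`.
`upL_rec`: for a record with best replies, and with homogeneous sides on a property `Wp` which
carries the law `n2`, the lower neighbours of every vertex of `Wp` have level-wise small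
`n2 / al`-mass.
-/

set_option autoImplicit false

open Finset Classical

namespace Pool.Agent.Lib.GSX

open Pool.Agent.Lib.GSR3 (Tree)
open Pool.Agent.Lib.FGF (cm)
open Pool.Agent.Lib.GSLE (UpL brw)
open Pool.Agent.Lib.GSR (vioC LawOn OwnK)

/-- The constants of the UP system `b`: `κ` colours, `c0` the mass of typical prefixes, `δ` the
accuracy of the root laws, `e1` the bound of the charges at the own nodes, `B` the bounds of the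
masters. -/
structure UpC (P : Cn) (b : Fin 2) (κ : ℕ) (c0 δ e1 : ℝ) (B : ℕ → ℝ) : Prop where
  c0pos : 0 < c0
  h : 1 ≤ P.h
  M : 1 ≤ P.M
  th : 0 < P.th b
  Gu : 1 ≤ P.Gu b
  eu : 0 < P.eu b
  Au : 0 ≤ P.Au b
  Lu : 0 ≤ P.Lu b
  Bu : 0 < P.Bu b
  xi2 : 0 ≤ P.xi2
  d : 0 ≤ δ
  e1n : 0 ≤ e1
  root : ∀ j, 1 ≤ j → j < P.h → RootC P.M j κ δ (P.Au b) (P.Lu b) (P.eu b)
  B0 : 0 ≤ B 0
  Bs : ∀ j, 4 * (P.Au b * B j + P.Bu b / P.th b) ≤ B (j + 1)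
  Be : ∀ j < P.h, B j * brw (1 / 4) (1 / P.Gu b) ≤ e1
  i1 : PayI_.cPay * (4 * c0⁻¹) * (1 + P.Lu b + 1 / P.eu b) < c0 * P.Bu b
  i2 : δ + P.Au b * (e1 + P.h * (PayI_.cPay * (4 * c0⁻¹) * (1 + P.Lu b + 1 / P.eu b) / P.Bu b)) <
    c0 / 8
  i3 : P.M * e1 < 1
  i4 : P.xi2 / c0 * (κ * P.M) / P.th b < c0

namespace UpR_

section

variable {V : Type} [Fintype V] {I0 : ℕ} {G : SimpleGraph V} {U : UpI V I0} {j : ℕ} {X : UpS V}

/-- **The own step of a label of the UP system.** -/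
theorem own_step (hU : UpPos U) (hX : UpSP X) (hnW : ∀ x, U.n x ≠ 0 → x ∈ U.W) {κ : ℕ}
    {δ Λ : ℝ} (hj : j + 1 < U.h) (hR : RootC U.M (U.h - j - 1) κ δ U.Amp Λ U.eta)
    {l : V × Fin (I0 + 1)} (f : V → Fin κ)
    (hf : ∀ u w, G.Adj l.1 u → G.Adj l.1 w → G.Adj u w → f u ≠ f w)
    (hv : vioC G U.M (U.h - j) l.1 (cm G (X.m l.1)) U.W = 0)
    (hmin : ∀ lam ∈ OwnK Λ U.W, upObj G U j X l (U.su j l) ≤ upObj G U j X l lam) :
    ∑ x, upq G U j X l x * upv G U j X l (U.su j l) x ≤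
      δ + U.Amp * ∑ x, upq G U j X l x * min 1 (cm G (X.m l.1) x) := by
  have hj' : U.h - j = U.h - j - 1 + 1 := by omega
  rw [hj'] at hv
  obtain ⟨lam, h1, h2, h3, h4⟩ := hR V G (cm G (X.m l.1)) (upq G U j X l) U.W U.W l.1 f
    (UpV_.cm_nonneg' (hX.m l.1)) (UpV_.upq_nonneg hU hX l) (Finset.Subset.refl _)
    (fun c hc => ⟨(UpV_.upK_ne (UpV_.upq_ne hc).2.2).1.symm, hnW c (UpV_.upq_ne hc).1⟩) hf
    (by rw [hv]; norm_num)
  refine ((hmin lam ⟨h1, h2, h3⟩).trans (le_of_eq ?_)).trans h4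
  unfold upObj upv
  refine Finset.sum_congr rfl fun x _ => ?_
  congr 1
  congr 1
  funext u
  rw [UpB_.cm_upM]
  rfl

end

end UpR_

section

variable {V : Type} [Fintype V] {P : Cn} {G : SimpleGraph V} {s : Fin P.N} {S : Sta P V}
  {I : Inp P V} {b : Fin 2}

/-- The signs of the UP system. -/
theorem upPos_upi (he : 0 < P.e0) (hth : 0 < P.th b) (hG : 0 < P.Gu b) (heu : 0 < P.eu b)
    (hAu : 0 ≤ P.Au b) (hn1 : ∀ x, 0 ≤ I.n1 x) (hsg : ∀ j l, 0 ≤ I.sg b j l)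
    (hsu : ∀ j l u, 0 ≤ I.su b j l u) : UpPos (upi P G I b) where
  e := half_pos (mul_pos he hth)
  th := hth
  Gam := hG
  eta := heu
  Amp := hAu
  n := hn1
  a := al_pos' I
  sg := hsg
  su := hsu

/-- **The first thin step of the UP system `b` of a record.** -/
theorem stop_rec {κ : ℕ} {c0 δ e1 : ℝ} {B : ℕ → ℝ} (hC : UpC P b κ c0 δ e1 B)
    (hB : Best P G s S I) (hBU : BestU P G I) (he : 0 < P.e0) (he1 : P.e0 < 1)
    (hI0 : lv P.I0 ≤ P.e0) (hT : ∀ φ : List (Fin P.M) → V, ¬ Tree G P.h P.M φ)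
    (col : V → V → Fin κ)
    (hcol : ∀ v u w, G.Adj v u → G.Adj v w → G.Adj u w → col v u ≠ col v w)
    (hsg0 : ∀ j l, 0 ≤ I.sg b j l) (hsu0 : ∀ j l u, 0 ≤ I.su b j l u)
    -- the laws
    (hn0 : ∀ x, 0 ≤ I.n0 x) (hs0 : ∑ x, I.n0 x ≤ 1) (hn1 : ∀ x, 0 ≤ I.n1 x)
    (hs1 : ∑ x, I.n1 x ≤ 1) (hnW : ∀ x, I.n1 x ≠ 0 → x ∈ I.W)
    (hiso : ∀ x, I.n1 x ≠ 0 → ∃ z ∈ I.W, G.Adj x z) (hn10 : ∀ x, c0 * I.n1 x ≤ I.n0 x)
    (hn2s : ∑ x, I.n2 x = 1) (hn21 : ∀ x, c0 * I.n2 x ≤ I.n1 x)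
    (hat : ∀ x, I.n1 x ≤ P.xi2 / c0 * al P G I x)
    -- the worlds and the sides
    {Wp : V → Prop} (hWp : ∀ x, I.n2 x ≠ 0 → Wp x) (hWW : ∀ x, Wp x → x ∈ I.W)
    (hsA : ∀ j < P.h, (∀ x, Wp x →
        upA G (upi P G I b) j (upx P G I b j) x ≤ 2 * P.th b * al P G I x) ∨
      ∀ x, Wp x → 2 * P.th b * al P G I x ≤ upA G (upi P G I b) j (upx P G I b j) x)
    (hsS : ∀ j < P.h, (∀ x, Wp x → upSh G (upi P G I b) j (upx P G I b j) x ≤ 3 / 8) ∨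
      ∀ x, Wp x → 3 / 8 ≤ upSh G (upi P G I b) j (upx P G I b j) x)
    (hsg : ∀ j < P.h, (∀ x, Wp x → upg G (upi P G I b) j (upx P G I b j) x ≤ P.Bu b) ∨
      ∀ x, Wp x → P.Bu b ≤ upg G (upi P G I b) j (upx P G I b j) x) :
    ∃ j < P.h, (∀ x, Wp x → (upx P G I b j).f x = 1) ∧
      ∀ x, Wp x → upA G (upi P G I b) j (upx P G I b j) x ≤ 2 * P.th b * al P G I x := by
  have hU : UpPos (upi P G I b) := upPos_upi he hC.th (by linarith [hC.Gu]) hC.eu hC.Au hn1 hsg0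
    hsu0
  have hc0 := hC.c0pos
  have hlv : PayM_.LvH P G I I.n1 (4 * c0⁻¹) := hB.lvH he he1 hI0 hn0 hs0 hn1
    (inv_nonneg.2 hc0.le) (fun x => by
      rw [← div_eq_inv_mul, le_div_iff₀ hc0, mul_comm]
      exact hn10 x) hnW hiso
  have hel : ∀ x, P.e0 ≤ al P G I x := LvG_.e0_le_al he hB.pi_nonneg
  have hpay : ∀ j < P.h, ∑ x, I.n1 x * upg G (upi P G I b) j (upx P G I b j) x ≤
      PayI_.cPay * (4 * c0⁻¹) * (1 + P.Lu b + 1 / P.eu b) := by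
    intro j hj
    refine upg_mean (P := P) (G := G) (I := I) (b := b) hn1 (by positivity)
      (fun x _ => hI0.trans (hel x))
      (fun x _ => (LvG_.al_lt_two he he1 hB.pi_nonneg hB.sum_pi.le x).le)
      hlv.Db he hC.th (hsg0 j) (hBU.sum_sg hj).le (fun l hl => hBU.sg_supp hj hl)
      (UpV_.ups_sp hU j).f0 (UpV_.ups_sp hU j).f1 hn1 hnW hC.eu hC.Lu (hsu0 j)
      (fun l => (hBU.su_mem b j hj l).2.1) (fun l => (hBU.su_mem b j hj l).2.2) zero_le_one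
      (fun l hl => ?_)
    exact (hBU.foc_le_mass hj hU (UpV_.ups_sp hU j)
      (hBU.sg_supp hj (left_ne_zero_of_mul hl))).trans hs1
  have hst := UpI_.stop (G := G) (U := upi P G I b) hU hC.h hC.M hT hs1 hnW
    (fun j hj => (hBU.sum_sg hj).le) col hcol hC.d hC.e1n hC.Bu
    (div_nonneg hC.xi2 hc0.le) (fun x => ?_) hat
    (fun j hj x _ hx l h1 h2 => upB_own hU hC.Gu hC.Bu.le hC.B0 hC.Bs (hC.Be j hj) hx h1 h2)
    (fun j hj l hl h1 => ?_) hpay hC.i1 hC.i2 hC.i3 hC.i4 hn2s hn21 hWp hWW hsA hsS hsg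
  · exact hst
  · show P.e0 * P.th b / 2 ≤ P.th b * al P G I x
    have h1 := hel x
    have h2 := hC.th
    nlinarith
  · have hj2 : j + 1 < P.h := hj
    have hj1 : j < P.h := by omega
    have hR := hC.root (P.h - j - 1) (by omega) (by omega)
    exact UpR_.own_step hU (UpV_.ups_sp hU j) hnW hj hR
      (col l.1) (hcol l.1) (UpV_.valid hU hT j l.1 h1) (hBU.su_min b j hj1 l)

/-- **(G5) The UP bound for the UP system `b` of a record.** -/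
theorem upL_rec {κ : ℕ} {c0 δ e1 : ℝ} {B : ℕ → ℝ} (hC : UpC P b κ c0 δ e1 B)
    (hB : Best P G s S I) (hBU : BestU P G I) (he : 0 < P.e0) (he1 : P.e0 < 1)
    (hI0 : lv P.I0 ≤ P.e0) (hT : ∀ φ : List (Fin P.M) → V, ¬ Tree G P.h P.M φ)
    (col : V → V → Fin κ)
    (hcol : ∀ v u w, G.Adj v u → G.Adj v w → G.Adj u w → col v u ≠ col v w)
    (hsg0 : ∀ j l, 0 ≤ I.sg b j l) (hsu0 : ∀ j l u, 0 ≤ I.su b j l u)
    -- the laws
    (hn0 : ∀ x, 0 ≤ I.n0 x) (hs0 : ∑ x, I.n0 x ≤ 1) (hn1 : ∀ x, 0 ≤ I.n1 x)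
    (hs1 : ∑ x, I.n1 x ≤ 1) (hnW : ∀ x, I.n1 x ≠ 0 → x ∈ I.W)
    (hiso : ∀ x, I.n1 x ≠ 0 → ∃ z ∈ I.W, G.Adj x z) (hn10 : ∀ x, c0 * I.n1 x ≤ I.n0 x)
    (hn2s : ∑ x, I.n2 x = 1) (hn21 : ∀ x, c0 * I.n2 x ≤ I.n1 x)
    (hat : ∀ x, I.n1 x ≤ P.xi2 / c0 * al P G I x)
    -- the worlds and the sides
    {Wp : V → Prop} (hWp : ∀ x, I.n2 x ≠ 0 → Wp x) (hWW : ∀ x, Wp x → x ∈ I.W)
    (hsA : ∀ j < P.h, (∀ x, Wp x →
        upA G (upi P G I b) j (upx P G I b j) x ≤ 2 * P.th b * al P G I x) ∨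
      ∀ x, Wp x → 2 * P.th b * al P G I x ≤ upA G (upi P G I b) j (upx P G I b j) x)
    (hsS : ∀ j < P.h, (∀ x, Wp x → upSh G (upi P G I b) j (upx P G I b j) x ≤ 3 / 8) ∨
      ∀ x, Wp x → 3 / 8 ≤ upSh G (upi P G I b) j (upx P G I b j) x)
    (hsg : ∀ j < P.h, (∀ x, Wp x → upg G (upi P G I b) j (upx P G I b j) x ≤ P.Bu b) ∨
      ∀ x, Wp x → P.Bu b ≤ upg G (upi P G I b) j (upx P G I b j) x) :
    ∀ z, Wp z → UpL G I.n2 (al P G I) (2 * P.Gu b) (c0⁻¹ * (2 * P.th b) * √2) z := by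
  have hU : UpPos (upi P G I b) := upPos_upi he hC.th (by linarith [hC.Gu]) hC.eu hC.Au hn1 hsg0
    hsu0
  have hel : ∀ x, P.e0 ≤ al P G I x := LvG_.e0_le_al he hB.pi_nonneg
  exact UpI_.upL_of_stop (G := G) (U := upi P G I b) hU hs1 (fun x => hI0.trans (hel x))
    (fun x => LvG_.al_lt_two he he1 hB.pi_nonneg hB.sum_pi.le x)
    (S := mlW P I.W) (fun z hz i => mem_mlW.2 hz) (fun j hj => hBU.sg_mem b j hj)
    (fun j hj => hBU.sg_max b j hj) hC.c0pos hn21 hWp hWW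
    (stop_rec hC hB hBU he he1 hI0 hT col hcol hsg0 hsu0 hn0 hs0 hn1 hs1 hnW hiso hn10 hn2s hn21
      hat hWp hWW hsA hsS hsg)

end

end Pool.Agent.Lib.GSX
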