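import Pool.Agent.Lib.GSX.Rec

/-!
# Windows

The labels whose scale is far from the scale of the vertex carry a small share of the flux: the
level-wise bounds of the main law give `∑ x, n x * outG g x ≤ 14 * Δ * (1 / √2) ^ (g - 1)`.
Also: the flux identity, and the counting of the bad stages.
-/

set_option autoImplicit false

namespace Pool.Agent.Lib.GSX.Win

open Finset Classical
open Pool.Agent.Lib.GSLE (kp kp_nonneg win win_nonneg win_le_one win_eq_one win_eq_zero alp alp_pos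
  alp_eq tail_le exists_level sc_le le_sc)

section

variable {V : Type} [Fintype V]

/-! ### The incidence and the scale -/

theorem inc_nonneg {P : Cn} (G : SimpleGraph V) (W : Finset V) (x : V) (l : Ml P V) :
    0 ≤ inc G W x l := by
  unfold inc
  split_ifs <;> norm_num

theorem inc_le_one {P : Cn} (G : SimpleGraph V) (W : Finset V) (x : V) (l : Ml P V) :
    inc G W x l ≤ 1 := by
  unfold inc
  split_ifs <;> norm_num

theorem inc_of_notMem {P : Cn} (G : SimpleGraph V) {W : Finset V} (x : V) {l : Ml P V}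
    (h : l.1 ∉ W) : inc G W x l = 0 := by
  unfold inc
  rw [if_neg fun h1 => h h1.2]

theorem inc_snd {P : Cn} (G : SimpleGraph V) (W : Finset V) (x y : V) (i j : Fin (P.I0 + 1)) :
    inc (P := P) G W x (y, i) = inc (P := P) G W x (y, j) := rfl

theorem lv_pos (i : ℕ) : 0 < lv i := by
  unfold lv
  positivity

variable (P : Cn) (G : SimpleGraph V) (I : Inp P V)

theorem al_pos (x : V) : 0 < al P G I x := alp_pos _ _ _ _ _

variable {P G I}

theorem al_eq (he : 0 < P.e0) (hp : ∀ l, 0 ≤ I.pi l) (x : V) :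
    P.e0 + ∑ l, inc G I.W x l * I.pi l * kp (al P G I x / lv l.2) = al P G I x :=
  alp_eq (c := inc G I.W) (fun _ => he) (fun _ _ => inc_nonneg _ _ _ _) hp x

theorem e0_le_al (he : 0 < P.e0) (hp : ∀ l, 0 ≤ I.pi l) (x : V) : P.e0 ≤ al P G I x :=
  le_sc he fun l => mul_nonneg (inc_nonneg _ _ _ _) (hp l)

theorem al_lt_two (he : 0 < P.e0) (he1 : P.e0 < 1) (hp : ∀ l, 0 ≤ I.pi l) (hp1 : ∑ l, I.pi l ≤ 1)
    (x : V) : al P G I x < 2 := by
  have h1 : al P G I x ≤ P.e0 + ∑ l, inc G I.W x l * I.pi l :=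
    sc_le he fun l => mul_nonneg (inc_nonneg _ _ _ _) (hp l)
  have h2 : ∑ l, inc G I.W x l * I.pi l ≤ ∑ l, I.pi l :=
    Finset.sum_le_sum fun l _ => mul_le_of_le_one_left (hp l) (inc_le_one _ _ _ _)
  linarith

/-- The level of a vertex. -/
theorem exists_lev (he : 0 < P.e0) (he1 : P.e0 < 1) (he0 : lv P.I0 ≤ P.e0) (hp : ∀ l, 0 ≤ I.pi l)
    (hp1 : ∑ l, I.pi l ≤ 1) : ∃ k : V → ℕ, ∀ x, k x ≤ P.I0 ∧ (1 / 2 : ℝ) ^ (k x) ≤ al P G I x ∧
      al P G I x < 2 * (1 / 2 : ℝ) ^ (k x) := by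
  have h1 : ∀ x, ∃ k : ℕ, k ≤ P.I0 ∧ (1 / 2 : ℝ) ^ k ≤ al P G I x ∧
      al P G I x < 2 * (1 / 2 : ℝ) ^ k := by
    intro x
    obtain ⟨k, hk1, hk2⟩ := exists_level (al_pos P G I x) (al_lt_two he he1 hp hp1 x)
    refine ⟨k, ?_, hk1, hk2⟩
    by_contra hcon
    push Not at hcon
    have h2 : (1 / 2 : ℝ) ^ k ≤ (1 / 2 : ℝ) ^ (P.I0 + 1) :=
      pow_le_pow_of_le_one (by norm_num) (by norm_num) hcon
    have h3 : lv P.I0 ≤ al P G I x := he0.trans (e0_le_al he hp x)
    unfold lv at h3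
    rw [pow_succ] at h2
    linarith
  choose k hk using h1
  exact ⟨k, hk⟩

theorem hs_bounds {x : V} {k : ℕ} (h1 : (1 / 2 : ℝ) ^ k ≤ al P G I x)
    (h2 : al P G I x < 2 * (1 / 2 : ℝ) ^ k) : -(k : ℝ) ≤ hs P G I x ∧ hs P G I x < 1 - k := by
  have hk : Real.logb 2 ((1 / 2 : ℝ) ^ k) = -(k : ℝ) := by
    rw [one_div, inv_pow, Real.logb_inv, Real.logb_pow, Real.logb_self_eq_one one_lt_two, mul_one]
  have h3 : (0 : ℝ) < (1 / 2 : ℝ) ^ k := by positivity
  refine ⟨?_, ?_⟩
  · rw [← hk]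
    exact Real.logb_le_logb_of_le one_lt_two h3 h1
  · have h4 := Real.logb_lt_logb one_lt_two (al_pos P G I x) h2
    rw [Real.logb_mul two_ne_zero h3.ne', hk, Real.logb_self_eq_one one_lt_two] at h4
    unfold hs
    linarith

variable (P G I)

/-! ### The share outside the window -/

/-- The share of the labels outside the window `g`. -/
noncomputable def outG (g : ℝ) (x : V) : ℝ :=
  ∑ l : Ml P V, inc G I.W x l * I.pi l * kp (al P G I x / lv l.2) *
    (1 - win g (hs P G I x + (l.2 : ℕ))) / al P G I x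

/-- The share of the labels in the window `g`. -/
noncomputable def inG (g : ℝ) (x : V) : ℝ :=
  ∑ l : Ml P V, I.pi l * kk P G I g x l / al P G I x

theorem out_eq (x : V) : out P G I x = outG P G I P.gU x := rfl

variable {P G I}

theorem outG_nonneg (hp : ∀ l, 0 ≤ I.pi l) (g : ℝ) (x : V) : 0 ≤ outG P G I g x := by
  unfold outG
  refine Finset.sum_nonneg fun l _ => div_nonneg (mul_nonneg (mul_nonneg (mul_nonneg
    (inc_nonneg _ _ _ _) (hp l)) (kp_nonneg _)) ?_) (al_pos _ _ _ _).le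
  linarith [win_le_one g (hs P G I x + (l.2 : ℕ))]

theorem inG_nonneg (hp : ∀ l, 0 ≤ I.pi l) (g : ℝ) (x : V) : 0 ≤ inG P G I g x := by
  unfold inG kk
  exact Finset.sum_nonneg fun l _ => div_nonneg (mul_nonneg (hp l) (mul_nonneg (mul_nonneg
    (inc_nonneg _ _ _ _) (kp_nonneg _)) (win_nonneg _ _))) (al_pos _ _ _ _).le

/-- The flux identity. -/
theorem inG_add_outG (he : 0 < P.e0) (hp : ∀ l, 0 ≤ I.pi l) (g : ℝ) (x : V) :
    inG P G I g x + outG P G I g x = 1 - P.e0 / al P G I x := by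
  have h0 := al_pos P G I x
  have h1 := al_eq (G := G) he hp x
  unfold inG outG kk
  rw [← Finset.sum_add_distrib]
  have h2 : ∀ l : Ml P V, I.pi l * (inc G I.W x l * kp (al P G I x / lv l.2) *
      win g (hs P G I x + (l.2 : ℕ))) / al P G I x + inc G I.W x l * I.pi l *
      kp (al P G I x / lv l.2) * (1 - win g (hs P G I x + (l.2 : ℕ))) / al P G I x =
      inc G I.W x l * I.pi l * kp (al P G I x / lv l.2) / al P G I x := fun l => by ring
  rw [Finset.sum_congr rfl fun l _ => h2 l, ← Finset.sum_div]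
  have h3 : ∑ l, inc G I.W x l * I.pi l * kp (al P G I x / lv l.2) = al P G I x - P.e0 := by
    linarith
  rw [h3, sub_div, div_self h0.ne']

theorem inG_le_one (he : 0 < P.e0) (hp : ∀ l, 0 ≤ I.pi l) (g : ℝ) (x : V) :
    inG P G I g x ≤ 1 := by
  have h1 := inG_add_outG (G := G) he hp g x
  have h2 := outG_nonneg (G := G) hp g x
  have h3 : 0 ≤ P.e0 / al P G I x := div_nonneg he.le (al_pos _ _ _ _).le
  linarith

theorem outG_le_one (he : 0 < P.e0) (hp : ∀ l, 0 ≤ I.pi l) (g : ℝ) (x : V) :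
    outG P G I g x ≤ 1 := by
  have h1 := inG_add_outG (G := G) he hp g x
  have h2 := inG_nonneg (G := G) hp g x
  have h3 : 0 ≤ P.e0 / al P G I x := div_nonneg he.le (al_pos _ _ _ _).le
  linarith

theorem win_mono {g g' : ℝ} (h : g ≤ g') (u : ℝ) : win g u ≤ win g' u := by
  unfold win
  exact max_le_max le_rfl (min_le_min le_rfl (by linarith))

theorem outG_anti (hp : ∀ l, 0 ≤ I.pi l) {g g' : ℝ} (h : g ≤ g') (x : V) :
    outG P G I g' x ≤ outG P G I g x := by
  unfold outG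
  refine Finset.sum_le_sum fun l _ => div_le_div_of_nonneg_right (mul_le_mul_of_nonneg_left ?_
    (mul_nonneg (mul_nonneg (inc_nonneg _ _ _ _) (hp l)) (kp_nonneg _))) (al_pos _ _ _ _).le
  linarith [win_mono h (hs P G I x + (l.2 : ℕ))]

/-- The weights of the hub mode for `C = ∅`. -/
theorem sum_wP_empty (s : Fin P.N) (S : Sta P V) (x : V) :
    ∑ l, wP P G S I ∅ l x = inG P G I P.g0 x := by
  unfold wP inG CP rich
  exact Finset.sum_congr rfl fun l _ => by rw [Finset.prod_empty, mul_one]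

/-- The flux outside the windows. -/
theorem sum_outG_le {n : V → ℝ} (hn : ∀ x, 0 ≤ n x) (he : 0 < P.e0) (he1 : P.e0 < 1)
    (he0 : lv P.I0 ≤ P.e0) (hp : ∀ l, 0 ≤ I.pi l) (hp1 : ∑ l, I.pi l ≤ 1) {Δ : ℝ} (hΔ : 0 ≤ Δ)
    (hD : ∀ y ∈ I.W, ∀ i : Fin (P.I0 + 1), GSLE.DD n (fun _ => P.e0) (inc G I.W) I.pi
      (fun l => lv l.2) (y, i) ≤ Δ) {g : ℕ} {γ : ℝ} (hγ : (g : ℝ) + 1 ≤ γ) :
    ∑ x, n x * outG P G I γ x ≤ 14 * Δ * (1 / √2) ^ g := by
  obtain ⟨k, hk⟩ := exists_lev (G := G) he he1 he0 hp hp1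
  set B : ℝ := 14 * Δ * (1 / √2) ^ g with hB
  have hB0 : 0 ≤ B := by positivity
  have h1 : ∀ l : Ml P V, ∑ x, n x / al P G I x * (inc G I.W x l * kp (al P G I x / lv l.2)) *
      (1 - win γ (hs P G I x + (l.2 : ℕ))) ≤ B := by
    intro l
    by_cases hl : l.1 ∈ I.W
    · have hli : (l.1, (⟨min (l.2 : ℕ) P.I0, by omega⟩ : Fin (P.I0 + 1))) = l :=
        Prod.ext rfl (Fin.ext (min_eq_left (Nat.lt_succ_iff.1 l.2.2)))
      have h2 := tail_le (n := n) (e := fun _ => P.e0) (c := inc G I.W) (π := I.pi)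
        (b := fun l : Ml P V => lv l.2) hn (fun _ _ => inc_nonneg _ _ _ _) (fun _ => lv_pos _)
        (K := P.I0) (fun i => (l.1, (⟨min i P.I0, by omega⟩ : Fin (P.I0 + 1))))
        (fun x => inc G I.W x l) (fun _ _ _ => rfl)
        (fun i hi => by
          show lv (min i P.I0) = _
          rw [min_eq_left hi]
          rfl) (Δ := Δ) (fun i _ => hD _ hl _) k (fun x => (hk x).2) (fun x => (hk x).1)
        (i := (l.2 : ℕ)) (Nat.lt_succ_iff.1 l.2.2) g
      rw [hli] at h2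
      refine le_trans ?_ h2
      rw [Finset.sum_filter]
      refine Finset.sum_le_sum fun x _ => ?_
      have h0 := al_pos P G I x
      have h3 : 0 ≤ n x / al P G I x * (inc G I.W x l * kp (al P G I x / lv l.2)) :=
        mul_nonneg (div_nonneg (hn x) h0.le) (mul_nonneg (inc_nonneg _ _ _ _) (kp_nonneg _))
      split_ifs with hc
      · exact mul_le_of_le_one_right h3 (by linarith [win_nonneg γ (hs P G I x + (l.2 : ℕ))])
      · obtain ⟨h4, h5⟩ := hs_bounds (hk x).2.1 (hk x).2.2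
        have h6 : |hs P G I x + ((l.2 : ℕ) : ℝ)| ≤ γ := by
          have h7 : ((k x : ℕ) : ℝ) ≤ (l.2 : ℕ) + g := by
            have : k x ≤ (l.2 : ℕ) + g := by omega
            exact_mod_cast this
          have h8 : ((l.2 : ℕ) : ℝ) ≤ (k x : ℕ) + g := by
            have : (l.2 : ℕ) ≤ k x + g := by omega
            exact_mod_cast this
          rw [abs_le]
          constructor <;> linarith
        rw [win_eq_one h6, sub_self, mul_zero]
    · refine le_trans (le_of_eq (Finset.sum_eq_zero fun x _ => ?_)) hB0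
      rw [inc_of_notMem G x hl]
      ring
  calc ∑ x, n x * outG P G I γ x = ∑ l, I.pi l * ∑ x, n x / al P G I x *
        (inc G I.W x l * kp (al P G I x / lv l.2)) * (1 - win γ (hs P G I x + (l.2 : ℕ))) := by
        unfold outG
        simp_rw [Finset.mul_sum]
        rw [Finset.sum_comm]
        exact Finset.sum_congr rfl fun l _ => Finset.sum_congr rfl fun x _ => by ring
    _ ≤ ∑ l, I.pi l * B := Finset.sum_le_sum fun l _ => mul_le_mul_of_nonneg_left (h1 l) (hp l)
    _ = (∑ l, I.pi l) * B := (Finset.sum_mul _ _ _).symm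
    _ ≤ B := mul_le_of_le_one_left hB0 hp1

/-- Markov's inequality for the share outside the windows: `m` is a law with a bounded density
against `n`. -/
theorem outG_rare {n m : V → ℝ} (hn : ∀ x, 0 ≤ n x) (he : 0 < P.e0) (he1 : P.e0 < 1)
    (he0 : lv P.I0 ≤ P.e0) (hp : ∀ l, 0 ≤ I.pi l) (hp1 : ∑ l, I.pi l ≤ 1) {Δ : ℝ} (hΔ : 0 ≤ Δ)
    (hD : ∀ y ∈ I.W, ∀ i : Fin (P.I0 + 1), GSLE.DD n (fun _ => P.e0) (inc G I.W) I.pi
      (fun l => lv l.2) (y, i) ≤ Δ) {g : ℕ} {γ : ℝ} (hγ : (g : ℝ) + 1 ≤ γ)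
    {C t ε : ℝ} (hC : 0 ≤ C) (hm : ∀ x, m x ≤ C * n x) (ht : 0 < t)
    (hε : C * (14 * Δ * (1 / √2) ^ g) ≤ ε * t) :
    ∑ x with t ≤ outG P G I γ x, m x ≤ ε := by
  have h1 := sum_outG_le hn he he1 he0 hp hp1 hΔ hD hγ
  have h2 : t * ∑ x with t ≤ outG P G I γ x, m x ≤ C * ∑ x, n x * outG P G I γ x := by
    rw [Finset.mul_sum, Finset.mul_sum]
    refine (Finset.sum_le_sum fun x hx => ?_).trans (Finset.sum_le_sum_of_subset_of_nonneg
      (Finset.filter_subset (fun x => t ≤ outG P G I γ x) univ) fun x _ _ =>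
        mul_nonneg hC (mul_nonneg (hn x) (outG_nonneg hp γ x)))
    have h3 := (Finset.mem_filter.1 hx).2
    have h4 : t * m x ≤ t * (C * n x) := mul_le_mul_of_nonneg_left (hm x) ht.le
    have h5 : t * (C * n x) ≤ outG P G I γ x * (C * n x) :=
      mul_le_mul_of_nonneg_right h3 (mul_nonneg hC (hn x))
    linarith [mul_comm (outG P G I γ x) (C * n x), mul_assoc C (n x) (outG P G I γ x)]
  have h6 := mul_le_mul_of_nonneg_left h1 hC
  have h7 : t * ∑ x with t ≤ outG P G I γ x, m x ≤ t * ε := by linarith [mul_comm ε t]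
  exact le_of_mul_le_mul_left h7 ht

/-- The typical vertex: its scale is above the floor and the share outside the window is small, so
the labels in the window carry most of the flux. -/
theorem inG_ge (he : 0 < P.e0) (hp : ∀ l, 0 ≤ I.pi l) {g t r : ℝ} {x : V}
    (h1 : outG P G I g x ≤ t) (h2 : P.e0 ≤ r * al P G I x) : 1 - r - t ≤ inG P G I g x := by
  have h3 := inG_add_outG (G := G) he hp g x
  have h4 : P.e0 / al P G I x ≤ r := by
    rw [div_le_iff₀ (al_pos _ _ _ _)]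
    exact h2
  linarith

end

/-! ### Bad stages -/

/-- If each of the `N` stages is bad with probability at most `δ`, then more than `N / 2` stages are
bad with probability at most `2 * δ`. -/
theorem bad_count {Ω : Type*} [Fintype Ω] {N : ℕ} {Q : Ω → ℝ} (hQ : ∀ ω, 0 ≤ Q ω)
    (bad : Fin N → Ω → Prop) {δ : ℝ} (hδ : 0 ≤ δ) (h : ∀ s, ∑ ω with bad s ω, Q ω ≤ δ) :
    ∑ ω with (N : ℝ) < 2 * ((univ.filter fun s => bad s ω).card : ℝ), Q ω ≤ 2 * δ := by
  rcases Nat.eq_zero_or_pos N with hN | hN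
  · subst hN
    refine le_trans (le_of_eq ?_) (by linarith : (0 : ℝ) ≤ 2 * δ)
    refine Finset.sum_eq_zero fun ω hω => ?_
    have h1 := (Finset.mem_filter.1 hω).2
    rw [Finset.univ_eq_empty, Finset.filter_empty, Finset.card_empty] at h1
    norm_num at h1
  have hN0 : (0 : ℝ) < N := by exact_mod_cast hN
  have h1 : ∑ ω, Q ω * ((univ.filter fun s => bad s ω).card : ℝ) ≤ N * δ := by
    calc ∑ ω, Q ω * ((univ.filter fun s => bad s ω).card : ℝ)
        = ∑ ω, ∑ s : Fin N, (if bad s ω then Q ω else 0) := by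
          refine Finset.sum_congr rfl fun ω _ => ?_
          rw [← Finset.sum_filter, Finset.sum_const, nsmul_eq_mul, mul_comm]
      _ = ∑ s : Fin N, ∑ ω with bad s ω, Q ω := by
          rw [Finset.sum_comm]
          exact Finset.sum_congr rfl fun s _ => (Finset.sum_filter _ _).symm
      _ ≤ ∑ _s : Fin N, δ := Finset.sum_le_sum fun s _ => h s
      _ = N * δ := by rw [Finset.sum_const, Finset.card_univ, Fintype.card_fin, nsmul_eq_mul]
  have h2 : N * ∑ ω with (N : ℝ) < 2 * ((univ.filter fun s => bad s ω).card : ℝ), Q ω ≤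
      2 * ∑ ω, Q ω * ((univ.filter fun s => bad s ω).card : ℝ) := by
    rw [Finset.mul_sum, Finset.mul_sum]
    refine (Finset.sum_le_sum fun ω hω => ?_).trans (Finset.sum_le_sum_of_subset_of_nonneg
      (Finset.filter_subset (fun ω => (N : ℝ) < 2 * ((univ.filter fun s => bad s ω).card : ℝ)) univ)
        fun ω _ _ => mul_nonneg zero_le_two (mul_nonneg (hQ ω) (Nat.cast_nonneg _)))
    have h3 := (Finset.mem_filter.1 hω).2
    nlinarith [hQ ω]
  have h4 : N * ∑ ω with (N : ℝ) < 2 * ((univ.filter fun s => bad s ω).card : ℝ), Q ω ≤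
      N * (2 * δ) := by nlinarith
  exact le_of_mul_le_mul_left h4 hN0

/-- Most chains have at least `N / 2` good stages. -/
theorem exists_good_stages {Ω : Type*} [Fintype Ω] {N : ℕ} {Q : Ω → ℝ} (hQ : ∀ ω, 0 ≤ Q ω)
    (hQ1 : ∑ ω, Q ω = 1) (bad : Fin N → Ω → Prop) {δ : ℝ} (hδ : 0 ≤ δ)
    (h : ∀ s, ∑ ω with bad s ω, Q ω ≤ δ) :
    1 - 2 * δ ≤ ∑ ω with (N : ℝ) ≤ 2 * ((univ.filter fun s => ¬ bad s ω).card : ℝ), Q ω := by
  have h1 := bad_count hQ bad hδ h
  have h2 : ∀ ω, ((univ.filter fun s => bad s ω).card : ℝ) +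
      ((univ.filter fun s => ¬ bad s ω).card : ℝ) = N := by
    intro ω
    have h3 := Finset.card_filter_add_card_filter_not (s := (univ : Finset (Fin N)))
      (fun s => bad s ω)
    rw [Finset.card_univ, Fintype.card_fin] at h3
    exact_mod_cast h3
  have h4 : ∑ ω with ¬ (N : ℝ) < 2 * ((univ.filter fun s => bad s ω).card : ℝ), Q ω ≤
      ∑ ω with (N : ℝ) ≤ 2 * ((univ.filter fun s => ¬ bad s ω).card : ℝ), Q ω := by
    refine Finset.sum_le_sum_of_subset_of_nonneg (fun ω hω => ?_) fun ω _ _ => hQ ω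
    rw [Finset.mem_filter] at hω ⊢
    refine ⟨hω.1, ?_⟩
    have h5 := hω.2
    push Not at h5
    linarith [h2 ω]
  have h6 := Finset.sum_filter_add_sum_filter_not (univ : Finset Ω)
    (fun ω => (N : ℝ) < 2 * ((univ.filter fun s => bad s ω).card : ℝ)) Q
  linarith

end Pool.Agent.Lib.GSX.Win
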