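import Pool.Agent.Lib.TCW.XB

/-!
# Membership in the small set

The vertex `v` lies in `A.XB` at the parameter `θ` if at every stage it lies in a self-linked
incidence (`IncB`) with strict own windows and small own sums, and satisfies the conditions `NrB`
for the closed set of labels, with constants which are a little better.
-/

set_option autoImplicit false

namespace Pool.Agent.Lib.GSX

open Finset Classical
open Pool.Agent.Lib.TCW

/-- The strict conditions near `t` from `NrB`. -/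
theorem nrS_of {V Ω : Type} [Fintype Ω] {G : SimpleGraph V} {m s : ℕ} {η η1 K1 : ℝ} {k : Cst}
    {pl : Ω → Prop} {hub : Ω → V} {w : Ω → ℝ} {h : ℕ → V → ℝ} {H : ℕ → Ω → ℤ} {t : V}
    (hN : NrB G m s η1 ⟨k.w0, k.l0, k.l1, k.u, K1, k.R1⟩ (Finset.univ.filter pl) hub w h H t)
    (hK : K1 < k.K) (hη : η1 ≤ η) : NrS G m s η k pl hub w h H t where
  nr1 := by
    refine lt_of_le_of_lt (le_of_eq ?_) (lt_of_le_of_lt hN.nr1 hK)
    rw [Finset.filter_filter]
  nr2 S' hS' o0 := by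
    obtain ⟨h1, h2⟩ := Finset.mem_powersetCard.1 hS'
    refine lt_of_le_of_lt (le_of_eq ?_) (lt_of_le_of_lt (hN.nr2 S' h1 h2 (H s o0)) hK)
    rw [Finset.filter_filter]
    refine Finset.sum_congr (Finset.filter_congr fun o _ => ?_) fun _ _ => rfl
    rw [and_assoc]
  fan S' hS' F h3 h4 := by
    obtain ⟨h1, h2⟩ := Finset.mem_powersetCard.1 hS'
    by_contra hcon
    push Not at hcon
    set F' : ℕ → Finset Ω := fun a => if ha : a < k.R1 then (F ⟨a, ha⟩).filter
      (fun o => pl o ∧ G.Adj (hub o) t ∧ ∀ c ∈ insert s S', H c o + k.l0 ≤ h c t) else ∅ with hF'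
    have h5 : ∀ a (ha : a < k.R1), F' a = (F ⟨a, ha⟩).filter
        (fun o => pl o ∧ G.Adj (hub o) t ∧ ∀ c ∈ insert s S', H c o + k.l0 ≤ h c t) := by
      intro a ha
      rw [hF']
      simp only [dif_pos ha]
    refine hN.fan S' h1 h2 F' (fun a ha => ?_) ?_
    · have ha' : a < k.R1 := ha
      rw [h5 a ha']
      refine ⟨fun o ho => ?_, hη.trans (hcon ⟨a, ha'⟩), fun o ho o' ho' => ?_, fun o ho => ?_⟩
      · exact Finset.mem_filter.2 ⟨Finset.mem_univ _, (Finset.mem_filter.1 ho).2.1⟩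
      · exact h3 _ o (Finset.mem_filter.1 ho).1 o' (Finset.mem_filter.1 ho').1
      · exact (Finset.mem_filter.1 ho).2.2
    · intro a b hab hb o ho o' ho' c hc
      have hb' : b < k.R1 := hb
      rw [h5 a (hab.trans hb')] at ho
      rw [h5 b hb'] at ho'
      exact h4 ⟨a, hab.trans hb'⟩ ⟨b, hb'⟩ hab o (Finset.mem_filter.1 ho).1 o'
        (Finset.mem_filter.1 ho').1 c hc

/-- Enlarging the sets of nodes and labels increases the links. -/
theorem kap_univ {V Ω : Type} [Fintype V] [Fintype Ω] {As : Finset V} {O : Finset Ω}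
    {I : V → Ω → Prop} {r : V → ℝ} {w : Ω → ℝ} (hr : ∀ x, 0 ≤ r x) (hw : ∀ o, 0 ≤ w o) (x : V)
    (o : Ω) : TCH.kap As O I r w x o ≤ TCH.kap Finset.univ Finset.univ I r w x o := by
  unfold TCH.kap
  have h1 : ∀ x' : V, ∑ o' ∈ O with I x o' ∧ I x' o', w o' ≤
      ∑ o' ∈ (Finset.univ : Finset Ω) with I x o' ∧ I x' o', w o' := fun x' =>
    Finset.sum_le_sum_of_subset_of_nonneg (Finset.filter_subset_filter _ (Finset.subset_univ _))
      fun o' _ _ => hw o'
  refine (Finset.sum_le_sum fun x' _ => mul_le_mul_of_nonneg_left (h1 x') (hr x')).trans ?_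
  exact Finset.sum_le_sum_of_subset_of_nonneg
    (Finset.filter_subset_filter _ (Finset.subset_univ _)) fun x' _ _ =>
      mul_nonneg (hr x') (Finset.sum_nonneg fun o' _ => hw o')

/-- The facts about one stage which put `v` into the small set. -/
structure InXB {P V Ω : Type} [Fintype V] [Fintype Ω] (A : FRec P V Ω) (G : SimpleGraph V)
    (v0 : ℕ) (k : Cst) (K0 ε η : ℝ) (m s : ℕ) (θ : P) (v : V) (ε0 η1 K1 : ℝ) (As : Finset V)
    (O : Finset Ω) (Own I : V → Ω → Prop) : Prop where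
  r0 : ∀ x, 0 ≤ A.r s x θ
  w0 : ∀ o, 0 ≤ A.w s o θ
  inc : IncB ε0 As O Own (fun x => A.r s x θ) (fun o => A.w s o θ) I v
  own : ∀ x ∈ As, ∀ o ∈ O, Own x o → A.Oo G v0 k s x o θ
  wI : ∀ x ∈ As, ∑ o' with A.Oc G v0 k s x o' θ, A.w s o' θ < K0
  rI : ∀ o ∈ O, ∑ x' with A.Oc G v0 k s x' o θ, A.r s x' θ < K0
  eps : ε < ε0
  nr : NrB G m s η1 ⟨k.w0, k.l0, k.l1, k.u, K1, k.R1⟩ (Finset.univ.filter fun o => A.pl s o θ)
    (A.hub s) (fun o => A.w s o θ) (fun c x => A.h c x θ) (A.H s) v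
  K1 : K1 < k.K
  eta : η1 ≤ η

/-- **Membership in the small set.** -/
theorem mem_XB {P V Ω : Type} [Fintype V] [Fintype Ω] {A : FRec P V Ω} {G : SimpleGraph V}
    {v0 : ℕ} {k : Cst} {K0 ε η : ℝ} {m q : ℕ} {θ : P} {v : V}
    (h : ∀ s < q, ∃ (ε0 η1 K1 : ℝ) (As : Finset V) (O : Finset Ω) (Own I : V → Ω → Prop),
      InXB A G v0 k K0 ε η m s θ v ε0 η1 K1 As O Own I) :
    v ∈ A.XB G v0 k K0 ε η m q θ := by
  intro s hs
  obtain ⟨ε0, η1, K1, As, O, Own, I, hB⟩ := h s (Finset.mem_range.1 hs)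
  refine ⟨⟨I, ?_, ?_, ?_, ?_, hB.inc.ne⟩, nrS_of hB.nr hB.K1 hB.eta⟩
  · intro x o hxo
    obtain ⟨h1, h2, h3⟩ := hB.inc.mem x o hxo
    exact hB.own x h1 o h2 h3
  · intro x o hxo
    exact hB.wI x (hB.inc.mem x o hxo).1
  · intro x o hxo
    exact hB.rI o (hB.inc.mem x o hxo).2.1
  · intro x o hxo
    exact lt_of_lt_of_le hB.eps ((hB.inc.kp x o hxo).trans (kap_univ hB.r0 hB.w0 x o))

end Pool.Agent.Lib.GSX
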